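import Pool.Agent.Lib.MP_8daebb_an.SV.Ker

/-! Cutoffs and radial weights. -/

open MeasureTheory Metric Filter Topology Set
open scoped RealInnerProductSpace ENNReal ContDiff

namespace Pool.Agent.Lib.MP_8daebb_an.SV

theorem step_ker2 : ∃ (φ φ1 φ2 : ℝ → ℝ) (M : ℝ), 0 ≤ M ∧ ContDiff ℝ 2 φ ∧
    (∀ s, HasDerivAt φ (φ1 s) s) ∧ (∀ s, HasDerivAt φ1 (φ2 s) s) ∧ (∀ s, 0 ≤ φ s ∧ φ s ≤ 1) ∧
    (∀ s, s ≤ 0 → φ s = 1) ∧ (∀ s, 1 ≤ s → φ s = 0) ∧ (∀ s, |φ1 s| ≤ M ∧ |φ2 s| ≤ M) ∧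
    ∀ s, 1 < s → φ1 s = 0 ∧ φ2 s = 0 := by
  set φ : ℝ → ℝ := fun s => Real.smoothTransition (1 - s) with hφ
  have h3 : ContDiff ℝ 3 φ := Real.smoothTransition.contDiff.comp (by fun_prop)
  have h2 : ContDiff ℝ 2 (deriv φ) := (contDiff_succ_iff_deriv.1 h3).2.2
  have h1 : ContDiff ℝ 1 (deriv (deriv φ)) := (contDiff_succ_iff_deriv.1 h2).2.2
  have a0 : ∀ s, s ≤ 0 → φ s = 1 := fun s hs => Real.smoothTransition.one_of_one_le (by linarith)
  have a1 : ∀ s, 1 ≤ s → φ s = 0 := fun s hs => Real.smoothTransition.zero_of_nonpos (by linarith)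
  have key : ∀ s c : ℝ, φ =ᶠ[𝓝 s] (fun _ => c) → deriv φ s = 0 ∧ deriv (deriv φ) s = 0 := by
    intro s c h
    have g := h.deriv
    rw [deriv_const'] at g
    exact ⟨g.eq_of_nhds, by rw [g.deriv_eq, deriv_const]⟩
  have b0 : ∀ s, s < 0 → deriv φ s = 0 ∧ deriv (deriv φ) s = 0 := fun s hs =>
    key s 1 ((eventually_lt_nhds hs).mono fun t ht => a0 t ht.le)
  have b1 : ∀ s, 1 < s → deriv φ s = 0 ∧ deriv (deriv φ) s = 0 := fun s hs =>
    key s 0 ((eventually_gt_nhds hs).mono fun t ht => a1 t ht.le)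
  obtain ⟨M1, hM1⟩ := (isCompact_Icc (a := (0 : ℝ)) (b := 1)).exists_bound_of_continuousOn
    h2.continuous.continuousOn
  obtain ⟨M2, hM2⟩ := (isCompact_Icc (a := (0 : ℝ)) (b := 1)).exists_bound_of_continuousOn
    h1.continuous.continuousOn
  refine ⟨φ, deriv φ, deriv (deriv φ), max (max M1 M2) 0, le_max_right _ _,
    h3.of_le (by norm_num), fun s => (h3.differentiable (by norm_num) s).hasDerivAt,
    fun s => (h2.differentiable (by norm_num) s).hasDerivAt,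
    fun s => ⟨Real.smoothTransition.nonneg _, Real.smoothTransition.le_one _⟩, a0, a1,
    fun s => ?_, b1⟩
  by_cases hs : s ∈ Icc (0 : ℝ) 1
  · exact ⟨(hM1 s hs).trans ((le_max_left _ _).trans (le_max_left _ _)),
      (hM2 s hs).trans ((le_max_right _ _).trans (le_max_left _ _))⟩
  · have : deriv φ s = 0 ∧ deriv (deriv φ) s = 0 := by
      rcases not_and_or.1 hs with h | h
      · exact b0 s (not_le.1 h)
      · exact b1 s (not_le.1 h)
    simp [this.1, this.2]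

theorem sq_ker2 (a d : ℝ) (u : ℂ) :
    HasFDerivAt (fun u : ℂ => a + d * ‖u‖ ^ 2) ((2 * d) • innerSL ℝ u) u := by
  refine (((hasStrictFDerivAt_norm_sq u).hasFDerivAt.const_mul d).const_add a).congr_fderiv ?_
  rw [mul_comm, mul_smul, two_smul, two_smul]

theorem exists_cut : ∃ C : ℝ, 1 ≤ C ∧ ∀ r l : ℝ, 0 ≤ r → 0 < l → ∃ κ : ℂ → ℝ, Cut κ r l C := by
  obtain ⟨φ, φ1, φ2, M, hM, h1, h2, h3, h4, h5, h6, h7, h8⟩ := step_ker2
  refine ⟨1 + 20 * M, by linarith, fun r l hr hl => ?_⟩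
  set a := r + l / 4 with ha
  set b := r + 3 * l / 4 with hb
  have ha0 : 0 < a := by positivity
  have hb0 : 0 < b := by positivity
  set d := (l / 2 * (a + b))⁻¹ with hd
  have hd0 : 0 < d := by positivity
  set g : ℂ → ℝ := fun u => -(d * a ^ 2) + d * ‖u‖ ^ 2 with hg
  have hgb : ∀ u : ℂ, g u - 1 = d * (‖u‖ ^ 2 - b ^ 2) := fun u => by
    have : d * (b ^ 2 - a ^ 2) = 1 := by
      rw [show b ^ 2 - a ^ 2 = l / 2 * (a + b) by rw [ha, hb]; ring]
      exact inv_mul_cancel₀ (by positivity)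
    simp only [hg]; linarith
  have hL : ∀ u : ℂ, ‖u‖ ≤ b → ‖(2 * d) • innerSL ℝ u‖ ≤ 4 / l := fun u hu => by
    rw [norm_smul, innerSL_apply_norm, Real.norm_of_nonneg (by positivity)]
    calc 2 * d * ‖u‖ ≤ 2 * d * (a + b) := by gcongr; linarith
      _ = 4 / l := by rw [hd]; field_simp; norm_num
  have hout : ∀ u : ℂ, b < ‖u‖ → 1 < g u := fun u hu => by
    have : 0 < d * (‖u‖ ^ 2 - b ^ 2) := mul_pos hd0 (by nlinarith)
    linarith [hgb u]
  have e1 : fderiv ℝ (fun u => φ (g u)) = fun u => φ1 (g u) • ((2 * d) • innerSL ℝ u) :=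
    funext fun u => ((h2 (g u)).comp_hasFDerivAt u (sq_ker2 _ d u)).fderiv
  refine ⟨fun u => φ (g u), h1.comp (contDiff_const.add (contDiff_const.mul
    (contDiff_norm_sq ℝ))), fun u => h4 _, fun u hu => h5 _ ?_, fun u hu => h6 _ ?_,
    fun u => ?_, fun u => ?_⟩
  · have : d * ‖u‖ ^ 2 ≤ d * a ^ 2 := by gcongr
    simp only [hg]; linarith
  · have : 0 ≤ d * (‖u‖ ^ 2 - b ^ 2) := mul_nonneg hd0.le (by nlinarith)
    linarith [hgb u]
  · rw [e1]
    rcases le_or_gt ‖u‖ b with hu | hu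
    · simp only
      rw [norm_smul]
      calc _ ≤ M * (4 / l) := mul_le_mul (h7 _).1 (hL u hu) (norm_nonneg _) hM
        _ = 4 * M / l := by ring
        _ ≤ _ := by gcongr; linarith
    · simp only [(h8 _ (hout u hu)).1, zero_smul, norm_zero]
      positivity
  · have e2 := (((h3 (g u)).comp_hasFDerivAt u (sq_ker2 _ d u)).smul
      (((2 * d) • (innerSL ℝ : ℂ →L[ℝ] ℂ →L[ℝ] ℝ)).hasFDerivAt (x := u))).fderiv
    rw [e1]
    refine (congrArg norm e2).trans_le ?_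
    rcases le_or_gt ‖u‖ b with hu | hu
    · refine (norm_add_le _ _).trans ?_
      rw [ContinuousLinearMap.norm_smulRight_apply, norm_smul, norm_smul, norm_smul (φ2 _)]
      have g1 : ‖(innerSL ℝ : ℂ →L[ℝ] ℂ →L[ℝ] ℝ)‖ ≤ 1 := norm_innerSL_le ℝ
      have g2 : ‖2 * d‖ ≤ 4 / l ^ 2 := by
        rw [Real.norm_of_nonneg (by positivity)]
        calc 2 * d ≤ 2 * (l / 2 * l)⁻¹ := by rw [hd]; gcongr; linarith
          _ = _ := by field_simp; norm_num
      have g3 := hL u hu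
      calc _ ≤ M * (4 / l ^ 2 * 1) + M * (4 / l) * (4 / l) := by
            gcongr
            · exact (h7 _).1
            · exact (h7 _).2
            · exact g3
        _ = 20 * M / l ^ 2 := by ring
        _ ≤ _ := by gcongr; linarith
    · simp only [Function.comp, (h8 _ (hout u hu)).1, (h8 _ (hout u hu)).2, zero_smul,
        ContinuousLinearMap.zero_smulRight, add_zero, norm_zero]
      positivity

theorem pow_ker2 (n : ℕ) (s : ℝ) :
    HasDerivAt (fun s : ℝ => (max s 0) ^ (n + 2)) ((n + 2 : ℕ) * (max s 0) ^ (n + 1)) s := by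
  refine hasDerivAt_of_hasDerivAt_of_ne' (x := 0)
    (g := fun s : ℝ => ((n + 2 : ℕ) : ℝ) * (max s 0) ^ (n + 1)) (fun y hy => ?_) (by fun_prop)
    (by fun_prop) s
  rcases lt_or_gt_of_ne hy with h | h
  · refine (hasDerivAt_const y (0 : ℝ)).congr_of_eventuallyEq
      ((eventually_lt_nhds h).mono fun t ht => by simp [max_eq_right ht.le]) |>.congr_deriv ?_
    simp [max_eq_right h.le]
  · refine (hasDerivAt_pow (n + 2) y).congr_of_eventuallyEq
      ((eventually_gt_nhds h).mono fun t ht => by simp [max_eq_left ht.le]) |>.congr_deriv ?_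
    simp [max_eq_left h.le]

theorem smooth_ker2 (n : ℕ) : ContDiff ℝ 1 (fun s : ℝ => (max s 0) ^ (n + 2)) := by
  refine contDiff_one_iff_deriv.2 ⟨fun s => (pow_ker2 n s).differentiableAt, ?_⟩
  rw [show deriv (fun s : ℝ => (max s 0) ^ (n + 2)) = _ from funext fun s => (pow_ker2 n s).deriv]
  fun_prop

theorem lip_ker2 {x y : ℝ} (hx : 0 ≤ x) (hy : 0 ≤ y) :
    |max (1 - x ^ 2) 0 - max (1 - y ^ 2) 0| ≤ 2 * |x - y| := by
  have e : ∀ x : ℝ, 0 ≤ x → max (1 - x ^ 2) 0 = 1 - (min x 1) ^ 2 := fun x hx => by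
    rcases le_total x 1 with h | h
    · rw [min_eq_left h, max_eq_left (by nlinarith)]
    · rw [min_eq_right h, max_eq_right (by nlinarith)]; norm_num
  have h1 := abs_min_sub_min_le_max x 1 y 1
  rw [sub_self, abs_zero, max_eq_left (abs_nonneg _)] at h1
  have h2 : 0 ≤ min x 1 + min y 1 := by positivity
  rw [e x hx, e y hy, show ∀ p q : ℝ, 1 - p ^ 2 - (1 - q ^ 2) = -((p + q) * (p - q)) from
    fun p q => by ring, abs_neg, abs_mul, abs_of_nonneg h2]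
  exact mul_le_mul (by linarith [min_le_right x 1, min_le_right y 1]) h1 (abs_nonneg _) zero_le_two

theorem alg_ker2 {a b : ℝ} (ha : 0 ≤ a) (ha1 : a ≤ 1) (hb : 0 ≤ b) (hb1 : b ≤ 1) :
    |a ^ 3 - b ^ 3| ≤ 3 * |a - b| ∧ |3 * a ^ 2 - 3 * b ^ 2| ≤ 6 * |a - b| ∧
      |√(a ^ 3) - √(b ^ 3)| ≤ 3 / 2 * |a - b| := by
  refine ⟨?_, ?_, ?_⟩
  · rw [show a ^ 3 - b ^ 3 = (a ^ 2 + a * b + b ^ 2) * (a - b) by ring, abs_mul,
      abs_of_nonneg (by positivity)]
    exact mul_le_mul_of_nonneg_right (by nlinarith) (abs_nonneg _)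
  · rw [show 3 * a ^ 2 - 3 * b ^ 2 = 3 * (a + b) * (a - b) by ring, abs_mul,
      abs_of_nonneg (by positivity)]
    exact mul_le_mul_of_nonneg_right (by linarith) (abs_nonneg _)
  · obtain ⟨x, hx, rfl⟩ : ∃ x, 0 ≤ x ∧ a = x ^ 2 := ⟨√a, by positivity, (Real.sq_sqrt ha).symm⟩
    obtain ⟨y, hy, rfl⟩ : ∃ y, 0 ≤ y ∧ b = y ^ 2 := ⟨√b, by positivity, (Real.sq_sqrt hb).symm⟩
    have hx1 : x ≤ 1 := by nlinarith
    have hy1 : y ≤ 1 := by nlinarith
    rw [show (x ^ 2) ^ 3 = (x ^ 3) ^ 2 by ring, show (y ^ 2) ^ 3 = (y ^ 3) ^ 2 by ring,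
      Real.sqrt_sq (by positivity), Real.sqrt_sq (by positivity),
      show x ^ 3 - y ^ 3 = (x ^ 2 + x * y + y ^ 2) * (x - y) by ring,
      show x ^ 2 - y ^ 2 = (x + y) * (x - y) by ring, abs_mul, abs_mul,
      abs_of_nonneg (by positivity), abs_of_nonneg (show 0 ≤ x + y by positivity), ← mul_assoc]
    exact mul_le_mul_of_nonneg_right (by nlinarith) (abs_nonneg _)

theorem chi_props {r : ℝ} (hr : 0 < r) :
    ContDiff ℝ 1 (chi r) ∧ ContDiff ℝ 1 (om r) ∧ (∀ u, 0 ≤ chi r u ∧ chi r u ≤ 1) ∧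
      (∀ u, 0 ≤ om r u ∧ om r u ≤ 3) ∧ (∀ u, 3 * chi r u ≤ om r u) ∧
      (∀ u : ℂ, r ≤ ‖u‖ → chi r u = 0 ∧ om r u = 0 ∧ fderiv ℝ (chi r) u = 0 ∧
        fderiv ℝ (om r) u = 0) ∧
      (∀ u v : ℂ, fderiv ℝ (chi r) u v = -(2 / r ^ 2) * om r u * ⟪u, v⟫) ∧
      (∀ u, ‖fderiv ℝ (chi r) u‖ ≤ 6 / r ∧ ‖fderiv ℝ (om r) u‖ ≤ 12 / r) ∧
      (∀ u v : ℂ, |chi r u - chi r v| ≤ 6 / r * ‖u - v‖ ∧ |om r u - om r v| ≤ 12 / r * ‖u - v‖ ∧
        |√(chi r u) - √(chi r v)| ≤ 3 / r * ‖u - v‖) := by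
  set q : ℂ → ℝ := fun u => 1 - ‖u‖ ^ 2 / r ^ 2 with hq
  have q1 : ContDiff ℝ 1 q := contDiff_const.sub ((contDiff_norm_sq ℝ).div_const _)
  have q2 : ∀ u, HasFDerivAt q ((2 * -(r ^ 2)⁻¹) • innerSL ℝ u) u := fun u => by
    convert sq_ker2 1 (-(r ^ 2)⁻¹) u using 2
    simp only [hq]; ring
  have m0 : ∀ u, 0 ≤ max (q u) 0 := fun u => le_max_right _ _
  have m1 : ∀ u, max (q u) 0 ≤ 1 := fun u => max_le (sub_le_self _ (by positivity)) zero_le_one
  have m2 : ∀ u : ℂ, r ≤ ‖u‖ → max (q u) 0 = 0 := fun u hu => max_eq_right (by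
    rw [sub_nonpos, one_le_div (by positivity)]; gcongr)
  have c0 : ∀ u, chi r u = max (q u) 0 ^ 3 := fun _ => rfl
  have o0 : ∀ u, om r u = 3 * max (q u) 0 ^ 2 := fun _ => rfl
  have c1 : ∀ u, fderiv ℝ (chi r) u =
      (3 * max (q u) 0 ^ 2) • ((2 * -(r ^ 2)⁻¹) • innerSL ℝ u) := fun u => by
    exact_mod_cast ((pow_ker2 1 (q u)).comp_hasFDerivAt u (q2 u)).fderiv
  have o1 : ∀ u, fderiv ℝ (om r) u =
      (6 * max (q u) 0) • ((2 * -(r ^ 2)⁻¹) • innerSL ℝ u) := fun u => by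
    have := (((pow_ker2 0 (q u)).const_mul 3).comp_hasFDerivAt u (q2 u)).fderiv
    refine this.trans ?_
    congr 1
    push_cast; ring
  have hL : ∀ u : ℂ, ‖u‖ ≤ r → ‖(2 * -(r ^ 2)⁻¹) • innerSL ℝ u‖ ≤ 2 / r := fun u hu => by
    rw [norm_smul, innerSL_apply_norm, mul_neg, norm_neg, Real.norm_of_nonneg (by positivity)]
    calc _ ≤ 2 * (r ^ 2)⁻¹ * r := by gcongr
      _ = _ := by field_simp
  refine ⟨(smooth_ker2 1).comp q1, contDiff_const.mul ((smooth_ker2 0).comp q1),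
    fun u => ⟨pow_nonneg (m0 u) _, pow_le_one₀ (m0 u) (m1 u)⟩, fun u => ?_, fun u => ?_,
    fun u hu => by simp [c0, o0, c1, o1, m2 u hu], fun u v => ?_, fun u => ?_, fun u v => ?_⟩
  · have := pow_le_one₀ (n := 2) (m0 u) (m1 u)
    rw [o0]
    exact ⟨by positivity, by linarith⟩
  · rw [c0, o0]
    exact mul_le_mul_of_nonneg_left (pow_le_pow_of_le_one (m0 u) (m1 u) (by norm_num))
      (by norm_num)
  · rw [c1, o0]
    simp only [smul_apply, innerSL_apply_apply, smul_eq_mul]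
    ring
  · rcases le_total ‖u‖ r with hu | hu
    · have g1 := pow_le_one₀ (n := 2) (m0 u) (m1 u)
      have g2 := hL u hu
      have g3 := m0 u
      have g4 := m1 u
      rw [c1, o1, norm_smul, norm_smul (6 * _), Real.norm_of_nonneg (by positivity),
        Real.norm_of_nonneg (by positivity)]
      constructor
      · calc _ ≤ 3 * 1 * (2 / r) := by gcongr
          _ = _ := by ring
      · calc _ ≤ 6 * 1 * (2 / r) := by gcongr
          _ = _ := by ring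
    · simp only [c1, o1, m2 u hu, mul_zero, zero_smul, norm_zero, ne_eq, OfNat.ofNat_ne_zero,
        not_false_eq_true, zero_pow]
      constructor <;> positivity
  · have g1 := lip_ker2 (x := ‖u‖ / r) (y := ‖v‖ / r) (by positivity) (by positivity)
    rw [div_pow, div_pow, ← sub_div, abs_div, abs_of_pos hr] at g1
    have g2 : |max (q u) 0 - max (q v) 0| ≤ 2 / r * ‖u - v‖ :=
      g1.trans (by
        rw [mul_div_assoc', div_mul_eq_mul_div]
        gcongr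
        exact abs_norm_sub_norm_le u v)
    obtain ⟨g3, g4, g5⟩ := alg_ker2 (m0 u) (m1 u) (m0 v) (m1 v)
    rw [show 6 / r = 3 * (2 / r) by ring, show 12 / r = 6 * (2 / r) by ring,
      show 3 / r = 3 / 2 * (2 / r) by ring, c0, c0, o0, o0]
    exact ⟨by linarith, by linarith, by linarith⟩

end Pool.Agent.Lib.MP_8daebb_an.SV
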