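import Pool.Agent.Lib.MP_8daebb_an.SV.Df

/-! Elementary facts about chart varifolds. -/

open MeasureTheory Metric Filter Topology Set
open scoped RealInnerProductSpace ENNReal ContDiff

namespace Pool.Agent.Lib.MP_8daebb_an.SV

variable {α : Type*} [MeasurableSpace α] {H : Type*} [NormedAddCommGroup H]
  [InnerProductSpace ℝ H] [FiniteDimensional ℝ H] [MeasurableSpace H] [BorelSpace H]

theorem Test.contDiff {c : ℂ} {R : ℝ} {φ : ℂ × H → ℝ} (h : Test c R φ) : ContDiff ℝ 1 φ := by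
  obtain ⟨h1, R', hR, h2⟩ := h
  refine contDiff_iff_contDiffAt.2 fun u => ?_
  rcases lt_or_ge ‖u.1 - c‖ R with hu | hu
  · exact h1.contDiffAt ((isOpen_ball.prod isOpen_univ).mem_nhds
      ⟨mem_ball_iff_norm.2 hu, mem_univ _⟩)
  · have ho : IsOpen {v : ℂ × H | R' < ‖v.1 - c‖} := isOpen_lt continuous_const (by fun_prop)
    refine (contDiffAt_const (c := (0 : ℝ))).congr_of_eventuallyEq ?_
    filter_upwards [ho.mem_nhds (hR.trans_le hu)] with v hv using h2 v (le_of_lt hv)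

omit [FiniteDimensional ℝ H] [MeasurableSpace H] [BorelSpace H] in
theorem PW.g_nonneg_base {D : CD α H} {δ : ℝ} {a : α} (h : PW D δ a) (hδ : 0 ≤ δ) (e : H) :
    0 ≤ ⟪D.g a e, e⟫ :=
  nonneg_of_mul_nonneg_right (le_trans (by positivity) (h.bg e)) (by positivity)

omit [MeasurableSpace H] [BorelSpace H] in
theorem PW.trH_nonneg_base {D : CD α H} {δ : ℝ} {a : α} (h : PW D δ a) (hδ : 0 ≤ δ) :
    0 ≤ trH (D.g a) := by
  rw [trH, LinearMap.trace_eq_sum_inner _ (stdOrthonormalBasis ℝ H)]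
  refine Finset.sum_nonneg fun i _ => ?_
  rw [real_inner_comm]
  exact h.g_nonneg_base hδ _

omit [MeasurableSpace H] [BorelSpace H] in
theorem PW.mono_base {D : CD α H} {δ δ' : ℝ} {a : α} (h : PW D δ a) (h0 : 0 ≤ δ) (hδ : δ ≤ δ') :
    PW D δ' a := by
  have ht := h.t_nonneg
  have hg := h.g_nonneg_base h0
  have hT := h.trH_nonneg_base h0
  exact
    { h with
      y_le := h.y_le.trans hδ
      τ_pos := fun v => le_trans (by gcongr) (h.τ_pos v)
      hopf := fun v u => (h.hopf v u).trans (by gcongr)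
      rad := fun v => (h.rad v).trans (by gcongr)
      qb := fun e v => (h.qb e v).trans (by gcongr)
      b_le := h.b_le.trans (by gcongr)
      bg := fun e => (h.bg e).trans (mul_le_mul_of_nonneg_right (by gcongr) (hg e))
      sq := h.sq.trans (by gcongr)
      trg := h.trg.trans (by gcongr)
      L_le := h.L_le.trans (by gcongr)
      eh_le := h.eh_le.trans (by gcongr)
      j_t := h.j_t.trans (by gcongr) }

theorem CV.mono {D : CD α H} {c : ℂ} {R δ δ' M M' : ℝ} (h : CV D c R δ M) (hδ : δ ≤ δ')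
    (hM : M ≤ M') : CV D c R δ' M' :=
  { h with
    δ_nonneg := h.δ_nonneg.trans hδ
    pw := fun a ha => (h.pw a ha).mono_base h.δ_nonneg hδ
    geo := fun a ha a' ha' => (h.geo a ha a' ha').trans (by gcongr)
    w_le := fun u hu => ⟨(h.w_le u hu).1.trans hδ, (h.w_le u hu).2.trans hδ⟩
    ub := fun u y₀ σ hσ => (h.ub u y₀ σ hσ).trans (by gcongr) }

theorem CV.M_nonneg {D : CD α H} {c : ℂ} {R δ M : ℝ} (h : CV D c R δ M) : 0 ≤ M := by
  have := le_trans measureReal_nonneg (h.ub 0 0 1 one_pos)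
  simpa using this

theorem CV.meas_cyl {D : CD α H} {c : ℂ} {R δ M : ℝ} (h : CV D c R δ M) (u : ℂ) (σ : ℝ) :
    MeasurableSet (D.cyl u σ) :=
  measurableSet_lt (h.m_x.sub_const u).norm measurable_const

theorem CV.meas_box {D : CD α H} {c : ℂ} {R δ M : ℝ} (h : CV D c R δ M) (u : ℂ) (y₀ : H)
    (σ η : ℝ) : MeasurableSet (D.box u y₀ σ η) :=
  (measurableSet_lt (h.m_x.sub_const u).norm measurable_const).inter
    (measurableSet_lt (h.m_y.sub_const y₀).norm measurable_const)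

theorem CV.meas_pb {D : CD α H} {c : ℂ} {R δ M : ℝ} (h : CV D c R δ M) (p : H) (σ : ℝ) :
    MeasurableSet (D.pb p σ) :=
  measurableSet_lt (h.m_pos.sub_const p).norm measurable_const

theorem CV.integrable {F : Type*} [NormedAddCommGroup F] {D : CD α H} {c : ℂ} {R δ M : ℝ}
    (h : CV D c R δ M) {f : α → F} (hf : AEStronglyMeasurable f D.m) (B : ℝ)
    (hB : ∀ a ∈ D.G, D.x a ∈ ball c R → ‖f a‖ ≤ B) : Integrable f D.m := by
  have := h.fin
  refine Integrable.of_bound hf B ?_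
  filter_upwards [h.ae_G, h.car] with a h1 h2 using hB a h1 h2

theorem CV.integrable_t {D : CD α H} {c : ℂ} {R δ M : ℝ} (h : CV D c R δ M) :
    Integrable D.t D.m ∧ Integrable (fun a => D.t a ^ 2) D.m ∧
      Integrable (fun a => ‖D.y a‖ ^ 2) D.m ∧ Integrable D.en D.m ∧
      Integrable (fun a => √(D.en a)) D.m ∧ Integrable D.y D.m := by
  have h1 : Integrable D.t D.m := h.integrable h.m_t.aestronglyMeasurable 2 fun a ha _ => by
    rw [Real.norm_of_nonneg (h.pw a ha).t_nonneg]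
    exact (h.pw a ha).t_le
  have h2 : Integrable (fun a => ‖D.y a‖ ^ 2) D.m :=
    h.integrable (h.m_y.norm.pow_const 2).aestronglyMeasurable (δ ^ 2) fun a ha _ => by
      rw [Real.norm_of_nonneg (sq_nonneg _)]
      exact pow_le_pow_left₀ (norm_nonneg _) (h.pw a ha).y_le 2
  have h3 : Measurable D.en := h.m_t.add (h.m_y.norm.pow_const 2)
  refine ⟨h1, ?_, h2, h1.add h2, ?_, ?_⟩
  · refine h.integrable (h.m_t.pow_const 2).aestronglyMeasurable (2 ^ 2) fun a ha _ => ?_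
    rw [Real.norm_of_nonneg (sq_nonneg _)]
    exact pow_le_pow_left₀ (h.pw a ha).t_nonneg (h.pw a ha).t_le 2
  · refine h.integrable h3.sqrt.aestronglyMeasurable √(2 + δ ^ 2) fun a ha _ => ?_
    rw [Real.norm_of_nonneg (Real.sqrt_nonneg _)]
    exact Real.sqrt_le_sqrt (add_le_add (h.pw a ha).t_le
      (pow_le_pow_left₀ (norm_nonneg _) (h.pw a ha).y_le 2))
  · exact h.integrable h.m_y.aestronglyMeasurable δ fun a ha _ => (h.pw a ha).y_le

omit [FiniteDimensional ℝ H] in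
theorem CV.real_le_base {D : CD α H} {c : ℂ} {R δ M : ℝ} (h : CV D c R δ M) {A B : Set α}
    (hAB : ∀ᵐ a ∂D.m, a ∈ A → a ∈ B) : D.m.real A ≤ D.m.real B := by
  have := h.fin
  exact ENNReal.toReal_mono (measure_ne_top _ _) (measure_mono_ae hAB)

theorem CV.mass_le {D : CD α H} {c : ℂ} {R δ M : ℝ} (h : CV D c R δ M) (hδ : δ ≤ 1) :
    D.m.real univ ≤ 9 * M := by
  have h1 : D.m.real univ ≤ D.m.real (D.box 0 0 3 3) := h.real_le_base (by
    filter_upwards [h.ae_G] with a ha _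
    have h2 := (h.pw a ha).x_le
    have h3 := (h.pw a ha).y_le
    exact ⟨by rw [sub_zero]; linarith, by rw [sub_zero]; linarith⟩)
  have h2 := h.ub 0 0 3 (by norm_num)
  linarith

theorem CV.cyl_le {D : CD α H} {c : ℂ} {R δ M : ℝ} (h : CV D c R δ M) {u : ℂ} {σ : ℝ}
    (hσ : 0 < σ) (hy : ∀ᵐ a ∂D.m, a ∈ D.cyl u σ → ‖D.y a‖ < σ) :
    D.m.real (D.cyl u σ) ≤ M * σ ^ 2 := by
  refine le_trans (h.real_le_base ?_) (h.ub u 0 σ hσ)
  filter_upwards [hy] with a ha h1
  exact ⟨h1, by rw [sub_zero]; exact ha h1⟩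

theorem Sm.cyl_le {D : CD α H} {c : ℂ} {R δ M s ρ : ℝ} (hs : Sm D s ρ) (h : CV D c R δ M)
    (hρ : ρ ≤ 1 / 2) (u : ℂ) {σ : ℝ} (hσ : ρ / 2 ≤ σ) : D.m.real (D.cyl u σ) ≤ M * σ ^ 2 := by
  have h0 := hs.ρ_pos
  have h1 : s ^ 2 < σ := by
    have h2 : s ^ 2 ≤ (ρ ^ 5) ^ 2 := pow_le_pow_left₀ hs.s_pos.le hs.s_le 2
    have h3 : ρ ^ 9 ≤ (1 / 2) ^ 9 := pow_le_pow_left₀ h0.le hρ 9
    have h4 : (ρ ^ 5) ^ 2 = ρ * ρ ^ 9 := by ring
    nlinarith
  refine h.cyl_le (by linarith) ?_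
  filter_upwards [hs.y_le] with a ha _ using ha.trans_lt h1

end Pool.Agent.Lib.MP_8daebb_an.SV
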