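import Pool.Agent.Lib.MP_8daebb_an.SV.Ker
import Pool.Agent.Lib.MP_8daebb_an.SV.Base

/-! Differentiating averages. -/

open MeasureTheory Metric Filter Topology Set
open scoped RealInnerProductSpace ENNReal ContDiff

namespace Pool.Agent.Lib.MP_8daebb_an.SV

variable {α : Type*} [MeasurableSpace α] {H : Type*} [NormedAddCommGroup H]
  [InnerProductSpace ℝ H] [FiniteDimensional ℝ H] [MeasurableSpace H] [BorelSpace H]

theorem integrable_conv {E F : Type*} [NormedAddCommGroup E] [NormedSpace ℝ E]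
    [FiniteDimensional ℝ E] [MeasurableSpace E] [BorelSpace E] [NormedAddCommGroup F]
    [NormedSpace ℝ F] {m : Measure α} {Y : α → E} (hY : Measurable Y) {B : ℝ}
    (hB : ∀ᵐ a ∂m, ‖Y a‖ ≤ B) {f : α → F} (hf : Integrable f m) {g : E → ℝ}
    (hg : Continuous g) (w : E) : Integrable (fun a => g (w - Y a) • f a) m := by
  have := FiniteDimensional.proper_real E
  obtain ⟨C, hC⟩ := (isCompact_closedBall w B).exists_bound_of_continuousOn hg.continuousOn
  have hm : Measurable fun a => g (w - Y a) :=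
    (hg.comp (continuous_const.sub continuous_id)).measurable.comp hY
  refine (hf.norm.const_mul C).mono' (hm.aestronglyMeasurable.smul hf.1) ?_
  filter_upwards [hB] with a ha
  rw [norm_smul]
  refine mul_le_mul_of_nonneg_right (hC _ ?_) (norm_nonneg _)
  rw [mem_closedBall, dist_eq_norm, sub_sub_cancel_left, norm_neg]
  exact ha

theorem mem_big_conv {E : Type*} [NormedAddCommGroup E] {w x y : E} {B : ℝ} (hx : x ∈ ball w 1)
    (hy : ‖y‖ ≤ B) : x - y ∈ closedBall w (B + 1) := by
  rw [mem_ball, dist_eq_norm] at hx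
  rw [mem_closedBall, dist_eq_norm, sub_right_comm]
  exact (norm_sub_le _ _).trans (by linarith)

theorem continuous_conv {E F : Type*} [NormedAddCommGroup E] [NormedSpace ℝ E]
    [FiniteDimensional ℝ E] [MeasurableSpace E] [BorelSpace E] [NormedAddCommGroup F]
    [NormedSpace ℝ F] {m : Measure α} {Y : α → E} (hY : Measurable Y) {B : ℝ}
    (hB : ∀ᵐ a ∂m, ‖Y a‖ ≤ B) {f : α → F} (hf : Integrable f m) {g : E → ℝ}
    (hg : Continuous g) : Continuous fun w => ∫ a, g (w - Y a) • f a ∂m := by
  have := FiniteDimensional.proper_real E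
  refine continuous_iff_continuousAt.2 fun w => ?_
  obtain ⟨C, hC⟩ := (isCompact_closedBall w (B + 1)).exists_bound_of_continuousOn hg.continuousOn
  refine continuousAt_of_dominated (bound := fun a => C * ‖f a‖)
    (Eventually.of_forall fun x => (integrable_conv hY hB hf hg x).1) ?_ (hf.norm.const_mul C)
    (Eventually.of_forall fun a => ?_)
  · filter_upwards [ball_mem_nhds w one_pos] with x hx
    filter_upwards [hB] with a ha
    rw [norm_smul]
    exact mul_le_mul_of_nonneg_right (hC _ (mem_big_conv hx ha)) (norm_nonneg _)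
  · exact ((hg.comp (continuous_id.sub continuous_const)).smul continuous_const).continuousAt

theorem conv_hasFDerivAt {E F : Type*} [NormedAddCommGroup E] [NormedSpace ℝ E]
    [FiniteDimensional ℝ E] [MeasurableSpace E] [BorelSpace E] [NormedAddCommGroup F]
    [NormedSpace ℝ F] [CompleteSpace F] {m : Measure α} {Y : α → E} (hY : Measurable Y) {B : ℝ}
    (hB : ∀ᵐ a ∂m, ‖Y a‖ ≤ B) {f : α → F} (hf : Integrable f m) {g : E → ℝ}
    (hg : ContDiff ℝ 1 g) (w : E) :
    Integrable (fun a => g (w - Y a) • f a) m ∧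
    (∀ v, Integrable (fun a => fderiv ℝ g (w - Y a) v • f a) m) ∧
    DifferentiableAt ℝ (fun w => ∫ a, g (w - Y a) • f a ∂m) w ∧
    ∀ v, fderiv ℝ (fun w => ∫ a, g (w - Y a) • f a ∂m) w v =
      ∫ a, fderiv ℝ g (w - Y a) v • f a ∂m := by
  have := FiniteDimensional.proper_real E
  have hd : Continuous (fderiv ℝ g) := hg.continuous_fderiv one_ne_zero
  obtain ⟨C, hC⟩ := (isCompact_closedBall w (B + 1)).exists_bound_of_continuousOn hd.continuousOn
  have hm : AEStronglyMeasurable
      (fun a => (fderiv ℝ g (w - Y a)).smulRight (f a)) m :=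
    (ContinuousLinearMap.smulRightL ℝ E F).aestronglyMeasurable_comp₂
      ((hd.comp (continuous_const.sub continuous_id)).comp_aestronglyMeasurable
        hY.aestronglyMeasurable) hf.1
  have hb : ∀ᵐ a ∂m, ∀ x ∈ ball w 1,
      ‖(fderiv ℝ g (x - Y a)).smulRight (f a)‖ ≤ C * ‖f a‖ := by
    filter_upwards [hB] with a ha x hx
    rw [ContinuousLinearMap.norm_smulRight_apply]
    exact mul_le_mul_of_nonneg_right (hC _ (mem_big_conv hx ha)) (norm_nonneg _)
  have hi : Integrable (fun a => (fderiv ℝ g (w - Y a)).smulRight (f a)) m :=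
    (hf.norm.const_mul C).mono' hm (hb.mono fun a ha => ha w (mem_ball_self one_pos))
  have key : HasFDerivAt (fun w => ∫ a, g (w - Y a) • f a ∂m)
      (∫ a, (fderiv ℝ g (w - Y a)).smulRight (f a) ∂m) w := by
    refine hasFDerivAt_integral_of_dominated_of_fderiv_le (s := ball w 1)
      (F' := fun x a => (fderiv ℝ g (x - Y a)).smulRight (f a)) (bound := fun a => C * ‖f a‖)
      (ball_mem_nhds w one_pos)
      (Eventually.of_forall fun x => (integrable_conv hY hB hf hg.continuous x).1)
      (integrable_conv hY hB hf hg.continuous w) hm hb (hf.norm.const_mul C)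
      (Eventually.of_forall fun a x _ => ?_)
    have h1 : HasFDerivAt g (fderiv ℝ g (x - Y a)) (x - Y a) :=
      (hg.differentiable one_ne_zero _).hasFDerivAt
    have h2 := h1.comp x ((hasFDerivAt_id x).sub_const (Y a))
    rw [ContinuousLinearMap.comp_id] at h2
    exact h2.smul_const (f a)
  refine ⟨integrable_conv hY hB hf hg.continuous w, fun v =>
    integrable_conv hY hB hf (g := fun x => fderiv ℝ g x v) (hd.clm_apply continuous_const) w,
    key.differentiableAt, fun v => ?_⟩
  rw [key.fderiv, ContinuousLinearMap.integral_apply hi]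
  rfl

theorem conv_contDiff {E F : Type*} [NormedAddCommGroup E] [NormedSpace ℝ E]
    [FiniteDimensional ℝ E] [MeasurableSpace E] [BorelSpace E] [NormedAddCommGroup F]
    [NormedSpace ℝ F] [CompleteSpace F] {m : Measure α} {Y : α → E} (hY : Measurable Y) {B : ℝ}
    (hB : ∀ᵐ a ∂m, ‖Y a‖ ≤ B) {f : α → F} (hf : Integrable f m) (n : ℕ) {g : E → ℝ}
    (hg : ContDiff ℝ n g) : ContDiff ℝ n (fun w => ∫ a, g (w - Y a) • f a ∂m) := by
  induction n generalizing g with
  | zero => exact contDiff_zero.2 (continuous_conv hY hB hf hg.continuous)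
  | succ n ih =>
    push_cast at hg ⊢
    have h1 : ContDiff ℝ 1 g := hg.of_le le_add_self
    rw [contDiff_succ_iff_fderiv_apply] at hg ⊢
    refine ⟨fun w => (conv_hasFDerivAt hY hB hf h1 w).2.2.1, fun h => absurd h (by simp),
      fun v => ?_⟩
    have e : (fun w => fderiv ℝ (fun w => ∫ a, g (w - Y a) • f a ∂m) w v)
        = fun w => ∫ a, fderiv ℝ g (w - Y a) v • f a ∂m :=
      funext fun w => (conv_hasFDerivAt hY hB hf h1 w).2.2.2 v
    rw [e]
    exact ih (hg.2.2 v)

theorem fderiv2_conv {E F : Type*} [NormedAddCommGroup E] [NormedSpace ℝ E]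
    [NormedAddCommGroup F] [NormedSpace ℝ F] {G : E → F} (hG : ContDiff ℝ 2 G) (x v v' : E) :
    fderiv ℝ (fderiv ℝ G) x v v' = fderiv ℝ (fun x => fderiv ℝ G x v') x v := by
  have h2 : ContDiff ℝ 1 (fderiv ℝ G) := hG.fderiv_right (by norm_num)
  rw [fderiv_clm_apply (h2.differentiable one_ne_zero x) (differentiableAt_const _)]
  simp

theorem conv_fderiv2 {E F : Type*} [NormedAddCommGroup E] [NormedSpace ℝ E]
    [FiniteDimensional ℝ E] [MeasurableSpace E] [BorelSpace E] [NormedAddCommGroup F]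
    [NormedSpace ℝ F] [CompleteSpace F] {m : Measure α} {Y : α → E} (hY : Measurable Y) {B : ℝ}
    (hB : ∀ᵐ a ∂m, ‖Y a‖ ≤ B) {f : α → F} (hf : Integrable f m) {g : E → ℝ}
    (hg : ContDiff ℝ 2 g) (w v v' : E) :
    fderiv ℝ (fderiv ℝ (fun w => ∫ a, g (w - Y a) • f a ∂m)) w v v' =
      ∫ a, fderiv ℝ (fderiv ℝ g) (w - Y a) v v' • f a ∂m := by
  have h1 : ContDiff ℝ 1 g := hg.of_le one_le_two
  have hG : ContDiff ℝ 2 (fun w => ∫ a, g (w - Y a) • f a ∂m) := conv_contDiff hY hB hf 2 hg
  have e : (fun w => fderiv ℝ (fun w => ∫ a, g (w - Y a) • f a ∂m) w v')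
      = fun w => ∫ a, fderiv ℝ g (w - Y a) v' • f a ∂m :=
    funext fun w => (conv_hasFDerivAt hY hB hf h1 w).2.2.2 v'
  have h3 : ContDiff ℝ 1 fun x => fderiv ℝ g x v' :=
    (hg.fderiv_right (by norm_num)).clm_apply contDiff_const
  rw [fderiv2_conv hG, e, (conv_hasFDerivAt hY hB hf h3 w).2.2.2 v]
  simp only [fderiv2_conv hg]

end Pool.Agent.Lib.MP_8daebb_an.SV
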