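import Pool.Agent.Lib.MP_8daebb_an.SV.Df

/-! More definitions used inside the proof. -/

open MeasureTheory Metric Filter Topology Set
open scoped RealInnerProductSpace ENNReal ContDiff

namespace Pool.Agent.Lib.MP_8daebb_an.SV

variable {α : Type*} [MeasurableSpace α] {H : Type*} [NormedAddCommGroup H]
  [InnerProductSpace ℝ H] [FiniteDimensional ℝ H] [MeasurableSpace H] [BorelSpace H]

/-- A convex `C^2` approximation of the positive part at width `η`. -/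
structure Stp (Ψ : ℝ → ℝ) (η : ℝ) : Prop where
  smooth : ContDiff ℝ 2 Ψ
  d1 : ∀ r, 0 ≤ deriv Ψ r ∧ deriv Ψ r ≤ 1
  d2 : ∀ r, 0 ≤ deriv (deriv Ψ) r ∧ deriv (deriv Ψ) r ≤ 1 / η
  zero : ∀ r, r ≤ -η → deriv Ψ r = 0
  one : ∀ r, η ≤ r → deriv Ψ r = 1
  size : ∀ r, |Ψ r| ≤ |r| + η

/-- The averaged positive part of the height above the level `w.2`. -/
noncomputable def CD.Phi (D : CD α H) (e : H) (ρ : ℝ) (Ψ : ℝ → ℝ) (w : ℂ × ℝ) : ℝ :=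
  ∫ a, kr ρ (w.1 - D.x a) * Ψ (D.z e a - w.2) ∂D.m

/-- The boundary term of the height function. -/
noncomputable def CD.UU (D : CD α H) (r : ℝ) : ℝ :=
  2 / r ^ 2 * ∫ a, om r (D.x a) * ⟪D.y a, D.b a (D.x a)⟫ ∂D.m

/-- The radial part of the tilt. -/
noncomputable def CD.RR (D : CD α H) (r : ℝ) : ℝ :=
  2 / r ^ 2 * ∫ a, om r (D.x a) * D.w (D.x a) * ⟪D.τ a (D.x a), D.x a⟫ ∂D.m

/-- Mollification of a planar field. -/
noncomputable def moll (ρ : ℝ) (Z : ℂ → ℂ) (u : ℂ) : ℂ := ∫ v, kr ρ (u - v) • Z v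

/-- The traceless part of the tilt tested with the derivative of a field. -/
noncomputable def CD.Hopf (D : CD α H) (W : ℂ → ℂ) : ℝ :=
  ∫ a, D.w (D.x a) * (tr2 ((fderiv ℝ W (D.x a)).comp (D.τ a)) -
    D.t a / 2 * tr2 (fderiv ℝ W (D.x a))) ∂D.m

/-- The defect measure tested with a function. -/
noncomputable def CD.Sd (D : CD α H) (Q : ℕ) (ζ : ℂ → ℝ) : ℝ :=
  (∫ a, D.w (D.x a) * ζ (D.x a) * (1 - D.t a / 2) ∂D.m) - Q * ∫ u, D.w u * ζ u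

/-- The geometric setting of the defect estimate. -/
structure SE (D : CD α H) (R r l ρ η₁ ϑ : ℝ) (B : ℕ → Finset (ℂ × ℝ)) (Y : ℕ → ℂ → ℂ) (n : ℕ) :
    Prop where
  tower : Tower B Y ρ ϑ n
  cov : ∀ u : ℂ, η₁ < D.En u (42 * ρ) → ∃ b ∈ B 0, ‖u - b.1‖ + 2 * ρ ≤ b.2
  n_pos : 1 ≤ n
  l_le : l ≤ r
  r_add : r + 8 * l ≤ R
  ρ_le : 100 * ρ ≤ l

/-- The differential inequalities of the frequency function at the radius `r`. -/
def FreqAt (h E d : ℝ → ℝ) (ϖ C r : ℝ) : Prop :=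
  0 < h r ∧ 0 ≤ d r ∧ ∃ h' E' U V : ℝ, HasDerivAt h h' r ∧ HasDerivAt E E' r ∧
    |r * h' - U| ≤ ϖ * h r ∧ |d r - U| ≤ (ϖ + C * r ^ 2) * h r ∧
    2 * E r - d r + V - C * r * (d r + h r) - ϖ * h r ≤ r * E' ∧
    U ^ 2 ≤ 2 * h r * (V + ϖ * h r) ∧ 2 * E r - d r ≤ (ϖ + C * r ^ 2) * h r ∧
    d r - 2 * E r ≤ d r / 2 + (ϖ + C * r ^ 2) * h r

/-- The conclusion of the global multiplicity theorem. -/
def GlobOK (α : Type*) [MeasurableSpace α] (H : Type*) [NormedAddCommGroup H]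
    [InnerProductSpace ℝ H] [FiniteDimensional ℝ H] [MeasurableSpace H] [BorelSpace H]
    (M CI δ₀ ρ₀ : ℝ) : Prop :=
  ∀ (D : CD α H) (c : ℂ) (R δ s ρ : ℝ), CV D c R δ M → δ ≤ δ₀ → Sm D s ρ → ρ ≤ ρ₀ →
    ∃ (Q : ℕ) (N : ℂ → ℕ), MQ D c R ρ CI Q N

/-- What one stage in a fixed chart produces. -/
structure Out (D : CD α H) (b L r K B' r' : ℝ) : Prop where
  lo : r * ux L (1 / (40 * b + 12)) ≤ r'
  hi : r' ≤ r * Real.exp (-(L / (6 * K)))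
  hi' : r' * (1 + 2 / K) ≤ r
  h_eq : D.hh r' = ux L (40 * b + 14)
  h_ge : ∀ ϱ, r' ≤ ϱ → ϱ ≤ r → ux L (40 * b + 14) ≤ D.hh ϱ
  d_le : D.dr r' ≤ B' * D.hh r'
  en_le : D.En 0 (r' * (1 + 3 / (2 * K))) ≤ ux L (40 * b + 9)

end Pool.Agent.Lib.MP_8daebb_an.SV
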