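import Pool.Agent.Lib.MP_8daebb_an.SV.Base1

/-! Multiplicity and restriction. -/

open MeasureTheory Metric Filter Topology Set
open scoped RealInnerProductSpace ENNReal ContDiff

namespace Pool.Agent.Lib.MP_8daebb_an.SV

variable {α : Type*} [MeasurableSpace α] {H : Type*} [NormedAddCommGroup H]
  [InnerProductSpace ℝ H] [FiniteDimensional ℝ H] [MeasurableSpace H] [BorelSpace H]

theorem CV.j_bd_base2 {D : CD α H} {c : ℂ} {R δ M : ℝ} (h : CV D c R δ M) :
    ∀ᵐ a ∂D.m, 0 ≤ D.j a ∧ D.j a ≤ 2 := by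
  filter_upwards [h.ae_G] with a ha
  exact ⟨(h.pw a ha).j_nonneg, (h.pw a ha).j_le⟩

theorem CV.integrable_j_base2 {D : CD α H} {c : ℂ} {R δ M : ℝ} (h : CV D c R δ M) :
    Integrable D.j D.m := by
  refine h.integrable h.m_j.aestronglyMeasurable 2 fun a ha _ => ?_
  rw [Real.norm_eq_abs, abs_of_nonneg (h.pw a ha).j_nonneg]
  exact (h.pw a ha).j_le

theorem IsMult.meas_base2 {D : CD α H} {N : ℂ → ℕ} (hN : IsMult D.m D.x D.j N) :
    Measurable fun u => (N u : ℝ) :=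
  (measurable_from_top (f := fun n : ℕ => (n : ℝ))).comp hN.1

theorem IsMult.integrable_base2 {D : CD α H} {c : ℂ} {R δ M : ℝ} {N : ℂ → ℕ}
    (hN : IsMult D.m D.x D.j N) (h : CV D c R δ M) : Integrable (fun u => (N u : ℝ)) := by
  refine ⟨hN.meas_base2.aestronglyMeasurable, ?_⟩
  have h1 := hN.2 (fun _ => 1) measurable_const
  simp only [one_mul] at h1
  have h2 : ∫⁻ a, ENNReal.ofReal (D.j a) ∂D.m < ⊤ := h.integrable_j_base2.lintegral_lt_top
  rw [h1] at h2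
  rw [hasFiniteIntegral_iff_ofReal (Eventually.of_forall fun u => Nat.cast_nonneg (N u))]
  simpa only [ENNReal.ofReal_natCast] using h2

theorem IsMult.integral_nonneg_base2 {D : CD α H} {c : ℂ} {R δ M : ℝ} {N : ℂ → ℕ}
    (hN : IsMult D.m D.x D.j N) (h : CV D c R δ M) {f : ℂ → ℝ} (hf : Measurable f)
    (h0 : ∀ u, 0 ≤ f u) : ∫ a, f (D.x a) * D.j a ∂D.m = ∫ u, f u * (N u : ℝ) := by
  rw [integral_eq_lintegral_of_nonneg_ae, integral_eq_lintegral_of_nonneg_ae]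
  · congr 1
    have h1 := hN.2 (fun u => ENNReal.ofReal (f u)) hf.ennreal_ofReal
    calc ∫⁻ a, ENNReal.ofReal (f (D.x a) * D.j a) ∂D.m
        = ∫⁻ a, ENNReal.ofReal (f (D.x a)) * ENNReal.ofReal (D.j a) ∂D.m :=
          lintegral_congr fun a => ENNReal.ofReal_mul (h0 _)
      _ = ∫⁻ u, ENNReal.ofReal (f u) * (N u : ℝ≥0∞) := h1
      _ = ∫⁻ u, ENNReal.ofReal (f u * (N u : ℝ)) := by
          refine lintegral_congr fun u => ?_
          rw [ENNReal.ofReal_mul (h0 _), ENNReal.ofReal_natCast]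
  · exact Eventually.of_forall fun u => mul_nonneg (h0 u) (Nat.cast_nonneg _)
  · exact (hf.mul hN.meas_base2).aestronglyMeasurable
  · filter_upwards [h.j_bd_base2] with a ha
    exact mul_nonneg (h0 _) ha.1
  · exact ((hf.comp h.m_x).mul h.m_j).aestronglyMeasurable

theorem cyl_mono_base2 (D : CD α H) (c : ℂ) {σ σ' : ℝ} (h : σ ≤ σ') : D.cyl c σ ⊆ D.cyl c σ' :=
  fun _ ha => lt_of_lt_of_le ha h

theorem max_zero_base2 {r : ℝ} (hr : 0 < r) {u : ℂ} (hu : r ≤ ‖u‖) :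
    max (1 - ‖u‖ ^ 2 / r ^ 2) 0 = 0 := by
  refine max_eq_right ?_
  have h1 : r ^ 2 ≤ ‖u‖ ^ 2 := pow_le_pow_left₀ hr.le hu 2
  have h2 : 1 ≤ ‖u‖ ^ 2 / r ^ 2 := (one_le_div (by positivity)).2 h1
  linarith

theorem kr_zero_base2 {ρ : ℝ} (hρ : 0 < ρ) {u : ℂ} (hu : ρ ≤ ‖u‖) : kr ρ u = 0 := by
  have h1 : (ρ⁻¹ : ℝ) • u ∉ Function.support (bump0.normed volume) := by
    rw [bump0.support_normed_eq]
    have h2 : bump0.rOut = 1 := rfl
    rw [h2, mem_ball_zero_iff, norm_smul, Real.norm_eq_abs, abs_of_pos (inv_pos.2 hρ), not_lt,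
      ← div_eq_inv_mul, one_le_div hρ]
    exact hu
  unfold kr
  rw [Function.notMem_support.1 h1, mul_zero]

theorem IsMult.integral {D : CD α H} {c : ℂ} {R δ M : ℝ} {N : ℂ → ℕ} (hN : IsMult D.m D.x D.j N)
    (h : CV D c R δ M) {f : ℂ → ℝ} (hf : Measurable f) {B : ℝ} (hB : ∀ u, |f u| ≤ B) :
    Integrable (fun u => f u * (N u : ℝ)) ∧ ∫ a, f (D.x a) * D.j a ∂D.m = ∫ u, f u * (N u : ℝ) := by
  have hI := hN.integrable_base2 h
  have hj := h.integrable_j_base2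
  have key : ∀ g : ℂ → ℝ, Measurable g → (∀ u, |g u| ≤ B) →
      Integrable (fun u => g u * (N u : ℝ)) ∧ Integrable (fun a => g (D.x a) * D.j a) D.m := by
    intro g hg hgB
    exact ⟨hI.bdd_mul hg.aestronglyMeasurable (Eventually.of_forall fun u => hgB u),
      hj.bdd_mul (hg.comp h.m_x).aestronglyMeasurable (Eventually.of_forall fun a => hgB _)⟩
  refine ⟨(key f hf hB).1, ?_⟩
  have hp : Measurable fun u => max (f u) 0 := hf.max measurable_const
  have hm : Measurable fun u => max (-f u) 0 := hf.neg.max measurable_const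
  have bp : ∀ u, |max (f u) 0| ≤ B := fun u => by
    rw [abs_of_nonneg (le_max_right _ _)]
    exact max_le ((le_abs_self _).trans (hB u)) ((abs_nonneg _).trans (hB u))
  have bm : ∀ u, |max (-f u) 0| ≤ B := fun u => by
    rw [abs_of_nonneg (le_max_right _ _)]
    exact max_le ((neg_le_abs _).trans (hB u)) ((abs_nonneg _).trans (hB u))
  have e : ∀ u, f u = max (f u) 0 - max (-f u) 0 := fun u => (max_zero_sub_max_neg_zero_eq_self _).symm
  have h1 := hN.integral_nonneg_base2 h hp fun u => le_max_right _ _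
  have h2 := hN.integral_nonneg_base2 h hm fun u => le_max_right _ _
  calc ∫ a, f (D.x a) * D.j a ∂D.m
      = ∫ a, (max (f (D.x a)) 0 * D.j a - max (-f (D.x a)) 0 * D.j a) ∂D.m := by
        refine integral_congr_ae (Eventually.of_forall fun a => ?_)
        simp only
        rw [← sub_mul, ← e]
    _ = (∫ u, max (f u) 0 * (N u : ℝ)) - ∫ u, max (-f u) 0 * (N u : ℝ) := by
        rw [integral_sub (key _ hp bp).2 (key _ hm bm).2, h1, h2]
    _ = ∫ u, f u * (N u : ℝ) := by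
        rw [← integral_sub (key _ hp bp).1 (key _ hm bm).1]
        refine integral_congr_ae (Eventually.of_forall fun a => ?_)
        simp only
        rw [← sub_mul, ← e]

theorem IsMult.setIntegral {D : CD α H} {c : ℂ} {R δ M : ℝ} {N : ℂ → ℕ}
    (hN : IsMult D.m D.x D.j N) (h : CV D c R δ M) (u : ℂ) (σ : ℝ) :
    ∫ a in D.cyl u σ, D.j a ∂D.m = ∫ v in ball u σ, (N v : ℝ) := by
  have hm : Measurable ((ball u σ).indicator fun _ : ℂ => (1 : ℝ)) :=
    measurable_const.indicator measurableSet_ball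
  have h1 := hN.integral_nonneg_base2 h hm
    (fun v => indicator_nonneg (fun _ _ => zero_le_one) v)
  rw [← integral_indicator (h.meas_cyl u σ), ← integral_indicator measurableSet_ball]
  convert h1 using 2
  · funext a
    by_cases ha : a ∈ D.cyl u σ
    · have hb : D.x a ∈ ball u σ := by
        rw [mem_ball, dist_eq_norm]
        exact ha
      rw [indicator_of_mem ha, indicator_of_mem hb, one_mul]
    · have hb : D.x a ∉ ball u σ := by
        rw [mem_ball, dist_eq_norm]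
        exact ha
      rw [indicator_of_notMem ha, indicator_of_notMem hb, zero_mul]
  · funext v
    by_cases hv : v ∈ ball u σ
    · rw [indicator_of_mem hv, indicator_of_mem hv, one_mul]
    · rw [indicator_of_notMem hv, indicator_of_notMem hv, zero_mul]

theorem IsMult.mass_near {D : CD α H} {c : ℂ} {R δ M : ℝ} {N : ℂ → ℕ}
    (hN : IsMult D.m D.x D.j N) (h : CV D c R δ M) (u : ℂ) (σ : ℝ) :
    |D.m.real (D.cyl u σ) - ∫ v in ball u σ, (N v : ℝ)| ≤
      2 * D.T u σ + δ * D.J u σ := by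
  haveI := h.fin
  obtain ⟨it, -, iy, -, -, -⟩ := h.integrable_t
  have ij := h.integrable_j_base2
  have e1 : D.m.real (D.cyl u σ) = ∫ _ in D.cyl u σ, (1 : ℝ) ∂D.m := by
    rw [setIntegral_const, smul_eq_mul, mul_one]
  have i1 : Integrable (fun _ : α => (1 : ℝ)) D.m := integrable_const _
  rw [← hN.setIntegral h u σ, e1, ← integral_sub i1.integrableOn ij.integrableOn]
  unfold CD.T CD.J
  rw [← integral_const_mul, ← integral_const_mul,
    ← integral_add (it.const_mul 2).integrableOn (iy.const_mul δ).integrableOn]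
  refine (abs_integral_le_integral_abs).trans ?_
  refine integral_mono_ae (i1.sub ij).abs.integrableOn
    ((it.const_mul 2).add (iy.const_mul δ)).integrableOn ?_
  refine ae_restrict_of_ae ?_
  filter_upwards [h.ae_G] with a ha
  have p := h.pw a ha
  have h1 := abs_le.1 p.j_t
  have h2 := p.t_nonneg
  have h3 := p.t_le
  have h4 : D.t a ^ 2 ≤ 2 * D.t a := by nlinarith
  have h5 : 0 ≤ δ * ‖D.y a‖ ^ 2 := mul_nonneg h.δ_nonneg (sq_nonneg _)
  rw [abs_le]
  constructor <;> linarith [h1.1, h1.2]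

theorem CV.exists_mult {D : CD α H} {c : ℂ} {R δ M : ℝ} (h : CV D c R δ M) :
    ∃ N, IsMult D.m D.x D.j N := by
  have h1 := h.area univ MeasurableSet.univ
  rwa [Measure.restrict_univ] at h1

theorem MS.resB {D : CD α H} {R δ M s ρ CI : ℝ} {Q : ℕ} {N : ℂ → ℕ}
    (h : MS D R δ M s ρ CI Q N) (hδ : δ ≤ 1 / 2) {R₁ : ℝ} (h0 : 0 < R₁) (h1 : R₁ ≤ R) :
    ∃ N', MS (D.resB 0 R₁) R₁ δ M s ρ CI Q N' := by
  have hρ := h.sm.ρ_pos
  refine ⟨(ball (0 : ℂ) R₁).indicator N, h.cv.resB hδ h0 (by simpa using h1),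
    h.sm.res h.cv _, ⟨⟨h.mq.mult.1.indicator measurableSet_ball, fun f hf => ?_⟩, fun u hu => ?_⟩,
    h.Q_pos⟩
  · have h2 := h.mq.mult.2 ((ball (0 : ℂ) R₁).indicator f) (hf.indicator measurableSet_ball)
    change ∫⁻ a in D.cyl 0 R₁, f (D.x a) * ENNReal.ofReal (D.j a) ∂D.m = _
    rw [← lintegral_indicator (h.cv.meas_cyl 0 R₁)]
    convert h2 using 2
    · funext a
      by_cases ha : a ∈ D.cyl 0 R₁
      · have hb : D.x a ∈ ball (0 : ℂ) R₁ := by
          rw [mem_ball, dist_eq_norm]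
          exact ha
        rw [indicator_of_mem ha, indicator_of_mem hb]
      · have hb : D.x a ∉ ball (0 : ℂ) R₁ := by
          rw [mem_ball, dist_eq_norm]
          exact ha
        rw [indicator_of_notMem ha, indicator_of_notMem hb, zero_mul]
    · funext v
      by_cases hv : v ∈ ball (0 : ℂ) R₁
      · rw [indicator_of_mem hv, indicator_of_mem hv]
      · rw [indicator_of_notMem hv, indicator_of_notMem hv, zero_mul, Nat.cast_zero, mul_zero]
  · have h2 := h.mq.near u (hu.trans h1)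
    have hs : D.cyl u (8 * ρ) ⊆ D.cyl 0 R₁ := fun a ha => by
      have h3 : ‖D.x a - u‖ < 8 * ρ := ha
      have h4 : ‖D.x a - 0‖ ≤ ‖D.x a - u‖ + ‖u - 0‖ := norm_sub_le_norm_sub_add_norm_sub _ _ _
      change ‖D.x a - 0‖ < R₁
      linarith
    change _ ≤ CI * ∫ a in D.cyl u (8 * ρ), D.t a ^ 2 ∂(D.m.restrict (D.cyl 0 R₁))
    rw [Measure.restrict_restrict_of_subset hs]
    refine le_of_eq_of_le ?_ h2
    refine setIntegral_congr_fun measurableSet_ball fun v hv => ?_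
    have hb : v ∈ ball (0 : ℂ) R₁ := by
      rw [mem_ball, dist_eq_norm] at hv ⊢
      have h4 : ‖v - 0‖ ≤ ‖v - u‖ + ‖u - 0‖ := norm_sub_le_norm_sub_add_norm_sub _ _ _
      linarith
    simp only [indicator_of_mem hb]

/-- The radial quantities do not see the restriction to a larger disc. -/
theorem CV.resB_eq {D : CD α H} {R δ M : ℝ} (h : CV D 0 R δ M) (hδ : δ ≤ 1 / 2) {R₁ r : ℝ}
    (hr : 0 < r) (h1 : r ≤ R₁) (Q : ℕ) :
    (D.resB 0 R₁).hh r = D.hh r ∧ (D.resB 0 R₁).dr r = D.dr r ∧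
      (D.resB 0 R₁).EE Q r = D.EE Q r ∧ (D.resB 0 R₁).En 0 r = D.En 0 r ∧
      (D.resB 0 R₁).J 0 r = D.J 0 r ∧ (D.resB 0 R₁).T 0 r = D.T 0 r ∧
      (D.resB 0 R₁).bad Q r = D.bad Q r ∧
      (D.resB 0 R₁).m.real (D.cyl 0 r) = D.m.real (D.cyl 0 r) ∧
      ∫ a, D.en a ∂(D.resB 0 R₁).m = D.En 0 R₁ := by
  have hs : D.cyl 0 r ⊆ D.cyl 0 R₁ := cyl_mono_base2 D 0 h1
  have hout : ∀ a, a ∉ D.cyl 0 R₁ → max (1 - ‖D.x a‖ ^ 2 / r ^ 2) 0 = 0 := fun a ha => by
    refine max_zero_base2 hr ?_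
    have h2 : ¬‖D.x a - 0‖ < R₁ := ha
    rw [sub_zero, not_lt] at h2
    exact h1.trans h2
  have hchi : ∀ a, a ∉ D.cyl 0 R₁ → chi r (D.x a) = 0 := fun a ha => by
    unfold chi
    rw [hout a ha]
    norm_num
  have hom : ∀ a, a ∉ D.cyl 0 R₁ → om r (D.x a) = 0 := fun a ha => by
    unfold om
    rw [hout a ha]
    norm_num
  have hrr : (D.m.restrict (D.cyl 0 R₁)).restrict (D.cyl 0 r) = D.m.restrict (D.cyl 0 r) :=
    Measure.restrict_restrict_of_subset hs
  refine ⟨?_, ?_, ?_, ?_, ?_, ?_, ?_, ?_, rfl⟩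
  · change (r ^ 2)⁻¹ * ∫ a in D.cyl 0 R₁, om r (D.x a) * ‖D.y a‖ ^ 2 ∂D.m = _
    rw [setIntegral_eq_integral_of_forall_compl_eq_zero fun a ha => by rw [hom a ha, zero_mul]]
    rfl
  · change ∫ a in D.cyl 0 R₁, chi r (D.x a) * D.w (D.x a) * D.t a ∂D.m = _
    rw [setIntegral_eq_integral_of_forall_compl_eq_zero fun a ha => by
      rw [hchi a ha, zero_mul, zero_mul]]
    rfl
  · change (∫ a in D.cyl 0 R₁, chi r (D.x a) * D.w (D.x a) ∂D.m) - Q * ∫ u, chi r u * D.w u = _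
    rw [setIntegral_eq_integral_of_forall_compl_eq_zero fun a ha => by rw [hchi a ha, zero_mul]]
    rfl
  · change ∫ a in D.cyl 0 r, D.en a ∂(D.m.restrict (D.cyl 0 R₁)) = _
    rw [hrr]
    rfl
  · change ∫ a in D.cyl 0 r, ‖D.y a‖ ^ 2 ∂(D.m.restrict (D.cyl 0 R₁)) = _
    rw [hrr]
    rfl
  · change ∫ a in D.cyl 0 r, D.t a ∂(D.m.restrict (D.cyl 0 R₁)) = _
    rw [hrr]
    rfl
  · change ((D.m.restrict (D.cyl 0 R₁))
      {a | a ∈ D.cyl 0 r ∧ ¬(D.resB 0 R₁).Den ((Q - 1 / 3) * Real.pi) a}).toReal =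
      (D.m {a | a ∈ D.cyl 0 r ∧ ¬D.Den ((Q - 1 / 3) * Real.pi) a}).toReal
    rw [Measure.restrict_apply' (h.meas_cyl 0 R₁)]
    congr 1
    refine measure_congr ?_
    filter_upwards [h.ae_G] with a ha
    refine propext ⟨fun hb => ⟨hb.1.1, fun hd => hb.1.2 ?_⟩, fun hb => ⟨⟨hb.1, fun hd => hb.2 ?_⟩, hs hb.1⟩⟩
    · exact (h.den_resB hδ ha hb.2 _).2 hd
    · exact (h.den_resB hδ ha (hs hb.1) _).1 hd
  · change ((D.m.restrict (D.cyl 0 R₁)) (D.cyl 0 r)).toReal = (D.m (D.cyl 0 r)).toReal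
    rw [Measure.restrict_apply' (h.meas_cyl 0 R₁), inter_eq_left.2 hs]

theorem av_resB {F : Type*} [NormedAddCommGroup F] [NormedSpace ℝ F] {D : CD α H}
    (hx : Measurable D.x) {c u : ℂ} {R₁ ρ : ℝ} (hρ : 0 < ρ) (hu : ‖u - c‖ + ρ ≤ R₁) (f : α → F) :
    (D.resB c R₁).av ρ f u = D.av ρ f u := by
  have _ := hx
  change ∫ a in D.cyl c R₁, kr ρ (u - D.x a) • f a ∂D.m = ∫ a, kr ρ (u - D.x a) • f a ∂D.m
  refine setIntegral_eq_integral_of_forall_compl_eq_zero fun a ha => ?_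
  have h2 : ¬‖D.x a - c‖ < R₁ := ha
  have h3 : ‖D.x a - c‖ ≤ ‖D.x a - u‖ + ‖u - c‖ := norm_sub_le_norm_sub_add_norm_sub _ _ _
  have h4 : ρ ≤ ‖u - D.x a‖ := by
    rw [norm_sub_rev]
    linarith [not_lt.1 h2]
  rw [kr_zero_base2 hρ h4, zero_smul]

end Pool.Agent.Lib.MP_8daebb_an.SV
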