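import Pool.Agent.Lib.MP_8daebb_an.SV.Base

/-! The identities and pointwise facts in one height direction. -/

open MeasureTheory Metric Filter Topology Set
open scoped RealInnerProductSpace ENNReal ContDiff

namespace Pool.Agent.Lib.MP_8daebb_an.SV

variable {α : Type*} [MeasurableSpace α] {H : Type*} [NormedAddCommGroup H]
  [InnerProductSpace ℝ H] [FiniteDimensional ℝ H] [MeasurableSpace H] [BorelSpace H]

omit [FiniteDimensional ℝ H] [MeasurableSpace H] [BorelSpace H] in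
theorem comp_id2 (e : H) {c : ℂ} {R : ℝ} {φ : ℂ × ℝ → ℝ} (hφ : Test c R φ) :
    Test c R (fun u : ℂ × H => φ (u.1, ⟪u.2, e⟫)) ∧ ∀ (x : ℂ) (y : H) (v : ℂ) (k : H),
      fderiv ℝ (fun u : ℂ × H => φ (u.1, ⟪u.2, e⟫)) (x, y) (v, k) =
        fderiv ℝ φ (x, ⟪y, e⟫) (v, ⟪k, e⟫) := by
  obtain ⟨Λ, hΛ⟩ : ∃ Λ : ℂ × H →L[ℝ] ℂ × ℝ, ∀ u, Λ u = (u.1, ⟪u.2, e⟫) :=
    ⟨(ContinuousLinearMap.id ℝ ℂ).prodMap (innerSL ℝ e), fun u => by
      rw [real_inner_comm]; rfl⟩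
  have e1 : (fun u : ℂ × H => φ (u.1, ⟪u.2, e⟫)) = φ ∘ Λ := by
    funext u
    simp only [Function.comp, hΛ]
  have hc := hφ.contDiff
  refine ⟨⟨?_, ?_⟩, fun x y v k => ?_⟩
  · rw [e1]
    exact (hc.comp Λ.contDiff).contDiffOn
  · obtain ⟨R', hR', h0⟩ := hφ.2
    exact ⟨R', hR', fun u hu => h0 _ hu⟩
  · rw [e1, fderiv_comp _ (hc.differentiable one_ne_zero _) Λ.differentiableAt, Λ.fderiv,
      ContinuousLinearMap.comp_apply, hΛ, hΛ]

omit [FiniteDimensional ℝ H] [MeasurableSpace H] [BorelSpace H] in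
theorem inner_p (D : CD α H) (e : H) (a : α) (v : ℂ) : ⟪D.p e a, v⟫ = ⟪D.b a v, e⟫ := by
  have hv : v = v.re • (1 : ℂ) + v.im • Complex.I := by
    apply Complex.ext <;> simp
  conv_rhs => rw [hv, map_add, map_smul, map_smul, inner_add_left, real_inner_smul_left,
    real_inner_smul_left]
  simp only [CD.p, Complex.inner, Complex.mul_re, Complex.conj_re, Complex.conj_im, Complex.add_re,
    Complex.add_im, Complex.ofReal_re, Complex.ofReal_im, Complex.mul_im, Complex.I_re,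
    Complex.I_im]
  ring

theorem CV.hor_e {D : CD α H} {c : ℂ} {R δ M : ℝ} (h : CV D c R δ M) (e : H) {φ : ℂ × ℝ → ℝ}
    (hφ : Test c R φ) (v : ℂ) :
    ∫ a, (fderiv ℝ φ (D.x a, D.z e a) (v - D.τ a v, ⟪D.p e a, v⟫) +
      φ (D.x a, D.z e a) * ⟪D.eh a, v⟫) ∂D.m = 0 := by
  obtain ⟨h1, h2⟩ := comp_id2 e hφ
  have h3 := h.hor _ h1 v
  simp only [h2] at h3
  simp only [inner_p, CD.z]
  exact h3

theorem CV.ver_e {D : CD α H} {c : ℂ} {R δ M : ℝ} (h : CV D c R δ M) (e : H) {φ : ℂ × ℝ → ℝ}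
    (hφ : Test c R φ) :
    ∫ a, (fderiv ℝ φ (D.x a, D.z e a) (D.q a e, ⟪D.g a e, e⟫) +
      φ (D.x a, D.z e a) * ⟪D.L a, e⟫) ∂D.m = 0 := by
  obtain ⟨h1, h2⟩ := comp_id2 e hφ
  have h3 := h.ver _ h1 e
  simp only [h2] at h3
  simp only [CD.z]
  exact h3

theorem CV.meas_e {D : CD α H} {c : ℂ} {R δ M : ℝ} (h : CV D c R δ M) (e : H) :
    Measurable (D.z e) ∧ Measurable (D.p e) ∧ Measurable (D.dd e) ∧
      Measurable (fun a => D.q a e) ∧ Measurable (fun a => ⟪D.g a e, e⟫) ∧ Measurable D.en := by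
  have hi : Measurable fun k : H => ⟪k, e⟫ := (continuous_id.inner continuous_const).measurable
  have hp : Measurable (D.p e) :=
    (Complex.measurable_ofReal.comp (hi.comp (h.m_b.apply_continuousLinearMap 1))).add
      ((Complex.measurable_ofReal.comp
        (hi.comp (h.m_b.apply_continuousLinearMap Complex.I))).mul_const _)
  have hg : Measurable fun a => ⟪D.g a e, e⟫ := hi.comp (h.m_g.apply_continuousLinearMap e)
  exact ⟨hi.comp h.m_y, hp, ((h.m_y.norm.const_add 1).mul hg).sub (hp.norm.pow_const 2),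
    h.m_q.apply_continuousLinearMap e, hg, h.m_t.add (h.m_y.norm.pow_const 2)⟩

omit [FiniteDimensional ℝ H] [MeasurableSpace H] [BorelSpace H] in
theorem norm_p_id2 (D : CD α H) (e : H) (a : α) :
    ‖D.p e a‖ ^ 2 = ⟪D.b a 1, e⟫ ^ 2 + ⟪D.b a Complex.I, e⟫ ^ 2 := by
  rw [CD.p, Complex.sq_norm, Complex.normSq_add_mul_I]

omit [FiniteDimensional ℝ H] [MeasurableSpace H] [BorelSpace H] in
theorem g_nonneg_id2 {D : CD α H} {δ : ℝ} {a : α} (h : PW D δ a) (h0 : 0 ≤ δ) (e : H) :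
    0 ≤ ⟪D.g a e, e⟫ := by
  have h1 := h.bg e
  have h2 : 0 < 1 + δ * ‖D.y a‖ := by positivity
  exact (mul_nonneg_iff_of_pos_left h2).1 (le_trans (by positivity) h1)

/-- The pointwise facts in one direction. -/
theorem PW.scal {D : CD α H} {δ : ℝ} {a : α} (h : PW D δ a) (h0 : 0 ≤ δ) (hδ : δ ≤ 1 / 2) {e : H}
    (he : ‖e‖ = 1) :
    |D.z e a| ≤ ‖D.y a‖ ∧ 0 ≤ D.en a ∧ D.en a ≤ 3 ∧ D.t a ≤ D.en a ∧
      ‖D.p e a‖ ^ 2 ≤ 8 * D.en a ∧ ‖D.q a e - D.p e a‖ ≤ 2 * ‖D.y a‖ * √(D.en a) ∧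
      0 ≤ ⟪D.g a e, e⟫ ∧ ⟪D.g a e, e⟫ ≤ 4 * D.en a ∧
      ‖D.p e a‖ ^ 2 ≤ (1 + ‖D.y a‖) * ⟪D.g a e, e⟫ ∧ 0 ≤ D.dd e a ∧ D.dd e a ≤ 6 * D.en a ∧
      |⟪D.L a, e⟫| ≤ √(D.en a) ∧ ‖D.eh a‖ ≤ D.en a ∧ |1 - D.j a| ≤ 2 * D.en a := by
  have hY0 := norm_nonneg (D.y a)
  have hY : ‖D.y a‖ ≤ 1 / 2 := h.y_le.trans hδ
  have ht0 := h.t_nonneg
  have ht2 := h.t_le
  have hen : D.en a = D.t a + ‖D.y a‖ ^ 2 := rfl
  have hen0 : 0 ≤ D.en a := by rw [hen]; positivity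
  have hte : D.t a ≤ D.en a := by rw [hen]; nlinarith
  have hs0 := Real.sqrt_nonneg (D.en a)
  have hs1 : √(D.t a) ≤ √(D.en a) := Real.sqrt_le_sqrt hte
  have hs2 : ‖D.y a‖ ≤ √(D.en a) := Real.le_sqrt_of_sq_le (by rw [hen]; linarith)
  have hs3 : δ * (√(D.t a) + ‖D.y a‖) ≤ √(D.en a) := by
    have := mul_le_mul hδ (add_le_add hs1 hs2) (by positivity) (by norm_num)
    linarith
  have hg0 := g_nonneg_id2 h h0 e
  have hg4 : ⟪D.g a e, e⟫ ≤ 4 * D.en a := by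
    have := h.g_le e
    rwa [he, one_pow, mul_one] at this
  have hpg : ‖D.p e a‖ ^ 2 ≤ (1 + ‖D.y a‖) * ⟪D.g a e, e⟫ := by
    rw [norm_p_id2]
    refine (h.bg e).trans (mul_le_mul_of_nonneg_right ?_ hg0)
    nlinarith
  have hg6 : (1 + ‖D.y a‖) * ⟪D.g a e, e⟫ ≤ 6 * D.en a := by
    have := mul_le_mul (show 1 + ‖D.y a‖ ≤ 3 / 2 by linarith) hg4 hg0 (by norm_num)
    linarith
  refine ⟨?_, hen0, ?_, hte, by linarith, ?_, hg0, hg4, hpg, ?_, ?_, ?_, ?_, ?_⟩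
  · have := abs_real_inner_le_norm (D.y a) e
    rwa [he, mul_one] at this
  · rw [hen]; nlinarith
  · have h1 := h.qb e (D.q a e - D.p e a)
    rw [← inner_p, ← inner_sub_left, real_inner_self_eq_norm_mul_norm, he, mul_one,
      abs_of_nonneg (by positivity)] at h1
    have h2 : δ * ‖D.y a‖ * (√(D.t a) + ‖D.y a‖) ≤ 2 * ‖D.y a‖ * √(D.en a) := by
      have := mul_le_mul_of_nonneg_left hs3 hY0
      nlinarith [mul_nonneg hY0 hs0]
    rcases (norm_nonneg (D.q a e - D.p e a)).eq_or_lt with h3 | h3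
    · rw [← h3]; positivity
    · exact (le_of_mul_le_mul_right h1 h3).trans h2
  · rw [CD.dd]; linarith
  · rw [CD.dd]; linarith [sq_nonneg ‖D.p e a‖]
  · have := abs_real_inner_le_norm (D.L a) e
    rw [he, mul_one] at this
    exact this.trans (h.L_le.trans hs3)
  · have := h.eh_le
    rw [← hen] at this
    nlinarith
  · have h1 := abs_le.1 h.j_t
    have h2 : D.t a ^ 2 ≤ 2 * D.t a := by nlinarith
    have h3 : δ * ‖D.y a‖ ^ 2 ≤ ‖D.y a‖ ^ 2 := by nlinarith [sq_nonneg ‖D.y a‖]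
    rw [hen, abs_le]
    constructor <;> nlinarith [sq_nonneg ‖D.y a‖]

/-- Summing over an orthonormal basis. -/
theorem PW.sum_basis {D : CD α H} {δ : ℝ} {a : α} (h : PW D δ a) (h0 : 0 ≤ δ) (hδ : δ ≤ 1 / 2)
    {ι : Type*} [Fintype ι] (e : OrthonormalBasis ι ℝ H) :
    D.t a ^ 2 ≤ 4 * ∑ i, D.dd (e i) a ∧ ∀ A : ℂ →L[ℝ] ℂ,
      |D.w (D.x a) * (tr2 (A.comp (D.τ a)) - D.t a / 2 * tr2 A) - hp A (∑ i, D.p (e i) a ^ 2)| ≤
        8 * (2 * D.t a ^ 2 + δ * (‖D.y a‖ * D.t a + ‖D.y a‖ ^ 2)) * ‖A‖ := by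
  have hs : ∀ u v : H, ∑ i, ⟪u, e i⟫ * ⟪v, e i⟫ = ⟪u, v⟫ := fun u v => by
    rw [← e.sum_inner_mul_inner u v]
    exact Finset.sum_congr rfl fun i _ => by rw [real_inner_comm v]
  have hs2 : ∀ u : H, ∑ i, ⟪u, e i⟫ ^ 2 = ‖u‖ ^ 2 := fun u => by
    rw [← real_inner_self_eq_norm_sq, ← hs]
    exact Finset.sum_congr rfl fun i _ => pow_two _
  have hY0 := norm_nonneg (D.y a)
  refine ⟨?_, fun A => ?_⟩
  · have htr : trH (D.g a) = ∑ i, ⟪D.g a (e i), e i⟫ := by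
      rw [trH, LinearMap.trace_eq_sum_inner _ e]
      exact Finset.sum_congr rfl fun i _ => real_inner_comm _ _
    have h1 : 0 ≤ trH (D.g a) := htr ▸ Finset.sum_nonneg fun i _ => g_nonneg_id2 h h0 _
    have h2 : ∑ i, D.dd (e i) a =
        (1 + ‖D.y a‖) * trH (D.g a) - ‖D.b a 1‖ ^ 2 - ‖D.b a Complex.I‖ ^ 2 := by
      simp only [CD.dd, norm_p_id2, Finset.sum_sub_distrib, Finset.sum_add_distrib, hs2,
        ← Finset.mul_sum, htr]
      ring
    have h3 := h.sq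
    have h4 : (1 + δ * ‖D.y a‖) * trH (D.g a) ≤ (1 + ‖D.y a‖) * trH (D.g a) :=
      mul_le_mul_of_nonneg_right (by nlinarith) h1
    rw [h2]
    linarith
  · obtain ⟨K, hK⟩ : ∃ K, K = 2 * D.t a ^ 2 + δ * (‖D.y a‖ * D.t a + ‖D.y a‖ ^ 2) := ⟨_, rfl⟩
    have hK0 : 0 ≤ K := by
      have := h.t_nonneg
      rw [hK]; positivity
    have hA : ∀ v : ℂ, A v = v.re • A 1 + v.im • A Complex.I := fun v => by
      have hv : v = v.re • (1 : ℂ) + v.im • Complex.I := by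
        apply Complex.ext <;> simp
      conv_lhs => rw [hv, map_add, map_smul, map_smul]
    have hre : (∑ i, D.p (e i) a ^ 2).re = ⟪D.b a 1, D.b a 1⟫ - ⟪D.b a Complex.I, D.b a Complex.I⟫ := by
      rw [Complex.re_sum, ← hs, ← hs, ← Finset.sum_sub_distrib]
      refine Finset.sum_congr rfl fun i _ => ?_
      simp [CD.p, pow_two]
    have him : (∑ i, D.p (e i) a ^ 2).im = 2 * ⟪D.b a 1, D.b a Complex.I⟫ := by
      rw [Complex.im_sum, ← hs, Finset.mul_sum]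
      refine Finset.sum_congr rfl fun i _ => ?_
      simp [CD.p, pow_two]
      ring
    have i1 : ∀ v : ℂ, ⟪v, (1 : ℂ)⟫ = v.re := fun v => by simp [Complex.inner]
    have i2 : ∀ v : ℂ, ⟪v, Complex.I⟫ = v.im := fun v => by simp [Complex.inner]
    have h11 := h.hopf 1 1
    have h12 := h.hopf 1 Complex.I
    have h21 := h.hopf Complex.I 1
    have h22 := h.hopf Complex.I Complex.I
    simp only [← hK, i1, i2, norm_one, Complex.norm_I, mul_one] at h11 h12 h21 h22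
    rw [real_inner_comm] at h21
    have n1 : ‖A 1‖ ≤ ‖A‖ := by simpa using A.le_opNorm 1
    have n2 : ‖A Complex.I‖ ≤ ‖A‖ := by simpa using A.le_opNorm Complex.I
    have a11 := (Complex.abs_re_le_norm (A 1)).trans n1
    have a21 := (Complex.abs_im_le_norm (A 1)).trans n1
    have a12 := (Complex.abs_re_le_norm (A Complex.I)).trans n2
    have a22 := (Complex.abs_im_le_norm (A Complex.I)).trans n2
    have key : D.w (D.x a) * (tr2 (A.comp (D.τ a)) - D.t a / 2 * tr2 A) -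
        hp A (∑ i, D.p (e i) a ^ 2) =
        (((A 1).re - (A Complex.I).im) / 2) * ((D.w (D.x a) * (D.τ a 1).re - ⟪D.b a 1, D.b a 1⟫) -
          (D.w (D.x a) * (D.τ a Complex.I).im - ⟪D.b a Complex.I, D.b a Complex.I⟫)) +
        (A Complex.I).re * (D.w (D.x a) * (D.τ a 1).im - ⟪D.b a 1, D.b a Complex.I⟫) +
        (A 1).im * (D.w (D.x a) * (D.τ a Complex.I).re - ⟪D.b a 1, D.b a Complex.I⟫) := by
      rw [← h.tr_τ, hp, Complex.mul_re, Complex.conj_re, Complex.conj_im, hre, him]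
      simp only [tr2, ContinuousLinearMap.comp_apply]
      rw [hA (D.τ a 1), hA (D.τ a Complex.I)]
      simp only [dzb, Complex.add_re, Complex.add_im, Complex.smul_re, Complex.smul_im,
        Complex.div_ofNat_re, Complex.div_ofNat_im, Complex.mul_re, Complex.mul_im, Complex.I_re,
        Complex.I_im, smul_eq_mul]
      ring
    have b1 : |((A 1).re - (A Complex.I).im) / 2| ≤ ‖A‖ := by
      rw [abs_le] at a11 a22 ⊢
      constructor <;> linarith [a11.1, a11.2, a22.1, a22.2]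
    have b2 := (abs_sub _ _).trans (add_le_add h11 h22)
    have hA0 := norm_nonneg A
    rw [key, ← hK]
    refine (abs_add_three _ _ _).trans ?_
    rw [abs_mul, abs_mul, abs_mul]
    have c1 := mul_le_mul b1 b2 (abs_nonneg _) hA0
    have c2 := mul_le_mul a12 h12 (abs_nonneg _) hA0
    have c3 := mul_le_mul a21 h21 (abs_nonneg _) hA0
    nlinarith [mul_nonneg hK0 hA0]

end Pool.Agent.Lib.MP_8daebb_an.SV
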