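import Pool.Agent.Lib.MP_8daebb_an.SV.Base

/-! Derived forms of the two identities. -/

open MeasureTheory Metric Filter Topology Set
open scoped RealInnerProductSpace ENNReal ContDiff

namespace Pool.Agent.Lib.MP_8daebb_an.SV

variable {α : Type*} [MeasurableSpace α] {H : Type*} [NormedAddCommGroup H]
  [InnerProductSpace ℝ H] [FiniteDimensional ℝ H] [MeasurableSpace H] [BorelSpace H]

omit [FiniteDimensional ℝ H] [MeasurableSpace H] [BorelSpace H] in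
theorem PW.bounds_id {D : CD α H} {δ : ℝ} {a : α} (h : PW D δ a) (hδ : 0 ≤ δ) :
    ‖D.τ a‖ ≤ 4 ∧ ‖D.b a‖ ≤ 4 + δ * δ ∧ ‖D.q a‖ ≤ 4 + δ * δ + δ * δ * (2 + δ) ∧
      ‖D.L a‖ ≤ δ * (2 + δ) ∧ ‖D.eh a‖ ≤ δ * (2 + δ * δ) := by
  have hy := h.y_le
  have hy0 := norm_nonneg (D.y a)
  have ht : √(D.t a) ≤ 2 := by
    rw [Real.sqrt_le_left (by norm_num)]
    linarith [h.t_le]
  have ht0 := Real.sqrt_nonneg (D.t a)
  have hyy : δ * ‖D.y a‖ ≤ δ * δ := mul_le_mul_of_nonneg_left hy hδ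
  have hb : ‖D.b a‖ ≤ 4 + δ * δ := by linarith [h.b_le]
  refine ⟨by linarith [h.τ_le, h.t_le], hb, ?_, ?_, ?_⟩
  · refine ContinuousLinearMap.opNorm_le_bound _ (by positivity) fun e => ?_
    have h1 := h.qb e (D.q a e)
    rw [real_inner_self_eq_norm_sq] at h1
    have h2 : ⟪D.b a (D.q a e), e⟫ ≤ (4 + δ * δ) * ‖D.q a e‖ * ‖e‖ :=
      (real_inner_le_norm _ _).trans (mul_le_mul_of_nonneg_right
        (((D.b a).le_opNorm _).trans (mul_le_mul_of_nonneg_right hb (norm_nonneg _)))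
        (norm_nonneg _))
    have h3 : δ * ‖D.y a‖ * (√(D.t a) + ‖D.y a‖) ≤ δ * δ * (2 + δ) :=
      mul_le_mul hyy (by linarith) (by positivity) (by positivity)
    have h4 : δ * ‖D.y a‖ * (√(D.t a) + ‖D.y a‖) * ‖e‖ * ‖D.q a e‖ ≤
        δ * δ * (2 + δ) * ‖e‖ * ‖D.q a e‖ :=
      mul_le_mul_of_nonneg_right (mul_le_mul_of_nonneg_right h3 (norm_nonneg _)) (norm_nonneg _)
    have h5 := le_abs_self (‖D.q a e‖ ^ 2 - ⟪D.b a (D.q a e), e⟫)
    rcases (norm_nonneg (D.q a e)).eq_or_lt with h0 | h0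
    · rw [← h0]; positivity
    · have h6 : ‖D.q a e‖ * ‖D.q a e‖ ≤
          ((4 + δ * δ + δ * δ * (2 + δ)) * ‖e‖) * ‖D.q a e‖ := by nlinarith
      exact le_of_mul_le_mul_right h6 h0
  · exact h.L_le.trans (mul_le_mul_of_nonneg_left (by linarith) hδ)
  · refine h.eh_le.trans (mul_le_mul_of_nonneg_left ?_ hδ)
    have : ‖D.y a‖ ^ 2 ≤ δ * δ := by nlinarith
    linarith [h.t_le]

theorem CV.integrable_cont_id {D : CD α H} {c : ℂ} {R δ M : ℝ} (h : CV D c R δ M)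
    (F : (ℂ × H) × (ℂ →L[ℝ] ℂ) × (ℂ →L[ℝ] H) × (H →L[ℝ] ℂ) × (H →L[ℝ] H) × H × ℂ → ℝ)
    (hF : Continuous F) :
    Integrable (fun a => F ((D.x a, D.y a), D.τ a, D.b a, D.q a, D.g a, D.L a, D.eh a)) D.m := by
  have hδ := h.δ_nonneg
  set B : ℝ := 4 + δ + δ * δ + δ * δ * (2 + δ) + δ * (2 + δ) + δ * (2 + δ * δ) with hB
  obtain ⟨C, hC⟩ := (isCompact_closedBall
    (0 : (ℂ × H) × (ℂ →L[ℝ] ℂ) × (ℂ →L[ℝ] H) × (H →L[ℝ] ℂ) × (H →L[ℝ] H) × H × ℂ)
      B).exists_bound_of_continuousOn hF.continuousOn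
  refine h.integrable ?_ C fun a ha _ => hC _ ?_
  · exact (hF.comp_stronglyMeasurable
      ((h.m_x.stronglyMeasurable.prodMk h.m_y.stronglyMeasurable).prodMk
        (h.m_τ.stronglyMeasurable.prodMk (h.m_b.stronglyMeasurable.prodMk
          (h.m_q.stronglyMeasurable.prodMk (h.m_g.stronglyMeasurable.prodMk
            (h.m_L.stronglyMeasurable.prodMk h.m_eh.stronglyMeasurable))))))).aestronglyMeasurable
  · have hp := h.pw a ha
    obtain ⟨h1, h2, h3, h4, h5⟩ := hp.bounds_id hδ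
    have h6 := hp.x_le
    have h7 := hp.y_le
    have h8 := hp.g_norm
    have e1 : 0 ≤ δ * δ := by positivity
    have e2 : 0 ≤ δ * δ * (2 + δ) := by positivity
    have e3 : 0 ≤ δ * (2 + δ) := by positivity
    have e4 : 0 ≤ δ * (2 + δ * δ) := by positivity
    rw [mem_closedBall_zero_iff]
    simp only [Prod.norm_def, max_le_iff]
    refine ⟨⟨?_, ?_⟩, ?_, ?_, ?_, ?_, ?_, ?_⟩ <;> linarith

theorem CV.integrable_hor_id {D : CD α H} {c : ℂ} {R δ M : ℝ} (h : CV D c R δ M)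
    {φ : ℂ × H → ℝ} (hφ : Test c R φ) (v : ℂ) :
    Integrable (fun a => fderiv ℝ φ (D.x a, D.y a) (v - D.τ a v, D.b a v) +
      φ (D.x a, D.y a) * ⟪D.eh a, v⟫) D.m := by
  have h1 : Continuous φ := hφ.contDiff.continuous
  have h2 : Continuous (fderiv ℝ φ) := hφ.contDiff.continuous_fderiv one_ne_zero
  exact h.integrable_cont_id
    (fun p => fderiv ℝ φ p.1 (v - p.2.1 v, p.2.2.1 v) + φ p.1 * ⟪p.2.2.2.2.2.2, v⟫)
    (by fun_prop)

theorem CV.integrable_ver_id {D : CD α H} {c : ℂ} {R δ M : ℝ} (h : CV D c R δ M)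
    {φ : ℂ × H → ℝ} (hφ : Test c R φ) (e : H) :
    Integrable (fun a => fderiv ℝ φ (D.x a, D.y a) (D.q a e, D.g a e) +
      φ (D.x a, D.y a) * ⟪D.L a, e⟫) D.m := by
  have h1 : Continuous φ := hφ.contDiff.continuous
  have h2 : Continuous (fderiv ℝ φ) := hφ.contDiff.continuous_fderiv one_ne_zero
  exact h.integrable_cont_id
    (fun p => fderiv ℝ φ p.1 (p.2.2.2.1 e, p.2.2.2.2.1 e) + φ p.1 * ⟪p.2.2.2.2.2.1, e⟫)
    (by fun_prop)

omit [FiniteDimensional ℝ H] [MeasurableSpace H] [BorelSpace H] in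
theorem Test.mul_id {c : ℂ} {R : ℝ} {ψ f : ℂ × H → ℝ} (hψ : Test c R ψ)
    (hf : ContDiffOn ℝ 1 f (ball c R ×ˢ univ)) : Test c R fun u => ψ u * f u := by
  obtain ⟨h1, R', hR, h0⟩ := hψ
  exact ⟨h1.mul hf, R', hR, fun u hu => by simp [h0 u hu]⟩

theorem CV.hor_gen {D : CD α H} {c : ℂ} {R δ M : ℝ} (h : CV D c R δ M) {ψ : ℂ × H → ℝ}
    (hψ : Test c R ψ) {W : ℂ → ℂ} (hW : ContDiffOn ℝ 1 W (ball c R)) :
    ∫ a, (fderiv ℝ ψ (D.x a, D.y a) (W (D.x a) - D.τ a (W (D.x a)), D.b a (W (D.x a))) +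
      ψ (D.x a, D.y a) * (tr2 (fderiv ℝ W (D.x a)) - tr2 ((fderiv ℝ W (D.x a)).comp (D.τ a))) +
      ψ (D.x a, D.y a) * ⟪D.eh a, W (D.x a)⟫) ∂D.m = 0 := by
  have hW' : ContDiffOn ℝ 1 (fun u : ℂ × H => W u.1) (ball c R ×ˢ univ) :=
    hW.comp contDiff_fst.contDiffOn fun u hu => hu.1
  have key : ∀ l : ℂ →L[ℝ] ℝ, Test c R fun u : ℂ × H => ψ u * l (W u.1) := fun l =>
    hψ.mul_id (l.contDiff.comp_contDiffOn hW')
  have hd : ∀ (l : ℂ →L[ℝ] ℝ) (x : ℂ) (y : H), x ∈ ball c R → ∀ p : ℂ × H,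
      fderiv ℝ (fun u : ℂ × H => ψ u * l (W u.1)) (x, y) p =
        ψ (x, y) * l (fderiv ℝ W x p.1) + l (W x) * fderiv ℝ ψ (x, y) p := by
    intro l x y hx p
    have h1 : HasFDerivAt W (fderiv ℝ W x) x :=
      ((hW.contDiffAt (isOpen_ball.mem_nhds hx)).differentiableAt one_ne_zero).hasFDerivAt
    have h2 : HasFDerivAt ψ (fderiv ℝ ψ (x, y)) (x, y) :=
      (hψ.contDiff.differentiable one_ne_zero _).hasFDerivAt
    have h3 : HasFDerivAt (fun u : ℂ × H => l (W u.1))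
        (l.comp ((fderiv ℝ W x).comp (ContinuousLinearMap.fst ℝ ℂ H))) (x, y) :=
      l.hasFDerivAt.comp (x, y) (HasFDerivAt.comp (x, y) h1 hasFDerivAt_fst)
    rw [(h2.fun_mul h3).fderiv]
    simp
  have e1 := h.hor _ (key Complex.reCLM) 1
  have e2 := h.hor _ (key Complex.imCLM) Complex.I
  have e3 := integral_add (h.integrable_hor_id (key Complex.reCLM) 1)
    (h.integrable_hor_id (key Complex.imCLM) Complex.I)
  rw [e1, e2, add_zero] at e3
  rw [← e3]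
  refine integral_congr_ae ?_
  filter_upwards [h.car] with a ha
  rw [hd _ _ _ ha, hd _ _ _ ha]
  have hw : W (D.x a) = (W (D.x a)).re • (1 : ℂ) + (W (D.x a)).im • Complex.I := by
    simp
  have hv : (W (D.x a) - D.τ a (W (D.x a)), D.b a (W (D.x a))) =
      (W (D.x a)).re • ((1 : ℂ) - D.τ a 1, D.b a 1) +
        (W (D.x a)).im • (Complex.I - D.τ a Complex.I, D.b a Complex.I) := by
    have a1 : D.τ a (W (D.x a)) =
        (W (D.x a)).re • D.τ a 1 + (W (D.x a)).im • D.τ a Complex.I := by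
      conv_lhs => rw [hw]
      rw [map_add, map_smul, map_smul]
    have a2 : D.b a (W (D.x a)) =
        (W (D.x a)).re • D.b a 1 + (W (D.x a)).im • D.b a Complex.I := by
      conv_lhs => rw [hw]
      rw [map_add, map_smul, map_smul]
    rw [a1, a2, Prod.smul_mk, Prod.smul_mk, Prod.mk_add_mk, smul_sub, smul_sub]
    congr 1
    linear_combination hw
  have hi : ⟪D.eh a, W (D.x a)⟫ =
      (W (D.x a)).re * ⟪D.eh a, (1 : ℂ)⟫ + (W (D.x a)).im * ⟪D.eh a, Complex.I⟫ := by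
    conv_lhs => rw [hw]
    rw [inner_add_right, real_inner_smul_right, real_inner_smul_right]
  rw [hv, hi, map_add, map_smul, map_smul]
  simp only [tr2, map_sub, Complex.reCLM_apply, Complex.imCLM_apply, smul_eq_mul,
    ContinuousLinearMap.comp_apply]
  ring

theorem CV.hor_pos {D : CD α H} {c : ℂ} {R δ M : ℝ} (h : CV D c R δ M) {ψ : ℂ × H → ℝ}
    (hψ : Test c R ψ) (x₀ : ℂ) :
    ∫ a, (fderiv ℝ ψ (D.x a, D.y a) ((D.x a - x₀) - D.τ a (D.x a - x₀), D.b a (D.x a - x₀)) +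
      ψ (D.x a, D.y a) * (2 - D.t a) + ψ (D.x a, D.y a) * ⟪D.eh a, D.x a - x₀⟫) ∂D.m = 0 := by
  have e := h.hor_gen hψ (W := fun u => u - x₀) (by fun_prop)
  rw [← e]
  refine integral_congr_ae ?_
  filter_upwards [h.ae_G] with a ha
  have h1 : fderiv ℝ (fun u : ℂ => u - x₀) (D.x a) = ContinuousLinearMap.id ℝ ℂ :=
    ((hasFDerivAt_id (D.x a)).sub_const x₀).fderiv
  have h2 : tr2 (ContinuousLinearMap.id ℝ ℂ) = 2 := by
    simp [tr2]; norm_num
  rw [h1, h2, ContinuousLinearMap.id_comp, (h.pw a ha).tr_τ]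

theorem CV.hor_field {D : CD α H} {c : ℂ} {R δ M : ℝ} (h : CV D c R δ M) {W : ℂ → ℂ}
    (hW : ContDiffOn ℝ 1 W (ball c R)) {R' : ℝ} (hR : R' < R)
    (h0 : ∀ u, R' ≤ ‖u - c‖ → W u = 0) :
    ∫ a, (tr2 (fderiv ℝ W (D.x a)) - tr2 ((fderiv ℝ W (D.x a)).comp (D.τ a)) +
      ⟪D.eh a, W (D.x a)⟫) ∂D.m = 0 := by
  have hRp := h.R_pos
  set r : ℝ := max R' 0 with hr
  have hr0 : 0 ≤ r := le_max_right _ _
  have hr1 : R' ≤ r := le_max_left _ _
  have hr2 : r < R := max_lt hR hRp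
  let f : ContDiffBump c := ⟨(2 * r + R) / 3, (r + 2 * R) / 3, by linarith, by linarith⟩
  have hT : Test c R fun u : ℂ × H => f u.1 := by
    refine ⟨(f.contDiff.comp contDiff_fst).contDiffOn, (r + 2 * R) / 3, by linarith,
      fun u hu => f.zero_of_le_dist ?_⟩
    rw [dist_eq_norm]
    exact hu
  have e := h.hor_gen hT hW
  rw [← e]
  refine integral_congr_ae (Eventually.of_forall fun a => ?_)
  by_cases hx : ‖D.x a - c‖ < (2 * r + R) / 3
  · have hev : (fun u : ℂ × H => f u.1) =ᶠ[𝓝 (D.x a, D.y a)] fun _ => (1 : ℝ) := by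
      have : ∀ᶠ u : ℂ × H in 𝓝 (D.x a, D.y a), u.1 ∈ ball c ((2 * r + R) / 3) :=
        continuous_fst.continuousAt.eventually
          (isOpen_ball.mem_nhds (by rwa [mem_ball, dist_eq_norm]))
      filter_upwards [this] with u hu
      exact f.one_of_mem_closedBall (ball_subset_closedBall hu)
    have h1 : f (D.x a) = 1 := hev.eq_of_nhds
    simp only [hev.fderiv_eq, h1]
    simp
  · have hev : W =ᶠ[𝓝 (D.x a)] fun _ => (0 : ℂ) := by
      have : ∀ᶠ u : ℂ in 𝓝 (D.x a), r < ‖u - c‖ :=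
        (by fun_prop : Continuous fun u : ℂ => ‖u - c‖).continuousAt.eventually
          (lt_mem_nhds (by simp only [not_lt] at hx; linarith))
      filter_upwards [this] with u hu
      exact h0 u (by linarith)
    have h1 : W (D.x a) = 0 := hev.eq_of_nhds
    simp only [hev.fderiv_eq, h1]
    simp [tr2, show ((0 : ℂ), (0 : H)) = 0 from rfl]

theorem CV.ver_rad {D : CD α H} {c : ℂ} {R δ M : ℝ} (h : CV D c R δ M) {ψ : ℂ × H → ℝ}
    (hψ : Test c R ψ) :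
    ∫ a, (fderiv ℝ ψ (D.x a, D.y a) (D.q a (D.y a), D.g a (D.y a)) +
      ψ (D.x a, D.y a) * (trH (D.g a) + ⟪D.L a, D.y a⟫)) ∂D.m = 0 := by
  set e := stdOrthonormalBasis ℝ H with he
  have key : ∀ k, Test c R fun u : ℂ × H => ψ u * ⟪e k, u.2⟫ := fun k =>
    hψ.mul_id ((innerSL ℝ (e k)).contDiff.comp contDiff_snd).contDiffOn
  have hd : ∀ k (u p : ℂ × H), fderiv ℝ (fun u : ℂ × H => ψ u * ⟪e k, u.2⟫) u p =
      ψ u * ⟪e k, p.2⟫ + ⟪e k, u.2⟫ * fderiv ℝ ψ u p := by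
    intro k u p
    have h2 : HasFDerivAt ψ (fderiv ℝ ψ u) u :=
      (hψ.contDiff.differentiable one_ne_zero _).hasFDerivAt
    have h3 : HasFDerivAt (fun u : ℂ × H => ⟪e k, u.2⟫)
        ((innerSL ℝ (e k)).comp (ContinuousLinearMap.snd ℝ ℂ H)) u :=
      (innerSL ℝ (e k)).hasFDerivAt.comp u hasFDerivAt_snd
    rw [(h2.fun_mul h3).fderiv]
    simp
  have e3 := integral_finsetSum (μ := D.m) Finset.univ
    fun k _ => h.integrable_ver_id (key k) (e k)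
  rw [Finset.sum_eq_zero fun k _ => h.ver _ (key k) (e k)] at e3
  rw [← e3]
  refine integral_congr_ae (Eventually.of_forall fun a => ?_)
  have hy : D.y a = ∑ k, ⟪e k, D.y a⟫ • e k := (e.sum_repr' (D.y a)).symm
  have hv : (D.q a (D.y a), D.g a (D.y a)) = ∑ k, ⟪e k, D.y a⟫ • (D.q a (e k), D.g a (e k)) := by
    have := congrArg ((D.q a).prod (D.g a)) hy
    rw [map_sum] at this
    simpa only [map_smul, ContinuousLinearMap.prod_apply] using this
  have hi : ⟪D.L a, D.y a⟫ = ∑ k, ⟪e k, D.y a⟫ * ⟪D.L a, e k⟫ := by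
    conv_lhs => rw [hy]
    rw [inner_sum]
    simp only [real_inner_smul_right]
  have ht : trH (D.g a) = ∑ k, ⟪e k, D.g a (e k)⟫ := LinearMap.trace_eq_sum_inner _ e
  simp only [hd]
  rw [hv, hi, ht, map_sum, ← Finset.sum_add_distrib, Finset.mul_sum, ← Finset.sum_add_distrib]
  refine Finset.sum_congr rfl fun k _ => ?_
  rw [map_smul, smul_eq_mul]
  ring

end Pool.Agent.Lib.MP_8daebb_an.SV
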