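import Pool.Agent.Lib.MP_8daebb_an.SV.Df2
import Pool.Agent.Lib.MP_8daebb_an.SV.Id
import Pool.Agent.Lib.MP_8daebb_an.SV.Id2
import Pool.Agent.Lib.MP_8daebb_an.SV.Ker2
import Pool.Agent.Lib.MP_8daebb_an.SV.Av

/-! The derivative of the height function. -/

open MeasureTheory Metric Filter Topology Set
open scoped RealInnerProductSpace ENNReal ContDiff

namespace Pool.Agent.Lib.MP_8daebb_an.SV

variable {α : Type*} [MeasurableSpace α] {H : Type*} [NormedAddCommGroup H]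
  [InnerProductSpace ℝ H] [FiniteDimensional ℝ H] [MeasurableSpace H] [BorelSpace H]

theorem scale_key1 {m : Measure α} {X : α → ℂ} (hX : Measurable X) (hB : ∀ᵐ a ∂m, ‖X a‖ ≤ 2)
    {f : α → ℝ} (hf : Integrable f m) {g : ℂ → ℝ} (hg : ContDiff ℝ 1 g) :
    HasDerivAt (fun c : ℝ => ∫ a, g (c • X a) * f a ∂m)
      (∫ a, fderiv ℝ g (X a) (X a) * f a ∂m) 1 := by
  have hc := hg.continuous
  have hd : Continuous (fderiv ℝ g) := hg.continuous_fderiv one_ne_zero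
  obtain ⟨C, hC⟩ := (isCompact_closedBall (0 : ℂ) 4).exists_bound_of_continuousOn hd.continuousOn
  obtain ⟨C0, hC0⟩ := (isCompact_closedBall (0 : ℂ) 4).exists_bound_of_continuousOn hc.continuousOn
  have hm : ∀ c : ℝ, Measurable fun a => g (c • X a) := fun c =>
    (show Continuous fun u : ℂ => g (c • u) by fun_prop).measurable.comp hX
  have hm' : Measurable fun a => fderiv ℝ g ((1 : ℝ) • X a) (X a) :=
    (show Continuous fun u : ℂ => fderiv ℝ g ((1 : ℝ) • u) u by fun_prop).measurable.comp hX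
  have hin : ∀ c ∈ ball (1 : ℝ) 1, ∀ u : ℂ, ‖u‖ ≤ 2 → c • u ∈ closedBall (0 : ℂ) 4 := by
    intro c hc u hu
    rw [mem_ball, Real.dist_eq, abs_lt] at hc
    rw [mem_closedBall_zero_iff, norm_smul, Real.norm_of_nonneg (by linarith)]
    nlinarith [norm_nonneg u]
  have key := hasDerivAt_integral_of_dominated_loc_of_deriv_le (μ := m) (x₀ := (1 : ℝ))
    (F := fun c a => g (c • X a) * f a) (F' := fun c a => fderiv ℝ g (c • X a) (X a) * f a)
    (s := ball 1 1) (bound := fun a => C * 2 * ‖f a‖) (ball_mem_nhds _ one_pos)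
    (Eventually.of_forall fun c => (hm c).aestronglyMeasurable.mul hf.1)
    (hf.bdd_mul (c := C0) (hm 1).aestronglyMeasurable
      (hB.mono fun a ha => hC0 _ (hin 1 (mem_ball_self one_pos) _ ha)))
    (hm'.aestronglyMeasurable.mul hf.1) ?_ (hf.norm.const_mul _) ?_
  · simpa only [one_smul] using key.2
  · filter_upwards [hB] with a ha c hc
    rw [norm_mul]
    have h1 := hC _ (hin c hc _ ha)
    refine mul_le_mul_of_nonneg_right ((ContinuousLinearMap.le_opNorm _ _).trans ?_) (norm_nonneg _)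
    exact mul_le_mul h1 ha (norm_nonneg _) ((norm_nonneg _).trans h1)
  · refine Eventually.of_forall fun a c _ => HasDerivAt.mul_const ?_ _
    have h1 : HasDerivAt (fun c : ℝ => c • X a) (X a) c := by
      simpa using (hasDerivAt_id c).smul_const (X a)
    exact (hg.differentiable one_ne_zero _).hasFDerivAt.comp_hasDerivAt c h1

theorem lin4_key1 {m : Measure α} {f1 f2 f3 f4 : α → ℝ} (h1 : Integrable f1 m)
    (h2 : Integrable f2 m) (h3 : Integrable f3 m) (h4 : Integrable f4 m) (c1 c2 c3 c4 : ℝ)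
    {f : α → ℝ} (hf : ∀ a, f a = c1 * f1 a + c2 * f2 a + c3 * f3 a + c4 * f4 a) :
    ∫ a, f a ∂m = c1 * ∫ a, f1 a ∂m + c2 * ∫ a, f2 a ∂m + c3 * ∫ a, f3 a ∂m +
      c4 * ∫ a, f4 a ∂m := by
  have i1 : Integrable (fun a => c1 * f1 a + c2 * f2 a) m := (h1.const_mul _).add (h2.const_mul _)
  have i2 : Integrable (fun a => c1 * f1 a + c2 * f2 a + c3 * f3 a) m := i1.add (h3.const_mul _)
  simp only [hf]
  rw [integral_add i2 (h4.const_mul _), integral_add i1 (h3.const_mul _),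
    integral_add (h1.const_mul _) (h2.const_mul _)]
  simp only [integral_const_mul]

theorem om_scale_key1 {r ϱ : ℝ} (hr : 0 < r) (hϱ : 0 < ϱ) (u : ℂ) :
    om ϱ u = om r ((r / ϱ) • u) := by
  unfold om
  rw [norm_smul, Real.norm_of_nonneg (by positivity)]
  congr 4
  field_simp

theorem quad_key1 {p A u : ℝ} (hp : 0 ≤ p) (hA : 0 ≤ A) (h : u ^ 2 ≤ p * A) (l : ℝ) :
    0 ≤ p * (l * l) + -(2 * u) * l + A := by
  rcases hp.eq_or_lt with rfl | h0
  · have : u = 0 := by nlinarith [sq_nonneg u]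
    simp [this, hA]
  · refine nonneg_of_mul_nonneg_right ?_ h0
    nlinarith [sq_nonneg (l * p - u)]

omit [FiniteDimensional ℝ H] [MeasurableSpace H] [BorelSpace H] in
theorem pw1_key1 {D : CD α H} {δ s r : ℝ} {a : α} (h : PW D δ a) (h0 : 0 ≤ δ) (hδ : δ ≤ 1 / 2)
    (hr : 0 < r) (hy : ‖D.y a‖ ≤ s ^ 2) :
    ‖-(fderiv ℝ (om r) (D.x a) (D.τ a (D.x a)) * ‖D.y a‖ ^ 2) +
      om r (D.x a) * ‖D.y a‖ ^ 2 * ⟪D.eh a, D.x a⟫ - om r (D.x a) * ‖D.y a‖ ^ 2 * D.t a‖ ≤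
      30 * s ^ 4 * D.en a := by
  obtain ⟨-, -, -, p4, -, p6, -, p8, -⟩ := chi_props hr
  have ht := h.t_nonneg
  have hY : ‖D.y a‖ ^ 2 ≤ s ^ 4 := by
    have := pow_le_pow_left₀ (norm_nonneg _) hy 2
    rwa [← pow_mul] at this
  have hY0 : 0 ≤ ‖D.y a‖ ^ 2 := sq_nonneg _
  have h1 : |fderiv ℝ (om r) (D.x a) (D.τ a (D.x a))| ≤ 24 * D.t a := by
    rcases le_or_gt r ‖D.x a‖ with g | g
    · rw [(p6 _ g).2.2.2]
      simpa using ht
    · have h2 : ‖D.τ a (D.x a)‖ ≤ 2 * D.t a * r :=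
        (ContinuousLinearMap.le_opNorm _ _).trans
          (mul_le_mul h.τ_le g.le (norm_nonneg _) (by positivity))
      refine ((ContinuousLinearMap.le_opNorm _ _).trans
        (mul_le_mul (p8 _).2 h2 (norm_nonneg _) (by positivity))).trans (le_of_eq ?_)
      field_simp
      ring
  have h2 : |⟪D.eh a, D.x a⟫| ≤ D.en a := by
    refine (abs_real_inner_le_norm _ _).trans ?_
    have h3 := mul_le_mul h.eh_le h.x_le (norm_nonneg _) (by positivity)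
    unfold CD.en
    nlinarith
  have h3 : D.t a ≤ D.en a := by unfold CD.en; linarith
  obtain ⟨o0, o3⟩ := p4 (D.x a)
  rw [Real.norm_eq_abs, show -(fderiv ℝ (om r) (D.x a) (D.τ a (D.x a)) * ‖D.y a‖ ^ 2) +
      om r (D.x a) * ‖D.y a‖ ^ 2 * ⟪D.eh a, D.x a⟫ - om r (D.x a) * ‖D.y a‖ ^ 2 * D.t a =
      ‖D.y a‖ ^ 2 * (-fderiv ℝ (om r) (D.x a) (D.τ a (D.x a)) +
        om r (D.x a) * ⟪D.eh a, D.x a⟫ - om r (D.x a) * D.t a) by ring, abs_mul,
    abs_of_nonneg hY0, mul_right_comm, mul_comm]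
  refine mul_le_mul ?_ hY hY0 (by linarith)
  rw [abs_le] at h1 h2 ⊢
  have h4 := mul_le_mul_of_nonneg_left h2.1 o0
  have h5 := mul_le_mul_of_nonneg_left h2.2 o0
  have h6 := mul_le_mul_of_nonneg_right o3 (ht.trans h3)
  have h7 := mul_le_mul_of_nonneg_right o3 ht
  have h8 := mul_nonneg o0 ht
  constructor <;> nlinarith

omit [FiniteDimensional ℝ H] [MeasurableSpace H] [BorelSpace H] in
theorem pw2_key1 {D : CD α H} {δ s r : ℝ} {a : α} (h : PW D δ a) (h0 : 0 ≤ δ) (hδ : δ ≤ 1 / 2)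
    (hr : 0 < r) (hy : ‖D.y a‖ ≤ s ^ 2) :
    ‖chi r (D.x a) * D.w (D.x a) * D.t a - chi r (D.x a) * (trH (D.g a) + ⟪D.L a, D.y a⟫) +
      2 / r ^ 2 * (om r (D.x a) * ⟪D.x a, D.q a (D.y a)⟫ -
        om r (D.x a) * ⟪D.y a, D.b a (D.x a)⟫)‖ ≤
      2 * (om r (D.x a) * ‖D.y a‖ ^ 2) + (s ^ 2 / 2 + 3 * s ^ 4 / (2 * r ^ 2)) * D.en a := by
  obtain ⟨-, -, p3, p4, p5, p6, -, -, -⟩ := chi_props hr
  have ht := h.t_nonneg
  have hY : ‖D.y a‖ ^ 2 ≤ s ^ 4 := by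
    have := pow_le_pow_left₀ (norm_nonneg _) hy 2
    rwa [← pow_mul] at this
  have hY0 : 0 ≤ ‖D.y a‖ ^ 2 := sq_nonneg _
  have hy0 := norm_nonneg (D.y a)
  have h3 : D.t a ≤ D.en a := by unfold CD.en; linarith
  obtain ⟨o0, o3⟩ := p4 (D.x a)
  obtain ⟨c0, c1⟩ := p3 (D.x a)
  have c3 := p5 (D.x a)
  have h1 : |chi r (D.x a) * D.w (D.x a) * D.t a - chi r (D.x a) * (trH (D.g a) + ⟪D.L a, D.y a⟫)|
      ≤ om r (D.x a) * ‖D.y a‖ ^ 2 + s ^ 2 / 2 * D.en a := by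
    rw [mul_assoc, ← mul_sub, abs_mul, abs_of_nonneg c0, abs_sub_comm]
    refine (mul_le_mul_of_nonneg_left (h.trg.trans
      (mul_le_mul_of_nonneg_right hδ (by positivity))) c0).trans ?_
    have h4 : ‖D.y a‖ * D.t a ≤ s ^ 2 * D.en a := mul_le_mul hy h3 ht (sq_nonneg _)
    have h5 := mul_le_mul_of_nonneg_right c1 (mul_nonneg hy0 ht)
    have h6 := mul_le_mul_of_nonneg_right c3 hY0
    have h7 := mul_nonneg c0 hY0
    nlinarith
  have h2 : |2 / r ^ 2 * (om r (D.x a) * ⟪D.x a, D.q a (D.y a)⟫ -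
      om r (D.x a) * ⟪D.y a, D.b a (D.x a)⟫)| ≤
      om r (D.x a) * ‖D.y a‖ ^ 2 + 3 * s ^ 4 / (2 * r ^ 2) * D.en a := by
    have he : 0 ≤ D.en a := ht.trans h3
    rcases le_or_gt r ‖D.x a‖ with g | g
    · rw [(p6 _ g).2.1]
      simp only [zero_mul, sub_zero, mul_zero, abs_zero, zero_add]
      positivity
    · have h4 := h.qb (D.y a) (D.x a)
      rw [real_inner_comm, real_inner_comm (D.y a)] at h4
      set z := √(D.t a) + ‖D.y a‖ with hz
      have z0 : 0 ≤ z := by positivity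
      have z2 : z ^ 2 ≤ 2 * D.en a := by
        have := Real.sq_sqrt ht
        unfold CD.en
        nlinarith [sq_nonneg (√(D.t a) - ‖D.y a‖)]
      have h5 : δ * ‖D.y a‖ * z * ‖D.y a‖ * ‖D.x a‖ ≤ 1 / 2 * ‖D.y a‖ * z * ‖D.y a‖ * r := by
        gcongr
      have h6 : z / r ≤ 1 + D.en a / (2 * r ^ 2) := by
        have e1 : z / r ≤ 1 + (z / r) ^ 2 / 4 := by nlinarith [sq_nonneg (z / r - 2)]
        refine e1.trans ?_
        rw [div_pow, div_div, add_le_add_iff_left, div_le_div_iff₀ (by positivity) (by positivity)]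
        nlinarith [sq_nonneg r]
      rw [← mul_sub, abs_mul, abs_mul, abs_of_nonneg o0, abs_of_nonneg (by positivity)]
      calc _ ≤ 2 / r ^ 2 * (om r (D.x a) * (1 / 2 * ‖D.y a‖ * z * ‖D.y a‖ * r)) := by
            gcongr
            exact h4.trans h5
        _ = om r (D.x a) * ‖D.y a‖ ^ 2 * (z / r) := by field_simp
        _ ≤ om r (D.x a) * ‖D.y a‖ ^ 2 * (1 + D.en a / (2 * r ^ 2)) := by gcongr
        _ = om r (D.x a) * ‖D.y a‖ ^ 2 +
            om r (D.x a) * ‖D.y a‖ ^ 2 / (2 * r ^ 2) * D.en a := by ring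
        _ ≤ _ := by gcongr
  refine (norm_add_le _ _).trans ?_
  rw [Real.norm_eq_abs, Real.norm_eq_abs]
  linarith

theorem key_one (M : ℝ) : ∃ C : ℝ, 0 < C ∧ ∀ (D : CD α H) (R δ s ρ r : ℝ), CV D 0 R δ M →
    δ ≤ 1 / 2 → Sm D s ρ → ρ ≤ 1 / 2 → ρ ≤ r → r < R →
    ∃ h' : ℝ, HasDerivAt D.hh h' r ∧ |r * h' - D.UU r| ≤ C * s ^ 6 / r ^ 2 ∧
      |D.dr r - D.UU r| ≤ C * s ^ 6 / r ^ 2 + C * r ^ 2 * D.hh r ∧
      D.UU r ^ 2 ≤ 2 * D.hh r * (D.RR r + C * s ^ 6) := by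
  refine ⟨30, by norm_num, fun D R δ s ρ r h hδ hs hρ hρr hR => ?_⟩
  have hr : 0 < r := hs.ρ_pos.trans_le hρr
  have h0 := h.δ_nonneg
  have s0 := hs.s_pos
  have s1 : s ≤ 1 := hs.s_le.trans (pow_le_one₀ hs.ρ_pos.le (by linarith))
  have s8 : s ^ 4 * s ^ 4 ≤ s ^ 6 := by
    rw [← pow_add]; exact pow_le_pow_of_le_one s0.le s1 (by norm_num)
  obtain ⟨p1, p2, p3, p4, p5, p6, p7, p8, -⟩ := chi_props hr
  obtain ⟨it, -, iy, ie, -, -⟩ := h.integrable_t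
  have co := p2.continuous
  have cc := p1.continuous
  have cd : Continuous (fderiv ℝ (om r)) := p2.continuous_fderiv one_ne_zero
  have ct : Continuous (trH : (H →L[ℝ] H) → ℝ) :=
    ((LinearMap.trace ℝ H).comp (ContinuousLinearMap.coeLM ℝ)).continuous_of_finiteDimensional
  have i1 : Integrable (fun a => fderiv ℝ (om r) (D.x a) (D.x a) * ‖D.y a‖ ^ 2) D.m :=
    h.integrable_cont_id (fun p => fderiv ℝ (om r) p.1.1 p.1.1 * ‖p.1.2‖ ^ 2) (by fun_prop)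
  have i2 : Integrable (fun a => om r (D.x a) * ‖D.y a‖ ^ 2) D.m :=
    h.integrable_cont_id (fun p => om r p.1.1 * ‖p.1.2‖ ^ 2) (by fun_prop)
  have i3 : Integrable (fun a => om r (D.x a) * ⟪D.y a, D.b a (D.x a)⟫) D.m :=
    h.integrable_cont_id (fun p => om r p.1.1 * ⟪p.1.2, p.2.2.1 p.1.1⟫) (by fun_prop)
  have bt : ∀ᵐ a ∂D.m, ‖D.t a‖ ≤ 2 := h.pw_av.mono fun a ha => by
    rw [Real.norm_of_nonneg ha.t_nonneg]; exact ha.t_le
  have mw : AEStronglyMeasurable (fun a => D.w (D.x a)) D.m :=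
    (h.m_w.comp h.m_x).aestronglyMeasurable
  have bw : ∀ᵐ a ∂D.m, ‖D.w (D.x a)‖ ≤ 2 := h.car.mono fun a ha => by
    have := abs_le.1 (h.w_le _ ha).1
    rw [Real.norm_eq_abs, abs_le]
    constructor <;> linarith
  have i4 : Integrable (fun a => -(fderiv ℝ (om r) (D.x a) (D.τ a (D.x a)) * ‖D.y a‖ ^ 2) +
      om r (D.x a) * ‖D.y a‖ ^ 2 * ⟪D.eh a, D.x a⟫ - om r (D.x a) * ‖D.y a‖ ^ 2 * D.t a) D.m :=
    (h.integrable_cont_id (fun p => -(fderiv ℝ (om r) p.1.1 (p.2.1 p.1.1) * ‖p.1.2‖ ^ 2) +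
      om r p.1.1 * ‖p.1.2‖ ^ 2 * ⟪p.2.2.2.2.2.2, p.1.1⟫) (by fun_prop)).sub
      (i2.mul_bdd h.m_t.aestronglyMeasurable bt)
  have i5 : Integrable (fun a => om r (D.x a) * ⟪D.x a, D.q a (D.y a)⟫) D.m :=
    h.integrable_cont_id (fun p => om r p.1.1 * ⟪p.1.1, p.2.2.2.1 p.1.2⟫) (by fun_prop)
  have i6 : Integrable (fun a => chi r (D.x a) * (trH (D.g a) + ⟪D.L a, D.y a⟫)) D.m :=
    h.integrable_cont_id (fun p => chi r p.1.1 * (trH p.2.2.2.2.1 + ⟪p.2.2.2.2.2.1, p.1.2⟫))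
      (by fun_prop)
  have i7 : Integrable (fun a => chi r (D.x a) * D.w (D.x a) * D.t a) D.m :=
    ((h.integrable_cont_id (fun p => chi r p.1.1) (by fun_prop)).mul_bdd mw bw).mul_bdd
      h.m_t.aestronglyMeasurable bt
  have i8 : Integrable (fun a => om r (D.x a) * D.w (D.x a) * ⟪D.τ a (D.x a), D.x a⟫) D.m :=
    ((h.integrable_cont_id (fun p => om r p.1.1 * ⟪p.2.1 p.1.1, p.1.1⟫) (by fun_prop)).mul_bdd
      mw bw).congr (Eventually.of_forall fun a => mul_right_comm _ _ _)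
  have i9 : Integrable (fun a => om r (D.x a) * (δ * ‖D.y a‖ * D.t a * ‖D.x a‖ ^ 2)) D.m :=
    ((h.integrable_cont_id (fun p => om r p.1.1 * (δ * ‖p.1.2‖ * ‖p.1.1‖ ^ 2))
      (by fun_prop)).mul_bdd h.m_t.aestronglyMeasurable bt).congr
      (Eventually.of_forall fun a => by ring)
  set A1 := ∫ a, fderiv ℝ (om r) (D.x a) (D.x a) * ‖D.y a‖ ^ 2 ∂D.m with hA1
  set A2 := ∫ a, om r (D.x a) * ‖D.y a‖ ^ 2 ∂D.m with hA2
  set A3 := ∫ a, om r (D.x a) * ⟪D.y a, D.b a (D.x a)⟫ ∂D.m with hA3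
  have a2 : 0 ≤ A2 := integral_nonneg fun a => mul_nonneg (p4 _).1 (sq_nonneg _)
  have eh : D.hh r = (r ^ 2)⁻¹ * A2 := rfl
  have eU : D.UU r = 2 / r ^ 2 * A3 := rfl
  have r2 : 0 < r ^ 2 := by positivity
  -- the derivative
  have d1 : HasDerivAt (fun ϱ => ∫ a, om ϱ (D.x a) * ‖D.y a‖ ^ 2 ∂D.m) (A1 * (-r / r ^ 2)) r := by
    have d2 : HasDerivAt (fun ϱ : ℝ => r / ϱ) (-r / r ^ 2) r := by
      have := (hasDerivAt_const r r).fun_div (hasDerivAt_id' r) hr.ne'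
      rwa [zero_mul, mul_one, zero_sub] at this
    have d3 := scale_key1 h.m_x h.x_le_av iy p2
    rw [← div_self hr.ne'] at d3
    refine (d3.comp r d2).congr_of_eventuallyEq ?_
    filter_upwards [lt_mem_nhds hr] with ϱ hϱ
    simp only [Function.comp, om_scale_key1 hr hϱ]
  have d4 : HasDerivAt D.hh (-(2 * r) / (r ^ 2) ^ 2 * A2 + (r ^ 2)⁻¹ * (A1 * (-r / r ^ 2))) r := by
    have d5 : HasDerivAt (fun ϱ : ℝ => (ϱ ^ 2)⁻¹) (-(2 * r) / (r ^ 2) ^ 2) r := by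
      have := (hasDerivAt_pow 2 r).fun_inv r2.ne'
      rwa [show ((2 : ℕ) : ℝ) * r ^ (2 - 1) = 2 * r by norm_num] at this
    exact d5.mul d1
  refine ⟨_, d4, ?_, ?_, ?_⟩
  · have T1 : Test (H := H) 0 R fun u => om r u.1 * ‖u.2‖ ^ 2 :=
      ⟨((p2.comp contDiff_fst).mul ((contDiff_norm_sq ℝ).comp contDiff_snd)).contDiffOn, r, hR,
        fun u hu => mul_eq_zero_of_left (p6 _ (by simpa using hu)).2.1 _⟩
    have f1 : ∀ (x v : ℂ) (y k : H), fderiv ℝ (fun u : ℂ × H => om r u.1 * ‖u.2‖ ^ 2) (x, y) (v, k)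
        = fderiv ℝ (om r) x v * ‖y‖ ^ 2 + 2 * (om r x * ⟪y, k⟫) := by
      intro x v y k
      have f2 : HasFDerivAt (fun u : ℂ × H => om r u.1)
          ((fderiv ℝ (om r) x).comp (ContinuousLinearMap.fst ℝ ℂ H)) (x, y) :=
        HasFDerivAt.comp (f := Prod.fst) (x, y) (p2.differentiable one_ne_zero x).hasFDerivAt
          hasFDerivAt_fst
      have f3 : HasFDerivAt (fun u : ℂ × H => ‖u.2‖ ^ 2)
          ((2 • innerSL ℝ y).comp (ContinuousLinearMap.snd ℝ ℂ H)) (x, y) :=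
        HasFDerivAt.comp (f := Prod.snd) (x, y) (hasStrictFDerivAt_norm_sq y).hasFDerivAt
          hasFDerivAt_snd
      rw [(f2.fun_mul f3).fderiv]
      simp
      ring
    have e1 := h.hor_pos T1 0
    simp only [sub_zero, f1, map_sub] at e1
    set E := ∫ a, (-(fderiv ℝ (om r) (D.x a) (D.τ a (D.x a)) * ‖D.y a‖ ^ 2) +
      om r (D.x a) * ‖D.y a‖ ^ 2 * ⟪D.eh a, D.x a⟫ - om r (D.x a) * ‖D.y a‖ ^ 2 * D.t a) ∂D.m
      with hE
    have e2 : A1 + 2 * A2 + 2 * A3 + E = 0 := by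
      rw [lin4_key1 i1 i2 i3 i4 1 2 2 1 fun a => by ring] at e1
      linarith
    have e3 : ‖E‖ ≤ ∫ a, 30 * s ^ 4 * D.en a ∂D.m := by
      refine norm_integral_le_of_norm_le (ie.const_mul _) ?_
      filter_upwards [h.pw_av, hs.y_le] with a h1 h2 using pw1_key1 h1 h0 hδ hr h2
    rw [integral_const_mul, Real.norm_eq_abs] at e3
    have e4 : r * (-(2 * r) / (r ^ 2) ^ 2 * A2 + (r ^ 2)⁻¹ * (A1 * (-r / r ^ 2))) - D.UU r
        = E / r ^ 2 := by
      rw [eU, show E = -(A1 + 2 * A2 + 2 * A3) by linarith]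
      field_simp
      ring
    rw [e4, abs_div, abs_of_pos r2]
    refine div_le_div_of_nonneg_right (e3.trans ?_) r2.le
    have := mul_le_mul_of_nonneg_left hs.en_le (show 0 ≤ 30 * s ^ 4 by positivity)
    nlinarith
  · have T2 : Test (H := H) 0 R fun u => chi r u.1 :=
      ⟨(p1.comp contDiff_fst).contDiffOn, r, hR, fun u hu => (p6 _ (by simpa using hu)).1⟩
    have f1 : ∀ (x v : ℂ) (y k : H), fderiv ℝ (fun u : ℂ × H => chi r u.1) (x, y) (v, k)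
        = -(2 / r ^ 2) * (om r x * ⟪x, v⟫) := by
      intro x v y k
      have f2 : HasFDerivAt (fun u : ℂ × H => chi r u.1)
          ((fderiv ℝ (chi r) x).comp (ContinuousLinearMap.fst ℝ ℂ H)) (x, y) :=
        HasFDerivAt.comp (f := Prod.fst) (x, y) (p1.differentiable one_ne_zero x).hasFDerivAt
          hasFDerivAt_fst
      rw [f2.fderiv, ← mul_assoc, ← p7]
      rfl
    have e1 := h.ver_rad T2
    simp only [f1] at e1
    rw [integral_add (i5.const_mul _) i6, integral_const_mul] at e1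
    have e2 : D.dr r - D.UU r = ∫ a, (chi r (D.x a) * D.w (D.x a) * D.t a -
        chi r (D.x a) * (trH (D.g a) + ⟪D.L a, D.y a⟫) +
        2 / r ^ 2 * (om r (D.x a) * ⟪D.x a, D.q a (D.y a)⟫ -
          om r (D.x a) * ⟪D.y a, D.b a (D.x a)⟫)) ∂D.m := by
      rw [lin4_key1 i7 i6 i5 i3 1 (-1) (2 / r ^ 2) (-(2 / r ^ 2)) fun a => by ring, eU, CD.dr]
      linarith
    have e3 : ‖D.dr r - D.UU r‖ ≤ ∫ a, (2 * (om r (D.x a) * ‖D.y a‖ ^ 2) +
        (s ^ 2 / 2 + 3 * s ^ 4 / (2 * r ^ 2)) * D.en a) ∂D.m := by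
      rw [e2]
      refine norm_integral_le_of_norm_le ((i2.const_mul _).add (ie.const_mul _)) ?_
      filter_upwards [h.pw_av, hs.y_le] with a h1 h2 using pw2_key1 h1 h0 hδ hr h2
    rw [integral_add (i2.const_mul _) (ie.const_mul _), integral_const_mul, integral_const_mul,
      Real.norm_eq_abs] at e3
    refine e3.trans ?_
    have e4 : 30 * r ^ 2 * D.hh r = 30 * A2 := by rw [eh]; field_simp
    have e5 := mul_le_mul_of_nonneg_left hs.en_le
      (show 0 ≤ s ^ 2 / 2 + 3 * s ^ 4 / (2 * r ^ 2) by positivity)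
    have e6 : (s ^ 2 / 2 + 3 * s ^ 4 / (2 * r ^ 2)) * s ^ 4 ≤ 30 * s ^ 6 / r ^ 2 := by
      have r4 : r ^ 2 ≤ 4 := by nlinarith [h.R_le]
      have e7 : (s ^ 2 / 2 + 3 * s ^ 4 / (2 * r ^ 2)) * s ^ 4
          = (s ^ 6 * r ^ 2 / 2 + 3 / 2 * (s ^ 4 * s ^ 4)) / r ^ 2 := by field_simp
      rw [e7]
      refine div_le_div_of_nonneg_right ?_ r2.le
      have s6 : 0 ≤ s ^ 6 := by positivity
      nlinarith
    rw [e4]
    linarith
  · set B1 := ∫ a, om r (D.x a) * D.w (D.x a) * ⟪D.τ a (D.x a), D.x a⟫ ∂D.m with hB1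
    set B2 := ∫ a, om r (D.x a) * (δ * ‖D.y a‖ * D.t a * ‖D.x a‖ ^ 2) ∂D.m with hB2
    have eR : D.RR r = 2 / r ^ 2 * B1 := rfl
    have q1 : ∀ l : ℝ, 0 ≤ A2 * (l * l) + -(2 * A3) * l + (B1 + B2) := by
      intro l
      have q2 : 0 ≤ ∫ a, (om r (D.x a) * ‖D.y a‖ ^ 2 * (l * l) +
          om r (D.x a) * ⟪D.y a, D.b a (D.x a)⟫ * (-2 * l) +
          (om r (D.x a) * D.w (D.x a) * ⟪D.τ a (D.x a), D.x a⟫ +
            om r (D.x a) * (δ * ‖D.y a‖ * D.t a * ‖D.x a‖ ^ 2))) ∂D.m := by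
        refine integral_nonneg_of_ae (h.pw_av.mono fun a ha => ?_)
        have q3 := mul_nonneg (p4 (D.x a)).1 (quad_key1 (sq_nonneg _)
          (by linarith [ha.τ_pos (D.x a)]) (ha.rad (D.x a)) l)
        refine q3.trans_eq ?_
        ring
      rw [lin4_key1 i2 i3 i8 i9 (l * l) (-2 * l) 1 1 fun a => by ring] at q2
      linarith
    have q4 := discrim_le_zero q1
    rw [discrim] at q4
    have q5 : B2 ≤ ∫ a, 3 / 2 * s ^ 2 * r ^ 2 * D.en a ∂D.m := by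
      refine integral_mono_ae i9 (ie.const_mul _) ?_
      filter_upwards [h.pw_av, hs.y_le] with a h1 h2
      have t0 := h1.t_nonneg
      have t1 : D.t a ≤ D.en a := by unfold CD.en; linarith [sq_nonneg ‖D.y a‖]
      have t2 := t0.trans t1
      rcases le_or_gt r ‖D.x a‖ with g | g
      · rw [(p6 _ g).2.1, zero_mul]
        positivity
      · calc _ ≤ 3 * (1 / 2 * s ^ 2 * D.en a * r ^ 2) := by
              gcongr
              exact (p4 _).2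
          _ = _ := by ring
    rw [integral_const_mul] at q5
    have q6 : B2 ≤ 15 * s ^ 6 * r ^ 2 := by
      have := mul_le_mul_of_nonneg_left hs.en_le (show 0 ≤ 3 / 2 * s ^ 2 * r ^ 2 by positivity)
      have s6 : 0 ≤ s ^ 6 * r ^ 2 := by positivity
      nlinarith
    have q7 : A3 ^ 2 ≤ A2 * (B1 + 15 * s ^ 6 * r ^ 2) := by
      have := mul_le_mul_of_nonneg_left q6 a2
      nlinarith
    rw [eU, eh, eR]
    calc (2 / r ^ 2 * A3) ^ 2 = (2 / r ^ 2) ^ 2 * A3 ^ 2 := mul_pow _ _ _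
      _ ≤ (2 / r ^ 2) ^ 2 * (A2 * (B1 + 15 * s ^ 6 * r ^ 2)) := by gcongr
      _ = _ := by field_simp; ring

end Pool.Agent.Lib.MP_8daebb_an.SV
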