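import Pool.Agent.Lib.MP_8daebb_an.SV.LocX

/-! The local algebra of groups of sheets. -/

open MeasureTheory Metric Filter Topology Set
open scoped RealInnerProductSpace ENNReal ContDiff

namespace Pool.Agent.Lib.MP_8daebb_an.SV

variable {α : Type*} [MeasurableSpace α] {H : Type*} [NormedAddCommGroup H]
  [InnerProductSpace ℝ H] [FiniteDimensional ℝ H] [MeasurableSpace H] [BorelSpace H]

section core

variable {ν : Measure α} {z d : α → ℝ} {p : α → ℂ} {wd Δ c : ℝ} {Cs : Finset ℝ}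

/-- Mean of `p` in a group. -/
noncomputable def PLoc (ν : Measure α) (z : α → ℝ) (wd : ℝ) (p : α → ℂ) (c : ℝ) : ℂ :=
  (∫ a, gLoc z wd c a ∂ν)⁻¹ • ∫ a, gLoc z wd c a • p a ∂ν

/-- Deviation of `p` from the mean of its group. -/
noncomputable def rLoc (ν : Measure α) (z : α → ℝ) (wd : ℝ) (p : α → ℂ) (Cs : Finset ℝ) (a : α) :
    ℂ := p a - ∑ c ∈ Cs, gLoc z wd c a • PLoc ν z wd p c

omit [MeasurableSpace α] in
theorem single_loc {M : Type*} [AddCommGroup M] [Module ℝ M]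
    (hgap : ∀ c ∈ Cs, ∀ c' ∈ Cs, c ≠ c' → 2 * wd < |c - c'|) (hc : c ∈ Cs) {a : α}
    (ha : |z a - c| ≤ wd) (φ : ℝ → M) : ∑ c' ∈ Cs, gLoc z wd c' a • φ c' = φ c := by
  unfold gLoc
  rw [Finset.sum_eq_single_of_mem c hc, if_pos ha, one_smul]
  intro c' hc' hne
  rw [if_neg, zero_smul]
  intro h
  have := hgap c' hc' c hc hne
  have := abs_sub_le c' (z a) c
  rw [abs_sub_comm c' (z a)] at this
  linarith

theorem sumg_loc (hz : Measurable z) (φ : ℝ → ℂ) :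
    MemLp (fun a => ∑ c ∈ Cs, gLoc z wd c a • φ c) ∞ ν :=
  memLp_finsetSum _ fun c _ => smul_loc (gL_mem_loc hz wd c) (memLp_top_const _)

theorem rL_mem_loc (hz : Measurable z) (hp : MemLp p ∞ ν) : MemLp (rLoc ν z wd p Cs) ∞ ν :=
  hp.sub (sumg_loc hz _)

variable [IsFiniteMeasure ν]

theorem dd_loc (hz : Measurable z) (hp : MemLp p ∞ ν) (hd : MemLp d ∞ ν) (h0 : ∀ᵐ a ∂ν, 0 ≤ d a)
    (hwd : 0 < wd) (hΔ : 2 * wd ≤ Δ) (hcov : ∀ᵐ a ∂ν, ∃ c ∈ Cs, |z a - c| ≤ wd)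
    (hm : ∀ c ∈ Cs, 1 / 2 ≤ ∫ a, gLoc z wd c a ∂ν) :
    ∫ a, d a ∂ν ≤ 2 * ∫ a, ∫ a', wLoc z Δ a a' * (‖p a - p a'‖ ^ 2 + d a + d a') ∂ν ∂ν := by
  rw [split_loc hz hp hd]
  have a0 : 0 ≤ ∫ a, ∫ a', wLoc z Δ a a' * ‖p a - p a'‖ ^ 2 ∂ν ∂ν :=
    integral_nonneg fun a => integral_nonneg fun a' =>
      mul_nonneg (wL_unit_loc z Δ a a').1 (sq_nonneg _)
  have a1 : ∫ a, d a ∂ν ≤ ∫ a, 4 * ∫ a', wLoc z Δ a a' * d a ∂ν ∂ν := by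
    refine integral_mono_ae (int_loc hd) ((int1_loc hz hd).integral_prod_left.const_mul _) ?_
    filter_upwards [h0, hcov] with a ha ⟨c, hc, hac⟩
    have b := low_loc (ν := ν) hz hwd hΔ hac (memLp_top_const (d a)) fun _ => ha
    rw [integral_mul_const] at b
    have := mul_le_mul_of_nonneg_right (hm c hc) ha
    linarith
  rw [integral_const_mul] at a1
  linarith

theorem PL_le_loc (hz : Measurable z) (hp : MemLp p ∞ ν) (hm : 1 / 2 ≤ ∫ a, gLoc z wd c a ∂ν) :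
    ‖PLoc ν z wd p c‖ ^ 2 ≤ 2 * ∫ a, ‖p a‖ ^ 2 ∂ν := by
  have a := cs_loc (gL_mem_loc hz wd c) hp fun a => (gL_unit_loc z wd c a).1
  have b : ∫ a, gLoc z wd c a * ‖p a‖ ^ 2 ∂ν ≤ ∫ a, ‖p a‖ ^ 2 ∂ν :=
    integral_mono (int_loc (mul_loc (gL_mem_loc hz wd c) (nsq_loc hp))) (int_loc (nsq_loc hp))
      fun a => mul_le_of_le_one_left (sq_nonneg _) (gL_unit_loc z wd c a).2
  have e : 0 ≤ ∫ a, ‖p a‖ ^ 2 ∂ν := integral_nonneg fun a => sq_nonneg _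
  unfold PLoc
  generalize ∫ a, gLoc z wd c a ∂ν = m at a hm
  have hm0 : 0 < m := by linarith
  rw [norm_smul, norm_inv, Real.norm_of_nonneg hm0.le, mul_pow, inv_pow,
    inv_mul_le_iff₀ (by positivity)]
  refine a.trans ((mul_le_mul_of_nonneg_left b hm0.le).trans ?_)
  have := mul_le_mul_of_nonneg_right hm (mul_nonneg hm0.le e)
  nlinarith

theorem V_le_loc (hz : Measurable z) (hp : MemLp p ∞ ν) (hwd : 0 < wd) (hΔ : 2 * wd ≤ Δ)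
    (hcov : ∀ᵐ a ∂ν, ∃ c ∈ Cs, |z a - c| ≤ wd)
    (hgap : ∀ c ∈ Cs, ∀ c' ∈ Cs, c ≠ c' → 2 * wd < |c - c'|)
    (hm : ∀ c ∈ Cs, 1 / 2 ≤ ∫ a, gLoc z wd c a ∂ν) : ∫ a, ‖rLoc ν z wd p Cs a‖ ^ 2 ∂ν ≤
      4 * ∫ a, ∫ a', wLoc z Δ a a' * ‖p a - p a'‖ ^ 2 ∂ν ∂ν := by
  rw [← integral_const_mul]
  refine integral_mono_ae (int_loc (nsq_loc (rL_mem_loc hz hp)))
    ((int0_loc hz hp).integral_prod_left.const_mul _) ?_
  filter_upwards [hcov] with a ⟨c, hc, hac⟩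
  have hq : MemLp (fun a' => p a - p a') ∞ ν := (memLp_top_const _).sub hp
  have b := low_loc hz hwd hΔ hac (nsq_loc hq) fun _ => sq_nonneg _
  have s := cs_loc (gL_mem_loc hz wd c) hq fun a => (gL_unit_loc z wd c a).1
  have hm' := hm c hc
  have hm0 : 0 < ∫ a, gLoc z wd c a ∂ν := by linarith
  have e : ∫ a', gLoc z wd c a' • (p a - p a') ∂ν = (∫ a, gLoc z wd c a ∂ν) • rLoc ν z wd p Cs a := by
    unfold rLoc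
    rw [single_loc hgap hc hac, smul_sub, PLoc, smul_inv_smul₀ hm0.ne', ← integral_smul_const,
      ← integral_sub (int_loc (smul_loc (gL_mem_loc hz wd c) (memLp_top_const _)))
        (int_loc (smul_loc (gL_mem_loc hz wd c) hp))]
    simp only [smul_sub]
  rw [e, norm_smul, Real.norm_of_nonneg hm0.le, mul_pow, pow_two (∫ a, gLoc z wd c a ∂ν),
    mul_assoc] at s
  have s' := le_of_mul_le_mul_left s hm0
  have := mul_le_mul_of_nonneg_right hm' (sq_nonneg ‖rLoc ν z wd p Cs a‖)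
  linarith

theorem A_eq_loc (hz : Measurable z) (hp : MemLp p ∞ ν) {φ : α → ℝ} (hφ : MemLp φ ∞ ν) :
    ∫ a, φ a • p a ∂ν = ∑ c ∈ Cs, (∫ a, gLoc z wd c a * φ a ∂ν) • PLoc ν z wd p c +
      ∫ a, φ a • rLoc ν z wd p Cs a ∂ν := by
  have i : ∀ c ∈ Cs, Integrable (fun a => (gLoc z wd c a * φ a) • PLoc ν z wd p c) ν :=
    fun c _ => int_loc (smul_loc (mul_loc (gL_mem_loc hz wd c) hφ) (memLp_top_const _))
  simp only [← integral_smul_const]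
  rw [← integral_finsetSum _ i, ← integral_add (integrable_finsetSum _ i)
    (int_loc (smul_loc hφ (rL_mem_loc hz hp)))]
  congr 1
  ext a
  simp only [rLoc, smul_sub, Finset.smul_sum, smul_smul, mul_comm (φ a)]
  ring

theorem T_le_loc (hz : Measurable z) (hp : MemLp p ∞ ν) (hcov : ∀ᵐ a ∂ν, ∃ c ∈ Cs, |z a - c| ≤ wd)
    (hgap : ∀ c ∈ Cs, ∀ c' ∈ Cs, c ≠ c' → 2 * wd < |c - c'|) {ϖ : ℝ} (h0 : 0 < ϖ) (h1 : ϖ ≤ 1) :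
    ‖∑ c ∈ Cs, (∫ a, gLoc z wd c a ∂ν) • PLoc ν z wd p c ^ 2 - ∫ a, p a ^ 2 ∂ν‖ ≤
      ϖ * ∫ a, ‖p a‖ ^ 2 ∂ν + 2 / ϖ * ∫ a, ‖rLoc ν z wd p Cs a‖ ^ 2 ∂ν := by
  have i : ∀ c ∈ Cs, Integrable (fun a => gLoc z wd c a • PLoc ν z wd p c ^ 2) ν :=
    fun c _ => int_loc (smul_loc (gL_mem_loc hz wd c) (memLp_top_const _))
  have i1 := (int_loc (nsq_loc hp)).const_mul ϖ
  have i2 := (int_loc (nsq_loc (rL_mem_loc (wd := wd) (Cs := Cs) hz hp))).const_mul (2 / ϖ)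
  simp only [← integral_smul_const]
  rw [← integral_finsetSum _ i, ← integral_sub (integrable_finsetSum _ i) (int_loc (csq_loc hp)),
    ← integral_const_mul, ← integral_const_mul, ← integral_add i1 i2]
  refine norm_integral_le_of_norm_le (i1.add i2) ?_
  filter_upwards [hcov] with a ⟨c, hc, hac⟩
  have := sq2_loc (p a) (-rLoc ν z wd p Cs a) h0 h1
  rw [norm_neg] at this
  refine le_of_eq_of_le ?_ this
  rw [rLoc, single_loc hgap hc hac, single_loc hgap hc hac]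
  congr 1
  ring

theorem mu_loc {η ε : ℝ} {Qc : ℝ → ℕ} {f : ℝ → ℝ} {l : ℝ} {j : ℕ} (hz : Measurable z)
    (hη : 0 < η) (hε : 0 ≤ ε) (hcov : ∀ᵐ a ∂ν, ∃ c ∈ Cs, |z a - c| ≤ wd)
    (hgap : ∀ c ∈ Cs, ∀ c' ∈ Cs, c ≠ c' → 2 * wd + 4 * η ≤ |c - c'|)
    (hm : ∀ c ∈ Cs, |(∫ a, gLoc z wd c a ∂ν) - Qc c| ≤ ε) (hf : Continuous f)
    (f01 : ∀ r, 0 ≤ f r ∧ f r ≤ 1) (f0 : ∀ r, r ≤ -η → f r = 0) (f1 : ∀ r, η ≤ r → f r = 1)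
    (hj : |(∫ a, f (z a - l) ∂ν) - j| ≤ ε) (hc : c ∈ Cs) :
    |(∫ a, gLoc z wd c a * f (z a - l) ∂ν) - FLoc Cs Qc j c| ≤ 2 * ((Cs.card + 1) * ε) := by
  have hφ : MemLp (fun a => f (z a - l)) ∞ ν := unit_loc (by fun_prop) fun a => f01 _
  have i : ∀ c ∈ Cs, Integrable (fun a => gLoc z wd c a * f (z a - l)) ν :=
    fun c _ => int_loc (mul_loc (gL_mem_loc hz wd c) hφ)
  refine stair2_loc (x := fun c => ∫ a, gLoc z wd c a * f (z a - l) ∂ν) hε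
    (fun c _ => integral_nonneg fun a => mul_nonneg (gL_unit_loc z wd c a).1 (f01 _).1)
    (fun c hc => ?_) (fun c₁ hc₁ => ?_) ?_ hc
  · have : ∫ a, gLoc z wd c a * f (z a - l) ∂ν ≤ ∫ a, gLoc z wd c a ∂ν :=
      integral_mono (i c hc) (int_loc (gL_mem_loc hz wd c))
        fun a => mul_le_of_le_one_right (gL_unit_loc z wd c a).1 (f01 _).2
    linarith [(abs_le.1 (hm c hc)).2]
  · rcases le_or_gt (l + η) (c₁ - wd) with h | h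
    · left
      have : ∫ a, gLoc z wd c₁ a * f (z a - l) ∂ν = ∫ a, gLoc z wd c₁ a ∂ν := by
        congr 1
        ext a
        unfold gLoc
        split_ifs with h'
        · rw [f1 _ (by linarith [(abs_le.1 h').1]), mul_one]
        · rw [zero_mul]
      linarith [(abs_le.1 (hm c₁ hc₁)).1]
    · right
      intro c hc hlt
      have g := hgap c hc c₁ hc₁ hlt.ne
      rw [abs_sub_comm, abs_of_pos (by linarith)] at g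
      refine integral_eq_zero_of_ae (.of_forall fun a => ?_)
      simp only [gLoc, Pi.zero_apply]
      split_ifs with h'
      · rw [f0 _ (by linarith [(abs_le.1 h').2]), mul_zero]
      · rw [zero_mul]
  · rw [← integral_finsetSum _ i]
    refine le_of_eq_of_le ?_ hj
    congr 2
    refine integral_congr_ae ?_
    filter_upwards [hcov] with a ⟨c, hc, hac⟩
    exact single_loc (fun c hc c' hc' h => by linarith [hgap c hc c' hc' h]) hc hac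
      fun _ => f (z a - l)

omit [MeasurableSpace α] [IsFiniteMeasure ν] in
theorem sum_le_loc {x : ℝ → ℝ} {P : ℝ → ℂ} {K N q : ℝ} (hK : 0 ≤ K) (hN : 0 ≤ N)
    (hx : ∀ c ∈ Cs, |x c| ≤ K) (hP : ∀ c ∈ Cs, ‖P c‖ ≤ N) (hq : (Cs.card : ℝ) ≤ q) :
    ‖∑ c ∈ Cs, x c • P c‖ ≤ q * (K * N) := by
  refine (norm_sum_le _ _).trans ((Finset.sum_le_card_nsmul _ _ (K * N) fun c hc => ?_).trans ?_)
  · rw [norm_smul]
    exact mul_le_mul (hx c hc) (hP c hc) (norm_nonneg _) hK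
  · rw [nsmul_eq_mul]
    gcongr

omit [MeasurableSpace α] [IsFiniteMeasure ν] in
theorem step_loc {X e r r' : ℂ} {q N ε ϖ V : ℝ} (hq : 0 ≤ q) (hN : 0 ≤ N) (hε : 0 ≤ ε)
    (hε1 : ε ≤ 1 / 2) (h0 : 0 < ϖ) (h1 : ϖ ≤ 1) (hX : ‖X‖ ≤ q * (1 * N))
    (he : ‖e‖ ≤ q * (4 * ((q + 1) * ε) * N)) (hr : ‖r‖ ^ 2 ≤ V) (hr' : ‖r'‖ ^ 2 ≤ V) :
    ‖(X + e + (r - r')) ^ 2 - X ^ 2‖ ≤
      2 * (4 * q * (q + 2)) ^ 2 * (ϖ + ε) * N ^ 2 + 8 / ϖ * V := by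
  have a := sq1_loc X e
  have b := sq2_loc (X + e) (r - r') h0 h1
  have hqN : 0 ≤ q * N := by positivity
  have hqqN : 0 ≤ q * q * N := by positivity
  set L := 4 * q * (q + 2) with hL
  have hL0 : 0 ≤ L := by positivity
  have e1 : ‖e‖ ≤ ε * (L * N) := he.trans (by
    have := mul_nonneg hε hqN
    rw [hL]
    nlinarith)
  have e2 : 2 * ‖X‖ + ‖e‖ ≤ L * N := by
    have : q * (4 * ((q + 1) * ε) * N) ≤ q * (4 * ((q + 1) * (1 / 2)) * N) := by gcongr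
    rw [hL]
    nlinarith
  have e3 : ‖X + e‖ ≤ L * N := (norm_add_le _ _).trans (by linarith [norm_nonneg X])
  have e4 : ‖r - r'‖ ^ 2 ≤ 4 * V := by
    have := pow_le_pow_left₀ (norm_nonneg _) (norm_sub_le r r') 2
    nlinarith [sq_nonneg (‖r‖ - ‖r'‖)]
  have a' : ‖e‖ * (2 * ‖X‖ + ‖e‖) ≤ ε * (L * N) * (L * N) := by gcongr
  have b' : ϖ * ‖X + e‖ ^ 2 + 2 / ϖ * ‖r - r'‖ ^ 2 ≤ ϖ * (L * N) ^ 2 + 2 / ϖ * (4 * V) := by gcongr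
  have t := norm_add_le ((X + e + (r - r')) ^ 2 - (X + e) ^ 2) ((X + e) ^ 2 - X ^ 2)
  rw [sub_add_sub_cancel] at t
  have p1 : 0 ≤ ϖ * (L * N) ^ 2 := by positivity
  have p2 : 0 ≤ ε * (L * N) ^ 2 := by positivity
  have p3 : 2 / ϖ * (4 * V) = 8 / ϖ * V := by ring
  nlinarith

theorem core_loc {η ε ϖ : ℝ} {Qc : ℝ → ℕ} {f : ℝ → ℝ} {lv : ℕ → ℝ} {Q : ℕ} (hz : Measurable z)
    (hp : MemLp p ∞ ν) (hη : 0 < η) (hε : 0 ≤ ε) (hε1 : ε ≤ 1 / 2) (h0 : 0 < ϖ) (h1 : ϖ ≤ 1)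
    (hcov : ∀ᵐ a ∂ν, ∃ c ∈ Cs, |z a - c| ≤ wd)
    (hgap : ∀ c ∈ Cs, ∀ c' ∈ Cs, c ≠ c' → 2 * wd + 4 * η ≤ |c - c'|) (hQ : ∀ c ∈ Cs, 1 ≤ Qc c)
    (hs : ∑ c ∈ Cs, Qc c = Q) (hm : ∀ c ∈ Cs, |(∫ a, gLoc z wd c a ∂ν) - Qc c| ≤ ε)
    (hf : Continuous f) (f01 : ∀ r, 0 ≤ f r ∧ f r ≤ 1) (f0 : ∀ r, r ≤ -η → f r = 0)
    (f1 : ∀ r, η ≤ r → f r = 1) (hj : ∀ j ≤ Q, |(∫ a, f (z a - lv j) ∂ν) - j| ≤ ε) :
    ‖∑ j ∈ Finset.range Q, ((∫ a, f (z a - lv (j + 1)) • p a ∂ν) -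
        ∫ a, f (z a - lv j) • p a ∂ν) ^ 2 - ∫ a, p a ^ 2 ∂ν‖ ≤
      (4 * Q * (4 * Q * (Q + 2)) ^ 2 + 2 * Q + 1) * ((ϖ + ε) * ∫ a, ‖p a‖ ^ 2 ∂ν) +
        (8 * Q * (Q + 1) + 2) * ((∫ a, ‖rLoc ν z wd p Cs a‖ ^ 2 ∂ν) / ϖ) := by
  have hgap' : ∀ c ∈ Cs, ∀ c' ∈ Cs, c ≠ c' → 2 * wd < |c - c'| :=
    fun c hc c' hc' h => by linarith [hgap c hc c' hc' h]
  have hm' : ∀ c ∈ Cs, 1 / 2 ≤ ∫ a, gLoc z wd c a ∂ν := fun c hc => by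
    have : (1 : ℝ) ≤ Qc c := by exact_mod_cast hQ c hc
    linarith [(abs_le.1 (hm c hc)).1]
  have hcard : (Cs.card : ℝ) ≤ Q := by
    have := Finset.card_nsmul_le_sum Cs Qc 1 hQ
    rw [hs, smul_eq_mul, mul_one] at this
    exact_mod_cast this
  have hT := T_le_loc hz hp hcov hgap' h0 h1
  have hE : 0 ≤ ∫ a, ‖p a‖ ^ 2 ∂ν := integral_nonneg fun a => sq_nonneg _
  have hV : 0 ≤ ∫ a, ‖rLoc ν z wd p Cs a‖ ^ 2 ∂ν := integral_nonneg fun a => sq_nonneg _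
  have hP : ∀ c ∈ Cs, ‖PLoc ν z wd p c‖ ^ 2 ≤ 2 * ∫ a, ‖p a‖ ^ 2 ∂ν :=
    fun c hc => PL_le_loc hz hp (hm' c hc)
  have hφ : ∀ j, MemLp (fun a => f (z a - lv j)) ∞ ν :=
    fun j => unit_loc (by fun_prop) fun a => f01 _
  have hρ : ∀ j ≤ Q, ‖∫ a, f (z a - lv j) • rLoc ν z wd p Cs a ∂ν‖ ^ 2 ≤
      (Q + 1) * ∫ a, ‖rLoc ν z wd p Cs a‖ ^ 2 ∂ν := by
    intro j hjQ
    refine (cs_loc (hφ j) (rL_mem_loc hz hp) fun a => (f01 _).1).trans (mul_le_mul ?_ ?_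
      (integral_nonneg fun a => mul_nonneg (f01 _).1 (sq_nonneg _)) (by positivity))
    · have : (j : ℝ) ≤ Q := by exact_mod_cast hjQ
      linarith [(abs_le.1 (hj j hjQ)).2]
    · exact integral_mono (int_loc (mul_loc (hφ j) (nsq_loc (rL_mem_loc hz hp))))
        (int_loc (nsq_loc (rL_mem_loc hz hp))) fun a => mul_le_of_le_one_left (sq_nonneg _) (f01 _).2
  have hμ : ∀ j ≤ Q, ∀ c ∈ Cs, |(∫ a, gLoc z wd c a * f (z a - lv j) ∂ν) - FLoc Cs Qc j c| ≤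
      2 * ((Q + 1) * ε) := fun j hjQ c hc =>
    (mu_loc hz hη hε hcov hgap hm hf f01 f0 f1 (hj j hjQ) hc).trans (by gcongr)
  have hB : ‖∑ c ∈ Cs, ((Qc c : ℝ) - ∫ a, gLoc z wd c a ∂ν) • PLoc ν z wd p c ^ 2‖ ≤
      Q * (ε * (2 * ∫ a, ‖p a‖ ^ 2 ∂ν)) :=
    sum_le_loc hε (by positivity) (fun c hc => by rw [abs_sub_comm]; exact hm c hc)
      (fun c hc => by rw [norm_pow]; exact hP c hc) hcard
  have hA : ∀ j ∈ Finset.range Q, ‖((∫ a, f (z a - lv (j + 1)) • p a ∂ν) -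
      ∫ a, f (z a - lv j) • p a ∂ν) ^ 2 -
      (∑ c ∈ Cs, (FLoc Cs Qc (j + 1) c - FLoc Cs Qc j c) • PLoc ν z wd p c) ^ 2‖ ≤
      2 * (4 * Q * (Q + 2)) ^ 2 * (ϖ + ε) * √(2 * ∫ a, ‖p a‖ ^ 2 ∂ν) ^ 2 +
        8 / ϖ * ((Q + 1) * ∫ a, ‖rLoc ν z wd p Cs a‖ ^ 2 ∂ν) := by
    intro j hjQ
    rw [Finset.mem_range] at hjQ
    have hN : ∀ c ∈ Cs, ‖PLoc ν z wd p c‖ ≤ √(2 * ∫ a, ‖p a‖ ^ 2 ∂ν) :=
      fun c hc => Real.le_sqrt_of_sq_le (hP c hc)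
    refine le_of_eq_of_le ?_ (step_loc (e := ∑ c ∈ Cs,
      (((∫ a, gLoc z wd c a * f (z a - lv (j + 1)) ∂ν) - FLoc Cs Qc (j + 1) c) -
        ((∫ a, gLoc z wd c a * f (z a - lv j) ∂ν) - FLoc Cs Qc j c)) • PLoc ν z wd p c)
      (Nat.cast_nonneg Q) (Real.sqrt_nonneg _) hε hε1 h0 h1
      (sum_le_loc zero_le_one (Real.sqrt_nonneg _) (x := fun c => FLoc Cs Qc (j + 1) c - FLoc Cs Qc j c)
        (fun c _ => ?_) hN hcard)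
      (sum_le_loc (by positivity) (Real.sqrt_nonneg _) (fun c hc => ?_) hN hcard)
      (hρ (j + 1) hjQ) (hρ j hjQ.le))
    · rw [A_eq_loc (wd := wd) (Cs := Cs) hz hp (hφ (j + 1)), A_eq_loc (wd := wd) (Cs := Cs) hz hp (hφ j)]
      simp only [sub_smul, Finset.sum_sub_distrib]
      congr 3
      ring
    · rw [FL_succ_loc]
      split_ifs <;> norm_num
    · exact (abs_sub _ _).trans (by linarith [hμ (j + 1) hjQ c hc, hμ j hjQ.le c hc])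
  have hS := (norm_sum_le _ _).trans (Finset.sum_le_card_nsmul _ _ _ hA)
  rw [Finset.sum_sub_distrib, Finset.card_range, nsmul_eq_mul, Real.sq_sqrt (by positivity)] at hS
  have tl := tile_loc Cs Qc (PLoc ν z wd p)
  rw [hs] at tl
  rw [tl] at hS
  simp only [sub_smul, Finset.sum_sub_distrib] at hB
  have t := (norm_add₃_le (E := ℂ)).trans (add_le_add (add_le_add hS hB) hT)
  rw [sub_add_sub_cancel, sub_add_sub_cancel] at t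
  refine t.trans ?_
  have q1 : 0 ≤ Q * (ϖ * ∫ a, ‖p a‖ ^ 2 ∂ν) := by positivity
  have q2 : 0 ≤ ε * ∫ a, ‖p a‖ ^ 2 ∂ν := by positivity
  refine le_of_sub_nonneg (le_of_le_of_eq (add_nonneg (add_nonneg q1 q1) q2) ?_)
  ring

end core

theorem mem_loc {m ν : Measure α} {k d : α → ℝ} {p : α → ℂ} {B : ℝ} (hd : Measurable d)
    (hp : Measurable p) (hB : ∀ᵐ a ∂m, 0 ≤ k a ∧ k a ≤ B ∧ ‖p a‖ ≤ B ∧ 0 ≤ d a ∧ d a ≤ B)
    (hq : ∀ q : α → Prop, (∀ᵐ a ∂m, k a ≠ 0 → q a) → ∀ᵐ a ∂ν, q a) :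
    MemLp p ∞ ν ∧ MemLp d ∞ ν ∧ ∀ᵐ a ∂ν, 0 ≤ d a :=
  ⟨memLp_top_of_bound hp.aestronglyMeasurable B (hq _ (hB.mono fun _ h _ => h.2.2.1)),
    memLp_top_of_bound hd.aestronglyMeasurable B (hq _ (hB.mono fun _ h _ => by
      rw [Real.norm_of_nonneg h.2.2.2.1]
      exact h.2.2.2.2)), hq _ (hB.mono fun _ h _ => h.2.2.2.1)⟩

theorem loc_dd {m : Measure α} [IsFiniteMeasure m] {k z d : α → ℝ} {p : α → ℂ} {B wd Δ : ℝ}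
    (hk : Measurable k) (hz : Measurable z) (hd : Measurable d) (hp : Measurable p)
    (hB : ∀ᵐ a ∂m, 0 ≤ k a ∧ k a ≤ B ∧ ‖p a‖ ≤ B ∧ 0 ≤ d a ∧ d a ≤ B) (hwd : 0 < wd)
    (hΔ : 2 * wd ≤ Δ) {Cs : Finset ℝ} (hcov : ∀ᵐ a ∂m, k a ≠ 0 → ∃ c ∈ Cs, |z a - c| ≤ wd)
    (hgap : ∀ c ∈ Cs, ∀ c' ∈ Cs, c ≠ c' → 2 * wd < |c - c'|)
    (hm : ∀ c ∈ Cs, 1 / 2 ≤ ∫ a, k a • (if |z a - c| ≤ wd then (1 : ℝ) else 0) ∂m) :
    ∫ a, k a • d a ∂m ≤ 2 * ∫ a, ∫ a', k a * k a' * (1 + ((z a - z a') / Δ) ^ 2)⁻¹ *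
      (‖p a - p a'‖ ^ 2 + d a + d a') ∂m ∂m := by
  obtain ⟨ν, _, e1, -, e3, hq⟩ := exists_nu_loc hk (hB.mono fun _ h => ⟨h.1, h.2.1⟩)
  obtain ⟨a1, a2, a3⟩ := mem_loc hd hp hB hq
  simp only [e1] at hm
  rw [e1, e3]
  exact dd_loc hz a1 a2 a3 hwd hΔ (hq _ hcov) hm

theorem loc (Q : ℕ) : ∃ C : ℝ, 0 < C ∧ ∀ (m : Measure α) [IsFiniteMeasure m] (k z d : α → ℝ)
    (p : α → ℂ) (B η wd Δ ε ϖ : ℝ) (Cs : Finset ℝ) (Qc : ℝ → ℕ) (f : ℝ → ℝ) (lv : ℕ → ℝ),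
    Measurable k → Measurable z → Measurable d → Measurable p →
    (∀ᵐ a ∂m, 0 ≤ k a ∧ k a ≤ B ∧ ‖p a‖ ≤ B ∧ 0 ≤ d a ∧ d a ≤ B) → 0 < η → 0 < wd →
    2 * wd ≤ Δ → 0 ≤ ε → ε ≤ 1 / 2 → 0 < ϖ → ϖ ≤ 1 →
    (∀ᵐ a ∂m, k a ≠ 0 → ∃ c ∈ Cs, |z a - c| ≤ wd) →
    (∀ c ∈ Cs, ∀ c' ∈ Cs, c ≠ c' → 2 * wd + 4 * η ≤ |c - c'|) → (∀ c ∈ Cs, 1 ≤ Qc c) →
    ∑ c ∈ Cs, Qc c = Q →
    (∀ c ∈ Cs, |(∫ a, k a • (if |z a - c| ≤ wd then (1 : ℝ) else 0) ∂m) - Qc c| ≤ ε) →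
    Continuous f → (∀ r, 0 ≤ f r ∧ f r ≤ 1) → (∀ r, r ≤ -η → f r = 0) → (∀ r, η ≤ r → f r = 1) →
    (∀ j ≤ Q, |(∫ a, k a • f (z a - lv j) ∂m) - j| ≤ ε) →
    ‖∑ j ∈ Finset.range Q, ((∫ a, k a • f (z a - lv (j + 1)) • p a ∂m) -
        ∫ a, k a • f (z a - lv j) • p a ∂m) ^ 2 - ∫ a, k a • p a ^ 2 ∂m‖ ≤
      C * ((ϖ + ε) * (∫ a, k a • ‖p a‖ ^ 2 ∂m) +
        (∫ a, ∫ a', k a * k a' * (1 + ((z a - z a') / Δ) ^ 2)⁻¹ *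
          (‖p a - p a'‖ ^ 2 + d a + d a') ∂m ∂m) / ϖ) := by
  refine ⟨(4 * Q * (4 * Q * (Q + 2)) ^ 2 + 2 * Q + 1) + 4 * (8 * Q * (Q + 1) + 2), by positivity,
    fun m _ k z d p B η wd Δ ε ϖ Cs Qc f lv hk hz hd hp hB hη hwd hΔ hε hε1 h0 h1 hcov hgap hQ hs
      hm hf f01 f0 f1 hj => ?_⟩
  obtain ⟨ν, _, e1, e2, e3, hq⟩ := exists_nu_loc hk (hB.mono fun _ h => ⟨h.1, h.2.1⟩)
  obtain ⟨a1, a2, a3⟩ := mem_loc hd hp hB hq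
  simp only [e1] at hm hj
  simp only [e2]
  rw [e1, e3]
  refine (core_loc hz a1 hη hε hε1 h0 h1 (hq _ hcov) hgap hQ hs hm hf f01 f0 f1 hj).trans ?_
  have hV := V_le_loc (Δ := Δ) hz a1 hwd hΔ (hq _ hcov)
    (fun c hc c' hc' h => by linarith [hgap c hc c' hc' h]) fun c hc => by
      have : (1 : ℝ) ≤ Qc c := by exact_mod_cast hQ c hc
      have h : -ε ≤ (∫ a, gLoc z wd c a ∂ν) - Qc c := (abs_le.1 (hm c hc)).1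
      linarith
  have hI : 0 ≤ ∫ a, ∫ a', wLoc z Δ a a' * d a ∂ν ∂ν := integral_nonneg_of_ae
    (a3.mono fun a ha => integral_nonneg fun a' => mul_nonneg (wL_unit_loc z Δ a a').1 ha)
  have hs := split_loc (Δ := Δ) hz a1 a2
  have hE : 0 ≤ (ϖ + ε) * ∫ a, ‖p a‖ ^ 2 ∂ν :=
    mul_nonneg (by positivity) (integral_nonneg fun a => sq_nonneg _)
  have hV0 : 0 ≤ ∫ a, ‖rLoc ν z wd p Cs a‖ ^ 2 ∂ν := integral_nonneg fun a => sq_nonneg _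
  change _ ≤ _ * (_ + (∫ a, ∫ a', wLoc z Δ a a' * (‖p a - p a'‖ ^ 2 + d a + d a') ∂ν ∂ν) / ϖ)
  generalize ∫ a, ∫ a', wLoc z Δ a a' * (‖p a - p a'‖ ^ 2 + d a + d a') ∂ν ∂ν = D at hs
  have hD : (∫ a, ‖rLoc ν z wd p Cs a‖ ^ 2 ∂ν) / ϖ ≤ 4 * (D / ϖ) := by
    rw [← mul_div_assoc]
    gcongr
    linarith
  have hD0 : 0 ≤ D / ϖ := div_nonneg (by linarith) h0.le
  generalize (ϖ + ε) * ∫ a, ‖p a‖ ^ 2 ∂ν = X at hE
  have c1 : (0 : ℝ) ≤ 4 * Q * (4 * Q * (Q + 2)) ^ 2 + 2 * Q + 1 := by positivity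
  have c2 : (0 : ℝ) ≤ 8 * Q * (Q + 1) + 2 := by positivity
  have := mul_le_mul_of_nonneg_left hD c2
  have := mul_nonneg c1 hD0
  have := mul_nonneg c2 hE
  linarith

end Pool.Agent.Lib.MP_8daebb_an.SV
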