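import Pool.Agent.Lib.MP_8daebb_an.SV.Df2

/-! Clustering and covering. -/

open MeasureTheory Metric Filter Topology Set
open scoped RealInnerProductSpace ENNReal ContDiff

namespace Pool.Agent.Lib.MP_8daebb_an.SV

variable {α : Type*} [MeasurableSpace α] {H : Type*} [NormedAddCommGroup H]
  [InnerProductSpace ℝ H] [FiniteDimensional ℝ H] [MeasurableSpace H] [BorelSpace H]

theorem exists_stp {η : ℝ} (hη : 0 < η) : ∃ Ψ : ℝ → ℝ, Stp Ψ η := by
  obtain ⟨g, hg⟩ : ∃ g : ℝ → ℝ, g = fun t => max (η - |t|) 0 / η ^ 2 := ⟨_, rfl⟩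
  have gc : Continuous g := by rw [hg]; fun_prop
  have g0 : ∀ t, 0 ≤ g t := fun t => by rw [hg]; positivity
  have g1 : ∀ t, g t ≤ 1 / η := fun t => by
    have h : max (η - |t|) 0 ≤ η := max_le (by linarith [abs_nonneg t]) hη.le
    rw [hg, div_le_div_iff₀ (by positivity) hη]
    nlinarith
  have gz : ∀ t, η ≤ |t| → g t = 0 := fun t ht => by
    simp [hg, max_eq_right (sub_nonpos.2 ht)]
  obtain ⟨f, hf⟩ : ∃ f : ℝ → ℝ, f = fun r => ∫ t in (-η)..r, g t := ⟨_, rfl⟩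
  have fd : ∀ r, HasDerivAt f (g r) r := fun r => by
    rw [hf]; exact (gc.integral_hasStrictDerivAt _ r).hasDerivAt
  have fD : deriv f = g := funext fun r => (fd r).deriv
  have fc : Continuous f := continuous_iff_continuousAt.2 fun r => (fd r).continuousAt
  have fm : Monotone f :=
    monotone_of_deriv_nonneg (fun r => (fd r).differentiableAt) fun r => by rw [fD]; exact g0 r
  have f0 : ∀ r, r ≤ -η → f r = 0 := fun r hr => by
    rw [hf]
    refine (intervalIntegral.integral_congr (g := fun _ => 0) fun t ht => gz t ?_).trans (by simp)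
    rw [uIcc_of_ge hr] at ht
    exact le_abs.2 (Or.inr (by linarith [ht.2]))
  have i1 : ∫ t in (-η)..0, g t = 1 / 2 := by
    rw [intervalIntegral.integral_congr (g := fun t => (η + t) / η ^ 2) fun t ht => ?_]
    · rw [intervalIntegral.integral_div, intervalIntegral.integral_add (by simp) (by simp)]
      simp
      field_simp
      ring
    · rw [uIcc_of_le (by linarith)] at ht
      simp only [hg]
      rw [abs_of_nonpos ht.2, max_eq_left (by linarith [ht.1]), sub_neg_eq_add]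
  have i2 : ∫ t in (0 : ℝ)..η, g t = 1 / 2 := by
    rw [intervalIntegral.integral_congr (g := fun t => (η - t) / η ^ 2) fun t ht => ?_]
    · rw [intervalIntegral.integral_div, intervalIntegral.integral_sub (by simp) (by simp)]
      simp
      field_simp
      ring
    · rw [uIcc_of_le hη.le] at ht
      simp only [hg]
      rw [abs_of_nonneg ht.1, max_eq_left (by linarith [ht.2])]
  have f1 : ∀ r, η ≤ r → f r = 1 := fun r hr => by
    have i3 : ∫ t in η..r, g t = 0 := by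
      refine (intervalIntegral.integral_congr (g := fun _ => 0) fun t ht => gz t ?_).trans (by simp)
      rw [uIcc_of_le hr] at ht
      exact le_abs.2 (Or.inl ht.1)
    simp only [hf]
    rw [← intervalIntegral.integral_add_adjacent_intervals (b := η) (gc.intervalIntegrable _ _)
      (gc.intervalIntegrable _ _), ← intervalIntegral.integral_add_adjacent_intervals (b := 0)
      (gc.intervalIntegrable _ _) (gc.intervalIntegrable _ _), i1, i2, i3]
    norm_num
  have fb : ∀ r, 0 ≤ f r ∧ f r ≤ 1 := fun r =>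
    ⟨(f0 _ (min_le_right r _)).ge.trans (fm (min_le_left _ _)),
      (fm (le_max_left r η)).trans (f1 _ (le_max_right _ _)).le⟩
  have pd : ∀ r, HasDerivAt (fun r => ∫ t in (0 : ℝ)..r, f t) (f r) r := fun r =>
    (fc.integral_hasStrictDerivAt _ r).hasDerivAt
  have pD : deriv (fun r => ∫ t in (0 : ℝ)..r, f t) = f := funext fun r => (pd r).deriv
  refine ⟨fun r => ∫ t in (0 : ℝ)..r, f t, ?_, ?_, ?_, ?_, ?_, fun r => ?_⟩
  · rw [show (2 : WithTop ℕ∞) = 1 + 1 from rfl, contDiff_succ_iff_deriv, pD,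
      contDiff_one_iff_deriv, fD]
    exact ⟨fun r => (pd r).differentiableAt, by simp, fun r => (fd r).differentiableAt, gc⟩
  · rw [pD]; exact fb
  · rw [pD, fD]; exact fun r => ⟨g0 r, g1 r⟩
  · rw [pD]; exact f0
  · rw [pD]; exact f1
  · have h := intervalIntegral.norm_integral_le_of_norm_le_const (a := 0) (b := r) (C := 1) (f := f)
      fun t _ => by rw [Real.norm_of_nonneg (fb t).1]; exact (fb t).2
    rw [Real.norm_eq_abs, one_mul, sub_zero] at h
    linarith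

theorem cluster_clus (K : ℕ) : ∃ Λ : ℝ, 1 ≤ Λ ∧ ∀ (S : Finset ℝ) (η w : ℝ), 0 < η → 2 * η ≤ w →
    S.card ≤ K → ∃ (Cs : Finset ℝ) (wd : ℝ), Cs.card ≤ K ∧ w ≤ wd ∧ wd ≤ Λ * w ∧
      (∀ s ∈ S, ∃ c ∈ Cs, |s - c| + w ≤ wd) ∧
      ∀ c ∈ Cs, ∀ c' ∈ Cs, c ≠ c' → 2 * wd + 4 * η ≤ |c - c'| := by
  induction K with
  | zero =>
    refine ⟨1, le_rfl, fun S η w _ _ hS => ⟨∅, w, le_rfl, le_rfl, by rw [one_mul], ?_, by simp⟩⟩
    rw [Nat.le_zero, Finset.card_eq_zero] at hS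
    simp [hS]
  | succ K ih =>
    obtain ⟨Λ, h1, h⟩ := ih
    refine ⟨5 * Λ, by linarith, fun S η w hη hw hS => ?_⟩
    by_cases hs : ∀ c ∈ S, ∀ c' ∈ S, c ≠ c' → 2 * w + 4 * η ≤ |c - c'|
    · exact ⟨S, w, hS, le_rfl, by nlinarith, fun s hs => ⟨s, hs, by simp⟩, hs⟩
    push Not at hs
    obtain ⟨a, ha, b, hb, hab, hlt⟩ := hs
    obtain ⟨Cs, wd, c1, c2, c3, c4, c5⟩ := h (S.erase a) η (5 * w) hη (by linarith)
      (by rw [Finset.card_erase_of_mem ha]; omega)
    refine ⟨Cs, wd, c1.trans K.le_succ, by linarith, by linarith, fun s hs => ?_, c5⟩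
    by_cases hsa : s = a
    · obtain ⟨c, hc, hc'⟩ := c4 b (Finset.mem_erase.2 ⟨hab.symm, hb⟩)
      refine ⟨c, hc, ?_⟩
      have := abs_sub_le a b c
      rw [hsa]
      linarith
    · obtain ⟨c, hc, hc'⟩ := c4 s (Finset.mem_erase.2 ⟨hsa, hs⟩)
      exact ⟨c, hc, by linarith⟩

theorem cluster (K : ℕ) : ∃ Λ : ℝ, 1 ≤ Λ ∧ ∀ (S : Finset ℝ) (η : ℝ), 0 < η → S.card ≤ K →
    ∃ (Cs : Finset ℝ) (wd : ℝ), Cs.card ≤ K ∧ 2 * η ≤ wd ∧ wd ≤ Λ * η ∧
      (∀ s ∈ S, ∃ c ∈ Cs, |s - c| + 2 * η ≤ wd) ∧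
      ∀ c ∈ Cs, ∀ c' ∈ Cs, c ≠ c' → 2 * wd + 4 * η ≤ |c - c'| := by
  obtain ⟨Λ, h1, h⟩ := cluster_clus K
  refine ⟨2 * Λ, by linarith, fun S η hη hS => ?_⟩
  obtain ⟨Cs, wd, a, b, c, d, e⟩ := h S η (2 * η) hη le_rfl hS
  exact ⟨Cs, wd, a, b, by linarith, d, e⟩

theorem cyl_clus {x : α → ℂ} (hx : Measurable x) (u : ℂ) (r : ℝ) :
    MeasurableSet {a | ‖x a - u‖ < r} :=
  measurableSet_lt (hx.sub_const u).norm measurable_const

theorem cyl2_clus {x : α → ℂ} (hx : Measurable x) (r : ℝ) :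
    MeasurableSet {p : ℂ × α | ‖x p.2 - p.1‖ < r} :=
  measurableSet_lt ((hx.comp measurable_snd).sub measurable_fst).norm measurable_const

theorem cover_bad {m : Measure α} {x : α → ℂ} (hx : Measurable x) {f : α → ℝ}
    (hf : Integrable f m) (h0 : ∀ᵐ a ∂m, 0 ≤ f a) {r₀ η₁ : ℝ} (hr : 0 < r₀) (hη : 0 < η₁) :
    ∃ P : Finset ℂ, (P.card : ℝ) * η₁ ≤ ∫ a, f a ∂m ∧
      ∀ u : ℂ, η₁ < ∫ a in {a | ‖x a - u‖ < r₀}, f a ∂m → ∃ v ∈ P, ‖u - v‖ < 2 * r₀ := by
  classical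
  let ok : Finset ℂ → Prop := fun P =>
    (∀ u ∈ P, η₁ < ∫ a in {a | ‖x a - u‖ < r₀}, f a ∂m) ∧
      ∀ u ∈ P, ∀ v ∈ P, u ≠ v → 2 * r₀ ≤ ‖u - v‖
  have hc : ∀ P, ok P → (P.card : ℝ) * η₁ ≤ ∫ a, f a ∂m := fun P hP => by
    have h1 := integral_biUnion_finset (μ := m) (f := f) P (s := fun u => {a | ‖x a - u‖ < r₀})
      (fun u _ => cyl_clus hx u r₀) (fun u hu v hv huv => ?_) fun u _ => hf.integrableOn
    · refine le_trans ?_ (h1.ge.trans (setIntegral_le_integral hf h0))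
      rw [← nsmul_eq_mul]
      exact Finset.card_nsmul_le_sum _ _ _ fun u hu => (hP.1 u hu).le
    · refine Set.disjoint_left.2 fun a h1 h2 => ?_
      have h3 := hP.2 u hu v hv huv
      have h4 := norm_sub_le_norm_sub_add_norm_sub u (x a) v
      rw [norm_sub_rev u (x a)] at h4
      simp only [mem_setOf_eq] at h1 h2
      linarith
  have hb : BddAbove {n : ℕ | ∃ P, ok P ∧ P.card = n} := by
    refine ⟨⌊(∫ a, f a ∂m) / η₁⌋₊, ?_⟩
    rintro _ ⟨P, hP, rfl⟩
    exact Nat.le_floor ((le_div_iff₀ hη).2 (hc P hP))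
  obtain ⟨P, hP, hn⟩ := Nat.sSup_mem (s := {n : ℕ | ∃ P, ok P ∧ P.card = n})
    ⟨0, ∅, ⟨by simp, by simp⟩, rfl⟩ hb
  refine ⟨P, hc P hP, fun u hu => ?_⟩
  by_contra hne
  push Not at hne
  have hnot : u ∉ P := fun h => by
    have := hne u h
    rw [sub_self, norm_zero] at this
    linarith
  have h2 : ok (insert u P) := by
    refine ⟨fun v hv => ?_, fun v hv w hw hvw => ?_⟩
    · rcases Finset.mem_insert.1 hv with rfl | hv
      exacts [hu, hP.1 v hv]
    · rcases Finset.mem_insert.1 hv with e | hv' <;> rcases Finset.mem_insert.1 hw with e' | hw'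
      · exact absurd (e.trans e'.symm) hvw
      · rw [e]; exact hne w hw'
      · rw [e', norm_sub_rev]; exact hne v hv'
      · exact hP.2 v hv' w hw' hvw
  have h3 := le_csSup hb ⟨insert u P, h2, rfl⟩
  rw [Finset.card_insert_of_notMem hnot] at h3
  omega

theorem meas_local {m : Measure α} [IsFiniteMeasure m] {x : α → ℂ} (hx : Measurable x)
    {f : α → ℝ} (hf : Integrable f m) (r₀ : ℝ) :
    Measurable fun u : ℂ => ∫ a in {a | ‖x a - u‖ < r₀}, f a ∂m := by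
  have h1 : StronglyMeasurable
      ({p : ℂ × α | ‖x p.2 - p.1‖ < r₀}.indicator fun p => hf.1.mk f p.2) :=
    (hf.1.stronglyMeasurable_mk.comp_measurable measurable_snd).indicator (cyl2_clus hx r₀)
  have h2 := (h1.integral_prod_right' (ν := m)).measurable
  convert h2 using 2 with u
  rw [integral_congr_ae (ae_restrict_of_ae hf.1.ae_eq_mk), ← integral_indicator (cyl_clus hx u r₀)]
  rfl

/-- Chebyshev inequality for local integrals. -/
theorem vol_local {m : Measure α} [IsFiniteMeasure m] {x : α → ℂ} (hx : Measurable x)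
    {f : α → ℝ} (hf : Integrable f m) (h0 : ∀ᵐ a ∂m, 0 ≤ f a) {r₀ η₁ : ℝ} (hr : 0 < r₀)
    (hη : 0 < η₁) :
    volume {u : ℂ | η₁ < ∫ a in {a | ‖x a - u‖ < r₀}, f a ∂m} ≤
      ENNReal.ofReal (Real.pi * r₀ ^ 2 * (∫ a, f a ∂m) / η₁) := by
  obtain ⟨g, hg, hfg⟩ := hf.1.aemeasurable
  have hm : Measurable ({p : ℂ × α | ‖x p.2 - p.1‖ < r₀}.indicator
      fun p => ENNReal.ofReal (g p.2)) :=
    (hg.comp measurable_snd).ennreal_ofReal.indicator (cyl2_clus hx r₀)
  have e1 : ∀ u : ℂ, ENNReal.ofReal (∫ a in {a | ‖x a - u‖ < r₀}, f a ∂m) =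
      ∫⁻ a, {p : ℂ × α | ‖x p.2 - p.1‖ < r₀}.indicator (fun p => ENNReal.ofReal (g p.2)) (u, a) ∂m := by
    intro u
    rw [ofReal_integral_eq_lintegral_ofReal hf.integrableOn (ae_restrict_of_ae h0),
      lintegral_congr_ae (g := fun a => ENNReal.ofReal (g a))
        (ae_restrict_of_ae (hfg.mono fun a ha => by rw [ha])),
      ← lintegral_indicator (cyl_clus hx u r₀)]
    rfl
  have e2 : ∀ a, ∫⁻ u : ℂ, {p : ℂ × α | ‖x p.2 - p.1‖ < r₀}.indicator
      (fun p => ENNReal.ofReal (g p.2)) (u, a) =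
      ENNReal.ofReal (g a) * ENNReal.ofReal (Real.pi * r₀ ^ 2) := by
    intro a
    have e : ENNReal.ofReal (Real.pi * r₀ ^ 2) = volume (ball (x a) r₀) := by
      rw [Complex.volume_ball, mul_comm Real.pi, ENNReal.ofReal_mul (by positivity),
        ENNReal.ofReal_pow hr.le, ← NNReal.coe_real_pi, ENNReal.ofReal_coe_nnreal]
    rw [e, ← lintegral_indicator_const measurableSet_ball]
    refine lintegral_congr fun u => ?_
    simp only [indicator, mem_setOf_eq, mem_ball, dist_comm u, dist_eq_norm]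
  have e3 : ∫⁻ u : ℂ, ENNReal.ofReal (∫ a in {a | ‖x a - u‖ < r₀}, f a ∂m) =
      ENNReal.ofReal (Real.pi * r₀ ^ 2 * ∫ a, f a ∂m) := by
    simp only [e1]
    rw [lintegral_lintegral_swap (f := fun u a => {p : ℂ × α | ‖x p.2 - p.1‖ < r₀}.indicator
      (fun p => ENNReal.ofReal (g p.2)) (u, a)) hm.aemeasurable]
    simp only [e2]
    rw [lintegral_mul_const _ hg.ennreal_ofReal, ENNReal.ofReal_mul (p := Real.pi * r₀ ^ 2)
      (by positivity), mul_comm, ofReal_integral_eq_lintegral_ofReal hf h0]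
    congr 1
    exact lintegral_congr_ae (hfg.mono fun a ha => by simp only [ha])
  have h1 := meas_ge_le_lintegral_div (μ := volume)
    (meas_local hx hf r₀).ennreal_ofReal.aemeasurable (ENNReal.ofReal_pos.2 hη).ne'
    ENNReal.ofReal_ne_top
  rw [e3, ← ENNReal.ofReal_div_of_pos hη] at h1
  exact (measure_mono fun u hu => ENNReal.ofReal_le_ofReal (le_of_lt hu)).trans h1

theorem doubling {F : ℝ → ℝ} (hF : MonotoneOn F (Icc (1 / 2) 1)) (h0 : 0 < F (1 / 2))
    (h1 : F 1 ≤ 1 / 8) : ∃ r, 1 / 2 ≤ r ∧ r ≤ 3 / 4 ∧ F (r + F r) ≤ 2 * F r := by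
  by_contra hne
  push Not at hne
  let r : ℕ → ℝ := fun n => Nat.rec (1 / 2) (fun _ s => s + F s) n
  have hr : ∀ n, r (n + 1) = r n + F (r n) := fun _ => rfl
  have hup : ∀ s, 1 / 2 ≤ s → s ≤ 3 / 4 → F s ≤ 1 / 8 := fun s a b =>
    (hF ⟨a, by linarith⟩ ⟨by norm_num, le_rfl⟩ (by linarith)).trans h1
  have key : ∀ n, 1 / 2 ≤ r n ∧ r n ≤ 3 / 4 ∧ r n - 1 / 2 ≤ F (r n) ∧
      2 ^ n * F (1 / 2) ≤ F (r n) := by
    intro n
    induction n with
    | zero =>
      have : r 0 = 1 / 2 := rfl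
      rw [this]
      exact ⟨le_rfl, by norm_num, by linarith, by simp⟩
    | succ n ih =>
      obtain ⟨a, b, c, d⟩ := ih
      have e := hne _ a b
      have f := hup _ a b
      rw [hr, pow_succ]
      exact ⟨by linarith, by linarith, by linarith, by linarith⟩
  obtain ⟨n, hn⟩ := pow_unbounded_of_one_lt (1 / 8 / F (1 / 2)) (one_lt_two (α := ℝ))
  obtain ⟨a, b, -, d⟩ := key n
  rw [div_lt_iff₀ h0] at hn
  linarith [hup _ a b]

end Pool.Agent.Lib.MP_8daebb_an.SV
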