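import Pool.Agent.Lib.MP_8daebb_an.SV.Df

/-! Cutoffs in the height variable. -/

open MeasureTheory Metric Filter Topology Set
open scoped RealInnerProductSpace ENNReal ContDiff

namespace Pool.Agent.Lib.MP_8daebb_an.SV

variable {α : Type*} [MeasurableSpace α] {H : Type*} [NormedAddCommGroup H]
  [InnerProductSpace ℝ H] [FiniteDimensional ℝ H] [MeasurableSpace H] [BorelSpace H]

theorem deriv_st_bound_sc0 : ∃ K : ℝ, 0 ≤ K ∧ ∀ x, |deriv Real.smoothTransition x| ≤ K := by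
  have hc : Continuous (deriv Real.smoothTransition) :=
    (Real.smoothTransition.contDiff (n := 1)).continuous_deriv (by simp)
  obtain ⟨K, hK⟩ := (isCompact_Icc (a := (0 : ℝ)) (b := 1)).exists_bound_of_continuousOn
    hc.continuousOn
  refine ⟨max K 0, le_max_right _ _, fun x => ?_⟩
  by_cases h0 : x < 0
  · have : Real.smoothTransition =ᶠ[𝓝 x] fun _ => 0 := by
      filter_upwards [Iio_mem_nhds h0] with y hy
      exact Real.smoothTransition.zero_of_nonpos (le_of_lt hy)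
    rw [this.deriv_eq]
    simp
  by_cases h1 : 1 < x
  · have : Real.smoothTransition =ᶠ[𝓝 x] fun _ => 1 := by
      filter_upwards [Ioi_mem_nhds h1] with y hy
      exact Real.smoothTransition.one_of_one_le (le_of_lt hy)
    rw [this.deriv_eq]
    simp
  exact (hK x ⟨not_lt.1 h0, not_lt.1 h1⟩).trans (le_max_left _ _)

omit [FiniteDimensional ℝ H] [MeasurableSpace H] [BorelSpace H] in
theorem prod_bound_sc0 (g : H → H → ℝ) (hg : ∀ s, ContDiff ℝ 1 (g s))
    (h01 : ∀ s y, 0 ≤ g s y ∧ g s y ≤ 1) (S : Finset H) (y : H) :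
    ‖fderiv ℝ (fun y => ∏ s ∈ S, g s y) y‖ ≤ ∑ s ∈ S, ‖fderiv ℝ (g s) y‖ := by
  classical
  induction S using Finset.induction_on with
  | empty => simp
  | insert a S ha ih =>
    simp only [Finset.prod_insert ha, Finset.sum_insert ha]
    have hP : ContDiff ℝ 1 (fun y => ∏ s ∈ S, g s y) := contDiff_prod (fun s _ => hg s)
    have d1 : DifferentiableAt ℝ (g a) y := (hg a).differentiable (by simp) y
    have d2 : DifferentiableAt ℝ (fun y => ∏ s ∈ S, g s y) y := hP.differentiable (by simp) y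
    rw [fderiv_fun_mul d1 d2]
    have p0 : 0 ≤ ∏ s ∈ S, g s y := Finset.prod_nonneg fun s _ => (h01 s y).1
    have p1 : ∏ s ∈ S, g s y ≤ 1 :=
      Finset.prod_le_one (fun s _ => (h01 s y).1) fun s _ => (h01 s y).2
    refine (norm_add_le _ _).trans ?_
    rw [norm_smul, norm_smul, Real.norm_of_nonneg (h01 a y).1, Real.norm_of_nonneg p0]
    have e1 := mul_le_of_le_one_left (norm_nonneg (fderiv ℝ (fun y => ∏ s ∈ S, g s y) y))
      (h01 a y).2
    have e2 := mul_le_of_le_one_left (norm_nonneg (fderiv ℝ (g a) y)) p1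
    linarith

omit [FiniteDimensional ℝ H] [MeasurableSpace H] [BorelSpace H] in
theorem one_cut_sc0 {K : ℝ} (hK0 : 0 ≤ K) (hK : ∀ x, |deriv Real.smoothTransition x| ≤ K)
    {η η' : ℝ} (h0 : 0 < η) (h1 : η < η') (s : H) :
    ∃ g : H → ℝ, ContDiff ℝ 1 g ∧ (∀ y, 0 ≤ g y ∧ g y ≤ 1) ∧
      (∀ y, ‖fderiv ℝ g y‖ ≤ 4 * K / (η' - η)) ∧ (∀ y, ‖y - s‖ ≤ η → g y = 0) ∧
      ∀ y, η' ≤ ‖y - s‖ → g y = 1 ∧ fderiv ℝ g y = 0 := by
  set m : ℝ := (η + η') / 2 with hm
  have hmη : η < m := by rw [hm]; linarith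
  have hmη' : m < η' := by rw [hm]; linarith
  have hD : 0 < m ^ 2 - η ^ 2 := by nlinarith
  set q : H → ℝ := fun y => (‖y - s‖ ^ 2 - η ^ 2) / (m ^ 2 - η ^ 2) with hq
  have hqc : ContDiff ℝ 1 q :=
    (((contDiff_id.sub contDiff_const).norm_sq ℝ).sub contDiff_const).div_const _
  have hfar : ∀ y, m < ‖y - s‖ →
      (fun y => Real.smoothTransition (q y)) =ᶠ[𝓝 y] fun _ => 1 := by
    intro y hy
    have ho : IsOpen {y : H | m < ‖y - s‖} :=
      isOpen_lt continuous_const (continuous_id.sub continuous_const).norm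
    filter_upwards [ho.mem_nhds hy] with z hz
    apply Real.smoothTransition.one_of_one_le
    rw [hq, le_div_iff₀ hD]
    have hz' : m < ‖z - s‖ := hz
    nlinarith
  refine ⟨fun y => Real.smoothTransition (q y), Real.smoothTransition.contDiff.comp hqc,
    fun y => ⟨Real.smoothTransition.nonneg _, Real.smoothTransition.le_one _⟩, fun y => ?_,
    fun y hy => ?_, fun y hy => ?_⟩
  · by_cases hy : m < ‖y - s‖
    · rw [(hfar y hy).fderiv_eq]
      simp only [fderiv_fun_const, Pi.zero_apply, norm_zero]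
      exact div_nonneg (by positivity) (by linarith)
    have hy' : ‖y - s‖ ≤ m := not_lt.1 hy
    have a1 : HasFDerivAt (fun y : H => ‖y - s‖ ^ 2)
        (2 • (innerSL ℝ (y - s)).comp (ContinuousLinearMap.id ℝ H)) y :=
      ((hasFDerivAt_id y).sub_const s).norm_sq
    have a2 : HasFDerivAt q ((m ^ 2 - η ^ 2)⁻¹ •
        (2 • (innerSL ℝ (y - s)).comp (ContinuousLinearMap.id ℝ H))) y := by
      have := (a1.sub_const (η ^ 2)).const_mul (m ^ 2 - η ^ 2)⁻¹
      refine this.congr_of_eventuallyEq (Eventually.of_forall fun z => ?_)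
      simp only [hq]
      rw [div_eq_inv_mul]
    have a3 : HasDerivAt Real.smoothTransition (deriv Real.smoothTransition (q y)) (q y) :=
      ((Real.smoothTransition.contDiff (n := 1)).differentiable (by simp) _).hasDerivAt
    have a4 := a3.comp_hasFDerivAt y a2
    have a5 : fderiv ℝ (fun y => Real.smoothTransition (q y)) y = _ := a4.fderiv
    rw [a5, norm_smul, norm_smul, ContinuousLinearMap.comp_id, Real.norm_eq_abs,
      Real.norm_of_nonneg (inv_nonneg.2 hD.le)]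
    have b1 : ‖(2 • innerSL ℝ (y - s) : H →L[ℝ] ℝ)‖ ≤ 2 * m := by
      rw [two_nsmul]
      refine (norm_add_le _ _).trans ?_
      rw [innerSL_apply_norm]
      linarith
    have b2 : (m ^ 2 - η ^ 2)⁻¹ * (2 * m) ≤ 4 / (η' - η) := by
      rw [inv_mul_eq_div, div_le_div_iff₀ hD (by linarith)]
      have : η' = 2 * m - η := by rw [hm]; ring
      rw [this]
      nlinarith
    calc _ ≤ K * ((m ^ 2 - η ^ 2)⁻¹ * (2 * m)) :=
          mul_le_mul (hK _) (mul_le_mul_of_nonneg_left b1 (inv_nonneg.2 hD.le))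
            (by positivity) hK0
      _ ≤ K * (4 / (η' - η)) := mul_le_mul_of_nonneg_left b2 hK0
      _ = 4 * K / (η' - η) := by ring
  · apply Real.smoothTransition.zero_of_nonpos
    apply div_nonpos_of_nonpos_of_nonneg _ hD.le
    have := norm_nonneg (y - s)
    nlinarith
  · have h := hfar y (lt_of_lt_of_le hmη' hy)
    refine ⟨h.self_of_nhds, ?_⟩
    rw [h.fderiv_eq]
    simp

/-- Height cutoffs: one near the finite set `S`, zero far from it. -/
theorem exists_hcut : ∃ C : ℝ, 1 ≤ C ∧ ∀ (S : Finset H) (η η' : ℝ), 0 < η → η < η' → η' ≤ 2 * η →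
    ∃ ψ : H → ℝ, ContDiff ℝ 1 ψ ∧ (∀ y, 0 ≤ ψ y ∧ ψ y ≤ 1) ∧
      (∀ y, ‖fderiv ℝ ψ y‖ ≤ C * S.card / (η' - η)) ∧
      (∀ y, (∃ s ∈ S, ‖y - s‖ ≤ η) → ψ y = 1) ∧
      ∀ y, (∀ s ∈ S, η' ≤ ‖y - s‖) → ψ y = 0 ∧ fderiv ℝ ψ y = 0 := by
  obtain ⟨K, hK0, hK⟩ := deriv_st_bound_sc0
  refine ⟨4 * K + 1, by linarith, fun S η η' h0 h1 _ => ?_⟩
  choose g hg h01 hb hz ho using one_cut_sc0 (H := H) hK0 hK h0 h1
  have hP : ContDiff ℝ 1 (fun y => ∏ s ∈ S, g s y) := contDiff_prod (fun s _ => hg s)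
  have hf : ∀ y, ‖fderiv ℝ (fun y => 1 - ∏ s ∈ S, g s y) y‖ ≤ ∑ s ∈ S, ‖fderiv ℝ (g s) y‖ := by
    intro y
    rw [fderiv_const_sub, norm_neg]
    exact prod_bound_sc0 g hg h01 S y
  refine ⟨fun y => 1 - ∏ s ∈ S, g s y, contDiff_const.sub hP, fun y => ?_, fun y => ?_,
    fun y hy => ?_, fun y hy => ⟨?_, ?_⟩⟩
  · have p0 : 0 ≤ ∏ s ∈ S, g s y := Finset.prod_nonneg fun s _ => (h01 s y).1
    have p1 : ∏ s ∈ S, g s y ≤ 1 :=
      Finset.prod_le_one (fun s _ => (h01 s y).1) fun s _ => (h01 s y).2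
    constructor <;> simp only <;> linarith
  · refine (hf y).trans ((Finset.sum_le_card_nsmul _ _ _ fun s _ => hb s y).trans ?_)
    rw [nsmul_eq_mul, ← mul_div_assoc]
    apply div_le_div_of_nonneg_right _ (by linarith)
    have : (0 : ℝ) ≤ S.card := Nat.cast_nonneg _
    nlinarith
  · obtain ⟨s, hs, hys⟩ := hy
    simp only
    rw [Finset.prod_eq_zero hs (hz s y hys), sub_zero]
  · simp only
    rw [Finset.prod_eq_one fun s hs => (ho s y (hy s hs)).1, sub_self]
  · have := hf y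
    rw [Finset.sum_eq_zero fun s hs => by rw [(ho s y (hy s hs)).2, norm_zero]] at this
    exact norm_le_zero_iff.1 this

end Pool.Agent.Lib.MP_8daebb_an.SV
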