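import Mathlib

/-! Two lemmas on finite sequences. -/

open MeasureTheory Metric Filter Topology Set
open scoped RealInnerProductSpace ENNReal ContDiff

namespace Pool.Agent.Lib.MP_8daebb_an.SV

theorem step_seq (J : ℕ → ℝ) {n a : ℕ} (ha : a ≤ n) :
    ∑ b ∈ Finset.Ico a (n + 1), (1 / 2 : ℝ) ^ (b - a) * (J (b + 1) - J b) =
      J (a + 1) - J a +
        (∑ b ∈ Finset.Ico (a + 1) (n + 1), (1 / 2 : ℝ) ^ (b - (a + 1)) * (J (b + 1) - J b)) / 2 := by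
  rw [Finset.sum_eq_sum_Ico_succ_bot (Nat.lt_succ_of_le ha), Nat.sub_self, pow_zero, one_mul,
    Finset.sum_div]
  congr 1
  refine Finset.sum_congr rfl fun b hb => ?_
  have h1 : b - a = b - (a + 1) + 1 := by
    have := (Finset.mem_Ico.1 hb).1
    omega
  rw [h1, pow_succ]
  ring

theorem sq_le_seq (a : ℕ → ℝ) (j : ℕ) :
    a j ^ 2 ≤ 2 ^ j * (a 0 ^ 2 + ∑ i ∈ Finset.range j, (a (i + 1) - a i) ^ 2) := by
  induction j with
  | zero => simp
  | succ j ih =>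
    rw [Finset.sum_range_succ, pow_succ (2 : ℝ) j]
    have h1 : (1 : ℝ) ≤ 2 ^ j := one_le_pow₀ (by norm_num)
    have h2 : a (j + 1) ^ 2 ≤ 2 * a j ^ 2 + 2 * (a (j + 1) - a j) ^ 2 := by
      nlinarith [sq_nonneg (a (j + 1) - 2 * a j)]
    have h3 : (a (j + 1) - a j) ^ 2 ≤ 2 ^ j * (a (j + 1) - a j) ^ 2 :=
      le_mul_of_one_le_left (sq_nonneg _) h1
    nlinarith

theorem seq_growth {c : ℝ} (hc : 0 < c) : ∃ c' : ℝ, 0 < c' ∧ c' < 1 ∧
    ∀ (J : ℕ → ℝ) (n : ℕ) (W : ℝ), 1 ≤ n → (∀ b ≤ n, J b ≤ J (b + 1)) → 0 ≤ J 0 → J (n + 1) ≤ W →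
    ∃ a < n, -(48 * (1 - c') ^ n * W) ≤
      c * J a - 16 * ∑ b ∈ Finset.Ico a (n + 1), (1 / 2) ^ (b - a) * (J (b + 1) - J b) := by
  have hp : 0 < 32 + 2 * c := by linarith
  have he : 1 - c / (32 + 2 * c) = (32 + c) / (32 + 2 * c) := by
    field_simp
    ring
  refine ⟨c / (32 + 2 * c), div_pos hc hp, (div_lt_one hp).2 (by linarith), ?_⟩
  intro J n W hn hJ h0 hW
  rw [he]
  set q := (32 + c) / (32 + 2 * c) with hq
  have hq0 : 0 < q := div_pos (by linarith) hp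
  set D : ℕ → ℝ := fun a =>
    ∑ b ∈ Finset.Ico a (n + 1), (1 / 2 : ℝ) ^ (b - a) * (J (b + 1) - J b) with hD
  have hstep : ∀ a ≤ n, D a = J (a + 1) - J a + D (a + 1) / 2 := fun a ha => step_seq J ha
  have hmono : ∀ a ≤ n + 1, J 0 ≤ J a := by
    intro a ha
    induction a with
    | zero => exact le_rfl
    | succ a ih => exact (ih (by omega)).trans (hJ a (by omega))
  have hW0 : 0 ≤ q ^ n * W := mul_nonneg (pow_pos hq0 n).le (h0.trans ((hmono _ le_rfl).trans hW))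
  by_contra hcon
  have hlt : ∀ a < n, c * J a - 16 * D a < -(48 * q ^ n * W) := fun a ha => by
    by_contra h
    exact hcon ⟨a, ha, not_lt.1 h⟩
  have hZ : ∀ a ≤ n, J 0 + D 0 / 2 ≤ q ^ a * (J a + D a / 2) := by
    intro a ha
    induction a with
    | zero => simp
    | succ a ih =>
      refine (ih (by omega)).trans ?_
      rw [pow_succ, mul_assoc]
      refine mul_le_mul_of_nonneg_left ?_ (pow_pos hq0 a).le
      have h1 := hstep a (by omega)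
      have h2 := hlt a (by omega)
      have h3 : J (a + 1) + D (a + 1) / 2 = J a + D a := by linarith
      rw [h3, hq, div_mul_eq_mul_div, le_div_iff₀ hp]
      nlinarith
  have h1 := hZ n le_rfl
  have h2 := hstep n le_rfl
  have h3 : D (n + 1) = 0 := by simp [hD]
  have h4 : J n + D n / 2 ≤ W := by linarith [hJ n le_rfl]
  have h5 := mul_le_mul_of_nonneg_left h4 (pow_pos hq0 n).le
  have h6 := hlt 0 (by omega)
  have h7 := mul_nonneg hc.le h0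
  nlinarith

theorem chain_pos (Q : ℕ) : ∃ c : ℝ, 0 < c ∧ ∃ C : ℝ, 0 < C ∧ ∀ a : ℕ → ℝ,
    c * ∑ j ∈ Finset.range Q, (a (j + 1) + a j) ^ 2 - C * a 0 ^ 2 ≤
      ∑ j ∈ Finset.range Q, (a (j + 1) - a j) ^ 2 := by
  have hK : (0 : ℝ) < (Q + 1) * (4 * 2 ^ Q) := by positivity
  refine ⟨((Q + 1) * (4 * 2 ^ Q))⁻¹, inv_pos.2 hK, 1, one_pos, fun a => ?_⟩
  set S := a 0 ^ 2 + ∑ j ∈ Finset.range Q, (a (j + 1) - a j) ^ 2 with hS
  have hS0 : 0 ≤ S := add_nonneg (sq_nonneg _) (Finset.sum_nonneg fun _ _ => sq_nonneg _)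
  have h1 : ∀ j ≤ Q, a j ^ 2 ≤ 2 ^ Q * S := fun j hj => by
    refine (sq_le_seq a j).trans (mul_le_mul (pow_le_pow_right₀ (by norm_num) hj) ?_
      (add_nonneg (sq_nonneg _) (Finset.sum_nonneg fun _ _ => sq_nonneg _)) (by positivity))
    exact add_le_add_right (Finset.sum_le_sum_of_subset_of_nonneg (Finset.range_mono hj)
      fun _ _ _ => sq_nonneg _) _
  have h2 : ∑ j ∈ Finset.range Q, (a (j + 1) + a j) ^ 2 ≤ Q * (4 * 2 ^ Q * S) := by
    have h3 : ∀ j ∈ Finset.range Q, (a (j + 1) + a j) ^ 2 ≤ 4 * 2 ^ Q * S := fun j hj => by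
      have hj' := Finset.mem_range.1 hj
      nlinarith [h1 j hj'.le, h1 (j + 1) hj', sq_nonneg (a (j + 1) - a j)]
    have h4 := Finset.sum_le_card_nsmul _ _ _ h3
    rwa [Finset.card_range, nsmul_eq_mul] at h4
  have h5 : ((Q + 1 : ℝ) * (4 * 2 ^ Q))⁻¹ * ∑ j ∈ Finset.range Q, (a (j + 1) + a j) ^ 2 ≤ S := by
    rw [inv_mul_le_iff₀ hK]
    have h6 : 0 ≤ 4 * 2 ^ Q * S := by positivity
    nlinarith
  linarith

end Pool.Agent.Lib.MP_8daebb_an.SV
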