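import Pool.Agent.Lib.MP_8daebb_an.SV.Df

/-! Integration by parts in the plane. -/

open MeasureTheory Metric Filter Topology Set
open scoped RealInnerProductSpace ENNReal ContDiff

namespace Pool.Agent.Lib.MP_8daebb_an.SV

theorem integral_fderiv_zero {F : Type*} [NormedAddCommGroup F] [NormedSpace ℝ F]
    [CompleteSpace F] {f : ℂ → F} (hf : ContDiff ℝ 1 f) (hc : HasCompactSupport f) (v : ℂ) :
    Integrable (fun u => fderiv ℝ f u v) ∧ ∫ u, fderiv ℝ f u v = 0 := by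
  have hi : Integrable (fun u => fderiv ℝ f u v) :=
    ((hf.continuous_fderiv one_ne_zero).clm_apply continuous_const).integrable_of_hasCompactSupport
      (hc.fderiv_apply ℝ v)
  refine ⟨hi, ?_⟩
  have := integral_smul_fderiv_eq_neg_fderiv_smul_of_integrable (μ := volume)
    (f := fun _ : ℂ => (1 : ℝ)) (g := f) (v := v) (by simp) (by simpa using hi)
    (by simpa using hf.continuous.integrable_of_hasCompactSupport hc)
    (fun _ _ => differentiableAt_const _) fun x _ => hf.differentiable one_ne_zero x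
  simpa using this

theorem integral_tr2_zero {W : ℂ → ℂ} (hW : ContDiff ℝ 1 W) (hc : HasCompactSupport W) :
    Integrable (fun u => tr2 (fderiv ℝ W u)) ∧ ∫ u, tr2 (fderiv ℝ W u) = 0 := by
  obtain ⟨h1, e1⟩ := integral_fderiv_zero hW hc 1
  obtain ⟨h2, e2⟩ := integral_fderiv_zero hW hc Complex.I
  refine ⟨h1.re.add h2.im, ?_⟩
  have a1 := Complex.reCLM.integral_comp_comm h1
  have a2 := Complex.imCLM.integral_comp_comm h2
  rw [e1, map_zero] at a1
  rw [e2, map_zero] at a2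
  exact (integral_add h1.re h2.im).trans (by
    rw [show ∫ u, RCLike.re (fderiv ℝ W u 1) = 0 from a1,
      show ∫ u, RCLike.im (fderiv ℝ W u Complex.I) = 0 from a2, add_zero])

theorem lin_apply {F : Type*} [NormedAddCommGroup F] [NormedSpace ℝ F] (A : ℂ →L[ℝ] F) (w : ℂ) :
    A w = w.re • A 1 + w.im • A Complex.I := by
  rw [← map_smul, ← map_smul, ← map_add]
  congr 1
  simp

theorem tr2_smul {κ : ℂ → ℝ} {W : ℂ → ℂ} {u : ℂ} (hκ : DifferentiableAt ℝ κ u)
    (hW : DifferentiableAt ℝ W u) : tr2 (fderiv ℝ (κ • W) u) =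
      κ u * tr2 (fderiv ℝ W u) + fderiv ℝ κ u (W u) := by
  rw [fderiv_smul hκ hW, lin_apply (fderiv ℝ κ u) (W u)]
  simp [tr2]
  ring

theorem integral_div' {κ : ℂ → ℝ} (hκ : ContDiff ℝ 1 κ) {W : ℂ → ℂ} (hW : ContDiff ℝ 1 W)
    (hc : HasCompactSupport κ ∨ HasCompactSupport W) :
    ∫ u, κ u * tr2 (fderiv ℝ W u) = -∫ u, fderiv ℝ κ u (W u) := by
  obtain ⟨i1, e1⟩ := integral_tr2_zero (hκ.smul hW)
    (hc.elim (fun h => h.smul_right) fun h => h.smul_left)
  have i2 : Integrable fun u => fderiv ℝ κ u (W u) :=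
    ((hκ.continuous_fderiv one_ne_zero).clm_apply hW.continuous).integrable_of_hasCompactSupport
      (hc.elim (fun h => (h.fderiv ℝ).mono fun u hu e => hu (by simp [e]))
        fun h => h.mono fun u hu e => hu (by simp [e]))
  have key : ∀ u, κ u * tr2 (fderiv ℝ W u) =
      tr2 (fderiv ℝ (κ • W) u) - fderiv ℝ κ u (W u) := fun u => by
    rw [tr2_smul (hκ.differentiable one_ne_zero u) (hW.differentiable one_ne_zero u)]
    ring
  simp only [key]
  rw [integral_sub i1 i2, e1, zero_sub]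

theorem fderiv_grad {v : ℂ → ℝ} (hv : ContDiff ℝ 2 v) (u w : ℂ) : fderiv ℝ (grad v) u w =
    (fderiv ℝ (fderiv ℝ v) u w 1 : ℝ) + (fderiv ℝ (fderiv ℝ v) u w Complex.I : ℝ) * Complex.I := by
  let L : (ℂ →L[ℝ] ℝ) →L[ℝ] ℂ := Complex.ofRealCLM.comp (ContinuousLinearMap.apply ℝ ℝ 1) +
    (ContinuousLinearMap.apply ℝ ℝ Complex.I).smulRight Complex.I
  have d := ((hv.fderiv_right (m := 1) (by norm_num)).differentiable one_ne_zero u).hasFDerivAt
  have e : grad v = L ∘ fderiv ℝ v := funext fun x => by simp [L, grad]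
  rw [e, (L.hasFDerivAt.comp u d).fderiv]
  simp [L]

theorem tr2_grad {v : ℂ → ℝ} (hv : ContDiff ℝ 2 v) (u : ℂ) :
    tr2 (fderiv ℝ (grad v) u) = lap v u := by
  simp [tr2, lap, fderiv_grad hv]

theorem inner_grad {v : ℂ → ℝ} (hv : ContDiff ℝ 2 v) (u w w' : ℂ) :
    ⟪fderiv ℝ (grad v) u w, w'⟫ = fderiv ℝ (fderiv ℝ v) u w w' := by
  rw [fderiv_grad hv, lin_apply (fderiv ℝ (fderiv ℝ v) u w) w']
  simp [Complex.inner]

theorem hp_sq (A : ℂ →L[ℝ] ℂ) (p : ℂ) : hp A (p ^ 2) = ⟪p, A p⟫ - ⟪p, p⟫ * tr2 A / 2 := by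
  rw [lin_apply A p]
  simp only [hp, dzb, tr2, Complex.inner, sq]
  simp
  ring

theorem integral_div {κ : ℂ → ℝ} (hκ : ContDiff ℝ 1 κ) (hc : HasCompactSupport κ) {W : ℂ → ℂ}
    (hW : ContDiff ℝ 1 W) : ∫ u, κ u * tr2 (fderiv ℝ W u) = -∫ u, fderiv ℝ κ u (W u) := by
  exact integral_div' hκ hW (Or.inl hc)

theorem continuous_lap {v : ℂ → ℝ} (hv : ContDiff ℝ 2 v) :
    Continuous (lap v) ∧ ContDiff ℝ 1 (grad v) ∧ (∀ u w, fderiv ℝ v u w = ⟪grad v u, w⟫) ∧
      ∀ u, ‖grad v u‖ = ‖fderiv ℝ v u‖ := by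
  have h1 : ContDiff ℝ 1 (fderiv ℝ v) := hv.fderiv_right (by norm_num)
  have h2 := h1.continuous_fderiv one_ne_zero
  have h3 : ∀ u w, fderiv ℝ v u w = ⟪grad v u, w⟫ := fun u w => by
    rw [lin_apply (fderiv ℝ v u) w]
    simp [grad, Complex.inner]
  refine ⟨((h2.clm_apply continuous_const).clm_apply continuous_const).add
    ((h2.clm_apply continuous_const).clm_apply continuous_const), ?_, h3, fun u => ?_⟩
  · exact (Complex.ofRealCLM.contDiff.comp (h1.clm_apply contDiff_const)).add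
      ((Complex.ofRealCLM.contDiff.comp (h1.clm_apply contDiff_const)).mul contDiff_const)
  · rw [show fderiv ℝ v u = innerSL ℝ (grad v u) from ContinuousLinearMap.ext (h3 u),
      innerSL_apply_norm]

theorem green {κ v : ℂ → ℝ} (hκ : ContDiff ℝ 2 κ) (hc : HasCompactSupport κ)
    (hv : ContDiff ℝ 2 v) : ∫ u, κ u * lap v u = ∫ u, lap κ u * v u := by
  obtain ⟨-, g1, g2, -⟩ := continuous_lap hκ
  obtain ⟨-, g3, g4, -⟩ := continuous_lap hv
  have hg : HasCompactSupport (grad κ) :=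
    (hc.fderiv ℝ).comp_left (g := fun A : ℂ →L[ℝ] ℝ =>
      ((A 1 : ℝ) : ℂ) + (A Complex.I : ℝ) * Complex.I) (by simp)
  have h1 := integral_div' (hκ.of_le one_le_two) g3 (Or.inl hc)
  have h2 := integral_div' (hv.of_le one_le_two) g1 (Or.inr hg)
  simp only [tr2_grad hv, g2] at h1
  simp only [tr2_grad hκ, g4] at h2
  rw [h1]
  simp only [mul_comm (lap κ _), h2, real_inner_comm]

theorem lap_sub {v w : ℂ → ℝ} (hv : ContDiff ℝ 2 v) (hw : ContDiff ℝ 2 w) (u : ℂ) :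
    lap (fun x => v x - w x) u = lap v u - lap w u ∧
      grad (fun x => v x - w x) u = grad v u - grad w u := by
  have h1 : fderiv ℝ (fun x => v x - w x) = fun x => fderiv ℝ v x - fderiv ℝ w x :=
    funext fun x => fderiv_fun_sub (hv.differentiable two_ne_zero x) (hw.differentiable two_ne_zero x)
  have d : ∀ {v : ℂ → ℝ}, ContDiff ℝ 2 v → DifferentiableAt ℝ (fderiv ℝ v) u := fun h =>
    (h.fderiv_right (m := 1) (by norm_num)).differentiable one_ne_zero u
  constructor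
  · simp only [lap, h1, fderiv_fun_sub (d hv) (d hw), sub_apply]
    ring
  · simp only [grad, h1, sub_apply]
    push_cast
    ring

theorem abs_tr2_le (A : ℂ →L[ℝ] ℂ) (ζ : ℂ) : |tr2 A| ≤ 2 * ‖A‖ ∧ |hp A ζ| ≤ ‖A‖ * ‖ζ‖ ∧
    (∀ c : ℝ, hp (c • ContinuousLinearMap.id ℝ ℂ) ζ = 0) ∧
    (∀ A' : ℂ →L[ℝ] ℂ, hp (A - A') ζ = hp A ζ - hp A' ζ) ∧
    ∀ ζ' : ℂ, hp A (ζ + ζ') = hp A ζ + hp A ζ' := by
  have h1 : ‖A 1‖ ≤ ‖A‖ := by simpa using A.le_opNorm 1
  have h2 : ‖A Complex.I‖ ≤ ‖A‖ := by simpa using A.le_opNorm Complex.I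
  refine ⟨?_, ?_, fun c => ?_, fun A' => ?_, fun ζ' => ?_⟩
  · have := abs_add_le (A 1).re (A Complex.I).im
    have := Complex.abs_re_le_norm (A 1)
    have := Complex.abs_im_le_norm (A Complex.I)
    rw [tr2]
    linarith
  · refine (Complex.abs_re_le_norm _).trans ?_
    rw [norm_mul, Complex.norm_conj]
    refine mul_le_mul_of_nonneg_right ?_ (norm_nonneg _)
    have := norm_add_le (A 1) (Complex.I * A Complex.I)
    rw [norm_mul, Complex.norm_I, one_mul] at this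
    rw [dzb, norm_div, Complex.norm_two]
    linarith
  · simp [hp, dzb, mul_left_comm Complex.I]
  · simp only [hp, dzb, sub_apply, ← Complex.sub_re]
    congr 1
    ring
  · simp only [hp, map_add, mul_add, Complex.add_re]

theorem pair {v : ℂ → ℝ} (hv : ContDiff ℝ 2 v) {Z : ℂ → ℂ} (hZ : ContDiff ℝ 1 Z)
    (hc : HasCompactSupport Z) :
    ∫ u, hp (fderiv ℝ Z u) (grad v u ^ 2) = -∫ u, lap v u * ⟪grad v u, Z u⟫ := by
  obtain ⟨g0, g1, -, -⟩ := continuous_lap hv
  have hφ : ContDiff ℝ 1 fun u => ⟪grad v u, Z u⟫ := g1.inner ℝ hZ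
  have hψ : ContDiff ℝ 1 fun u => ⟪grad v u, grad v u⟫ := g1.inner ℝ g1
  have cφ : HasCompactSupport fun u => ⟪grad v u, Z u⟫ :=
    hc.mono fun u hu e => hu (by simp [e])
  obtain ⟨i1, e1⟩ := integral_tr2_zero (hφ.smul g1) cφ.smul_right
  obtain ⟨i2, e2⟩ := integral_tr2_zero (hψ.smul hZ) hc.smul_left
  have i3 : Integrable fun u => lap v u * ⟪grad v u, Z u⟫ :=
    (g0.mul hφ.continuous).integrable_of_hasCompactSupport cφ.mul_left
  have key : ∀ u, hp (fderiv ℝ Z u) (grad v u ^ 2) =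
      tr2 (fderiv ℝ ((fun u => ⟪grad v u, Z u⟫) • grad v) u) -
        (1 / 2) * tr2 (fderiv ℝ ((fun u => ⟪grad v u, grad v u⟫) • Z) u) -
        lap v u * ⟪grad v u, Z u⟫ := fun u => by
    have d1 := g1.differentiable one_ne_zero u
    have d2 := hZ.differentiable one_ne_zero u
    rw [tr2_smul (hφ.differentiable one_ne_zero u) d1, tr2_smul (hψ.differentiable one_ne_zero u) d2,
      tr2_grad hv, fderiv_inner_apply ℝ d1 d2, fderiv_inner_apply ℝ d1 d1, hp_sq,
      real_inner_comm (fderiv ℝ (grad v) u (Z u)), inner_grad hv, inner_grad hv,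
      (hv.contDiffAt.isSymmSndFDerivAt (by simp)).eq (Z u)]
    ring
  simp only [key]
  rw [integral_sub (by exact i1.sub (i2.const_mul _)) i3, integral_sub i1 (i2.const_mul _),
    integral_const_mul, e1, e2]
  simp

end Pool.Agent.Lib.MP_8daebb_an.SV
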