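import Pool.Agent.Lib.MP_8daebb_an.SV.Df2
import Pool.Agent.Lib.MP_8daebb_an.SV.Id
import Pool.Agent.Lib.MP_8daebb_an.SV.Id2
import Pool.Agent.Lib.MP_8daebb_an.SV.Av
import Pool.Agent.Lib.MP_8daebb_an.SV.IBP

/-! Derivatives of averages. -/

open MeasureTheory Metric Filter Topology Set
open scoped RealInnerProductSpace ENNReal ContDiff

namespace Pool.Agent.Lib.MP_8daebb_an.SV

variable {α : Type*} [MeasurableSpace α] {H : Type*} [NormedAddCommGroup H]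
  [InnerProductSpace ℝ H] [FiniteDimensional ℝ H] [MeasurableSpace H] [BorelSpace H]

omit [FiniteDimensional ℝ H] [MeasurableSpace H] [BorelSpace H] in
theorem test_avd {κ : ℂ → ℝ} {f : H → ℝ} (hκ : ContDiff ℝ 1 κ) (hf : ContDiff ℝ 1 f) {ρ R : ℝ}
    (hρ : 0 < ρ) (h0 : ∀ v : ℂ, ρ ≤ ‖v‖ → κ v = 0) {u : ℂ} (hu : ‖u‖ + 2 * ρ ≤ R) :
    Test 0 R (fun w : ℂ × H => κ (u - w.1) * f w.2) ∧ ∀ (x : ℂ) (y : H) (v : ℂ) (h : H),
      fderiv ℝ (fun w : ℂ × H => κ (u - w.1) * f w.2) (x, y) (v, h) =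
        -(fderiv ℝ κ (u - x) v * f y) + κ (u - x) * fderiv ℝ f y h := by
  refine ⟨⟨((hκ.comp (contDiff_const.sub contDiff_fst)).mul (hf.comp contDiff_snd)).contDiffOn,
    ‖u‖ + ρ, by linarith, fun w hw => ?_⟩, fun x y v h => ?_⟩
  · rw [sub_zero] at hw
    have : ‖w.1‖ ≤ ‖u‖ + ‖u - w.1‖ := by
      have := norm_sub_le u (u - w.1)
      rwa [sub_sub_cancel] at this
    show κ (u - w.1) * f w.2 = 0
    rw [h0 _ (by linarith), zero_mul]
  · have a1 : HasFDerivAt (fun w : ℂ × H => κ (u - w.1))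
        ((fderiv ℝ κ (u - x)).comp (-ContinuousLinearMap.fst ℝ ℂ H)) (x, y) :=
      ((hκ.differentiable one_ne_zero) (u - x)).hasFDerivAt.comp (x, y)
        (hasFDerivAt_fst.const_sub u)
    have a2 : HasFDerivAt (fun w : ℂ × H => f w.2)
        ((fderiv ℝ f y).comp (ContinuousLinearMap.snd ℝ ℂ H)) (x, y) :=
      ((hf.differentiable one_ne_zero) y).hasFDerivAt.comp (x, y) hasFDerivAt_snd
    rw [(a1.fun_mul a2).fderiv]
    simp
    ring

theorem cs_avd {D : CD α H} {c : ℂ} {R δ M : ℝ} (h : CV D c R δ M) {ρ : ℝ} (h0 : 0 < ρ) (u : ℂ) :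
    Integrable (fun a => ‖D.y a‖ * √(D.t a)) D.m ∧ D.av ρ (fun a => ‖D.y a‖ * √(D.t a)) u ≤
      √(D.av ρ (fun a => ‖D.y a‖ ^ 2) u * D.av ρ D.t u) := by
  have hi : Integrable (fun a => ‖D.y a‖ * √(D.t a)) D.m := by
    refine h.integrable (h.m_y.norm.mul h.m_t.sqrt).aestronglyMeasurable (δ * √2) fun a ha _ => ?_
    have p := h.pw a ha
    rw [Real.norm_of_nonneg (by positivity)]
    exact mul_le_mul p.y_le (Real.sqrt_le_sqrt p.t_le) (by positivity) h.δ_nonneg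
  refine ⟨hi, Real.le_sqrt_of_sq_le ?_⟩
  have i1 := h.int_av h0 h.integrable_t.2.2.1 u
  have i2 := h.int_av h0 hi u
  have i3 := h.int_av h0 h.integrable_t.1 u
  have hd := discrim_le_zero (a := D.av ρ (fun a => ‖D.y a‖ ^ 2) u)
    (b := -2 * D.av ρ (fun a => ‖D.y a‖ * √(D.t a)) u) (c := D.av ρ D.t u) fun l => by
      have e : D.av ρ (fun a => ‖D.y a‖ ^ 2) u * (l * l) +
          -2 * D.av ρ (fun a => ‖D.y a‖ * √(D.t a)) u * l + D.av ρ D.t u =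
          ∫ a, (kr ρ (u - D.x a) • ‖D.y a‖ ^ 2 * (l * l) +
            kr ρ (u - D.x a) • (‖D.y a‖ * √(D.t a)) * (-2 * l) + kr ρ (u - D.x a) • D.t a) ∂D.m := by
        have i4 : Integrable (fun a => kr ρ (u - D.x a) • ‖D.y a‖ ^ 2 * (l * l) +
            kr ρ (u - D.x a) • (‖D.y a‖ * √(D.t a)) * (-2 * l)) D.m :=
          (i1.mul_const _).add (i2.mul_const _)
        rw [integral_add i4 i3,
          integral_add (i1.mul_const _) (i2.mul_const _), integral_mul_const, integral_mul_const]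
        unfold CD.av
        ring
      rw [e]
      refine integral_nonneg_of_ae (h.pw_av.mono fun a ha => ?_)
      have e2 := Real.sq_sqrt ha.t_nonneg
      have e3 := mul_nonneg (kr_nonneg ρ (u - D.x a)) (sq_nonneg (‖D.y a‖ * l - √(D.t a)))
      simp only [smul_eq_mul, Pi.zero_apply]
      calc (0 : ℝ) ≤ _ := e3
        _ = _ := by rw [sub_sq, e2]; ring
  rw [discrim] at hd
  nlinarith

theorem pow_avd {s ρ : ℝ} (h0 : 0 < ρ) (hρ : ρ ≤ 1 / 2) (h : s ≤ ρ ^ 5) {n : ℕ}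
    (hn : n ≤ 5) : s ≤ ρ ^ n :=
  h.trans (pow_le_pow_of_le_one h0.le (by linarith) hn)

theorem grad_av_sq (M : ℝ) : ∃ C : ℝ, 0 < C ∧ ∀ (D : CD α H) (R δ s ρ : ℝ), CV D 0 R δ M →
    δ ≤ 1 / 2 → Sm D s ρ → ρ ≤ 1 / 2 → ∀ u : ℂ, ‖u‖ + 2 * ρ ≤ R →
    ‖fderiv ℝ (D.av ρ fun a => ‖D.y a‖ ^ 2) u‖ ≤
      C * √(D.av ρ (fun a => ‖D.y a‖ ^ 2) u * D.av ρ D.t u) + C * s ^ 7 := by
  have hC : 0 < Ck := zero_lt_one.trans_le one_le_Ck
  refine ⟨4 * Ck + 4, by positivity, fun D R δ s ρ h hδ hs hρ u hu => ?_⟩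
  have := h.fin
  have h0 := hs.ρ_pos
  have s0 := hs.s_pos
  obtain ⟨t1, t2⟩ := test_avd (H := H) ((kr_contDiff ρ).of_le (by simp)) (f := fun y => ‖y‖ ^ 2)
    (contDiff_norm_sq ℝ) h0 (fun v hv => (kr_zero h0 hv).1) hu
  obtain ⟨ci, cs⟩ := cs_avd h h0 u
  have hy2 := h.integrable_t.2.2.1
  have hen := h.integrable_t.2.2.2.1
  have s3 : s ≤ ρ ^ 3 := pow_avd h0 hρ hs.s_le (by norm_num)
  have r3 : ρ ^ 3 ≤ ρ ^ 2 := pow_le_pow_of_le_one h0.le (by linarith) (by norm_num)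
  refine ContinuousLinearMap.opNorm_le_bound _ (by positivity) fun v => ?_
  have i1 : Integrable (fun a => fderiv ℝ (kr ρ) (u - D.x a) v • ‖D.y a‖ ^ 2) D.m :=
    integrable_conv h.m_x h.x_le_av hy2 (g := fun w => fderiv ℝ (kr ρ) w v)
      (((kr_contDiff ρ).continuous_fderiv (by simp)).clm_apply continuous_const) u
  have i3 := h.int_av h0 ci u
  rw [(h.av_smooth h0 hy2).2.2.2.1, ← add_zero (∫ a, _ ∂D.m), ← h.hor _ t1 v,
    ← integral_add i1 (h.integrable_hor_id t1 v)]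
  refine (norm_integral_le_of_norm_le (g := fun a => 3 * Ck / ρ ^ 3 * s ^ 4 * ‖v‖ * D.en a +
    4 * ‖v‖ * (kr ρ (u - D.x a) • (‖D.y a‖ * √(D.t a)))) ((hen.const_mul _).add (i3.const_mul _))
    ?_).trans ?_
  · filter_upwards [h.pw_av, hs.y_le, h.car] with a p hy hx
    obtain ⟨k1, k2, -⟩ := kr_le h0 (u - D.x a)
    have k0 := kr_nonneg ρ (u - D.x a)
    have hw := abs_le.1 (h.w_le _ hx).1
    have t0 := p.t_nonneg
    have y0 := norm_nonneg (D.y a)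
    have y4 : ‖D.y a‖ ^ 2 ≤ s ^ 4 := by nlinarith
    have en1 : D.t a ≤ D.en a := le_add_of_nonneg_right (sq_nonneg _)
    have eh1 : ‖D.eh a‖ ≤ D.en a := p.eh_le.trans (mul_le_of_le_one_left (t0.trans en1) (by linarith))
    have τ1 : ‖D.τ a v‖ ≤ 2 * D.t a * ‖v‖ :=
      ((D.τ a).le_opNorm v).trans (mul_le_mul_of_nonneg_right p.τ_le (norm_nonneg v))
    have b1 : |⟪D.y a, D.b a v⟫| ≤ 2 * (‖D.y a‖ * √(D.t a)) * ‖v‖ := by
      refine abs_le_of_sq_le_sq (p.rad v |>.trans ?_) (by positivity)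
      have e1 : |⟪D.τ a v, v⟫| ≤ 2 * D.t a * ‖v‖ * ‖v‖ :=
        (abs_real_inner_le_norm _ _).trans (mul_le_mul_of_nonneg_right τ1 (norm_nonneg v))
      have e2 : D.w (D.x a) * ⟪D.τ a v, v⟫ ≤ 3 / 2 * (2 * D.t a * ‖v‖ * ‖v‖) := by
        refine (le_abs_self _).trans ?_
        rw [abs_mul]
        exact mul_le_mul (abs_le.2 ⟨by linarith, by linarith⟩) e1 (abs_nonneg _) (by norm_num)
      have e3 : δ * ‖D.y a‖ ≤ 1 := by nlinarith [p.y_le, h.δ_nonneg]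
      have e4 : δ * ‖D.y a‖ * D.t a * ‖v‖ ^ 2 ≤ 1 * D.t a * ‖v‖ ^ 2 := by gcongr
      rw [mul_pow, mul_pow, mul_pow, Real.sq_sqrt t0]
      nlinarith [mul_le_mul_of_nonneg_left (add_le_add e2 e4) (sq_nonneg ‖D.y a‖)]
    have hd : fderiv ℝ (fun y : H => ‖y‖ ^ 2) (D.y a) (D.b a v) = 2 * ⟪D.y a, D.b a v⟫ := by
      rw [(hasStrictFDerivAt_norm_sq (D.y a)).hasFDerivAt.fderiv]
      simp
    rw [t2, hd, map_sub]
    have e : fderiv ℝ (kr ρ) (u - D.x a) v • ‖D.y a‖ ^ 2 +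
        (-((fderiv ℝ (kr ρ) (u - D.x a) v - fderiv ℝ (kr ρ) (u - D.x a) (D.τ a v)) * ‖D.y a‖ ^ 2) +
          kr ρ (u - D.x a) * (2 * ⟪D.y a, D.b a v⟫) +
          kr ρ (u - D.x a) * ‖D.y a‖ ^ 2 * ⟪D.eh a, v⟫) =
        fderiv ℝ (kr ρ) (u - D.x a) (D.τ a v) * ‖D.y a‖ ^ 2 +
          kr ρ (u - D.x a) * ‖D.y a‖ ^ 2 * ⟪D.eh a, v⟫ +
          kr ρ (u - D.x a) * (2 * ⟪D.y a, D.b a v⟫) := by
      rw [smul_eq_mul]; ring
    rw [e]
    have f1 : ‖fderiv ℝ (kr ρ) (u - D.x a) (D.τ a v) * ‖D.y a‖ ^ 2‖ ≤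
        Ck / ρ ^ 3 * (2 * D.en a * ‖v‖) * s ^ 4 := by
      rw [norm_mul, Real.norm_of_nonneg (sq_nonneg _)]
      refine mul_le_mul (((fderiv ℝ (kr ρ) _).le_opNorm _).trans (mul_le_mul k2 (τ1.trans ?_)
        (norm_nonneg _) (by positivity))) y4 (sq_nonneg _) (by have := t0.trans en1; positivity)
      gcongr
    have f2 : ‖kr ρ (u - D.x a) * ‖D.y a‖ ^ 2 * ⟪D.eh a, v⟫‖ ≤
        Ck / ρ ^ 3 * s ^ 4 * (D.en a * ‖v‖) := by
      rw [norm_mul, Real.norm_of_nonneg (by positivity)]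
      refine mul_le_mul (mul_le_mul (k1.trans ?_) y4 (sq_nonneg _) (by positivity))
        ((abs_real_inner_le_norm _ _).trans (mul_le_mul_of_nonneg_right eh1 (norm_nonneg v)))
        (norm_nonneg _) (by positivity)
      gcongr
    have f3 : ‖kr ρ (u - D.x a) * (2 * ⟪D.y a, D.b a v⟫)‖ ≤
        kr ρ (u - D.x a) * (2 * (2 * (‖D.y a‖ * √(D.t a)) * ‖v‖)) := by
      rw [norm_mul, Real.norm_of_nonneg k0, norm_mul, Real.norm_two]
      gcongr
      exact b1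
    refine (norm_add₃_le.trans (add_le_add (add_le_add f1 f2) f3)).trans (le_of_eq ?_)
    rw [smul_eq_mul]; ring
  · rw [integral_add (hen.const_mul _) (i3.const_mul _), integral_const_mul, integral_const_mul]
    have e1 : 3 * Ck / ρ ^ 3 * s ^ 4 * ‖v‖ * ∫ a, D.en a ∂D.m ≤
        3 * Ck / s * s ^ 4 * ‖v‖ * s ^ 4 := by
      refine (mul_le_mul_of_nonneg_left hs.en_le (by positivity)).trans ?_
      gcongr
    have e2 : 3 * Ck / s * s ^ 4 * ‖v‖ * s ^ 4 = 3 * Ck * s ^ 7 * ‖v‖ := by field_simp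
    have e3 := mul_le_mul_of_nonneg_left cs (by positivity : 0 ≤ 4 * ‖v‖)
    have e4 : 0 ≤ Ck * √(D.av ρ (fun a => ‖D.y a‖ ^ 2) u * D.av ρ D.t u) * ‖v‖ := by positivity
    have e5 : 0 ≤ (Ck + 4) * s ^ 7 * ‖v‖ := by positivity
    unfold CD.av at *
    nlinarith

theorem lap_av (M : ℝ) : ∃ C : ℝ, 0 < C ∧ ∀ (D : CD α H) (R δ s ρ : ℝ) (e : H), CV D 0 R δ M →
    δ ≤ 1 / 2 → Sm D s ρ → ρ ≤ 1 / 2 → ‖e‖ = 1 → ∀ u : ℂ, ‖u‖ + 2 * ρ ≤ R →
    |lap (D.av ρ (D.z e)) u| ≤ C * s ^ 2 / ρ := by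
  have hC : 0 < Ck := zero_lt_one.trans_le one_le_Ck
  refine ⟨Ck * (7 + 10 * |M|), by positivity, fun D R δ s ρ e h hδ hs hρ he u hu => ?_⟩
  have := h.fin
  have h0 := hs.ρ_pos
  have s0 := hs.s_pos
  have hM := h.M_nonneg
  rw [abs_of_nonneg hM]
  have hk : ContDiff ℝ ∞ (fderiv ℝ (kr ρ)) := fderiv_contDiff_ker (kr_contDiff ρ)
  have hf : ContDiff ℝ 1 fun y : H => ⟪y, e⟫ := contDiff_id.inner ℝ contDiff_const
  have hf' : ∀ y k : H, fderiv ℝ (fun y : H => ⟪y, e⟫) y k = ⟪k, e⟫ := fun y k => by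
    have := ((hasFDerivAt_id y).inner ℝ (hasFDerivAt_const e y)).fderiv
    simp only [id] at this
    rw [this]
    simp
  have T := fun v : ℂ => test_avd (H := H) (κ := fun w => fderiv ℝ (kr ρ) w v)
    ((hk.clm_apply contDiff_const).of_le (by simp)) hf h0
    (fun w hw => by rw [(kr_zero h0 hw).2.1]; rfl) hu
  have T2 : ∀ w v v' : ℂ, fderiv ℝ (fun w => fderiv ℝ (kr ρ) w v) w v' =
      fderiv ℝ (fderiv ℝ (kr ρ)) w v' v := fun w v v' =>
    (fderiv2_conv (contDiff_infty.1 (kr_contDiff ρ) 2) w v' v).symm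
  obtain ⟨t1, t2⟩ := test_avd (H := H) ((kr_contDiff ρ).of_le (by simp)) (f := fun _ => 1)
    contDiff_const h0 (fun v hv => (kr_zero h0 hv).1) hu
  have hz : Integrable (D.z e) D.m := h.integrable_t.2.2.2.2.2.inner_const e
  have hen := h.integrable_t.2.2.2.1
  have hsq := h.integrable_t.2.2.2.2.1
  have i1 : ∀ v : ℂ, Integrable (fun a => fderiv ℝ (fderiv ℝ (kr ρ)) (u - D.x a) v v • D.z e a)
      D.m := fun v => integrable_conv h.m_x h.x_le_av hz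
    (g := fun w => fderiv ℝ (fderiv ℝ (kr ρ)) w v v)
    (((hk.continuous_fderiv (by simp)).clm_apply continuous_const).clm_apply continuous_const) u
  have i2 := fun v => h.integrable_hor_id (T v).1 v
  have i3 := h.integrable_ver_id t1 e
  have i4 := h.int_av h0 hsq u
  have j1 := (i1 1).add (i2 1)
  have j2 := (i1 Complex.I).add (i2 Complex.I)
  have E := integral_add' (j1.add j2) i3
  rw [integral_add' j1 j2, integral_add' (i1 1) (i2 1), integral_add' (i1 Complex.I) (i2 Complex.I),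
    h.ver _ t1 e, h.hor _ (T 1).1 1, h.hor _ (T Complex.I).1 Complex.I, add_zero, add_zero,
    add_zero, ← (h.av_smooth h0 hz).2.2.2.2, ← (h.av_smooth h0 hz).2.2.2.2] at E
  rw [lap, ← E, ← Real.norm_eq_abs]
  have s1 : s ≤ ρ ^ 1 := pow_avd h0 hρ hs.s_le (by norm_num)
  have s3 : s ≤ ρ ^ 3 := pow_avd h0 hρ hs.s_le (by norm_num)
  rw [pow_one] at s1
  have s2 : s ^ 2 ≤ 1 := by nlinarith
  have r4 : ρ ^ 4 ≤ ρ ^ 3 := pow_le_pow_of_le_one h0.le (by linarith) (by norm_num)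
  have i5 : Integrable (fun a => 6 * Ck / ρ ^ 4 * D.en a + Ck / ρ ^ 3 * s ^ 4) D.m :=
    (hen.const_mul _).add (integrable_const _)
  refine (norm_integral_le_of_norm_le (g := fun a => 6 * Ck / ρ ^ 4 * D.en a +
    Ck / ρ ^ 3 * s ^ 4 + kr ρ (u - D.x a) • √(D.en a)) (i5.add i4) ?_).trans ?_
  · filter_upwards [h.pw_av, hs.y_le] with a p hy
    obtain ⟨-, k2, k3⟩ := kr_le h0 (u - D.x a)
    have k0 := kr_nonneg ρ (u - D.x a)
    obtain ⟨q1, q2, -, q3, -, q4, -, -, -, -, -, q5, q6, -⟩ := p.scal h.δ_nonneg hδ he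
    have z1 : |D.z e a| ≤ s ^ 2 := q1.trans hy
    simp only [Pi.add_apply, (T _).2, t2, T2, hf', map_sub, sub_apply,
      smul_eq_mul, fderiv_fun_const, Pi.zero_apply, zero_apply, ← inner_p]
    set A := fderiv ℝ (kr ρ) (u - D.x a)
    set B := fderiv ℝ (fderiv ℝ (kr ρ)) (u - D.x a)
    have lin : ∀ w : ℂ, A 1 * ⟪w, 1⟫ + A Complex.I * ⟪w, Complex.I⟫ = A w := fun w => by
      rw [lin_apply A w]
      simp [Complex.inner]
      ring
    have hz' : ⟪D.y a, e⟫ = D.z e a := rfl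
    have fB : ∀ v : ℂ, ‖v‖ = 1 → ‖B (D.τ a v) v * D.z e a‖ ≤ Ck / ρ ^ 4 * (2 * D.en a) * s ^ 2 :=
      fun v hv => by
        rw [norm_mul]
        refine mul_le_mul ?_ z1 (norm_nonneg _) (by positivity)
        refine (B.le_opNorm₂ _ _).trans ?_
        rw [hv, mul_one]
        refine mul_le_mul k3 (((D.τ a).le_opNorm v).trans ?_) (norm_nonneg _) (by positivity)
        rw [hv, mul_one]
        linarith [p.τ_le]
    have f1 := fB 1 norm_one
    have f2 := fB Complex.I Complex.norm_I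
    have f3 : ‖A (D.eh a) * D.z e a‖ ≤ Ck / ρ ^ 3 * D.en a * s ^ 2 := by
      rw [norm_mul]
      exact mul_le_mul ((A.le_opNorm _).trans (mul_le_mul k2 q6 (norm_nonneg _) (by positivity)))
        z1 (norm_nonneg _) (by positivity)
    have f4 : ‖A (D.p e a) - A (D.q a e)‖ ≤ Ck / ρ ^ 3 * (D.en a + s ^ 4) := by
      rw [← map_sub]
      refine (A.le_opNorm _).trans (mul_le_mul k2 ?_ (norm_nonneg _) (by positivity))
      rw [norm_sub_rev]
      refine q4.trans ?_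
      have e1 : 2 * ‖D.y a‖ * √(D.en a) ≤ 2 * s ^ 2 * √(D.en a) := by gcongr
      nlinarith [Real.sq_sqrt q2, sq_nonneg (√(D.en a) - s ^ 2)]
    have f5 : ‖kr ρ (u - D.x a) * ⟪D.L a, e⟫‖ ≤ kr ρ (u - D.x a) * √(D.en a) := by
      rw [norm_mul, Real.norm_of_nonneg k0]
      exact mul_le_mul_of_nonneg_left q5 k0
    have g1 : Ck / ρ ^ 4 * (2 * D.en a) * s ^ 2 ≤ Ck / ρ ^ 4 * (2 * D.en a) :=
      mul_le_of_le_one_right (by positivity) s2
    have g3 : Ck / ρ ^ 3 * D.en a ≤ Ck / ρ ^ 4 * D.en a := by gcongr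
    have g2 : Ck / ρ ^ 3 * D.en a * s ^ 2 ≤ Ck / ρ ^ 3 * D.en a :=
      mul_le_of_le_one_right (by positivity) s2
    rw [Real.norm_eq_abs, abs_le] at f1 f2 f3 f4 f5 ⊢
    have l1 := lin (D.p e a)
    have l2 := congrArg (· * D.z e a) (lin (D.eh a))
    have e6 : 6 * Ck / ρ ^ 4 * D.en a = 6 * (Ck / ρ ^ 4 * D.en a) := by ring
    rw [hz', e6]
    constructor <;> linarith [f1.1, f1.2, f2.1, f2.2, f3.1, f3.2, f4.1, f4.2, f5.1, f5.2]
  · rw [integral_add i5 i4, integral_add (hen.const_mul _) (integrable_const _),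
      integral_const_mul, integral_const, smul_eq_mul]
    obtain ⟨-, a2, a3, -⟩ := hs.av_le h hρ u
    have e1 : 6 * Ck / ρ ^ 4 * ∫ a, D.en a ∂D.m ≤ 6 * Ck * s ^ 2 / ρ := by
      refine (mul_le_mul_of_nonneg_left hs.en_le (by positivity)).trans ?_
      rw [div_mul_eq_mul_div, div_le_div_iff₀ (by positivity) h0]
      have : s ^ 2 ≤ ρ ^ 3 := by nlinarith
      nlinarith [mul_le_mul_of_nonneg_left this (by positivity : 0 ≤ 6 * Ck * s ^ 2 * ρ)]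
    have e2 : D.m.real univ * (Ck / ρ ^ 3 * s ^ 4) ≤ 9 * M * (Ck * s ^ 2 / ρ) := by
      refine mul_le_mul (h.mass_le (by linarith)) ?_ (by positivity) (by positivity)
      rw [div_mul_eq_mul_div, div_le_div_iff₀ (by positivity) h0]
      have : s ^ 2 ≤ ρ ^ 2 := by nlinarith
      nlinarith [mul_le_mul_of_nonneg_left this (by positivity : 0 ≤ Ck * s ^ 2 * ρ)]
    have e3 : D.av ρ (fun a => √(D.en a)) u ≤ Ck * (M + 1) * s ^ 2 / ρ := by
      refine le_of_sq_le_sq (a3.trans ((mul_le_mul_of_nonneg_left a2 (by positivity)).trans ?_))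
        (by positivity)
      have : Ck * M * (Ck * s ^ 4 / ρ ^ 2) = M * (Ck * s ^ 2 / ρ) ^ 2 := by ring
      rw [this, show Ck * (M + 1) * s ^ 2 / ρ = (M + 1) * (Ck * s ^ 2 / ρ) by ring, mul_pow]
      exact mul_le_mul_of_nonneg_right (by nlinarith) (sq_nonneg _)
    refine (add_le_add (add_le_add e1 e2) e3).trans (le_of_eq ?_)
    ring

end Pool.Agent.Lib.MP_8daebb_an.SV
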