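import Pool.Agent.Lib.MP_8daebb_an.SV.Cyl
import Pool.Agent.Lib.MP_8daebb_an.SV.Base2

/-! Covering the points with large tilt at some scale. -/

open MeasureTheory Metric Filter Topology Set
open scoped RealInnerProductSpace ENNReal ContDiff

namespace Pool.Agent.Lib.MP_8daebb_an.SV

variable {α : Type*} [MeasurableSpace α] {H : Type*} [NormedAddCommGroup H]
  [InnerProductSpace ℝ H] [FiniteDimensional ℝ H] [MeasurableSpace H] [BorelSpace H]

/-- The Vitali covering argument with two measures. -/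
theorem vitali_bc {μ : Measure α} {x : α → ℂ} (hx : Measurable x) {F : ℂ → ℝ} {G : α → ℝ}
    {S W : Set ℂ} {T : Set α} {r₀ : ℝ} (hF0 : ∀ y, 0 ≤ F y) (hG0 : ∀ a, 0 ≤ G a)
    (hF : IntegrableOn F W) (hG : IntegrableOn G T μ)
    (h : ∀ v ∈ S, ∃ r, 0 < r ∧ r ≤ r₀ ∧ ball v (6 * r) ⊆ W ∧ x ⁻¹' ball v r ⊆ T ∧
      ∫ y in ball v (6 * r), F y ≤ ∫ a in x ⁻¹' ball v r, G a ∂μ) :
    ∃ B : Set ℂ, MeasurableSet B ∧ S ⊆ B ∧ B ⊆ W ∧ ∫ y in B, F y ≤ ∫ a in T, G a ∂μ := by
  classical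
  choose! r hr0 hr1 hrW hrT hrI using h
  obtain ⟨u, huS, hud, hcov⟩ :=
    Vitali.exists_disjoint_subfamily_covering_enlargement_closedBall S (fun x => x) r r₀ hr1 5
      (by norm_num)
  have hud' : u.PairwiseDisjoint fun a => ball a (r a) :=
    hud.mono fun _ => ball_subset_closedBall
  have hud'' : u.PairwiseDisjoint fun a => x ⁻¹' ball a (r a) :=
    fun a ha b hb hab => (hud' ha hb hab).preimage x
  have huc : u.Countable :=
    hud'.countable_of_isOpen (fun _ _ => isOpen_ball) fun a ha => nonempty_ball.2 (hr0 a (huS ha))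
  have : Countable u := huc.to_subtype
  have hsub : S ⊆ ⋃ b : u, ball (b : ℂ) (6 * r b) := by
    intro a ha
    obtain ⟨b, hb, hab⟩ := hcov a ha
    refine mem_iUnion.2 ⟨⟨b, hb⟩, ?_⟩
    have h1 : a ∈ closedBall b (5 * r b) := hab (mem_closedBall_self (hr0 a ha).le)
    exact closedBall_subset_ball (by linarith [hr0 b (huS hb)]) h1
  have hBW : (⋃ b : u, ball (b : ℂ) (6 * r b)) ⊆ W :=
    iUnion_subset fun b => hrW b (huS b.2)
  refine ⟨⋃ b : u, ball (b : ℂ) (6 * r b), (isOpen_iUnion fun _ => isOpen_ball).measurableSet,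
    hsub, hBW, ?_⟩
  have key : ∫⁻ y in ⋃ b : u, ball (b : ℂ) (6 * r b), ENNReal.ofReal (F y) ≤
      ∫⁻ a in T, ENNReal.ofReal (G a) ∂μ := by
    calc ∫⁻ y in ⋃ b : u, ball (b : ℂ) (6 * r b), ENNReal.ofReal (F y)
        ≤ ∑' b : u, ∫⁻ y in ball (b : ℂ) (6 * r b), ENNReal.ofReal (F y) :=
          lintegral_iUnion_le _ _
      _ ≤ ∑' b : u, ∫⁻ a in x ⁻¹' ball (b : ℂ) (r b), ENNReal.ofReal (G a) ∂μ := by
          refine ENNReal.tsum_le_tsum fun b => ?_
          have hFi : IntegrableOn F (ball (b : ℂ) (6 * r b)) := hF.mono_set (hrW b (huS b.2))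
          have hGi : IntegrableOn G (x ⁻¹' ball (b : ℂ) (r b)) μ := hG.mono_set (hrT b (huS b.2))
          rw [← ofReal_integral_eq_lintegral_ofReal hFi (Eventually.of_forall hF0),
            ← ofReal_integral_eq_lintegral_ofReal hGi (Eventually.of_forall hG0)]
          exact ENNReal.ofReal_le_ofReal (hrI b (huS b.2))
      _ = ∫⁻ a in ⋃ b ∈ u, x ⁻¹' ball b (r b), ENNReal.ofReal (G a) ∂μ :=
          (lintegral_biUnion huc (fun _ _ => hx measurableSet_ball) hud'' _).symm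
      _ ≤ ∫⁻ a in T, ENNReal.ofReal (G a) ∂μ :=
          lintegral_mono_set (iUnion₂_subset fun b hb => hrT b (huS hb))
  rw [integral_eq_lintegral_of_nonneg_ae (Eventually.of_forall hF0)
      (hF.mono_set hBW).aestronglyMeasurable,
    integral_eq_lintegral_of_nonneg_ae (Eventually.of_forall hG0) hG.aestronglyMeasurable]
  refine ENNReal.toReal_mono ?_ key
  rw [← ofReal_integral_eq_lintegral_ofReal hG (Eventually.of_forall hG0)]
  exact ENNReal.ofReal_ne_top

omit [FiniteDimensional ℝ H] [MeasurableSpace H] [BorelSpace H] in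
theorem cyl_eq_bc (D : CD α H) (v : ℂ) (r : ℝ) : D.cyl v r = D.x ⁻¹' ball v r := by
  ext a
  simp [CD.cyl, mem_ball, dist_eq_norm]

omit [FiniteDimensional ℝ H] [MeasurableSpace H] [BorelSpace H] in
theorem cyl_sub_bc (D : CD α H) {u v : ℂ} {r s : ℝ} (h : ‖v - u‖ + r ≤ s) :
    D.cyl v r ⊆ D.cyl u s := by
  intro a ha
  have h1 : ‖D.x a - v‖ < r := ha
  have h2 : ‖D.x a - u‖ ≤ ‖D.x a - v‖ + ‖v - u‖ := norm_sub_le_norm_sub_add_norm_sub _ _ _
  show ‖D.x a - u‖ < s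
  linarith

theorem T_mono_bc {D : CD α H} {c : ℂ} {R δ M : ℝ} (h : CV D c R δ M) {u v : ℂ} {r s : ℝ}
    (hs : ‖v - u‖ + r ≤ s) : D.T v r ≤ D.T u s := by
  refine setIntegral_mono_set h.integrable_t.1.integrableOn ?_ (cyl_sub_bc D hs).eventuallyLE
  refine ae_restrict_of_ae ?_
  filter_upwards [h.ae_G] with a ha using (h.pw a ha).t_nonneg

theorem T_le_bc {D : CD α H} {c : ℂ} {R δ M : ℝ} (h : CV D c R δ M) (v : ℂ) (r : ℝ) {ε : ℝ}
    (hε : 0 < ε) :
    D.T v r ≤ ε * D.m.real (D.cyl v r) + (∫ a in D.cyl v r, D.t a ^ 2 ∂D.m) / (4 * ε) := by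
  have := h.fin
  have h2 : IntegrableOn (fun a => D.t a ^ 2) (D.cyl v r) D.m := h.integrable_t.2.1.integrableOn
  have h1 : D.T v r ≤ ∫ a in D.cyl v r, (ε + D.t a ^ 2 / (4 * ε)) ∂D.m := by
    refine integral_mono h.integrable_t.1.integrableOn
      ((integrable_const ε).add (h2.div_const _)) fun a => ?_
    have e : ε + D.t a ^ 2 / (4 * ε) - D.t a = (D.t a - 2 * ε) ^ 2 / (4 * ε) := by
      field_simp; ring
    have : 0 ≤ (D.t a - 2 * ε) ^ 2 / (4 * ε) := by positivity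
    show D.t a ≤ ε + D.t a ^ 2 / (4 * ε)
    linarith
  rw [integral_add (integrable_const ε) (h2.div_const _), integral_div, setIntegral_const,
    smul_eq_mul, mul_comm] at h1
  exact h1

theorem intN_bc {D : CD α H} {c : ℂ} {R δ M : ℝ} {N : ℂ → ℕ} (hN : IsMult D.m D.x D.j N)
    (h : CV D c R δ M) : Integrable fun v => (N v : ℝ) := by
  have := (hN.integral h (f := fun _ => 1) measurable_const (B := 1) (fun _ => by simp)).1
  simpa using this

theorem ballN_bc {D : CD α H} {c : ℂ} {R δ M : ℝ} {N : ℂ → ℕ} (hN : IsMult D.m D.x D.j N)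
    (h : CV D c R δ M) (v : ℂ) {r : ℝ} (hr : 0 < r) :
    ∫ y in ball v r, ((N y : ℝ) + 1) ≤ 2 * D.m.real (D.cyl v r) + 4 * r ^ 2 := by
  have := h.fin
  have : IsFiniteMeasure ((volume : Measure ℂ).restrict (ball v r)) :=
    ⟨by rw [Measure.restrict_apply_univ]; exact measure_ball_lt_top⟩
  have hj : Integrable D.j D.m := h.integrable h.m_j.aestronglyMeasurable 2 fun a ha _ => by
    rw [Real.norm_eq_abs, abs_of_nonneg (h.pw a ha).j_nonneg]; exact (h.pw a ha).j_le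
  have h1 : ∫ a in D.cyl v r, D.j a ∂D.m ≤ ∫ _ in D.cyl v r, (2 : ℝ) ∂D.m := by
    refine integral_mono_ae hj.integrableOn (integrable_const _) (ae_restrict_of_ae ?_)
    filter_upwards [h.ae_G] with a ha using (h.pw a ha).j_le
  rw [setIntegral_const, smul_eq_mul] at h1
  rw [integral_add (intN_bc hN h).integrableOn (integrable_const _), ← hN.setIntegral h,
    setIntegral_const, smul_eq_mul, mul_one]
  have h2 : (volume : Measure ℂ).real (ball v r) = Real.pi * r ^ 2 := by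
    rw [measureReal_def, Complex.volume_ball, ENNReal.toReal_mul, ENNReal.toReal_pow,
      ENNReal.toReal_ofReal hr.le, ENNReal.coe_toReal, NNReal.coe_real_pi, mul_comm]
  rw [h2]
  nlinarith [Real.pi_le_four, sq_nonneg r]

theorem bad_cover (M A : ℝ) : ∃ lam₀ : ℝ, 0 < lam₀ ∧ ∃ δ₀ : ℝ, 0 < δ₀ ∧ ∃ C : ℝ, 0 < C ∧
    ∀ (D : CD α H) (c : ℂ) (R δ : ℝ), CV D c R δ M → δ ≤ δ₀ → ∀ (N : ℂ → ℕ) (u : ℂ) (σ lam : ℝ),
    IsMult D.m D.x D.j N → 0 < σ → 0 < lam → lam ≤ lam₀ → ‖u - c‖ + 8 * σ ≤ R →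
    D.T u (8 * σ) ≤ lam * σ ^ 2 / 100 → D.m.real (D.cyl u (8 * σ)) ≤ A * σ ^ 2 →
    ∃ B : Set ℂ, MeasurableSet B ∧
      (∀ v ∈ ball u σ, v ∉ B → ∀ r, 0 < r → r ≤ 4 * σ → D.T v r ≤ lam * r ^ 2) ∧
      IntegrableOn (fun v => (N v : ℝ) + 1) B ∧
      ∫ v in B, ((N v : ℝ) + 1) ≤ C / lam ^ 2 * ∫ a in D.cyl u (8 * σ), D.t a ^ 2 ∂D.m := by
  obtain ⟨lam₀, hlam₀, δ₀, hδ₀, hmono⟩ :=
    cyl_mono (α := α) (H := H) (κ := 1 / 2) (by norm_num) le_rfl M A
  obtain ⟨K, hK⟩ : ∃ K : ℝ, K = 3 / 2 * |A| + 1 / 2 := ⟨_, rfl⟩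
  have hK0 : 0 < K := by rw [hK]; positivity
  refine ⟨lam₀, hlam₀, δ₀, hδ₀, (72 * K + 144) * (36 * K), by positivity, ?_⟩
  intro D c R δ h hδ N u σ lam hN hσ hlam hlam1 hR hT hA
  have := h.fin
  have : IsFiniteMeasure ((volume : Measure ℂ).restrict (ball u (2 * σ))) :=
    ⟨by rw [Measure.restrict_apply_univ]; exact measure_ball_lt_top⟩
  have hF : IntegrableOn (fun v => (N v : ℝ) + 1) (ball u (2 * σ)) :=
    (intN_bc hN h).integrableOn.add (integrable_const _)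
  have hC0 : 0 ≤ (72 * K + 144) * (36 * K) / lam ^ 2 := by positivity
  have hG : IntegrableOn (fun a => (72 * K + 144) * (36 * K) / lam ^ 2 * D.t a ^ 2)
      (D.cyl u (8 * σ)) D.m := (h.integrable_t.2.1.const_mul _).integrableOn
  obtain ⟨B, hBm, hSB, hBW, hI⟩ := vitali_bc (μ := D.m) h.m_x
    (S := {v | v ∈ ball u σ ∧ ∃ r, 0 < r ∧ r ≤ 4 * σ ∧ lam * r ^ 2 < D.T v r}) (r₀ := σ)
    (fun y => by positivity) (fun a => by positivity) hF hG (by
      rintro v ⟨hv, r₁, hr₁⟩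
      have hvu : ‖v - u‖ < σ := by rwa [mem_ball, dist_eq_norm] at hv
      set S : Set ℝ := {r | 0 < r ∧ r ≤ 4 * σ ∧ lam * r ^ 2 < D.T v r} with hS
      have hne : S.Nonempty := ⟨r₁, hr₁⟩
      have hbd : BddAbove S := ⟨4 * σ, fun r hr => hr.2.1⟩
      have hs0 : 0 < sSup S := hr₁.1.trans_le (le_csSup hbd hr₁)
      obtain ⟨r, ⟨hr0, hr4, hrT⟩, hrs⟩ := exists_lt_of_lt_csSup hne (half_lt_self hs0)
      have hr10 : 10 * r < σ := by
        have h1 : D.T v r ≤ D.T u (8 * σ) := T_mono_bc h (by linarith)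
        have h2 : lam * (10 * r) ^ 2 < lam * σ ^ 2 := by nlinarith
        exact lt_of_pow_lt_pow_left₀ 2 hσ.le (lt_of_mul_lt_mul_left h2 hlam.le)
      have hgood : ∀ s, 6 * r ≤ s → s ≤ 4 * σ → D.T v s ≤ lam₀ * s ^ 2 := by
        intro s h6 h4
        have h1 : D.T v s ≤ lam * s ^ 2 := by
          by_contra hc
          have : s ≤ sSup S := le_csSup hbd ⟨by linarith, h4, not_le.1 hc⟩
          linarith
        exact h1.trans (mul_le_mul_of_nonneg_right hlam1 (sq_nonneg _))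
      have hvc : ‖v - c‖ ≤ ‖v - u‖ + ‖u - c‖ := norm_sub_le_norm_sub_add_norm_sub _ _ _
      have hm : ∀ s, s ≤ 4 * σ → D.m.real (D.cyl v s) ≤ A * σ ^ 2 := fun s hs =>
        (measureReal_mono (cyl_sub_bc D (by linarith))).trans hA
      have hc := hmono D c R δ h hδ v (6 * r) σ (by linarith) (by linarith) (by linarith) hgood
        (hm _ le_rfl)
      have hm6 : D.m.real (D.cyl v (6 * r)) ≤ 36 * K * r ^ 2 := by
        have h1 : (1 + 1 / 2) * D.m.real (D.cyl v ((1 + 1 / 2) * σ)) / σ ^ 2 ≤ 3 / 2 * |A| := by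
          rw [div_le_iff₀ (by positivity)]
          have h2 := hm ((1 + 1 / 2) * σ) (by linarith)
          have h3 : A * σ ^ 2 ≤ |A| * σ ^ 2 :=
            mul_le_mul_of_nonneg_right (le_abs_self A) (sq_nonneg _)
          linarith
        have h4 : D.m.real (D.cyl v (6 * r)) / (6 * r) ^ 2 ≤ K := by rw [hK]; linarith
        rw [div_le_iff₀ (by positivity)] at h4
        linarith
      have hm1 : D.m.real (D.cyl v r) ≤ 36 * K * r ^ 2 :=
        (measureReal_mono (cyl_sub_bc D (by rw [sub_self, norm_zero]; linarith))).trans hm6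
      refine ⟨r, hr0, by linarith, ?_, ?_, ?_⟩
      · refine ball_subset_ball' ?_
        rw [dist_eq_norm]; linarith
      · rw [← cyl_eq_bc]
        exact cyl_sub_bc D (by linarith)
      · rw [← cyl_eq_bc, integral_const_mul]
        set I := ∫ a in D.cyl v r, D.t a ^ 2 ∂D.m with hI
        have h1 := T_le_bc h v r (ε := lam / (72 * K)) (by positivity)
        rw [← hI] at h1
        have h2 : lam / (72 * K) * D.m.real (D.cyl v r) ≤ lam * r ^ 2 / 2 := by
          calc lam / (72 * K) * D.m.real (D.cyl v r) ≤ lam / (72 * K) * (36 * K * r ^ 2) :=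
                mul_le_mul_of_nonneg_left hm1 (by positivity)
            _ = lam * r ^ 2 / 2 := by field_simp; ring
        have h3 : I / (4 * (lam / (72 * K))) = 18 * K * I / lam := by field_simp; ring
        have h4 : lam * r ^ 2 / 2 ≤ 18 * K * I / lam := by linarith
        rw [le_div_iff₀ hlam] at h4
        have h5 : r ^ 2 ≤ 36 * K / lam ^ 2 * I := by
          rw [div_mul_eq_mul_div, le_div_iff₀ (by positivity)]
          linarith
        have h6 := ballN_bc hN h v (r := 6 * r) (by linarith)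
        calc ∫ y in ball v (6 * r), ((N y : ℝ) + 1) ≤ (72 * K + 144) * r ^ 2 := by linarith
          _ ≤ (72 * K + 144) * (36 * K / lam ^ 2 * I) :=
              mul_le_mul_of_nonneg_left h5 (by positivity)
          _ = (72 * K + 144) * (36 * K) / lam ^ 2 * I := by ring)
  refine ⟨B, hBm, fun v hv hvB r hr0 hr4 => ?_, hF.mono_set hBW, ?_⟩
  · by_contra hc
    exact hvB (hSB ⟨hv, r, hr0, hr4, not_le.1 hc⟩)
  · rwa [integral_const_mul] at hI

end Pool.Agent.Lib.MP_8daebb_an.SV
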