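import Mathlib

/-! Merging and growing discs. -/

open MeasureTheory Metric Filter Topology Set
open scoped RealInnerProductSpace ENNReal ContDiff

namespace Pool.Agent.Lib.MP_8daebb_an.SV

lemma centre_ball {c c' : ℂ} {r r' : ℝ} (hr : 0 < r) (hr' : 0 < r') (h : ‖c - c'‖ ≤ r + r') :
    ∃ m : ℂ, ‖c - m‖ ≤ r' ∧ ‖c' - m‖ ≤ r := by
  have hs : 0 < r + r' := by linarith
  refine ⟨c - (r' / (r + r')) • (c - c'), ?_, ?_⟩
  · rw [sub_sub_cancel, norm_smul, Real.norm_of_nonneg (by positivity), div_mul_eq_mul_div,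
      div_le_iff₀ hs]
    exact mul_le_mul_of_nonneg_left h hr'.le
  · have e : c' - (c - (r' / (r + r')) • (c - c')) = -((1 - r' / (r + r')) • (c - c')) := by
      rw [sub_smul, one_smul]
      abel
    have e2 : 1 - r' / (r + r') = r / (r + r') := by
      field_simp
      ring
    rw [e, e2, norm_neg, norm_smul, Real.norm_of_nonneg (by positivity), div_mul_eq_mul_div,
      div_le_iff₀ hs]
    exact mul_le_mul_of_nonneg_left h hr.le

theorem merge_balls (B : Finset (ℂ × ℝ)) (hpos : ∀ b ∈ B, 0 < b.2) :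
    ∃ B' : Finset (ℂ × ℝ), (∀ b ∈ B', ∀ b' ∈ B', b ≠ b' → b.2 + b'.2 < ‖b.1 - b'.1‖) ∧
      (∀ b ∈ B, ∃ b' ∈ B', ‖b.1 - b'.1‖ + b.2 ≤ b'.2) ∧ (∀ b' ∈ B', ∃ b ∈ B, b.2 ≤ b'.2) ∧
      ∑ b ∈ B', b.2 ≤ ∑ b ∈ B, b.2 ∧ B'.card ≤ B.card ∧
      ((∃ b ∈ B, ∃ b' ∈ B, b ≠ b' ∧ ‖b.1 - b'.1‖ ≤ b.2 + b'.2) → B'.card < B.card) := by
  classical
  induction hn : B.card using Nat.strong_induction_on generalizing B with
  | _ n ih =>
  subst hn
  by_cases hc : ∃ b ∈ B, ∃ b' ∈ B, b ≠ b' ∧ ‖b.1 - b'.1‖ ≤ b.2 + b'.2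
  swap
  · refine ⟨B, fun b hb b' hb' hne => ?_, fun b hb => ⟨b, hb, by simp⟩,
      fun b hb => ⟨b, hb, le_rfl⟩, le_rfl, le_rfl, fun g => absurd g hc⟩
    by_contra g
    exact hc ⟨b, hb, b', hb', hne, not_lt.1 g⟩
  obtain ⟨b, hb, b', hb', hne, hd⟩ := hc
  have p1 := hpos b hb
  have p2 := hpos b' hb'
  obtain ⟨m, m1, m2⟩ := centre_ball p1 p2 hd
  have hb2 : b' ∈ B.erase b := Finset.mem_erase.2 ⟨hne.symm, hb'⟩
  have hsub : ∀ x ∈ (B.erase b).erase b', x ∈ B := fun x hx =>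
    Finset.mem_of_mem_erase (Finset.mem_of_mem_erase hx)
  have hcard : (insert (m, b.2 + b'.2) ((B.erase b).erase b')).card < B.card := by
    have g1 := Finset.card_insert_le (m, b.2 + b'.2) ((B.erase b).erase b')
    have g2 := Finset.card_erase_add_one hb2
    have g3 := Finset.card_erase_add_one hb
    omega
  have hsum : ∑ x ∈ insert (m, b.2 + b'.2) ((B.erase b).erase b'), x.2 ≤ ∑ x ∈ B, x.2 := by
    rw [← Finset.add_sum_erase B _ hb, ← Finset.add_sum_erase _ _ hb2]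
    by_cases g : (m, b.2 + b'.2) ∈ (B.erase b).erase b'
    · rw [Finset.insert_eq_of_mem g]
      linarith
    · rw [Finset.sum_insert g]
      linarith
  obtain ⟨B', h1, h2, h3, h4, h5, -⟩ := ih _ hcard _ (fun x hx => by
    rcases Finset.mem_insert.1 hx with rfl | hx
    · exact add_pos p1 p2
    · exact hpos x (hsub x hx)) rfl
  refine ⟨B', h1, fun x hx => ?_, fun x hx => ?_, h4.trans hsum, by omega, fun _ => by omega⟩
  · obtain ⟨z, hz, hz2⟩ := h2 _ (Finset.mem_insert_self _ _)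
    have g := norm_sub_le_norm_sub_add_norm_sub x.1 m z.1
    simp only at hz2
    by_cases g1 : x = b
    · subst g1
      exact ⟨z, hz, by linarith⟩
    by_cases g2 : x = b'
    · subst g2
      exact ⟨z, hz, by linarith⟩
    exact h2 x (Finset.mem_insert_of_mem
      (Finset.mem_erase.2 ⟨g2, Finset.mem_erase.2 ⟨g1, hx⟩⟩))
  · obtain ⟨z, hz, hz2⟩ := h3 x hx
    rcases Finset.mem_insert.1 hz with rfl | hz
    · exact ⟨b, hb, le_trans (by simp only; linarith) hz2⟩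
    · exact ⟨z, hsub z hz, hz2⟩

lemma lip_line_ball {ι : Type*} (A : ι → Set ℝ) {g : ℝ → ℂ} {K : ℝ} (s : Finset ι) :
    (∀ i ∈ s, IsClosed (A i)) →
    (∀ i ∈ s, ∀ a ∈ A i, ∀ b ∈ A i, a ≤ b → ‖g a - g b‖ ≤ K * (b - a)) →
    ∀ a ≤ 1, (∀ t ∈ Icc a 1, ∃ i ∈ s, t ∈ A i) → ‖g a - g 1‖ ≤ K * (1 - a) := by
  classical
  induction s using Finset.strongInduction with
  | H s ih =>
  intro hA hK a ha hc
  obtain ⟨i, hi, hai⟩ := hc a ⟨le_rfl, ha⟩
  obtain ⟨b, ⟨⟨b1, b2⟩, b3⟩, hb⟩ := (isCompact_Icc.inter_right (hA i hi)).exists_isGreatest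
    (⟨a, ⟨le_rfl, ha⟩, hai⟩ : (Icc a 1 ∩ A i).Nonempty)
  have h1 := hK i hi a hai b b3 b1
  rcases b2.eq_or_lt with rfl | b2'
  · exact h1
  have hcl : IsClosed (⋃ j ∈ s.erase i, A j) :=
    isClosed_biUnion_finset fun j hj => hA j (Finset.mem_of_mem_erase hj)
  have hsub : Ioc b 1 ⊆ ⋃ j ∈ s.erase i, A j := by
    intro t ht
    obtain ⟨j, hj, htj⟩ := hc t ⟨b1.trans ht.1.le, ht.2⟩
    refine mem_biUnion (Finset.mem_coe.2 (Finset.mem_erase.2 ⟨?_, hj⟩)) htj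
    rintro rfl
    exact absurd (hb ⟨⟨b1.trans ht.1.le, ht.2⟩, htj⟩) (not_le.2 ht.1)
  have hsub2 := hcl.closure_subset_iff.2 hsub
  rw [closure_Ioc b2'.ne] at hsub2
  have h2 := ih (s.erase i) (Finset.erase_ssubset hi)
    (fun j hj => hA j (Finset.mem_of_mem_erase hj))
    (fun j hj => hK j (Finset.mem_of_mem_erase hj)) b b2 fun t ht => by
      obtain ⟨j, hj, htj⟩ := mem_iUnion₂.1 (hsub2 ht)
      exact ⟨j, hj, htj⟩
  have h3 := norm_sub_le_norm_sub_add_norm_sub (g a) (g b) (g 1)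
  linarith

theorem lip_of_cover {ι : Type*} (s : Finset ι) (A : ι → Set ℂ) (hA : ∀ i ∈ s, IsClosed (A i))
    (hc : ∀ u, ∃ i ∈ s, u ∈ A i) {f : ℂ → ℂ} {K : ℝ}
    (hK : ∀ i ∈ s, ∀ u ∈ A i, ∀ v ∈ A i, ‖f u - f v‖ ≤ K * ‖u - v‖) (u v : ℂ) :
    ‖f u - f v‖ ≤ K * ‖u - v‖ := by
  have h := lip_line_ball (fun i => (fun t : ℝ => u + t • (v - u)) ⁻¹' A i)
    (g := fun t => f (u + t • (v - u))) (K := K * ‖u - v‖) s
    (fun i hi => (hA i hi).preimage (by fun_prop)) (fun i hi a ha b hb hab => by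
      refine (hK i hi _ ha _ hb).trans (le_of_eq ?_)
      have e : u + a • (v - u) - (u + b • (v - u)) = (b - a) • (u - v) := by
        simp only [sub_smul, smul_sub]
        abel
      rw [e, norm_smul, Real.norm_of_nonneg (sub_nonneg.2 hab)]
      ring) 0 zero_le_one fun t _ => hc _
  simpa using h

end Pool.Agent.Lib.MP_8daebb_an.SV
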