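import Pool.Agent.Lib.MP_8daebb_an.Setting

/-! The abstract chart varifold: base point `x` in the plane, height vector `y`, tilt `t`. -/

open MeasureTheory Metric Filter Topology Set
open scoped RealInnerProductSpace ENNReal ContDiff

namespace Pool.Agent.Lib.MP_8daebb_an.SV

/-- The data of a chart varifold. -/
structure CD (α : Type*) [MeasurableSpace α] (H : Type*) [NormedAddCommGroup H]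
    [InnerProductSpace ℝ H] where
  m : Measure α
  G : Set α
  x : α → ℂ
  y : α → H
  pos : α → H
  Pl : α → H →L[ℝ] H
  t : α → ℝ
  j : α → ℝ
  τ : α → ℂ →L[ℝ] ℂ
  b : α → ℂ →L[ℝ] H
  q : α → H →L[ℝ] ℂ
  g : α → H →L[ℝ] H
  L : α → H
  eh : α → ℂ
  w : ℂ → ℝ

variable {α : Type*} [MeasurableSpace α] {H : Type*} [NormedAddCommGroup H]
  [InnerProductSpace ℝ H] [FiniteDimensional ℝ H] [MeasurableSpace H] [BorelSpace H]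

/-- Trace of a real linear map of the plane. -/
noncomputable def tr2 (A : ℂ →L[ℝ] ℂ) : ℝ := (A 1).re + (A Complex.I).im

/-- Trace of a linear map of `H`. -/
noncomputable def trH (A : H →L[ℝ] H) : ℝ := LinearMap.trace ℝ H (A : H →ₗ[ℝ] H)

/-- Pointwise inequalities. -/
structure PW (D : CD α H) (δ : ℝ) (a : α) : Prop where
  x_le : ‖D.x a‖ ≤ 2
  y_le : ‖D.y a‖ ≤ δ
  pos_le : ‖D.pos a‖ ≤ 4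
  t_nonneg : 0 ≤ D.t a
  t_le : D.t a ≤ 2
  plane : IsPlane 2 (D.Pl a)
  tr_τ : tr2 (D.τ a) = D.t a
  τ_le : ‖D.τ a‖ ≤ 2 * D.t a
  τ_pos : ∀ v : ℂ, -(δ * ‖D.y a‖ * D.t a * ‖v‖ ^ 2) ≤ D.w (D.x a) * ⟪D.τ a v, v⟫
  hopf : ∀ v u : ℂ, |D.w (D.x a) * ⟪D.τ a v, u⟫ - ⟪D.b a v, D.b a u⟫| ≤
    (2 * D.t a ^ 2 + δ * (‖D.y a‖ * D.t a + ‖D.y a‖ ^ 2)) * ‖v‖ * ‖u‖
  rad : ∀ v : ℂ, ⟪D.y a, D.b a v⟫ ^ 2 ≤
    ‖D.y a‖ ^ 2 * (D.w (D.x a) * ⟪D.τ a v, v⟫ + δ * ‖D.y a‖ * D.t a * ‖v‖ ^ 2)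
  qb : ∀ (e : H) (v : ℂ), |⟪D.q a e, v⟫ - ⟪D.b a v, e⟫| ≤
    δ * ‖D.y a‖ * (√(D.t a) + ‖D.y a‖) * ‖e‖ * ‖v‖
  b_le : ‖D.b a‖ ≤ 2 * √(D.t a) + δ * ‖D.y a‖
  bg : ∀ e : H, ⟪D.b a 1, e⟫ ^ 2 + ⟪D.b a Complex.I, e⟫ ^ 2 ≤ (1 + δ * ‖D.y a‖) * ⟪D.g a e, e⟫
  g_le : ∀ e : H, ⟪D.g a e, e⟫ ≤ 4 * (D.t a + ‖D.y a‖ ^ 2) * ‖e‖ ^ 2
  g_norm : ‖D.g a‖ ≤ 4
  sq : D.t a ^ 2 / 4 ≤ (1 + δ * ‖D.y a‖) * trH (D.g a) - ‖D.b a 1‖ ^ 2 - ‖D.b a Complex.I‖ ^ 2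
  trg : |trH (D.g a) + ⟪D.L a, D.y a⟫ - D.w (D.x a) * D.t a| ≤
    δ * (‖D.y a‖ ^ 2 + ‖D.y a‖ * D.t a)
  L_le : ‖D.L a‖ ≤ δ * (√(D.t a) + ‖D.y a‖)
  eh_le : ‖D.eh a‖ ≤ δ * (D.t a + ‖D.y a‖ ^ 2)
  j_nonneg : 0 ≤ D.j a
  j_le : D.j a ≤ 2
  j_t : |2 - D.t a - 2 * D.j a| ≤ D.t a ^ 2 + δ * ‖D.y a‖ ^ 2

/-- Test functions over the disc `ball c R`. -/
def Test (c : ℂ) (R : ℝ) (φ : ℂ × H → ℝ) : Prop :=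
  ContDiffOn ℝ 1 φ (ball c R ×ˢ univ) ∧ ∃ R' < R, ∀ u : ℂ × H, R' ≤ ‖u.1 - c‖ → φ u = 0

/-- `N` is the integer multiplicity of the projection `x` with Jacobian `j`. -/
def IsMult (m : Measure α) (x : α → ℂ) (j : α → ℝ) (N : ℂ → ℕ) : Prop :=
  Measurable N ∧ ∀ f : ℂ → ℝ≥0∞, Measurable f →
    ∫⁻ a, f (x a) * ENNReal.ofReal (j a) ∂m = ∫⁻ u, f u * (N u : ℝ≥0∞)

namespace CD

/-- Restriction of the measure. -/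
noncomputable def res (D : CD α H) (Z : Set α) : CD α H := { D with m := D.m.restrict Z }

/-- Cylinder over a disc. -/
def cyl (D : CD α H) (c : ℂ) (σ : ℝ) : Set α := {a | ‖D.x a - c‖ < σ}

/-- Restriction to the cylinder over a disc. -/
noncomputable def resB (D : CD α H) (c : ℂ) (σ : ℝ) : CD α H := D.res (D.cyl c σ)

/-- Box: cylinder of radius `σ` cut at height distance `η` from `y₀`. -/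
def box (D : CD α H) (c : ℂ) (y₀ : H) (σ η : ℝ) : Set α := {a | ‖D.x a - c‖ < σ ∧ ‖D.y a - y₀‖ < η}

/-- Ball in the ambient space. -/
def pb (D : CD α H) (p : H) (σ : ℝ) : Set α := {a | ‖D.pos a - p‖ < σ}

/-- Energy density: tilt plus squared height. -/
def en (D : CD α H) (a : α) : ℝ := D.t a + ‖D.y a‖ ^ 2

/-- Tilt in a cylinder. -/
noncomputable def T (D : CD α H) (c : ℂ) (σ : ℝ) : ℝ := ∫ a in D.cyl c σ, D.t a ∂D.m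

/-- Energy in a cylinder. -/
noncomputable def En (D : CD α H) (c : ℂ) (σ : ℝ) : ℝ := ∫ a in D.cyl c σ, D.en a ∂D.m

/-- Upper density at least `ϑ` (normalised by `σ^2`) at the point `a`. -/
def Den (D : CD α H) (ϑ : ℝ) (a : α) : Prop :=
  ∃ᶠ σ in 𝓝[>] (0 : ℝ), ϑ * σ ^ 2 ≤ D.m.real (D.pb (D.pos a) σ)

end CD

/-- A chart varifold over the disc `ball c R`. -/
structure CV (D : CD α H) (c : ℂ) (R δ M : ℝ) : Prop where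
  fin : IsFiniteMeasure D.m
  m_x : Measurable D.x
  m_y : Measurable D.y
  m_pos : Measurable D.pos
  m_Pl : Measurable D.Pl
  m_t : Measurable D.t
  m_j : Measurable D.j
  m_τ : Measurable D.τ
  m_b : Measurable D.b
  m_q : Measurable D.q
  m_g : Measurable D.g
  m_L : Measurable D.L
  m_eh : Measurable D.eh
  m_w : Measurable D.w
  R_pos : 0 < R
  R_le : R ≤ 2
  δ_nonneg : 0 ≤ δ
  car : ∀ᵐ a ∂D.m, D.x a ∈ ball c R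
  ae_G : ∀ᵐ a ∂D.m, a ∈ D.G
  pw : ∀ a ∈ D.G, PW D δ a
  geo : ∀ a ∈ D.G, ∀ a' ∈ D.G,
    |‖D.pos a - D.pos a'‖ ^ 2 - ‖D.x a - D.x a'‖ ^ 2 - ‖D.y a - D.y a'‖ ^ 2| ≤
      δ * ‖D.x a - D.x a'‖ ^ 2
  w_diff : ContDiffOn ℝ 1 D.w (ball c R)
  w_le : ∀ u ∈ ball c R, |D.w u - 1| ≤ δ ∧ ‖fderiv ℝ D.w u‖ ≤ δ
  hor : ∀ φ : ℂ × H → ℝ, Test c R φ → ∀ v : ℂ,
    ∫ a, (fderiv ℝ φ (D.x a, D.y a) (v - D.τ a v, D.b a v) +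
      φ (D.x a, D.y a) * ⟪D.eh a, v⟫) ∂D.m = 0
  ver : ∀ φ : ℂ × H → ℝ, Test c R φ → ∀ e : H,
    ∫ a, (fderiv ℝ φ (D.x a, D.y a) (D.q a e, D.g a e) +
      φ (D.x a, D.y a) * ⟪D.L a, e⟫) ∂D.m = 0
  amb : ∀ φ : ℂ × H → ℝ, Test c R φ → ∀ X : H → H, ContDiff ℝ 1 X →
    (∀ᵐ a ∂D.m, X (D.pos a) ≠ 0 → fderiv ℝ φ (D.x a, D.y a) = 0) →
    ∫ a, φ (D.x a, D.y a) * D.w (D.x a) * tanDiv X (D.pos a, D.Pl a) ∂D.m = 0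
  area : ∀ Z : Set α, MeasurableSet Z → ∃ N : ℂ → ℕ, IsMult (D.m.restrict Z) D.x D.j N
  ld : ∀ᵐ a ∂D.m, D.Den (4 / 3) a
  ub : ∀ (u : ℂ) (y₀ : H) (σ : ℝ), 0 < σ → D.m.real (D.box u y₀ σ σ) ≤ M * σ ^ 2

/-- The unit bump. -/
noncomputable def bump0 : ContDiffBump (0 : ℂ) := ⟨1 / 2, 1, by norm_num, by norm_num⟩

/-- The mollifier at scale `ρ`. -/
noncomputable def kr (ρ : ℝ) (u : ℂ) : ℝ := (ρ ^ 2)⁻¹ * bump0.normed volume ((ρ⁻¹ : ℝ) • u)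

/-- Local average at scale `ρ` around `u` of a function on the varifold. -/
noncomputable def CD.av {F : Type*} [NormedAddCommGroup F] [NormedSpace ℝ F] (D : CD α H) (ρ : ℝ)
    (f : α → F) (u : ℂ) : F := ∫ a, kr ρ (u - D.x a) • f a ∂D.m

/-- Smallness: heights at most `s^2`, energy at most `s^4`, and `s ≤ ρ^5`. -/
structure Sm (D : CD α H) (s ρ : ℝ) : Prop where
  s_pos : 0 < s
  ρ_pos : 0 < ρ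
  s_le : s ≤ ρ ^ 5
  y_le : ∀ᵐ a ∂D.m, ‖D.y a‖ ≤ s ^ 2
  en_le : ∫ a, D.en a ∂D.m ≤ s ^ 4

/-- The multiplicity is `Q` up to the fourth power of the tilt angle. -/
structure MQ (D : CD α H) (c : ℂ) (R ρ CI : ℝ) (Q : ℕ) (N : ℂ → ℕ) : Prop where
  mult : IsMult D.m D.x D.j N
  near : ∀ u : ℂ, ‖u - c‖ + 8 * ρ ≤ R →
    ∫ v in ball u ρ, |(N v : ℝ) - Q| ≤ CI * ∫ a in D.cyl u (8 * ρ), D.t a ^ 2 ∂D.m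

/-- All the standing assumptions of the coarse-grained analysis over `ball 0 R`. -/
structure MS (D : CD α H) (R δ M s ρ CI : ℝ) (Q : ℕ) (N : ℂ → ℕ) : Prop where
  cv : CV D 0 R δ M
  sm : Sm D s ρ
  mq : MQ D 0 R ρ CI Q N
  Q_pos : 1 ≤ Q

/-- Two charts of the same varifold are `ε`-close over `ball 0 R'`. -/
structure Cmp (D D' : CD α H) (R' ε : ℝ) : Prop where
  le : D'.m ≤ ENNReal.ofReal (1 + ε) • D.m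
  ge : D.m.restrict (D.cyl 0 (R' - ε)) ≤ ENNReal.ofReal (1 + ε) • D'.m
  near : ∀ᵐ a ∂D'.m, ‖D'.x a - D.x a‖ ≤ ε ∧ ‖D'.y a - D.y a‖ ≤ ε ∧
    |√(D'.t a) - √(D.t a)| ≤ ε ∧ |D'.w (D'.x a) - D.w (D.x a)| ≤ ε

/-- A system of charts of one varifold, indexed by centres. `Adm c ε R`: the centre `c` is
`ε`-flat over `ball 0 R`. -/
structure Sys {C : Type*} (Adm : C → ℝ → ℝ → Prop) (ch : C → ℝ → CD α H)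
    (M θ δ ε₁ εB δ₂ CI : ℝ) (Q : ℕ) (CN cN : ℝ) : Prop where
  θ_ge : 2 / 5 ≤ θ
  adm_mono : ∀ c ε ε' R, Adm c ε R → ε ≤ ε' → Adm c ε' R
  cv : ∀ c ε R, Adm c ε R → ε ≤ 3 * ε₁ → 0 < R → R ≤ 2 → CV (ch c R) 0 R δ M
  flat : ∃ c, Adm c 0 2 ∧ CV (ch c 2) 0 2 δ₂ M
  mass : ∀ c ε R σ, Adm c ε R → ε ≤ 3 * ε₁ → R ≤ 2 → 0 < σ → σ ≤ R → σ ≤ 1 →
    (∀ᵐ a ∂(ch c R).m, a ∈ (ch c R).cyl 0 σ → ‖(ch c R).y a‖ ≤ cN * σ) →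
    |(ch c R).m.real ((ch c R).cyl 0 σ) - θ * Real.pi * σ ^ 2| ≤ σ ^ 2 / 4
  bad : ∀ c ε R σ, Adm c ε R → ε ≤ 3 * ε₁ → R ≤ 2 → 0 < σ → σ ≤ R → σ ≤ 1 →
    (∀ᵐ a ∂(ch c R).m, a ∈ (ch c R).cyl 0 σ → ‖(ch c R).y a‖ ≤ cN * σ) →
    (ch c R).m.real {a | a ∈ (ch c R).cyl 0 σ ∧ ¬(ch c R).Den ((θ - 1 / 50) * Real.pi) a} ≤
      εB * σ ^ 2
  bad0 : ∀ η > 0, ∃ σ₀ > 0, ∀ c ε R σ, Adm c ε R → ε ≤ 3 * ε₁ → R ≤ 2 → 0 < σ → σ ≤ R → σ ≤ σ₀ →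
    (∀ᵐ a ∂(ch c R).m, a ∈ (ch c R).cyl 0 σ → ‖(ch c R).y a‖ ≤ cN * σ) →
    (ch c R).m.real {a | a ∈ (ch c R).cyl 0 σ ∧ ¬(ch c R).Den ((θ - 1 / 50) * Real.pi) a} ≤
      η * σ ^ 2
  newt : ∀ c ε R R₁ l s ρ β εJ N, Adm c ε R → ε ≤ 3 * ε₁ → R ≤ 2 → R₁ ≤ R →
    MS ((ch c R).resB 0 R₁) R₁ δ M s ρ CI Q N → ρ ≤ cN * l → 16 * l ≤ R₁ →
    (∀ u : ℂ, ‖u‖ ≤ R₁ - l → ‖(ch c R).av ρ (ch c R).y u‖ ≤ β) →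
    CN * (β + s ^ 2 * ρ) / l ^ 6 ≤ εJ → εJ ≤ cN * ρ ^ 2 →
    ∃ c', Adm c' (ε + εJ) (R₁ - 8 * l) ∧ Cmp (ch c R) (ch c' (R₁ - 8 * l)) (R₁ - 8 * l) εJ ∧
      ∀ u : ℂ, ‖u‖ ≤ R₁ - 9 * l →
        ‖(ch c' (R₁ - 8 * l)).av ρ (ch c' (R₁ - 8 * l)).y u‖ ≤
          CN * ρ * (s ^ 2 + εJ) / l ^ 6

end Pool.Agent.Lib.MP_8daebb_an.SV
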