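import Pool.Agent.Lib.MP_8daebb_an.SV.Df2
import Pool.Agent.Lib.MP_8daebb_an.SV.Id
import Pool.Agent.Lib.MP_8daebb_an.SV.Id2
import Pool.Agent.Lib.MP_8daebb_an.SV.Ker2

/-! Caccioppoli inequality. -/

open MeasureTheory Metric Filter Topology Set
open scoped RealInnerProductSpace ENNReal ContDiff

namespace Pool.Agent.Lib.MP_8daebb_an.SV

variable {α : Type*} [MeasurableSpace α] {H : Type*} [NormedAddCommGroup H]
  [InnerProductSpace ℝ H] [FiniteDimensional ℝ H] [MeasurableSpace H] [BorelSpace H]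

omit [FiniteDimensional ℝ H] [MeasurableSpace H] [BorelSpace H] in
theorem PW.qy_cacc {D : CD α H} {δ : ℝ} {a : α} (h : PW D δ a) (h0 : 0 ≤ δ) (hδ : δ ≤ 1 / 10) :
    ‖D.q a (D.y a)‖ ≤ ‖D.y a‖ * (3 * √(D.t a) + ‖D.y a‖) := by
  have hY0 := norm_nonneg (D.y a)
  have hY : ‖D.y a‖ ≤ 1 / 10 := h.y_le.trans hδ
  have hs0 := Real.sqrt_nonneg (D.t a)
  have h1 := h.qb (D.y a) (D.q a (D.y a))
  rw [real_inner_self_eq_norm_sq] at h1
  have h2 : ⟪D.b a (D.q a (D.y a)), D.y a⟫ ≤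
      (2 * √(D.t a) + δ * ‖D.y a‖) * ‖D.q a (D.y a)‖ * ‖D.y a‖ :=
    (real_inner_le_norm _ _).trans (mul_le_mul_of_nonneg_right
      (((D.b a).le_opNorm _).trans (mul_le_mul_of_nonneg_right h.b_le (norm_nonneg _)))
      (norm_nonneg _))
  have h5 := le_abs_self (‖D.q a (D.y a)‖ ^ 2 - ⟪D.b a (D.q a (D.y a)), D.y a⟫)
  have h3 : δ * ‖D.y a‖ ≤ 1 / 10 * ‖D.y a‖ := mul_le_mul_of_nonneg_right hδ hY0
  have h4 : δ * ‖D.y a‖ * (√(D.t a) + ‖D.y a‖) ≤ 1 / 100 * (√(D.t a) + ‖D.y a‖) :=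
    mul_le_mul_of_nonneg_right (by linarith) (by positivity)
  have h7 : 2 * √(D.t a) + δ * ‖D.y a‖ + δ * ‖D.y a‖ * (√(D.t a) + ‖D.y a‖) ≤
      3 * √(D.t a) + ‖D.y a‖ := by linarith
  rcases (norm_nonneg (D.q a (D.y a))).eq_or_lt with h8 | h8
  · rw [← h8]; positivity
  · have h9 := mul_le_mul_of_nonneg_right h7 (mul_nonneg hY0 h8.le)
    have h6 : ‖D.q a (D.y a)‖ * ‖D.q a (D.y a)‖ ≤
        (‖D.y a‖ * (3 * √(D.t a) + ‖D.y a‖)) * ‖D.q a (D.y a)‖ := by nlinarith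
    exact le_of_mul_le_mul_right h6 h8

omit [MeasurableSpace H] [BorelSpace H] in
theorem continuous_trH_cacc : Continuous (trH : (H →L[ℝ] H) → ℝ) := by
  have : (trH : (H →L[ℝ] H) → ℝ) = fun A => ∑ k, ⟪stdOrthonormalBasis ℝ H k,
      A (stdOrthonormalBasis ℝ H k)⟫ :=
    funext fun A => LinearMap.trace_eq_sum_inner _ (stdOrthonormalBasis ℝ H)
  rw [this]
  fun_prop

theorem real_cacc {z d k s Y T : ℝ} (hz0 : 0 ≤ z) (hz1 : z ≤ 1) (hk : 0 ≤ k) (hs : 0 ≤ s)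
    (hY : 0 ≤ Y) (hd : |d| ≤ k * (Y * (3 * s + Y))) (hT : 4 / 5 * s ^ 2 - Y ^ 2 / 10 ≤ T) :
    1 / 2 * (z ^ 2 * s ^ 2) - (45 * k ^ 2 + 2 * k + 1 / 10) * Y ^ 2 ≤ 2 * z * d + z ^ 2 * T := by
  have h1 : -(k * (Y * (3 * s + Y))) ≤ d := (abs_le.1 hd).1
  have h2 := mul_le_mul_of_nonneg_left h1 (show 0 ≤ 2 * z by positivity)
  have h3 := mul_le_mul_of_nonneg_left hT (sq_nonneg z)
  have h4 : z ^ 2 * Y ^ 2 ≤ Y ^ 2 := by
    have : z ^ 2 ≤ 1 := by nlinarith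
    nlinarith [sq_nonneg Y]
  have h5 : z * (k * Y ^ 2) ≤ k * Y ^ 2 := by
    have : 0 ≤ k * Y ^ 2 := by positivity
    nlinarith
  have h6 : 6 * (z * s) * (k * Y) ≤ (z * s) ^ 2 / 5 + 45 * (k * Y) ^ 2 := by
    nlinarith [sq_nonneg (z * s - 15 * (k * Y))]
  nlinarith [sq_nonneg (z * s)]

theorem cacc : ∃ C : ℝ, 0 < C ∧ ∀ (D : CD α H) (c : ℂ) (R δ M : ℝ), CV D c R δ M → δ ≤ 1 / 10 →
    ∀ (u : ℂ) (σ l : ℝ), 0 ≤ σ → 0 < l → ‖u - c‖ + σ + l ≤ R →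
    D.T u σ ≤ C / l ^ 2 * D.J u (σ + l) := by
  obtain ⟨C0, hC0, hcut⟩ := exists_cut
  refine ⟨2 * (45 * C0 ^ 2 + 4 * C0 + 1), by positivity,
    fun D c R δ M h hδ u σ l hσ hl hR => ?_⟩
  obtain ⟨κ, hκ⟩ := hcut σ l hσ hl
  have h0 := h.δ_nonneg
  have hl2 : l ≤ 2 := by linarith [h.R_le, norm_nonneg (u - c)]
  have hκ1 : ContDiff ℝ 1 κ := hκ.smooth.of_le (by norm_num)
  set ψ : ℂ × H → ℝ := fun v => κ (v.1 - u) ^ 2 with hψ
  have hψc : ContDiff ℝ 1 ψ := (hκ1.comp (contDiff_fst.sub contDiff_const)).pow 2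
  have hT : Test c R ψ := by
    refine ⟨hψc.contDiffOn, ‖u - c‖ + σ + 3 * l / 4, by linarith, fun v hv => ?_⟩
    have h1 : ‖v.1 - c‖ ≤ ‖v.1 - u‖ + ‖u - c‖ := norm_sub_le_norm_sub_add_norm_sub _ _ _
    have h2 : κ (v.1 - u) = 0 := hκ.zero _ (by linarith)
    simp [hψ, h2]
  have hd : ∀ v p : ℂ × H, fderiv ℝ ψ v p = 2 * κ (v.1 - u) * fderiv ℝ κ (v.1 - u) p.1 := by
    intro v p
    have h1 : HasFDerivAt κ (fderiv ℝ κ (v.1 - u)) (v.1 - u) :=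
      (hκ1.differentiable one_ne_zero _).hasFDerivAt
    have h2 : HasFDerivAt (fun v : ℂ × H => κ (v.1 - u))
        ((fderiv ℝ κ (v.1 - u)).comp (ContinuousLinearMap.fst ℝ ℂ H)) v :=
      HasFDerivAt.comp v h1 (hasFDerivAt_fst.sub_const u)
    rw [(h2.pow 2).fderiv]
    simp
  have e := h.ver_rad hT
  have hi : Integrable (fun a => fderiv ℝ ψ (D.x a, D.y a) (D.q a (D.y a), D.g a (D.y a)) +
      ψ (D.x a, D.y a) * (trH (D.g a) + ⟪D.L a, D.y a⟫)) D.m := by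
    have h1 : Continuous ψ := hψc.continuous
    have h2 : Continuous (fderiv ℝ ψ) := hψc.continuous_fderiv one_ne_zero
    have h3 := continuous_trH_cacc (H := H)
    exact h.integrable_cont_id
      (fun p => fderiv ℝ ψ p.1 (p.2.2.2.1 p.1.2, p.2.2.2.2.1 p.1.2) +
        ψ p.1 * (trH p.2.2.2.2.1 + ⟪p.2.2.2.2.2.1, p.1.2⟫)) (by fun_prop)
  obtain ⟨i1, -, i2, -⟩ := h.integrable_t
  obtain ⟨K, hK⟩ : ∃ K, K = (45 * C0 ^ 2 + 4 * C0 + 1) / l ^ 2 := ⟨_, rfl⟩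
  have hK0 : 0 ≤ K := by rw [hK]; positivity
  have hKk : 45 * (C0 / l) ^ 2 + 2 * (C0 / l) + 1 / 10 ≤ K := by
    rw [hK, le_div_iff₀ (by positivity)]
    have e1 : (45 * (C0 / l) ^ 2 + 2 * (C0 / l) + 1 / 10) * l ^ 2 =
        45 * C0 ^ 2 + 2 * C0 * l + l ^ 2 / 10 := by field_simp
    rw [e1]
    nlinarith
  have m1 := h.meas_cyl u σ
  have m2 := h.meas_cyl u (σ + l)
  have hle : ∫ a, (1 / 2 * (D.cyl u σ).indicator D.t a -
      K * (D.cyl u (σ + l)).indicator (fun a => ‖D.y a‖ ^ 2) a) ∂D.m ≤ 0 := by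
    rw [← e]
    refine integral_mono_ae (((i1.indicator m1).const_mul _).sub ((i2.indicator m2).const_mul _))
      hi ?_
    filter_upwards [h.ae_G, h.car] with a ha hx
    have hp := h.pw a ha
    have ht0 := hp.t_nonneg
    have hY0 := norm_nonneg (D.y a)
    rw [hd]
    simp only [hψ]
    by_cases h2 : a ∈ D.cyl u (σ + l)
    · rw [indicator_of_mem h2]
      have hz := hκ.mem (D.x a - u)
      have hw := (abs_le.1 (h.w_le _ hx).1).1
      have hY : ‖D.y a‖ ≤ 1 / 10 := hp.y_le.trans hδ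
      have htr := (abs_le.1 hp.trg).1
      have hsq : √(D.t a) ^ 2 = D.t a := Real.sq_sqrt ht0
      have hTT : 4 / 5 * √(D.t a) ^ 2 - ‖D.y a‖ ^ 2 / 10 ≤ trH (D.g a) + ⟪D.L a, D.y a⟫ := by
        rw [hsq]
        have a1 : 9 / 10 * D.t a ≤ D.w (D.x a) * D.t a :=
          mul_le_mul_of_nonneg_right (by linarith) ht0
        have a2 : δ * (‖D.y a‖ ^ 2 + ‖D.y a‖ * D.t a) ≤
            1 / 10 * (‖D.y a‖ ^ 2 + ‖D.y a‖ * D.t a) :=
          mul_le_mul_of_nonneg_right hδ (by positivity)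
        have a3 : ‖D.y a‖ * D.t a ≤ 1 / 10 * D.t a := mul_le_mul_of_nonneg_right hY ht0
        linarith
      have hdd : |fderiv ℝ κ (D.x a - u) (D.q a (D.y a))| ≤
          C0 / l * (‖D.y a‖ * (3 * √(D.t a) + ‖D.y a‖)) :=
        ((fderiv ℝ κ (D.x a - u)).le_opNorm _).trans
          (mul_le_mul (hκ.d1 _) (hp.qy_cacc h0 hδ) (norm_nonneg _) (by positivity))
      have key := real_cacc hz.1 hz.2 (show 0 ≤ C0 / l by positivity) (Real.sqrt_nonneg _) hY0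
        hdd hTT
      rw [hsq] at key
      have b1 : (D.cyl u σ).indicator D.t a ≤ κ (D.x a - u) ^ 2 * D.t a := by
        by_cases h1 : a ∈ D.cyl u σ
        · have h3 : ‖D.x a - u‖ < σ := h1
          rw [indicator_of_mem h1, hκ.one _ (by linarith)]
          simp
        · rw [indicator_of_notMem h1]
          positivity
      have b2 := mul_le_mul_of_nonneg_right hKk (sq_nonneg ‖D.y a‖)
      linarith
    · have h3 : σ + l ≤ ‖D.x a - u‖ := not_lt.1 h2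
      have h1 : a ∉ D.cyl u σ := fun h1 => by
        have h4 : ‖D.x a - u‖ < σ := h1
        linarith
      rw [indicator_of_notMem h1, indicator_of_notMem h2, hκ.zero _ (by linarith)]
      simp
  rw [integral_sub ((i1.indicator m1).const_mul _) ((i2.indicator m2).const_mul _),
    integral_const_mul, integral_const_mul, integral_indicator m1, integral_indicator m2] at hle
  have e2 : 2 * (45 * C0 ^ 2 + 4 * C0 + 1) / l ^ 2 = 2 * K := by rw [hK]; ring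
  rw [e2, CD.T, CD.J]
  linarith

end Pool.Agent.Lib.MP_8daebb_an.SV
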