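import Pool.Agent.Lib.MP_8daebb_an.SV.ChM2

/-! Area formula and mass bounds for the chart. -/

open MeasureTheory Metric Set Complex Filter Topology
open scoped RealInnerProductSpace ComplexConjugate ContDiff ENNReal

namespace Pool.Agent.Lib.MP_8daebb_an.SV.Ch

variable {H : Type*} [NormedAddCommGroup H] [InnerProductSpace ℝ H] [FiniteDimensional ℝ H]
  [MeasurableSpace H] [BorelSpace H]

variable {V : Measure (H × (H →L[ℝ] H))} {ι : ℂ →ₗᵢ[ℝ] H} {c : Cen H} {ε R M θ η : ℝ}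

theorem Pre.area (h : Pre ι c ε R) (hε : ε ≤ 1 / 100) (hR : R ≤ 2) (hV : EV V ι M θ η)
    {Z : Set (H × (H →L[ℝ] H))} (hZ : MeasurableSet Z) :
    ∃ N : ℂ → ℕ, IsMult ((chart V c R).m.restrict Z) (chart V c R).x (chart V c R).j N := by
  have hdom := h.meas_dom hε hR
  obtain ⟨N, hNm, hNv, hN⟩ := hV.area (c.tube R) (h.isOpen_tube hε hR) (c.foot R)
    (h.contDiffOn_foot hε hR) (Z ∩ c.dom R) (hZ.inter hdom) inter_subset_right
  obtain ⟨mx, -, -, mj, -⟩ := h.meas_chart hε hR V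
  have key : ∀ f : ℂ → ℝ≥0∞, Measurable f →
      ∫⁻ a, f ((chart V c R).x a) * ENNReal.ofReal ((chart V c R).j a)
        ∂((chart V c R).m.restrict Z) = ∫⁻ y, f y * N y := by
    intro f hf
    have hm : Measurable fun a => f ((chart V c R).x a) * ENNReal.ofReal ((chart V c R).j a) :=
      (hf.comp mx).mul mj.ennreal_ofReal
    rw [← hN f hf, ← lintegral_indicator hZ, h.chart_lintegral hε hR (hm.indicator hZ),
      ← Measure.restrict_restrict hZ, ← lintegral_indicator hZ]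
    refine setLIntegral_congr_fun hdom fun a ha => ?_
    by_cases haZ : a ∈ Z
    · simp only [indicator_of_mem haZ]
      have hw : 0 < om (c.j0 R a.1) :=
        lt_of_lt_of_le (by norm_num) (h.jet_at hε hR ha).cf.om_low
      have hj : (chart V c R).j a =
          om (c.j0 R a.1) * jac (dx (c.j0 R a.1) (c.j1 R a.1) (c.ht R a.1)) a.2 :=
        indicator_of_mem ha fun a : H × (H →L[ℝ] H) =>
          om (c.j0 R a.1) * jac (dx (c.j0 R a.1) (c.j1 R a.1) (c.ht R a.1)) a.2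
      have hx : (chart V c R).x a = c.foot R a.1 := rfl
      rw [hj, hx, (h.hasFDerivAt_foot hε hR ha).fderiv, mul_left_comm,
        ← ENNReal.ofReal_mul (inv_nonneg.2 hw.le), ← mul_assoc, inv_mul_cancel₀ hw.ne', one_mul]
    · simp only [indicator_of_notMem haZ, mul_zero]
  have hfin := h.chart_finite hε hR hV
  have htop : ∫⁻ y, N y ≠ ⊤ := by
    have h1 := key (fun _ => 1) measurable_const
    simp only [one_mul] at h1
    rw [← h1]
    have h2 : ∫⁻ a, ENNReal.ofReal ((chart V c R).j a) ∂((chart V c R).m.restrict Z) ≤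
        ∫⁻ _a, ENNReal.ofReal 2 ∂((chart V c R).m.restrict Z) := by
      apply lintegral_mono_ae
      filter_upwards [ae_restrict_of_ae (h.chart_ae_G hε hR hV)] with a ha
      have hj : (chart V c R).j a =
          om (c.j0 R a.1) * jac (dx (c.j0 R a.1) (c.j1 R a.1) (c.ht R a.1)) a.2 :=
        indicator_of_mem ha.1 fun a : H × (H →L[ℝ] H) =>
          om (c.j0 R a.1) * jac (dx (c.j0 R a.1) (c.j1 R a.1) (c.ht R a.1)) a.2
      rw [hj]
      exact ENNReal.ofReal_le_ofReal (fj_le (h.jet_at hε hR ha.1) ha.2.1)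
    refine ne_top_of_le_ne_top ?_ h2
    rw [lintegral_const]
    exact ENNReal.mul_ne_top ENNReal.ofReal_ne_top (measure_ne_top _ _)
  refine ⟨fun u => ⌊(N u).toReal⌋₊,
    Nat.measurable_floor.comp (ENNReal.measurable_toReal.comp hNm), fun f hf => ?_⟩
  rw [key f hf]
  apply lintegral_congr_ae
  filter_upwards [ae_lt_top hNm htop] with u hu
  obtain h0 | ⟨k, hk⟩ := hNv u
  · exact absurd h0 hu.ne
  · simp [hk]

theorem Pre.den (h : Pre ι c ε R) (hε : ε ≤ 1 / 100) (hR : R ≤ 2) (hV : EV V ι M θ η) {a : H × (H →L[ℝ] H)}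
    (ha : a ∈ c.dom R) {ϑ ϑ' : ℝ} (hϑ : (1 + 3 * ε) * ϑ' ≤ ϑ)
    (hd : ∃ᶠ σ in 𝓝[>] (0 : ℝ), ϑ * σ ^ 2 ≤ V.fst.real (ball a.1 σ)) : (chart V c R).Den ϑ' a := by
  have hε0 : 0 ≤ ε := (norm_nonneg _).trans h.base
  obtain ⟨r, hr, hb⟩ := Metric.isOpen_iff.1 (h.isOpen_tube hε hR) a.1 ha
  have hev : ∀ᶠ σ in 𝓝[>] (0 : ℝ), σ < r := nhdsWithin_le_nhds (Iio_mem_nhds hr)
  refine (hd.and_eventually hev).mono fun σ hσ => ?_
  have h1 := h.ball_mass hε hR hV ((ball_subset_ball hσ.2.le).trans hb)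
  have h2 : (1 + 3 * ε) * (ϑ' * σ ^ 2) ≤
      (1 + 3 * ε) * (chart V c R).m.real ((chart V c R).pb a.1 σ) := by
    have := mul_le_mul_of_nonneg_right hϑ (sq_nonneg σ)
    linarith [hσ.1]
  exact le_of_mul_le_mul_left h2 (by linarith)

theorem Pre.ld (h : Pre ι c ε R) (hε : ε ≤ 1 / 100) (hR : R ≤ 2) (hV : EV V ι M θ η) :
    ∀ᵐ a ∂(chart V c R).m, (chart V c R).Den (4 / 3) a := by
  rw [h.chart_ae hε hR]
  filter_upwards [hV.ld] with a ha hd
  exact h.den hε hR hV hd (by linarith) ha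

theorem Pre.ub (h : Pre ι c ε R) (hε : ε ≤ 1 / 100) (hR : R ≤ 2) (hV : EV V ι M θ η) (u : ℂ) (y₀ : H) {σ : ℝ}
    (hσ : 0 < σ) : (chart V c R).m.real ((chart V c R).box u y₀ σ σ) ≤ 10 * M * σ ^ 2 := by
  have hε0 : 0 ≤ ε := (norm_nonneg _).trans h.base
  have hM := ev_M_nonneg hV
  have hfin := h.chart_finite hε hR hV
  have hVf := hV.fin
  have hG := h.chart_ae_G hε hR hV
  by_cases hne : ∃ a₀, a₀ ∈ (chart V c R).box u y₀ σ σ ∧ a₀ ∈ (chart V c R).G
  swap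
  · have : (chart V c R).m ((chart V c R).box u y₀ σ σ) = 0 := by
      rw [measure_eq_zero_iff_ae_notMem]
      filter_upwards [hG] with a ha hb
      exact hne ⟨a, hb, ha⟩
    rw [Measure.real, this, ENNReal.toReal_zero]
    positivity
  obtain ⟨a₀, hb₀, hG₀⟩ := hne
  have hsub : ∀ᵐ a ∂(chart V c R).m, a ∈ (chart V c R).box u y₀ σ σ →
      a ∈ Prod.fst ⁻¹' ball a₀.1 (3 * σ) := by
    filter_upwards [hG] with a ha hb
    have hg := (abs_le.1 (h.geo hε hR ha.1 hG₀.1)).2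
    have e1 : (chart V c R).y a = c.ht R a.1 :=
      indicator_of_mem ha.1 fun a : H × (H →L[ℝ] H) => c.ht R a.1
    have e2 : (chart V c R).y a₀ = c.ht R a₀.1 :=
      indicator_of_mem hG₀.1 fun a : H × (H →L[ℝ] H) => c.ht R a.1
    have x1 : ‖c.foot R a.1 - u‖ < σ := hb.1
    have x2 : ‖c.foot R a₀.1 - u‖ < σ := hb₀.1
    have y1 : ‖c.ht R a.1 - y₀‖ < σ := e1 ▸ hb.2
    have y2 : ‖c.ht R a₀.1 - y₀‖ < σ := e2 ▸ hb₀.2
    have x3 : ‖c.foot R a.1 - c.foot R a₀.1‖ < 2 * σ := by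
      have := norm_sub_le (c.foot R a.1 - u) (c.foot R a₀.1 - u)
      rw [sub_sub_sub_cancel_right] at this
      linarith
    have y3 : ‖c.ht R a.1 - c.ht R a₀.1‖ < 2 * σ := by
      have := norm_sub_le (c.ht R a.1 - y₀) (c.ht R a₀.1 - y₀)
      rw [sub_sub_sub_cancel_right] at this
      linarith
    have x4 : ‖c.foot R a.1 - c.foot R a₀.1‖ ^ 2 ≤ (2 * σ) ^ 2 :=
      pow_le_pow_left₀ (norm_nonneg _) x3.le 2
    have y4 : ‖c.ht R a.1 - c.ht R a₀.1‖ ^ 2 ≤ (2 * σ) ^ 2 :=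
      pow_le_pow_left₀ (norm_nonneg _) y3.le 2
    have x5 : 20 * ε * ‖c.foot R a.1 - c.foot R a₀.1‖ ^ 2 ≤ 1 / 5 * (2 * σ) ^ 2 :=
      mul_le_mul (by linarith) x4 (sq_nonneg _) (by norm_num)
    have hlt : ‖a.1 - a₀.1‖ ^ 2 < (3 * σ) ^ 2 := by nlinarith [sq_pos_of_pos hσ]
    show a.1 ∈ ball a₀.1 (3 * σ)
    rw [mem_ball, dist_eq_norm]
    exact lt_of_pow_lt_pow_left₀ 2 (by positivity) hlt
  have h1 : (chart V c R).m ((chart V c R).box u y₀ σ σ) ≤
      ENNReal.ofReal (1 + 4 * ε) * V.fst (ball a₀.1 (3 * σ)) := by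
    have h0 : (chart V c R).m ((chart V c R).box u y₀ σ σ) ≤
        (chart V c R).m (Prod.fst ⁻¹' ball a₀.1 (3 * σ)) := measure_mono_ae hsub
    have h0' := h.chart_le (V := V) hε hR (Prod.fst ⁻¹' ball a₀.1 (3 * σ))
    rw [Measure.smul_apply, smul_eq_mul] at h0'
    refine h0.trans (h0'.trans ?_)
    rw [Measure.fst_apply measurableSet_ball]
    gcongr
    exact Measure.restrict_le_self
  have h2 := ENNReal.toReal_mono
    (ENNReal.mul_ne_top ENNReal.ofReal_ne_top (measure_ne_top _ _)) h1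
  rw [ENNReal.toReal_mul, ENNReal.toReal_ofReal (by linarith)] at h2
  have h3 : (V.fst (ball a₀.1 (3 * σ))).toReal ≤ M * (3 * σ) ^ 2 :=
    hV.ub a₀.1 (3 * σ) (by positivity)
  have h4 : (1 + 4 * ε) * (V.fst (ball a₀.1 (3 * σ))).toReal ≤ 26 / 25 * (M * (3 * σ) ^ 2) :=
    mul_le_mul (by linarith) h3 ENNReal.toReal_nonneg (by norm_num)
  have h5 : 0 ≤ M * σ ^ 2 := by positivity
  have h6 : (chart V c R).m.real ((chart V c R).box u y₀ σ σ) ≤ _ := h2.trans h4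
  nlinarith

end Pool.Agent.Lib.MP_8daebb_an.SV.Ch
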