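import Pool.Agent.Lib.MP_8daebb_an.SV.ChDef

/-! Algebra of `sp`, `pr`, `cx`, `zd`, `bil`. -/

open MeasureTheory Metric Set Complex
open scoped RealInnerProductSpace ComplexConjugate ContDiff

namespace Pool.Agent.Lib.MP_8daebb_an.SV.Ch

variable {H : Type*} [NormedAddCommGroup H] [InnerProductSpace ℝ H] [FiniteDimensional ℝ H]

theorem ml_apply (a v : ℂ) : ml a v = a * v := rfl

theorem sh_apply (a v : ℂ) : sh a v = a * conj v := rfl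

theorem sm_apply (Ψ : EC H) (v : ℂ) : sm Ψ v = v • Ψ := rfl

theorem ob_sp_ChB1 (Ψ : EC H) (v : ℂ) (k : Fin (Module.finrank ℝ H)) :
    ⟪ob H k, sp Ψ v⟫ = 2 * (v * Ψ k).re := by
  rw [sp_apply]
  exact (ob H).orthonormal.inner_right_fintype _ k

theorem pr_eq_ChB1 (Ψ : EC H) (u : H) : pr Ψ u = 2 * inner ℂ Ψ (cx u) := by
  rw [pr_apply, PiLp.inner_apply, Finset.mul_sum]
  refine Finset.sum_congr rfl fun k _ => ?_
  rw [cx_apply, RCLike.inner_apply]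
  ring

theorem sp_smul (c : ℂ) (Ψ : EC H) (v : ℂ) : sp (c • Ψ) v = sp Ψ (c * v) := by
  simp only [sp_apply, PiLp.smul_apply, smul_eq_mul]
  exact Finset.sum_congr rfl fun k _ => by rw [show v * (c * Ψ k) = c * v * Ψ k by ring]

theorem pr_smul (c : ℂ) (Ψ : EC H) (u : H) : pr (c • Ψ) u = conj c * pr Ψ u := by
  rw [pr_eq_ChB1, pr_eq_ChB1, inner_smul_left]
  ring

theorem inner_sp (Ψ : EC H) (v : ℂ) (u : H) : ⟪sp Ψ v, u⟫ = (conj v * pr Ψ u).re := by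
  rw [sp_apply, pr_apply, sum_inner, Finset.mul_sum, Complex.re_sum]
  refine Finset.sum_congr rfl fun k _ => ?_
  rw [real_inner_smul_left]
  simp
  ring

theorem pr_sp (Φ Ψ : EC H) (v : ℂ) :
    pr Φ (sp Ψ v) = 2 * v * inner ℂ Φ Ψ + 2 * conj v * conj (bil Φ Ψ) := by
  rw [pr_apply, PiLp.inner_apply, bil, map_sum, Finset.mul_sum, Finset.mul_sum,
    ← Finset.sum_add_distrib]
  refine Finset.sum_congr rfl fun k _ => ?_
  rw [ob_sp_ChB1, ← Complex.add_conj, RCLike.inner_apply, map_mul, map_mul]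
  ring

theorem norm_cx_ChB1 (u : H) : ‖cx u‖ = ‖u‖ := by
  rw [← (ob H).repr.norm_map u, EuclideanSpace.norm_eq, EuclideanSpace.norm_eq]
  congr 1
  refine Finset.sum_congr rfl fun k _ => ?_
  rw [cx_apply, Complex.norm_real, OrthonormalBasis.repr_apply_apply]

theorem norm_pr_le_ChB1 (Ψ : EC H) (u : H) : ‖pr Ψ u‖ ≤ 2 * ‖Ψ‖ * ‖u‖ := by
  rw [pr_eq_ChB1, norm_mul, ← norm_cx_ChB1 u, mul_assoc, Complex.norm_two]
  exact mul_le_mul_of_nonneg_left (norm_inner_le_norm _ _) zero_le_two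

theorem norm_sp_le (Ψ : EC H) (v : ℂ) : ‖sp Ψ v‖ ≤ 2 * ‖Ψ‖ * ‖v‖ := by
  have h := inner_sp Ψ v (sp Ψ v)
  rw [real_inner_self_eq_norm_sq] at h
  have h2 : (conj v * pr Ψ (sp Ψ v)).re ≤ ‖v‖ * (2 * ‖Ψ‖ * ‖sp Ψ v‖) := by
    refine (Complex.re_le_norm _).trans ?_
    rw [norm_mul, Complex.norm_conj]
    exact mul_le_mul_of_nonneg_left (norm_pr_le_ChB1 Ψ _) (norm_nonneg _)
  rcases (norm_nonneg (sp Ψ v)).eq_or_lt with h0 | h0
  · rw [← h0]; positivity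
  · exact le_of_mul_le_mul_right (by nlinarith) h0

theorem norm_pr_le (Ψ : EC H) (u : H) : ‖pr Ψ u‖ ≤ 2 * ‖Ψ‖ * ‖u‖ := norm_pr_le_ChB1 Ψ u

theorem opNorm_sp_le (Ψ : EC H) : ‖sp Ψ‖ ≤ 2 * ‖Ψ‖ :=   ContinuousLinearMap.opNorm_le_bound _ (by positivity) (norm_sp_le Ψ)

theorem opNorm_pr_le (Ψ : EC H) : ‖pr Ψ‖ ≤ 2 * ‖Ψ‖ :=   ContinuousLinearMap.opNorm_le_bound _ (by positivity) (norm_pr_le Ψ)

theorem norm_cx (u : H) : ‖cx u‖ = ‖u‖ := norm_cx_ChB1 u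

theorem sp_cx (u : H) (v : ℂ) : sp (cx u) v = (2 * v.re) • u := by
  conv_rhs => rw [← (ob H).sum_repr' u]
  rw [sp_apply, Finset.smul_sum]
  refine Finset.sum_congr rfl fun k _ => ?_
  rw [cx_apply, smul_smul, Complex.re_mul_ofReal, mul_assoc]

theorem sp_zd (A : ℂ →L[ℝ] H) : sp (zd A) = A := by
  ext1 v
  have e : v = v.re • (1 : ℂ) + v.im • I := by simp
  rw [zd, sp_smul, map_sub, ContinuousLinearMap.sub_apply, sp_smul, sp_cx, sp_cx]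
  conv_rhs => rw [e, map_add, map_smul, map_smul]
  rw [sub_eq_add_neg, ← neg_smul]
  congr 2 <;> simp

theorem zd_sp (Ψ : EC H) : zd (sp Ψ) = Ψ := by
  ext k
  simp only [zd, PiLp.smul_apply, PiLp.sub_apply, cx_apply, ob_sp_ChB1, smul_eq_mul]
  apply Complex.ext <;> simp

theorem zd_add (A B : ℂ →L[ℝ] H) : zd (A + B) = zd A + zd B := by
  simp only [zd, ContinuousLinearMap.add_apply, map_add]
  module

theorem zd_sub (A B : ℂ →L[ℝ] H) : zd (A - B) = zd A - zd B := by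
  simp only [zd, ContinuousLinearMap.sub_apply, map_sub]
  module

theorem norm_zd_le (A : ℂ →L[ℝ] H) : ‖zd A‖ ≤ ‖A‖ := by
  have h1 := A.le_opNorm 1
  have h2 := A.le_opNorm I
  have h3 := norm_sub_le (cx (A 1)) (I • cx (A I))
  rw [norm_smul, norm_cx, norm_cx] at h3
  rw [zd, norm_smul]
  simp only [norm_one, Complex.norm_I, mul_one, one_mul, norm_div, Complex.norm_two] at *
  linarith

theorem bil_comm (Φ Ψ : EC H) : bil Φ Ψ = bil Ψ Φ :=   Finset.sum_congr rfl fun _ _ => mul_comm _ _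

theorem bil_add_left (Φ Ψ Ξ : EC H) : bil (Φ + Ψ) Ξ = bil Φ Ξ + bil Ψ Ξ := by
  simp only [bil, PiLp.add_apply, add_mul, Finset.sum_add_distrib]

theorem bil_sub_left (Φ Ψ Ξ : EC H) : bil (Φ - Ψ) Ξ = bil Φ Ξ - bil Ψ Ξ := by
  simp only [bil, PiLp.sub_apply, sub_mul, Finset.sum_sub_distrib]

theorem bil_smul_left (c : ℂ) (Φ Ξ : EC H) : bil (c • Φ) Ξ = c * bil Φ Ξ := by
  simp only [bil, PiLp.smul_apply, smul_eq_mul, mul_assoc, Finset.mul_sum]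

theorem norm_bil_le (Φ Ψ : EC H) : ‖bil Φ Ψ‖ ≤ ‖Φ‖ * ‖Ψ‖ := by
  rw [bil, EuclideanSpace.norm_eq, EuclideanSpace.norm_eq]
  refine (norm_sum_le _ _).trans ?_
  simp only [norm_mul]
  exact Real.sum_mul_le_sqrt_mul_sqrt _ _ _

theorem bil_cx (Φ : EC H) (u : H) : bil Φ (cx u) = conj (pr Φ u) / 2 := by
  rw [bil, pr_apply, map_sum, Finset.sum_div]
  refine Finset.sum_congr rfl fun k _ => ?_
  rw [cx_apply, map_mul, map_mul, Complex.conj_conj, Complex.conj_ofReal, map_ofNat]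
  ring

/-- `bil` as a continuous complex bilinear map. -/
theorem exists_bilL : ∃ B : EC H →L[ℂ] EC H →L[ℂ] ℂ, ∀ Φ Ψ, B Φ Ψ = bil Φ Ψ :=   ⟨LinearMap.mkContinuous₂ (LinearMap.mk₂ ℂ bil bil_add_left bil_smul_left
    (fun a b c => by rw [bil_comm, bil_add_left, bil_comm b, bil_comm c])
    (fun c a b => by rw [bil_comm, bil_smul_left, bil_comm b, smul_eq_mul])) 1
    (fun a b => by rw [one_mul]; exact norm_bil_le a b), fun _ _ => rfl⟩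

theorem pr_sp_self_ChB1 {Φ : EC H} (h : bil Φ Φ = 0) (v : ℂ) :
    pr Φ (sp Φ v) = (om Φ : ℂ) * v := by
  rw [pr_sp, h, inner_self_eq_norm_sq_to_K, om]
  simp
  ring

theorem inner_sp_sp_ChB1 {Φ : EC H} (h : bil Φ Φ = 0) (v w : ℂ) :
    ⟪sp Φ v, sp Φ w⟫ = om Φ * ⟪v, w⟫ := by
  rw [inner_sp, pr_sp_self_ChB1 h, Complex.inner]
  simp
  ring

theorem norm_sp_sq {Φ : EC H} (h : bil Φ Φ = 0) (v : ℂ) : ‖sp Φ v‖ ^ 2 = om Φ * ‖v‖ ^ 2 := by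
  rw [← real_inner_self_eq_norm_sq, inner_sp_sp_ChB1 h, real_inner_self_eq_norm_sq]

theorem pr_sp_self {Φ : EC H} (h : bil Φ Φ = 0) (v : ℂ) : pr Φ (sp Φ v) = (om Φ : ℂ) * v := pr_sp_self_ChB1 h v

theorem inner_sp_sp {Φ : EC H} (h : bil Φ Φ = 0) (v w : ℂ) :
    ⟪sp Φ v, sp Φ w⟫ = om Φ * ⟪v, w⟫ := inner_sp_sp_ChB1 h v w

theorem Cf.om_pos_ChB1 {Φ : EC H} (h : Cf Φ) : 0 < om Φ := lt_of_lt_of_le (by norm_num) h.om_low

theorem Cf.pr_eq_ChB1 {Φ : EC H} (h : Cf Φ) (u : H) : pr Φ u = om Φ • tv Φ u := by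
  rw [tv, ContinuousLinearMap.smul_apply, smul_inv_smul₀ h.om_pos_ChB1.ne']

theorem Cf.tv_sp {Φ : EC H} (h : Cf Φ) (v : ℂ) : tv Φ (sp Φ v) = v := by
  have h0 : (om Φ : ℂ) ≠ 0 := Complex.ofReal_ne_zero.2 h.om_pos_ChB1.ne'
  rw [tv, ContinuousLinearMap.smul_apply, pr_sp_self h.conf, Complex.real_smul, Complex.ofReal_inv,
    inv_mul_cancel_left₀ h0]

theorem Cf.inner_sp_tv {Φ : EC H} (h : Cf Φ) (v : ℂ) (u : H) :
    ⟪sp Φ v, u⟫ = om Φ * ⟪v, tv Φ u⟫ := by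
  rw [inner_sp, h.pr_eq_ChB1, Complex.inner]
  simp
  ring

theorem pn_apply (Φ : EC H) (u : H) : pn Φ u = u - sp Φ (tv Φ u) := rfl

theorem Cf.pr_pn {Φ : EC H} (h : Cf Φ) (u : H) : pr Φ (pn Φ u) = 0 := by
  rw [pn_apply, map_sub, pr_sp_self h.conf, h.pr_eq_ChB1, Complex.real_smul, sub_self]

theorem Cf.pn_sp {Φ : EC H} (h : Cf Φ) (v : ℂ) : pn Φ (sp Φ v) = 0 := by
  rw [pn_apply, h.tv_sp, sub_self]

theorem pn_of_pr {Φ : EC H} {u : H} (hu : pr Φ u = 0) : pn Φ u = u := by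
  rw [pn_apply, tv, ContinuousLinearMap.smul_apply, hu, smul_zero, map_zero, sub_zero]

theorem Cf.pn_symm {Φ : EC H} (h : Cf Φ) (u w : H) : ⟪pn Φ u, w⟫ = ⟪u, pn Φ w⟫ := by
  rw [pn_apply, pn_apply, inner_sub_left, inner_sub_right, h.inner_sp_tv,
    real_inner_comm (sp Φ (tv Φ w)), h.inner_sp_tv, real_inner_comm (tv Φ w)]

theorem Cf.pyth {Φ : EC H} (h : Cf Φ) (u : H) :
    ‖u‖ ^ 2 = om Φ * ‖tv Φ u‖ ^ 2 + ‖pn Φ u‖ ^ 2 := by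
  have e : u = sp Φ (tv Φ u) + pn Φ u := by rw [pn_apply, add_sub_cancel]
  conv_lhs => rw [e]
  rw [norm_add_sq_real, inner_sp, h.pr_pn, norm_sp_sq h.conf]
  simp

theorem Cf.norm_pn_le {Φ : EC H} (h : Cf Φ) (u : H) : ‖pn Φ u‖ ≤ ‖u‖ := by
  have h1 := h.pyth u
  have h2 := mul_nonneg h.om_pos_ChB1.le (sq_nonneg ‖tv Φ u‖)
  exact le_of_sq_le_sq (by linarith) (norm_nonneg _)

theorem Cf.norm_sp_le {Φ : EC H} (h : Cf Φ) (v : ℂ) : ‖sp Φ v‖ ≤ 21 / 20 * ‖v‖ := by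
  have h1 := norm_sp_sq h.conf v
  have h2 := mul_le_mul_of_nonneg_right h.om_up (sq_nonneg ‖v‖)
  exact le_of_sq_le_sq (by nlinarith [sq_nonneg ‖v‖]) (by positivity)

theorem Cf.norm_pr_le {Φ : EC H} (h : Cf Φ) (u : H) : ‖pr Φ u‖ ≤ 21 / 20 * ‖u‖ := by
  have h1 := h.pyth u
  have h0 := h.om_pos_ChB1
  have h2 : om Φ * ‖tv Φ u‖ ^ 2 ≤ ‖u‖ ^ 2 := by nlinarith [sq_nonneg ‖pn Φ u‖]
  have h3 := mul_le_mul h.om_up h2 (by positivity) (by norm_num)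
  rw [h.pr_eq_ChB1, norm_smul, Real.norm_of_nonneg h0.le]
  exact le_of_sq_le_sq (by nlinarith [sq_nonneg ‖u‖]) (by positivity)

theorem Cf.norm_tv_le {Φ : EC H} (h : Cf Φ) (u : H) : ‖tv Φ u‖ ≤ 11 / 10 * ‖u‖ := by
  have h1 := h.pyth u
  have h2 := mul_le_mul_of_nonneg_right h.om_low (sq_nonneg ‖tv Φ u‖)
  exact le_of_sq_le_sq (by nlinarith [sq_nonneg ‖pn Φ u‖, sq_nonneg ‖u‖]) (by positivity)

theorem Cf.norm_le {Φ : EC H} (h : Cf Φ) : ‖Φ‖ ≤ 3 / 4 := by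
  have h1 := h.om_up
  rw [om] at h1
  exact le_of_sq_le_sq (by linarith) (by norm_num)

theorem Cf.om_sub {Φ Ψ : EC H} (h : Cf Φ) (h' : Cf Ψ) : |om Φ - om Ψ| ≤ 3 * ‖Φ - Ψ‖ := by
  have h1 := abs_norm_sub_norm_le Φ Ψ
  have h2 := h.norm_le
  have h3 := h'.norm_le
  rw [om, om, show 2 * ‖Φ‖ ^ 2 - 2 * ‖Ψ‖ ^ 2 = 2 * (‖Φ‖ + ‖Ψ‖) * (‖Φ‖ - ‖Ψ‖) by ring, abs_mul,
    abs_of_nonneg (by positivity)]
  exact mul_le_mul (by linarith) h1 (abs_nonneg _) (by norm_num)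

theorem Cf.pn_sub {Φ Ψ : EC H} (h : Cf Φ) (h' : Cf Ψ) : ‖pn Φ - pn Ψ‖ ≤ 10 * ‖Φ - Ψ‖ := by
  refine ContinuousLinearMap.opNorm_le_bound _ (by positivity) fun u => ?_
  have h0 := h.om_pos_ChB1
  have h0' := h'.om_pos_ChB1
  have e : (pn Φ - pn Ψ) u = -(((om Φ)⁻¹ - (om Ψ)⁻¹) • sp Φ (pr Φ u)) -
      (om Ψ)⁻¹ • (sp (Φ - Ψ) (pr Φ u) + sp Ψ (pr (Φ - Ψ) u)) := by
    simp only [ContinuousLinearMap.sub_apply, pn_apply, tv, ContinuousLinearMap.smul_apply,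
      map_smul, map_sub]
    module
  have i1 : (om Φ)⁻¹ ≤ 10 / 9 := by
    rw [inv_le_comm₀ h0 (by norm_num)]; linarith [h.om_low]
  have i2 : (om Ψ)⁻¹ ≤ 10 / 9 := by
    rw [inv_le_comm₀ h0' (by norm_num)]; linarith [h'.om_low]
  have i3 : |(om Φ)⁻¹ - (om Ψ)⁻¹| ≤ 3 * ‖Φ - Ψ‖ * (10 / 9 * (10 / 9)) := by
    rw [show (om Φ)⁻¹ - (om Ψ)⁻¹ = -(om Φ - om Ψ) * ((om Φ)⁻¹ * (om Ψ)⁻¹) by field_simp; ring,
      abs_mul, abs_neg, abs_of_nonneg (a := (om Φ)⁻¹ * (om Ψ)⁻¹) (by positivity)]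
    have := h.om_sub h'
    gcongr
  have b0 := h.norm_pr_le u
  have b1 : ‖sp Φ (pr Φ u)‖ ≤ 21 / 20 * (21 / 20 * ‖u‖) :=
    (h.norm_sp_le _).trans (by gcongr)
  have b2 : ‖sp (Φ - Ψ) (pr Φ u)‖ ≤ 2 * ‖Φ - Ψ‖ * (21 / 20 * ‖u‖) :=
    (Ch.norm_sp_le _ _).trans (by gcongr)
  have b3 : ‖sp Ψ (pr (Φ - Ψ) u)‖ ≤ 21 / 20 * (2 * ‖Φ - Ψ‖ * ‖u‖) :=
    (h'.norm_sp_le _).trans (by gcongr; exact Ch.norm_pr_le _ _)
  have b4 := (norm_add_le _ _).trans (add_le_add b2 b3)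
  rw [e]
  refine (norm_sub_le _ _).trans ?_
  rw [norm_neg, norm_smul, norm_smul, Real.norm_eq_abs, Real.norm_of_nonneg (inv_pos.2 h0').le]
  have c1 := mul_le_mul i3 b1 (norm_nonneg _) (by positivity)
  have c2 := mul_le_mul i2 b4 (norm_nonneg _) (by positivity)
  nlinarith [mul_nonneg (norm_nonneg (Φ - Ψ)) (norm_nonneg u)]

theorem bil_cx_cx_ChB1 (u w : H) : bil (cx u) (cx w) = ((⟪u, w⟫ : ℝ) : ℂ) := by
  rw [bil, ← (ob H).sum_inner_mul_inner u w, Complex.ofReal_sum]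
  refine Finset.sum_congr rfl fun k _ => ?_
  rw [cx_apply, cx_apply, Complex.ofReal_mul, real_inner_comm u]

theorem iso_ChB1 (ι : ℂ →ₗᵢ[ℝ] H) : bil (cx (ι 1)) (cx (ι 1)) = 1 ∧ bil (cx (ι 1)) (cx (ι I)) = 0 ∧
    bil (cx (ι I)) (cx (ι 1)) = 0 ∧ bil (cx (ι I)) (cx (ι I)) = 1 := by
  simp only [bil_cx_cx_ChB1, LinearIsometry.inner_map_map, Complex.inner]
  simp

theorem bil_zd_iso (ι : ℂ →ₗᵢ[ℝ] H) :
    bil (zd ι.toContinuousLinearMap) (zd ι.toContinuousLinearMap) = 0 := by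
  obtain ⟨B, hB⟩ := exists_bilL (H := H)
  obtain ⟨a, b, c, d⟩ := iso_ChB1 ι
  rw [← hB] at a b c d ⊢
  simp only [zd, map_smul, map_sub, ContinuousLinearMap.smul_apply, ContinuousLinearMap.sub_apply,
    LinearIsometry.coe_toContinuousLinearMap, a, b, c, d, smul_eq_mul]
  linear_combination (1 / 4 : ℂ) * Complex.I_mul_I

theorem om_zd_iso (ι : ℂ →ₗᵢ[ℝ] H) : om (zd ι.toContinuousLinearMap) = 1 := by
  have h := norm_sp_sq (bil_zd_iso ι) 1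
  rw [sp_zd, LinearIsometry.coe_toContinuousLinearMap, ι.norm_map] at h
  simpa using h.symm

theorem om_near (ι : ℂ →ₗᵢ[ℝ] H) {Φ : EC H} {ε : ℝ} (h : ‖Φ - zd ι.toContinuousLinearMap‖ ≤ ε)
    (hε : ε ≤ 1 / 100) : |om Φ - 1| ≤ 3 * ε := by
  have h1 := om_zd_iso ι
  have h2 := (abs_norm_sub_norm_le Φ (zd ι.toContinuousLinearMap)).trans h
  rw [om] at h1
  have h3 : ‖zd ι.toContinuousLinearMap‖ ≤ 71 / 100 :=
    le_of_sq_le_sq (by linarith) (by norm_num)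
  have h4 := (abs_le.1 h2).2
  rw [om, ← h1, show 2 * ‖Φ‖ ^ 2 - 2 * ‖zd ι.toContinuousLinearMap‖ ^ 2 =
    2 * (‖Φ‖ + ‖zd ι.toContinuousLinearMap‖) * (‖Φ‖ - ‖zd ι.toContinuousLinearMap‖) by ring,
    abs_mul, abs_of_nonneg (by positivity)]
  exact mul_le_mul (by linarith) h2 (abs_nonneg _) (by norm_num)

theorem bil_ep_ep (ι : ℂ →ₗᵢ[ℝ] H) : bil (ep ι) (ep ι) = 0 := by
  obtain ⟨B, hB⟩ := exists_bilL (H := H)
  obtain ⟨a, b, c, d⟩ := iso_ChB1 ι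
  rw [← hB] at a b c d ⊢
  simp only [ep, map_smul, map_add, ContinuousLinearMap.smul_apply, ContinuousLinearMap.add_apply,
    a, b, c, d, smul_eq_mul]
  linear_combination Complex.I_mul_I

theorem bil_zd_ep (ι : ℂ →ₗᵢ[ℝ] H) : bil (zd ι.toContinuousLinearMap) (ep ι) = 1 := by
  obtain ⟨B, hB⟩ := exists_bilL (H := H)
  obtain ⟨a, b, c, d⟩ := iso_ChB1 ι
  rw [← hB] at a b c d ⊢
  simp only [ep, zd, map_smul, map_add, map_sub, ContinuousLinearMap.smul_apply,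
    ContinuousLinearMap.add_apply, ContinuousLinearMap.sub_apply,
    LinearIsometry.coe_toContinuousLinearMap, a, b, c, d, smul_eq_mul]
  linear_combination (-1 / 2 : ℂ) * Complex.I_mul_I

theorem norm_ep_le (ι : ℂ →ₗᵢ[ℝ] H) : ‖ep ι‖ ≤ 3 / 2 := by
  have h := norm_add_sq (𝕜 := ℂ) (cx (ι 1)) (I • cx (ι I))
  have h2 : pr (cx (ι 1)) (ι I) = 0 := by
    have := bil_cx (cx (ι 1)) (ι I)
    rw [(iso_ChB1 ι).2.1] at this
    simpa using this.symm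
  rw [pr_eq_ChB1, mul_eq_zero, or_iff_right two_ne_zero] at h2
  rw [inner_smul_right, h2, norm_smul, norm_cx, norm_cx, ι.norm_map, ι.norm_map] at h
  simp only [mul_zero, map_zero, norm_one, Complex.norm_I] at h
  exact le_of_sq_le_sq (by rw [ep]; linarith) (by norm_num)

end Pool.Agent.Lib.MP_8daebb_an.SV.Ch
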