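import Pool.Agent.Lib.MP_8daebb_an.SV.ChB1

/-! Planes in an orthonormal basis; the tilt form. -/

open MeasureTheory Metric Set Complex
open scoped RealInnerProductSpace ComplexConjugate ContDiff

namespace Pool.Agent.Lib.MP_8daebb_an.SV.Ch

variable {H : Type*} [NormedAddCommGroup H] [InnerProductSpace ℝ H] [FiniteDimensional ℝ H]

theorem exists_fr {P : H →L[ℝ] H} (h : IsPlane 2 P) : ∃ u₁ u₂, Fr P u₁ u₂ := by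
  obtain ⟨hs, hi, hr⟩ := h
  let K := LinearMap.range (P : H →ₗ[ℝ] H)
  let b : OrthonormalBasis (Fin 2) ℝ K := (stdOrthonormalBasis ℝ K).reindex (finCongr hr)
  refine ⟨b 0, b 1, b.orthonormal.1 0, b.orthonormal.1 1,
    b.orthonormal.2 (show (0 : Fin 2) ≠ 1 by decide), fun x => ?_⟩
  have h1 := congrArg (fun v : K => (v : H)) (b.sum_repr' ⟨P x, ⟨x, rfl⟩⟩)
  have h2 : ∀ i, ⟪(b i : H), P x⟫ = ⟪(b i : H), x⟫ := fun i => by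
    obtain ⟨y, hy⟩ := (b i).2
    have : P (b i : H) = b i := by rw [← hy]; exact hi y
    rw [← hs, this]
  simp only [Fin.sum_univ_two, Submodule.coe_add, Submodule.coe_smul, Submodule.coe_inner,
    h2] at h1
  exact h1.symm

theorem Fr.symm {P : H →L[ℝ] H} {u₁ u₂ : H} (h : Fr P u₁ u₂) (v w : H) : ⟪P v, w⟫ = ⟪v, P w⟫ := by
  rw [h.eq v, h.eq w, inner_add_left, inner_add_right, real_inner_smul_left, real_inner_smul_left,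
    real_inner_smul_right, real_inner_smul_right, real_inner_comm u₁ v, real_inner_comm u₂ v]
  ring

theorem Fr.norm_sq {P : H →L[ℝ] H} {u₁ u₂ : H} (h : Fr P u₁ u₂) (v : H) :
    ‖P v‖ ^ 2 = ⟪u₁, v⟫ ^ 2 + ⟪u₂, v⟫ ^ 2 := by
  rw [h.eq v, norm_add_sq_real, norm_smul, norm_smul, real_inner_smul_left, real_inner_smul_right,
    h.n1, h.n2, h.o]
  simp

theorem Fr.inner_self {P : H →L[ℝ] H} {u₁ u₂ : H} (h : Fr P u₁ u₂) (v : H) :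
    ⟪P v, v⟫ = ‖P v‖ ^ 2 := by
  rw [h.norm_sq, h.eq v, inner_add_left, real_inner_smul_left, real_inner_smul_left]
  ring

theorem Fr.norm_le {P : H →L[ℝ] H} {u₁ u₂ : H} (h : Fr P u₁ u₂) (v : H) : ‖P v‖ ≤ ‖v‖ := by
  have h1 := real_inner_le_norm (P v) v
  rw [h.inner_self] at h1
  by_contra h2
  nlinarith [norm_nonneg v]

theorem Fr.trH {P : H →L[ℝ] H} {u₁ u₂ : H} (h : Fr P u₁ u₂) (M : H →L[ℝ] H) :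
    trH (P.comp M) = ⟪u₁, M u₁⟫ + ⟪u₂, M u₂⟫ := by
  have : ((P.comp M : H →L[ℝ] H) : H →ₗ[ℝ] H) =
      LinearMap.smulRight ((innerₛₗ ℝ u₁).comp (M : H →ₗ[ℝ] H)) u₁ +
        LinearMap.smulRight ((innerₛₗ ℝ u₂).comp (M : H →ₗ[ℝ] H)) u₂ := by
    ext x
    simp [h.eq]
  rw [SV.trH, this, map_add, LinearMap.trace_smulRight, LinearMap.trace_smulRight]
  rfl

theorem Fr.trH_mid {P : H →L[ℝ] H} {u₁ u₂ : H} (h : Fr P u₁ u₂) (M M' : H →L[ℝ] H) :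
    SV.trH (M.comp (P.comp M')) = ⟪u₁, M' (M u₁)⟫ + ⟪u₂, M' (M u₂)⟫ := by
  refine Eq.trans ?_ (h.trH (M'.comp M))
  exact LinearMap.trace_comp_comm' ((P.comp M' : H →L[ℝ] H) : H →ₗ[ℝ] H) (M : H →ₗ[ℝ] H)

theorem a0_apply_ChB2 (P : H →L[ℝ] H) {Φ : EC H} (hΦ : Cf Φ) (v : ℂ) :
    a0 Φ P v = v - tv Φ (P (sp Φ v)) := by
  simp [a0, hΦ.tv_sp]

theorem Fr.a0_eq_ChB2 {P : H →L[ℝ] H} {u₁ u₂ : H} (h : Fr P u₁ u₂) {Φ : EC H} (hΦ : Cf Φ) (v : ℂ) :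
    a0 Φ P v = v - ((om Φ * ⟪v, tv Φ u₁⟫) • tv Φ u₁ + (om Φ * ⟪v, tv Φ u₂⟫) • tv Φ u₂) := by
  rw [a0_apply_ChB2 P hΦ, h.eq, map_add, map_smul, map_smul, real_inner_comm, hΦ.inner_sp_tv,
    real_inner_comm (sp Φ v), hΦ.inner_sp_tv]

theorem Fr.s1_ChB2 {P : H →L[ℝ] H} {u₁ u₂ : H} (h : Fr P u₁ u₂) {Φ : EC H} (hΦ : Cf Φ) :
    om Φ * (‖tv Φ u₁‖ ^ 2 + ‖tv Φ u₂‖ ^ 2) = 2 - ft Φ P := by
  rw [ft, tr2, h.a0_eq_ChB2 hΦ, h.a0_eq_ChB2 hΦ, Complex.sq_norm, Complex.sq_norm]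
  simp [Complex.inner, normSq_apply]
  ring

theorem Fr.a0_form_ChB2 {P : H →L[ℝ] H} {u₁ u₂ : H} (h : Fr P u₁ u₂) {Φ : EC H} (hΦ : Cf Φ)
    (v : ℂ) : 2 * a0 Φ P v =
      (ft Φ P : ℂ) * v - (om Φ : ℂ) * (tv Φ u₁ ^ 2 + tv Φ u₂ ^ 2) * conj v := by
  have h1 : ft Φ P = 2 - om Φ * (‖tv Φ u₁‖ ^ 2 + ‖tv Φ u₂‖ ^ 2) := by linarith [h.s1_ChB2 hΦ]
  rw [h1, h.a0_eq_ChB2 hΦ, Complex.sq_norm, Complex.sq_norm]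
  apply Complex.ext <;> simp [Complex.inner, normSq_apply, sq] <;> ring

theorem Fr.a0_nonneg_ChB2 {P : H →L[ℝ] H} {u₁ u₂ : H} (h : Fr P u₁ u₂) {Φ : EC H} (hΦ : Cf Φ)
    (v : ℂ) : 0 ≤ ⟪a0 Φ P v, v⟫ := by
  have h1 : om Φ * ⟪a0 Φ P v, v⟫ = ‖sp Φ v‖ ^ 2 - ‖P (sp Φ v)‖ ^ 2 := by
    rw [a0_apply_ChB2 P hΦ, inner_sub_left, mul_sub, real_inner_comm v (tv Φ _), ← hΦ.inner_sp_tv,
      real_inner_comm (P _), h.inner_self, real_inner_self_eq_norm_sq, norm_sp_sq hΦ.conf]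
  have h2 := pow_le_pow_left₀ (norm_nonneg _) (h.norm_le (sp Φ v)) 2
  have h3 := hΦ.om_low
  by_contra h4
  nlinarith

theorem Fr.ft_eq {P : H →L[ℝ] H} {u₁ u₂ : H} (h : Fr P u₁ u₂) {Φ : EC H} (hΦ : Cf Φ) :
    ft Φ P = ‖pn Φ u₁‖ ^ 2 + ‖pn Φ u₂‖ ^ 2 := by
  have h1 := hΦ.pyth u₁
  have h2 := hΦ.pyth u₂
  rw [h.n1] at h1
  rw [h.n2] at h2
  linarith [h.s1_ChB2 hΦ]

theorem Fr.s1 {P : H →L[ℝ] H} {u₁ u₂ : H} (h : Fr P u₁ u₂) {Φ : EC H} (hΦ : Cf Φ) :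
    om Φ * (‖tv Φ u₁‖ ^ 2 + ‖tv Φ u₂‖ ^ 2) = 2 - ft Φ P := h.s1_ChB2 hΦ

theorem Fr.s2 {P : H →L[ℝ] H} {u₁ u₂ : H} (h : Fr P u₁ u₂) {Φ : EC H} (hΦ : Cf Φ) :
    ‖(om Φ : ℂ) * (tv Φ u₁ ^ 2 + tv Φ u₂ ^ 2)‖ ≤ ft Φ P := by
  obtain ⟨s, hs⟩ : ∃ s, s = (om Φ : ℂ) * (tv Φ u₁ ^ 2 + tv Φ u₂ ^ 2) := ⟨_, rfl⟩
  obtain ⟨z, hz⟩ := IsAlgClosed.exists_pow_nat_eq s two_pos
  have h1 := h.a0_nonneg_ChB2 hΦ z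
  have h2 : ⟪2 * a0 Φ P z, z⟫ = 2 * ⟪a0 Φ P z, z⟫ := by rw [two_mul, inner_add_left, two_mul]
  have h3 : ⟪(ft Φ P : ℂ) * z - z ^ 2 * conj z, z⟫ = ft Φ P * normSq z - normSq z ^ 2 := by
    simp [Complex.inner, normSq_apply, sq]
    ring
  rw [h.a0_form_ChB2 hΦ, ← hs, ← hz, h3] at h2
  rw [← hs, ← hz, norm_pow, Complex.sq_norm]
  have h4 : 0 ≤ ft Φ P := by rw [h.ft_eq hΦ]; positivity
  by_contra h5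
  nlinarith

theorem tv_P_sp (P : H →L[ℝ] H) {Φ : EC H} (hΦ : Cf Φ) (v : ℂ) :
    tv Φ (P (sp Φ v)) = v - a0 Φ P v := by
  rw [a0_apply_ChB2 P hΦ, sub_sub_cancel]

theorem ft_nonneg {P : H →L[ℝ] H} (h : IsPlane 2 P) {Φ : EC H} (hΦ : Cf Φ) : 0 ≤ ft Φ P := by
  obtain ⟨u₁, u₂, hf⟩ := exists_fr h
  rw [hf.ft_eq hΦ]
  positivity

theorem ft_le {P : H →L[ℝ] H} (h : IsPlane 2 P) {Φ : EC H} (hΦ : Cf Φ) : ft Φ P ≤ 2 := by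
  obtain ⟨u₁, u₂, hf⟩ := exists_fr h
  have h1 := hf.s1 hΦ
  have h2 : 0 ≤ om Φ * (‖tv Φ u₁‖ ^ 2 + ‖tv Φ u₂‖ ^ 2) :=
    mul_nonneg (by linarith [hΦ.om_low]) (by positivity)
  linarith

theorem a0_symm {P : H →L[ℝ] H} (h : IsPlane 2 P) {Φ : EC H} (hΦ : Cf Φ) (v w : ℂ) :
    ⟪a0 Φ P v, w⟫ = ⟪v, a0 Φ P w⟫ := by
  obtain ⟨u₁, u₂, hf⟩ := exists_fr h
  rw [hf.a0_eq_ChB2 hΦ, hf.a0_eq_ChB2 hΦ]
  simp only [inner_sub_right, inner_add_right, real_inner_smul_right, real_inner_comm w]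
  ring

theorem a0_nonneg {P : H →L[ℝ] H} (h : IsPlane 2 P) {Φ : EC H} (hΦ : Cf Φ) (v : ℂ) :
    0 ≤ ⟪a0 Φ P v, v⟫ := by
  obtain ⟨u₁, u₂, hf⟩ := exists_fr h
  exact hf.a0_nonneg_ChB2 hΦ v

theorem norm_a0_le {P : H →L[ℝ] H} (h : IsPlane 2 P) {Φ : EC H} (hΦ : Cf Φ) (v : ℂ) :
    ‖a0 Φ P v‖ ≤ ft Φ P * ‖v‖ := by
  obtain ⟨u₁, u₂, hf⟩ := exists_fr h
  have h1 := norm_sub_le ((ft Φ P : ℂ) * v) ((om Φ : ℂ) * (tv Φ u₁ ^ 2 + tv Φ u₂ ^ 2) * conj v)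
  rw [← hf.a0_form_ChB2 hΦ, norm_mul, norm_mul, norm_mul _ (conj v), Complex.norm_conj,
    Complex.norm_real, Real.norm_of_nonneg (ft_nonneg h hΦ), Complex.norm_ofNat] at h1
  linarith [mul_le_mul_of_nonneg_right (hf.s2 hΦ) (norm_nonneg v)]

theorem inner_pn_P_sp {P : H →L[ℝ] H} (h : IsPlane 2 P) {Φ : EC H} (hΦ : Cf Φ) (v w : ℂ) :
    ⟪pn Φ (P (sp Φ v)), pn Φ (P (sp Φ w))⟫ = om Φ * (⟪a0 Φ P v, w⟫ - ⟪a0 Φ P v, a0 Φ P w⟫) := by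
  have h1 : ∀ a b : H, ⟪pn Φ a, pn Φ b⟫ = ⟪a, b⟫ - om Φ * ⟪tv Φ a, tv Φ b⟫ := fun a b => by
    rw [pn_apply, pn_apply, inner_sub_left, inner_sub_right, inner_sub_right,
      inner_sp_sp hΦ.conf, hΦ.inner_sp_tv, real_inner_comm (sp Φ _), hΦ.inner_sp_tv,
      real_inner_comm (tv Φ a)]
    ring
  rw [h1, h.1, h.2.1, hΦ.inner_sp_tv, tv_P_sp P hΦ, tv_P_sp P hΦ]
  simp only [inner_sub_left, inner_sub_right]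
  ring

theorem norm_pn_P_le {P : H →L[ℝ] H} (h : IsPlane 2 P) {Φ : EC H} (hΦ : Cf Φ) (e : H) :
    ‖pn Φ (P e)‖ ≤ √(ft Φ P) * ‖e‖ := by
  obtain ⟨u₁, u₂, hf⟩ := exists_fr h
  have h1 := pow_le_pow_left₀ (norm_nonneg _) (hf.norm_le e) 2
  rw [hf.norm_sq, ← sq_abs ⟪u₁, e⟫, ← sq_abs ⟪u₂, e⟫] at h1
  have h2 : ‖pn Φ (P e)‖ ≤ |⟪u₁, e⟫| * ‖pn Φ u₁‖ + |⟪u₂, e⟫| * ‖pn Φ u₂‖ := by
    rw [hf.eq, map_add, map_smul, map_smul]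
    refine (norm_add_le _ _).trans (le_of_eq ?_)
    rw [norm_smul, norm_smul, Real.norm_eq_abs, Real.norm_eq_abs]
  refine h2.trans ((sq_le_sq₀ (by positivity) (by positivity)).1 ?_)
  rw [mul_pow, Real.sq_sqrt (ft_nonneg h hΦ), hf.ft_eq hΦ]
  nlinarith [sq_nonneg (|⟪u₁, e⟫| * ‖pn Φ u₂‖ - |⟪u₂, e⟫| * ‖pn Φ u₁‖),
    mul_le_mul_of_nonneg_left h1 (add_nonneg (sq_nonneg ‖pn Φ u₁‖) (sq_nonneg ‖pn Φ u₂‖))]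

theorem norm_P_pn_le {P : H →L[ℝ] H} (h : IsPlane 2 P) {Φ : EC H} (hΦ : Cf Φ) (e : H) :
    ‖P (pn Φ e)‖ ≤ √(ft Φ P) * ‖e‖ := by
  obtain ⟨u₁, u₂, hf⟩ := exists_fr h
  have h1 : ∀ u : H, ⟪u, pn Φ e⟫ ^ 2 ≤ ‖pn Φ u‖ ^ 2 * ‖e‖ ^ 2 := fun u => by
    rw [← hΦ.pn_symm, ← mul_pow, ← sq_abs]
    exact pow_le_pow_left₀ (abs_nonneg _) (abs_real_inner_le_norm _ _) 2
  refine (sq_le_sq₀ (by positivity) (by positivity)).1 ?_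
  rw [mul_pow, Real.sq_sqrt (ft_nonneg h hΦ), hf.ft_eq hΦ, hf.norm_sq]
  linarith [h1 u₁, h1 u₂]

theorem sqrt_ft_sub {P : H →L[ℝ] H} (h : IsPlane 2 P) {Φ Ψ : EC H} (hΦ : Cf Φ) (hΨ : Cf Ψ) :
    |√(ft Φ P) - √(ft Ψ P)| ≤ 20 * ‖Φ - Ψ‖ := by
  obtain ⟨u₁, u₂, hf⟩ := exists_fr h
  have h1 : ∀ {Ξ : EC H}, Cf Ξ → √(ft Ξ P) = ‖(⟨‖pn Ξ u₁‖, ‖pn Ξ u₂‖⟩ : ℂ)‖ := fun hΞ => by
    rw [hf.ft_eq hΞ, Complex.norm_eq_sqrt_sq_add_sq]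
  have h2 : ∀ u : H, ‖u‖ = 1 → |‖pn Φ u‖ - ‖pn Ψ u‖| ≤ 10 * ‖Φ - Ψ‖ := fun u hu => by
    have h3 := (pn Φ - pn Ψ).le_opNorm u
    rw [hu, mul_one] at h3
    exact (abs_norm_sub_norm_le _ _).trans (h3.trans (hΦ.pn_sub hΨ))
  rw [h1 hΦ, h1 hΨ]
  refine (abs_norm_sub_norm_le _ _).trans ((Complex.norm_le_abs_re_add_abs_im _).trans ?_)
  simp only [Complex.sub_re, Complex.sub_im]
  linarith [h2 u₁ hf.n1, h2 u₂ hf.n2]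

end Pool.Agent.Lib.MP_8daebb_an.SV.Ch
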