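import Pool.Agent.Lib.MP_8daebb_an.SV.ChB2

/-! First consequences of `Jet`. -/

open MeasureTheory Metric Set Complex
open scoped RealInnerProductSpace ComplexConjugate ContDiff

namespace Pool.Agent.Lib.MP_8daebb_an.SV.Ch

variable {H : Type*} [NormedAddCommGroup H] [InnerProductSpace ℝ H] [FiniteDimensional ℝ H]

variable {ε : ℝ} {Φ Φ₁ Φ₂ : EC H} {y : H}

theorem dx_apply (Φ Φ₁ : EC H) (y u : H) : dx Φ Φ₁ y u =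
    ((1 - ‖mu Φ Φ₁ y‖ ^ 2)⁻¹ : ℝ) * (tv Φ u + mu Φ Φ₁ y * conj (tv Φ u)) := by
  rw [← Complex.real_smul]
  rfl

theorem dy_apply (Φ Φ₁ : EC H) (y u : H) : dy Φ Φ₁ y u = u - sp Φ (dx Φ Φ₁ y u) := rfl

theorem xi_apply (Φ Φ₁ : EC H) (y : H) (Y : ℂ) :
    xi Φ Φ₁ y Y = sp Φ (Y - mu Φ Φ₁ y * conj Y) := rfl

omit [FiniteDimensional ℝ H] in
theorem Cf.om_pos_ChB3 (h : Cf Φ) : 0 < om Φ := by linarith [h.om_low]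

theorem Cf.norm_mu_le (h : Cf Φ) (Ψ : EC H) (u : H) : ‖mu Φ Ψ u‖ ≤ 5 / 2 * ‖Ψ‖ * ‖u‖ := by
  have h0 := h.om_pos_ChB3
  have h1 := Ch.norm_pr_le Ψ u
  have h2 : 0 ≤ ‖Ψ‖ * ‖u‖ := by positivity
  rw [mu, norm_smul, Real.norm_eq_abs, abs_of_pos (inv_pos.2 h0), inv_mul_le_iff₀ h0]
  nlinarith [h.om_low]

theorem Jet.mu_le (h : Jet ε Φ Φ₁ Φ₂ y) : ‖mu Φ Φ₁ y‖ ≤ 3 * ε * ‖y‖ := by
  have h1 := h.cf.norm_mu_le Φ₁ y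
  have h2 := mul_le_mul_of_nonneg_right h.n1 (norm_nonneg y)
  have h3 := mul_nonneg h.eps0 (norm_nonneg y)
  linarith

theorem Jet.ey_ChB3 (h : Jet ε Φ Φ₁ Φ₂ y) : ε * ‖y‖ ≤ 1 / 100 :=
  (mul_le_of_le_one_right h.eps0 h.y1).trans h.eps1

theorem Jet.mu_small (h : Jet ε Φ Φ₁ Φ₂ y) : ‖mu Φ Φ₁ y‖ ≤ 3 / 100 := by
  linarith [h.mu_le, h.ey_ChB3]

theorem Jet.al_le (h : Jet ε Φ Φ₁ Φ₂ y) : ‖al Φ Φ₁‖ ≤ 2 * ε := by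
  have h0 := h.cf.om_pos_ChB3
  have h1 : ‖inner ℂ Φ Φ₁‖ ≤ 3 / 4 * ε := (norm_inner_le_norm Φ Φ₁).trans
    (mul_le_mul h.cf.norm_le h.n1 (norm_nonneg _) (by norm_num))
  rw [al, norm_mul, Complex.norm_real, Real.norm_eq_abs, abs_of_pos (by positivity),
    div_mul_eq_mul_div, div_le_iff₀ h0]
  nlinarith [h.cf.om_low, h.eps0]

omit [FiniteDimensional ℝ H] in
theorem Cf.om_al_ChB3 (h : Cf Φ) (Φ₁ : EC H) : (om Φ : ℂ) * al Φ Φ₁ = 2 * inner ℂ Φ Φ₁ := by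
  have h0 : (om Φ : ℂ) ≠ 0 := by exact_mod_cast h.om_pos_ChB3.ne'
  rw [al]
  push_cast
  field_simp

theorem Jet.pr1_sp (h : Jet ε Φ Φ₁ Φ₂ y) (v : ℂ) :
    pr Φ₁ (sp Φ v) = (om Φ : ℂ) * conj (al Φ Φ₁) * v := by
  have h1 := congrArg conj (h.cf.om_al_ChB3 Φ₁)
  rw [map_mul, map_mul, conj_ofReal, inner_conj_symm, map_ofNat] at h1
  rw [pr_sp, bil_comm, h.conf1, h1, map_zero]
  ring

theorem Jet.pr_sp1 (h : Jet ε Φ Φ₁ Φ₂ y) (v : ℂ) :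
    pr Φ (sp Φ₁ v) = (om Φ : ℂ) * al Φ Φ₁ * v := by
  rw [pr_sp, h.conf1, h.cf.om_al_ChB3, map_zero]
  ring

theorem Jet.unit_ChB3 (h : Jet ε Φ Φ₁ Φ₂ y) :
    (((1 - ‖mu Φ Φ₁ y‖ ^ 2)⁻¹ : ℝ) : ℂ) * (1 - mu Φ Φ₁ y * conj (mu Φ Φ₁ y)) = 1 := by
  have h1 := h.mu_small
  have h2 : 1 - ‖mu Φ Φ₁ y‖ ^ 2 ≠ 0 := by nlinarith [norm_nonneg (mu Φ Φ₁ y)]
  rw [mul_conj, normSq_eq_norm_sq]
  exact_mod_cast inv_mul_cancel₀ h2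

theorem Jet.dx_eq (h : Jet ε Φ Φ₁ Φ₂ y) (u : H) :
    dx Φ Φ₁ y u - mu Φ Φ₁ y * conj (dx Φ Φ₁ y u) = tv Φ u := by
  rw [dx_apply, map_mul, map_add, map_mul, conj_ofReal, conj_conj]
  linear_combination tv Φ u * h.unit_ChB3

theorem Jet.dx_xi (h : Jet ε Φ Φ₁ Φ₂ y) (Y : ℂ) : dx Φ Φ₁ y (xi Φ Φ₁ y Y) = Y := by
  rw [dx_apply, xi_apply, h.cf.tv_sp, map_sub, map_mul, conj_conj]
  linear_combination Y * h.unit_ChB3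

theorem Jet.norm_sub_ChB3 (h : Jet ε Φ Φ₁ Φ₂ y) (u : H) :
    ‖dx Φ Φ₁ y u - tv Φ u‖ = ‖mu Φ Φ₁ y‖ * ‖dx Φ Φ₁ y u‖ := by
  rw [← h.dx_eq u, sub_sub_cancel, norm_mul, norm_conj]

theorem Jet.norm_dx_le_tv (h : Jet ε Φ Φ₁ Φ₂ y) (u : H) :
    ‖dx Φ Φ₁ y u‖ ≤ 26 / 25 * ‖tv Φ u‖ := by
  have h1 := norm_sub_norm_le (dx Φ Φ₁ y u) (tv Φ u)
  rw [h.norm_sub_ChB3] at h1
  have h2 := mul_le_mul_of_nonneg_right h.mu_small (norm_nonneg (dx Φ Φ₁ y u))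
  linarith [norm_nonneg (tv Φ u)]

theorem Jet.norm_dx_le (h : Jet ε Φ Φ₁ Φ₂ y) (u : H) : ‖dx Φ Φ₁ y u‖ ≤ 6 / 5 * ‖u‖ := by
  linarith [h.norm_dx_le_tv u, h.cf.norm_tv_le u, norm_nonneg u]

theorem Jet.dx_sub_tv (h : Jet ε Φ Φ₁ Φ₂ y) (u : H) :
    ‖dx Φ Φ₁ y u - tv Φ u‖ ≤ 4 * ε * ‖y‖ * ‖tv Φ u‖ := by
  have h0 := mul_nonneg h.eps0 (norm_nonneg y)
  have h1 := mul_le_mul h.mu_le (h.norm_dx_le_tv u) (norm_nonneg _) (by linarith)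
  have h2 := mul_nonneg h0 (norm_nonneg (tv Φ u))
  rw [h.norm_sub_ChB3]
  linarith

theorem Jet.dy_eq (h : Jet ε Φ Φ₁ Φ₂ y) (u : H) :
    dy Φ Φ₁ y u = pn Φ u - sp Φ (mu Φ Φ₁ y * conj (dx Φ Φ₁ y u)) := by
  rw [dy_apply, pn_apply, ← h.dx_eq u, map_sub]
  abel

theorem sym_ChB3 (c : ℝ) (m t v : ℂ) :
    ⟪(c : ℂ) * (t + m * conj t), v⟫ = ⟪(c : ℂ) * (v + m * conj v), t⟫ := by
  simp only [Complex.inner, map_mul, map_add, conj_ofReal, conj_conj, mul_re, mul_im, add_re,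
    add_im, conj_re, conj_im, ofReal_re, ofReal_im]
  ring

theorem Jet.adj_ChB3 (h : Jet ε Φ Φ₁ Φ₂ y) (u : H) (v : ℂ) : om Φ * ⟪dx Φ Φ₁ y u, v⟫ =
    ⟪u, sp Φ (((1 - ‖mu Φ Φ₁ y‖ ^ 2)⁻¹ : ℝ) * (v + mu Φ Φ₁ y * conj v))⟫ := by
  rw [real_inner_comm (sp Φ _) u, h.cf.inner_sp_tv, dx_apply, sym_ChB3]

theorem Jet.dy_symm (h : Jet ε Φ Φ₁ Φ₂ y) (u w : H) :
    ⟪dy Φ Φ₁ y u, w⟫ = ⟪u, dy Φ Φ₁ y w⟫ := by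
  rw [dy_apply, dy_apply, inner_sub_left, inner_sub_right, h.cf.inner_sp_tv, h.adj_ChB3,
    ← dx_apply]

theorem Jet.norm_dy_sq (h : Jet ε Φ Φ₁ Φ₂ y) (u : H) : ‖dy Φ Φ₁ y u‖ ^ 2 =
    ‖pn Φ u‖ ^ 2 + om Φ * (‖mu Φ Φ₁ y‖ * ‖dx Φ Φ₁ y u‖) ^ 2 := by
  rw [h.dy_eq, norm_sub_sq_real, real_inner_comm, inner_sp, h.cf.pr_pn, norm_sp_sq h.cf.conf,
    norm_mul, norm_conj]
  simp

theorem Jet.norm_dy_le (h : Jet ε Φ Φ₁ Φ₂ y) (u : H) : ‖dy Φ Φ₁ y u‖ ≤ ‖u‖ := by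
  refine (sq_le_sq₀ (norm_nonneg _) (norm_nonneg _)).1 ?_
  rw [h.norm_dy_sq, h.cf.pyth u, add_comm]
  have h1 := mul_le_mul h.mu_small (h.norm_dx_le_tv u) (norm_nonneg _) (by norm_num)
  have h2 : ‖mu Φ Φ₁ y‖ * ‖dx Φ Φ₁ y u‖ ≤ ‖tv Φ u‖ := by linarith [norm_nonneg (tv Φ u)]
  have h3 := h.cf.om_pos_ChB3
  gcongr

theorem Jet.md_ChB3 (h : Jet ε Φ Φ₁ Φ₂ y) (u : H) :
    ‖mu Φ Φ₁ y * conj (dx Φ Φ₁ y u)‖ ≤ 18 / 5 * (ε * ‖y‖ * ‖u‖) := by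
  have h0 := mul_nonneg h.eps0 (norm_nonneg y)
  have h1 := mul_le_mul h.mu_le (h.norm_dx_le u) (norm_nonneg _) (by linarith)
  rw [norm_mul, norm_conj]
  linarith

theorem Jet.dy_sub_pn (h : Jet ε Φ Φ₁ Φ₂ y) (u : H) :
    ‖dy Φ Φ₁ y u - pn Φ u‖ ≤ 4 * ε * ‖y‖ * ‖u‖ := by
  have h0 := mul_nonneg (mul_nonneg h.eps0 (norm_nonneg y)) (norm_nonneg u)
  have h1 := h.cf.norm_sp_le (mu Φ Φ₁ y * conj (dx Φ Φ₁ y u))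
  rw [h.dy_eq, sub_sub_cancel_left, norm_neg]
  linarith [h.md_ChB3 u]

theorem Jet.tv_y (h : Jet ε Φ Φ₁ Φ₂ y) : tv Φ y = 0 := by
  rw [tv, smul_apply, h.nor, smul_zero]

theorem Jet.dx_y (h : Jet ε Φ Φ₁ Φ₂ y) : dx Φ Φ₁ y y = 0 := by
  rw [dx_apply, h.tv_y]
  simp

theorem Jet.dy_y (h : Jet ε Φ Φ₁ Φ₂ y) : dy Φ Φ₁ y y = y := by
  rw [dy_apply, h.dx_y, map_zero, sub_zero]

theorem Jet.dx_adj (h : Jet ε Φ Φ₁ Φ₂ y) (u : H) (v : ℂ) : om Φ * ⟪dx Φ Φ₁ y u, v⟫ =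
    ⟪u, sp Φ (((1 - ‖mu Φ Φ₁ y‖ ^ 2)⁻¹ : ℝ) * (v + mu Φ Φ₁ y * conj v))⟫ := h.adj_ChB3 u v

theorem Jet.norm_P_dy_le (h : Jet ε Φ Φ₁ Φ₂ y) {P : H →L[ℝ] H} (hP : IsPlane 2 P) (e : H) :
    ‖P (dy Φ Φ₁ y e)‖ ≤ (√(ft Φ P) + 4 * ε * ‖y‖) * ‖e‖ := by
  obtain ⟨u₁, u₂, hf⟩ := exists_fr hP
  have h1 : P (dy Φ Φ₁ y e) = P (pn Φ e) + P (dy Φ Φ₁ y e - pn Φ e) := by
    rw [map_sub, add_sub_cancel]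
  rw [h1, add_mul]
  exact (norm_add_le _ _).trans
    (add_le_add (norm_P_pn_le hP h.cf e) ((hf.norm_le _).trans (h.dy_sub_pn e)))

theorem dlw_apply_ChB3 (Φ Φ₁ : EC H) (y u : H) :
    dlw Φ Φ₁ y u = 2 * (al Φ Φ₁ * dx Φ Φ₁ y u).re := rfl

theorem Jet.norm_dlw_le (h : Jet ε Φ Φ₁ Φ₂ y) (u : H) : |dlw Φ Φ₁ y u| ≤ 5 * ε * ‖u‖ := by
  have h1 := abs_re_le_norm (al Φ Φ₁ * dx Φ Φ₁ y u)
  have h2 := mul_le_mul h.al_le (h.norm_dx_le u) (norm_nonneg _) (by linarith [h.eps0])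
  have h3 := mul_nonneg h.eps0 (norm_nonneg u)
  rw [norm_mul] at h1
  rw [dlw_apply_ChB3, abs_mul, abs_two]
  linarith

theorem dmu_apply_ChB3 (Φ Φ₁ Φ₂ : EC H) (y u : H) : dmu Φ Φ₁ Φ₂ y u =
    -(dlw Φ Φ₁ y u • mu Φ Φ₁ y) + mu Φ Φ₂ y * conj (dx Φ Φ₁ y u) +
      (om Φ)⁻¹ • pr Φ₁ (dy Φ Φ₁ y u) := rfl

theorem Jet.dmu_near (h : Jet ε Φ Φ₁ Φ₂ y) (u : H) :
    ‖dmu Φ Φ₁ Φ₂ y u - mu Φ Φ₁ (pn Φ u)‖ ≤ 10 * ε * ‖y‖ * ‖u‖ := by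
  have h0 : (om Φ : ℂ) ≠ 0 := by exact_mod_cast h.cf.om_pos_ChB3.ne'
  have e : dmu Φ Φ₁ Φ₂ y u - mu Φ Φ₁ (pn Φ u) = -(dlw Φ Φ₁ y u • mu Φ Φ₁ y) +
      mu Φ Φ₂ y * conj (dx Φ Φ₁ y u) - conj (al Φ Φ₁) * (mu Φ Φ₁ y * conj (dx Φ Φ₁ y u)) := by
    rw [dmu_apply_ChB3, h.dy_eq, map_sub, h.pr1_sp, smul_sub, ← mu, real_smul (x := (om Φ)⁻¹)]
    push_cast
    field_simp
    ring
  have he := h.eps0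
  have h1 : 0 ≤ ε * ‖y‖ * ‖u‖ := by positivity
  have h2 : ε * (ε * ‖y‖ * ‖u‖) ≤ 1 / 100 * (ε * ‖y‖ * ‖u‖) :=
    mul_le_mul_of_nonneg_right h.eps1 h1
  have a1 : ‖-(dlw Φ Φ₁ y u • mu Φ Φ₁ y)‖ ≤ 5 * ε * ‖u‖ * (3 * ε * ‖y‖) := by
    rw [norm_neg, norm_smul, Real.norm_eq_abs]
    exact mul_le_mul (h.norm_dlw_le u) h.mu_le (norm_nonneg _) (by positivity)
  have a2 : ‖mu Φ Φ₂ y * conj (dx Φ Φ₁ y u)‖ ≤ 5 / 2 * ε * ‖y‖ * (6 / 5 * ‖u‖) := by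
    rw [norm_mul, norm_conj]
    refine mul_le_mul ((h.cf.norm_mu_le Φ₂ y).trans ?_) (h.norm_dx_le u) (norm_nonneg _)
      (by positivity)
    have := h.n2
    gcongr
  have a3 : ‖conj (al Φ Φ₁) * (mu Φ Φ₁ y * conj (dx Φ Φ₁ y u))‖ ≤
      2 * ε * (18 / 5 * (ε * ‖y‖ * ‖u‖)) := by
    rw [norm_mul, norm_conj]
    exact mul_le_mul h.al_le (h.md_ChB3 u) (norm_nonneg _) (by positivity)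
  rw [e]
  refine (norm_sub_le _ _).trans ((add_le_add (norm_add_le _ _) le_rfl).trans ?_)
  linarith

theorem Jet.norm_dmu_le (h : Jet ε Φ Φ₁ Φ₂ y) (u : H) : ‖dmu Φ Φ₁ Φ₂ y u‖ ≤ 13 * ε * ‖u‖ := by
  have he := h.eps0
  have h1 := norm_sub_norm_le (dmu Φ Φ₁ Φ₂ y u) (mu Φ Φ₁ (pn Φ u))
  have h2 := h.dmu_near u
  have h3 : ‖mu Φ Φ₁ (pn Φ u)‖ ≤ 5 / 2 * ε * ‖u‖ := by
    refine (h.cf.norm_mu_le Φ₁ _).trans ?_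
    have := h.n1
    have := h.cf.norm_pn_le u
    gcongr
  have h4 : 10 * ε * ‖y‖ * ‖u‖ ≤ 10 * ε * 1 * ‖u‖ := by
    have := h.y1
    gcongr
  have h5 := mul_nonneg he (norm_nonneg u)
  linarith

end Pool.Agent.Lib.MP_8daebb_an.SV.Ch
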