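import Pool.Agent.Lib.MP_8daebb_an.SV.ChD1

/-! Two centres: pointwise comparison. -/

open MeasureTheory Metric Set Complex Filter Topology
open scoped RealInnerProductSpace ComplexConjugate ContDiff ENNReal

namespace Pool.Agent.Lib.MP_8daebb_an.SV.Ch

variable {H : Type*} [NormedAddCommGroup H] [InnerProductSpace ℝ H] [FiniteDimensional ℝ H]

variable {ι : ℂ →ₗᵢ[ℝ] H} {c c' : Cen H} {ε ε' R R' κ : ℝ}

theorem lipF_ChC1 (h : Pre ι c ε R) (hε : ε ≤ 1 / 100) {z w : ℂ} (hz : z ∈ ball (0 : ℂ) R)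
    (hw : w ∈ ball (0 : ℂ) R) : ‖c.F z - c.F w‖ ≤ 51 / 50 * ‖z - w‖ := by
  have h1 := h.near_iso hz hw
  have h2 := norm_le_norm_add_norm_sub' (c.F z - c.F w) (ι (z - w))
  rw [ι.norm_map] at h2
  nlinarith [norm_nonneg (z - w)]

theorem pr_diff_ChC1 {Φ Ψ : EC H} {u : H} (hu : pr Ψ u = 0) {a : ℝ} (ha : ‖Φ - Ψ‖ ≤ a) :
    ‖pr Φ u‖ ≤ 2 * a * ‖u‖ := by
  have h1 : pr Φ u = pr (Φ - Ψ) u := by
    rw [map_sub, sub_apply, hu, sub_zero]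
  rw [h1]
  exact (norm_pr_le _ _).trans (by gcongr)

theorem sub_pn_ChC1 {Φ : EC H} (h : Cf Φ) (u : H) : ‖u - pn Φ u‖ ≤ 6 / 5 * ‖pr Φ u‖ := by
  have h0 := h.om_low
  have h1 : ‖tv Φ u‖ ≤ 10 / 9 * ‖pr Φ u‖ := by
    rw [tv, smul_apply, norm_smul, Real.norm_of_nonneg (by positivity)]
    refine mul_le_mul_of_nonneg_right ?_ (norm_nonneg _)
    rw [inv_le_comm₀ (by linarith) (by norm_num)]
    linarith
  rw [pn_apply, sub_sub_cancel]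
  refine (h.norm_sp_le _).trans ?_
  linarith [norm_nonneg (pr Φ u)]

theorem core_ChC1 (h : Pre ι c ε R) (hε : ε ≤ 1 / 100) (hR : R ≤ 2) (h' : Pre ι c' ε' R')
    (hε' : ε' ≤ 1 / 100) (hR' : R' ≤ 2) (hκ0 : 0 ≤ κ) (hκ : κ ≤ 1 / 100) {p : H} {x' : ℂ}
    (hx' : c'.IsFoot R' p x') (hy : ‖p - c'.F x'‖ ≤ 1 / 2) (hF : ‖c'.F x' - c.F x'‖ ≤ κ)
    (hΦ : ‖c.Φ x' - c'.Φ x'‖ ≤ κ) (hroom : ‖x'‖ + 4 * κ < R) :
    ∃ x, c.IsFoot R p x ∧ ‖x - x'‖ ≤ 4 * κ := by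
  have hb : x' ∈ ball (0 : ℂ) R := mem_ball_zero_iff.2 (by linarith)
  have hp := h'.foot_norm_lt hε' hR' hx'
  have e : p - c.F x' = (p - c'.F x') + (c'.F x' - c.F x') := by abel
  obtain ⟨x, h1, h2⟩ := h.exists_foot hε hR (p := p) (by linarith) (x₀ := x') (r := 4 * κ)
    (by linarith) hroom (by
      have g1 := pr_diff_ChC1 hx'.2.1 hΦ
      have g2 := (h.cf hε hb).norm_pr_le (c'.F x' - c.F x')
      rw [e, map_add]
      refine (norm_add_le _ _).trans ?_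
      nlinarith)
  have hx : x ∈ ball (0 : ℂ) R := by
    have := norm_le_norm_add_norm_sub' x x'
    exact mem_ball_zero_iff.2 (by linarith)
  refine ⟨x, ⟨hx, h2, ?_⟩, h1⟩
  have g1 := lipF_ChC1 h hε hb hx
  rw [norm_sub_rev x'] at g1
  have g2 : p - c.F x = (p - c'.F x') + (c'.F x' - c.F x') + (c.F x' - c.F x) := by abel
  rw [g2]
  refine norm_add₃_le.trans_lt ?_
  linarith

theorem cmp_back (h : Pre ι c ε R) (hε : ε ≤ 1 / 100) (hR : R ≤ 2) (h' : Pre ι c' ε' R')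
    (hε' : ε' ≤ 1 / 100) (hRR : R' ≤ R) (hc : Close c c' κ R') (hκ0 : 0 ≤ κ) (hκ : κ ≤ 1 / 100)
    (hroom : R' + 4 * κ ≤ R) {p : H} (hp : p ∈ c'.tube R') (hy : ‖c'.ht R' p‖ ≤ 1 / 2) :
    p ∈ c.tube R ∧ ‖c'.foot R' p - c.foot R p‖ ≤ 4 * κ := by
  have hx' := Cen.foot_spec hp
  have g := hc _ hx'.1
  obtain ⟨x, h1, h2⟩ := core_ChC1 h hε hR h' hε' (hRR.trans hR) hκ0 hκ hx' hy g.1
    (by rw [norm_sub_rev]; exact g.2) (by linarith [mem_ball_zero_iff.1 hx'.1])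
  exact ⟨⟨x, h1⟩, by rwa [h.foot_eq hε hR h1, norm_sub_rev]⟩

theorem cmp_fwd (h : Pre ι c ε R) (hε : ε ≤ 1 / 100) (hR : R ≤ 2) (h' : Pre ι c' ε' R')
    (hε' : ε' ≤ 1 / 100) (hRR : R' ≤ R) (hc : Close c c' κ R') (hκ0 : 0 ≤ κ) (hκ : κ ≤ 1 / 100)
    {p : H} (hp : p ∈ c.tube R) (hy : ‖c.ht R p‖ ≤ 1 / 2) (hx : ‖c.foot R p‖ + 4 * κ < R') :
    p ∈ c'.tube R' ∧ ‖c'.foot R' p - c.foot R p‖ ≤ 4 * κ := by
  have g := hc (c.foot R p) (mem_ball_zero_iff.2 (by linarith))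
  obtain ⟨x, h1, h2⟩ := core_ChC1 h' hε' (hRR.trans hR) h hε hR hκ0 hκ (Cen.foot_spec hp) hy
    (by rw [norm_sub_rev]; exact g.1) g.2 hx
  exact ⟨⟨x, h1⟩, by rwa [h'.foot_eq hε' (hRR.trans hR) h1]⟩

theorem cmp_near (h : Pre ι c ε R) (hε : ε ≤ 1 / 100) (hR : R ≤ 2) (h' : Pre ι c' ε' R')
    (hε' : ε' ≤ 1 / 100) (hRR : R' ≤ R) (hc : Close c c' κ R') (hκ0 : 0 ≤ κ) (hκ : κ ≤ 1 / 100)
    {p : H} (hp : p ∈ c.tube R) (hp' : p ∈ c'.tube R')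
    (hx : ‖c'.foot R' p - c.foot R p‖ ≤ 4 * κ) :
    ‖c'.ht R' p - c.ht R p‖ ≤ 6 * κ ∧ ‖c'.j0 R' p - c.j0 R p‖ ≤ 2 * κ ∧
      |om (c'.j0 R' p) - om (c.j0 R p)| ≤ 6 * κ ∧
      ‖c'.ht R' p - c.ht R p + pn (c.Φ (c'.foot R' p)) (c'.F (c'.foot R' p) - c.F (c'.foot R' p))‖ ≤
        20 * κ * (κ + ‖c.ht R p‖) := by
  have hf := Cen.foot_spec hp
  have hf' := Cen.foot_spec hp'
  simp only [Cen.ht, Cen.j0]
  generalize c.foot R p = x at *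
  generalize c'.foot R' p = x' at *
  have hb : x' ∈ ball (0 : ℂ) R := ball_subset_ball hRR hf'.1
  have g := hc x' hf'.1
  have h0 := h.eps_nonneg
  have cf := h.cf hε hb
  have a1 : ‖p - c'.F x' - (p - c.F x)‖ ≤ 6 * κ := by
    have g1 := lipF_ChC1 h hε hb hf.1
    rw [show p - c'.F x' - (p - c.F x) = -((c'.F x' - c.F x') + (c.F x' - c.F x)) by abel,
      norm_neg]
    refine (norm_add_le _ _).trans ?_
    linarith [g.1]
  have a0 : ‖c.Φ x' - c.Φ x‖ ≤ κ / 25 := by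
    refine (h.lip0 hb hf.1).trans ?_
    nlinarith [norm_nonneg (x' - x)]
  have a2 : ‖c'.Φ x' - c.Φ x‖ ≤ 2 * κ := by
    have := norm_sub_le_norm_sub_add_norm_sub (c'.Φ x') (c.Φ x') (c.Φ x)
    linarith [g.2]
  refine ⟨a1, a2, ((h'.cf hε' hf'.1).om_sub (h.cf hε hf.1)).trans (by linarith), ?_⟩
  have b1 := pr_diff_ChC1 (Φ := c.Φ x') (a := κ) hf'.2.1 (by rw [norm_sub_rev]; exact g.2)
  have b2 := pr_diff_ChC1 hf.2.1 a0
  have b3 := sub_pn_ChC1 cf (p - c'.F x')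
  have b4 := sub_pn_ChC1 cf (p - c.F x)
  have b5 := (cf.norm_pn_le _).trans (h.taylor hf.1 hb)
  have b6 := norm_le_norm_add_norm_sub' (p - c'.F x') (p - c.F x)
  have b7 : ‖x - x'‖ ^ 2 ≤ (4 * κ) ^ 2 := by
    rw [norm_sub_rev]
    gcongr
  have e : p - c'.F x' - (p - c.F x) + pn (c.Φ x') (c'.F x' - c.F x') =
      (p - c'.F x' - pn (c.Φ x') (p - c'.F x')) + -(p - c.F x - pn (c.Φ x') (p - c.F x)) +
        pn (c.Φ x') (c.F x - c.F x' - sp (c.Φ x') (x - x')) := by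
    rw [map_sub _ _ (sp _ _), cf.pn_sp]
    simp only [map_sub]
    abel
  rw [e]
  refine norm_add₃_le.trans ?_
  rw [norm_neg]
  have b8 : κ * ‖p - c'.F x'‖ ≤ κ * (‖p - c.F x‖ + 6 * κ) :=
    mul_le_mul_of_nonneg_left (by linarith) hκ0
  have b9 : ε * ‖x - x'‖ ^ 2 ≤ 1 / 100 * (4 * κ) ^ 2 := by gcongr
  nlinarith [mul_nonneg hκ0 (norm_nonneg (p - c.F x)), sq_nonneg κ]

/-- The normal part of the displacement is Lipschitz. -/
theorem cmp_lip (h : Pre ι c ε R) (hε : ε ≤ 1 / 100) (hR : R ≤ 2) (h' : Pre ι c' ε' R')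
    (hε' : ε' ≤ 1 / 100) (hRR : R' ≤ R) (hc : Close c c' κ R') (hκ0 : 0 ≤ κ) (hκ : κ ≤ 1 / 100)
    {z w : ℂ} (hz : z ∈ ball (0 : ℂ) R') (hw : w ∈ ball (0 : ℂ) R') :
    ‖pn (c.Φ z) (c'.F z - c.F z) - pn (c.Φ w) (c'.F w - c.F w)‖ ≤ 3 * κ * ‖z - w‖ := by
  have hzR := ball_subset_ball hRR hz
  have hwR := ball_subset_ball hRR hw
  have a1 : ‖(c'.F z - c.F z) - (c'.F w - c.F w)‖ ≤ 2 * κ * ‖z - w‖ :=
    (convex_ball (0 : ℂ) R').norm_image_sub_le_of_norm_hasFDerivWithin_le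
      (f := fun u => c'.F u - c.F u) (f' := fun u => sp (c'.Φ u) - sp (c.Φ u))
      (fun u hu => ((h'.der u hu).sub (h.der u (ball_subset_ball hRR hu))).hasFDerivWithinAt)
      (fun u hu => by
        rw [← map_sub]
        exact (opNorm_sp_le _).trans (by linarith [(hc u hu).2])) hw hz
  have a2 := ((h.cf hε hzR).norm_pn_le _).trans a1
  have a3 : ‖pn (c.Φ z) - pn (c.Φ w)‖ ≤ ‖z - w‖ := by
    have := h.lip0 hzR hwR
    refine ((h.cf hε hzR).pn_sub (h.cf hε hwR)).trans ?_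
    nlinarith [norm_nonneg (z - w)]
  have a4 : ‖(pn (c.Φ z) - pn (c.Φ w)) (c'.F w - c.F w)‖ ≤ ‖z - w‖ * κ :=
    (ContinuousLinearMap.le_opNorm _ _).trans
      (mul_le_mul a3 (hc w hw).1 (norm_nonneg _) (norm_nonneg _))
  have e : pn (c.Φ z) (c'.F z - c.F z) - pn (c.Φ w) (c'.F w - c.F w) =
      pn (c.Φ z) ((c'.F z - c.F z) - (c'.F w - c.F w)) +
        (pn (c.Φ z) - pn (c.Φ w)) (c'.F w - c.F w) := by
    rw [map_sub _ (c'.F z - c.F z), sub_apply]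
    abel
  rw [e]
  refine (norm_add_le _ _).trans ?_
  linarith

/-- Restoring the gauge by a translation of the parameter. -/
theorem gauge (h : Adm ι c ε R) (hε : ε ≤ 1 / 100) (hR : R ≤ 2) (h' : Pre ι c' ε' R')
    (hε' : ε' ≤ 1 / 100) (hRR : R' ≤ R) (hc : Close c c' κ R') (hκ0 : 0 ≤ κ) (hκ : κ ≤ 1 / 100)
    (hroom : 4 * κ < R') :
    ∃ x₀ : ℂ, Adm ι (c'.shift x₀) (ε' + 5 * κ) (R' - 4 * κ) ∧
      Close c (c'.shift x₀) (6 * κ) (R' - 4 * κ) ∧ ∀ z ∈ ball (0 : ℂ) (R' - 4 * κ),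
        ‖pn (c.Φ z) ((c'.shift x₀).F z - c'.F z)‖ ≤ 10 * κ ^ 2 := by
  have hR0 : 0 < R' := by linarith
  have g0 := hc 0 (mem_ball_self hR0)
  have e0 := h'.eps_nonneg
  obtain ⟨x, h1, h2⟩ := core_ChC1 h' hε' (hRR.trans hR) h.1 hε hR hκ0 hκ
    (h.foot_zero hε (by linarith)) (by rw [zero_sub, norm_neg]; linarith [h.1.base])
    (by rw [norm_sub_rev]; exact g0.1) g0.2 (by rwa [norm_zero, zero_add])
  rw [sub_zero] at h2
  have m1 : ∀ z ∈ ball (0 : ℂ) (R' - 4 * κ), z ∈ ball (0 : ℂ) R' ∧ z + x ∈ ball (0 : ℂ) R' := by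
    intro z hz
    rw [mem_ball_zero_iff] at hz
    have := norm_add_le z x
    exact ⟨mem_ball_zero_iff.2 (by linarith), mem_ball_zero_iff.2 (by linarith)⟩
  refine ⟨x, ⟨h'.shift (by linarith) (by linarith) ((h'.norm_F_le h1.1).trans ?_), ?_⟩,
    fun z hz => ?_, fun z hz => ?_⟩
  · nlinarith [norm_nonneg x]
  · have := h1.2.1
    rw [zero_sub, map_neg, neg_eq_zero] at this
    simpa only [Cen.shift, zero_add] using this
  · obtain ⟨m2, m3⟩ := m1 z hz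
    have g := hc z m2
    have a1 := lipF_ChC1 h' hε' m3 m2
    have a2 := h'.lip0 m3 m2
    rw [add_sub_cancel_left] at a1 a2
    have a3 := norm_sub_le_norm_sub_add_norm_sub (c'.F (z + x)) (c'.F z) (c.F z)
    have a4 := norm_sub_le_norm_sub_add_norm_sub (c'.Φ (z + x)) (c'.Φ z) (c.Φ z)
    have a5 : ε' * ‖x‖ ≤ 1 / 100 * (4 * κ) := by gcongr
    simp only [Cen.shift]
    constructor <;> linarith [g.1, g.2]
  · obtain ⟨m2, m3⟩ := m1 z hz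
    have cf := h.1.cf hε (ball_subset_ball hRR m2)
    have a1 := h'.taylor m3 m2
    rw [add_sub_cancel_left] at a1
    have a2 : ‖sp (c'.Φ z - c.Φ z) x‖ ≤ 2 * κ * (4 * κ) :=
      (norm_sp_le _ _).trans (by gcongr; exact (hc z m2).2)
    have a3 : ε' * ‖x‖ ^ 2 ≤ 1 / 100 * (4 * κ) ^ 2 := by gcongr
    have e : pn (c.Φ z) ((c'.shift x).F z - c'.F z) = pn (c.Φ z)
        ((c'.F (z + x) - c'.F z - sp (c'.Φ z) x) + sp (c'.Φ z - c.Φ z) x) := by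
      rw [map_sub sp, sub_apply, ← add_sub_assoc, sub_add_cancel,
        map_sub _ _ (sp _ _), cf.pn_sp, sub_zero]
      rfl
    rw [e]
    refine (cf.norm_pn_le _).trans ((norm_add_le _ _).trans ?_)
    nlinarith [sq_nonneg κ]

end Pool.Agent.Lib.MP_8daebb_an.SV.Ch
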