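import Pool.Agent.Lib.MP_8daebb_an.SV.ChP1

/-! Pointwise facts: the fields `b` and `q`. -/

open MeasureTheory Metric Set Complex Filter Topology
open scoped RealInnerProductSpace ComplexConjugate ContDiff ENNReal

namespace Pool.Agent.Lib.MP_8daebb_an.SV.Ch

variable {H : Type*} [NormedAddCommGroup H] [InnerProductSpace ℝ H] [FiniteDimensional ℝ H]

variable {ε : ℝ} {Φ Φ₁ Φ₂ : EC H} {y : H} {P : H →L[ℝ] H}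

theorem fb_apply_ChP2 (Φ Φ₁ : EC H) (y : H) (P : H →L[ℝ] H) (v : ℂ) :
    fb Φ Φ₁ y P v = dy Φ Φ₁ y (P (sp Φ (v - mu Φ Φ₁ y * conj v))) := rfl

theorem fq_apply_ChP2 (Φ Φ₁ : EC H) (y : H) (P : H →L[ℝ] H) (e : H) :
    fq Φ Φ₁ y P e = om Φ • dx Φ Φ₁ y (P (dy Φ Φ₁ y e)) := rfl

theorem norm_mc_ChP2 (μ v : ℂ) : ‖μ * conj v‖ = ‖μ‖ * ‖v‖ := by
  rw [norm_mul, Complex.norm_conj]

theorem norm_mc_le_ChP2 (h : Jet ε Φ Φ₁ Φ₂ y) (v : ℂ) :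
    ‖mu Φ Φ₁ y * conj v‖ ≤ 3 * ε * ‖y‖ * ‖v‖ := by
  rw [norm_mc_ChP2]
  exact mul_le_mul_of_nonneg_right h.mu_le (norm_nonneg _)

theorem norm_B_le_ChP2 (h : Jet ε Φ Φ₁ Φ₂ y) (v : ℂ) :
    ‖v - mu Φ Φ₁ y * conj v‖ ≤ 103 / 100 * ‖v‖ := by
  have h1 := norm_sub_le v (mu Φ Φ₁ y * conj v)
  rw [norm_mc_ChP2] at h1
  have h2 := mul_le_mul_of_nonneg_right h.mu_small (norm_nonneg v)
  linarith

theorem norm_spB_le_ChP2 (h : Jet ε Φ Φ₁ Φ₂ y) (v : ℂ) :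
    ‖sp Φ (v - mu Φ Φ₁ y * conj v)‖ ≤ 11 / 10 * ‖v‖ := by
  have h1 := h.cf.norm_sp_le (v - mu Φ Φ₁ y * conj v)
  have h2 := norm_B_le_ChP2 h v
  have h3 := norm_nonneg v
  linarith

theorem norm_P_le_ChP2 (hP : IsPlane 2 P) (v : H) : ‖P v‖ ≤ ‖v‖ := by
  obtain ⟨u₁, u₂, hf⟩ := exists_fr hP
  exact hf.norm_le v

theorem P_symm_ChP2 (hP : IsPlane 2 P) (v w : H) : ⟪P v, w⟫ = ⟪v, P w⟫ := by
  obtain ⟨u₁, u₂, hf⟩ := exists_fr hP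
  exact hf.symm v w

theorem inner_sp_pn_ChP2 (h : Cf Φ) (z : ℂ) (a : H) : ⟪sp Φ z, pn Φ a⟫ = 0 := by
  rw [inner_sp, h.pr_pn]
  simp

theorem inner_dy_dy_ChP2 (h : Jet ε Φ Φ₁ Φ₂ y) (a b : H) :
    ⟪dy Φ Φ₁ y a, dy Φ Φ₁ y b⟫ = ⟪pn Φ a, pn Φ b⟫ +
      om Φ * ⟪mu Φ Φ₁ y * conj (dx Φ Φ₁ y a), mu Φ Φ₁ y * conj (dx Φ Φ₁ y b)⟫ := by
  rw [h.dy_eq a, h.dy_eq b, inner_sub_left, inner_sub_right, inner_sub_right,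
    inner_sp_pn_ChP2 h.cf, real_inner_comm (sp Φ _) (pn Φ a), inner_sp_pn_ChP2 h.cf,
    inner_sp_sp h.cf.conf]
  ring

theorem ey_ChP2 (h : Jet ε Φ Φ₁ Φ₂ y) : 0 ≤ ε * ‖y‖ ∧ ε * ‖y‖ ≤ 1 / 100 * ‖y‖ :=
  ⟨mul_nonneg h.eps0 (norm_nonneg _), mul_le_mul_of_nonneg_right h.eps1 (norm_nonneg _)⟩

theorem fb_le (h : Jet ε Φ Φ₁ Φ₂ y) (hP : IsPlane 2 P) : ‖fb Φ Φ₁ y P‖ ≤ 2 * √(ft Φ P) + 100 * ε * ‖y‖ := by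
  have hs : 0 ≤ √(ft Φ P) := Real.sqrt_nonneg _
  have hey := (ey_ChP2 h).1
  refine ContinuousLinearMap.opNorm_le_bound _ (by nlinarith) fun v => ?_
  rw [fb_apply_ChP2]
  set s := sp Φ (v - mu Φ Φ₁ y * conj v) with hsd
  have hsn : ‖s‖ ≤ 11 / 10 * ‖v‖ := norm_spB_le_ChP2 h v
  have h1 : ‖pn Φ (P s)‖ ≤ √(ft Φ P) * ‖s‖ := norm_pn_P_le hP h.cf s
  have h2 : ‖dy Φ Φ₁ y (P s) - pn Φ (P s)‖ ≤ 4 * ε * ‖y‖ * ‖P s‖ := h.dy_sub_pn _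
  have h3 : ‖P s‖ ≤ ‖s‖ := norm_P_le_ChP2 hP s
  have h4 : ‖dy Φ Φ₁ y (P s)‖ ≤ ‖pn Φ (P s)‖ + ‖dy Φ Φ₁ y (P s) - pn Φ (P s)‖ := by
    have := norm_add_le (pn Φ (P s)) (dy Φ Φ₁ y (P s) - pn Φ (P s))
    rwa [add_sub_cancel] at this
  have h5 : √(ft Φ P) * ‖s‖ ≤ √(ft Φ P) * (11 / 10 * ‖v‖) := mul_le_mul_of_nonneg_left hsn hs
  have h6 : ε * ‖y‖ * ‖P s‖ ≤ ε * ‖y‖ * (11 / 10 * ‖v‖) :=
    mul_le_mul_of_nonneg_left (h3.trans hsn) hey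
  have h7 : 0 ≤ √(ft Φ P) * ‖v‖ := mul_nonneg hs (norm_nonneg _)
  have h8 : 0 ≤ ε * ‖y‖ * ‖v‖ := mul_nonneg hey (norm_nonneg _)
  nlinarith

/-- The form `τ` against the symmetric form at the twisted vectors. -/
theorem tau_B_ChP2 (h : Jet ε Φ Φ₁ Φ₂ y) (hP : IsPlane 2 P) (v u : ℂ) :
    |⟪fτ Φ Φ₁ y P v, u⟫ - ⟪a0 Φ P (v - mu Φ Φ₁ y * conj v), u - mu Φ Φ₁ y * conj u⟫| ≤
      17 * (ε * ‖y‖ * ft Φ P * ‖v‖ * ‖u‖) := by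
  have ht := ft_nonneg hP h.cf
  have hey := (ey_ChP2 h).1
  have hv := norm_nonneg v
  have hu := norm_nonneg u
  set μ := mu Φ Φ₁ y with hμ
  have e1 : ⟪fτ Φ Φ₁ y P v, u⟫ - ⟪a0 Φ P (v - μ * conj v), u - μ * conj u⟫ =
      ⟪fτ Φ Φ₁ y P v - a0 Φ P v, u⟫ + ⟪a0 Φ P (μ * conj v), u⟫ +
        ⟪a0 Φ P (v - μ * conj v), μ * conj u⟫ := by
    rw [inner_sub_right, inner_sub_left]
    conv_lhs => rw [map_sub, inner_sub_left]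
    rw [map_sub]
    ring
  have b1 : |⟪fτ Φ Φ₁ y P v - a0 Φ P v, u⟫| ≤ 10 * ε * ‖y‖ * ft Φ P * ‖v‖ * ‖u‖ :=
    (abs_real_inner_le_norm _ _).trans (mul_le_mul_of_nonneg_right (fτ_near h hP v) hu)
  have b2 : |⟪a0 Φ P (μ * conj v), u⟫| ≤ ft Φ P * (3 * ε * ‖y‖ * ‖v‖) * ‖u‖ :=
    (abs_real_inner_le_norm _ _).trans (mul_le_mul_of_nonneg_right
      ((norm_a0_le hP h.cf _).trans (mul_le_mul_of_nonneg_left (norm_mc_le_ChP2 h v) ht)) hu)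
  have b3 : |⟪a0 Φ P (v - μ * conj v), μ * conj u⟫| ≤
      ft Φ P * (103 / 100 * ‖v‖) * (3 * ε * ‖y‖ * ‖u‖) :=
    (abs_real_inner_le_norm _ _).trans (mul_le_mul
      ((norm_a0_le hP h.cf _).trans (mul_le_mul_of_nonneg_left (norm_B_le_ChP2 h v) ht))
      (norm_mc_le_ChP2 h u) (norm_nonneg _) (by positivity))
  have b4 : 0 ≤ ε * ‖y‖ * ft Φ P * ‖v‖ * ‖u‖ := by positivity
  rw [e1]
  have t1 := abs_add_three ⟪fτ Φ Φ₁ y P v - a0 Φ P v, u⟫ ⟪a0 Φ P (μ * conj v), u⟫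
    ⟪a0 Φ P (v - μ * conj v), μ * conj u⟫
  nlinarith

theorem fb_hopf (h : Jet ε Φ Φ₁ Φ₂ y) (hP : IsPlane 2 P) (v u : ℂ) :
    |om Φ * ⟪fτ Φ Φ₁ y P v, u⟫ - ⟪fb Φ Φ₁ y P v, fb Φ Φ₁ y P u⟫| ≤
      (2 * ft Φ P ^ 2 + 100 * ε * (‖y‖ * ft Φ P + ‖y‖ ^ 2)) * ‖v‖ * ‖u‖ := by
  have ht := ft_nonneg hP h.cf
  obtain ⟨hey, hey1⟩ := ey_ChP2 h
  have hv := norm_nonneg v
  have hu := norm_nonneg u
  have hy := norm_nonneg y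
  have hw0 := h.cf.om_low
  have hw1 := h.cf.om_up
  have b1 := tau_B_ChP2 h hP v u
  rw [fb_apply_ChP2, fb_apply_ChP2, inner_dy_dy_ChP2 h, inner_pn_P_sp hP h.cf]
  have hmc : ∀ z : ℂ, ‖mu Φ Φ₁ y * conj (dx Φ Φ₁ y (P (sp Φ (z - mu Φ Φ₁ y * conj z))))‖ ≤
      4 * (ε * ‖y‖) * ‖z‖ := by
    intro z
    have h1 := norm_mc_le_ChP2 h (dx Φ Φ₁ y (P (sp Φ (z - mu Φ Φ₁ y * conj z))))
    have h2 := h.norm_dx_le (P (sp Φ (z - mu Φ Φ₁ y * conj z)))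
    have h3 := norm_P_le_ChP2 hP (sp Φ (z - mu Φ Φ₁ y * conj z))
    have h4 := norm_spB_le_ChP2 h z
    have h5 : ‖dx Φ Φ₁ y (P (sp Φ (z - mu Φ Φ₁ y * conj z)))‖ ≤ 4 / 3 * ‖z‖ := by
      have := norm_nonneg z
      linarith
    have h6 := mul_le_mul_of_nonneg_left h5 hey
    nlinarith
  have ha : ∀ z : ℂ, ‖a0 Φ P (z - mu Φ Φ₁ y * conj z)‖ ≤ ft Φ P * (103 / 100 * ‖z‖) := fun z =>
    (norm_a0_le hP h.cf _).trans (mul_le_mul_of_nonneg_left (norm_B_le_ChP2 h z) ht)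
  set A := ⟪fτ Φ Φ₁ y P v, u⟫
  set Bq := ⟪a0 Φ P (v - mu Φ Φ₁ y * conj v), u - mu Φ Φ₁ y * conj u⟫
  have b2 : |⟪a0 Φ P (v - mu Φ Φ₁ y * conj v), a0 Φ P (u - mu Φ Φ₁ y * conj u)⟫| ≤
      ft Φ P * (103 / 100 * ‖v‖) * (ft Φ P * (103 / 100 * ‖u‖)) :=
    (abs_real_inner_le_norm _ _).trans (mul_le_mul (ha v) (ha u) (norm_nonneg _) (by positivity))
  have b3 : |⟪mu Φ Φ₁ y * conj (dx Φ Φ₁ y (P (sp Φ (v - mu Φ Φ₁ y * conj v)))),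
      mu Φ Φ₁ y * conj (dx Φ Φ₁ y (P (sp Φ (u - mu Φ Φ₁ y * conj u))))⟫| ≤
      4 * (ε * ‖y‖) * ‖v‖ * (4 * (ε * ‖y‖) * ‖u‖) :=
    (abs_real_inner_le_norm _ _).trans (mul_le_mul (hmc v) (hmc u) (norm_nonneg _) (by positivity))
  set C := ⟪a0 Φ P (v - mu Φ Φ₁ y * conj v), a0 Φ P (u - mu Φ Φ₁ y * conj u)⟫
  set D := ⟪mu Φ Φ₁ y * conj (dx Φ Φ₁ y (P (sp Φ (v - mu Φ Φ₁ y * conj v)))),
      mu Φ Φ₁ y * conj (dx Φ Φ₁ y (P (sp Φ (u - mu Φ Φ₁ y * conj u))))⟫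
  have e1 : om Φ * A - (om Φ * (Bq - C) + om Φ * D) = om Φ * ((A - Bq) + C + -D) := by ring
  rw [e1, abs_mul, abs_of_nonneg (by linarith : 0 ≤ om Φ)]
  have t1 := abs_add_three (A - Bq) C (-D)
  rw [abs_neg] at t1
  have p1 : 0 ≤ ε * ‖y‖ * ft Φ P * ‖v‖ * ‖u‖ := by positivity
  have p2 : 0 ≤ ft Φ P ^ 2 * ‖v‖ * ‖u‖ := by positivity
  have p3 : 0 ≤ ε * ‖y‖ * ‖y‖ * (‖v‖ * ‖u‖) := by positivity
  have p4 : ε * ‖y‖ * (ε * ‖y‖) * (‖v‖ * ‖u‖) ≤ ε * ‖y‖ * (1 / 100 * ‖y‖) * (‖v‖ * ‖u‖) :=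
    mul_le_mul_of_nonneg_right (mul_le_mul_of_nonneg_left hey1 hey) (by positivity)
  have t2 : |A - Bq + C + -D| ≤ 17 * (ε * ‖y‖ * ft Φ P * ‖v‖ * ‖u‖) +
      11 / 10 * (ft Φ P ^ 2 * ‖v‖ * ‖u‖) + ε * ‖y‖ * ‖y‖ * (‖v‖ * ‖u‖) := by nlinarith
  have t3 : om Φ * |A - Bq + C + -D| ≤ 11 / 10 * |A - Bq + C + -D| :=
    mul_le_mul_of_nonneg_right hw1 (abs_nonneg _)
  nlinarith

theorem fb_rad (h : Jet ε Φ Φ₁ Φ₂ y) (hP : IsPlane 2 P) (v : ℂ) : ⟪y, fb Φ Φ₁ y P v⟫ ^ 2 ≤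
    ‖y‖ ^ 2 * (om Φ * ⟪fτ Φ Φ₁ y P v, v⟫ + 100 * ε * ‖y‖ * ft Φ P * ‖v‖ ^ 2) := by
  have ht := ft_nonneg hP h.cf
  have hey := (ey_ChP2 h).1
  have hv := norm_nonneg v
  have hw0 := h.cf.om_low
  have hw1 := h.cf.om_up
  have b1 := tau_B_ChP2 h hP v v
  rw [fb_apply_ChP2, ← h.dy_symm, h.dy_y]
  set z := v - mu Φ Φ₁ y * conj v with hz
  have e1 : ⟪y, P (sp Φ z)⟫ = ⟪y, pn Φ (P (sp Φ z))⟫ := by
    rw [← h.cf.pn_symm, pn_of_pr h.nor]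
  have e2 : ‖pn Φ (P (sp Φ z))‖ ^ 2 = om Φ * (⟪a0 Φ P z, z⟫ - ‖a0 Φ P z‖ ^ 2) := by
    rw [← real_inner_self_eq_norm_sq, inner_pn_P_sp hP h.cf, real_inner_self_eq_norm_sq]
  have b2 : ⟪y, pn Φ (P (sp Φ z))⟫ ^ 2 ≤ ‖y‖ ^ 2 * ‖pn Φ (P (sp Φ z))‖ ^ 2 := by
    rw [← mul_pow, ← sq_abs]
    exact pow_le_pow_left₀ (abs_nonneg _) (abs_real_inner_le_norm _ _) 2
  rw [e1]
  refine b2.trans (mul_le_mul_of_nonneg_left ?_ (sq_nonneg _))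
  rw [e2]
  have p1 : 0 ≤ ε * ‖y‖ * ft Φ P * ‖v‖ * ‖v‖ := by positivity
  have b3 : ⟪a0 Φ P z, z⟫ - ‖a0 Φ P z‖ ^ 2 - ⟪fτ Φ Φ₁ y P v, v⟫ ≤
      17 * (ε * ‖y‖ * ft Φ P * ‖v‖ * ‖v‖) := by
    have := (abs_le.1 b1).1
    have := sq_nonneg ‖a0 Φ P z‖
    linarith
  have b4 := mul_le_mul_of_nonneg_left b3 (by linarith : 0 ≤ om Φ)
  have b5 := mul_le_mul_of_nonneg_right hw1 p1
  nlinarith

theorem fq_fb (h : Jet ε Φ Φ₁ Φ₂ y) (hP : IsPlane 2 P) (e : H) (v : ℂ) :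
    |⟪fq Φ Φ₁ y P e, v⟫ - ⟪fb Φ Φ₁ y P v, e⟫| ≤
      100 * ε * ‖y‖ * (√(ft Φ P) + ‖y‖) * ‖e‖ * ‖v‖ := by
  obtain ⟨hey, hey1⟩ := ey_ChP2 h
  have hs : 0 ≤ √(ft Φ P) := Real.sqrt_nonneg _
  have hv := norm_nonneg v
  have he := norm_nonneg e
  have hy := norm_nonneg y
  rw [fq_apply_ChP2, real_inner_smul_left, h.dx_adj, fb_apply_ChP2, h.dy_symm, P_symm_ChP2 hP (sp Φ (v - mu Φ Φ₁ y * conj v)),
    real_inner_comm (P (dy Φ Φ₁ y e)) (sp Φ (v - mu Φ Φ₁ y * conj v)), ← inner_sub_right, ← map_sub]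
  have hσ := h.mu_small
  have hσ1 := h.mu_le
  have hσ0 := norm_nonneg (mu Φ Φ₁ y)
  set σ := ‖mu Φ Φ₁ y‖ with hσd
  set k : ℝ := (1 - σ ^ 2)⁻¹ with hk
  have hpos : 0 < 1 - σ ^ 2 := by nlinarith
  have hk1 : k * (1 - σ ^ 2) = 1 := inv_mul_cancel₀ hpos.ne'
  have hk0 : 0 < k := inv_pos.2 hpos
  have hk2 : k ≤ 2 := by nlinarith
  have hk3 : 0 ≤ k - 1 := by nlinarith [mul_nonneg hk0.le (sq_nonneg σ)]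
  have hk4 : k - 1 ≤ σ := by nlinarith [mul_nonneg hk0.le hσ0]
  have e1 : (k : ℂ) * (v + mu Φ Φ₁ y * conj v) - (v - mu Φ Φ₁ y * conj v) =
      ((k - 1 : ℝ) : ℂ) * v + ((k + 1 : ℝ) : ℂ) * (mu Φ Φ₁ y * conj v) := by
    push_cast
    ring
  have b1 : ‖(k : ℂ) * (v + mu Φ Φ₁ y * conj v) - (v - mu Φ Φ₁ y * conj v)‖ ≤
      12 * (ε * ‖y‖) * ‖v‖ := by
    rw [e1]
    refine (norm_add_le _ _).trans ?_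
    rw [norm_mul, norm_mul, norm_mc_ChP2, Complex.norm_real, Complex.norm_real,
      Real.norm_of_nonneg hk3, Real.norm_of_nonneg (by linarith : 0 ≤ k + 1), ← hσd]
    have c1 : (k - 1) * ‖v‖ ≤ σ * ‖v‖ := mul_le_mul_of_nonneg_right hk4 hv
    have c2 : (k + 1) * (σ * ‖v‖) ≤ 3 * (σ * ‖v‖) :=
      mul_le_mul_of_nonneg_right (by linarith) (mul_nonneg hσ0 hv)
    have c3 : σ * ‖v‖ ≤ 3 * ε * ‖y‖ * ‖v‖ := mul_le_mul_of_nonneg_right hσ1 hv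
    nlinarith
  have b2 : ‖sp Φ ((k : ℂ) * (v + mu Φ Φ₁ y * conj v) - (v - mu Φ Φ₁ y * conj v))‖ ≤
      13 * (ε * ‖y‖) * ‖v‖ := by
    have := h.cf.norm_sp_le ((k : ℂ) * (v + mu Φ Φ₁ y * conj v) - (v - mu Φ Φ₁ y * conj v))
    have p : 0 ≤ ε * ‖y‖ * ‖v‖ := mul_nonneg hey hv
    nlinarith
  have b3 : ‖P (dy Φ Φ₁ y e)‖ ≤ (√(ft Φ P) + ‖y‖) * ‖e‖ :=
    (h.norm_P_dy_le hP e).trans (mul_le_mul_of_nonneg_right (by linarith) he)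
  refine (abs_real_inner_le_norm _ _).trans
    ((mul_le_mul b3 b2 (norm_nonneg _) (by positivity)).trans ?_)
  have p : 0 ≤ ε * ‖y‖ * (√(ft Φ P) + ‖y‖) * ‖e‖ * ‖v‖ := by positivity
  nlinarith

/-- The constant field `e`, to first order in the height. -/
theorem dx_P_const (h : Jet ε Φ Φ₁ Φ₂ y) (hP : IsPlane 2 P) (e : H) :
    ‖(om Φ : ℂ) * dx Φ Φ₁ y (P e) - (fq Φ Φ₁ y P e + pr Φ e + 2 * mu Φ Φ₁ y * conj (pr Φ e))‖ ≤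
      10 * (ft Φ P + ‖y‖ ^ 2) * ‖e‖ := by
  obtain ⟨hey, hey1⟩ := ey_ChP2 h
  have ht := ft_nonneg hP h.cf
  have he := norm_nonneg e
  have hy := norm_nonneg y
  have hw0 := h.cf.om_low
  have hw1 := h.cf.om_up
  have hσ := h.mu_small
  have hσ1 := h.mu_le
  have hσ0 := norm_nonneg (mu Φ Φ₁ y)
  have hpr : pr Φ e = (om Φ : ℂ) * tv Φ e := by
    have : tv Φ e = (om Φ)⁻¹ • pr Φ e := rfl
    have hne : (om Φ : ℂ) ≠ 0 := by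
      have : om Φ ≠ 0 := by linarith
      exact_mod_cast this
    rw [this, Complex.real_smul]
    push_cast
    field_simp
  have hsplit : dx Φ Φ₁ y (P e) =
      dx Φ Φ₁ y (P (dy Φ Φ₁ y e)) + dx Φ Φ₁ y (P (sp Φ (dx Φ Φ₁ y e))) := by
    rw [← map_add, ← map_add, dy_apply, sub_add_cancel]
  have e1 := h.dx_eq e
  have e2 := h.dx_eq (P (sp Φ (dx Φ Φ₁ y e)))
  rw [tv_P_sp P h.cf] at e2
  have nd : ‖dx Φ Φ₁ y e‖ ≤ 6 / 5 * ‖e‖ := h.norm_dx_le e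
  have nD : ‖dx Φ Φ₁ y (P (sp Φ (dx Φ Φ₁ y e)))‖ ≤ 2 * ‖e‖ := by
    have h1 := h.norm_dx_le (P (sp Φ (dx Φ Φ₁ y e)))
    have h2 := norm_P_le_ChP2 hP (sp Φ (dx Φ Φ₁ y e))
    have h3 := h.cf.norm_sp_le (dx Φ Φ₁ y e)
    linarith
  have na : ‖a0 Φ P (dx Φ Φ₁ y e)‖ ≤ ft Φ P * (6 / 5 * ‖e‖) :=
    (norm_a0_le hP h.cf _).trans (mul_le_mul_of_nonneg_left nd ht)
  rw [hsplit, fq_apply_ChP2, hpr, Complex.real_smul]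
  set μ := mu Φ Φ₁ y
  set d := dx Φ Φ₁ y e
  set D := dx Φ Φ₁ y (P (sp Φ d))
  set a := a0 Φ P d
  set τ := tv Φ e
  set q := dx Φ Φ₁ y (P (dy Φ Φ₁ y e))
  have e3 : d - τ = μ * conj d := by rw [← e1]; ring
  have e4 : D - τ = μ * conj d + μ * conj D - a := by
    have : D = d - a + μ * conj D := by rw [← e2]; ring
    rw [← e3]
    linear_combination this
  have e5 : (om Φ : ℂ) * (q + D) - ((om Φ : ℂ) * q + (om Φ : ℂ) * τ +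
      2 * μ * conj ((om Φ : ℂ) * τ)) =
      (om Φ : ℂ) * (μ * conj (d - τ) + μ * conj (D - τ) - a) := by
    rw [map_mul, Complex.conj_ofReal, map_sub, map_sub]
    linear_combination (om Φ : ℂ) * e4
  have σe : ‖μ‖ ≤ ‖y‖ := by linarith
  have b1 : ‖d - τ‖ ≤ ‖μ‖ * (6 / 5 * ‖e‖) := by
    rw [e3, norm_mc_ChP2]
    exact mul_le_mul_of_nonneg_left nd hσ0
  have b2 : ‖D - τ‖ ≤ ‖μ‖ * (6 / 5 * ‖e‖) + ‖μ‖ * (2 * ‖e‖) + ft Φ P * (6 / 5 * ‖e‖) := by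
    rw [e4]
    have t1 := norm_sub_le (μ * conj d + μ * conj D) a
    have t2 := norm_add_le (μ * conj d) (μ * conj D)
    rw [norm_mc_ChP2, norm_mc_ChP2] at t2
    have t3 := mul_le_mul_of_nonneg_left nd hσ0
    have t4 := mul_le_mul_of_nonneg_left nD hσ0
    linarith
  have b3 : ‖μ * conj (d - τ) + μ * conj (D - τ) - a‖ ≤ 5 * (ft Φ P + ‖y‖ ^ 2) * ‖e‖ := by
    have t1 := norm_sub_le (μ * conj (d - τ) + μ * conj (D - τ)) a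
    have t2 := norm_add_le (μ * conj (d - τ)) (μ * conj (D - τ))
    rw [norm_mc_ChP2, norm_mc_ChP2] at t2
    have t3 := mul_le_mul_of_nonneg_left b1 hσ0
    have t4 := mul_le_mul_of_nonneg_left b2 hσ0
    have t5 : ‖μ‖ * ‖μ‖ * ‖e‖ ≤ ‖y‖ * ‖y‖ * ‖e‖ :=
      mul_le_mul_of_nonneg_right (mul_le_mul σe σe hσ0 hy) he
    have t6 : ‖μ‖ * (ft Φ P * ‖e‖) ≤ 3 / 100 * (ft Φ P * ‖e‖) :=
      mul_le_mul_of_nonneg_right hσ (mul_nonneg ht he)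
    have t7 : 0 ≤ ft Φ P * ‖e‖ := mul_nonneg ht he
    have t8 : 0 ≤ ‖y‖ * ‖y‖ * ‖e‖ := by positivity
    nlinarith
  rw [e5, norm_mul, Complex.norm_real, Real.norm_of_nonneg (by linarith : 0 ≤ om Φ)]
  have p : 0 ≤ (ft Φ P + ‖y‖ ^ 2) * ‖e‖ := by positivity
  have b4 := mul_le_mul hw1 b3 (norm_nonneg _) (by norm_num)
  nlinarith

end Pool.Agent.Lib.MP_8daebb_an.SV.Ch
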