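import Pool.Agent.Lib.MP_8daebb_an.SV.ChP1

/-! Pointwise facts: the form `g`. -/

open MeasureTheory Metric Set Complex Filter Topology
open scoped RealInnerProductSpace ComplexConjugate ContDiff ENNReal

namespace Pool.Agent.Lib.MP_8daebb_an.SV.Ch

variable {H : Type*} [NormedAddCommGroup H] [InnerProductSpace ℝ H] [FiniteDimensional ℝ H]

variable {ε : ℝ} {Φ Φ₁ Φ₂ : EC H} {y : H} {P : H →L[ℝ] H}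

theorem quad_ChP3 {E : Type*} [NormedAddCommGroup E] [InnerProductSpace ℝ E] (a b : ℝ)
    (u v : E) : ‖a • u + b • v‖ ^ 2 = ‖u‖ ^ 2 * a ^ 2 + 2 * ⟪u, v⟫ * a * b + ‖v‖ ^ 2 * b ^ 2 := by
  rw [norm_add_sq_real, norm_smul, norm_smul, mul_pow, mul_pow, real_inner_smul_left,
    real_inner_smul_right, Real.norm_eq_abs, Real.norm_eq_abs, sq_abs, sq_abs]
  ring

theorem psd_ChP3 {E : Type*} [NormedAddCommGroup E] [InnerProductSpace ℝ E] {p q r : ℝ}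
    (hM : ∀ a b : ℝ, 0 ≤ p * a ^ 2 + 2 * q * a * b + r * b ^ 2) (u v : E) :
    0 ≤ p * ‖u‖ ^ 2 + 2 * q * ⟪u, v⟫ + r * ‖v‖ ^ 2 := by
  have hr : 0 ≤ r := by simpa using hM 0 1
  by_cases hu : u = 0
  · simp only [hu, norm_zero, inner_zero_left]
    nlinarith [mul_nonneg hr (sq_nonneg ‖v‖)]
  have h1 : 0 < ‖u‖ ^ 2 := by positivity
  have h2 : ⟪u, v⟫ ^ 2 ≤ ‖u‖ ^ 2 * ‖v‖ ^ 2 := by
    rw [← sq_abs, ← mul_pow]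
    exact pow_le_pow_left₀ (abs_nonneg _) (abs_real_inner_le_norm u v) 2
  refine nonneg_of_mul_nonneg_right (a := ‖u‖ ^ 2) ?_ h1
  nlinarith [hM (‖u‖ ^ 2) ⟪u, v⟫, mul_nonneg hr (sub_nonneg.2 h2)]

/-- The adjoint of the horizontal field, up to the conformal factor. -/
noncomputable def xa_ChP3 (Φ Φ₁ : EC H) (y : H) : H →L[ℝ] ℂ :=
  (1 - sh (mu Φ Φ₁ y)).comp (tv Φ)

theorem xa_apply_ChP3 (Φ Φ₁ : EC H) (y u : H) :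
    xa_ChP3 Φ Φ₁ y u = tv Φ u - mu Φ Φ₁ y * conj (tv Φ u) := rfl

theorem xi_adj_ChP3 (h : Jet ε Φ Φ₁ Φ₂ y) (v : ℂ) (u : H) :
    ⟪xi Φ Φ₁ y v, u⟫ = om Φ * ⟪v, xa_ChP3 Φ Φ₁ y u⟫ := by
  rw [xi_apply, h.cf.inner_sp_tv, xa_apply_ChP3]
  congr 1
  simp only [Complex.inner, mul_re, mul_im, sub_re, sub_im, conj_re, conj_im]
  ring

theorem xi_one_ChP3 (h : Jet ε Φ Φ₁ Φ₂ y) (u : H) :
    ⟪xi Φ Φ₁ y 1, u⟫ = om Φ * (xa_ChP3 Φ Φ₁ y u).re := by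
  rw [xi_adj_ChP3 h]; simp [Complex.inner]

theorem xi_I_ChP3 (h : Jet ε Φ Φ₁ Φ₂ y) (u : H) :
    ⟪xi Φ Φ₁ y I, u⟫ = om Φ * (xa_ChP3 Φ Φ₁ y u).im := by
  rw [xi_adj_ChP3 h]; simp [Complex.inner]

theorem one_le_ChP3 (h : Jet ε Φ Φ₁ Φ₂ y) : 1 ≤ 1 + 100 * ε * ‖y‖ := by
  have := mul_nonneg h.eps0 (norm_nonneg y)
  linarith

theorem xa_le_ChP3 (h : Jet ε Φ Φ₁ Φ₂ y) (u : H) : om Φ * ‖xa_ChP3 Φ Φ₁ y u‖ ^ 2 ≤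
    (1 + 100 * ε * ‖y‖) * (‖u‖ ^ 2 - ‖pn Φ u‖ ^ 2) := by
  have h1 : ‖xa_ChP3 Φ Φ₁ y u‖ ≤ (1 + ‖mu Φ Φ₁ y‖) * ‖tv Φ u‖ := by
    rw [xa_apply_ChP3]
    refine (norm_sub_le _ _).trans (le_of_eq ?_)
    rw [norm_mul, Complex.norm_conj]
    ring
  have h2 : (1 + ‖mu Φ Φ₁ y‖) ^ 2 ≤ 1 + 100 * ε * ‖y‖ := by
    nlinarith [h.mu_le, h.mu_small, norm_nonneg (mu Φ Φ₁ y)]
  have h3 : ‖xa_ChP3 Φ Φ₁ y u‖ ^ 2 ≤ (1 + 100 * ε * ‖y‖) * ‖tv Φ u‖ ^ 2 :=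
    (pow_le_pow_left₀ (norm_nonneg _) h1 2).trans
      (by rw [mul_pow]; exact mul_le_mul_of_nonneg_right h2 (sq_nonneg _))
  have hw : 0 ≤ om Φ := by linarith [h.cf.om_low]
  rw [h.cf.pyth u]
  nlinarith [mul_le_mul_of_nonneg_left h3 hw]

theorem inner_fg (h : Jet ε Φ Φ₁ Φ₂ y) (hP : IsPlane 2 P) (e : H) :
    ⟪fg Φ Φ₁ y P e, e⟫ = om Φ * ‖P (dy Φ Φ₁ y e)‖ ^ 2 := by
  obtain ⟨u₁, u₂, hF⟩ := exists_fr hP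
  change ⟪om Φ • dy Φ Φ₁ y (P (dy Φ Φ₁ y e)), e⟫ = _
  rw [real_inner_smul_left, h.dy_symm, hF.inner_self]

theorem fb_fg (h : Jet ε Φ Φ₁ Φ₂ y) (hP : IsPlane 2 P) (e : H) :
    ⟪fb Φ Φ₁ y P 1, e⟫ ^ 2 + ⟪fb Φ Φ₁ y P I, e⟫ ^ 2 ≤
      (1 + 100 * ε * ‖y‖) * ⟪fg Φ Φ₁ y P e, e⟫ := by
  have h0 : ∀ v, ⟪fb Φ Φ₁ y P v, e⟫ = ⟪xi Φ Φ₁ y v, P (dy Φ Φ₁ y e)⟫ := fun v => by
    change ⟪dy Φ Φ₁ y (P (xi Φ Φ₁ y v)), e⟫ = _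
    rw [h.dy_symm, hP.1]
  rw [h0, h0, xi_one_ChP3 h, xi_I_ChP3 h, inner_fg h hP]
  have h1 := xa_le_ChP3 h (P (dy Φ Φ₁ y e))
  rw [Complex.sq_norm, normSq_apply] at h1
  have hw : 0 ≤ om Φ := by linarith [h.cf.om_low]
  have h2 := mul_le_mul_of_nonneg_left h1 hw
  have h3 := mul_nonneg hw (mul_nonneg (zero_le_one.trans (one_le_ChP3 h))
    (sq_nonneg ‖pn Φ (P (dy Φ Φ₁ y e))‖))
  nlinarith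

theorem fg_le (h : Jet ε Φ Φ₁ Φ₂ y) (hP : IsPlane 2 P) (e : H) :
    ⟪fg Φ Φ₁ y P e, e⟫ ≤ 4 * (ft Φ P + ‖y‖ ^ 2) * ‖e‖ ^ 2 := by
  rw [inner_fg h hP]
  have h1 := pow_le_pow_left₀ (norm_nonneg _) (h.norm_P_dy_le hP e) 2
  have h2 := Real.sq_sqrt (ft_nonneg hP h.cf)
  have h3 : 4 * ε * ‖y‖ ≤ ‖y‖ := by nlinarith [h.eps1, norm_nonneg y]
  have h4 : 0 ≤ 4 * ε * ‖y‖ := by have := h.eps0; positivity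
  have h5 : (√(ft Φ P) + 4 * ε * ‖y‖) ^ 2 ≤ 2 * (ft Φ P + ‖y‖ ^ 2) := by
    nlinarith [sq_nonneg (√(ft Φ P) - 4 * ε * ‖y‖), pow_le_pow_left₀ h4 h3 2]
  rw [mul_pow] at h1
  have h6 := h1.trans (mul_le_mul_of_nonneg_right h5 (sq_nonneg _))
  have h7 : om Φ * ‖P (dy Φ Φ₁ y e)‖ ^ 2 ≤ 2 * ‖P (dy Φ Φ₁ y e)‖ ^ 2 :=
    mul_le_mul_of_nonneg_right (by linarith [h.cf.om_up]) (sq_nonneg _)
  linarith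

theorem fg_norm (h : Jet ε Φ Φ₁ Φ₂ y) (hP : IsPlane 2 P) : ‖fg Φ Φ₁ y P‖ ≤ 4 := by
  obtain ⟨u₁, u₂, hF⟩ := exists_fr hP
  refine ContinuousLinearMap.opNorm_le_bound _ (by norm_num) fun e => ?_
  change ‖om Φ • dy Φ Φ₁ y (P (dy Φ Φ₁ y e))‖ ≤ _
  rw [norm_smul, Real.norm_of_nonneg (by linarith [h.cf.om_low])]
  exact mul_le_mul (by linarith [h.cf.om_up])
    ((h.norm_dy_le _).trans ((hF.norm_le _).trans (h.norm_dy_le _))) (norm_nonneg _) (by norm_num)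

theorem trH_eq_ChP3 (h : Jet ε Φ Φ₁ Φ₂ y) {u₁ u₂ : H} (hF : Fr P u₁ u₂) :
    trH (fg Φ Φ₁ y P) = om Φ * (‖dy Φ Φ₁ y u₁‖ ^ 2 + ‖dy Φ Φ₁ y u₂‖ ^ 2) := by
  have h1 : trH (fg Φ Φ₁ y P) = om Φ * trH ((dy Φ Φ₁ y).comp (P.comp (dy Φ Φ₁ y))) := by
    simp only [trH, fg, ContinuousLinearMap.toLinearMap_smul, map_smul, smul_eq_mul]
  rw [h1, hF.trH_mid, ← h.dy_symm u₁, ← h.dy_symm u₂, real_inner_self_eq_norm_sq,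
    real_inner_self_eq_norm_sq]

theorem trH_fg_nonneg (h : Jet ε Φ Φ₁ Φ₂ y) (hP : IsPlane 2 P) : 0 ≤ trH (fg Φ Φ₁ y P) := by
  obtain ⟨u₁, u₂, hF⟩ := exists_fr hP
  rw [trH_eq_ChP3 h hF]
  exact mul_nonneg (by linarith [h.cf.om_low]) (by positivity)

theorem trH_fg (h : Jet ε Φ Φ₁ Φ₂ y) (hP : IsPlane 2 P) :
    |trH (fg Φ Φ₁ y P) - om Φ * ft Φ P| ≤ 10 * ε * ‖y‖ ^ 2 := by
  obtain ⟨u₁, u₂, hF⟩ := exists_fr hP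
  have hw : 0 ≤ om Φ := by linarith [h.cf.om_low]
  have hw2 : om Φ * om Φ ≤ 2 := by nlinarith [h.cf.om_up]
  have e0 := h.eps0
  have key : ∀ u : H, ‖u‖ = 1 →
      om Φ * (om Φ * (‖mu Φ Φ₁ y‖ * ‖dx Φ Φ₁ y u‖) ^ 2) ≤ 5 * ε * ‖y‖ ^ 2 := fun u hu => by
    have h1 : ‖mu Φ Φ₁ y‖ * ‖dx Φ Φ₁ y u‖ ≤ 3 * ε * ‖y‖ * (6 / 5) :=
      mul_le_mul h.mu_le (by simpa [hu] using h.norm_dx_le u) (norm_nonneg _) (by positivity)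
    have h2 := pow_le_pow_left₀ (by positivity) h1 2
    have h3 := mul_le_mul hw2 h2 (sq_nonneg _) (by norm_num)
    have h4 := mul_le_mul_of_nonneg_right h.eps1 (show 0 ≤ ε * ‖y‖ ^ 2 by positivity)
    have h5 : 0 ≤ ε * ‖y‖ ^ 2 := by positivity
    nlinarith
  have k1 := key u₁ hF.n1
  have k2 := key u₂ hF.n2
  have n1 : 0 ≤ om Φ * (om Φ * (‖mu Φ Φ₁ y‖ * ‖dx Φ Φ₁ y u₁‖) ^ 2) := by positivity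
  have n2 : 0 ≤ om Φ * (om Φ * (‖mu Φ Φ₁ y‖ * ‖dx Φ Φ₁ y u₂‖) ^ 2) := by positivity
  rw [trH_eq_ChP3 h hF, hF.ft_eq h.cf, h.norm_dy_sq, h.norm_dy_sq, abs_le]
  constructor <;> nlinarith

theorem fg_sq (h : Jet ε Φ Φ₁ Φ₂ y) (hP : IsPlane 2 P) : ft Φ P ^ 2 / 4 ≤
    (1 + 100 * ε * ‖y‖) * trH (fg Φ Φ₁ y P) - ‖fb Φ Φ₁ y P 1‖ ^ 2 - ‖fb Φ Φ₁ y P I‖ ^ 2 := by
  obtain ⟨u₁, u₂, hF⟩ := exists_fr hP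
  have hw := h.cf.om_low
  have hw0 : 0 ≤ om Φ := by linarith
  have hκ := one_le_ChP3 h
  have h0 : ∀ v, fb Φ Φ₁ y P v = ⟪xi Φ Φ₁ y v, u₁⟫ • dy Φ Φ₁ y u₁ +
      ⟪xi Φ Φ₁ y v, u₂⟫ • dy Φ Φ₁ y u₂ := fun v => by
    change dy Φ Φ₁ y (P (xi Φ Φ₁ y v)) = _
    rw [hF.eq, map_add, map_smul, map_smul, real_inner_comm _ u₁, real_inner_comm _ u₂]
  have p1 := psd_ChP3
    (p := (1 + 100 * ε * ‖y‖) * (1 - ‖pn Φ u₁‖ ^ 2) - om Φ * ‖xa_ChP3 Φ Φ₁ y u₁‖ ^ 2)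
    (q := -((1 + 100 * ε * ‖y‖) * ⟪pn Φ u₁, pn Φ u₂⟫) -
      om Φ * ⟪xa_ChP3 Φ Φ₁ y u₁, xa_ChP3 Φ Φ₁ y u₂⟫)
    (r := (1 + 100 * ε * ‖y‖) * (1 - ‖pn Φ u₂‖ ^ 2) - om Φ * ‖xa_ChP3 Φ Φ₁ y u₂‖ ^ 2)
    (fun a b => by
      have h1 := xa_le_ChP3 h (a • u₁ + b • u₂)
      rw [map_add, map_add, map_smul, map_smul, map_smul, map_smul, quad_ChP3, quad_ChP3,
        quad_ChP3, hF.n1, hF.n2, hF.o] at h1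
      linarith) (dy Φ Φ₁ y u₁) (dy Φ Φ₁ y u₂)
  have p2 := psd_ChP3 (p := ‖dy Φ Φ₁ y u₁‖ ^ 2 - ‖pn Φ u₁‖ ^ 2)
    (q := ⟪dy Φ Φ₁ y u₁, dy Φ Φ₁ y u₂⟫ - ⟪pn Φ u₁, pn Φ u₂⟫)
    (r := ‖dy Φ Φ₁ y u₂‖ ^ 2 - ‖pn Φ u₂‖ ^ 2)
    (fun a b => by
      have h1 : ‖pn Φ (a • u₁ + b • u₂)‖ ^ 2 ≤ ‖dy Φ Φ₁ y (a • u₁ + b • u₂)‖ ^ 2 := by
        rw [h.norm_dy_sq]
        exact le_add_of_nonneg_right (by positivity)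
      rw [map_add, map_add, map_smul, map_smul, map_smul, map_smul, quad_ChP3, quad_ChP3] at h1
      linarith) (pn Φ u₁) (pn Φ u₂)
  rw [trH_eq_ChP3 h hF, hF.ft_eq h.cf, h0, h0, quad_ChP3, quad_ChP3, xi_one_ChP3 h, xi_one_ChP3 h,
    xi_I_ChP3 h, xi_I_ChP3 h]
  rw [Complex.sq_norm, Complex.sq_norm, normSq_apply, normSq_apply, Complex.inner] at p1
  simp only [mul_re, conj_re, conj_im] at p1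
  generalize ‖dy Φ Φ₁ y u₁‖ ^ 2 = g₁, ‖dy Φ Φ₁ y u₂‖ ^ 2 = g₂,
    ⟪dy Φ Φ₁ y u₁, dy Φ Φ₁ y u₂⟫ = g, ‖pn Φ u₁‖ ^ 2 = n₁, ‖pn Φ u₂‖ ^ 2 = n₂,
    ⟪pn Φ u₁, pn Φ u₂⟫ = n, 1 + 100 * ε * ‖y‖ = κ, om Φ = w at *
  have q1 : (n₁ + n₂) ^ 2 / 2 ≤ g₁ * n₁ + 2 * g * n + g₂ * n₂ := by
    nlinarith [sq_nonneg (n₁ - n₂), sq_nonneg n]
  have q2 : 1 / 2 ≤ w * κ := by nlinarith
  have q3 := mul_le_mul q2 q1 (by positivity) (by linarith)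
  have q4 := mul_nonneg hw0 p1
  nlinarith

end Pool.Agent.Lib.MP_8daebb_an.SV.Ch
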