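import Pool.Agent.Lib.MP_8daebb_an.SV.ChI2
import Pool.Agent.Lib.MP_8daebb_an.SV.ChA
import Pool.Agent.Lib.MP_8daebb_an.SV.ChP2
import Pool.Agent.Lib.MP_8daebb_an.SV.ChP3

/-! The chart of a centre is a chart varifold. -/

open MeasureTheory Metric Set Complex Filter Topology
open scoped RealInnerProductSpace ComplexConjugate ContDiff ENNReal

namespace Pool.Agent.Lib.MP_8daebb_an.SV.Ch

variable {H : Type*} [NormedAddCommGroup H] [InnerProductSpace ℝ H] [FiniteDimensional ℝ H]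
  [MeasurableSpace H] [BorelSpace H]

variable {V : Measure (H × (H →L[ℝ] H))} {ι : ℂ →ₗᵢ[ℝ] H} {c : Cen H} {ε R M θ η : ℝ}

theorem Pre.pw (h : Pre ι c ε R) (hε : ε ≤ 1 / 100) (hR : R ≤ 2) (hV : EV V ι M θ η) (hη : η ≤ 1 / 100) {δ : ℝ}
    (hδ : 1000 * (ε + η) ≤ δ) {a : H × (H →L[ℝ] H)} (ha : a ∈ (chart V c R).G) : PW (chart V c R) δ a := by
  obtain ⟨hd, hP, hs⟩ := ha
  have ht : a.1 ∈ c.tube R := hd
  have J := h.jet_at hε hR ht
  have e0 := h.eps_nonneg
  have η0 := ev_eps_nonneg hV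
  have d1 : 1000 * ε ≤ δ := by linarith
  have d2 : 100 * ε ≤ δ := by linarith
  have hx := (Cen.foot_spec ht).1
  have ey : (chart V c R).y a = c.ht R a.1 := by simp only [chart, indicator_of_mem hd]
  have et : (chart V c R).t a = ft (c.j0 R a.1) a.2 := by simp only [chart, indicator_of_mem hd]
  have ej : (chart V c R).j a =
    om (c.j0 R a.1) * jac (dx (c.j0 R a.1) (c.j1 R a.1) (c.ht R a.1)) a.2 := by simp only [chart, indicator_of_mem hd]
  have eτ : (chart V c R).τ a = fτ (c.j0 R a.1) (c.j1 R a.1) (c.ht R a.1) a.2 :=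
    by simp only [chart, indicator_of_mem hd]
  have eb : (chart V c R).b a = fb (c.j0 R a.1) (c.j1 R a.1) (c.ht R a.1) a.2 :=
    by simp only [chart, indicator_of_mem hd]
  have eq : (chart V c R).q a = fq (c.j0 R a.1) (c.j1 R a.1) (c.ht R a.1) a.2 :=
    by simp only [chart, indicator_of_mem hd]
  have eg : (chart V c R).g a = fg (c.j0 R a.1) (c.j1 R a.1) (c.ht R a.1) a.2 :=
    by simp only [chart, indicator_of_mem hd]
  have eL : (chart V c R).L a = fL (c.j0 R a.1) (c.j1 R a.1) (c.j2 R a.1) (c.ht R a.1) a.2 :=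
    by simp only [chart, indicator_of_mem hd]
  have ee : (chart V c R).eh a = feh (c.j0 R a.1) (c.j1 R a.1) (c.j2 R a.1) (c.ht R a.1) a.2 :=
    by simp only [chart, indicator_of_mem hd]
  have ew : (chart V c R).w ((chart V c R).x a) = om (c.j0 R a.1) := if_pos hx
  have t0 := ft_nonneg hP J.cf
  have w0 : 0 ≤ om (c.j0 R a.1) := le_trans (by norm_num) J.cf.om_low
  have g0 := trH_fg_nonneg J hP
  refine ⟨?_, ?_, ?_, ?_, ?_, hP, ?_, ?_, fun v => ?_, fun v u => ?_, fun v => ?_, fun e v => ?_,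
    ?_, fun e => ?_, fun e => ?_, ?_, ?_, ?_, ?_, ?_, ?_, ?_, ?_⟩ <;>
    try simp only [ey, et, ej, eτ, eb, eq, eg, eL, ee, ew]
  · exact (mem_ball_zero_iff.1 hx).le.trans hR
  · exact (h.ht_le_supp hε hR hV hη ht hs).trans (by linarith)
  · exact (mem_ball_zero_iff.1 (h.tube_subset hε hR ht)).le.trans (by norm_num)
  · exact t0
  · exact ft_le hP J.cf
  · exact tr_fτ J hP
  · exact fτ_le J hP
  · refine le_trans (neg_le_neg ?_) (fτ_pos J hP v)
    gcongr
  · refine (fb_hopf J hP v u).trans ?_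
    gcongr
  · refine (fb_rad J hP v).trans ?_
    gcongr
  · refine (fq_fb J hP e v).trans ?_
    gcongr
  · refine (fb_le J hP).trans ?_
    gcongr
  · refine (fb_fg J hP e).trans ?_
    have : 0 ≤ ⟪fg (c.j0 R a.1) (c.j1 R a.1) (c.ht R a.1) a.2 e, e⟫ := by
      rw [inner_fg J hP]; positivity
    gcongr
  · exact fg_le J hP e
  · exact fg_norm J hP
  · refine (fg_sq J hP).trans ?_
    gcongr
  · have h1 := trH_fg J hP
    have h2 := fL_y J hP
    have h3 : 0 ≤ ‖c.ht R a.1‖ * ft (c.j0 R a.1) a.2 := by positivity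
    have h4 := mul_le_mul_of_nonneg_right (by linarith : 110 * ε ≤ δ)
      (add_nonneg (sq_nonneg ‖c.ht R a.1‖) h3)
    have h5 := mul_nonneg e0 h3
    rw [add_sub_right_comm]
    refine (abs_add_le _ _).trans ?_
    linarith
  · refine (fL_le J hP).trans ?_
    gcongr
  · refine (feh_le J hP).trans ?_
    gcongr
  · exact mul_nonneg w0 (Real.sqrt_nonneg _)
  · exact fj_le J hP
  · refine (fj_t J hP).trans ?_
    gcongr

theorem Pre.cv (h : Pre ι c ε R) (hε : ε ≤ 1 / 100) (hR : R ≤ 2) (hR0 : 0 < R) (hV : EV V ι M θ η) (hη : η ≤ 1 / 100) {δ : ℝ}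
    (hδ : 1000 * (ε + η) ≤ δ) : CV (chart V c R) 0 R δ (10 * M) := by
  obtain ⟨m1, m2, m3, m4, m5, m6, m7, m8, m9, m10, m11⟩ := h.meas_chart hε hR V
  have e0 := h.eps_nonneg
  have η0 := ev_eps_nonneg hV
  have ew : ∀ u ∈ ball (0 : ℂ) R, (chart V c R).w u = om (c.Φ u) := fun u hu =>
    if_pos hu
  refine ⟨h.chart_finite hε hR hV, m1, m2, measurable_fst, measurable_snd, m3, m4, m5, m6, m7, m8,
    m9, m10, m11, hR0, hR, by linarith, ?_, h.chart_ae_G hε hR hV,
    fun a ha => h.pw hε hR hV hη hδ ha, fun a ha a' ha' => ?_,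
    (h.om_smooth.of_le (by simp)).congr ew, fun u hu => ⟨?_, ?_⟩,
    fun φ hφ v => h.hor hε hR hV hη hφ v, fun φ hφ e => h.ver hε hR hV hη hφ e,
    fun φ hφ X hX h0 => h.amb hε hR hV hη hφ hX h0, fun Z hZ => h.area hε hR hV hZ,
    h.ld hε hR hV, fun u y₀ σ hσ => h.ub hε hR hV u y₀ hσ⟩
  · exact (h.chart_ae hε hR).2 (Eventually.of_forall fun a ha => (Cen.foot_spec ha).1)
  · have ey : ∀ a ∈ c.dom R, (chart V c R).y a = c.ht R a.1 := fun a hd => by simp only [chart, indicator_of_mem hd]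
    rw [ey a ha.1, ey a' ha'.1]
    exact (h.geo hε hR ha.1 ha'.1).trans
      (mul_le_mul_of_nonneg_right (by linarith) (sq_nonneg _))
  · rw [ew u hu]
    exact (h.om_near hε hu).trans (by linarith)
  · rw [Filter.EventuallyEq.fderiv_eq (eventually_of_mem (isOpen_ball.mem_nhds hu) ew)]
    exact (h.om_fderiv hε hu).trans (by linarith)

end Pool.Agent.Lib.MP_8daebb_an.SV.Ch
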