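import Pool.Agent.Lib.MP_8daebb_an.SV.ChC1
import Pool.Agent.Lib.MP_8daebb_an.SV.ChCV
import Pool.Agent.Lib.MP_8daebb_an.SV.Av

/-! Two centres: comparison of the charts. -/

open MeasureTheory Metric Set Complex Filter Topology
open scoped RealInnerProductSpace ComplexConjugate ContDiff ENNReal

namespace Pool.Agent.Lib.MP_8daebb_an.SV.Ch

variable {H : Type*} [NormedAddCommGroup H] [InnerProductSpace ℝ H] [FiniteDimensional ℝ H]
  [MeasurableSpace H] [BorelSpace H]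

variable {V : Measure (H × (H →L[ℝ] H))} {ι : ℂ →ₗᵢ[ℝ] H} {c c' : Cen H}
  {ε ε' R R' κ M θ η : ℝ}

theorem dens_le_ChC2 {α : Type*} [MeasurableSpace α] {μ : Measure α} {S S' : Set α}
    (hS' : MeasurableSet S') {d d' : α → ℝ≥0∞} {k : ℝ≥0∞} (hk : k ≠ ⊤)
    (h : ∀ᵐ a ∂μ, a ∈ S' → a ∈ S ∧ d' a ≤ k * d a) :
    (μ.restrict S').withDensity d' ≤ k • (μ.restrict S).withDensity d := by
  refine Measure.le_iff.2 fun s hs => ?_
  rw [Measure.smul_apply, smul_eq_mul, withDensity_apply _ hs, withDensity_apply _ hs,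
    Measure.restrict_restrict hs, Measure.restrict_restrict hs, ← lintegral_const_mul' _ _ hk]
  refine (setLIntegral_mono_ae' (hs.inter hS') ?_).trans (lintegral_mono_set' ?_)
  · filter_upwards [h] with a ha h1 using (ha h1.2).2
  · filter_upwards [h] with a ha h1 using ⟨h1.1, (ha h1.2).1⟩

theorem inv_le_ChC2 {w w' e : ℝ} (hw : 9 / 10 ≤ w) (hw' : 9 / 10 ≤ w') (he : 0 ≤ e)
    (h : w - w' ≤ e / 2) :
    ENNReal.ofReal w'⁻¹ ≤ ENNReal.ofReal (1 + e) * ENNReal.ofReal w⁻¹ := by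
  rw [← ENNReal.ofReal_mul (by linarith)]
  refine ENNReal.ofReal_le_ofReal ?_
  rw [← div_eq_mul_inv, inv_eq_one_div, div_le_div_iff₀ (by linarith) (by linarith)]
  nlinarith

theorem ht_half_ChC2 (h : Pre ι c ε R) (hε : ε ≤ 1 / 100) (hR : R ≤ 2) (hV : EV V ι M θ η)
    (hη : η ≤ 1 / 100) {p : H} (hp : p ∈ c.tube R) (hs : p ∈ V.fst.support) :
    ‖c.ht R p‖ ≤ 1 / 2 := (h.ht_le_supp hε hR hV hη hp hs).trans (by linarith)

theorem cmp_chart (h : Pre ι c ε R) (hε : ε ≤ 1 / 100) (hR : R ≤ 2) (h' : Pre ι c' ε' R')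
    (hε' : ε' ≤ 1 / 100) (hRR : R' ≤ R) (hc : Close c c' κ R') (hκ0 : 0 ≤ κ) (hκ : κ ≤ 1 / 100)
    (hroom : R' + 4 * κ ≤ R) (hV : EV V ι M θ η) (hη : η ≤ 1 / 100) {εJ : ℝ} (hJ : 100 * κ ≤ εJ) :
    Cmp (chart V c R) (chart V c' R') R' εJ := by
  classical
  have hR' : R' ≤ 2 := hRR.trans hR
  have hb := fun (p : H) (hs : p ∈ V.fst.support) (hp : p ∈ c'.tube R') =>
    cmp_back h hε hR h' hε' hRR hc hκ0 hκ hroom hp (ht_half_ChC2 h' hε' hR' hV hη hp hs)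
  have hn := fun (p : H) => cmp_near h hε hR h' hε' hRR hc hκ0 hκ (p := p)
  refine ⟨dens_le_ChC2 (h'.meas_dom hε' hR') ENNReal.ofReal_ne_top ?_, ?_, ?_⟩
  · filter_upwards [ev_ae_supp hV] with a hs ha
    obtain ⟨h1, h2⟩ := hb _ hs ha
    refine ⟨h1, inv_le_ChC2 (h.jet_at hε hR h1).cf.om_low (h'.jet_at hε' hR' ha).cf.om_low
      (by linarith) ?_⟩
    linarith [(abs_le.1 (hn _ h1 ha h2).2.2.1).1]
  · have hZ : MeasurableSet ((chart V c R).cyl 0 (R' - εJ)) :=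
      measurableSet_lt ((h.meas_chart hε hR V).1.sub_const _).norm measurable_const
    change ((V.restrict _).withDensity _).restrict _ ≤ _
    rw [restrict_withDensity hZ, Measure.restrict_restrict hZ]
    refine dens_le_ChC2 (hZ.inter (h.meas_dom hε hR)) ENNReal.ofReal_ne_top ?_
    filter_upwards [ev_ae_supp hV] with a hs ha
    have h0 : ‖c.foot R a.1 - 0‖ < R' - εJ := ha.1
    rw [sub_zero] at h0
    obtain ⟨h1, h2⟩ := cmp_fwd h hε hR h' hε' hRR hc hκ0 hκ ha.2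
      (ht_half_ChC2 h hε hR hV hη ha.2 hs) (by linarith)
    refine ⟨h1, inv_le_ChC2 (h'.jet_at hε' hR' h1).cf.om_low (h.jet_at hε hR ha.2).cf.om_low
      (by linarith) ?_⟩
    linarith [(abs_le.1 (hn _ ha.2 h1 h2).2.2.1).2]
  · rw [h'.chart_ae hε' hR']
    filter_upwards [ev_ae_supp hV, hV.car] with a hs hP ha
    obtain ⟨h1, h2⟩ := hb _ hs ha
    obtain ⟨h3, h4, h5, -⟩ := hn _ h1 ha h2
    have ha1 : a ∈ c.dom R := h1
    have h6 := sqrt_ft_sub hP.2 (h'.jet_at hε' hR' ha).cf (h.jet_at hε hR h1).cf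
    simp only [chart, indicator_of_mem ha, indicator_of_mem ha1,
      piecewise_eq_of_mem _ _ _ (Cen.foot_spec h1).1,
      piecewise_eq_of_mem _ _ _ (Cen.foot_spec (show a.1 ∈ c'.tube R' from ha)).1]
    exact ⟨by linarith, by linarith, by linarith, h5.trans (by linarith)⟩

/-- The kernel of the average with respect to `V`. -/
noncomputable def kerV_ChC2 (c : Cen H) (R ρ : ℝ) (u : ℂ) : H × (H →L[ℝ] H) → ℝ :=
  (c.dom R).indicator fun a => (om (c.j0 R a.1))⁻¹ * kr ρ (u - c.foot R a.1)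

theorem av_eq_ChC2 (h : Pre ι c ε R) (hε : ε ≤ 1 / 100) (hR : R ≤ 2) {F : Type*}
    [NormedAddCommGroup F] [NormedSpace ℝ F] (f : H × (H →L[ℝ] H) → F) (ρ : ℝ) (u : ℂ) :
    (chart V c R).av ρ f u = ∫ a, kerV_ChC2 c R ρ u a • f a ∂V := by
  rw [CD.av, h.chart_integral hε hR, ← integral_indicator (h.meas_dom hε hR)]
  refine integral_congr_ae (Eventually.of_forall fun a => ?_)
  by_cases ha : a ∈ c.dom R
  · simp only [kerV_ChC2, indicator_of_mem ha, mul_smul]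
    rfl
  · simp only [kerV_ChC2, indicator_of_notMem ha, zero_smul]

theorem ker_meas_ChC2 (h : Pre ι c ε R) (hε : ε ≤ 1 / 100) (hR : R ≤ 2) (ρ : ℝ) (u : ℂ) :
    AEStronglyMeasurable (kerV_ChC2 c R ρ u) V :=
  (aestronglyMeasurable_indicator_iff (h.meas_dom hε hR)).2
    (((h.cont_ominv hε hR).aestronglyMeasurable (h.meas_dom hε hR)).mul
      ((kr_contDiff ρ).continuous.measurable.comp
        (((h.meas_foot hε hR).comp measurable_fst).const_sub u)).aestronglyMeasurable)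

omit [MeasurableSpace H] [BorelSpace H] in
theorem ker_le_ChC2 (h : Pre ι c ε R) (hε : ε ≤ 1 / 100) (hR : R ≤ 2) {ρ : ℝ} (hρ : 0 < ρ) (u : ℂ)
    (a : H × (H →L[ℝ] H)) : |kerV_ChC2 c R ρ u a| ≤ 2 * (Ck / ρ ^ 2) := by
  have h0 : 0 ≤ Ck / ρ ^ 2 := div_nonneg (zero_le_one.trans one_le_Ck) (sq_nonneg _)
  by_cases ha : a ∈ c.dom R
  · have h1 := (h.jet_at hε hR ha).cf.om_low
    have h2 : (om (c.j0 R a.1))⁻¹ ≤ 2 := inv_le_of_inv_le₀ two_pos (by linarith)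
    rw [kerV_ChC2, indicator_of_mem ha,
      abs_of_nonneg (mul_nonneg (inv_nonneg.2 (by linarith)) (kr_nonneg _ _))]
    exact mul_le_mul h2 (kr_le hρ _).1 (kr_nonneg _ _) zero_le_two
  · rw [kerV_ChC2, indicator_of_notMem ha, abs_zero]
    linarith

omit [MeasurableSpace H] [BorelSpace H] in
theorem ker_zero_ChC2 {ρ : ℝ} (hρ : 0 < ρ) {u : ℂ} {a : H × (H →L[ℝ] H)}
    (h : a ∈ c.dom R → ρ ≤ ‖u - c.foot R a.1‖) : kerV_ChC2 c R ρ u a = 0 := by
  by_cases ha : a ∈ c.dom R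
  · rw [kerV_ChC2, indicator_of_mem ha, (kr_zero hρ (h ha)).1, mul_zero]
  · rw [kerV_ChC2, indicator_of_notMem ha]

theorem num_ChC2 {w w' k k' κ T : ℝ} (hw : 9 / 10 ≤ w) (hw' : 9 / 10 ≤ w') (hκ : 0 ≤ κ)
    (h1 : |w' - w| ≤ 6 * κ) (hk : 0 ≤ k) (hk1 : k ≤ T) (h2 : |k' - k| ≤ T * (4 * κ)) :
    |w'⁻¹ * k' - w⁻¹ * k| ≤ 12 * κ * T := by
  have hT : 0 ≤ T := hk.trans hk1
  have h3 : w⁻¹ ≤ 10 / 9 := inv_le_of_inv_le₀ (by norm_num) (by linarith)
  have h4 : w'⁻¹ ≤ 10 / 9 := inv_le_of_inv_le₀ (by norm_num) (by linarith)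
  have h5 : 0 ≤ w⁻¹ := inv_nonneg.2 (by linarith)
  have h6 : 0 ≤ w'⁻¹ := inv_nonneg.2 (by linarith)
  have e : w'⁻¹ * k' - w⁻¹ * k = w'⁻¹ * (k' - k) - w'⁻¹ * w⁻¹ * ((w' - w) * k) := by
    have : w ≠ 0 := by linarith
    have : w' ≠ 0 := by linarith
    field_simp
    ring
  rw [e]
  refine (abs_sub _ _).trans ?_
  rw [abs_mul, abs_mul, abs_mul (w' - w), abs_of_nonneg h6, abs_of_nonneg (mul_nonneg h6 h5),
    abs_of_nonneg hk]
  have h7 := mul_le_mul h4 h2 (abs_nonneg _) (by norm_num)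
  have h8 := mul_le_mul (mul_le_mul h4 h3 h5 (by norm_num)) (mul_le_mul h1 hk1 hk (by linarith))
    (mul_nonneg (abs_nonneg _) hk) (by norm_num)
  nlinarith [mul_nonneg hκ hT]

/-- Averages in the two charts. -/
theorem cmp_av (h : Pre ι c ε R) (hε : ε ≤ 1 / 100) (hR : R ≤ 2) (h' : Pre ι c' ε' R')
    (hε' : ε' ≤ 1 / 100) (hRR : R' ≤ R) (hc : Close c c' κ R') (hκ0 : 0 ≤ κ) (hκ : κ ≤ 1 / 100)
    (hroom : R' + 4 * κ ≤ R) (hV : EV V ι M θ η) (hη : η ≤ 1 / 100) {F : Type*} [NormedAddCommGroup F]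
    [NormedSpace ℝ F] [CompleteSpace F] {f : H × (H →L[ℝ] H) → F} (hf : AEStronglyMeasurable f V)
    {ρ A B : ℝ} (hρ : 0 < ρ) (hρ1 : ρ ≤ 1) (hκρ : 8 * κ ≤ ρ) {u : ℂ} (hu : ‖u‖ + 2 * ρ ≤ R')
    (hA0 : 0 ≤ A) (hA : ∀ᵐ a ∂(chart V c R).m, a ∈ (chart V c R).cyl u (2 * ρ) → ‖f a‖ ≤ A)
    (hB : (chart V c R).m.real ((chart V c R).cyl u (2 * ρ)) ≤ B * ρ ^ 2) :
    ‖(chart V c' R').av ρ f u - (chart V c R).av ρ f u‖ ≤ 20 * Ck * B * A * κ / ρ := by
  have hR' : R' ≤ 2 := hRR.trans hR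
  have := hV.fin
  have := h.chart_finite hε hR hV
  have hC : 0 ≤ Ck := zero_le_one.trans one_le_Ck
  have hb := fun (p : H) (hs : p ∈ V.fst.support) (hp : p ∈ c'.tube R') =>
    cmp_back h hε hR h' hε' hRR hc hκ0 hκ hroom hp (ht_half_ChC2 h' hε' hR' hV hη hp hs)
  obtain ⟨Z, hZ⟩ : ∃ Z, Z = (chart V c R).cyl u (2 * ρ) := ⟨_, rfl⟩
  have hZm : MeasurableSet Z := hZ ▸
    measurableSet_lt ((h.meas_chart hε hR V).1.sub_const _).norm measurable_const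
  have hS := hZm.inter (h.meas_dom hε hR)
  have hmem : ∀ a, a ∈ Z ↔ ‖u - c.foot R a.1‖ < 2 * ρ := fun a => by
    rw [hZ, norm_sub_rev]
    rfl
  rw [← hZ] at hA hB
  rw [h.chart_ae hε hR] at hA
  have h0 : ∀ᵐ a ∂V, a ∉ Z ∩ c.dom R →
      kerV_ChC2 c R ρ u a = 0 ∧ kerV_ChC2 c' R' ρ u a = 0 := by
    filter_upwards [ev_ae_supp hV] with a hs ha
    have h1 : a ∈ c.dom R → 2 * ρ ≤ ‖u - c.foot R a.1‖ := fun h1 =>
      not_lt.1 fun h2 => ha ⟨(hmem a).2 h2, h1⟩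
    refine ⟨ker_zero_ChC2 hρ fun h2 => by linarith [h1 h2], ker_zero_ChC2 hρ fun h2 => ?_⟩
    obtain ⟨h3, h4⟩ := hb _ hs h2
    linarith [h1 h3, norm_sub_le_norm_sub_add_norm_sub u (c'.foot R' a.1) (c.foot R a.1)]
  have h1 : ∀ᵐ a ∂V, |kerV_ChC2 c' R' ρ u a - kerV_ChC2 c R ρ u a| ≤ 12 * κ * (Ck / ρ ^ 3) := by
    filter_upwards [ev_ae_supp hV] with a hs
    by_cases ha : a ∈ c'.dom R'
    · obtain ⟨h3, h4⟩ := hb _ hs ha
      have h5 : a ∈ c.dom R := h3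
      rw [kerV_ChC2, kerV_ChC2, indicator_of_mem ha, indicator_of_mem h5]
      refine num_ChC2 (h.jet_at hε hR h3).cf.om_low (h'.jet_at hε' hR' ha).cf.om_low hκ0
        (cmp_near h hε hR h' hε' hRR hc hκ0 hκ h3 ha h4).2.2.1 (kr_nonneg _ _)
        ((kr_le hρ _).1.trans (div_le_div_of_nonneg_left hC (by positivity)
          (pow_le_pow_of_le_one hρ.le hρ1 (by norm_num)))) ?_
      refine (convex_univ.norm_image_sub_le_of_norm_fderiv_le
        (fun x _ => (kr_contDiff ρ).differentiable (by simp) x) (fun x _ => (kr_le hρ x).2.1)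
        (mem_univ _) (mem_univ _)).trans (mul_le_mul_of_nonneg_left ?_ (by positivity))
      rwa [sub_sub_sub_cancel_left, norm_sub_rev]
    · rw [ker_zero_ChC2 hρ fun h2 => absurd h2 ha, ker_zero_ChC2 hρ fun h2 => ?_, sub_zero,
        abs_zero]
      · positivity
      by_contra h3
      refine ha (cmp_fwd h hε hR h' hε' hRR hc hκ0 hκ h2
        (ht_half_ChC2 h hε hR hV hη h2 hs) ?_).1
      linarith [norm_le_norm_add_norm_sub u (c.foot R a.1)]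
  have h2 : ∀ {g : H × (H →L[ℝ] H) → ℝ} {T : ℝ}, (∀ᵐ a ∂V, |g a| ≤ T) →
      (∀ᵐ a ∂V, a ∉ Z ∩ c.dom R → g a = 0) →
      ∀ᵐ a ∂V, ‖g a • f a‖ ≤ (Z ∩ c.dom R).indicator (fun _ => T * A) a := by
    intro g T hg hg0
    filter_upwards [hg, hg0, hA] with a a1 a2 a3
    by_cases ha : a ∈ Z ∩ c.dom R
    · rw [indicator_of_mem ha, norm_smul]
      exact mul_le_mul a1 (a3 ha.2 ha.1) (norm_nonneg _) ((abs_nonneg _).trans a1)
    · rw [indicator_of_notMem ha, a2 ha, zero_smul, norm_zero]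
  have i1 : Integrable (fun a => kerV_ChC2 c R ρ u a • f a) V :=
    ((integrable_const _).indicator hS).mono' ((ker_meas_ChC2 h hε hR ρ u).smul hf)
      (h2 (Eventually.of_forall (ker_le_ChC2 h hε hR hρ u)) (h0.mono fun a ha h3 => (ha h3).1))
  have i2 : Integrable (fun a => kerV_ChC2 c' R' ρ u a • f a) V :=
    ((integrable_const _).indicator hS).mono' ((ker_meas_ChC2 h' hε' hR' ρ u).smul hf)
      (h2 (Eventually.of_forall (ker_le_ChC2 h' hε' hR' hρ u)) (h0.mono fun a ha h3 => (ha h3).2))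
  rw [av_eq_ChC2 h hε hR, av_eq_ChC2 h' hε' hR', ← integral_sub i2 i1]
  simp only [← sub_smul]
  refine (norm_integral_le_of_norm_le ((integrable_const _).indicator hS)
    (h2 h1 (h0.mono fun a ha h3 => by rw [(ha h3).1, (ha h3).2, sub_zero]))).trans ?_
  rw [integral_indicator_const _ hS, smul_eq_mul]
  have h3 : V.real (Z ∩ c.dom R) ≤ (1 + 3 * ε) * (chart V c R).m.real Z := by
    have h4 := Measure.le_iff'.1 (h.chart_ge (V := V) hε hR) Z
    rw [Measure.restrict_apply hZm, Measure.smul_apply, smul_eq_mul] at h4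
    have h5 := ENNReal.toReal_mono (ENNReal.mul_ne_top ENNReal.ofReal_ne_top (measure_ne_top _ _)) h4
    rwa [ENNReal.toReal_mul, ENNReal.toReal_ofReal (by linarith [h.eps_nonneg])] at h5
  have h4 : V.real (Z ∩ c.dom R) ≤ 5 / 3 * (B * ρ ^ 2) :=
    h3.trans (mul_le_mul (by linarith) hB measureReal_nonneg (by norm_num))
  refine (mul_le_mul_of_nonneg_right h4 (by positivity)).trans (le_of_eq ?_)
  field_simp
  ring

end Pool.Agent.Lib.MP_8daebb_an.SV.Ch
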