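import Pool.Agent.Lib.MP_8daebb_an.SV.ChB3

/-! Calculus on a centre. -/

open MeasureTheory Metric Set Complex Filter Topology
open scoped RealInnerProductSpace ComplexConjugate ContDiff ENNReal

namespace Pool.Agent.Lib.MP_8daebb_an.SV.Ch

variable {H : Type*} [NormedAddCommGroup H] [InnerProductSpace ℝ H] [FiniteDimensional ℝ H]

variable {ι : ℂ →ₗᵢ[ℝ] H} {c : Cen H} {ε R : ℝ}

theorem Pre.mono (h : Pre ι c ε R) {ε' R' : ℝ} (hε : ε ≤ ε') (hR : R' ≤ R) : Pre ι c ε' R' :=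
  have s : ball (0 : ℂ) R' ⊆ ball 0 R := ball_subset_ball hR
  ⟨h.hol.mono s, fun z hz => h.der z (s hz), fun z hz => h.conf z (s hz),
    fun z hz => (h.n0 z (s hz)).trans hε, fun z hz => (h.n1 z (s hz)).trans hε,
    fun z hz => (h.n2 z (s hz)).trans hε, h.base.trans hε⟩

theorem Pre.eps_nonneg (h : Pre ι c ε R) : 0 ≤ ε := (norm_nonneg _).trans h.base

theorem Pre.om_near (h : Pre ι c ε R) (hε : ε ≤ 1 / 100) {z : ℂ} (hz : z ∈ ball (0 : ℂ) R) :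
    |om (c.Φ z) - 1| ≤ 3 * ε := Ch.om_near ι (h.n0 z hz) hε

theorem Pre.cf (h : Pre ι c ε R) (hε : ε ≤ 1 / 100) {z : ℂ} (hz : z ∈ ball (0 : ℂ) R) :
    Cf (c.Φ z) := by
  have := abs_le.1 (h.om_near hε hz)
  exact ⟨h.conf z hz, by linarith [this.1], by linarith [this.2]⟩

theorem Pre.hol1_ChD0 (h : Pre ι c ε R) : DifferentiableOn ℂ (deriv c.Φ) (ball 0 R) :=
  h.hol.deriv isOpen_ball

theorem Pre.hasDerivAt (h : Pre ι c ε R) {z : ℂ} (hz : z ∈ ball (0 : ℂ) R) :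
    HasDerivAt c.Φ (deriv c.Φ z) z :=
  (h.hol.differentiableAt (isOpen_ball.mem_nhds hz)).hasDerivAt

theorem Pre.hasDerivAt1 (h : Pre ι c ε R) {z : ℂ} (hz : z ∈ ball (0 : ℂ) R) :
    HasDerivAt (deriv c.Φ) (deriv (deriv c.Φ) z) z :=
  (h.hol1_ChD0.differentiableAt (isOpen_ball.mem_nhds hz)).hasDerivAt

theorem Pre.hasFDerivAt (h : Pre ι c ε R) {z : ℂ} (hz : z ∈ ball (0 : ℂ) R) :
    HasFDerivAt c.Φ (sm (deriv c.Φ z)) z := (h.hasDerivAt hz).hasFDerivAt.restrictScalars ℝ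

theorem Pre.hasFDerivAt1 (h : Pre ι c ε R) {z : ℂ} (hz : z ∈ ball (0 : ℂ) R) :
    HasFDerivAt (deriv c.Φ) (sm (deriv (deriv c.Φ) z)) z :=
  (h.hasDerivAt1 hz).hasFDerivAt.restrictScalars ℝ

theorem Pre.conf1 (h : Pre ι c ε R) {z : ℂ} (hz : z ∈ ball (0 : ℂ) R) :
    bil (c.Φ z) (deriv c.Φ z) = 0 := by
  obtain ⟨B, hB⟩ := exists_bilL (H := H)
  have h1 := (B.hasFDerivAt.comp_hasDerivAt z (h.hasDerivAt hz)).clm_apply (h.hasDerivAt hz)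
  have h2 : HasDerivAt (fun w => (B ∘ c.Φ) w (c.Φ w)) 0 z :=
    (hasDerivAt_const z (0 : ℂ)).congr_of_eventuallyEq
      (mem_of_superset (isOpen_ball.mem_nhds hz) fun w hw => (hB _ _).trans (h.conf w hw))
  have h3 := h1.unique h2
  rw [Function.comp_apply, hB, hB, bil_comm] at h3
  exact add_self_eq_zero.1 h3

theorem Pre.jet (h : Pre ι c ε R) (hε : ε ≤ 1 / 100) {z : ℂ} (hz : z ∈ ball (0 : ℂ) R) {y : H}
    (hy : ‖y‖ ≤ 1) (hn : pr (c.Φ z) y = 0) :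
    Jet ε (c.Φ z) (deriv c.Φ z) (deriv (deriv c.Φ) z) y :=
  ⟨h.eps_nonneg, hε, h.cf hε hz, h.conf1 hz, h.n1 z hz, h.n2 z hz, hy, hn⟩

theorem Pre.smooth0 (h : Pre ι c ε R) : ContDiffOn ℝ ∞ c.Φ (ball 0 R) :=
  (h.hol.contDiffOn isOpen_ball).restrict_scalars ℝ

theorem Pre.smooth1 (h : Pre ι c ε R) : ContDiffOn ℝ ∞ (deriv c.Φ) (ball 0 R) :=
  (h.hol1_ChD0.contDiffOn isOpen_ball).restrict_scalars ℝ

theorem Pre.smooth2 (h : Pre ι c ε R) : ContDiffOn ℝ ∞ (deriv (deriv c.Φ)) (ball 0 R) :=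
  ((h.hol1_ChD0.deriv isOpen_ball).contDiffOn isOpen_ball).restrict_scalars ℝ

theorem Pre.smoothF (h : Pre ι c ε R) : ContDiffOn ℝ ∞ c.F (ball 0 R) :=
  (contDiffOn_infty_iff_fderiv_of_isOpen isOpen_ball).2
    ⟨fun z hz => (h.der z hz).differentiableAt.differentiableWithinAt,
      ((sp (H := H)).contDiff.comp_contDiffOn h.smooth0).congr fun z hz => (h.der z hz).fderiv⟩

theorem Pre.lip0 (h : Pre ι c ε R) {z w : ℂ} (hz : z ∈ ball (0 : ℂ) R) (hw : w ∈ ball (0 : ℂ) R) :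
    ‖c.Φ z - c.Φ w‖ ≤ ε * ‖z - w‖ :=
  (convex_ball 0 R).norm_image_sub_le_of_norm_deriv_le
    (fun _ hx => (h.hasDerivAt hx).differentiableAt) h.n1 hw hz

theorem Pre.lip1 (h : Pre ι c ε R) {z w : ℂ} (hz : z ∈ ball (0 : ℂ) R) (hw : w ∈ ball (0 : ℂ) R) :
    ‖deriv c.Φ z - deriv c.Φ w‖ ≤ ε * ‖z - w‖ :=
  (convex_ball 0 R).norm_image_sub_le_of_norm_deriv_le
    (fun _ hx => (h.hasDerivAt1 hx).differentiableAt) h.n2 hw hz

theorem Pre.taylor (h : Pre ι c ε R) {z w : ℂ} (hz : z ∈ ball (0 : ℂ) R)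
    (hw : w ∈ ball (0 : ℂ) R) : ‖c.F z - c.F w - sp (c.Φ w) (z - w)‖ ≤ 2 * ε * ‖z - w‖ ^ 2 := by
  have := ((convex_ball (0 : ℂ) R).inter
    (convex_closedBall w ‖z - w‖)).norm_image_sub_le_of_norm_hasFDerivWithin_le'
    (f := c.F) (f' := fun x => sp (c.Φ x)) (φ := sp (c.Φ w)) (C := 2 * ε * ‖z - w‖)
    (fun x hx => (h.der x hx.1).hasFDerivWithinAt) (fun x hx => by
      rw [← map_sub]
      refine (opNorm_sp_le _).trans ?_
      have h1 := h.lip0 hx.1 hw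
      have h2 := mul_le_mul_of_nonneg_left (mem_closedBall_iff_norm.1 hx.2) h.eps_nonneg
      linarith)
    ⟨hw, mem_closedBall_self (norm_nonneg _)⟩ ⟨hz, mem_closedBall_iff_norm.2 le_rfl⟩
  rwa [mul_assoc, ← sq] at this

theorem Pre.near_iso (h : Pre ι c ε R) {z w : ℂ} (hz : z ∈ ball (0 : ℂ) R)
    (hw : w ∈ ball (0 : ℂ) R) : ‖c.F z - c.F w - ι (z - w)‖ ≤ 2 * ε * ‖z - w‖ :=
  (convex_ball (0 : ℂ) R).norm_image_sub_le_of_norm_hasFDerivWithin_le'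
    (f := c.F) (f' := fun x => sp (c.Φ x)) (φ := ι.toContinuousLinearMap) (C := 2 * ε)
    (fun x hx => (h.der x hx).hasFDerivWithinAt) (fun x hx => by
      rw [← sp_zd ι.toContinuousLinearMap, ← map_sub]
      exact (opNorm_sp_le _).trans (mul_le_mul_of_nonneg_left (h.n0 x hx) zero_le_two)) hw hz

theorem Pre.norm_F_le (h : Pre ι c ε R) {z : ℂ} (hz : z ∈ ball (0 : ℂ) R) :
    ‖c.F z‖ ≤ ε + (1 + 2 * ε) * ‖z‖ := by
  have h1 := h.near_iso hz (mem_ball_self (pos_of_mem_ball hz))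
  have h2 := norm_add₃_le (a := c.F z - c.F 0 - ι (z - 0)) (b := c.F 0) (c := ι (z - 0))
  rw [show c.F z - c.F 0 - ι (z - 0) + c.F 0 + ι (z - 0) = c.F z by abel, ι.norm_map] at h2
  rw [sub_zero] at h1 h2
  linarith [h.base]

theorem Pre.om_smooth (h : Pre ι c ε R) : ContDiffOn ℝ ∞ (fun z => om (c.Φ z)) (ball 0 R) :=
  contDiffOn_const.mul (h.smooth0.norm_sq ℂ)

theorem Pre.om_fderiv (h : Pre ι c ε R) (hε : ε ≤ 1 / 100) {z : ℂ} (hz : z ∈ ball (0 : ℂ) R) :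
    ‖fderiv ℝ (fun z => om (c.Φ z)) z‖ ≤ 3 * ε := by
  refine norm_fderiv_le_of_lip' ℝ (mul_nonneg zero_le_three h.eps_nonneg)
    (mem_of_superset (isOpen_ball.mem_nhds hz) fun w hw => ?_)
  have h1 := (h.cf hε hw).om_sub (h.cf hε hz)
  have h2 := h.lip0 hw hz
  show |om (c.Φ w) - om (c.Φ z)| ≤ 3 * ε * ‖w - z‖
  linarith

/-- A translate of a centre is a centre. -/
theorem Pre.shift (h : Pre ι c ε R) {a : ℂ} {ε' R' : ℝ} (hR : R' + ‖a‖ ≤ R) (hε : ε ≤ ε')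
    (hb : ‖c.F a‖ ≤ ε') : Pre ι (c.shift a) ε' R' := by
  have s : ∀ z ∈ ball (0 : ℂ) R', z + a ∈ ball (0 : ℂ) R := fun z hz => by
    rw [mem_ball_zero_iff] at hz ⊢
    linarith [norm_add_le z a]
  have e1 : deriv (c.shift a).Φ = fun z => deriv c.Φ (z + a) :=
    funext fun z => deriv_comp_add_const c.Φ a z
  refine ⟨h.hol.comp (f := fun z => z + a) (by fun_prop) s, fun z hz => ?_,
    fun z hz => h.conf _ (s z hz), fun z hz => (h.n0 _ (s z hz)).trans hε, fun z hz => ?_,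
    fun z hz => ?_, ?_⟩
  · exact (hasFDerivAt_comp_add_right a).2 (h.der _ (s z hz))
  · rw [e1]
    exact (h.n1 _ (s z hz)).trans hε
  · rw [e1, deriv_comp_add_const]
    exact (h.n2 _ (s z hz)).trans hε
  · show ‖c.F (0 + a)‖ ≤ ε'
    rwa [zero_add]

/-- The flat centre. -/
theorem adm_flat (ι : ℂ →ₗᵢ[ℝ] H) (R : ℝ) :
    Adm ι ⟨fun z => ι z, fun _ => zd ι.toContinuousLinearMap⟩ 0 R := by
  refine ⟨⟨differentiableOn_const _, fun z _ => ?_, fun _ _ => bil_zd_iso ι, fun _ _ => by simp,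
    fun _ _ => by simp, fun _ _ => by simp, by simp⟩, by simp⟩
  show HasFDerivAt (fun z => ι z) (sp (zd ι.toContinuousLinearMap)) z
  rw [sp_zd]
  exact ι.toContinuousLinearMap.hasFDerivAt

end Pool.Agent.Lib.MP_8daebb_an.SV.Ch
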