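import Pool.Agent.Lib.MP_8daebb_an.SV.ChD0

/-! Existence and uniqueness of the foot. -/

open MeasureTheory Metric Set Complex Filter Topology
open scoped RealInnerProductSpace ComplexConjugate ContDiff ENNReal

namespace Pool.Agent.Lib.MP_8daebb_an.SV.Ch

variable {H : Type*} [NormedAddCommGroup H] [InnerProductSpace ℝ H] [FiniteDimensional ℝ H]

variable {ι : ℂ →ₗᵢ[ℝ] H} {c : Cen H} {ε R : ℝ}

theorem Pre.T_lip (h : Pre ι c ε R) (hε : ε ≤ 1 / 100) (hR : R ≤ 2) {p : H} (hp : ‖p‖ ≤ 4) {z w : ℂ}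
    (hz : z ∈ ball (0 : ℂ) R) (hw : w ∈ ball (0 : ℂ) R) :
    ‖(z + pr (c.Φ z) (p - c.F z)) - (w + pr (c.Φ w) (p - c.F w))‖ ≤ 30 * ε * ‖z - w‖ := by
  have e0 := h.eps_nonneg
  have hz' := mem_ball_zero_iff.1 hz
  have hw' := mem_ball_zero_iff.1 hw
  have d0 := norm_nonneg (z - w)
  have d4 : ‖z - w‖ ≤ 4 := (norm_sub_le z w).trans (by linarith)
  have e : (z + pr (c.Φ z) (p - c.F z)) - (w + pr (c.Φ w) (p - c.F w)) =
      ((1 - om (c.Φ w) : ℝ) : ℂ) * (z - w) -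
        pr (c.Φ w) (c.F z - c.F w - sp (c.Φ w) (z - w)) + pr (c.Φ z - c.Φ w) (p - c.F z) := by
    rw [map_sub (pr (c.Φ w)) (c.F z - c.F w), pr_sp_self (h.conf w hw)]
    simp only [map_sub, _root_.sub_apply]
    push_cast
    ring
  have h1 : ‖((1 - om (c.Φ w) : ℝ) : ℂ) * (z - w)‖ ≤ 3 * ε * ‖z - w‖ := by
    rw [norm_mul, Complex.norm_real, Real.norm_eq_abs, abs_sub_comm]
    exact mul_le_mul_of_nonneg_right (h.om_near hε hw) d0
  have h2 := ((h.cf hε hw).norm_pr_le _).trans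
    (mul_le_mul_of_nonneg_left (h.taylor hz hw) (by norm_num))
  have h3 : ‖p - c.F z‖ ≤ 7 := by
    have := h.norm_F_le hz
    have := norm_sub_le p (c.F z)
    nlinarith [norm_nonneg z]
  have h4 := (norm_pr_le (c.Φ z - c.Φ w) (p - c.F z)).trans (mul_le_mul
    (mul_le_mul_of_nonneg_left (h.lip0 hz hw) zero_le_two) h3 (norm_nonneg _) (by positivity))
  have h5 : ε * ‖z - w‖ * ‖z - w‖ ≤ ε * ‖z - w‖ * 4 :=
    mul_le_mul_of_nonneg_left d4 (by positivity)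
  rw [e]
  refine (norm_add_le _ _).trans ((add_le_add (norm_sub_le _ _) le_rfl).trans ?_)
  nlinarith [mul_nonneg e0 d0]

theorem Pre.exists_foot (h : Pre ι c ε R) (hε : ε ≤ 1 / 100) (hR : R ≤ 2) {p : H} (hp : ‖p‖ ≤ 4) {x₀ : ℂ}
    {r : ℝ} (hr : 0 ≤ r) (hx : ‖x₀‖ + r < R)
    (h0 : ‖pr (c.Φ x₀) (p - c.F x₀)‖ ≤ (1 - 30 * ε) * r) :
    ∃ x, ‖x - x₀‖ ≤ r ∧ pr (c.Φ x) (p - c.F x) = 0 := by
  have e0 := h.eps_nonneg
  have hs : closedBall x₀ r ⊆ ball (0 : ℂ) R := fun z hz => by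
    rw [mem_closedBall, dist_eq_norm] at hz
    have := norm_add_le x₀ (z - x₀)
    rw [add_sub_cancel] at this
    exact mem_ball_zero_iff.2 (by linarith)
  have hm : MapsTo (fun z => z + pr (c.Φ z) (p - c.F z)) (closedBall x₀ r) (closedBall x₀ r) := by
    intro z hz
    have h1 := h.T_lip hε hR hp (hs hz) (hs (mem_closedBall_self hr))
    rw [mem_closedBall, dist_eq_norm] at hz ⊢
    have h2 := norm_add_le (z + pr (c.Φ z) (p - c.F z) - (x₀ + pr (c.Φ x₀) (p - c.F x₀)))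
      (pr (c.Φ x₀) (p - c.F x₀))
    rw [show ∀ a b d : ℂ, a - (b + d) + d = a - b from fun a b d => by ring] at h2
    nlinarith [mul_le_mul_of_nonneg_left hz e0]
  have hc : ContractingWith ⟨30 * ε, by positivity⟩ (hm.restrict _ _ _) := by
    refine ⟨?_, LipschitzWith.of_dist_le_mul fun z w => ?_⟩
    · rw [← NNReal.coe_lt_coe]
      show 30 * ε < 1
      linarith
    · have := h.T_lip hε hR hp (hs z.2) (hs w.2)
      rw [← dist_eq_norm, ← dist_eq_norm] at this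
      exact this
  obtain ⟨x, h1, h2, -⟩ := hc.exists_fixedPoint' isClosed_closedBall.isComplete hm
    (mem_closedBall_self hr) (edist_ne_top _ _)
  exact ⟨x, by rwa [mem_closedBall, dist_eq_norm] at h1, add_eq_left.1 h2⟩

theorem Pre.foot_norm_lt (h : Pre ι c ε R) (hε : ε ≤ 1 / 100) (hR : R ≤ 2) {p : H} {x : ℂ}
    (hx : c.IsFoot R p x) : ‖p‖ < 7 / 2 := by
  have e0 := h.eps_nonneg
  have h1 := h.norm_F_le hx.1
  have h2 := mem_ball_zero_iff.1 hx.1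
  have h3 := norm_add_le (p - c.F x) (c.F x)
  rw [sub_add_cancel] at h3
  nlinarith [norm_nonneg x, hx.2.2]

theorem Pre.foot_lip (h : Pre ι c ε R) (hε : ε ≤ 1 / 100) (hR : R ≤ 2) {p p' : H} {x x' : ℂ}
    (hx : c.IsFoot R p x) (hx' : c.IsFoot R p' x') : ‖x - x'‖ ≤ 2 * ‖p - p'‖ := by
  have h1 := h.T_lip hε hR (p := p) (by linarith [h.foot_norm_lt hε hR hx]) hx.1 hx'.1
  have e : pr (c.Φ x') (p - c.F x') = pr (c.Φ x') (p - p') := by
    rw [← sub_add_sub_cancel p p', map_add, hx'.2.1, add_zero]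
  rw [hx.2.1, add_zero, e] at h1
  have h2 := (h.cf hε hx'.1).norm_pr_le (p - p')
  have h3 := norm_add_le (x - (x' + pr (c.Φ x') (p - p'))) (pr (c.Φ x') (p - p'))
  rw [show ∀ a b d : ℂ, a - (b + d) + d = a - b from fun a b d => by ring] at h3
  nlinarith [norm_nonneg (x - x'), norm_nonneg (p - p')]

theorem Cen.foot_spec {p : H} (hp : p ∈ c.tube R) : c.IsFoot R p (c.foot R p) := by
  rw [Cen.foot, dif_pos (show ∃ x, c.IsFoot R p x from hp)]
  exact Exists.choose_spec hp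

theorem Cen.foot_of_notMem {p : H} (hp : p ∉ c.tube R) : c.foot R p = 0 := dif_neg hp

theorem Pre.foot_eq (h : Pre ι c ε R) (hε : ε ≤ 1 / 100) (hR : R ≤ 2) {p : H} {x : ℂ}
    (hx : c.IsFoot R p x) : c.foot R p = x := by
  have := h.foot_lip hε hR (Cen.foot_spec ⟨x, hx⟩) hx
  rw [sub_self, norm_zero, mul_zero] at this
  exact sub_eq_zero.1 (norm_le_zero_iff.1 this)

theorem Pre.F_lip_ChD1 (h : Pre ι c ε R) {z w : ℂ} (hz : z ∈ ball (0 : ℂ) R)
    (hw : w ∈ ball (0 : ℂ) R) : |‖c.F z - c.F w‖ - ‖z - w‖| ≤ 2 * ε * ‖z - w‖ := by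
  have := (abs_norm_sub_norm_le _ _).trans (h.near_iso hz hw)
  rwa [ι.norm_map] at this

theorem Pre.isOpen_tube (h : Pre ι c ε R) (hε : ε ≤ 1 / 100) (hR : R ≤ 2) : IsOpen (c.tube R) := by
  have e0 := h.eps_nonneg
  rw [Metric.isOpen_iff]
  rintro p ⟨x, hx⟩
  have h1 := mem_ball_zero_iff.1 hx.1
  have h2 := hx.2.2
  have h3 := h.foot_norm_lt hε hR hx
  refine ⟨min ((R - ‖x‖) / 2) ((1 - ‖p - c.F x‖) / 4), lt_min (by linarith) (by linarith),
    fun q hq => ?_⟩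
  rw [mem_ball, dist_eq_norm, lt_min_iff] at hq
  have d0 := norm_nonneg (q - p)
  have h4 := norm_add_le (q - p) p
  rw [sub_add_cancel] at h4
  obtain ⟨z, z1, z2⟩ := h.exists_foot hε hR (p := q) (by linarith [norm_nonneg (p - c.F x)])
    (x₀ := x) (r := 2 * ‖q - p‖) (by positivity) (by linarith) (by
      rw [← sub_add_sub_cancel q p, map_add, hx.2.1, add_zero]
      exact ((h.cf hε hx.1).norm_pr_le _).trans (by nlinarith))
  have h5 := norm_add_le x (z - x)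
  rw [add_sub_cancel] at h5
  have hz : z ∈ ball (0 : ℂ) R := mem_ball_zero_iff.2 (by linarith)
  refine ⟨z, hz, z2, ?_⟩
  have h6 := (abs_le.1 (h.F_lip_ChD1 hz hx.1)).2
  have h7 : ‖q - c.F z‖ ≤ ‖q - p‖ + ‖p - c.F x‖ + ‖c.F z - c.F x‖ := by
    rw [show q - c.F z = q - p + (p - c.F x) - (c.F z - c.F x) by abel]
    exact (norm_sub_le _ _).trans (add_le_add (norm_add_le _ _) le_rfl)
  nlinarith [norm_nonneg (z - x)]

theorem Pre.tube_subset (h : Pre ι c ε R) (hε : ε ≤ 1 / 100) (hR : R ≤ 2) : c.tube R ⊆ ball 0 (7 / 2) :=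
  fun _ ⟨_, hx⟩ => mem_ball_zero_iff.2 (h.foot_norm_lt hε hR hx)

theorem Pre.jet_at (h : Pre ι c ε R) (hε : ε ≤ 1 / 100) (hR : R ≤ 2) {p : H} (hp : p ∈ c.tube R) :
    Jet ε (c.j0 R p) (c.j1 R p) (c.j2 R p) (c.ht R p) :=
  have _ := hR
  h.jet hε (Cen.foot_spec hp).1 (Cen.foot_spec hp).2.2.le (Cen.foot_spec hp).2.1

/-- Points of the tube at bounded base radius and height form a compact set. -/
theorem Pre.isCompact_tube (h : Pre ι c ε R) (hε : ε ≤ 1 / 100) (hR : R ≤ 2) {r η : ℝ} (hr : r < R)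
    (hη : η < 1) : IsCompact {p | p ∈ c.tube R ∧ ‖c.foot R p‖ ≤ r ∧ ‖c.ht R p‖ ≤ η} := by
  have hs : ∀ a ∈ closedBall (0 : ℂ) r ×ˢ closedBall (0 : H) η, a.1 ∈ ball (0 : ℂ) R :=
    fun a ha => closedBall_subset_ball hr ha.1
  have c1 : ContinuousOn (fun a : ℂ × H => pr (c.Φ a.1) a.2)
      (closedBall (0 : ℂ) r ×ˢ closedBall (0 : H) η) :=
    (pr.continuous.comp_continuousOn (h.hol.continuousOn.comp continuousOn_fst hs)).clm_apply
      continuousOn_snd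
  have c2 : ContinuousOn (fun a : ℂ × H => c.F a.1 + a.2)
      (closedBall (0 : ℂ) r ×ˢ closedBall (0 : H) η) :=
    (h.smoothF.continuousOn.comp continuousOn_fst hs).add continuousOn_snd
  have hK := (isCompact_closedBall (0 : ℂ) r).prod (isCompact_closedBall (0 : H) η)
  have hK' := hK.of_isClosed_subset
    (c1.preimage_isClosed_of_isClosed hK.isClosed (isClosed_singleton (x := 0))) inter_subset_left
  convert hK'.image_of_continuousOn (c2.mono inter_subset_left) using 1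
  ext p
  constructor
  · rintro ⟨h1, h2, h3⟩
    exact ⟨(c.foot R p, c.ht R p), ⟨⟨mem_closedBall_zero_iff.2 h2, mem_closedBall_zero_iff.2 h3⟩,
      (Cen.foot_spec h1).2.1⟩, add_sub_cancel _ _⟩
  · rintro ⟨⟨x, y⟩, ⟨h1, h2⟩, rfl⟩
    have h3 := mem_closedBall_zero_iff.1 h1.2
    have h4 : c.IsFoot R (c.F x + y) x :=
      ⟨hs _ h1, by rwa [add_sub_cancel_left], by rw [add_sub_cancel_left]; exact h3.trans_lt hη⟩
    refine ⟨⟨x, h4⟩, ?_, ?_⟩
    · rw [h.foot_eq hε hR h4]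
      exact mem_closedBall_zero_iff.1 h1.1
    · rwa [Cen.ht, h.foot_eq hε hR h4, add_sub_cancel_left]

theorem Pre.inner_le_ChD1 (h : Pre ι c ε R) {z w : ℂ} (hz : z ∈ ball (0 : ℂ) R)
    (hw : w ∈ ball (0 : ℂ) R) {y : H} (h1 : pr (c.Φ w) y = 0) (h2 : ‖y‖ ≤ 1) :
    |⟪c.F z - c.F w, y⟫| ≤ 2 * ε * ‖z - w‖ ^ 2 := by
  have e : ⟪c.F z - c.F w, y⟫ = ⟪c.F z - c.F w - sp (c.Φ w) (z - w), y⟫ := by
    rw [inner_sub_left _ (sp _ _), inner_sp, h1, mul_zero, zero_re, sub_zero]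
  rw [e]
  exact (abs_real_inner_le_norm _ _).trans
    ((mul_le_of_le_one_right (norm_nonneg _) h2).trans (h.taylor hz hw))

/-- Almost Pythagoras. -/
theorem Pre.geo (h : Pre ι c ε R) (hε : ε ≤ 1 / 100) (hR : R ≤ 2) {p p' : H} (hp : p ∈ c.tube R)
    (hp' : p' ∈ c.tube R) :
    |‖p - p'‖ ^ 2 - ‖c.foot R p - c.foot R p'‖ ^ 2 - ‖c.ht R p - c.ht R p'‖ ^ 2| ≤
      20 * ε * ‖c.foot R p - c.foot R p'‖ ^ 2 := by
  have _ := hR
  have e0 := h.eps_nonneg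
  obtain ⟨a1, a2, a3⟩ := Cen.foot_spec hp
  obtain ⟨b1, b2, b3⟩ := Cen.foot_spec hp'
  have h1 := abs_le.1 (h.inner_le_ChD1 a1 b1 b2 b3.le)
  have h2 := abs_le.1 (h.inner_le_ChD1 b1 a1 a2 a3.le)
  have h3 := abs_le.1 (h.F_lip_ChD1 a1 b1)
  rw [← neg_sub (c.F (c.foot R p)), inner_neg_left, norm_sub_rev] at h2
  simp only [Cen.ht]
  generalize c.foot R p = x at *
  generalize c.foot R p' = x' at *
  have e := norm_add_sq_real (c.F x - c.F x') (p - c.F x - (p' - c.F x'))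
  rw [show c.F x - c.F x' + (p - c.F x - (p' - c.F x')) = p - p' by abel, inner_sub_right] at e
  have d0 := norm_nonneg (x - x')
  have n0 := norm_nonneg (c.F x - c.F x')
  generalize ‖x - x'‖ = d at *
  generalize ‖c.F x - c.F x'‖ = n at *
  have k0 : 0 ≤ ε * d := mul_nonneg e0 d0
  have k1 : ε * d ≤ d / 100 := by nlinarith
  have k2 : n ^ 2 ≤ d ^ 2 + 5 * ε * d ^ 2 := by nlinarith
  have k3 : d ^ 2 - 5 * ε * d ^ 2 ≤ n ^ 2 := by nlinarith
  have k4 : 0 ≤ ε * d ^ 2 := by positivity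
  rw [abs_le]
  constructor <;> linarith [h1.1, h1.2, h2.1, h2.2]

theorem Pre.ht_le_ChD1 (h : Pre ι c ε R) (hR : R ≤ 2) {p : H} (hp : ‖p‖ ≤ 4) {x : ℂ}
    (hx : x ∈ ball (0 : ℂ) R) (hn : pr (c.Φ x) (p - c.F x) = 0) {η : ℝ}
    {v : ℂ} (hv : ‖p - ι v‖ ≤ η) (hη : η ≤ 1) : ‖p - c.F x‖ ≤ 20 * (ε + η) := by
  have e0 := h.eps_nonneg
  have e1 := (norm_nonneg _).trans hv
  have hx' := mem_ball_zero_iff.1 hx
  have h1 : ‖v - x‖ ≤ 7 := by
    have := norm_sub_le p (p - ι v)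
    rw [sub_sub_cancel, ι.norm_map] at this
    linarith [norm_sub_le v x]
  have h2 : ‖ι x - c.F x‖ ≤ 5 * ε := by
    have := h.near_iso hx (mem_ball_self ((norm_nonneg x).trans_lt hx'))
    rw [sub_zero] at this
    rw [show ι x - c.F x = -(c.F x - c.F 0 - ι x + c.F 0) by abel, norm_neg]
    nlinarith [norm_add_le (c.F x - c.F 0 - ι x) (c.F 0), h.base]
  have h3 := (norm_sp_le (c.Φ x - zd ι.toContinuousLinearMap) (v - x)).trans (mul_le_mul
    (mul_le_mul_of_nonneg_left (h.n0 x hx) zero_le_two) h1 (norm_nonneg _) (by positivity))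
  have e : p - c.F x = p - ι v + (ι x - c.F x) -
      sp (c.Φ x - zd ι.toContinuousLinearMap) (v - x) + sp (c.Φ x) (v - x) := by
    rw [map_sub sp, sp_zd, _root_.sub_apply, LinearIsometry.coe_toContinuousLinearMap,
      map_sub ι]
    abel
  have h4 : ‖p - ι v + (ι x - c.F x) - sp (c.Φ x - zd ι.toContinuousLinearMap) (v - x)‖ ≤
      20 * (ε + η) := by
    refine (norm_sub_le _ _).trans ((add_le_add (norm_add_le _ _) le_rfl).trans ?_)
    linarith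
  have h5 : ‖p - c.F x‖ * ‖p - c.F x‖ ≤ 20 * (ε + η) * ‖p - c.F x‖ := by
    rw [← real_inner_self_eq_norm_mul_norm]
    nth_rewrite 1 [e]
    rw [inner_add_left, inner_sp, hn, mul_zero, zero_re, add_zero]
    exact (real_inner_le_norm _ _).trans (mul_le_mul_of_nonneg_right h4 (norm_nonneg _))
  by_contra h6
  nlinarith

theorem Pre.ht_le (h : Pre ι c ε R) (hε : ε ≤ 1 / 100) (hR : R ≤ 2) {p : H} (hp : p ∈ c.tube R) {η : ℝ}
    {v : ℂ} (hv : ‖p - ι v‖ ≤ η) (hη : η ≤ 1) : ‖c.ht R p‖ ≤ 20 * (ε + η) :=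
  h.ht_le_ChD1 hR (by linarith [h.foot_norm_lt hε hR (Cen.foot_spec hp)]) (Cen.foot_spec hp).1
    (Cen.foot_spec hp).2.1 hv hη

/-- With the gauge, the origin has foot `0`. -/
theorem Adm.foot_zero (h : Adm ι c ε R) (hε : ε ≤ 1 / 100) (hR0 : 0 < R) :
    c.IsFoot R 0 0 :=
  ⟨mem_ball_self hR0, by rw [zero_sub, map_neg, h.2, neg_zero],
    by rw [zero_sub, norm_neg]; linarith [h.1.base]⟩

/-- With the gauge, a small ambient ball lies over a disc of almost the same radius. -/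
theorem Adm.ball_sub (h : Adm ι c ε R) (hε : ε ≤ 1 / 100) (hR : R ≤ 2) {σ : ℝ} (hσ : σ ≤ R)
    {p : H} (hp : ‖p‖ < (1 - 40 * ε) * σ) {η : ℝ} {v : ℂ} (hv : ‖p - ι v‖ ≤ η) (hη : η ≤ 1 / 100) :
    p ∈ c.tube R ∧ ‖c.foot R p‖ < σ := by
  have e0 := h.1.eps_nonneg
  have p0 := norm_nonneg p
  have s0 : 0 < σ := (pos_iff_pos_of_mul_pos (p0.trans_lt hp)).1 (by linarith)
  have h0 : (0 : ℂ) ∈ ball (0 : ℂ) R := mem_ball_self (by linarith)
  have k0 : 0 < 1 - 30 * ε := by linarith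
  have p4 : ‖p‖ ≤ 4 := by nlinarith
  have h1 : (1 + 2 * ε) * ‖p‖ / (1 - 30 * ε) < σ := by
    rw [div_lt_iff₀ k0]
    nlinarith [mul_nonneg e0 s0.le, mul_nonneg (mul_nonneg e0 e0) s0.le]
  have h2 : ‖pr (c.Φ 0) p‖ ≤ (1 + 2 * ε) * ‖p‖ := by
    have hc := h.1.cf hε h0
    have g0 : 0 < om (c.Φ 0) := by linarith [hc.om_low]
    have g1 := (abs_le.1 (h.1.om_near hε h0)).2
    have g2 := hc.pyth p
    have g3 : ‖pr (c.Φ 0) p‖ = om (c.Φ 0) * ‖tv (c.Φ 0) p‖ := by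
      rw [tv, _root_.smul_apply, norm_smul, Real.norm_eq_abs, abs_inv, abs_of_pos g0,
        mul_inv_cancel_left₀ g0.ne']
    refine abs_le_of_sq_le_sq' ?_ (by positivity) |>.2
    have g4 : om (c.Φ 0) * (om (c.Φ 0) * ‖tv (c.Φ 0) p‖ ^ 2) ≤ (1 + 2 * ε) ^ 2 * ‖p‖ ^ 2 :=
      mul_le_mul (by nlinarith) (by nlinarith [sq_nonneg ‖pn (c.Φ 0) p‖]) (by positivity)
        (by positivity)
    rw [g3, mul_pow, mul_pow]
    linarith
  obtain ⟨x, x1, x2⟩ := h.1.exists_foot hε hR p4 (x₀ := 0)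
    (r := (1 + 2 * ε) * ‖p‖ / (1 - 30 * ε)) (by positivity) (by rw [norm_zero]; linarith)
    (by rwa [map_sub, h.2, sub_zero, mul_div_cancel₀ _ k0.ne'])
  rw [sub_zero] at x1
  have hx : x ∈ ball (0 : ℂ) R := mem_ball_zero_iff.2 (by linarith)
  have h3 : c.IsFoot R p x :=
    ⟨hx, x2, by linarith [h.1.ht_le_ChD1 hR p4 hx x2 hv (by linarith)]⟩
  exact ⟨⟨x, h3⟩, by rw [h.1.foot_eq hε hR h3]; linarith⟩

end Pool.Agent.Lib.MP_8daebb_an.SV.Ch
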