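import Pool.Agent.Lib.MP_8daebb_an.SV.ChD1

/-! The chart is `C^1`. -/

open MeasureTheory Metric Set Complex Filter Topology
open scoped RealInnerProductSpace ComplexConjugate ContDiff ENNReal

namespace Pool.Agent.Lib.MP_8daebb_an.SV.Ch

variable {H : Type*} [NormedAddCommGroup H] [InnerProductSpace ℝ H] [FiniteDimensional ℝ H]

variable {ι : ℂ →ₗᵢ[ℝ] H} {c : Cen H} {ε R : ℝ}

theorem Pre.mapsTo_ChD2 : MapsTo (c.foot R) (c.tube R) (ball (0 : ℂ) R) :=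
  fun _ hp => (Cen.foot_spec hp).1

theorem solve_ChD2 {Φ Φ₁ Φ₂ : EC H} {y : H} (J : Jet ε Φ Φ₁ Φ₂ y) (v : ℂ) (u : H) :
    ((1 - ‖mu Φ Φ₁ y‖ ^ 2)⁻¹ • (om Φ)⁻¹ • (1 + sh (mu Φ Φ₁ y)) : ℂ →L[ℝ] ℂ)
      (pr (v • Φ₁) y + pr Φ (u - sp Φ v)) = dx Φ Φ₁ y u - v := by
  have hw : om Φ ≠ 0 := by linarith [J.cf.om_low]
  have hw' : (om Φ : ℂ) ≠ 0 := by exact_mod_cast hw
  have hm : (1 - ‖mu Φ Φ₁ y‖ ^ 2 : ℝ) ≠ 0 := by
    have := J.mu_small
    have := norm_nonneg (mu Φ Φ₁ y)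
    nlinarith
  have hm' : ((1 - ‖mu Φ Φ₁ y‖ ^ 2 : ℝ) : ℂ) ≠ 0 := by exact_mod_cast hm
  have e1 : pr Φ₁ y = (om Φ : ℂ) * mu Φ Φ₁ y := by
    rw [mu, Complex.real_smul, Complex.ofReal_inv, mul_inv_cancel_left₀ hw']
  have e2 : pr Φ u = (om Φ : ℂ) * tv Φ u := by
    rw [tv, smul_apply, Complex.real_smul, Complex.ofReal_inv,
      mul_inv_cancel_left₀ hw']
  have e3 : mu Φ Φ₁ y * conj (mu Φ Φ₁ y) = ((‖mu Φ Φ₁ y‖ ^ 2 : ℝ) : ℂ) := by
    rw [Complex.mul_conj, Complex.normSq_eq_norm_sq]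
  rw [map_sub, pr_smul, pr_sp_self J.cf.conf, e1, e2, dx_apply]
  simp only [smul_apply, add_apply,
    one_apply_eq_self, sh_apply, Complex.real_smul, map_add, map_sub, map_mul,
    Complex.conj_ofReal, Complex.conj_conj, Complex.ofReal_inv]
  have e4 : ((1 - ‖mu Φ Φ₁ y‖ ^ 2 : ℝ) : ℂ) = 1 - mu Φ Φ₁ y * conj (mu Φ Φ₁ y) := by
    rw [e3]
    push_cast
    ring
  rw [e4] at hm' ⊢
  field_simp
  ring

theorem contDiffOn_one_ChD2 {E F : Type*} [NormedAddCommGroup E] [NormedSpace ℝ E]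
    [NormedAddCommGroup F] [NormedSpace ℝ F] {f : E → F} {f' : E → E →L[ℝ] F} {s : Set E}
    (hs : IsOpen s) (hd : ∀ p ∈ s, HasFDerivAt f (f' p) p) (hc : ContinuousOn f' s) :
    ContDiffOn ℝ 1 f s := by
  have e : (1 : WithTop ℕ∞) = 0 + 1 := by simp
  rw [e, contDiffOn_succ_iff_fderiv_of_isOpen hs]
  refine ⟨fun p hp => (hd p hp).differentiableAt.differentiableWithinAt, by simp, ?_⟩
  rw [contDiffOn_zero]
  exact hc.congr fun p hp => (hd p hp).fderiv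

theorem Pre.hasFDerivAt_foot (h : Pre ι c ε R) (hε : ε ≤ 1 / 100) (hR : R ≤ 2) {p : H} (hp : p ∈ c.tube R) :
    HasFDerivAt (c.foot R) (dx (c.j0 R p) (c.j1 R p) (c.ht R p)) p := by
  have hf := Cen.foot_spec hp
  have J := h.jet_at hε hR hp
  have hop := (h.isOpen_tube hε hR).mem_nhds hp
  have h1 : HasFDerivAt (fun z : ℂ × H => (pr : EC H →L[ℝ] H →L[ℝ] ℂ) (c.Φ z.1))
      ((pr : EC H →L[ℝ] H →L[ℝ] ℂ).comp ((sm (c.j1 R p)).comp (ContinuousLinearMap.fst ℝ ℂ H)))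
      (c.foot R p, p) :=
    (pr : EC H →L[ℝ] H →L[ℝ] ℂ).hasFDerivAt.comp _
      (HasFDerivAt.comp (f := Prod.fst) (c.foot R p, p) (h.hasFDerivAt hf.1) hasFDerivAt_fst)
  have h2 : HasFDerivAt (fun z : ℂ × H => z.2 - c.F z.1)
      (ContinuousLinearMap.snd ℝ ℂ H - (sp (c.j0 R p)).comp (ContinuousLinearMap.fst ℝ ℂ H))
      (c.foot R p, p) :=
    hasFDerivAt_snd.sub
      (HasFDerivAt.comp (f := Prod.fst) (c.foot R p, p) (h.der _ hf.1) hasFDerivAt_fst)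
  have hG := h1.clm_apply h2
  have hlip : ∀ᶠ q in 𝓝 p, ‖c.foot R q - c.foot R p‖ ≤ 2 * ‖q - p‖ := by
    filter_upwards [hop] with q hq
    exact h.foot_lip hε hR (Cen.foot_spec hq) hf
  have hO1 : (fun q => c.foot R q - c.foot R p) =O[𝓝 p] fun q => q - p :=
    Asymptotics.IsBigO.of_bound 2 hlip
  have hO : (fun q => ((c.foot R q, q) : ℂ × H) - (c.foot R p, p)) =O[𝓝 p] fun q => q - p :=
    hO1.prod_left (Asymptotics.isBigO_refl _ _)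
  have ht : Tendsto (fun q => ((c.foot R q, q) : ℂ × H)) (𝓝 p) (𝓝 (c.foot R p, p)) := by
    rw [← tendsto_sub_nhds_zero_iff]
    exact hO.trans_tendsto (tendsto_sub_nhds_zero_iff.2 tendsto_id)
  have h3 := (hG.isLittleO.comp_tendsto ht).trans_isBigO hO
  have h4 := (ContinuousLinearMap.isBigO_comp
    ((1 - ‖mu (c.j0 R p) (c.j1 R p) (c.ht R p)‖ ^ 2)⁻¹ • (om (c.j0 R p))⁻¹ •
      (1 + sh (mu (c.j0 R p) (c.j1 R p) (c.ht R p))) : ℂ →L[ℝ] ℂ) _ _).trans_isLittleO h3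
  refine HasFDerivAt.of_isLittleO (h4.congr' ?_ EventuallyEq.rfl)
  filter_upwards [hop] with q hq
  have hq0 := (Cen.foot_spec hq).2.1
  have := solve_ChD2 J (c.foot R q - c.foot R p) (q - p)
  simp only [Function.comp_apply, hq0, hf.2.1, sub_self, zero_sub, map_neg]
  rw [← neg_sub (dx _ _ _ _), ← this]
  congr 2
  rw [add_comm]
  rfl

theorem Pre.hasFDerivAt_ht (h : Pre ι c ε R) (hε : ε ≤ 1 / 100) (hR : R ≤ 2) {p : H} (hp : p ∈ c.tube R) :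
    HasFDerivAt (c.ht R) (dy (c.j0 R p) (c.j1 R p) (c.ht R p)) p :=
  (hasFDerivAt_id p).sub ((h.der _ (Cen.foot_spec hp).1).comp p (h.hasFDerivAt_foot hε hR hp))

theorem Pre.hasFDerivAt_j0 (h : Pre ι c ε R) (hε : ε ≤ 1 / 100) (hR : R ≤ 2) {p : H} (hp : p ∈ c.tube R) :
    HasFDerivAt (c.j0 R) ((sm (c.j1 R p)).comp (dx (c.j0 R p) (c.j1 R p) (c.ht R p))) p :=
  (h.hasFDerivAt (Cen.foot_spec hp).1).comp p (h.hasFDerivAt_foot hε hR hp)

theorem Pre.hasFDerivAt_j1 (h : Pre ι c ε R) (hε : ε ≤ 1 / 100) (hR : R ≤ 2) {p : H} (hp : p ∈ c.tube R) :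
    HasFDerivAt (c.j1 R) ((sm (c.j2 R p)).comp (dx (c.j0 R p) (c.j1 R p) (c.ht R p))) p :=
  (h.hasFDerivAt1 (Cen.foot_spec hp).1).comp p (h.hasFDerivAt_foot hε hR hp)

theorem Pre.contDiffOn_foot (h : Pre ι c ε R) (hε : ε ≤ 1 / 100) (hR : R ≤ 2) :
    ContDiffOn ℝ 1 (c.foot R) (c.tube R) := by
  refine contDiffOn_one_ChD2 (h.isOpen_tube hε hR) (fun p hp => h.hasFDerivAt_foot hε hR hp) ?_
  have c0 : ContinuousOn (c.j0 R) (c.tube R) := fun p hp =>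
    (h.hasFDerivAt_j0 hε hR hp).continuousAt.continuousWithinAt
  have c1 : ContinuousOn (c.j1 R) (c.tube R) := fun p hp =>
    (h.hasFDerivAt_j1 hε hR hp).continuousAt.continuousWithinAt
  have c2 : ContinuousOn (c.ht R) (c.tube R) := fun p hp =>
    (h.hasFDerivAt_ht hε hR hp).continuousAt.continuousWithinAt
  have cw : ContinuousOn (fun p => (om (c.j0 R p))⁻¹) (c.tube R) := by
    refine ContinuousOn.inv₀ (continuousOn_const.mul (c0.norm.pow 2)) fun p hp => ?_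
    have := (h.jet_at hε hR hp).cf.om_low
    intro e
    linarith
  have cp0 : ContinuousOn (fun p => pr (c.j0 R p)) (c.tube R) :=
    (pr : EC H →L[ℝ] H →L[ℝ] ℂ).continuous.comp_continuousOn c0
  have cp1 : ContinuousOn (fun p => pr (c.j1 R p)) (c.tube R) :=
    (pr : EC H →L[ℝ] H →L[ℝ] ℂ).continuous.comp_continuousOn c1
  have cm : ContinuousOn (fun p => mu (c.j0 R p) (c.j1 R p) (c.ht R p)) (c.tube R) :=
    cw.smul (cp1.clm_apply c2)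
  have ct : ContinuousOn (fun p => tv (c.j0 R p)) (c.tube R) := cw.smul cp0
  have cs : ContinuousOn (fun p => sh (mu (c.j0 R p) (c.j1 R p) (c.ht R p))) (c.tube R) :=
    ((ContinuousLinearMap.mul ℝ ℂ).continuous.comp_continuousOn cm).clm_comp continuousOn_const
  have ci : ContinuousOn (fun p => (1 - ‖mu (c.j0 R p) (c.j1 R p) (c.ht R p)‖ ^ 2)⁻¹)
      (c.tube R) := by
    refine ContinuousOn.inv₀ (continuousOn_const.sub (cm.norm.pow 2)) fun p hp => ?_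
    have := (h.jet_at hε hR hp).mu_small
    have := norm_nonneg (mu (c.j0 R p) (c.j1 R p) (c.ht R p))
    intro e
    nlinarith
  exact ci.smul ((continuousOn_const.add cs).clm_comp ct)

theorem Pre.contDiffOn_ht (h : Pre ι c ε R) (hε : ε ≤ 1 / 100) (hR : R ≤ 2) :
    ContDiffOn ℝ 1 (c.ht R) (c.tube R) :=
  contDiffOn_id.sub
    ((h.smoothF.of_le (by simp)).comp (h.contDiffOn_foot hε hR) Pre.mapsTo_ChD2)

theorem Pre.contDiffOn_j0 (h : Pre ι c ε R) (hε : ε ≤ 1 / 100) (hR : R ≤ 2) :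
    ContDiffOn ℝ 1 (c.j0 R) (c.tube R) :=
  (h.smooth0.of_le (by simp)).comp (h.contDiffOn_foot hε hR) Pre.mapsTo_ChD2

theorem Pre.contDiffOn_j1 (h : Pre ι c ε R) (hε : ε ≤ 1 / 100) (hR : R ≤ 2) :
    ContDiffOn ℝ 1 (c.j1 R) (c.tube R) :=
  (h.smooth1.of_le (by simp)).comp (h.contDiffOn_foot hε hR) Pre.mapsTo_ChD2

theorem Pre.contDiffOn_j2 (h : Pre ι c ε R) (hε : ε ≤ 1 / 100) (hR : R ≤ 2) :
    ContDiffOn ℝ 1 (c.j2 R) (c.tube R) :=
  (h.smooth2.of_le (by simp)).comp (h.contDiffOn_foot hε hR) Pre.mapsTo_ChD2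

end Pool.Agent.Lib.MP_8daebb_an.SV.Ch
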