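import Pool.Agent.Lib.MP_8daebb_an.SV.ChD2

/-! Derivatives of the test fields. -/

open MeasureTheory Metric Set Complex Filter Topology
open scoped RealInnerProductSpace ComplexConjugate ContDiff ENNReal

namespace Pool.Agent.Lib.MP_8daebb_an.SV.Ch

variable {H : Type*} [NormedAddCommGroup H] [InnerProductSpace ℝ H] [FiniteDimensional ℝ H]

variable {ι : ℂ →ₗᵢ[ℝ] H} {c : Cen H} {ε R : ℝ}

lemma om_ne_ChD3 {Φ Φ₁ Φ₂ : EC H} {y : H} (h : Jet ε Φ Φ₁ Φ₂ y) : om Φ ≠ 0 := by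
  have := h.cf.om_low
  positivity

lemma sq_ne_ChD3 {Φ Φ₁ Φ₂ : EC H} {y : H} (h : Jet ε Φ Φ₁ Φ₂ y) : 1 - ‖mu Φ Φ₁ y‖ ^ 2 ≠ 0 := by
  have h1 := h.mu_small
  have h2 := norm_nonneg (mu Φ Φ₁ y)
  nlinarith

theorem Pre.hasFDerivAt_ominv (h : Pre ι c ε R) (hε : ε ≤ 1 / 100) (hR : R ≤ 2) {p : H} (hp : p ∈ c.tube R) :
    HasFDerivAt (fun p' => (om (c.j0 R p'))⁻¹)
      (-(om (c.j0 R p))⁻¹ • dlw (c.j0 R p) (c.j1 R p) (c.ht R p)) p := by
  have h0 := h.hasFDerivAt_j0 hε hR hp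
  have hw := om_ne_ChD3 (h.jet_at hε hR hp)
  have h1 := (reCLM.hasFDerivAt.comp p (h0.inner ℂ h0)).const_mul 2
  have e : (fun p' => om (c.j0 R p')) =
      fun p' => 2 * (reCLM ∘ fun t => inner ℂ (c.j0 R t) (c.j0 R t)) p' := by
    ext p'
    simp only [om, Function.comp_apply, reCLM_apply]
    rw [← inner_self_eq_norm_sq (𝕜 := ℂ)]; rfl
  rw [← e] at h1
  refine ((hasDerivAt_inv hw).comp_hasFDerivAt p h1).congr_fderiv ?_
  ext u
  generalize c.j0 R p = Φ at *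
  generalize c.j1 R p = Φ₁ at *
  simp only [dlw, al, smul_apply, ContinuousLinearMap.comp_apply,
    fderivInnerCLM_apply, ContinuousLinearMap.prod_apply, sm_apply, ml_apply, reCLM_apply,
    inner_smul_left, inner_smul_right, smul_eq_mul]
  rw [← inner_conj_symm Φ₁ Φ]
  generalize inner ℂ Φ Φ₁ = z
  generalize dx Φ Φ₁ (c.ht R p) u = v
  simp only [add_re, mul_re, mul_im, conj_re, conj_im, ofReal_re, ofReal_im]
  field_simp
  ring

theorem Pre.hasFDerivAt_mu (h : Pre ι c ε R) (hε : ε ≤ 1 / 100) (hR : R ≤ 2) {p : H} (hp : p ∈ c.tube R) :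
    HasFDerivAt (fun p' => mu (c.j0 R p') (c.j1 R p') (c.ht R p'))
      (dmu (c.j0 R p) (c.j1 R p) (c.j2 R p) (c.ht R p)) p := by
  have h1 := (h.hasFDerivAt_ominv hε hR hp).smul
    ((pr.hasFDerivAt.comp p (h.hasFDerivAt_j1 hε hR hp)).clm_apply (h.hasFDerivAt_ht hε hR hp))
  refine h1.congr_fderiv ?_
  ext u
  simp only [dmu, mu, smul_apply, ContinuousLinearMap.comp_apply,
    add_apply, neg_apply, ContinuousLinearMap.flip_apply,
    ContinuousLinearMap.smulRight_apply, Function.comp_apply, sm_apply, sh_apply, pr_smul,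
    real_smul, smul_eq_mul]
  push_cast
  ring

theorem Pre.hasFDerivAt_tv (h : Pre ι c ε R) (hε : ε ≤ 1 / 100) (hR : R ≤ 2) {p : H} (hp : p ∈ c.tube R) (e : H) :
    HasFDerivAt (fun p' => tv (c.j0 R p') e) (dtv (c.j0 R p) (c.j1 R p) (c.ht R p) e) p := by
  have h1 := (h.hasFDerivAt_ominv hε hR hp).smul
    ((pr.hasFDerivAt.comp p (h.hasFDerivAt_j0 hε hR hp)).clm_apply (hasFDerivAt_const e p))
  refine h1.congr_fderiv ?_
  ext u
  simp only [dtv, tv, mu, smul_apply, ContinuousLinearMap.comp_apply,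
    add_apply, neg_apply, ContinuousLinearMap.flip_apply,
    ContinuousLinearMap.smulRight_apply, zero_apply, map_zero,
    Function.comp_apply, sm_apply, sh_apply, pr_smul, real_smul, smul_eq_mul]
  push_cast
  ring

theorem Pre.hasFDerivAt_dx (h : Pre ι c ε R) (hε : ε ≤ 1 / 100) (hR : R ≤ 2) {p : H} (hp : p ∈ c.tube R) (e : H) :
    HasFDerivAt (fun p' => dx (c.j0 R p') (c.j1 R p') (c.ht R p') e)
      (ddx (c.j0 R p) (c.j1 R p) (c.j2 R p) (c.ht R p) e) p := by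
  have hm := h.hasFDerivAt_mu hε hR hp
  have ht := h.hasFDerivAt_tv hε hR hp e
  have hs := sq_ne_ChD3 (h.jet_at hε hR hp)
  have h1 := ((hasDerivAt_inv hs).comp_hasFDerivAt p (hm.norm_sq.const_sub 1)).smul
    (ht.add (hm.mul ((conjCLE : ℂ →L[ℝ] ℂ).hasFDerivAt.comp p ht)))
  refine h1.congr_fderiv ?_
  ext u
  simp only [ddx, dx_apply, smul_apply, ContinuousLinearMap.comp_apply,
    add_apply, neg_apply, one_apply_eq_self,
    ContinuousLinearMap.smulRight_apply, Function.comp_apply, sh_apply, ml_apply, reCLM_apply,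
    real_smul, smul_eq_mul, Pi.add_apply, Pi.mul_apply, ContinuousLinearEquiv.coe_coe,
    conjCLE_apply, innerSL_apply_apply, Complex.inner, nsmul_eq_mul]
  rw [mul_comm (dmu _ _ _ _ u) (conj (mu _ _ _)), ← inv_pow]
  generalize (1 - ‖mu (c.j0 R p) (c.j1 R p) (c.ht R p)‖ ^ 2)⁻¹ = r
  push_cast
  ring

theorem Pre.hasFDerivAt_xi (h : Pre ι c ε R) (hε : ε ≤ 1 / 100) (hR : R ≤ 2) {p : H} (hp : p ∈ c.tube R) (Y : ℂ) :
    HasFDerivAt (fun p' => xi (c.j0 R p') (c.j1 R p') (c.ht R p') Y)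
      (Dxi (c.j0 R p) (c.j1 R p) (c.j2 R p) (c.ht R p) Y) p := by
  have h1 := (sp.hasFDerivAt.comp p (h.hasFDerivAt_j0 hε hR hp)).clm_apply
    (((h.hasFDerivAt_mu hε hR hp).mul_const (conj Y)).const_sub Y)
  refine h1.congr_fderiv ?_
  ext u
  simp only [Dxi, smul_apply, ContinuousLinearMap.comp_apply,
    add_apply, neg_apply, ContinuousLinearMap.flip_apply,
    sub_apply, Function.comp_apply, sm_apply, ml_apply, sp_smul, map_neg,
    smul_eq_mul]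
  rw [mul_comm (dx _ _ _ u)]
  abel

theorem Pre.hasFDerivAt_dy (h : Pre ι c ε R) (hε : ε ≤ 1 / 100) (hR : R ≤ 2) {p : H} (hp : p ∈ c.tube R) (e : H) :
    HasFDerivAt (fun p' => dy (c.j0 R p') (c.j1 R p') (c.ht R p') e)
      (Ddy (c.j0 R p) (c.j1 R p) (c.j2 R p) (c.ht R p) e) p := by
  have h1 := ((sp.hasFDerivAt.comp p (h.hasFDerivAt_j0 hε hR hp)).clm_apply
    (h.hasFDerivAt_dx hε hR hp e)).const_sub e
  refine h1.congr_fderiv ?_
  ext u
  simp only [Ddy, ContinuousLinearMap.comp_apply,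
    add_apply, neg_apply, ContinuousLinearMap.flip_apply,
    Function.comp_apply, sm_apply, ml_apply, sp_smul]
  rw [mul_comm (dx _ _ _ u), add_comm]

theorem Pre.contDiffOn_ominv (h : Pre ι c ε R) (hε : ε ≤ 1 / 100) (hR : R ≤ 2) :
    ContDiffOn ℝ 1 (fun p' => (om (c.j0 R p'))⁻¹) (c.tube R) :=
  (contDiffOn_const.mul ((h.contDiffOn_j0 hε hR).norm_sq ℂ)).inv
    fun _ hp => om_ne_ChD3 (h.jet_at hε hR hp)

lemma Pre.contDiffOn_mu_ChD3 (h : Pre ι c ε R) (hε : ε ≤ 1 / 100) (hR : R ≤ 2) :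
    ContDiffOn ℝ 1 (fun p' => mu (c.j0 R p') (c.j1 R p') (c.ht R p')) (c.tube R) :=
  (h.contDiffOn_ominv hε hR).smul
    ((pr.contDiff.comp_contDiffOn (h.contDiffOn_j1 hε hR)).clm_apply (h.contDiffOn_ht hε hR))

theorem Pre.contDiffOn_xi (h : Pre ι c ε R) (hε : ε ≤ 1 / 100) (hR : R ≤ 2) (Y : ℂ) :
    ContDiffOn ℝ 1 (fun p' => xi (c.j0 R p') (c.j1 R p') (c.ht R p') Y) (c.tube R) :=
  (sp.contDiff.comp_contDiffOn (h.contDiffOn_j0 hε hR)).clm_apply
    (contDiffOn_const.sub ((h.contDiffOn_mu_ChD3 hε hR).mul contDiffOn_const))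

theorem Pre.contDiffOn_dy (h : Pre ι c ε R) (hε : ε ≤ 1 / 100) (hR : R ≤ 2) (e : H) :
    ContDiffOn ℝ 1 (fun p' => dy (c.j0 R p') (c.j1 R p') (c.ht R p') e) (c.tube R) := by
  have hm := h.contDiffOn_mu_ChD3 hε hR
  have ht : ContDiffOn ℝ 1 (fun p' => tv (c.j0 R p') e) (c.tube R) :=
    (h.contDiffOn_ominv hε hR).smul
      ((pr.contDiff.comp_contDiffOn (h.contDiffOn_j0 hε hR)).clm_apply contDiffOn_const)
  have hx : ContDiffOn ℝ 1 (fun p' => dx (c.j0 R p') (c.j1 R p') (c.ht R p') e) (c.tube R) :=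
    ((contDiffOn_const.sub (hm.norm_sq ℝ)).inv fun _ hp => sq_ne_ChD3 (h.jet_at hε hR hp)).smul
      (ht.add (hm.mul ((conjCLE : ℂ →L[ℝ] ℂ).contDiff.comp_contDiffOn ht)))
  have hs : ContDiffOn ℝ 1 (fun p' => sp (c.j0 R p')) (c.tube R) :=
    (sp (H := H)).contDiff.comp_contDiffOn (h.contDiffOn_j0 hε hR)
  exact contDiffOn_const.sub (hs.clm_apply hx)

end Pool.Agent.Lib.MP_8daebb_an.SV.Ch
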