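import Pool.Agent.Lib.MP_8daebb_an.Setting

/-! Integral varifolds, and the package of facts (`EV`) that a blow-up of a stationary integral
surface at a flat point satisfies. -/

open MeasureTheory Metric Filter Topology Set
open scoped RealInnerProductSpace ENNReal ContDiff

namespace Pool.Agent.Lib.MP_8daebb_an.SV

variable {H : Type*} [NormedAddCommGroup H] [InnerProductSpace ℝ H] [FiniteDimensional ℝ H]
  [MeasurableSpace H] [BorelSpace H]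

/-- The `m`-dimensional area element of a linear map `B : ℝ^m → H`: the square root of the Gram
determinant of the images of the standard basis vectors. -/
noncomputable def areaElt {m : ℕ} (B : EuclideanSpace ℝ (Fin m) →L[ℝ] H) : ℝ :=
  Real.sqrt (Matrix.det (Matrix.of fun i k : Fin m =>
    ⟪B (EuclideanSpace.single i 1), B (EuclideanSpace.single k 1)⟫))

/-- `V` is an integral `m`-varifold: a countable sum of pieces, each piece being the area measure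
of a `C^1` map `f k` on a measurable set `A k`, with the tangent plane `range (D f k)`. -/
def IsIntegral (m : ℕ) (V : Measure (H × (H →L[ℝ] H))) : Prop :=
  ∃ (f : ℕ → EuclideanSpace ℝ (Fin m) → H) (A : ℕ → Set (EuclideanSpace ℝ (Fin m)))
    (P : ℕ → EuclideanSpace ℝ (Fin m) → H →L[ℝ] H),
    (∀ k, ContDiff ℝ 1 (f k)) ∧ (∀ k, MeasurableSet (A k)) ∧ (∀ k, Measurable (P k)) ∧
    (∀ k, ∀ x ∈ A k, IsPlane m (P k x) ∧ range (P k x) = range (fderiv ℝ (f k) x)) ∧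
    V = Measure.sum fun k =>
      ((volume.restrict (A k)).withDensity
        fun x => ENNReal.ofReal (areaElt (fderiv ℝ (f k) x))).map fun x => (f k x, P k x)

/-- The Jacobian of `A : H → ℂ` restricted to the plane with orthogonal projection `P`. -/
noncomputable def jac (A : H →L[ℝ] ℂ) (P : H →L[ℝ] H) : ℝ :=
  Real.sqrt (LinearMap.det
    ((A : H →ₗ[ℝ] ℂ) ∘ₗ (P : H →ₗ[ℝ] H) ∘ₗ LinearMap.adjoint (A : H →ₗ[ℝ] ℂ)))

/-- The facts about a blown-up varifold in the ball of radius `4`. -/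
structure EV (V : Measure (H × (H →L[ℝ] H))) (ι : ℂ →ₗᵢ[ℝ] H) (M θ ε : ℝ) : Prop where
  fin : IsFiniteMeasure V
  car : ∀ᵐ z ∂V, ‖z.1‖ < 4 ∧ IsPlane 2 z.2
  stat : ∀ X : H → H, ContDiff ℝ 1 X → HasCompactSupport X → tsupport X ⊆ ball 0 4 →
    ∫ z, tanDiv X z ∂V = 0
  area : ∀ O : Set H, IsOpen O → ∀ Φ : H → ℂ, ContDiffOn ℝ 1 Φ O →
    ∀ Z : Set (H × (H →L[ℝ] H)), MeasurableSet Z → Z ⊆ Prod.fst ⁻¹' O →
    ∃ N : ℂ → ℝ≥0∞, Measurable N ∧ (∀ y, N y = ⊤ ∨ ∃ k : ℕ, N y = k) ∧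
      ∀ f : ℂ → ℝ≥0∞, Measurable f →
        ∫⁻ z in Z, f (Φ z.1) * ENNReal.ofReal (jac (fderiv ℝ Φ z.1) z.2) ∂V = ∫⁻ y, f y * N y
  ld : ∀ᵐ z ∂V, ∃ᶠ σ in 𝓝[>] (0 : ℝ), 3 / 2 * σ ^ 2 ≤ V.fst.real (ball z.1 σ)
  ub : ∀ (p : H) (σ : ℝ), 0 < σ → V.fst.real (ball p σ) ≤ M * σ ^ 2
  flat : ∀ᵐ z ∂V, ∃ v : ℂ, ‖z.1 - ι v‖ ≤ ε
  mass : ∀ σ : ℝ, 0 < σ → σ ≤ 3 →
    |V.fst.real (ball 0 σ) - θ * Real.pi * σ ^ 2| ≤ ε * σ ^ 2
  bad : ∀ σ : ℝ, 0 < σ → σ ≤ 3 → V.real {z | ‖z.1‖ < σ ∧ ¬∃ᶠ r in 𝓝[>] (0 : ℝ),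
    (θ - 1 / 100) * Real.pi * r ^ 2 ≤ V.fst.real (ball z.1 r)} ≤ ε * σ ^ 2
  bad0 : ∀ η > 0, ∃ σ₀ > 0, ∀ σ : ℝ, 0 < σ → σ ≤ σ₀ → V.real {z | ‖z.1‖ < σ ∧
    ¬∃ᶠ r in 𝓝[>] (0 : ℝ), (θ - 1 / 100) * Real.pi * r ^ 2 ≤ V.fst.real (ball z.1 r)} ≤ η * σ ^ 2
  θ_ge : 2 / 5 ≤ θ

/-- The conclusion for the blown-up varifold. -/
def GraphAt0 (S : Set H) (ι : ℂ →ₗᵢ[ℝ] H) : Prop :=
  ∃ r > 0, ∃ f : ℂ → H, ContDiff ℝ ∞ f ∧ (∀ p q, ⟪f p, ι q⟫ = 0) ∧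
    S ∩ ball 0 r = (range fun p => ι p + f p) ∩ ball 0 r

end Pool.Agent.Lib.MP_8daebb_an.SV
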