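import Pool.Agent.Lib.MP_8daebb_an.SV.CV
import Pool.Agent.Lib.MP_8daebb_an.SV.EV

/-! Centres (conformal harmonic discs), their nearest-point charts and the chart data. -/

open MeasureTheory Metric Set Complex
open scoped RealInnerProductSpace ComplexConjugate

namespace Pool.Agent.Lib.MP_8daebb_an.SV.Ch

variable {H : Type*} [NormedAddCommGroup H] [InnerProductSpace ℝ H] [FiniteDimensional ℝ H]

/-- The complexification of `H`, in the coordinates of a fixed orthonormal basis. -/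
abbrev EC (H : Type*) [NormedAddCommGroup H] [InnerProductSpace ℝ H] :=
  EuclideanSpace ℂ (Fin (Module.finrank ℝ H))

/-- The fixed orthonormal basis. -/
noncomputable abbrev ob (H : Type*) [NormedAddCommGroup H] [InnerProductSpace ℝ H]
    [FiniteDimensional ℝ H] := stdOrthonormalBasis ℝ H

/-- `sp Ψ v = 2 Re (v Ψ)`. -/
noncomputable def sp : EC H →L[ℝ] ℂ →L[ℝ] H :=
  LinearMap.toContinuousLinearMap
    ((LinearMap.toContinuousLinearMap : (ℂ →ₗ[ℝ] H) ≃ₗ[ℝ] (ℂ →L[ℝ] H)).toLinearMap ∘ₗ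
      LinearMap.mk₂ ℝ (fun (Ψ : EC H) (v : ℂ) => ∑ k, (2 * (v * Ψ k).re) • ob H k)
        (fun a b v => by
          simp only [← Finset.sum_add_distrib, ← add_smul]
          exact Finset.sum_congr rfl fun k _ => by congr 1; simp; ring)
        (fun c a v => by simp [Finset.smul_sum, smul_smul]; exact Finset.sum_congr rfl fun k _ => by congr 1; ring)
        (fun a v w => by simp [← Finset.sum_add_distrib, ← add_smul]; exact Finset.sum_congr rfl fun k _ => by congr 1; ring)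
        (fun c a v => by simp [Finset.smul_sum, smul_smul]; exact Finset.sum_congr rfl fun k _ => by congr 1; ring))

/-- `pr Ψ u = 2 conj (Ψ · u)`, the real adjoint of `sp Ψ`. -/
noncomputable def pr : EC H →L[ℝ] H →L[ℝ] ℂ :=
  LinearMap.toContinuousLinearMap
    ((LinearMap.toContinuousLinearMap : (H →ₗ[ℝ] ℂ) ≃ₗ[ℝ] (H →L[ℝ] ℂ)).toLinearMap ∘ₗ
      LinearMap.mk₂ ℝ (fun (Ψ : EC H) (u : H) => ∑ k, 2 * conj (Ψ k) * ((⟪ob H k, u⟫ : ℝ) : ℂ))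
        (fun a b v => by simp [mul_add, add_mul, Finset.sum_add_distrib])
        (fun c a v => by simp [Finset.mul_sum]; exact Finset.sum_congr rfl fun k _ => by ring)
        (fun a v w => by simp [inner_add_right, mul_add, Finset.sum_add_distrib])
        (fun c a v => by simp [inner_smul_right, Finset.mul_sum]; exact Finset.sum_congr rfl fun k _ => by ring))

/-- A real vector as a complex vector. -/
noncomputable def cx : H →L[ℝ] EC H :=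
  LinearMap.toContinuousLinearMap
    { toFun := fun u => WithLp.toLp 2 fun k => ((⟪ob H k, u⟫ : ℝ) : ℂ)
      map_add' := fun a b => by ext k; simp [inner_add_right]
      map_smul' := fun c a => by ext k; simp [inner_smul_right] }

/-- `zd A = (A 1 - i A i) / 2`: the `∂_z` part of a real linear map; inverse of `sp`. -/
noncomputable def zd (A : ℂ →L[ℝ] H) : EC H := (1 / 2 : ℂ) • (cx (A 1) - I • cx (A I))

theorem sp_apply (Ψ : EC H) (v : ℂ) : sp Ψ v = ∑ k, (2 * (v * Ψ k).re) • ob H k := rfl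

theorem pr_apply (Ψ : EC H) (u : H) :
    pr Ψ u = ∑ k, 2 * conj (Ψ k) * ((⟪ob H k, u⟫ : ℝ) : ℂ) := rfl

theorem cx_apply (u : H) (k : Fin (Module.finrank ℝ H)) : cx u k = ((⟪ob H k, u⟫ : ℝ) : ℂ) := rfl

/-- The complex bilinear pairing. -/
noncomputable def bil (Φ Ψ : EC H) : ℂ := ∑ k, Φ k * Ψ k

/-- The conformal factor. -/
noncomputable def om (Φ : EC H) : ℝ := 2 * ‖Φ‖ ^ 2

/-- Tangential coordinate of an ambient vector. -/
noncomputable def tv (Φ : EC H) : H →L[ℝ] ℂ := (om Φ)⁻¹ • pr Φ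

/-- Normal projection. -/
noncomputable def pn (Φ : EC H) : H →L[ℝ] H := 1 - (sp Φ).comp (tv Φ)

/-- The Beltrami coefficient of the shape operator at height `y`. -/
noncomputable def mu (Φ Φ₁ : EC H) (y : H) : ℂ := (om Φ)⁻¹ • pr Φ₁ y

/-- `v ↦ a v`. -/
noncomputable def ml (a : ℂ) : ℂ →L[ℝ] ℂ := ContinuousLinearMap.mul ℝ ℂ a

/-- `v ↦ μ conj v`. -/
noncomputable def sh (μ : ℂ) : ℂ →L[ℝ] ℂ := (ml μ).comp (conjCLE : ℂ →L[ℝ] ℂ)

/-- Derivative of the base point. -/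
noncomputable def dx (Φ Φ₁ : EC H) (y : H) : H →L[ℝ] ℂ :=
  (1 - ‖mu Φ Φ₁ y‖ ^ 2)⁻¹ • ((1 + sh (mu Φ Φ₁ y)).comp (tv Φ))

/-- Derivative of the height vector; also the vertical fields. -/
noncomputable def dy (Φ Φ₁ : EC H) (y : H) : H →L[ℝ] H := 1 - (sp Φ).comp (dx Φ Φ₁ y)

/-- Horizontal fields. -/
noncomputable def xi (Φ Φ₁ : EC H) (y : H) : ℂ →L[ℝ] H := (sp Φ).comp (1 - sh (mu Φ Φ₁ y))

/-- `∂_z log om`. -/
noncomputable def al (Φ Φ₁ : EC H) : ℂ := ((2 / om Φ : ℝ) : ℂ) * inner ℂ Φ Φ₁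

/-- Derivative of `log om` at the base point. -/
noncomputable def dlw (Φ Φ₁ : EC H) (y : H) : H →L[ℝ] ℝ :=
  (2 : ℝ) • reCLM.comp ((ml (al Φ Φ₁)).comp (dx Φ Φ₁ y))

/-- Derivative of `mu`. -/
noncomputable def dmu (Φ Φ₁ Φ₂ : EC H) (y : H) : H →L[ℝ] ℂ :=
  -(dlw Φ Φ₁ y).smulRight (mu Φ Φ₁ y) + (sh (mu Φ Φ₂ y)).comp (dx Φ Φ₁ y) +
    (om Φ)⁻¹ • (pr Φ₁).comp (dy Φ Φ₁ y)

/-- Derivative of `tv · e`. -/
noncomputable def dtv (Φ Φ₁ : EC H) (y e : H) : H →L[ℝ] ℂ :=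
  -(dlw Φ Φ₁ y).smulRight (tv Φ e) + (sh (mu Φ Φ₁ e)).comp (dx Φ Φ₁ y)

/-- Derivative of `dx · e`. -/
noncomputable def ddx (Φ Φ₁ Φ₂ : EC H) (y e : H) : H →L[ℝ] ℂ :=
  (1 - ‖mu Φ Φ₁ y‖ ^ 2)⁻¹ • ((1 + sh (mu Φ Φ₁ y)).comp (dtv Φ Φ₁ y e) +
    (ml (conj (tv Φ e))).comp (dmu Φ Φ₁ Φ₂ y) +
    ((2 : ℝ) • reCLM.comp ((ml (conj (mu Φ Φ₁ y))).comp (dmu Φ Φ₁ Φ₂ y))).smulRight
      (dx Φ Φ₁ y e))

/-- Derivative of the horizontal field `xi · Y`. -/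
noncomputable def Dxi (Φ Φ₁ Φ₂ : EC H) (y : H) (Y : ℂ) : H →L[ℝ] H :=
  (sp Φ₁).comp ((ml (Y - mu Φ Φ₁ y * conj Y)).comp (dx Φ Φ₁ y)) -
    (sp Φ).comp ((ml (conj Y)).comp (dmu Φ Φ₁ Φ₂ y))

/-- Derivative of the vertical field `dy · e`. -/
noncomputable def Ddy (Φ Φ₁ Φ₂ : EC H) (y e : H) : H →L[ℝ] H :=
  -((sp Φ₁).comp ((ml (dx Φ Φ₁ y e)).comp (dx Φ Φ₁ y)) + (sp Φ).comp (ddx Φ Φ₁ Φ₂ y e))

/-- The symmetric tilt form. -/
noncomputable def a0 (Φ : EC H) (P : H →L[ℝ] H) : ℂ →L[ℝ] ℂ := (tv Φ).comp ((1 - P).comp (sp Φ))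

noncomputable def ft (Φ : EC H) (P : H →L[ℝ] H) : ℝ := tr2 (a0 Φ P)

noncomputable def fτ (Φ Φ₁ : EC H) (y : H) (P : H →L[ℝ] H) : ℂ →L[ℝ] ℂ :=
  (dx Φ Φ₁ y).comp ((1 - P).comp (xi Φ Φ₁ y))

noncomputable def fb (Φ Φ₁ : EC H) (y : H) (P : H →L[ℝ] H) : ℂ →L[ℝ] H :=
  (dy Φ Φ₁ y).comp (P.comp (xi Φ Φ₁ y))

noncomputable def fq (Φ Φ₁ : EC H) (y : H) (P : H →L[ℝ] H) : H →L[ℝ] ℂ :=
  om Φ • (dx Φ Φ₁ y).comp (P.comp (dy Φ Φ₁ y))

noncomputable def fg (Φ Φ₁ : EC H) (y : H) (P : H →L[ℝ] H) : H →L[ℝ] H :=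
  om Φ • (dy Φ Φ₁ y).comp (P.comp (dy Φ Φ₁ y))

/-- The horizontal error as a function of the direction. -/
noncomputable def fE (Φ Φ₁ Φ₂ : EC H) (y : H) (P : H →L[ℝ] H) (Y : ℂ) : ℝ :=
  trH (P.comp (Dxi Φ Φ₁ Φ₂ y Y)) - dlw Φ Φ₁ y (P (xi Φ Φ₁ y Y))

noncomputable def feh (Φ Φ₁ Φ₂ : EC H) (y : H) (P : H →L[ℝ] H) : ℂ :=
  (fE Φ Φ₁ Φ₂ y P 1 : ℂ) + (fE Φ Φ₁ Φ₂ y P I : ℂ) * I

noncomputable def fL (Φ Φ₁ Φ₂ : EC H) (y : H) (P : H →L[ℝ] H) : H :=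
  ∑ k, (om Φ * trH (P.comp (Ddy Φ Φ₁ Φ₂ y (ob H k)))) • ob H k

/-- `v ↦ v • Ψ` as a real linear map. -/
noncomputable def sm (Ψ : EC H) : ℂ →L[ℝ] EC H :=
  (ContinuousLinearMap.toSpanSingleton ℂ Ψ).restrictScalars ℝ

/-- The isotropic vector `ι 1 + i ι i`. -/
noncomputable def ep (ι : ℂ →ₗᵢ[ℝ] H) : EC H := cx (ι 1) + I • cx (ι I)

/-- An orthonormal basis of the plane with projection `P`. -/
structure Fr (P : H →L[ℝ] H) (u₁ u₂ : H) : Prop where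
  n1 : ‖u₁‖ = 1
  n2 : ‖u₂‖ = 1
  o : ⟪u₁, u₂⟫ = 0
  eq : ∀ v, P v = ⟪u₁, v⟫ • u₁ + ⟪u₂, v⟫ • u₂

/-- A conformal frame of size about one. -/
structure Cf (Φ : EC H) : Prop where
  conf : bil Φ Φ = 0
  om_low : 9 / 10 ≤ om Φ
  om_up : om Φ ≤ 11 / 10

section calc_defs
variable {F : Type*} [NormedAddCommGroup F] [NormedSpace ℝ F]

/-- Partial derivatives, Laplacian and Wirtinger derivatives in the plane. -/
noncomputable def d1 (f : ℂ → F) (u : ℂ) : F := fderiv ℝ f u 1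

noncomputable def d2 (f : ℂ → F) (u : ℂ) : F := fderiv ℝ f u I

noncomputable def lap (f : ℂ → F) (u : ℂ) : F := d1 (d1 f) u + d2 (d2 f) u

noncomputable def dz [NormedSpace ℂ F] (f : ℂ → F) (u : ℂ) : F :=
  (1 / 2 : ℂ) • (d1 f u - I • d2 f u)

noncomputable def dzb [NormedSpace ℂ F] (f : ℂ → F) (u : ℂ) : F :=
  (1 / 2 : ℂ) • (d1 f u + I • d2 f u)

/-- The Cauchy transform. -/
noncomputable def CT [NormedSpace ℂ F] (g : ℂ → F) (u : ℂ) : F :=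
  ((Real.pi : ℂ)⁻¹) • ∫ ζ : ℂ, ζ⁻¹ • g (u - ζ)

end calc_defs

/-- A jet of a centre together with a small normal height. -/
structure Jet (ε : ℝ) (Φ Φ₁ Φ₂ : EC H) (y : H) : Prop where
  eps0 : 0 ≤ ε
  eps1 : ε ≤ 1 / 100
  cf : Cf Φ
  conf1 : bil Φ Φ₁ = 0
  n1 : ‖Φ₁‖ ≤ ε
  n2 : ‖Φ₂‖ ≤ ε
  y1 : ‖y‖ ≤ 1
  nor : pr Φ y = 0

/-- A centre: a map `F` of a disc with `∂_z F = Φ`. -/
structure Cen (H : Type*) [NormedAddCommGroup H] [InnerProductSpace ℝ H] where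
  F : ℂ → H
  Φ : ℂ → EC H

/-- `c` is a conformal harmonic map of `ball 0 R`, `ε`-close to `ι` in `C^3`. -/
structure Pre (ι : ℂ →ₗᵢ[ℝ] H) (c : Cen H) (ε R : ℝ) : Prop where
  hol : DifferentiableOn ℂ c.Φ (ball 0 R)
  der : ∀ z ∈ ball (0 : ℂ) R, HasFDerivAt c.F (sp (c.Φ z)) z
  conf : ∀ z ∈ ball (0 : ℂ) R, bil (c.Φ z) (c.Φ z) = 0
  n0 : ∀ z ∈ ball (0 : ℂ) R, ‖c.Φ z - zd ι.toContinuousLinearMap‖ ≤ ε
  n1 : ∀ z ∈ ball (0 : ℂ) R, ‖deriv c.Φ z‖ ≤ ε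
  n2 : ∀ z ∈ ball (0 : ℂ) R, ‖deriv (deriv c.Φ) z‖ ≤ ε
  base : ‖c.F 0‖ ≤ ε

/-- Admissible centres: the foot of the origin is the centre of the disc. -/
def Adm (ι : ℂ →ₗᵢ[ℝ] H) (c : Cen H) (ε R : ℝ) : Prop := Pre ι c ε R ∧ pr (c.Φ 0) (c.F 0) = 0

namespace Cen

/-- `x` is a foot of `p`. -/
def IsFoot (c : Cen H) (R : ℝ) (p : H) (x : ℂ) : Prop :=
  x ∈ ball (0 : ℂ) R ∧ pr (c.Φ x) (p - c.F x) = 0 ∧ ‖p - c.F x‖ < 1

/-- The tube around the centre. -/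
def tube (c : Cen H) (R : ℝ) : Set H := {p | ∃ x, c.IsFoot R p x}

open Classical in
/-- The base point. -/
noncomputable def foot (c : Cen H) (R : ℝ) (p : H) : ℂ :=
  if h : ∃ x, c.IsFoot R p x then h.choose else 0

/-- The height vector. -/
noncomputable def ht (c : Cen H) (R : ℝ) (p : H) : H := p - c.F (c.foot R p)

noncomputable def j0 (c : Cen H) (R : ℝ) (p : H) : EC H := c.Φ (c.foot R p)

noncomputable def j1 (c : Cen H) (R : ℝ) (p : H) : EC H := deriv c.Φ (c.foot R p)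

noncomputable def j2 (c : Cen H) (R : ℝ) (p : H) : EC H := deriv (deriv c.Φ) (c.foot R p)

/-- The tube in the space of pairs (point, plane). -/
def dom (c : Cen H) (R : ℝ) : Set (H × (H →L[ℝ] H)) := Prod.fst ⁻¹' c.tube R

/-- The Beltrami coefficient as a function on pairs. -/
noncomputable def muA (c : Cen H) (R : ℝ) : H × (H →L[ℝ] H) → ℂ :=
  (c.dom R).indicator fun a => mu (c.j0 R a.1) (c.j1 R a.1) (c.ht R a.1)

/-- The Beltrami coefficient times the frame. -/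
noncomputable def muP (c : Cen H) (R : ℝ) : H × (H →L[ℝ] H) → EC H :=
  (c.dom R).indicator fun a => mu (c.j0 R a.1) (c.j1 R a.1) (c.ht R a.1) • c.j0 R a.1

/-- Translation of the parameter. -/
def shift (c : Cen H) (a : ℂ) : Cen H := ⟨fun z => c.F (z + a), fun z => c.Φ (z + a)⟩

end Cen

/-- Two centres are `κ`-close over `ball 0 R`. -/
def Close (c c' : Cen H) (κ R : ℝ) : Prop :=
  ∀ z ∈ ball (0 : ℂ) R, ‖c'.F z - c.F z‖ ≤ κ ∧ ‖c'.Φ z - c.Φ z‖ ≤ κ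

variable [MeasurableSpace H] [BorelSpace H]

open Classical in
/-- The chart varifold of `V` for the centre `c`. -/
noncomputable def chart (V : Measure (H × (H →L[ℝ] H))) (c : Cen H) (R : ℝ) :
    CD (H × (H →L[ℝ] H)) H where
  m := (V.restrict (c.dom R)).withDensity fun a => ENNReal.ofReal (om (c.j0 R a.1))⁻¹
  G := {a | a ∈ c.dom R ∧ IsPlane 2 a.2 ∧ a.1 ∈ V.fst.support}
  x := fun a => c.foot R a.1
  y := (c.dom R).indicator fun a => c.ht R a.1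
  pos := fun a => a.1
  Pl := fun a => a.2
  t := (c.dom R).indicator fun a => ft (c.j0 R a.1) a.2
  j := (c.dom R).indicator fun a =>
    om (c.j0 R a.1) * jac (dx (c.j0 R a.1) (c.j1 R a.1) (c.ht R a.1)) a.2
  τ := (c.dom R).indicator fun a => fτ (c.j0 R a.1) (c.j1 R a.1) (c.ht R a.1) a.2
  b := (c.dom R).indicator fun a => fb (c.j0 R a.1) (c.j1 R a.1) (c.ht R a.1) a.2
  q := (c.dom R).indicator fun a => fq (c.j0 R a.1) (c.j1 R a.1) (c.ht R a.1) a.2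
  g := (c.dom R).indicator fun a => fg (c.j0 R a.1) (c.j1 R a.1) (c.ht R a.1) a.2
  L := (c.dom R).indicator fun a => fL (c.j0 R a.1) (c.j1 R a.1) (c.j2 R a.1) (c.ht R a.1) a.2
  eh := (c.dom R).indicator fun a => feh (c.j0 R a.1) (c.j1 R a.1) (c.j2 R a.1) (c.ht R a.1) a.2
  w := (ball (0 : ℂ) R).piecewise (fun z => om (c.Φ z)) fun _ => 1

end Pool.Agent.Lib.MP_8daebb_an.SV.Ch
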