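import Pool.Agent.Lib.MP_8daebb_an.SV.ChM2

/-! Stationarity tested with fields defined on the tube. -/

open MeasureTheory Metric Set Complex Filter Topology
open scoped RealInnerProductSpace ComplexConjugate ContDiff ENNReal

namespace Pool.Agent.Lib.MP_8daebb_an.SV.Ch

variable {H : Type*} [NormedAddCommGroup H] [InnerProductSpace ℝ H] [FiniteDimensional ℝ H]
  [MeasurableSpace H] [BorelSpace H]

variable {V : Measure (H × (H →L[ℝ] H))} {ι : ℂ →ₗᵢ[ℝ] H} {c : Cen H} {ε R M θ η : ℝ}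

omit [MeasurableSpace H] [BorelSpace H] in
theorem trH_leib_ChI1 (P A : H →L[ℝ] H) (a : ℝ) (l : H →L[ℝ] ℝ) (v : H) :
    trH (P.comp (a • A + l.smulRight v)) = a * trH (P.comp A) + l (P v) := by
  have e : ((P.comp (a • A + l.smulRight v) : H →L[ℝ] H) : H →ₗ[ℝ] H) =
      a • ((P.comp A : H →L[ℝ] H) : H →ₗ[ℝ] H) + (l : H →ₗ[ℝ] ℝ).smulRight (P v) := by
    ext u
    simp
  unfold trH
  rw [e, map_add, map_smul, LinearMap.trace_smulRight]
  rfl

theorem Pre.loc (h : Pre ι c ε R) (hε : ε ≤ 1 / 100) (hR : R ≤ 2) (hV : EV V ι M θ η) (hη : η ≤ 1 / 100) {ζ : H → H}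
    (hζ : ContDiffOn ℝ 1 ζ (c.tube R)) {φ : ℂ × H → ℝ} (hφ : Test 0 R φ) :
    ∫ a in c.dom R, (φ (c.foot R a.1, c.ht R a.1) * trH (a.2.comp (fderiv ℝ ζ a.1)) +
      fderiv ℝ φ (c.foot R a.1, c.ht R a.1)
        (dx (c.j0 R a.1) (c.j1 R a.1) (c.ht R a.1) (a.2 (ζ a.1)),
          dy (c.j0 R a.1) (c.j1 R a.1) (c.ht R a.1) (a.2 (ζ a.1)))) ∂V = 0 := by
  obtain ⟨hφ1, R', hR', hφ0⟩ := hφ
  let κ : ContDiffBump (0 : H) := ⟨1 / 2, 3 / 4, by norm_num, by norm_num⟩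
  let ψ : H → ℝ := fun p => φ (c.foot R p, c.ht R p)
  let Y : H → H := fun p => κ (c.ht R p) • (ψ p • ζ p)
  let X : H → H := (c.tube R).indicator Y
  let K : Set H := {p | p ∈ c.tube R ∧ ‖c.foot R p‖ ≤ R' ∧ ‖c.ht R p‖ ≤ 3 / 4}
  have hK : IsCompact K := h.isCompact_tube hε hR hR' (by norm_num)
  have hO : IsOpen (c.tube R) := h.isOpen_tube hε hR
  have hX0 : ∀ p, p ∉ K → X p = 0 := fun p hp => by
    by_cases ht : p ∈ c.tube R
    · simp only [X, indicator_of_mem ht, Y]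
      by_cases h1 : ‖c.foot R p‖ ≤ R'
      · have h2 : ¬ ‖c.ht R p‖ ≤ 3 / 4 := fun h2 => hp ⟨ht, h1, h2⟩
        rw [κ.zero_of_le_dist (by simpa [κ] using (not_le.1 h2).le), zero_smul]
      · simp only [ψ]
        rw [hφ0 _ (by simpa using (not_le.1 h1).le), zero_smul, smul_zero]
    · simp only [X, indicator_of_notMem ht]
  have hev0 : ∀ p, p ∉ c.tube R → X =ᶠ[𝓝 p] fun _ => 0 := fun p hp =>
    Filter.eventually_of_mem (hK.isClosed.isOpen_compl.mem_nhds fun hk => hp hk.1) hX0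
  have hev1 : ∀ p, p ∈ c.tube R → X =ᶠ[𝓝 p] Y := fun p hp =>
    Filter.eventually_of_mem (hO.mem_nhds hp) fun q hq => indicator_of_mem hq _
  have hfh : ContDiffOn ℝ 1 (fun p => (c.foot R p, c.ht R p)) (c.tube R) :=
    (h.contDiffOn_foot hε hR).prodMk (h.contDiffOn_ht hε hR)
  have hmem : ∀ p ∈ c.tube R, (c.foot R p, c.ht R p) ∈ ball (0 : ℂ) R ×ˢ (univ : Set H) :=
    fun p hp => ⟨(Cen.foot_spec hp).1, mem_univ _⟩
  have hψ : ContDiffOn ℝ 1 ψ (c.tube R) := hφ1.comp hfh hmem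
  have hY : ContDiffOn ℝ 1 Y (c.tube R) :=
    (κ.contDiff.comp_contDiffOn (h.contDiffOn_ht hε hR)).smul (hψ.smul hζ)
  have hXc : ContDiff ℝ 1 X := contDiff_iff_contDiffAt.2 fun p => by
    by_cases hp : p ∈ c.tube R
    · exact (hY.contDiffAt (hO.mem_nhds hp)).congr_of_eventuallyEq (hev1 p hp)
    · exact contDiffAt_const.congr_of_eventuallyEq (hev0 p hp)
  have hts : tsupport X ⊆ K :=
    closure_minimal (fun p hp => by_contra fun hk => hp (hX0 p hk)) hK.isClosed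
  have hst := hV.stat X hXc (hK.of_isClosed_subset (isClosed_tsupport X) hts)
    (hts.trans fun p hp => ball_subset_ball (by norm_num) (h.tube_subset hε hR hp.1))
  rw [← integral_indicator (h.meas_dom hε hR), ← hst]
  refine integral_congr_ae ?_
  filter_upwards [ev_ae_supp hV] with a ha
  by_cases hp : a.1 ∈ c.tube R
  · rw [indicator_of_mem (show a ∈ c.dom R from hp)]
    have h1 := h.ht_le_supp hε hR hV hη hp ha
    have hht := h.hasFDerivAt_ht hε hR hp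
    have h2 : ∀ᶠ q in 𝓝 a.1, c.ht R q ∈ ball (0 : H) (1 / 2) :=
      hht.continuousAt.eventually (isOpen_ball.mem_nhds (by rw [mem_ball_zero_iff]; linarith))
    have h3 : X =ᶠ[𝓝 a.1] fun q => ψ q • ζ q := by
      filter_upwards [hev1 _ hp, h2] with q q1 q2
      rw [q1]
      simp only [Y]
      rw [κ.one_of_mem_closedBall (ball_subset_closedBall q2), one_smul]
    have h4 : HasFDerivAt φ (fderiv ℝ φ (c.foot R a.1, c.ht R a.1)) (c.foot R a.1, c.ht R a.1) :=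
      ((hφ1.contDiffAt ((isOpen_ball.prod isOpen_univ).mem_nhds (hmem _ hp))).differentiableAt
        one_ne_zero).hasFDerivAt
    have h5 := h4.comp a.1 ((h.hasFDerivAt_foot hε hR hp).prodMk hht)
    have h6 : HasFDerivAt ζ (fderiv ℝ ζ a.1) a.1 :=
      ((hζ.contDiffAt (hO.mem_nhds hp)).differentiableAt one_ne_zero).hasFDerivAt
    have h7 := (h5.smul h6).congr_of_eventuallyEq h3
    have h8 : tanDiv X a = trH (a.2.comp (fderiv ℝ X a.1)) := rfl
    rw [h8, h7.fderiv, trH_leib_ChI1]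
    rfl
  · rw [indicator_of_notMem (show a ∉ c.dom R from hp), tanDiv, (hev0 _ hp).fderiv_eq]
    simp

end Pool.Agent.Lib.MP_8daebb_an.SV.Ch
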