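import Pool.Agent.Lib.MP_8daebb_an.SV.ChP1

/-! Pointwise facts: the horizontal error. -/

open MeasureTheory Metric Set Complex Filter Topology
open scoped RealInnerProductSpace ComplexConjugate ContDiff ENNReal

namespace Pool.Agent.Lib.MP_8daebb_an.SV.Ch

variable {H : Type*} [NormedAddCommGroup H] [InnerProductSpace ℝ H] [FiniteDimensional ℝ H]

variable {ε : ℝ} {Φ Φ₁ Φ₂ : EC H} {y : H} {P : H →L[ℝ] H}

theorem Dxi_apply_ChP4 (Φ Φ₁ Φ₂ : EC H) (y : H) (v : ℂ) (u : H) : Dxi Φ Φ₁ Φ₂ y v u =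
    sp Φ₁ ((v - mu Φ Φ₁ y * conj v) * dx Φ Φ₁ y u) - sp Φ (conj v * dmu Φ Φ₁ Φ₂ y u) := rfl

theorem dlw_apply_ChP4 (Φ Φ₁ : EC H) (y u : H) :
    dlw Φ Φ₁ y u = 2 * (al Φ Φ₁ * dx Φ Φ₁ y u).re := rfl

theorem dmu_apply_ChP4 (Φ Φ₁ Φ₂ : EC H) (y u : H) : dmu Φ Φ₁ Φ₂ y u =
    -(dlw Φ Φ₁ y u • mu Φ Φ₁ y) + mu Φ Φ₂ y * conj (dx Φ Φ₁ y u) +
      (om Φ)⁻¹ • pr Φ₁ (dy Φ Φ₁ y u) := rfl

theorem fE_lin_ChP4 (Φ Φ₁ Φ₂ : EC H) (y : H) (P : H →L[ℝ] H) (v : ℂ) :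
    fE Φ Φ₁ Φ₂ y P v = v.re * fE Φ Φ₁ Φ₂ y P 1 + v.im * fE Φ Φ₁ Φ₂ y P I := by
  have e1 : ∀ μ d : ℂ, (v - μ * conj v) * d =
      v.re • ((1 - μ * conj 1) * d) + v.im • ((I - μ * conj I) * d) := by
    intro μ d
    apply Complex.ext <;> simp <;> ring
  have e2 : ∀ d : ℂ, conj v * d = v.re • (conj 1 * d) + v.im • (conj I * d) := by
    intro d
    apply Complex.ext <;> simp
  have e3 : v = v.re • (1 : ℂ) + v.im • I := by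
    apply Complex.ext <;> simp
  have hD : Dxi Φ Φ₁ Φ₂ y v = v.re • Dxi Φ Φ₁ Φ₂ y 1 + v.im • Dxi Φ Φ₁ Φ₂ y I := by
    ext u
    rw [add_apply, smul_apply,
      smul_apply, Dxi_apply_ChP4, Dxi_apply_ChP4, Dxi_apply_ChP4, e1, e2,
      map_add, map_add, map_smul, map_smul, map_smul, map_smul, smul_sub, smul_sub]
    abel
  have hx : xi Φ Φ₁ y v = v.re • xi Φ Φ₁ y 1 + v.im • xi Φ Φ₁ y I := by
    rw [← map_smul, ← map_smul, ← map_add, ← e3]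
  unfold fE
  rw [hD, hx, map_add, map_add, map_smul, map_smul, map_smul, map_smul,
    ContinuousLinearMap.comp_add, ContinuousLinearMap.comp_smul, ContinuousLinearMap.comp_smul]
  unfold trH
  rw [ContinuousLinearMap.toLinearMap_add, ContinuousLinearMap.toLinearMap_smul, ContinuousLinearMap.toLinearMap_smul,
    map_add, map_smul, map_smul]
  simp only [smul_eq_mul]
  ring

theorem inner_feh (Φ Φ₁ Φ₂ : EC H) (y : H) (P : H →L[ℝ] H) (v : ℂ) :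
    ⟪feh Φ Φ₁ Φ₂ y P, v⟫ = fE Φ Φ₁ Φ₂ y P v := by
  rw [fE_lin_ChP4 Φ Φ₁ Φ₂ y P v, Complex.inner]
  simp [feh]

theorem alg_ChP4 (w κ : ℝ) (α μ μ₂ v a p : ℂ) :
    (conj ((v - μ * conj v) * (κ * (a + μ * conj a))) * (w * conj α * a + w * p)).re -
      (conj (conj v * (-((2 * (α * (κ * (a + μ * conj a))).re : ℝ) • μ) +
        μ₂ * conj (κ * (a + μ * conj a)) +
        (p - conj α * (μ * conj (κ * (a + μ * conj a)))))) * (w * a)).re =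
    (w * p * conj ((v - μ * conj v) * (κ * (a + μ * conj a)) - v * a)).re +
      (κ * (α * v - (μ₂ - 2 * conj α * μ) * conj μ * conj v)).re * (w * ‖a‖ ^ 2) +
      (κ * (α * μ * v - (μ₂ - 2 * conj α * μ) * conj v) * conj (w * a ^ 2)).re := by
  rw [Complex.sq_norm, Complex.normSq_apply]
  simp only [pow_two, Complex.mul_re, Complex.mul_im, Complex.add_re, Complex.add_im,
    Complex.sub_re, Complex.sub_im, Complex.neg_re, Complex.neg_im, Complex.conj_re,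
    Complex.conj_im, Complex.ofReal_re, Complex.ofReal_im, Complex.real_smul, Complex.re_ofNat,
    Complex.im_ofNat]
  ring

theorem term_ChP4 (h : Jet ε Φ Φ₁ Φ₂ y) (v : ℂ) (u : H) : ⟪u, Dxi Φ Φ₁ Φ₂ y v u⟫ =
    (pr Φ₁ (pn Φ u) * conj ((v - mu Φ Φ₁ y * conj v) * dx Φ Φ₁ y u - v * tv Φ u)).re +
      (((1 - ‖mu Φ Φ₁ y‖ ^ 2)⁻¹ : ℝ) * (al Φ Φ₁ * v -
        (mu Φ Φ₂ y - 2 * conj (al Φ Φ₁) * mu Φ Φ₁ y) * conj (mu Φ Φ₁ y) * conj v)).re *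
        (om Φ * ‖tv Φ u‖ ^ 2) +
      (((1 - ‖mu Φ Φ₁ y‖ ^ 2)⁻¹ : ℝ) * (al Φ Φ₁ * mu Φ Φ₁ y * v -
        (mu Φ Φ₂ y - 2 * conj (al Φ Φ₁) * mu Φ Φ₁ y) * conj v) *
        conj (om Φ * tv Φ u ^ 2)).re := by
  have hw : om Φ ≠ 0 := by
    have := h.cf.om_low
    positivity
  have hw' : (om Φ : ℂ) ≠ 0 := by exact_mod_cast hw
  have e0 : pr Φ u = om Φ * tv Φ u := by
    show pr Φ u = om Φ * ((om Φ)⁻¹ • pr Φ u)
    rw [Complex.real_smul, ← mul_assoc, ← Complex.ofReal_mul, mul_inv_cancel₀ hw,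
      Complex.ofReal_one, one_mul]
  have ep : pr Φ₁ (pn Φ u) = om Φ * ((om Φ)⁻¹ • pr Φ₁ (pn Φ u)) := by
    rw [Complex.real_smul, ← mul_assoc, ← Complex.ofReal_mul, mul_inv_cancel₀ hw,
      Complex.ofReal_one, one_mul]
  have e1 : pr Φ₁ u = om Φ * conj (al Φ Φ₁) * tv Φ u + pr Φ₁ (pn Φ u) := by
    rw [← h.pr1_sp, ← map_add, pn_apply, add_sub_cancel]
  have e2 : (om Φ)⁻¹ • pr Φ₁ (dy Φ Φ₁ y u) = (om Φ)⁻¹ • pr Φ₁ (pn Φ u) -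
      conj (al Φ Φ₁) * (mu Φ Φ₁ y * conj (dx Φ Φ₁ y u)) := by
    rw [h.dy_eq, map_sub, h.pr1_sp, smul_sub, Complex.real_smul (x := (om Φ)⁻¹) (z := _ * _)]
    congr 1
    push_cast
    field_simp
  rw [real_inner_comm, Dxi_apply_ChP4, inner_sub_left, inner_sp, inner_sp, dmu_apply_ChP4,
    dlw_apply_ChP4, e2, e0, e1, dx_apply]
  generalize (om Φ)⁻¹ • pr Φ₁ (pn Φ u) = p at ep
  rw [ep]
  exact alg_ChP4 _ _ _ _ _ _ _ _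

theorem pi_le_ChP4 (h : Jet ε Φ Φ₁ Φ₂ y) (v : ℂ) {u : H} (hu : ‖u‖ = 1) :
    |(pr Φ₁ (pn Φ u) * conj ((v - mu Φ Φ₁ y * conj v) * dx Φ Φ₁ y u - v * tv Φ u)).re| ≤
      ε * (‖pn Φ u‖ ^ 2 + ‖y‖ ^ 2) * ‖v‖ := by
  have h0 := h.eps0
  have h1 := h.eps1
  have a1 : ‖pr Φ₁ (pn Φ u)‖ ≤ 2 * ε * ‖pn Φ u‖ :=
    (norm_pr_le _ _).trans (by gcongr; exact h.n1)
  have a2 : ‖tv Φ u‖ ≤ 11 / 10 := by simpa [hu] using h.cf.norm_tv_le u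
  have a3 : ‖dx Φ Φ₁ y u‖ ≤ 6 / 5 := by simpa [hu] using h.norm_dx_le u
  have a4 : ‖dx Φ Φ₁ y u - tv Φ u‖ ≤ 4 * ε * ‖y‖ * (11 / 10) :=
    (h.dx_sub_tv u).trans (by gcongr)
  have a5 := h.mu_le
  have a6 : ‖(v - mu Φ Φ₁ y * conj v) * dx Φ Φ₁ y u - v * tv Φ u‖ ≤ 8 * ε * ‖y‖ * ‖v‖ := by
    rw [show (v - mu Φ Φ₁ y * conj v) * dx Φ Φ₁ y u - v * tv Φ u =
      v * (dx Φ Φ₁ y u - tv Φ u) - mu Φ Φ₁ y * conj v * dx Φ Φ₁ y u by ring]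
    refine (norm_sub_le _ _).trans ?_
    rw [norm_mul, norm_mul, norm_mul, Complex.norm_conj]
    calc _ ≤ ‖v‖ * (4 * ε * ‖y‖ * (11 / 10)) + 3 * ε * ‖y‖ * ‖v‖ * (6 / 5) := by gcongr
      _ = _ := by ring
  refine (Complex.abs_re_le_norm _).trans ?_
  rw [norm_mul, Complex.norm_conj]
  calc _ ≤ 2 * ε * ‖pn Φ u‖ * (8 * ε * ‖y‖ * ‖v‖) := by gcongr
    _ = ε * (16 * ε * (‖pn Φ u‖ * ‖y‖)) * ‖v‖ := by ring
    _ ≤ _ := by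
      gcongr
      have : 0 ≤ ‖pn Φ u‖ * ‖y‖ := by positivity
      nlinarith [sq_nonneg (‖pn Φ u‖ - ‖y‖)]

theorem fE_le (h : Jet ε Φ Φ₁ Φ₂ y) (hP : IsPlane 2 P) (v : ℂ) :
    |fE Φ Φ₁ Φ₂ y P v| ≤ 500 * ε * (ft Φ P + ‖y‖ ^ 2) * ‖v‖ := by
  obtain ⟨u₁, u₂, hF⟩ := exists_fr hP
  have h0 := h.eps0
  have h1 := h.eps1
  have hy := h.y1
  have ht := ft_nonneg hP h.cf
  have p1 := pi_le_ChP4 h v hF.n1
  have p2 := pi_le_ChP4 h v hF.n2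
  have s1 := hF.s1 h.cf
  have s2 := hF.s2 h.cf
  have et := hF.ft_eq h.cf
  have m1 := h.mu_le
  have m2 := h.mu_small
  have m3 := h.al_le
  have m4 : ‖mu Φ Φ₂ y‖ ≤ 5 / 2 * ε * ‖y‖ := (h.cf.norm_mu_le _ _).trans (by gcongr; exact h.n2)
  have m5 : ‖fτ Φ Φ₁ y P v‖ ≤ 2 * ft Φ P * ‖v‖ :=
    (ContinuousLinearMap.le_opNorm _ _).trans (by gcongr; exact fτ_le h hP)
  unfold fE
  rw [hF.trH, term_ChP4 h, term_ChP4 h, dlw_apply_ChP4, dx_P_xi h hP]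
  generalize (pr Φ₁ (pn Φ u₁) * conj ((v - mu Φ Φ₁ y * conj v) * dx Φ Φ₁ y u₁ -
    v * tv Φ u₁)).re = π₁ at p1 ⊢
  generalize (pr Φ₁ (pn Φ u₂) * conj ((v - mu Φ Φ₁ y * conj v) * dx Φ Φ₁ y u₂ -
    v * tv Φ u₂)).re = π₂ at p2 ⊢
  generalize fτ Φ Φ₁ y P v = τ at m5 ⊢
  generalize mu Φ Φ₂ y = μ₂ at m4 ⊢
  generalize mu Φ Φ₁ y = μ at m1 m2 ⊢
  generalize al Φ Φ₁ = α at m3 ⊢
  have hσ : ‖μ‖ ^ 2 ≤ (3 / 100) ^ 2 := by gcongr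
  have hκ0 : 0 < 1 - ‖μ‖ ^ 2 := by linarith
  have hκ1 : (1 - ‖μ‖ ^ 2)⁻¹ ≤ 2 := by
    rw [inv_le_comm₀ hκ0 (by norm_num)]
    linarith
  have hκ2 : (1 - ‖μ‖ ^ 2)⁻¹ - 1 = (1 - ‖μ‖ ^ 2)⁻¹ * ‖μ‖ ^ 2 := by
    field_simp
    ring
  have hκ3 : 0 ≤ (1 - ‖μ‖ ^ 2)⁻¹ := (inv_pos.2 hκ0).le
  generalize (1 - ‖μ‖ ^ 2)⁻¹ = κ at hκ1 hκ2 hκ3 ⊢
  have c1 : ‖μ₂ - 2 * conj α * μ‖ ≤ 3 * ε * ‖y‖ := by
    refine (norm_sub_le _ _).trans ?_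
    rw [norm_mul, norm_mul, Complex.norm_conj, Complex.norm_two]
    calc _ ≤ 5 / 2 * ε * ‖y‖ + 2 * (2 * (1 / 100)) * (3 * ε * ‖y‖) := by gcongr; linarith
      _ ≤ _ := by
        have : 0 ≤ ε * ‖y‖ := by positivity
        linarith
  generalize μ₂ - 2 * conj α * μ = c at c1 ⊢
  have nκ : ‖(κ : ℂ)‖ ≤ 2 := by rwa [Complex.norm_real, Real.norm_of_nonneg hκ3]
  have b1 : ‖c * conj μ * conj v‖ ≤ ε * ‖y‖ ^ 2 * ‖v‖ := by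
    rw [norm_mul, norm_mul, Complex.norm_conj, Complex.norm_conj]
    calc _ ≤ 3 * ε * ‖y‖ * (3 * (1 / 100) * ‖y‖) * ‖v‖ := by
          gcongr
          exact m1.trans (by gcongr)
      _ ≤ _ := by
        have : 0 ≤ ε * ‖y‖ ^ 2 * ‖v‖ := by positivity
        nlinarith
  have b2 : ‖α * v‖ ≤ 2 * ε * ‖v‖ := by
    rw [norm_mul]
    gcongr
  have y2 : ‖y‖ ^ 2 ≤ 1 := pow_le_one₀ (norm_nonneg _) hy
  have bA : |(κ * (α * v - c * conj μ * conj v)).re| ≤ 6 * ε * ‖v‖ := by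
    refine (Complex.abs_re_le_norm _).trans ?_
    rw [norm_mul]
    calc _ ≤ 2 * (2 * ε * ‖v‖ + ε * 1 * ‖v‖) := by
          gcongr
          exact (norm_sub_le _ _).trans (add_le_add b2 (b1.trans (by gcongr)))
      _ = _ := by ring
  have bA' : |(κ * (α * v - c * conj μ * conj v)).re - (α * v).re| ≤ 3 * ε * ‖y‖ ^ 2 * ‖v‖ := by
    rw [← Complex.sub_re]
    refine (Complex.abs_re_le_norm _).trans ?_
    rw [show (κ : ℂ) * (α * v - c * conj μ * conj v) - α * v =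
      ((κ - 1 : ℝ) : ℂ) * (α * v) - κ * (c * conj μ * conj v) by push_cast; ring, hκ2]
    refine (norm_sub_le _ _).trans ?_
    rw [norm_mul, norm_mul (κ : ℂ), Complex.norm_real, Real.norm_of_nonneg (by positivity)]
    have : ‖μ‖ ≤ 3 * (1 / 100) * ‖y‖ := m1.trans (by gcongr)
    calc _ ≤ 2 * (3 * (1 / 100) * ‖y‖) ^ 2 * (2 * ε * ‖v‖) + 2 * (ε * ‖y‖ ^ 2 * ‖v‖) := by gcongr
      _ ≤ _ := by
        have : 0 ≤ ε * ‖y‖ ^ 2 * ‖v‖ := by positivity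
        nlinarith
  have bB : |(κ * (α * μ * v - c * conj v) * conj (om Φ * (tv Φ u₁ ^ 2 + tv Φ u₂ ^ 2))).re| ≤
      8 * ε * ft Φ P * ‖v‖ := by
    refine (Complex.abs_re_le_norm _).trans ?_
    rw [norm_mul, norm_mul, Complex.norm_conj]
    have : ‖α * μ * v - c * conj v‖ ≤ 4 * ε * ‖v‖ := by
      refine (norm_sub_le _ _).trans ?_
      rw [norm_mul, norm_mul, norm_mul, Complex.norm_conj]
      calc _ ≤ 2 * ε * (3 / 100) * ‖v‖ + 3 * ε * 1 * ‖v‖ := by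
            gcongr
            exact c1.trans (by gcongr)
        _ ≤ _ := by
          have : 0 ≤ ε * ‖v‖ := by positivity
          nlinarith
    calc _ ≤ 2 * (4 * ε * ‖v‖) * ft Φ P := by gcongr
      _ = _ := by ring
  have bτ : |(α * τ).re| ≤ 4 * ε * ft Φ P * ‖v‖ := by
    refine (Complex.abs_re_le_norm _).trans ?_
    rw [norm_mul]
    calc _ ≤ 2 * ε * (2 * ft Φ P * ‖v‖) := by gcongr
      _ = _ := by ring
  have eB : (κ * (α * μ * v - c * conj v) * conj (om Φ * (tv Φ u₁ ^ 2 + tv Φ u₂ ^ 2))).re =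
      (κ * (α * μ * v - c * conj v) * conj (om Φ * tv Φ u₁ ^ 2)).re +
      (κ * (α * μ * v - c * conj v) * conj (om Φ * tv Φ u₂ ^ 2)).re := by
    rw [← Complex.add_re, ← mul_add, ← map_add, ← mul_add]
  rw [eB] at bB
  rw [mul_sub α, Complex.sub_re]
  generalize (κ * (α * μ * v - c * conj v) * conj (om Φ * tv Φ u₁ ^ 2)).re = B₁ at bB ⊢
  generalize (κ * (α * μ * v - c * conj v) * conj (om Φ * tv Φ u₂ ^ 2)).re = B₂ at bB ⊢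
  generalize (κ * (α * v - c * conj μ * conj v)).re = A at bA bA' ⊢
  have eA : A * (om Φ * ‖tv Φ u₁‖ ^ 2) + A * (om Φ * ‖tv Φ u₂‖ ^ 2) = 2 * A - A * ft Φ P := by
    rw [← mul_add, ← mul_add, s1]
    ring
  have bt : |A * ft Φ P| ≤ 6 * ε * ft Φ P * ‖v‖ := by
    rw [abs_mul, abs_of_nonneg ht]
    calc _ ≤ 6 * ε * ‖v‖ * ft Φ P := by gcongr
      _ = _ := by ring
  have q1 : 0 ≤ ε * ft Φ P * ‖v‖ := by positivity
  have q2 : 0 ≤ ε * ‖y‖ ^ 2 * ‖v‖ := by positivity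
  have q3 : ε * (‖pn Φ u₁‖ ^ 2 + ‖y‖ ^ 2) * ‖v‖ + ε * (‖pn Φ u₂‖ ^ 2 + ‖y‖ ^ 2) * ‖v‖ =
      ε * ft Φ P * ‖v‖ + 2 * (ε * ‖y‖ ^ 2 * ‖v‖) := by
    rw [et]
    ring
  rw [abs_le] at p1 p2 bA' bB bτ bt ⊢
  constructor <;> linarith [p1.1, p1.2, p2.1, p2.2, bA'.1, bA'.2, bB.1, bB.2, bτ.1, bτ.2, bt.1,
    bt.2]

theorem feh_le (h : Jet ε Φ Φ₁ Φ₂ y) (hP : IsPlane 2 P) :
    ‖feh Φ Φ₁ Φ₂ y P‖ ≤ 1000 * ε * (ft Φ P + ‖y‖ ^ 2) := by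
  have a := fE_le h hP 1
  have b := fE_le h hP I
  rw [norm_one] at a
  rw [Complex.norm_I] at b
  refine (norm_add_le _ _).trans ?_
  rw [norm_mul, Complex.norm_I, Complex.norm_real, Complex.norm_real, Real.norm_eq_abs,
    Real.norm_eq_abs]
  linarith

end Pool.Agent.Lib.MP_8daebb_an.SV.Ch
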