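import Pool.Agent.Lib.MP_8daebb_an.SV.ChP1

/-! Pointwise facts: the vertical error. -/

open MeasureTheory Metric Set Complex Filter Topology
open scoped RealInnerProductSpace ComplexConjugate ContDiff ENNReal

namespace Pool.Agent.Lib.MP_8daebb_an.SV.Ch

variable {H : Type*} [NormedAddCommGroup H] [InnerProductSpace ℝ H] [FiniteDimensional ℝ H]

variable {ε : ℝ} {Φ Φ₁ Φ₂ : EC H} {y : H} {P : H →L[ℝ] H}

theorem dlw_apply_ChP5 (Φ Φ₁ : EC H) (y u : H) :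
    dlw Φ Φ₁ y u = 2 * (al Φ Φ₁ * dx Φ Φ₁ y u).re := rfl

theorem dtv_apply_ChP5 (Φ Φ₁ : EC H) (y e u : H) : dtv Φ Φ₁ y e u =
    -(((2 * (al Φ Φ₁ * dx Φ Φ₁ y u).re : ℝ) : ℂ) * tv Φ e) +
      mu Φ Φ₁ e * conj (dx Φ Φ₁ y u) := rfl

theorem ddx_apply_ChP5 (Φ Φ₁ Φ₂ : EC H) (y e u : H) : ddx Φ Φ₁ Φ₂ y e u =
    (((1 - ‖mu Φ Φ₁ y‖ ^ 2)⁻¹ : ℝ) : ℂ) * (dtv Φ Φ₁ y e u + mu Φ Φ₁ y * conj (dtv Φ Φ₁ y e u) +
      conj (tv Φ e) * dmu Φ Φ₁ Φ₂ y u +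
      ((2 * (conj (mu Φ Φ₁ y) * dmu Φ Φ₁ Φ₂ y u).re : ℝ) : ℂ) * dx Φ Φ₁ y e) := rfl

theorem Ddy_apply_ChP5 (Φ Φ₁ Φ₂ : EC H) (y e u : H) : Ddy Φ Φ₁ Φ₂ y e u =
    -(sp Φ₁ (dx Φ Φ₁ y e * dx Φ Φ₁ y u) + sp Φ (ddx Φ Φ₁ Φ₂ y e u)) := rfl

theorem mu_add_ChP5 (Φ Φ₁ : EC H) (e e' : H) : mu Φ Φ₁ (e + e') = mu Φ Φ₁ e + mu Φ Φ₁ e' := by
  simp only [mu, map_add, smul_add]

theorem mu_smul_ChP5 (Φ Φ₁ : EC H) (r : ℝ) (e : H) : mu Φ Φ₁ (r • e) = r * mu Φ Φ₁ e := by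
  simp only [mu, map_smul, real_smul]
  ring

theorem Ddy_add_ChP5 (Φ Φ₁ Φ₂ : EC H) (y e e' : H) :
    Ddy Φ Φ₁ Φ₂ y (e + e') = Ddy Φ Φ₁ Φ₂ y e + Ddy Φ Φ₁ Φ₂ y e' := by
  ext u
  have h1 : ddx Φ Φ₁ Φ₂ y (e + e') u = ddx Φ Φ₁ Φ₂ y e u + ddx Φ Φ₁ Φ₂ y e' u := by
    simp only [ddx_apply_ChP5, dtv_apply_ChP5, mu_add_ChP5, map_add, map_neg, map_mul]
    ring
  rw [add_apply, Ddy_apply_ChP5, Ddy_apply_ChP5, Ddy_apply_ChP5, h1, map_add,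
    add_mul, map_add, map_add]
  abel

theorem Ddy_smul_ChP5 (Φ Φ₁ Φ₂ : EC H) (y : H) (r : ℝ) (e : H) :
    Ddy Φ Φ₁ Φ₂ y (r • e) = r • Ddy Φ Φ₁ Φ₂ y e := by
  ext u
  have h1 : ddx Φ Φ₁ Φ₂ y (r • e) u = r • ddx Φ Φ₁ Φ₂ y e u := by
    simp only [ddx_apply_ChP5, dtv_apply_ChP5, mu_smul_ChP5, map_add, map_neg, map_mul, map_smul,
      real_smul, conj_ofReal]
    ring
  rw [smul_apply, Ddy_apply_ChP5, Ddy_apply_ChP5, h1, map_smul,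
    smul_mul_assoc, map_smul, map_smul, smul_neg, smul_add]

/-- The trace as a linear function of the direction. -/
noncomputable def trL_ChP5 (Φ Φ₁ Φ₂ : EC H) (y : H) (P : H →L[ℝ] H) : H →ₗ[ℝ] ℝ where
  toFun e := trH (P.comp (Ddy Φ Φ₁ Φ₂ y e))
  map_add' e e' := by
    simp only [Ddy_add_ChP5, trH, ContinuousLinearMap.comp_add, ContinuousLinearMap.toLinearMap_add,
      map_add]
  map_smul' r e := by
    simp only [Ddy_smul_ChP5, trH, ContinuousLinearMap.comp_smul, ContinuousLinearMap.toLinearMap_smul,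
      map_smul, RingHom.id_apply]

theorem inner_fL (Φ Φ₁ Φ₂ : EC H) (y : H) (P : H →L[ℝ] H) (e : H) :
    ⟪fL Φ Φ₁ Φ₂ y P, e⟫ = om Φ * trH (P.comp (Ddy Φ Φ₁ Φ₂ y e)) := by
  have h : trH (P.comp (Ddy Φ Φ₁ Φ₂ y e)) =
      ∑ k, ⟪ob H k, e⟫ * trH (P.comp (Ddy Φ Φ₁ Φ₂ y (ob H k))) := by
    change trL_ChP5 Φ Φ₁ Φ₂ y P e = ∑ k, ⟪ob H k, e⟫ * trL_ChP5 Φ Φ₁ Φ₂ y P (ob H k)
    conv_lhs => rw [← (ob H).sum_repr' e]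
    simp only [map_sum, map_smul, smul_eq_mul]
  rw [h, fL, sum_inner, Finset.mul_sum]
  refine Finset.sum_congr rfl fun k _ => ?_
  rw [real_inner_smul_left]
  ring

theorem nmul_ChP5 {a b : ℂ} {A B : ℝ} (ha : ‖a‖ ≤ A) (hb : ‖b‖ ≤ B) : ‖a * b‖ ≤ A * B := by
  rw [norm_mul]
  exact mul_le_mul ha hb (norm_nonneg _) ((norm_nonneg _).trans ha)

theorem nconj_ChP5 {a : ℂ} {A : ℝ} (ha : ‖a‖ ≤ A) : ‖conj a‖ ≤ A := by rwa [Complex.norm_conj]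

theorem nre_ChP5 {a : ℂ} {A : ℝ} (ha : ‖a‖ ≤ A) : ‖((2 * a.re : ℝ) : ℂ)‖ ≤ 2 * A := by
  rw [Complex.norm_real, Real.norm_eq_abs, abs_mul, abs_two]
  linarith [abs_re_le_norm a]

theorem nreal_ChP5 {r A : ℝ} (h : |r| ≤ A) : ‖(r : ℂ)‖ ≤ A := by
  rwa [Complex.norm_real, Real.norm_eq_abs]

theorem key_ChP5 {α μ m v d ve de D π T : ℂ} {w c ε Y N E : ℝ} (hε : 0 ≤ ε) (hY : 0 ≤ Y)
    (hY1 : Y ≤ 1) (hN : 0 ≤ N) (hE : 0 ≤ E) (hw : |w| ≤ 11 / 10) (hα : ‖α‖ ≤ 2 * ε) (hμ : ‖μ‖ ≤ Y)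
    (hm : ‖m‖ ≤ 5 / 2 * ε * E) (hv : ‖v‖ ≤ 11 / 10) (hd : ‖d‖ ≤ 6 / 5) (hdv : ‖d - v‖ ≤ Y)
    (hve : ‖ve‖ ≤ 11 / 10 * E) (hde : ‖de‖ ≤ 6 / 5 * E) (hdve : ‖de - ve‖ ≤ Y * E)
    (hπ : ‖π‖ ≤ 2 * ε * N) (hD : ‖D‖ ≤ 5 / 2 * ε * N + 10 * ε * Y) (hc : |c| ≤ 2)
    (hc1 : |c - 1| ≤ Y) (hT : T = -(((2 * (α * d).re : ℝ) : ℂ) * ve) + m * conj d) :
    |-((conj (de * d) * (w * conj α * v + π)).re +
      (conj (c * (T + μ * conj T + conj ve * D + ((2 * (conj μ * D).re : ℝ) : ℂ) * de)) *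
        (w * v)).re) + ((conj m - α * conj ve) * (w * v ^ 2)).re| ≤ 140 * (ε * E) * (N + Y) := by
  have a1 : 0 ≤ ε * E * Y := by positivity
  have a2 : 0 ≤ ε * E * N := by positivity
  have hw' := nreal_ChP5 hw
  set S := ((2 * (conj μ * D).re : ℝ) : ℂ) with hS
  set Z := ((c - 1 : ℝ) : ℂ) * T + (-(((2 * (α * (d - v)).re : ℝ) : ℂ) * ve) + m * conj (d - v)) +
    c * (μ * conj T + conj ve * D + S * de) with hZ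
  have e1 : -((conj (de * d) * (w * conj α * v + π)).re +
      (conj (c * (T + μ * conj T + conj ve * D + S * de)) * (w * v)).re) +
      ((conj m - α * conj ve) * (w * v ^ 2)).re =
      -(conj ((de - ve) * d + ve * (d - v)) * (w * conj α * v) + conj (de * d) * π +
        conj Z * (w * v)).re := by
    have e2 : c * (T + μ * conj T + conj ve * D + S * de) =
        Z + (-(((2 * (α * v).re : ℝ) : ℂ) * ve) + m * conj v) := by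
      rw [hZ]
      have e3 : T = -(((2 * (α * (d - v)).re : ℝ) : ℂ) * ve) + m * conj (d - v) +
          (-(((2 * (α * v).re : ℝ) : ℂ) * ve) + m * conj v) := by
        rw [hT, mul_sub, sub_re, map_sub]
        push_cast
        ring
      push_cast at e3 ⊢
      linear_combination e3
    rw [e2]
    simp only [sq, map_add, map_mul, map_neg, map_sub, conj_ofReal, mul_re, mul_im, add_re, add_im,
      sub_re, sub_im, neg_re, neg_im, conj_re, conj_im, ofReal_re, ofReal_im]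
    ring
  have hT1 : ‖T‖ ≤ 9 * (ε * E) := by
    rw [hT]
    refine (norm_add_le_of_le ((norm_neg _).trans_le (nmul_ChP5 (nre_ChP5 (nmul_ChP5 hα hd)) hve))
      (nmul_ChP5 hm (nconj_ChP5 hd))).trans ?_
    have : 0 ≤ ε * E := by positivity
    linarith
  have hS1 : ‖S‖ ≤ 2 * (1 * (5 / 2 * ε * N + 10 * ε * Y)) :=
    nre_ChP5 (nmul_ChP5 (nconj_ChP5 (hμ.trans hY1)) hD)
  have hZ1 : ‖Z‖ ≤ 104 * (ε * E * Y) + 18 * (ε * E * N) := by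
    refine (norm_add_le_of_le (norm_add_le_of_le (nmul_ChP5 (nreal_ChP5 hc1) hT1)
      (norm_add_le_of_le ((norm_neg _).trans_le (nmul_ChP5 (nre_ChP5 (nmul_ChP5 hα hdv)) hve))
        (nmul_ChP5 hm (nconj_ChP5 hdv))))
      (nmul_ChP5 (nreal_ChP5 hc) (norm_add_le_of_le (norm_add_le_of_le
        (nmul_ChP5 hμ (nconj_ChP5 hT1)) (nmul_ChP5 (nconj_ChP5 hve) hD))
        (nmul_ChP5 hS1 hde)))).trans ?_
    linarith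
  rw [e1, abs_neg]
  refine (abs_re_le_norm _).trans ((norm_add_le_of_le (norm_add_le_of_le
    (nmul_ChP5 (nconj_ChP5 (norm_add_le_of_le (nmul_ChP5 hdve hd) (nmul_ChP5 hve hdv)))
      (nmul_ChP5 (nmul_ChP5 hw' (nconj_ChP5 hα)) hv))
    (nmul_ChP5 (nconj_ChP5 (nmul_ChP5 hde hd)) hπ))
    (nmul_ChP5 (nconj_ChP5 hZ1) (nmul_ChP5 hw' hv))).trans ?_)
  linarith

theorem pr_eq_ChP5 (h : Cf Φ) (u : H) : pr Φ u = (om Φ : ℂ) * tv Φ u := by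
  have h0 : (om Φ : ℂ) ≠ 0 := by
    have := h.om_low
    exact_mod_cast (by linarith : om Φ ≠ 0)
  simp only [tv, smul_apply, real_smul, ofReal_inv]
  field_simp

theorem inner_Ddy_ChP5 (h : Jet ε Φ Φ₁ Φ₂ y) (e u : H) : ⟪u, Ddy Φ Φ₁ Φ₂ y e u⟫ =
    -((conj (dx Φ Φ₁ y e * dx Φ Φ₁ y u) *
      (om Φ * conj (al Φ Φ₁) * tv Φ u + pr Φ₁ (pn Φ u))).re +
      (conj (ddx Φ Φ₁ Φ₂ y e u) * (om Φ * tv Φ u)).re) := by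
  have e1 : pr Φ₁ u = om Φ * conj (al Φ Φ₁) * tv Φ u + pr Φ₁ (pn Φ u) := by
    rw [pn_apply, map_sub, h.pr1_sp]
    ring
  rw [Ddy_apply_ChP5, inner_neg_right, inner_add_right, real_inner_comm, inner_sp,
    real_inner_comm, inner_sp, ← e1, ← pr_eq_ChP5 h.cf]

theorem c_le_ChP5 (h : Jet ε Φ Φ₁ Φ₂ y) : 0 ≤ (1 - ‖mu Φ Φ₁ y‖ ^ 2)⁻¹ ∧
    (1 - ‖mu Φ Φ₁ y‖ ^ 2)⁻¹ ≤ 2 ∧ |(1 - ‖mu Φ Φ₁ y‖ ^ 2)⁻¹ - 1| ≤ ‖y‖ := by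
  have h1 := h.mu_small
  have h2 := h.mu_le
  have h3 := h.eps1
  have h4 := norm_nonneg y
  have h5 : ‖mu Φ Φ₁ y‖ ≤ ‖y‖ := by nlinarith
  have h6 := norm_nonneg (mu Φ Φ₁ y)
  generalize ‖mu Φ Φ₁ y‖ = s at *
  have h7 : s ^ 2 ≤ 1 / 2 * s := by nlinarith
  have h8 : 0 < 1 - s ^ 2 := by linarith
  have h9 : (1 - s ^ 2)⁻¹ ≤ 2 := by
    rw [inv_le_comm₀ h8 two_pos]
    linarith
  have h10 : (1 - s ^ 2)⁻¹ - 1 = (1 - s ^ 2)⁻¹ * s ^ 2 := by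
    field_simp
    ring
  refine ⟨by positivity, h9, ?_⟩
  rw [h10, abs_of_nonneg (by positivity)]
  nlinarith [sq_nonneg s]

theorem one_ChP5 (h : Jet ε Φ Φ₁ Φ₂ y) (e : H) {u : H} (hu : ‖u‖ = 1) :
    |⟪u, Ddy Φ Φ₁ Φ₂ y e u⟫ + ((conj (mu Φ Φ₁ e) - al Φ Φ₁ * conj (tv Φ e)) *
      (om Φ * tv Φ u ^ 2)).re| ≤ 140 * (ε * ‖e‖) * (‖pn Φ u‖ + ‖y‖) := by
  have h0 := h.eps0
  have h1 := h.eps1
  have hy := norm_nonneg y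
  have he := norm_nonneg e
  have hn := norm_nonneg (pn Φ u)
  have hc := c_le_ChP5 h
  have hv : ‖tv Φ u‖ ≤ 11 / 10 := by simpa [hu] using h.cf.norm_tv_le u
  have hεy : ε * ‖y‖ ≤ 1 / 100 * ‖y‖ := mul_le_mul_of_nonneg_right h1 hy
  have hm : ∀ x : H, ‖mu Φ Φ₁ x‖ ≤ 5 / 2 * ε * ‖x‖ := fun x =>
    (h.cf.norm_mu_le Φ₁ x).trans (by gcongr; exact h.n1)
  have hsub : ∀ x : H, ‖dx Φ Φ₁ y x - tv Φ x‖ ≤ ‖y‖ * ‖x‖ := fun x => by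
    refine (h.dx_sub_tv x).trans ?_
    calc 4 * ε * ‖y‖ * ‖tv Φ x‖ ≤ 4 * (1 / 100) * ‖y‖ * (11 / 10 * ‖x‖) := by
          gcongr
          exact h.cf.norm_tv_le x
      _ ≤ ‖y‖ * ‖x‖ := by
          have : 0 ≤ ‖y‖ * ‖x‖ := by positivity
          linarith
  rw [inner_Ddy_ChP5 h, ddx_apply_ChP5]
  refine key_ChP5 h0 hy h.y1 hn he ?_ h.al_le ?_ (hm e) hv ?_ ?_ (h.cf.norm_tv_le e)
    (h.norm_dx_le e) (hsub e) ?_ ?_ ?_ hc.2.2 (dtv_apply_ChP5 Φ Φ₁ y e u)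
  · rw [abs_of_nonneg (by linarith [h.cf.om_low])]
    exact h.cf.om_up
  · linarith [h.mu_le]
  · simpa [hu] using h.norm_dx_le u
  · simpa [hu] using hsub u
  · exact (norm_pr_le _ _).trans (by gcongr; exact h.n1)
  · have h2 := h.dmu_near u
    rw [hu, mul_one] at h2
    linarith [hm (pn Φ u), norm_sub_norm_le (dmu Φ Φ₁ Φ₂ y u) (mu Φ Φ₁ (pn Φ u))]
  · rw [abs_of_nonneg hc.1]
    exact hc.2.1

theorem fL_le (h : Jet ε Φ Φ₁ Φ₂ y) (hP : IsPlane 2 P) :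
    ‖fL Φ Φ₁ Φ₂ y P‖ ≤ 1000 * ε * (√(ft Φ P) + ‖y‖) := by
  obtain ⟨u₁, u₂, hu⟩ := exists_fr hP
  have h0 := h.eps0
  have hy := norm_nonneg y
  have ht := Real.sqrt_nonneg (ft Φ P)
  have hft := hu.ft_eq h.cf
  have hn1 : ‖pn Φ u₁‖ ≤ √(ft Φ P) :=
    Real.le_sqrt_of_sq_le (by linarith [sq_nonneg ‖pn Φ u₂‖])
  have hn2 : ‖pn Φ u₂‖ ≤ √(ft Φ P) :=
    Real.le_sqrt_of_sq_le (by linarith [sq_nonneg ‖pn Φ u₁‖])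
  have ht2 : ft Φ P ≤ 2 * √(ft Φ P) := by
    have h1 : √(ft Φ P) ≤ 2 := Real.sqrt_le_iff.2 ⟨by norm_num, by linarith [ft_le hP h.cf]⟩
    nlinarith [Real.mul_self_sqrt (ft_nonneg hP h.cf)]
  have key : ∀ e : H, |trH (P.comp (Ddy Φ Φ₁ Φ₂ y e))| ≤
      300 * (ε * ‖e‖) * (√(ft Φ P) + ‖y‖) := by
    intro e
    have he := norm_nonneg e
    have hK : 0 ≤ ε * ‖e‖ := by positivity
    have k1 := one_ChP5 h e hu.n1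
    have k2 := one_ChP5 h e hu.n2
    have hm : ‖mu Φ Φ₁ e‖ ≤ 5 / 2 * ε * ‖e‖ :=
      (h.cf.norm_mu_le Φ₁ e).trans (by gcongr; exact h.n1)
    have k3 : ‖conj (mu Φ Φ₁ e) - al Φ Φ₁ * conj (tv Φ e)‖ ≤ 5 * (ε * ‖e‖) := by
      refine (norm_sub_le_of_le (nconj_ChP5 hm)
        (nmul_ChP5 h.al_le (nconj_ChP5 (h.cf.norm_tv_le e)))).trans ?_
      linarith
    have k4 := (abs_re_le_norm _).trans (nmul_ChP5 k3 ((hu.s2 h.cf).trans ht2))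
    rw [mul_add, mul_add, add_re] at k4
    have k5 := mul_le_mul_of_nonneg_left hn1 hK
    have k6 := mul_le_mul_of_nonneg_left hn2 hK
    have k7 := mul_nonneg hK hy
    have k8 := mul_nonneg hK ht
    rw [hu.trH]
    rw [abs_le] at k1 k2 k4 ⊢
    constructor <;> linarith [k1.1, k1.2, k2.1, k2.2, k4.1, k4.2]
  have k := key (fL Φ Φ₁ Φ₂ y P)
  have e := inner_fL Φ Φ₁ Φ₂ y P (fL Φ Φ₁ Φ₂ y P)
  rw [real_inner_self_eq_norm_mul_norm] at e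
  have hC : 0 ≤ ε * (√(ft Φ P) + ‖y‖) := by positivity
  rcases (norm_nonneg (fL Φ Φ₁ Φ₂ y P)).eq_or_lt with hz | hz
  · rw [← hz]
    linarith
  · refine le_of_mul_le_mul_right ?_ hz
    have hw : 0 ≤ om Φ := by linarith [h.cf.om_low]
    have k2 := mul_le_mul_of_nonneg_left ((le_abs_self _).trans k) hw
    have k3 := mul_nonneg hC hz.le
    have k4 := mul_le_mul_of_nonneg_right h.cf.om_up k3
    linarith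

theorem two_ChP5 (h : Jet ε Φ Φ₁ Φ₂ y) (u : H) : ⟪u, Ddy Φ Φ₁ Φ₂ y y u⟫ =
    -((1 - ‖mu Φ Φ₁ y‖ ^ 2)⁻¹ ^ 2 * (2 * ‖mu Φ Φ₁ y‖ ^ 2 * (om Φ * ‖tv Φ u‖ ^ 2) +
      (1 + ‖mu Φ Φ₁ y‖ ^ 2) * (conj (mu Φ Φ₁ y) * (om Φ * tv Φ u ^ 2)).re)) := by
  rw [inner_Ddy_ChP5 h, ddx_apply_ChP5, dtv_apply_ChP5, h.tv_y, h.dx_y, dx_apply]
  generalize (1 - ‖mu Φ Φ₁ y‖ ^ 2)⁻¹ = c
  rw [Complex.sq_norm, Complex.sq_norm, normSq_apply, normSq_apply]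
  simp only [sq, map_add, map_mul, map_neg, map_zero, conj_ofReal, mul_re, mul_im, add_re, add_im,
    neg_re, neg_im, conj_re, conj_im, ofReal_re, ofReal_im, zero_re, zero_im]
  ring

theorem fL_y (h : Jet ε Φ Φ₁ Φ₂ y) (hP : IsPlane 2 P) :
    |⟪fL Φ Φ₁ Φ₂ y P, y⟫| ≤ 100 * ε * (‖y‖ ^ 2 + ‖y‖ * ft Φ P) := by
  obtain ⟨u₁, u₂, hu⟩ := exists_fr hP
  have h0 := h.eps0
  have h1 := h.eps1
  have hy := norm_nonneg y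
  have ht0 := ft_nonneg hP h.cf
  have ht2 := ft_le hP h.cf
  have hw : 0 ≤ om Φ := by linarith [h.cf.om_low]
  obtain ⟨c0, c2, -⟩ := c_le_ChP5 h
  have s1 := hu.s1 h.cf
  have s2 := (abs_re_le_norm _).trans (nmul_ChP5 (nconj_ChP5 h.mu_le) (hu.s2 h.cf))
  have e : trH (P.comp (Ddy Φ Φ₁ Φ₂ y y)) =
      -((1 - ‖mu Φ Φ₁ y‖ ^ 2)⁻¹ ^ 2 * (2 * ‖mu Φ Φ₁ y‖ ^ 2 * (2 - ft Φ P) +
        (1 + ‖mu Φ Φ₁ y‖ ^ 2) *
          (conj (mu Φ Φ₁ y) * (om Φ * (tv Φ u₁ ^ 2 + tv Φ u₂ ^ 2))).re)) := by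
    rw [hu.trH, two_ChP5 h, two_ChP5 h, ← s1, mul_add (om Φ : ℂ), mul_add (conj _), add_re]
    ring
  have m1 := h.mu_le
  have m2 := h.mu_small
  have m0 := norm_nonneg (mu Φ Φ₁ y)
  rw [inner_fL, e, abs_mul, abs_neg, abs_mul, abs_of_nonneg hw, abs_of_nonneg (sq_nonneg _)]
  generalize (conj (mu Φ Φ₁ y) * (om Φ * (tv Φ u₁ ^ 2 + tv Φ u₂ ^ 2))).re = r at s2
  generalize (1 - ‖mu Φ Φ₁ y‖ ^ 2)⁻¹ = c at c0 c2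
  generalize ‖mu Φ Φ₁ y‖ = s at m0 m1 m2
  have a1 : 0 ≤ ε * ‖y‖ ^ 2 := by positivity
  have a2 : 0 ≤ ε * ‖y‖ * ft Φ P := by positivity
  have b1 : s ^ 2 ≤ ε * ‖y‖ ^ 2 := by
    calc s ^ 2 ≤ (3 * ε * ‖y‖) ^ 2 := by gcongr
      _ = 9 * ε * (ε * ‖y‖ ^ 2) := by ring
      _ ≤ 9 * (1 / 100) * (ε * ‖y‖ ^ 2) := by gcongr
      _ ≤ ε * ‖y‖ ^ 2 := by linarith
  have b2 : s ^ 2 ≤ 1 := by nlinarith
  have b3 : |2 * s ^ 2 * (2 - ft Φ P) + (1 + s ^ 2) * r| ≤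
      4 * (ε * ‖y‖ ^ 2) + 6 * (ε * ‖y‖ * ft Φ P) := by
    refine (abs_add_le _ _).trans (add_le_add ?_ ?_)
    · rw [abs_of_nonneg (mul_nonneg (by positivity) (by linarith))]
      nlinarith [mul_nonneg (sq_nonneg s) ht0]
    · rw [abs_mul, abs_of_nonneg (by positivity : (0 : ℝ) ≤ 1 + s ^ 2)]
      calc (1 + s ^ 2) * |r| ≤ 2 * (3 * ε * ‖y‖ * ft Φ P) := by
            gcongr
            linarith
        _ = 6 * (ε * ‖y‖ * ft Φ P) := by ring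
  calc om Φ * (c ^ 2 * |2 * s ^ 2 * (2 - ft Φ P) + (1 + s ^ 2) * r|)
      ≤ 11 / 10 * (2 ^ 2 * (4 * (ε * ‖y‖ ^ 2) + 6 * (ε * ‖y‖ * ft Φ P))) := by
        gcongr
        exact h.cf.om_up
    _ ≤ 100 * ε * (‖y‖ ^ 2 + ‖y‖ * ft Φ P) := by linarith

end Pool.Agent.Lib.MP_8daebb_an.SV.Ch
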