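import Pool.Agent.Lib.MP_8daebb_an.SV.ChI1
import Pool.Agent.Lib.MP_8daebb_an.SV.ChP4
import Pool.Agent.Lib.MP_8daebb_an.SV.ChP5

/-! The tested identities of the chart. -/

open MeasureTheory Metric Set Complex Filter Topology
open scoped RealInnerProductSpace ComplexConjugate ContDiff ENNReal

namespace Pool.Agent.Lib.MP_8daebb_an.SV.Ch

variable {H : Type*} [NormedAddCommGroup H] [InnerProductSpace ℝ H] [FiniteDimensional ℝ H]
  [MeasurableSpace H] [BorelSpace H]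

variable {V : Measure (H × (H →L[ℝ] H))} {ι : ℂ →ₗᵢ[ℝ] H} {c : Cen H} {ε R M θ η : ℝ}

theorem trH_add_ChI2 (P A B : H →L[ℝ] H) : trH (P.comp (A + B)) = trH (P.comp A) + trH (P.comp B) := by
  simp only [trH, ContinuousLinearMap.comp_add, ContinuousLinearMap.toLinearMap_add, map_add]

theorem trH_smul_ChI2 (P A : H →L[ℝ] H) (r : ℝ) : trH (P.comp (r • A)) = r * trH (P.comp A) := by
  simp only [trH, ContinuousLinearMap.comp_smul, ContinuousLinearMap.toLinearMap_smul, map_smul, smul_eq_mul]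

theorem trH_rank_ChI2 (P : H →L[ℝ] H) (l : H →L[ℝ] ℝ) (ξ : H) :
    trH (P.comp (l.smulRight ξ)) = l (P ξ) := by
  have e : ((P.comp (l.smulRight ξ) : H →L[ℝ] H) : H →ₗ[ℝ] H) =
      (l : H →ₗ[ℝ] ℝ).smulRight (P ξ) := by
    ext u
    simp
  rw [trH, e, LinearMap.trace_smulRight]
  rfl

theorem om_ne_ChI2 (h : Pre ι c ε R) (hε : ε ≤ 1 / 100) (hR : R ≤ 2) {p : H} (hp : p ∈ c.tube R) :
    om (c.j0 R p) ≠ 0 := by
  have := (h.jet_at hε hR hp).cf.om_low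
  linarith

theorem Pre.hor (h : Pre ι c ε R) (hε : ε ≤ 1 / 100) (hR : R ≤ 2) (hV : EV V ι M θ η) (hη : η ≤ 1 / 100) {φ : ℂ × H → ℝ}
    (hφ : Test 0 R φ) (v : ℂ) :
    ∫ a, (fderiv ℝ φ ((chart V c R).x a, (chart V c R).y a) (v - (chart V c R).τ a v, (chart V c R).b a v) +
      φ ((chart V c R).x a, (chart V c R).y a) * ⟪(chart V c R).eh a, v⟫) ∂(chart V c R).m = 0 := by
  rw [h.chart_integral hε hR, ← h.loc hε hR hV hη
    ((h.contDiffOn_ominv hε hR).smul (h.contDiffOn_xi hε hR v)) hφ]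
  refine setIntegral_congr_ae (h.meas_dom hε hR) (hV.car.mono fun a ha hd => ?_)
  have hd' : a.1 ∈ c.tube R := hd
  have e := ((h.hasFDerivAt_ominv hε hR hd').smul (h.hasFDerivAt_xi hε hR hd' v)).fderiv
  have e2 := dx_P_xi (h.jet_at hε hR hd') ha.2 v
  simp only [chart, indicator_of_mem hd, inner_feh, fE, smul_eq_mul]
  rw [e, trH_add_ChI2, trH_smul_ChI2, trH_rank_ChI2, Pi.smul_apply', map_smul, map_smul, map_smul, e2,
    ← Prod.smul_mk, map_smul]
  simp only [fb, ContinuousLinearMap.comp_apply, smul_apply, smul_eq_mul]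
  ring

theorem Pre.ver (h : Pre ι c ε R) (hε : ε ≤ 1 / 100) (hR : R ≤ 2) (hV : EV V ι M θ η) (hη : η ≤ 1 / 100) {φ : ℂ × H → ℝ}
    (hφ : Test 0 R φ) (e : H) :
    ∫ a, (fderiv ℝ φ ((chart V c R).x a, (chart V c R).y a) ((chart V c R).q a e, (chart V c R).g a e) +
      φ ((chart V c R).x a, (chart V c R).y a) * ⟪(chart V c R).L a, e⟫) ∂(chart V c R).m = 0 := by
  rw [h.chart_integral hε hR, ← h.loc hε hR hV hη (h.contDiffOn_dy hε hR e) hφ]
  refine setIntegral_congr_ae (h.meas_dom hε hR) (Eventually.of_forall fun a hd => ?_)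
  have hd' : a.1 ∈ c.tube R := hd
  have h0 := om_ne_ChI2 h hε hR hd'
  simp only [chart, indicator_of_mem hd, inner_fL, fq, fg, smul_eq_mul,
    (h.hasFDerivAt_dy hε hR hd' e).fderiv, ContinuousLinearMap.comp_apply,
    smul_apply]
  rw [← Prod.smul_mk, map_smul, smul_eq_mul]
  field_simp
  ring

theorem Pre.amb (h : Pre ι c ε R) (hε : ε ≤ 1 / 100) (hR : R ≤ 2) (hV : EV V ι M θ η) (hη : η ≤ 1 / 100) {φ : ℂ × H → ℝ}
    (hφ : Test 0 R φ) {X : H → H} (hX : ContDiff ℝ 1 X)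
    (h0 : ∀ᵐ a ∂(chart V c R).m, X ((chart V c R).pos a) ≠ 0 → fderiv ℝ φ ((chart V c R).x a, (chart V c R).y a) = 0) :
    ∫ a, φ ((chart V c R).x a, (chart V c R).y a) * (chart V c R).w ((chart V c R).x a) *
      tanDiv X ((chart V c R).pos a, (chart V c R).Pl a) ∂(chart V c R).m = 0 := by
  rw [h.chart_integral hε hR, ← h.loc hε hR hV hη hX.contDiffOn hφ]
  refine setIntegral_congr_ae (h.meas_dom hε hR) (((h.chart_ae hε hR).1 h0).mono fun a ha hd => ?_)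
  have hd' : a.1 ∈ c.tube R := hd
  have h1 := om_ne_ChI2 h hε hR hd'
  have h2 := ha hd
  simp only [chart, indicator_of_mem hd, smul_eq_mul, piecewise,
    if_pos (Cen.foot_spec hd').1] at h2 ⊢
  have h3 : fderiv ℝ φ (c.foot R a.1, c.ht R a.1)
      (dx (c.j0 R a.1) (c.j1 R a.1) (c.ht R a.1) (a.2 (X a.1)),
        dy (c.j0 R a.1) (c.j1 R a.1) (c.ht R a.1) (a.2 (X a.1))) = 0 := by
    by_cases h4 : X a.1 = 0
    · simp only [h4, map_zero, Prod.mk_zero_zero]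
    · simp [h2 h4]
  rw [h3, add_zero]
  change (om (c.j0 R a.1))⁻¹ * (_ * om (c.j0 R a.1) * trH (a.2.comp (fderiv ℝ X a.1))) = _
  field_simp

/-- The constant field. -/
theorem Pre.const (h : Pre ι c ε R) (hε : ε ≤ 1 / 100) (hR : R ≤ 2) (hV : EV V ι M θ η) (hη : η ≤ 1 / 100) {ψ : ℂ → ℝ}
    (hψ : ContDiff ℝ 1 ψ) {R' : ℝ} (hR' : R' < R) (h0 : ∀ u, R' ≤ ‖u‖ → ψ u = 0) (e : H) :
    ∫ a, fderiv ℝ ψ (c.foot R a.1)
      ((om (c.j0 R a.1) : ℂ) * dx (c.j0 R a.1) (c.j1 R a.1) (c.ht R a.1) (a.2 e)) ∂(chart V c R).m = 0 := by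
  have hφ : Test (H := H) 0 R fun u => ψ u.1 :=
    ⟨(hψ.comp contDiff_fst).contDiffOn, R', hR', fun u hu => h0 _ (by simpa using hu)⟩
  rw [h.chart_integral hε hR, ← h.loc hε hR hV hη (ζ := fun _ => e) contDiffOn_const hφ]
  refine setIntegral_congr_ae (h.meas_dom hε hR) (Eventually.of_forall fun a hd => ?_)
  have h1 := om_ne_ChI2 h hε hR (p := a.1) hd
  have h2 : HasFDerivAt (fun u : ℂ × H => ψ u.1) _ (c.foot R a.1, c.ht R a.1) :=
    HasFDerivAt.comp (f := Prod.fst) (c.foot R a.1, c.ht R a.1)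
      (hψ.differentiable one_ne_zero _).hasFDerivAt hasFDerivAt_fst
  rw [h2.fderiv, ← Complex.real_smul, map_smul]
  simp [trH, h1]

end Pool.Agent.Lib.MP_8daebb_an.SV.Ch
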