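import Pool.Agent.Lib.MP_8daebb_an.SV.ChD0

/-! Wirtinger calculus. -/

open MeasureTheory Metric Set Complex Filter Topology
open scoped RealInnerProductSpace ComplexConjugate ContDiff ENNReal

namespace Pool.Agent.Lib.MP_8daebb_an.SV.Ch

variable {H : Type*} [NormedAddCommGroup H] [InnerProductSpace ℝ H] [FiniteDimensional ℝ H]

variable {F : Type*} [NormedAddCommGroup F] [NormedSpace ℝ F] [NormedSpace ℂ F]
  [IsScalarTower ℝ ℂ F]

theorem rsmul_ChW (r : ℝ) (x : F) : r • x = (r : ℂ) • x := (algebraMap_smul ℂ r x).symm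

theorem lin_ChW {G : Type*} [NormedAddCommGroup G] [NormedSpace ℝ G] (A : ℂ →L[ℝ] G) (v : ℂ) :
    A v = v.re • A 1 + v.im • A I := by
  rw [← map_smul, ← map_smul, ← map_add]
  congr 1
  apply Complex.ext <;> simp

omit [IsScalarTower ℝ ℂ F] in
theorem dz_of_ChW {f : ℂ → F} {A : ℂ →L[ℝ] F} {u : ℂ} (h : HasFDerivAt f A u) :
    dz f u = (1 / 2 : ℂ) • (A 1 - I • A I) ∧ dzb f u = (1 / 2 : ℂ) • (A 1 + I • A I) := by
  simp only [dz, dzb, d1, d2, h.fderiv, and_self]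

theorem fderiv_eq_dz (f : ℂ → F) (u v : ℂ) :
    fderiv ℝ f u v = v • dz f u + conj v • dzb f u := by
  rw [lin_ChW, rsmul_ChW, rsmul_ChW]
  simp only [dz, dzb, d1, d2]
  match_scalars
  · apply Complex.ext <;> simp <;> ring
  · apply Complex.ext <;> simp <;> ring

theorem hasDerivAt_of_dzb {f : ℂ → F} {u : ℂ} (hf : DifferentiableAt ℝ f u) (h : dzb f u = 0) :
    HasDerivAt f (dz f u) u := by
  rw [hasDerivAt_iff_hasFDerivAt]
  refine hasFDerivAt_of_restrictScalars ℝ hf.hasFDerivAt ?_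
  ext1 v
  rw [fderiv_eq_dz, h, smul_zero, add_zero]
  simp

theorem dz_of_hasDerivAt {f : ℂ → F} {f' : F} {u : ℂ} (hf : HasDerivAt f f' u) :
    dz f u = f' ∧ dzb f u = 0 := by
  have h := dz_of_ChW (hf.hasFDerivAt.restrictScalars ℝ)
  rw [h.1, h.2]
  simp only [ContinuousLinearMap.coe_restrictScalars', ContinuousLinearMap.toSpanSingleton_apply,
    one_smul, smul_smul, I_mul_I]
  constructor <;> module

theorem dz_congr {f g : ℂ → F} {u : ℂ} (h : f =ᶠ[𝓝 u] g) : dz f u = dz g u ∧ dzb f u = dzb g u := by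
  simp only [dz, dzb, d1, d2, h.fderiv_eq, and_self]

theorem lap_congr {G : Type*} [NormedAddCommGroup G] [NormedSpace ℝ G] {f g : ℂ → G} {u : ℂ}
    (h : f =ᶠ[𝓝 u] g) : lap f u = lap g u := by
  have h0 : fderiv ℝ f =ᶠ[𝓝 u] fderiv ℝ g := h.fderiv
  have h1 : d1 f =ᶠ[𝓝 u] d1 g := h0.mono fun z hz => by simp only [d1, hz]
  have h2 : d2 f =ᶠ[𝓝 u] d2 g := h0.mono fun z hz => by simp only [d2, hz]
  have e1 : d1 (d1 f) u = d1 (d1 g) u := by
    show fderiv ℝ (d1 f) u 1 = fderiv ℝ (d1 g) u 1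
    rw [h1.fderiv_eq]
  have e2 : d2 (d2 f) u = d2 (d2 g) u := by
    show fderiv ℝ (d2 f) u I = fderiv ℝ (d2 g) u I
    rw [h2.fderiv_eq]
  rw [lap, lap, e1, e2]

theorem dz_add {f g : ℂ → F} {u : ℂ} (hf : DifferentiableAt ℝ f u) (hg : DifferentiableAt ℝ g u) :
    dz (fun z => f z + g z) u = dz f u + dz g u ∧
      dzb (fun z => f z + g z) u = dzb f u + dzb g u := by
  have h := dz_of_ChW (hf.hasFDerivAt.fun_add hg.hasFDerivAt)
  rw [h.1, h.2]
  simp only [dz, dzb, d1, d2, ContinuousLinearMap.add_apply]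
  constructor <;> module

theorem dz_sub {f g : ℂ → F} {u : ℂ} (hf : DifferentiableAt ℝ f u) (hg : DifferentiableAt ℝ g u) :
    dz (fun z => f z - g z) u = dz f u - dz g u ∧
      dzb (fun z => f z - g z) u = dzb f u - dzb g u := by
  have h := dz_of_ChW (hf.hasFDerivAt.fun_sub hg.hasFDerivAt)
  rw [h.1, h.2]
  simp only [dz, dzb, d1, d2, ContinuousLinearMap.sub_apply]
  constructor <;> module

theorem dz_smul {ψ : ℂ → ℂ} {g : ℂ → F} {u : ℂ} (hψ : DifferentiableAt ℝ ψ u)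
    (hg : DifferentiableAt ℝ g u) :
    dz (fun z => ψ z • g z) u = dz ψ u • g u + ψ u • dz g u ∧
      dzb (fun z => ψ z • g z) u = dzb ψ u • g u + ψ u • dzb g u := by
  have h := dz_of_ChW (hψ.hasFDerivAt.fun_smul hg.hasFDerivAt)
  rw [h.1, h.2]
  simp only [dz, dzb, d1, d2, ContinuousLinearMap.add_apply, ContinuousLinearMap.smul_apply,
    ContinuousLinearMap.smulRight_apply, smul_eq_mul]
  constructor <;> module

theorem dz_conj {ψ : ℂ → ℂ} {u : ℂ} (hψ : DifferentiableAt ℝ ψ u) :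
    dz (fun z => conj (ψ z)) u = conj (dzb ψ u) := by
  have h0 : HasFDerivAt (fun z => conj (ψ z))
      ((conjCLE : ℂ →L[ℝ] ℂ).comp (fderiv ℝ ψ u)) u :=
    (conjCLE : ℂ →L[ℝ] ℂ).hasFDerivAt.comp u hψ.hasFDerivAt
  rw [(dz_of_ChW h0).1]
  simp only [dzb, d1, d2, ContinuousLinearMap.comp_apply, ContinuousLinearEquiv.coe_coe,
    conjCLE_apply, smul_eq_mul, map_mul, map_add, map_div₀, map_one, map_ofNat, conj_I]
  ring

theorem dz_bil {A B : ℂ → EC H} {u : ℂ} (hA : DifferentiableAt ℝ A u)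
    (hB : DifferentiableAt ℝ B u) :
    dz (fun z => bil (A z) (B z)) u = bil (dz A u) (B u) + bil (A u) (dz B u) := by
  obtain ⟨L, hL⟩ := exists_bilL (H := H)
  have h0 := (L.bilinearRestrictScalars ℝ).hasFDerivAt_of_bilinear hA.hasFDerivAt hB.hasFDerivAt
  simp only [ContinuousLinearMap.bilinearRestrictScalars_apply_apply, hL] at h0
  rw [(dz_of_ChW h0).1]
  simp only [dz, d1, d2, ← hL, ContinuousLinearMap.add_apply,
    ContinuousLinearMap.precompR_apply, ContinuousLinearMap.precompL_apply,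
    ContinuousLinearMap.compL_apply, ContinuousLinearMap.comp_apply,
    ContinuousLinearMap.bilinearRestrictScalars_apply_apply, map_smul, map_sub,
    ContinuousLinearMap.smul_apply, ContinuousLinearMap.sub_apply, smul_eq_mul]
  ring

theorem dz_cx {W : ℂ → H} {u : ℂ} (hW : DifferentiableAt ℝ W u) :
    dz (fun z => cx (W z)) u = zd (fderiv ℝ W u) := by
  have h0 : HasFDerivAt (fun z => cx (W z)) ((cx : H →L[ℝ] EC H).comp (fderiv ℝ W u)) u :=
    (cx : H →L[ℝ] EC H).hasFDerivAt.comp u hW.hasFDerivAt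
  rw [(dz_of_ChW h0).1]
  rfl

theorem contDiffOn_d_ChW {G : Type*} [NormedAddCommGroup G] [NormedSpace ℝ G] {f : ℂ → G}
    {s : Set ℂ} (hs : IsOpen s) (hf : ContDiffOn ℝ ∞ f s) :
    ContDiffOn ℝ ∞ (d1 f) s ∧ ContDiffOn ℝ ∞ (d2 f) s := by
  have h := ((contDiffOn_infty_iff_fderiv_of_isOpen hs).1 hf).2
  exact ⟨h.clm_apply contDiffOn_const, h.clm_apply contDiffOn_const⟩

theorem contDiffOn_dz {f : ℂ → F} {s : Set ℂ} (hs : IsOpen s) (hf : ContDiffOn ℝ ∞ f s) :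
    ContDiffOn ℝ ∞ (dz f) s ∧ ContDiffOn ℝ ∞ (dzb f) s := by
  obtain ⟨h1, h2⟩ := contDiffOn_d_ChW hs hf
  exact ⟨(h1.sub (h2.const_smul I)).const_smul (1 / 2 : ℂ),
    (h1.add (h2.const_smul I)).const_smul (1 / 2 : ℂ)⟩

theorem contDiffOn_lap {G : Type*} [NormedAddCommGroup G] [NormedSpace ℝ G] {f : ℂ → G}
    {s : Set ℂ} (hs : IsOpen s) (hf : ContDiffOn ℝ ∞ f s) : ContDiffOn ℝ ∞ (lap f) s := by
  obtain ⟨h1, h2⟩ := contDiffOn_d_ChW hs hf
  exact (contDiffOn_d_ChW hs h1).1.add (contDiffOn_d_ChW hs h2).2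

theorem hasF_d_ChW {G : Type*} [NormedAddCommGroup G] [NormedSpace ℝ G] {f : ℂ → G} {u : ℂ}
    (hf : ContDiffAt ℝ 2 f u) (v : ℂ) : HasFDerivAt (fun z => fderiv ℝ f z v)
      ((fderiv ℝ (fderiv ℝ f) u).flip v) u := by
  have h : DifferentiableAt ℝ (fderiv ℝ f) u :=
    (hf.fderiv_right (m := 1) (by norm_num)).differentiableAt (by norm_num)
  have h1 := h.hasFDerivAt.clm_apply (hasFDerivAt_const v u)
  simpa using h1

theorem lap_eq {G : Type*} [NormedAddCommGroup G] [NormedSpace ℝ G] {f : ℂ → G} {u : ℂ}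
    (hf : ContDiffAt ℝ 2 f u) :
    lap f u = fderiv ℝ (fderiv ℝ f) u 1 1 + fderiv ℝ (fderiv ℝ f) u I I := by
  have e1 : d1 (d1 f) u = fderiv ℝ (fderiv ℝ f) u 1 1 := by
    show fderiv ℝ (fun z => fderiv ℝ f z 1) u 1 = _
    rw [(hasF_d_ChW hf 1).fderiv]; rfl
  have e2 : d2 (d2 f) u = fderiv ℝ (fderiv ℝ f) u I I := by
    show fderiv ℝ (fun z => fderiv ℝ f z I) u I = _
    rw [(hasF_d_ChW hf I).fderiv]; rfl
  rw [lap, e1, e2]

theorem dzb_dz {f : ℂ → F} {u : ℂ} (hf : ContDiffAt ℝ 2 f u) :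
    dzb (dz f) u = (1 / 4 : ℂ) • lap f u ∧ dz (dzb f) u = (1 / 4 : ℂ) • lap f u := by
  have hs : fderiv ℝ (fderiv ℝ f) u 1 I = fderiv ℝ (fderiv ℝ f) u I 1 :=
    hf.isSymmSndFDerivAt (by simp) 1 I
  have a1 := hasF_d_ChW hf 1
  have a2 := hasF_d_ChW hf I
  have b1 : HasFDerivAt (dz f) _ u := (a1.sub (a2.const_smul I)).const_smul (1 / 2 : ℂ)
  have b2 : HasFDerivAt (dzb f) _ u := (a1.add (a2.const_smul I)).const_smul (1 / 2 : ℂ)
  rw [(dz_of_ChW b1).2, (dz_of_ChW b2).1, lap_eq hf]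
  simp only [ContinuousLinearMap.add_apply, ContinuousLinearMap.sub_apply,
    ContinuousLinearMap.smul_apply, ContinuousLinearMap.flip_apply, hs]
  constructor <;> match_scalars <;> apply Complex.ext <;> simp <;> norm_num

theorem lap_add {G : Type*} [NormedAddCommGroup G] [NormedSpace ℝ G] {f g : ℂ → G} {u : ℂ}
    (hf : ContDiffAt ℝ 2 f u) (hg : ContDiffAt ℝ 2 g u) :
    lap (fun z => f z + g z) u = lap f u + lap g u := by
  have h0 : fderiv ℝ (fun z => f z + g z) =ᶠ[𝓝 u] fun z => fderiv ℝ f z + fderiv ℝ g z := by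
    filter_upwards [hf.eventually (by simp), hg.eventually (by simp)] with z h1 h2
    exact fderiv_fun_add (h1.differentiableAt (by norm_num)) (h2.differentiableAt (by norm_num))
  have h1 : DifferentiableAt ℝ (fderiv ℝ f) u :=
    (hf.fderiv_right (m := 1) (by norm_num)).differentiableAt (by norm_num)
  have h2 : DifferentiableAt ℝ (fderiv ℝ g) u :=
    (hg.fderiv_right (m := 1) (by norm_num)).differentiableAt (by norm_num)
  rw [lap_eq (hf.add hg), lap_eq hf, lap_eq hg, h0.fderiv_eq, fderiv_fun_add h1 h2]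
  simp only [ContinuousLinearMap.add_apply]
  abel

theorem lap_clm {G G' : Type*} [NormedAddCommGroup G] [NormedSpace ℝ G] [NormedAddCommGroup G']
    [NormedSpace ℝ G'] (A : G →L[ℝ] G') {f : ℂ → G} {u : ℂ} (hf : ContDiffAt ℝ 2 f u) :
    lap (fun z => A (f z)) u = A (lap f u) := by
  have h0 : ∀ v : ℂ, (fun z => fderiv ℝ (fun z => A (f z)) z v) =ᶠ[𝓝 u]
      fun z => A (fderiv ℝ f z v) := by
    intro v
    filter_upwards [hf.eventually (by simp)] with z h1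
    have h2 : HasFDerivAt (fun z => A (f z)) (A.comp (fderiv ℝ f z)) z :=
      A.hasFDerivAt.comp z (h1.differentiableAt (by norm_num)).hasFDerivAt
    rw [h2.fderiv]; rfl
  have h1 : ∀ v : ℂ, fderiv ℝ (fun z => fderiv ℝ (fun z => A (f z)) z v) u v =
      A (fderiv ℝ (fderiv ℝ f) u v v) := by
    intro v
    have h2 : HasFDerivAt (fun z => A (fderiv ℝ f z v))
        (A.comp ((fderiv ℝ (fderiv ℝ f) u).flip v)) u := A.hasFDerivAt.comp u (hasF_d_ChW hf v)
    rw [(h0 v).fderiv_eq, h2.fderiv]; rfl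
  rw [lap_eq hf, map_add, ← h1, ← h1]
  rfl

theorem Pre.dz_om {ι : ℂ →ₗᵢ[ℝ] H} {c : Cen H} {ε R : ℝ} (h : Pre ι c ε R) (hε : ε ≤ 1 / 100)
    {z : ℂ} (hz : z ∈ ball (0 : ℂ) R) :
    dz (fun w => ((om (c.Φ w) : ℝ) : ℂ)) z = (om (c.Φ z) : ℂ) * al (c.Φ z) (deriv c.Φ z) := by
  have h0 := h.hasFDerivAt hz
  have h1 := (h0.inner ℂ h0).const_mul (2 : ℂ)
  have e : (fun w => ((om (c.Φ w) : ℝ) : ℂ)) = fun w => 2 * inner ℂ (c.Φ w) (c.Φ w) := by
    funext w
    rw [om, inner_self_eq_norm_sq_to_K]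
    push_cast
    rfl
  have ho : (om (c.Φ z) : ℂ) ≠ 0 := by
    have := (h.cf hε hz).om_low
    exact_mod_cast (by linarith : om (c.Φ z) ≠ 0)
  rw [e, (dz_of_ChW h1).1, al]
  simp only [ContinuousLinearMap.smul_apply, ContinuousLinearMap.comp_apply,
    ContinuousLinearMap.prod_apply, fderivInnerCLM_apply, sm_apply, one_smul, inner_smul_left,
    inner_smul_right, conj_I, smul_eq_mul]
  push_cast
  field_simp
  ring_nf
  simp
  ring

end Pool.Agent.Lib.MP_8daebb_an.SV.Ch
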