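import Pool.Agent.Lib.MP_8daebb_an.SV.ChCV
import Pool.Agent.Lib.MP_8daebb_an.SV.Av
import Pool.Agent.Lib.MP_8daebb_an.SV.Id
import Pool.Agent.Lib.MP_8daebb_an.SV.ChW

/-! The weak Jacobi equation. -/

open MeasureTheory Metric Set Complex Filter Topology
open scoped RealInnerProductSpace ComplexConjugate ContDiff ENNReal

namespace Pool.Agent.Lib.MP_8daebb_an.SV.Ch

theorem abs_mul_ChJ1 {a b A B : ℝ} (ha : |a| ≤ A) (hb : |b| ≤ B) : |a * b| ≤ A * B := by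
  rw [abs_mul]
  exact mul_le_mul ha hb (abs_nonneg _) ((abs_nonneg _).trans ha)

theorem lin_ChJ1 (L : ℂ →L[ℝ] ℝ) (w : ℂ) : L w = w.re * L 1 + w.im * L I := by
  conv_lhs => rw [show w = w.re • (1 : ℂ) + w.im • I by simp]
  rw [map_add, map_smul, map_smul, smul_eq_mul, smul_eq_mul]

/-- The pointwise estimate of the error. -/
theorem pt_ChJ1 (L : ℂ →L[ℝ] ℝ) (S : ℂ →L[ℝ] ℂ →L[ℝ] ℝ) (τ DW : ℂ →L[ℝ] ℂ) {β : ℂ → ℝ}
    {z s Y t E : ℝ} {q p p₁ m d eh : ℂ} (hY0 : 0 ≤ Y) (hY : Y ≤ 1 / 2) (ht : 0 ≤ t) (hE : 0 ≤ E)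
    (hz : |z| ≤ Y * E) (hτ : ‖τ‖ ≤ 2 * t) (heh : ‖eh‖ ≤ 1 / 2 * (t + Y ^ 2))
    (hq : ∀ v, |⟪q, v⟫ - β v| ≤ 1 / 2 * Y * (√t + Y) * E * ‖v‖)
    (hd : ‖d - (q + p + 2 * m * conj p)‖ ≤ 10 * (t + Y ^ 2) * E) (hp : ‖p‖ ≤ 21 / 20 * E)
    (hp₁ : ‖p₁‖ ≤ E) (hW : ∀ v, DW v = s • (conj v * p₁) + L v • p) :
    |(S 1 1 + S I I) * z - 2 * (((L 1 : ℝ) + (L I : ℝ) * I) * (conj m * p)).re
      - (S (1 - τ 1) 1 * z + L 1 * β 1 + L 1 * z * ⟪eh, 1⟫)
      - (S (I - τ I) I * z + L I * β I + L I * z * ⟪eh, I⟫) + L d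
      - (tr2 DW - tr2 (DW.comp τ) + ⟪eh, s • p⟫)|
      ≤ 50 * E * ((t + Y ^ 2) * (‖L‖ + |s|) + Y * t * ‖S‖) := by
  obtain ⟨r, hr⟩ : ∃ r, r = d - (q + p + 2 * m * conj p) := ⟨_, rfl⟩
  obtain ⟨n, hn⟩ : ∃ n, n = t + Y ^ 2 := ⟨_, rfl⟩
  have hn1 : t ≤ n := by nlinarith
  have hn2 : Y * (√t + Y) ≤ 3 / 2 * n := by
    nlinarith [Real.sq_sqrt ht, sq_nonneg (Y - √t)]
  rw [← hn] at heh hd ⊢
  rw [← hr] at hd
  have hL0 := norm_nonneg L
  have hS0 := norm_nonneg S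
  have hs0 := abs_nonneg s
  have hLv : ∀ v, |L v| ≤ ‖L‖ * ‖v‖ := fun v => L.le_opNorm v
  have hτv : ∀ v : ℂ, ‖v‖ = 1 → ‖τ v‖ ≤ 2 * t := fun v hv => by
    simpa [hv] using (τ.le_opNorm v).trans (mul_le_mul_of_nonneg_right hτ (norm_nonneg _))
  have hWv : ∀ v, ‖DW v‖ ≤ 21 / 20 * (‖L‖ + |s|) * E * ‖v‖ := fun v => by
    rw [hW]
    refine (norm_add_le _ _).trans ?_
    rw [norm_smul, norm_smul, norm_mul, RCLike.norm_conj, Real.norm_eq_abs, Real.norm_eq_abs]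
    have h1 := mul_le_mul (hLv v) hp (norm_nonneg _) (by positivity)
    have h2 : |s| * (‖v‖ * ‖p₁‖) ≤ |s| * (‖v‖ * (21 / 20 * E)) := by gcongr; linarith
    linarith
  have k : ∀ v : ℂ, ‖v‖ = 1 → |S (τ v) v * z| ≤ 2 * (E * (Y * t * ‖S‖)) ∧
      |L v * (⟪q, v⟫ - β v)| ≤ E * (n * ‖L‖) ∧ |L v * z * ⟪eh, v⟫| ≤ E * (n * ‖L‖) ∧
      ‖DW (τ v)‖ ≤ 3 * (E * (n * (‖L‖ + |s|))) := fun v hv => by
    have h1 : |L v| ≤ ‖L‖ := by simpa [hv] using hLv v
    have h2 : |S (τ v) v| ≤ ‖S‖ * (2 * t) := by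
      refine (S.le_opNorm₂ (τ v) v).trans ?_
      rw [hv, mul_one]
      exact mul_le_mul_of_nonneg_left (hτv v hv) hS0
    have h3 : |⟪eh, v⟫| ≤ 1 / 2 * n := by
      simpa [hv] using (abs_real_inner_le_norm eh v).trans
        (mul_le_mul_of_nonneg_right heh (norm_nonneg _))
    have h4 := hq v
    rw [hv, mul_one] at h4
    have h5 : 0 ≤ E * (n * ‖L‖) := by have := ht.trans hn1; positivity
    refine ⟨(abs_mul_ChJ1 h2 hz).trans (le_of_eq (by ring)), (abs_mul_ChJ1 h1 h4).trans ?_,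
      (abs_mul_ChJ1 (abs_mul_ChJ1 h1 hz) h3).trans ?_, (hWv _).trans ?_⟩
    · nlinarith [mul_le_mul_of_nonneg_left hn2 (mul_nonneg hE hL0)]
    · nlinarith [mul_le_mul_of_nonneg_left hY h5]
    · have h6 : ‖τ v‖ ≤ 2 * n := by linarith [hτv v hv]
      have h7 : 0 ≤ E * (n * (‖L‖ + |s|)) := by have := ht.trans hn1; positivity
      nlinarith [mul_le_mul_of_nonneg_left h6 (show 0 ≤ 21 / 20 * (‖L‖ + |s|) * E by positivity)]
  obtain ⟨a1, a2, a3, a4⟩ := k 1 norm_one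
  obtain ⟨b1, b2, b3, b4⟩ := k I norm_I
  have c1 : |L r| ≤ ‖L‖ * (10 * n * E) := (hLv r).trans (mul_le_mul_of_nonneg_left hd hL0)
  have c2 : |⟪eh, s • p⟫| ≤ 1 / 2 * n * (|s| * (21 / 20 * E)) := by
    refine (abs_real_inner_le_norm _ _).trans ?_
    rw [norm_smul, Real.norm_eq_abs]
    have := ht.trans hn1
    gcongr
  have c3 := (abs_re_le_norm _).trans a4
  have c4 := (abs_im_le_norm _).trans b4
  have e1 : L d = L 1 * ⟪q, 1⟫ + L I * ⟪q, I⟫ + (p.re * L 1 + p.im * L I)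
      + 2 * (((L 1 : ℝ) + (L I : ℝ) * I) * (conj m * p)).re + L r := by
    rw [show d = q + p + 2 * m * conj p + r by rw [hr]; ring, map_add, map_add, map_add,
      lin_ChJ1 L q, lin_ChJ1 L p, lin_ChJ1 L (2 * m * conj p)]
    simp [Complex.inner]
    ring
  have e2 : tr2 DW = p.re * L 1 + p.im * L I := by
    simp [tr2, hW]
    ring
  have h1 : 0 ≤ E * (n * ‖L‖) := by have := ht.trans hn1; positivity
  have h2 : 0 ≤ E * (n * |s|) := by have := ht.trans hn1; positivity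
  have h3 : 0 ≤ E * (Y * t * ‖S‖) := by positivity
  rw [e1, e2]
  simp only [tr2, ContinuousLinearMap.comp_apply, map_sub, sub_apply]
  rw [abs_le] at a1 a2 a3 b1 b2 b3 c1 c2 c3 c4 ⊢
  constructor <;> nlinarith

variable {H : Type*} [NormedAddCommGroup H] [InnerProductSpace ℝ H] [FiniteDimensional ℝ H]
  [MeasurableSpace H] [BorelSpace H]

theorem int_ChJ1 {α : Type*} [MeasurableSpace α] {D : CD α H} {R M : ℝ} (h : CV D 0 R (1 / 2) M)
    {k : α → EC H} (hk : Measurable k) (hk1 : ∀ a, ‖k a‖ ≤ 1)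
    (F : (ℂ × H) × (ℂ →L[ℝ] ℂ) × (ℂ →L[ℝ] H) × ℂ × ℝ × EC H → ℝ) (hF : Continuous F) :
    Integrable (fun a => F ((D.x a, D.y a), D.τ a, D.b a, D.eh a, D.t a, k a)) D.m := by
  obtain ⟨C, hC⟩ := (isCompact_closedBall
    (0 : (ℂ × H) × (ℂ →L[ℝ] ℂ) × (ℂ →L[ℝ] H) × ℂ × ℝ × EC H) 5).exists_bound_of_continuousOn
      hF.continuousOn
  refine h.integrable ?_ C fun a ha _ => hC _ ?_
  · exact (hF.comp_stronglyMeasurable
      ((h.m_x.stronglyMeasurable.prodMk h.m_y.stronglyMeasurable).prodMk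
        (h.m_τ.stronglyMeasurable.prodMk (h.m_b.stronglyMeasurable.prodMk
          (h.m_eh.stronglyMeasurable.prodMk (h.m_t.stronglyMeasurable.prodMk
            hk.stronglyMeasurable)))))).aestronglyMeasurable
  · have hp := h.pw a ha
    have h1 : √(D.t a) ≤ 2 := by
      rw [Real.sqrt_le_left (by norm_num)]
      linarith [hp.t_le]
    have h2 := hp.y_le
    have h3 := norm_nonneg (D.y a)
    rw [mem_closedBall_zero_iff]
    simp only [Prod.norm_def, max_le_iff, Real.norm_of_nonneg hp.t_nonneg]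
    refine ⟨⟨?_, ?_⟩, ?_, ?_, ?_, ?_, ?_⟩
    all_goals nlinarith [hp.x_le, hp.τ_le, hp.t_le, hp.b_le, hp.eh_le, hk1 a]

variable {V : Measure (H × (H →L[ℝ] H))} {ι : ℂ →ₗᵢ[ℝ] H} {c : Cen H} {ε R M θ η : ℝ}

theorem Pre.jacobi (h : Pre ι c ε R) (hR0 : 0 < R) (hR : R ≤ 2) (hV : EV V ι M θ η) (hs : 1000 * (ε + η) ≤ 1 / 2)
    {ψ : ℂ → ℝ} (hψ : ContDiff ℝ 2 ψ) {R' : ℝ} (hR' : R' < R) (h0 : ∀ u, R' ≤ ‖u‖ → ψ u = 0)
    (e : H) :
    |∫ a, (SV.lap ψ ((chart V c R).x a) * ⟪(chart V c R).y a, e⟫ -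
        2 * ⟪sp (c.muP R a) (conj (grad ψ ((chart V c R).x a))), e⟫) ∂(chart V c R).m| ≤
      50 * ‖e‖ * ∫ a, ((chart V c R).en a * (‖fderiv ℝ ψ ((chart V c R).x a)‖ + |ψ ((chart V c R).x a)|) +
        ‖(chart V c R).y a‖ * (chart V c R).t a * ‖fderiv ℝ (fderiv ℝ ψ) ((chart V c R).x a)‖) ∂(chart V c R).m := by
  have ε0 := h.eps_nonneg
  have η0 := ev_eps_nonneg hV
  have hε : ε ≤ 1 / 100 := by linarith
  have hη : η ≤ 1 / 100 := by linarith
  have cv := h.cv hε hR hR0 hV hη hs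
  have hψ1 : ContDiff ℝ 1 ψ := hψ.of_le (by norm_num)
  have hD : ContDiff ℝ 1 (fderiv ℝ ψ) := hψ.fderiv_right (by norm_num)
  have c0 := hψ.continuous
  have c1 := hD.continuous
  have c2 : Continuous (fderiv ℝ (fderiv ℝ ψ)) := hD.continuous_fderiv one_ne_zero
  have hz : ∀ u : ℂ, R' < ‖u‖ → ψ =ᶠ[𝓝 u] fun _ => 0 := fun u hu =>
    (continuous_norm.continuousAt.eventually (lt_mem_nhds hu)).mono fun v hv => h0 v hv.le
  have hk : ∀ a, ‖c.muP R a‖ ≤ 1 := fun a => by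
    by_cases ha : a ∈ c.dom R
    · have hj := h.jet_at hε hR ha
      rw [Cen.muP, indicator_of_mem ha, norm_smul]
      nlinarith [hj.mu_small, hj.cf.norm_le, norm_nonneg (c.j0 R a.1),
        norm_nonneg (mu (c.j0 R a.1) (c.j1 R a.1) (c.ht R a.1))]
    · simp [Cen.muP, indicator_of_notMem ha]
  have hint := int_ChJ1 cv (h.meas_mu hε hR).2 hk
  -- the field of the second identity
  obtain ⟨W, hW⟩ : ∃ W : ℂ → ℂ, W = fun u => ψ u • pr (c.Φ u) e := ⟨_, rfl⟩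
  have hWo : ContDiffOn ℝ 1 W (ball 0 R) := hW ▸ hψ1.contDiffOn.smul
    ((pr.flip e).contDiff.comp_contDiffOn (h.smooth0.of_le (by simp)))
  have hWc : ContDiff ℝ 1 W := contDiff_iff_contDiffAt.2 fun u => by
    by_cases hu : ‖u‖ < R
    · exact hWo.contDiffAt (isOpen_ball.mem_nhds (mem_ball_zero_iff.2 hu))
    · refine (contDiffAt_const (c := (0 : ℂ))).congr_of_eventuallyEq ?_
      filter_upwards [hz u (by linarith)] with v hv
      simp [hW, hv]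
  have c3 := hWc.continuous
  have c4 : Continuous (fderiv ℝ W) := hWc.continuous_fderiv one_ne_zero
  have hW' : ∀ x ∈ ball (0 : ℂ) R, ∀ v, fderiv ℝ W x v =
      ψ x • (conj v * pr (deriv c.Φ x) e) + fderiv ℝ ψ x v • pr (c.Φ x) e := fun x hx v => by
    have h1 : HasFDerivAt W _ x := hW ▸ (hψ1.differentiable one_ne_zero x).hasFDerivAt.fun_smul
      ((pr.flip e).hasFDerivAt.comp x (h.hasFDerivAt hx))
    rw [h1.fderiv]
    simp [sm_apply, pr_smul]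
  have iB := cv.hor_field hWo hR' fun u hu => by simp [hW, h0 u (by simpa using hu)]
  -- the third identity
  have iC : ∀ v : ℂ, ∫ a, (fderiv ℝ (fderiv ℝ ψ) ((chart V c R).x a) (v - (chart V c R).τ a v) v *
      ⟪(chart V c R).y a, e⟫ + fderiv ℝ ψ ((chart V c R).x a) v * ⟪(chart V c R).b a v, e⟫ +
      fderiv ℝ ψ ((chart V c R).x a) v * ⟪(chart V c R).y a, e⟫ * ⟪(chart V c R).eh a, v⟫)
        ∂(chart V c R).m = 0 := fun v => by
    have h1 : Test 0 R fun u : ℂ × H => fderiv ℝ ψ u.1 v * ⟪u.2, e⟫ := by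
      refine ⟨(((hD.comp contDiff_fst).clm_apply contDiff_const).mul
        (contDiff_snd.inner ℝ contDiff_const)).contDiffOn, (R' + R) / 2, by linarith,
        fun u hu => ?_⟩
      rw [sub_zero] at hu
      simp [(hz u.1 (by linarith)).fderiv_eq]
    rw [← cv.hor _ h1 v]
    refine integral_congr_ae (.of_forall fun a => ?_)
    have h2 : ∀ u : ℂ × H, HasFDerivAt (fun u : ℂ × H => fderiv ℝ ψ u.1 v * ⟪u.2, e⟫) _ u :=
      fun u => (((hD.differentiable one_ne_zero u.1).hasFDerivAt.comp u hasFDerivAt_fst).clm_apply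
        (hasFDerivAt_const v u)).fun_mul (hasFDerivAt_snd.inner ℝ (hasFDerivAt_const e u))
    simp only [(h2 _).fderiv]
    simp [-map_sub]
    ring
  have iA := h.const hε hR hV hη hψ1 hR' h0 e
  have mA : AEStronglyMeasurable (fun a : H × (H →L[ℝ] H) => fderiv ℝ ψ (c.foot R a.1)
      ((om (c.j0 R a.1) : ℂ) * dx (c.j0 R a.1) (c.j1 R a.1) (c.ht R a.1) (a.2 e)))
      (chart V c R).m := by
    have h1 : ∀ {F : Type _} [TopologicalSpace F] {f : H → F}, ContinuousOn f (c.tube R) →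
        ContinuousOn (fun a : H × (H →L[ℝ] H) => f a.1) (c.dom R) := fun hf =>
      hf.comp continuous_fst.continuousOn fun _ ha => ha
    have h2 := h1 (((h.contDiffOn_foot hε hR).continuousOn_fderiv_of_isOpen (h.isOpen_tube hε hR)
      le_rfl).congr fun p hp => (h.hasFDerivAt_foot hε hR hp).fderiv.symm)
    have h3 : Continuous fun Φ : EC H => ((om Φ : ℝ) : ℂ) := by unfold om; fun_prop
    rw [← Measure.restrict_eq_self_of_ae_mem (s := c.dom R) (cv.ae_G.mono fun a ha => ha.1)]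
    refine ContinuousOn.aestronglyMeasurable ?_ (h.meas_dom hε hR)
    exact (c1.comp_continuousOn ((h.contDiffOn_foot hε hR).continuousOn.comp
      continuous_fst.continuousOn fun _ ha => ha)).clm_apply
      ((h3.comp_continuousOn ((h.contDiffOn_j0 hε hR).continuousOn.comp
        continuous_fst.continuousOn fun _ ha => ha)).mul (h2.clm_apply (by fun_prop)))
  have nT := hint (fun p => SV.lap ψ p.1.1 * ⟪p.1.2, e⟫ -
    2 * ⟪sp p.2.2.2.2.2 (conj (grad ψ p.1.1)), e⟫) (by unfold SV.lap grad; fun_prop)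
  have nC := fun v : ℂ => hint (fun p => fderiv ℝ (fderiv ℝ ψ) p.1.1 (v - p.2.1 v) v * ⟪p.1.2, e⟫
    + fderiv ℝ ψ p.1.1 v * ⟪p.2.2.1 v, e⟫ + fderiv ℝ ψ p.1.1 v * ⟪p.1.2, e⟫ * ⟪p.2.2.2.1, v⟫)
    (by fun_prop)
  have nB := hint (fun p => tr2 (fderiv ℝ W p.1.1) - tr2 ((fderiv ℝ W p.1.1).comp p.2.1) +
    ⟪p.2.2.2.1, W p.1.1⟫) (by simp only [tr2, ContinuousLinearMap.comp_apply]; fun_prop)
  have nG := hint (fun p => (p.2.2.2.2.1 + ‖p.1.2‖ ^ 2) * (‖fderiv ℝ ψ p.1.1‖ + |ψ p.1.1|) +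
    ‖p.1.2‖ * p.2.2.2.2.1 * ‖fderiv ℝ (fderiv ℝ ψ) p.1.1‖)
    (by
      have c5 : Continuous fun u => ‖fderiv ℝ (fderiv ℝ ψ) u‖ :=
        (continuous_norm (E := ℂ →L[ℝ] ℂ →L[ℝ] ℝ)).comp c2
      refine Continuous.fun_add (by fun_prop) (Continuous.fun_mul (by fun_prop) ?_)
      exact c5.comp (continuous_fst.comp continuous_fst))
  have key : ∀ {T C₁ C₂ A B G : H × (H →L[ℝ] H) → ℝ} {m : Measure (H × (H →L[ℝ] H))},
      Integrable T m → Integrable C₁ m → Integrable C₂ m → AEStronglyMeasurable A m →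
      Integrable B m → Integrable G m → ∫ a, C₁ a ∂m = 0 → ∫ a, C₂ a ∂m = 0 → ∫ a, A a ∂m = 0 →
      ∫ a, B a ∂m = 0 → (∀ᵐ a ∂m, |T a - C₁ a - C₂ a + A a - B a| ≤ 50 * ‖e‖ * G a) →
      |∫ a, T a ∂m| ≤ 50 * ‖e‖ * ∫ a, G a ∂m := by
    intro T C₁ C₂ A B G m hT h1 h2 hA hB hG i1 i2 i3 i4 hb
    have hE : Integrable (fun a => T a - C₁ a - C₂ a + A a - B a) m :=
      (hG.const_mul _).mono' ((((hT.1.sub h1.1).sub h2.1).add hA).sub hB.1) hb
    have hA' : Integrable A m := ((((hE.sub hT).add h1).add h2).add hB).congr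
      (.of_forall fun a => by simp only [Pi.add_apply, Pi.sub_apply]; ring)
    have := norm_integral_le_of_norm_le (f := fun a => T a - C₁ a - C₂ a + A a - B a)
      (hG.const_mul _) hb
    have j1 : Integrable (fun a => T a - C₁ a) m := hT.sub h1
    have j2 : Integrable (fun a => T a - C₁ a - C₂ a) m := j1.sub h2
    have j3 : Integrable (fun a => T a - C₁ a - C₂ a + A a) m := j2.add hA'
    rwa [integral_sub j3 hB, integral_add j2 hA', integral_sub j1 h2, integral_sub hT h1, i1, i2,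
      i3, i4, sub_zero, sub_zero, add_zero, sub_zero, integral_const_mul] at this
  refine key nT (nC 1) (nC I) mA nB nG (iC 1) (iC I) iA iB ?_
  filter_upwards [cv.ae_G, cv.car] with a ha hx
  have hp := cv.pw a ha
  have hj := h.jet_at hε hR ha.1
  have ey : (chart V c R).y a = c.ht R a.1 := by simp only [chart, indicator_of_mem ha.1]
  have et : (chart V c R).t a = ft (c.j0 R a.1) a.2 := by simp only [chart, indicator_of_mem ha.1]
  have eq : (chart V c R).q a = fq (c.j0 R a.1) (c.j1 R a.1) (c.ht R a.1) a.2 := by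
    simp only [chart, indicator_of_mem ha.1]
  have hd := dx_P_const hj ha.2.1 e
  rw [← et, ← eq] at hd
  replace hd := hd.trans_eq (show _ = 10 * (_ + ‖(chart V c R).y a‖ ^ 2) * ‖e‖ by rw [ey])
  have := pt_ChJ1 (fderiv ℝ ψ ((chart V c R).x a)) (fderiv ℝ (fderiv ℝ ψ) ((chart V c R).x a))
    ((chart V c R).τ a) (fderiv ℝ W ((chart V c R).x a)) (norm_nonneg _) hp.y_le hp.t_nonneg
    (norm_nonneg e) (abs_real_inner_le_norm _ e) hp.τ_le hp.eh_le (hp.qb e) hd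
    (hj.cf.norm_pr_le e) ((norm_pr_le _ e).trans
      (mul_le_of_le_one_left (norm_nonneg e) (by linarith [h.n1 _ hx]))) (hW' _ hx)
  have e1 : W ((chart V c R).x a) = ψ ((chart V c R).x a) • pr (c.j0 R a.1) e := by rw [hW]; rfl
  rw [Cen.muP, indicator_of_mem ha.1, inner_sp, pr_smul, conj_conj, e1]
  exact this

end Pool.Agent.Lib.MP_8daebb_an.SV.Ch
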