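import Pool.Agent.Lib.MP_8daebb_an.SV.ChJ1

/-! The averaged displacement satisfies the hypotheses of the analytic step. -/

open MeasureTheory Metric Set Complex Filter Topology
open scoped RealInnerProductSpace ComplexConjugate ContDiff ENNReal

namespace Pool.Agent.Lib.MP_8daebb_an.SV.Ch

variable {H : Type*} [NormedAddCommGroup H] [InnerProductSpace ℝ H] [FiniteDimensional ℝ H]
  [MeasurableSpace H] [BorelSpace H]

section aux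

variable {α : Type*} [MeasurableSpace α] {D : CD α H} {R δ M s ρ q : ℝ}
  {F G : Type*} [NormedAddCommGroup F] [NormedSpace ℝ F] [CompleteSpace F]
  [NormedAddCommGroup G] [NormedSpace ℝ G] [CompleteSpace G]

theorem x_le_ChJ2 (h : CV D 0 R δ M) : ∀ᵐ a ∂D.m, ‖D.x a‖ ≤ R :=
  h.car.mono fun _ ha => (mem_ball_zero_iff.1 ha).le

theorem smooth_ChJ2 (h : CV D 0 R δ M) {f : α → F} (hf : Integrable f D.m) (ρ q : ℝ) :
    ContDiff ℝ ∞ fun u => q • D.av ρ f u :=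
  (contDiff_infty.2 fun n => conv_contDiff h.m_x (x_le_ChJ2 h) hf n
    (contDiff_infty.1 (kr_contDiff ρ) n)).const_smul q

theorem core_ChJ2 (h : CV D 0 R δ M) (hs : Sm D s ρ) (hρ : ρ ≤ 1 / 2) (hq0 : 0 ≤ q) (hq1 : q ≤ 1)
    (T : F →L[ℝ] G) {f : α → F} {f' : α → G} (hf : Integrable f D.m) (hf' : Integrable f' D.m)
    (u : ℂ) (hb : ∀ a ∈ D.G, a ∈ D.cyl u ρ → ‖T (f a) - f' a‖ ≤ ρ * ‖D.y a‖) :
    ‖T (q • D.av ρ f u) - q • D.av ρ f' u‖ ≤ Ck * M * ρ * s ^ 2 := by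
  have hρ0 := hs.ρ_pos
  have := h.fin
  have i1 := (h.av_smooth hρ0 hf).2.2.1 u
  have i2 := (h.av_smooth hρ0 hf').2.2.1 u
  have e : T (D.av ρ f u) - D.av ρ f' u = D.av ρ (fun a => T (f a) - f' a) u := by
    simp only [CD.av]
    rw [← T.integral_comp_comm i1, ← integral_sub (T.integrable_comp i1) i2]
    simp only [map_smul, smul_sub]
  have h1 := (h.norm_av_le hρ0 (f := fun a => T (f a) - f' a) (g := fun _ => ρ * s ^ 2)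
    (integrable_const _) u (by
      filter_upwards [h.ae_G, hs.y_le] with a h1 h2 h3
      exact (hb a h1 h3).trans (mul_le_mul_of_nonneg_left h2 hρ0.le))).1
  have h2 : D.av ρ (fun _ => ρ * s ^ 2) u = D.av ρ (fun _ => (1 : ℝ)) u * (ρ * s ^ 2) := by
    simp only [CD.av, smul_eq_mul, mul_one]
    rw [integral_mul_const]
  have h3 := mul_le_mul_of_nonneg_right (hs.av_le h hρ u).1 (by positivity : 0 ≤ ρ * s ^ 2)
  rw [map_smul, ← smul_sub, e, norm_smul, Real.norm_of_nonneg hq0]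
  have h4 := mul_le_mul_of_nonneg_right hq1 (norm_nonneg (D.av ρ (fun a => T (f a) - f' a) u))
  linarith

theorem fd_ChJ2 {f : ℂ → F} (hf : Differentiable ℝ f) (u z : ℂ) :
    fderiv ℝ (fun z => f (u - z)) z = -fderiv ℝ f (u - z) := by
  have := ((hf (u - z)).hasFDerivAt.comp z ((hasFDerivAt_id z).const_sub u)).fderiv
  rw [ContinuousLinearMap.comp_neg, ContinuousLinearMap.comp_id] at this
  exact this

theorem kr2_ChJ2 (ρ : ℝ) : ContDiff ℝ 2 (fderiv ℝ (kr ρ)) :=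
  (contDiff_infty.1 (kr_contDiff ρ) 3).fderiv_right (m := 2) (by norm_num)

theorem kr1_ChJ2 (ρ : ℝ) : ContDiff ℝ 1 (fderiv ℝ (fderiv ℝ (kr ρ))) :=
  (kr2_ChJ2 ρ).fderiv_right (m := 1) (by norm_num)

theorem d1_ChJ2 (ρ : ℝ) (u z : ℂ) :
    fderiv ℝ (fun z => kr ρ (u - z)) z = -fderiv ℝ (kr ρ) (u - z) :=
  fd_ChJ2 ((kr_contDiff ρ).differentiable (by simp)) u z

theorem d2_ChJ2 (ρ : ℝ) (u z : ℂ) :
    fderiv ℝ (fderiv ℝ fun z => kr ρ (u - z)) z = fderiv ℝ (fderiv ℝ (kr ρ)) (u - z) := by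
  rw [funext (d1_ChJ2 ρ u), fderiv_fun_neg,
    fd_ChJ2 ((kr2_ChJ2 ρ).differentiable (by norm_num)) u z, neg_neg]

theorem jac_ChJ2 (h : CV D 0 R δ M) (hρ : 0 < ρ) {p : α → EC H} (hp : Integrable p D.m) (q : ℝ)
    (u : ℂ) (e : H) :
    ⟪lap (fun u => q • D.av ρ D.y u) u + (4 : ℝ) • sp (dz (fun u => q • D.av ρ p u) u) 1, e⟫ =
      q * ∫ a, (SV.lap (fun z => kr ρ (u - z)) (D.x a) * ⟪D.y a, e⟫ -
        2 * ⟪sp (p a) (conj (grad (fun z => kr ρ (u - z)) (D.x a))), e⟫) ∂D.m := by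
  have hy := h.integrable_t.2.2.2.2.2
  obtain ⟨y1, -, -, -, y5⟩ := h.av_smooth hρ hy
  obtain ⟨p1, -, -, p4, -⟩ := h.av_smooth hρ hp
  have iy : ∀ v, Integrable
      (fun a => fderiv ℝ (fderiv ℝ (kr ρ)) (u - D.x a) v v • D.y a) D.m := fun v =>
    (conv_hasFDerivAt h.m_x (x_le_ChJ2 h) hy
      (g := fun w => fderiv ℝ (fderiv ℝ (kr ρ)) w v v)
      (((kr1_ChJ2 ρ).clm_apply contDiff_const).clm_apply contDiff_const) u).1
  have ip := (conv_hasFDerivAt h.m_x (x_le_ChJ2 h) hp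
    (contDiff_infty.1 (kr_contDiff ρ) 1) u).2.1
  have is : ∀ v, Integrable (fun a => fderiv ℝ (kr ρ) (u - D.x a) v • sp (p a) v) D.m := fun v => by
    simpa using (sp.flip v).integrable_comp (ip v)
  have es : ∀ v, sp (fderiv ℝ (fun u => q • D.av ρ p u) u v) v =
      q • ∫ a, fderiv ℝ (kr ρ) (u - D.x a) v • sp (p a) v ∂D.m := fun v => by
    rw [fderiv_fun_const_smul (p1.differentiable (by norm_num) u),
      _root_.smul_apply, p4, map_smul, _root_.smul_apply]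
    congr 1
    simpa using ((sp.flip v).integral_comp_comm (ip v)).symm
  have e1 : lap (fun u => q • D.av ρ D.y u) u = q • lap (D.av ρ D.y) u :=
    lap_clm (q • ContinuousLinearMap.id ℝ H) y1.contDiffAt
  have e2 : (4 : ℝ) • sp (dz (fun u => q • D.av ρ p u) u) 1 =
      (2 : ℝ) • (sp (fderiv ℝ (fun u => q • D.av ρ p u) u 1) 1 -
        sp (fderiv ℝ (fun u => q • D.av ρ p u) u I) I) := by
    rw [dz, sp_smul, map_sub, _root_.sub_apply, sp_smul, d1, d2,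
      show (1 / 2 * 1 : ℂ) = (1 / 2 : ℝ) • (1 : ℂ) by simp,
      show I * (1 / 2 : ℝ) • (1 : ℂ) = (1 / 2 : ℝ) • I by simp [mul_comm], map_smul, map_smul,
      ← smul_sub, smul_smul]
    norm_num
  have i1 : Integrable (fun a => fderiv ℝ (fderiv ℝ (kr ρ)) (u - D.x a) 1 1 • D.y a +
      fderiv ℝ (fderiv ℝ (kr ρ)) (u - D.x a) I I • D.y a) D.m := (iy 1).add (iy I)
  have i2 : Integrable (fun a => (2 : ℝ) • (fderiv ℝ (kr ρ) (u - D.x a) 1 • sp (p a) 1 -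
      fderiv ℝ (kr ρ) (u - D.x a) I • sp (p a) I)) D.m := ((is 1).sub (is I)).smul (2 : ℝ)
  have i3 : Integrable (fun a => (fderiv ℝ (fderiv ℝ (kr ρ)) (u - D.x a) 1 1 • D.y a +
      fderiv ℝ (fderiv ℝ (kr ρ)) (u - D.x a) I I • D.y a) +
      (2 : ℝ) • (fderiv ℝ (kr ρ) (u - D.x a) 1 • sp (p a) 1 -
      fderiv ℝ (kr ρ) (u - D.x a) I • sp (p a) I)) D.m := i1.add i2
  rw [e1, e2, es, es, lap_eq y1.contDiffAt, y5, y5, ← smul_sub, smul_comm, ← smul_add,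
    ← integral_add (iy 1) (iy I), ← integral_sub (is 1) (is I), ← integral_smul,
    ← integral_add i1 i2, real_inner_smul_left, real_inner_comm, ← integral_inner i3]
  congr 1
  refine integral_congr_ae (Eventually.of_forall fun a => ?_)
  have e3 : conj (grad (fun z => kr ρ (u - z)) (D.x a)) =
      fderiv ℝ (kr ρ) (u - D.x a) I • I - fderiv ℝ (kr ρ) (u - D.x a) 1 • (1 : ℂ) := by
    simp only [grad, d1_ChJ2, _root_.neg_apply, map_add, map_mul, conj_ofReal,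
      conj_I, real_smul, ofReal_neg, map_neg]
    ring
  simp only [SV.lap, d2_ChJ2, e3, map_sub, map_smul, Pi.add_apply, Pi.smul_apply, Pi.sub_apply,
    inner_add_right, inner_sub_right, inner_sub_left, inner_smul_right, real_inner_smul_left,
    real_inner_comm e]
  ring

theorem rhs_ChJ2 (h : CV D 0 R δ M) (hs : Sm D s ρ) (hρ : ρ ≤ 1 / 2) (u : ℂ) :
    ∫ a, (D.en a * (‖fderiv ℝ (fun z => kr ρ (u - z)) (D.x a)‖ + |kr ρ (u - D.x a)|) +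
      ‖D.y a‖ * D.t a * ‖fderiv ℝ (fderiv ℝ fun z => kr ρ (u - z)) (D.x a)‖) ∂D.m ≤
      3 * Ck * ρ * s ^ 2 := by
  have hρ0 := hs.ρ_pos
  have hs0 := hs.s_pos
  have hC : 0 ≤ Ck := zero_le_one.trans one_le_Ck
  have hρ1 : ρ ≤ 1 := by linarith
  have hs1 : s ≤ 1 := hs.s_le.trans (pow_le_one₀ hρ0.le hρ1)
  have h1 : ∫ a, (D.en a * (‖fderiv ℝ (fun z => kr ρ (u - z)) (D.x a)‖ + |kr ρ (u - D.x a)|) +
      ‖D.y a‖ * D.t a * ‖fderiv ℝ (fderiv ℝ fun z => kr ρ (u - z)) (D.x a)‖) ∂D.m ≤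
      ∫ a, D.en a * (3 * (Ck / ρ ^ 4)) ∂D.m := by
    refine integral_mono_of_nonneg ?_ (h.integrable_t.2.2.2.1.mul_const _) ?_
    · filter_upwards [h.ae_G] with a ha
      have := (h.pw a ha).t_nonneg
      simp only [CD.en, Pi.zero_apply]
      positivity
    · filter_upwards [h.ae_G, hs.y_le] with a ha hy
      have ht := (h.pw a ha).t_nonneg
      obtain ⟨k0, k1, k2⟩ := kr_le hρ0 (u - D.x a)
      have b0 : Ck / ρ ^ 2 ≤ Ck / ρ ^ 4 :=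
        div_le_div_of_nonneg_left hC (by positivity) (pow_le_pow_of_le_one hρ0.le hρ1 (by norm_num))
      have b1 : Ck / ρ ^ 3 ≤ Ck / ρ ^ 4 :=
        div_le_div_of_nonneg_left hC (by positivity) (pow_le_pow_of_le_one hρ0.le hρ1 (by norm_num))
      have he : D.t a ≤ D.en a := le_add_of_nonneg_right (sq_nonneg _)
      have hyt : ‖D.y a‖ * D.t a ≤ D.en a :=
        (mul_le_of_le_one_left ht (hy.trans (pow_le_one₀ hs0.le hs1))).trans he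
      rw [d1_ChJ2, d2_ChJ2, norm_neg, abs_of_nonneg (kr_nonneg _ _)]
      have c1 := mul_le_mul_of_nonneg_left (add_le_add (k1.trans b1) (k0.trans b0)) (ht.trans he)
      have c2 := mul_le_mul hyt k2 (ContinuousLinearMap.opNorm_nonneg _) (ht.trans he)
      linarith
  rw [integral_mul_const] at h1
  refine h1.trans ((mul_le_mul_of_nonneg_right hs.en_le (by positivity)).trans ?_)
  have h2 : s ^ 2 ≤ ρ * ρ ^ 4 :=
    ((pow_le_of_le_one hs0.le hs1 two_ne_zero).trans hs.s_le).trans (by ring_nf; rfl)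
  have h3 : s ^ 2 / ρ ^ 4 ≤ ρ := (div_le_iff₀ (by positivity)).2 h2
  calc s ^ 4 * (3 * (Ck / ρ ^ 4)) = 3 * Ck * (s ^ 2 / ρ ^ 4) * s ^ 2 := by ring
    _ ≤ 3 * Ck * ρ * s ^ 2 := by gcongr

theorem coreB_ChJ2 (h : CV (D.resB 0 R) 0 R δ M) (hs : Sm (D.resB 0 R) s ρ) (hρ : ρ ≤ 1 / 2)
    (hq0 : 0 ≤ q) (hq1 : q ≤ 1) (T : F →L[ℝ] G) {f : α → F} {f' : α → G}
    (hf : Integrable f (D.resB 0 R).m) (hf' : Integrable f' (D.resB 0 R).m)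
    (u : ℂ) (hb : ∀ a ∈ D.G, ‖D.x a - u‖ < ρ → ‖T (f a) - f' a‖ ≤ ρ * ‖D.y a‖) :
    ‖T (q • (D.resB 0 R).av ρ f u) - q • (D.resB 0 R).av ρ f' u‖ ≤ Ck * M * ρ * s ^ 2 :=
  core_ChJ2 h hs hρ hq0 hq1 T hf hf' u hb

theorem intB_ChJ2 (h : CV (D.resB 0 R) 0 R δ M) {f : α → F}
    (hf : AEStronglyMeasurable f (D.resB 0 R).m) (B : ℝ) (hB : ∀ a ∈ D.G, ‖f a‖ ≤ B) :
    Integrable f (D.resB 0 R).m := h.integrable hf B fun a ha _ => hB a ha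

theorem intY_ChJ2 (h : CV (D.resB 0 R) 0 R δ M) : Integrable D.y (D.resB 0 R).m :=
  h.integrable_t.2.2.2.2.2

theorem last_ChJ2 (h : CV (D.resB 0 R) 0 R δ M) (hs : Sm (D.resB 0 R) s ρ) (hρ : ρ ≤ 1 / 2)
    (hq0 : 0 ≤ q) (hq1 : q ≤ 1) {p : α → EC H} (hp : Integrable p (D.resB 0 R).m) {u : ℂ}
    (hu : ‖u‖ + 2 * ρ ≤ R) {ψ : ℂ → ℝ} (hψ : ψ = fun z => kr ρ (u - z))
    (j : ∀ e : H, |∫ a, (SV.lap ψ (D.x a) * ⟪D.y a, e⟫ -
        2 * ⟪sp (p a) (conj (grad ψ (D.x a))), e⟫) ∂D.m| ≤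
      50 * ‖e‖ * ∫ a, (D.en a * (‖fderiv ℝ ψ (D.x a)‖ + |ψ (D.x a)|) +
        ‖D.y a‖ * D.t a * ‖fderiv ℝ (fderiv ℝ ψ) (D.x a)‖) ∂D.m) :
    ‖lap (fun u => q • (D.resB 0 R).av ρ D.y u) u +
      (4 : ℝ) • sp (dz (fun u => q • (D.resB 0 R).av ρ p u) u) 1‖ ≤ 150 * Ck * ρ * s ^ 2 := by
  subst hψ
  have hρ0 := hs.ρ_pos
  have hC : 0 ≤ Ck := zero_le_one.trans one_le_Ck
  have z : ∀ a, a ∉ D.cyl 0 R → ρ ≤ ‖u - D.x a‖ := fun a ha => by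
    have : R ≤ ‖D.x a‖ := by simpa [CD.cyl] using ha
    linarith [norm_sub_norm_le (D.x a) u, norm_sub_rev (D.x a) u]
  have key : ∀ e : H, ⟪lap (fun u => q • (D.resB 0 R).av ρ D.y u) u +
      (4 : ℝ) • sp (dz (fun u => q • (D.resB 0 R).av ρ p u) u) 1, e⟫ ≤
      150 * Ck * ρ * s ^ 2 * ‖e‖ := fun e => by
    have j := j e
    rw [← setIntegral_eq_integral_of_forall_compl_eq_zero (s := D.cyl 0 R)
      (fun a ha => by simp [SV.lap, grad, d1_ChJ2, d2_ChJ2, kr_zero hρ0 (z a ha)]),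
      ← setIntegral_eq_integral_of_forall_compl_eq_zero (s := D.cyl 0 R)
      (f := fun a => D.en a * _ + _) (fun a ha => by
        obtain ⟨k0, k1, k2⟩ := kr_zero hρ0 (z a ha)
        rw [d1_ChJ2, d2_ChJ2, k1, k2, ContinuousLinearMap.opNorm_zero]
        simp [k0])] at j
    have j2 := j.trans (mul_le_mul_of_nonneg_left (rhs_ChJ2 h hs hρ u) (by positivity))
    refine (jac_ChJ2 h hρ0 hp q u e).trans_le ((le_abs_self _).trans ?_)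
    rw [abs_mul, abs_of_nonneg hq0]
    refine (mul_le_of_le_one_left (abs_nonneg _) hq1).trans (j2.trans_eq ?_)
    ring
  have h2 := key (lap (fun u => q • (D.resB 0 R).av ρ D.y u) u +
      (4 : ℝ) • sp (dz (fun u => q • (D.resB 0 R).av ρ p u) u) 1)
  rw [real_inner_self_eq_norm_mul_norm] at h2
  by_contra h3
  have h4 : 0 ≤ 150 * Ck * ρ * s ^ 2 := by positivity
  exact h3 (le_of_mul_le_mul_right h2 (h4.trans_lt (not_le.1 h3)))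

end aux

omit [MeasurableSpace H] [BorelSpace H] in
theorem mu_sub_ChJ2 {Φ Ψ Φ₁ Ψ₁ : EC H} (h : Cf Φ) (h' : Cf Ψ) {ε r : ℝ} (hε : ε ≤ 1 / 100)
    (hr : 0 ≤ r) (h0 : ‖Φ - Ψ‖ ≤ ε * r) (h1 : ‖Φ₁ - Ψ₁‖ ≤ ε * r) (h2 : ‖Ψ₁‖ ≤ ε) (y : H) :
    ‖mu Φ Φ₁ y - mu Ψ Ψ₁ y‖ ≤ r * ‖y‖ := by
  have hε0 : 0 ≤ ε := (norm_nonneg _).trans h2
  have a0 := h.om_low
  have b0 := h'.om_low
  have e : mu Φ Φ₁ y - mu Ψ Ψ₁ y =
      mu Φ (Φ₁ - Ψ₁) y + ((om Φ)⁻¹ * (om Ψ - om Φ)) • mu Ψ Ψ₁ y := by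
    have e1 : (om Φ)⁻¹ * (om Ψ - om Φ) * (om Ψ)⁻¹ = (om Φ)⁻¹ - (om Ψ)⁻¹ := by
      field_simp
    rw [mu, mu, mu, smul_smul, e1, map_sub, _root_.sub_apply, smul_sub, sub_smul]
    abel
  have c1 : ‖mu Φ (Φ₁ - Ψ₁) y‖ ≤ 5 / 2 * (ε * r) * ‖y‖ :=
    (h.norm_mu_le _ _).trans (by gcongr)
  have c2 : ‖mu Ψ Ψ₁ y‖ ≤ 5 / 2 * ε * ‖y‖ := (h'.norm_mu_le _ _).trans (by gcongr)
  have c3 : |om Ψ - om Φ| ≤ 3 * (ε * r) := by
    rw [abs_sub_comm]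
    linarith [h.om_sub h']
  have c4 : |(om Φ)⁻¹| ≤ 2 := by
    rw [abs_of_nonneg (by positivity)]
    exact inv_le_of_inv_le₀ (by norm_num) (by linarith)
  have c5 : ‖((om Φ)⁻¹ * (om Ψ - om Φ)) • mu Ψ Ψ₁ y‖ ≤ 2 * (3 * (ε * r)) * (5 / 2 * ε * ‖y‖) := by
    rw [norm_smul, Real.norm_eq_abs, abs_mul]
    gcongr
  have c6 : 0 ≤ r * ‖y‖ := by positivity
  have c7 : ε * (r * ‖y‖) ≤ 1 / 100 * (r * ‖y‖) := by gcongr
  have c8 : ε * (ε * (r * ‖y‖)) ≤ 1 / 100 * (ε * (r * ‖y‖)) := by gcongr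
  rw [e]
  refine (norm_add_le _ _).trans ?_
  nlinarith

section pt

variable {V : Measure (H × (H →L[ℝ] H))} {ι : ℂ →ₗᵢ[ℝ] H} {c : Cen H} {ε R : ℝ}
  {a : H × (H →L[ℝ] H)}

theorem tube_ChJ2 (ha : a ∈ (chart V c R).G) : a.1 ∈ c.tube R := ha.1

theorem x_ChJ2 : (chart V c R).x a = c.foot R a.1 := rfl

theorem y_ChJ2 (ha : a.1 ∈ c.tube R) : (chart V c R).y a = c.ht R a.1 :=
  indicator_of_mem (s := c.dom R) ha fun a : H × (H →L[ℝ] H) => c.ht R a.1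

theorem muA_ChJ2 (ha : a.1 ∈ c.tube R) :
    c.muA R a = mu (c.j0 R a.1) (c.j1 R a.1) (c.ht R a.1) :=
  indicator_of_mem (s := c.dom R) ha _

theorem muP_ChJ2 (ha : a.1 ∈ c.tube R) :
    c.muP R a = mu (c.j0 R a.1) (c.j1 R a.1) (c.ht R a.1) • c.j0 R a.1 :=
  indicator_of_mem (s := c.dom R) ha _

theorem pt_ChJ2 (h : Pre ι c ε R) (hε : ε ≤ 1 / 100) (hR : R ≤ 2) (hG : a ∈ (chart V c R).G)
    {u : ℂ} (hu : u ∈ ball (0 : ℂ) R) {ρ : ℝ} (hc : ‖(chart V c R).x a - u‖ < ρ) :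
    ‖pr (c.Φ u) ((chart V c R).y a) - 0‖ ≤ ρ * ‖(chart V c R).y a‖ ∧
    ‖mu (c.Φ u) (deriv c.Φ u) ((chart V c R).y a) - c.muA R a‖ ≤ ρ * ‖(chart V c R).y a‖ ∧
    ‖c.muA R a • c.Φ u - c.muP R a‖ ≤ ρ * ‖(chart V c R).y a‖ := by
  have ha := tube_ChJ2 hG
  have hε0 := h.eps_nonneg
  have hJ := h.jet_at hε hR ha
  have hρ : 0 ≤ ρ := (norm_nonneg _).trans hc.le
  rw [x_ChJ2, norm_sub_rev] at hc
  have l0 : ‖c.Φ u - c.j0 R a.1‖ ≤ ε * ρ :=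
    (h.lip0 hu (Cen.foot_spec ha).1).trans (mul_le_mul_of_nonneg_left hc.le hε0)
  have l1 : ‖deriv c.Φ u - c.j1 R a.1‖ ≤ ε * ρ :=
    (h.lip1 hu (Cen.foot_spec ha).1).trans (mul_le_mul_of_nonneg_left hc.le hε0)
  rw [y_ChJ2 ha, muA_ChJ2 ha, muP_ChJ2 ha]
  refine ⟨?_, mu_sub_ChJ2 (h.cf hε hu) hJ.cf hε hρ l0 l1 hJ.n1 _, ?_⟩
  · rw [← hJ.nor, ← _root_.sub_apply, ← map_sub]
    refine (norm_pr_le _ _).trans (mul_le_mul_of_nonneg_right ?_ (norm_nonneg _))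
    nlinarith
  · rw [← smul_sub, norm_smul]
    refine (mul_le_mul hJ.mu_le l0 (norm_nonneg _) (by positivity)).trans ?_
    have c6 : 0 ≤ ρ * ‖c.ht R a.1‖ := by positivity
    have c7 : ε * ε ≤ 1 / 100 * (1 / 100) := by gcongr
    nlinarith

theorem bd_ChJ2 (h : Pre ι c ε R) (hε : ε ≤ 1 / 100) (hR : R ≤ 2) (hG : a ∈ (chart V c R).G) :
    ‖c.muA R a‖ ≤ 3 / 100 ∧ ‖c.muP R a‖ ≤ 3 / 100 * (3 / 4) := by
  have ha := tube_ChJ2 hG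
  have hJ := h.jet_at hε hR ha
  rw [muA_ChJ2 ha, muP_ChJ2 ha, norm_smul]
  exact ⟨hJ.mu_small, mul_le_mul hJ.mu_small hJ.cf.norm_le (norm_nonneg _) (by norm_num)⟩

end pt

theorem av_bounds (M : ℝ) : ∃ C : ℝ, 1 ≤ C ∧ ∀ (V : Measure (H × (H →L[ℝ] H))) (ι : ℂ →ₗᵢ[ℝ] H)
    (c : Cen H) (ε R θ η R₁ s ρ q : ℝ), Pre ι c ε R → R ≤ 2 → EV V ι M θ η →
    1000 * (ε + η) ≤ 1 / 2 → 0 < R₁ → R₁ ≤ R → Sm ((chart V c R).resB 0 R₁) s ρ → ρ ≤ 1 / 2 → 0 ≤ q → q ≤ 1 →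
    ∀ (J : ℂ → H) (g : ℂ → ℂ) (k : ℂ → EC H), (J = fun u => q • ((chart V c R).resB 0 R₁).av ρ (chart V c R).y u) →
    (g = fun u => q • ((chart V c R).resB 0 R₁).av ρ (c.muA R) u) → (k = fun u => q • ((chart V c R).resB 0 R₁).av ρ (c.muP R) u) →
    ContDiff ℝ ∞ J ∧ ContDiff ℝ ∞ g ∧ ContDiff ℝ ∞ k ∧ ∀ u : ℂ, ‖u‖ + 2 * ρ ≤ R₁ →
      ‖pr (c.Φ u) (J u)‖ ≤ C * ρ * s ^ 2 ∧
      ‖g u - mu (c.Φ u) (deriv c.Φ u) (J u)‖ ≤ C * ρ * s ^ 2 ∧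
      ‖g u • c.Φ u - k u‖ ≤ C * ρ * s ^ 2 ∧
      ‖lap J u + (4 : ℝ) • sp (dz k u) 1‖ ≤ C * ρ * s ^ 2 := by
  have hC := one_le_Ck
  have hM0 : 0 ≤ Ck * (10 * |M|) := by positivity
  refine ⟨150 * Ck + Ck * (10 * |M|), by linarith, ?_⟩
  rintro V ι c ε R θ η R₁ s ρ q h hR hV hδ hR₁ hRR hs hρ hq0 hq1 J g k rfl rfl rfl
  have hε0 := h.eps_nonneg
  have hη0 := ev_eps_nonneg hV
  have hε : ε ≤ 1 / 100 := by linarith
  have hρ0 := hs.ρ_pos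
  have hR0 : 0 < R := hR₁.trans_le hRR
  have h1 := (h.cv hε hR hR0 hV (by linarith) hδ).resB le_rfl (c' := 0) hR₁ (by simpa using hRR)
  have iy := intY_ChJ2 h1
  have iA := intB_ChJ2 h1 (h.meas_mu hε hR).1.aestronglyMeasurable _ fun a ha =>
    (bd_ChJ2 h hε hR ha).1
  have iP := intB_ChJ2 h1 (h.meas_mu hε hR).2.aestronglyMeasurable _ fun a ha =>
    (bd_ChJ2 h hε hR ha).2
  refine ⟨smooth_ChJ2 h1 iy ρ q, smooth_ChJ2 h1 iA ρ q, smooth_ChJ2 h1 iP ρ q, fun u hu => ?_⟩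
  have hu' : u ∈ ball (0 : ℂ) R := mem_ball_zero_iff.2 (by linarith)
  have hρs : 0 ≤ ρ * s ^ 2 := by positivity
  have fin : Ck * (10 * M) * ρ * s ^ 2 ≤ (150 * Ck + Ck * (10 * |M|)) * ρ * s ^ 2 := by
    have : Ck * (10 * M) ≤ Ck * (10 * |M|) := by gcongr; exact le_abs_self M
    gcongr
    linarith
  refine ⟨le_trans ?_ fin, le_trans ?_ fin, le_trans ?_ fin, ?_⟩
  · have := coreB_ChJ2 h1 hs hρ hq0 hq1 (pr (c.Φ u)) iy (integrable_zero _ ℂ _) u fun a ha hc =>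
      (pt_ChJ2 h hε hR ha hu' hc).1
    simpa [CD.av] using this
  · rw [norm_sub_rev]
    exact coreB_ChJ2 h1 hs hρ hq0 hq1 ((om (c.Φ u))⁻¹ • pr (deriv c.Φ u)) iy iA u fun a ha hc =>
      (pt_ChJ2 h hε hR ha hu' hc).2.1
  · exact coreB_ChJ2 h1 hs hρ hq0 hq1 (sm (c.Φ u)) iA iP u fun a ha hc =>
      (pt_ChJ2 h hε hR ha hu' hc).2.2
  · have h3 := last_ChJ2 h1 hs hρ hq0 hq1 iP hu rfl fun e => h.jacobi hR0 hR hV hδ
      (ψ := fun z => kr ρ (u - z))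
      ((contDiff_infty.1 (kr_contDiff ρ) 2).comp (contDiff_const.sub contDiff_id))
      (R' := ‖u‖ + ρ) (by linarith) (fun w hw => (kr_zero hρ0 (u := u - w) (by
        linarith [norm_sub_norm_le w u, norm_sub_rev w u])).1) e
    nlinarith [mul_nonneg hM0 hρs]

end Pool.Agent.Lib.MP_8daebb_an.SV.Ch
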