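import Pool.Agent.Lib.MP_8daebb_an.SV.ChC2

/-! The average in the new chart. -/

open MeasureTheory Metric Set Complex Filter Topology
open scoped RealInnerProductSpace ComplexConjugate ContDiff ENNReal

namespace Pool.Agent.Lib.MP_8daebb_an.SV.Ch

variable {H : Type*} [NormedAddCommGroup H] [InnerProductSpace ℝ H] [FiniteDimensional ℝ H]
  [MeasurableSpace H] [BorelSpace H]

theorem split_ChJ3 {α : Type*} [MeasurableSpace α] {D : CD α H} {c : ℂ} {R δ M : ℝ}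
    (h : CV D c R δ M) {ρ : ℝ} (hρ : 0 < ρ) {f : α → H} (hf : Integrable f D.m) (S : H) (u : ℂ)
    {E : ℝ} (hE : ∀ᵐ a ∂D.m, a ∈ D.cyl u ρ → ‖D.y a - f a + S‖ ≤ E) :
    ‖D.av ρ D.y u - D.av ρ f u + D.av ρ (fun _ => (1 : ℝ)) u • S‖ ≤
      E * D.av ρ (fun _ => (1 : ℝ)) u := by
  have := h.fin
  have i1 := (h.av_smooth hρ h.integrable_t.2.2.2.2.2).2.2.1 u
  have i2 := (h.av_smooth hρ hf).2.2.1 u
  have i3 := (h.av_smooth hρ (integrable_const S)).2.2.1 u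
  have e1 : D.av ρ (fun _ => (1 : ℝ)) u • S = ∫ a, kr ρ (u - D.x a) • S ∂D.m := by
    rw [integral_smul_const]
    simp [CD.av]
  have e2 : D.av ρ (fun _ => E) u = E * D.av ρ (fun _ => (1 : ℝ)) u := by
    simp only [CD.av, smul_eq_mul, integral_mul_const, mul_one]
    rw [mul_comm]
  have e3 : D.av ρ D.y u - D.av ρ f u + D.av ρ (fun _ => (1 : ℝ)) u • S =
      D.av ρ (fun a => D.y a - f a + S) u := by
    rw [e1, CD.av, CD.av, CD.av, ← integral_sub i1 i2]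
    simp only [smul_add, smul_sub]
    exact (integral_add (i1.sub i2) i3).symm
  rw [e3, ← e2]
  exact (h.norm_av_le hρ (integrable_const E) u hE).1

omit [FiniteDimensional ℝ H] [MeasurableSpace H] [BorelSpace H] in
theorem final_ChJ3 {y' y₁ y S : H} {a' a q γ κ s ρ K L : ℝ} (hq : 1 ≤ q) (hκ : 0 ≤ κ)
    (hs : 0 < s) (hρ : 0 < ρ) (hρ1 : ρ ≤ 1 / 2) (hκρ : κ ≤ ρ) (hsρ : s ^ 3 ≤ ρ) (hK : 0 ≤ K)
    (hL : 0 ≤ L) (hS : ‖S‖ ≤ κ)
    (h1 : ‖y' - y₁ + a' • S‖ ≤ (20 * κ * (κ + s ^ 2) + 3 * κ * ρ) * a')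
    (h2 : ‖y₁ - y‖ ≤ K * s ^ 2 * κ / ρ) (h3 : |a' - a| ≤ K * κ / ρ) (h4 : |a - q| ≤ L * s ^ 3)
    (h5 : ‖S - q⁻¹ • y‖ ≤ γ) :
    ‖y'‖ ≤ (1 + 21 * (q + L + K)) * (γ + κ * (s ^ 2 + κ) / ρ + ρ * κ) := by
  have hγ : 0 ≤ γ := (norm_nonneg _).trans h5
  have hq0 : q ≠ 0 := by positivity
  have e : y' = (y' - y₁ + a' • S) + (y₁ - y) - q • (S - q⁻¹ • y) - (a' - q) • S := by
    rw [smul_sub, smul_smul, mul_inv_cancel₀ hq0, one_smul, sub_smul]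
    abel
  obtain ⟨t, ht⟩ : ∃ t, t = κ / ρ := ⟨_, rfl⟩
  have t0 : 0 ≤ t := by rw [ht]; positivity
  have t1 : t ≤ 1 := by rw [ht]; exact (div_le_one hρ).2 hκρ
  have t2 : κ ≤ t := by rw [ht, le_div_iff₀ hρ]; nlinarith
  rw [mul_div_assoc, ← ht] at h2 h3
  have e' : κ * (s ^ 2 + κ) / ρ = t * (s ^ 2 + κ) := by rw [ht]; ring
  rw [e']
  have h6 : |a' - q| ≤ K * t + L * ρ := by
    have := abs_sub_le a' a q
    have := mul_le_mul_of_nonneg_left hsρ hL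
    linarith
  have h7 : a' ≤ q + L + K := by
    have := (abs_le.1 h6).2
    have := mul_le_mul_of_nonneg_left t1 hK
    have := mul_le_mul_of_nonneg_left hρ1 hL
    linarith
  have n1 : ‖q • (S - q⁻¹ • y)‖ ≤ q * γ := by
    rw [norm_smul, Real.norm_of_nonneg (by linarith)]
    exact mul_le_mul_of_nonneg_left h5 (by linarith)
  have n2 : ‖(a' - q) • S‖ ≤ (K * t + L * ρ) * κ := by
    rw [norm_smul, Real.norm_eq_abs]
    exact mul_le_mul h6 hS (norm_nonneg _) (by positivity)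
  obtain ⟨X, hX⟩ : ∃ X, X = t * (s ^ 2 + κ) := ⟨_, rfl⟩
  obtain ⟨Y, hY⟩ : ∃ Y, Y = ρ * κ := ⟨_, rfl⟩
  obtain ⟨W, hW⟩ : ∃ W, W = q + L + K := ⟨_, rfl⟩
  have X0 : 0 ≤ X := by rw [hX]; positivity
  have Y0 : 0 ≤ Y := by rw [hY]; positivity
  have W0 : 0 ≤ W := by rw [hW]; positivity
  have n3 : (20 * κ * (κ + s ^ 2) + 3 * κ * ρ) * a' ≤ (20 * X + 3 * Y) * W := by
    have b1 : κ * (s ^ 2 + κ) ≤ X := by
      rw [hX]; exact mul_le_mul_of_nonneg_right t2 (by positivity)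
    refine (mul_le_mul_of_nonneg_left (hW ▸ h7) (by positivity)).trans
      (mul_le_mul_of_nonneg_right ?_ W0)
    rw [hY]
    linarith
  have n4 : K * s ^ 2 * t + (K * t + L * ρ) * κ = K * X + L * Y := by rw [hX, hY]; ring
  have n5 : ‖y'‖ ≤ ‖y' - y₁ + a' • S‖ + ‖y₁ - y‖ + ‖q • (S - q⁻¹ • y)‖ + ‖(a' - q) • S‖ := by
    conv_lhs => rw [e]
    exact (norm_sub_le _ _).trans (add_le_add_left
      ((norm_sub_le _ _).trans (add_le_add_left (norm_add_le _ _) _)) _)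
  have m1 : K * X ≤ W * X := mul_le_mul_of_nonneg_right (by linarith) X0
  have m2 : L * Y ≤ W * Y := mul_le_mul_of_nonneg_right (by linarith) Y0
  have m3 : q * γ ≤ W * γ := mul_le_mul_of_nonneg_right (by linarith) hγ
  rw [← hX, ← hY, ← hW]
  have := mul_nonneg W0 X0
  have := mul_nonneg W0 Y0
  have := mul_nonneg W0 hγ
  linarith

omit [BorelSpace H] in
theorem pt_ChJ3 {V : Measure (H × (H →L[ℝ] H))} {ι : ℂ →ₗᵢ[ℝ] H} {c c' : Cen H}
    {ε ε' R R' R₁ κ ρ A : ℝ} (h : Pre ι c ε R) (hε : ε ≤ 1 / 100) (hR : R ≤ 2)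
    (h' : Pre ι c' ε' R') (hε' : ε' ≤ 1 / 100) (hc : Close c c' κ R') (hκ0 : 0 ≤ κ)
    (hκ : κ ≤ 1 / 100) (hroom1 : R' + 4 * κ ≤ R₁) (hR₁ : R₁ ≤ R) {u : ℂ}
    (huB : u ∈ ball (0 : ℂ) R') {a : H × (H →L[ℝ] H)} (hd : a ∈ c'.dom R')
    (hht : ‖c'.ht R' a.1‖ ≤ 1 / 2)
    (ha : a ∈ c.dom R → a ∈ (chart V c R).cyl 0 R₁ → ‖(chart V c R).y a‖ ≤ A)
    (hx : a ∈ (chart V c' R').cyl u ρ) :
    ‖(chart V c' R').y a - (chart V c R).y a + pn (c.Φ u) (c'.F u - c.F u)‖ ≤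
      20 * κ * (κ + A) + 3 * κ * ρ := by
  have hRR : R' ≤ R := by linarith
  have hd' : a.1 ∈ c'.tube R' := hd
  obtain ⟨hp, hf⟩ := cmp_back h hε hR h' hε' hRR hc hκ0 hκ (hroom1.trans hR₁) hd' hht
  have hp' : a ∈ c.dom R := hp
  have hxB := (Cen.foot_spec hd').1
  have hx1 : ‖c'.foot R' a.1 - u‖ < ρ := hx
  have hya : ‖(c.dom R).indicator (fun a => c.ht R a.1) a‖ ≤ A := ha hp' (by
    change ‖c.foot R a.1 - 0‖ < R₁
    have h1 := norm_sub_le (c'.foot R' a.1) (c'.foot R' a.1 - c.foot R a.1)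
    rw [sub_sub_cancel] at h1
    rw [mem_ball_zero_iff] at hxB
    rw [sub_zero]
    linarith)
  rw [indicator_of_mem hp'] at hya
  change ‖(c'.dom R').indicator (fun a => c'.ht R' a.1) a -
    (c.dom R).indicator (fun a => c.ht R a.1) a + _‖ ≤ _
  rw [indicator_of_mem hp', indicator_of_mem hd]
  have b1 := (cmp_near h hε hR h' hε' hRR hc hκ0 hκ hp hd' hf).2.2.2
  have b2 := cmp_lip h hε hR h' hε' hRR hc hκ0 hκ hxB huB
  have b3 := norm_sub_le (c'.ht R' a.1 - c.ht R a.1 +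
      pn (c.Φ (c'.foot R' a.1)) (c'.F (c'.foot R' a.1) - c.F (c'.foot R' a.1)))
    (pn (c.Φ (c'.foot R' a.1)) (c'.F (c'.foot R' a.1) - c.F (c'.foot R' a.1)) -
      pn (c.Φ u) (c'.F u - c.F u))
  rw [add_sub_assoc, sub_sub_cancel] at b3
  have b4 := mul_le_mul_of_nonneg_left hya (by positivity : 0 ≤ 20 * κ)
  have b5 := mul_le_mul_of_nonneg_left hx1.le (by positivity : 0 ≤ 3 * κ)
  exact b3.trans (add_le_add (b1.trans (by linarith only [b4])) (b2.trans b5))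

theorem av_new (M CI : ℝ) (Q : ℕ) : ∃ C : ℝ, 1 ≤ C ∧ ∀ (V : Measure (H × (H →L[ℝ] H)))
    (ι : ℂ →ₗᵢ[ℝ] H) (c c' : Cen H) (ε ε' R R' θ η R₁ s ρ κ γ : ℝ) (N : ℂ → ℕ),
    Pre ι c ε R → R ≤ 2 → EV V ι M θ η → 1000 * (ε + η) ≤ 1 / 2 → Pre ι c' ε' R' →
    ε' ≤ 1 / 100 → Close c c' κ R' → 0 ≤ κ → κ ≤ 1 / 100 → R' + 4 * κ ≤ R₁ → R₁ ≤ R →
    Sm ((chart V c R).resB 0 R₁) s ρ → MQ ((chart V c R).resB 0 R₁) 0 R₁ ρ CI Q N → 1 ≤ Q → ρ ≤ 1 / 2 → κ ≤ ρ ^ 2 / 8 →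
    ∀ u : ℂ, ‖u‖ + 2 * ρ ≤ R' → ‖u‖ + 8 * ρ ≤ R₁ →
    ‖pn (c.Φ u) (c'.F u - c.F u) - (Q : ℝ)⁻¹ • (chart V c R).av ρ (chart V c R).y u‖ ≤ γ →
    ‖(chart V c' R').av ρ (chart V c' R').y u‖ ≤ C * (γ + κ * (s ^ 2 + κ) / ρ + ρ * κ) := by
  have hCk := one_le_Ck
  have hL : 0 ≤ Ck * (2 * max CI 0 + 2) := by positivity
  have hK : 0 ≤ 20 * Ck * (40 * |M|) := by positivity
  refine ⟨1 + 21 * (Q + Ck * (2 * max CI 0 + 2) + 20 * Ck * (40 * |M|)),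
    le_add_of_nonneg_right (by positivity), ?_⟩
  intro V ι c c' ε ε' R R' θ η R₁ s ρ κ γ N h hR hV hs h' hε' hc hκ0 hκ hroom1 hR₁ hsm hmq hQ hρ1
    hκρ u hu hu1 hγ
  have hε0 := h.eps_nonneg
  have hη0 := ev_eps_nonneg hV
  have hε : ε ≤ 1 / 100 := by linarith
  have hη : η ≤ 1 / 100 := by linarith
  have hρ := hsm.ρ_pos
  have hs0 := hsm.s_pos
  have hu0 := norm_nonneg u
  have hRR : R' ≤ R := by linarith
  have hroom : R' + 4 * κ ≤ R := by linarith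
  have hκρ' : 8 * κ ≤ ρ := by nlinarith
  have hsρ : s ≤ ρ := hsm.s_le.trans (pow_le_of_le_one hρ.le (by linarith) (by norm_num))
  have hs2 : s ^ 2 ≤ ρ := (pow_le_of_le_one hs0.le (by linarith) (by norm_num)).trans hsρ
  have hs3 : s ^ 3 ≤ ρ := (pow_le_of_le_one hs0.le (by linarith) (by norm_num)).trans hsρ
  have cv : CV (chart V c R) 0 R (1 / 2) (10 * M) := h.cv hε hR (by linarith) hV hη hs
  have cv' : CV (chart V c' R') 0 R' (1000 * (ε' + η)) (10 * M) :=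
    h'.cv hε' (by linarith) (by linarith) hV hη le_rfl
  have huB : u ∈ ball (0 : ℂ) R' := by rw [mem_ball_zero_iff]; linarith
  have huB' : u ∈ ball (0 : ℂ) R := ball_subset_ball hRR huB
  have hy : ∀ᵐ a ∂(chart V c R).m, a ∈ (chart V c R).cyl 0 R₁ → ‖(chart V c R).y a‖ ≤ s ^ 2 :=
    (ae_restrict_iff' (cv.meas_cyl 0 R₁)).1 hsm.y_le
  have hy2 : ∀ᵐ a ∂(chart V c R).m, a ∈ (chart V c R).cyl u (2 * ρ) →
      ‖(chart V c R).y a‖ ≤ s ^ 2 := by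
    filter_upwards [hy] with a ha hx
    refine ha ?_
    have h1 : ‖(chart V c R).x a - u‖ < 2 * ρ := hx
    have h2 := norm_add_le ((chart V c R).x a - u) u
    rw [sub_add_cancel] at h2
    change ‖(chart V c R).x a - 0‖ < R₁
    rw [sub_zero]
    linarith
  have hB : (chart V c R).m.real ((chart V c R).cyl u (2 * ρ)) ≤ 40 * |M| * ρ ^ 2 := by
    refine (cv.cyl_le (by linarith) ?_).trans (le_of_eq ?_)
    · filter_upwards [hy2] with a ha hx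
      exact (ha hx).trans_lt (by linarith)
    · rw [abs_of_nonneg (ev_M_nonneg hV)]; ring
  have a2 := cmp_av h hε hR h' hε' hRR hc hκ0 hκ hroom hV hη cv.m_y.aestronglyMeasurable hρ
    (by linarith) hκρ' hu (sq_nonneg s) hy2 hB
  have a3 := cmp_av h hε hR h' hε' hRR hc hκ0 hκ hroom hV hη (f := fun _ => (1 : ℝ))
    aestronglyMeasurable_const hρ (by linarith) hκρ' hu zero_le_one
    (Eventually.of_forall fun _ _ => norm_one.le) hB
  rw [mul_one, Real.norm_eq_abs] at a3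
  have ms : MS ((chart V c R).resB 0 R₁) R₁ (1 / 2) (10 * M) s ρ (max CI 0) Q N :=
    ⟨cv.resB le_rfl (by linarith) (by simpa using hR₁), hsm,
      ⟨hmq.mult, fun v hv => (hmq.near v hv).trans (mul_le_mul_of_nonneg_right (le_max_left _ _)
        (integral_nonneg fun a => sq_nonneg _))⟩, hQ⟩
  have a4 := ms.av_one le_rfl hρ1 (le_max_right _ _) hu1
  rw [av_resB cv.m_x hρ (by rw [sub_zero]; linarith)] at a4
  have hyi : Integrable (chart V c R).y (chart V c' R').m := by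
    refine cv'.integrable cv.m_y.aestronglyMeasurable 1 fun a _ _ => ?_
    change ‖(c.dom R).indicator (fun a => c.ht R a.1) a‖ ≤ 1
    by_cases ha : a ∈ c.dom R
    · rw [indicator_of_mem ha]
      have hp : a.1 ∈ c.tube R := ha
      exact (Cen.foot_spec hp).2.2.le
    · rw [indicator_of_notMem ha, norm_zero]
      exact zero_le_one
  have hR' : R' ≤ 2 := hRR.trans hR
  have hsm' : 20 * (ε' + η) ≤ 1 / 2 := by linarith only [hε', hη]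
  have a1 := split_ChJ3 cv' hρ hyi (pn (c.Φ u) (c'.F u - c.F u)) u
    (E := 20 * κ * (κ + s ^ 2) + 3 * κ * ρ) (by
      rw [h'.chart_ae hε' hR']
      filter_upwards [(h.chart_ae hε hR).1 hy, ev_ae_supp hV] with a ha hsp hd hx
      exact pt_ChJ3 h hε hR h' hε' hc hκ0 hκ hroom1 hR₁ huB hd
        ((h'.ht_le_supp hε' hR' hV hη (p := a.1) hd hsp).trans hsm') ha hx)
  exact final_ChJ3 (by exact_mod_cast hQ) hκ0 hs0 hρ hρ1 (by linarith) hs3 hK hL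
    (((h.cf hε huB').norm_pn_le _).trans (hc u huB).1) a1 a2 a3 a4 hγ

end Pool.Agent.Lib.MP_8daebb_an.SV.Ch
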