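import Pool.Agent.Lib.MP_8daebb_an.SV.ChB3

/-! Pointwise facts: the form `τ` and the Jacobian. -/

open MeasureTheory Metric Set Complex Filter Topology
open scoped RealInnerProductSpace ComplexConjugate ContDiff ENNReal

namespace Pool.Agent.Lib.MP_8daebb_an.SV.Ch

variable {H : Type*} [NormedAddCommGroup H] [InnerProductSpace ℝ H] [FiniteDimensional ℝ H]

variable {ε : ℝ} {Φ Φ₁ Φ₂ : EC H} {y : H} {P : H →L[ℝ] H}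

theorem c_ChP1 (h : Jet ε Φ Φ₁ Φ₂ y) : 0 < 1 - ‖mu Φ Φ₁ y‖ ^ 2 ∧
    (1 - ‖mu Φ Φ₁ y‖ ^ 2)⁻¹ ≤ 101 / 100 := by
  have h1 := h.mu_small
  have h2 := norm_nonneg (mu Φ Φ₁ y)
  have h3 : 100 / 101 ≤ 1 - ‖mu Φ Φ₁ y‖ ^ 2 := by nlinarith
  exact ⟨by linarith, (inv_anti₀ (by norm_num) h3).trans (by norm_num)⟩

theorem lin_ChP1 (A : ℂ →L[ℝ] ℂ) (z : ℂ) : A z = z.re * A 1 + z.im * A I := by
  conv_lhs => rw [show z = z.re • (1 : ℂ) + z.im • I by simp]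
  rw [map_add, map_smul, map_smul, real_smul, real_smul]

theorem fτ_apply (h : Jet ε Φ Φ₁ Φ₂ y) (hP : IsPlane 2 P) (v : ℂ) : fτ Φ Φ₁ y P v =
    ((1 - ‖mu Φ Φ₁ y‖ ^ 2)⁻¹ : ℝ) * (a0 Φ P (v - mu Φ Φ₁ y * conj v) +
      mu Φ Φ₁ y * conj (a0 Φ P (v - mu Φ Φ₁ y * conj v))) := by
  rw [show fτ Φ Φ₁ y P v = dx Φ Φ₁ y ((1 - P) (xi Φ Φ₁ y v)) from rfl, dx_apply]
  rfl

theorem dx_P_xi (h : Jet ε Φ Φ₁ Φ₂ y) (hP : IsPlane 2 P) (v : ℂ) :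
    dx Φ Φ₁ y (P (xi Φ Φ₁ y v)) = v - fτ Φ Φ₁ y P v := by
  rw [show fτ Φ Φ₁ y P v = dx Φ Φ₁ y (xi Φ Φ₁ y v - P (xi Φ Φ₁ y v)) from rfl, map_sub, h.dx_xi,
    sub_sub_cancel]

theorem tr_fτ (h : Jet ε Φ Φ₁ Φ₂ y) (hP : IsPlane 2 P) : tr2 (fτ Φ Φ₁ y P) = ft Φ P := by
  obtain ⟨c1, -⟩ := c_ChP1 h
  have e2 : (1 - ‖mu Φ Φ₁ y‖ ^ 2)⁻¹ * (1 - ((mu Φ Φ₁ y).re ^ 2 + (mu Φ Φ₁ y).im ^ 2)) = 1 := by
    rw [show (mu Φ Φ₁ y).re ^ 2 + (mu Φ Φ₁ y).im ^ 2 = ‖mu Φ Φ₁ y‖ ^ 2 by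
      rw [Complex.sq_norm, normSq_apply]; ring, inv_mul_cancel₀ c1.ne']
  rw [tr2, fτ_apply h hP, fτ_apply h hP, ft, tr2, lin_ChP1 _ (1 - _), lin_ChP1 _ (I - _)]
  generalize (1 - ‖mu Φ Φ₁ y‖ ^ 2)⁻¹ = c at e2 ⊢
  simp only [map_mul, map_add, mul_re, mul_im, add_re, add_im, sub_re, sub_im, conj_re, conj_im,
    ofReal_re, ofReal_im, one_re, one_im, I_re, I_im]
  linear_combination ((a0 Φ P 1).re + (a0 Φ P I).im) * e2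

theorem fτ_near (h : Jet ε Φ Φ₁ Φ₂ y) (hP : IsPlane 2 P) (v : ℂ) :
    ‖fτ Φ Φ₁ y P v - a0 Φ P v‖ ≤ 10 * ε * ‖y‖ * ft Φ P * ‖v‖ := by
  obtain ⟨c1, c2⟩ := c_ChP1 h
  have t0 := ft_nonneg hP h.cf
  have e : fτ Φ Φ₁ y P v - a0 Φ P v = ((1 - ‖mu Φ Φ₁ y‖ ^ 2)⁻¹ : ℝ) *
      (mu Φ Φ₁ y * conj (a0 Φ P (v - mu Φ Φ₁ y * conj v)) - a0 Φ P (mu Φ Φ₁ y * conj v) +
        (‖mu Φ Φ₁ y‖ ^ 2 : ℝ) * a0 Φ P v) := by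
    have e2 : (((1 - ‖mu Φ Φ₁ y‖ ^ 2)⁻¹ : ℝ) : ℂ) * (1 - (‖mu Φ Φ₁ y‖ ^ 2 : ℝ)) = 1 := by
      exact_mod_cast inv_mul_cancel₀ c1.ne'
    rw [fτ_apply h hP]
    generalize conj (a0 Φ P (v - mu Φ Φ₁ y * conj v)) = z
    rw [map_sub]
    linear_combination a0 Φ P v * e2
  have m0 := norm_nonneg (mu Φ Φ₁ y)
  have m1 := h.mu_small
  have m2 := h.mu_le
  have n0 : ‖mu Φ Φ₁ y * conj v‖ = ‖mu Φ Φ₁ y‖ * ‖v‖ := by rw [norm_mul, norm_conj]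
  have n1 := norm_a0_le hP h.cf v
  have n2 := norm_a0_le hP h.cf (mu Φ Φ₁ y * conj v)
  have n3 := (norm_a0_le hP h.cf (v - mu Φ Φ₁ y * conj v)).trans
    (mul_le_mul_of_nonneg_left (norm_sub_le _ _) t0)
  rw [n0] at n2 n3
  have tv0 : 0 ≤ ft Φ P * ‖v‖ := by positivity
  have n4 : ‖mu Φ Φ₁ y * conj (a0 Φ P (v - mu Φ Φ₁ y * conj v)) - a0 Φ P (mu Φ Φ₁ y * conj v) +
      (‖mu Φ Φ₁ y‖ ^ 2 : ℝ) * a0 Φ P v‖ ≤ 3 * ‖mu Φ Φ₁ y‖ * (ft Φ P * ‖v‖) := by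
    refine (norm_add_le_of_le (norm_sub_le _ _) le_rfl).trans ?_
    rw [norm_mul, norm_mul, norm_conj, norm_real, Real.norm_of_nonneg (sq_nonneg _)]
    have a1 := mul_le_mul_of_nonneg_left n3 m0
    have a2 := mul_le_mul_of_nonneg_left n1 (sq_nonneg ‖mu Φ Φ₁ y‖)
    have a3 := mul_le_mul_of_nonneg_left m1 (mul_nonneg m0 tv0)
    nlinarith [mul_nonneg m0 tv0]
  rw [e, norm_mul, norm_real, Real.norm_of_nonneg (inv_pos.2 c1).le]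
  refine (mul_le_mul c2 n4 (norm_nonneg _) (by norm_num)).trans ?_
  have a4 := mul_le_mul_of_nonneg_right m2 tv0
  nlinarith [mul_nonneg m0 tv0]

theorem fτ_le (h : Jet ε Φ Φ₁ Φ₂ y) (hP : IsPlane 2 P) : ‖fτ Φ Φ₁ y P‖ ≤ 2 * ft Φ P := by
  have t0 := ft_nonneg hP h.cf
  refine ContinuousLinearMap.opNorm_le_bound _ (by positivity) fun v => ?_
  have a1 := fτ_near h hP v
  have a2 := norm_a0_le hP h.cf v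
  have a3 := norm_le_norm_add_norm_sub' (fτ Φ Φ₁ y P v) (a0 Φ P v)
  have a4 : ε * ‖y‖ ≤ 1 / 100 * 1 := mul_le_mul h.eps1 h.y1 (norm_nonneg _) (by norm_num)
  have tv0 : 0 ≤ ft Φ P * ‖v‖ := by positivity
  nlinarith [mul_le_mul_of_nonneg_right a4 tv0]

theorem fτ_pos (h : Jet ε Φ Φ₁ Φ₂ y) (hP : IsPlane 2 P) (v : ℂ) :
    -(100 * ε * ‖y‖ * ft Φ P * ‖v‖ ^ 2) ≤ om Φ * ⟪fτ Φ Φ₁ y P v, v⟫ := by
  have t0 := ft_nonneg hP h.cf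
  have e0 := h.eps0
  have a1 := mul_le_mul_of_nonneg_right (fτ_near h hP v) (norm_nonneg v)
  have a2 := a0_nonneg hP h.cf v
  have a3 := (abs_le.1 (abs_real_inner_le_norm (fτ Φ Φ₁ y P v - a0 Φ P v) v)).1
  rw [inner_sub_left] at a3
  have a4 : 0 ≤ ε * ‖y‖ * ft Φ P * ‖v‖ ^ 2 := by positivity
  have a5 : -(10 * (ε * ‖y‖ * ft Φ P * ‖v‖ ^ 2)) ≤ ⟪fτ Φ Φ₁ y P v, v⟫ := by nlinarith
  have w1 := h.cf.om_low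
  have w2 := h.cf.om_up
  nlinarith [mul_le_mul_of_nonneg_left a5 (show 0 ≤ om Φ by linarith),
    mul_le_mul_of_nonneg_right w2 a4]

theorem Fr.jac_eq [MeasurableSpace H] [BorelSpace H] {u₁ u₂ : H} (h : Fr P u₁ u₂)
    (D : H →L[ℝ] ℂ) : jac D P = |(conj (D u₁) * D u₂).im| := by
  have e : ∀ v, ((D : H →ₗ[ℝ] ℂ) ∘ₗ (P : H →ₗ[ℝ] H) ∘ₗ LinearMap.adjoint (D : H →ₗ[ℝ] ℂ)) v =
      ⟪D u₁, v⟫ • D u₁ + ⟪D u₂, v⟫ • D u₂ := fun v => by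
    simp only [LinearMap.comp_apply, ContinuousLinearMap.coe_coe, h.eq, map_add, map_smul,
      LinearMap.adjoint_inner_right]
  rw [jac, ← Real.sqrt_sq_eq_abs, ← LinearMap.det_toMatrix basisOneI, Matrix.det_fin_two]
  congr 1
  simp only [LinearMap.toMatrix_apply, e, coe_basisOneI, coe_basisOneI_repr, Matrix.cons_val_zero,
    Matrix.cons_val_one, Complex.inner, add_re, add_im, real_smul, mul_re, mul_im, conj_re, conj_im,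
    ofReal_re, ofReal_im, one_re, one_im, I_re, I_im]
  ring

theorem j0_ChP1 [MeasurableSpace H] [BorelSpace H] (h : Jet ε Φ Φ₁ Φ₂ y) (hP : IsPlane 2 P) :
    ∃ J : ℝ, 0 ≤ J ∧ om Φ * jac (dx Φ Φ₁ y) P = (1 - ‖mu Φ Φ₁ y‖ ^ 2)⁻¹ * J ∧
      2 * J ≤ 2 - ft Φ P ∧ 2 - ft Φ P - ft Φ P ^ 2 ≤ 2 * J := by
  obtain ⟨u₁, u₂, hf⟩ := exists_fr hP
  obtain ⟨c1, -⟩ := c_ChP1 h
  have hw : 0 < om Φ := by linarith [h.cf.om_low]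
  have t0 := ft_nonneg hP h.cf
  have t2 := ft_le hP h.cf
  have s1 := hf.s1 h.cf
  have s2 := pow_le_pow_left₀ (norm_nonneg _) (hf.s2 h.cf) 2
  have s3 := sq_nonneg ‖(om Φ : ℂ) * (tv Φ u₁ ^ 2 + tv Φ u₂ ^ 2)‖
  have e : (2 * (om Φ * |(conj (tv Φ u₁) * tv Φ u₂).im|)) ^ 2 =
      (2 - ft Φ P) ^ 2 - ‖(om Φ : ℂ) * (tv Φ u₁ ^ 2 + tv Φ u₂ ^ 2)‖ ^ 2 := by
    rw [← s1, mul_pow, mul_pow, sq_abs]
    simp only [Complex.sq_norm]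
    simp only [normSq_apply, sq, mul_re, mul_im, add_re, add_im, conj_re, conj_im,
      ofReal_re, ofReal_im]
    ring
  have j0 : 0 ≤ om Φ * |(conj (tv Φ u₁) * tv Φ u₂).im| := by positivity
  refine ⟨_, j0, ?_, ?_, ?_⟩
  · have e1 : (conj (dx Φ Φ₁ y u₁) * dx Φ Φ₁ y u₂).im =
        (1 - ‖mu Φ Φ₁ y‖ ^ 2)⁻¹ * (conj (tv Φ u₁) * tv Φ u₂).im := by
      have e2 : (1 - ‖mu Φ Φ₁ y‖ ^ 2)⁻¹ * (1 - ((mu Φ Φ₁ y).re ^ 2 + (mu Φ Φ₁ y).im ^ 2)) = 1 := by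
        rw [show (mu Φ Φ₁ y).re ^ 2 + (mu Φ Φ₁ y).im ^ 2 = ‖mu Φ Φ₁ y‖ ^ 2 by
          rw [Complex.sq_norm, normSq_apply]; ring, inv_mul_cancel₀ c1.ne']
      rw [dx_apply, dx_apply]
      generalize (1 - ‖mu Φ Φ₁ y‖ ^ 2)⁻¹ = c at e2 ⊢
      simp only [map_mul, map_add, mul_re, mul_im, add_re, add_im, conj_re, conj_im, ofReal_re,
        ofReal_im]
      linear_combination c * ((tv Φ u₁).re * (tv Φ u₂).im - (tv Φ u₁).im * (tv Φ u₂).re) * e2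
    rw [hf.jac_eq, e1, abs_mul, abs_of_pos (inv_pos.2 c1)]
    ring
  · exact (pow_le_pow_iff_left₀ (by positivity) (by linarith) two_ne_zero).1 (by linarith)
  · by_contra hn
    rw [not_le] at hn
    have t1 : ft Φ P ≤ 1 := by nlinarith
    have := pow_lt_pow_left₀ hn (by positivity) two_ne_zero
    nlinarith [mul_nonneg (sq_nonneg (ft Φ P)) (sub_nonneg.2 t1),
      mul_nonneg (mul_nonneg (sq_nonneg (ft Φ P)) (sub_nonneg.2 t1)) t0]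

theorem fj_le [MeasurableSpace H] [BorelSpace H] (h : Jet ε Φ Φ₁ Φ₂ y) (hP : IsPlane 2 P) :
    om Φ * jac (dx Φ Φ₁ y) P ≤ 2 := by
  obtain ⟨J, h0, h1, h2, -⟩ := j0_ChP1 h hP
  have t0 := ft_nonneg hP h.cf
  rw [h1]
  nlinarith [mul_le_mul_of_nonneg_right (c_ChP1 h).2 h0]

theorem fj_t [MeasurableSpace H] [BorelSpace H] (h : Jet ε Φ Φ₁ Φ₂ y) (hP : IsPlane 2 P) :
    |2 - ft Φ P - 2 * (om Φ * jac (dx Φ Φ₁ y) P)| ≤ ft Φ P ^ 2 + 100 * ε * ‖y‖ ^ 2 := by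
  obtain ⟨J, h0, h1, h2, h3⟩ := j0_ChP1 h hP
  obtain ⟨c1, c2⟩ := c_ChP1 h
  have t0 := ft_nonneg hP h.cf
  have e0 := h.eps0
  have e : (1 - ‖mu Φ Φ₁ y‖ ^ 2)⁻¹ * J = J + ‖mu Φ Φ₁ y‖ ^ 2 * ((1 - ‖mu Φ Φ₁ y‖ ^ 2)⁻¹ * J) := by
    field_simp; ring
  have a1 : (1 - ‖mu Φ Φ₁ y‖ ^ 2)⁻¹ * J ≤ 2 := h1 ▸ fj_le h hP
  have a2 : 0 ≤ (1 - ‖mu Φ Φ₁ y‖ ^ 2)⁻¹ * J := by positivity
  have a3 := pow_le_pow_left₀ (norm_nonneg _) h.mu_le 2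
  have a4 : 0 ≤ ε * ‖y‖ ^ 2 := by positivity
  have a5 := mul_le_mul_of_nonneg_right h.eps1 a4
  have a6 := mul_le_mul_of_nonneg_left a1 (sq_nonneg ‖mu Φ Φ₁ y‖)
  have a7 := mul_nonneg (sq_nonneg ‖mu Φ Φ₁ y‖) a2
  rw [h1, e, abs_le]
  constructor <;> nlinarith [sq_nonneg (ft Φ P)]

end Pool.Agent.Lib.MP_8daebb_an.SV.Ch
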