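import Pool.Agent.Lib.MP_8daebb_an.SV.ChD3
import Pool.Agent.Lib.MP_8daebb_an.SV.ChP1

/-! Measurability of the chart data. -/

open MeasureTheory Metric Set Complex Filter Topology
open scoped RealInnerProductSpace ComplexConjugate ContDiff ENNReal

namespace Pool.Agent.Lib.MP_8daebb_an.SV.Ch

variable {H : Type*} [NormedAddCommGroup H] [InnerProductSpace ℝ H] [FiniteDimensional ℝ H]
  [MeasurableSpace H] [BorelSpace H]

variable {V : Measure (H × (H →L[ℝ] H))} {ι : ℂ →ₗᵢ[ℝ] H} {c : Cen H} {ε R M θ η : ℝ}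

section aux

variable {X : Type*} [TopologicalSpace X] {Φ Φ₁ Φ₂ Ψ : X → EC H} {y e : X → H} {Y : X → ℂ}
  {P : X → H →L[ℝ] H}

omit [MeasurableSpace H] [BorelSpace H]

/-- A continuous family of jets. -/
structure CJ_ChM1 (Φ Φ₁ Φ₂ : X → EC H) (y : X → H) : Prop where
  c0 : Continuous Φ
  c1 : Continuous Φ₁
  c2 : Continuous Φ₂
  cy : Continuous y
  om_ne : ∀ a, om (Φ a) ≠ 0
  mu_ne : ∀ a, 1 - ‖mu (Φ a) (Φ₁ a) (y a)‖ ^ 2 ≠ 0

theorem sp_ChM1 (h : Continuous Ψ) : Continuous fun a => sp (Ψ a) := sp.continuous.comp h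

theorem pr_ChM1 (h : Continuous Ψ) : Continuous fun a => pr (Ψ a) := pr.continuous.comp h

theorem ml_ChM1 (h : Continuous Y) : Continuous fun a => ml (Y a) :=
  (ContinuousLinearMap.mul ℝ ℂ).continuous.comp h

theorem sh_ChM1 (h : Continuous Y) : Continuous fun a => sh (Y a) :=
  (ml_ChM1 h).clm_comp continuous_const

theorem conj_ChM1 (h : Continuous Y) : Continuous fun a => conj (Y a) := continuous_conj.comp h

omit [FiniteDimensional ℝ H] in
theorem smulRight_ChM1 {l : X → H →L[ℝ] ℝ} (hl : Continuous l) (h : Continuous Y) :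
    Continuous fun a => (l a).smulRight (Y a) :=
  ((ContinuousLinearMap.smulRightL ℝ H ℂ).continuous.comp hl).clm_apply h

omit [FiniteDimensional ℝ H] in
theorem om_ChM1 (h : Continuous Φ) : Continuous fun a => om (Φ a) :=
  continuous_const.mul (h.norm.pow 2)

theorem trH_ChM1 (h : Continuous P) : Continuous fun a => trH (P a) :=
  (LinearMap.continuous_of_finiteDimensional
    ((LinearMap.trace ℝ H) ∘ₗ (ContinuousLinearMap.coeLM ℝ : (H →L[ℝ] H) →ₗ[ℝ] H →ₗ[ℝ] H))).comp h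

theorem tr2_ChM1 {A : X → ℂ →L[ℝ] ℂ} (h : Continuous A) : Continuous fun a => tr2 (A a) :=
  (continuous_re.comp (h.clm_apply continuous_const)).add
    (continuous_im.comp (h.clm_apply continuous_const))

namespace CJ_ChM1

variable (h : CJ_ChM1 Φ Φ₁ Φ₂ y)
include h

theorem ominv : Continuous fun a => (om (Φ a))⁻¹ := (om_ChM1 h.c0).inv₀ h.om_ne

theorem tv : Continuous fun a => tv (Φ a) := h.ominv.smul (pr_ChM1 h.c0)

theorem mu (h1 : Continuous Ψ) (h2 : Continuous e) : Continuous fun a => mu (Φ a) (Ψ a) (e a) :=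
  h.ominv.smul ((pr_ChM1 h1).clm_apply h2)

theorem muinv : Continuous fun a => (1 - ‖Ch.mu (Φ a) (Φ₁ a) (y a)‖ ^ 2)⁻¹ :=
  (continuous_const.sub ((h.mu h.c1 h.cy).norm.pow 2)).inv₀ h.mu_ne

theorem dx : Continuous fun a => dx (Φ a) (Φ₁ a) (y a) :=
  h.muinv.smul ((continuous_const.add (sh_ChM1 (h.mu h.c1 h.cy))).clm_comp h.tv)

theorem dy : Continuous fun a => dy (Φ a) (Φ₁ a) (y a) :=
  continuous_const.sub ((sp_ChM1 h.c0).clm_comp h.dx)

theorem xi : Continuous fun a => xi (Φ a) (Φ₁ a) (y a) :=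
  (sp_ChM1 h.c0).clm_comp (continuous_const.sub (sh_ChM1 (h.mu h.c1 h.cy)))

theorem al : Continuous fun a => al (Φ a) (Φ₁ a) :=
  (continuous_ofReal.comp (continuous_const.div (om_ChM1 h.c0) h.om_ne)).mul (h.c0.inner h.c1)

theorem dlw : Continuous fun a => dlw (Φ a) (Φ₁ a) (y a) :=
  (continuous_const.clm_comp ((ml_ChM1 h.al).clm_comp h.dx)).const_smul (2 : ℝ)

theorem dmu : Continuous fun a => dmu (Φ a) (Φ₁ a) (Φ₂ a) (y a) :=
  ((smulRight_ChM1 h.dlw (h.mu h.c1 h.cy)).neg.add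
    ((sh_ChM1 (h.mu h.c2 h.cy)).clm_comp h.dx)).add
    (h.ominv.smul ((pr_ChM1 h.c1).clm_comp h.dy))

theorem dtv (he : Continuous e) : Continuous fun a => dtv (Φ a) (Φ₁ a) (y a) (e a) :=
  (smulRight_ChM1 h.dlw (h.tv.clm_apply he)).neg.add ((sh_ChM1 (h.mu h.c1 he)).clm_comp h.dx)

theorem ddx (he : Continuous e) : Continuous fun a => ddx (Φ a) (Φ₁ a) (Φ₂ a) (y a) (e a) :=
  h.muinv.smul ((((continuous_const.add (sh_ChM1 (h.mu h.c1 h.cy))).clm_comp (h.dtv he)).add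
    ((ml_ChM1 (conj_ChM1 (h.tv.clm_apply he))).clm_comp h.dmu)).add
    (smulRight_ChM1 ((continuous_const.clm_comp
      ((ml_ChM1 (conj_ChM1 (h.mu h.c1 h.cy))).clm_comp h.dmu)).const_smul (2 : ℝ))
      (h.dx.clm_apply he)))

theorem Dxi (hY : Continuous Y) : Continuous fun a => Dxi (Φ a) (Φ₁ a) (Φ₂ a) (y a) (Y a) :=
  ((sp_ChM1 h.c1).clm_comp ((ml_ChM1 (hY.sub ((h.mu h.c1 h.cy).mul (conj_ChM1 hY)))).clm_comp
    h.dx)).sub ((sp_ChM1 h.c0).clm_comp ((ml_ChM1 (conj_ChM1 hY)).clm_comp h.dmu))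

theorem Ddy (he : Continuous e) : Continuous fun a => Ddy (Φ a) (Φ₁ a) (Φ₂ a) (y a) (e a) :=
  (((sp_ChM1 h.c1).clm_comp ((ml_ChM1 (h.dx.clm_apply he)).clm_comp h.dx)).add
    ((sp_ChM1 h.c0).clm_comp (h.ddx he))).neg

variable (hP : Continuous P)
include hP

theorem ft : Continuous fun a => ft (Φ a) (P a) :=
  tr2_ChM1 (h.tv.clm_comp ((continuous_const.sub hP).clm_comp (sp_ChM1 h.c0)))

theorem fτ : Continuous fun a => fτ (Φ a) (Φ₁ a) (y a) (P a) :=
  h.dx.clm_comp ((continuous_const.sub hP).clm_comp h.xi)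

theorem fb : Continuous fun a => fb (Φ a) (Φ₁ a) (y a) (P a) :=
  h.dy.clm_comp (hP.clm_comp h.xi)

theorem fq : Continuous fun a => fq (Φ a) (Φ₁ a) (y a) (P a) :=
  (om_ChM1 h.c0).smul (h.dx.clm_comp (hP.clm_comp h.dy))

theorem fg : Continuous fun a => fg (Φ a) (Φ₁ a) (y a) (P a) :=
  (om_ChM1 h.c0).smul (h.dy.clm_comp (hP.clm_comp h.dy))

theorem fE (Y : ℂ) : Continuous fun a => fE (Φ a) (Φ₁ a) (Φ₂ a) (y a) (P a) Y :=
  (trH_ChM1 (hP.clm_comp (h.Dxi continuous_const))).sub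
    (h.dlw.clm_apply (hP.clm_apply (h.xi.clm_apply continuous_const)))

theorem feh : Continuous fun a => feh (Φ a) (Φ₁ a) (Φ₂ a) (y a) (P a) :=
  (continuous_ofReal.comp (h.fE hP 1)).add
    ((continuous_ofReal.comp (h.fE hP I)).mul continuous_const)

theorem fL : Continuous fun a => fL (Φ a) (Φ₁ a) (Φ₂ a) (y a) (P a) :=
  continuous_finsetSum _ fun _ _ =>
    ((om_ChM1 h.c0).mul (trH_ChM1 (hP.clm_comp (h.Ddy continuous_const)))).smul continuous_const

end CJ_ChM1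

end aux

omit [MeasurableSpace H] [BorelSpace H] in
theorem jac_ChM1 {X : Type*} [TopologicalSpace X] {A : X → H →L[ℝ] ℂ} {P : X → H →L[ℝ] H}
    (hA : Continuous A) (hP : Continuous P) : Continuous fun a => jac (A a) (P a) := by
  have h1 : Continuous fun a =>
      ((A a).comp ((P a).comp (ContinuousLinearMap.adjoint (A a)))).det :=
    ContinuousLinearMap.continuous_det.comp
      (hA.clm_comp (hP.clm_comp (ContinuousLinearMap.adjoint.continuous.comp hA)))
  exact h1.sqrt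

theorem ind_ChM1 {α β : Type*} [TopologicalSpace α] [MeasurableSpace α] [OpensMeasurableSpace α]
    [TopologicalSpace β] [MeasurableSpace β] [BorelSpace β] [Zero β] {s : Set α}
    (hs : MeasurableSet s) {f : α → β} (hf : Continuous fun a : s => f a) :
    Measurable (s.indicator f) := by
  classical
  rw [← Set.piecewise_eq_indicator]
  exact (continuousOn_iff_continuous_domRestrict.2 hf).measurable_piecewise continuousOn_const hs

omit [MeasurableSpace H] [BorelSpace H] in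
theorem Pre.cj_ChM1 (h : Pre ι c ε R) (hε : ε ≤ 1 / 100) (hR : R ≤ 2) :
    CJ_ChM1 (fun a : c.dom R => c.j0 R a.1.1) (fun a => c.j1 R a.1.1) (fun a => c.j2 R a.1.1)
      fun a => c.ht R a.1.1 := by
  have h1 : Continuous fun a : c.dom R => a.1.1 := continuous_subtype_val.fst
  refine ⟨(h.contDiffOn_j0 hε hR).continuousOn.comp_continuous h1 fun a => a.2,
    (h.contDiffOn_j1 hε hR).continuousOn.comp_continuous h1 fun a => a.2,
    (h.contDiffOn_j2 hε hR).continuousOn.comp_continuous h1 fun a => a.2,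
    (h.contDiffOn_ht hε hR).continuousOn.comp_continuous h1 fun a => a.2,
    fun a => ?_, fun a => ?_⟩
  · have := (h.jet_at hε hR a.2).cf.om_low
    linarith
  · have := (h.jet_at hε hR a.2).mu_small
    have := norm_nonneg (mu (c.j0 R a.1.1) (c.j1 R a.1.1) (c.ht R a.1.1))
    nlinarith

theorem Pre.meas_dom (h : Pre ι c ε R) (hε : ε ≤ 1 / 100) (hR : R ≤ 2) : MeasurableSet (c.dom R) :=
  measurable_fst (h.isOpen_tube hε hR).measurableSet

theorem Pre.meas_foot (h : Pre ι c ε R) (hε : ε ≤ 1 / 100) (hR : R ≤ 2) : Measurable (c.foot R) := by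
  have e : c.foot R = (c.tube R).indicator (c.foot R) := by
    funext p
    by_cases hp : p ∈ c.tube R
    · rw [indicator_of_mem hp]
    · rw [indicator_of_notMem hp, Cen.foot_of_notMem hp]
  rw [e]
  exact ind_ChM1 (h.isOpen_tube hε hR).measurableSet
    (continuousOn_iff_continuous_domRestrict.1 (h.contDiffOn_foot hε hR).continuousOn)

theorem Pre.cont_ominv (h : Pre ι c ε R) (hε : ε ≤ 1 / 100) (hR : R ≤ 2) :
    ContinuousOn (fun a : H × (H →L[ℝ] H) => (om (c.j0 R a.1))⁻¹) (c.dom R) :=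
  continuousOn_iff_continuous_domRestrict.2 (h.cj_ChM1 hε hR).ominv

theorem Pre.meas_chart (h : Pre ι c ε R) (hε : ε ≤ 1 / 100) (hR : R ≤ 2) (V : Measure (H × (H →L[ℝ] H))) :
    Measurable (chart V c R).x ∧ Measurable (chart V c R).y ∧ Measurable (chart V c R).t ∧
      Measurable (chart V c R).j ∧ Measurable (chart V c R).τ ∧ Measurable (chart V c R).b ∧
      Measurable (chart V c R).q ∧ Measurable (chart V c R).g ∧ Measurable (chart V c R).L ∧
      Measurable (chart V c R).eh ∧ Measurable (chart V c R).w := by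
  classical
  have h1 := h.cj_ChM1 hε hR
  have h2 := h.meas_dom hε hR
  have hP : Continuous fun a : c.dom R => a.1.2 := continuous_subtype_val.snd
  exact ⟨(h.meas_foot hε hR).comp measurable_fst, ind_ChM1 h2 h1.cy, ind_ChM1 h2 (h1.ft hP),
    ind_ChM1 h2 ((om_ChM1 h1.c0).mul (jac_ChM1 h1.dx hP)), ind_ChM1 h2 (h1.fτ hP),
    ind_ChM1 h2 (h1.fb hP), ind_ChM1 h2 (h1.fq hP), ind_ChM1 h2 (h1.fg hP),
    ind_ChM1 h2 (h1.fL hP), ind_ChM1 h2 (h1.feh hP),
    h.om_smooth.continuousOn.measurable_piecewise continuousOn_const measurableSet_ball⟩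

theorem Pre.meas_mu (h : Pre ι c ε R) (hε : ε ≤ 1 / 100) (hR : R ≤ 2) : Measurable (c.muA R) ∧ Measurable (c.muP R) := by
  have h1 := h.cj_ChM1 hε hR
  have h2 := h.meas_dom hε hR
  exact ⟨ind_ChM1 h2 (h1.mu h1.c1 h1.cy), ind_ChM1 h2 ((h1.mu h1.c1 h1.cy).smul h1.c0)⟩

end Pool.Agent.Lib.MP_8daebb_an.SV.Ch
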