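import Pool.Agent.Lib.MP_8daebb_an.SV.ChA

/-! Mass and bad set of a cylinder around the origin. -/

open MeasureTheory Metric Set Complex Filter Topology
open scoped RealInnerProductSpace ComplexConjugate ContDiff ENNReal

namespace Pool.Agent.Lib.MP_8daebb_an.SV.Ch

variable {H : Type*} [NormedAddCommGroup H] [InnerProductSpace ℝ H] [FiniteDimensional ℝ H]
  [MeasurableSpace H] [BorelSpace H]

variable {V : Measure (H × (H →L[ℝ] H))} {ι : ℂ →ₗᵢ[ℝ] H} {c : Cen H} {ε R M θ η : ℝ}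

theorem Pre.real_le_ChS (h : Pre ι c ε R) (hε : ε ≤ 1 / 100) (hR : R ≤ 2) (hV : EV V ι M θ η)
    (S : Set (H × (H →L[ℝ] H))) : (chart V c R).m.real S ≤ (1 + 4 * ε) * V.real S := by
  have := hV.fin
  have he := h.eps_nonneg
  have h1 := Measure.le_iff'.1 (h.chart_le (V := V) hε hR) S
  rw [Measure.smul_apply, smul_eq_mul] at h1
  have h2 : (chart V c R).m S ≤ ENNReal.ofReal (1 + 4 * ε) * V S :=
    h1.trans (mul_le_mul_right (Measure.restrict_apply_le _ _) _)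
  have h3 := ENNReal.toReal_mono (ENNReal.mul_ne_top ENNReal.ofReal_ne_top (measure_ne_top V S)) h2
  rwa [ENNReal.toReal_mul, ENNReal.toReal_ofReal (by linarith)] at h3

theorem Pre.real_ge_ChS (h : Pre ι c ε R) (hε : ε ≤ 1 / 100) (hR : R ≤ 2) (hV : EV V ι M θ η)
    (S : Set (H × (H →L[ℝ] H))) :
    V.real (S ∩ c.dom R) ≤ (1 + 3 * ε) * (chart V c R).m.real S := by
  have := h.chart_finite hε hR hV
  have he := h.eps_nonneg
  have h1 := Measure.le_iff'.1 (h.chart_ge (V := V) hε hR) S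
  rw [Measure.smul_apply, smul_eq_mul, Measure.restrict_apply' (h.meas_dom hε hR)] at h1
  have h3 := ENNReal.toReal_mono
    (ENNReal.mul_ne_top ENNReal.ofReal_ne_top (measure_ne_top (chart V c R).m S)) h1
  rwa [ENNReal.toReal_mul, ENNReal.toReal_ofReal (by linarith)] at h3

theorem Pre.ae_dom_ChS (h : Pre ι c ε R) (hε : ε ≤ 1 / 100) (hR : R ≤ 2) :
    ∀ᵐ a ∂(chart V c R).m, a ∈ c.dom R :=
  (h.chart_ae hε hR).2 (Eventually.of_forall fun _ ha => ha)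

theorem real_mono_ae_ChS {α : Type*} [MeasurableSpace α] {μ : Measure α} [IsFiniteMeasure μ]
    {S T : Set α} (h : ∀ᵐ a ∂μ, a ∈ S → a ∈ T) : μ.real S ≤ μ.real T :=
  ENNReal.toReal_mono (measure_ne_top μ T) (measure_mono_ae h)

theorem fst_real_ChS (V : Measure (H × (H →L[ℝ] H))) (p : H) (s : ℝ) :
    V.fst.real (ball p s) = V.real (Prod.fst ⁻¹' ball p s) := by
  unfold Measure.real
  rw [Measure.fst_apply measurableSet_ball]

theorem chart_y_ChS {a : H × (H →L[ℝ] H)} (ha : a ∈ c.dom R) :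
    (chart V c R).y a = c.ht R a.1 :=
  indicator_of_mem ha fun a : H × (H →L[ℝ] H) => c.ht R a.1

theorem mem_cyl_ChS (a : H × (H →L[ℝ] H)) (σ : ℝ) :
    a ∈ (chart V c R).cyl 0 σ ↔ ‖c.foot R a.1‖ < σ := by
  change ‖c.foot R a.1 - 0‖ < σ ↔ _
  rw [sub_zero]

theorem Adm.zero_ChS (h : Adm ι c ε R) (hε : ε ≤ 1 / 100) (hR : R ≤ 2) (hR0 : 0 < R) :
    (0 : H) ∈ c.tube R ∧ c.foot R 0 = 0 ∧ ‖c.ht R 0‖ = ‖c.F 0‖ := by
  have h0 := h.foot_zero hε hR0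
  have h1 := h.1.foot_eq hε hR h0
  refine ⟨⟨0, h0⟩, h1, ?_⟩
  unfold Cen.ht
  rw [h1, zero_sub, norm_neg]

theorem Adm.base_le (h : Adm ι c ε R) (hε : ε ≤ 1 / 100) (hR : R ≤ 2) (hV : EV V ι M θ η) (hη : η ≤ 1 / 100)
    {σ κ : ℝ} (hσ : 0 < σ) (hσR : σ ≤ R) (hσ1 : σ ≤ 1) (hκ : κ ≤ 1 / 100)
    (hy : ∀ᵐ a ∂(chart V c R).m, a ∈ (chart V c R).cyl 0 σ → ‖(chart V c R).y a‖ ≤ κ * σ) : ‖c.F 0‖ ≤ κ * σ := by
  by_contra hcon
  rw [not_le] at hcon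
  obtain ⟨t0, f0, y0⟩ := h.zero_ChS hε hR (hσ.trans_le hσR)
  have e1 : ∀ᶠ p in 𝓝 (0 : H), p ∈ c.tube R := (h.1.isOpen_tube hε hR).mem_nhds t0
  have e2 : ∀ᶠ p in 𝓝 (0 : H), ‖c.foot R p‖ < σ :=
    (h.1.hasFDerivAt_foot hε hR t0).continuousAt.norm.eventually_lt continuousAt_const
      (by rw [f0, norm_zero]; exact hσ)
  have e3 : ∀ᶠ p in 𝓝 (0 : H), κ * σ < ‖c.ht R p‖ :=
    continuousAt_const.eventually_lt (h.1.hasFDerivAt_ht hε hR t0).continuousAt.norm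
      (by rw [y0]; exact hcon)
  obtain ⟨r, hr, hb⟩ := Metric.mem_nhds_iff.1 (e1.and (e2.and e3))
  have h1 := (Measure.mem_support_iff_forall _).1 (ev_zero_mem hV hη) _ (ball_mem_nhds 0 hr)
  rw [Measure.fst_apply measurableSet_ball] at h1
  refine h1.ne' (measure_mono_null (fun a ha => ?_) (ae_iff.1 ((h.1.chart_ae hε hR).1 hy)))
  obtain ⟨a1, a2, a3⟩ := hb ha
  intro hp
  have h2 := hp a1 ((mem_cyl_ChS a σ).2 a2)
  rw [chart_y_ChS a1] at h2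
  exact absurd h2 (not_le.2 a3)

theorem Adm.cyl_sub (h : Adm ι c ε R) (hε : ε ≤ 1 / 100) (hR : R ≤ 2) (hV : EV V ι M θ η) (hη : η ≤ 1 / 100)
    {σ κ : ℝ} (hσ : 0 < σ) (hσR : σ ≤ R) (hσ1 : σ ≤ 1) (hκ : κ ≤ 1 / 100)
    (hy : ∀ᵐ a ∂(chart V c R).m, a ∈ (chart V c R).cyl 0 σ → ‖(chart V c R).y a‖ ≤ κ * σ) :
    ∀ᵐ a ∂(chart V c R).m, a ∈ (chart V c R).cyl 0 σ → ‖a.1‖ ^ 2 < (1 + 20 * ε + 4 * κ ^ 2) * σ ^ 2 := by
  have hb := h.base_le hε hR hV hη hσ hσR hσ1 hκ hy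
  have he := h.1.eps_nonneg
  obtain ⟨t0, f0, y0⟩ := h.zero_ChS hε hR (hσ.trans_le hσR)
  filter_upwards [hy, h.1.ae_dom_ChS (V := V) hε hR] with a ha hd hc
  have h1 := ha hc
  rw [chart_y_ChS hd] at h1
  have h2 := (mem_cyl_ChS a σ).1 hc
  have h3 := (abs_le.1 (h.1.geo hε hR (p := a.1) hd t0)).2
  rw [f0, sub_zero, sub_zero] at h3
  have h4 : ‖c.ht R a.1 - c.ht R 0‖ ≤ 2 * (κ * σ) := by
    have := norm_sub_le (c.ht R a.1) (c.ht R 0)
    linarith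
  have h5 : ‖c.ht R a.1 - c.ht R 0‖ ^ 2 ≤ (2 * (κ * σ)) ^ 2 :=
    pow_le_pow_left₀ (norm_nonneg _) h4 2
  have h6 : ‖c.foot R a.1‖ ^ 2 < σ ^ 2 := pow_lt_pow_left₀ h2 (norm_nonneg _) two_ne_zero
  have h7 : ε * ‖c.foot R a.1‖ ^ 2 ≤ ε * σ ^ 2 := mul_le_mul_of_nonneg_left h6.le he
  nlinarith

theorem Adm.mass_near (h : Adm ι c ε R) (hε : ε ≤ 1 / 100) (hR : R ≤ 2) (hV : EV V ι M θ η) (hη : η ≤ 1 / 100)
    {σ κ : ℝ} (hσ : 0 < σ) (hσR : σ ≤ R) (hσ1 : σ ≤ 1) (hκ : κ ≤ 1 / 100)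
    (hy : ∀ᵐ a ∂(chart V c R).m, a ∈ (chart V c R).cyl 0 σ → ‖(chart V c R).y a‖ ≤ κ * σ) :
    |(chart V c R).m.real ((chart V c R).cyl 0 σ) - θ * Real.pi * σ ^ 2| ≤ (2 * η + 300 * θ * (ε + κ)) * σ ^ 2 := by
  have := hV.fin
  have := h.1.chart_finite hε hR hV
  have hb := h.base_le hε hR hV hη hσ hσR hσ1 hκ hy
  have hκ0 : 0 ≤ κ := nonneg_of_mul_nonneg_left ((norm_nonneg _).trans hb) hσ
  have he := h.1.eps_nonneg
  have hη0 := ev_eps_nonneg hV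
  have hθ0 : 0 ≤ θ := le_trans (by norm_num) hV.θ_ge
  have hπ := Real.pi_pos
  have hπ2 : Real.pi ≤ 3.15 := Real.pi_lt_d2.le
  have hs2 : 0 < σ ^ 2 := by positivity
  have hθπ : θ * Real.pi ≤ θ * 3.15 := mul_le_mul_of_nonneg_left hπ2 hθ0
  have hθπ0 : 0 ≤ θ * Real.pi := by positivity
  rw [abs_le]
  constructor
  · have hs : 0 < (1 - 40 * ε) * σ := mul_pos (by linarith) hσ
    have h1 := (abs_le.1 (hV.mass _ hs (by nlinarith))).1
    have h2 : V.fst.real (ball 0 ((1 - 40 * ε) * σ)) ≤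
        V.real ((chart V c R).cyl 0 σ ∩ c.dom R) := by
      rw [fst_real_ChS]
      refine real_mono_ae_ChS ?_
      filter_upwards [hV.flat] with a ha hm
      obtain ⟨v, hv⟩ := ha
      have h3 := h.ball_sub hε hR hσR (mem_ball_zero_iff.1 hm) hv hη
      exact ⟨(mem_cyl_ChS a σ).2 h3.2, h3.1⟩
    have h3 := h.1.real_ge_ChS hε hR hV ((chart V c R).cyl 0 σ)
    have h4 : (1 + 3 * ε) * (θ * Real.pi - (2 * η + 300 * θ * (ε + κ))) ≤
        (θ * Real.pi - η) * (1 - 40 * ε) ^ 2 := by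
      have a1 : θ * Real.pi * (1 - 80 * ε) ≤ θ * Real.pi * (1 - 40 * ε) ^ 2 :=
        mul_le_mul_of_nonneg_left (by nlinarith) hθπ0
      have a2 : η * (1 - 40 * ε) ^ 2 ≤ η * 1 := mul_le_mul_of_nonneg_left (by nlinarith) hη0
      have a3 : ε * (θ * Real.pi) ≤ ε * (θ * 3.15) := mul_le_mul_of_nonneg_left hθπ he
      have a4 : 0 ≤ ε * (2 * η + 300 * θ * (ε + κ)) := by positivity
      have a5 : 0 ≤ θ * κ := by positivity
      have a6 : 0 ≤ θ * ε := by positivity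
      nlinarith
    have h5 := mul_le_mul_of_nonneg_right h4 hs2.le
    have h6 : (1 + 3 * ε) * ((θ * Real.pi - (2 * η + 300 * θ * (ε + κ))) * σ ^ 2) ≤
        (1 + 3 * ε) * (chart V c R).m.real ((chart V c R).cyl 0 σ) := by
      nlinarith
    have h7 := le_of_mul_le_mul_left h6 (by linarith)
    linarith
  · have hu : 0 < 1 + 10 * ε + κ := by linarith
    have hs : 0 < (1 + 10 * ε + κ) * σ := mul_pos hu hσ
    have h1 := (abs_le.1 (hV.mass _ hs (by nlinarith))).2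
    have h2 : (chart V c R).m.real ((chart V c R).cyl 0 σ) ≤
        (chart V c R).m.real (Prod.fst ⁻¹' ball 0 ((1 + 10 * ε + κ) * σ)) := by
      refine real_mono_ae_ChS ?_
      filter_upwards [h.cyl_sub hε hR hV hη hσ hσR hσ1 hκ hy] with a ha hc
      have h3 := ha hc
      rw [mem_preimage, mem_ball_zero_iff]
      refine lt_of_pow_lt_pow_left₀ 2 hs.le (h3.trans_le ?_)
      rw [mul_pow]
      exact mul_le_mul_of_nonneg_right (by nlinarith) hs2.le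
    have h3 := h.1.real_le_ChS hε hR hV (Prod.fst ⁻¹' ball 0 ((1 + 10 * ε + κ) * σ))
    rw [← fst_real_ChS V] at h3
    have h4 : (1 + 4 * ε) * (1 + 10 * ε + κ) ^ 2 ≤ 1 + 26 * (ε + κ) := by
      have a1 : (1 + 10 * ε + κ) ^ 2 ≤ 1 + 2.11 * (10 * ε + κ) := by nlinarith
      have a2 := mul_le_mul_of_nonneg_left a1 (by linarith : 0 ≤ 1 + 4 * ε)
      nlinarith
    have h5 : (θ * Real.pi + η) * (1 + 26 * (ε + κ)) ≤
        θ * Real.pi + (2 * η + 300 * θ * (ε + κ)) := by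
      have a1 : (ε + κ) * (θ * Real.pi) ≤ (ε + κ) * (θ * 3.15) :=
        mul_le_mul_of_nonneg_left hθπ (by linarith)
      have a2 : η * (26 * (ε + κ)) ≤ η * 1 := mul_le_mul_of_nonneg_left (by linarith) hη0
      have a3 : 0 ≤ θ * (ε + κ) := by positivity
      nlinarith
    have h6 := mul_le_mul_of_nonneg_left h4 (by linarith : 0 ≤ θ * Real.pi + η)
    have h7 := mul_le_mul_of_nonneg_right (h6.trans h5) hs2.le
    have h8 := mul_le_mul_of_nonneg_left h1 (by linarith : 0 ≤ 1 + 4 * ε)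
    linarith

theorem Adm.bad_le (h : Adm ι c ε R) (hε : ε ≤ 1 / 100) (hR : R ≤ 2) (hV : EV V ι M θ η) (hη : η ≤ 1 / 100) (hθ : 300 * θ * ε ≤ 1)
    {σ κ : ℝ} (hσ : 0 < σ) (hσR : σ ≤ R) (hσ1 : σ ≤ 1) (hκ : κ ≤ 1 / 100)
    (hy : ∀ᵐ a ∂(chart V c R).m, a ∈ (chart V c R).cyl 0 σ → ‖(chart V c R).y a‖ ≤ κ * σ) :
    (chart V c R).m.real {a | a ∈ (chart V c R).cyl 0 σ ∧ ¬(chart V c R).Den ((θ - 1 / 50) * Real.pi) a} ≤
      2 * V.real {z | ‖z.1‖ < 2 * σ ∧ ¬∃ᶠ r in 𝓝[>] (0 : ℝ),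
        (θ - 1 / 100) * Real.pi * r ^ 2 ≤ V.fst.real (ball z.1 r)} := by
  have := hV.fin
  have := h.1.chart_finite hε hR hV
  have he := h.1.eps_nonneg
  have hb := h.base_le hε hR hV hη hσ hσR hσ1 hκ hy
  have hκ0 : 0 ≤ κ := nonneg_of_mul_nonneg_left ((norm_nonneg _).trans hb) hσ
  have hϑ : (1 + 3 * ε) * ((θ - 1 / 50) * Real.pi) ≤ (θ - 1 / 100) * Real.pi := by
    rw [← mul_assoc]
    exact mul_le_mul_of_nonneg_right (by nlinarith) Real.pi_pos.le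
  refine le_trans (real_mono_ae_ChS ?_) ((h.1.real_le_ChS hε hR hV _).trans
    (mul_le_mul_of_nonneg_right (by linarith) measureReal_nonneg))
  filter_upwards [h.cyl_sub hε hR hV hη hσ hσR hσ1 hκ hy, h.1.ae_dom_ChS (V := V) hε hR]
    with a ha hd hc
  refine ⟨?_, fun hf => hc.2 (h.1.den hε hR hV hd hϑ hf)⟩
  refine lt_of_pow_lt_pow_left₀ 2 (by positivity) ((ha hc.1).trans_le ?_)
  rw [mul_pow]
  exact mul_le_mul_of_nonneg_right (by nlinarith) (sq_nonneg σ)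

end Pool.Agent.Lib.MP_8daebb_an.SV.Ch
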