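import Pool.Agent.Lib.MP_8daebb_an.SV.ChD0

/-! Compactness of centres. -/

open MeasureTheory Metric Set Complex Filter Topology
open scoped RealInnerProductSpace ComplexConjugate ContDiff ENNReal

namespace Pool.Agent.Lib.MP_8daebb_an.SV.Ch

variable {H : Type*} [NormedAddCommGroup H] [InnerProductSpace ℝ H] [FiniteDimensional ℝ H]

theorem aa_ChZ1 {E : Type*} [NormedAddCommGroup E] [ProperSpace E] {K : Set ℂ} (hK : IsCompact K)
    (f : ℕ → ℂ → E) {L B : ℝ} (hL : ∀ j, ∀ z ∈ K, ∀ w ∈ K, ‖f j z - f j w‖ ≤ L * ‖z - w‖)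
    (hB : ∀ j, ∀ z ∈ K, ‖f j z‖ ≤ B) : ∃ (g : ℂ → E) (φ : ℕ → ℕ), StrictMono φ ∧
      ContinuousOn g K ∧ TendstoUniformlyOn (fun j => f (φ j)) g atTop K := by
  classical
  have : CompactSpace K := isCompact_iff_compactSpace.1 hK
  have hl : ∀ j, LipschitzWith (Real.toNNReal L) (K.domRestrict (f j)) := fun j =>
    LipschitzWith.of_dist_le' fun z w => by
      rw [dist_eq_norm, Subtype.dist_eq, dist_eq_norm]
      exact hL j z z.2 w w.2
  let u : ℕ → BoundedContinuousFunction K E := fun j =>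
    BoundedContinuousFunction.mkOfCompact ⟨K.domRestrict (f j), (hl j).continuous⟩
  have hc : IsCompact (closure (range u)) := by
    refine BoundedContinuousFunction.arzela_ascoli (closedBall 0 B) (isCompact_closedBall 0 B) _
      ?_ (LipschitzWith.uniformEquicontinuous _ (Real.toNNReal L) ?_).equicontinuous
    · rintro _ z ⟨j, rfl⟩
      exact mem_closedBall_zero_iff.2 (hB j z z.2)
    · rintro ⟨_, j, rfl⟩
      exact hl j
  obtain ⟨a, -, φ, hφ, ha⟩ := hc.tendsto_subseq fun j => subset_closure (mem_range_self j)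
  have e : K.domRestrict (fun z => if h : z ∈ K then a ⟨z, h⟩ else 0) = a :=
    funext fun z => dif_pos z.2
  refine ⟨fun z => if h : z ∈ K then a ⟨z, h⟩ else 0, φ, hφ, ?_, ?_⟩
  · rw [continuousOn_iff_continuous_domRestrict, e]
    exact a.continuous
  · rw [tendstoUniformlyOn_iff_restrict, e]
    exact BoundedContinuousFunction.tendsto_iff_tendstoUniformly.1 ha

theorem montel {ι : ℂ →ₗᵢ[ℝ] H} {ε : ℝ} (c : ℕ → Cen H) (h : ∀ j, Adm ι (c j) ε (1 / 2)) :
    ∃ (c₀ : Cen H) (φ : ℕ → ℕ), StrictMono φ ∧ Adm ι c₀ ε (1 / 4) ∧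
      ContinuousOn c₀.F (closedBall 0 (1 / 4)) ∧
      TendstoUniformlyOn (fun j => (c (φ j)).F) c₀.F atTop (closedBall 0 (1 / 4)) := by
  have : ProperSpace H := FiniteDimensional.proper ℝ H
  have : ProperSpace (EC H) := FiniteDimensional.proper ℂ (EC H)
  have e0 := (h 0).1.eps_nonneg
  have hs : closedBall (0 : ℂ) (1 / 4) ⊆ ball 0 (1 / 2) := closedBall_subset_ball (by norm_num)
  have hs' : ball (0 : ℂ) (1 / 4) ⊆ ball 0 (1 / 2) := ball_subset_closedBall.trans hs
  obtain ⟨F, φ, hφ, hFc, hF⟩ := aa_ChZ1 (isCompact_closedBall (0 : ℂ) (1 / 4)) (fun j => (c j).F)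
    (L := 1 + 2 * ε) (B := ε + (1 + 2 * ε) * (1 / 4)) (fun j z hz w hw => by
      have h1 := (h j).1.near_iso (hs hz) (hs hw)
      have h2 := norm_le_norm_sub_add ((c j).F z - (c j).F w) (ι (z - w))
      rw [ι.norm_map] at h2
      linarith) fun j z hz => ((h j).1.norm_F_le (hs hz)).trans (by
        gcongr
        exact mem_closedBall_zero_iff.1 hz)
  obtain ⟨Φ, ψ, hψ, -, hΦ⟩ := aa_ChZ1 (isCompact_closedBall (0 : ℂ) (1 / 4))
    (fun j => (c (φ j)).Φ) (L := ε) (B := ε + ‖zd ι.toContinuousLinearMap‖)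
    (fun j z hz w hw => (h _).1.lip0 (hs hz) (hs hw)) fun j z hz =>
      (norm_le_norm_sub_add _ _).trans (add_le_add ((h _).1.n0 z (hs hz)) le_rfl)
  have hF' : TendstoUniformlyOn (fun j => (c (φ (ψ j))).F) F atTop (closedBall 0 (1 / 4)) :=
    fun u hu => hψ.tendsto_atTop.eventually (hF u hu)
  have hΦ' := hΦ.mono (ball_subset_closedBall (x := (0 : ℂ)) (ε := 1 / 4))
  have d0 : ∀ j, DifferentiableOn ℂ (c (φ (ψ j))).Φ (ball 0 (1 / 4)) := fun j =>
    (h _).1.hol.mono hs'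
  have l0 := hΦ'.tendstoLocallyUniformlyOn
  have l1 := l0.deriv (Eventually.of_forall d0) isOpen_ball
  have l2 := l1.deriv (Eventually.of_forall fun j => (d0 j).deriv isOpen_ball) isOpen_ball
  have z0 : (0 : ℂ) ∈ ball (0 : ℂ) (1 / 4) := mem_ball_self (by norm_num)
  have tF : ∀ z ∈ ball (0 : ℂ) (1 / 4), Tendsto (fun j => (c (φ (ψ j))).F z) atTop (𝓝 (F z)) :=
    fun z hz => hF'.tendsto_at (ball_subset_closedBall hz)
  refine ⟨⟨F, Φ⟩, φ ∘ ψ, hφ.comp hψ, ⟨⟨l0.differentiableOn (Eventually.of_forall d0) isOpen_ball,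
    fun z hz => ?_, fun z hz => ?_, fun z hz => ?_, fun z hz => ?_, fun z hz => ?_, ?_⟩, ?_⟩,
    hFc, hF'⟩
  · exact hasFDerivAt_of_tendstoUniformlyOn isOpen_ball
      ((sp (H := H)).uniformContinuous.comp_tendstoUniformlyOn hΦ')
      (fun j w hw => (h _).1.der w (hs' hw)) tF hz
  · obtain ⟨B, hB⟩ := exists_bilL (H := H)
    have h1 := (B.continuous₂.tendsto _).comp ((l0.tendsto_at hz).prodMk_nhds (l0.tendsto_at hz))
    rw [← hB]
    refine tendsto_nhds_unique h1 (tendsto_const_nhds.congr fun j => ?_)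
    exact ((hB _ _).trans ((h _).1.conf z (hs' hz))).symm
  · exact le_of_tendsto' ((l0.tendsto_at hz).sub_const _).norm fun j => (h _).1.n0 z (hs' hz)
  · exact le_of_tendsto' (l1.tendsto_at hz).norm fun j => (h _).1.n1 z (hs' hz)
  · exact le_of_tendsto' (l2.tendsto_at hz).norm fun j => (h _).1.n2 z (hs' hz)
  · exact le_of_tendsto' (tF 0 z0).norm fun j => (h _).1.base
  · have h1 := ((pr (H := H)).continuous₂.tendsto _).comp
      ((l0.tendsto_at z0).prodMk_nhds (tF 0 z0))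
    exact tendsto_nhds_unique h1 (tendsto_const_nhds.congr fun j => (h _).2.symm)

end Pool.Agent.Lib.MP_8daebb_an.SV.Ch
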