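import Pool.Agent.Lib.MP_8daebb_an.SV.ChCV
import Pool.Agent.Lib.MP_8daebb_an.SV.Av
import Pool.Agent.Lib.MP_8daebb_an.SV.Id

/-! The limit centre lies in the support. -/

open MeasureTheory Metric Set Complex Filter Topology
open scoped RealInnerProductSpace ComplexConjugate ContDiff ENNReal

namespace Pool.Agent.Lib.MP_8daebb_an.SV.Ch

variable {H : Type*} [NormedAddCommGroup H] [InnerProductSpace ℝ H] [FiniteDimensional ℝ H]
  [MeasurableSpace H] [BorelSpace H]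

section abstr

variable {α : Type*} [MeasurableSpace α] {D : CD α H} {R δ M : ℝ}

theorem kr_cd_ChZ3 (ρ : ℝ) : ContDiff ℝ 1 (kr ρ) := (kr_contDiff ρ).of_le (by exact_mod_cast le_top)

theorem test_ChZ3 {ρ : ℝ} (hρ : 0 < ρ) {u : ℂ} (hu : ‖u‖ + ρ < R) :
    Test (H := H) 0 R (fun p : ℂ × H => kr ρ (u - p.1)) := by
  refine ⟨((kr_cd_ChZ3 ρ).comp (contDiff_const.sub contDiff_fst)).contDiffOn, ‖u‖ + ρ, hu, ?_⟩
  intro p hp
  refine (kr_zero hρ ?_).1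
  rw [sub_zero] at hp
  have h1 : ‖p.1‖ - ‖u‖ ≤ ‖p.1 - u‖ := norm_sub_norm_le _ _
  rw [norm_sub_rev] at h1
  linarith

theorem fderiv_test_ChZ3 (ρ : ℝ) (u : ℂ) (p w : ℂ × H) :
    fderiv ℝ (fun p : ℂ × H => kr ρ (u - p.1)) p w = -fderiv ℝ (kr ρ) (u - p.1) w.1 := by
  have h1 : HasFDerivAt (fun p : ℂ × H => u - p.1) (-(ContinuousLinearMap.fst ℝ ℂ H)) p :=
    (hasFDerivAt_fst (𝕜 := ℝ) (p := p)).const_sub u
  have h2 : HasFDerivAt (kr ρ) (fderiv ℝ (kr ρ) (u - p.1)) (u - p.1) :=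
    (((kr_cd_ChZ3 ρ).differentiable one_ne_zero) _).hasFDerivAt
  have h3 := (h2.comp p h1).fderiv
  have h4 : (fun p : ℂ × H => kr ρ (u - p.1)) = kr ρ ∘ fun p : ℂ × H => u - p.1 := rfl
  rw [h4, h3]
  simp

/-- Zero height forces zero tilt. -/
theorem tilt_zero_ChZ3 (h : CV D 0 R δ M) (hδ : δ ≤ 1 / 2) {r : ℝ} (hr : 0 < r) (hrR : r < R)
    (hy : ∀ a ∈ D.G, ‖D.x a‖ < r → D.y a = 0) :
    ∀ᵐ a ∂D.m, ‖D.x a‖ ≤ r / 2 → D.t a = 0 := by
  have h1 := h.ver_rad (test_ChZ3 (H := H) (R := R) hr (u := 0) (by simpa using hrR))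
  have hw : ∀ a, D.x a ∈ ball (0 : ℂ) R → 1 / 2 ≤ D.w (D.x a) ∧ D.w (D.x a) ≤ 3 / 2 := by
    intro a ha
    have := abs_le.1 (h.w_le _ ha).1
    constructor <;> linarith [this.1, this.2]
  have h2 : ∫ a, kr r (0 - D.x a) * (D.w (D.x a) * D.t a) ∂D.m = 0 := by
    rw [← h1]
    refine integral_congr_ae ?_
    filter_upwards [h.ae_G] with a ha
    rw [fderiv_test_ChZ3]
    by_cases hx : ‖D.x a‖ < r
    · have y0 := hy a ha hx
      have t1 := (h.pw a ha).trg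
      rw [y0] at t1 ⊢
      simp only [norm_zero, ne_eq, OfNat.ofNat_ne_zero, not_false_eq_true, zero_pow, zero_mul,
        add_zero, mul_zero, abs_nonpos_iff, inner_zero_right, map_zero, neg_zero, zero_add] at t1 ⊢
      rw [← sub_eq_zero.1 t1]
    · have k0 := kr_zero hr (u := 0 - D.x a) (by simpa using not_lt.1 hx)
      simp only [k0.1, k0.2.1]
      simp
  have hm : Measurable fun a => kr r (0 - D.x a) * (D.w (D.x a) * D.t a) :=
    ((kr_cd_ChZ3 r).continuous.measurable.comp (measurable_const.sub h.m_x)).mul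
      ((h.m_w.comp h.m_x).mul h.m_t)
  have hi : Integrable (fun a => kr r (0 - D.x a) * (D.w (D.x a) * D.t a)) D.m := by
    refine h.integrable hm.aestronglyMeasurable (Ck / r ^ 2 * (3 / 2 * 2)) ?_
    intro a ha hx
    have p := h.pw a ha
    have w := hw a hx
    have k0 := kr_nonneg r (0 - D.x a)
    have k1 := (kr_le hr (0 - D.x a)).1
    have w0 : 0 ≤ D.w (D.x a) := by linarith [w.1]
    rw [Real.norm_of_nonneg (mul_nonneg k0 (mul_nonneg w0 p.t_nonneg))]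
    exact mul_le_mul k1 (mul_le_mul w.2 p.t_le p.t_nonneg (by norm_num))
      (mul_nonneg w0 p.t_nonneg) (k0.trans k1)
  have hn : 0 ≤ᵐ[D.m] fun a => kr r (0 - D.x a) * (D.w (D.x a) * D.t a) := by
    filter_upwards [h.ae_G, h.car] with a ha hx
    exact mul_nonneg (kr_nonneg _ _)
      (mul_nonneg (by linarith [(hw a hx).1]) (h.pw a ha).t_nonneg)
  have h3 := (integral_eq_zero_iff_of_nonneg_ae hn hi).1 h2
  filter_upwards [h3, h.car] with a ha hx hxr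
  have k1 := kr_low hr (u := 0 - D.x a) (by simpa using hxr)
  have k2 : 0 < kr r (0 - D.x a) := lt_of_lt_of_le (by positivity) k1
  have w1 : 0 < D.w (D.x a) := by linarith [(hw a hx).1]
  have ha' : kr r (0 - D.x a) * (D.w (D.x a) * D.t a) = 0 := ha
  rcases mul_eq_zero.1 ha' with h4 | h4
  · exact absurd h4 k2.ne'
  · exact (mul_eq_zero.1 h4).resolve_left w1.ne'

/-- The averaged mass has derivative zero. -/
theorem av_fderiv_ChZ3 (h : CV D 0 R δ M) {r ρ : ℝ} (hρ : 0 < ρ) (hrR : r < R)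
    (h0 : ∀ᵐ a ∂D.m, ‖D.x a‖ < r → D.y a = 0 ∧ D.t a = 0) {u : ℂ} (hu : ‖u‖ + ρ ≤ r) :
    fderiv ℝ (D.av ρ fun _ => (1 : ℝ)) u = 0 := by
  have := h.fin
  ext1 v
  have h1 := h.hor _ (test_ChZ3 (H := H) (R := R) hρ (u := u) (by linarith)) v
  rw [(h.av_smooth hρ (integrable_const (1 : ℝ))).2.2.2.1 u v, ContinuousLinearMap.zero_apply,
    ← neg_eq_zero, ← integral_neg, ← h1]
  refine integral_congr_ae ?_
  filter_upwards [h.ae_G, h0] with a ha hz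
  rw [fderiv_test_ChZ3]
  by_cases hx : ‖u - D.x a‖ < ρ
  · have x1 : ‖D.x a‖ < r := by
      have h2 : ‖D.x a‖ - ‖u‖ ≤ ‖D.x a - u‖ := norm_sub_norm_le _ _
      rw [norm_sub_rev] at h2
      linarith
    obtain ⟨y0, t0⟩ := hz x1
    have p := h.pw a ha
    have e1 : D.τ a = 0 := by
      have := p.τ_le
      rw [t0, mul_zero] at this
      exact norm_le_zero_iff.1 this
    have e2 : D.eh a = 0 := by
      have := p.eh_le
      rw [t0, y0] at this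
      simpa using this
    rw [e1, e2]
    simp
  · have k0 := kr_zero hρ (not_lt.1 hx)
    simp only [k0.1, k0.2.1]
    simp

theorem av_const_ChZ3 (h : CV D 0 R δ M) {r ρ : ℝ} (hρ : 0 < ρ) (hrR : r < R)
    (h0 : ∀ᵐ a ∂D.m, ‖D.x a‖ < r → D.y a = 0 ∧ D.t a = 0) {u : ℂ} (hu : ‖u‖ + ρ < r) :
    (D.av ρ (fun _ => (1 : ℝ)) u) = D.av ρ (fun _ => (1 : ℝ)) 0 := by
  have := h.fin
  have hd : Differentiable ℝ (D.av ρ fun _ => (1 : ℝ)) :=
    (h.av_smooth hρ (integrable_const (1 : ℝ))).1.differentiable two_ne_zero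
  have hn := norm_nonneg u
  refine IsOpen.is_const_of_fderiv_eq_zero (𝕜 := ℝ) (s := ball (0 : ℂ) (r - ρ)) isOpen_ball
    (convex_ball _ _).isPreconnected hd.differentiableOn ?_ ?_ ?_
  · intro z hz
    rw [mem_ball_zero_iff] at hz
    exact av_fderiv_ChZ3 h hρ hrR h0 (by linarith)
  · rw [mem_ball_zero_iff]; linarith
  · exact mem_ball_self (by linarith)

theorem av_zero_iff_ChZ3 (h : CV D 0 R δ M) {ρ : ℝ} (hρ : 0 < ρ) (u : ℂ) :
    D.av ρ (fun _ => (1 : ℝ)) u = 0 ↔ ∀ᵐ a ∂D.m, kr ρ (u - D.x a) = 0 := by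
  have := h.fin
  have hi := (h.av_smooth hρ (integrable_const (1 : ℝ))).2.2.1 u
  unfold CD.av
  simp only [smul_eq_mul, mul_one] at hi ⊢
  exact integral_eq_zero_iff_of_nonneg_ae (Eventually.of_forall fun a => kr_nonneg _ _) hi

/-- The projection of the carrier is dense near the origin. -/
theorem dense_ChZ3 (h : CV D 0 R δ M) (hδ : δ ≤ 1 / 2) {r : ℝ} (hr : 0 < r) (hrR : r < R)
    (hy : ∀ a ∈ D.G, ‖D.x a‖ < r → D.y a = 0) {ρ : ℝ} (hρ : 0 < ρ)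
    (hz : ¬∀ᵐ a ∂D.m, ρ / 2 < ‖D.x a‖) {u : ℂ} (hu : ‖u‖ + ρ < r / 2) :
    ∃ a ∈ D.G, ‖u - D.x a‖ < ρ := by
  have h0 : ∀ᵐ a ∂D.m, ‖D.x a‖ < r / 2 → D.y a = 0 ∧ D.t a = 0 := by
    filter_upwards [h.ae_G, tilt_zero_ChZ3 h hδ hr hrR hy] with a ha ht hx
    exact ⟨hy a ha (by linarith), ht hx.le⟩
  by_contra hcon
  have h1 : D.av ρ (fun _ => (1 : ℝ)) u = 0 := by
    rw [av_zero_iff_ChZ3 h hρ]
    filter_upwards [h.ae_G] with a ha
    exact (kr_zero hρ (not_lt.1 fun hx => hcon ⟨a, ha, hx⟩)).1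
  rw [av_const_ChZ3 h hρ (by linarith) h0 hu, av_zero_iff_ChZ3 h hρ] at h1
  apply hz
  filter_upwards [h1] with a ha
  by_contra hx
  have k1 := kr_low hρ (u := 0 - D.x a) (by simpa using not_lt.1 hx)
  rw [ha] at k1
  exact absurd k1 (not_le.2 (by positivity))

end abstr

variable {V : Measure (H × (H →L[ℝ] H))} {ι : ℂ →ₗᵢ[ℝ] H} {c : Cen H} {ε R M θ η : ℝ}

theorem foot_self_ChZ3 {x : ℂ} (hx : x ∈ ball (0 : ℂ) R) : c.IsFoot R (c.F x) x :=
  ⟨hx, by rw [sub_self, map_zero], by rw [sub_self, norm_zero]; exact one_pos⟩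

theorem sub_supp (h : Adm ι c ε (1 / 4)) (hV : EV V ι M θ η) (hs : 1000 * (ε + η) ≤ 1 / 2)
    (h0 : V.fst.support ∩ ball 0 (1 / 10) ⊆ c.F '' closedBall 0 (1 / 5)) :
    c.F 0 = 0 ∧ ∀ z : ℂ, ‖z‖ < 1 / 50 → c.F z ∈ V.fst.support := by
  have e0 := h.1.eps_nonneg
  have n0 := ev_eps_nonneg hV
  have hε : ε ≤ 1 / 100 := by linarith
  have hη : η ≤ 1 / 100 := by linarith
  have hR : (1 / 4 : ℝ) ≤ 2 := by norm_num
  have hR0 : (0 : ℝ) < 1 / 4 := by norm_num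
  have z0 := ev_zero_mem hV hη
  have f0 := h.foot_zero hε hR0
  have key : ∀ p ∈ V.fst.support, ‖p‖ < 1 / 10 → c.F (c.foot (1 / 4) p) = p := by
    intro p hp hp1
    obtain ⟨x, hx, rfl⟩ := h0 ⟨hp, mem_ball_zero_iff.2 hp1⟩
    have hx1 : x ∈ ball (0 : ℂ) (1 / 4) := closedBall_subset_ball (by norm_num) hx
    rw [h.1.foot_eq hε hR (foot_self_ChZ3 hx1)]
  have ft0 : c.foot (1 / 4) 0 = 0 := h.1.foot_eq hε hR f0
  refine ⟨by simpa only [ft0] using key 0 z0 (by norm_num), ?_⟩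
  intro z hz
  have hcv := h.1.cv hε hR hR0 hV hη hs
  have hG : ∀ a ∈ (chart V c (1 / 4)).G, ‖c.foot (1 / 4) a.1‖ < 2 / 25 →
      c.F (c.foot (1 / 4) a.1) = a.1 := by
    intro a ha hx
    have ht := h.1.ht_le_supp hε hR hV hη ha.1 ha.2.2
    have hF := h.1.norm_F_le (Cen.foot_spec ha.1).1
    refine key _ ha.2.2 ?_
    have e1 : a.1 = c.F (c.foot (1 / 4) a.1) + c.ht (1 / 4) a.1 := by
      unfold Cen.ht; abel
    have e2 : ‖a.1‖ ≤ ‖c.F (c.foot (1 / 4) a.1)‖ + ‖c.ht (1 / 4) a.1‖ := by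
      conv_lhs => rw [e1]
      exact norm_add_le _ _
    have e3 : (1 + 2 * ε) * ‖c.foot (1 / 4) a.1‖ ≤ (1 + 2 * ε) * (2 / 25) :=
      mul_le_mul_of_nonneg_left hx.le (by linarith)
    linarith
  have hy : ∀ a ∈ (chart V c (1 / 4)).G, ‖(chart V c (1 / 4)).x a‖ < 2 / 25 →
      (chart V c (1 / 4)).y a = 0 := by
    intro a ha hx
    have e1 : (chart V c (1 / 4)).y a = c.ht (1 / 4) a.1 :=
      indicator_of_mem ha.1 fun a : H × (H →L[ℝ] H) => c.ht (1 / 4) a.1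
    rw [e1]
    unfold Cen.ht
    rw [hG a ha hx, sub_self]
  have hpos : ∀ ρ : ℝ, 0 < ρ → ¬∀ᵐ a ∂(chart V c (1 / 4)).m, ρ / 2 < ‖(chart V c (1 / 4)).x a‖ := by
    intro ρ hρ hcon
    have t0 : (0 : H) ∈ c.tube (1 / 4) := ⟨0, f0⟩
    have e1 : ∀ᶠ p in 𝓝 (0 : H), p ∈ c.tube (1 / 4) := (h.1.isOpen_tube hε hR).mem_nhds t0
    have e2 : ∀ᶠ p in 𝓝 (0 : H), ‖c.foot (1 / 4) p‖ < ρ / 2 :=
      (h.1.hasFDerivAt_foot hε hR t0).continuousAt.norm.eventually_lt continuousAt_const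
        (by rw [ft0, norm_zero]; linarith)
    obtain ⟨r, hr, hb⟩ := Metric.mem_nhds_iff.1 (e1.and e2)
    have h1 := (Measure.mem_support_iff_forall _).1 z0 (ball 0 r) (ball_mem_nhds _ hr)
    rw [Measure.fst_apply measurableSet_ball] at h1
    refine h1.ne' (measure_eq_zero_iff_ae_notMem.2 ?_)
    filter_upwards [(h.1.chart_ae hε hR).1 hcon] with a ha hm
    have h2 := hb hm
    have h3 : ρ / 2 < ‖c.foot (1 / 4) a.1‖ := ha h2.1
    linarith [h2.2]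
  have hz1 : z ∈ ball (0 : ℂ) (1 / 4) := mem_ball_zero_iff.2 (by linarith)
  have hc : ContinuousAt c.F z := (h.1.der z hz1).continuousAt
  rw [← Measure.isClosed_support.closure_eq, Metric.mem_closure_iff]
  intro e he
  obtain ⟨d, hd, hd1⟩ := Metric.continuousAt_iff.1 hc e he
  have hρ : 0 < min d (1 / 100) := lt_min hd (by norm_num)
  have hρ1 : min d (1 / 100) ≤ 1 / 100 := min_le_right _ _
  obtain ⟨a, ha, hx⟩ := dense_ChZ3 hcv le_rfl (r := 2 / 25) (by norm_num) (by norm_num) hy hρ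
    (hpos _ hρ) (u := z) (by linarith)
  have hx1 : ‖z - c.foot (1 / 4) a.1‖ < min d (1 / 100) := hx
  have hx2 : ‖c.foot (1 / 4) a.1‖ < 2 / 25 := by
    have h2 : ‖c.foot (1 / 4) a.1‖ - ‖z‖ ≤ ‖c.foot (1 / 4) a.1 - z‖ := norm_sub_norm_le _ _
    rw [norm_sub_rev] at h2
    linarith
  refine ⟨a.1, ha.2.2, ?_⟩
  rw [← hG a ha hx2, dist_comm]
  refine hd1 ?_
  rw [dist_comm, dist_eq_norm]
  exact hx1.trans_le (min_le_left _ _)

end Pool.Agent.Lib.MP_8daebb_an.SV.Ch
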