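import Pool.Agent.Lib.MP_8daebb_an.SV.ChD0

/-! A centre is a smooth graph. -/

open MeasureTheory Metric Set Complex Filter Topology
open scoped RealInnerProductSpace ComplexConjugate ContDiff ENNReal

namespace Pool.Agent.Lib.MP_8daebb_an.SV.Ch

variable {H : Type*} [NormedAddCommGroup H] [InnerProductSpace ℝ H] [FiniteDimensional ℝ H]
  [MeasurableSpace H] [BorelSpace H]

omit [MeasurableSpace H] [BorelSpace H] in
theorem exists_adj_ChZ4 (ι : ℂ →ₗᵢ[ℝ] H) : ∃ A : H →L[ℝ] ℂ, (∀ u q, ⟪A u, q⟫ = ⟪u, ι q⟫) ∧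
    (∀ v, A (ι v) = v) ∧ ∀ u, ‖A u‖ ≤ ‖u‖ := by
  have : CompleteSpace H := FiniteDimensional.complete ℝ H
  have h1 : ∀ u q, ⟪ContinuousLinearMap.adjoint ι.toContinuousLinearMap u, q⟫ = ⟪u, ι q⟫ :=
    fun u q => ContinuousLinearMap.adjoint_inner_left _ _ _
  refine ⟨_, h1, fun v => ext_inner_right ℝ fun q => by rw [h1, ι.inner_map_map], fun u => ?_⟩
  have h2 := h1 u (ContinuousLinearMap.adjoint ι.toContinuousLinearMap u)
  rw [real_inner_self_eq_norm_mul_norm] at h2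
  have h3 := real_inner_le_norm u (ι (ContinuousLinearMap.adjoint ι.toContinuousLinearMap u))
  rw [ι.norm_map, ← h2] at h3
  rcases (norm_nonneg (ContinuousLinearMap.adjoint ι.toContinuousLinearMap u)).eq_or_lt with e | e
  · rw [← e]; exact norm_nonneg _
  · exact le_of_mul_le_mul_right h3 e

theorem exists_equiv_ChZ4 {D : ℂ →L[ℝ] ℂ} (h : ∀ v, ‖D v - v‖ ≤ 1 / 2 * ‖v‖) :
    ∃ e : ℂ ≃L[ℝ] ℂ, (e : ℂ →L[ℝ] ℂ) = D := by
  have h1 : LinearMap.ker (D : ℂ →ₗ[ℝ] ℂ) = ⊥ := LinearMap.ker_eq_bot'.2 fun v hv => by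
    have h2 := h v
    rw [show D v = 0 from hv, zero_sub, norm_neg] at h2
    exact norm_le_zero_iff.1 (by linarith)
  exact ⟨ContinuousLinearEquiv.ofBijective D h1 (LinearMap.ker_eq_bot_iff_range_eq_top.1 h1),
    ContinuousLinearEquiv.coe_ofBijective _ _ _⟩

theorem graph_of_centre {ι : ℂ →ₗᵢ[ℝ] H} {c : Cen H} {ε : ℝ} (h : Pre ι c ε (1 / 4))
    (hε : ε ≤ 1 / 100) (h0 : c.F 0 = 0) {S : Set H}
    (h1 : S ∩ ball 0 (1 / 10) ⊆ c.F '' closedBall 0 (1 / 5))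
    (h2 : ∀ z : ℂ, ‖z‖ < 1 / 50 → c.F z ∈ S) : GraphAt0 S ι := by
  obtain ⟨A, a1, a2, a3⟩ := exists_adj_ChZ4 ι
  have z0 : (0 : ℂ) ∈ ball (0 : ℂ) (1 / 4) := mem_ball_self (by norm_num)
  have hA : ApproximatesLinearOn (fun z => A (c.F z))
      (ContinuousLinearEquiv.refl ℝ ℂ : ℂ →L[ℝ] ℂ) (ball 0 (1 / 4)) (1 / 2) := fun z hz w hw => by
    have e : A (c.F z) - A (c.F w) - (ContinuousLinearEquiv.refl ℝ ℂ : ℂ →L[ℝ] ℂ) (z - w) =
        A (c.F z - c.F w - ι (z - w)) := by rw [map_sub A, map_sub A, a2]; rfl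
    rw [e]
    refine (a3 _).trans ((h.near_iso hz hw).trans (mul_le_mul_of_nonneg_right ?_ (norm_nonneg _)))
    push_cast
    linarith
  obtain ⟨e, e1, e2⟩ : ∃ e : OpenPartialHomeomorph ℂ ℂ, (∀ z, e z = A (c.F z)) ∧
      e.source = ball 0 (1 / 4) :=
    ⟨hA.toOpenPartialHomeomorph _ _ (Or.inr (by simp; norm_num)) isOpen_ball, fun _ => rfl, rfl⟩
  have e3 : (e : ℂ → ℂ) = fun z => A (c.F z) := funext e1
  have t0 : (0 : ℂ) ∈ e.target := by
    have := e.map_source (e2 ▸ z0)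
    rwa [e1, h0, map_zero] at this
  obtain ⟨ρ, hρ, hb⟩ := Metric.isOpen_iff.1 e.open_target 0 t0
  have sF : ∀ z ∈ ball (0 : ℂ) (1 / 4), ContDiffAt ℝ ∞ c.F z := fun z hz =>
    h.smoothF.contDiffAt (isOpen_ball.mem_nhds hz)
  have sm : ∀ p ∈ e.target, ContDiffAt ℝ ∞ e.symm p := fun p hp => by
    have hz : e.symm p ∈ ball (0 : ℂ) (1 / 4) := e2 ▸ e.map_target hp
    obtain ⟨D, hD⟩ := exists_equiv_ChZ4 (D := A.comp (sp (c.Φ (e.symm p)))) fun v => by
      have e4 : (A.comp (sp (c.Φ (e.symm p)))) v - v =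
          A (sp (c.Φ (e.symm p) - zd ι.toContinuousLinearMap) v) := by
        rw [map_sub, sp_zd, ContinuousLinearMap.sub_apply, map_sub]
        exact congrArg _ (a2 v).symm
      rw [e4]
      refine (a3 _).trans ((norm_sp_le _ _).trans (mul_le_mul_of_nonneg_right ?_ (norm_nonneg _)))
      linarith [h.n0 _ hz]
    refine e.contDiffAt_symm (f₀' := D) hp ?_ ?_
    · rw [hD, e3]
      exact A.hasFDerivAt.comp _ (h.der _ hz)
    · rw [e3]
      exact A.contDiff.contDiffAt.comp _ (sF _ hz)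
  obtain ⟨r, r0, r1, r2⟩ : ∃ r : ℝ, 0 < r ∧ 2 * r < ρ ∧ r ≤ 1 / 100 :=
    ⟨min (ρ / 3) (1 / 100), by positivity, by linarith [min_le_left (ρ / 3) (1 / 100)],
      min_le_right _ _⟩
  let χ : ContDiffBump (0 : ℂ) := ⟨r, 2 * r, r0, by linarith⟩
  have c1 : ∀ p : ℂ, ‖p‖ < r → χ p = 1 := fun p hp =>
    χ.one_of_mem_closedBall (mem_closedBall_zero_iff.2 hp.le)
  have c2 : tsupport χ ⊆ e.target := by
    rw [χ.tsupport_eq]
    exact (closedBall_subset_ball r1).trans hb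
  have o1 : ∀ p, A (χ p • (c.F (e.symm p) - ι p)) = 0 := fun p => by
    by_cases hp : χ p = 0
    · simp [hp]
    · rw [map_smul, map_sub, ← e1, e.right_inv (c2 (subset_tsupport _ hp)), a2, sub_self, smul_zero]
  refine ⟨r, r0, fun p => χ p • (c.F (e.symm p) - ι p), contDiff_iff_contDiffAt.2 fun p => ?_,
    fun p q => by rw [← a1, o1, inner_zero_left], Set.ext fun x => ⟨fun hx => ⟨?_, hx.2⟩, ?_⟩⟩
  · by_cases hp : p ∈ tsupport χ
    · exact χ.contDiff.contDiffAt.smul (((sF _ (e2 ▸ e.map_target (c2 hp))).comp p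
        (sm p (c2 hp))).sub ι.toContinuousLinearMap.contDiff.contDiffAt)
    · refine (contDiffAt_const (c := (0 : H))).congr_of_eventuallyEq ?_
      filter_upwards [notMem_tsupport_iff_eventuallyEq.1 hp] with q hq
      rw [hq, Pi.zero_apply, zero_smul]
  · obtain ⟨z, hz, rfl⟩ := h1 ⟨hx.1, ball_subset_ball (by linarith) hx.2⟩
    refine ⟨e z, ?_⟩
    have hz' : z ∈ e.source := e2 ▸ closedBall_subset_ball (by norm_num) hz
    have : ‖e z‖ < r := by
      rw [e1]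
      exact (a3 _).trans_lt (mem_ball_zero_iff.1 hx.2)
    simp only [c1 _ this, one_smul, e.left_inv hz', add_sub_cancel]
  · rintro ⟨⟨p, rfl⟩, hx⟩
    refine ⟨?_, hx⟩
    rw [mem_ball_zero_iff] at hx
    have hp : ‖p‖ < r := by
      have := (a3 _).trans_lt hx
      rwa [map_add, o1, a2, add_zero] at this
    simp only [c1 p hp, one_smul, add_sub_cancel] at hx ⊢
    have hz : e.symm p ∈ ball (0 : ℂ) (1 / 4) :=
      e2 ▸ e.map_target (hb (mem_ball_zero_iff.2 (by linarith)))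
    have h3 := h.near_iso hz z0
    rw [h0, sub_zero, sub_zero] at h3
    have h4 := norm_le_norm_add_norm_sub (c.F (e.symm p)) (ι (e.symm p))
    rw [ι.norm_map] at h4
    exact h2 _ (by nlinarith [norm_nonneg (e.symm p)])

end Pool.Agent.Lib.MP_8daebb_an.SV.Ch
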