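import Pool.Agent.Lib.MP_8daebb_an.SV.ChNewt
import Pool.Agent.Lib.MP_8daebb_an.SV.ChS
import Pool.Agent.Lib.MP_8daebb_an.SV.ChZ1
import Pool.Agent.Lib.MP_8daebb_an.SV.ChZ2
import Pool.Agent.Lib.MP_8daebb_an.SV.ChZ3
import Pool.Agent.Lib.MP_8daebb_an.SV.ChZ4

/-! The system of charts, and the case of zero energy. -/

open MeasureTheory Metric Set Complex Filter Topology
open scoped RealInnerProductSpace ComplexConjugate ContDiff ENNReal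

namespace Pool.Agent.Lib.MP_8daebb_an.SV.Ch

variable {H : Type*} [NormedAddCommGroup H] [InnerProductSpace ℝ H] [FiniteDimensional ℝ H]
  [MeasurableSpace H] [BorelSpace H]

theorem sysA (M θ : ℝ) : ∃ M₁ : ℝ, ∀ (CI : ℝ) (Q : ℕ), ∃ CN cN : ℝ, 1 ≤ CN ∧ 0 < cN ∧
    ∀ δ > 0, ∃ e₀ > 0, ∀ e₁, 0 < e₁ → e₁ ≤ e₀ → ∀ εB > 0, ∀ δ₂ > 0, ∃ η₀ > 0, ∀ η ≤ η₀,
    ∀ (V : Measure (H × (H →L[ℝ] H))) (ι : ℂ →ₗᵢ[ℝ] H), EV V ι M θ η →
      Sys (Adm ι) (chart V) M₁ θ δ e₁ εB δ₂ CI Q CN cN := by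
  refine ⟨10 * M, fun CI Q => ?_⟩
  obtain ⟨CN, hCN, hnewt⟩ := newt_main (H := H) M CI Q
  have hT : 0 < |θ| + 1 := by positivity
  refine ⟨CN, min (1 / 100) (1 / (3600 * (|θ| + 1))), hCN, by positivity, fun δ hδ => ?_⟩
  refine ⟨min (δ / 6000) (min (1 / 12000) (1 / (10800 * (|θ| + 1)))), by positivity,
    fun e₁ he0 he1 εB hεB δ₂ hδ₂ => ?_⟩
  refine ⟨min (δ / 2000) (min (δ₂ / 1000) (min (εB / 8) (1 / 4000))), by positivity,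
    fun η hη V ι hV => ?_⟩
  simp only [le_min_iff] at he1 hη
  obtain ⟨e1, e2, e3⟩ := he1
  obtain ⟨n1, n2, n3, n4⟩ := hη
  set cN := min (1 / 100 : ℝ) (1 / (3600 * (|θ| + 1))) with hcN
  have c0 : 0 < cN := by positivity
  have c1 : cN ≤ 1 / 100 := min_le_left _ _
  have c2 : cN ≤ 1 / (3600 * (|θ| + 1)) := min_le_right _ _
  have hη0 := ev_eps_nonneg hV
  have hθ := hV.θ_ge
  have hθa : |θ| = θ := abs_of_pos (by linarith)
  rw [hθa] at e3 c2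
  have t1 : θ * e₁ ≤ 1 / 10800 := by
    rw [le_div_iff₀ (by positivity)] at e3
    nlinarith
  have t2 : θ * cN ≤ 1 / 3600 := by
    rw [le_div_iff₀ (by positivity)] at c2
    nlinarith
  have hη' : η ≤ 1 / 100 := by linarith
  have t3 : ∀ ε : ℝ, ε ≤ 3 * e₁ → θ * ε ≤ 1 / 3600 := fun ε hε => by nlinarith
  refine ⟨hθ, fun c ε ε' R h hε => ⟨h.1.mono hε le_rfl, h.2⟩,
    fun c ε R h hε hR0 hR => h.1.cv (by linarith) hR hR0 hV hη' (by linarith),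
    ⟨_, adm_flat ι 2, (adm_flat ι 2).1.cv (by norm_num) le_rfl (by norm_num) hV hη' (by linarith)⟩,
    fun c ε R σ h hε hR hσ hσR hσ1 hy => ?_, fun c ε R σ h hε hR hσ hσR hσ1 hy => ?_,
    fun η' hη'0 => ?_, fun c ε R R₁ l s ρ β εJ N h hε hR hR₁ hms hρ hl hβ hJ hJ' =>
      hnewt V ι c θ η δ cN ε R R₁ l s ρ β εJ N hV h (by linarith) c0 c1 hR hR₁ hms hρ hl hβ hJ hJ'⟩
  · refine (h.mass_near (by linarith) hR hV hη' hσ hσR hσ1 c1 hy).trans ?_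
    have := t3 ε hε
    have h4 : 2 * η + 300 * θ * (ε + cN) ≤ 1 / 4 := by nlinarith
    nlinarith [sq_nonneg σ]
  · have := t3 ε hε
    refine (h.bad_le (by linarith) hR hV hη' (by nlinarith) hσ hσR hσ1 c1 hy).trans ?_
    have h5 := hV.bad (2 * σ) (by linarith) (by linarith)
    nlinarith [sq_nonneg σ]
  · obtain ⟨σ₀, hσ₀, hb⟩ := hV.bad0 (η' / 8) (by positivity)
    refine ⟨min (σ₀ / 2) 1, by positivity, fun c ε R σ h hε hR hσ hσR hσ1 hy => ?_⟩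
    rw [le_min_iff] at hσ1
    have := t3 ε hε
    refine (h.bad_le (by linarith) hR hV hη' (by nlinarith) hσ hσR hσ1.2 c1 hy).trans ?_
    have h5 := hb (2 * σ) (by linarith) (by linarith [hσ1.1])
    nlinarith [sq_nonneg σ]

theorem sysB {V : Measure (H × (H →L[ℝ] H))} {ι : ℂ →ₗᵢ[ℝ] H} {M θ η e₁ : ℝ} (hV : EV V ι M θ η)
    (hη : η ≤ 1 / 10000) (he : e₁ ≤ 1 / 10000)
    (h : ∀ τ > 0, ∃ c R, 1 / 2 ≤ R ∧ R ≤ 2 ∧ Adm ι c (2 * e₁) R ∧ (chart V c R).En 0 (1 / 2) ≤ τ) :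
    GraphAt0 V.fst.support ι := by
  have h' : ∀ j : ℕ, ∃ c R, 1 / 2 ≤ R ∧ R ≤ 2 ∧ Adm ι c (2 * e₁) R ∧
      (chart V c R).En 0 (1 / 2) ≤ (1 / 2) ^ j := fun j => h _ (by positivity)
  choose c R h1 h2 h3 h4 using h'
  obtain ⟨c₀, φ, hφ, hc₀, hcont, hlim⟩ :=
    montel c fun j => (⟨(h3 j).1.mono le_rfl (h1 j), (h3 j).2⟩ : Adm ι (c j) (2 * e₁) (1 / 2))
  have hs := supp_sub hV (by linarith) (by linarith : 2 * e₁ ≤ 1 / 100) (c := fun j => c (φ j))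
    (R := fun j => R (φ j)) (fun j => h3 _) (fun j => ⟨h1 _, h2 _⟩)
    (fun j => (h4 _).trans (pow_le_pow_of_le_one (by norm_num) (by norm_num) (hφ.id_le j)))
    hcont hlim
  obtain ⟨h0, hsub⟩ := sub_supp hc₀ hV (by linarith) hs
  exact graph_of_centre hc₀.1 (by linarith) h0 hs hsub

end Pool.Agent.Lib.MP_8daebb_an.SV.Ch
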