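import Pool.Agent.Lib.MP_8daebb_an.SV.ChPomp

/-! Harmonic approximation of the displacement. -/

open MeasureTheory Metric Set Complex Filter Topology
open scoped RealInnerProductSpace ComplexConjugate ContDiff ENNReal

namespace Pool.Agent.Lib.MP_8daebb_an.SV.Ch

variable {H : Type*} [NormedAddCommGroup H] [InnerProductSpace ℝ H] [FiniteDimensional ℝ H]

variable {ι : ℂ →ₗᵢ[ℝ] H} {c : Cen H} {ε R : ℝ}

theorem two_le_ChN1 : (2 : WithTop ℕ∞) ≤ ((⊤ : ℕ∞) : WithTop ℕ∞) :=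
  WithTop.coe_le_coe.2 (le_top (a := (2 : ℕ∞)))

theorem harm_approx {W : ℂ → H} {r r' γ : ℝ} (hr : 0 < r') (hrr : r' < r) (hr2 : r ≤ 2)
    (hW : ContDiffOn ℝ ∞ W (ball 0 r)) (hγ : ∀ z ∈ ball (0 : ℂ) r, ‖lap W z‖ ≤ γ) :
    ∃ (w : ℂ → EC H) (W' : ℂ → H), DifferentiableOn ℂ w (ball 0 r') ∧
      (∀ z ∈ ball (0 : ℂ) r', HasFDerivAt W' (sp (w z)) z) ∧
      ∀ z ∈ ball (0 : ℂ) r', ‖W' z - W z‖ ≤ 20 * γ := by
  have h0 : (0 : ℂ) ∈ ball (0 : ℂ) r' := mem_ball_self hr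
  have hsub : ball (0 : ℂ) r' ⊆ ball 0 r := ball_subset_ball hrr.le
  have hγ0 : 0 ≤ γ := (norm_nonneg _).trans (hγ 0 (hsub h0))
  have hcW : ContDiffOn ℝ ∞ (fun z => cx (W z)) (ball 0 r) := cx.contDiff.comp_contDiffOn hW
  obtain ⟨ψ, hψ, hψn, hψd⟩ := solve_dzb (g := fun z => (1 / 4 : ℂ) • cx (lap W z)) (A := γ / 4)
    hr hrr ((cx.contDiff.comp_contDiffOn (contDiffOn_lap isOpen_ball hW)).const_smul _)
    fun z hz => by
      rw [norm_smul, norm_cx]
      have := hγ z hz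
      norm_num
      linarith
  have hWa : ∀ z ∈ ball (0 : ℂ) r', ContDiffAt ℝ 2 W z := fun z hz =>
    (hW.contDiffAt (isOpen_ball.mem_nhds (hsub hz))).of_le two_le_ChN1
  set w : ℂ → EC H := fun z => dz (fun z => cx (W z)) z - ψ z with hw
  have hol : DifferentiableOn ℂ w (ball 0 r') := by
    intro z hz
    have d1 : DifferentiableAt ℝ (dz fun z => cx (W z)) z :=
      ((contDiffOn_dz isOpen_ball hcW).1.contDiffAt
        (isOpen_ball.mem_nhds (hsub hz))).differentiableAt (by simp)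
    have d2 : DifferentiableAt ℝ ψ z := hψ.differentiable (by simp) z
    refine (hasDerivAt_of_dzb (d1.sub d2) ?_).differentiableAt.differentiableWithinAt
    refine (dz_sub d1 d2).2.trans ?_
    rw [(dzb_dz (f := fun z => cx (W z)) (cx.contDiff.contDiffAt.comp z (hWa z hz))).1, hψd z hz]
    exact sub_eq_zero.2 (congrArg _ (lap_clm cx (hWa z hz)))
  obtain ⟨P, hP⟩ := hol.isExactOn_ball
  have hd : ∀ z ∈ ball (0 : ℂ) r',
      HasFDerivAt (fun z => W 0 + sp (P z - P 0) 1) (sp (w z)) z := by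
    intro z hz
    have h1 : HasFDerivAt P (sm (w z)) z := (hP z hz).hasFDerivAt.restrictScalars ℝ
    have h2 := ((sp (H := H)).flip 1).hasFDerivAt.comp z (h1.sub_const (P 0))
    have e : ((sp (H := H)).flip 1).comp (sm (w z)) = sp (w z) := by
      refine ContinuousLinearMap.ext fun v => ?_
      change sp (v • w z) 1 = _
      rw [sp_smul, mul_one]
    rw [e] at h2
    exact h2.const_add (W 0)
  refine ⟨w, fun z => W 0 + sp (P z - P 0) 1, hol, hd, fun z hz => ?_⟩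
  have hm := (convex_ball (0 : ℂ) r').norm_image_sub_le_of_norm_hasFDerivWithin_le
    (f := fun z => W 0 + sp (P z - P 0) 1 - W z) (f' := fun z => -sp (ψ z)) (C := 6 * γ)
    (fun x hx => by
      have hx' := (hWa x hx).differentiableAt (by simp)
      have h3 := (hd x hx).sub hx'.hasFDerivAt
      have e : sp (w x) - fderiv ℝ W x = -sp (ψ x) := by
        rw [hw]
        simp only
        rw [dz_cx hx', map_sub, sp_zd]
        abel
      rw [e] at h3
      exact h3.hasFDerivWithinAt)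
    (fun x _ => by
      rw [norm_neg]
      refine (opNorm_sp_le _).trans ?_
      nlinarith [hψn x]) h0 hz
  simp only [sub_self, map_zero, zero_apply, add_zero, sub_zero] at hm
  have hz2 : ‖z‖ ≤ 2 := by
    rw [mem_ball_zero_iff] at hz
    linarith
  nlinarith

theorem Pre.newt1 (h : Pre ι c ε R) (hε : ε ≤ 1 / 100) (hR : R ≤ 2) {J : ℂ → H} {g : ℂ → ℂ}
    {k : ℂ → EC H} (hJ : ContDiff ℝ ∞ J) (hg : ContDiff ℝ ∞ g) (hk : ContDiff ℝ ∞ k)
    {r r' β γ : ℝ} (hr : 0 < r') (hrr : r' < r) (hrR : r ≤ R)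
    (h1 : ∀ z ∈ ball (0 : ℂ) r, ‖g z‖ ≤ β) (h2 : ∀ z ∈ ball (0 : ℂ) r, ‖g z • c.Φ z - k z‖ ≤ γ)
    (h3 : ∀ z ∈ ball (0 : ℂ) r, ‖lap J z + (4 : ℝ) • sp (dz k z) 1‖ ≤ γ) :
    ∃ (ψ : ℂ → ℂ) (w : ℂ → EC H) (W : ℂ → H), ContDiff ℝ ∞ ψ ∧ (∀ z, ‖ψ z‖ ≤ 12 * β) ∧
      (∀ z ∈ ball (0 : ℂ) r', dzb ψ z = g z) ∧ DifferentiableOn ℂ w (ball 0 r') ∧
      (∀ z ∈ ball (0 : ℂ) r', HasFDerivAt W (sp (w z)) z) ∧
      ∀ z ∈ ball (0 : ℂ) r', ‖W z - (J z + sp (c.Φ z) (ψ z))‖ ≤ 50 * γ := by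
  have _ := hε
  have h0 : (0 : ℂ) ∈ ball (0 : ℂ) r := mem_ball_self (by linarith)
  have hβ0 : 0 ≤ β := (norm_nonneg _).trans (h1 0 h0)
  have hγ0 : 0 ≤ γ := (norm_nonneg _).trans (h2 0 h0)
  set s := (r + r') / 2 with hs
  have s0 : 0 < s := by linarith
  have s1 : s < r := by linarith
  have s2 : r' < s := by linarith
  have hΦ : ContDiffOn ℝ ∞ c.Φ (ball 0 r) := h.smooth0.mono (ball_subset_ball hrR)
  have hsub : ball (0 : ℂ) s ⊆ ball 0 r := ball_subset_ball s1.le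
  obtain ⟨ψ, hψ, hψn, hψd⟩ := solve_dzb s0 s1 hg.contDiffOn h1
  obtain ⟨Z, hZ, hZn, hZd⟩ := solve_dzb (g := fun z => g z • c.Φ z - k z) s0 s1
    ((hg.contDiffOn.smul hΦ).sub hk.contDiffOn) h2
  set U : ℂ → EC H := fun z => ψ z • c.Φ z - Z z with hU
  have hUs : ContDiffOn ℝ ∞ U (ball 0 s) :=
    (hψ.contDiffOn.smul (hΦ.mono hsub)).sub hZ.contDiffOn
  have hUd : ∀ z ∈ ball (0 : ℂ) s, dzb U z = k z := by
    intro z hz
    have hzR : z ∈ ball (0 : ℂ) R := ball_subset_ball hrR (hsub hz)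
    have d1 : DifferentiableAt ℝ ψ z := hψ.differentiable (by simp) z
    have d2 : DifferentiableAt ℝ c.Φ z := (h.hasFDerivAt hzR).differentiableAt
    have d3 : DifferentiableAt ℝ Z z := hZ.differentiable (by simp) z
    refine (dz_sub (d1.smul d2) d3).2.trans ?_
    refine (congrArg (· - dzb Z z) (dz_smul d1 d2).2).trans ?_
    rw [(dz_of_hasDerivAt (h.hasDerivAt hzR)).2, hψd z hz, hZd z hz, smul_zero]
    abel
  set L : EC H →L[ℝ] H := (sp (H := H)).flip 1 with hL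
  obtain ⟨w, W, k1, k2, k3⟩ := harm_approx (W := fun z => J z + L (U z)) (γ := γ) hr s2
    (by linarith) (hJ.contDiffOn.add (L.contDiff.comp_contDiffOn hUs)) fun z hz => by
      have a1 : ContDiffAt ℝ 2 U z := (hUs.contDiffAt (isOpen_ball.mem_nhds hz)).of_le two_le_ChN1
      have a2 : lap U z = (4 : ℝ) • dz k z := by
        have e : dzb U =ᶠ[𝓝 z] k := by
          filter_upwards [isOpen_ball.mem_nhds hz] with x hx using hUd x hx
        rw [← (dz_congr e).1, (dzb_dz a1).2, ← Complex.coe_smul, smul_smul]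
        norm_num
      have a3 := lap_add (hJ.contDiffAt.of_le two_le_ChN1) (L.contDiff.contDiffAt.comp z a1)
      refine (congrArg norm (a3.trans ?_)).trans_le (h3 z (hsub hz))
      refine congrArg (lap J z + ·) ((lap_clm L a1).trans ?_)
      rw [a2, map_smul]
      rfl
  refine ⟨ψ, w, W, hψ, fun z => (hψn z).trans (by nlinarith), fun z hz =>
    hψd z (ball_subset_ball s2.le hz), k1, k2, fun z hz => ?_⟩
  have e : W z - (J z + sp (c.Φ z) (ψ z)) = W z - (J z + L (U z)) - sp (Z z) 1 := by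
    have : L (U z) = sp (c.Φ z) (ψ z) - sp (Z z) 1 := by
      change sp (ψ z • c.Φ z - Z z) 1 = _
      rw [map_sub, sub_apply, sp_smul, mul_one]
    rw [this]
    abel
  rw [e]
  refine (norm_sub_le_of_le (k3 z hz) (norm_sp_le _ _)).trans ?_
  rw [norm_one]
  nlinarith [hZn z]

end Pool.Agent.Lib.MP_8daebb_an.SV.Ch
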