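import Pool.Agent.Lib.MP_8daebb_an.SV.ChPomp

/-! The harmonic displacement is small and almost conformal. -/

open MeasureTheory Metric Set Complex Filter Topology
open scoped RealInnerProductSpace ComplexConjugate ContDiff ENNReal

namespace Pool.Agent.Lib.MP_8daebb_an.SV.Ch

variable {H : Type*} [NormedAddCommGroup H] [InnerProductSpace ℝ H] [FiniteDimensional ℝ H]

lemma smooth_ChN2 {W : ℂ → H} {w : ℂ → EC H} {s : Set ℂ} (hs : IsOpen s)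
    (hw : ContinuousOn w s) (hW : ∀ z ∈ s, HasFDerivAt W (sp (w z)) z) : ContDiffOn ℝ 1 W s := by
  have h : ContDiffOn ℝ (0 + 1) W s := by
    refine (contDiffOn_succ_iff_fderiv_of_isOpen hs).2 ⟨fun z hz =>
      (hW z hz).differentiableAt.differentiableWithinAt, fun g => absurd g (by simp), ?_⟩
    rw [contDiffOn_zero]
    exact ((sp (H := H)).continuous.comp_continuousOn hw).congr fun z hz => (hW z hz).fderiv
  simpa using h

lemma A_le_ChN2 {Φ : EC H} (h : Cf Φ) {W J : H} {ψ : ℂ} {γ : ℝ}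
    (h1 : ‖W - (J + sp Φ ψ)‖ ≤ 50 * γ) (h2 : ‖pr Φ J‖ ≤ γ) :
    ‖bil Φ (cx W) - (1 / 2 : ℂ) • ((om Φ : ℂ) • conj ψ)‖ ≤ 27 * γ := by
  have e : bil Φ (cx W) - (1 / 2 : ℂ) • ((om Φ : ℂ) • conj ψ) =
      conj (pr Φ (W - (J + sp Φ ψ)) + pr Φ J) / 2 := by
    rw [bil_cx]
    simp only [map_sub, map_add, pr_sp_self h.conf, map_mul, conj_ofReal, smul_eq_mul]
    ring
  have g1 := h.norm_pr_le (W - (J + sp Φ ψ))
  have g2 := norm_add_le (pr Φ (W - (J + sp Φ ψ))) (pr Φ J)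
  have g3 := norm_nonneg (pr Φ J)
  rw [e, norm_div, Complex.norm_conj, Complex.norm_two]
  linarith

lemma B_le_ChN2 {ε : ℝ} {Φ Φ₁ Φ₂ : EC H} (h : Jet ε Φ Φ₁ Φ₂ 0) {W J : H} {ψ g : ℂ} {γ : ℝ}
    (h1 : ‖W - (J + sp Φ ψ)‖ ≤ 50 * γ) (h2 : ‖g - mu Φ Φ₁ J‖ ≤ γ) :
    ‖(1 / 2 : ℂ) • (((om Φ : ℂ) * al Φ Φ₁) • conj ψ + (om Φ : ℂ) • conj g) - bil Φ₁ (cx W)‖ ≤
      2 * γ := by
  have o1 := h.cf.om_low
  have o2 := h.cf.om_up
  have o3 : (om Φ : ℂ) ≠ 0 := by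
    rw [ofReal_ne_zero]
    linarith
  have e0 : pr Φ₁ J = (om Φ : ℂ) * mu Φ Φ₁ J := by
    rw [mu, real_smul, ofReal_inv, mul_inv_cancel_left₀ o3]
  have e : (1 / 2 : ℂ) • (((om Φ : ℂ) * al Φ Φ₁) • conj ψ + (om Φ : ℂ) • conj g) - bil Φ₁ (cx W) =
      conj ((om Φ : ℂ) * (g - mu Φ Φ₁ J) - pr Φ₁ (W - (J + sp Φ ψ))) / 2 := by
    rw [bil_cx]
    simp only [map_sub, map_add, h.pr1_sp, e0, map_mul, conj_ofReal, smul_eq_mul, conj_conj]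
    ring
  have g0 := norm_nonneg (g - mu Φ Φ₁ J)
  have g1 : ‖pr Φ₁ (W - (J + sp Φ ψ))‖ ≤ 2 * (1 / 100) * (50 * γ) := by
    refine (norm_pr_le _ _).trans ?_
    have := h.n1.trans h.eps1
    gcongr
  have g2 := norm_sub_le ((om Φ : ℂ) * (g - mu Φ Φ₁ J)) (pr Φ₁ (W - (J + sp Φ ψ)))
  have g3 : ‖(om Φ : ℂ) * (g - mu Φ Φ₁ J)‖ ≤ 11 / 10 * γ := by
    rw [norm_mul, norm_real, Real.norm_of_nonneg (by linarith)]
    gcongr
  rw [e, norm_div, Complex.norm_conj, Complex.norm_two]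
  linarith

theorem newt2 : ∃ C : ℝ, 50 ≤ C ∧ ∀ (ι : ℂ →ₗᵢ[ℝ] H) (c : Cen H) (ε R r l β γ : ℝ) (J W : ℂ → H)
    (g ψ : ℂ → ℂ) (w : ℂ → EC H), Pre ι c ε R → ε ≤ 1 / 100 → r ≤ R → 0 < l → l ≤ 1 →
    ContDiff ℝ ∞ J → ContDiff ℝ ∞ ψ → (∀ z, ‖ψ z‖ ≤ 12 * β) →
    (∀ z ∈ ball (0 : ℂ) r, dzb ψ z = g z) → DifferentiableOn ℂ w (ball 0 r) →
    (∀ z ∈ ball (0 : ℂ) r, HasFDerivAt W (sp (w z)) z) →
    (∀ z ∈ ball (0 : ℂ) r, ‖W z - (J z + sp (c.Φ z) (ψ z))‖ ≤ 50 * γ) →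
    (∀ z ∈ ball (0 : ℂ) r, ‖J z‖ ≤ β) → (∀ z ∈ ball (0 : ℂ) r, ‖pr (c.Φ z) (J z)‖ ≤ γ) →
    (∀ z ∈ ball (0 : ℂ) r, ‖g z - mu (c.Φ z) (deriv c.Φ z) (J z)‖ ≤ γ) →
    ∀ z : ℂ, ‖z‖ + l ≤ r → ‖W z‖ ≤ C * (β + γ) / l ∧ ‖w z‖ ≤ C * (β + γ) / l ∧
      ‖bil (c.Φ z) (w z)‖ ≤ C * γ / l := by
  obtain ⟨C1, hC1, H1⟩ := holo_bound (F := EC H)
  obtain ⟨C2, hC2, H2⟩ := holo_bound (F := ℂ)
  obtain ⟨B, hB⟩ := exists_bilL (H := H)
  refine ⟨50 * (C1 + C2), by linarith, ?_⟩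
  intro ι c ε R r l β γ J W g ψ w h hε hr hl hl1 _ hψ b1 b2 hw hW b3 b4 b5 b6 z hz
  have s1 : ball z l ⊆ ball (0 : ℂ) r := fun u hu => by
    rw [mem_ball_zero_iff]
    have g1 := mem_ball_iff_norm.1 hu
    have g2 := norm_add_le (u - z) z
    rw [sub_add_cancel] at g2
    linarith
  have s2 : ball z l ⊆ ball (0 : ℂ) R := s1.trans (ball_subset_ball hr)
  have hz1 := s1 (mem_ball_self hl)
  have hβ : 0 ≤ β := (norm_nonneg _).trans (b4 z hz1)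
  have hγ : 0 ≤ γ := (norm_nonneg _).trans (b5 z hz1)
  have hWb : ∀ u ∈ ball z l, ‖W u‖ ≤ 50 * (β + γ) := by
    intro u hu
    have g1 := b3 u (s1 hu)
    have g2 := b4 u (s1 hu)
    have g3 := (h.cf hε (s2 hu)).norm_sp_le (ψ u)
    have g4 := b1 u
    have g5 := norm_add_le (J u) (sp (c.Φ u) (ψ u))
    have g6 := norm_add_le (W u - (J u + sp (c.Φ u) (ψ u))) (J u + sp (c.Φ u) (ψ u))
    rw [sub_add_cancel] at g6
    linarith
  have hW1 : ContDiffOn ℝ 1 W (ball z l) :=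
    smooth_ChN2 isOpen_ball (hw.continuousOn.mono s1) fun u hu => hW u (s1 hu)
  have hcW : ContDiffOn ℝ 1 (fun u => cx (W u)) (ball z l) :=
    (cx (H := H)).contDiff.comp_contDiffOn hW1
  have hdz : ∀ u ∈ ball z l, dz (fun u => cx (W u)) u = w u := fun u hu => by
    rw [dz_cx (hW u (s1 hu)).differentiableAt, (hW u (s1 hu)).fderiv, zd_sp]
  have hΦ : ContDiffOn ℝ 1 c.Φ (ball z l) := (h.smooth0.of_le (by simp)).mono s2
  have ho : ContDiffOn ℝ 1 (fun u => ((om (c.Φ u) : ℝ) : ℂ)) (ball z l) :=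
    ofRealCLM.contDiff.comp_contDiffOn ((h.om_smooth.of_le (by simp)).mono s2)
  have hψ1 : ContDiff ℝ 1 ψ := hψ.of_le (by simp)
  have hcψ : ContDiff ℝ 1 fun u => conj (ψ u) := conjCLE.contDiff.comp hψ1
  have hb : ContDiffOn ℝ 1 (fun u => bil (c.Φ u) (cx (W u))) (ball z l) := by
    simp only [bil_cx]
    exact (conjCLE.contDiff.comp_contDiffOn
      (((pr (H := H)).contDiff.comp_contDiffOn hΦ).clm_apply hW1)).div_const 2
  have hoψ : ContDiffOn ℝ 1 (fun u => ((om (c.Φ u) : ℝ) : ℂ) • conj (ψ u)) (ball z l) :=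
    ho.smul hcψ.contDiffOn
  have dd : ∀ {F : Type} [NormedAddCommGroup F] [NormedSpace ℝ F] {f : ℂ → F},
      ContDiffOn ℝ 1 f (ball z l) → ∀ u ∈ ball z l, DifferentiableAt ℝ f u :=
    fun hf u hu => (hf.contDiffAt (isOpen_ball.mem_nhds hu)).differentiableAt one_ne_zero
  have k1 := H1 w (fun u => cx (W u)) (fun _ => 0) z l (50 * (β + γ)) 0 hl (hw.mono s1) hcW
    (fun u hu => by rw [hdz u hu, add_zero]) (fun u hu => (norm_cx _).trans_le (hWb u hu))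
    (fun _ _ => norm_zero.le)
  have k2 := H2 (fun u => bil (c.Φ u) (w u))
    (fun u => bil (c.Φ u) (cx (W u)) - (1 / 2 : ℂ) • (((om (c.Φ u) : ℝ) : ℂ) • conj (ψ u)))
    (fun u => (1 / 2 : ℂ) • (((om (c.Φ u) : ℂ) * al (c.Φ u) (deriv c.Φ u)) • conj (ψ u) +
      (om (c.Φ u) : ℂ) • conj (g u)) - bil (deriv c.Φ u) (cx (W u))) z l (27 * γ) (2 * γ) hl
    (by
      simp only [← hB]
      exact (B.differentiable.comp_differentiableOn (h.hol.mono s2)).clm_apply (hw.mono s1))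
    (hb.sub (hoψ.const_smul (1 / 2 : ℂ)))
    (fun u hu => by
      have q1 := (dz_sub (dd hb u hu) (dd (hoψ.const_smul (1 / 2 : ℂ)) u hu)).1
      have q2 := dz_bil (dd hΦ u hu) (dd hcW u hu)
      have q3 := (dz_smul (differentiableAt_const (1 / 2 : ℂ)) (dd hoψ u hu)).1
      have q4 := (dz_smul (dd ho u hu) (dd hcψ.contDiffOn u hu)).1
      have q5 := dz_conj (dd hψ1.contDiffOn u hu)
      have q6 := (dz_of_hasDerivAt (h.hasDerivAt (s2 hu))).1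
      have q7 := (dz_of_hasDerivAt (hasDerivAt_const u (1 / 2 : ℂ))).1
      rw [q1, q2, q3, q4, q5, q6, q7, hdz u hu, h.dz_om hε (s2 hu), b2 u (s1 hu), zero_smul]
      ring)
    (fun u hu => A_le_ChN2 (h.cf hε (s2 hu)) (b3 u (s1 hu)) (b5 u (s1 hu)))
    (fun u hu => B_le_ChN2 (h.jet hε (s2 hu) (by simp) (map_zero _)) (b3 u (s1 hu))
      (b6 u (s1 hu)))
  have e1 : ∀ x : ℝ, 0 ≤ x → x ≤ x / l := fun x hx => by
    rw [le_div_iff₀ hl]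
    exact mul_le_of_le_one_right hx hl1
  have p1 : 0 ≤ (β + γ) / l := by positivity
  have p2 : 0 ≤ γ / l := by positivity
  simp only [mul_div_assoc, add_zero] at k1 k2 ⊢
  refine ⟨?_, ?_, ?_⟩
  · have g1 := hWb z (mem_ball_self hl)
    have g2 := e1 (β + γ) (by positivity)
    nlinarith
  · nlinarith
  · have g2 := e1 γ hγ
    have g3 := mul_le_mul_of_nonneg_left g2 (by linarith : 0 ≤ C2)
    nlinarith

end Pool.Agent.Lib.MP_8daebb_an.SV.Ch
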