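import Pool.Agent.Lib.MP_8daebb_an.SV.ChD0

/-! The conformal correction. -/

open MeasureTheory Metric Set Complex Filter Topology
open scoped RealInnerProductSpace ComplexConjugate ContDiff ENNReal

namespace Pool.Agent.Lib.MP_8daebb_an.SV.Ch

variable {H : Type*} [NormedAddCommGroup H] [InnerProductSpace ℝ H] [FiniteDimensional ℝ H]

variable {ι : ℂ →ₗᵢ[ℝ] H} {c : Cen H} {ε R : ℝ}

theorem cauchy_ChN3 {F : Type*} [NormedAddCommGroup F] [NormedSpace ℂ F] {f : ℂ → F} {r l C : ℝ}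
    (hl : 0 < l) (hf : DifferentiableOn ℂ f (ball 0 r)) (hC : ∀ z ∈ ball (0 : ℂ) r, ‖f z‖ ≤ C) :
    ∀ z ∈ ball (0 : ℂ) (r - l), ‖deriv f z‖ ≤ C / l := by
  intro z hz
  have hs : closedBall z l ⊆ ball 0 r := closedBall_subset_ball' (by
    rw [mem_ball] at hz
    linarith)
  refine Complex.norm_deriv_le_of_forall_mem_sphere_norm_le hl
    (DifferentiableOn.diffContOnCl ?_) fun u hu => hC u (hs (sphere_subset_closedBall hu))
  rw [closure_ball z hl.ne']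
  exact hf.mono hs

/-- The pointwise conformal correction. -/
theorem corr_ChN3 {Φ w : EC H} {a b : ℝ} (hc : bil Φ Φ = 0)
    (h0 : ‖Φ - zd ι.toContinuousLinearMap‖ ≤ 1 / 100) (ha : a ≤ 1 / 100) (h2 : ‖w‖ ≤ a)
    (h3 : ‖bil Φ w‖ ≤ b) :
    bil (Φ + w) (ep ι) ≠ 0 ∧
      ‖(bil (Φ + w) (Φ + w) / (2 * bil (Φ + w) (ep ι))) • ep ι‖ ≤ 8 / 5 * b + 4 / 5 * a ^ 2 ∧
      bil (Φ + (w - (bil (Φ + w) (Φ + w) / (2 * bil (Φ + w) (ep ι))) • ep ι))
        (Φ + (w - (bil (Φ + w) (Φ + w) / (2 * bil (Φ + w) (ep ι))) • ep ι)) = 0 := by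
  have he := norm_ep_le ι
  have e1 : bil (Φ + w) (ep ι) = 1 + bil (Φ - zd ι.toContinuousLinearMap + w) (ep ι) := by
    rw [bil_add_left, bil_add_left, bil_sub_left, bil_zd_ep]
    ring
  have e2 : ‖bil (Φ - zd ι.toContinuousLinearMap + w) (ep ι)‖ ≤ 3 / 100 := by
    refine (norm_bil_le _ _).trans ?_
    have := mul_le_mul ((norm_add_le _ _).trans (add_le_add h0 (h2.trans ha))) he (norm_nonneg _)
      (by norm_num)
    linarith
  have e3 : 97 / 100 ≤ ‖bil (Φ + w) (ep ι)‖ := by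
    have := norm_sub_le (bil (Φ + w) (ep ι)) (bil (Φ - zd ι.toContinuousLinearMap + w) (ep ι))
    rw [e1, add_sub_cancel_right, norm_one, ← e1] at this
    linarith
  have e4 : bil (Φ + w) (ep ι) ≠ 0 := norm_pos_iff.1 (by linarith)
  have e5 : bil (Φ + w) (Φ + w) = 2 * bil Φ w + bil w w := by
    rw [bil_add_left, bil_comm Φ, bil_comm w, bil_add_left, bil_add_left, hc, bil_comm w Φ]
    ring
  have e6 : ‖bil (Φ + w) (Φ + w)‖ ≤ 2 * b + a ^ 2 := by
    rw [e5]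
    refine (norm_add_le _ _).trans (add_le_add ?_ ((norm_bil_le _ _).trans ?_))
    · rw [norm_mul, Complex.norm_ofNat]
      linarith
    · rw [sq]
      exact mul_le_mul h2 h2 (norm_nonneg _) ((norm_nonneg _).trans h2)
  refine ⟨e4, ?_, ?_⟩
  · rw [norm_smul, norm_div, norm_mul, Complex.norm_ofNat, div_mul_eq_mul_div,
      div_le_iff₀ (by linarith)]
    have e7 := mul_le_mul e6 he (norm_nonneg _) ((norm_nonneg _).trans e6)
    have e8 : 0 ≤ 2 * b + a ^ 2 := (norm_nonneg _).trans e6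
    nlinarith [mul_le_mul_of_nonneg_left e3 e8]
  · rw [← add_sub_assoc]
    obtain ⟨Ψ, hΨ⟩ : ∃ Ψ, Ψ = Φ + w := ⟨_, rfl⟩
    rw [← hΨ] at e4 ⊢
    obtain ⟨σ, hσ⟩ : ∃ σ, σ = bil Ψ Ψ / (2 * bil Ψ (ep ι)) := ⟨_, rfl⟩
    rw [← hσ, bil_sub_left, bil_smul_left, bil_comm Ψ, bil_comm (ep ι), bil_sub_left, bil_sub_left,
      bil_smul_left, bil_smul_left, bil_ep_ep, bil_comm (ep ι) Ψ, hσ]
    field_simp
    ring

theorem Pre.newt3 (h : Pre ι c ε R) (hε : ε ≤ 1 / 100) (hR : R ≤ 2) {w : ℂ → EC H} {W : ℂ → H}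
    {r l a b : ℝ} (hrR : r ≤ R) (hl : 0 < l) (hl1 : l ≤ 1) (hlr : 2 * l < r) (ha : a ≤ 1 / 100)
    (hba : b ≤ a) (hw : DifferentiableOn ℂ w (ball 0 r))
    (hW : ∀ z ∈ ball (0 : ℂ) r, HasFDerivAt W (sp (w z)) z)
    (h1 : ∀ z ∈ ball (0 : ℂ) r, ‖W z‖ ≤ a) (h2 : ∀ z ∈ ball (0 : ℂ) r, ‖w z‖ ≤ a)
    (h3 : ∀ z ∈ ball (0 : ℂ) r, ‖bil (c.Φ z) (w z)‖ ≤ b) :
    ∃ c' : Cen H, Pre ι c' (ε + 5 * a / l ^ 2) (r - 2 * l) ∧ Close c c' (10 * a) r ∧
      ∀ z ∈ ball (0 : ℂ) r, ‖c'.F z - c.F z - W z‖ ≤ 7 * (b + a ^ 2) := by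
  have hr : 0 < r := by linarith
  have hsub : ball (0 : ℂ) r ⊆ ball 0 R := ball_subset_ball hrR
  have h00 : (0 : ℂ) ∈ ball (0 : ℂ) r := mem_ball_self hr
  have ha0 : 0 ≤ a := (norm_nonneg _).trans (h1 0 h00)
  have hb0 : 0 ≤ b := (norm_nonneg _).trans (h3 0 h00)
  have ha2 : a ^ 2 ≤ a / 100 := by nlinarith
  obtain ⟨S, hS⟩ : ∃ S : ℂ → EC H, S = fun z => (bil (c.Φ z + w z) (c.Φ z + w z) /
    (2 * bil (c.Φ z + w z) (ep ι))) • ep ι := ⟨_, rfl⟩
  have hc := fun z (hz : z ∈ ball (0 : ℂ) r) => corr_ChN3 (ι := ι) (h.conf z (hsub hz))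
    ((h.n0 z (hsub hz)).trans hε) ha (h2 z hz) (h3 z hz)
  have hSn : ∀ z ∈ ball (0 : ℂ) r, ‖S z‖ ≤ 8 / 5 * b + 4 / 5 * a ^ 2 := fun z hz => by
    rw [hS]
    exact (hc z hz).2.1
  have hΦ : DifferentiableOn ℂ c.Φ (ball 0 r) := h.hol.mono hsub
  have hSd : DifferentiableOn ℂ S (ball 0 r) := by
    obtain ⟨B, hB⟩ := exists_bilL (H := H)
    have hΨ : DifferentiableOn ℂ (fun z => c.Φ z + w z) (ball 0 r) := hΦ.add hw
    have hBΨ : DifferentiableOn ℂ (fun z => B (c.Φ z + w z)) (ball 0 r) :=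
      B.differentiable.comp_differentiableOn hΨ
    have d1 : DifferentiableOn ℂ (fun z => bil (c.Φ z + w z) (c.Φ z + w z)) (ball 0 r) := by
      simpa only [hB] using hBΨ.clm_apply hΨ
    have d2 : DifferentiableOn ℂ (fun z => bil (c.Φ z + w z) (ep ι)) (ball 0 r) := by
      simpa only [hB] using hBΨ.clm_apply (differentiableOn_const (ep ι))
    rw [hS]
    exact (d1.div (d2.const_mul 2) fun z hz => mul_ne_zero two_ne_zero (hc z hz).1).smul_const _
  obtain ⟨P, hP⟩ := hSd.isExactOn_ball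
  have hPn : ∀ z ∈ ball (0 : ℂ) r, ‖sp (P z - P 0) 1‖ ≤ 7 * (b + a ^ 2) := fun z hz => by
    have e1 := (convex_ball (0 : ℂ) r).norm_image_sub_le_of_norm_hasDerivWithin_le
      (fun u hu => (hP u hu).hasDerivWithinAt) hSn h00 hz
    have e2 : ‖z - 0‖ ≤ 2 := by
      rw [← dist_eq_norm]
      linarith [mem_ball.1 hz]
    have e3 := norm_sp_le (P z - P 0) 1
    rw [norm_one, mul_one] at e3
    have e4 := mul_le_mul_of_nonneg_left e2 (show 0 ≤ 8 / 5 * b + 4 / 5 * a ^ 2 by positivity)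
    linarith [sq_nonneg a]
  have hΔd : DifferentiableOn ℂ (fun z => w z - S z) (ball 0 r) := hw.sub hSd
  have hΔ0 : ∀ z ∈ ball (0 : ℂ) r, ‖w z - S z‖ ≤ 3 * a := fun z hz => by
    linarith [norm_sub_le (w z) (S z), h2 z hz, hSn z hz]
  have hΔ1 := cauchy_ChN3 hl hΔd hΔ0
  have hΔ2 := cauchy_ChN3 hl ((hΔd.deriv isOpen_ball).mono (ball_subset_ball (by linarith))) hΔ1
  have hD : ∀ z ∈ ball (0 : ℂ) r, deriv (fun z => c.Φ z + (w z - S z)) z =
      deriv c.Φ z + deriv (fun z => w z - S z) z := fun z hz =>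
    deriv_fun_add (hΦ.differentiableAt (isOpen_ball.mem_nhds hz))
      (hΔd.differentiableAt (isOpen_ball.mem_nhds hz))
  have hs2 : ball (0 : ℂ) (r - 2 * l) ⊆ ball 0 r := ball_subset_ball (by linarith)
  have hl2 : l ^ 2 ≤ l := by nlinarith
  have hl3 : 0 < l ^ 2 := by positivity
  have q1 : 3 * a / l / l ≤ 5 * a / l ^ 2 := by
    rw [div_div, ← sq]
    exact div_le_div_of_nonneg_right (by linarith) hl3.le
  have q2 : 3 * a / l ≤ 5 * a / l ^ 2 := div_le_div₀ (by linarith) (by linarith) hl3 hl2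
  have q3 : 3 * a ≤ 5 * a / l ^ 2 := by
    rw [le_div_iff₀ hl3]
    nlinarith [mul_le_mul_of_nonneg_left (hl2.trans hl1) ha0]
  refine ⟨⟨fun z => c.F z + W z - sp (P z - P 0) 1, fun z => c.Φ z + (w z - S z)⟩,
    ⟨(hΦ.add hΔd).mono hs2, fun z hz => ?_, fun z hz => ?_, fun z hz => ?_, fun z hz => ?_,
      fun z hz => ?_, ?_⟩, fun z hz => ⟨?_, ?_⟩, fun z hz => ?_⟩
  · have hz' := hs2 hz
    have e1 : HasFDerivAt (fun u => P u - P 0) (sm (S z)) z :=
      ((hP z hz').sub_const (P 0)).hasFDerivAt.restrictScalars ℝ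
    have e2 := ((sp (H := H)).flip 1).hasFDerivAt.comp z e1
    refine (((h.der z (hsub hz')).add (hW z hz')).sub e2).congr_fderiv ?_
    ext v
    simp only [map_add, map_sub, _root_.add_apply, _root_.sub_apply,
      ContinuousLinearMap.comp_apply, ContinuousLinearMap.flip_apply, sm_apply, sp_smul, mul_one]
    abel
  · have := (hc z (hs2 hz)).2.2
    simp only [hS]
    exact this
  · have e : c.Φ z + (w z - S z) - zd ι.toContinuousLinearMap =
        (c.Φ z - zd ι.toContinuousLinearMap) + (w z - S z) := by abel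
    simp only [e]
    exact (norm_add_le _ _).trans
      (add_le_add (h.n0 z (hsub (hs2 hz))) ((hΔ0 z (hs2 hz)).trans q3))
  · simp only [hD z (hs2 hz)]
    exact (norm_add_le _ _).trans (add_le_add (h.n1 z (hsub (hs2 hz)))
      ((hΔ1 z (ball_subset_ball (by linarith) hz)).trans q2))
  · have hz' := isOpen_ball.mem_nhds (hs2 hz)
    have e : deriv (fun z => c.Φ z + (w z - S z)) =ᶠ[𝓝 z]
        fun z => deriv c.Φ z + deriv (fun z => w z - S z) z := Filter.eventually_of_mem hz' hD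
    simp only [e.deriv_eq]
    rw [deriv_fun_add ((hΦ.deriv isOpen_ball).differentiableAt hz')
      ((hΔd.deriv isOpen_ball).differentiableAt hz')]
    exact (norm_add_le _ _).trans (add_le_add (h.n2 z (hsub (hs2 hz)))
      ((hΔ2 z (ball_subset_ball (by linarith) hz)).trans q1))
  · simp only [sub_self, map_zero, _root_.zero_apply, sub_zero]
    linarith [norm_add_le (c.F 0) (W 0), h.base, h1 0 h00]
  · have e : c.F z + W z - sp (P z - P 0) 1 - c.F z = W z - sp (P z - P 0) 1 := by abel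
    simp only [e]
    linarith [norm_sub_le (W z) (sp (P z - P 0) 1), h1 z hz, hPn z hz]
  · simp only [add_sub_cancel_left]
    linarith [hΔ0 z hz]
  · have e : c.F z + W z - sp (P z - P 0) 1 - c.F z - W z = -sp (P z - P 0) 1 := by abel
    simp only [e, norm_neg]
    exact hPn z hz

end Pool.Agent.Lib.MP_8daebb_an.SV.Ch
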