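import Pool.Agent.Lib.MP_8daebb_an.SV.ChN1
import Pool.Agent.Lib.MP_8daebb_an.SV.ChN2
import Pool.Agent.Lib.MP_8daebb_an.SV.ChN3
import Pool.Agent.Lib.MP_8daebb_an.SV.ChC1

/-! The analytic Newton step. -/

open MeasureTheory Metric Set Complex Filter Topology
open scoped RealInnerProductSpace ComplexConjugate ContDiff ENNReal

namespace Pool.Agent.Lib.MP_8daebb_an.SV.Ch

variable {H : Type*} [NormedAddCommGroup H] [InnerProductSpace ℝ H] [FiniteDimensional ℝ H]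

theorem newt_an : ∃ C : ℝ, 1 ≤ C ∧ ∀ (ι : ℂ →ₗᵢ[ℝ] H) (c : Cen H) (ε R r l β γ κ : ℝ) (J : ℂ → H)
    (g : ℂ → ℂ) (k : ℂ → EC H), Adm ι c ε R → ε ≤ 1 / 200 → r ≤ R → R ≤ 2 → 0 < l → 8 * l ≤ r →
    ContDiff ℝ ∞ J → ContDiff ℝ ∞ g → ContDiff ℝ ∞ k →
    (∀ z ∈ ball (0 : ℂ) r, ‖J z‖ ≤ β) → (∀ z ∈ ball (0 : ℂ) r, ‖g z‖ ≤ β) →
    (∀ z ∈ ball (0 : ℂ) r, ‖pr (c.Φ z) (J z)‖ ≤ γ) →
    (∀ z ∈ ball (0 : ℂ) r, ‖g z - mu (c.Φ z) (deriv c.Φ z) (J z)‖ ≤ γ) →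
    (∀ z ∈ ball (0 : ℂ) r, ‖g z • c.Φ z - k z‖ ≤ γ) →
    (∀ z ∈ ball (0 : ℂ) r, ‖lap J z + (4 : ℝ) • sp (dz k z) 1‖ ≤ γ) →
    C * (β + γ) / l ^ 3 ≤ κ → κ ≤ l / 100 →
    ∃ c' : Cen H, Adm ι c' (ε + κ) (r - 5 * l) ∧ Close c c' κ (r - 5 * l) ∧
      ∀ z ∈ ball (0 : ℂ) (r - 5 * l),
        ‖pn (c.Φ z) (c'.F z - c.F z) - J z‖ ≤ C * (γ / l + κ ^ 2) := by
  obtain ⟨C₂, hC₂, h2⟩ := newt2 (H := H)
  refine ⟨1100 * C₂, by linarith, ?_⟩
  intro ι c ε R r l β γ κ J g k h hε hrR hR hl hlr hJ hg hk b1 b2 b3 b4 b5 b6 hκ hκl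
  have hε' : ε ≤ 1 / 100 := by linarith
  have hl4 : l ≤ 1 / 4 := by linarith
  have hr0 : (0 : ℂ) ∈ ball (0 : ℂ) r := mem_ball_self (by linarith)
  have hβ : 0 ≤ β := (norm_nonneg _).trans (b1 0 hr0)
  have hγ : 0 ≤ γ := (norm_nonneg _).trans (b3 0 hr0)
  have sub : ∀ {ρ ρ' : ℝ}, ρ ≤ ρ' → ∀ z ∈ ball (0 : ℂ) ρ, z ∈ ball (0 : ℂ) ρ' :=
    fun hρ z hz => ball_subset_ball hρ hz
  obtain ⟨ψ, w, W, p1, p2, p3, p4, p5, p6⟩ := h.1.newt1 hε' hR hJ hg hk (r' := r - l)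
    (by linarith) (by linarith) hrR b2 b5 b6
  have q := h2 ι c ε R (r - l) l β γ J W g ψ w h.1 hε' (by linarith) hl (by linarith) hJ p1 p2 p3
    p4 p5 p6 (fun z hz => b1 z (sub (by linarith) z hz)) (fun z hz => b3 z (sub (by linarith) z hz))
    (fun z hz => b4 z (sub (by linarith) z hz))
  set a := C₂ * (β + γ) / l with ha
  set b := C₂ * γ / l with hb
  have ha0 : 0 ≤ a := by positivity
  have hb0 : 0 ≤ b := by positivity
  have hba : b ≤ a := div_le_div_of_nonneg_right (by nlinarith) hl.le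
  have ha2 : 1100 * (a / l ^ 2) ≤ κ := by
    refine le_of_eq_of_le ?_ hκ
    rw [ha]; field_simp
  have hal : a ≤ a / l ^ 2 := by
    rw [le_div_iff₀ (by positivity)]
    have : l ^ 2 ≤ 1 := by nlinarith
    nlinarith
  have q' : ∀ z ∈ ball (0 : ℂ) (r - 2 * l), ‖W z‖ ≤ a ∧ ‖w z‖ ≤ a ∧ ‖bil (c.Φ z) (w z)‖ ≤ b :=
    fun z hz => q z (by have := mem_ball_zero_iff.1 hz; linarith)
  obtain ⟨c₁, r1, r2, r3⟩ := h.1.newt3 hε' hR (w := w) (W := W) (r := r - 2 * l) (l := l) (a := a)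
    (b := b) (by linarith) hl (by linarith) (by linarith) (by linarith) hba
    (p4.mono (ball_subset_ball (by linarith))) (fun z hz => p5 z (sub (by linarith) z hz))
    (fun z hz => (q' z hz).1) (fun z hz => (q' z hz).2.1) (fun z hz => (q' z hz).2.2)
  have e5 : 5 * a / l ^ 2 = 5 * (a / l ^ 2) := by ring
  rw [e5] at r1
  obtain ⟨x₀, s1, s2, s3⟩ := gauge (κ := 10 * a) h hε' hR r1 (by linarith) (by linarith)
    (fun z hz => r2 z (sub (by linarith) z hz)) (by linarith) (by linarith) (by linarith)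
  refine ⟨c₁.shift x₀, ⟨s1.1.mono (by linarith) (by linarith), s1.2⟩, fun z hz => ?_, fun z hz => ?_⟩
  · have := s2 z (sub (by linarith) z hz)
    exact ⟨this.1.trans (by linarith), this.2.trans (by linarith)⟩
  · have hcf := h.1.cf hε' (sub (by linarith) z hz : z ∈ ball (0 : ℂ) R)
    have u1 := s3 z (sub (by linarith) z hz)
    have u2 := (hcf.norm_pn_le _).trans (r3 z (sub (by linarith) z hz))
    have u3 := (hcf.norm_pn_le _).trans (p6 z (sub (by linarith) z hz))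
    have u4 : ‖pn (c.Φ z) (J z) - J z‖ ≤ 2 * γ := by
      rw [pn_apply, sub_sub_cancel_left, norm_neg]
      refine (hcf.norm_sp_le _).trans ?_
      have h1 : ‖tv (c.Φ z) (J z)‖ = (om (c.Φ z))⁻¹ * ‖pr (c.Φ z) (J z)‖ := by
        have := hcf.om_low
        simp only [tv, ContinuousLinearMap.smul_apply, norm_smul, Real.norm_eq_abs]
        rw [abs_of_pos (by positivity)]
      have h2 : (om (c.Φ z))⁻¹ ≤ 10 / 9 := by
        have := hcf.om_low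
        rw [inv_le_comm₀ (by linarith) (by norm_num)]
        linarith
      have h3 := b3 z (sub (by linarith) z hz)
      have h4 : (om (c.Φ z))⁻¹ * ‖pr (c.Φ z) (J z)‖ ≤ 10 / 9 * γ :=
        mul_le_mul h2 h3 (norm_nonneg _) (by norm_num)
      rw [h1]
      linarith
    have e : pn (c.Φ z) ((c₁.shift x₀).F z - c.F z) - J z =
        pn (c.Φ z) ((c₁.shift x₀).F z - c₁.F z) + pn (c.Φ z) (c₁.F z - c.F z - W z) +
          pn (c.Φ z) (W z - (J z + sp (c.Φ z) (ψ z))) + (pn (c.Φ z) (J z) - J z) := by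
      simp only [map_sub, map_add, hcf.pn_sp]
      abel
    rw [e]
    have t := (norm_add_le _ _).trans (add_le_add ((norm_add_le _ _).trans (add_le_add
      ((norm_add_le _ _).trans (add_le_add u1 u2)) u3)) u4)
    refine t.trans ?_
    have hγl : γ ≤ γ / l := by
      rw [le_div_iff₀ hl]
      nlinarith
    have hb' : b = C₂ * (γ / l) := by rw [hb]; ring
    have haκ : a ≤ κ := by linarith
    have ha2' : a ^ 2 ≤ κ ^ 2 := pow_le_pow_left₀ ha0 haκ 2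
    have hg0 : 0 ≤ γ / l := by positivity
    rw [hb']
    nlinarith [sq_nonneg κ, mul_nonneg (by linarith : (0 : ℝ) ≤ C₂ - 50) hg0,
      mul_nonneg (by linarith : (0 : ℝ) ≤ C₂ - 50) (sq_nonneg κ)]

end Pool.Agent.Lib.MP_8daebb_an.SV.Ch
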