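import Pool.Agent.Lib.MP_8daebb_an.SV.ChN4
import Pool.Agent.Lib.MP_8daebb_an.SV.ChJ2
import Pool.Agent.Lib.MP_8daebb_an.SV.ChJ3

/-! The Newton step. -/

open MeasureTheory Metric Set Complex Filter Topology
open scoped RealInnerProductSpace ComplexConjugate ContDiff ENNReal

namespace Pool.Agent.Lib.MP_8daebb_an.SV.Ch

variable {H : Type*} [NormedAddCommGroup H] [InnerProductSpace ℝ H] [FiniteDimensional ℝ H]
  [MeasurableSpace H] [BorelSpace H]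

theorem newt_main (M CI : ℝ) (Q : ℕ) : ∃ CN : ℝ, 1 ≤ CN ∧ ∀ (V : Measure (H × (H →L[ℝ] H)))
    (ι : ℂ →ₗᵢ[ℝ] H) (c : Cen H) (θ η δ cN ε R R₁ l s ρ β εJ : ℝ) (N : ℂ → ℕ),
    EV V ι M θ η → Adm ι c ε R → 1000 * (ε + η) ≤ 1 / 2 → 0 < cN → cN ≤ 1 / 100 → R ≤ 2 → R₁ ≤ R →
    MS ((chart V c R).resB 0 R₁) R₁ δ (10 * M) s ρ CI Q N → ρ ≤ cN * l → 16 * l ≤ R₁ →
    (∀ u : ℂ, ‖u‖ ≤ R₁ - l → ‖(chart V c R).av ρ (chart V c R).y u‖ ≤ β) →
    CN * (β + s ^ 2 * ρ) / l ^ 6 ≤ εJ → εJ ≤ cN * ρ ^ 2 →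
    ∃ c', Adm ι c' (ε + εJ) (R₁ - 8 * l) ∧
      Cmp (chart V c R) (chart V c' (R₁ - 8 * l)) (R₁ - 8 * l) εJ ∧
      ∀ u : ℂ, ‖u‖ ≤ R₁ - 9 * l →
        ‖(chart V c' (R₁ - 8 * l)).av ρ (chart V c' (R₁ - 8 * l)).y u‖ ≤
          CN * ρ * (s ^ 2 + εJ) / l ^ 6 := by
  obtain ⟨C₁, hC₁, h1⟩ := newt_an (H := H)
  obtain ⟨C₂, hC₂, h2⟩ := av_bounds (H := H) M
  obtain ⟨C₃, hC₃, h3⟩ := av_new (H := H) M CI Q
  have hP1 : 1 ≤ C₁ * C₂ := by nlinarith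
  have hP2 : 1 ≤ C₁ * C₂ * C₃ := by nlinarith
  refine ⟨200 * (C₁ * C₂ * C₃), by linarith, ?_⟩
  intro V ι c θ η δ cN ε R R₁ l s ρ β εJ N hV h hs c0 c1 hR hR₁ hms hρl hl hβ hJ hJ'
  have hη0 := ev_eps_nonneg hV
  have hε0 := h.1.eps_nonneg
  have hρ := hms.sm.ρ_pos
  have hs0 := hms.sm.s_pos
  have hR0 := hms.cv.R_pos
  have hl0 : 0 < l := by
    by_contra hh
    have : cN * l ≤ 0 := mul_nonpos_of_nonneg_of_nonpos c0.le (not_lt.1 hh)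
    linarith
  have hl8 : l ≤ 1 / 8 := by linarith
  have hρl' : ρ ≤ l / 100 := by nlinarith
  have hβ0 : 0 ≤ β := (norm_nonneg _).trans (hβ 0 (by simp; linarith))
  have hQ : (1 : ℝ) ≤ Q := by exact_mod_cast hms.Q_pos
  have hq0 : (0 : ℝ) ≤ (Q : ℝ)⁻¹ := by positivity
  have hq1 : (Q : ℝ)⁻¹ ≤ 1 := inv_le_one_of_one_le₀ hQ
  have hε : ε ≤ 1 / 100 := by linarith
  have hη : η ≤ 1 / 100 := by linarith
  obtain ⟨a1, a2, a3, a4⟩ := h2 V ι c ε R θ η R₁ s ρ (Q : ℝ)⁻¹ h.1 hR hV hs hR0 hR₁ hms.sm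
    (by linarith) hq0 hq1 _ _ _ rfl rfl rfl
  set γ := C₂ * ρ * s ^ 2 with hγ
  have hγ0 : 0 ≤ γ := by positivity
  have hx : Measurable (chart V c R).x := (h.1.meas_chart hε hR V).1
  have hav : ∀ u : ℂ, ‖u‖ + ρ ≤ R₁ → ((chart V c R).resB 0 R₁).av ρ (chart V c R).y u =
      (chart V c R).av ρ (chart V c R).y u := fun u hu => av_resB hx hρ (by simpa using hu) _
  have hb : ∀ z ∈ ball (0 : ℂ) (R₁ - l), ‖z‖ + 2 * ρ ≤ R₁ := fun z hz => by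
    have := mem_ball_zero_iff.1 hz
    linarith
  have hJb : ∀ z ∈ ball (0 : ℂ) (R₁ - l),
      ‖(Q : ℝ)⁻¹ • ((chart V c R).resB 0 R₁).av ρ (chart V c R).y z‖ ≤ β := fun z hz => by
    rw [hav z (by linarith [hb z hz]), norm_smul, Real.norm_eq_abs, abs_of_nonneg hq0]
    have := hβ z (mem_ball_zero_iff.1 hz).le
    nlinarith [norm_nonneg ((chart V c R).av ρ (chart V c R).y z)]
  have hl3 : l ^ 6 ≤ l ^ 3 := pow_le_pow_of_le_one hl0.le (by linarith) (by norm_num)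
  have hl1 : l ^ 6 ≤ l := by
    simpa using pow_le_pow_of_le_one hl0.le (by linarith : l ≤ 1) (by norm_num : 1 ≤ 6)
  have hl6 : 0 < l ^ 6 := by positivity
  have hsρ : 0 ≤ s ^ 2 * ρ := by positivity
  have hJ0 : 0 ≤ εJ := le_trans (by positivity) hJ
  have hJρ : εJ ≤ ρ ^ 2 / 100 := by nlinarith [sq_nonneg ρ]
  have hρ2 : ρ ^ 2 ≤ ρ := by nlinarith
  obtain ⟨c', d1, d2, d3⟩ := h1 ι c ε R (R₁ - l) l (2 * β + γ) γ (εJ / 100) _ _ _ h (by linarith)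
    (by linarith) hR hl0 (by linarith) a1 a2 a3 (fun z hz => (hJb z hz).trans (by linarith))
    (fun z hz => by
      have hzR : z ∈ ball (0 : ℂ) R := ball_subset_ball (by linarith) hz
      have e1 := (a4 z (hb z hz)).2.1
      have e2 := (h.1.cf hε hzR).norm_mu_le (deriv c.Φ z)
        ((Q : ℝ)⁻¹ • ((chart V c R).resB 0 R₁).av ρ (chart V c R).y z)
      have e3 := h.1.n1 z hzR
      have e4 := hJb z hz
      have e5 := mul_le_mul (e3.trans hε) e4 (norm_nonneg _) (by norm_num)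
      have e6 := norm_le_norm_add_norm_sub' ((Q : ℝ)⁻¹ • ((chart V c R).resB 0 R₁).av ρ (c.muA R) z)
        (mu (c.Φ z) (deriv c.Φ z) ((Q : ℝ)⁻¹ • ((chart V c R).resB 0 R₁).av ρ (chart V c R).y z))
      linarith)
    (fun z hz => (a4 z (hb z hz)).1) (fun z hz => (a4 z (hb z hz)).2.1)
    (fun z hz => (a4 z (hb z hz)).2.2.1) (fun z hz => (a4 z (hb z hz)).2.2.2)
    (by
      have e1 : C₁ * (2 * β + γ + γ) ≤ 2 * (C₁ * C₂ * C₃) * (β + s ^ 2 * ρ) := by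
        have f1 : C₁ * β ≤ C₁ * C₂ * C₃ * β := by
          refine mul_le_mul_of_nonneg_right ?_ hβ0
          nlinarith [mul_nonneg (by linarith : (0 : ℝ) ≤ C₁) (by nlinarith : (0 : ℝ) ≤ C₂ * C₃ - 1)]
        have f2 : C₁ * C₂ * (s ^ 2 * ρ) ≤ C₁ * C₂ * C₃ * (s ^ 2 * ρ) := by
          refine mul_le_mul_of_nonneg_right ?_ hsρ
          nlinarith
        rw [hγ]
        nlinarith
      calc _ ≤ 2 * (C₁ * C₂ * C₃) * (β + s ^ 2 * ρ) / l ^ 6 :=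
            div_le_div₀ (by positivity) e1 hl6 hl3
        _ = 200 * (C₁ * C₂ * C₃) * (β + s ^ 2 * ρ) / l ^ 6 / 100 := by ring
        _ ≤ _ := by linarith)
    (by linarith)
  have hp : Pre ι c' (ε + εJ / 100) (R₁ - 8 * l) := d1.1.mono le_rfl (by linarith)
  have hc : Close c c' (εJ / 100) (R₁ - 8 * l) := fun z hz =>
    d2 z (ball_subset_ball (by linarith) hz)
  refine ⟨c', ⟨hp.mono (by linarith) le_rfl, d1.2⟩, cmp_chart h.1 hε hR hp (by linarith)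
    (by linarith) hc (by linarith) (by linarith) (by linarith) hV hη (by linarith), fun u hu => ?_⟩
  have g1 := d3 u (mem_ball_zero_iff.2 (by linarith))
  rw [hav u (by linarith)] at g1
  refine (h3 V ι c c' ε (ε + εJ / 100) R (R₁ - 8 * l) θ η R₁ s ρ (εJ / 100) _ N h.1 hR hV hs hp
    (by linarith) hc (by linarith) (by linarith) (by linarith) hR₁ hms.sm hms.mq hms.Q_pos
    (by linarith) (by linarith) u (by linarith) (by linarith) g1).trans ?_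
  have k0 : 0 ≤ ρ * (s ^ 2 + εJ) := by positivity
  have k1 : γ / l ≤ C₂ * (ρ * (s ^ 2 + εJ)) / l ^ 6 := by
    refine div_le_div₀ (by positivity) ?_ hl6 hl1
    rw [hγ]
    nlinarith [mul_nonneg (by linarith : (0 : ℝ) ≤ C₂) (mul_nonneg hρ.le hJ0)]
  have k2 : ∀ x : ℝ, x ≤ ρ * (s ^ 2 + εJ) → x ≤ ρ * (s ^ 2 + εJ) / l ^ 6 := fun x hx => by
    refine hx.trans ?_
    rw [le_div_iff₀ hl6]
    nlinarith
  have k3 := k2 ((εJ / 100) ^ 2) (by nlinarith [mul_nonneg hρ.le (sq_nonneg s)])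
  have k4 := k2 (εJ / 100 * (s ^ 2 + εJ / 100) / ρ) (by
    rw [div_le_iff₀ hρ]
    have : εJ / 100 * (s ^ 2 + εJ / 100) ≤ ρ ^ 2 * (s ^ 2 + εJ) :=
      mul_le_mul (by nlinarith [sq_nonneg ρ]) (by linarith) (by positivity) (by positivity)
    nlinarith)
  have k5 := k2 (ρ * (εJ / 100)) (by nlinarith [mul_nonneg hρ.le (sq_nonneg s), mul_nonneg hρ.le hJ0])
  set X := ρ * (s ^ 2 + εJ) / l ^ 6 with hX
  have hX0 : 0 ≤ X := by positivity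
  have k1' : γ / l ≤ C₂ * X := by rw [hX, ← mul_div_assoc]; exact k1
  have e : 200 * (C₁ * C₂ * C₃) * ρ * (s ^ 2 + εJ) / l ^ 6 = C₃ * (200 * (C₁ * C₂) * X) := by
    rw [hX]; ring
  rw [e]
  refine mul_le_mul_of_nonneg_left ?_ (by linarith)
  have k6 : C₁ * (γ / l + (εJ / 100) ^ 2) ≤ C₁ * (C₂ * X + X) :=
    mul_le_mul_of_nonneg_left (by linarith) (by linarith)
  have k7 : C₁ * X ≤ C₁ * C₂ * X := mul_le_mul_of_nonneg_right (by nlinarith) hX0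
  have k8 : X ≤ C₁ * C₂ * X := by nlinarith
  nlinarith

end Pool.Agent.Lib.MP_8daebb_an.SV.Ch
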