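import Pool.Agent.Lib.MP_8daebb_an.SV.ChW
import Pool.Agent.Lib.MP_8daebb_an.SV.CT

/-! The Cauchy transform of vector valued functions; a bound for holomorphic functions. -/

open MeasureTheory Metric Set Complex Filter Topology
open scoped RealInnerProductSpace ComplexConjugate ContDiff ENNReal

namespace Pool.Agent.Lib.MP_8daebb_an.SV.Ch

variable {H : Type*} [NormedAddCommGroup H] [InnerProductSpace ℝ H] [FiniteDimensional ℝ H]

variable {F : Type*} [NormedAddCommGroup F] [NormedSpace ℝ F] [NormedSpace ℂ F]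
  [IsScalarTower ℝ ℂ F]

theorem conv_ChPomp (g : ℂ → F) : CT g = fun u => ((Real.pi : ℂ)⁻¹) •
    convolution (fun ξ : ℂ => ξ⁻¹) g (ContinuousLinearMap.lsmul ℝ ℂ) volume u := rfl

theorem int_ChPomp {g : ℂ → F} (hg : Continuous g) (hc : HasCompactSupport g) (u : ℂ) :
    Integrable fun ζ : ℂ => ζ⁻¹ • g (u - ζ) :=
  hc.convolutionExists_right (ContinuousLinearMap.lsmul ℝ ℂ) CTAux.locInt hg u

theorem fderiv_ChPomp [CompleteSpace F] {g : ℂ → F} (hg : ContDiff ℝ 1 g)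
    (hc : HasCompactSupport g) (u v : ℂ) :
    fderiv ℝ (CT g) u v = CT (fun ζ => fderiv ℝ g ζ v) u := by
  have h1 := (hc.hasFDerivAt_convolution_right (ContinuousLinearMap.lsmul ℝ ℂ) CTAux.locInt hg
    u).fun_const_smul ((Real.pi : ℂ)⁻¹)
  rw [conv_ChPomp, conv_ChPomp, h1.fderiv, smul_apply,
    convolution_precompR_apply _ CTAux.locInt (hc.fderiv ℝ) (hg.continuous_fderiv one_ne_zero)]

omit [IsScalarTower ℝ ℂ F] in
theorem reg_ChPomp {g : ℂ → F} (hg : ContDiff ℝ 1 g) (hc : HasCompactSupport g) (c : ℂ) :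
    Continuous (fun z => (1 / 2 : ℂ) • (d1 g z + c • d2 g z)) ∧
      HasCompactSupport fun z => (1 / 2 : ℂ) • (d1 g z + c • d2 g z) := by
  have hd := hg.continuous_fderiv one_ne_zero
  refine ⟨by unfold d1 d2; fun_prop, (hc.fderiv ℝ).mono fun z hz h => hz ?_⟩
  simp [d1, d2, h]

omit [IsScalarTower ℝ ℂ F] in
theorem regb_ChPomp {g : ℂ → F} (hg : ContDiff ℝ 1 g) (hc : HasCompactSupport g) :
    Continuous (dzb g) ∧ HasCompactSupport (dzb g) := reg_ChPomp hg hc I

omit [IsScalarTower ℝ ℂ F] in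
theorem regz_ChPomp {g : ℂ → F} (hg : ContDiff ℝ 1 g) (hc : HasCompactSupport g) :
    Continuous (dz g) ∧ HasCompactSupport (dz g) := by
  have e : dz g = fun z => (1 / 2 : ℂ) • (d1 g z + (-I) • d2 g z) := by
    funext z
    rw [dz, neg_smul, sub_eq_add_neg]
  exact e ▸ reg_ChPomp hg hc (-I)

theorem pomp_ChPomp [CompleteSpace F] {g : ℂ → F} (hg : ContDiff ℝ 1 g) (hc : HasCompactSupport g)
    (u : ℂ) : CT (dzb g) u = g u := by
  refine (SeparatingDual.eq_iff_forall_dual_eq (R := ℂ)).2 fun l => ?_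
  have h1 : ContDiff ℝ 1 fun z => l (g z) := (l.restrictScalars ℝ).contDiff.comp hg
  have h2 : HasCompactSupport fun z => l (g z) := hc.comp_left (map_zero l)
  have h3 : ∀ z, dbar (fun z => l (g z)) z = l (dzb g z) := fun z => by
    have := ((l.restrictScalars ℝ).hasFDerivAt.comp z
      (hg.differentiable one_ne_zero z).hasFDerivAt).fderiv
    rw [dbar, show (fun z => l (g z)) = l.restrictScalars ℝ ∘ g from rfl, this]
    simp [dzb, d1, d2, div_eq_inv_mul, mul_add]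
  rw [← ct_dbar h1 h2 u, CTAux.ct_conv, CT, map_smul,
    ← l.integral_comp_comm (int_ChPomp (regb_ChPomp hg hc).1 (regb_ChPomp hg hc).2 u)]
  simp only [convolution_def, h3, map_smul, smul_eq_mul, one_div, ContinuousLinearMap.mul_apply']

theorem cut_ChPomp {n : ℕ∞ω} {χ : ℂ → ℂ} {g : ℂ → F} {s : Set ℂ} (hs : IsOpen s)
    (hχ : ContDiff ℝ n χ) (h : tsupport χ ⊆ s) (hg : ContDiffOn ℝ n g s) :
    ContDiff ℝ n fun z => χ z • g z := by
  refine contDiff_iff_contDiffAt.2 fun z => ?_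
  by_cases hz : z ∈ tsupport χ
  · exact hχ.contDiffAt.smul (hg.contDiffAt (hs.mem_nhds (h hz)))
  · refine (contDiffAt_const (c := (0 : F))).congr_of_eventuallyEq ?_
    filter_upwards [notMem_tsupport_iff_eventuallyEq.1 hz] with w hw
    rw [hw, Pi.zero_apply, zero_smul]

omit [IsScalarTower ℝ ℂ F] in
theorem off_ChPomp {χ : ℂ → ℂ} (g : ℂ → F) {z : ℂ} (hz : z ∉ tsupport χ) :
    χ z = 0 ∧ dz χ z = 0 ∧ dzb χ z = 0 ∧ dz (fun z => χ z • g z) z = 0 ∧
      dzb (fun z => χ z • g z) z = 0 := by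
  have h1 := notMem_tsupport_iff_eventuallyEq.1 hz
  have h2 : (fun z => χ z • g z) =ᶠ[𝓝 z] fun _ => 0 := by
    filter_upwards [h1] with w hw
    rw [hw, Pi.zero_apply, zero_smul]
  simp [dz, dzb, d1, d2, h1.fderiv_eq, h2.fderiv_eq, h1.self_of_nhds]

theorem intdz_ChPomp {g : ℂ → F} (hg : ContDiff ℝ 1 g) (hc : HasCompactSupport g) :
    ∫ z, dz g z = 0 := by
  have hd := hg.continuous_fderiv one_ne_zero
  have i1 : ∀ v : ℂ, Integrable fun z => fderiv ℝ g z v := fun v =>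
    Continuous.integrable_of_hasCompactSupport (by fun_prop) (hc.fderiv_apply ℝ v)
  have h1 : ∀ v : ℂ, ∫ z, fderiv ℝ g z v = 0 := fun v => by
    have := integral_smul_fderiv_eq_neg_fderiv_smul_of_integrable (μ := volume)
      (f := fun _ : ℂ => (1 : ℝ)) (g := g) (v := v) (by simp) (by simpa using i1 v)
      (by simpa using hg.continuous.integrable_of_hasCompactSupport hc)
      (fun _ _ => differentiableAt_const _) fun z _ => hg.differentiable one_ne_zero z
    simpa using this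
  have i2 : Integrable fun z => I • fderiv ℝ g z I := (i1 I).smul I
  simp only [dz, d1, d2]
  rw [integral_smul, integral_sub (i1 1) i2, integral_smul, h1, h1]
  simp

theorem bump_ChPomp {r r' : ℝ} (hr : 0 < r') (hrr : r' < r) : ∃ χ : ℂ → ℂ, ContDiff ℝ ∞ χ ∧
    HasCompactSupport χ ∧ tsupport χ ⊆ ball 0 r ∧ (∀ z, ‖χ z‖ ≤ 1) ∧
      ∀ z ∈ ball (0 : ℂ) r', χ z = 1 := by
  let b : ContDiffBump (0 : ℂ) := ⟨r', (r' + r) / 2, hr, by linarith⟩
  have h1 : tsupport (fun z => (b z : ℂ)) ⊆ tsupport b :=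
    closure_mono fun z hz h => hz (by simp [h])
  refine ⟨fun z => b z, ofRealCLM.contDiff.comp b.contDiff,
    b.hasCompactSupport.isCompact.of_isClosed_subset isClosed_closure h1, h1.trans ?_,
    fun z => ?_, fun z hz => ?_⟩
  · rw [b.tsupport_eq]
    exact closedBall_subset_ball (by change (r' + r) / 2 < r; linarith)
  · rw [norm_real, Real.norm_of_nonneg b.nonneg]
    exact b.le_one
  · simp only [b.one_of_mem_closedBall (ball_subset_closedBall hz), ofReal_one]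

theorem ker_ChPomp [CompleteSpace F] : ∃ κ : ℂ → ℂ, ContDiff ℝ ∞ κ ∧ HasCompactSupport κ ∧
    tsupport κ ⊆ ball 0 1 ∧ ∀ G : ℂ → F, DifferentiableOn ℂ G (ball 0 1) →
      G 0 = ∫ z, κ z • G z := by
  obtain ⟨χ, h1, h2, h3, -, h4⟩ := bump_ChPomp (r := 1) (r' := 1 / 2) (by norm_num) (by norm_num)
  have h5 : ContDiff ℝ ∞ (dzb χ) :=
    contDiffOn_univ.1 (contDiffOn_dz isOpen_univ h1.contDiffOn).2
  have h6 : tsupport (dzb χ) ⊆ tsupport χ :=
    closure_minimal (fun z hz => by_contra fun h => hz (off_ChPomp χ h).2.2.1) isClosed_closure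
  have h7 : tsupport (dzb χ) ⊆ {0}ᶜ := by
    rintro z hz rfl
    refine (notMem_tsupport_iff_eventuallyEq.2 ?_) hz
    filter_upwards [ball_mem_nhds (0 : ℂ) (by norm_num : (0 : ℝ) < 1 / 2)] with w hw
    have : χ =ᶠ[𝓝 w] fun _ => 1 := by
      filter_upwards [isOpen_ball.mem_nhds hw] with x hx using h4 x hx
    simp [dzb, d1, d2, this.fderiv_eq]
  have h8 : tsupport (fun z => dzb χ z • (-(Real.pi : ℂ)⁻¹ * z⁻¹)) ⊆ tsupport χ :=
    (tsupport_smul_subset_left _ _).trans h6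
  refine ⟨fun z => dzb χ z • (-(Real.pi : ℂ)⁻¹ * z⁻¹), cut_ChPomp isOpen_compl_singleton h5 h7
    (contDiffOn_const.mul (contDiffOn_id.inv fun z hz => hz)),
    h2.isCompact.of_isClosed_subset isClosed_closure h8, h8.trans h3, fun G hG => ?_⟩
  have g1 : ContDiffOn ℝ 1 G (ball 0 1) := (hG.contDiffOn isOpen_ball).restrict_scalars ℝ
  have g2 := pomp_ChPomp (cut_ChPomp isOpen_ball (h1.of_le (by simp)) h3 g1) h2.smul_right 0
  have g3 : ∀ z, dzb (fun z => χ z • G z) z = dzb χ z • G z := fun z => by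
    by_cases hz : z ∈ tsupport χ
    · have g4 := hG.differentiableAt (isOpen_ball.mem_nhds (h3 hz))
      rw [(dz_smul (h1.differentiable (by simp) z) (g4.restrictScalars ℝ)).2,
        (dz_of_hasDerivAt g4.hasDerivAt).2, smul_zero, add_zero]
    · rw [(off_ChPomp G hz).2.2.2.2, (off_ChPomp G hz).2.2.1, zero_smul]
  rw [h4 0 (by simp), one_smul, CT, ← integral_smul, ← integral_neg_eq_self] at g2
  rw [← g2]
  refine integral_congr_ae (.of_forall fun z => ?_)
  simp only [g3, zero_sub, neg_neg, smul_smul, smul_eq_mul, inv_neg]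
  congr 1
  ring

theorem unit_ChPomp [CompleteSpace F] : ∃ C : ℝ, 1 ≤ C ∧ ∀ (G A B : ℂ → F) (a b : ℝ),
    DifferentiableOn ℂ G (ball 0 1) → ContDiffOn ℝ 1 A (ball 0 1) →
    (∀ z ∈ ball (0 : ℂ) 1, G z = dz A z + B z) → (∀ z ∈ ball (0 : ℂ) 1, ‖A z‖ ≤ a) →
    (∀ z ∈ ball (0 : ℂ) 1, ‖B z‖ ≤ b) → ‖G 0‖ ≤ C * (a + b) := by
  obtain ⟨κ, h1, h2, h3, h4⟩ := ker_ChPomp (F := F)
  have h5 : ContDiff ℝ 1 κ := h1.of_le (by simp)
  have i1 := (h1.continuous.integrable_of_hasCompactSupport (μ := volume) h2).norm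
  have i2 := ((regz_ChPomp h5 h2).1.integrable_of_hasCompactSupport (μ := volume)
    (regz_ChPomp h5 h2).2).norm
  have p1 : 0 ≤ ∫ z, ‖κ z‖ := integral_nonneg fun _ => norm_nonneg _
  have p2 : 0 ≤ ∫ z, ‖dz κ z‖ := integral_nonneg fun _ => norm_nonneg _
  refine ⟨1 + (∫ z, ‖κ z‖) + ∫ z, ‖dz κ z‖, by linarith, fun G A B a b hG hA e ha hb => ?_⟩
  have a0 : 0 ≤ a := (norm_nonneg _).trans (ha 0 (by simp))
  have b0 : 0 ≤ b := (norm_nonneg _).trans (hb 0 (by simp))
  have g1 := cut_ChPomp isOpen_ball h5 h3 ((hG.contDiffOn isOpen_ball).restrict_scalars ℝ)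
  have g2 := cut_ChPomp isOpen_ball h5 h3 hA
  have g3 : HasCompactSupport fun z => κ z • A z := h2.smul_right
  have g4 : G 0 = ∫ z, κ z • G z - dz (fun z => κ z • A z) z := by
    rw [integral_sub (g1.continuous.integrable_of_hasCompactSupport h2.smul_right)
      ((regz_ChPomp g2 g3).1.integrable_of_hasCompactSupport (regz_ChPomp g2 g3).2),
      intdz_ChPomp g2 g3, sub_zero, h4 G hG]
  have g5 : ‖G 0‖ ≤ ∫ z, ‖dz κ z‖ * a + ‖κ z‖ * b := by
    rw [g4]
    refine norm_integral_le_of_norm_le ((i2.mul_const a).add (i1.mul_const b))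
      (.of_forall fun z => ?_)
    by_cases hz : z ∈ tsupport κ
    · have hz' := h3 hz
      rw [(dz_smul (h5.differentiable one_ne_zero z)
        ((hA.contDiffAt (isOpen_ball.mem_nhds hz')).differentiableAt one_ne_zero)).1, e z hz',
        smul_add, show κ z • dz A z + κ z • B z - (dz κ z • A z + κ z • dz A z) =
          κ z • B z - dz κ z • A z by abel, add_comm]
      refine (norm_sub_le _ _).trans ?_
      rw [norm_smul, norm_smul]
      exact add_le_add (mul_le_mul_of_nonneg_left (hb z hz') (norm_nonneg _))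
        (mul_le_mul_of_nonneg_left (ha z hz') (norm_nonneg _))
    · rw [(off_ChPomp A hz).2.2.2.1, (off_ChPomp A hz).1, zero_smul, sub_zero, norm_zero]
      positivity
  rw [integral_add (i2.mul_const a) (i1.mul_const b), integral_mul_const, integral_mul_const] at g5
  nlinarith [mul_nonneg p1 a0, mul_nonneg p2 b0]

theorem CT_contDiff [CompleteSpace F] {g : ℂ → F} (hg : ContDiff ℝ ∞ g) (hc : HasCompactSupport g) :
    ContDiff ℝ ∞ (CT g) := by
  rw [conv_ChPomp]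
  exact (hc.contDiff_convolution_right _ CTAux.locInt hg).const_smul _

theorem dzb_CT [CompleteSpace F] {g : ℂ → F} (hg : ContDiff ℝ ∞ g) (hc : HasCompactSupport g)
    (u : ℂ) : dzb (CT g) u = g u := by
  have h1 : ContDiff ℝ 1 g := hg.of_le (by simp)
  have hd := h1.continuous_fderiv one_ne_zero
  have i1 : ∀ v : ℂ, Integrable fun ζ : ℂ => ζ⁻¹ • fderiv ℝ g (u - ζ) v := fun v =>
    int_ChPomp (g := fun ζ => fderiv ℝ g ζ v) (by fun_prop) (hc.fderiv_apply ℝ v) u
  have e : ∀ ζ : ℂ, ζ⁻¹ • dzb g (u - ζ) =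
      (1 / 2 : ℂ) • (ζ⁻¹ • fderiv ℝ g (u - ζ) 1 + I • ζ⁻¹ • fderiv ℝ g (u - ζ) I) := fun ζ => by
    simp only [dzb, d1, d2]
    module
  rw [← pomp_ChPomp h1 hc u, dzb, d1, d2, fderiv_ChPomp h1 hc, fderiv_ChPomp h1 hc]
  have i2 : Integrable fun ζ : ℂ => I • ζ⁻¹ • fderiv ℝ g (u - ζ) I := (i1 I).smul I
  simp only [CT, e]
  rw [integral_smul, integral_add (i1 1) i2, integral_smul]
  module

theorem CT_dzb [CompleteSpace F] {g : ℂ → F} (hg : ContDiff ℝ 1 g) (hc : HasCompactSupport g)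
    (u : ℂ) : CT (dzb g) u = g u :=
  pomp_ChPomp hg hc u

theorem norm_CT_le {g : ℂ → F} {A r : ℝ} (hr : 0 < r) (hA : ∀ ζ, ‖g ζ‖ ≤ A)
    (h0 : ∀ ζ, r ≤ ‖ζ‖ → g ζ = 0) (u : ℂ) : ‖CT g u‖ ≤ 6 * r * A := by
  have hpi := Real.pi_pos
  have hA0 : 0 ≤ A := (norm_nonneg _).trans (hA 0)
  have hV : volume (ball u r) ≤ ENNReal.ofReal (Real.pi * r ^ 2) := by
    rw [Complex.volume_ball, mul_comm Real.pi, ENNReal.ofReal_mul (by positivity),
      ENNReal.ofReal_pow hr.le, ← NNReal.coe_real_pi, ENNReal.ofReal_coe_nnreal]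
  have h1 : ∫⁻ ζ : ℂ, ENNReal.ofReal ‖ζ⁻¹ • g (u - ζ)‖ ≤
      ENNReal.ofReal (A * (2 * Real.pi * r + Real.pi * r ^ 2 / r)) := by
    calc _ ≤ ∫⁻ ζ, (ball u r).indicator
            (fun ζ => ENNReal.ofReal A * ENNReal.ofReal (‖ζ - 0‖⁻¹)) ζ := by
          refine lintegral_mono fun ζ => ?_
          by_cases h : ζ ∈ ball u r
          · rw [indicator_of_mem h, ← ENNReal.ofReal_mul hA0, norm_smul, norm_inv, sub_zero,
              mul_comm]
            exact ENNReal.ofReal_le_ofReal (mul_le_mul_of_nonneg_right (hA _) (by positivity))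
          · rw [mem_ball', dist_eq_norm, not_lt] at h
            simp [h0 _ h]
      _ = ENNReal.ofReal A * ∫⁻ ζ in ball u r, ENNReal.ofReal (‖ζ - 0‖⁻¹) := by
          rw [lintegral_indicator measurableSet_ball,
            lintegral_const_mul' _ _ ENNReal.ofReal_ne_top]
      _ ≤ ENNReal.ofReal A * ENNReal.ofReal (2 * Real.pi * r + Real.pi * r ^ 2 / r) :=
          mul_le_mul_right (lintegral_inv_le (by positivity) hV hr 0) _
      _ = _ := (ENNReal.ofReal_mul hA0).symm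
  have h2 := (norm_integral_le_lintegral_norm _).trans
    (ENNReal.toReal_le_of_le_ofReal (by positivity) h1)
  rw [CT, norm_smul, norm_inv, norm_real, Real.norm_of_nonneg hpi.le, inv_mul_le_iff₀ hpi]
  refine h2.trans ?_
  rw [show Real.pi * r ^ 2 / r = Real.pi * r by field_simp]
  nlinarith [mul_nonneg (mul_pos hpi hr).le hA0]

/-- Solving `∂̄ψ = g` on a smaller disc. -/
theorem solve_dzb [CompleteSpace F] {g : ℂ → F} {r r' A : ℝ} (hr : 0 < r') (hrr : r' < r)
    (hg : ContDiffOn ℝ ∞ g (ball 0 r)) (hA : ∀ z ∈ ball (0 : ℂ) r, ‖g z‖ ≤ A) :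
    ∃ ψ : ℂ → F, ContDiff ℝ ∞ ψ ∧ (∀ z, ‖ψ z‖ ≤ 6 * r * A) ∧
      ∀ z ∈ ball (0 : ℂ) r', dzb ψ z = g z := by
  obtain ⟨χ, h1, h2, h3, h4, h5⟩ := bump_ChPomp hr hrr
  have h6 := cut_ChPomp isOpen_ball h1 h3 hg
  have h7 : HasCompactSupport fun z => χ z • g z := h2.smul_right
  have h8 : ∀ z, z ∉ ball (0 : ℂ) r → χ z • g z = 0 := fun z hz => by
    rw [image_eq_zero_of_notMem_tsupport fun h => hz (h3 h), zero_smul]
  refine ⟨_, CT_contDiff h6 h7, norm_CT_le (hr.trans hrr) (fun z => ?_) fun z hz => h8 z ?_,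
    fun z hz => by rw [dzb_CT h6 h7, h5 z hz, one_smul]⟩
  · by_cases hz : z ∈ ball (0 : ℂ) r
    · rw [norm_smul]
      exact (mul_le_of_le_one_left (norm_nonneg _) (h4 z)).trans (hA z hz)
    · rw [h8 z hz, norm_zero]
      exact (norm_nonneg _).trans (hA 0 (mem_ball_self (hr.trans hrr)))
  · rwa [mem_ball_zero_iff, not_lt]

/-- A holomorphic function that is a derivative of a small function plus a small function. -/
theorem holo_bound [CompleteSpace F] : ∃ C : ℝ, 1 ≤ C ∧ ∀ (G A B : ℂ → F) (z₀ : ℂ) (r a b : ℝ),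
    0 < r → DifferentiableOn ℂ G (ball z₀ r) → ContDiffOn ℝ 1 A (ball z₀ r) →
    (∀ z ∈ ball z₀ r, G z = dz A z + B z) → (∀ z ∈ ball z₀ r, ‖A z‖ ≤ a) →
    (∀ z ∈ ball z₀ r, ‖B z‖ ≤ b) → ‖G z₀‖ ≤ C * (a / r + b) := by
  obtain ⟨C, h1, h2⟩ := unit_ChPomp (F := F)
  refine ⟨C, h1, fun G A B z₀ r a b hr hG hA e ha hb => ?_⟩
  have m : MapsTo (fun z : ℂ => z₀ + r • z) (ball 0 1) (ball z₀ r) := fun z hz => by
    rw [mem_ball_zero_iff] at hz
    rw [mem_ball_iff_norm, add_sub_cancel_left, norm_smul, Real.norm_of_nonneg hr.le]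
    exact mul_lt_of_lt_one_right hr hz
  have := h2 (fun z => G (z₀ + r • z)) (fun z => r⁻¹ • A (z₀ + r • z)) (fun z => B (z₀ + r • z))
    (a / r) b (hG.comp (by fun_prop) m) ((hA.comp (by fun_prop) m).const_smul _)
    (fun z hz => ?_) (fun z hz => ?_) fun z hz => hb _ (m hz)
  · simpa using this
  · have d := ((((hA.contDiffAt (isOpen_ball.mem_nhds (m hz))).differentiableAt
      one_ne_zero).hasFDerivAt.comp z
        (((hasFDerivAt_id z).fun_const_smul r).const_add z₀)).fun_const_smul r⁻¹).fderiv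
    have d' : ∀ v, fderiv ℝ (fun z => r⁻¹ • A (z₀ + r • z)) z v = fderiv ℝ A (z₀ + r • z) v :=
      fun v => by
        refine (congrArg (fun L : ℂ →L[ℝ] F => L v) d).trans ?_
        simp only [smul_apply, ContinuousLinearMap.comp_apply, ContinuousLinearMap.id_apply,
          map_smul, inv_smul_smul₀ hr.ne']
    simp only [e _ (m hz), dz, d1, d2, d']
  · rw [norm_smul, norm_inv, Real.norm_of_nonneg hr.le, div_eq_inv_mul]
    exact mul_le_mul_of_nonneg_left (ha _ (m hz)) (inv_pos.2 hr).le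

end Pool.Agent.Lib.MP_8daebb_an.SV.Ch
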