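import Pool.Agent.Lib.MP_8daebb_an.SV.Df2
import Pool.Agent.Lib.MP_8daebb_an.SV.Base
import Pool.Agent.Lib.MP_8daebb_an.SV.Ker2

/-! Comparison of the radial quantities in two charts. -/

open MeasureTheory Metric Filter Topology Set
open scoped RealInnerProductSpace ENNReal ContDiff

namespace Pool.Agent.Lib.MP_8daebb_an.SV

variable {α : Type*} [MeasurableSpace α] {H : Type*} [NormedAddCommGroup H]
  [InnerProductSpace ℝ H] [FiniteDimensional ℝ H] [MeasurableSpace H] [BorelSpace H]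

theorem up_cmpm {μ ν : Measure α} {ε : ℝ} (hε : 0 ≤ ε) (h : μ ≤ ENNReal.ofReal (1 + ε) • ν)
    {f g : α → ℝ} (hf : Integrable f μ) (hg : Integrable g ν) (h0 : 0 ≤ᵐ[ν] g)
    (hfg : f ≤ᵐ[μ] g) : ∫ a, f a ∂μ ≤ (1 + ε) * ∫ a, g a ∂ν := by
  have hg' : Integrable g (ENNReal.ofReal (1 + ε) • ν) := hg.smul_measure ENNReal.ofReal_ne_top
  refine (integral_mono_ae hf (hg'.mono_measure h) hfg).trans ?_
  refine (integral_mono_measure h (Measure.ae_smul_measure h0 _) hg').trans_eq ?_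
  rw [integral_smul_measure, ENNReal.toReal_ofReal (by linarith), smul_eq_mul]

theorem cs_cmpm {ν : Measure α} [IsFiniteMeasure ν] {f : α → ℝ} (hf : Integrable f ν)
    (hs : Integrable (fun a => √(f a)) ν) (h0 : 0 ≤ᵐ[ν] f) :
    (∫ a, √(f a) ∂ν) ^ 2 ≤ ν.real univ * ∫ a, f a ∂ν := by
  have h := discrim_le_zero (a := ν.real univ) (b := -2 * ∫ a, √(f a) ∂ν) (c := ∫ a, f a ∂ν)
    fun x => by
      have e : ∫ a, (x ^ 2 + (-2 * x * √(f a) + f a)) ∂ν =
          ν.real univ * (x * x) + (-2 * ∫ a, √(f a) ∂ν) * x + ∫ a, f a ∂ν := by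
        have i1 : Integrable (fun a => -2 * x * √(f a) + f a) ν := (hs.const_mul _).add hf
        rw [integral_add (integrable_const _) i1,
          integral_add (hs.const_mul _) hf, integral_const, integral_const_mul, smul_eq_mul]
        ring
      rw [← e]
      refine integral_nonneg_of_ae ?_
      filter_upwards [h0] with a ha
      have := Real.sq_sqrt ha
      show (0 : ℝ) ≤ _
      nlinarith [sq_nonneg (x - √(f a))]
  rw [discrim] at h
  nlinarith

theorem lin_cmpm {ν : Measure α} [IsFiniteMeasure ν] {F f : α → ℝ} (hF : Integrable F ν)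
    (hf : Integrable f ν) (hs : Integrable (fun a => √(f a)) ν) (c1 c2 c3 : ℝ) :
    Integrable (fun a => F a + (c1 * f a + (c2 * √(f a) + c3))) ν ∧
      ∫ a, (F a + (c1 * f a + (c2 * √(f a) + c3))) ∂ν =
        ∫ a, F a ∂ν + (c1 * ∫ a, f a ∂ν + (c2 * ∫ a, √(f a) ∂ν + c3 * ν.real univ)) := by
  have i1 : Integrable (fun a => c2 * √(f a) + c3) ν := (hs.const_mul c2).add (integrable_const c3)
  have i2 : Integrable (fun a => c1 * f a + (c2 * √(f a) + c3)) ν := (hf.const_mul c1).add i1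
  refine ⟨hF.add i2, ?_⟩
  rw [integral_add hF i2, integral_add (hf.const_mul c1) i1,
    integral_add (hs.const_mul c2) (integrable_const c3), integral_const_mul, integral_const_mul,
    integral_const, smul_eq_mul, mul_comm _ c3]

theorem pt1_cmpm {o o' n n' s ε k : ℝ} (ho : 0 ≤ o') (ho3 : o' ≤ 3) (hk : |o' - o| ≤ k)
    (hn : 0 ≤ n) (hn' : 0 ≤ n') (he : |n' - n| ≤ ε) (hs : n ≤ s) :
    |o' * n' ^ 2 - o * n ^ 2| ≤ k * s ^ 2 + (6 * ε * s + 3 * ε ^ 2) := by
  have hε : 0 ≤ ε := (abs_nonneg _).trans he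
  have h1 : |n' ^ 2 - n ^ 2| ≤ ε * (2 * s + ε) := by
    rw [show n' ^ 2 - n ^ 2 = (n' - n) * (n' + n) by ring, abs_mul, abs_of_nonneg (add_nonneg hn' hn)]
    have := (abs_le.1 he).2
    exact mul_le_mul he (by linarith) (add_nonneg hn' hn) hε
  have h2 : |o' * (n' ^ 2 - n ^ 2)| ≤ 3 * (ε * (2 * s + ε)) := by
    rw [abs_mul, abs_of_nonneg ho]
    exact mul_le_mul ho3 h1 (abs_nonneg _) (by norm_num)
  have h3 : |(o' - o) * n ^ 2| ≤ k * s ^ 2 := by
    rw [abs_mul, abs_of_nonneg (sq_nonneg n)]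
    exact mul_le_mul hk (pow_le_pow_left₀ hn hs 2) (sq_nonneg _) ((abs_nonneg _).trans hk)
  rw [show o' * n' ^ 2 - o * n ^ 2 = o' * (n' ^ 2 - n ^ 2) + (o' - o) * n ^ 2 by ring]
  refine (abs_add_le _ _).trans ?_
  linarith

theorem pt2_cmpm {c c' w w' u u' s ε k : ℝ} (hc : 0 ≤ c) (hc1 : c ≤ 1) (hc' : 0 ≤ c')
    (hc1' : c' ≤ 1) (hk : |c' - c| ≤ k) (hw' : 0 ≤ w') (hw1 : w' ≤ 3 / 2) (hw : |w' - w| ≤ ε)
    (hu : 0 ≤ u) (hu' : 0 ≤ u') (he : |u' - u| ≤ ε) (hs : u ≤ s) :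
    c' * w' * u' ^ 2 ≤ c * w * u ^ 2 + ((3 / 2 * k + ε) * s ^ 2 + (3 * ε * s + 3 / 2 * ε ^ 2)) := by
  have hε : 0 ≤ ε := (abs_nonneg _).trans he
  have hk0 : 0 ≤ k := (abs_nonneg _).trans hk
  have h1 : u' ^ 2 ≤ u ^ 2 + (2 * ε * s + ε ^ 2) := by
    have := pow_le_pow_left₀ hu' (show u' ≤ u + ε by linarith [(abs_le.1 he).2]) 2
    nlinarith
  have h2 : c' * w' ≤ 3 / 2 := by nlinarith
  have h3 : c' * w' ≤ c * w + (3 / 2 * k + ε) := by
    have a1 := (abs_le.1 hk).2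
    have a2 := (abs_le.1 hw).2
    have a3 : c' * w' ≤ (c + k) * w' := mul_le_mul_of_nonneg_right (by linarith) hw'
    have a4 : c * w' ≤ c * (w + ε) := mul_le_mul_of_nonneg_left (by linarith) hc
    nlinarith
  have h4 : u ^ 2 ≤ s ^ 2 := pow_le_pow_left₀ hu hs 2
  have h5 : 0 ≤ 2 * ε * s + ε ^ 2 := by have := hu.trans hs; positivity
  have h6 := mul_le_mul_of_nonneg_left h1 (mul_nonneg hc' hw')
  have h7 := mul_le_mul_of_nonneg_right h2 h5
  have h8 := mul_le_mul_of_nonneg_right h3 (sq_nonneg u)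
  have h9 := mul_le_mul_of_nonneg_left h4 (show 0 ≤ 3 / 2 * k + ε by positivity)
  nlinarith

theorem cmp_m (M : ℝ) : ∃ C : ℝ, 0 < C ∧ ∀ (D D' : CD α H) (R R' δ ε r E₀ : ℝ), CV D 0 R δ M →
    CV D' 0 R' δ M → δ ≤ 1 / 2 → Cmp D D' R' ε → 0 ≤ ε → ε ≤ r → r ≤ 1 → 0 < r →
    r + 2 * ε ≤ R' → D.En 0 (R' + ε) ≤ E₀ → E₀ ≤ 1 →
    (∀ᵐ a ∂D.m, a ∈ D.cyl 0 (R' + ε) → ‖D.y a‖ ≤ r) →
    |D'.hh r - D.hh r| ≤ C * ε * (√E₀ + ε) / r ^ 3 ∧
      D'.dr r ≤ D.dr r + C * ε * (√E₀ + ε) / r ^ 3 ∧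
      ∫ a, D'.en a ∂D'.m ≤ 4 * E₀ + C * ε ^ 2 := by
  refine ⟨48 * (9 * |M| + 1), by positivity, ?_⟩
  intro D D' R R' δ ε r E₀ h h' hδ hc hε hεr hr1 hr hR hE hE1 _
  have := h.fin
  have := h'.fin
  obtain ⟨c1, c2, c3, c4, -, c6, -, -, c9⟩ := chi_props hr
  set μ := 9 * |M| + 1 with hμ
  have hμ1 : 1 ≤ μ := by have := abs_nonneg M; linarith
  set Z := D.cyl 0 (R' + ε) with hZ
  have mZ : MeasurableSet Z := h.meas_cyl _ _
  set ν := D.m.restrict Z with hν
  have aZ : ∀ᵐ a ∂D'.m, a ∈ Z := by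
    filter_upwards [h'.car, hc.near] with a h1 h2
    have h3 : ‖D'.x a‖ < R' := by simpa using h1
    have h4 := norm_sub_norm_le (D.x a) (D'.x a)
    rw [norm_sub_rev] at h4
    show ‖D.x a - 0‖ < R' + ε
    rw [sub_zero]; linarith [h2.1]
  have hle : D'.m ≤ ENNReal.ofReal (1 + ε) • ν := by
    rw [← Measure.restrict_eq_self_of_ae_mem aZ, hν, ← Measure.restrict_smul]
    exact Measure.restrict_mono subset_rfl hc.le
  have ac : D'.m ≪ D.m := Measure.absolutelyContinuous_of_le_smul hc.le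
  obtain ⟨-, -, iy, ie, is, -⟩ := h.integrable_t
  obtain ⟨-, -, iy', ie', -, -⟩ := h'.integrable_t
  -- pointwise facts
  have pw : ∀ᵐ a ∂D.m, 0 ≤ D.t a ∧ 0 ≤ D.en a ∧ ‖D.y a‖ ≤ √(D.en a) ∧ √(D.t a) ≤ √(D.en a) ∧
      0 ≤ D.w (D.x a) ∧ D.w (D.x a) ≤ 3 / 2 := by
    filter_upwards [h.ae_G, h.car] with a h1 h2
    have t0 := (h.pw a h1).t_nonneg
    have w0 := abs_le.1 (h.w_le _ h2).1
    refine ⟨t0, add_nonneg t0 (sq_nonneg _), Real.le_sqrt_of_sq_le (le_add_of_nonneg_left t0),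
      Real.sqrt_le_sqrt (le_add_of_nonneg_right (sq_nonneg _)), by linarith, by linarith⟩
  have pw' : ∀ᵐ a ∂D'.m, 0 ≤ D'.t a ∧ 0 ≤ D'.w (D'.x a) ∧ D'.w (D'.x a) ≤ 3 / 2 := by
    filter_upwards [h'.ae_G, h'.car] with a h1 h2
    have w0 := abs_le.1 (h'.w_le _ h2).1
    exact ⟨(h'.pw a h1).t_nonneg, by linarith, by linarith⟩
  have pν : ∀ᵐ a ∂ν, _ := ae_restrict_of_ae (s := Z) pw
  have e0 : 0 ≤ᵐ[ν] D.en := pν.mono fun a ha => ha.2.1
  -- the three basic integrals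
  set E := ∫ a, D.en a ∂ν with hEd
  set S := ∫ a, √(D.en a) ∂ν with hS
  set V := ν.real univ with hV
  have E0 : 0 ≤ E := integral_nonneg_of_ae e0
  have E1 : E ≤ E₀ := hE
  have V0 : 0 ≤ V := measureReal_nonneg
  have V1 : V ≤ μ := by
    have h1 : V ≤ D.m.real univ := by
      rw [hV, hν, measureReal_restrict_apply_univ]
      exact measureReal_mono (subset_univ _)
    have h2 := h.mass_le (by linarith)
    have h3 := le_abs_self M
    linarith
  have q0 : 0 ≤ √E₀ := Real.sqrt_nonneg _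
  have q1 : √E₀ ^ 2 = E₀ := Real.sq_sqrt (E0.trans E1)
  have q2 : E₀ ≤ √E₀ := by
    have : √E₀ ≤ 1 := Real.sqrt_le_one.2 hE1
    nlinarith
  have S1 : S ≤ μ * √E₀ := by
    have h1 := cs_cmpm (ν := ν) ie.restrict is.restrict e0
    refine le_trans (le_abs_self _) (abs_le_of_sq_le_sq (h1.trans ?_) (by positivity))
    rw [mul_pow, q1]
    exact mul_le_mul (by nlinarith) E1 E0 (by positivity)
  set W := ε / r * (√E₀ + ε) with hW
  have k0 : ε ≤ ε / r := by rw [le_div_iff₀ hr]; nlinarith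
  have k1 : ε / r * E ≤ W := mul_le_mul_of_nonneg_left (by linarith) (by positivity)
  have k2 : ε * E ≤ W := (mul_le_mul_of_nonneg_right k0 E0).trans k1
  have k3 : ε * S ≤ μ * W := by
    have h1 := mul_le_mul_of_nonneg_left S1 hε
    have h2 : ε * √E₀ ≤ W := mul_le_mul k0 (by linarith) q0 (by positivity)
    nlinarith
  have k4 : ε ^ 2 * V ≤ μ * W := by
    have h2 : ε * ε ≤ W := mul_le_mul k0 (by linarith) hε (by positivity)
    rw [mul_comm]
    exact mul_le_mul V1 (by linarith [sq ε]) (sq_nonneg _) (by linarith)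
  have W0 : 0 ≤ W := by positivity
  have k5 : W ≤ μ * W := le_mul_of_one_le_left W0 hμ1
  have hε1 : ε ≤ 1 := hεr.trans hr1
  have fin : 48 * μ * ε * (√E₀ + ε) / r ^ 3 = (r ^ 2)⁻¹ * (48 * (μ * W)) := by
    rw [hW]; field_simp
  have r2 : 1 ≤ (r ^ 2)⁻¹ := one_le_inv_iff₀.2 ⟨by positivity, by nlinarith⟩
  refine ⟨?_, ?_, ?_⟩
  · set F := fun a => om r (D.x a) * ‖D.y a‖ ^ 2 with hF
    set F' := fun a => om r (D'.x a) * ‖D'.y a‖ ^ 2 with hF'
    have F0 : ∀ a, 0 ≤ F a := fun a => mul_nonneg (c4 _).1 (sq_nonneg _)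
    have iF : Integrable F D.m := iy.bdd_mul (c := 3)
      (c2.continuous.measurable.comp h.m_x).aestronglyMeasurable
      (ae_of_all _ fun a => by rw [Real.norm_of_nonneg (c4 _).1]; exact (c4 _).2)
    have iF' : Integrable F' D'.m := iy'.bdd_mul (c := 3)
      (c2.continuous.measurable.comp h'.m_x).aestronglyMeasurable
      (ae_of_all _ fun a => by rw [Real.norm_of_nonneg (c4 _).1]; exact (c4 _).2)
    have iF2 : Integrable F D'.m :=
      (iF.smul_measure ENNReal.ofReal_ne_top).mono_measure hc.le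
    have near : ∀ᵐ a ∂D'.m, |F' a - F a| ≤
        12 * (ε / r) * D.en a + (6 * ε * √(D.en a) + 3 * ε ^ 2) := by
      filter_upwards [hc.near, ac.ae_le pw] with a h1 h2
      have h3 := pt1_cmpm (c4 (D'.x a)).1 (c4 _).2 (k := 12 * (ε / r))
        ((c9 (D'.x a) (D.x a)).2.1.trans (by
          rw [← mul_div_assoc, mul_div_right_comm]
          exact mul_le_mul_of_nonneg_left h1.1 (by positivity)))
        (norm_nonneg (D.y a)) (norm_nonneg (D'.y a))
        ((abs_norm_sub_norm_le _ _).trans h1.2.1) h2.2.2.1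
      rwa [Real.sq_sqrt h2.2.1] at h3
    have P3 : ∫ a, F a ∂ν ≤ 3 * E := by
      rw [hEd, ← integral_const_mul]
      refine integral_mono_ae iF.restrict (ie.restrict.const_mul _) ?_
      filter_upwards [pν] with a ha
      exact mul_le_mul (c4 _).2 (le_add_of_nonneg_left ha.1) (sq_nonneg _) (by norm_num)
    have P4 : ∫ a, F a ∂ν ≤ ∫ a, F a ∂D.m := setIntegral_le_integral iF (ae_of_all _ F0)
    obtain ⟨l1, l2⟩ := lin_cmpm (ν := ν) iF.restrict ie.restrict is.restrict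
      (12 * (ε / r)) (6 * ε) (3 * ε ^ 2)
    obtain ⟨l3, l4⟩ := lin_cmpm (ν := ν) (integrable_zero _ _ _) ie.restrict is.restrict
      (12 * (ε / r)) (6 * ε) (3 * ε ^ 2)
    have g0 : ∀ᵐ a ∂ν, 0 ≤ 12 * (ε / r) * D.en a + (6 * ε * √(D.en a) + 3 * ε ^ 2) :=
      e0.mono fun a (ha : 0 ≤ D.en a) => by positivity
    have G1 : 12 * (ε / r) * E + (6 * ε * S + 3 * ε ^ 2 * V) ≤ 21 * (μ * W) := by linarith
    have G0 : 0 ≤ 12 * (ε / r) * E + (6 * ε * S + 3 * ε ^ 2 * V) := by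
      have : 0 ≤ S := integral_nonneg fun a => Real.sqrt_nonneg _
      positivity
    have u1 := up_cmpm hε hle iF' l1 (g0.mono fun a ha => add_nonneg (F0 a) ha)
      (near.mono fun a ha => by have := (abs_le.1 ha).2; show F' a ≤ _; linarith)
    have u2 := up_cmpm hε hle (iF2.sub iF') l3 (g0.mono fun a ha => by simpa using ha)
      (near.mono fun a ha => by
        have := (abs_le.1 ha).1
        simp only [Pi.sub_apply, Pi.zero_apply]; linarith)
    have u3 := up_cmpm hε hle iF2 iF.restrict (ae_of_all _ F0) (ae_of_all _ fun _ => le_rfl)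
    have u4 := up_cmpm hε hc.ge iF.restrict iF2 (ae_of_all _ F0) (ae_of_all _ fun _ => le_rfl)
    rw [setIntegral_eq_integral_of_forall_compl_eq_zero (fun a ha => by
      have h1 : r ≤ ‖D.x a‖ := by
        have h2 : ¬‖D.x a - 0‖ < R' - ε := ha
        rw [sub_zero] at h2
        linarith [not_lt.1 h2]
      simp only [hF, (c6 _ h1).2.1, zero_mul])] at u4
    rw [l2] at u1
    rw [l4] at u2
    simp only [Pi.sub_apply, Pi.zero_apply, integral_zero, zero_add] at u2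
    rw [integral_sub iF2 iF'] at u2
    have P0 : 0 ≤ ∫ a, F a ∂ν := integral_nonneg F0
    rw [fin, CD.hh, CD.hh, ← mul_sub, abs_mul, abs_of_nonneg (by positivity)]
    refine mul_le_mul_of_nonneg_left (abs_le.2 ⟨?_, ?_⟩) (by positivity)
    · have v1 := mul_le_mul_of_nonneg_left u3 hε
      have v2 : ε * ((1 + ε) * ∫ a, F a ∂ν) ≤ ε * (2 * (3 * E)) :=
        mul_le_mul_of_nonneg_left (mul_le_mul (by linarith) P3 P0 (by norm_num)) hε
      have v3 := mul_le_mul_of_nonneg_right (show 1 + ε ≤ 2 by linarith) G0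
      linarith
    · have v2 := mul_le_mul_of_nonneg_left P3 hε
      have v3 := mul_le_mul_of_nonneg_right (show 1 + ε ≤ 2 by linarith) G0
      linarith
  · set K := fun a => chi r (D.x a) * D.w (D.x a) * D.t a with hK
    have bd : ∀ {D : CD α H} {R : ℝ}, CV D 0 R δ M →
        Integrable (fun a => chi r (D.x a) * D.w (D.x a) * D.t a) D.m := fun {D R} h =>
      h.integrable (((c1.continuous.measurable.comp h.m_x).mul (h.m_w.comp h.m_x)).mul
        h.m_t).aestronglyMeasurable 3 fun a h1 h2 => by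
          have w0 := abs_le.1 (h.w_le _ h2).1
          have t0 := (h.pw a h1).t_nonneg
          have t1 := (h.pw a h1).t_le
          have w1 : 0 ≤ D.w (D.x a) := by linarith
          have x1 : chi r (D.x a) * D.w (D.x a) ≤ 1 * (3 / 2) :=
            mul_le_mul (c3 _).2 (by linarith) w1 zero_le_one
          rw [Real.norm_of_nonneg (mul_nonneg (mul_nonneg (c3 _).1 w1) t0)]
          exact (mul_le_mul x1 t1 t0 (by norm_num)).trans (by norm_num)
    have iK : Integrable K D.m := bd h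
    have K0 : ∀ᵐ a ∂D.m, 0 ≤ K a :=
      pw.mono fun a ha => mul_nonneg (mul_nonneg (c3 _).1 ha.2.2.2.2.1) ha.1
    have P3 : ∫ a, K a ∂ν ≤ 3 / 2 * E := by
      rw [hEd, ← integral_const_mul]
      refine integral_mono_ae iK.restrict (ie.restrict.const_mul _) ?_
      filter_upwards [pν] with a ha
      have x1 : chi r (D.x a) * D.w (D.x a) ≤ 1 * (3 / 2) :=
        mul_le_mul (c3 _).2 ha.2.2.2.2.2 ha.2.2.2.2.1 zero_le_one
      exact mul_le_mul (by linarith) (le_add_of_nonneg_right (sq_nonneg _)) ha.1 (by norm_num)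
    have P4 : ∫ a, K a ∂ν ≤ ∫ a, K a ∂D.m := setIntegral_le_integral iK K0
    obtain ⟨l1, l2⟩ := lin_cmpm (ν := ν) iK.restrict ie.restrict is.restrict
      (3 / 2 * (6 * (ε / r)) + ε) (3 * ε) (3 / 2 * ε ^ 2)
    have u1 := up_cmpm hε hle (bd h') l1 (by
      filter_upwards [ae_restrict_of_ae (s := Z) K0, e0] with a h1 (h2 : 0 ≤ D.en a)
      show (0 : ℝ) ≤ _
      positivity) (by
      filter_upwards [hc.near, ac.ae_le pw, pw'] with a h1 h2 h3
      have h4 := pt2_cmpm (c3 (D.x a)).1 (c3 _).2 (c3 (D'.x a)).1 (c3 _).2 (k := 6 * (ε / r))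
        ((c9 (D'.x a) (D.x a)).1.trans (by
          rw [← mul_div_assoc, mul_div_right_comm]
          exact mul_le_mul_of_nonneg_left h1.1 (by positivity)))
        h3.2.1 h3.2.2 h1.2.2.2 (Real.sqrt_nonneg _) (Real.sqrt_nonneg _) h1.2.2.1 h2.2.2.2.1
      rwa [Real.sq_sqrt h2.2.1, Real.sq_sqrt h2.1, Real.sq_sqrt h3.1] at h4)
    rw [l2] at u1
    have G0 : 0 ≤ (3 / 2 * (6 * (ε / r)) + ε) * E + (3 * ε * S + 3 / 2 * ε ^ 2 * V) := by
      have : 0 ≤ S := integral_nonneg fun a => Real.sqrt_nonneg _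
      positivity
    have v2 := mul_le_mul_of_nonneg_left P3 hε
    have v3 := mul_le_mul_of_nonneg_right (show 1 + ε ≤ 2 by linarith) G0
    have v4 := le_mul_of_one_le_left (show 0 ≤ 48 * (μ * W) by positivity) r2
    rw [fin, CD.dr, CD.dr]
    linarith
  · obtain ⟨l1, l2⟩ := lin_cmpm (ν := ν) ie.restrict ie.restrict is.restrict 1 0 (4 * ε ^ 2)
    have u1 := up_cmpm hε hle ie' l1 (e0.mono fun a (ha : 0 ≤ D.en a) => by
      show (0 : ℝ) ≤ _
      positivity) (by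
      filter_upwards [hc.near, ac.ae_le pw, pw'] with a h1 h2 h3
      have a1 := (abs_le.1 ((abs_norm_sub_norm_le _ _).trans h1.2.1)).2
      have a2 := (abs_le.1 h1.2.2.1).2
      have a3 := pow_le_pow_left₀ (norm_nonneg (D'.y a)) (show _ ≤ ‖D.y a‖ + ε by linarith) 2
      have a4 := pow_le_pow_left₀ (Real.sqrt_nonneg (D'.t a))
        (show _ ≤ √(D.t a) + ε by linarith) 2
      have a5 := Real.sq_sqrt h2.1
      rw [Real.sq_sqrt h3.1] at a4
      simp only [CD.en]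
      nlinarith [sq_nonneg (‖D.y a‖ - ε), sq_nonneg (√(D.t a) - ε)])
    rw [l2] at u1
    have G0 : 0 ≤ E + (1 * E + (0 * S + 4 * ε ^ 2 * V)) := by positivity
    have v3 := mul_le_mul_of_nonneg_right (show 1 + ε ≤ 2 by linarith) G0
    have v4 := mul_le_mul_of_nonneg_left V1 (sq_nonneg ε)
    have v5 : 0 ≤ μ * ε ^ 2 := by positivity
    linarith

end Pool.Agent.Lib.MP_8daebb_an.SV
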