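import Pool.Agent.Lib.MP_8daebb_an.SV.Id
import Pool.Agent.Lib.MP_8daebb_an.Mono

/-! Comparison of masses of cylinders cut in height. -/

set_option linter.unusedSectionVars false

open MeasureTheory Metric Filter Topology Set
open scoped RealInnerProductSpace ENNReal ContDiff

namespace Pool.Agent.Lib.MP_8daebb_an.SV

variable {α : Type*} [MeasurableSpace α] {H : Type*} [NormedAddCommGroup H]
  [InnerProductSpace ℝ H] [FiniteDimensional ℝ H] [MeasurableSpace H] [BorelSpace H]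

lemma cs_sc1 {X P Q : ℝ} (hP : 0 ≤ P) (hQ : 0 ≤ Q)
    (h : ∀ η, 0 < η → X ≤ (η * P + Q / η) / 2) : X ≤ √(P * Q) := by
  have key : ∀ ε, 0 < ε → X ≤ √((P + ε) * (Q + ε)) := by
    intro ε hε
    have hp : 0 < √(P + ε) := Real.sqrt_pos.mpr (by linarith)
    have hq : 0 < √(Q + ε) := Real.sqrt_pos.mpr (by linarith)
    have h1 := h (√(Q + ε) / √(P + ε)) (div_pos hq hp)
    have ep : √(P + ε) ^ 2 = P + ε := Real.sq_sqrt (by linarith)
    have eq : √(Q + ε) ^ 2 = Q + ε := Real.sq_sqrt (by linarith)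
    rw [Real.sqrt_mul (by linarith)]
    have h2 : √(Q + ε) / √(P + ε) * P ≤ √(P + ε) * √(Q + ε) := by
      rw [div_mul_eq_mul_div, div_le_iff₀ hp]
      have : √(P + ε) * √(Q + ε) * √(P + ε) = √(Q + ε) * (P + ε) := by
        rw [← ep]; rw [Real.sqrt_sq hp.le]; ring
      rw [this]
      exact mul_le_mul_of_nonneg_left (by linarith) hq.le
    have h3 : Q / (√(Q + ε) / √(P + ε)) ≤ √(P + ε) * √(Q + ε) := by
      rw [div_div_eq_mul_div, div_le_iff₀ hq]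
      have : √(P + ε) * √(Q + ε) * √(Q + ε) = (Q + ε) * √(P + ε) := by
        rw [← eq]; rw [Real.sqrt_sq hq.le]; ring
      rw [this]
      exact mul_le_mul_of_nonneg_right (by linarith) hp.le
    linarith
  have ht : Tendsto (fun ε : ℝ => √((P + ε) * (Q + ε))) (𝓝[>] 0) (𝓝 (√((P + 0) * (Q + 0)))) :=
    (Continuous.tendsto (by fun_prop) 0).mono_left nhdsWithin_le_nhds
  rw [add_zero, add_zero] at ht
  exact ge_of_tendsto ht (eventually_nhdsWithin_of_forall fun ε hε => key ε hε)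

/-- The smoothed mass, cut in height. -/
noncomputable def J_sc1 (D : CD α H) (u : ℂ) (d : ℝ) (ψ : H → ℝ) (s : ℝ) : ℝ :=
  ∫ a, cut d (‖D.x a - u‖ ^ 2 / s ^ 2) * ψ (D.y a) ∂D.m

variable {D : CD α H} {c : ℂ} {R δ M : ℝ}

lemma meas_k_sc1 (h : CV D c R δ M) (u : ℂ) (s : ℝ) :
    Measurable fun a => ‖D.x a - u‖ ^ 2 / s ^ 2 :=
  (((h.m_x.sub_const u).norm).pow_const 2).div_const _

lemma int_J_sc1 (h : CV D c R δ M) (u : ℂ) (d s : ℝ) {ψ : H → ℝ} (hψ : Continuous ψ)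
    (h01 : ∀ y, 0 ≤ ψ y ∧ ψ y ≤ 1) :
    Integrable (fun a => cut d (‖D.x a - u‖ ^ 2 / s ^ 2) * ψ (D.y a)) D.m := by
  refine h.integrable (Measurable.aestronglyMeasurable
    (((cut_contDiff d).continuous.measurable.comp (meas_k_sc1 h u s)).mul
      (hψ.measurable.comp h.m_y))) 1 fun a _ _ => ?_
  rw [Real.norm_eq_abs, abs_of_nonneg (mul_nonneg (cut_nonneg _ _) (h01 _).1)]
  exact mul_le_one₀ (cut_le_one _ _) (h01 _).1 (h01 _).2

lemma J_deriv_sc1 (h : CV D c R δ M) (u : ℂ) (d : ℝ) {s : ℝ} (hs : 0 < s) {ψ : H → ℝ}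
    (hψ : Continuous ψ) (h01 : ∀ y, 0 ≤ ψ y ∧ ψ y ≤ 1) :
    Integrable (fun a => deriv (cut d) (‖D.x a - u‖ ^ 2 / s ^ 2) *
      (-2 * ‖D.x a - u‖ ^ 2 / s ^ 3) * ψ (D.y a)) D.m ∧
    HasDerivAt (J_sc1 D u d ψ) (∫ a, deriv (cut d) (‖D.x a - u‖ ^ 2 / s ^ 2) *
      (-2 * ‖D.x a - u‖ ^ 2 / s ^ 3) * ψ (D.y a) ∂D.m) s := by
  have := h.fin
  obtain ⟨C, hC⟩ := cut_deriv_bound (δ := d) ((2 + ‖u‖) ^ 2 / (s / 2) ^ 2)
  have hC0 : 0 ≤ C := (abs_nonneg _).trans (hC 0 ⟨le_rfl, by positivity⟩)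
  refine hasDerivAt_integral_of_dominated_loc_of_deriv_le
    (F := fun (s : ℝ) (a : α) => cut d (‖D.x a - u‖ ^ 2 / s ^ 2) * ψ (D.y a))
    (F' := fun (s : ℝ) (a : α) => deriv (cut d) (‖D.x a - u‖ ^ 2 / s ^ 2) *
      (-2 * ‖D.x a - u‖ ^ 2 / s ^ 3) * ψ (D.y a))
    (bound := fun _ => C * (2 * (2 + ‖u‖) ^ 2 / (s / 2) ^ 3))
    (Ioi_mem_nhds (half_lt_self hs)) ?_ (int_J_sc1 h u d s hψ h01) ?_ ?_
    (integrable_const _) ?_
  · exact Eventually.of_forall fun t => (int_J_sc1 h u d t hψ h01).aestronglyMeasurable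
  · exact Measurable.aestronglyMeasurable
      ((((cut_deriv_continuous d).measurable.comp (meas_k_sc1 h u s)).mul
        (((((h.m_x.sub_const u).norm).pow_const 2).const_mul _).div_const _)).mul
        (hψ.measurable.comp h.m_y))
  · filter_upwards [h.ae_G] with a ha t ht
    have ht0 : 0 < t := (half_pos hs).trans ht
    have h3 : s / 2 < t := ht
    have hz' : ‖D.x a - u‖ ≤ 2 + ‖u‖ :=
      (norm_sub_le _ _).trans (by linarith [(h.pw a ha).x_le])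
    rw [Real.norm_eq_abs, abs_mul, abs_mul, abs_of_nonneg (h01 _).1]
    refine (mul_le_of_le_one_right (by positivity) (h01 _).2).trans ?_
    refine mul_le_mul (hC _ ⟨by positivity, by gcongr⟩) ?_ (abs_nonneg _) hC0
    rw [abs_div, abs_mul, abs_of_nonneg (by positivity : 0 ≤ ‖D.x a - u‖ ^ 2),
      abs_of_pos (by positivity : 0 < t ^ 3), abs_neg, abs_two]
    gcongr
  · refine Eventually.of_forall fun a t ht => ?_
    have ht0 : 0 < t := (half_pos hs).trans ht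
    have h3 : HasDerivAt (fun t : ℝ => ‖D.x a - u‖ ^ 2 / t ^ 2)
        (-2 * ‖D.x a - u‖ ^ 2 / t ^ 3) t := by
      have := (hasDerivAt_const t (‖D.x a - u‖ ^ 2)).div (hasDerivAt_pow 2 t) (by positivity)
      refine this.congr_deriv ?_
      simp only [Nat.cast_ofNat, Nat.add_one_sub_one, pow_one]
      field_simp
      ring
    exact ((cut_hasDerivAt d _).comp t h3).mul_const _

/-- The test function. -/
noncomputable def Ps_sc1 (u : ℂ) (d s : ℝ) (ψ : H → ℝ) (z : ℂ × H) : ℝ :=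
  cut d (‖z.1 - u‖ ^ 2 / s ^ 2) * ψ z.2

lemma Ps_test_sc1 {u : ℂ} {d s : ℝ} (hd : 0 < d) (hs : 0 < s) (hR : ‖u - c‖ + s < R) {ψ : H → ℝ}
    (hψ : ContDiff ℝ 1 ψ) : Test c R (Ps_sc1 u d s ψ) := by
  refine ⟨ContDiff.contDiffOn ?_, ‖u - c‖ + s, hR, fun z hz => ?_⟩
  · have hn : ContDiff ℝ 1 fun z : ℂ × H => ‖z.1 - u‖ ^ 2 / s ^ 2 :=
      ((contDiff_fst.sub contDiff_const).norm_sq ℝ).div_const _
    exact (((cut_contDiff d).of_le (by norm_num)).comp hn).mul (hψ.comp contDiff_snd)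
  · have h1 : ‖z.1 - c‖ ≤ ‖z.1 - u‖ + ‖u - c‖ := norm_sub_le_norm_sub_add_norm_sub _ _ _
    have h2 : s ≤ ‖z.1 - u‖ := by linarith
    unfold Ps_sc1
    rw [cut_zero hd, zero_mul]
    rw [one_le_div (by positivity)]
    gcongr

lemma Ps_fderiv_sc1 (u : ℂ) (d s : ℝ) {ψ : H → ℝ} (hψ : ContDiff ℝ 1 ψ) (x v : ℂ) (y w : H) :
    fderiv ℝ (Ps_sc1 u d s ψ) (x, y) (v, w) =
      deriv (cut d) (‖x - u‖ ^ 2 / s ^ 2) * (2 * ⟪x - u, v⟫ / s ^ 2) * ψ y +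
        cut d (‖x - u‖ ^ 2 / s ^ 2) * fderiv ℝ ψ y w := by
  have hd1 : HasFDerivAt (fun z : ℂ × H => z.1 - u) (ContinuousLinearMap.fst ℝ ℂ H) (x, y) :=
    (hasFDerivAt_fst (p := (x, y))).sub_const u
  have hd2 := (cut_hasDerivAt d _).comp_hasFDerivAt (x, y) (hd1.norm_sq.mul_const (s ^ 2)⁻¹)
  have hd3 : HasFDerivAt (fun z : ℂ × H => ψ z.2)
      ((fderiv ℝ ψ y).comp (ContinuousLinearMap.snd ℝ ℂ H)) (x, y) :=
    (hψ.differentiable one_ne_zero y).hasFDerivAt.comp (x, y) hasFDerivAt_snd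
  have hd4 := hd2.mul hd3
  have hX : Ps_sc1 u d s ψ = (cut d ∘ fun z : ℂ × H => ‖z.1 - u‖ ^ 2 * (s ^ 2)⁻¹) *
      fun z : ℂ × H => ψ z.2 := by
    ext z
    simp [Ps_sc1, div_eq_mul_inv]
  rw [hX, hd4.fderiv]
  simp only [add_apply, smul_apply, Function.comp_apply, ContinuousLinearMap.comp_apply,
    innerSL_apply_apply, smul_eq_mul, nsmul_eq_mul, div_eq_mul_inv,
    ContinuousLinearMap.coe_fst', ContinuousLinearMap.coe_snd']
  push_cast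
  ring

/-- The error density. -/
noncomputable def err_sc1 (D : CD α H) (u : ℂ) (d s : ℝ) (ψ : H → ℝ) (a : α) : ℝ :=
  -(deriv (cut d) (‖D.x a - u‖ ^ 2 / s ^ 2) * (2 * ⟪D.x a - u, D.τ a (D.x a - u)⟫ / s ^ 2) *
      ψ (D.y a)) +
    cut d (‖D.x a - u‖ ^ 2 / s ^ 2) * fderiv ℝ ψ (D.y a) (D.b a (D.x a - u)) -
    cut d (‖D.x a - u‖ ^ 2 / s ^ 2) * ψ (D.y a) * D.t a +
    cut d (‖D.x a - u‖ ^ 2 / s ^ 2) * ψ (D.y a) * ⟪D.eh a, D.x a - u⟫

lemma meas_err_sc1 (h : CV D c R δ M) (u : ℂ) (d s : ℝ) {ψ : H → ℝ} (hψ : ContDiff ℝ 1 ψ) :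
    Measurable (err_sc1 D u d s ψ) := by
  have hx : Measurable fun a => D.x a - u := h.m_x.sub_const u
  have h1 := (cut_contDiff d).continuous.measurable.comp (meas_k_sc1 h u s)
  have h2 := (cut_deriv_continuous d).measurable.comp (meas_k_sc1 h u s)
  have h3 := hψ.continuous.measurable.comp h.m_y
  have h4 : Measurable fun a => D.τ a (D.x a - u) :=
    ContinuousLinearMap.measurable_apply₂.comp (h.m_τ.prodMk hx)
  have h5 : Measurable fun a => D.b a (D.x a - u) :=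
    ContinuousLinearMap.measurable_apply₂.comp (h.m_b.prodMk hx)
  have h6 : Measurable fun a => fderiv ℝ ψ (D.y a) (D.b a (D.x a - u)) :=
    ContinuousLinearMap.measurable_apply₂.comp
      (((hψ.continuous_fderiv one_ne_zero).measurable.comp h.m_y).prodMk h5)
  exact ((((h2.mul (((hx.inner h4).const_mul 2).div_const _)).mul h3).neg.add (h1.mul h6)).sub
    ((h1.mul h3).mul h.m_t)).add ((h1.mul h3).mul (h.m_eh.inner hx))

lemma err_le_sc1 (h : CV D c R δ M) (hδ : δ ≤ 1) (u : ℂ) {d s C₁ Λ : ℝ} (hd : 0 < d) (hs : 0 < s)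
    (hC : ∀ k ∈ Icc (0 : ℝ) 2, |deriv (cut d) k| ≤ C₁) {ψ : H → ℝ} {S : Set H}
    (h01 : ∀ y, 0 ≤ ψ y ∧ ψ y ≤ 1) (hΛ : ∀ y, ‖fderiv ℝ ψ y‖ ≤ Λ)
    (hS : ∀ y ∉ S, ψ y = 0 ∧ fderiv ℝ ψ y = 0) {a : α} (ha : a ∈ D.G) :
    |err_sc1 D u d s ψ a| ≤ (D.cyl u (4 / 3 * s) ∩ D.y ⁻¹' S).indicator
      (fun a => (8 * C₁ + 1) * (D.t a + δ * ‖D.y a‖ ^ 2) +
        6 * Λ * s * √(D.t a + δ * ‖D.y a‖ ^ 2) + 6 * δ * s) a := by
  by_cases hZ : a ∈ D.cyl u (4 / 3 * s) ∩ D.y ⁻¹' S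
  · rw [indicator_of_mem hZ]
    have hp := h.pw a ha
    have hδ0 := h.δ_nonneg
    have hx : ‖D.x a - u‖ < 4 / 3 * s := hZ.1
    have hC0 : 0 ≤ C₁ := (abs_nonneg _).trans (hC 0 ⟨le_rfl, by positivity⟩)
    have hΛ0 : 0 ≤ Λ := (norm_nonneg _).trans (hΛ 0)
    have ht0 := hp.t_nonneg
    have hk : ‖D.x a - u‖ ^ 2 / s ^ 2 ≤ 2 := by
      rw [div_le_iff₀ (by positivity)]
      nlinarith [norm_nonneg (D.x a - u)]
    have hk1 := hC _ ⟨by positivity, hk⟩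
    have hc0 := cut_nonneg d (‖D.x a - u‖ ^ 2 / s ^ 2)
    have hc1 := cut_le_one d (‖D.x a - u‖ ^ 2 / s ^ 2)
    have hψ0 := (h01 (D.y a)).1
    have hψ1 := (h01 (D.y a)).2
    have hcψ : cut d (‖D.x a - u‖ ^ 2 / s ^ 2) * ψ (D.y a) ≤ 1 := mul_le_one₀ hc1 hψ0 hψ1
    have hcψ0 : 0 ≤ cut d (‖D.x a - u‖ ^ 2 / s ^ 2) * ψ (D.y a) := mul_nonneg hc0 hψ0
    have hy2 : 0 ≤ δ * ‖D.y a‖ ^ 2 := by positivity
    have e1 : |deriv (cut d) (‖D.x a - u‖ ^ 2 / s ^ 2) *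
        (2 * ⟪D.x a - u, D.τ a (D.x a - u)⟫ / s ^ 2) * ψ (D.y a)| ≤ 8 * C₁ * D.t a := by
      have b1 : |⟪D.x a - u, D.τ a (D.x a - u)⟫| ≤ 2 * D.t a * ‖D.x a - u‖ ^ 2 := by
        refine (abs_real_inner_le_norm _ _).trans ?_
        have := (D.τ a).le_of_opNorm_le hp.τ_le (D.x a - u)
        calc _ ≤ ‖D.x a - u‖ * (2 * D.t a * ‖D.x a - u‖) := by gcongr
          _ = _ := by ring
      have b2 : |2 * ⟪D.x a - u, D.τ a (D.x a - u)⟫ / s ^ 2| ≤ 8 * D.t a := by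
        rw [abs_div, abs_mul, abs_two, abs_of_pos (by positivity : 0 < s ^ 2)]
        calc _ ≤ 2 * (2 * D.t a * ‖D.x a - u‖ ^ 2) / s ^ 2 := by gcongr
          _ = 4 * D.t a * (‖D.x a - u‖ ^ 2 / s ^ 2) := by ring
          _ ≤ 4 * D.t a * 2 := by gcongr
          _ = _ := by ring
      rw [abs_mul, abs_mul, abs_of_nonneg hψ0]
      calc _ ≤ C₁ * (8 * D.t a) * 1 := by gcongr
        _ = _ := by ring
    have e2 : |cut d (‖D.x a - u‖ ^ 2 / s ^ 2) * fderiv ℝ ψ (D.y a) (D.b a (D.x a - u))| ≤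
        6 * Λ * s * √(D.t a + δ * ‖D.y a‖ ^ 2) := by
      have b1 : √(D.t a) ≤ √(D.t a + δ * ‖D.y a‖ ^ 2) := Real.sqrt_le_sqrt (by linarith)
      have b2 : δ * ‖D.y a‖ ≤ √(D.t a + δ * ‖D.y a‖ ^ 2) := by
        refine Real.le_sqrt_of_sq_le ?_
        have : δ ^ 2 * ‖D.y a‖ ^ 2 ≤ δ * ‖D.y a‖ ^ 2 := by
          refine mul_le_mul_of_nonneg_right ?_ (by positivity)
          nlinarith
        rw [mul_pow]
        linarith
      have b3 : ‖D.b a‖ ≤ 3 * √(D.t a + δ * ‖D.y a‖ ^ 2) := by linarith [hp.b_le]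
      have b4 := (D.b a).le_of_opNorm_le b3 (D.x a - u)
      have b5 := (fderiv ℝ ψ (D.y a)).le_of_opNorm_le (hΛ _) (D.b a (D.x a - u))
      have b6 : ‖D.x a - u‖ ≤ 2 * s := by linarith
      rw [abs_mul, abs_of_nonneg hc0, ← Real.norm_eq_abs]
      calc _ ≤ 1 * (Λ * (3 * √(D.t a + δ * ‖D.y a‖ ^ 2) * (2 * s))) := by
            refine mul_le_mul hc1 (b5.trans ?_) (norm_nonneg _) zero_le_one
            refine mul_le_mul_of_nonneg_left (b4.trans ?_) hΛ0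
            gcongr
        _ = _ := by ring
    have e3 : |cut d (‖D.x a - u‖ ^ 2 / s ^ 2) * ψ (D.y a) * D.t a| ≤ D.t a := by
      rw [abs_of_nonneg (mul_nonneg hcψ0 ht0)]
      exact mul_le_of_le_one_left ht0 hcψ
    have e4 : |cut d (‖D.x a - u‖ ^ 2 / s ^ 2) * ψ (D.y a) * ⟪D.eh a, D.x a - u⟫| ≤
        6 * δ * s := by
      have b1 : ‖D.y a‖ ^ 2 ≤ 1 := by
        have := hp.y_le
        nlinarith [norm_nonneg (D.y a)]
      have b2 : ‖D.eh a‖ ≤ δ * 3 := hp.eh_le.trans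
        (mul_le_mul_of_nonneg_left (by linarith [hp.t_le]) hδ0)
      have b6 : ‖D.x a - u‖ ≤ 2 * s := by linarith
      rw [abs_mul, abs_of_nonneg hcψ0]
      calc _ ≤ 1 * (δ * 3 * (2 * s)) := by
            refine mul_le_mul hcψ ((abs_real_inner_le_norm _ _).trans ?_) (abs_nonneg _)
              zero_le_one
            gcongr
        _ = _ := by ring
    have e5 : 0 ≤ (8 * C₁ + 1) * (δ * ‖D.y a‖ ^ 2) := by positivity
    rw [abs_le] at e1 e2 e3 e4 ⊢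
    unfold err_sc1
    constructor <;> nlinarith [e1.1, e1.2, e2.1, e2.2, e3.1, e3.2, e4.1, e4.2]
  · rw [indicator_of_notMem hZ]
    rw [mem_inter_iff, not_and_or] at hZ
    unfold err_sc1
    rcases hZ with hZ | hZ
    · have hx : 4 / 3 * s ≤ ‖D.x a - u‖ := not_lt.mp hZ
      have hk : 1 < ‖D.x a - u‖ ^ 2 / s ^ 2 := by
        rw [one_lt_div (by positivity)]
        have : s < ‖D.x a - u‖ := by linarith
        gcongr
      rw [cut_zero hd hk.le, cut_deriv_zero hd hk]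
      simp
    · rw [(hS _ hZ).1, (hS _ hZ).2]
      simp

lemma int_err_sc1 (h : CV D c R δ M) (hδ : δ ≤ 1) (u : ℂ) {d s C₁ Λ A E₀ ρ : ℝ} (hd : 0 < d)
    (hs : 0 < s) (hC : ∀ k ∈ Icc (0 : ℝ) 2, |deriv (cut d) k| ≤ C₁) {ψ : H → ℝ} {S : Set H}
    (hψ : ContDiff ℝ 1 ψ) (h01 : ∀ y, 0 ≤ ψ y ∧ ψ y ≤ 1) (hΛ : ∀ y, ‖fderiv ℝ ψ y‖ ≤ Λ)
    (hSm : MeasurableSet S) (hS : ∀ y ∉ S, ψ y = 0 ∧ fderiv ℝ ψ y = 0)
    (hA : D.m.real (D.cyl u (4 / 3 * s) ∩ D.y ⁻¹' S) ≤ A * (4 / 3 * s) ^ 2) (hρ : 4 / 3 * s ≤ ρ)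
    (hE : ∫ a in D.cyl u ρ ∩ D.y ⁻¹' S, (D.t a + δ * ‖D.y a‖ ^ 2) ∂D.m ≤ E₀) :
    Integrable (err_sc1 D u d s ψ) D.m ∧ |∫ a, err_sc1 D u d s ψ a ∂D.m| ≤
      (8 * C₁ + 13) * (E₀ + Λ * √(A * E₀) * s ^ 2 + δ * A * s ^ 3) := by
  have := h.fin
  have hδ0 := h.δ_nonneg
  have hC0 : 0 ≤ C₁ := (abs_nonneg _).trans (hC 0 ⟨le_rfl, by positivity⟩)
  have hΛ0 : 0 ≤ Λ := (norm_nonneg _).trans (hΛ 0)
  have hZ : MeasurableSet (D.cyl u (4 / 3 * s) ∩ D.y ⁻¹' S) :=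
    (h.meas_cyl u _).inter (h.m_y hSm)
  have he : Integrable (fun a => D.t a + δ * ‖D.y a‖ ^ 2) D.m :=
    h.integrable_t.1.add (h.integrable_t.2.2.1.const_mul δ)
  have he0 : ∀ᵐ a ∂D.m, 0 ≤ D.t a + δ * ‖D.y a‖ ^ 2 := by
    filter_upwards [h.ae_G] with a ha
    have := (h.pw a ha).t_nonneg
    positivity
  have hsq : Integrable (fun a => √(D.t a + δ * ‖D.y a‖ ^ 2)) D.m := by
    refine h.integrable (Measurable.aestronglyMeasurable
      (h.m_t.add ((h.m_y.norm.pow_const 2).const_mul δ)).sqrt) 2 fun a ha _ => ?_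
    rw [Real.norm_eq_abs, abs_of_nonneg (Real.sqrt_nonneg _)]
    refine Real.sqrt_le_iff.mpr ⟨by norm_num, ?_⟩
    have h1 := (h.pw a ha).y_le
    have h2 := (h.pw a ha).t_le
    have h3 : ‖D.y a‖ ^ 2 ≤ 1 := by nlinarith [norm_nonneg (D.y a)]
    nlinarith
  have hB : Integrable (fun a => (8 * C₁ + 1) * (D.t a + δ * ‖D.y a‖ ^ 2) +
      6 * Λ * s * √(D.t a + δ * ‖D.y a‖ ^ 2) + 6 * δ * s) D.m :=
    ((he.const_mul _).add (hsq.const_mul _)).add (integrable_const _)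
  have hle : ∀ᵐ a ∂D.m, ‖err_sc1 D u d s ψ a‖ ≤ (D.cyl u (4 / 3 * s) ∩ D.y ⁻¹' S).indicator
      (fun a => (8 * C₁ + 1) * (D.t a + δ * ‖D.y a‖ ^ 2) +
        6 * Λ * s * √(D.t a + δ * ‖D.y a‖ ^ 2) + 6 * δ * s) a := by
    filter_upwards [h.ae_G] with a ha
    exact err_le_sc1 h hδ u hd hs hC h01 hΛ hS ha
  refine ⟨(hB.indicator hZ).mono' (meas_err_sc1 h u d s hψ).aestronglyMeasurable hle, ?_⟩
  refine (norm_integral_le_of_norm_le (hB.indicator hZ) hle).trans ?_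
  have hB1 : Integrable (fun a => (8 * C₁ + 1) * (D.t a + δ * ‖D.y a‖ ^ 2) +
      6 * Λ * s * √(D.t a + δ * ‖D.y a‖ ^ 2)) D.m := (he.const_mul _).add (hsq.const_mul _)
  rw [integral_indicator hZ, integral_add hB1.integrableOn
    (integrable_const _), integral_add (he.const_mul _).integrableOn (hsq.const_mul _).integrableOn,
    integral_const_mul, integral_const_mul, setIntegral_const, smul_eq_mul]
  have hE1 : ∫ a in D.cyl u (4 / 3 * s) ∩ D.y ⁻¹' S, (D.t a + δ * ‖D.y a‖ ^ 2) ∂D.m ≤ E₀ := by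
    refine le_trans (setIntegral_mono_set he.integrableOn (ae_restrict_of_ae he0) ?_) hE
    exact Eventually.of_forall fun a ha => ⟨lt_of_lt_of_le ha.1 hρ, ha.2⟩
  have hE0 : 0 ≤ E₀ := le_trans (integral_nonneg_of_ae (ae_restrict_of_ae he0)) hE1
  have hA0 : 0 ≤ A := by
    have := measureReal_nonneg.trans hA
    exact nonneg_of_mul_nonneg_left this (by positivity)
  have hm : D.m.real (D.cyl u (4 / 3 * s) ∩ D.y ⁻¹' S) ≤ 2 * A * s ^ 2 := by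
    refine hA.trans ?_
    nlinarith [mul_nonneg hA0 (sq_nonneg s)]
  have hX : ∫ a in D.cyl u (4 / 3 * s) ∩ D.y ⁻¹' S, √(D.t a + δ * ‖D.y a‖ ^ 2) ∂D.m ≤
      √((4 / 3 * s) ^ 2 * A * E₀) := by
    refine cs_sc1 (by positivity) hE0 fun η hη => ?_
    have h1 : ∫ a in D.cyl u (4 / 3 * s) ∩ D.y ⁻¹' S, √(D.t a + δ * ‖D.y a‖ ^ 2) ∂D.m ≤
        ∫ a in D.cyl u (4 / 3 * s) ∩ D.y ⁻¹' S,
          (η / 2 + (2 * η)⁻¹ * (D.t a + δ * ‖D.y a‖ ^ 2)) ∂D.m := by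
      refine integral_mono_ae hsq.integrableOn
        ((integrable_const _).add (he.const_mul _).integrableOn) ?_
      filter_upwards [ae_restrict_of_ae he0] with a ha
      have h2 := Real.sq_sqrt ha
      have h3 : η / 2 + (2 * η)⁻¹ * (D.t a + δ * ‖D.y a‖ ^ 2) - √(D.t a + δ * ‖D.y a‖ ^ 2) =
          (2 * η)⁻¹ * (η - √(D.t a + δ * ‖D.y a‖ ^ 2)) ^ 2 := by
        rw [sub_sq, h2]
        field_simp
        ring
      have h4 : 0 ≤ (2 * η)⁻¹ * (η - √(D.t a + δ * ‖D.y a‖ ^ 2)) ^ 2 := by positivity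
      linarith
    rw [integral_add (integrable_const _) (he.const_mul _).integrableOn, integral_const_mul,
      setIntegral_const, smul_eq_mul] at h1
    refine h1.trans ?_
    calc _ ≤ A * (4 / 3 * s) ^ 2 * (η / 2) + (2 * η)⁻¹ * E₀ := by gcongr
      _ = _ := by field_simp
  rw [mul_assoc ((4 / 3 * s) ^ 2), Real.sqrt_mul (by positivity), Real.sqrt_sq (by positivity)]
    at hX
  have hq : 0 ≤ √(A * E₀) := Real.sqrt_nonneg _
  have p1 : 0 ≤ Λ * √(A * E₀) * s ^ 2 := by positivity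
  have p2 : 0 ≤ δ * A * s ^ 3 := by positivity
  calc _ ≤ (8 * C₁ + 1) * E₀ + 6 * Λ * s * (4 / 3 * s * √(A * E₀)) +
        2 * A * s ^ 2 * (6 * δ * s) := by gcongr
    _ = (8 * C₁ + 1) * E₀ + 8 * (Λ * √(A * E₀) * s ^ 2) + 12 * (δ * A * s ^ 3) := by ring
    _ ≤ _ := by nlinarith [mul_nonneg hC0 p1, mul_nonneg hC0 p2]

lemma ident_sc1 (h : CV D c R δ M) (u : ℂ) {d s : ℝ} (hd : 0 < d) (hs : 0 < s)
    (hR : ‖u - c‖ + s < R) {ψ : H → ℝ} (hψ : ContDiff ℝ 1 ψ) (h01 : ∀ y, 0 ≤ ψ y ∧ ψ y ≤ 1)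
    (hi : Integrable (err_sc1 D u d s ψ) D.m) :
    s * (∫ a, deriv (cut d) (‖D.x a - u‖ ^ 2 / s ^ 2) *
      (-2 * ‖D.x a - u‖ ^ 2 / s ^ 3) * ψ (D.y a) ∂D.m) - 2 * J_sc1 D u d ψ s =
      ∫ a, err_sc1 D u d s ψ a ∂D.m := by
  have h0 := h.hor_pos (Ps_test_sc1 hd hs hR hψ) u
  have hi1 := (J_deriv_sc1 h u d hs hψ.continuous h01).1
  have hi2 := int_J_sc1 h u d s hψ.continuous h01
  have e : ∀ a, fderiv ℝ (Ps_sc1 u d s ψ) (D.x a, D.y a)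
      ((D.x a - u) - D.τ a (D.x a - u), D.b a (D.x a - u)) +
      Ps_sc1 u d s ψ (D.x a, D.y a) * (2 - D.t a) +
      Ps_sc1 u d s ψ (D.x a, D.y a) * ⟪D.eh a, D.x a - u⟫ =
      err_sc1 D u d s ψ a - (s * (deriv (cut d) (‖D.x a - u‖ ^ 2 / s ^ 2) *
        (-2 * ‖D.x a - u‖ ^ 2 / s ^ 3) * ψ (D.y a)) -
        2 * (cut d (‖D.x a - u‖ ^ 2 / s ^ 2) * ψ (D.y a))) := by
    intro a
    rw [Ps_fderiv_sc1 u d s hψ, inner_sub_right, real_inner_self_eq_norm_sq]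
    unfold err_sc1 Ps_sc1
    field_simp
    ring
  simp only [e] at h0
  have hi3 : Integrable (fun a => s * (deriv (cut d) (‖D.x a - u‖ ^ 2 / s ^ 2) *
      (-2 * ‖D.x a - u‖ ^ 2 / s ^ 3) * ψ (D.y a)) -
      2 * (cut d (‖D.x a - u‖ ^ 2 / s ^ 2) * ψ (D.y a))) D.m :=
    (hi1.const_mul _).sub (hi2.const_mul _)
  rw [integral_sub hi hi3,
    integral_sub (hi1.const_mul _) (hi2.const_mul _), integral_const_mul, integral_const_mul] at h0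
  unfold J_sc1
  linarith

/-- Fixed centre, long range of radii. -/
theorem sc_fixed {κ : ℝ} (hκ : 0 < κ) (hκ1 : κ ≤ 1) : ∃ C : ℝ, 0 < C ∧ ∀ (D : CD α H) (c : ℂ)
    (R δ M : ℝ), CV D c R δ M → δ ≤ 1 → ∀ (u : ℂ) (r₁ r₂ Λ A E₀ : ℝ) (ψ : H → ℝ) (S : Set H),
    0 < r₁ → r₁ ≤ r₂ → ‖u - c‖ + 2 * r₂ ≤ R → ContDiff ℝ 1 ψ → (∀ y, 0 ≤ ψ y ∧ ψ y ≤ 1) →
    (∀ y, ‖fderiv ℝ ψ y‖ ≤ Λ) → MeasurableSet S → (∀ y ∉ S, ψ y = 0 ∧ fderiv ℝ ψ y = 0) →
    (∀ r, r₁ ≤ r → r ≤ 2 * r₂ → D.m.real (D.cyl u r ∩ D.y ⁻¹' S) ≤ A * r ^ 2) →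
    ∫ a in D.cyl u (2 * r₂) ∩ D.y ⁻¹' S, (D.t a + δ * ‖D.y a‖ ^ 2) ∂D.m ≤ E₀ →
    (∫ a in D.cyl u r₁, ψ (D.y a) ∂D.m) / r₁ ^ 2 ≤
        (∫ a in D.cyl u ((1 + κ) * r₂), ψ (D.y a) ∂D.m) / r₂ ^ 2 +
          C * (E₀ / r₁ ^ 2 + Λ * √(A * E₀) * Real.log (r₂ / r₁) + δ * A * r₂) := by
  obtain ⟨l, hl⟩ : ∃ l : ℝ, l = 1 + κ / 2 := ⟨_, rfl⟩
  have hl1 : 1 < l := by linarith
  have hl2 : l ≤ 3 / 2 := by linarith
  have hl0 : 0 < l := by linarith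
  obtain ⟨d, hdd⟩ : ∃ d : ℝ, d = 1 - (l ^ 2)⁻¹ := ⟨_, rfl⟩
  have hd : 0 < d := by
    rw [hdd, sub_pos]
    exact inv_lt_one_of_one_lt₀ (by nlinarith)
  obtain ⟨C₁, hC⟩ := cut_deriv_bound (δ := d) 2
  have hC0 : 0 ≤ C₁ := (abs_nonneg _).trans (hC 0 ⟨le_rfl, by positivity⟩)
  obtain ⟨K, hK⟩ : ∃ K : ℝ, K = 8 * C₁ + 13 := ⟨_, rfl⟩
  have hK0 : 0 < K := by linarith
  refine ⟨4 * K, by positivity, ?_⟩
  intro D c R δ M h hδ u r₁ r₂ Λ A E₀ ψ S hr₁ hr hR hψ h01 hΛ hSm hS hA hE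
  have := h.fin
  have hr₂ : 0 < r₂ := hr₁.trans_le hr
  have hδ0 := h.δ_nonneg
  have hΛ0 : 0 ≤ Λ := (norm_nonneg _).trans (hΛ 0)
  have hA0 : 0 ≤ A := by
    have := measureReal_nonneg.trans (hA r₁ le_rfl (by linarith))
    exact nonneg_of_mul_nonneg_left this (by positivity)
  have hE0 : 0 ≤ E₀ := by
    refine le_trans (integral_nonneg_of_ae (ae_restrict_of_ae ?_)) hE
    filter_upwards [h.ae_G] with a ha
    have := (h.pw a ha).t_nonneg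
    positivity
  obtain ⟨P, hP⟩ : ∃ P : ℝ, P = Λ * √(A * E₀) := ⟨_, rfl⟩
  have hP0 : 0 ≤ P := by rw [hP]; positivity
  have hder : ∀ s ∈ Icc (l * r₁) (l * r₂), ∃ g, 0 ≤ g ∧ HasDerivAt (fun s => J_sc1 D u d ψ s / s ^ 2 +
      K * (-(E₀ / 2 / s ^ 2) + P * Real.log s + δ * A * s)) g s := by
    intro s hs
    have hs1 : r₁ ≤ s := le_trans (by nlinarith) hs.1
    have hs2 : s ≤ 3 / 2 * r₂ := hs.2.trans (by gcongr)
    have hs0 : 0 < s := hr₁.trans_le hs1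
    obtain ⟨hi, hb⟩ := int_err_sc1 h hδ u hd hs0 hC hψ h01 hΛ hSm hS
      (hA _ (by linarith) (by linarith)) (by linarith) hE
    have hid := ident_sc1 h u hd hs0 (by linarith) hψ h01 hi
    have h1 := (J_deriv_sc1 h u d hs0 hψ.continuous h01).2
    rw [← hid, ← hK, ← hP] at hb
    have h2 := h1.div (hasDerivAt_pow 2 s) (by positivity)
    have h3 := ((hasDerivAt_const s (E₀ / 2)).div (hasDerivAt_pow 2 s) (by positivity)).neg
    have h4 := (Real.hasDerivAt_log hs0.ne').const_mul P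
    have h5 := (hasDerivAt_id s).const_mul (δ * A)
    refine ⟨_, ?_, h2.add (((h3.add h4).add h5).const_mul K)⟩
    have h6 := (abs_le.mp hb).1
    generalize (∫ a, deriv (cut d) (‖D.x a - u‖ ^ 2 / s ^ 2) *
      (-2 * ‖D.x a - u‖ ^ 2 / s ^ 3) * ψ (D.y a) ∂D.m) = I at h6 ⊢
    generalize J_sc1 D u d ψ s = J at h6 ⊢
    have h7 : 0 ≤ (s * I - 2 * J + K * (E₀ + P * s ^ 2 + δ * A * s ^ 3)) / s ^ 3 :=
      div_nonneg (by linarith) (by positivity)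
    refine h7.trans_eq ?_
    simp only [Nat.cast_ofNat, Nat.add_one_sub_one, pow_one]
    field_simp
    ring
  have hmono : MonotoneOn (fun s => J_sc1 D u d ψ s / s ^ 2 +
      K * (-(E₀ / 2 / s ^ 2) + P * Real.log s + δ * A * s)) (Icc (l * r₁) (l * r₂)) := by
    refine monotoneOn_of_deriv_nonneg (convex_Icc _ _) (fun s hs => ?_) (fun s hs => ?_)
      (fun s hs => ?_)
    · obtain ⟨g, -, hg⟩ := hder s hs
      exact hg.continuousAt.continuousWithinAt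
    · obtain ⟨g, -, hg⟩ := hder s (interior_subset hs)
      exact hg.differentiableAt.differentiableWithinAt
    · obtain ⟨g, h0, hg⟩ := hder s (interior_subset hs)
      rwa [hg.deriv]
  have hll : l * r₁ ≤ l * r₂ := by gcongr
  have hm := hmono (left_mem_Icc.mpr hll) (right_mem_Icc.mpr hll) hll
  have hψi : Integrable (fun a => ψ (D.y a)) D.m :=
    h.integrable (hψ.continuous.measurable.comp h.m_y).aestronglyMeasurable 1 fun a _ _ => by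
      rw [Real.norm_eq_abs, abs_of_nonneg (h01 _).1]; exact (h01 _).2
  have hlo : ∫ a in D.cyl u r₁, ψ (D.y a) ∂D.m ≤ J_sc1 D u d ψ (l * r₁) := by
    rw [← integral_indicator (h.meas_cyl u _)]
    refine integral_mono (hψi.indicator (h.meas_cyl u _))
      (int_J_sc1 h u d _ hψ.continuous h01) fun a => ?_
    by_cases ha : a ∈ D.cyl u r₁
    · have hx : ‖D.x a - u‖ < r₁ := ha
      rw [indicator_of_mem ha]
      have : cut d (‖D.x a - u‖ ^ 2 / (l * r₁) ^ 2) = 1 := by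
        refine cut_one hd ?_
        rw [hdd, sub_sub_cancel, div_le_iff₀ (by positivity)]
        have : (l ^ 2)⁻¹ * (l * r₁) ^ 2 = r₁ ^ 2 := by field_simp
        rw [this]
        gcongr
      simp only [this, one_mul, le_refl]
    · rw [indicator_of_notMem ha]
      exact mul_nonneg (cut_nonneg _ _) (h01 _).1
  have hhi : J_sc1 D u d ψ (l * r₂) ≤ ∫ a in D.cyl u ((1 + κ) * r₂), ψ (D.y a) ∂D.m := by
    rw [← integral_indicator (h.meas_cyl u _)]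
    refine integral_mono (int_J_sc1 h u d _ hψ.continuous h01)
      (hψi.indicator (h.meas_cyl u _)) fun a => ?_
    by_cases ha : a ∈ D.cyl u ((1 + κ) * r₂)
    · rw [indicator_of_mem ha]
      exact mul_le_of_le_one_left (h01 _).1 (cut_le_one _ _)
    · have hx : (1 + κ) * r₂ ≤ ‖D.x a - u‖ := not_lt.mp ha
      rw [indicator_of_notMem ha]
      have : cut d (‖D.x a - u‖ ^ 2 / (l * r₂) ^ 2) = 0 := by
        refine cut_zero hd ?_
        rw [one_le_div (by positivity)]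
        have : l * r₂ ≤ ‖D.x a - u‖ := le_trans (by nlinarith) hx
        gcongr
      simp only [this, zero_mul, le_refl]
  have hlog : Real.log (l * r₂) - Real.log (l * r₁) = Real.log (r₂ / r₁) := by
    rw [← Real.log_div (by positivity) (by positivity)]
    congr 1
    field_simp
  have hlog0 : 0 ≤ Real.log (r₂ / r₁) := Real.log_nonneg ((one_le_div hr₁).mpr hr)
  rw [← hP]
  have q1 : (∫ a in D.cyl u r₁, ψ (D.y a) ∂D.m) / r₁ ^ 2 ≤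
      l ^ 2 * (J_sc1 D u d ψ (l * r₁) / (l * r₁) ^ 2) := by
    have : l ^ 2 * (J_sc1 D u d ψ (l * r₁) / (l * r₁) ^ 2) = J_sc1 D u d ψ (l * r₁) / r₁ ^ 2 := by
      field_simp
    rw [this]
    gcongr
  have q2 : l ^ 2 * (J_sc1 D u d ψ (l * r₂) / (l * r₂) ^ 2) ≤
      (∫ a in D.cyl u ((1 + κ) * r₂), ψ (D.y a) ∂D.m) / r₂ ^ 2 := by
    have : l ^ 2 * (J_sc1 D u d ψ (l * r₂) / (l * r₂) ^ 2) = J_sc1 D u d ψ (l * r₂) / r₂ ^ 2 := by
      field_simp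
    rw [this]
    gcongr
  have q3 : J_sc1 D u d ψ (l * r₁) / (l * r₁) ^ 2 ≤ J_sc1 D u d ψ (l * r₂) / (l * r₂) ^ 2 +
      K * (E₀ / r₁ ^ 2 + P * Real.log (r₂ / r₁) + δ * A * (l * r₂)) := by
    have a1 : E₀ / 2 / (l * r₁) ^ 2 ≤ E₀ / r₁ ^ 2 := by
      have : r₁ ≤ l * r₁ := by nlinarith
      gcongr
      linarith
    have a2 : 0 ≤ E₀ / 2 / (l * r₂) ^ 2 := by positivity
    have a3 : 0 ≤ δ * A * (l * r₁) := by positivity
    have a4 : (-(E₀ / 2 / (l * r₂) ^ 2) + P * Real.log (l * r₂) + δ * A * (l * r₂)) -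
        (-(E₀ / 2 / (l * r₁) ^ 2) + P * Real.log (l * r₁) + δ * A * (l * r₁)) ≤
        E₀ / r₁ ^ 2 + P * Real.log (r₂ / r₁) + δ * A * (l * r₂) := by
      rw [← hlog]
      linarith
    have a5 := mul_le_mul_of_nonneg_left a4 hK0.le
    simp only at hm
    linarith
  have q4 : l ^ 2 * (K * (E₀ / r₁ ^ 2 + P * Real.log (r₂ / r₁) + δ * A * (l * r₂))) ≤
      4 * K * (E₀ / r₁ ^ 2 + P * Real.log (r₂ / r₁) + δ * A * r₂) := by
    have a1 : 0 ≤ E₀ / r₁ ^ 2 := by positivity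
    have a2 : 0 ≤ P * Real.log (r₂ / r₁) := by positivity
    have a3 : 0 ≤ δ * A * r₂ := by positivity
    have a4 : δ * A * (l * r₂) ≤ 3 / 2 * (δ * A * r₂) := by nlinarith
    calc _ ≤ (3 / 2) ^ 2 * (K * (E₀ / r₁ ^ 2 + P * Real.log (r₂ / r₁) +
          3 / 2 * (δ * A * r₂))) := by gcongr
      _ ≤ _ := by nlinarith [mul_nonneg hK0.le a1, mul_nonneg hK0.le a2, mul_nonneg hK0.le a3]
  have q5 := mul_le_mul_of_nonneg_left q3 (sq_nonneg l)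
  linarith

end Pool.Agent.Lib.MP_8daebb_an.SV
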