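import Pool.Agent.Lib.MP_8daebb_an.SV.Neck
import Pool.Agent.Lib.MP_8daebb_an.SV.MP

/-! Almost monotonicity of the mass ratio of cylinders. -/

open MeasureTheory Metric Filter Topology Set
open scoped RealInnerProductSpace ENNReal ContDiff

namespace Pool.Agent.Lib.MP_8daebb_an.SV

variable {α : Type*} [MeasurableSpace α] {H : Type*} [NormedAddCommGroup H]
  [InnerProductSpace ℝ H] [FiniteDimensional ℝ H] [MeasurableSpace H] [BorelSpace H]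

lemma int_cyl {m : Measure α} [IsFiniteMeasure m] {f : α → ℝ} (hf : Measurable f)
    (h0 : ∀ a, 0 ≤ f a ∧ f a ≤ 1) : Integrable f m :=
  Integrable.of_bound hf.aestronglyMeasurable 1 (ae_of_all _ fun a => by
    rw [Real.norm_eq_abs, abs_of_nonneg (h0 a).1]
    exact (h0 a).2)

lemma int_lo_cyl {m : Measure α} [IsFiniteMeasure m] {f : α → ℝ} (hf : Measurable f)
    (h0 : ∀ a, 0 ≤ f a ∧ f a ≤ 1) {W Z : Set α} (hW : MeasurableSet W) (hWZ : W ⊆ Z)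
    (h1 : ∀ a ∈ W, f a = 1) : m.real W ≤ ∫ a in Z, f a ∂m :=
  calc m.real W = ∫ _ in W, (1 : ℝ) ∂m := setIntegral_one_eq_measureReal.symm
    _ = ∫ a in W, f a ∂m := (setIntegral_congr_fun hW fun a ha => h1 a ha).symm
    _ ≤ _ := setIntegral_mono_set (int_cyl hf h0).integrableOn
        (ae_of_all _ fun a => (h0 a).1) hWZ.eventuallyLE

lemma int_up_cyl {m : Measure α} [IsFiniteMeasure m] {f : α → ℝ} (hf : Measurable f)
    (h0 : ∀ a, 0 ≤ f a ∧ f a ≤ 1) {W Z : Set α} (hZ : MeasurableSet Z) (hWZ : W ⊆ Z)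
    (h1 : ∀ a ∈ Z \ W, f a = 0) : ∫ a in Z, f a ∂m ≤ m.real W := by
  rw [setIntegral_eq_of_subset_of_forall_sdiff_eq_zero hZ hWZ h1,
    ← setIntegral_one_eq_measureReal]
  exact integral_mono (int_cyl hf h0).integrableOn (integrable_const _) fun a => (h0 a).2

lemma en_le_cyl {D : CD α H} {c : ℂ} {R δ M : ℝ} (h : CV D c R δ M) (hδ : δ ≤ 1) {Z : Set α}
    {u : ℂ} {r : ℝ} (hZ : Z ⊆ D.cyl u r) :
    ∫ a in Z, (D.t a + δ * ‖D.y a‖ ^ 2) ∂D.m ≤ D.T u r + δ * D.m.real Z := by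
  have := h.fin
  obtain ⟨i1, -, i3, -⟩ := h.integrable_t
  rw [integral_add i1.integrableOn (i3.const_mul δ).integrableOn, integral_const_mul]
  refine add_le_add (setIntegral_mono_set i1.integrableOn (ae_restrict_of_ae
    (h.ae_G.mono fun a ha => (h.pw a ha).t_nonneg)) hZ.eventuallyLE)
    (mul_le_mul_of_nonneg_left ?_ h.δ_nonneg)
  rw [← setIntegral_one_eq_measureReal]
  exact integral_mono_ae i3.integrableOn (integrable_const _) (ae_restrict_of_ae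
    (h.ae_G.mono fun a ha => pow_le_one₀ (norm_nonneg _) ((h.pw a ha).y_le.trans hδ)))

lemma small_cyl {F : ℝ → ℝ} (hF : Continuous F) (h0 : F 0 = 0) {κ b : ℝ} (hκ : 0 < κ)
    (hb : 0 < b) : ∃ e, 0 < e ∧ e ≤ b ∧ F e ≤ κ := by
  have h1 : ∀ᶠ e in 𝓝 (0 : ℝ), F e < κ := (hF.tendsto' 0 0 h0).eventually (gt_mem_nhds hκ)
  have h2 : ∀ᶠ e in 𝓝 (0 : ℝ), e < b := gt_mem_nhds hb
  have h3 : ∀ᶠ e in 𝓝[>] (0 : ℝ), 0 < e := self_mem_nhdsWithin
  obtain ⟨e, ⟨g1, g2⟩, g3⟩ := (((h1.and h2).filter_mono nhdsWithin_le_nhds).and h3).exists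
  exact ⟨e, g3, g2.le, g1.le⟩

/-- The part of a cylinder whose heights are close to the heights of a finite set. -/
def fatCyl (D : CD α H) (S : Finset α) (u : ℂ) (r η : ℝ) : Set α :=
  D.cyl u r ∩ D.y ⁻¹' (⋃ s ∈ S, ball (D.y s) η)

omit [FiniteDimensional ℝ H] [MeasurableSpace H] [BorelSpace H] in
lemma mem_fatCyl {D : CD α H} {S : Finset α} {u : ℂ} {r η : ℝ} {a : α} :
    a ∈ fatCyl D S u r η ↔ a ∈ D.cyl u r ∧ ∃ s ∈ S, ‖D.y a - D.y s‖ < η := by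
  simp [fatCyl, mem_ball, dist_eq_norm]

lemma meas_fatCyl {D : CD α H} {c : ℂ} {R δ M : ℝ} (h : CV D c R δ M) (S : Finset α) (u : ℂ)
    (r η : ℝ) : MeasurableSet (fatCyl D S u r η) :=
  (h.meas_cyl u r).inter (h.m_y (isOpen_biUnion fun _ _ => isOpen_ball).measurableSet)

omit [FiniteDimensional ℝ H] [BorelSpace H] in
lemma mass_fatCyl {D : CD α H} {c : ℂ} {R δ M : ℝ} (h : CV D c R δ M) (S : Finset α) (u : ℂ)
    {r η ρ : ℝ} (hρ : 0 < ρ) (hr : r ≤ ρ) (hη : η ≤ ρ) :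
    D.m.real (fatCyl D S u r η) ≤ S.card * (M * ρ ^ 2) := by
  have := h.fin
  have h1 : fatCyl D S u r η ⊆ ⋃ s ∈ S, D.box u (D.y s) ρ ρ := by
    intro a ha
    obtain ⟨g1, s, hs, g2⟩ := mem_fatCyl.1 ha
    exact mem_biUnion hs ⟨lt_of_lt_of_le g1 hr, g2.trans_le hη⟩
  refine (measureReal_mono h1 (measure_ne_top _ _)).trans ((measureReal_biUnion_finset_le S _).trans ?_)
  refine (Finset.sum_le_sum fun s _ => h.ub u (D.y s) ρ hρ).trans (le_of_eq ?_)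
  rw [Finset.sum_const, nsmul_eq_mul]

lemma step_cyl (k : ℕ) {κ : ℝ} (hκ : 0 < κ) (hκ1 : κ ≤ 1 / 2) (M : ℝ) :
    ∃ L : ℝ, 1 ≤ L ∧ ∃ e : ℝ, 0 < e ∧ ∀ (D : CD α H) (c : ℂ) (R δ : ℝ), CV D c R δ M → δ ≤ e →
    ∀ (S : Finset α) (u : ℂ) (σ ς r₁ : ℝ), (∀ a ∈ S, a ∈ D.G ∧ ‖D.x a - u‖ ≤ σ) → S.card ≤ k →
    0 < σ → L * σ ≤ ς → σ ≤ r₁ → r₁ ≤ 3 * σ → ‖u - c‖ + 4 * ς ≤ R →
    (∀ r, σ ≤ r → r ≤ 4 * ς → D.T u r ≤ e * r ^ 2) →
    D.m.real (fatCyl D S u r₁ (2 * σ)) / r₁ ^ 2 ≤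
      (1 + κ) ^ 2 * ((1 + κ) * D.m.real (D.cyl u ((1 + κ) * ς)) / ς ^ 2 + κ) + κ := by
  classical
  obtain ⟨ν, hν, hν1, l1, hl1, δ1, hδ1, hmp⟩ := multi_point (α := α) (H := H) k hκ hκ1 M
  obtain ⟨C0, hC0, hcut⟩ := exists_hcut (H := H)
  obtain ⟨C, hC, hsc⟩ := sc_fixed (α := α) (H := H) hκ (by linarith)
  obtain ⟨L0, hL0⟩ : ∃ L0 : ℝ, L0 = 3 / ν := ⟨_, rfl⟩
  obtain ⟨A, hA⟩ : ∃ A : ℝ, A = 9 * k * M := ⟨_, rfl⟩
  have hνL : ν * L0 = 3 := by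
    rw [hL0]
    field_simp
  have hL3 : 3 ≤ L0 := by
    rw [hL0, le_div_iff₀ hν]
    linarith
  obtain ⟨e, he, heb, hF⟩ := small_cyl (F := fun e => C * (4 * L0 ^ 2 * ((1 + A) * e) +
    C0 * k * (2 * L0 * √(A * ((1 + A) * e))) * L0 + e * A)) (by fun_prop) (by simp) hκ
    (lt_min one_pos (lt_min hl1 hδ1))
  simp only [le_min_iff] at heb
  refine ⟨2 * L0, by linarith, e, he, ?_⟩
  intro D c R δ h hδ S u σ ς r₁ hS hk hσ hς hr1 hr2 hR hT
  have := h.fin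
  have hM := h.M_nonneg
  have hA0 : 0 ≤ A := by
    rw [hA]
    positivity
  have hk' : (S.card : ℝ) ≤ k := by exact_mod_cast hk
  have hr0 : 0 < r₁ := hσ.trans_le hr1
  have hR2 := h.R_le
  have hn := norm_nonneg (u - c)
  have hLσ : 3 * σ ≤ L0 * σ := mul_le_mul_of_nonneg_right hL3 hσ.le
  obtain ⟨ψ, p1, p2, p3, p4, p5⟩ := hcut (S.image D.y) (2 * σ) (3 * σ) (by linarith)
    (by linarith) (by linarith)
  have hψ : Measurable fun a => ψ (D.y a) := p1.continuous.measurable.comp h.m_y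
  have hmass : ∀ r, σ ≤ r → D.m.real (fatCyl D S u r (3 * σ)) ≤ A * r ^ 2 := by
    intro r hr
    refine (mass_fatCyl h S u (ρ := 3 * r) (by linarith) (by linarith) (by linarith)).trans ?_
    have := mul_le_mul_of_nonneg_right hk' (by positivity : 0 ≤ M * (3 * r) ^ 2)
    rw [hA]
    linarith
  have hz : ∀ y ∉ ⋃ s ∈ S, ball (D.y s) (3 * σ), ψ y = 0 ∧ fderiv ℝ ψ y = 0 := by
    intro y hy
    refine p5 y fun s hs => ?_
    obtain ⟨a, ha, rfl⟩ := Finset.mem_image.1 hs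
    by_contra g
    exact hy (mem_biUnion ha (mem_ball_iff_norm.2 (not_le.1 g)))
  have hsc' := hsc D c R δ M h (hδ.trans heb.1) u r₁ (L0 * σ) (C0 * k / σ) A
    ((2 * L0 * σ) ^ 2 * ((1 + A) * e)) ψ (⋃ s ∈ S, ball (D.y s) (3 * σ)) hr0 (by linarith)
    (by linarith) p1 p2 (fun y => (p3 y).trans (by
      have g : ((S.image D.y).card : ℝ) ≤ k := by exact_mod_cast Finset.card_image_le.trans hk
      rw [show 3 * σ - 2 * σ = σ by ring]
      gcongr))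
    (isOpen_biUnion fun _ _ => isOpen_ball).measurableSet hz
    (fun r g _ => hmass r (hr1.trans g)) (by
      refine (en_le_cyl h (hδ.trans heb.1) inter_subset_left).trans ?_
      have g1 := hT (2 * (L0 * σ)) (by linarith) (by linarith)
      have g2 := mul_le_mul hδ (hmass (2 * (L0 * σ)) (by linarith)) measureReal_nonneg he.le
      have g3 : (2 * L0 * σ) ^ 2 * ((1 + A) * e) =
        e * (2 * (L0 * σ)) ^ 2 + e * (A * (2 * (L0 * σ)) ^ 2) := by ring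
      rw [g3]
      exact add_le_add g1 g2)
  have hσ' : L0 * σ ≤ (1 + κ) * (L0 * σ) := by nlinarith
  have hν' : 3 * σ ≤ ν * ((1 + κ) * (L0 * σ)) := by
    have : ν * ((1 + κ) * (L0 * σ)) = (1 + κ) * (ν * L0) * σ := by ring
    rw [this, hνL]
    nlinarith
  have hmp' := hmp D c R δ h (hδ.trans heb.2.2) S u ((1 + κ) * (L0 * σ)) ς
    (fun a ha => ⟨(hS a ha).1, (hS a ha).2.trans (by linarith)⟩) hk (by linarith) (by nlinarith) hR
    (fun r g1 g2 => (hT r (by linarith) g2).trans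
      (mul_le_mul_of_nonneg_right heb.2.1 (sq_nonneg r)))
  have hlo : D.m.real (fatCyl D S u r₁ (2 * σ)) ≤ ∫ a in D.cyl u r₁, ψ (D.y a) ∂D.m := by
    refine int_lo_cyl hψ (fun a => p2 _) (meas_fatCyl h S u _ _) inter_subset_left fun a ha => ?_
    obtain ⟨-, s, hs, g⟩ := mem_fatCyl.1 ha
    exact p4 _ ⟨D.y s, Finset.mem_image_of_mem _ hs, g.le⟩
  have hup : ∫ a in D.cyl u ((1 + κ) * (L0 * σ)), ψ (D.y a) ∂D.m ≤
      D.m.real {a | a ∈ D.cyl u ((1 + κ) * (L0 * σ)) ∧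
        ∃ s ∈ S, ‖D.y a - D.y s‖ < ν * ((1 + κ) * (L0 * σ))} := by
    refine int_up_cyl hψ (fun a => p2 _) (h.meas_cyl _ _) (fun a ha => ha.1) fun a ha => ?_
    refine (p5 _ fun s hs => ?_).1
    obtain ⟨b, hb, rfl⟩ := Finset.mem_image.1 hs
    by_contra g
    exact ha.2 ⟨ha.1, b, hb, (not_le.1 g).trans_le hν'⟩
  have hfin : D.m.real {a | a ∈ D.cyl u ((1 + κ) * ς) ∧
      ∃ s ∈ S, ‖D.y a - D.y s‖ < (1 + κ) * ς} ≤ D.m.real (D.cyl u ((1 + κ) * ς)) :=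
    measureReal_mono fun a ha => ha.1
  have hL0' : 0 < L0 := by linarith
  have e1 : (2 * L0 * σ) ^ 2 * ((1 + A) * e) / r₁ ^ 2 ≤ 4 * L0 ^ 2 * ((1 + A) * e) := by
    rw [div_le_iff₀ (by positivity)]
    have g : σ ^ 2 ≤ r₁ ^ 2 := by gcongr
    have := mul_le_mul_of_nonneg_left g (by positivity : 0 ≤ 4 * L0 ^ 2 * ((1 + A) * e))
    linarith
  have e2 : C0 * k / σ * √(A * ((2 * L0 * σ) ^ 2 * ((1 + A) * e))) =
      C0 * k * (2 * L0 * √(A * ((1 + A) * e))) := by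
    rw [mul_left_comm A, Real.sqrt_mul (sq_nonneg _), Real.sqrt_sq (by positivity)]
    field_simp
  have e3 : Real.log (L0 * σ / r₁) ≤ L0 := by
    refine (Real.log_le_self (by positivity)).trans ?_
    rw [div_le_iff₀ hr0]
    gcongr
  have e4 : δ * A * (L0 * σ) ≤ e * A :=
    (mul_le_of_le_one_right (mul_nonneg h.δ_nonneg hA0) (by linarith)).trans
      (mul_le_mul_of_nonneg_right hδ hA0)
  have e5 := mul_le_mul_of_nonneg_left e3
    (by positivity : 0 ≤ C0 * k * (2 * L0 * √(A * ((1 + A) * e))))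
  rw [e2] at hsc'
  have e6 := mul_le_mul_of_nonneg_left (add_le_add (add_le_add e1 e5) e4) hC.le
  have e7 : ∀ x : ℝ, x / (L0 * σ) ^ 2 = (1 + κ) ^ 2 * (x / ((1 + κ) * (L0 * σ)) ^ 2) := by
    intro x
    field_simp
  refine (div_le_div_of_nonneg_right hlo (sq_nonneg _)).trans (hsc'.trans (add_le_add ?_
    (e6.trans hF)))
  refine (div_le_div_of_nonneg_right hup (sq_nonneg _)).trans ?_
  rw [e7]
  refine mul_le_mul_of_nonneg_left (hmp'.trans ?_) (sq_nonneg _)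
  gcongr

lemma short_cyl {κ : ℝ} (hκ : 0 < κ) (hκ1 : κ ≤ 1) (M A L : ℝ) : ∃ e : ℝ, 0 < e ∧
    ∀ (D : CD α H) (c : ℂ) (R δ : ℝ), CV D c R δ M → δ ≤ e → ∀ (u : ℂ) (σ ς : ℝ),
    0 < σ → σ ≤ ς → ς ≤ L * σ → ‖u - c‖ + 4 * ς ≤ R → D.T u (2 * ς) ≤ e * (2 * ς) ^ 2 →
    D.m.real (D.cyl u (4 * ς)) ≤ A * ς ^ 2 →
    D.m.real (D.cyl u σ) / σ ^ 2 ≤ D.m.real (D.cyl u ((1 + κ) * ς)) / ς ^ 2 + κ := by
  obtain ⟨C, hC, hsc⟩ := sc_fixed (α := α) (H := H) hκ hκ1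
  obtain ⟨e, he, heb, hF⟩ := small_cyl (F := fun e => C * (L ^ 2 * ((4 + A) * e) + e * (A * L ^ 2)))
    (by fun_prop) (by simp) hκ one_pos
  refine ⟨e, he, ?_⟩
  intro D c R δ h hδ u σ ς hσ hσς hL hR hT hA
  have := h.fin
  have hς : 0 < ς := hσ.trans_le hσς
  have hA0 : 0 ≤ A := nonneg_of_mul_nonneg_left (measureReal_nonneg.trans hA) (by positivity)
  have hR2 := h.R_le
  have hn := norm_nonneg (u - c)
  have hsq : ς ^ 2 ≤ L ^ 2 * σ ^ 2 := by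
    rw [← mul_pow]
    gcongr
  have hm : ∀ r, r ≤ 2 * ς → D.m.real (D.cyl u r ∩ D.y ⁻¹' univ) ≤ A * ς ^ 2 := fun r hr =>
    (measureReal_mono (s₂ := D.cyl u (4 * ς))
      fun a ha => lt_of_lt_of_le ha.1 (show r ≤ 4 * ς by linarith)).trans hA
  have hsc' := hsc D c R δ M h (hδ.trans heb) u σ ς 0 (A * L ^ 2) (ς ^ 2 * ((4 + A) * e))
    (fun _ => 1) univ hσ hσς (by linarith) contDiff_const (fun _ => ⟨zero_le_one, le_rfl⟩)
    (fun y => by simp) MeasurableSet.univ (fun y hy => absurd (mem_univ y) hy)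
    (fun r g1 g2 => (hm r g2).trans (by
      rw [mul_assoc]
      refine mul_le_mul_of_nonneg_left (hsq.trans ?_) hA0
      gcongr)) (by
      refine (en_le_cyl h (hδ.trans heb) inter_subset_left).trans ?_
      have g2 := mul_le_mul hδ (hm _ le_rfl) measureReal_nonneg he.le
      linarith)
  simp only [setIntegral_one_eq_measureReal, zero_mul, add_zero] at hsc'
  have e1 : ς ^ 2 * ((4 + A) * e) / σ ^ 2 ≤ L ^ 2 * ((4 + A) * e) := by
    rw [div_le_iff₀ (by positivity)]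
    have := mul_le_mul_of_nonneg_right hsq (by positivity : 0 ≤ (4 + A) * e)
    linarith
  have e4 : δ * (A * L ^ 2) * ς ≤ e * (A * L ^ 2) :=
    (mul_le_of_le_one_right (mul_nonneg h.δ_nonneg (by positivity)) (by linarith)).trans
      (mul_le_mul_of_nonneg_right hδ (by positivity))
  exact hsc'.trans (add_le_add le_rfl
    ((mul_le_mul_of_nonneg_left (add_le_add e1 e4) hC.le).trans hF))

lemma count_cyl (M : ℝ) : ∃ e : ℝ, 0 < e ∧
    ∀ (D : CD α H) (c : ℂ) (R δ : ℝ), CV D c R δ M → δ ≤ e → ∀ (S : Finset α) (u : ℂ) (σ : ℝ),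
    0 < σ → ‖u - c‖ + 3 * σ ≤ R → D.T u (3 * σ) ≤ e * (3 * σ) ^ 2 →
    (∀ a ∈ S, a ∈ D.G ∧ ‖D.x a - u‖ ≤ σ ∧ D.Den (4 / 3) a) →
    (∀ a ∈ S, ∀ b ∈ S, a ≠ b → 2 * σ ≤ ‖D.y a - D.y b‖) →
    S.card * (3 / 4 * σ ^ 2) ≤ D.m.real (fatCyl D S u (3 * σ) (2 * σ)) := by
  obtain ⟨c₀, hc₀, δ₀, hδ₀, hn⟩ := neck (α := α) (H := H) (κ := 1 / 4) (by norm_num)
    (by norm_num) M
  obtain ⟨e, he, heb, hF⟩ := small_cyl (F := fun e => e * 9 + e * (4 * M)) (by fun_prop) (by simp)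
    hc₀ (lt_min one_pos hδ₀)
  simp only [le_min_iff] at heb
  refine ⟨e, he, ?_⟩
  intro D c R δ h hδ S u σ hσ hR hT hS hsep
  have := h.fin
  have tri : ∀ a b : α, ‖D.x b - u‖ ≤ ‖D.x b - D.x a‖ + ‖D.x a - u‖ := fun a b =>
    norm_sub_le_norm_sub_add_norm_sub _ _ _
  have h1 : ∀ a ∈ S, 3 / 4 * σ ^ 2 ≤ D.m.real (D.box (D.x a) (D.y a) ((1 + 1 / 4) * σ) σ) := by
    intro a ha
    obtain ⟨g1, g2, g3⟩ := hS a ha
    have g4 := norm_sub_le_norm_sub_add_norm_sub (D.x a) u c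
    have g5 := hn D c R δ h (hδ.trans heb.2) a g1 (4 / 3) σ σ (c₀ * σ ^ 2) (by norm_num) g3 hσ
      le_rfl (by linarith) (by
        refine (en_le_cyl h (hδ.trans heb.1) (u := u) (r := 3 * σ) fun b hb => ?_).trans ?_
        · have q1 : ‖D.x b - D.x a‖ < 2 * σ := hb.1
          have q2 := tri a b
          show ‖D.x b - u‖ < 3 * σ
          linarith
        · have q1 : D.m.real (D.box (D.x a) (D.y a) (2 * σ) σ) ≤ M * (2 * σ) ^ 2 :=
            (measureReal_mono (s₂ := D.box (D.x a) (D.y a) (2 * σ) (2 * σ))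
              fun b hb => ⟨hb.1, hb.2.trans (by linarith)⟩).trans
              (h.ub _ _ (2 * σ) (by linarith))
          have q2 := mul_le_mul hδ q1 measureReal_nonneg he.le
          have q3 := mul_le_mul_of_nonneg_right hF (sq_nonneg σ)
          linarith) (by simp [div_self hσ.ne'])
    linarith
  have h2 : (S : Set α).PairwiseDisjoint
      fun a => D.box (D.x a) (D.y a) ((1 + 1 / 4) * σ) σ := by
    intro a ha b hb hab
    refine Set.disjoint_left.2 fun z z1 z2 => ?_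
    have q1 := hsep a ha b hb hab
    have q2 := norm_sub_le_norm_sub_add_norm_sub (D.y a) (D.y z) (D.y b)
    have q3 : ‖D.y z - D.y a‖ < σ := z1.2
    have q4 : ‖D.y z - D.y b‖ < σ := z2.2
    rw [norm_sub_rev] at q3
    linarith
  have h3 := Finset.sum_le_sum h1
  rw [Finset.sum_const, nsmul_eq_mul,
    ← measureReal_biUnion_finset h2 fun a _ => h.meas_box _ _ _ _] at h3
  refine h3.trans (measureReal_mono fun z hz => ?_)
  obtain ⟨a, ha, z1, z2⟩ := mem_iUnion₂.1 hz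
  refine mem_fatCyl.2 ⟨?_, a, ha, z2.trans (by linarith)⟩
  have q2 := tri a z
  have q3 := (hS a ha).2.1
  show ‖D.x z - u‖ < 3 * σ
  linarith

lemma maxsep_cyl {β : Type*} (p : β → Prop) (d : β → β → Prop) (hd : ∀ a b, d a b → d b a)
    (K : ℕ) (hK : ∀ S : Finset β, (∀ a ∈ S, p a) → (∀ a ∈ S, ∀ b ∈ S, a ≠ b → d a b) →
      S.card ≠ K) :
    ∃ S : Finset β, (∀ a ∈ S, p a) ∧ S.card ≤ K ∧ ∀ a, p a → ∃ s ∈ S, a = s ∨ ¬ d a s := by
  classical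
  by_contra hc
  have key : ∀ n ≤ K, ∃ S : Finset β, (∀ a ∈ S, p a) ∧ (∀ a ∈ S, ∀ b ∈ S, a ≠ b → d a b) ∧
      S.card = n := by
    intro n
    induction n with
    | zero => exact fun _ => ⟨∅, by simp, by simp, rfl⟩
    | succ n ih =>
      intro hn
      obtain ⟨S, h1, h2, h3⟩ := ih (by omega)
      by_contra hS
      refine hc ⟨S, h1, by omega, fun a ha => ?_⟩
      by_contra g
      have g1 : a ∉ S := fun q => g ⟨a, q, Or.inl rfl⟩
      have g2 : ∀ s ∈ S, d a s := fun s hs => by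
        by_contra q
        exact g ⟨s, hs, Or.inr q⟩
      refine hS ⟨insert a S, ?_, ?_, by rw [Finset.card_insert_of_notMem g1, h3]⟩
      · intro b hb
        rcases Finset.mem_insert.1 hb with rfl | hb
        exacts [ha, h1 b hb]
      · intro x hx y hy hxy
        rcases Finset.mem_insert.1 hx with qx | qx <;> rcases Finset.mem_insert.1 hy with qy | qy
        exacts [absurd (qx.trans qy.symm) hxy, qx ▸ g2 y qy, qy ▸ hd _ _ (g2 x qx),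
          h2 x qx y qy hxy]
  obtain ⟨S, h1, h2, h3⟩ := key K le_rfl
  exact hK S h1 h2 h3

theorem cyl_mono {κ : ℝ} (hκ : 0 < κ) (hκ1 : κ ≤ 1 / 2) (M A : ℝ) :
    ∃ lam : ℝ, 0 < lam ∧ ∃ δ₀ : ℝ, 0 < δ₀ ∧
    ∀ (D : CD α H) (c : ℂ) (R δ : ℝ), CV D c R δ M → δ ≤ δ₀ → ∀ (u : ℂ) (σ ς : ℝ),
    0 < σ → σ ≤ ς → ‖u - c‖ + 4 * ς ≤ R → (∀ r, σ ≤ r → r ≤ 4 * ς → D.T u r ≤ lam * r ^ 2) →
    D.m.real (D.cyl u (4 * ς)) ≤ A * ς ^ 2 →
    D.m.real (D.cyl u σ) / σ ^ 2 ≤ (1 + κ) * D.m.real (D.cyl u ((1 + κ) * ς)) / ς ^ 2 + κ := by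
  obtain ⟨K, hK⟩ := exists_nat_gt (18 * A + 6)
  obtain ⟨L, hL, e1, he1, H1⟩ := step_cyl (α := α) (H := H) K (κ := κ / 4) (by linarith)
    (by linarith) M
  obtain ⟨e2, he2, H2⟩ := short_cyl (α := α) (H := H) hκ (by linarith) M A L
  obtain ⟨e3, he3, H3⟩ := count_cyl (α := α) (H := H) M
  have he : 0 < min e1 (min e2 e3) := lt_min he1 (lt_min he2 he3)
  refine ⟨_, he, _, he, ?_⟩
  intro D c R δ h hδ u σ ς hσ hσς hR hT hA
  have := h.fin
  simp only [le_min_iff] at hδ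
  have hς : 0 < ς := hσ.trans_le hσς
  have hT' : ∀ e, min e1 (min e2 e3) ≤ e → ∀ r, σ ≤ r → r ≤ 4 * ς → D.T u r ≤ e * r ^ 2 :=
    fun e g r g1 g2 => (hT r g1 g2).trans (mul_le_mul_of_nonneg_right g (sq_nonneg r))
  obtain ⟨X, hX⟩ : ∃ X, X = D.m.real (D.cyl u ((1 + κ) * ς)) / ς ^ 2 := ⟨_, rfl⟩
  have hX0 : 0 ≤ X := by
    rw [hX]
    positivity
  rw [mul_div_assoc, ← hX]
  rcases le_total ς (L * σ) with hc | hc
  · have g := H2 D c R δ h hδ.2.1 u σ ς hσ hσς hc hR (hT' e2 ((min_le_right _ _).trans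
      (min_le_left _ _)) _ (by linarith) (by linarith)) hA
    rw [← hX] at g
    nlinarith
  have hstep : ∀ (S : Finset α) (r₁ : ℝ), (∀ a ∈ S, a ∈ D.G ∧ ‖D.x a - u‖ ≤ σ) → S.card ≤ K →
      σ ≤ r₁ → r₁ ≤ 3 * σ → D.m.real (fatCyl D S u r₁ (2 * σ)) / r₁ ^ 2 ≤ (1 + κ) * X + κ := by
    intro S r₁ g1 g2 g3 g4
    refine (H1 D c R δ h hδ.1 S u σ ς r₁ g1 g2 hσ hc g3 g4 hR (hT' e1 (min_le_left _ _))).trans ?_
    have q1 : D.m.real (D.cyl u ((1 + κ / 4) * ς)) / ς ^ 2 ≤ X := by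
      rw [hX]
      exact div_le_div_of_nonneg_right (measureReal_mono fun a ha =>
        lt_of_lt_of_le ha (show (1 + κ / 4) * ς ≤ (1 + κ) * ς by nlinarith)) (sq_nonneg _)
    have q2 : (1 + κ / 4) ^ 2 * (1 + κ / 4) ≤ 1 + κ := by
      nlinarith [mul_nonneg hκ.le (show 0 ≤ 1 - 3 * (κ / 4) - (κ / 4) ^ 2 by nlinarith)]
    have q3 : (1 + κ / 4) ^ 2 ≤ 3 := by nlinarith
    have q4 := mul_le_mul q2 q1 (by positivity) (by positivity)
    have q5 := mul_le_mul_of_nonneg_right q3 (by positivity : 0 ≤ κ / 4)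
    rw [mul_div_assoc]
    linarith
  have hXA : X ≤ A := by
    rw [hX, div_le_iff₀ (by positivity)]
    exact (measureReal_mono (s₂ := D.cyl u (4 * ς))
      fun a ha => lt_of_lt_of_le ha (show (1 + κ) * ς ≤ 4 * ς by nlinarith)).trans hA
  obtain ⟨S, s1, s2, s3⟩ := maxsep_cyl (fun a => a ∈ D.G ∧ ‖D.x a - u‖ ≤ σ ∧ D.Den (4 / 3) a)
    (fun a b => 2 * σ ≤ ‖D.y a - D.y b‖) (fun a b g => by rwa [norm_sub_rev]) K (by
      intro S g1 g2 g3
      have q1 := H3 D c R δ h hδ.2.2 S u σ hσ (by linarith) (hT' e3 ((min_le_right _ _).trans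
        (min_le_right _ _)) _ (by linarith) (by linarith)) g1 g2
      have q2 := hstep S (3 * σ) (fun a ha => ⟨(g1 a ha).1, (g1 a ha).2.1⟩) g3.le (by linarith)
        le_rfl
      have q3 : (1 + κ) * X + κ ≤ 3 / 2 * A + 1 / 2 := by nlinarith
      have q4 := (div_le_iff₀ (by positivity)).1 (q2.trans q3)
      have q5 := mul_lt_mul_of_pos_right hK (by positivity : 0 < 3 / 4 * σ ^ 2)
      rw [g3] at q1
      linarith)
  refine le_trans (div_le_div_of_nonneg_right ?_ (sq_nonneg _))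
    (hstep S σ (fun a ha => ⟨(s1 a ha).1, (s1 a ha).2.1⟩) s2 le_rfl (by linarith))
  refine ENNReal.toReal_mono (measure_ne_top _ _) (measure_mono_ae ?_)
  filter_upwards [h.ae_G, h.ld] with a g1 g2 g3
  obtain ⟨s, hs, g4⟩ := s3 a ⟨g1, le_of_lt g3, g2⟩
  refine mem_fatCyl.2 ⟨g3, s, hs, ?_⟩
  rcases g4 with rfl | g4
  · rw [sub_self, norm_zero]
    linarith
  · exact not_le.1 g4

end Pool.Agent.Lib.MP_8daebb_an.SV
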