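import Pool.Agent.Lib.MP_8daebb_an.SV.Df
import Pool.Agent.Lib.MP_8daebb_an.LG.Poin

/-! Poincare inequality in the plane. -/

open MeasureTheory Metric Filter Topology Set
open scoped RealInnerProductSpace ENNReal ContDiff

namespace Pool.Agent.Lib.MP_8daebb_an.SV

theorem grad_le_poinc {G : ℂ → ℝ} (hG : ContDiff ℝ 1 G) (c₀ : ℝ) (e : LG.E 2 ≃ₗᵢ[ℝ] ℂ)
    (x : LG.E 2) : ‖gradient (fun z => max (G (e z) - c₀) 0) x‖ ≤ ‖fderiv ℝ G (e x)‖ := by
  rw [gradient, LinearIsometryEquiv.norm_map]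
  rcases lt_or_ge c₀ (G (e x)) with h | h
  · have h1 : HasFDerivAt (fun z => G (e z) - c₀)
        (fderiv ℝ G (e x) ∘L (e.toContinuousLinearEquiv : LG.E 2 →L[ℝ] ℂ)) x :=
      ((hG.differentiable one_ne_zero _).hasFDerivAt.comp x e.hasFDerivAt).sub_const c₀
    have h2 : (fun z => max (G (e z) - c₀) 0) =ᶠ[𝓝 x] fun z => G (e z) - c₀ := by
      filter_upwards [continuousAt_const.eventually_lt
        (hG.continuous.comp e.continuous).continuousAt h] with z hz
      exact max_eq_left (sub_nonneg.2 (le_of_lt hz))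
    rw [(h1.congr_of_eventuallyEq h2).fderiv]
    refine ContinuousLinearMap.opNorm_le_bound _ (norm_nonneg _) fun v => ?_
    rw [← e.norm_map v]
    exact (fderiv ℝ G (e x)).le_opNorm (e v)
  · have h1 : IsLocalMin (fun z => max (G (e z) - c₀) 0) x := Eventually.of_forall fun z => by
      simp only [max_eq_right (sub_nonpos.2 h)]
      exact le_max_right _ _
    rw [h1.fderiv_eq_zero, norm_zero]
    exact norm_nonneg _

theorem intOn_poinc {g : ℂ → ℝ} (hg : Continuous g) (r : ℝ) : IntegrableOn g (ball 0 r) :=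
  (hg.continuousOn.integrableOn_compact (isCompact_closedBall 0 r)).mono_set ball_subset_closedBall

theorem poin_c {κ : ℝ} (hκ : 0 < κ) : ∃ η : ℝ, 0 < η ∧ ∀ (G : ℂ → ℝ) (K c₀ r : ℝ),
    ContDiff ℝ 1 G → (∀ u, ‖fderiv ℝ G u‖ ≤ K) → (∀ u, 0 ≤ G u) → 0 ≤ c₀ → 0 < r →
    volume ({u | c₀ < G u} ∩ ball 0 (2 * r)) ≤ ENNReal.ofReal (η * r ^ 2) →
    ∫ u in ball (0 : ℂ) (3 / 2 * r), G u ^ 2 ≤
      κ * r ^ 2 * (∫ u in ball (0 : ℂ) (2 * r), ‖fderiv ℝ G u‖ ^ 2) + 16 * c₀ ^ 2 * r ^ 2 := by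
  obtain ⟨η, hη, H⟩ := LG.poincare_small 2 (half_pos hκ)
  refine ⟨η, hη, fun G K c₀ r hG hK h0 hc hr hv => ?_⟩
  set e : LG.E 2 ≃ₗᵢ[ℝ] ℂ := Complex.orthonormalBasisOneI.repr.symm with he
  have hm : MeasurePreserving e volume volume := e.measurePreserving
  have hme : MeasurableEmbedding e := e.toHomeomorph.measurableEmbedding
  have hb : ∀ s, e ⁻¹' ball 0 s = ball 0 s := fun s => by rw [e.preimage_ball, map_zero]
  have tr : ∀ (g : ℂ → ℝ) (s : ℝ), ∫ x in ball (0 : LG.E 2) s, g (e x) = ∫ u in ball 0 s, g u :=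
    fun g s => by rw [← hb s, hm.setIntegral_preimage_emb hme]
  have hK0 : 0 ≤ K := (norm_nonneg _).trans (hK 0)
  have hL : LipschitzWith ⟨K, hK0⟩ G :=
    lipschitzWith_of_nnnorm_fderiv_le (hG.differentiable one_ne_zero) fun u => hK u
  have hL' : LipschitzWith ⟨K, hK0⟩ fun z => max (G (e z) - c₀) 0 := by
    refine LipschitzWith.max_const (LipschitzWith.of_dist_le_mul fun x y => ?_) 0
    rw [dist_sub_right, ← e.dist_map x y]
    exact hL.dist_le_mul _ _
  have h1 := H _ _ hL' 0 r hr (by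
    have e1 : {x | max (G (e x) - c₀) 0 ≠ 0} ∩ ball (0 : LG.E 2) (2 * r)
        = e ⁻¹' ({u | c₀ < G u} ∩ ball 0 (2 * r)) := by
      rw [preimage_inter, hb]
      congr 1
      ext x
      simp
    rw [e1, measureReal_def, hm.measure_preimage_emb hme]
    exact ENNReal.toReal_le_of_le_ofReal (by positivity) hv)
  have cG := hG.continuous
  have cD : Continuous fun u => ‖fderiv ℝ G u‖ ^ 2 := (hG.continuous_fderiv one_ne_zero).norm.pow 2
  have h2 : ∫ x in ball (0 : LG.E 2) (2 * r), ‖gradient (fun z => max (G (e z) - c₀) 0) x‖ ^ 2 ≤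
      ∫ u in ball (0 : ℂ) (2 * r), ‖fderiv ℝ G u‖ ^ 2 := by
    rw [← tr]
    exact integral_mono_of_nonneg (Eventually.of_forall fun x => sq_nonneg _)
      (LG.intOn_cont_poin (cD.comp e.continuous) _ _) (Eventually.of_forall fun x =>
        pow_le_pow_left₀ (norm_nonneg _) (grad_le_poinc hG c₀ e x) 2)
  rw [tr (fun u => max (G u - c₀) 0 ^ 2)] at h1
  have cf : Continuous fun u => max (G u - c₀) 0 ^ 2 := by fun_prop
  have h3 : ∫ u in ball (0 : ℂ) (3 / 2 * r), G u ^ 2 ≤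
      ∫ u in ball (0 : ℂ) (3 / 2 * r), (2 * max (G u - c₀) 0 ^ 2 + 2 * c₀ ^ 2) := by
    refine integral_mono (intOn_poinc (cG.pow 2) _) (intOn_poinc (by fun_prop) _) fun u => ?_
    have h4 := le_max_left (G u - c₀) 0
    have h5 := le_max_right (G u - c₀) 0
    have h6 := h0 u
    nlinarith [sq_nonneg (max (G u - c₀) 0 - c₀)]
  rw [integral_add ((intOn_poinc cf _).const_mul 2) (intOn_poinc continuous_const _),
    integral_const_mul, setIntegral_const, measureReal_def, Complex.volume_ball,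
    ENNReal.toReal_mul, ENNReal.toReal_pow, ENNReal.toReal_ofReal (by positivity),
    ENNReal.coe_toReal, NNReal.coe_real_pi, smul_eq_mul] at h3
  have h4 := mul_le_mul_of_nonneg_left h2 (show 0 ≤ κ / 2 * r ^ 2 by positivity)
  have h5 := mul_le_mul_of_nonneg_left Real.pi_lt_d2.le (show 0 ≤ c₀ ^ 2 * r ^ 2 by positivity)
  have h6 : 0 ≤ c₀ ^ 2 * r ^ 2 := by positivity
  nlinarith

end Pool.Agent.Lib.MP_8daebb_an.SV
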