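import Pool.Agent.Lib.MP_8daebb_an.SV.Integ
import Pool.Agent.Lib.MP_8daebb_an.SV.Base3

/-! One multiplicity for the whole disc. -/

open MeasureTheory Metric Filter Topology Set
open scoped RealInnerProductSpace ENNReal ContDiff

namespace Pool.Agent.Lib.MP_8daebb_an.SV

variable {α : Type*} [MeasurableSpace α] {H : Type*} [NormedAddCommGroup H]
  [InnerProductSpace ℝ H] [FiniteDimensional ℝ H] [MeasurableSpace H] [BorelSpace H]

theorem vol_ball_glob (u : ℂ) {σ : ℝ} (hσ : 0 ≤ σ) :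
    (volume : Measure ℂ).real (ball u σ) = Real.pi * σ ^ 2 := by
  rw [measureReal_def, Complex.volume_ball, ENNReal.toReal_mul, ENNReal.toReal_pow,
    ENNReal.toReal_ofReal hσ, ENNReal.coe_toReal, NNReal.coe_real_pi]
  ring

/-- Integrals over a set of nonnegative functions below a multiple of the energy density. -/
theorem set_le_glob {D : CD α H} {c : ℂ} {R δ M s ρ : ℝ} (h : CV D c R δ M) (hs : Sm D s ρ)
    {f : α → ℝ} (hf : Integrable f D.m) {k : ℝ} (hk : 0 ≤ k)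
    (h0 : ∀ a ∈ D.G, 0 ≤ f a ∧ f a ≤ k * D.en a) (Z : Set α) :
    ∫ a in Z, f a ∂D.m ≤ k * s ^ 4 := by
  have hen := h.integrable_t.2.2.2.1
  calc ∫ a in Z, f a ∂D.m ≤ ∫ a, f a ∂D.m :=
        setIntegral_le_integral hf (h.ae_G.mono fun a ha => (h0 a ha).1)
    _ ≤ ∫ a, k * D.en a ∂D.m :=
        integral_mono_ae hf (hen.const_mul k) (h.ae_G.mono fun a ha => (h0 a ha).2)
    _ = k * ∫ a, D.en a ∂D.m := integral_const_mul _ _
    _ ≤ k * s ^ 4 := mul_le_mul_of_nonneg_left hs.en_le hk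

theorem small_glob {D : CD α H} {c : ℂ} {R δ M s ρ : ℝ} (h : CV D c R δ M) (hs : Sm D s ρ)
    (Z : Set α) :
    ∫ a in Z, D.t a ∂D.m ≤ ρ ^ 20 ∧ ∫ a in Z, D.t a ^ 2 ∂D.m ≤ 2 * ρ ^ 20 ∧
      ∫ a in Z, ‖D.y a‖ ^ 2 ∂D.m ≤ ρ ^ 20 := by
  have hs4 : s ^ 4 ≤ ρ ^ 20 := by
    calc s ^ 4 ≤ (ρ ^ 5) ^ 4 := pow_le_pow_left₀ hs.s_pos.le hs.s_le 4
      _ = ρ ^ 20 := by ring
  obtain ⟨i1, i2, i3, -⟩ := h.integrable_t
  refine ⟨?_, ?_, ?_⟩
  · have := set_le_glob h hs i1 zero_le_one (fun a ha => by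
      have h1 := (h.pw a ha).t_nonneg
      have h2 := sq_nonneg ‖D.y a‖
      refine ⟨h1, ?_⟩
      simp only [CD.en]
      linarith) Z
    linarith
  · have := set_le_glob h hs i2 zero_le_two (fun a ha => by
      have h1 := (h.pw a ha).t_nonneg
      have h3 := (h.pw a ha).t_le
      have h2 := sq_nonneg ‖D.y a‖
      refine ⟨sq_nonneg _, ?_⟩
      simp only [CD.en]
      nlinarith) Z
    linarith
  · have := set_le_glob h hs i3 zero_le_one (fun a ha => by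
      have h1 := (h.pw a ha).t_nonneg
      refine ⟨sq_nonneg _, ?_⟩
      simp only [CD.en]
      linarith) Z
    linarith

theorem integrable_N_glob {D : CD α H} {c : ℂ} {R δ M : ℝ} {N : ℂ → ℕ}
    (hN : IsMult D.m D.x D.j N) (h : CV D c R δ M) : Integrable (fun u => (N u : ℝ)) := by
  have := (hN.integral h (f := fun _ => (1 : ℝ)) measurable_const (B := 1) (fun _ => by simp)).1
  simpa using this

/-- Two integers that approximate `N` on overlapping discs agree. -/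
theorem same_glob {N : ℂ → ℕ} (hN : Integrable (fun u => (N u : ℝ))) {u u' : ℂ} {ρ ε : ℝ}
    (hρ : 0 < ρ) (hu : ‖u - u'‖ ≤ ρ / 2) {n n' : ℕ}
    (h1 : ∫ v in ball u ρ, |(N v : ℝ) - n| ≤ ε) (h2 : ∫ v in ball u' ρ, |(N v : ℝ) - n'| ≤ ε)
    (hε : 8 * ε < Real.pi * ρ ^ 2) : n = n' := by
  by_contra hne
  have hI : ∀ (w : ℂ) (r : ℝ) (k : ℕ), IntegrableOn (fun v => |(N v : ℝ) - k|) (ball w r) :=
    fun w r k => (hN.integrableOn.sub (integrableOn_const measure_ball_lt_top.ne)).abs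
  have hone : (1 : ℝ) ≤ |(n : ℝ) - n'| := by
    have h3 : (1 : ℤ) ≤ |(n : ℤ) - n'| := Int.one_le_abs (sub_ne_zero.2 (by exact_mod_cast hne))
    exact_mod_cast h3
  have s1 : ball u (ρ / 2) ⊆ ball u ρ := ball_subset_ball (by linarith)
  have s2 : ball u (ρ / 2) ⊆ ball u' ρ := by
    intro v hv
    rw [mem_ball, dist_eq_norm] at hv ⊢
    calc ‖v - u'‖ = ‖(v - u) + (u - u')‖ := by ring_nf
      _ ≤ ‖v - u‖ + ‖u - u'‖ := norm_add_le _ _
      _ < ρ := by linarith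
  have b1 : ∫ v in ball u (ρ / 2), |(N v : ℝ) - n| ≤ ε :=
    (setIntegral_mono_set (hI u ρ n) (Eventually.of_forall fun v => abs_nonneg _)
      s1.eventuallyLE).trans h1
  have b2 : ∫ v in ball u (ρ / 2), |(N v : ℝ) - n'| ≤ ε :=
    (setIntegral_mono_set (hI u' ρ n') (Eventually.of_forall fun v => abs_nonneg _)
      s2.eventuallyLE).trans h2
  have b3 : ∫ _ in ball u (ρ / 2), (1 : ℝ) ≤
      ∫ v in ball u (ρ / 2), (|(N v : ℝ) - n| + |(N v : ℝ) - n'|) := by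
    refine integral_mono (integrableOn_const measure_ball_lt_top.ne)
      ((hI u _ n).add (hI u _ n')) fun v => ?_
    have h4 : |(n : ℝ) - n'| ≤ |(N v : ℝ) - n| + |(N v : ℝ) - n'| := by
      have h5 := abs_sub_le (n : ℝ) (N v) n'
      rwa [abs_sub_comm (n : ℝ) (N v)] at h5
    exact hone.trans h4
  rw [integral_add (hI u _ n) (hI u _ n'), setIntegral_const, smul_eq_mul, mul_one,
    vol_ball_glob u (by linarith)] at b3
  nlinarith

theorem glob (M : ℝ) : ∃ CI : ℝ, 0 < CI ∧ ∃ δ₀ : ℝ, 0 < δ₀ ∧ ∃ ρ₀ : ℝ, 0 < ρ₀ ∧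
    ∀ (D : CD α H) (c : ℂ) (R δ s ρ : ℝ), CV D c R δ M → δ ≤ δ₀ → Sm D s ρ → ρ ≤ ρ₀ →
    ∃ (Q : ℕ) (N : ℂ → ℕ), MQ D c R ρ CI Q N := by
  obtain ⟨lam, hlam, δ₀, hδ₀, CI, hCI, hint⟩ := integ (α := α) (H := H) M (64 * M)
  refine ⟨CI, hCI, δ₀, hδ₀, min (1 / 2) (min lam (1 / (16 * CI))), by positivity, ?_⟩
  intro D c R δ s ρ h hδ hs hρ₀
  have hρ := hs.ρ_pos
  have hρ1 : ρ ≤ 1 / 2 := hρ₀.trans (min_le_left _ _)
  have hρ2 : ρ ≤ lam := hρ₀.trans ((min_le_right _ _).trans (min_le_left _ _))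
  have hρ3 : ρ ≤ 1 / (16 * CI) := hρ₀.trans ((min_le_right _ _).trans (min_le_right _ _))
  have hρ4 : 16 * CI * ρ ≤ 1 := by
    rw [le_div_iff₀ (by positivity)] at hρ3
    linarith
  have h20 : ρ ^ 20 ≤ ρ * ρ ^ 2 := by
    calc ρ ^ 20 ≤ ρ ^ 3 := pow_le_pow_of_le_one hρ.le (by linarith) (by norm_num)
      _ = ρ * ρ ^ 2 := by ring
  obtain ⟨N, hN⟩ := h.exists_mult
  have hNi := integrable_N_glob hN h
  have hex : ∀ u : ℂ, ‖u - c‖ + 8 * ρ ≤ R → ∃ n : ℕ, ∫ v in ball u ρ, |(N v : ℝ) - n| ≤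
      CI * ∫ a in D.cyl u (8 * ρ), D.t a ^ 2 ∂D.m := by
    intro u hu
    refine hint D c R δ h hδ N u ρ hN hρ hu ?_ ?_
    · calc D.T u (8 * ρ) ≤ ρ ^ 20 := (small_glob h hs _).1
        _ ≤ ρ * ρ ^ 2 := h20
        _ ≤ lam * ρ ^ 2 := mul_le_mul_of_nonneg_right hρ2 (sq_nonneg _)
    · calc D.m.real (D.cyl u (8 * ρ)) ≤ M * (8 * ρ) ^ 2 := hs.cyl_le h hρ1 u (by linarith)
        _ = 64 * M * ρ ^ 2 := by ring
  have hsm : ∀ u : ℂ, CI * ∫ a in D.cyl u (8 * ρ), D.t a ^ 2 ∂D.m ≤ CI * (2 * ρ ^ 20) :=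
    fun u => mul_le_mul_of_nonneg_left (small_glob h hs _).2.1 hCI.le
  have hε : 8 * (CI * (2 * ρ ^ 20)) < Real.pi * ρ ^ 2 := by
    have h3 := Real.pi_gt_three
    have h4 : 0 < ρ ^ 2 := by positivity
    calc 8 * (CI * (2 * ρ ^ 20)) = 16 * CI * ρ ^ 20 := by ring
      _ ≤ 16 * CI * (ρ * ρ ^ 2) := mul_le_mul_of_nonneg_left h20 (by positivity)
      _ = (16 * CI * ρ) * ρ ^ 2 := by ring
      _ ≤ 1 * ρ ^ 2 := mul_le_mul_of_nonneg_right hρ4 h4.le
      _ < Real.pi * ρ ^ 2 := mul_lt_mul_of_pos_right (by linarith) h4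
  by_cases hR : 8 * ρ ≤ R
  · obtain ⟨Q, hQ⟩ := hex c (by simpa using hR)
    have key : ∀ k : ℕ, ∀ u : ℂ, ‖u - c‖ ≤ k * (ρ / 2) → ‖u - c‖ + 8 * ρ ≤ R →
        ∫ v in ball u ρ, |(N v : ℝ) - Q| ≤ CI * ∫ a in D.cyl u (8 * ρ), D.t a ^ 2 ∂D.m := by
      intro k
      induction k with
      | zero =>
        intro u hu _
        have : u = c := by
          rw [Nat.cast_zero, zero_mul] at hu
          exact sub_eq_zero.1 (norm_le_zero_iff.1 hu)
        rw [this]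
        exact hQ
      | succ k ih =>
        intro u hu hu'
        have hk : (0 : ℝ) < k + 1 := by positivity
        have hk0 : (0 : ℝ) ≤ k := Nat.cast_nonneg k
        push_cast at hu
        set u' : ℂ := c + ((k : ℝ) / (k + 1)) • (u - c) with hu'd
        have e1 : ‖u' - c‖ = (k : ℝ) / (k + 1) * ‖u - c‖ := by
          rw [hu'd, add_sub_cancel_left, norm_smul, Real.norm_of_nonneg (by positivity)]
        have e2 : ‖u - u'‖ = 1 / (k + 1) * ‖u - c‖ := by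
          have e3 : u - u' = ((1 : ℝ) / (k + 1)) • (u - c) := by
            have e4 : (1 : ℝ) / (k + 1) = 1 - (k : ℝ) / (k + 1) := by
              field_simp
              ring
            rw [hu'd, e4, sub_smul, one_smul]
            ring
          rw [e3, norm_smul, Real.norm_of_nonneg (by positivity)]
        have l1 : ‖u' - c‖ ≤ k * (ρ / 2) := by
          rw [e1]
          calc (k : ℝ) / (k + 1) * ‖u - c‖ ≤ (k : ℝ) / (k + 1) * ((k + 1) * (ρ / 2)) :=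
                mul_le_mul_of_nonneg_left hu (by positivity)
            _ = k * (ρ / 2) := by field_simp
        have l2 : ‖u' - c‖ ≤ ‖u - c‖ := by
          rw [e1]
          exact mul_le_of_le_one_left (norm_nonneg _) ((div_le_one hk).2 (by linarith))
        have l3 : ‖u - u'‖ ≤ ρ / 2 := by
          rw [e2]
          calc 1 / ((k : ℝ) + 1) * ‖u - c‖ ≤ 1 / ((k : ℝ) + 1) * ((k + 1) * (ρ / 2)) :=
                mul_le_mul_of_nonneg_left hu (by positivity)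
            _ = ρ / 2 := by field_simp
        obtain ⟨n, hn⟩ := hex u hu'
        have hq := ih u' l1 (by linarith)
        have : n = Q := same_glob hNi hρ l3 (hn.trans (hsm u)) (hq.trans (hsm u')) hε
        rw [← this]
        exact hn
    refine ⟨Q, N, hN, fun u hu => ?_⟩
    obtain ⟨k, hk⟩ := exists_nat_ge (‖u - c‖ / (ρ / 2))
    exact key k u ((div_le_iff₀ (by positivity)).1 hk) hu
  · refine ⟨0, N, hN, fun u hu => ?_⟩
    have := norm_nonneg (u - c)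
    exact absurd (by linarith) hR

theorem mass_near_Q {CI : ℝ} (hCI : 0 ≤ CI) : ∃ ρ₀ : ℝ, 0 < ρ₀ ∧
    ∀ (D : CD α H) (c : ℂ) (R δ M s ρ : ℝ) (Q : ℕ) (N : ℂ → ℕ), CV D c R δ M → δ ≤ 1 / 2 →
    Sm D s ρ → ρ ≤ ρ₀ → MQ D c R ρ CI Q N → ∀ (u : ℂ) (σ : ℝ), 0 < σ →
    ‖u - c‖ + σ + 9 * ρ ≤ R →
    |D.m.real (D.cyl u σ) - Q * Real.pi * σ ^ 2| ≤ ρ ^ 10 := by
  refine ⟨1 / (3 + 128 * CI), by positivity, ?_⟩
  intro D c R δ M s ρ Q N h hδ hs hρ₀ hQ u σ hσ hu
  have hρ := hs.ρ_pos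
  have hρ4 : (3 + 128 * CI) * ρ ≤ 1 := by
    rw [le_div_iff₀ (by positivity)] at hρ₀
    linarith
  have hρ1 : ρ ≤ 1 := by nlinarith
  have hNi := integrable_N_glob hQ.mult h
  have m1 := hQ.mult.mass_near h u σ
  have t1 : D.T u σ ≤ ρ ^ 20 := (small_glob h hs _).1
  have t2 : D.J u σ ≤ ρ ^ 20 := (small_glob h hs _).2.2
  have t3 : ∫ a, D.t a ^ 2 ∂D.m ≤ 2 * ρ ^ 20 := by
    have := (small_glob h hs univ).2.1
    rwa [Measure.restrict_univ] at this
  have h20 : 0 < ρ ^ 20 := by positivity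
  have t4 : δ * D.J u σ ≤ ρ ^ 20 := by
    calc δ * D.J u σ ≤ δ * ρ ^ 20 := mul_le_mul_of_nonneg_left t2 h.δ_nonneg
      _ ≤ 1 * ρ ^ 20 := mul_le_mul_of_nonneg_right (by linarith) h20.le
      _ = ρ ^ 20 := one_mul _
  obtain ⟨-, w2⟩ := hQ.weight h hρ hCI (f := (ball u σ).indicator fun _ => (1 : ℝ))
    (F := fun _ => (1 : ℝ)) (measurable_const.indicator measurableSet_ball) measurable_const
    (B := 1) (fun _ => zero_le_one) (fun _ => le_rfl)
    (fun v hv => by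
      have hv' : v ∈ ball u σ := by
        by_contra hn
        exact hv (indicator_of_notMem hn _)
      rw [mem_ball, dist_eq_norm] at hv'
      have : ‖v - c‖ ≤ ‖v - u‖ + ‖u - c‖ := by
        calc ‖v - c‖ = ‖(v - u) + (u - c)‖ := by ring_nf
          _ ≤ ‖v - u‖ + ‖u - c‖ := norm_add_le _ _
      linarith)
    (fun v _ _ => by
      by_cases hv : v ∈ ball u σ
      · simp [indicator_of_mem hv]
      · simp [indicator_of_notMem hv])
  have w3 : ∫ v in ball u σ, |(N v : ℝ) - Q| ≤ 128 * CI * ρ ^ 20 := by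
    have e1 : ∫ v in ball u σ, |(N v : ℝ) - Q| =
        ∫ v, |(ball u σ).indicator (fun _ => (1 : ℝ)) v| * |(N v : ℝ) - Q| := by
      rw [← integral_indicator measurableSet_ball]
      refine integral_congr_ae (Eventually.of_forall fun v => ?_)
      by_cases hv : v ∈ ball u σ
      · simp [indicator_of_mem hv]
      · simp [indicator_of_notMem hv]
    rw [e1]
    refine w2.trans ?_
    simp only [one_mul]
    calc 64 * CI * ∫ a, D.t a ^ 2 ∂D.m ≤ 64 * CI * (2 * ρ ^ 20) :=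
          mul_le_mul_of_nonneg_left t3 (by positivity)
      _ = 128 * CI * ρ ^ 20 := by ring
  have w4 : |(∫ v in ball u σ, (N v : ℝ)) - Q * Real.pi * σ ^ 2| ≤ 128 * CI * ρ ^ 20 := by
    have e2 : (∫ v in ball u σ, (N v : ℝ)) - Q * Real.pi * σ ^ 2 =
        ∫ v in ball u σ, ((N v : ℝ) - Q) := by
      rw [integral_sub hNi.integrableOn (integrableOn_const measure_ball_lt_top.ne),
        setIntegral_const, smul_eq_mul, vol_ball_glob u hσ.le]
      ring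
    rw [e2]
    exact abs_integral_le_integral_abs.trans w3
  have h10 : (3 + 128 * CI) * ρ ^ 20 ≤ ρ ^ 10 := by
    have h11 : ρ ^ 20 ≤ ρ ^ 11 := pow_le_pow_of_le_one hρ.le hρ1 (by norm_num)
    calc (3 + 128 * CI) * ρ ^ 20 ≤ (3 + 128 * CI) * ρ ^ 11 :=
          mul_le_mul_of_nonneg_left h11 (by positivity)
      _ = ((3 + 128 * CI) * ρ) * ρ ^ 10 := by ring
      _ ≤ 1 * ρ ^ 10 := mul_le_mul_of_nonneg_right hρ4 (by positivity)
      _ = ρ ^ 10 := one_mul _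
  have tri := abs_sub_le (D.m.real (D.cyl u σ)) (∫ v in ball u σ, (N v : ℝ))
    (Q * Real.pi * σ ^ 2)
  linarith

end Pool.Agent.Lib.MP_8daebb_an.SV
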