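import Pool.Agent.Lib.MP_8daebb_an.SV.Neck
import Pool.Agent.Lib.MP_8daebb_an.SV.Glob

/-! A point of full density forces one group. -/

open MeasureTheory Metric Filter Topology Set
open scoped RealInnerProductSpace ENNReal ContDiff

namespace Pool.Agent.Lib.MP_8daebb_an.SV

variable {α : Type*} [MeasurableSpace α] {H : Type*} [NormedAddCommGroup H]
  [InnerProductSpace ℝ H] [FiniteDimensional ℝ H] [MeasurableSpace H] [BorelSpace H]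

theorem en_single {D : CD α H} {c : ℂ} {R δ M : ℝ} (h : CV D c R δ M) (hδ : δ ≤ 1) {Z : Set α}
    {u : ℂ} {σ : ℝ} (hZ : Z ⊆ D.cyl u σ) :
    0 ≤ D.En u σ ∧ ∫ a in Z, (D.t a + δ * ‖D.y a‖ ^ 2) ∂D.m ≤ D.En u σ := by
  obtain ⟨it, -, iy, ien, -, -⟩ := h.integrable_t
  have hen : 0 ≤ᵐ[D.m] D.en := by
    filter_upwards [h.ae_G] with a ha
    exact add_nonneg (h.pw a ha).t_nonneg (sq_nonneg _)
  refine ⟨integral_nonneg_of_ae (ae_restrict_of_ae hen), ?_⟩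
  refine le_trans ?_ (setIntegral_mono_set ien.integrableOn (ae_restrict_of_ae hen)
    hZ.eventuallyLE)
  refine integral_mono (it.add (iy.const_mul δ)).integrableOn ien.integrableOn fun a' => ?_
  have := mul_le_of_le_one_left (sq_nonneg ‖D.y a'‖) hδ
  simp only [CD.en]
  linarith

theorem num_single {κ Q : ℝ} (hQ : 0 ≤ Q) (hκ : 0 < κ) (e : κ * (1000 * (Q + 1)) = 1) :
    Q * Real.pi * (1 + 2 * κ) ^ 2 + κ <
      ((1 - κ) * ((Q - 1 / 3) * Real.pi) - κ) + ((1 - κ) * (4 / 3) - κ) := by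
  have p1 := Real.pi_lt_d2
  have p0 := Real.pi_pos
  have hQκ : 0 ≤ κ * Q := by positivity
  have k1 : κ ≤ 1 / 1000 := by nlinarith
  have k2 : κ * Q ≤ 1 / 1000 := by nlinarith
  have k3 : κ * Q * Real.pi ≤ 4 / 1000 := by nlinarith
  have k4 : κ * Q * Real.pi * κ ≤ 4 / 1000 := by
    have : 0 ≤ κ * Q * Real.pi := by positivity
    nlinarith
  have k5 : 0 ≤ κ * Real.pi := by positivity
  nlinarith

theorem single (M : ℝ) {CI : ℝ} (hCI : 0 ≤ CI) (Q : ℕ) : ∃ L : ℝ, 1 ≤ L ∧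
    ∃ c₀ : ℝ, 0 < c₀ ∧ ∃ δ₀ : ℝ, 0 < δ₀ ∧ ∃ ρ₀ : ℝ, 0 < ρ₀ ∧
    ∀ (D : CD α H) (R δ s ρ η : ℝ) (N : ℂ → ℕ) (u : ℂ), MS D R δ M s ρ CI Q N → δ ≤ δ₀ →
    ρ ≤ ρ₀ → 0 < η → η ≤ ρ → ‖u‖ + L * ρ ≤ R →
    D.En u (L * ρ) * (1 + Real.log (ρ / η)) ^ 2 ≤ c₀ * η ^ 2 →
    ∀ a ∈ D.G, ∀ a' ∈ D.G, a ∈ D.cyl u ρ → a' ∈ D.cyl u ρ → D.Den ((Q - 1 / 3) * Real.pi) a →
    D.Den (4 / 3) a' → ‖D.y a - D.y a'‖ < 2 * η := by
  have hQ : (0 : ℝ) ≤ Q := Nat.cast_nonneg Q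
  obtain ⟨K, hK⟩ : ∃ K : ℝ, K = 1000 * (Q + 1) := ⟨_, rfl⟩
  have K1 : 1 ≤ K := by linarith
  have K0 : 0 < K := by linarith
  have hκ : 0 < K⁻¹ := inv_pos.2 K0
  have hκK : K⁻¹ * K = 1 := inv_mul_cancel₀ K0.ne'
  obtain ⟨c₁, hc₁, δ₁, hδ₁, hn⟩ := neck (α := α) (H := H) hκ (inv_le_one_of_one_le₀ K1) M
  obtain ⟨ρ₁, hρ₁, hm⟩ := mass_near_Q (α := α) (H := H) hCI
  have lK : 0 ≤ Real.log K := Real.log_nonneg K1
  refine ⟨2 * K + 12, by linarith, c₁ / (1 + Real.log K) ^ 2, by positivity, min δ₁ (1 / 2),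
    lt_min hδ₁ (by norm_num), min ρ₁ 1, lt_min hρ₁ one_pos, ?_⟩
  intro D R δ s ρ η N u hD hδ hρ hη hηρ hR hE a ha a' ha' hu hu' hd hd'
  have h := hD.cv
  haveI := h.fin
  have ρ0 : 0 < ρ := hη.trans_le hηρ
  have ρ1 : ρ ≤ 1 := hρ.trans (min_le_right _ _)
  have δ2 : δ ≤ 1 / 2 := hδ.trans (min_le_right _ _)
  have Kρ : ρ ≤ K * ρ := le_mul_of_one_le_left ρ0.le K1
  have e1 : (1 + K⁻¹) * (K * ρ) = K * ρ + ρ := by
    rw [add_mul, one_mul, ← mul_assoc, hκK, one_mul]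
  have tri : ∀ {b b' : α} {r : ℝ}, b ∈ D.cyl u ρ → ‖D.x b' - D.x b‖ < r →
      b' ∈ D.cyl u (r + ρ) := fun {b b' r} hb hb' => by
    have t := norm_sub_le_norm_sub_add_norm_sub (D.x b') (D.x b) u
    have hb1 : ‖D.x b - u‖ < ρ := hb
    show ‖D.x b' - u‖ < r + ρ
    linarith
  have key : ∀ b ∈ D.G, b ∈ D.cyl u ρ → ∀ ϑ : ℝ, 0 ≤ ϑ → D.Den ϑ b →
      ((1 - K⁻¹) * ϑ - K⁻¹) * (K * ρ) ^ 2 ≤
        D.m.real (D.box (D.x b) (D.y b) (K * ρ + ρ) η) := fun b hb hbu ϑ hϑ hden => by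
    have hb1 : ‖D.x b - u‖ < ρ := hbu
    obtain ⟨E0, E1⟩ := en_single h (by linarith) (Z := D.box (D.x b) (D.y b) (2 * (K * ρ)) η)
      (u := u) (σ := (2 * K + 12) * ρ) fun b' hb' => by
        have t : ‖D.x b' - u‖ < 2 * (K * ρ) + ρ := tri hbu hb'.1
        show ‖D.x b' - u‖ < (2 * K + 12) * ρ
        linarith
    rw [← e1]
    refine hn D 0 R δ h (hδ.trans (min_le_left _ _)) b hb ϑ (K * ρ) η _ hϑ hden hη
      (hηρ.trans Kρ) ?_ E1 ?_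
    · have t := norm_sub_le_norm_sub_add_norm_sub (D.x b) u 0
      rw [sub_zero u] at t
      linarith
    · have l0 : 0 ≤ Real.log (ρ / η) := Real.log_nonneg ((one_le_div hη).2 hηρ)
      have l1 : Real.log (K * ρ / η) = Real.log K + Real.log (ρ / η) := by
        rw [mul_div_assoc, Real.log_mul K0.ne' (by positivity)]
      have l2 : (1 + Real.log (K * ρ / η)) ^ 2 ≤
          ((1 + Real.log K) * (1 + Real.log (ρ / η))) ^ 2 := by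
        rw [l1]
        exact pow_le_pow_left₀ (by linarith) (by nlinarith) 2
      rw [div_mul_eq_mul_div, le_div_iff₀ (by positivity)] at hE
      calc _ ≤ D.En u ((2 * K + 12) * ρ) * ((1 + Real.log K) * (1 + Real.log (ρ / η))) ^ 2 :=
            mul_le_mul_of_nonneg_left l2 E0
        _ ≤ _ := by rw [mul_pow]; linarith
  have Q1 : (1 : ℝ) ≤ Q := by exact_mod_cast hD.Q_pos
  have k1 := key a ha hu _ (mul_nonneg (by linarith) Real.pi_pos.le) hd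
  have k2 := key a' ha' hu' _ (by norm_num) hd'
  by_contra hy
  rw [not_lt] at hy
  have dj : Disjoint (D.box (D.x a) (D.y a) (K * ρ + ρ) η)
      (D.box (D.x a') (D.y a') (K * ρ + ρ) η) := Set.disjoint_left.2 fun b hb hb' => by
    have t := norm_sub_le_norm_sub_add_norm_sub (D.y a) (D.y b) (D.y a')
    rw [norm_sub_rev (D.y a) (D.y b)] at t
    linarith [hb.2, hb'.2]
  have m1 : D.m.real (D.box (D.x a) (D.y a) (K * ρ + ρ) η) +
      D.m.real (D.box (D.x a') (D.y a') (K * ρ + ρ) η) ≤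
      D.m.real (D.cyl u (K * ρ + ρ + ρ)) := by
    rw [← measureReal_union dj (h.meas_box _ _ _ _)]
    exact measureReal_mono (union_subset (fun b hb => tri hu hb.1) fun b hb => tri hu' hb.1)
  have m2 := (abs_le.1 (hm D 0 R δ M s ρ Q N h δ2 hD.sm (hρ.trans (min_le_left _ _)) hD.mq u
    (K * ρ + ρ + ρ) (by positivity) (by rw [sub_zero]; linarith))).2
  have e2 : K * ρ + ρ + ρ = (1 + 2 * K⁻¹) * (K * ρ) := by
    rw [add_mul, one_mul, mul_assoc, ← mul_assoc K⁻¹, hκK]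
    ring
  have e3 : ρ ^ 10 ≤ K⁻¹ * (K * ρ) ^ 2 := by
    have t1 : ρ ^ 10 ≤ ρ ^ 2 := pow_le_pow_of_le_one ρ0.le ρ1 (by norm_num)
    have t2 : K⁻¹ * (K * ρ) ^ 2 = K * ρ ^ 2 := by
      rw [mul_pow, sq K, ← mul_assoc, ← mul_assoc, hκK, one_mul]
    have t3 : ρ ^ 2 ≤ K * ρ ^ 2 := le_mul_of_one_le_left (sq_nonneg _) K1
    linarith
  have n1 := mul_lt_mul_of_pos_right (num_single hQ hκ (by rw [← hK]; exact hκK))
    (show 0 < (K * ρ) ^ 2 by positivity)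
  have e4 : (Q : ℝ) * Real.pi * (K * ρ + ρ + ρ) ^ 2 =
      Q * Real.pi * (1 + 2 * K⁻¹) ^ 2 * (K * ρ) ^ 2 := by
    rw [e2]; ring
  rw [e4] at m2
  linarith

end Pool.Agent.Lib.MP_8daebb_an.SV
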