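import Pool.Agent.Lib.MP_8daebb_an.SV.Cacc
import Pool.Agent.Lib.MP_8daebb_an.SV.AvD
import Pool.Agent.Lib.MP_8daebb_an.SV.Single
import Pool.Agent.Lib.MP_8daebb_an.SV.PoinC
import Pool.Agent.Lib.MP_8daebb_an.SV.Clus

/-! One step of the decay of the height. -/

open MeasureTheory Metric Filter Topology Set
open scoped RealInnerProductSpace ENNReal ContDiff

namespace Pool.Agent.Lib.MP_8daebb_an.SV

variable {α : Type*} [MeasurableSpace α] {H : Type*} [NormedAddCommGroup H]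
  [InnerProductSpace ℝ H] [FiniteDimensional ℝ H] [MeasurableSpace H] [BorelSpace H]

lemma ker_ball_deca {ρ : ℝ} (hρ : 0 < ρ) (r : ℝ) (x : ℂ) :
    0 ≤ ∫ u in ball (0 : ℂ) r, kr ρ (u - x) ∧ ∫ u in ball (0 : ℂ) r, kr ρ (u - x) ≤ 1 ∧
      (‖x‖ + ρ ≤ r → ∫ u in ball (0 : ℂ) r, kr ρ (u - x) = 1) ∧
      (r + ρ ≤ ‖x‖ → ∫ u in ball (0 : ℂ) r, kr ρ (u - x) = 0) := by
  obtain ⟨h1, h2⟩ := kr_shift_av hρ x
  refine ⟨integral_nonneg fun u => kr_nonneg _ _, (setIntegral_le_integral h1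
    (ae_of_all _ fun u => kr_nonneg _ _)).trans h2.le, fun g => ?_, fun g => ?_⟩
  · rw [setIntegral_eq_integral_of_forall_compl_eq_zero, h2]
    intro u hu
    have g1 := not_lt.1 (mt mem_ball_zero_iff.2 hu)
    have g2 := norm_sub_norm_le u x
    exact zero_ker hρ _ (by linarith)
  · refine setIntegral_eq_zero_of_forall_eq_zero fun u hu => ?_
    have g1 := mem_ball_zero_iff.1 hu
    have g2 := norm_sub_norm_le x u
    rw [norm_sub_rev] at g2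
    exact zero_ker hρ _ (by linarith)

lemma loc_deca {D : CD α H} {c : ℂ} {R δ M : ℝ} (h : CV D c R δ M) {ρ : ℝ} (hρ : 0 < ρ)
    {f : α → ℝ} (hf : Integrable f D.m) (h0 : ∀ᵐ a ∂D.m, 0 ≤ f a) {r r₁ r₂ : ℝ}
    (h1 : r₁ + ρ ≤ r) (h2 : r + ρ ≤ r₂) :
    ∫ a in D.cyl 0 r₁, f a ∂D.m ≤ ∫ u in ball (0 : ℂ) r, D.av ρ f u ∧
      ∫ u in ball (0 : ℂ) r, D.av ρ f u ≤ ∫ a in D.cyl 0 r₂, f a ∂D.m := by
  have e0 : ∀ g : ℂ → ℝ, ∫ u, (ball (0 : ℂ) r).indicator (fun _ => (1 : ℝ)) u * g u =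
      ∫ u in ball (0 : ℂ) r, g u := by
    intro g
    rw [← integral_indicator measurableSet_ball]
    refine integral_congr_ae (ae_of_all _ fun u => ?_)
    by_cases hu : u ∈ ball (0 : ℂ) r <;> simp [hu]
  have e := (h.integral_av hρ hf (κ := (ball (0 : ℂ) r).indicator fun _ => (1 : ℝ))
    (measurable_const.indicator measurableSet_ball) (B := 1) (fun u => by
      by_cases hu : u ∈ ball (0 : ℂ) r <;> simp [hu])).2
  simp only [e0] at e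
  have hm : Measurable fun x : ℂ => ∫ u in ball (0 : ℂ) r, kr ρ (u - x) :=
    (StronglyMeasurable.integral_prod_left' (f := fun p : ℂ × ℂ => kr ρ (p.1 - p.2))
      ((kr_meas_av ρ).comp (measurable_fst.sub measurable_snd)).stronglyMeasurable).measurable
  have hi : Integrable (fun a => (∫ u in ball (0 : ℂ) r, kr ρ (u - D.x a)) * f a) D.m :=
    hf.bdd_mul (c := 1) (hm.comp h.m_x).aestronglyMeasurable (ae_of_all _ fun a => by
      rw [Real.norm_of_nonneg (ker_ball_deca hρ r _).1]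
      exact (ker_ball_deca hρ r _).2.1)
  rw [e, ← integral_indicator (h.meas_cyl 0 r₁), ← integral_indicator (h.meas_cyl 0 r₂)]
  refine ⟨integral_mono_ae (hf.indicator (h.meas_cyl 0 r₁)) hi (h0.mono fun a ha => ?_),
    integral_mono_ae hi (hf.indicator (h.meas_cyl 0 r₂)) (h0.mono fun a ha => ?_)⟩
  · obtain ⟨k1, -, k3, -⟩ := ker_ball_deca hρ r (D.x a)
    by_cases hc : a ∈ D.cyl 0 r₁
    · have g : ‖D.x a - 0‖ < r₁ := hc
      rw [sub_zero] at g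
      simp only [indicator_of_mem hc, k3 (by linarith), one_mul, le_refl]
    · simp only [indicator_of_notMem hc]
      exact mul_nonneg k1 ha
  · obtain ⟨-, k2, -, k4⟩ := ker_ball_deca hρ r (D.x a)
    by_cases hc : a ∈ D.cyl 0 r₂
    · simp only [indicator_of_mem hc]
      exact mul_le_of_le_one_left ha k2
    · have g : r₂ ≤ ‖D.x a - 0‖ := not_lt.1 hc
      rw [sub_zero] at g
      simp only [indicator_of_notMem hc, k4 (by linarith), zero_mul, le_refl]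

omit [FiniteDimensional ℝ H] [MeasurableSpace H] [BorelSpace H] in
lemma av_const_deca {F : Type*} [NormedAddCommGroup F] [NormedSpace ℝ F] [CompleteSpace F]
    (D : CD α H) (ρ : ℝ) (v : F) (u : ℂ) :
    D.av ρ (fun _ => v) u = D.av ρ (fun _ => (1 : ℝ)) u • v := by
  simp only [CD.av, integral_smul_const, smul_eq_mul, mul_one]

omit [FiniteDimensional ℝ H] [MeasurableSpace H] [BorelSpace H] in
lemma av_nonneg_deca (D : CD α H) (ρ : ℝ) {f : α → ℝ} (h0 : ∀ᵐ a ∂D.m, 0 ≤ f a) (u : ℂ) :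
    0 ≤ D.av ρ f u :=
  integral_nonneg_of_ae (h0.mono fun _ ha => mul_nonneg (kr_nonneg _ _) ha)

lemma good_deca {D : CD α H} {c : ℂ} {R δ M : ℝ} (h : CV D c R δ M) {ρ : ℝ} (hρ : 0 < ρ) {u : ℂ}
    {y₀ : H} {η β A : ℝ} (h1 : 1 / 2 ≤ D.av ρ (fun _ => (1 : ℝ)) u)
    (h2 : D.av ρ (fun _ => (1 : ℝ)) u ≤ A) (h3 : ‖D.av ρ D.y u‖ ≤ β)
    (h4 : ∀ᵐ a ∂D.m, a ∈ D.cyl u ρ → ‖D.y a - y₀‖ ≤ η) :
    D.av ρ (fun a => ‖D.y a‖ ^ 2) u ≤ A * (2 * β + 2 * η) ^ 2 := by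
  have := h.fin
  have := FiniteDimensional.complete ℝ H
  have iy := h.integrable_t.2.2.2.2.2
  have g1 := (h.norm_av_le hρ (integrable_const η) u h4).1
  have g2 : D.av ρ (fun a => D.y a - y₀) u = D.av ρ D.y u - D.av ρ (fun _ => y₀) u := by
    simp only [CD.av, smul_sub]
    exact integral_sub (h.int_av hρ iy u) (h.int_av hρ (integrable_const y₀) u)
  rw [g2, av_const_deca D ρ y₀, av_const_deca D ρ η, norm_sub_rev, smul_eq_mul] at g1
  have g3 := norm_sub_norm_le (D.av ρ (fun _ => (1 : ℝ)) u • y₀) (D.av ρ D.y u)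
  rw [norm_smul, Real.norm_of_nonneg (by linarith)] at g3
  have g4 : ‖y₀‖ ≤ 2 * β + η := by
    have hβ : 0 ≤ β := (norm_nonneg _).trans h3
    by_contra q
    nlinarith
  have g5 := (h.norm_av_le hρ (f := fun a => ‖D.y a‖ ^ 2) (integrable_const ((2 * β + 2 * η) ^ 2))
    u (h4.mono fun a ha hc => by
      have q1 := ha hc
      have q2 := norm_sub_norm_le (D.y a) y₀
      rw [Real.norm_of_nonneg (sq_nonneg _)]
      exact pow_le_pow_left₀ (norm_nonneg _) (by linarith) 2)).1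
  rw [av_const_deca, smul_eq_mul] at g5
  exact (le_abs_self _).trans (g5.trans (mul_le_mul_of_nonneg_right h2 (sq_nonneg _)))

lemma pick_deca {D : CD α H} {c : ℂ} {R δ M : ℝ} (h : CV D c R δ M) {ρ : ℝ} (hρ : 0 < ρ) {u : ℂ}
    {B : Set α} (hB : MeasurableSet B) (h1 : 1 / 2 ≤ D.av ρ (fun _ => (1 : ℝ)) u)
    (h2 : ∫ a in D.cyl u ρ, B.indicator (fun _ => (1 : ℝ)) a ∂D.m ≤ ρ ^ 2 / (4 * Ck)) :
    ∃ a ∈ D.G, a ∈ D.cyl u ρ ∧ a ∉ B := by
  have := h.fin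
  have hk := one_le_Ck
  by_contra hn
  obtain ⟨g1, g2⟩ := h.norm_av_le hρ (f := fun _ => (1 : ℝ))
    ((integrable_const (1 : ℝ)).indicator hB) u (h.ae_G.mono fun a ha hc => by
      have q : a ∈ B := by
        by_contra q
        exact hn ⟨a, ha, hc, q⟩
      simp [q])
  have g3 := mul_le_mul_of_nonneg_left h2 (by positivity : 0 ≤ Ck / ρ ^ 2)
  have g4 : Ck / ρ ^ 2 * (ρ ^ 2 / (4 * Ck)) = 1 / 4 := by field_simp
  have g5 := le_abs_self (D.av ρ (fun _ => (1 : ℝ)) u)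
  rw [Real.norm_eq_abs] at g1
  linarith

lemma sqrt_deca {A : ℂ → ℝ} (hA : ContDiff ℝ 1 A) (h0 : ∀ u, 0 ≤ A u) {η : ℝ} (hη : 0 < η)
    (u : ℂ) : ‖fderiv ℝ (fun u => √(A u + η ^ 2)) u‖ = ‖fderiv ℝ A u‖ / (2 * √(A u + η ^ 2)) := by
  have := h0 u
  have g := ((hA.differentiable one_ne_zero u).hasFDerivAt.add_const (η ^ 2)).sqrt (by positivity)
  rw [g.fderiv, norm_smul, Real.norm_of_nonneg (by positivity)]
  ring

lemma grad_deca {A T C η s X : ℝ} (hA : 0 ≤ A) (hT : 0 ≤ T) (hC : 0 ≤ C) (hη : 0 < η)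
    (hs : s ≤ η ^ 2) (hX0 : 0 ≤ X) (hX : X ≤ C * √(A * T) + C * s) :
    (X / (2 * √(A + η ^ 2))) ^ 2 ≤ C ^ 2 * (T + η ^ 2) := by
  have g1 : √A ≤ √(A + η ^ 2) := Real.sqrt_le_sqrt (by linarith [sq_nonneg η])
  have g2 : η ≤ √(A + η ^ 2) := Real.le_sqrt_of_sq_le (by linarith)
  have g3 : X / (2 * √(A + η ^ 2)) ≤ C * ((√T + η) / 2) := by
    rw [div_le_iff₀ (by positivity)]
    rw [Real.sqrt_mul hA] at hX
    have q1 := mul_le_mul_of_nonneg_left g1 (by positivity : 0 ≤ C * √T)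
    have q2 := mul_le_mul_of_nonneg_left g2 (by positivity : 0 ≤ C * η)
    have q3 := mul_le_mul_of_nonneg_left hs hC
    nlinarith
  refine (pow_le_pow_left₀ (by positivity) g3 2).trans ?_
  rw [mul_pow]
  refine mul_le_mul_of_nonneg_left ?_ (sq_nonneg C)
  have q := Real.sq_sqrt hT
  nlinarith [sq_nonneg (√T - η), sq_nonneg η]

theorem dec_step (M : ℝ) {CI : ℝ} (hCI : 0 ≤ CI) (Q : ℕ) : ∃ δ₀ : ℝ, 0 < δ₀ ∧ ∀ ξ : ℝ, 0 < ξ →
    ∃ εB : ℝ, 0 < εB ∧ ∃ c : ℝ, 0 < c ∧ ∃ C : ℝ, 0 < C ∧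
    ∀ (D : CD α H) (R δ s ρ γ σ β : ℝ) (N : ℂ → ℕ), MS D R δ M s ρ CI Q N → δ ≤ δ₀ → ρ ≤ γ →
    γ ≤ 1 → 1 + Real.log (ρ / (s ^ 2 * γ)) ≤ 1 / γ → ρ ≤ c * γ ^ 2 * σ → 5 * σ ≤ R →
    D.bad Q (4 * σ) ≤ εB * σ ^ 2 → (∀ v : ℂ, ‖v‖ ≤ 2 * σ → ‖D.av ρ D.y v‖ ≤ β) →
    D.J 0 σ ≤ ξ * D.J 0 (4 * σ) + C * (s ^ 4 * γ ^ 2 + β ^ 2) * σ ^ 2 := by
  obtain ⟨L, hL, c₀, hc₀, δs, hδs, ρ₀, hρ₀, Hs⟩ := single (α := α) (H := H) M hCI Q
  obtain ⟨Cg, hCg, Hg⟩ := grad_av_sq (α := α) (H := H) M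
  obtain ⟨Cc, hCc, Hc⟩ := cacc (α := α) (H := H)
  have hk := one_le_Ck
  refine ⟨min δs (1 / 10), lt_min hδs (by norm_num), fun ξ hξ => ?_⟩
  obtain ⟨κ, hκ, hκe⟩ : ∃ κ : ℝ, 0 < κ ∧ κ * (Cg ^ 2 * Cc) = ξ :=
    ⟨ξ / (Cg ^ 2 * Cc), by positivity, div_mul_cancel₀ _ (by positivity)⟩
  obtain ⟨ep, hep, Hp⟩ := poin_c hκ
  obtain ⟨c, hc, c1, c2, c3, c4⟩ : ∃ c : ℝ, 0 < c ∧ c ≤ 1 / (8 * L) ∧ c ≤ ρ₀ ∧
      c ≤ 1 / (2 * (Ck * (2 * CI + 2))) ∧ c ≤ ep * c₀ / (8 * L ^ 2) :=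
    ⟨min (min _ _) (min _ _), by positivity, (min_le_left _ _).trans (min_le_left _ _),
      (min_le_left _ _).trans (min_le_right _ _), (min_le_right _ _).trans (min_le_left _ _),
      (min_le_right _ _).trans (min_le_right _ _)⟩
  rw [le_div_iff₀ (by positivity)] at c1 c3 c4
  refine ⟨ep / (32 * Ck), by positivity, c, hc, 16 * κ * Cg ^ 2 + 16 * (32 * (Ck * |M|) + 1),
    by positivity, ?_⟩
  intro D R δ s ρ γ σ β N hms hδ hργ hγ hlog hρ hR hbad hβ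
  have h := hms.cv
  have := h.fin
  have hM := h.M_nonneg
  rw [abs_of_nonneg hM]
  obtain ⟨hδ1, hδ2⟩ := le_min_iff.1 hδ
  have hρ0 := hms.sm.ρ_pos
  have hs0 := hms.sm.s_pos
  have hγ0 : 0 < γ := hρ0.trans_le hργ
  have hσ : 0 < σ := (mul_pos_iff_of_pos_left (by positivity : 0 < c * γ ^ 2)).1 (hρ0.trans_le hρ)
  have hσ1 : σ ≤ 1 := by linarith [h.R_le]
  have hγ2 : γ ^ 2 ≤ 1 := pow_le_one₀ hγ0.le hγ
  have r1 : ρ ≤ c * σ := hρ.trans (mul_le_mul_of_nonneg_right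
    (mul_le_of_le_one_right hc.le hγ2) hσ.le)
  have r2 : ρ ≤ c := r1.trans (mul_le_of_le_one_right hc.le hσ1)
  have r3 : L * ρ ≤ σ / 8 := by
    linarith [mul_le_mul_of_nonneg_left r1 (by positivity : 0 ≤ L),
      mul_le_mul_of_nonneg_right c1 hσ.le]
  have r4 : ρ ≤ σ / 8 := le_trans (le_mul_of_one_le_left hρ0.le hL) r3
  have r5 : s ≤ ρ := hms.sm.s_le.trans (pow_le_of_le_one hρ0.le (by linarith) (by norm_num))
  have r6 : s ≤ 1 := by linarith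
  have r7 : s ^ 2 ≤ s := pow_le_of_le_one hs0.le r6 two_ne_zero
  obtain ⟨η, hη⟩ : ∃ η, η = s ^ 2 * γ := ⟨_, rfl⟩
  have hη0 : 0 < η := by
    rw [hη]
    positivity
  have hηρ : η ≤ ρ := by
    rw [hη]
    exact (mul_le_of_le_one_right (sq_nonneg s) hγ).trans (r7.trans r5)
  have hη2 : η ^ 2 = s ^ 4 * γ ^ 2 := by
    rw [hη]
    ring
  have hs7 : s ^ 7 ≤ η ^ 2 := by
    have q1 : s ^ 3 ≤ γ ^ 2 := (pow_le_pow_of_le_one hs0.le r6 (by norm_num)).trans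
      (pow_le_pow_left₀ hs0.le (r5.trans hργ) 2)
    rw [hη2, show s ^ 7 = s ^ 4 * s ^ 3 by ring]
    exact mul_le_mul_of_nonneg_left q1 (by positivity)
  rw [← hη] at hlog
  have hβ0 : 0 ≤ β := (norm_nonneg _).trans (hβ 0 (by rw [norm_zero]; positivity))
  obtain ⟨it, -, iy2, ien, -, -⟩ := h.integrable_t
  have t0 : ∀ᵐ a ∂D.m, 0 ≤ D.t a := h.pw_av.mono fun a ha => ha.t_nonneg
  have y0 : ∀ᵐ a ∂D.m, 0 ≤ ‖D.y a‖ ^ 2 := ae_of_all _ fun a => sq_nonneg _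
  obtain ⟨a1, a2, -⟩ := h.av_smooth hρ0 iy2
  have a0 := av_nonneg_deca D ρ y0
  have hA : ContDiff ℝ 1 (D.av ρ fun a => ‖D.y a‖ ^ 2) := a1.of_le (by norm_num)
  obtain ⟨A, hAe⟩ : ∃ A, A = D.av ρ fun a => ‖D.y a‖ ^ 2 := ⟨_, rfl⟩
  have hJ1 := (loc_deca h hρ0 iy2 y0 (r := 3 / 2 * σ) (r₁ := σ) (r₂ := 2 * σ) (by linarith)
    (by linarith)).1
  have hT1 := (loc_deca h hρ0 it t0 (r := 2 * σ) (r₁ := σ) (r₂ := 3 * σ) (by linarith)
    (by linarith)).2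
  have hg := Hg D R δ s ρ h (by linarith) hms.sm (by linarith)
  have hgood := fun u y₀ => good_deca h hρ0 (u := u) (y₀ := y₀) (η := 2 * η) (β := β) (A := Ck * M)
  rw [← hAe] at a0 a2 hA hJ1 hg hgood
  have hG : ContDiff ℝ 1 fun u => √(A u + η ^ 2) :=
    (hA.add contDiff_const).sqrt fun u => by
      have := a0 u
      positivity
  obtain ⟨K, hK⟩ := (a2.fderiv ℝ).exists_bound_of_continuous (hA.continuous_fderiv one_ne_zero)
  obtain ⟨B, hBm, hB1, hB2⟩ : ∃ B : Set α, MeasurableSet B ∧ D.m.real B = D.bad Q (4 * σ) ∧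
      ∀ a ∉ B, a ∈ D.cyl 0 (4 * σ) → D.Den ((Q - 1 / 3) * Real.pi) a := by
    refine ⟨toMeasurable D.m {a | a ∈ D.cyl 0 (4 * σ) ∧ ¬D.Den ((Q - 1 / 3) * Real.pi) a},
      measurableSet_toMeasurable _ _, by rw [CD.bad, Measure.real, measure_toMeasurable]; rfl,
      fun a ha hc => ?_⟩
    by_contra q
    exact ha (subset_toMeasurable _ _ ⟨hc, q⟩)
  have hsub : {u | √(Ck * M * (2 * β + 2 * (2 * η)) ^ 2 + η ^ 2) < √(A u + η ^ 2)} ∩
      ball 0 (2 * σ) ⊆ {u : ℂ | c₀ * η ^ 2 * γ ^ 2 <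
        ∫ a in {a | ‖D.x a - u‖ < L * ρ}, D.en a ∂D.m} ∪ {u : ℂ | ρ ^ 2 / (4 * Ck) <
        ∫ a in {a | ‖D.x a - u‖ < ρ}, B.indicator (fun _ => (1 : ℝ)) a ∂D.m} := by
    rintro u ⟨u1, u2⟩
    have u3 := mem_ball_zero_iff.1 u2
    by_contra q
    have q1 : D.En u (L * ρ) ≤ c₀ * η ^ 2 * γ ^ 2 := not_lt.1 fun g => q (Or.inl g)
    have q2 : ∫ a in D.cyl u ρ, B.indicator (fun _ => (1 : ℝ)) a ∂D.m ≤ ρ ^ 2 / (4 * Ck) :=
      not_lt.1 fun g => q (Or.inr g)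
    have q3 : 1 / 2 ≤ D.av ρ (fun _ => (1 : ℝ)) u := by
      have p1 := (abs_le.1 (hms.av_one (by linarith) (by linarith) hCI (u := u) (by linarith))).1
      have p2 : (1 : ℝ) ≤ Q := by exact_mod_cast hms.Q_pos
      have p3 : s ^ 3 ≤ c := (pow_le_of_le_one hs0.le r6 (by norm_num)).trans (r5.trans r2)
      have p4 := mul_le_mul_of_nonneg_left p3 (by positivity : 0 ≤ Ck * (2 * CI + 2))
      linarith
    obtain ⟨a, b1, b2, b3⟩ := pick_deca h hρ0 hBm q3 q2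
    have b4 : a ∈ D.cyl 0 (4 * σ) := by
      have p1 : ‖D.x a - u‖ < ρ := b2
      have p2 := norm_sub_norm_le (D.x a) u
      show ‖D.x a - 0‖ < 4 * σ
      rw [sub_zero]
      linarith
    have q4 : D.En u (L * ρ) * (1 + Real.log (ρ / η)) ^ 2 ≤ c₀ * η ^ 2 := by
      have p1 : 0 ≤ Real.log (ρ / η) := Real.log_nonneg ((one_le_div hη0).2 hηρ)
      have p2 := pow_le_pow_left₀ (by linarith) hlog 2
      refine (mul_le_mul q1 p2 (sq_nonneg _) (by positivity)).trans (le_of_eq ?_)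
      field_simp
    have q5 := hgood u (D.y a) q3 (hms.sm.av_le h (by linarith) u).1 (hβ u u3.le) (by
      filter_upwards [h.ae_G, h.ld] with a' p1 p2 p3
      rw [norm_sub_rev]
      exact (Hs D R δ s ρ η N u hms hδ1 (r2.trans c2) hη0 hηρ (by linarith) q4 a b1 a' p1 b2 p3
        (hB2 a b3 b4) p2).le)
    exact absurd (Real.sqrt_le_sqrt (add_le_add q5 le_rfl)) (not_le.2 u1)
  have v1 := vol_local h.m_x ien (h.pw_av.mono fun a ha => (PW.facts_av ha).1)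
    (r₀ := L * ρ) (η₁ := c₀ * η ^ 2 * γ ^ 2) (by positivity) (by positivity)
  have v2 := vol_local (m := D.m) h.m_x ((integrable_const (1 : ℝ)).indicator hBm)
    (ae_of_all _ fun a => indicator_nonneg (fun _ _ => zero_le_one) a)
    (r₀ := ρ) (η₁ := ρ ^ 2 / (4 * Ck)) hρ0 (by positivity)
  have pi4 := Real.pi_le_four
  have pi0 := Real.pi_pos
  have w1 : Real.pi * (L * ρ) ^ 2 * (∫ a, D.en a ∂D.m) / (c₀ * η ^ 2 * γ ^ 2) ≤
      ep / 2 * σ ^ 2 := by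
    rw [div_le_iff₀ (by positivity), hη2]
    have p1 : ρ ^ 2 ≤ (c * γ ^ 2 * σ) ^ 2 := pow_le_pow_left₀ hρ0.le hρ 2
    have p2 : c ≤ 1 := by linarith [mul_le_mul_of_nonneg_left hL hc.le]
    have p3 : c ^ 2 * (8 * L ^ 2) ≤ ep * c₀ :=
      (mul_le_mul_of_nonneg_right (pow_le_of_le_one hc.le p2 two_ne_zero) (by positivity)).trans c4
    calc Real.pi * (L * ρ) ^ 2 * ∫ a, D.en a ∂D.m ≤ Real.pi * (L * ρ) ^ 2 * s ^ 4 :=
          mul_le_mul_of_nonneg_left hms.sm.en_le (by positivity)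
      _ = Real.pi * L ^ 2 * s ^ 4 * ρ ^ 2 := by ring
      _ ≤ 4 * L ^ 2 * s ^ 4 * (c * γ ^ 2 * σ) ^ 2 := by gcongr
      _ = c ^ 2 * (8 * L ^ 2) * (s ^ 4 * γ ^ 4 * σ ^ 2 / 2) := by ring
      _ ≤ ep * c₀ * (s ^ 4 * γ ^ 4 * σ ^ 2 / 2) := by gcongr
      _ = _ := by ring
  have w2 : Real.pi * ρ ^ 2 * (∫ a, B.indicator (fun _ => (1 : ℝ)) a ∂D.m) / (ρ ^ 2 / (4 * Ck)) ≤
      ep / 2 * σ ^ 2 := by
    rw [integral_indicator_const _ hBm, smul_eq_mul, mul_one, hB1, div_le_iff₀ (by positivity)]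
    calc Real.pi * ρ ^ 2 * D.bad Q (4 * σ) ≤ Real.pi * ρ ^ 2 * (ep / (32 * Ck) * σ ^ 2) :=
          mul_le_mul_of_nonneg_left hbad (by positivity)
      _ ≤ 4 * ρ ^ 2 * (ep / (32 * Ck) * σ ^ 2) := by gcongr
      _ = _ := by
          field_simp
          ring
  have hp := Hp (fun u => √(A u + η ^ 2)) (K / (2 * η)) _ σ hG (fun u => by
      rw [sqrt_deca hA a0 hη0]
      have p1 : η ≤ √(A u + η ^ 2) := Real.le_sqrt_of_sq_le (by linarith [a0 u])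
      exact div_le_div₀ ((norm_nonneg _).trans (hK u)) (hK u) (by positivity) (by linarith))
    (fun u => Real.sqrt_nonneg _) (Real.sqrt_nonneg _) hσ ((measure_mono hsub).trans
      ((measure_union_le _ _).trans ((add_le_add (v1.trans (ENNReal.ofReal_le_ofReal w1))
        (v2.trans (ENNReal.ofReal_le_ofReal w2))).trans (le_of_eq (by
          rw [← ENNReal.ofReal_add (by positivity) (by positivity)]
          congr 1
          ring)))))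
  rw [Real.sq_sqrt (by positivity)] at hp
  have f1 : ∫ u in ball (0 : ℂ) (3 / 2 * σ), A u ≤
      ∫ u in ball (0 : ℂ) (3 / 2 * σ), √(A u + η ^ 2) ^ 2 :=
    integral_mono (intOn_poinc hA.continuous _) (intOn_poinc (hG.continuous.pow 2) _) fun u => by
      have := a0 u
      show A u ≤ √(A u + η ^ 2) ^ 2
      rw [Real.sq_sqrt (by positivity)]
      linarith [sq_nonneg η]
  have tc := (h.av_smooth hρ0 it).1.continuous
  have f2 : ∫ u in ball (0 : ℂ) (2 * σ), ‖fderiv ℝ (fun u => √(A u + η ^ 2)) u‖ ^ 2 ≤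
      ∫ u in ball (0 : ℂ) (2 * σ), Cg ^ 2 * (D.av ρ D.t u + η ^ 2) :=
    setIntegral_mono_on (intOn_poinc ((hG.continuous_fderiv one_ne_zero).norm.pow 2) _)
      (intOn_poinc (by fun_prop) _) measurableSet_ball fun u hu => by
        rw [sqrt_deca hA a0 hη0]
        have := mem_ball_zero_iff.1 hu
        exact grad_deca (a0 u) (av_nonneg_deca D ρ t0 u) hCg.le hη0 hs7 (norm_nonneg _)
          (hg u (by linarith))
  have f3 : (volume : Measure ℂ).real (ball (0 : ℂ) (2 * σ)) ≤ 16 := by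
    rw [Measure.real, Complex.volume_ball, ENNReal.toReal_mul, ENNReal.toReal_pow,
      ENNReal.toReal_ofReal (by positivity), ENNReal.coe_toReal, NNReal.coe_real_pi]
    have p : (2 * σ) ^ 2 ≤ 2 ^ 2 := pow_le_pow_left₀ (by positivity) (by linarith) 2
    linarith [mul_le_mul p pi4 pi0.le (by positivity)]
  rw [integral_const_mul, integral_add (intOn_poinc tc _) (intOn_poinc continuous_const _),
    setIntegral_const, smul_eq_mul] at f2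
  have f4 := Hc D 0 R δ M h hδ2 0 (3 * σ) σ (by positivity) hσ (by simp; linarith)
  rw [show 3 * σ + σ = 4 * σ by ring] at f4
  have f5 := mul_le_mul_of_nonneg_left (f2.trans (mul_le_mul_of_nonneg_left (add_le_add
    (hT1.trans f4) (mul_le_mul_of_nonneg_right f3 (sq_nonneg η))) (sq_nonneg Cg)))
    (by positivity : 0 ≤ κ * σ ^ 2)
  have f6 : κ * σ ^ 2 * (Cg ^ 2 * (Cc / σ ^ 2 * D.J 0 (4 * σ) + 16 * η ^ 2)) =
      ξ * D.J 0 (4 * σ) + 16 * κ * Cg ^ 2 * η ^ 2 * σ ^ 2 := by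
    rw [← hκe]
    field_simp
  have f7 : (2 * β + 2 * (2 * η)) ^ 2 ≤ 32 * (η ^ 2 + β ^ 2) := by
    linarith [sq_nonneg (2 * β - η), sq_nonneg β, sq_nonneg η]
  have f8 := mul_le_mul_of_nonneg_left f7 (by positivity : 0 ≤ 16 * (Ck * M) * σ ^ 2)
  have f9 : 0 ≤ (16 * κ * Cg ^ 2 + 16) * β ^ 2 * σ ^ 2 := by positivity
  rw [← hη2]
  refine (hJ1.trans (f1.trans hp)).trans ?_
  rw [f6] at f5
  linarith

end Pool.Agent.Lib.MP_8daebb_an.SV
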