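import Pool.Agent.Lib.MP_8daebb_an.SV.Df2
import Pool.Agent.Lib.MP_8daebb_an.SV.Base
import Pool.Agent.Lib.MP_8daebb_an.SV.Ker2

/-! Elementary comparisons of the radial quantities. -/

open MeasureTheory Metric Filter Topology Set
open scoped RealInnerProductSpace ENNReal ContDiff

namespace Pool.Agent.Lib.MP_8daebb_an.SV

variable {α : Type*} [MeasurableSpace α] {H : Type*} [NormedAddCommGroup H]
  [InnerProductSpace ℝ H] [FiniteDimensional ℝ H] [MeasurableSpace H] [BorelSpace H]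

theorem low_hb {r σ : ℝ} (hr : 0 < r) (hσr : σ ≤ r) {u : ℂ} (hu : ‖u‖ < σ) :
    1 - σ / r ≤ max (1 - ‖u‖ ^ 2 / r ^ 2) 0 := by
  refine le_trans ?_ (le_max_left _ _)
  have h0 := norm_nonneg u
  have h1 : ‖u‖ ^ 2 / r ^ 2 ≤ σ / r := by
    rw [div_le_div_iff₀ (by positivity) hr]
    have h2 : ‖u‖ * ‖u‖ ≤ σ * r := mul_le_mul hu.le (hu.le.trans hσr) h0 (h0.trans hu.le)
    nlinarith
  linarith

theorem om_mono_hb {r r' : ℝ} (hr' : 0 < r') (h : r' ≤ r) (u : ℂ) : om r' u ≤ om r u := by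
  unfold om
  have h1 : ‖u‖ ^ 2 / r ^ 2 ≤ ‖u‖ ^ 2 / r' ^ 2 := by gcongr
  have h2 : max (1 - ‖u‖ ^ 2 / r' ^ 2) 0 ≤ max (1 - ‖u‖ ^ 2 / r ^ 2) 0 :=
    max_le_max (by linarith) le_rfl
  have h3 := pow_le_pow_left₀ (le_max_right _ _) h2 2
  linarith

theorem CV.w_mem_hb {D : CD α H} {R δ M : ℝ} (h : CV D 0 R δ M) (hδ : δ ≤ 1 / 2) {u : ℂ}
    (hu : u ∈ ball (0 : ℂ) R) : 1 / 2 ≤ D.w u ∧ D.w u ≤ 3 / 2 := by
  have := abs_le.1 (h.w_le u hu).1
  constructor <;> linarith [this.1, this.2]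

theorem CV.int_om_hb {D : CD α H} {R δ M : ℝ} (h : CV D 0 R δ M) {r : ℝ} (hr : 0 < r) :
    Integrable (fun a => om r (D.x a) * ‖D.y a‖ ^ 2) D.m := by
  obtain ⟨-, c2, -, c4, -⟩ := chi_props hr
  refine h.integrable_t.2.2.1.bdd_mul (c := 3)
    (c2.continuous.measurable.comp h.m_x).aestronglyMeasurable (Eventually.of_forall fun a => ?_)
  rw [Real.norm_of_nonneg (c4 _).1]
  exact (c4 _).2

theorem CV.int_chi_hb {D : CD α H} {R δ M : ℝ} (h : CV D 0 R δ M) (hδ : δ ≤ 1 / 2) {r : ℝ}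
    (hr : 0 < r) : Integrable (fun a => chi r (D.x a) * D.w (D.x a) * D.t a) D.m := by
  obtain ⟨c1, -, c3, -⟩ := chi_props hr
  refine h.integrable_t.1.bdd_mul (c := 3 / 2)
    ((c1.continuous.measurable.comp h.m_x).mul (h.m_w.comp h.m_x)).aestronglyMeasurable ?_
  filter_upwards [h.car] with a ha
  obtain ⟨h1, h2⟩ := h.w_mem_hb hδ ha
  obtain ⟨h3, h4⟩ := c3 (D.x a)
  rw [Real.norm_of_nonneg (by positivity)]
  nlinarith

theorem hh_basic {D : CD α H} {R δ M : ℝ} (h : CV D 0 R δ M) (hδ : δ ≤ 1 / 2) {r : ℝ}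
    (hr : 0 < r) : 0 ≤ D.hh r ∧ 0 ≤ D.dr r ∧ r ^ 2 * D.hh r ≤ 3 * D.J 0 r ∧
      D.dr r ≤ 2 * D.T 0 r ∧ (∀ r', 0 < r' → r' ≤ r → r' ^ 2 * D.hh r' ≤ r ^ 2 * D.hh r) ∧
      ∀ σ, 0 < σ → σ ≤ r → (1 - σ / r) ^ 2 * D.J 0 σ ≤ r ^ 2 * D.hh r ∧
        (1 - σ / r) ^ 3 * D.T 0 σ ≤ 2 * D.dr r := by
  obtain ⟨-, -, c3, c4, -, c6, -⟩ := chi_props hr
  have iy := h.integrable_t.2.2.1
  have it := h.integrable_t.1
  have e1 : ∀ r : ℝ, 0 < r → r ^ 2 * D.hh r = ∫ a, om r (D.x a) * ‖D.y a‖ ^ 2 ∂D.m := by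
    intro r hr
    rw [CD.hh, ← mul_assoc, mul_inv_cancel₀ (by positivity), one_mul]
  have eJ : ∀ k σ : ℝ, k * D.J 0 σ =
      ∫ a, k * (D.cyl 0 σ).indicator (fun a => ‖D.y a‖ ^ 2) a ∂D.m := by
    intro k σ
    rw [integral_const_mul, integral_indicator (h.meas_cyl 0 σ), CD.J]
  have eT : ∀ k σ : ℝ, k * D.T 0 σ = ∫ a, k * (D.cyl 0 σ).indicator D.t a ∂D.m := by
    intro k σ
    rw [integral_const_mul, integral_indicator (h.meas_cyl 0 σ), CD.T]
  have iJ : ∀ k σ : ℝ,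
      Integrable (fun a => k * (D.cyl 0 σ).indicator (fun a => ‖D.y a‖ ^ 2) a) D.m :=
    fun k σ => (iy.indicator (h.meas_cyl 0 σ)).const_mul k
  have iT : ∀ k σ : ℝ, Integrable (fun a => k * (D.cyl 0 σ).indicator D.t a) D.m :=
    fun k σ => (it.indicator (h.meas_cyl 0 σ)).const_mul k
  have mem : ∀ (σ : ℝ) (a : α), a ∈ D.cyl 0 σ ↔ ‖D.x a‖ < σ := by
    intro σ a
    simp [CD.cyl]
  refine ⟨?_, ?_, ?_, ?_, fun r' hr' hle => ?_, fun σ hσ hle => ⟨?_, ?_⟩⟩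
  · exact mul_nonneg (by positivity)
      (integral_nonneg fun a => mul_nonneg (c4 _).1 (by positivity))
  · refine integral_nonneg_of_ae ?_
    filter_upwards [h.car, h.ae_G] with a ha hG
    have h1 := (h.w_mem_hb hδ ha).1
    exact mul_nonneg (mul_nonneg (c3 _).1 (by linarith)) (h.pw a hG).t_nonneg
  · rw [e1 r hr, eJ]
    refine integral_mono (h.int_om_hb hr) (iJ _ _) fun a => ?_
    by_cases ha : a ∈ D.cyl 0 r
    · simp only [indicator_of_mem ha]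
      exact mul_le_mul_of_nonneg_right (c4 _).2 (by positivity)
    · simp only [indicator_of_notMem ha]
      rw [(c6 _ (not_lt.1 ((mem r a).not.1 ha))).2.1]
      simp
  · rw [eT, CD.dr]
    refine integral_mono_ae (h.int_chi_hb hδ hr) (iT _ _) ?_
    filter_upwards [h.car, h.ae_G] with a hb hG
    by_cases ha : a ∈ D.cyl 0 r
    · simp only [indicator_of_mem ha]
      obtain ⟨h1, h2⟩ := h.w_mem_hb hδ hb
      obtain ⟨h3, h4⟩ := c3 (D.x a)
      exact mul_le_mul_of_nonneg_right (by nlinarith) (h.pw a hG).t_nonneg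
    · simp only [indicator_of_notMem ha]
      rw [(c6 _ (not_lt.1 ((mem r a).not.1 ha))).1]
      simp
  · rw [e1 r hr, e1 r' hr']
    exact integral_mono (h.int_om_hb hr') (h.int_om_hb hr) fun a =>
      mul_le_mul_of_nonneg_right (om_mono_hb hr' hle _) (by positivity)
  · rw [e1 r hr, eJ]
    refine integral_mono (iJ _ _) (h.int_om_hb hr) fun a => ?_
    by_cases ha : a ∈ D.cyl 0 σ
    · simp only [indicator_of_mem ha]
      refine mul_le_mul_of_nonneg_right ?_ (by positivity)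
      have h0 : 0 ≤ 1 - σ / r := by
        rw [sub_nonneg, div_le_one hr]
        exact hle
      have h1 := pow_le_pow_left₀ h0 (low_hb hr hle ((mem σ a).1 ha)) 2
      have h2 := sq_nonneg (max (1 - ‖D.x a‖ ^ 2 / r ^ 2) 0)
      unfold om
      linarith
    · simp only [indicator_of_notMem ha, mul_zero]
      exact mul_nonneg (c4 _).1 (by positivity)
  · rw [eT, CD.dr, ← integral_const_mul]
    refine integral_mono_ae (iT _ _) ((h.int_chi_hb hδ hr).const_mul 2) ?_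
    filter_upwards [h.car, h.ae_G] with a hb hG
    obtain ⟨h1, h2⟩ := h.w_mem_hb hδ hb
    have ht := (h.pw a hG).t_nonneg
    have hc := (c3 (D.x a)).1
    by_cases ha : a ∈ D.cyl 0 σ
    · simp only [indicator_of_mem ha]
      have h0 : 0 ≤ 1 - σ / r := by
        rw [sub_nonneg, div_le_one hr]
        exact hle
      have h3 : (1 - σ / r) ^ 3 ≤ chi r (D.x a) :=
        pow_le_pow_left₀ h0 (low_hb hr hle ((mem σ a).1 ha)) 3
      rw [← mul_assoc]
      refine mul_le_mul_of_nonneg_right ?_ ht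
      nlinarith
    · simp only [indicator_of_notMem ha, mul_zero]
      exact mul_nonneg (by norm_num) (mul_nonneg (mul_nonneg hc (by linarith)) ht)

end Pool.Agent.Lib.MP_8daebb_an.SV
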