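import Pool.Agent.Lib.MP_8daebb_an.SV.DecA
import Pool.Agent.Lib.MP_8daebb_an.SV.HB

/-! Fast decay of the height function. -/

open MeasureTheory Metric Filter Topology Set
open scoped RealInnerProductSpace ENNReal ContDiff

namespace Pool.Agent.Lib.MP_8daebb_an.SV

variable {α : Type*} [MeasurableSpace α] {H : Type*} [NormedAddCommGroup H]
  [InnerProductSpace ℝ H] [FiniteDimensional ℝ H] [MeasurableSpace H] [BorelSpace H]

theorem dec_iter (M : ℝ) {CI : ℝ} (hCI : 0 ≤ CI) (Q : ℕ) : ∃ δ₀ : ℝ, 0 < δ₀ ∧ ∀ k : ℝ, 0 ≤ k →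
    ∃ εB : ℝ, 0 < εB ∧ ∃ c : ℝ, 0 < c ∧ ∃ C : ℝ, 0 < C ∧
    ∀ (D : CD α H) (R δ s ρ γ ϱ r β : ℝ) (N : ℂ → ℕ), MS D R δ M s ρ CI Q N → δ ≤ δ₀ → ρ ≤ γ →
    γ ≤ 1 → 1 + Real.log (ρ / (s ^ 2 * γ)) ≤ 1 / γ → ρ ≤ c * γ ^ 2 * ϱ → ϱ ≤ r → r ≤ R →
    (∀ σ, ϱ ≤ σ → σ ≤ r → D.bad Q σ ≤ εB * σ ^ 2) → (∀ v : ℂ, ‖v‖ ≤ r → ‖D.av ρ D.y v‖ ≤ β) →
    D.hh ϱ ≤ C * Real.exp (-(k * Real.log (r / ϱ))) * D.hh r + C * (s ^ 4 * γ ^ 2 + β ^ 2) := by
  obtain ⟨δ₀, hδ₀, hstep⟩ := dec_step (α := α) (H := H) M hCI Q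
  refine ⟨min δ₀ (1 / 2), by positivity, fun k hk => ?_⟩
  have hl4 : 0 < Real.log 4 := Real.log_pos (by norm_num)
  set θ := Real.exp (-(k * Real.log 4)) with hθ
  have hθ0 : 0 < θ := Real.exp_pos _
  have hθ1 : θ ≤ 1 := Real.exp_le_one_iff.2 (neg_nonpos.2 (by positivity))
  obtain ⟨εB, hεB, c, hc, C, hC, hst⟩ := hstep (θ / 32) (by positivity)
  set A := Real.exp (2 * (k * Real.log 4)) with hA
  have hA0 : 0 < A := Real.exp_pos _
  refine ⟨εB / 16, by positivity, c, hc, 768 * A + 6 * C, by positivity,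
    fun D R δ s ρ γ ϱ r β N hMS hδ hργ hγ hlog hρ hϱr hrR hbad hav => ?_⟩
  have hρ0 := hMS.sm.ρ_pos
  have hcγ : 0 ≤ c * γ ^ 2 := by positivity
  have hϱ : 0 < ϱ := by
    by_contra h0
    exact absurd (hρ.trans (mul_nonpos_of_nonneg_of_nonpos hcγ (not_lt.1 h0))) (not_le.2 hρ0)
  have hr : 0 < r := hϱ.trans_le hϱr
  have hδ2 : δ ≤ 1 / 2 := hδ.trans (min_le_right _ _)
  set E := s ^ 4 * γ ^ 2 + β ^ 2 with hE
  have hE0 : 0 ≤ E := by positivity
  have hJ0 : ∀ σ, 0 ≤ D.J 0 σ := fun σ => integral_nonneg fun a => by positivity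
  obtain ⟨b1, -, -, -, b5, b6⟩ := hh_basic hMS.cv hδ2 hr
  obtain ⟨-, -, a3, -, -, -⟩ := hh_basic hMS.cv hδ2 hϱ
  have hiter : ∀ n : ℕ, ∀ σ, ϱ ≤ σ → 4 ^ n * σ ≤ r / 2 →
      D.J 0 σ / σ ^ 2 ≤ θ ^ n * (D.J 0 (4 ^ n * σ) / (4 ^ n * σ) ^ 2) + 2 * C * E := by
    intro n
    induction n with
    | zero =>
      intro σ _ _
      simp only [pow_zero, one_mul]
      have : 0 ≤ 2 * C * E := by positivity
      linarith
    | succ n ih =>
      intro σ h1 h2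
      have hσ : 0 < σ := hϱ.trans_le h1
      have e : (4 : ℝ) ^ (n + 1) * σ = 4 ^ n * (4 * σ) := by ring
      rw [e] at h2 ⊢
      have h3 : 4 * σ ≤ r / 2 :=
        (le_mul_of_one_le_left (by positivity) (one_le_pow₀ (by norm_num))).trans h2
      have h4 := ih (4 * σ) (by linarith) h2
      have h5 := hst D R δ s ρ γ σ β N hMS (hδ.trans (min_le_left _ _)) hργ hγ hlog
        (hρ.trans (mul_le_mul_of_nonneg_left h1 hcγ)) (by linarith)
        ((hbad (4 * σ) (by linarith) (by linarith)).trans_eq (by ring))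
        fun v hv => hav v (by linarith)
      have h6 : D.J 0 σ / σ ^ 2 ≤ θ / 2 * (D.J 0 (4 * σ) / (4 * σ) ^ 2) + C * E := by
        rw [div_le_iff₀ (by positivity)]
        refine h5.trans_eq ?_
        field_simp
        ring
      set X := D.J 0 (4 ^ n * (4 * σ)) / (4 ^ n * (4 * σ)) ^ 2
      have hX : 0 ≤ X := div_nonneg (hJ0 _) (by positivity)
      have h7 : 0 ≤ θ * (θ ^ n * X) := by positivity
      have h8 : θ * (C * E) ≤ C * E := mul_le_of_le_one_left (by positivity) hθ1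
      calc _ ≤ _ := h6
        _ ≤ θ / 2 * (θ ^ n * X + 2 * C * E) + C * E := by gcongr
        _ = θ * (θ ^ n * X) / 2 + θ * (C * E) + C * E := by ring
        _ ≤ θ * (θ ^ n * X) + 2 * C * E := by linarith
        _ = _ := by ring
  set W := Real.exp (-(k * Real.log (r / ϱ))) with hW
  have hW0 : 0 < W := Real.exp_pos _
  have hpow : ∀ n : ℕ, r / ϱ ≤ 4 ^ (n + 2) → θ ^ n ≤ A * W := fun n hn => by
    have h1 : Real.log (r / ϱ) ≤ ((n : ℝ) + 2) * Real.log 4 := by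
      have := Real.log_le_log (by positivity) hn
      rwa [Real.log_pow, Nat.cast_add, Nat.cast_ofNat] at this
    rw [hθ, hA, hW, ← Real.exp_nat_mul, ← Real.exp_add]
    apply Real.exp_le_exp.2
    linarith [mul_le_mul_of_nonneg_left h1 hk]
  have hfin : D.hh ϱ ≤ 768 * (A * W) * D.hh r + 6 * C * E := by
    have hCE : 0 ≤ C * E := by positivity
    rcases le_or_gt ϱ (r / 2) with h1 | h1
    · obtain ⟨n, hn1, hn2⟩ := exists_nat_pow_near (x := r / 2 / ϱ) (y := (4 : ℝ))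
        ((one_le_div hϱ).2 h1) (by norm_num)
      rw [le_div_iff₀ hϱ] at hn1
      rw [div_lt_iff₀ hϱ] at hn2
      have h2 := hiter n ϱ le_rfl hn1
      set σ := 4 ^ n * ϱ with hσ
      have hσ0 : 0 < σ := by positivity
      have h3 : r ≤ 8 * σ := by
        have : (4 : ℝ) ^ (n + 1) * ϱ = 4 * σ := by rw [hσ]; ring
        linarith
      have h4 := hpow n (by
        rw [div_le_iff₀ hϱ]
        have : (4 : ℝ) ^ (n + 2) * ϱ = 16 * σ := by rw [hσ]; ring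
        linarith)
      have h5 := (b6 σ hσ0 (by linarith)).1
      have h6 : (1 / 2 : ℝ) ≤ 1 - σ / r := by
        have : σ / r ≤ 1 / 2 := by rw [div_le_iff₀ hr]; linarith
        linarith
      have h7 : D.J 0 σ / σ ^ 2 ≤ 256 * D.hh r := by
        rw [div_le_iff₀ (by positivity)]
        have h8 : (1 / 2 : ℝ) ^ 2 * D.J 0 σ ≤ (1 - σ / r) ^ 2 * D.J 0 σ := by
          have := hJ0 σ
          gcongr
        have h9 : r ^ 2 * D.hh r ≤ (8 * σ) ^ 2 * D.hh r := by gcongr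
        linarith
      have h10 : D.hh ϱ ≤ 3 * (D.J 0 ϱ / ϱ ^ 2) := by
        rw [← mul_div_assoc, le_div_iff₀ (by positivity)]
        linarith
      have h11 : θ ^ n * (D.J 0 σ / σ ^ 2) ≤ A * W * (256 * D.hh r) :=
        mul_le_mul h4 h7 (div_nonneg (hJ0 _) (by positivity)) (by positivity)
      linarith
    · have h2 := hpow 0 (by rw [div_le_iff₀ hϱ]; norm_num; linarith)
      rw [pow_zero] at h2
      have h3 := b5 ϱ hϱ hϱr
      have h4 : r ^ 2 * D.hh r ≤ (2 * ϱ) ^ 2 * D.hh r := by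
        gcongr
        linarith
      have h5 : D.hh ϱ ≤ 4 * D.hh r := by
        refine le_of_mul_le_mul_left ?_ (pow_pos hϱ 2)
        linarith
      linarith [mul_le_mul_of_nonneg_right h2 b1]
  have h1 : 0 ≤ C * (W * D.hh r) := by positivity
  have h2 : 0 ≤ A * E := by positivity
  linarith

end Pool.Agent.Lib.MP_8daebb_an.SV
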