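import Pool.Agent.Lib.MP_8daebb_an.SV.CV

/-! Further definitions used inside the proof. -/

open MeasureTheory Metric Filter Topology Set
open scoped RealInnerProductSpace ENNReal ContDiff

namespace Pool.Agent.Lib.MP_8daebb_an.SV

variable {α : Type*} [MeasurableSpace α] {H : Type*} [NormedAddCommGroup H]
  [InnerProductSpace ℝ H] [FiniteDimensional ℝ H] [MeasurableSpace H] [BorelSpace H]

/-- The gradient of a real function of the plane, as a complex number. -/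
noncomputable def grad (v : ℂ → ℝ) (u : ℂ) : ℂ :=
  (fderiv ℝ v u 1 : ℝ) + (fderiv ℝ v u Complex.I : ℝ) * Complex.I

/-- The Laplacian. -/
noncomputable def lap (v : ℂ → ℝ) (u : ℂ) : ℝ :=
  fderiv ℝ (fderiv ℝ v) u 1 1 + fderiv ℝ (fderiv ℝ v) u Complex.I Complex.I

/-- The antilinear part of a real linear map of the plane. -/
noncomputable def dzb (A : ℂ →L[ℝ] ℂ) : ℂ := (A 1 + Complex.I * A Complex.I) / 2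

/-- The pairing of the traceless part of `p ⊗ p`, given by `ζ = p^2`, with a linear map. -/
noncomputable def hp (A : ℂ →L[ℝ] ℂ) (ζ : ℂ) : ℝ := (dzb A * (starRingEnd ℂ) ζ).re

/-- The weight `(1 - |u|^2/r^2)_+^3`. -/
noncomputable def chi (r : ℝ) (u : ℂ) : ℝ := (max (1 - ‖u‖ ^ 2 / r ^ 2) 0) ^ 3

/-- The weight `3 (1 - |u|^2/r^2)_+^2`. -/
noncomputable def om (r : ℝ) (u : ℂ) : ℝ := 3 * (max (1 - ‖u‖ ^ 2 / r ^ 2) 0) ^ 2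

namespace CD

/-- The height in direction `e`. -/
noncomputable def z (D : CD α H) (e : H) (a : α) : ℝ := ⟪D.y a, e⟫

/-- The slope of the height in direction `e`. -/
noncomputable def p (D : CD α H) (e : H) (a : α) : ℂ :=
  (⟪D.b a 1, e⟫ : ℝ) + (⟪D.b a Complex.I, e⟫ : ℝ) * Complex.I

/-- The defect in direction `e`. -/
noncomputable def dd (D : CD α H) (e : H) (a : α) : ℝ :=
  (1 + ‖D.y a‖) * ⟪D.g a e, e⟫ - ‖D.p e a‖ ^ 2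

/-- The two-point functional. -/
noncomputable def two (D : CD α H) (e : H) (ρ Δ : ℝ) (u : ℂ) : ℝ :=
  ∫ a, ∫ a', kr ρ (u - D.x a) * kr ρ (u - D.x a') * (1 + ((D.z e a - D.z e a') / Δ) ^ 2)⁻¹ *
    (‖D.p e a - D.p e a'‖ ^ 2 + D.dd e a + D.dd e a') ∂D.m ∂D.m

/-- Squared height in a cylinder. -/
noncomputable def J (D : CD α H) (c : ℂ) (σ : ℝ) : ℝ := ∫ a in D.cyl c σ, ‖D.y a‖ ^ 2 ∂D.m

/-- The height function. -/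
noncomputable def hh (D : CD α H) (r : ℝ) : ℝ := (r ^ 2)⁻¹ * ∫ a, om r (D.x a) * ‖D.y a‖ ^ 2 ∂D.m

/-- The tilt function. -/
noncomputable def dr (D : CD α H) (r : ℝ) : ℝ := ∫ a, chi r (D.x a) * D.w (D.x a) * D.t a ∂D.m

/-- The mass excess function. -/
noncomputable def EE (D : CD α H) (Q : ℕ) (r : ℝ) : ℝ :=
  (∫ a, chi r (D.x a) * D.w (D.x a) ∂D.m) - Q * ∫ u, chi r u * D.w u

/-- Mass over `ball 0 σ` of the points of density below `Q - 1/3`. -/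
noncomputable def bad (D : CD α H) (Q : ℕ) (σ : ℝ) : ℝ :=
  D.m.real {a | a ∈ D.cyl 0 σ ∧ ¬D.Den ((Q - 1 / 3) * Real.pi) a}

end CD

/-- Groups of heights at the point `u`. -/
structure Grp (D : CD α H) (e : H) (ρ η : ℝ) (u : ℂ) (Q : ℕ) (ε : ℝ) (Cs : Finset ℝ) (wd : ℝ)
    (Qc : ℝ → ℕ) : Prop where
  wd_pos : 0 < wd
  cover : ∀ᵐ a ∂D.m, a ∈ D.cyl u ρ → ∃ c ∈ Cs, |D.z e a - c| ≤ wd
  gap : ∀ c ∈ Cs, ∀ c' ∈ Cs, c ≠ c' → 2 * wd + 4 * η ≤ |c - c'|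
  one_le : ∀ c ∈ Cs, 1 ≤ Qc c
  sum : ∑ c ∈ Cs, Qc c = Q
  mass : ∀ c ∈ Cs,
    |D.av ρ (fun a => if |D.z e a - c| ≤ wd then (1 : ℝ) else 0) u - Qc c| ≤ ε

/-- The family of coarse-grained sums of top sheets in direction `e`. -/
structure UF (D : CD α H) (e : H) (R s ρ η : ℝ) (Q : ℕ) (C : ℝ) (U : ℕ → ℂ → ℝ) (f : ℝ → ℝ)
    (lv : ℕ → ℂ → ℝ) : Prop where
  zero : U 0 = 0
  smooth : ∀ j, ContDiff ℝ 2 (U j)
  f_cont : Continuous f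
  f_mem : ∀ r, 0 ≤ f r ∧ f r ≤ 1
  f_zero : ∀ r, r ≤ -η → f r = 0
  f_one : ∀ r, η ≤ r → f r = 1
  size : ∀ j ≤ Q, ∀ u : ℂ, ‖u‖ + 9 * ρ ≤ R → |U j u| ≤ C * s ^ 2
  sub : ∀ j ≤ Q, ∀ u : ℂ, ‖u‖ + 9 * ρ ≤ R →
    -(C * (s ^ 2 + D.av ρ (fun a => √(D.en a)) u)) ≤ lap (U j) u
  gr : ∀ j ≤ Q, ∀ u : ℂ, ‖u‖ + 9 * ρ ≤ R →
    ‖grad (U j) u - D.av ρ (fun a => f (D.z e a - lv j u) • D.p e a) u‖ ≤ C * s ^ 3
  lev : ∀ j ≤ Q, ∀ u : ℂ, ‖u‖ + 9 * ρ ≤ R →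
    |D.av ρ (fun a => f (D.z e a - lv j u)) u - j| ≤ C * s ^ 2

/-- Nested families of discs with fields that are translations of the identity on the discs. -/
structure Tower (B : ℕ → Finset (ℂ × ℝ)) (Y : ℕ → ℂ → ℂ) (ρ ϑ : ℝ) (n : ℕ) : Prop where
  pos : ∀ a, ∀ b ∈ B a, 0 < b.2
  disj : ∀ a, ∀ b ∈ B a, ∀ b' ∈ B a, b ≠ b' → Disjoint (ball b.1 b.2) (ball b'.1 b'.2)
  nest : ∀ a, ∀ b ∈ B a, ∃ b' ∈ B (a + 1), ‖b.1 - b'.1‖ + b.2 + 4 * ρ ≤ b'.2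
  rad : ∀ a ≤ n + 2, ∑ b ∈ B a, b.2 ≤ ϑ
  smooth : ∀ a, ContDiff ℝ 1 (Y a)
  lip : ∀ a u, ‖fderiv ℝ (Y a) u‖ ≤ 3
  ident : ∀ a, ∀ b ∈ B a, ∀ u ∈ ball b.1 b.2, fderiv ℝ (Y a) u = ContinuousLinearMap.id ℝ ℂ
  off : ∀ a u, (∀ b ∈ B (a + 1), u ∉ ball b.1 b.2) → Y a u = 0 ∧ fderiv ℝ (Y a) u = 0
  size : ∀ a ≤ n, ∀ u, ‖Y a u‖ ≤ 3 * ϑ
  ker : ∀ a a', a < a' → ∀ u v : ℂ, (¬∃ b ∈ B a', u ∈ ball b.1 b.2 ∧ v ∈ ball b.1 b.2) →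
    ‖Y a u - Y a v‖ ≤ 16 * (1 / 2) ^ (a' - a) * ‖u - v‖

/-- A cutoff: one on `closedBall 0 r`, zero off `ball 0 (r + l)`. -/
structure Cut (κ : ℂ → ℝ) (r l C : ℝ) : Prop where
  smooth : ContDiff ℝ 2 κ
  mem : ∀ u, 0 ≤ κ u ∧ κ u ≤ 1
  one : ∀ u : ℂ, ‖u‖ ≤ r + l / 4 → κ u = 1
  zero : ∀ u : ℂ, r + 3 * l / 4 ≤ ‖u‖ → κ u = 0
  d1 : ∀ u, ‖fderiv ℝ κ u‖ ≤ C / l
  d2 : ∀ u, ‖fderiv ℝ (fderiv ℝ κ) u‖ ≤ C / l ^ 2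

/-- The small parameter `exp (-k L)`. -/
noncomputable def ux (L k : ℝ) : ℝ := Real.exp (-(k * L))

/-- The hypotheses of one stage in a fixed chart. Here `u = exp (-L)`, `ρ = u^b`, `s = u^(10 b)`,
`A = 40 b + 12`. -/
structure Stg (D : CD α H) (R δ M CI : ℝ) (Q : ℕ) (N : ℂ → ℕ) (b L r K B : ℝ) : Prop where
  ms : MS D R δ M (ux L (10 * b)) (ux L b) CI Q N
  r_add : r + 8 * ux L 2 ≤ R
  r_le : r ≤ 1
  r_ge : 16 * K * ux L 1 ≤ r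
  h_ge : ux L (40 * b + 13) ≤ D.hh r
  h_le : D.hh r ≤ ux L (40 * b + 12)
  freq : 2 * D.EE Q r ≤ B * D.hh r
  avg : ∀ v : ℂ, ‖v‖ ≤ r → ‖D.av (ux L b) D.y v‖ ≤ ux L (20 * b + 30)

/-- The state at the beginning of a stage. -/
structure State {C : Type*} (Adm : C → ℝ → ℝ → Prop) (ch : C → ℝ → CD α H) (ε₁ : ℝ) (Q : ℕ)
    (b K B L r : ℝ) (c : C) (R : ℝ) : Prop where
  adm : Adm c (3 * ε₁ - ux L 1) R
  R_le : R ≤ 2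
  R_ge : r * (1 + 1 / K) ≤ R
  r_le : r ≤ 1
  r_ge : 16 * K * ux L 1 ≤ r
  h_ge : ux L (40 * b + 13) ≤ (ch c R).hh r
  h_le : (ch c R).hh r ≤ ux L (40 * b + 12)
  en_le : ∫ a, (ch c R).en a ∂(ch c R).m ≤ ux L (40 * b + 6)
  freq : 2 * (ch c R).EE Q r ≤ B * (ch c R).hh r
  avg : ∀ v : ℂ, ‖v‖ ≤ r → ‖(ch c R).av (ux L b) (ch c R).y v‖ ≤ ux L (20 * b + 30)

end Pool.Agent.Lib.MP_8daebb_an.SV
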