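import Pool.Agent.Lib.MP_8daebb_an.SV.MsOf

/-! From a state to the hypotheses of a stage. -/

open MeasureTheory Metric Filter Topology Set
open scoped RealInnerProductSpace ENNReal ContDiff

namespace Pool.Agent.Lib.MP_8daebb_an.SV

variable {α : Type*} [MeasurableSpace α] {H : Type*} [NormedAddCommGroup H]
  [InnerProductSpace ℝ H] [FiniteDimensional ℝ H] [MeasurableSpace H] [BorelSpace H]

theorem state_stg {C : Type*} (M θ : ℝ) {CI δg ρg : ℝ} (hCI : 0 ≤ CI) (hδg : 0 < δg)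
    (hρg : 0 < ρg) (hG : GlobOK α H M CI δg ρg) : ∃ δ₀ : ℝ, 0 < δ₀ ∧ ∀ b cN : ℝ, 3 ≤ b → 0 < cN →
    ∃ L₀ : ℝ, ∀ (Adm : C → ℝ → ℝ → Prop) (ch : C → ℝ → CD α H) (δ ε₁ εB δ₂ CN : ℝ),
    Sys Adm ch M θ δ ε₁ εB δ₂ CI ⌊θ + 1 / 2⌋₊ CN cN → δ ≤ δ₀ →
    ∀ (K B L r : ℝ) (c : C) (R : ℝ), L₀ ≤ L → 1 ≤ K →
    State Adm ch ε₁ ⌊θ + 1 / 2⌋₊ b K B L r c R →
    (∃ N, Stg ((ch c R).resB 0 (R - 2 * ux L 2)) (R - 2 * ux L 2) δ M CI ⌊θ + 1 / 2⌋₊ N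
      b L r K B) ∧
    (∀ σ, ux L 2 ≤ σ → σ ≤ r →
      ((ch c R).resB 0 (R - 2 * ux L 2)).bad ⌊θ + 1 / 2⌋₊ σ ≤ εB * σ ^ 2) ∧
    (∀ σ, ux L 2 ≤ σ → σ ≤ r →
      (∀ᵐ a ∂(ch c R).m, a ∈ (ch c R).cyl 0 σ → ‖(ch c R).y a‖ ≤ cN * σ) ∧
      ((ch c R).resB 0 (R - 2 * ux L 2)).bad ⌊θ + 1 / 2⌋₊ σ ≤ (ch c R).m.real
        {a | a ∈ (ch c R).cyl 0 σ ∧ ¬(ch c R).Den ((θ - 1 / 50) * Real.pi) a}) ∧
    ∀ B' r', Out ((ch c R).resB 0 (R - 2 * ux L 2)) b L r K B' r' →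
      Out (ch c R) b L r K B' r' := by
  have _ := hδg
  obtain ⟨ρ₀, hρ₀, hms⟩ := ms_of_sm (C := C) M θ hCI hρg hG
  obtain ⟨δ₁, hδ₁, hsm⟩ := sm_of_en (α := α) (H := H) M
  refine ⟨min δ₁ (min δg (1 / 2)), lt_min hδ₁ (lt_min hδg (by norm_num)), fun b cN hb hcN => ?_⟩
  obtain ⟨L₁, hL₁⟩ := hsm b (by linarith)
  refine ⟨max L₁ (max 0 (-Real.log (min ρ₀ cN))), ?_⟩
  intro Adm ch δ ε₁ εB δ₂ CN hS hδ K B L r c R hL hK hSt
  have hδa : δ ≤ δ₁ := hδ.trans (min_le_left _ _)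
  have hδb : δ ≤ δg := hδ.trans ((min_le_right _ _).trans (min_le_left _ _))
  have hδc : δ ≤ 1 / 2 := hδ.trans ((min_le_right _ _).trans (min_le_right _ _))
  have hLa : L₁ ≤ L := (le_max_left _ _).trans hL
  have hL0 : 0 ≤ L := ((le_max_left _ _).trans (le_max_right _ _)).trans hL
  have hLc : -Real.log (min ρ₀ cN) ≤ L := ((le_max_right _ _).trans (le_max_right _ _)).trans hL
  have hmono : ∀ k k' : ℝ, k ≤ k' → ux L k' ≤ ux L k := fun k k' h =>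
    Real.exp_le_exp.2 (neg_le_neg (mul_le_mul_of_nonneg_right h hL0))
  have hpos : ∀ k : ℝ, 0 < ux L k := fun k => Real.exp_pos _
  have hu : ux L 1 ≤ min ρ₀ cN := by
    have h0 : 0 < min ρ₀ cN := lt_min hρ₀ hcN
    rw [← Real.exp_log h0]
    exact Real.exp_le_exp.2 (by linarith)
  have hu1 := hpos 1
  have hu2 := hpos 2
  have h21 : ux L 2 ≤ ux L 1 := hmono _ _ (by norm_num)
  have hb2 : ux L b ≤ ux L 2 := hmono _ _ (by linarith)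
  have hK0 : 0 < K := by linarith
  have hr16 : 16 * ux L 1 ≤ r := by
    have := hSt.r_ge
    nlinarith
  have hr0 : 0 < r := by linarith
  have hrK : 16 * ux L 1 ≤ r / K := by
    rw [le_div_iff₀ hK0]
    have := hSt.r_ge
    linarith
  have hR : r + 16 * ux L 1 ≤ R := by
    have h1 := hSt.R_ge
    have h2 : r * (1 + 1 / K) = r + r / K := by ring
    linarith
  have hR0 : 0 < R := by linarith
  have hε : 3 * ε₁ - ux L 1 ≤ 3 * ε₁ := by linarith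
  have hcv : CV (ch c R) 0 R δ M := hS.cv c _ R hSt.adm hε hR0 hSt.R_le
  have hEn : (ch c R).En 0 R ≤ ux L (40 * b + 6) := by
    have h1 := (hcv.resB_eq hδc (R₁ := R) hR0 le_rfl 0).2.2.2.2.2.2.2.2
    rw [hcv.resB_self] at h1
    rw [← h1]
    exact hSt.en_le
  have hSm := hL₁ (ch c R) R δ L R hcv hδa hLa hR0 le_rfl hEn
  obtain ⟨⟨N, hN⟩, hrest⟩ := hms Adm ch δ ε₁ εB δ₂ CI _ CN cN hS hδb hδc c _ R (R - 2 * ux L 2)
    _ _ hSt.adm hε hSt.R_le (by linarith) hSm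
    (by linarith [min_le_left ρ₀ cN]) (by linarith [min_le_right ρ₀ cN]) (by linarith)
  have hr1 : r ≤ R - 2 * ux L 2 := by linarith
  have heq := fun (x : ℝ) (h0 : 0 < x) (h1 : x ≤ r) =>
    hcv.resB_eq hδc (R₁ := R - 2 * ux L 2) h0 (h1.trans hr1) ⌊θ + 1 / 2⌋₊
  have h3 : ∀ σ, ux L 2 ≤ σ → σ ≤ r →
      (∀ᵐ a ∂(ch c R).m, a ∈ (ch c R).cyl 0 σ → ‖(ch c R).y a‖ ≤ cN * σ) ∧
      ((ch c R).resB 0 (R - 2 * ux L 2)).bad ⌊θ + 1 / 2⌋₊ σ ≤ (ch c R).m.real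
        {a | a ∈ (ch c R).cyl 0 σ ∧ ¬(ch c R).Den ((θ - 1 / 50) * Real.pi) a} :=
    fun σ h0 h1 => hrest σ (hb2.trans h0) (h1.trans hr1)
  refine ⟨⟨N, hN, by linarith, hSt.r_le, hSt.r_ge, ?_, ?_, ?_, ?_⟩, ?_, h3, ?_⟩
  · rw [(heq r hr0 le_rfl).1]; exact hSt.h_ge
  · rw [(heq r hr0 le_rfl).1]; exact hSt.h_le
  · rw [(heq r hr0 le_rfl).1, (heq r hr0 le_rfl).2.2.1]; exact hSt.freq
  · intro v hv
    have := av_resB hcv.m_x (c := 0) (u := v) (R₁ := R - 2 * ux L 2) (hpos b)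
      (by rw [sub_zero]; linarith) (ch c R).y
    exact le_of_eq_of_le (congrArg norm this) (hSt.avg v hv)
  · intro σ h0 h1
    exact (h3 σ h0 h1).2.trans (hS.bad c _ R σ hSt.adm hε hSt.R_le (by linarith) (by linarith)
      (h1.trans hSt.r_le) (h3 σ h0 h1).1)
  · intro B' r' hO
    have hr' : 0 < r' := lt_of_lt_of_le (mul_pos hr0 (hpos _)) hO.lo
    have hK2 : 0 < 2 / K := by positivity
    have hK3 : 0 < 3 / (2 * K) := by positivity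
    have hK4 : 3 / (2 * K) ≤ 2 / K := by
      rw [div_le_div_iff₀ (by positivity) hK0]; linarith
    have hr'r : r' ≤ r := by nlinarith [hO.hi']
    have hx : r' * (1 + 3 / (2 * K)) ≤ r := by nlinarith [hO.hi']
    refine ⟨hO.lo, hO.hi, hO.hi', ?_, ?_, ?_, ?_⟩
    · rw [← (heq r' hr' hr'r).1]; exact hO.h_eq
    · intro ϱ h0 h1
      rw [← (heq ϱ (by linarith) h1).1]; exact hO.h_ge ϱ h0 h1
    · rw [← (heq r' hr' hr'r).1, ← (heq r' hr' hr'r).2.1]; exact hO.d_le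
    · rw [← (heq _ (by positivity) hx).2.2.2.1]; exact hO.en_le

end Pool.Agent.Lib.MP_8daebb_an.SV
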