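import Pool.Agent.Lib.MP_8daebb_an.SV.DecB

/-! The contradiction at small radii. -/

open MeasureTheory Metric Filter Topology Set
open scoped RealInnerProductSpace ENNReal ContDiff

namespace Pool.Agent.Lib.MP_8daebb_an.SV

variable {α : Type*} [MeasurableSpace α] {H : Type*} [NormedAddCommGroup H]
  [InnerProductSpace ℝ H] [FiniteDimensional ℝ H] [MeasurableSpace H] [BorelSpace H]

theorem stage_z (M : ℝ) {CI : ℝ} (hCI : 0 ≤ CI) (Q : ℕ) : ∃ b₀ δ₀ : ℝ, 0 < δ₀ ∧
    ∀ b K, b₀ ≤ b → 1 ≤ K → ∃ η L₁ : ℝ, 0 < η ∧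
    ∀ (D : CD α H) (R δ L r B B' r' : ℝ) (N : ℂ → ℕ), δ ≤ δ₀ → L₁ ≤ L →
    Stg D R δ M CI Q N b L r K B → (∀ σ, ux L 2 ≤ σ → σ ≤ r → D.bad Q σ ≤ η * σ ^ 2) →
    Out D b L r K B' r' → False := by
  obtain ⟨δ₀, hδ₀, hdec⟩ := dec_iter (α := α) (H := H) M hCI Q
  refine ⟨23, δ₀, hδ₀, fun b K hb hK => ?_⟩
  obtain ⟨εB, hεB, c, hc, C, hC, hmain⟩ := hdec (36 * K) (by positivity)
  refine ⟨εB, b + 1 + 1 / c + 3 * C, hεB, ?_⟩
  intro D R δ L r B B' r' N hδ hL hS hbad hO
  have hc' : 0 < 1 / c := by positivity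
  have hK0 : 0 < K := by linarith
  have hL1 : b + 1 ≤ L := by linarith
  have hL0 : 0 < L := by linarith
  have hLc : 1 / c ≤ L := by linarith
  have hLC : 3 * C ≤ L := by linarith
  have uxpos : ∀ k, 0 < ux L k := fun k => Real.exp_pos _
  have uxadd : ∀ k k', ux L (k + k') = ux L k * ux L k' := fun k k' => by
    simp only [ux]
    rw [← Real.exp_add]
    congr 1
    ring
  have uxmono : ∀ k k', k ≤ k' → ux L k' ≤ ux L k := fun k k' h => by
    simp only [ux]
    exact Real.exp_le_exp.2 (by nlinarith)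
  have ux0 : ux L 0 = 1 := by simp [ux]
  have uxL : ux L 1 * L < 1 := by
    have h1 : L + 1 ≤ Real.exp L := Real.add_one_le_exp L
    have h2 : ux L 1 * Real.exp L = 1 := by
      simp only [ux]
      rw [← Real.exp_add]
      simp
    nlinarith [uxpos 1]
  have hr0 : 0 < r := lt_of_lt_of_le (by have := uxpos 1; positivity) hS.r_ge
  set e := Real.exp (-(L / (6 * K))) with he
  have he0 : 0 < e := Real.exp_pos _
  have hLK : 0 ≤ L / (6 * K) := by positivity
  have he1 : e ≤ 1 := Real.exp_le_one_iff.2 (by linarith)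
  have he2 : ux L 1 ≤ e := by
    simp only [ux]
    apply Real.exp_le_exp.2
    have : L / (6 * K) ≤ L := div_le_self hL0.le (by linarith)
    linarith
  have hϱr : r * e ≤ r := by nlinarith
  have hϱ2 : ux L 2 ≤ r * e := by
    have h1 : ux L 2 = ux L 1 * ux L 1 := by rw [← uxadd]; norm_num
    have h2 : ux L 1 ≤ r := by have := hS.r_ge; nlinarith [uxpos 1]
    rw [h1]
    exact mul_le_mul h2 he2 (uxpos 1).le hr0.le
  have hrR : r ≤ R := by have := hS.r_add; have := uxpos 2; linarith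
  have hγ1 : ux L 10 ≤ 1 := by rw [← ux0]; exact uxmono 0 10 (by norm_num)
  have hlog : 1 + Real.log (ux L b / (ux L (10 * b) ^ 2 * ux L 10)) ≤ 1 / ux L 10 := by
    have h1 : ux L b / (ux L (10 * b) ^ 2 * ux L 10) = Real.exp ((19 * b + 10) * L) := by
      simp only [ux]
      rw [← Real.exp_nat_mul, ← Real.exp_add, ← Real.exp_sub]
      congr 1
      push_cast
      ring
    have h2 : 1 / ux L 10 = Real.exp (10 * L) := by
      simp only [ux]
      rw [Real.exp_neg, one_div, inv_inv]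
    rw [h1, h2, Real.log_exp]
    have h3 := Real.quadratic_le_exp_of_nonneg (x := 10 * L) (by positivity)
    nlinarith
  have hρc : ux L b ≤ c * ux L 10 ^ 2 * (r * e) := by
    have h1 : ux L 1 ≤ c := by
      have : ux L 1 * (1 / c) < 1 := lt_of_le_of_lt (by gcongr; exact (uxpos 1).le) uxL
      rw [mul_one_div, div_lt_one hc] at this
      exact this.le
    have h2 : ux L 23 = ux L 1 * ux L 10 ^ 2 * ux L 2 := by
      rw [sq, ← uxadd, ← uxadd, ← uxadd]; norm_num
    calc ux L b ≤ ux L 23 := uxmono _ _ hb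
      _ = ux L 1 * ux L 10 ^ 2 * ux L 2 := h2
      _ ≤ c * ux L 10 ^ 2 * (r * e) := by
        have := uxpos 10
        have := uxpos 2
        gcongr
  have key := hmain D R δ (ux L (10 * b)) (ux L b) (ux L 10) (r * e) r (ux L (20 * b + 30)) N
    hS.ms hδ (uxmono _ _ (by linarith)) hγ1 hlog hρc hϱr hrR
    (fun σ h1 h2 => hbad σ (hϱ2.trans h1) h2) hS.avg
  have hexp : Real.exp (-(36 * K * Real.log (r / (r * e)))) = ux L 6 := by
    have h1 : r / (r * e) = Real.exp (L / (6 * K)) := by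
      rw [he, Real.exp_neg]
      field_simp
    rw [h1, Real.log_exp]
    simp only [ux]
    congr 1
    field_simp
    ring
  rw [hexp] at key
  have hlow := hO.h_ge (r * e) hO.hi hϱr
  have t1 : ux L 6 * D.hh r ≤ ux L (40 * b + 15) := by
    calc ux L 6 * D.hh r ≤ ux L 6 * ux L (40 * b + 12) := by
          have := uxpos 6
          gcongr
          exact hS.h_le
      _ = ux L (6 + (40 * b + 12)) := (uxadd _ _).symm
      _ ≤ _ := uxmono _ _ (by linarith)
  have t2 : ux L (10 * b) ^ 4 * ux L 10 ^ 2 ≤ ux L (40 * b + 15) := by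
    have : ux L (10 * b) ^ 4 * ux L 10 ^ 2 = ux L (40 * b + 20) := by
      simp only [ux]
      rw [← Real.exp_nat_mul, ← Real.exp_nat_mul, ← Real.exp_add]
      congr 1
      push_cast
      ring
    rw [this]
    exact uxmono _ _ (by linarith)
  have t3 : ux L (20 * b + 30) ^ 2 ≤ ux L (40 * b + 15) := by
    rw [sq, ← uxadd]
    exact uxmono _ _ (by linarith)
  have t4 : ux L (40 * b + 15) = ux L (40 * b + 14) * ux L 1 := by
    rw [← uxadd]
    congr 1
    ring
  have t5 : ux L 1 * (3 * C) < 1 := lt_of_le_of_lt (by gcongr; exact (uxpos 1).le) uxL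
  have t6 : D.hh (r * e) ≤ 3 * C * ux L (40 * b + 15) := by
    have a1 := mul_le_mul_of_nonneg_left t1 hC.le
    have a2 := mul_le_mul_of_nonneg_left (add_le_add t2 t3) hC.le
    nlinarith
  rw [t4] at t6
  have t7 := mul_lt_mul_of_pos_left t5 (uxpos (40 * b + 14))
  nlinarith

end Pool.Agent.Lib.MP_8daebb_an.SV
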