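import Pool.Agent.Lib.MP_8daebb_an.SV.Cacc
import Pool.Agent.Lib.MP_8daebb_an.SV.Clus
import Pool.Agent.Lib.MP_8daebb_an.SV.Base2

/-! Choice of the starting radius. -/

open MeasureTheory Metric Filter Topology Set
open scoped RealInnerProductSpace ENNReal ContDiff

namespace Pool.Agent.Lib.MP_8daebb_an.SV

variable {α : Type*} [MeasurableSpace α] {H : Type*} [NormedAddCommGroup H]
  [InnerProductSpace ℝ H] [FiniteDimensional ℝ H] [MeasurableSpace H] [BorelSpace H]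

theorem CV.En_mono_starta {D : CD α H} {c : ℂ} {R δ M : ℝ} (h : CV D c R δ M) (u : ℂ) {σ σ' : ℝ}
    (hσ : σ ≤ σ') : D.En u σ ≤ D.En u σ' := by
  refine setIntegral_mono_set h.integrable_t.2.2.2.1.integrableOn (ae_restrict_of_ae ?_)
    (cyl_mono_base2 D u hσ).eventuallyLE
  filter_upwards [h.ae_G] with a ha
  exact add_nonneg (h.pw a ha).t_nonneg (sq_nonneg _)

theorem CV.J_le_starta {D : CD α H} {c : ℂ} {R δ M : ℝ} (h : CV D c R δ M) (hδ : δ ≤ 1) (u : ℂ)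
    (σ : ℝ) : D.J u σ ≤ 9 * M * δ ^ 2 := by
  have := h.fin
  refine (setIntegral_le_integral h.integrable_t.2.2.1
    (Eventually.of_forall fun a => sq_nonneg _)).trans ?_
  calc ∫ a, ‖D.y a‖ ^ 2 ∂D.m ≤ ∫ _, δ ^ 2 ∂D.m := by
        refine integral_mono_ae h.integrable_t.2.2.1 (integrable_const _) ?_
        filter_upwards [h.ae_G] with a ha
        exact pow_le_pow_left₀ (norm_nonneg _) (h.pw a ha).y_le 2
    _ ≤ _ := by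
        rw [integral_const, smul_eq_mul]
        exact mul_le_mul_of_nonneg_right (h.mass_le hδ) (sq_nonneg _)

theorem start_a {C : Type*} (M : ℝ) {p F₁ : ℝ} (hp : 1 ≤ p) (hF : 0 < F₁) : ∃ δ₂ : ℝ, 0 < δ₂ ∧
    ∀ (Adm : C → ℝ → ℝ → Prop) (ch : C → ℝ → CD α H) (θ δ ε₁ εB CI : ℝ) (Q : ℕ) (CN cN : ℝ),
    Sys Adm ch M θ δ ε₁ εB δ₂ CI Q CN cN → 0 < ε₁ →
    (∃ η > 0, ∀ c R, 1 / 2 ≤ R → R ≤ 2 → Adm c (2 * ε₁) R → η < (ch c R).En 0 (1 / 2)) →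
    ∃ (r F : ℝ) (c₁ : C) (R₁ : ℝ), 1 / 2 ≤ r ∧ r ≤ 3 / 4 ∧ 0 < F ∧ F ≤ F₁ ∧
      Adm c₁ (ε₁ * (2 - r - F)) R₁ ∧ r + F ≤ R₁ ∧ R₁ ≤ 2 ∧
      (ch c₁ R₁).En 0 (r + F) ≤ 2 * (2 * F) ^ p ∧
      ∀ c R, r ≤ R → R ≤ 2 → Adm c (ε₁ * (2 - r)) R → F ^ p ≤ (ch c R).En 0 r := by
  obtain ⟨K, hK, hc⟩ := cacc (α := α) (H := H)
  have hp0 : 0 < p := by linarith
  have hm : 0 < min (1 / 8) F₁ := lt_min (by norm_num) hF
  have hmp : 0 < min (1 / 8) F₁ ^ p := Real.rpow_pos_of_pos hm p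
  have hL : 0 < (K + 1) * (9 * |M|) + 1 := by positivity
  obtain ⟨δ₂, h0, h1, h2⟩ : ∃ δ₂ : ℝ, 0 < δ₂ ∧ δ₂ ≤ 1 / 10 ∧
      ((K + 1) * (9 * |M|) + 1) * δ₂ ≤ min (1 / 8) F₁ ^ p :=
    ⟨min (1 / 10) (min (1 / 8) F₁ ^ p / ((K + 1) * (9 * |M|) + 1)),
      lt_min (by norm_num) (div_pos hmp hL), min_le_left _ _,
      (le_div_iff₀' hL).1 (min_le_right _ _)⟩
  refine ⟨δ₂, h0, fun Adm ch θ δ ε₁ εB CI Q CN cN hS hε ⟨η, hη, hlow⟩ => ?_⟩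
  obtain ⟨c₀, a0, cv0⟩ := hS.flat
  let S : ℝ → Set ℝ := fun x =>
    {e | ∃ c R, x ≤ R ∧ R ≤ 2 ∧ Adm c (ε₁ * (2 - x)) R ∧ (ch c R).En 0 x = e}
  have hmem : ∀ x ∈ Icc (1 / 2 : ℝ) 1, (ch c₀ 2).En 0 x ∈ S x := fun x hx =>
    ⟨c₀, 2, by linarith [hx.2], le_rfl,
      hS.adm_mono _ _ _ _ a0 (mul_nonneg hε.le (by linarith [hx.2])), rfl⟩
  have hcv : ∀ x ∈ Icc (1 / 2 : ℝ) 1, ∀ c R, x ≤ R → R ≤ 2 → Adm c (ε₁ * (2 - x)) R →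
      CV (ch c R) 0 R δ M := fun x hx c R b1 b2 b3 =>
    hS.cv c _ R b3 (by nlinarith [hx.1]) (by linarith [hx.1]) b2
  have hlb : ∀ x ∈ Icc (1 / 2 : ℝ) 1, η ∈ lowerBounds (S x) := by
    rintro x hx _ ⟨c, R, b1, b2, b3, rfl⟩
    exact (hlow c R (hx.1.trans b1) b2 (hS.adm_mono _ _ _ _ b3 (by nlinarith [hx.1]))).le.trans
      ((hcv x hx c R b1 b2 b3).En_mono_starta 0 hx.1)
  have hpos : ∀ x ∈ Icc (1 / 2 : ℝ) 1, 0 < sInf (S x) := fun x hx =>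
    hη.trans_le (le_csInf ⟨_, hmem x hx⟩ (hlb x hx))
  have hmono : MonotoneOn (fun x => sInf (S x) ^ p⁻¹) (Icc (1 / 2) 1) := by
    intro x hx x' hx' hxx
    refine Real.rpow_le_rpow (hpos x hx).le (le_csInf ⟨_, hmem x' hx'⟩ ?_) (inv_pos.2 hp0).le
    rintro _ ⟨c, R, b1, b2, b3, rfl⟩
    exact (csInf_le ⟨η, hlb x hx⟩ ⟨c, R, hxx.trans b1, b2, hS.adm_mono _ _ _ _ b3
      (mul_le_mul_of_nonneg_left (by linarith) hε.le), rfl⟩).trans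
      ((hcv x' hx' c R b1 b2 b3).En_mono_starta 0 hxx)
  have i1 : (1 : ℝ) ∈ Icc (1 / 2 : ℝ) 1 := ⟨by norm_num, le_rfl⟩
  have hone : sInf (S 1) ^ p⁻¹ ≤ min (1 / 8) F₁ := by
    rw [Real.rpow_inv_le_iff_of_pos (hpos 1 i1).le hm.le hp0]
    refine (csInf_le ⟨η, hlb 1 i1⟩ (hmem 1 i1)).trans (le_trans ?_ h2)
    have e : (ch c₀ 2).En 0 1 = (ch c₀ 2).T 0 1 + (ch c₀ 2).J 0 1 :=
      integral_add cv0.integrable_t.1.integrableOn cv0.integrable_t.2.2.1.integrableOn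
    have b1 := hc _ _ _ _ _ cv0 h1 0 1 1 zero_le_one one_pos (by norm_num)
    have b2 : ∀ σ, (ch c₀ 2).J 0 σ ≤ 9 * |M| * δ₂ := fun σ =>
      (cv0.J_le_starta (by linarith) 0 σ).trans (mul_le_mul (by linarith [le_abs_self M])
        (by nlinarith) (sq_nonneg _) (by positivity))
    have b3 := mul_le_mul_of_nonneg_left (b2 (1 + 1)) hK.le
    rw [one_pow, div_one] at b1
    linarith [b2 1]
  obtain ⟨r, r1, r2, r3⟩ := doubling hmono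
    (Real.rpow_pos_of_pos (hpos _ ⟨le_rfl, by norm_num⟩) _) (hone.trans (min_le_left _ _))
  have ir : r ∈ Icc (1 / 2 : ℝ) 1 := ⟨r1, by linarith⟩
  have f0 : 0 < sInf (S r) ^ p⁻¹ := Real.rpow_pos_of_pos (hpos r ir) _
  have f1 : sInf (S r) ^ p⁻¹ ≤ min (1 / 8) F₁ := (hmono ir i1 ir.2).trans hone
  have f2 := Real.rpow_inv_rpow (hpos r ir).le hp0.ne'
  generalize sInf (S r) ^ p⁻¹ = F at r3 f0 f1 f2
  have iF : r + F ∈ Icc (1 / 2 : ℝ) 1 := ⟨by linarith, by linarith [min_le_left (1 / 8) F₁]⟩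
  rw [Real.rpow_inv_le_iff_of_pos (hpos _ iF).le (by linarith) hp0] at r3
  have f3 : 0 < (2 * F) ^ p := Real.rpow_pos_of_pos (by linarith) p
  obtain ⟨_, ⟨c, R, b1, b2, b3, rfl⟩, b4⟩ :=
    exists_lt_of_csInf_lt ⟨_, hmem _ iF⟩ (by linarith : sInf (S (r + F)) < 2 * (2 * F) ^ p)
  refine ⟨r, F, c, R, r1, r2, f0, f1.trans (min_le_right _ _), by rwa [sub_sub], b1, b2, b4.le,
    fun c' R' d1 d2 d3 => ?_⟩
  rw [f2]
  exact csInf_le ⟨η, hlb r ir⟩ ⟨c', R', d1, d2, d3, rfl⟩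

end Pool.Agent.Lib.MP_8daebb_an.SV
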