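import Pool.Agent.Lib.MP_8daebb_an.SV.Df2
import Pool.Agent.Lib.MP_8daebb_an.SV.Id
import Pool.Agent.Lib.MP_8daebb_an.SV.Id2
import Pool.Agent.Lib.MP_8daebb_an.SV.Ker2
import Pool.Agent.Lib.MP_8daebb_an.SV.Base3
import Pool.Agent.Lib.MP_8daebb_an.SV.IBP

/-! The derivative of the mass excess. -/

open MeasureTheory Metric Filter Topology Set
open scoped RealInnerProductSpace ENNReal ContDiff

namespace Pool.Agent.Lib.MP_8daebb_an.SV

variable {α : Type*} [MeasurableSpace α] {H : Type*} [NormedAddCommGroup H]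
  [InnerProductSpace ℝ H] [FiniteDimensional ℝ H] [MeasurableSpace H] [BorelSpace H]

theorem chi_deriv_key2 (u : ℂ) {ϱ : ℝ} (hϱ : 0 < ϱ) :
    HasDerivAt (fun ϱ => chi ϱ u) (2 / ϱ ^ 3 * om ϱ u * ‖u‖ ^ 2) ϱ := by
  have h1 : HasDerivAt (fun ϱ : ℝ => 1 - ‖u‖ ^ 2 / ϱ ^ 2) (2 * ‖u‖ ^ 2 / ϱ ^ 3) ϱ := by
    have h := ((hasDerivAt_const ϱ (‖u‖ ^ 2)).div (hasDerivAt_pow 2 ϱ)
      (pow_ne_zero 2 hϱ.ne')).const_sub 1
    refine h.congr_deriv ?_
    field_simp
    simp
    ring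
  have h2 := (pow_ker2 1 (1 - ‖u‖ ^ 2 / ϱ ^ 2)).comp ϱ h1
  refine h2.congr_deriv ?_
  simp only [om]
  push_cast
  ring

theorem int_deriv_key2 {β : Type*} [MeasurableSpace β] (μ : Measure β) {X : β → ℂ}
    (hX : Measurable X) {g : β → ℝ} (hg : Measurable g) {r R : ℝ} (hr : 0 < r) (hR : r < R)
    (hi : Integrable ({b | ‖X b‖ < R}.indicator g) μ) :
    HasDerivAt (fun ϱ => ∫ b, chi ϱ (X b) * g b ∂μ)
      (∫ b, 2 / r ^ 3 * om r (X b) * ‖X b‖ ^ 2 * g b ∂μ) r := by
  have hm : ∀ ϱ, 0 < ϱ → AEStronglyMeasurable (fun b => chi ϱ (X b) * g b) μ := fun ϱ hϱ =>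
    (((chi_props hϱ).1.continuous.measurable.comp hX).mul hg).aestronglyMeasurable
  refine (hasDerivAt_integral_of_dominated_loc_of_deriv_le (s := Ioo (r / 2) R)
    (F := fun ϱ b => chi ϱ (X b) * g b)
    (F' := fun ϱ b => 2 / ϱ ^ 3 * om ϱ (X b) * ‖X b‖ ^ 2 * g b)
    (bound := fun b => 12 / r * ‖{b | ‖X b‖ < R}.indicator g b‖)
    (Ioo_mem_nhds (by linarith) hR) ((eventually_gt_nhds hr).mono hm) ?_ ?_ ?_
    (hi.norm.const_mul _) ?_).2
  · refine hi.norm.mono' (hm r hr) (Eventually.of_forall fun b => ?_)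
    obtain ⟨-, -, c1, -, -, c2, -⟩ := chi_props hr
    by_cases hb : ‖X b‖ < R
    · rw [indicator_of_mem (show b ∈ {b | ‖X b‖ < R} from hb), norm_mul,
        Real.norm_of_nonneg (c1 _).1]
      exact mul_le_of_le_one_left (norm_nonneg _) (c1 _).2
    · rw [(c2 _ (by linarith [not_lt.1 hb])).1, zero_mul, norm_zero]
      exact norm_nonneg _
  · exact (((measurable_const.mul ((chi_props hr).2.1.continuous.measurable.comp hX)).mul
      (hX.norm.pow_const 2)).mul hg).aestronglyMeasurable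
  · refine Eventually.of_forall fun b ϱ hϱ => ?_
    have h0 : 0 < ϱ := by linarith [hϱ.1]
    obtain ⟨-, -, -, c1, -, c2, -⟩ := chi_props h0
    rcases le_or_gt ϱ ‖X b‖ with hb | hb
    · rw [(c2 _ hb).2.1, mul_zero, zero_mul, zero_mul, norm_zero]
      positivity
    · rw [indicator_of_mem (show b ∈ {b | ‖X b‖ < R} from hb.trans hϱ.2), norm_mul]
      refine mul_le_mul_of_nonneg_right ?_ (norm_nonneg _)
      have c3 := c1 (X b)
      rw [Real.norm_of_nonneg (by have := c3.1; positivity)]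
      calc 2 / ϱ ^ 3 * om ϱ (X b) * ‖X b‖ ^ 2 ≤ 2 / ϱ ^ 3 * 3 * ϱ ^ 2 := by
            gcongr
            exact c3.2
        _ = 6 / ϱ := by field_simp; norm_num
        _ ≤ 6 / (r / 2) := by gcongr; exact hϱ.1.le
        _ = 12 / r := by field_simp; norm_num
  · exact Eventually.of_forall fun b ϱ hϱ =>
      (chi_deriv_key2 (X b) (by linarith [hϱ.1])).mul_const (g b)

theorem mul_c1_key2 {κ w : ℂ → ℝ} {r R : ℝ} (hκ : ContDiff ℝ 1 κ)
    (h0 : ∀ u, r ≤ ‖u‖ → κ u = 0) (hR : r < R) (hw : ContDiffOn ℝ 1 w (ball 0 R)) :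
    ContDiff ℝ 1 (fun u => κ u * w u) ∧ HasCompactSupport (fun u => κ u * w u) ∧
      ∀ u : ℂ, r < ‖u‖ → fderiv ℝ (fun u => κ u * w u) u = 0 := by
  have hz : ∀ u : ℂ, r < ‖u‖ → (fun u => κ u * w u) =ᶠ[𝓝 u] fun _ => (0 : ℝ) := fun u hu => by
    have ho : IsOpen {v : ℂ | r < ‖v‖} := isOpen_lt continuous_const continuous_norm
    filter_upwards [ho.mem_nhds hu] with v hv
    rw [h0 v (le_of_lt hv), zero_mul]
  refine ⟨contDiff_iff_contDiffAt.2 fun u => ?_,
    HasCompactSupport.intro (isCompact_closedBall 0 r) fun u hu => ?_, fun u hu => ?_⟩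
  · rcases lt_or_ge ‖u‖ R with hu | hu
    · exact hκ.contDiffAt.mul (hw.contDiffAt (isOpen_ball.mem_nhds (mem_ball_zero_iff.2 hu)))
    · exact contDiffAt_const.congr_of_eventuallyEq (hz u (hR.trans_le hu))
  · rw [h0 u (le_of_lt (by simpa using hu)), zero_mul]
  · rw [(hz u hu).fderiv_eq]
    simp

theorem alg_key2 {c o W t Y j r δ g1 g2 e : ℝ} (hc : 0 ≤ c) (hco : 3 * c ≤ o) (hW : 1 / 2 ≤ W)
    (hW' : W ≤ 3 / 2) (ht : 0 ≤ t) (ht2 : t ≤ 2) (hY : 0 ≤ Y) (hr : 0 < r) (hr2 : r ≤ 2)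
    (hδ : δ ≤ 1 / 2) (hj : |2 - t - 2 * j| ≤ t ^ 2 + δ * Y) (h1 : |g1| ≤ c * r / 2)
    (h2 : |g2| ≤ c * r * t) (he : |c * e| ≤ c * r * (t + Y) / 2) :
    0 ≤ g1 * (1 - j) - g2 + W * (c * e) + 4 * r * (c * W * t) + 4 * r * ((r ^ 2)⁻¹ * (o * Y)) := by
  have a1 : |1 - j| ≤ 3 / 2 * t + Y / 4 := by
    have b1 : t ^ 2 ≤ 2 * t := by nlinarith
    have b2 : δ * Y ≤ 1 / 2 * Y := mul_le_mul_of_nonneg_right hδ hY
    obtain ⟨b3, b4⟩ := abs_le.1 hj
    exact abs_le.2 ⟨by linarith, by linarith⟩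
  have a2 : |g1 * (1 - j)| ≤ c * r / 2 * (3 / 2 * t + Y / 4) := by
    rw [abs_mul]
    exact mul_le_mul h1 a1 (abs_nonneg _) (by positivity)
  have a3 : |W * (c * e)| ≤ W * (c * r * (t + Y) / 2) := by
    rw [abs_mul, abs_of_nonneg (by linarith)]
    exact mul_le_mul_of_nonneg_left he (by linarith)
  have a4 : 1 / 2 * (c * r * t) ≤ W * (c * r * t) := mul_le_mul_of_nonneg_right hW (by positivity)
  have a5 : W * (c * r * Y) ≤ 3 / 2 * (c * r * Y) := mul_le_mul_of_nonneg_right hW' (by positivity)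
  have a6 : 1 / 4 ≤ (r ^ 2)⁻¹ := by
    rw [one_div]
    exact inv_anti₀ (by positivity) (by nlinarith)
  have a7 : 1 / 4 * (3 * c * Y) ≤ (r ^ 2)⁻¹ * (o * Y) :=
    mul_le_mul a6 (mul_le_mul_of_nonneg_right hco hY) (by positivity) (by positivity)
  have a8 : r * (1 / 4 * (3 * c * Y)) ≤ r * ((r ^ 2)⁻¹ * (o * Y)) :=
    mul_le_mul_of_nonneg_left a7 hr.le
  have a9 : 0 ≤ c * r * Y := by positivity
  obtain ⟨b1, -⟩ := abs_le.1 a2
  obtain ⟨-, b2⟩ := abs_le.1 h2
  obtain ⟨b3, -⟩ := abs_le.1 a3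
  nlinarith

theorem key_two (M : ℝ) {CI : ℝ} (hCI : 0 ≤ CI) (Q : ℕ) : ∃ C : ℝ, 0 < C ∧
    ∀ (D : CD α H) (R δ s ρ r : ℝ) (N : ℂ → ℕ), MS D R δ M s ρ CI Q N → δ ≤ 1 / 2 →
    ρ ≤ 1 / 2 → 0 < r → r + 9 * ρ ≤ R →
    ∃ E' : ℝ, HasDerivAt (D.EE Q) E' r ∧
      2 * D.EE Q r - D.dr r + D.RR r - C * r * (D.dr r + D.hh r) - C * ρ * s ^ 4 ≤ r * E' := by
  refine ⟨4 + 3456 * CI, by positivity, fun D R δ s ρ r N hS hδ hρ hr hR => ?_⟩
  have h := hS.cv
  have hfin := h.fin
  have hρ0 := hS.sm.ρ_pos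
  have hrR : r < R := by linarith
  have hr2 : r ≤ 2 := hrR.le.trans h.R_le
  have hδ0 := h.δ_nonneg
  obtain ⟨c1, o1, cb, ob, co, cz, cd, -, cl⟩ := chi_props hr
  have hw : ∀ u ∈ ball (0 : ℂ) R, 1 / 2 ≤ D.w u ∧ D.w u ≤ 3 / 2 := fun u hu => by
    obtain ⟨b1, b2⟩ := abs_le.1 (h.w_le u hu).1
    exact ⟨by linarith, by linarith⟩
  have hcr : ∀ u : ℂ, chi r u * ‖u‖ ≤ chi r u * r := fun u => by
    rcases le_total r ‖u‖ with hu | hu
    · rw [(cz u hu).1, zero_mul, zero_mul]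
    · exact mul_le_mul_of_nonneg_left hu (cb u).1
  obtain ⟨p1, p2, p3⟩ := mul_c1_key2 c1 (fun u hu => (cz u hu).1) hrR h.w_diff
  obtain ⟨q1, q2, -⟩ := mul_c1_key2 o1 (fun u hu => (cz u hu).2.1) hrR h.w_diff
  set φ : ℂ → ℝ := fun u => chi r u * D.w u with hφ
  set ϖ : ℂ → ℝ := fun u => om r u * D.w u with hϖ
  have pc : Continuous φ := p1.continuous
  have pd : Continuous (fderiv ℝ φ) := p1.continuous_fderiv one_ne_zero
  have qc : Continuous ϖ := q1.continuous
  have oc : Continuous (om r) := o1.continuous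
  have hD : ∀ u v : ℂ, fderiv ℝ φ u v =
      chi r u * fderiv ℝ D.w u v - 2 / r ^ 2 * ϖ u * ⟪u, v⟫ := fun u v => by
    rcases lt_or_ge ‖u‖ R with hu | hu
    · have d1 : DifferentiableAt ℝ D.w u :=
        (h.w_diff.contDiffAt (isOpen_ball.mem_nhds (mem_ball_zero_iff.2 hu))).differentiableAt
          one_ne_zero
      rw [hφ, fderiv_fun_mul (c1.differentiable one_ne_zero u) d1]
      simp only [add_apply, smul_apply, smul_eq_mul, cd, hϖ]
      ring
    · have hu' : r ≤ ‖u‖ := hrR.le.trans hu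
      rw [p3 u (hrR.trans_le hu), (cz u hu').1, hϖ]
      simp [(cz u hu').2.1]
  have hG : ∀ u v : ℂ, |chi r u * fderiv ℝ D.w u v| ≤ chi r u * ‖v‖ / 2 := fun u v => by
    rcases le_or_gt r ‖u‖ with hu | hu
    · simp [(cz u hu).1]
    · rw [abs_mul, abs_of_nonneg (cb u).1, mul_div_assoc]
      refine mul_le_mul_of_nonneg_left ?_ (cb u).1
      have b1 := (fderiv ℝ D.w u).le_opNorm v
      have b2 := (h.w_le u (mem_ball_zero_iff.2 (hu.trans hrR))).2
      have b3 : ‖fderiv ℝ D.w u‖ * ‖v‖ ≤ 1 / 2 * ‖v‖ :=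
        mul_le_mul_of_nonneg_right (b2.trans hδ) (norm_nonneg _)
      rw [Real.norm_eq_abs] at b1
      linarith
  set f : ℂ → ℝ := fun u => chi r u * fderiv ℝ D.w u u with hf
  have hf1 : f = fun u => fderiv ℝ φ u u + 2 / r ^ 2 * ϖ u * ‖u‖ ^ 2 := funext fun u => by
    rw [hD, real_inner_self_eq_norm_sq]
    ring
  have fc : Continuous f := by
    rw [hf1]
    fun_prop
  have fb : ∀ u, |f u| ≤ chi r u * r / 2 := fun u => (hG u u).trans (by linarith [hcr u])
  have fs : HasCompactSupport f :=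
    HasCompactSupport.intro (isCompact_closedBall 0 r) fun u hu => by
      rw [hf]
      simp only
      rw [(cz u (le_of_lt (by simpa using hu))).1, zero_mul]
  have fi : Integrable f := fc.integrable_of_hasCompactSupport fs
  have pi : Integrable φ := pc.integrable_of_hasCompactSupport p2
  -- the derivative
  have e1 := int_deriv_key2 D.m h.m_x (h.m_w.comp h.m_x) hr hrR
    (h.integrable ((h.m_w.comp h.m_x).indicator
      (measurableSet_lt h.m_x.norm measurable_const)).aestronglyMeasurable (3 / 2)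
      fun a _ ha => by
        rw [indicator_of_mem (show a ∈ {b | ‖D.x b‖ < R} from mem_ball_zero_iff.1 ha),
          Function.comp_apply, Real.norm_of_nonneg (by linarith [(hw _ ha).1])]
        exact (hw _ ha).2)
  have hball : {b : ℂ | ‖id b‖ < R} = ball 0 R := by
    ext b
    simp
  have e2 := int_deriv_key2 (volume : Measure ℂ) measurable_id h.m_w hr hrR (by
    rw [hball, integrable_indicator_iff measurableSet_ball]
    refine Measure.integrableOn_of_bounded measure_ball_lt_top.ne h.m_w.aestronglyMeasurable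
      (M := 3 / 2) ?_
    filter_upwards [ae_restrict_mem measurableSet_ball] with u hu
    rw [Real.norm_of_nonneg (by linarith [(hw _ hu).1])]
    exact (hw _ hu).2)
  refine ⟨_, e1.sub (e2.const_mul (Q : ℝ)), ?_⟩
  have r1 : r * ∫ a, 2 / r ^ 3 * om r (D.x a) * ‖D.x a‖ ^ 2 * (D.w ∘ D.x) a ∂D.m =
      ∫ a, 2 / r ^ 2 * ϖ (D.x a) * ‖D.x a‖ ^ 2 ∂D.m := by
    rw [← integral_const_mul]
    refine integral_congr_ae (Eventually.of_forall fun a => ?_)
    simp only [hϖ, Function.comp_apply]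
    field_simp
  have r2 : r * ∫ u : ℂ, 2 / r ^ 3 * om r (id u) * ‖id u‖ ^ 2 * D.w u =
      ∫ u : ℂ, 2 / r ^ 2 * ϖ u * ‖u‖ ^ 2 := by
    rw [← integral_const_mul]
    refine integral_congr_ae (Eventually.of_forall fun a => ?_)
    simp only [hϖ, id]
    field_simp
  -- the planar identity
  have pl : ∫ u : ℂ, 2 / r ^ 2 * ϖ u * ‖u‖ ^ 2 = 2 * (∫ u, φ u) + ∫ u, f u := by
    obtain ⟨i1, z1⟩ := integral_tr2_zero (W := φ • (id : ℂ → ℂ)) (p1.smul contDiff_id) p2.smul_right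
    have k1 : ∀ u : ℂ, 2 / r ^ 2 * ϖ u * ‖u‖ ^ 2 =
        2 * φ u + f u - tr2 (fderiv ℝ (φ • (id : ℂ → ℂ)) u) := fun u => by
      rw [tr2_smul (p1.differentiable one_ne_zero u) differentiableAt_id, fderiv_id, hf1,
        show tr2 (ContinuousLinearMap.id ℝ ℂ) = 2 by simp [tr2]; norm_num]
      simp only [id]
      ring
    simp only [k1]
    have i2 : Integrable fun u => 2 * φ u + f u := (pi.const_mul 2).add fi
    rw [integral_sub i2 i1, integral_add (pi.const_mul 2) fi, z1, integral_const_mul, sub_zero]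
  -- the identity on the varifold
  have hT : Test (H := H) 0 R fun u => φ u.1 :=
    ⟨(p1.comp contDiff_fst).contDiffOn, r, hrR, fun u hu => by
      rw [sub_zero] at hu
      simp only [hφ]
      rw [(cz _ hu).1, zero_mul]⟩
  have hdT : ∀ (x : ℂ) (y : H) (v : ℂ) (k : H),
      fderiv ℝ (fun u : ℂ × H => φ u.1) (x, y) (v, k) = fderiv ℝ φ x v := fun x y v k => by
    have b1 : HasFDerivAt (fun u : ℂ × H => φ u.1)
        ((fderiv ℝ φ x).comp (ContinuousLinearMap.fst ℝ ℂ H)) (x, y) :=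
      HasFDerivAt.comp (g := φ) (f := Prod.fst) (x, y)
        (p1.differentiable one_ne_zero x).hasFDerivAt hasFDerivAt_fst
    rw [b1.fderiv]
    rfl
  have z0 := h.hor_pos hT 0
  simp only [hdT, sub_zero] at z0
  obtain ⟨it, it2, iy, ien, -, -⟩ := h.integrable_t
  have ij := h.integrable_j_base2
  have bd : ∀ {k : ℂ → ℝ}, Continuous k → HasCompactSupport k → ∀ {g : α → ℝ}, Integrable g D.m →
      Integrable (fun a => k (D.x a) * g a) D.m := fun {k} hk hc {g} hg => by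
    obtain ⟨B, hB⟩ := hk.bounded_above_of_compact_support hc
    exact hg.bdd_mul (hk.measurable.comp h.m_x).aestronglyMeasurable
      (Eventually.of_forall fun a => hB _)
  have i1 : Integrable (fun a => fderiv ℝ φ (D.x a) (D.x a - D.τ a (D.x a)) + φ (D.x a) * 2 +
      φ (D.x a) * ⟪D.eh a, D.x a⟫) D.m :=
    h.integrable_cont_id (fun p => fderiv ℝ φ p.1.1 (p.1.1 - p.2.1 p.1.1) + φ p.1.1 * 2 +
      φ p.1.1 * ⟪p.2.2.2.2.2.2, p.1.1⟫) (by fun_prop)
  have i2 : Integrable (fun a => φ (D.x a) * D.t a) D.m := bd pc p2 it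
  have i0 : Integrable (fun a => fderiv ℝ φ (D.x a) (D.x a - D.τ a (D.x a)) +
      φ (D.x a) * (2 - D.t a) + φ (D.x a) * ⟪D.eh a, D.x a⟫) D.m := by
    refine (i1.sub i2).congr (Eventually.of_forall fun a => ?_)
    simp only [Pi.sub_apply]
    ring
  have i3 : Integrable (fun a => 2 / r ^ 2 * ϖ (D.x a) * ‖D.x a‖ ^ 2) D.m :=
    h.integrable_cont_id (fun p => 2 / r ^ 2 * ϖ p.1.1 * ‖p.1.1‖ ^ 2) (by fun_prop)
  have i4 : Integrable (fun a => φ (D.x a)) D.m :=
    h.integrable_cont_id (fun p => φ p.1.1) (by fun_prop)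
  have i5 : Integrable (fun a => ϖ (D.x a) * ⟪D.τ a (D.x a), D.x a⟫) D.m :=
    h.integrable_cont_id (fun p => ϖ p.1.1 * ⟪p.2.1 p.1.1, p.1.1⟫) (by fun_prop)
  have i6 : Integrable (fun a => f (D.x a) * D.j a) D.m := bd fc fs ij
  have i7 : Integrable (fun a => om r (D.x a) * ‖D.y a‖ ^ 2) D.m :=
    h.integrable_cont_id (fun p => om r p.1.1 * ‖p.1.2‖ ^ 2) (by fun_prop)
  have main : 2 * (∫ a, φ (D.x a) ∂D.m) - D.dr r + D.RR r + (∫ a, f (D.x a) * D.j a ∂D.m) -
      4 * r * D.dr r - 4 * r * D.hh r ≤ ∫ a, 2 / r ^ 2 * ϖ (D.x a) * ‖D.x a‖ ^ 2 ∂D.m := by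
    have j1 := (i4.const_mul 2).sub i2
    have j2 := j1.add (i5.const_mul (2 / r ^ 2))
    have j3 := j2.add i6
    have j4 := j3.sub (i2.const_mul (4 * r))
    have j5 := j4.sub ((i7.const_mul (r ^ 2)⁻¹).const_mul (4 * r))
    have k0 := integral_mono_ae j5 (i3.add i0) (by
      filter_upwards [h.ae_G, h.car] with a ha hx
      have pw := h.pw a ha
      have b0 := hcr (D.x a)
      have b1 : |chi r (D.x a) * fderiv ℝ D.w (D.x a) (D.τ a (D.x a))| ≤
          chi r (D.x a) * r * D.t a := by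
        refine (hG _ _).trans ?_
        have b2 : ‖D.τ a (D.x a)‖ ≤ 2 * D.t a * ‖D.x a‖ :=
          ((D.τ a).le_opNorm _).trans (mul_le_mul_of_nonneg_right pw.τ_le (norm_nonneg _))
        have b3 := mul_le_mul_of_nonneg_left b2 (cb (D.x a)).1
        have b4 := mul_le_mul_of_nonneg_right b0 pw.t_nonneg
        nlinarith
      have b5 : |chi r (D.x a) * ⟪D.eh a, D.x a⟫| ≤
          chi r (D.x a) * r * (D.t a + ‖D.y a‖ ^ 2) / 2 := by
        have b6 : 0 ≤ D.t a + ‖D.y a‖ ^ 2 := by have := pw.t_nonneg; positivity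
        have b7 : |⟪D.eh a, D.x a⟫| ≤ 1 / 2 * (D.t a + ‖D.y a‖ ^ 2) * ‖D.x a‖ :=
          (abs_real_inner_le_norm _ _).trans (mul_le_mul_of_nonneg_right
            (pw.eh_le.trans (mul_le_mul_of_nonneg_right hδ b6)) (norm_nonneg _))
        have b8 := mul_le_mul_of_nonneg_left b7 (cb (D.x a)).1
        have b9 := mul_le_mul_of_nonneg_right b0 b6
        rw [abs_mul, abs_of_nonneg (cb _).1]
        nlinarith
      have key := alg_key2 (cb (D.x a)).1 (co (D.x a)) (hw _ hx).1 (hw _ hx).2 pw.t_nonneg pw.t_le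
        (sq_nonneg ‖D.y a‖) hr hr2 hδ pw.j_t (fb (D.x a)) b1 b5
      simp only [Pi.add_apply, Pi.sub_apply, map_sub, hD, inner_sub_right,
        real_inner_self_eq_norm_sq, real_inner_comm (D.τ a (D.x a)) (D.x a)]
      simp only [hφ, hf] at key ⊢
      linarith)
    rw [integral_add' i3 i0, z0, add_zero, integral_sub' j4, integral_sub' j3, integral_add' j2 i6,
      integral_add' j1, integral_sub' (i4.const_mul 2) i2] at k0
    · simp only [integral_const_mul] at k0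
      exact k0
    · exact i5.const_mul _
    · exact i2.const_mul _
    · exact (i7.const_mul _).const_mul _
  -- the multiplicity
  obtain ⟨iN, eN⟩ := hS.mq.mult.integral h fc.measurable (B := r / 2) fun u =>
    (fb u).trans (by nlinarith [(cb u).2])
  obtain ⟨iW, eW⟩ := hS.mq.weight h hρ0 hCI fc.measurable
    (F := fun u => chi r u * r / 2 + 27 * ρ)
    (((c1.continuous.mul continuous_const).div_const 2).add continuous_const).measurable
    (B := r / 2 + 27 * ρ) (fun u => by have := (cb u).1; positivity)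
    (fun u => by nlinarith [(cb u).2])
    (fun v hv => by
      rw [sub_zero]
      have b1 : ‖v‖ < r := by
        by_contra hn
        exact hv (by rw [hf]; simp only; rw [(cz v (not_lt.1 hn)).1, zero_mul])
      linarith)
    (fun v v' hv => by
      have b1 := (abs_le.1 (cl v v').1).2
      have b2 : 6 / r * ‖v - v'‖ ≤ 6 / r * (9 * ρ) :=
        mul_le_mul_of_nonneg_left hv.le (by positivity)
      have b3 : (chi r v - chi r v') * r ≤ 6 / r * (9 * ρ) * r :=
        mul_le_mul_of_nonneg_right (b1.trans b2) hr.le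
      have b4 : 6 / r * (9 * ρ) * r = 54 * ρ := by field_simp; norm_num
      have b5 := fb v
      linarith)
  have m1 : -(∫ v, |f v| * |(N v : ℝ) - Q|) ≤ (∫ v, f v * (N v : ℝ)) - Q * ∫ v, f v := by
    rw [← integral_const_mul, ← integral_sub iN (fi.const_mul _), ← integral_neg]
    refine integral_mono ?_ (iN.sub (fi.const_mul _)) fun v => ?_
    · refine Integrable.neg ?_
      simpa only [abs_mul] using iW.abs
    · simp only
      rw [← abs_mul]
      have := neg_abs_le (f v * ((N v : ℝ) - Q))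
      linarith
  have m2 : ∫ a, (chi r (D.x a) * r / 2 + 27 * ρ) * D.t a ^ 2 ∂D.m ≤
      2 * r * D.dr r + 54 * ρ * s ^ 4 := by
    have b0 : ∫ a, (chi r (D.x a) * r / 2 + 27 * ρ) * D.t a ^ 2 ∂D.m ≤
        ∫ a, (2 * r * (φ (D.x a) * D.t a) + 54 * ρ * D.en a) ∂D.m := by
      refine integral_mono_of_nonneg (Eventually.of_forall fun a => ?_)
        ((i2.const_mul _).add (ien.const_mul _)) ?_
      · have := (cb (D.x a)).1
        positivity
      · filter_upwards [h.ae_G, h.car] with a ha hx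
        have pw := h.pw a ha
        have b1 := pw.t_nonneg
        have b2 : D.t a ^ 2 ≤ 2 * D.t a := by nlinarith [pw.t_le]
        have b3 := (cb (D.x a)).1
        have b4 : (chi r (D.x a) * r / 2 + 27 * ρ) * D.t a ^ 2 ≤
            (chi r (D.x a) * r / 2 + 27 * ρ) * (2 * D.t a) :=
          mul_le_mul_of_nonneg_left b2 (by positivity)
        have b5 : 1 / 2 * (chi r (D.x a) * r * D.t a) ≤
            D.w (D.x a) * (chi r (D.x a) * r * D.t a) :=
          mul_le_mul_of_nonneg_right (hw _ hx).1 (by positivity)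
        have b6 : 0 ≤ ρ * ‖D.y a‖ ^ 2 := by positivity
        simp only [hφ, CD.en]
        nlinarith
    rw [integral_add (i2.const_mul _) (ien.const_mul _), integral_const_mul,
      integral_const_mul] at b0
    have b1 := mul_le_mul_of_nonneg_left hS.sm.en_le (show 0 ≤ 54 * ρ by positivity)
    exact b0.trans (add_le_add le_rfl b1)
  have d0 : 0 ≤ D.dr r := integral_nonneg_of_ae (by
    filter_upwards [h.ae_G, h.car] with a ha hx
    exact mul_nonneg (mul_nonneg (cb _).1 (by linarith [(hw _ hx).1])) (h.pw a ha).t_nonneg)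
  have h0 : 0 ≤ D.hh r := mul_nonneg (by positivity)
    (integral_nonneg fun a => mul_nonneg (ob _).1 (sq_nonneg _))
  have m3 := mul_le_mul_of_nonneg_left m2 (show 0 ≤ 64 * CI by positivity)
  have hE : D.EE Q r = (∫ a, φ (D.x a) ∂D.m) - Q * ∫ u, φ u := rfl
  have n1 : 0 ≤ CI * (r * D.dr r) := by positivity
  have n2 : 0 ≤ CI * (r * D.hh r) := by positivity
  have n3 : 0 ≤ ρ * s ^ 4 := by positivity
  rw [mul_sub, r1, mul_left_comm, r2, pl, hE]
  rw [eN] at main
  nlinarith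

end Pool.Agent.Lib.MP_8daebb_an.SV
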