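import Pool.Agent.Lib.MP_8daebb_an.SV.SLem
import Pool.Agent.Lib.MP_8daebb_an.SV.Key1
import Pool.Agent.Lib.MP_8daebb_an.SV.Key2
import Pool.Agent.Lib.MP_8daebb_an.SV.HB

/-! The estimates with the parameters of the iteration. -/

open MeasureTheory Metric Filter Topology Set
open scoped RealInnerProductSpace ENNReal ContDiff

namespace Pool.Agent.Lib.MP_8daebb_an.SV

variable {α : Type*} [MeasurableSpace α] {H : Type*} [NormedAddCommGroup H]
  [InnerProductSpace ℝ H] [FiniteDimensional ℝ H] [MeasurableSpace H] [BorelSpace H]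

private theorem ux_pos_frequ (L k : ℝ) : 0 < ux L k := Real.exp_pos _

private theorem ux_mul_frequ (L a b : ℝ) : ux L a * ux L b = ux L (a + b) := by
  unfold ux
  rw [← Real.exp_add]
  congr 1
  ring

private theorem ux_pow_frequ (L a : ℝ) (n : ℕ) : ux L a ^ n = ux L (n * a) := by
  unfold ux
  rw [← Real.exp_nat_mul]
  congr 1
  ring

private theorem ux_mono_frequ {L a b : ℝ} (hL : 0 ≤ L) (h : a ≤ b) : ux L b ≤ ux L a := by
  unfold ux
  exact Real.exp_le_exp.mpr (by nlinarith)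

private theorem ux_const_frequ {L C a b : ℝ} (hL : 0 ≤ L) (hC : C ≤ L) (h : a + 1 ≤ b) :
    C * ux L b ≤ ux L a := by
  have h1 : ux L b ≤ ux L (a + 1) := ux_mono_frequ hL h
  have h2 : C ≤ Real.exp L := by have := Real.add_one_le_exp L; linarith
  have h3 : Real.exp L * ux L (a + 1) = ux L a := by
    unfold ux
    rw [← Real.exp_add]
    congr 1
    ring
  calc C * ux L b ≤ Real.exp L * ux L b := mul_le_mul_of_nonneg_right h2 (ux_pos_frequ _ _).le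
    _ ≤ Real.exp L * ux L (a + 1) := mul_le_mul_of_nonneg_left h1 (Real.exp_pos _).le
    _ = ux L a := h3

private theorem ux_zero_frequ (L : ℝ) : ux L 0 = 1 := by simp [ux]

theorem s_lemma_u (M : ℝ) {CI : ℝ} (hCI : 0 ≤ CI) (Q : ℕ) : ∃ b₀ C δ₀ : ℝ, 0 < C ∧ 0 < δ₀ ∧
    ∀ b, b₀ ≤ b → ∃ L₀ : ℝ, ∀ (D : CD α H) (R δ L r : ℝ) (N : ℂ → ℕ), δ ≤ δ₀ → L₀ ≤ L →
    MS D R δ M (ux L (10 * b)) (ux L b) CI Q N → ux L 2 ≤ r → r + 8 * ux L 2 ≤ R →
    2 * D.EE Q r - D.dr r ≤ C * (ux L (40 * b + 17) + r ^ 2 * D.hh r) ∧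
      D.dr r - 2 * D.EE Q r ≤ C * (D.dr r / L + ux L (40 * b + 17) + r ^ 2 * D.hh r) := by
  obtain ⟨C, hC, c, hc, hc1, δ₀, hδ₀, ξ₀, hξ₀, key⟩ := s_lemma (α := α) (H := H) M hCI Q
  set κ : ℝ := max 1 (25 / c) with hκ
  have hκ1 : 1 ≤ κ := le_max_left _ _
  have hκ2 : 25 ≤ c * κ := by
    have h1 : 25 / c ≤ κ := le_max_right _ _
    rw [div_le_iff₀ hc] at h1
    linarith
  refine ⟨2 * κ + 172, C, min δ₀ (1 / 2), hC, lt_min hδ₀ (by norm_num), fun b hb => ?_⟩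
  refine ⟨max b (1 / ξ₀), fun D R δ L r N hδ hL hMS hr hR => ?_⟩
  have hLb : b ≤ L := (le_max_left _ _).trans hL
  have hLξ : 1 / ξ₀ ≤ L := (le_max_right _ _).trans hL
  have hb1 : 174 ≤ b := by linarith
  have hL0 : 0 < L := by linarith
  have hr0 : 0 < r := (ux_pos_frequ _ _).trans_le hr
  have hn1 : κ * L ≤ (⌈κ * L⌉₊ : ℝ) := Nat.le_ceil _
  have hκL : L ≤ κ * L := by nlinarith
  have hn2 : (⌈κ * L⌉₊ : ℝ) < κ * L + 1 := Nat.ceil_lt_add_one (by linarith)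
  have hn3 : 1 ≤ ⌈κ * L⌉₊ := Nat.one_le_iff_ne_zero.mpr (Nat.ceil_pos.mpr (by linarith)).ne'
  set n : ℕ := ⌈κ * L⌉₊ with hn
  have h1 : ux L b ≤ ux L 36 := ux_mono_frequ hL0.le (by linarith)
  have h2 : 1 + Real.log (ux L b / (ux L (10 * b) ^ 2 * ux L 36)) ≤ 1 / ux L 36 := by
    have e1 : ux L b / (ux L (10 * b) ^ 2 * ux L 36) = Real.exp ((19 * b + 36) * L) := by
      rw [ux_pow_frequ, ux_mul_frequ]
      unfold ux
      rw [← Real.exp_sub]
      congr 1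
      push_cast
      ring
    have e2 : 1 / ux L 36 = Real.exp (36 * L) := by
      unfold ux
      rw [Real.exp_neg, one_div, inv_inv]
    rw [e1, e2, Real.log_exp]
    have h3 := Real.quadratic_le_exp_of_nonneg (x := 36 * L) (by linarith)
    nlinarith
  have h3 : ux L 36 ≤ ux L 17 ^ 2 * ux L 2 := by
    rw [ux_pow_frequ, ux_mul_frequ]
    exact ux_mono_frequ hL0.le (by norm_num)
  have h4 : 4 ^ n * ux L b ≤ ux L 17 * ux L 36 ^ 4 * ux L 2 ^ 5 := by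
    rw [ux_pow_frequ, ux_pow_frequ, ux_mul_frequ, ux_mul_frequ]
    have e1 : (4 : ℝ) ≤ Real.exp 2 := by
      have := Real.quadratic_le_exp_of_nonneg (x := 2) (by norm_num)
      linarith
    have e2 : (4 : ℝ) ^ n ≤ Real.exp (n * 2) := by
      rw [Real.exp_nat_mul]
      exact pow_le_pow_left₀ (by norm_num) e1 n
    calc 4 ^ n * ux L b ≤ Real.exp (n * 2) * ux L b :=
          mul_le_mul_of_nonneg_right e2 (ux_pos_frequ _ _).le
      _ ≤ _ := by
          unfold ux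
          rw [← Real.exp_add]
          apply Real.exp_le_exp.mpr
          push_cast
          have e3 : (2 * κ + 172) * L ≤ b * L := mul_le_mul_of_nonneg_right hb hL0.le
          nlinarith
  have h5 : (1 - c) ^ n ≤ ux L 17 * ux L 2 ^ 4 := by
    rw [ux_pow_frequ, ux_mul_frequ]
    have e1 : 1 - c ≤ Real.exp (-c) := by have := Real.add_one_le_exp (-c); linarith
    calc (1 - c) ^ n ≤ Real.exp (-c) ^ n := pow_le_pow_left₀ (by linarith) e1 n
      _ = Real.exp (n * -c) := (Real.exp_nat_mul _ _).symm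
      _ ≤ _ := by
          unfold ux
          apply Real.exp_le_exp.mpr
          push_cast
          have e2 : c * (κ * L) ≤ c * n := mul_le_mul_of_nonneg_left hn1 hc.le
          have e3 : 25 * L ≤ c * κ * L := mul_le_mul_of_nonneg_right hκ2 hL0.le
          nlinarith
  have h6 : ux L 17 ≤ ξ₀ := by
    have e1 : 1 / ξ₀ * ux L 17 ≤ ux L 0 := ux_const_frequ hL0.le hLξ (by norm_num)
    rw [ux_zero_frequ, one_div, inv_mul_le_iff₀ hξ₀] at e1
    linarith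
  obtain ⟨k1, k2⟩ := key D R δ (ux L (10 * b)) (ux L b) (ux L 36) (ux L 17) (ux L 2) r n N hMS
    (hδ.trans (min_le_left _ _)) h1 h2 h3 h4 h5 (ux_pos_frequ _ _) h6 hr hR hn3
  have e : ux L 17 * ux L (10 * b) ^ 4 = ux L (40 * b + 17) := by
    rw [ux_pow_frequ, ux_mul_frequ]
    congr 1
    push_cast
    ring
  rw [e] at k1 k2
  refine ⟨k1, k2.trans (mul_le_mul_of_nonneg_left ?_ hC.le)⟩
  have hd : 0 ≤ D.dr r := (hh_basic hMS.cv (hδ.trans (min_le_right _ _)) hr0).2.1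
  have e4 : D.dr r / n ≤ D.dr r / L := div_le_div_of_nonneg_left hd hL0 (by linarith)
  linarith

theorem freq_u (M : ℝ) {CI : ℝ} (hCI : 0 ≤ CI) (Q : ℕ) : ∃ b₀ C δ₀ : ℝ, 0 < C ∧ 0 < δ₀ ∧
    ∀ b, b₀ ≤ b → ∃ L₀ : ℝ, ∀ (D : CD α H) (R δ L r : ℝ) (N : ℂ → ℕ), δ ≤ δ₀ → L₀ ≤ L →
    MS D R δ M (ux L (10 * b)) (ux L b) CI Q N → ux L 2 ≤ r → r + 8 * ux L 2 ≤ R →
    ux L (40 * b + 14) ≤ D.hh r →
    FreqAt D.hh (D.EE Q) D.dr (ux L 1) C r ∧
      D.dr r - 2 * D.EE Q r ≤ C * D.dr r / L + (ux L 1 + C * r ^ 2) * D.hh r := by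
  obtain ⟨b₀, C₀, δ₀, hC₀, hδ₀, key⟩ := s_lemma_u (α := α) (H := H) M hCI Q
  obtain ⟨C₁, hC₁, k1⟩ := key_one (α := α) (H := H) M
  obtain ⟨C₂, hC₂, k2⟩ := key_two (α := α) (H := H) M hCI Q
  refine ⟨max b₀ 16, C₀ + C₁ + C₂, min δ₀ (1 / 2), by positivity, lt_min hδ₀ (by norm_num),
    fun b hb => ?_⟩
  obtain ⟨L₀, key⟩ := key b ((le_max_left _ _).trans hb)
  have hb1 : 16 ≤ b := (le_max_right _ _).trans hb
  refine ⟨max L₀ (2 * C₀ + C₁ + C₂ + 2), fun D R δ L r N hδ hL hMS hr hR hh => ?_⟩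
  have hL1 : 2 * C₀ + C₁ + C₂ + 2 ≤ L := (le_max_right _ _).trans hL
  have hL0 : 0 < L := by linarith
  have hδ2 : δ ≤ 1 / 2 := hδ.trans (min_le_right _ _)
  have hu2 : 0 < ux L 2 := ux_pos_frequ _ _
  have hr0 : 0 < r := hu2.trans_le hr
  obtain ⟨s1, s2⟩ := key D R δ L r N (hδ.trans (min_le_left _ _)) ((le_max_left _ _).trans hL)
    hMS hr hR
  have hρ1 : ux L b ≤ 1 / 2 := by
    have e1 : 2 * ux L b ≤ ux L 0 := ux_const_frequ hL0.le (by linarith) (by linarith)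
    rw [ux_zero_frequ] at e1
    linarith
  have hρ2 : 2 * ux L b ≤ ux L 2 := ux_const_frequ hL0.le (by linarith) (by linarith)
  have hρ0 : 0 < ux L b := ux_pos_frequ _ _
  obtain ⟨h', d1, a1, a2, a3⟩ := k1 D R δ _ _ r hMS.cv hδ2 hMS.sm hρ1 (by linarith) (by linarith)
  obtain ⟨E', d2, a4⟩ := k2 D R δ _ _ r N hMS hδ2 hρ1 hr0 (by linarith)
  have hpos : 0 < D.hh r := (ux_pos_frequ _ _).trans_le hh
  have hd : 0 ≤ D.dr r := (hh_basic hMS.cv hδ2 hr0).2.1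
  have hw : ux L (40 * b + 15) ≤ ux L 1 * D.hh r := by
    have e1 : ux L (40 * b + 15) = ux L 1 * ux L (40 * b + 14) := by
      rw [ux_mul_frequ]
      congr 1
      ring
    rw [e1]
    exact mul_le_mul_of_nonneg_left hh (ux_pos_frequ _ _).le
  have b1 : C₁ * ux L (10 * b) ^ 6 / r ^ 2 ≤ ux L 1 * D.hh r := by
    refine le_trans ?_ hw
    rw [div_le_iff₀ (by positivity)]
    have e1 : ux L 2 ^ 2 ≤ r ^ 2 := pow_le_pow_left₀ hu2.le hr 2
    calc C₁ * ux L (10 * b) ^ 6 ≤ ux L (40 * b + 15) * ux L 2 ^ 2 := by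
          rw [ux_pow_frequ, ux_pow_frequ, ux_mul_frequ]
          exact ux_const_frequ hL0.le (by linarith) (by push_cast; linarith)
      _ ≤ ux L (40 * b + 15) * r ^ 2 := mul_le_mul_of_nonneg_left e1 (ux_pos_frequ _ _).le
  have b2 : C₁ * ux L (10 * b) ^ 6 ≤ ux L 1 * D.hh r := by
    refine le_trans ?_ hw
    rw [ux_pow_frequ]
    exact ux_const_frequ hL0.le (by linarith) (by push_cast; linarith)
  have b3 : C₂ * ux L b * ux L (10 * b) ^ 4 ≤ ux L 1 * D.hh r := by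
    refine le_trans ?_ hw
    rw [ux_pow_frequ, mul_assoc, ux_mul_frequ]
    exact ux_const_frequ hL0.le (by linarith) (by push_cast; linarith)
  have b4 : C₀ * ux L (40 * b + 17) ≤ ux L 1 * D.hh r := by
    refine le_trans ?_ hw
    exact ux_const_frequ hL0.le (by linarith) (by linarith)
  have hrh : 0 ≤ r ^ 2 * D.hh r := by positivity
  have hrd : 0 ≤ r * (D.dr r + D.hh r) := by positivity
  have hdL : 0 ≤ D.dr r / L := by positivity
  have c0 : 0 ≤ C₀ * (r ^ 2 * D.hh r) := by positivity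
  have c1 : 0 ≤ C₁ * (r ^ 2 * D.hh r) := by positivity
  have c2 : 0 ≤ C₂ * (r ^ 2 * D.hh r) := by positivity
  have f0 : 0 ≤ C₀ * (r * (D.dr r + D.hh r)) := by positivity
  have f1 : 0 ≤ C₁ * (r * (D.dr r + D.hh r)) := by positivity
  have g1 : 0 ≤ C₁ * (D.dr r / L) := by positivity
  have g2 : 0 ≤ C₂ * (D.dr r / L) := by positivity
  have g0 : C₀ * (D.dr r / L) ≤ D.dr r / 2 := by
    rw [← mul_div_assoc, div_le_div_iff₀ hL0 (by norm_num)]
    have : 2 * C₀ * D.dr r ≤ L * D.dr r := mul_le_mul_of_nonneg_right (by linarith) hd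
    linarith
  refine ⟨⟨hpos, hd, h', E', D.UU r, D.RR r, d1, d2, a1.trans b1, a2.trans ?_, ?_, a3.trans ?_, ?_,
    ?_⟩, ?_⟩
  · linarith
  · linarith
  · exact mul_le_mul_of_nonneg_left (by linarith) (by positivity)
  · linarith
  · linarith
  · rw [mul_div_assoc]
    linarith

end Pool.Agent.Lib.MP_8daebb_an.SV
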