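import Pool.Agent.Lib.MP_8daebb_an.SV.SC0
import Pool.Agent.Lib.MP_8daebb_an.SV.SC1
import Pool.Agent.Lib.MP_8daebb_an.SV.Mon

/-! No thin necks when the energy is small. -/

open MeasureTheory Metric Filter Topology Set
open scoped RealInnerProductSpace ENNReal ContDiff

namespace Pool.Agent.Lib.MP_8daebb_an.SV

variable {α : Type*} [MeasurableSpace α] {H : Type*} [NormedAddCommGroup H]
  [InnerProductSpace ℝ H] [FiniteDimensional ℝ H] [MeasurableSpace H] [BorelSpace H]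

theorem low_neck {D : CD α H} {c : ℂ} {R δ M : ℝ} (h : CV D c R δ M) (hδ : δ ≤ 1 / 10) {a : α}
    (ha : a ∈ D.G) {ϑ r : ℝ} (hd : D.Den ϑ a) (hϑ : 0 ≤ ϑ) (hr : 0 < r)
    (hR : ‖D.x a - c‖ + 2 * r ≤ R) {ψ : H → ℝ} (hψ : Continuous ψ) (h01 : ∀ y, 0 ≤ ψ y ∧ ψ y ≤ 1)
    (h1 : ∀ y, ‖y - D.y a‖ ≤ r → ψ y = 1) :
    (1 - 4 * δ) * ϑ * r ^ 2 ≤ ∫ a' in D.cyl (D.x a) r, ψ (D.y a') ∂D.m := by
  haveI := h.fin
  have hδ0 := h.δ_nonneg
  have hς : 0 < (1 - δ) * r := mul_pos (by linarith) hr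
  have hςr : (1 - δ) * r ≤ r := by nlinarith
  have h2 := h.mono_den hδ ha hd hϑ hς (by linarith)
  have hint : Integrable (fun a' => ψ (D.y a')) D.m :=
    h.integrable (hψ.measurable.comp h.m_y).aestronglyMeasurable 1 fun a' _ _ => by
      rw [Real.norm_of_nonneg (h01 _).1]; exact (h01 _).2
  have h3 : D.m.real (D.pb (D.pos a) ((1 - δ) * r)) ≤
      ∫ a' in D.cyl (D.x a) r, ψ (D.y a') ∂D.m := by
    rw [← integral_indicator (h.meas_cyl _ _), ← integral_indicator_one (h.meas_pb _ _)]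
    refine integral_mono_ae ((integrable_const (1 : ℝ)).indicator (h.meas_pb _ _))
      (hint.indicator (h.meas_cyl _ _)) ?_
    filter_upwards [h.ae_G] with a' ha'
    by_cases hp : a' ∈ D.pb (D.pos a) ((1 - δ) * r)
    · have h4 := (h.pb_box (by linarith) ha ha').1
      have h5 : ‖D.pos a' - D.pos a‖ ^ 2 < ((1 - δ) * r) ^ 2 :=
        pow_lt_pow_left₀ hp (norm_nonneg _) two_ne_zero
      have h6 : ‖D.x a' - D.x a‖ < r := by
        refine lt_of_pow_lt_pow_left₀ 2 hr.le ?_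
        refine lt_of_mul_lt_mul_left (a := 1 - δ) ?_ (by linarith)
        have : ((1 - δ) * r) ^ 2 ≤ (1 - δ) * r ^ 2 := by
          have : 0 ≤ (1 - δ) * δ * r ^ 2 := by
            have : 0 ≤ 1 - δ := by linarith
            positivity
          nlinarith
        nlinarith [sq_nonneg ‖D.y a' - D.y a‖]
      have h7 : ‖D.y a' - D.y a‖ ≤ r := by
        refine le_trans (le_of_pow_le_pow_left₀ two_ne_zero hς.le ?_) hςr
        have : 0 ≤ (1 - δ) * ‖D.x a' - D.x a‖ ^ 2 := by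
          have : 0 ≤ 1 - δ := by linarith
          positivity
        linarith
      rw [indicator_of_mem hp, indicator_of_mem (show a' ∈ D.cyl (D.x a) r from h6), h1 _ h7]
      exact le_rfl
    · rw [indicator_of_notMem hp]
      exact indicator_nonneg (fun _ _ => (h01 _).1) _
  refine le_trans ?_ (h2.trans h3)
  have h8 : 1 - 4 * δ ≤ (1 - 2 * δ) * (1 - δ) ^ 2 := by
    have : 0 ≤ δ ^ 2 * (5 - 2 * δ) := by
      have : 0 ≤ 5 - 2 * δ := by linarith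
      positivity
    nlinarith
  have h9 := mul_le_mul_of_nonneg_right h8 (mul_nonneg hϑ (sq_nonneg r))
  nlinarith

theorem up_neck {D : CD α H} {c : ℂ} {R δ M : ℝ} (h : CV D c R δ M) (u : ℂ) (y₀ : H) (r η : ℝ)
    {ψ : H → ℝ} (hψ : Continuous ψ) (h01 : ∀ y, 0 ≤ ψ y ∧ ψ y ≤ 1)
    (h0 : ∀ y, η ≤ ‖y - y₀‖ → ψ y = 0) :
    ∫ a' in D.cyl u r, ψ (D.y a') ∂D.m ≤ D.m.real (D.box u y₀ r η) := by
  haveI := h.fin
  have hint : Integrable (fun a' => ψ (D.y a')) D.m :=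
    h.integrable (hψ.measurable.comp h.m_y).aestronglyMeasurable 1 fun a' _ _ => by
      rw [Real.norm_of_nonneg (h01 _).1]; exact (h01 _).2
  rw [← integral_indicator (h.meas_cyl _ _), ← integral_indicator_one (h.meas_box _ _ _ _)]
  refine integral_mono (hint.indicator (h.meas_cyl _ _))
    ((integrable_const (1 : ℝ)).indicator (h.meas_box _ _ _ _)) fun a' => ?_
  by_cases hc : a' ∈ D.cyl u r
  · rw [indicator_of_mem hc]
    by_cases hb : ‖D.y a' - y₀‖ < η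
    · rw [indicator_of_mem (show a' ∈ D.box u y₀ r η from ⟨hc, hb⟩)]
      exact (h01 _).2
    · rw [h0 _ (not_lt.1 hb)]
      exact indicator_nonneg (fun _ _ => zero_le_one) _
  · rw [indicator_of_notMem hc]
    exact indicator_nonneg (fun _ _ => zero_le_one) _

theorem err_neck {C₁ M ε δ ρ η E₀ : ℝ} (hC₁ : 0 ≤ C₁) (hM : 0 ≤ M) (hε : 0 < ε) (hε1 : ε ≤ 1)
    (hδ0 : 0 ≤ δ) (hδ : δ ≤ ε) (hη : 0 < η) (hηρ : η ≤ ρ) (hρ : ρ ≤ 1)
    (hE : E₀ * (1 + Real.log (ρ / η)) ^ 2 ≤ ε ^ 2 * η ^ 2) :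
    E₀ / (η / 4) ^ 2 + 2 * C₁ / η * √(16 * M * E₀) * Real.log (ρ / (η / 4)) + δ * (16 * M) * ρ ≤
      ε * (16 + 16 * C₁ * (M + 1) + 16 * M) := by
  have hρ0 : 0 < ρ := hη.trans_le hηρ
  have hL : 0 ≤ Real.log (ρ / η) := Real.log_nonneg ((one_le_div hη).2 hηρ)
  have hl4 : Real.log (ρ / (η / 4)) = Real.log 4 + Real.log (ρ / η) := by
    rw [← Real.log_mul (by norm_num) (by positivity)]
    congr 1
    field_simp
  have hl2 : Real.log 4 ≤ 2 := by
    have h1 : Real.log 4 = 2 * Real.log 2 := by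
      rw [show (4 : ℝ) = 2 ^ 2 by norm_num, Real.log_pow]; norm_num
    have h2 := Real.log_le_sub_one_of_pos (show (0 : ℝ) < 2 by norm_num)
    linarith
  have hl0 : 0 ≤ Real.log 4 := Real.log_nonneg (by norm_num)
  rw [hl4]
  set L := Real.log (ρ / η)
  have hL1 : 0 < 1 + L := by linarith
  have hE' : E₀ ≤ (ε * η / (1 + L)) ^ 2 := by
    rw [div_pow, le_div_iff₀ (by positivity), mul_pow]
    exact hE
  have hE2 : E₀ ≤ ε * η ^ 2 := by
    have h1 : ε * η / (1 + L) ≤ ε * η := div_le_self (by positivity) (by linarith)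
    have h2 : (ε * η / (1 + L)) ^ 2 ≤ (ε * η) ^ 2 := pow_le_pow_left₀ (by positivity) h1 2
    have h3 : 0 ≤ ε * (1 - ε) * η ^ 2 := by
      have : 0 ≤ 1 - ε := by linarith
      positivity
    nlinarith
  have t1 : E₀ / (η / 4) ^ 2 ≤ 16 * ε := by
    rw [div_le_iff₀ (by positivity)]
    nlinarith
  have hs : √(16 * M * E₀) ≤ 4 * (M + 1) * (ε * η / (1 + L)) := by
    rw [Real.sqrt_le_left (by positivity)]
    have h1 : 16 * M * E₀ ≤ 16 * M * (ε * η / (1 + L)) ^ 2 :=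
      mul_le_mul_of_nonneg_left hE' (by positivity)
    have h2 : 16 * M ≤ (4 * (M + 1)) ^ 2 := by nlinarith
    have h3 := mul_le_mul_of_nonneg_right h2 (sq_nonneg (ε * η / (1 + L)))
    rw [mul_pow]
    linarith
  have t2 : 2 * C₁ / η * √(16 * M * E₀) * (Real.log 4 + L) ≤ ε * (16 * C₁ * (M + 1)) := by
    calc _ ≤ 2 * C₁ / η * (4 * (M + 1) * (ε * η / (1 + L))) * (2 * (1 + L)) :=
          mul_le_mul (mul_le_mul_of_nonneg_left hs (by positivity)) (by linarith) (by linarith)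
            (by positivity)
      _ = _ := by field_simp; ring
  have t3 : δ * (16 * M) * ρ ≤ ε * (16 * M) := by
    have h1 : δ * (16 * M) * ρ ≤ δ * (16 * M) := mul_le_of_le_one_right (by positivity) hρ
    have h2 : δ * (16 * M) ≤ ε * (16 * M) := mul_le_mul_of_nonneg_right hδ (by positivity)
    linarith
  nlinarith

theorem neck {κ : ℝ} (hκ : 0 < κ) (hκ1 : κ ≤ 1) (M : ℝ) : ∃ c₀ : ℝ, 0 < c₀ ∧ ∃ δ₀ : ℝ, 0 < δ₀ ∧
    ∀ (D : CD α H) (c : ℂ) (R δ : ℝ), CV D c R δ M → δ ≤ δ₀ → ∀ a ∈ D.G, ∀ ϑ ρ η E₀ : ℝ,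
    0 ≤ ϑ → D.Den ϑ a → 0 < η → η ≤ ρ → ‖D.x a - c‖ + 2 * ρ ≤ R →
    ∫ a' in D.box (D.x a) (D.y a) (2 * ρ) η, (D.t a' + δ * ‖D.y a'‖ ^ 2) ∂D.m ≤ E₀ →
    E₀ * (1 + Real.log (ρ / η)) ^ 2 ≤ c₀ * η ^ 2 →
    ((1 - κ) * ϑ - κ) * ρ ^ 2 ≤ D.m.real (D.box (D.x a) (D.y a) ((1 + κ) * ρ) η) := by
  obtain ⟨C₁, hC₁, hcut⟩ := exists_hcut (H := H)
  obtain ⟨C₂, hC₂, hsc⟩ := sc_fixed (α := α) (H := H) hκ hκ1
  have hC₁' : 0 ≤ C₁ := by linarith
  set W : ℝ := 16 + 16 * C₁ * (|M| + 1) + 16 * |M| with hW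
  have hW0 : 0 < W := by positivity
  have hK : 0 < C₂ * W + 10 := by positivity
  set ε : ℝ := κ / (C₂ * W + 10) with hε
  have hε0 : 0 < ε := by positivity
  have hεK : ε * (C₂ * W + 10) = κ := by rw [hε]; field_simp
  have hεW : 0 ≤ ε * (C₂ * W) := by positivity
  refine ⟨ε ^ 2, by positivity, ε, hε0, ?_⟩
  intro D c R δ h hδ a ha ϑ ρ η E₀ hϑ hd hη hηρ hR hE hE2
  haveI := h.fin
  have hM := h.M_nonneg
  rw [abs_of_nonneg hM] at hW
  have hδ0 := h.δ_nonneg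
  have hρ0 : 0 < ρ := hη.trans_le hηρ
  have hρ1 : ρ ≤ 1 := by linarith [norm_nonneg (D.x a - c), h.R_le]
  obtain ⟨ψ, hψ, h01, hD, h1, h0⟩ := hcut {D.y a} (η / 2) η (by linarith) (by linarith)
    (by linarith)
  have hΛ : ∀ y, ‖fderiv ℝ ψ y‖ ≤ 2 * C₁ / η := fun y => (hD y).trans (le_of_eq (by
    rw [Finset.card_singleton, Nat.cast_one, show η - η / 2 = η / 2 by ring]; field_simp))
  have h0' : ∀ y, η ≤ ‖y - D.y a‖ → ψ y = 0 ∧ fderiv ℝ ψ y = 0 := fun y hy =>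
    h0 y fun s hs => by rw [Finset.mem_singleton.1 hs]; exact hy
  have hbox : ∀ r, D.cyl (D.x a) r ∩ D.y ⁻¹' ball (D.y a) η = D.box (D.x a) (D.y a) r η :=
    fun r => by
      ext a'
      simp only [CD.cyl, CD.box, mem_inter_iff, mem_ofPred_eq, mem_preimage, mem_ball_iff_norm]
  have key := hsc D c R δ M h (by nlinarith) (D.x a) (η / 4) ρ (2 * C₁ / η) (16 * M) E₀ ψ
    (ball (D.y a) η) (by linarith) (by linarith) hR hψ h01 hΛ measurableSet_ball
    (fun y hy => h0' y (by rwa [mem_ball_iff_norm, not_lt] at hy))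
    (fun r hr _ => by
      rw [hbox]
      have hr0 : 0 < r := by linarith
      refine le_trans (measureReal_mono fun a' ha' => ?_) ((h.ub (D.x a) (D.y a) (4 * r)
        (by linarith)).trans (le_of_eq (by ring)))
      exact ⟨by linarith [ha'.1], by linarith [ha'.2]⟩)
    (by rw [hbox]; exact hE)
  have hlow := low_neck h (by nlinarith) ha hd hϑ (show 0 < η / 4 by linarith) (by linarith)
    hψ.continuous h01 fun y hy => h1 y ⟨_, Finset.mem_singleton_self _, by linarith⟩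
  have hup := up_neck h (D.x a) (D.y a) ((1 + κ) * ρ) η hψ.continuous h01 fun y hy => (h0' y hy).1
  have herr := err_neck hC₁' hM hε0 (by nlinarith) hδ0 hδ hη hηρ hρ1 hE2
  rw [← hW] at herr
  have e1 := mul_le_mul_of_nonneg_left herr hC₂.le
  have e2 : (1 - 4 * δ) * ϑ ≤
      (∫ a' in D.cyl (D.x a) (η / 4), ψ (D.y a') ∂D.m) / (η / 4) ^ 2 := by
    rw [le_div_iff₀ (by positivity)]; exact hlow
  have e3 : (∫ a' in D.cyl (D.x a) ((1 + κ) * ρ), ψ (D.y a') ∂D.m) / ρ ^ 2 ≤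
      D.m.real (D.box (D.x a) (D.y a) ((1 + κ) * ρ) η) / ρ ^ 2 :=
    div_le_div_of_nonneg_right hup (by positivity)
  have e4 : (1 - κ) * ϑ ≤ (1 - 4 * δ) * ϑ := mul_le_mul_of_nonneg_right (by nlinarith) hϑ
  rw [← le_div_iff₀ (by positivity)]
  nlinarith

/-- Small energy gives a uniform height bound. -/
theorem sup_height (M : ℝ) : ∃ c₀ : ℝ, 0 < c₀ ∧ ∃ δ₀ : ℝ, 0 < δ₀ ∧
    ∀ (D : CD α H) (c : ℂ) (R δ : ℝ), CV D c R δ M → δ ≤ δ₀ → ∀ l η E : ℝ, 0 < η → η ≤ l →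
    ∫ a, D.en a ∂D.m ≤ E → E * (1 + Real.log (l / η)) ^ 2 ≤ c₀ * η ^ 2 →
    E ≤ c₀ * l ^ 2 * η ^ 2 → ∀ᵐ a ∂D.m, ‖D.x a - c‖ + 2 * l ≤ R → ‖D.y a‖ ≤ 2 * η := by
  obtain ⟨c₁, hc₁, δ₁, hδ₁, hn⟩ := neck (α := α) (H := H) (κ := 1 / 4) (by norm_num)
    (by norm_num) M
  refine ⟨min c₁ (1 / 2), lt_min hc₁ (by norm_num), min δ₁ 1, lt_min hδ₁ one_pos, ?_⟩
  intro D c R δ h hδ l η E hη hηl hE hE1 hE2
  haveI := h.fin
  obtain ⟨it, -, iy, ien, -, -⟩ := h.integrable_t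
  have hδ0 := h.δ_nonneg
  have hδ1 : δ ≤ 1 := hδ.trans (min_le_right _ _)
  have hl : 0 < l := hη.trans_le hηl
  have hen : 0 ≤ᵐ[D.m] D.en := by
    filter_upwards [h.ae_G] with a ha
    exact add_nonneg (h.pw a ha).t_nonneg (sq_nonneg _)
  filter_upwards [h.ae_G, h.ld] with a ha hd hR
  by_contra hy
  rw [not_le] at hy
  have h1 := hn D c R δ h (hδ.trans (min_le_left _ _)) a ha (4 / 3) l η E (by norm_num) hd hη hηl
    hR (by
      refine le_trans ?_ ((setIntegral_le_integral (s := D.box (D.x a) (D.y a) (2 * l) η)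
        ien hen).trans hE)
      refine integral_mono (it.add (iy.const_mul δ)).integrableOn ien.integrableOn fun a' => ?_
      have := mul_le_of_le_one_left (sq_nonneg ‖D.y a'‖) hδ1
      simp only [CD.en]
      linarith)
    (hE1.trans (mul_le_mul_of_nonneg_right (min_le_left _ _) (sq_nonneg _)))
  set B := D.box (D.x a) (D.y a) ((1 + 1 / 4) * l) η with hB
  have h2 : η ^ 2 * D.m.real B ≤ ∫ a' in B, D.en a' ∂D.m := by
    rw [mul_comm, ← smul_eq_mul, ← setIntegral_const]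
    refine setIntegral_mono_ae_restrict (integrable_const _).integrableOn ien.integrableOn ?_
    filter_upwards [ae_restrict_of_ae h.ae_G, ae_restrict_mem (h.meas_box _ _ _ _)] with a' hG hb
    have h3 : η ≤ ‖D.y a'‖ := by
      have h4 := norm_sub_norm_le (D.y a) (D.y a')
      rw [norm_sub_rev] at h4
      linarith [hb.2]
    have h5 := pow_le_pow_left₀ hη.le h3 2
    have h6 := (h.pw a' hG).t_nonneg
    simp only [CD.en]
    linarith
  have h3 := (h2.trans (setIntegral_le_integral ien hen)).trans hE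
  have h4 : min c₁ (1 / 2) * l ^ 2 * η ^ 2 ≤ 1 / 2 * l ^ 2 * η ^ 2 :=
    mul_le_mul_of_nonneg_right (mul_le_mul_of_nonneg_right (min_le_right _ _) (sq_nonneg _))
      (sq_nonneg _)
  have h5 := mul_le_mul_of_nonneg_left h1 (sq_nonneg η)
  have h6 : 0 < l ^ 2 * η ^ 2 := by positivity
  nlinarith

end Pool.Agent.Lib.MP_8daebb_an.SV
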