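import Pool.Agent.Lib.MP_8daebb_an.SV.Df2
import Pool.Agent.Lib.MP_8daebb_an.SV.Glob
import Pool.Agent.Lib.MP_8daebb_an.SV.Neck
import Pool.Agent.Lib.MP_8daebb_an.SV.Base2

/-! From the system of charts to the standing assumptions. -/

open MeasureTheory Metric Filter Topology Set
open scoped RealInnerProductSpace ENNReal ContDiff

namespace Pool.Agent.Lib.MP_8daebb_an.SV

variable {α : Type*} [MeasurableSpace α] {H : Type*} [NormedAddCommGroup H]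
  [InnerProductSpace ℝ H] [FiniteDimensional ℝ H] [MeasurableSpace H] [BorelSpace H]

theorem ms_of_sm {C : Type*} (M θ : ℝ) {CI δg ρg : ℝ} (hCI : 0 ≤ CI) (hρg : 0 < ρg)
    (hG : GlobOK α H M CI δg ρg) : ∃ ρ₀ : ℝ, 0 < ρ₀ ∧
    ∀ (Adm : C → ℝ → ℝ → Prop) (ch : C → ℝ → CD α H) (δ ε₁ εB δ₂ CI' : ℝ) (Q' : ℕ) (CN cN : ℝ),
    Sys Adm ch M θ δ ε₁ εB δ₂ CI' Q' CN cN → δ ≤ δg → δ ≤ 1 / 2 →
    ∀ (c : C) (ε R R₁ s ρ : ℝ), Adm c ε R → ε ≤ 3 * ε₁ → R ≤ 2 → R₁ ≤ R →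
    Sm ((ch c R).resB 0 R₁) s ρ → ρ ≤ ρ₀ → ρ ≤ cN → 20 * ρ ≤ R₁ →
    (∃ N, MS ((ch c R).resB 0 R₁) R₁ δ M s ρ CI ⌊θ + 1 / 2⌋₊ N) ∧
    ∀ σ, ρ ≤ σ → σ ≤ R₁ →
      (∀ᵐ a ∂(ch c R).m, a ∈ (ch c R).cyl 0 σ → ‖(ch c R).y a‖ ≤ cN * σ) ∧
      ((ch c R).resB 0 R₁).bad ⌊θ + 1 / 2⌋₊ σ ≤ (ch c R).m.real
        {a | a ∈ (ch c R).cyl 0 σ ∧ ¬(ch c R).Den ((θ - 1 / 50) * Real.pi) a} := by
  obtain ⟨ρm, hρm, hm⟩ := mass_near_Q (α := α) (H := H) hCI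
  refine ⟨min ρg (min ρm 1), lt_min hρg (lt_min hρm one_pos), ?_⟩
  intro Adm ch δ ε₁ εB δ₂ CI' Q' CN cN hS hδg hδ c ε R R₁ s ρ hA hε hR2 hR₁ hsm hρ hρc h20
  have hρ0 : 0 < ρ := hsm.ρ_pos
  have hρ1 : ρ ≤ 1 := hρ.trans ((min_le_right _ _).trans (min_le_right _ _))
  have hR₁0 : 0 < R₁ := by linarith
  have hcv : CV (ch c R) 0 R δ M := hS.cv c ε R hA hε (by linarith) hR2
  have hcv₁ : CV ((ch c R).resB 0 R₁) 0 R₁ δ M := hcv.resB hδ hR₁0 (by simpa using hR₁)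
  obtain ⟨Q, N, hQ⟩ := hG _ 0 R₁ δ s ρ hcv₁ hδg hsm (hρ.trans (min_le_left _ _))
  have hs2 : s ^ 2 ≤ ρ * ρ := by
    have h1 : s ≤ ρ := hsm.s_le.trans (pow_le_of_le_one hρ0.le hρ1 (by norm_num))
    have := hsm.s_pos
    nlinarith
  have hy : ∀ σ, ρ ≤ σ → σ ≤ R₁ →
      ∀ᵐ a ∂(ch c R).m, a ∈ (ch c R).cyl 0 σ → ‖(ch c R).y a‖ ≤ cN * σ := by
    intro σ h1 h2
    have h3 : ∀ᵐ a ∂(ch c R).m.restrict ((ch c R).cyl 0 R₁), ‖(ch c R).y a‖ ≤ s ^ 2 := hsm.y_le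
    rw [ae_restrict_iff' (hcv.meas_cyl 0 R₁)] at h3
    filter_upwards [h3] with a ha hin
    refine (ha (cyl_mono_base2 _ _ h2 hin)).trans (hs2.trans ?_)
    exact mul_le_mul hρc h1 hρ0.le (hρ0.le.trans hρc)
  have hσ0 : 0 < R₁ / 2 := by linarith
  have h1 := hm _ 0 R₁ δ M s ρ Q N hcv₁ hδ hsm
    (hρ.trans ((min_le_right _ _).trans (min_le_left _ _))) hQ 0 (R₁ / 2) hσ0 (by simp; linarith)
  have h2 := hS.mass c ε R (R₁ / 2) hA hε hR2 hσ0 (by linarith) (by linarith)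
    (hy _ (by linarith) (by linarith))
  have h3 := (hcv.resB_eq hδ hσ0 (by linarith : R₁ / 2 ≤ R₁) 0).2.2.2.2.2.2.2.1
  have h1' : |(ch c R).m.real ((ch c R).cyl 0 (R₁ / 2)) - Q * Real.pi * (R₁ / 2) ^ 2| ≤ ρ ^ 10 := by
    rw [← h3]
    exact h1
  have h4 : ρ ^ 10 ≤ (R₁ / 2) ^ 2 / 100 := by
    have a : ρ ^ 10 ≤ ρ ^ 2 := pow_le_pow_of_le_one hρ0.le hρ1 (by norm_num)
    nlinarith
  have hpi := Real.pi_gt_three
  have hsq : 0 < (R₁ / 2) ^ 2 := by positivity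
  have hQθ : |(Q : ℝ) - θ| ≤ 1 / 10 := by
    have a := abs_le.1 h1'
    have b := abs_le.1 h2
    generalize (R₁ / 2) ^ 2 = X at *
    rw [abs_le]
    constructor
    · by_contra hc
      push Not at hc
      have : 3 / 10 * X < (θ - Q) * Real.pi * X := by
        refine mul_lt_mul_of_pos_right ?_ hsq
        nlinarith
      nlinarith
    · by_contra hc
      push Not at hc
      have : 3 / 10 * X < (Q - θ) * Real.pi * X := by
        refine mul_lt_mul_of_pos_right ?_ hsq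
        nlinarith
      nlinarith
  have hQa := abs_le.1 hQθ
  have hθ := hS.θ_ge
  have hfl : ⌊θ + 1 / 2⌋₊ = Q := by
    rw [Nat.floor_eq_iff (by linarith)]
    constructor <;> linarith
  have hQ1 : 1 ≤ Q := by
    have : (0 : ℝ) < Q := by linarith
    exact Nat.one_le_iff_ne_zero.2 (Nat.cast_pos.1 this).ne'
  rw [hfl]
  refine ⟨⟨N, hcv₁, hsm, hQ, hQ1⟩, fun σ h1 h2 => ⟨hy σ h1 h2, ?_⟩⟩
  rw [(hcv.resB_eq hδ (hρ0.trans_le h1) h2 Q).2.2.2.2.2.2.1]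
  have := hcv.fin
  refine measureReal_mono (fun a ha => ⟨ha.1, fun hd => ha.2 ?_⟩)
  refine hd.mono fun r hr => le_trans ?_ hr
  refine mul_le_mul_of_nonneg_right (mul_le_mul_of_nonneg_right (by linarith) (by linarith))
    (sq_nonneg _)

theorem sm_of_en (M : ℝ) : ∃ δ₀ : ℝ, 0 < δ₀ ∧ ∀ b : ℝ, 1 ≤ b → ∃ L₀ : ℝ,
    ∀ (D : CD α H) (R δ L R₀ : ℝ), CV D 0 R δ M → δ ≤ δ₀ → L₀ ≤ L → 0 < R₀ → R₀ ≤ R →
    D.En 0 R₀ ≤ ux L (40 * b + 6) →
    Sm (D.resB 0 (R₀ - 2 * ux L 2)) (ux L (10 * b)) (ux L b) := by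
  obtain ⟨c₀, hc₀, δ₀, hδ₀, hsup⟩ := sup_height (α := α) (H := H) M
  refine ⟨min δ₀ (1 / 2), lt_min hδ₀ (by norm_num), fun b hb => ⟨max 1 (1600 * b ^ 2 / c₀), ?_⟩⟩
  intro D R δ L R₀ hcv hδ hL hR₀ hR hE
  have hL1 : 1 ≤ L := (le_max_left _ _).trans hL
  have hL2 : 1600 * b ^ 2 ≤ L * c₀ := (div_le_iff₀ hc₀).1 ((le_max_right _ _).trans hL)
  have hδ2 : δ ≤ 1 / 2 := hδ.trans (min_le_right _ _)
  have hcv₀ : CV (D.resB 0 R₀) 0 R₀ δ M := hcv.resB hδ2 hR₀ (by simpa using hR)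
  have upos : ∀ k, 0 < ux L k := fun k => Real.exp_pos _
  have umono : ∀ k k', k ≤ k' → ux L k' ≤ ux L k := fun k k' h =>
    Real.exp_le_exp.2 (by nlinarith)
  have uadd : ∀ k k', ux L (k + k') = ux L k * ux L k' := fun k k' => by
    unfold ux
    rw [← Real.exp_add]
    congr 1
    ring
  have hu : ux L 1 * L ≤ 1 := by
    have a := Real.add_one_le_exp L
    have e : ux L 1 * Real.exp L = 1 := by
      unfold ux
      rw [← Real.exp_add]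
      simp
    nlinarith [upos 1]
  have hu1 : ux L 1 ≤ 1 := by nlinarith [upos 1]
  have hu2 : 1600 * b ^ 2 * ux L 1 ≤ c₀ := by nlinarith [upos 1]
  have eE : ux L (40 * b + 6) = ux L (20 * b) ^ 2 * ux L 1 ^ 6 := by
    unfold ux
    rw [← Real.exp_nat_mul, ← Real.exp_nat_mul, ← Real.exp_add]
    congr 1
    push_cast
    ring
  have el : ux L 2 = ux L 1 ^ 2 := by
    unfold ux
    rw [← Real.exp_nat_mul]
    congr 1
    push_cast
    ring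
  have elog : Real.log (ux L 2 / (ux L (20 * b) / 2)) = Real.log 2 + (20 * b - 2) * L := by
    rw [Real.log_div (upos _).ne' (by have := upos (20 * b); positivity),
      Real.log_div (upos _).ne' (by norm_num)]
    unfold ux
    rw [Real.log_exp, Real.log_exp]
    ring
  have hlog2 : Real.log 2 ≤ 1 := by
    have := Real.log_le_sub_one_of_pos (by norm_num : (0 : ℝ) < 2)
    linarith
  have hlog0 : 0 ≤ Real.log 2 := Real.log_nonneg (by norm_num)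
  have hb2 : 1 ≤ b ^ 2 := by nlinarith
  have hy := hsup (D.resB 0 R₀) 0 R₀ δ hcv₀ (hδ.trans (min_le_left _ _)) (ux L 2)
    (ux L (20 * b) / 2) (ux L (40 * b + 6)) (by have := upos (20 * b); positivity)
    (by have := umono 2 (20 * b) (by linarith); have := upos (20 * b); linarith) hE
    (by
      rw [elog, eE]
      have a : (1 + (Real.log 2 + (20 * b - 2) * L)) ^ 2 ≤ (20 * b * L) ^ 2 :=
        pow_le_pow_left₀ (by nlinarith) (by nlinarith) 2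
      have p1 := upos 1
      have a2 : ux L 1 ^ 6 * (20 * b * L) ^ 2 ≤ c₀ / 4 := by
        have e : ux L 1 ^ 6 * (20 * b * L) ^ 2 =
            (400 * b ^ 2 * ux L 1) * (ux L 1 * L) ^ 2 * ux L 1 ^ 3 := by ring
        rw [e]
        have b1 : (ux L 1 * L) ^ 2 ≤ 1 := pow_le_one₀ (by positivity) hu
        have b2 : ux L 1 ^ 3 ≤ 1 := pow_le_one₀ p1.le hu1
        calc _ ≤ (400 * b ^ 2 * ux L 1) * 1 * 1 := by gcongr
          _ ≤ _ := by linarith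
      calc _ ≤ ux L (20 * b) ^ 2 * ux L 1 ^ 6 * (20 * b * L) ^ 2 := by gcongr
        _ = ux L (20 * b) ^ 2 * (ux L 1 ^ 6 * (20 * b * L) ^ 2) := by ring
        _ ≤ ux L (20 * b) ^ 2 * (c₀ / 4) := by gcongr
        _ = _ := by ring)
    (by
      rw [eE, el]
      have p1 := upos 1
      have a2 : ux L 1 ^ 2 ≤ c₀ / 4 := by nlinarith
      calc _ = ux L (20 * b) ^ 2 * ux L 1 ^ 4 * ux L 1 ^ 2 := by ring
        _ ≤ ux L (20 * b) ^ 2 * ux L 1 ^ 4 * (c₀ / 4) := by gcongr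
        _ = _ := by ring)
  have hsub : D.cyl 0 (R₀ - 2 * ux L 2) ⊆ D.cyl 0 R₀ :=
    cyl_mono_base2 _ _ (by have := upos 2; linarith)
  refine ⟨upos _, upos _, ?_, ?_, ?_⟩
  · refine (umono (5 * b) _ (by linarith)).trans (le_of_eq ?_)
    unfold ux
    rw [← Real.exp_nat_mul]
    congr 1
    push_cast
    ring
  · have h3 : ∀ᵐ a ∂D.m.restrict (D.cyl 0 R₀),
        ‖D.x a - 0‖ + 2 * ux L 2 ≤ R₀ → ‖D.y a‖ ≤ 2 * (ux L (20 * b) / 2) := hy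
    rw [ae_restrict_iff' (hcv.meas_cyl 0 _)] at h3
    change ∀ᵐ a ∂D.m.restrict (D.cyl 0 (R₀ - 2 * ux L 2)), ‖D.y a‖ ≤ ux L (10 * b) ^ 2
    rw [ae_restrict_iff' (hcv.meas_cyl 0 _)]
    filter_upwards [h3] with a ha hin
    have h4 : ‖D.x a - 0‖ < R₀ - 2 * ux L 2 := hin
    refine (ha (hsub hin) (by linarith)).trans (le_of_eq ?_)
    rw [sq, ← uadd]
    ring_nf
  · change ∫ a in D.cyl 0 (R₀ - 2 * ux L 2), D.en a ∂D.m ≤ ux L (10 * b) ^ 4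
    have h0 : 0 ≤ᵐ[D.m.restrict (D.cyl 0 R₀)] D.en := by
      refine ae_restrict_of_ae ?_
      filter_upwards [hcv.ae_G] with a ha
      exact add_nonneg (hcv.pw a ha).t_nonneg (sq_nonneg _)
    refine (setIntegral_mono_set hcv.integrable_t.2.2.2.1.integrableOn h0
      hsub.eventuallyLE).trans (hE.trans ((umono (40 * b) _ (by linarith)).trans (le_of_eq ?_)))
    unfold ux
    rw [← Real.exp_nat_mul]
    congr 1
    push_cast
    ring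

end Pool.Agent.Lib.MP_8daebb_an.SV
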