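import Pool.Agent.Lib.MP_8daebb_an.SV.Cacc
import Pool.Agent.Lib.MP_8daebb_an.SV.MsOf
import Pool.Agent.Lib.MP_8daebb_an.SV.FreqU
import Pool.Agent.Lib.MP_8daebb_an.SV.CmpM

/-! The first state. -/

open MeasureTheory Metric Filter Topology Set
open scoped RealInnerProductSpace ENNReal ContDiff

namespace Pool.Agent.Lib.MP_8daebb_an.SV

variable {α : Type*} [MeasurableSpace α] {H : Type*} [NormedAddCommGroup H]
  [InnerProductSpace ℝ H] [FiniteDimensional ℝ H] [MeasurableSpace H] [BorelSpace H]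

theorem ux_pos_startb (L k : ℝ) : 0 < ux L k := Real.exp_pos _

theorem ux_mul_startb (L a b : ℝ) : ux L a * ux L b = ux L (a + b) := by
  unfold ux
  rw [← Real.exp_add]
  congr 1
  ring

theorem ux_pow_startb (L a : ℝ) (n : ℕ) : ux L a ^ n = ux L (n * a) := by
  unfold ux
  rw [← Real.exp_nat_mul]
  congr 1
  ring

theorem ux_sc_startb (c t k : ℝ) : ux (c * t) k = ux t (c * k) := by
  unfold ux
  congr 1
  ring

theorem ux_zero_startb (L : ℝ) : ux L 0 = 1 := by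
  unfold ux
  simp

theorem ux_anti_startb {L a b : ℝ} (hL : 0 ≤ L) (h : a ≤ b) : ux L b ≤ ux L a :=
  Real.exp_le_exp.2 (neg_le_neg (mul_le_mul_of_nonneg_right h hL))

theorem small_startb {L c a a' : ℝ} (hL : 0 ≤ L) (hc : c ≤ L) (h : a + 1 ≤ a') :
    c * ux L a' ≤ ux L a := by
  have h1 : ux L a' ≤ ux L a * ux L 1 := by
    rw [ux_mul_startb]
    exact ux_anti_startb hL h
  have h2 : L * ux L 1 ≤ 1 := by
    unfold ux
    rw [one_mul, Real.exp_neg, ← div_eq_mul_inv, div_le_one (Real.exp_pos L)]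
    linarith [Real.add_one_le_exp L]
  have h3 := ux_pos_startb L a
  have h4 := ux_pos_startb L a'
  calc c * ux L a' ≤ L * ux L a' := mul_le_mul_of_nonneg_right hc h4.le
    _ ≤ L * (ux L a * ux L 1) := mul_le_mul_of_nonneg_left h1 hL
    _ = ux L a * (L * ux L 1) := by ring
    _ ≤ ux L a * 1 := mul_le_mul_of_nonneg_left h2 h3.le
    _ = ux L a := mul_one _

theorem inv_startb {L c a a' : ℝ} (hL : 0 ≤ L) (hc : 0 < c) (h3 : c⁻¹ ≤ L) (h4 : a + 1 ≤ a') :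
    ux L a' ≤ c * ux L a := by
  have h5 := small_startb hL h3 h4
  rwa [inv_mul_le_iff₀ hc] at h5

theorem small0_startb {L c a' : ℝ} (hL : 0 ≤ L) (hc : c ≤ L) (h : 1 ≤ a') : c * ux L a' ≤ 1 := by
  have := small_startb (a := 0) hL hc (by linarith : 0 + 1 ≤ a')
  rwa [ux_zero_startb] at this

theorem inv0_startb {L c a' : ℝ} (hL : 0 ≤ L) (hc : 0 < c) (h3 : c⁻¹ ≤ L) (h : 1 ≤ a') :
    ux L a' ≤ c := by
  have := inv_startb (a := 0) hL hc h3 (by linarith : 0 + 1 ≤ a')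
  rwa [ux_zero_startb, mul_one] at this

theorem big_startb {L c a : ℝ} (hL : 0 ≤ L) (hc : c ≤ L) (h : a + 1 ≤ 0) : c ≤ ux L a := by
  have := small_startb hL hc h
  rwa [ux_zero_startb, mul_one] at this

/-- Energy, tilt and height in cylinders. -/
theorem parts_startb {D : CD α H} {R δ M : ℝ} (h : CV D 0 R δ M) {σ σ' : ℝ} (hσ : σ ≤ σ') :
    D.En 0 σ ≤ D.En 0 σ' ∧ D.En 0 σ ≤ ∫ a, D.en a ∂D.m ∧ D.En 0 σ = D.T 0 σ + D.J 0 σ ∧
      0 ≤ D.T 0 σ ∧ 0 ≤ D.J 0 σ ∧ D.J 0 σ ≤ D.J 0 σ' := by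
  have h0 : 0 ≤ᵐ[D.m] D.en := by
    filter_upwards [h.ae_G] with a ha
    exact add_nonneg (h.pw a ha).t_nonneg (sq_nonneg _)
  have h1 : 0 ≤ᵐ[D.m] D.t := by
    filter_upwards [h.ae_G] with a ha using (h.pw a ha).t_nonneg
  obtain ⟨i1, -, i3, i4, -⟩ := h.integrable_t
  exact ⟨setIntegral_mono_set i4.integrableOn (ae_restrict_of_ae h0)
      (cyl_mono_base2 D 0 hσ).eventuallyLE, setIntegral_le_integral i4 h0,
    integral_add i1.integrableOn i3.integrableOn, integral_nonneg_of_ae (ae_restrict_of_ae h1),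
    integral_nonneg fun _ => sq_nonneg _,
    setIntegral_mono_set i3.integrableOn (Eventually.of_forall fun _ => sq_nonneg _)
      (cyl_mono_base2 D 0 hσ).eventuallyLE⟩

omit [FiniteDimensional ℝ H] [MeasurableSpace H] [BorelSpace H] in
theorem sm_mono_startb {D : CD α H} {s ρ s' ρ' : ℝ} (h : Sm D s ρ) (h1 : s ≤ s') (h2 : 0 < ρ')
    (h3 : s' ≤ ρ' ^ 5) : Sm D s' ρ' :=
  ⟨h.s_pos.trans_le h1, h2, h3,
    h.y_le.mono fun _ ha => ha.trans (pow_le_pow_left₀ h.s_pos.le h1 2),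
    h.en_le.trans (pow_le_pow_left₀ h.s_pos.le h1 4)⟩

/-- The lower bound for the height function. -/
theorem low_startb {E T J J' h l r₀ σ Ca : ℝ} (hl : 0 < l) (hl1 : l ≤ 1) (hr : 0 < r₀)
    (hr1 : r₀ ≤ 1) (hσ : σ + l = r₀) (hh : 0 ≤ h) (h1 : E ≤ T + J) (h2 : T ≤ Ca / l ^ 2 * J')
    (h3 : J ≤ J') (h4 : 0 ≤ J') (h5 : (1 - σ / r₀) ^ 2 * J' ≤ r₀ ^ 2 * h) (hC : 0 < Ca) :
    l ^ 4 * E ≤ (Ca + 1) * h := by
  have a1 : l ≤ 1 - σ / r₀ := by
    rw [show 1 - σ / r₀ = l / r₀ by rw [← hσ]; field_simp [hσ ▸ hr.ne']; ring, le_div_iff₀ hr]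
    nlinarith
  have a2 : l ^ 2 * J' ≤ h := by
    have b1 := mul_le_mul_of_nonneg_right (pow_le_pow_left₀ hl.le a1 2) h4
    have b2 : r₀ ^ 2 * h ≤ 1 * h := mul_le_mul_of_nonneg_right (pow_le_one₀ hr.le hr1) hh
    linarith
  have a3 : l ^ 2 * T ≤ Ca * J' := by
    have := mul_le_mul_of_nonneg_left h2 (sq_nonneg l)
    rwa [← mul_assoc, mul_div_cancel₀ _ (pow_pos hl 2).ne'] at this
  have a4 : l ^ 2 * J ≤ J' := by
    have b1 := mul_le_mul_of_nonneg_left h3 (sq_nonneg l)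
    have b2 : l ^ 2 * J' ≤ 1 * J' := mul_le_mul_of_nonneg_right (pow_le_one₀ hl.le hl1) h4
    linarith
  have a5 : l ^ 2 * E ≤ (Ca + 1) * J' := by
    have := mul_le_mul_of_nonneg_left h1 (sq_nonneg l)
    linarith
  calc l ^ 4 * E = l ^ 2 * (l ^ 2 * E) := by ring
    _ ≤ l ^ 2 * ((Ca + 1) * J') := mul_le_mul_of_nonneg_left a5 (sq_nonneg l)
    _ = (Ca + 1) * (l ^ 2 * J') := by ring
    _ ≤ (Ca + 1) * h := mul_le_mul_of_nonneg_left a2 (by linarith)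

/-- Sizes of the errors of the Newton step. -/
theorem num_startb {t b CN A Cc : ℝ} (hb : 64 ≤ b) (ht : 96 ≤ t) (hA : 0 ≤ A)
    (h1 : |CN| * (A + 1) ≤ t) (h2 : 2 * |CN| ≤ t) (h3 : 2 * Cc ≤ t) :
    CN * (A * ux t (4600 * b + 2893 / 2) ^ 2 + ux t (4600 * b) ^ 2 * ux t (460 * b)) /
        ux t 21 ^ 6 ≤ ux t (9200 * b + 2766) ∧
      4 * ux t (18400 * b + 5859) + Cc * ux t (9200 * b + 2766) ^ 2 ≤ ux t (18400 * b + 5531) ∧
      CN * ux t (460 * b) * (ux t (4600 * b) ^ 2 + ux t (9200 * b + 2766)) / ux t 21 ^ 6 ≤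
        ux t (9200 * b + 13800) := by
  have ht0 : 0 ≤ t := by linarith
  have hCN := le_abs_self CN
  have hCN0 := abs_nonneg CN
  have P := ux_pos_startb t
  simp only [ux_pow_startb, ux_mul_startb]
  push_cast
  refine ⟨?_, ?_, ?_⟩
  · rw [div_le_iff₀ (P _), ux_mul_startb]
    have a1 : ux t (2 * (4600 * b) + 460 * b) ≤ ux t (2 * (4600 * b + 2893 / 2)) :=
      ux_anti_startb ht0 (by linarith)
    have a2 := small_startb (a := 9200 * b + 2766 + 6 * 21) (a' := 2 * (4600 * b + 2893 / 2)) ht0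
      h1 (by linarith)
    have a3 := P (2 * (4600 * b) + 460 * b)
    have a4 := P (2 * (4600 * b + 2893 / 2))
    calc _ ≤ |CN| * (A * ux t (2 * (4600 * b + 2893 / 2)) + ux t (2 * (4600 * b) + 460 * b)) :=
          mul_le_mul_of_nonneg_right hCN (by positivity)
      _ ≤ |CN| * ((A + 1) * ux t (2 * (4600 * b + 2893 / 2))) :=
          mul_le_mul_of_nonneg_left (by linarith) hCN0
      _ ≤ _ := by linarith
  · have a1 := small_startb (c := 8) (a := 18400 * b + 5531) (a' := 18400 * b + 5859) ht0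
      (by linarith) (by linarith)
    have a2 := small_startb (a := 18400 * b + 5531) (a' := 2 * (9200 * b + 2766)) ht0 h3
      (by linarith)
    linarith
  · rw [div_le_iff₀ (P _), ux_mul_startb]
    have a1 : ux t (9200 * b + 2766) ≤ ux t (2 * (4600 * b)) := ux_anti_startb ht0 (by linarith)
    have a2 := small_startb (a := 9200 * b + 13800 + 6 * 21) (a' := 460 * b + 2 * (4600 * b)) ht0
      h2 (by linarith)
    rw [← ux_mul_startb t (460 * b)] at a2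
    have a3 := P (2 * (4600 * b))
    have a4 := P (9200 * b + 2766)
    have a5 := P (460 * b)
    calc _ ≤ |CN| * ux t (460 * b) * (ux t (2 * (4600 * b)) + ux t (9200 * b + 2766)) :=
          mul_le_mul_of_nonneg_right (mul_le_mul_of_nonneg_right hCN a5.le) (by linarith)
      _ ≤ |CN| * ux t (460 * b) * (2 * ux t (2 * (4600 * b))) :=
          mul_le_mul_of_nonneg_left (by linarith) (mul_nonneg hCN0 a5.le)
      _ ≤ _ := by linarith

theorem start_b {C : Type*} (M θ : ℝ) {CI δg ρg : ℝ} (hCI : 0 ≤ CI) (hδg : 0 < δg)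
    (hρg : 0 < ρg) (hG : GlobOK α H M CI δg ρg) : ∃ b₀ δ₀ : ℝ, 0 < δ₀ ∧
    ∀ b CN cN ε₁ Λ K₁ L₀ : ℝ, b₀ ≤ b → 0 < cN → 0 < ε₁ → 1 ≤ Λ → ∃ F₁ : ℝ, 0 < F₁ ∧
    ∀ (Adm : C → ℝ → ℝ → Prop) (ch : C → ℝ → CD α H) (δ εB δ₂ : ℝ),
    Sys Adm ch M θ δ ε₁ εB δ₂ CI ⌊θ + 1 / 2⌋₊ CN cN → δ ≤ δ₀ →
    ∀ (r F : ℝ) (c₁ : C) (R₁ : ℝ), 1 / 2 ≤ r → r ≤ 3 / 4 → 0 < F → F ≤ F₁ →
    Adm c₁ (ε₁ * (2 - r - F)) R₁ → r + F ≤ R₁ → R₁ ≤ 2 →
    (ch c₁ R₁).En 0 (r + F) ≤ 2 * (2 * F) ^ (920 * b + 293) →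
    (∀ c R, r ≤ R → R ≤ 2 → Adm c (ε₁ * (2 - r)) R → F ^ (920 * b + 293) ≤ (ch c R).En 0 r) →
    ∃ (B L r₀ : ℝ) (c : C) (R : ℝ), L₀ ≤ L ∧ K₁ ≤ B ∧
      State Adm ch ε₁ ⌊θ + 1 / 2⌋₊ b (Λ * B) B L r₀ c R := by
  obtain ⟨ρ₀, hρ₀, hms⟩ := ms_of_sm (α := α) (H := H) (C := C) M θ hCI hρg hG
  obtain ⟨δ₁, hδ₁, hsm⟩ := sm_of_en (α := α) (H := H) M
  obtain ⟨b₁, Cs, δs, hCs, hδs, hsl⟩ := s_lemma_u (α := α) (H := H) M hCI ⌊θ + 1 / 2⌋₊
  obtain ⟨Cc, hCc, hcm⟩ := cmp_m (α := α) (H := H) M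
  obtain ⟨Ca, hCa, hca⟩ := cacc (α := α) (H := H)
  refine ⟨max b₁ 64, min (min δg (1 / 10)) (min δ₁ δs),
    lt_min (lt_min hδg (by norm_num)) (lt_min hδ₁ hδs),
    fun b CN cN ε₁ Λ K₁ L₀ hb hcN hε₁ hΛ => ?_⟩
  have hb64 : 64 ≤ b := (le_max_right _ _).trans hb
  obtain ⟨L₁, hsm1⟩ := hsm b (by linarith)
  obtain ⟨L₃, hsm3⟩ := hsm ((9200 * b + 2893) / 240) (by linarith)
  obtain ⟨L₂, hsl⟩ := hsl b ((le_max_left _ _).trans hb)
  obtain ⟨T, hT⟩ : ∃ T : ℝ, T = 96 + |L₀| + |L₁| + |L₂| + |L₃| + |K₁| + ρ₀⁻¹ + cN⁻¹ + ε₁⁻¹ +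
      |CN| * (Ck * |M| + 1) + 2 * |CN| + 2 * Cc + (Ca + 1) + 4 * Cs + 32 * Λ +
      2 * 2 ^ (920 * b + 293) := ⟨_, rfl⟩
  refine ⟨Real.exp (-(20 * T)), Real.exp_pos _, ?_⟩
  intro Adm ch δ εB δ₂ hS hδ r F c₁ R₁ hr1 hr2 hF hF1 had1 hR1 hR2 hE hlow
  obtain ⟨⟨hδg', hδt⟩, hδ1, hδs'⟩ : (δ ≤ δg ∧ δ ≤ 1 / 10) ∧ δ ≤ δ₁ ∧ δ ≤ δs := by
    simpa only [le_min_iff] using hδ
  have hδh : δ ≤ 1 / 2 := by linarith
  obtain ⟨t, hTt, hFp⟩ : ∃ t, T ≤ t ∧ ∀ p : ℝ, F ^ p = ux t (20 * p) := by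
    refine ⟨-Real.log F / 20, ?_, fun p => ?_⟩
    · have := (Real.log_le_iff_le_exp hF).2 hF1
      linarith
    · rw [Real.rpow_def_of_pos hF, ux]
      congr 1
      ring
  have hFt : F = ux t 20 := by simpa using hFp 1
  rw [Real.mul_rpow (by norm_num) hF.le, hFp] at hE
  simp only [hFp] at hlow
  subst hFt
  have i0 := one_le_Ck
  have i1 := inv_pos.2 hρ₀
  have i2 := inv_pos.2 hcN
  have i3 := inv_pos.2 hε₁
  have i4 := abs_nonneg CN
  have i5 : 0 ≤ |CN| * (Ck * |M| + 1) := by positivity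
  have i6 : (0 : ℝ) < 2 ^ (920 * b + 293) := by positivity
  have j0 := abs_nonneg L₀
  have j1 := abs_nonneg L₁
  have j2 := abs_nonneg L₂
  have j3 := abs_nonneg L₃
  have j4 := abs_nonneg K₁
  have tt : 96 ≤ t ∧ |L₀| ≤ t ∧ |L₁| ≤ t ∧ |L₂| ≤ t ∧ |L₃| ≤ t ∧ |K₁| ≤ t ∧ ρ₀⁻¹ ≤ t ∧ cN⁻¹ ≤ t ∧
      ε₁⁻¹ ≤ t ∧ |CN| * (Ck * |M| + 1) ≤ t ∧ 2 * |CN| ≤ t ∧ 2 * Cc ≤ t ∧ Ca + 1 ≤ t ∧
      4 * Cs ≤ t ∧ 32 * Λ ≤ t ∧ 2 * 2 ^ (920 * b + 293) ≤ t := by
    rw [hT] at hTt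
    refine ⟨?_, ?_, ?_, ?_, ?_, ?_, ?_, ?_, ?_, ?_, ?_, ?_, ?_, ?_, ?_, ?_⟩ <;>
      linarith only [hTt, i1, i2, i3, i4, i5, i6, j0, j1, j2, j3, j4, hCc, hCa, hCs, hΛ]
  obtain ⟨t1, t2, t3, t4, t5, t6, t7, t8, t9, t10, t11, t12, t13, t14, t15, t16⟩ := tt
  clear hT hTt hF1 hFp
  have ht0 : 0 ≤ t := by linarith only [t1]
  have P := ux_pos_startb t
  obtain ⟨g1, g2, g3⟩ := num_startb (A := Ck * |M|) hb64 t1 (by positivity) t10 t11 t12
  have hE0 : (ch c₁ R₁).En 0 (r + ux t 20) ≤ ux t (18400 * b + 5859) := by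
    have := small_startb (a := 18400 * b + 5859) (a' := 20 * (920 * b + 293)) ht0 t16
      (by linarith only)
    linarith only [this, hE]
  -- lengths
  have l1 : 32 * ux t 21 ≤ ux t 20 := small_startb ht0 (by linarith only [t1]) (by norm_num)
  have l2 : ux t 24 ≤ ux t 21 := ux_anti_startb ht0 (by norm_num)
  have l3 : 96 * ux t 20 ≤ 1 := small0_startb ht0 t1 (by norm_num)
  have l4 : ux t (460 * b) ≤ ux t 24 := ux_anti_startb ht0 (by linarith only [hb64])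
  have l5 : ux t (9200 * b + 2766) ≤ ux t 24 := ux_anti_startb ht0 (by linarith only [hb64])
  have l6 : ux t 920 ≤ ux t 24 := ux_anti_startb ht0 (by norm_num)
  have l7 : ux t (9200 * b + 2766) ≤ ε₁ * ux t 20 := inv_startb ht0 hε₁ t9 (by linarith only [hb64])
  have l8 : ux t 460 ≤ ε₁ := inv0_startb ht0 hε₁ t9 (by norm_num)
  have l9 : ux t (460 * b) ≤ ρ₀ := inv0_startb ht0 hρ₀ t7 (by linarith only [hb64])
  have l10 : ux t (460 * b) ≤ cN := inv0_startb ht0 hcN t8 (by linarith only [hb64])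
  have l11 : ux t (460 * b) ≤ cN * ux t 21 := inv_startb ht0 hcN t8 (by linarith only [hb64])
  have l12 : ux t (9200 * b + 2766) ≤ cN * ux t (460 * b) ^ 2 := by
    rw [ux_pow_startb]
    exact inv_startb ht0 hcN t8 (by push_cast; linarith only [hb64])
  have l13 : ux t (4600 * b) ≤ ux t (460 * b) ^ 5 := by
    rw [ux_pow_startb]
    exact ux_anti_startb ht0 (by push_cast; linarith only [hb64])
  have l14 : ux t (4600 * b + 2893 / 2) ≤ ux t (4600 * b) := ux_anti_startb ht0 (by linarith only)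
  have l15 : ux t (4600 * b) ^ 2 ≤ ux t 24 := by
    rw [ux_pow_startb]
    exact ux_anti_startb ht0 (by push_cast; linarith only [hb64])
  have p20 := P 20
  have p21 := P 21
  have p24 := P 24
  have p460 := P 460
  have p920 := P 920
  have pρ := P (460 * b)
  have pJ := P (9200 * b + 2766)
  have sL : ∀ k, ux (460 * t) k = ux t (460 * k) := ux_sc_startb 460 t
  have s1 : ux (460 * t) 1 = ux t 460 := by rw [sL]; norm_num
  have s2 : ux (460 * t) 2 = ux t 920 := by rw [sL]; norm_num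
  have s3 : ux (460 * t) (10 * b) = ux t (4600 * b) := by rw [sL]; congr 1; ring
  have hε : ε₁ * (2 - r - ux t 20) ≤ 3 * ε₁ := by nlinarith only [hε₁, hr1, p20]
  have hcv := hS.cv c₁ _ R₁ had1 hε (by linarith only [hR1, hr1, p20]) hR2
  -- the first chart
  have hs0 := hsm3 (ch c₁ R₁) R₁ δ (12 * t) (r + ux t 20) hcv hδ1
    (by linarith only [le_abs_self L₃, t5, ht0]) (by linarith only [hr1, p20]) hR1
    (hE0.trans (by rw [ux_sc_startb]; exact ux_anti_startb ht0 (by linarith only)))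
  simp only [ux_sc_startb] at hs0
  rw [show (12 : ℝ) * 2 = 24 by norm_num,
    show 12 * (10 * ((9200 * b + 2893) / 240)) = 4600 * b + 2893 / 2 by ring] at hs0
  obtain ⟨R₂, hR₂⟩ : ∃ R₂, R₂ = r + ux t 20 - 2 * ux t 24 := ⟨_, rfl⟩
  obtain ⟨R', hR'⟩ : ∃ R', R' = R₂ - 8 * ux t 21 := ⟨_, rfl⟩
  obtain ⟨r₀, hr₀⟩ : ∃ r₀, r₀ = r + 2 * ux t 21 := ⟨_, rfl⟩
  rw [← hR₂] at hs0
  have n1 : R₂ ≤ R₁ := by linarith only [hR₂, hR1, p24]
  have n2 : 1 / 2 ≤ r₀ := by linarith only [hr₀, hr1, p21]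
  have n3 : r₀ ≤ 1 := by linarith only [hr₀, hr2, l1, l3, p21]
  have n4 : r₀ + ux t 20 / 2 ≤ R' := by linarith only [hr₀, hR', hR₂, l1, l2, p21]
  have n5 : R' ≤ 2 := by linarith only [hR', n1, hR2, p21]
  have n6 : 0 < r₀ := by linarith only [n2]
  have n7 : 0 < R' := by linarith only [n4, n2, p20]
  have hs1 : Sm ((ch c₁ R₁).resB 0 R₂) (ux t (4600 * b)) (ux t (460 * b)) :=
    sm_mono_startb hs0 l14 pρ l13
  obtain ⟨⟨N, hN⟩, -⟩ := hms Adm ch δ ε₁ εB δ₂ CI _ CN cN hS hδg' hδh c₁ _ R₁ R₂ _ _ had1 hε hR2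
    n1 hs1 l9 l10 (by linarith only [hR', n4, n2, l4, l2, l1, l3, p20, p21])
  have hβ : ∀ u : ℂ, ‖u‖ ≤ R₂ - ux t 21 → ‖(ch c₁ R₁).av (ux t (460 * b)) (ch c₁ R₁).y u‖ ≤
      Ck * |M| * ux t (4600 * b + 2893 / 2) ^ 2 := by
    intro u hu
    have a1 := ((sm_mono_startb hs0 le_rfl pρ (l14.trans l13)).av_le hN.cv
      (by linarith only [l4, l2, l1, l3, p21]) u).2.2.2
    have a3 := av_resB (D := ch c₁ R₁) hcv.m_x (c := 0) (u := u) (R₁ := R₂) pρ
      (by rw [sub_zero]; linarith only [hu, l4, l2]) (ch c₁ R₁).y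
    rw [← a3, abs_of_nonneg hcv.M_nonneg]
    exact a1
  obtain ⟨c', had, hcmp, hav⟩ := hS.newt c₁ _ R₁ R₂ (ux t 21) _ _ _ (ux t (9200 * b + 2766)) N had1
    hε hR2 n1 hN l11 (by linarith only [hR', n4, n2, l1, l3, p20, p21]) hβ g1 l12
  rw [← hR'] at had hcmp hav
  have had2 : Adm c' (ε₁ * (2 - r)) R' := hS.adm_mono c' _ _ R' had (by linarith only [l7])
  have had' : Adm c' (3 * ε₁ - ux t 460) R' :=
    hS.adm_mono c' _ _ R' had2 (by nlinarith only [l8, hr1, hε₁])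
  have hε' : 3 * ε₁ - ux t 460 ≤ 3 * ε₁ := sub_le_self _ p460.le
  have hcv' := hS.cv c' _ R' had' hε' n7 n5
  -- comparison of the two charts
  have n8 : R' + ux t (9200 * b + 2766) ≤ R₂ := by linarith only [hR', l5, l2, p21]
  have hy : ∀ᵐ a ∂(ch c₁ R₁).m, a ∈ (ch c₁ R₁).cyl 0 (R' + ux t (9200 * b + 2766)) →
      ‖(ch c₁ R₁).y a‖ ≤ r₀ := by
    have a1 : ∀ᵐ a ∂(ch c₁ R₁).m.restrict ((ch c₁ R₁).cyl 0 R₂),
        ‖(ch c₁ R₁).y a‖ ≤ ux t (4600 * b) ^ 2 := hs1.y_le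
    rw [ae_restrict_iff' (hcv.meas_cyl 0 R₂)] at a1
    filter_upwards [a1] with a ha h1
    exact (ha (cyl_mono_base2 _ 0 n8 h1)).trans (by linarith only [l15, l2, l1, l3, n2, p21])
  obtain ⟨-, -, k3⟩ := hcm (ch c₁ R₁) (ch c' R') R₁ R' δ (ux t (9200 * b + 2766)) r₀
    (ux t (18400 * b + 5859)) hcv hcv' hδh hcmp pJ.le (by linarith only [l5, l2, l1, l3, n2, p21])
    n3 n6 (by linarith only [n4, l5, l2, l1, p21])
    ((parts_startb hcv (by linarith only [n8, hR₂, p24])).1.trans hE0)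
    (by rw [← ux_zero_startb t]; exact ux_anti_startb ht0 (by linarith only [hb64])) hy
  have k4 := k3.trans g2
  have k5 : ux t (18400 * b + 5531) ≤ ux (460 * t) (40 * b + 6) := by
    rw [sL]; exact ux_anti_startb ht0 (by linarith only)
  -- the height function of the new chart
  obtain ⟨b1, -, b3, b4, -, b6⟩ := hh_basic hcv' hδh n6
  obtain ⟨-, c2, c3, c4, c5, -⟩ := parts_startb hcv' (le_refl r₀)
  obtain ⟨-, -, d3, -, d5, d6⟩ := parts_startb hcv' (show r ≤ r + ux t 21 by linarith only [p21])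
  have k6 := low_startb p21 (by linarith only [l1, l3, p21]) n6 n3
    (show r + ux t 21 + ux t 21 = r₀ by rw [hr₀]; ring) b1
    ((hlow c' R' (by linarith only [n4, hr₀, p20, p21]) n5 had2).trans d3.le)
    (hca (ch c' R') 0 R' δ M hcv' hδt 0 r (ux t 21) (by linarith only [hr1]) p21
      (by rw [sub_self, norm_zero]; linarith only [n4, hr₀, p20, p21])) d6 (d5.trans d6)
    (b6 _ (by linarith only [hr1, p21]) (by linarith only [hr₀, p21])).1 hCa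
  rw [ux_pow_startb, ux_mul_startb] at k6
  have k7 : ux t (18400 * b + 5945) ≤ (ch c' R').hh r₀ := by
    have a1 := small_startb (a := (4 : ℕ) * 21 + 20 * (920 * b + 293)) (a' := 18400 * b + 5945)
      ht0 t13 (by push_cast; linarith only)
    exact le_of_mul_le_mul_left (a1.trans k6) (by linarith only [hCa])
  have k8 : (ch c' R').hh r₀ ≤ ux (460 * t) (40 * b + 12) := by
    rw [sL]
    have a1 := small_startb (c := 12) (a := 460 * (40 * b + 12)) (a' := 18400 * b + 5531) ht0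
      (by linarith only [t1]) (by linarith only)
    have a2 : 1 / 4 * (ch c' R').hh r₀ ≤ r₀ ^ 2 * (ch c' R').hh r₀ :=
      mul_le_mul_of_nonneg_right (by nlinarith only [n2]) b1
    linarith only [a1, a2, b3, c2, c3, c4, k4]
  -- the frequency of the new chart
  have hs2 := hsm1 (ch c' R') R' δ (460 * t) R' hcv' hδ1
    (by linarith only [le_abs_self L₁, t3, ht0]) n7 le_rfl
    ((parts_startb hcv' le_rfl).2.1.trans (k4.trans k5))
  obtain ⟨⟨N', hN'⟩, -⟩ := hms Adm ch δ ε₁ εB δ₂ CI _ CN cN hS hδg' hδh c' _ R' _ _ _ had' hε' n5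
    (sub_le_self _ (by rw [s2]; linarith only [p920])) hs2 (by rw [sL]; exact l9)
    (by rw [sL]; exact l10)
    (by rw [s2, sL]; linarith only [n4, n2, l4, l6, l2, l1, l3, p20, p21])
  have k9 := (hsl _ _ δ (460 * t) r₀ N' hδs' (by linarith only [le_abs_self L₂, t4, ht0]) hN'
    (by rw [s2]; linarith only [n2, l6, l2, l1, l3, p21])
    (by rw [s2]; linarith only [n4, l6, l2, l1, p21])).1
  obtain ⟨q1, q2, q3, -⟩ := hcv'.resB_eq hδh (R₁ := R' - 2 * ux (460 * t) 2) n6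
    (by rw [s2]; linarith only [n4, l6, l2, l1, p21]) ⌊θ + 1 / 2⌋₊
  rw [q1, q2, q3, sL] at k9
  have pB := P (-420)
  have hK : ux t (-420) ≤ Λ * ux t (-420) := le_mul_of_one_le_left pB.le hΛ
  refine ⟨ux t (-420), 460 * t, r₀, c', R', by linarith only [le_abs_self L₀, t2, ht0],
    (le_abs_self K₁).trans (big_startb ht0 t6 (by norm_num)), s1 ▸ had', n5, ?_, n3, ?_,
    le_trans (by rw [sL]; exact ux_anti_startb ht0 (by linarith only)) k7, k8, k4.trans k5, ?_,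
    fun v hv => ?_⟩
  · have a1 : 2 ≤ ux t 20 * ux t (-420) := by
      rw [ux_mul_startb]
      exact big_startb ht0 (by linarith only [t1]) (by norm_num)
    have a2 : 1 / (Λ * ux t (-420)) ≤ ux t 20 / 2 := by
      rw [div_le_iff₀ (pB.trans_le hK)]
      have := mul_le_mul_of_nonneg_left hK p20.le
      linarith only [this, a1]
    have a3 : r₀ * (1 / (Λ * ux t (-420))) ≤ 1 * (ux t 20 / 2) :=
      mul_le_mul n3 a2 (by positivity) zero_le_one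
    linarith only [a3, n4]
  · have a1 : 32 * Λ * ux t (-420 + 460) ≤ 1 := small0_startb ht0 t15 (by norm_num)
    rw [← ux_mul_startb] at a1
    rw [s1]
    linarith only [a1, n2]
  · have a1 : ux t (460 * (40 * b + 17)) ≤ (ch c' R').hh r₀ :=
      (ux_anti_startb ht0 (by linarith only)).trans k7
    have a2 : r₀ ^ 2 * (ch c' R').hh r₀ ≤ 1 * (ch c' R').hh r₀ :=
      mul_le_mul_of_nonneg_right (pow_le_one₀ n6.le n3) b1
    have a3 : Cs * (ux t (460 * (40 * b + 17)) + r₀ ^ 2 * (ch c' R').hh r₀) ≤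
        Cs * (2 * (ch c' R').hh r₀) := mul_le_mul_of_nonneg_left (by linarith only [a1, a2]) hCs.le
    have a4 : 4 * Cs * (ch c' R').hh r₀ ≤ ux t (-420) * (ch c' R').hh r₀ :=
      mul_le_mul_of_nonneg_right (big_startb ht0 t14 (by norm_num)) b1
    have a5 := small_startb (c := 4) (a := -420 + (18400 * b + 5945)) (a' := 18400 * b + 5531) ht0
      (by linarith only [t1]) (by linarith only)
    rw [← ux_mul_startb t (-420)] at a5
    have a6 := mul_le_mul_of_nonneg_left k7 pB.le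
    linarith only [k9, a3, a4, a5, a6, b4, c2, c3, c5, k4]
  · rw [sL, sL, show 460 * (20 * b + 30) = 9200 * b + 13800 by ring]
    exact (hav v (by linarith only [hv, n4, hR', l1, p21])).trans g3

end Pool.Agent.Lib.MP_8daebb_an.SV
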