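import Pool.Agent.Lib.MP_8daebb_an.SV.IBP
import Pool.Agent.Lib.MP_8daebb_an.SV.CT
import Pool.Agent.Lib.MP_8daebb_an.SV.Ker2

/-! Representation of the gradient. -/

open MeasureTheory Metric Filter Topology Set
open scoped RealInnerProductSpace ENNReal ContDiff

namespace Pool.Agent.Lib.MP_8daebb_an.SV

theorem hasFDerivAt_fderiv_pomp {v : ℂ → ℝ} (hv : ContDiff ℝ 2 v) (u : ℂ) :
    HasFDerivAt (fderiv ℝ v) (fderiv ℝ (fderiv ℝ v) u) u :=
  (((hv.fderiv_right (m := 1) (by norm_num)).differentiable one_ne_zero) u).hasFDerivAt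

theorem fderiv_grad_pomp {v : ℂ → ℝ} (hv : ContDiff ℝ 2 v) (u w : ℂ) :
    fderiv ℝ (grad v) u w = (fderiv ℝ (fderiv ℝ v) u w 1 : ℝ) +
      (fderiv ℝ (fderiv ℝ v) u w Complex.I : ℝ) * Complex.I := by
  let L : (ℂ →L[ℝ] ℝ) →L[ℝ] ℂ := (ContinuousLinearMap.apply ℝ ℝ (1 : ℂ)).smulRight 1 +
    (ContinuousLinearMap.apply ℝ ℝ Complex.I).smulRight Complex.I
  have e : grad v = L ∘ fderiv ℝ v := funext fun u => by simp [L, grad]
  rw [e, (L.hasFDerivAt.comp u (hasFDerivAt_fderiv_pomp hv u)).fderiv]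
  simp [L]

theorem compact_pomp {F : Type*} [Zero F] [TopologicalSpace F] {f : ℂ → F} {R : ℝ}
    (h : ∀ u : ℂ, R < ‖u‖ → f u = 0) : HasCompactSupport f :=
  HasCompactSupport.intro (isCompact_closedBall 0 R) fun u hu => h u (by simpa using hu)

theorem dbar_mul_pomp {v κ : ℂ → ℝ} (hv : ContDiff ℝ 2 v) (hκ : ContDiff ℝ 2 κ) (u : ℂ) :
    dbar (fun u => (κ u : ℂ) * (starRingEnd ℂ) (grad v u)) u =
      ((κ u * lap v u : ℝ) + grad κ u * (starRingEnd ℂ) (grad v u)) / 2 := by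
  have h1 : HasFDerivAt (fun u => (κ u : ℂ)) (Complex.ofRealCLM.comp (fderiv ℝ κ u)) u :=
    Complex.ofRealCLM.hasFDerivAt.comp u ((hκ.differentiable (by norm_num)) u).hasFDerivAt
  have h2 : HasFDerivAt (fun u => (starRingEnd ℂ) (grad v u))
      ((Complex.conjCLE : ℂ →L[ℝ] ℂ).comp (fderiv ℝ (grad v) u)) u :=
    (Complex.conjCLE : ℂ →L[ℝ] ℂ).hasFDerivAt.comp u
      (((continuous_lap hv).2.1.differentiable one_ne_zero) u).hasFDerivAt
  have h3 := (hv.contDiffAt (x := u)).isSymmSndFDerivAt (by simp) 1 Complex.I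
  rw [dbar, (h1.fun_mul h2).fderiv]
  simp only [add_apply, smul_apply,
    ContinuousLinearMap.comp_apply, Complex.ofRealCLM_apply, ContinuousLinearEquiv.coe_coe,
    Complex.conjCLE_apply, fderiv_grad_pomp hv, smul_eq_mul, map_add, map_mul, Complex.conj_ofReal,
    Complex.conj_I, lap, h3]
  rw [grad.eq_1 κ]
  push_cast
  linear_combination (-(κ u : ℂ) * (fderiv ℝ (fderiv ℝ v) u Complex.I Complex.I : ℝ) / 2) *
    Complex.I_mul_I

theorem ibp_pomp {v : ℂ → ℝ} (hv : ContDiff ℝ 2 v) {φ : ℂ → ℂ} (hφ : ContDiff ℝ 1 φ)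
    (hc : HasCompactSupport φ) : ∫ u, φ u * (starRingEnd ℂ) (grad v u) =
      ∫ u, (Complex.I * fderiv ℝ φ u Complex.I - fderiv ℝ φ u 1) * v u := by
  have hv1 : ContDiff ℝ 1 fun u => (v u : ℂ) :=
    Complex.ofRealCLM.contDiff.comp (hv.of_le (by norm_num))
  have hd : ∀ u w, fderiv ℝ (fun u => φ u * v u) u w =
      φ u * (fderiv ℝ v u w : ℝ) + fderiv ℝ φ u w * v u := fun u w => by
    have h1 : HasFDerivAt (fun u => (v u : ℂ)) (Complex.ofRealCLM.comp (fderiv ℝ v u)) u :=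
      Complex.ofRealCLM.hasFDerivAt.comp u ((hv.differentiable (by norm_num)) u).hasFDerivAt
    rw [(((hφ.differentiable one_ne_zero) u).hasFDerivAt.fun_mul h1).fderiv]
    simp [mul_comm]
  obtain ⟨i1, e1⟩ := integral_fderiv_zero (hφ.mul hv1) hc.mul_right 1
  obtain ⟨i2, e2⟩ := integral_fderiv_zero (hφ.mul hv1) hc.mul_right Complex.I
  have hφ' := hφ.continuous_fderiv one_ne_zero
  have hvc := hv.continuous
  have i3 : Integrable fun u => (Complex.I * fderiv ℝ φ u Complex.I - fderiv ℝ φ u 1) * v u := by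
    refine Continuous.integrable_of_hasCompactSupport (by fun_prop) (HasCompactSupport.mul_right ?_)
    exact ((hc.fderiv_apply ℝ Complex.I).mul_left).sub (hc.fderiv_apply ℝ 1)
  have e3 : (fun u => φ u * (starRingEnd ℂ) (grad v u)) = fun u =>
      (Complex.I * fderiv ℝ φ u Complex.I - fderiv ℝ φ u 1) * v u +
        (fderiv ℝ (fun u => φ u * v u) u 1 -
          Complex.I * fderiv ℝ (fun u => φ u * v u) u Complex.I) := funext fun u => by
    simp only [hd, grad, map_add, map_mul, Complex.conj_ofReal, Complex.conj_I]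
    ring
  have i4 : Integrable fun u => fderiv ℝ (fun u => φ u * v u) u 1 -
      Complex.I * fderiv ℝ (fun u => φ u * v u) u Complex.I := i1.sub (i2.const_mul _)
  rw [e3, integral_add i3 i4, integral_sub i1 (i2.const_mul _),
    integral_const_mul, e1, e2]
  simp

theorem phi_pomp {κ : ℂ → ℝ} {r l C₀ : ℝ} (hκ : Cut κ r l C₀) (hl : 0 < l) {x : ℂ}
    (hx : ‖x‖ ≤ r) : ContDiff ℝ 1 (fun u => grad κ u / (x - u)) ∧
      (∀ u : ℂ, r + 3 * l / 4 < ‖u‖ → grad κ u / (x - u) = 0 ∧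
        fderiv ℝ (fun u => grad κ u / (x - u)) u = 0) ∧
      ∀ u w : ℂ, ‖w‖ = 1 → ‖fderiv ℝ (fun u => grad κ u / (x - u)) u w‖ ≤ 24 * C₀ / l ^ 3 := by
  obtain ⟨-, hg, -, hn⟩ := continuous_lap hκ.smooth
  have hC : 0 ≤ C₀ := by
    have := (norm_nonneg _).trans (hκ.d1 0)
    exact (div_nonneg_iff.1 this).elim (fun h => h.1) fun h => absurd h.2 (not_le.2 hl)
  have loc : ∀ (U : Set ℂ) (c : ℝ), IsOpen U → (∀ u ∈ U, κ u = c) → ∀ u ∈ U,
      (fun u => grad κ u / (x - u)) =ᶠ[𝓝 u] fun _ => 0 := fun U c hU h u hu => by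
    filter_upwards [hU.mem_nhds hu] with y hy
    have : κ =ᶠ[𝓝 y] fun _ => c := by
      filter_upwards [hU.mem_nhds hy] with z hz using h z hz
    simp [grad, this.fderiv_eq]
  have l1 := loc {u | ‖u‖ < r + l / 4} 1 (isOpen_lt continuous_norm continuous_const)
    fun u hu => hκ.one u (le_of_lt hu)
  have l2 := loc {u | r + 3 * l / 4 < ‖u‖} 0 (isOpen_lt continuous_const continuous_norm)
    fun u hu => hκ.zero u (le_of_lt hu)
  have far : ∀ u : ℂ, ¬‖u‖ < r + l / 4 → l / 4 ≤ ‖x - u‖ := fun u hu => by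
    have := norm_sub_norm_le u x
    rw [norm_sub_rev] at this
    linarith [not_lt.1 hu]
  refine ⟨contDiff_iff_contDiffAt.2 fun u => ?_, fun u hu => ⟨(l2 u hu).eq_of_nhds, ?_⟩,
    fun u w hw => ?_⟩
  · by_cases hu : ‖u‖ < r + l / 4
    · exact contDiffAt_const.congr_of_eventuallyEq (l1 u hu)
    · have h0 : x - u ≠ 0 := norm_pos_iff.1 (by linarith [far u hu])
      simp only [div_eq_mul_inv]
      exact hg.contDiffAt.mul ((contDiffAt_const.sub contDiffAt_id).inv h0)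
  · rw [(l2 u hu).fderiv_eq]
    simp
  by_cases hu : ‖u‖ < r + l / 4
  · rw [(l1 u hu).fderiv_eq]
    simp only [fderiv_fun_const, Pi.zero_apply, zero_apply, norm_zero]
    positivity
  have h4 := far u hu
  have h0 : x - u ≠ 0 := norm_pos_iff.1 (by linarith)
  have h1 : HasDerivAt (fun u : ℂ => (x - u)⁻¹) (1 / (x - u) ^ 2) u := by
    have := ((hasDerivAt_id u).const_sub x).fun_inv h0
    rw [neg_neg] at this
    exact this
  have h2 := ((hg.differentiable one_ne_zero) u).hasFDerivAt.fun_mul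
    (h1.hasFDerivAt.restrictScalars ℝ)
  simp only [div_eq_mul_inv]
  have e : fderiv ℝ (fun u => grad κ u * (x - u)⁻¹) u w =
      grad κ u * (w * ((x - u)⁻¹) ^ 2) + (x - u)⁻¹ * fderiv ℝ (grad κ) u w := by
    rw [h2.fderiv]
    simp
  rw [e]
  have b1 : ‖grad κ u‖ ≤ C₀ / l := (hn u).trans_le (hκ.d1 u)
  have b0 : ∀ y : ℂ, ‖y‖ = 1 → |fderiv ℝ (fderiv ℝ κ) u w y| ≤ C₀ / l ^ 2 := fun y hy => by
    have := (fderiv ℝ (fderiv ℝ κ) u).le_opNorm₂ w y
    rw [hw, hy, mul_one, mul_one] at this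
    exact this.trans (hκ.d2 u)
  have b2 : ‖fderiv ℝ (grad κ) u w‖ ≤ 2 * (C₀ / l ^ 2) := by
    rw [fderiv_grad_pomp hκ.smooth]
    refine (norm_add_le _ _).trans ?_
    rw [norm_mul, Complex.norm_I, mul_one, Complex.norm_real, Complex.norm_real]
    linarith [b0 1 norm_one, b0 Complex.I Complex.norm_I, Real.norm_eq_abs
      (fderiv ℝ (fderiv ℝ κ) u w 1), Real.norm_eq_abs (fderiv ℝ (fderiv ℝ κ) u w Complex.I)]
  have b3 : ‖x - u‖⁻¹ ≤ 4 / l := by
    rw [← inv_div]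
    exact inv_anti₀ (by positivity) h4
  refine (norm_add_le _ _).trans ?_
  rw [norm_mul, norm_mul, norm_mul, norm_pow, norm_inv, hw, one_mul]
  calc _ ≤ C₀ / l * (4 / l) ^ 2 + 4 / l * (2 * (C₀ / l ^ 2)) := by gcongr
    _ = _ := by field_simp; ring

theorem grad_rep (C₀ : ℝ) : ∃ C : ℝ, 0 < C ∧ ∀ (v κ : ℂ → ℝ) (r l A : ℝ), ContDiff ℝ 2 v →
    Cut κ r l C₀ → 0 ≤ r → 0 < l → (∀ u : ℂ, ‖u‖ ≤ r + l → |v u| ≤ A) → ∀ x : ℂ, ‖x‖ ≤ r →
    ‖(starRingEnd ℂ) (grad v x) -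
        (1 / (2 * Real.pi) : ℂ) * ∫ u, ((κ u * lap v u : ℝ) : ℂ) / (x - u)‖ ≤
      C * A * (r + l) ^ 2 / l ^ 3 := by
  refine ⟨24 * |C₀| + 1, by positivity, fun v κ r l A hv hκ hr hl hA x hx => ?_⟩
  obtain ⟨hφ, hφ0, hφ1⟩ := phi_pomp hκ hl hx
  obtain ⟨hlap, hg, -, -⟩ := continuous_lap hv
  have hA0 : 0 ≤ A := (abs_nonneg _).trans (hA 0 (by simp; linarith))
  have hpi := Real.pi_pos
  have hκc : HasCompactSupport fun u => (κ u : ℂ) :=
    compact_pomp (R := r + 3 * l / 4) fun u hu => by simp [hκ.zero u hu.le]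
  have hφc : HasCompactSupport fun u => grad κ u / (x - u) :=
    compact_pomp fun u hu => (hφ0 u hu).1
  have hcg : ContDiff ℝ 1 fun u => (starRingEnd ℂ) (grad v u) :=
    (Complex.conjCLE : ℂ →L[ℝ] ℂ).contDiff.comp hg
  have h1 := ct_dbar (ψ := fun u => (κ u : ℂ) * (starRingEnd ℂ) (grad v u))
    ((Complex.ofRealCLM.contDiff.comp (hκ.smooth.of_le (by norm_num))).mul hcg) hκc.mul_right x
  have hκ0 := hκ.smooth.continuous
  have i1 : Integrable fun u => ((κ u * lap v u : ℝ) : ℂ) / (x - u) := by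
    have := (integrable_ct (ψ := fun u => ((κ u * lap v u : ℝ) : ℂ)) (by fun_prop)
      (compact_pomp (R := r + 3 * l / 4) fun u hu => by simp [hκ.zero u hu.le]) x).neg
    refine this.congr (Eventually.of_forall fun u => ?_)
    simp only [Pi.neg_apply]
    rw [← div_neg, neg_sub]
  have i2 : Integrable fun u => grad κ u / (x - u) * (starRingEnd ℂ) (grad v u) :=
    (hφ.continuous.mul hcg.continuous).integrable_of_hasCompactSupport hφc.mul_right
  have e1 : (fun ζ => dbar (fun u => (κ u : ℂ) * (starRingEnd ℂ) (grad v u)) ζ / (ζ - x)) =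
      fun u => -(1 / 2 : ℂ) * (((κ u * lap v u : ℝ) : ℂ) / (x - u) +
        grad κ u / (x - u) * (starRingEnd ℂ) (grad v u)) := funext fun u => by
    rw [dbar_mul_pomp hv hκ.smooth, ← neg_sub x u, div_neg]
    ring
  rw [ct, e1, integral_const_mul, integral_add i1 i2, ibp_pomp hv hφ hφc,
    hκ.one x (by linarith), Complex.ofReal_one, one_mul] at h1
  have h2 : ‖∫ u, (Complex.I * fderiv ℝ (fun u => grad κ u / (x - u)) u Complex.I -
      fderiv ℝ (fun u => grad κ u / (x - u)) u 1) * v u‖ ≤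
      2 * (24 * |C₀| / l ^ 3) * A * (Real.pi * (r + l) ^ 2) := by
    rw [← setIntegral_eq_integral_of_forall_compl_eq_zero (s := ball 0 (r + l)) fun u hu => by
      rw [(hφ0 u (by simp at hu; linarith)).2]; simp]
    refine (norm_setIntegral_le_of_norm_le_const (C := 2 * (24 * |C₀| / l ^ 3) * A)
      measure_ball_lt_top fun u hu => ?_).trans (le_of_eq ?_)
    · have b : 24 * C₀ / l ^ 3 ≤ 24 * |C₀| / l ^ 3 := by gcongr; exact le_abs_self _
      rw [norm_mul, Complex.norm_real]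
      refine mul_le_mul ((norm_sub_le _ _).trans ?_) (hA u (mem_ball_zero_iff.1 hu).le)
        (norm_nonneg _) (by positivity)
      rw [norm_mul, Complex.norm_I, one_mul]
      linarith [hφ1 u 1 norm_one, hφ1 u Complex.I Complex.norm_I]
    · rw [measureReal_def, Complex.volume_ball]
      simp [ENNReal.toReal_ofReal (show 0 ≤ r + l by linarith), mul_comm]
  rw [← h1]
  have e2 : ∀ a b : ℂ, -(1 / Real.pi : ℂ) * (-(1 / 2 : ℂ) * (a + b)) - 1 / (2 * Real.pi) * a =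
      ((1 / (2 * Real.pi) : ℝ) : ℂ) * b := fun a b => by
    push_cast
    ring
  rw [e2, norm_mul, Complex.norm_real, Real.norm_of_nonneg (by positivity)]
  calc _ ≤ 1 / (2 * Real.pi) * (2 * (24 * |C₀| / l ^ 3) * A * (Real.pi * (r + l) ^ 2)) := by gcongr
    _ = 24 * |C₀| * A * (r + l) ^ 2 / l ^ 3 := by field_simp
    _ ≤ _ := by gcongr; linarith

theorem grad_est : ∃ C : ℝ, 0 < C ∧ ∀ (v : ℂ → ℝ) (x : ℂ) (l A B : ℝ), ContDiff ℝ 2 v → 0 < l →
    (∀ u ∈ closedBall x l, |v u| ≤ A ∧ |lap v u| ≤ B) → ‖grad v x‖ ≤ C * (A / l + B * l) := by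
  obtain ⟨C₀, -, hC₀⟩ := exists_cut
  obtain ⟨C, hC, hrep⟩ := grad_rep C₀
  refine ⟨C + 3, by positivity, fun v x l A B hv hl h => ?_⟩
  obtain ⟨κ, hκ⟩ := hC₀ 0 l le_rfl hl
  have hmem : ∀ u : ℂ, ‖u‖ ≤ l → u + x ∈ closedBall x l := fun u hu => by simpa using hu
  have hA0 : 0 ≤ A := (abs_nonneg _).trans (h x (mem_closedBall_self hl.le)).1
  have hB0 : 0 ≤ B := (abs_nonneg _).trans (h x (mem_closedBall_self hl.le)).2
  have hpi := Real.pi_pos
  have e0 : fderiv ℝ (fun u => v (u + x)) = fun u => fderiv ℝ v (u + x) :=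
    funext fun u => fderiv_comp_add_right x
  have e1 : grad (fun u => v (u + x)) 0 = grad v x := by simp [grad, e0]
  have e2 : ∀ u, lap (fun u => v (u + x)) u = lap v (u + x) := fun u => by
    simp only [lap, e0, fderiv_comp_add_right]
  have h1 := hrep (fun u => v (u + x)) κ 0 l A (hv.comp (contDiff_id.add contDiff_const)) hκ le_rfl
    hl (fun u hu => (h _ (hmem u (by simpa using hu))).1) 0 (by simp)
  have h2 := norm_ct_le (ψ := fun u => ((κ u * lap v (u + x) : ℝ) : ℂ)) (S := ball 0 l) (M := B)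
    (V := Real.pi * l ^ 2) (r := l) measurableSet_ball hB0 (by positivity) (by
      rw [Complex.volume_ball, mul_comm Real.pi, ENNReal.ofReal_mul (by positivity),
        ENNReal.ofReal_pow hl.le, ← NNReal.coe_real_pi, ENNReal.ofReal_coe_nnreal])
    (fun u => by
      rw [Complex.norm_real, Real.norm_eq_abs, abs_mul, abs_of_nonneg (hκ.mem u).1]
      by_cases hu : ‖u‖ ≤ l
      · exact (mul_le_of_le_one_left (abs_nonneg _) (hκ.mem u).2).trans (h _ (hmem u hu)).2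
      · rw [hκ.zero u (by linarith [not_le.1 hu]), zero_mul]
        exact hB0)
    (fun u hu => by simp [hκ.zero u (by simp at hu; linarith)]) hl 0
  have e3 : (1 / (2 * Real.pi) : ℂ) * ∫ u, ((κ u * lap v (u + x) : ℝ) : ℂ) / (0 - u) =
      1 / 2 * ct (fun u => ((κ u * lap v (u + x) : ℝ) : ℂ)) 0 := by
    simp only [ct, zero_sub, sub_zero, div_neg, integral_neg]
    ring
  simp only [e1, e2] at h1
  rw [e3] at h1
  have h3 := (norm_sub_norm_le _ _).trans h1
  rw [Complex.norm_conj, norm_mul] at h3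
  have e4 : C * A * (0 + l) ^ 2 / l ^ 3 = C * (A / l) := by
    rw [zero_add]
    field_simp
  have e5 : Real.pi * l ^ 2 / l = Real.pi * l := by field_simp
  have e6 : ‖(1 / 2 : ℂ)‖ = 1 / 2 := by simp
  rw [e4, e6] at h3
  rw [e5] at h2
  have h4 : B * (Real.pi * l) ≤ B * (4 * l) := by gcongr; exact Real.pi_le_four
  have h5 : 0 ≤ A / l := by positivity
  have h6 : 0 ≤ C * (B * l) := by positivity
  nlinarith

end Pool.Agent.Lib.MP_8daebb_an.SV
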