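import Pool.Agent.Lib.MP_8daebb_an.SV.AvD
import Pool.Agent.Lib.MP_8daebb_an.SV.Pomp

/-! Change of the averaging scale. -/

open MeasureTheory Metric Filter Topology Set
open scoped RealInnerProductSpace ENNReal ContDiff

namespace Pool.Agent.Lib.MP_8daebb_an.SV

variable {α : Type*} [MeasurableSpace α] {H : Type*} [NormedAddCommGroup H]
  [InnerProductSpace ℝ H] [FiniteDimensional ℝ H] [MeasurableSpace H] [BorelSpace H]

theorem av_z_resc {D : CD α H} {c : ℂ} {R δ M : ℝ} (h : CV D c R δ M) {ρ : ℝ} (hρ : 0 < ρ)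
    (e : H) (v : ℂ) : D.av ρ (D.z e) v = ⟪D.av ρ D.y v, e⟫ := by
  unfold CD.av CD.z
  rw [real_inner_comm, ← integral_inner (h.int_av hρ h.integrable_t.2.2.2.2.2 v)]
  congr 1
  ext a
  rw [inner_smul_right, real_inner_comm, smul_eq_mul]

theorem swap_resc {D : CD α H} {c : ℂ} {R δ M : ℝ} (h : CV D c R δ M) {ρ ρ' : ℝ} (hρ : 0 < ρ)
    (hρ' : 0 < ρ') {f : α → ℝ} (hf : Integrable f D.m) (u : ℂ) :
    Integrable (fun v => kr ρ (u - v) * D.av ρ' f v) ∧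
      ∫ v, kr ρ (u - v) * D.av ρ' f v = ∫ v, kr ρ' (u - v) * D.av ρ f v := by
  have k : ∀ {σ σ' : ℝ}, 0 < σ → 0 < σ' → Integrable (fun v => kr σ (u - v) * D.av σ' f v) ∧
      ∫ v, kr σ (u - v) * D.av σ' f v =
        ∫ a, (∫ v, kr σ (u - v) * kr σ' (v - D.x a)) * f a ∂D.m := fun {σ σ'} h1 h2 =>
    h.integral_av h2 hf (κ := fun v => kr σ (u - v))
      ((kr_meas_av σ).comp (measurable_const.sub measurable_id)) (B := Ck / σ ^ 2) fun v => by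
        rw [abs_of_nonneg (kr_nonneg _ _)]
        exact (kr_le h1 _).1
  refine ⟨(k hρ hρ').1, ?_⟩
  rw [(k hρ hρ').2, (k hρ' hρ).2]
  congr 1
  ext a
  congr 1
  rw [← integral_sub_left_eq_self _ volume (u + D.x a)]
  congr 1
  ext v
  rw [mul_comm]
  congr 2 <;> ring

/-- Change of the averaging scale. -/
theorem rescale (M : ℝ) : ∃ C : ℝ, 0 < C ∧ ∀ (D : CD α H) (R δ s ρ ρ' l β : ℝ) (u : ℂ),
    CV D 0 R δ M → δ ≤ 1 / 2 → Sm D s ρ' → ρ' ≤ ρ → ρ ≤ l → l ≤ 1 / 2 →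
    ‖u‖ + ρ + l + 2 * ρ' ≤ R → (∀ v : ℂ, ‖v - u‖ ≤ ρ' → ‖D.av ρ D.y v‖ ≤ β) →
    ‖D.av ρ' D.y u‖ ≤ β + C * s ^ 2 * (ρ / l + ρ * l / ρ') := by
  obtain ⟨C₁, hC₁, hlap⟩ := lap_av (α := α) (H := H) M
  obtain ⟨C₂, hC₂, hgr⟩ := grad_est
  have hk := one_le_Ck
  refine ⟨C₂ * (Ck * |M| + C₁), by positivity,
    fun D R δ s ρ ρ' l β u h hδ hs h1 h2 h3 hu hβ => ?_⟩
  have hρ' := hs.ρ_pos
  have hρ : 0 < ρ := hρ'.trans_le h1
  have hl : 0 < l := hρ.trans_le h2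
  have hβ0 : 0 ≤ β := (norm_nonneg _).trans (hβ u (by simpa using hρ'.le))
  by_cases h0 : D.av ρ' D.y u = 0
  · rw [h0, norm_zero]
    positivity
  have hn : 0 < ‖D.av ρ' D.y u‖ := norm_pos_iff.2 h0
  obtain ⟨e, he, hu'⟩ : ∃ e : H, ‖e‖ = 1 ∧ ⟪D.av ρ' D.y u, e⟫ = ‖D.av ρ' D.y u‖ :=
    ⟨‖D.av ρ' D.y u‖⁻¹ • D.av ρ' D.y u, norm_smul_inv_norm h0, by
      rw [inner_smul_right, real_inner_self_eq_norm_mul_norm, inv_mul_cancel_left₀ hn.ne']⟩
  have hz : Integrable (D.z e) D.m := h.integrable_t.2.2.2.2.2.inner_const e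
  have hle : ∀ {σ : ℝ}, 0 < σ → ∀ v, |D.av σ (D.z e) v| ≤ ‖D.av σ D.y v‖ := fun hσ v => by
    rw [av_z_resc h hσ]
    exact (abs_real_inner_le_norm _ _).trans (by rw [he, mul_one])
  have hsm := (h.av_smooth hρ' hz).1
  have hG : ∀ x ∈ closedBall u ρ, ‖fderiv ℝ (D.av ρ' (D.z e)) x‖ ≤
      C₂ * (Ck * |M| * s ^ 2 / l + C₁ * s ^ 2 / ρ' * l) := fun x hx => by
    rw [← (continuous_lap hsm).2.2.2]
    refine hgr _ x l _ _ hsm hl fun w hw => ⟨(hle hρ' w).trans ?_, ?_⟩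
    · refine (hs.av_le h (by linarith) w).2.2.2.trans ?_
      gcongr
      exact le_abs_self M
    · refine hlap D R δ s ρ' e h hδ hs (by linarith) he w ?_
      rw [mem_closedBall, dist_eq_norm] at hx hw
      linarith [norm_sub_norm_le w x, norm_sub_norm_le x u]
  generalize hg : C₂ * (Ck * |M| * s ^ 2 / l + C₁ * s ^ 2 / ρ' * l) = G at hG
  have hG0 : 0 ≤ G := by
    rw [← hg]
    positivity
  obtain ⟨i1, e1⟩ := swap_resc h hρ hρ' hz u
  obtain ⟨i2, -⟩ := swap_resc h hρ' hρ hz u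
  obtain ⟨i3, e3⟩ := kr_shift_av' hρ u
  obtain ⟨i4, e4⟩ := kr_shift_av' hρ' u
  have a1 : ∫ v, kr ρ' (u - v) * D.av ρ (D.z e) v ≤ ∫ v, kr ρ' (u - v) * β := by
    refine integral_mono i2 (i4.mul_const _) fun v => ?_
    by_cases hv : ‖v - u‖ < ρ'
    · exact mul_le_mul_of_nonneg_left ((le_abs_self _).trans ((hle hρ v).trans (hβ v hv.le)))
        (kr_nonneg _ _)
    · simp only [kr_off_av hρ' hv, zero_mul, le_refl]
  have a2 : ∫ v, kr ρ (u - v) * (D.av ρ' (D.z e) u - G * ρ) ≤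
      ∫ v, kr ρ (u - v) * D.av ρ' (D.z e) v := by
    refine integral_mono (i3.mul_const _) i1 fun v => ?_
    by_cases hv : ‖v - u‖ < ρ
    · refine mul_le_mul_of_nonneg_left ?_ (kr_nonneg _ _)
      have := (convex_closedBall u ρ).norm_image_sub_le_of_norm_fderiv_le
        (fun x _ => hsm.differentiable (by norm_num) x) hG (mem_closedBall_self hρ.le)
        (mem_closedBall_iff_norm.2 hv.le)
      have b := mul_le_mul_of_nonneg_left hv.le hG0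
      linarith [(abs_le.1 this).1]
    · simp only [kr_off_av hρ hv, zero_mul, le_refl]
  rw [integral_mul_const, e4, one_mul] at a1
  rw [integral_mul_const, e3, one_mul, av_z_resc h hρ', hu'] at a2
  have a3 : G * ρ ≤ C₂ * (Ck * |M| + C₁) * s ^ 2 * (ρ / l + ρ * l / ρ') := by
    have b1 : 0 ≤ C₂ * (Ck * |M|) * s ^ 2 * (ρ * l / ρ') := by positivity
    have b2 : 0 ≤ C₂ * C₁ * s ^ 2 * (ρ / l) := by positivity
    rw [← hg]
    refine le_of_sub_nonneg (le_of_le_of_eq (add_nonneg b1 b2) ?_)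
    ring
  linarith

end Pool.Agent.Lib.MP_8daebb_an.SV
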