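import Pool.Agent.Lib.MP_8daebb_an.SV.MsOf
import Pool.Agent.Lib.MP_8daebb_an.SV.FreqU
import Pool.Agent.Lib.MP_8daebb_an.SV.Resc
import Pool.Agent.Lib.MP_8daebb_an.SV.CmpM

/-! Change of the centre at the end of a stage. -/

open MeasureTheory Metric Filter Topology Set
open scoped RealInnerProductSpace ENNReal ContDiff

namespace Pool.Agent.Lib.MP_8daebb_an.SV

variable {α : Type*} [MeasurableSpace α] {H : Type*} [NormedAddCommGroup H]
  [InnerProductSpace ℝ H] [FiniteDimensional ℝ H] [MeasurableSpace H] [BorelSpace H]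

theorem ux_pos_switch (L k : ℝ) : 0 < ux L k := Real.exp_pos _

theorem ux_mul_switch (L a b : ℝ) : ux L a * ux L b = ux L (a + b) := by
  unfold ux
  rw [← Real.exp_add]
  congr 1
  ring

theorem ux_div_switch (L a b : ℝ) : ux L a / ux L b = ux L (a - b) := by
  unfold ux
  rw [← Real.exp_sub]
  congr 1
  ring

theorem ux_pow_switch (L a : ℝ) (n : ℕ) : ux L a ^ n = ux L (n * a) := by
  unfold ux
  rw [← Real.exp_nat_mul]
  congr 1
  ring

theorem ux_sc_switch (L κ k : ℝ) : ux (L * (1 + κ)) k = ux L (k + k * κ) := by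
  unfold ux
  congr 1
  ring

theorem ux_zero_switch (L : ℝ) : ux L 0 = 1 := by
  unfold ux
  simp

theorem ux_anti_switch {L a b : ℝ} (hL : 0 ≤ L) (h : a ≤ b) : ux L b ≤ ux L a :=
  Real.exp_le_exp.2 (neg_le_neg (mul_le_mul_of_nonneg_right h hL))

theorem ux_sqrt_switch (L a : ℝ) : √(ux L a) = ux L (a / 2) := by
  rw [Real.sqrt_eq_iff_mul_self_eq (ux_pos_switch L a).le (ux_pos_switch L _).le, ux_mul_switch]
  congr 1
  ring

theorem small_switch {L c a a' : ℝ} (hL : 0 ≤ L) (hc : c ≤ L) (h : a + 1 ≤ a') :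
    c * ux L a' ≤ ux L a := by
  have h1 : ux L a' ≤ ux L a * ux L 1 := by
    rw [ux_mul_switch]
    exact ux_anti_switch hL h
  have h2 : L * ux L 1 ≤ 1 := by
    unfold ux
    rw [one_mul, Real.exp_neg, ← div_eq_mul_inv, div_le_one (Real.exp_pos L)]
    linarith [Real.add_one_le_exp L]
  have h3 := ux_pos_switch L a
  have h4 := ux_pos_switch L a'
  calc c * ux L a' ≤ L * ux L a' := mul_le_mul_of_nonneg_right hc h4.le
    _ ≤ L * (ux L a * ux L 1) := mul_le_mul_of_nonneg_left h1 hL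
    _ = ux L a * (L * ux L 1) := by ring
    _ ≤ ux L a * 1 := mul_le_mul_of_nonneg_left h2 h3.le
    _ = ux L a := mul_one _

theorem half_switch {L κ : ℝ} (h : 1 ≤ κ * L) : 2 * ux L κ ≤ 1 := by
  unfold ux
  rw [Real.exp_neg, ← div_eq_mul_inv, div_le_one (Real.exp_pos _)]
  linarith [Real.add_one_le_exp (κ * L)]

/-- Sizes of the lengths. -/
theorem numA_switch {L b κ ρ₀ cN : ℝ} (hb : 64 ≤ b) (hκ : 0 < κ) (hA : κ * (40 * b + 12) = 1)
    (hL : 4 ≤ L) (hκL : 1 ≤ κ * L) (hρ₀ : 0 < ρ₀) (h1 : ρ₀⁻¹ ≤ L) (hcN : 0 < cN)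
    (h2 : cN⁻¹ ≤ L) :
    ux L 1 * ux L κ = ux (L * (1 + κ)) 1 ∧ 2 * ux (L * (1 + κ)) 2 ≤ ux (L * (1 + κ)) 1 ∧
      ux (L * (1 + κ)) b ≤ ρ₀ ∧ ux (L * (1 + κ)) b ≤ cN ∧
      ux (L * (1 + κ)) b ≤ cN * ux (L * (1 + κ)) 2 ∧ ux (L * (1 + κ)) b ≤ ux L b ∧
      ux L b ≤ ux L (b / 2) ∧ ux L (b / 2) ≤ 1 / 2 ∧ 4 * ux L (b / 2) ≤ ux (L * (1 + κ)) 2 ∧
      ux L (20 * b + 16) ≤ cN * ux (L * (1 + κ)) b ^ 2 ∧
      ux (L * (1 + κ)) 1 + ux L (20 * b + 16) ≤ ux L 1 ∧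
      ux L (20 * b + 16) ≤ ux (L * (1 + κ)) 2 ∧
      ux (L * (1 + κ)) (10 * b) ^ 2 ≤ ux (L * (1 + κ)) 2 ∧ ux L (40 * b + 9) ≤ 1 ∧
      2 * ux (L * (1 + κ)) (40 * b + 13) ≤ ux L (40 * b + 14) ∧
      2 * ux L (40 * b + 14) ≤ ux (L * (1 + κ)) (40 * b + 12) ∧
      ux (L * (1 + κ)) (40 * b + 17) ≤ ux L 3 * ux L (40 * b + 14) := by
  have hL0 : 0 ≤ L := by linarith
  have hp : 0 ≤ b * κ := by positivity
  have hp1 : 64 * κ ≤ b * κ := mul_le_mul_of_nonneg_right hb hκ.le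
  have hA' : 40 * (b * κ) + 12 * κ = 1 := by linarith
  have hh := half_switch hκL
  have inv : ∀ {c a a' : ℝ}, 0 < c → c⁻¹ ≤ L → a + 1 ≤ a' → ux L a' ≤ c * ux L a := by
    intro c a a' hc h3 h4
    have h5 := small_switch hL0 h3 h4
    rwa [inv_mul_le_iff₀ hc] at h5
  simp only [ux_sc_switch, ux_pow_switch, ux_mul_switch]
  refine ⟨by rw [one_mul], small_switch hL0 (by linarith) (by linarith), ?_, ?_,
    inv hcN h2 (by linarith), ux_anti_switch hL0 (by linarith), ux_anti_switch hL0 (by linarith),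
    ?_, small_switch hL0 hL (by linarith), inv hcN h2 (by push_cast; linarith), ?_,
    ux_anti_switch hL0 (by linarith), ux_anti_switch hL0 (by push_cast; linarith), ?_, ?_,
    small_switch hL0 (by linarith) (by linarith), ux_anti_switch hL0 (by linarith)⟩
  · have h3 := inv (a := 0) (a' := b + b * κ) hρ₀ h1 (by linarith)
    rwa [ux_zero_switch, mul_one] at h3
  · have h3 := inv (a := 0) (a' := b + b * κ) hcN h2 (by linarith)
    rwa [ux_zero_switch, mul_one] at h3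
  · have h3 := small_switch (c := 2) (a := 0) (a' := b / 2) hL0 (by linarith) (by linarith)
    rw [ux_zero_switch] at h3
    linarith
  · have h3 := small_switch (c := 2) (a := 1) (a' := 20 * b + 16) hL0 (by linarith) (by linarith)
    have h4 := mul_le_mul_of_nonneg_left hh (ux_pos_switch L 1).le
    rw [one_mul, ← ux_mul_switch]
    linarith
  · rw [← ux_zero_switch L]
    exact ux_anti_switch hL0 (by linarith)
  · have h4 := mul_le_mul_of_nonneg_left hh (ux_pos_switch L (40 * b + 14)).le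
    rw [show 40 * b + 13 + (40 * b + 13) * κ = 40 * b + 14 + κ by linarith, ← ux_mul_switch]
    linarith

/-- Sizes of the errors. -/
theorem numB_switch {L b κ Cr CN Cc Cs : ℝ} (hb : 64 ≤ b) (hκ : 0 < κ)
    (hA : κ * (40 * b + 12) = 1) (hL : 8 ≤ L) (hCr : 0 < Cr) (h1 : 2 * Cr ≤ L)
    (h2 : 3 * |CN| ≤ L) (hCc : 0 < Cc) (hCs : 0 < Cs) (h3 : 6 * Cc + Cs ≤ L) :
    Cr * ux (L * (1 + κ)) (10 * b) ^ 2 *
        (ux L b / ux L (b / 2) + ux L b * ux L (b / 2) / ux (L * (1 + κ)) b) ≤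
        ux L (20 * b + 30) ∧
      CN * (2 * ux L (20 * b + 30) + ux (L * (1 + κ)) (10 * b) ^ 2 * ux (L * (1 + κ)) b) /
        ux (L * (1 + κ)) 2 ^ 6 ≤ ux L (20 * b + 16) ∧
      4 * ux L (40 * b + 9) + Cc * ux L (20 * b + 16) ^ 2 ≤ ux (L * (1 + κ)) (40 * b + 6) ∧
      CN * ux (L * (1 + κ)) b * (ux (L * (1 + κ)) (10 * b) ^ 2 + ux L (20 * b + 16)) /
        ux (L * (1 + κ)) 2 ^ 6 ≤ ux (L * (1 + κ)) (20 * b + 30) ∧
      (∀ r, ux (L * (1 + κ)) 1 ≤ r →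
        Cc * ux L (20 * b + 16) * (√(ux L (40 * b + 9)) + ux L (20 * b + 16)) / r ^ 3 ≤
          2 * Cc * ux L 3 * ux L (40 * b + 14)) ∧
      (6 * Cc + Cs) * ux L 3 ≤ 1 / L := by
  have hL0 : 0 ≤ L := by linarith
  have hp : 0 ≤ b * κ := by positivity
  have hp1 : 64 * κ ≤ b * κ := mul_le_mul_of_nonneg_right hb hκ.le
  have hA' : 40 * (b * κ) + 12 * κ = 1 := by linarith
  have hCN := le_abs_self CN
  have hCN0 := abs_nonneg CN
  have P := ux_pos_switch L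
  simp only [ux_sc_switch, ux_pow_switch, ux_mul_switch, ux_div_switch, ux_sqrt_switch]
  push_cast
  refine ⟨?_, ?_, ?_, ?_, fun r hr => ?_, ?_⟩
  · have a1 : ux L (b - b / 2) ≤ ux L 31 := ux_anti_switch hL0 (by linarith)
    have a2 : ux L (b + b / 2 - (b + b * κ)) ≤ ux L 31 := ux_anti_switch hL0 (by linarith)
    have a3 := small_switch (a := 20 * b + 30) (a' := 2 * (10 * b + 10 * b * κ) + 31) hL0 h1
      (by linarith)
    rw [← ux_mul_switch] at a3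
    have a4 := mul_le_mul_of_nonneg_left (add_le_add a1 a2)
      (mul_pos hCr (P (2 * (10 * b + 10 * b * κ)))).le
    linarith
  · rw [div_le_iff₀ (P _), ux_mul_switch]
    have a1 : ux L (2 * (10 * b + 10 * b * κ) + (b + b * κ)) ≤ ux L (20 * b + 30) :=
      ux_anti_switch hL0 (by linarith)
    have a2 := small_switch (a := 20 * b + 16 + 6 * (2 + 2 * κ)) (a' := 20 * b + 30) hL0 h2
      (by linarith)
    have a3 := P (2 * (10 * b + 10 * b * κ) + (b + b * κ))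
    have a4 := P (20 * b + 30)
    calc _ ≤ |CN| * (2 * ux L (20 * b + 30) + ux L (2 * (10 * b + 10 * b * κ) + (b + b * κ))) :=
          mul_le_mul_of_nonneg_right hCN (by linarith)
      _ ≤ |CN| * (3 * ux L (20 * b + 30)) := mul_le_mul_of_nonneg_left (by linarith) hCN0
      _ ≤ _ := by linarith
  · have a1 := small_switch (a := 40 * b + 6 + (40 * b + 6) * κ) (a' := 40 * b + 9) hL0 hL
      (by linarith)
    have a2 := small_switch (c := 2 * Cc) (a := 40 * b + 6 + (40 * b + 6) * κ)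
      (a' := 2 * (20 * b + 16)) hL0 (by linarith) (by linarith)
    linarith
  · rw [div_le_iff₀ (P _), ux_mul_switch]
    have a1 : ux L (20 * b + 16) ≤ ux L (2 * (10 * b + 10 * b * κ)) :=
      ux_anti_switch hL0 (by linarith)
    have a2 := small_switch (c := 2 * |CN|)
      (a := 20 * b + 30 + (20 * b + 30) * κ + 6 * (2 + 2 * κ))
      (a' := b + b * κ + 2 * (10 * b + 10 * b * κ)) hL0 (by linarith) (by linarith)
    rw [← ux_mul_switch L (b + b * κ)] at a2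
    have a3 := P (2 * (10 * b + 10 * b * κ))
    have a4 := P (20 * b + 16)
    have a5 := P (b + b * κ)
    calc _ ≤ |CN| * ux L (b + b * κ) * (ux L (2 * (10 * b + 10 * b * κ)) + ux L (20 * b + 16)) :=
          mul_le_mul_of_nonneg_right (mul_le_mul_of_nonneg_right hCN a5.le) (by linarith)
      _ ≤ |CN| * ux L (b + b * κ) * (2 * ux L (2 * (10 * b + 10 * b * κ))) :=
          mul_le_mul_of_nonneg_left (by linarith) (mul_nonneg hCN0 a5.le)
      _ ≤ _ := by linarith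
  · have a0 := P (1 + 1 * κ)
    have a1 : ux L (7 / 2) ≤ r ^ 3 := by
      refine le_trans ?_ (pow_le_pow_left₀ a0.le hr 3)
      rw [ux_pow_switch]
      exact ux_anti_switch hL0 (by push_cast; linarith)
    have a2 : ux L (20 * b + 16) ≤ ux L ((40 * b + 9) / 2) := ux_anti_switch hL0 (by linarith)
    have a3 : ux L (20 * b + 16) * ux L ((40 * b + 9) / 2) =
        ux L 3 * ux L (40 * b + 14) * ux L (7 / 2) := by
      simp only [ux_mul_switch]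
      congr 1
      ring
    have a4 := P (20 * b + 16)
    have a5 := P 3
    have a6 := P (40 * b + 14)
    rw [div_le_iff₀ ((P _).trans_le a1)]
    calc _ ≤ Cc * ux L (20 * b + 16) * (2 * ux L ((40 * b + 9) / 2)) :=
          mul_le_mul_of_nonneg_left (by linarith) (mul_pos hCc a4).le
      _ = 2 * Cc * ux L 3 * ux L (40 * b + 14) * ux L (7 / 2) := by
          linear_combination 2 * Cc * a3
      _ ≤ _ := mul_le_mul_of_nonneg_left a1 (by positivity)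
  · have a1 := small_switch (a := 1) (a' := 3) hL0 h3 (by norm_num)
    have a2 := small_switch (a := 0) (a' := 1) hL0 le_rfl (by norm_num)
    rw [ux_zero_switch] at a2
    refine a1.trans ?_
    rw [le_div_iff₀ (by linarith)]
    linarith

theorem freq_switch {E d d' h h' e η v B' L Cs t : ℝ} (hL : 1 ≤ L) (hB : 1 ≤ B') (hh : 0 < h)
    (hη : 0 ≤ η) (hv : 0 ≤ v) (hs : 3 * η + v ≤ 1 / L) (he : e ≤ η * h) (h1 : h - e ≤ h')
    (h2 : d' ≤ d + e) (h3 : d ≤ B' * h) (h4 : 2 * E - d' ≤ v * h + Cs * (t * h')) :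
    2 * E ≤ (B' * Real.exp (1 / L) + Cs * t) * h' := by
  have hx : 1 / L ≤ 1 := by
    rw [div_le_one (by linarith)]
    exact hL
  have hx0 : 0 ≤ 1 / L := by positivity
  have a1 := Real.add_one_le_exp (1 / L)
  have a2 : (1 - η) * h ≤ h' := by linarith
  have a3 : 0 ≤ (1 - η) * h := mul_nonneg (by linarith) hh.le
  have a4 : (1 / L + 1) * ((1 - η) * h) ≤ Real.exp (1 / L) * h' :=
    mul_le_mul a1 a2 a3 (Real.exp_pos _).le
  have a5 : 1 + (η + v) ≤ (1 / L + 1) * (1 - η) := by nlinarith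
  have a6 : (1 + (η + v)) * h ≤ Real.exp (1 / L) * h' := by
    have := mul_le_mul_of_nonneg_right a5 hh.le
    linarith
  have a7 := mul_le_mul_of_nonneg_left a6 (by linarith : 0 ≤ B')
  have a8 : 1 * ((η + v) * h) ≤ B' * ((η + v) * h) :=
    mul_le_mul_of_nonneg_right hB (by positivity)
  linarith

theorem En_mono_switch {D : CD α H} {R δ M σ σ' : ℝ} (h : CV D 0 R δ M) (hσ : σ ≤ σ') :
    D.En 0 σ ≤ D.En 0 σ' ∧ D.En 0 σ ≤ ∫ a, D.en a ∂D.m := by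
  have h0 : 0 ≤ᵐ[D.m] D.en := by
    filter_upwards [h.ae_G] with a ha
    exact add_nonneg (h.pw a ha).t_nonneg (sq_nonneg _)
  exact ⟨setIntegral_mono_set h.integrable_t.2.2.2.1.integrableOn (ae_restrict_of_ae h0)
    (cyl_mono_base2 D 0 hσ).eventuallyLE, setIntegral_le_integral h.integrable_t.2.2.2.1 h0⟩

theorem rad_switch {r r' q R u u' l l₀ ρ ρ' e s R₁ R' : ℝ}
    (hρ : 0 < ρ') (h1 : 16 * u' ≤ q) (h2 : 16 * u' ≤ r') (h3 : r' + 2 * q ≤ r)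
    (h4 : r ≤ 1) (h5 : r ≤ R) (h7 : 2 * l ≤ u') (h8 : ρ' ≤ ρ) (h9 : ρ ≤ l₀)
    (h10 : 4 * l₀ ≤ l) (h11 : u' + e ≤ u) (h12 : e ≤ l) (h13 : s ≤ l)
    (hR₁ : R₁ = r' + 3 / 2 * q - 2 * l) (hR' : R' = R₁ - 8 * l) :
    0 < R ∧ 0 < r' + 3 / 2 * q ∧ r' + 3 / 2 * q ≤ R ∧ R₁ ≤ R ∧ 20 * ρ' ≤ R₁ ∧
      (∀ x, x ≤ R₁ - l → x + ρ + l₀ + 2 * ρ' ≤ R₁ ∧ x + ρ' ≤ R₁ ∧
        ∀ y z, y ≤ z + x → z ≤ ρ' → y + ρ ≤ R₁ ∧ y ≤ r) ∧
      16 * l ≤ R₁ ∧ (∀ x, x - u + e ≤ x - u') ∧ R' ≤ 2 ∧ 0 < R' ∧ R' + e ≤ R₁ ∧ s ≤ r' ∧ e ≤ r' ∧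
      r' ≤ 1 ∧ r' + 2 * e ≤ R' ∧ R' + e ≤ r' + 3 / 2 * q ∧ R' - 2 * l ≤ R' ∧
      20 * ρ' ≤ R' - 2 * l ∧ l ≤ r' ∧ r' + 8 * l ≤ R' - 2 * l ∧ r' ≤ R' - 2 * l ∧ r' + q ≤ R' ∧
      r' ≤ R₁ - 9 * l := by
  subst hR' hR₁
  refine ⟨by linarith, by linarith, by linarith, by linarith, by linarith,
    fun x hx => ⟨by linarith, by linarith, fun y z hy hz => ⟨by linarith, by linarith⟩⟩,
    by linarith, fun x => by linarith, by linarith, by linarith, by linarith, by linarith,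
    by linarith, by linarith, by linarith, by linarith, by linarith, by linarith, by linarith,
    by linarith, by linarith, by linarith, by linarith⟩

theorem switch {C : Type*} (M θ : ℝ) {CI δg ρg : ℝ} (hCI : 0 ≤ CI) (hδg : 0 < δg)
    (hρg : 0 < ρg) (hG : GlobOK α H M CI δg ρg) : ∃ b₀ δ₀ C₁ : ℝ, 0 < δ₀ ∧ 0 < C₁ ∧
    ∀ b CN cN : ℝ, b₀ ≤ b → 0 < cN →
    ∃ L₀ : ℝ, ∀ (Adm : C → ℝ → ℝ → Prop) (ch : C → ℝ → CD α H) (δ ε₁ εB δ₂ : ℝ),
    Sys Adm ch M θ δ ε₁ εB δ₂ CI ⌊θ + 1 / 2⌋₊ CN cN → δ ≤ δ₀ →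
    ∀ (K B B' L r r' : ℝ) (c : C) (R : ℝ), L₀ ≤ L → 1 ≤ K → 1 ≤ B' →
    State Adm ch ε₁ ⌊θ + 1 / 2⌋₊ b K B L r c R → Out (ch c R) b L r K B' r' →
    ∃ c' R', State Adm ch ε₁ ⌊θ + 1 / 2⌋₊ b K (B' * Real.exp (1 / L) + C₁ * r' ^ 2)
      (L * (1 + 1 / (40 * b + 12))) r' c' R' := by
  obtain ⟨ρ₀, hρ₀, hms⟩ := ms_of_sm (α := α) (H := H) (C := C) M θ hCI hρg hG
  obtain ⟨δ₁, hδ₁, hsm⟩ := sm_of_en (α := α) (H := H) M
  obtain ⟨b₁, Cs, δs, hCs, hδs, hsl⟩ := s_lemma_u (α := α) (H := H) M hCI ⌊θ + 1 / 2⌋₊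
  obtain ⟨Cr, hCr, hre⟩ := rescale (α := α) (H := H) M
  obtain ⟨Cc, hCc, hcm⟩ := cmp_m (α := α) (H := H) M
  refine ⟨max b₁ 64, min (min δg (1 / 2)) (min δ₁ δs), Cs,
    lt_min (lt_min hδg (by norm_num)) (lt_min hδ₁ hδs), hCs, fun b CN cN hb hcN => ?_⟩
  have hb64 : 64 ≤ b := (le_max_right _ _).trans hb
  obtain ⟨L₁, hsm⟩ := hsm b (by linarith)
  obtain ⟨L₂, hsl⟩ := hsl b ((le_max_left _ _).trans hb)
  refine ⟨max (max L₁ L₂) ((40 * b + 12) + ρ₀⁻¹ + cN⁻¹ + 2 * Cr + 3 * |CN| + (6 * Cc + Cs)), ?_⟩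
  intro Adm ch δ ε₁ εB δ₂ hS hδ K B B' L r r' c R hL hK hB' hst hout
  obtain ⟨⟨hδg', hδh⟩, hδ1, hδs'⟩ : (δ ≤ δg ∧ δ ≤ 1 / 2) ∧ δ ≤ δ₁ ∧ δ ≤ δs := by
    simpa only [le_min_iff] using hδ
  obtain ⟨⟨hL1, hL2⟩, hL3⟩ := (max_le_iff.1 hL).imp_left max_le_iff.1
  have i1 := inv_pos.2 hρ₀
  have i2 := inv_pos.2 hcN
  have i3 := abs_nonneg CN
  have hA0 : 0 < 40 * b + 12 := by linarith
  have hlo := hout.lo
  obtain ⟨κ, hκd⟩ : ∃ κ, κ = 1 / (40 * b + 12) := ⟨_, rfl⟩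
  rw [← hκd] at hlo ⊢
  have hκ : 0 < κ := by
    rw [hκd]
    positivity
  have hA : κ * (40 * b + 12) = 1 := by
    rw [hκd]
    exact one_div_mul_cancel hA0.ne'
  have hL0 : 0 ≤ L := by linarith
  have hL4 : 1 ≤ L := by linarith
  have hκL : 1 ≤ κ * L := by
    rw [← hA]
    exact mul_le_mul_of_nonneg_left (by linarith) hκ.le
  have hLL : L ≤ L * (1 + κ) := by linarith only [hκL]
  obtain ⟨f1, f2, f3, f4, f5, f6, f7, f8, f9, f10, f11, f12, f13, f14, f15, f16, f17⟩ :=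
    numA_switch hb64 hκ hA (by linarith) hκL hρ₀ (by linarith) hcN (by linarith)
  obtain ⟨g1, g2, g3, g4, g5, g6⟩ := numB_switch (L := L) (CN := CN) hb64 hκ hA (by linarith) hCr
    (by linarith) (by linarith) hCc hCs (by linarith)
  obtain ⟨L', hL'⟩ : ∃ L', L' = L * (1 + κ) := ⟨_, rfl⟩
  rw [← hL'] at hLL f1 f2 f3 f4 f5 f6 f9 f10 f11 f12 f13 f15 f16 f17 g1 g2 g3 g4 g5 ⊢
  have pu := ux_pos_switch L 1
  have pu' := ux_pos_switch L' 1
  have pρ' := ux_pos_switch L' b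
  have pρ := ux_pos_switch L b
  have pJ := ux_pos_switch L (20 * b + 16)
  have ph := ux_pos_switch L (40 * b + 14)
  have p3 := ux_pos_switch L 3
  have hK0 : 0 < K := one_pos.trans_le hK
  -- the radii
  have hr' : 16 * K * ux L' 1 ≤ r' := by
    refine le_trans ?_ hlo
    rw [← f1, ← mul_assoc]
    exact mul_le_mul_of_nonneg_right hst.r_ge (ux_pos_switch L κ).le
  obtain ⟨q, hq⟩ : ∃ q, q = r' / K := ⟨_, rfl⟩
  have hq1 : 16 * ux L' 1 ≤ q := by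
    rw [hq, le_div_iff₀ hK0]
    linarith only [hr']
  have hr1 : 16 * ux L' 1 ≤ r' := le_trans (by nlinarith only [hK, pu']) hr'
  have hr0 : 0 < r' := by linarith only [hr1, pu']
  have e1 : r' * (1 + 1 / K) = r' + q := by rw [hq]; ring
  have e2 : r' * (1 + 2 / K) = r' + 2 * q := by rw [hq]; ring
  have e3 : r' * (1 + 3 / (2 * K)) = r' + 3 / 2 * q := by rw [hq]; field_simp
  have hi' := hout.hi'
  have hen := hout.en_le
  rw [e2] at hi'
  rw [e3] at hen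
  have hrl := hst.r_le
  have hR2 := hst.R_le
  have hrR : r ≤ R := by
    refine le_trans ?_ hst.R_ge
    have : 0 ≤ r * (1 / K) :=
      mul_nonneg (by linarith only [hi', hr0, hq1, pu']) (by positivity)
    linarith only [this]
  obtain ⟨R₁, hR₁⟩ : ∃ R₁, R₁ = r' + 3 / 2 * q - 2 * ux L' 2 := ⟨_, rfl⟩
  obtain ⟨R', hR'⟩ : ∃ R', R' = R₁ - 8 * ux L' 2 := ⟨_, rfl⟩
  obtain ⟨n1, n2, n3, n4, n5, n6, n7, n8, n9, n10, n11, n12, n13, n14, n15, n16, n17, n18, n19,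
    n20, n21, n22, n23⟩ := rad_switch pρ' hq1 hr1 hi' hrl hrR f2 f6 f7 f9 f11 f12 f13 hR₁ hR'
  have hε : 3 * ε₁ - ux L 1 ≤ 3 * ε₁ := sub_le_self _ pu.le
  have hcv := hS.cv c _ R hst.adm hε n1 hR2
  have pE := ux_pos_switch L (40 * b + 9)
  have pC : 0 ≤ Cc * ux L (20 * b + 16) ^ 2 := by positivity
  -- the old chart at the new scale
  have hs1 := hsm (ch c R) R δ L' (r' + 3 / 2 * q) hcv hδ1 (hL1.trans hLL) n2 n3
    (by linarith only [hen, g3, pE, pC])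
  rw [← hR₁] at hs1
  obtain ⟨⟨N, hN⟩, -⟩ := hms Adm ch δ ε₁ εB δ₂ CI _ CN cN hS hδg' hδh c _ R R₁ _ _ hst.adm hε hR2
    n4 hs1 f3 f4 n5
  have hβ : ∀ u : ℂ, ‖u‖ ≤ R₁ - ux L' 2 →
      ‖(ch c R).av (ux L' b) (ch c R).y u‖ ≤ 2 * ux L (20 * b + 30) := by
    intro u hu
    obtain ⟨m1, m2, m3⟩ := n6 _ hu
    have a1 := hre ((ch c R).resB 0 R₁) R₁ δ _ (ux L b) _ (ux L (b / 2)) (ux L (20 * b + 30)) u
      hN.cv hδh hs1 f6 f7 f8 m1 fun v hv => by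
        obtain ⟨m4, m5⟩ := m3 _ _ (norm_le_norm_sub_add v u) hv
        have a3 := av_resB (D := ch c R) hcv.m_x (c := 0) (u := v) (R₁ := R₁) pρ
          (by rwa [sub_zero]) (ch c R).y
        exact a3 ▸ hst.avg v m5
    have a3 := av_resB (D := ch c R) hcv.m_x (c := 0) (u := u) (R₁ := R₁) pρ'
      (by rwa [sub_zero]) (ch c R).y
    rw [← a3]
    exact a1.trans (by linarith only [g1])
  obtain ⟨c', had, hcmp, hav⟩ := hS.newt c _ R R₁ (ux L' 2) _ _ _ (ux L (20 * b + 16)) N hst.adm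
    hε hR2 n4 hN f5 n7 hβ g2 f10
  rw [← hR'] at had hcmp hav
  have had' : Adm c' (3 * ε₁ - ux L' 1) R' := hS.adm_mono c' _ _ R' had (n8 _)
  have hε' : 3 * ε₁ - ux L' 1 ≤ 3 * ε₁ := sub_le_self _ pu'.le
  have hcv' := hS.cv c' _ R' had' hε' n10 n9
  -- comparison of the two charts
  have hy : ∀ᵐ a ∂(ch c R).m, a ∈ (ch c R).cyl 0 (R' + ux L (20 * b + 16)) →
      ‖(ch c R).y a‖ ≤ r' := by
    have a1 : ∀ᵐ a ∂(ch c R).m.restrict ((ch c R).cyl 0 R₁), ‖(ch c R).y a‖ ≤ ux L' (10 * b) ^ 2 :=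
      hs1.y_le
    rw [ae_restrict_iff' (hcv.meas_cyl 0 R₁)] at a1
    filter_upwards [a1] with a ha h1
    exact (ha (cyl_mono_base2 _ 0 n11 h1)).trans n12
  obtain ⟨k1, k2, k3⟩ := hcm (ch c R) (ch c' R') R R' δ (ux L (20 * b + 16)) r' (ux L (40 * b + 9))
    hcv hcv' hδh hcmp pJ.le n13 n14 hr0 n15 ((En_mono_switch hcv n16).1.trans hen) f14 hy
  have k4 := g5 r' (by linarith only [hr1, pu'])
  have hd := hout.d_le
  rw [hout.h_eq] at k1 hd
  obtain ⟨k5, k6⟩ := abs_le.1 k1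
  have hx : 1 / L ≤ 1 := (div_le_one (one_pos.trans_le hL4)).2 hL4
  have pv : 0 ≤ Cs * ux L 3 := by positivity
  have k7 : 2 * Cc * ux L 3 * ux L (40 * b + 14) ≤ 1 / 2 * ux L (40 * b + 14) :=
    mul_le_mul_of_nonneg_right (by linarith only [g6, hx, pv]) ph.le
  -- the new chart
  have hs2 := hsm (ch c' R') R' δ L' R' hcv' hδ1 (hL1.trans hLL) n10 le_rfl
    ((En_mono_switch hcv' le_rfl).2.trans (k3.trans g3))
  obtain ⟨⟨N', hN'⟩, -⟩ := hms Adm ch δ ε₁ εB δ₂ CI _ CN cN hS hδg' hδh c' _ R' _ _ _ had' hε' n9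
    n17 hs2 f3 f4 n18
  have k8 := (hsl _ _ δ L' r' N' hδs' (hL2.trans hLL) hN' n19 n20).1
  obtain ⟨q1, q2, q3, -⟩ := hcv'.resB_eq hδh (R₁ := R' - 2 * ux L' 2) hr0 n21 ⌊θ + 1 / 2⌋₊
  rw [q1, q2, q3] at k8
  have k9 := mul_le_mul_of_nonneg_left f17 hCs.le
  refine ⟨c', R', had', n9, e1 ▸ n22, n14, hr', by linarith only [k4, k5, k7, f15],
    by linarith only [k4, k6, k7, f16, ph], k3.trans g3, ?_,
    fun v hv => (hav v (hv.trans n23)).trans g4⟩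
  exact freq_switch (η := 2 * Cc * ux L 3) (v := Cs * ux L 3) hL4 hB' ph (by positivity)
    pv (by linarith only [g6]) k4 (by linarith only [k5]) k2 hd (by linarith only [k8, k9])

end Pool.Agent.Lib.MP_8daebb_an.SV
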