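import Pool.Agent.Lib.MP_8daebb_an.SV.StageA
import Pool.Agent.Lib.MP_8daebb_an.SV.StageZ
import Pool.Agent.Lib.MP_8daebb_an.SV.StSt
import Pool.Agent.Lib.MP_8daebb_an.SV.Switch
import Pool.Agent.Lib.MP_8daebb_an.SV.StartA
import Pool.Agent.Lib.MP_8daebb_an.SV.StartB

/-! The iteration: the infimum of the energy over centres is zero. -/

open MeasureTheory Metric Filter Topology Set
open scoped RealInnerProductSpace ENNReal ContDiff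

namespace Pool.Agent.Lib.MP_8daebb_an.SV

variable {α : Type*} [MeasurableSpace α] {H : Type*} [NormedAddCommGroup H]
  [InnerProductSpace ℝ H] [FiniteDimensional ℝ H] [MeasurableSpace H] [BorelSpace H]

theorem step_sysz {C₁ Cw Λ K B L r r' : ℝ} (hC₁ : 0 < C₁) (hCw : 0 < Cw) (hK : 0 < K)
    (hKB : K ≤ Λ * B) (hB : 1 ≤ B) (hL1 : 1 ≤ L) (hL : 6 * Λ * (3 * C₁ + Cw) ≤ L) (hr' : 0 < r')
    (hr1 : r ≤ 1) (hi : r' ≤ r * Real.exp (-(L / (6 * K)))) :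
    (B * Real.exp (C₁ * (r - r') + C₁ / L) + C₁ * r' ^ 2) * Real.exp (1 / L) + Cw * r' ^ 2 ≤
      B * Real.exp ((C₁ + 1) * (r - r') + (C₁ + 1) / L) := by
  have hx : 0 < L / (6 * K) := by positivity
  have h0 : r' * Real.exp (L / (6 * K)) ≤ r := by
    have := mul_le_mul_of_nonneg_right hi (Real.exp_pos (L / (6 * K))).le
    rwa [mul_assoc, ← Real.exp_add, neg_add_cancel, Real.exp_zero, mul_one] at this
  have h1 : r' * (L / (6 * K) + 1) ≤ r :=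
    (mul_le_mul_of_nonneg_left (Real.add_one_le_exp _) hr'.le).trans h0
  have h2 : r' ≤ r := by nlinarith [mul_pos hr' hx]
  have h3 : 3 * C₁ + Cw ≤ B * (L / (6 * K)) := by
    rw [← mul_div_assoc, le_div_iff₀ (by positivity)]
    calc (3 * C₁ + Cw) * (6 * K) ≤ (3 * C₁ + Cw) * (6 * (Λ * B)) := by gcongr
      _ = B * (6 * Λ * (3 * C₁ + Cw)) := by ring
      _ ≤ B * L := by gcongr
  have h4 : (3 * C₁ + Cw) * r' ^ 2 ≤ B * (r - r') := by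
    calc (3 * C₁ + Cw) * r' ^ 2 ≤ (3 * C₁ + Cw) * r' := by
          refine mul_le_mul_of_nonneg_left ?_ (by positivity)
          nlinarith
      _ ≤ B * (L / (6 * K)) * r' := by gcongr
      _ = B * (r' * (L / (6 * K))) := by ring
      _ ≤ B * (r - r') := mul_le_mul_of_nonneg_left (by linarith) (by linarith)
  have h5 : Real.exp (1 / L) ≤ 3 := by
    have : 1 / L ≤ 1 := (div_le_one (by linarith)).2 hL1
    exact (Real.exp_le_exp.2 this).trans (Real.exp_one_lt_d9.le.trans (by norm_num))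
  have h6 : 1 ≤ Real.exp (C₁ * (r - r') + (C₁ + 1) / L) :=
    Real.one_le_exp (add_nonneg (mul_nonneg hC₁.le (by linarith)) (by positivity))
  have e1 : Real.exp (C₁ * (r - r') + C₁ / L) * Real.exp (1 / L) =
      Real.exp (C₁ * (r - r') + (C₁ + 1) / L) := by
    rw [← Real.exp_add, add_div, add_assoc]
  have e2 : Real.exp ((C₁ + 1) * (r - r') + (C₁ + 1) / L) =
      Real.exp (C₁ * (r - r') + (C₁ + 1) / L) * Real.exp (r - r') := by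
    rw [← Real.exp_add]; congr 1; ring
  have h7 := Real.add_one_le_exp (r - r')
  have h8 : C₁ * r' ^ 2 * Real.exp (1 / L) ≤ C₁ * r' ^ 2 * 3 := by gcongr
  rw [e2, add_mul, mul_assoc B, e1]
  set E := Real.exp (C₁ * (r - r') + (C₁ + 1) / L)
  have h9 : B * (E * (r - r' + 1)) ≤ B * (E * Real.exp (r - r')) := by gcongr
  have h10 : B * (r - r') ≤ B * (r - r') * E :=
    le_mul_of_one_le_right (mul_nonneg (by linarith) (by linarith)) h6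
  nlinarith

theorem mono_sysz {C₁ A L r : ℝ} (hC₁ : 0 < C₁) (hA : 0 < A) (hL : 0 < L) (hr : 0 < r) :
    C₁ * r + C₁ / L ≤ (C₁ + 1) * r + (C₁ + 1) * (A + 1) / L :=
  add_le_add (by nlinarith) (div_le_div_of_nonneg_right (by nlinarith) hL.le)

theorem init_sysz {C₁ A L r : ℝ} (hC₁ : 0 < C₁) (hL : 0 < L) (h : (C₁ + 1) * (A + 1) ≤ L)
    (hr : r ≤ 1) : (C₁ + 1) * r + (C₁ + 1) * (A + 1) / L ≤ C₁ + 2 := by
  have h1 : (C₁ + 1) * (A + 1) / L ≤ 1 := (div_le_one hL).2 h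
  nlinarith

theorem le_sysz {B x y : ℝ} (hB : 0 ≤ B) (hx : 0 ≤ x) (hy : 0 ≤ y) : B ≤ B * Real.exp x + y :=
  (le_mul_of_one_le_right hB (Real.one_le_exp hx)).trans (le_add_of_nonneg_right hy)

theorem rad_sysz {k i r r' : ℝ} (hk : 0 < k) (hi : 0 ≤ i) (hr' : 0 < r') (h : r' * (1 + k) ≤ r)
    (hr : r * (1 + i * k) ≤ 1) : r' * (1 + (i + 1) * k) ≤ 1 := by
  have h5 : 0 ≤ i * k := by positivity
  have h6 := mul_le_mul_of_nonneg_right h (add_nonneg zero_le_one h5)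
  nlinarith [mul_nonneg (mul_nonneg hr'.le hk.le) h5]

theorem fin_sysz {K i r σ : ℝ} (hK : 0 < K) (hσ : 0 < σ) (hr0 : 0 < r) (h : K / (2 * σ) ≤ i)
    (hr : r * (1 + i * (2 / K)) ≤ 1) : r ≤ σ := by
  have hi : 0 ≤ i := le_trans (by positivity) h
  have h5 : K ≤ i * (2 * σ) := (div_le_iff₀ (by positivity)).1 h
  have h6 : 1 ≤ i * (2 / K) * σ := by
    rw [mul_div_assoc', div_mul_eq_mul_div, le_div_iff₀ hK]
    linarith
  have h7 : 0 ≤ i * (2 / K) := by positivity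
  by_contra h8
  nlinarith

theorem exp_sysz {C₁ A L r r' : ℝ} (hA : 0 < A) (hL : 0 < L) :
    (C₁ + 1) * (r - r') + (C₁ + 1) / L + ((C₁ + 1) * r' + (C₁ + 1) * (A + 1) / (L * (1 + 1 / A))) =
      (C₁ + 1) * r + (C₁ + 1) * (A + 1) / L := by
  field_simp
  ring

theorem grow_sysz {A L i : ℝ} (hA : 0 < A) (hL : 1 ≤ L) (hi : i / A ≤ L) :
    L ≤ L * (1 + 1 / A) ∧ (i + 1) / A ≤ L * (1 + 1 / A) := by
  have h1 : L * (1 + 1 / A) = L + L / A := by ring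
  have h2 : 1 / A ≤ L / A := div_le_div_of_nonneg_right hL hA.le
  have h3 : 0 < 1 / A := by positivity
  rw [h1, add_div]
  constructor <;> linarith

theorem sys_zero {C : Type*} (M θ : ℝ) : ∃ (CI : ℝ) (Q : ℕ) (δ : ℝ), 0 < δ ∧
    ∀ CN cN ε₁ : ℝ, 0 < cN → 0 < ε₁ → ∃ εB δ₂ : ℝ, 0 < εB ∧ 0 < δ₂ ∧
    ∀ (Adm : C → ℝ → ℝ → Prop) (ch : C → ℝ → CD α H), Sys Adm ch M θ δ ε₁ εB δ₂ CI Q CN cN →
    ∀ η > 0, ∃ c R, 1 / 2 ≤ R ∧ R ≤ 2 ∧ Adm c (2 * ε₁) R ∧ (ch c R).En 0 (1 / 2) ≤ η := by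
  obtain ⟨CI, hCI, δg, hδg, ρg, hρg, hG⟩ := glob (α := α) (H := H) M
  have hG' : GlobOK α H M CI δg ρg := hG
  obtain ⟨ba, δa, C₁, K₁, hδa, hC₁, hK₁, HA⟩ := stage_a (α := α) (H := H) M hCI.le ⌊θ + 1 / 2⌋₊
  obtain ⟨bz, δz, hδz, HZ⟩ := stage_z (α := α) (H := H) M hCI.le ⌊θ + 1 / 2⌋₊
  obtain ⟨δs, hδs, HS⟩ := state_stg (C := C) M θ hCI.le hδg hρg hG'
  obtain ⟨bw, δw, Cw, hδw, hCw, HW⟩ := switch (C := C) M θ hCI.le hδg hρg hG'
  obtain ⟨bb, δb, hδb, HB⟩ := start_b (C := C) M θ hCI.le hδg hρg hG'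
  obtain ⟨δ, hδ, d1, d2, d3, d4, d5⟩ :
      ∃ δ : ℝ, 0 < δ ∧ δ ≤ δa ∧ δ ≤ δz ∧ δ ≤ δs ∧ δ ≤ δw ∧ δ ≤ δb :=
    ⟨min δa (min δz (min δs (min δw δb))), by positivity, by simp, by simp, by simp, by simp,
      by simp⟩
  obtain ⟨b, b1, b2, b3, b4, b5⟩ : ∃ b : ℝ, ba ≤ b ∧ bz ≤ b ∧ 3 ≤ b ∧ bw ≤ b ∧ bb ≤ b :=
    ⟨max ba (max bz (max 3 (max bw bb))), by simp, by simp, by simp, by simp, by simp⟩
  refine ⟨CI, ⌊θ + 1 / 2⌋₊, δ, hδ, fun CN cN ε₁ hcN hε₁ => ?_⟩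
  obtain ⟨εB, La, hεB, HA⟩ := HA b b1
  obtain ⟨Ls, HS⟩ := HS b cN b3 hcN
  obtain ⟨Lw, HW⟩ := HW b CN cN b4 hcN
  have hA : 0 < 40 * b + 12 := by linarith only [b3]
  have hΛ : 1 ≤ Real.exp (C₁ + 2) := Real.one_le_exp (by linarith only [hC₁])
  obtain ⟨L₀, l1, l2, l3, l4, l5, l6⟩ : ∃ L₀ : ℝ, La ≤ L₀ ∧ Ls ≤ L₀ ∧ Lw ≤ L₀ ∧ 1 ≤ L₀ ∧
      (C₁ + 1) * (40 * b + 12 + 1) ≤ L₀ ∧ 6 * Real.exp (C₁ + 2) * (3 * C₁ + Cw) ≤ L₀ :=
    ⟨max La (max Ls (max Lw (max 1 (max ((C₁ + 1) * (40 * b + 12 + 1))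
      (6 * Real.exp (C₁ + 2) * (3 * C₁ + Cw)))))), by simp, by simp, by simp, by simp, by simp,
      by simp⟩
  obtain ⟨F₁, hF₁, HB⟩ := HB b CN cN ε₁ (Real.exp (C₁ + 2)) K₁ L₀ b5 hcN hε₁ hΛ
  obtain ⟨δ₂, hδ₂, HF⟩ := start_a (α := α) (H := H) (C := C) M (p := 920 * b + 293)
    (by linarith only [b3]) hF₁
  refine ⟨εB, δ₂, hεB, hδ₂, fun Adm ch hS η hη => ?_⟩
  by_contra hn
  obtain ⟨r₁, F, c₁, R₁, s1, s2, s3, s4, s5, s6, s7, s8, s9⟩ :=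
    HF Adm ch θ δ ε₁ εB CI _ CN cN hS hε₁ ⟨η, hη, fun c R h1 h2 h3 =>
      not_le.1 fun h4 => hn ⟨c, R, h1, h2, h3, h4⟩⟩
  obtain ⟨B₀, L', r₀, c₀, R₀, t1, t2, t3⟩ :=
    HB Adm ch δ εB δ₂ hS d5 r₁ F c₁ R₁ s1 s2 s3 s4 s5 s6 s7 s8 s9
  set K := Real.exp (C₁ + 2) * B₀ with hKd
  have hB₀ : 1 ≤ B₀ := hK₁.trans t2
  have hK : 1 ≤ K := one_le_mul_of_one_le_of_one_le hΛ hB₀
  have hK0 : 0 < K := zero_lt_one.trans_le hK
  have hL₀ : 0 < L₀ := zero_lt_one.trans_le l4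
  have hB0 : 0 ≤ B₀ := zero_le_one.trans hB₀
  have h16 : 0 < 16 * K := mul_pos (by norm_num) hK0
  have h2K : 0 < 2 / K := div_pos two_pos hK0
  have rpos : ∀ {B L r : ℝ} {c : C} {R : ℝ}, State Adm ch ε₁ ⌊θ + 1 / 2⌋₊ b K B L r c R → 0 < r :=
    fun {B L r c R} h => lt_of_lt_of_le (mul_pos h16 (Real.exp_pos _)) h.r_ge
  -- one stage
  have stage : ∀ {B L r : ℝ} {c : C} {R : ℝ}, State Adm ch ε₁ ⌊θ + 1 / 2⌋₊ b K B L r c R →
      L₀ ≤ L → B₀ ≤ B →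
      B * Real.exp ((C₁ + 1) * r + (C₁ + 1) * (40 * b + 12 + 1) / L) ≤ K →
      ∃ r', Out ((ch c R).resB 0 (R - 2 * ux L 2)) b L r K
        (B * Real.exp (C₁ * (r - r') + C₁ / L) + C₁ * r' ^ 2) r' := by
    intro B L r c R h hL hB hI
    obtain ⟨⟨N, hN⟩, h2, -, -⟩ := HS Adm ch δ ε₁ εB δ₂ CN hS d3 K B L r c R (l2.trans hL) hK h
    exact HA _ _ δ L r K B N d1 (l1.trans hL) hN (t2.trans hB)
      (le_trans (mul_le_mul_of_nonneg_left (Real.exp_le_exp.2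
        (mono_sysz hC₁ hA (hL₀.trans_le hL) (rpos h))) (hB0.trans hB)) hI) h2
  -- the recursion
  have iter : ∀ i : ℕ, ∃ (B L r : ℝ) (c : C) (R : ℝ),
      State Adm ch ε₁ ⌊θ + 1 / 2⌋₊ b K B L r c R ∧ L₀ ≤ L ∧ B₀ ≤ B ∧
      B * Real.exp ((C₁ + 1) * r + (C₁ + 1) * (40 * b + 12 + 1) / L) ≤ K ∧
      i / (40 * b + 12) ≤ L ∧ r * (1 + i * (2 / K)) ≤ 1 := by
    intro i
    induction i with
    | zero =>
      refine ⟨B₀, L', r₀, c₀, R₀, t3, t1, le_rfl, ?_, ?_, ?_⟩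
      · rw [hKd, mul_comm]
        exact mul_le_mul_of_nonneg_right (Real.exp_le_exp.2
          (init_sysz hC₁ (hL₀.trans_le t1) (l5.trans t1) t3.r_le)) hB0
      · rw [Nat.cast_zero, zero_div]
        exact (hL₀.trans_le t1).le
      · rw [Nat.cast_zero, zero_mul, add_zero, mul_one]
        exact t3.r_le
    | succ i ih =>
      obtain ⟨B, L, r, c, R, h, hL, hB, hI, hi, hr⟩ := ih
      obtain ⟨r', ho⟩ := stage h hL hB hI
      obtain ⟨-, -, -, h4⟩ := HS Adm ch δ ε₁ εB δ₂ CN hS d3 K B L r c R (l2.trans hL) hK h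
      have hr' : 0 < r' := lt_of_lt_of_le (mul_pos (rpos h) (Real.exp_pos _)) ho.lo
      have hL0 : 0 < L := hL₀.trans_le hL
      have hrr : r' ≤ r :=
        (le_mul_of_one_le_right hr'.le (le_add_of_nonneg_right h2K.le)).trans ho.hi'
      have hB' : B ≤ B * Real.exp (C₁ * (r - r') + C₁ / L) + C₁ * r' ^ 2 :=
        le_sysz (hB0.trans hB) (add_nonneg (mul_nonneg hC₁.le (sub_nonneg.2 hrr))
          (div_pos hC₁ hL0).le) (mul_nonneg hC₁.le (sq_nonneg _))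
      obtain ⟨c', R', h'⟩ := HW Adm ch δ ε₁ εB δ₂ hS d4 K B _ L r r' c R (l3.trans hL) hK
        (hB₀.trans (hB.trans hB')) h (h4 _ r' ho)
      obtain ⟨g1, g2⟩ := grow_sysz hA (l4.trans hL) hi
      refine ⟨_, _, r', c', R', h', hL.trans g1, ?_, ?_, ?_, ?_⟩
      · exact hB.trans (hB'.trans (le_sysz (hB0.trans (hB.trans hB')) (one_div_pos.2 hL0).le
          (mul_nonneg hCw.le (sq_nonneg _))))
      · have h5 := step_sysz hC₁ hCw hK0 (Λ := Real.exp (C₁ + 2)) (B := B)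
          (mul_le_mul_of_nonneg_left hB (Real.exp_pos _).le) (hB₀.trans hB) (l4.trans hL)
          (l6.trans hL) hr' h.r_le ho.hi
        refine le_trans ((mul_le_mul_of_nonneg_right h5 (Real.exp_pos _).le).trans_eq ?_) hI
        rw [mul_assoc, ← Real.exp_add, exp_sysz hA hL0]
      · rw [Nat.cast_succ]
        exact g2
      · rw [Nat.cast_succ]
        exact rad_sysz h2K (Nat.cast_nonneg i) hr' ho.hi' hr
  obtain ⟨η', L₁, hη', HZ⟩ := HZ b K b2 hK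
  obtain ⟨σ₀, hσ₀, hb0⟩ := hS.bad0 η' hη'
  obtain ⟨i, hi⟩ := exists_nat_ge (max (L₁ * (40 * b + 12)) (K / (2 * σ₀)))
  obtain ⟨B, L, r, c, R, h, hL, hB, hI, hi', hr⟩ := iter i
  obtain ⟨r', ho⟩ := stage h hL hB hI
  obtain ⟨⟨N, hN⟩, -, h3, -⟩ := HS Adm ch δ ε₁ εB δ₂ CN hS d3 K B L r c R (l2.trans hL) hK h
  have hrσ : r ≤ σ₀ := fin_sysz hK0 hσ₀ (rpos h) ((le_max_right _ _).trans hi) hr
  have hrR : r ≤ R := (le_mul_of_one_le_right (rpos h).le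
    (le_add_of_nonneg_right (one_div_pos.2 hK0).le)).trans h.R_ge
  refine HZ _ _ δ L r B _ r' N d2 (le_trans ?_ hi') hN (fun σ h1 h2 => ?_) ho
  · exact (le_div_iff₀ hA).2 ((le_max_left _ _).trans hi)
  · exact (h3 σ h1 h2).2.trans (hb0 c _ R σ h.adm (sub_le_self _ (Real.exp_pos _).le) h.R_le
      (lt_of_lt_of_le (Real.exp_pos _) h1) (h2.trans hrR) (h2.trans hrσ) (h3 σ h1 h2).1)

end Pool.Agent.Lib.MP_8daebb_an.SV
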