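import Pool.Agent.Lib.MP_8daebb_an.SV.TAlg

/-! Change of the parameter plane, restriction, rescaling. -/

set_option linter.unusedSectionVars false

open MeasureTheory Metric Filter Topology Set Complex
open scoped RealInnerProductSpace ENNReal

namespace Pool.Agent.Lib.MP_8daebb_an.SV

variable {H : Type*} [NormedAddCommGroup H] [InnerProductSpace ℝ H] [FiniteDimensional ℝ H]
  [MeasurableSpace H] [BorelSpace H]

variable {V : Measure (H × (H →L[ℝ] H))}

theorem fderiv_kap_tint {f : EuclideanSpace ℝ (Fin 2) → H} (hf : ContDiff ℝ 1 f) (a : ℂ) :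
    fderiv ℝ (fun z => f (kap z)) a = (fderiv ℝ f (kap a)).comp
      (kap.toContinuousLinearEquiv : ℂ →L[ℝ] EuclideanSpace ℝ (Fin 2)) :=
  (((hf.differentiable one_ne_zero) (kap a)).hasFDerivAt.comp a
    (kap.toContinuousLinearEquiv : ℂ →L[ℝ] EuclideanSpace ℝ (Fin 2)).hasFDerivAt).fderiv

theorem isIntC_of_isIntegral (h : IsIntegral 2 V) : IsIntC V := by
  obtain ⟨f, A, P, hf, hA, hP, hr, rfl⟩ := h
  have hk : Measurable kap := kap.continuous.measurable
  refine ⟨fun k z => f k (kap z), fun k => kap ⁻¹' A k, fun k z => P k (kap z),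
    fun k => (hf k).comp kap.contDiff, fun k => hk (hA k), fun k => (hP k).comp hk,
    fun k a ha => ⟨(hr k _ ha).1, ?_⟩, fun φ hφ => ?_⟩
  · rw [(hr k _ ha).2, fderiv_kap_tint (hf k), ContinuousLinearMap.coe_comp, range_comp]
    have : range (kap.toContinuousLinearEquiv : ℂ →L[ℝ] EuclideanSpace ℝ (Fin 2)) = univ :=
      kap.surjective.range_eq
    rw [this, image_univ]
  · rw [lintegral_sum_measure]
    refine tsum_congr fun k => ?_
    have hm : Measurable fun x => (f k x, P k x) := (hf k).continuous.measurable.prodMk (hP k)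
    have hc : Continuous fun x => areaElt (fderiv ℝ (f k) x) := by
      simp only [areaElt_eq_jacC]
      exact continuous_jacC.comp
        (((hf k).continuous_fderiv one_ne_zero).clm_comp continuous_const)
    have hd : Measurable fun x => ENNReal.ofReal (areaElt (fderiv ℝ (f k) x)) :=
      hc.measurable.ennreal_ofReal
    have hφ' : Measurable fun x => φ (f k x, P k x) := hφ.comp hm
    rw [lintegral_map hφ hm, lintegral_withDensity_eq_lintegral_mul _ hd hφ',
      ← kap.measurePreserving.setLIntegral_comp_preimage (hA k) (hd.mul hφ')]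
    refine lintegral_congr fun a => ?_
    rw [fderiv_kap_tint (hf k), ← areaElt_eq_jacC, mul_comm]
    rfl

theorem IsIntC.restrict (h : IsIntC V) {S : Set (H × (H →L[ℝ] H))} (hS : MeasurableSet S) :
    IsIntC (V.restrict S) := by
  obtain ⟨f, A, P, hf, hA, hP, hr, hV⟩ := h
  have hm : ∀ k, Measurable fun x => (f k x, P k x) := fun k =>
    (hf k).continuous.measurable.prodMk (hP k)
  refine ⟨f, fun k => (fun x => (f k x, P k x)) ⁻¹' S ∩ A k, P, hf,
    fun k => (hm k hS).inter (hA k), hP, fun k a ha => hr k a ha.2, fun φ hφ => ?_⟩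
  rw [← lintegral_indicator hS, hV _ (hφ.indicator hS)]
  refine tsum_congr fun k => ?_
  rw [← Measure.restrict_restrict (hm k hS), ← lintegral_indicator (hm k hS)]
  refine lintegral_congr fun a => ?_
  by_cases ha : (f k a, P k a) ∈ S
  · rw [indicator_of_mem ha, indicator_of_mem (by exact ha)]
  · rw [indicator_of_notMem ha, indicator_of_notMem (by exact ha), zero_mul]

theorem IsIntC.blow (h : IsIntC V) (x₀ : H) {r : ℝ} (hr : 0 < r) : IsIntC (blow V x₀ r) := by
  have hS : MeasurableSet (Prod.fst ⁻¹' ball x₀ (4 * r) : Set (H × (H →L[ℝ] H))) :=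
    measurable_fst measurableSet_ball
  obtain ⟨f, A, P, hf, hA, hP, hR, hV⟩ := h.restrict hS
  have hd : ∀ k a, fderiv ℝ (fun z => r⁻¹ • (f k z - x₀)) a = r⁻¹ • fderiv ℝ (f k) a :=
    fun k a => ((((hf k).differentiable one_ne_zero) a).hasFDerivAt.sub_const x₀
      |>.const_smul r⁻¹).fderiv
  have hm : Measurable fun w : H × (H →L[ℝ] H) => (r⁻¹ • (w.1 - x₀), w.2) :=
    ((measurable_fst.sub_const x₀).const_smul r⁻¹).prodMk measurable_snd
  refine ⟨fun k z => r⁻¹ • (f k z - x₀), A, P,
    fun k => ((hf k).sub contDiff_const).const_smul r⁻¹, hA, hP,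
    fun k a ha => ⟨(hR k a ha).1, ?_⟩, fun φ hφ => ?_⟩
  · rw [(hR k a ha).2, hd]
    ext y
    constructor
    · rintro ⟨x, rfl⟩
      refine ⟨r • x, ?_⟩
      rw [smul_apply, map_smul, smul_smul, inv_mul_cancel₀ hr.ne', one_smul]
    · rintro ⟨x, rfl⟩
      exact ⟨r⁻¹ • x, by rw [smul_apply, map_smul]⟩
  · have hφ' : Measurable fun w : H × (H →L[ℝ] H) => φ (r⁻¹ • (w.1 - x₀), w.2) := hφ.comp hm
    rw [SV.blow, lintegral_smul_measure, lintegral_map hφ hm, hV _ hφ', smul_eq_mul,
      ← ENNReal.tsum_mul_left]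
    refine tsum_congr fun k => ?_
    rw [← lintegral_const_mul' _ _ ENNReal.ofReal_ne_top]
    refine lintegral_congr fun a => ?_
    rw [hd, jacC_smul, ENNReal.ofReal_mul (by positivity), mul_left_comm]

end Pool.Agent.Lib.MP_8daebb_an.SV
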