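import Pool.Agent.Lib.MP_8daebb_an.SV.TBlow
import Pool.Agent.Lib.MP_8daebb_an.SV.TMono
import Pool.Agent.Lib.MP_8daebb_an.SV.TArea

/-! The blow-up satisfies the package EV. -/

set_option linter.unusedSectionVars false

open MeasureTheory Metric Filter Topology Set Complex
open scoped RealInnerProductSpace ENNReal

namespace Pool.Agent.Lib.MP_8daebb_an.SV

variable {H : Type*} [NormedAddCommGroup H] [InnerProductSpace ℝ H] [FiniteDimensional ℝ H]
  [MeasurableSpace H] [BorelSpace H]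

variable {U : Set H} {V : Measure (H × (H →L[ℝ] H))} {x₀ : H} {θ : ℝ}

theorem small_tev {P : ℝ → Prop} :
    (∀ᶠ s in 𝓝[>] (0 : ℝ), P s) ↔ ∃ δ > 0, ∀ s, 0 < s → s < δ → P s :=
  (nhdsGT_basis (0 : ℝ)).eventually_iff.trans
    ⟨fun ⟨δ, h1, h2⟩ => ⟨δ, h1, fun _ h3 h4 => h2 ⟨h3, h4⟩⟩,
      fun ⟨δ, h1, h2⟩ => ⟨δ, h1, fun _ h3 => h2 _ h3.1 h3.2⟩⟩

theorem real_tev {r : ℝ} (hr : 0 < r) (p : H) (σ : ℝ) : (blow V x₀ r).fst.real (ball p σ) =
    (V.fst (ball (x₀ + r • p) (r * σ) ∩ ball x₀ (4 * r))).toReal / r ^ 2 := by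
  rw [Measure.real, blow_fst_ball hr, ENNReal.toReal_mul, ENNReal.toReal_ofReal (by positivity),
    inv_pow, inv_mul_eq_div]

theorem dens_tev {x : H} (hd : HasDensity 2 V.fst x θ) {ε : ℝ} (hε : 0 < ε) :
    ∃ δ > 0, ∀ s, 0 < s → s < δ →
      |(V.fst (ball x s)).toReal - θ * Real.pi * s ^ 2| ≤ ε * s ^ 2 := by
  have hpi := Real.pi_pos
  obtain ⟨δ, h1, h2⟩ := small_tev.1 (Metric.tendsto_nhds.1 hd (ε / Real.pi) (by positivity))
  refine ⟨δ, h1, fun s h3 h4 => ?_⟩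
  have h5 := (h2 s h3 h4).le
  rw [Real.dist_eq, omega_two] at h5
  have h6 : (V.fst (ball x s)).toReal - θ * Real.pi * s ^ 2 =
      ((V.fst (ball x s)).toReal / (Real.pi * s ^ 2) - θ) * (Real.pi * s ^ 2) := by
    field_simp
  rw [h6, abs_mul, abs_of_pos (a := Real.pi * s ^ 2) (by positivity)]
  refine (mul_le_mul_of_nonneg_right h5 (by positivity)).trans_eq ?_
  field_simp

theorem ev_ub (hV : IsStationaryVarifold 2 U V) (hU : IsOpen U) (hx : x₀ ∈ U)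
    (hd : HasDensity 2 V.fst x₀ θ) :
    ∀ᶠ r in 𝓝[>] (0 : ℝ), ∀ (p : H) (σ : ℝ), 0 < σ →
      (blow V x₀ r).fst.real (ball p σ) ≤ 36 * Real.pi * (|θ| + 1) * σ ^ 2 := by
  have hpi := Real.pi_pos
  obtain ⟨R, hR, hRU⟩ := Metric.isOpen_iff.1 hU x₀ hx
  obtain ⟨δ, hδ, h1⟩ := dens_tev hd hpi
  refine small_tev.2 ⟨min R δ / 6, by positivity, fun r hr hr' p σ hσ => ?_⟩
  have h2 := min_le_left R δ
  have h3 := min_le_right R δ
  have h4 : closedBall x₀ (6 * r) ⊆ U := (closedBall_subset_ball (by linarith)).trans hRU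
  have h5 := (hV.ball_lt_top h4).ne
  have h6 : (V.fst (ball x₀ (6 * r))).toReal / r ^ 2 ≤ 36 * Real.pi * (|θ| + 1) := by
    have h7 := (abs_le.1 (h1 (6 * r) (by positivity) (by linarith))).2
    have h8 := mul_le_mul_of_nonneg_right (le_abs_self θ)
      (show 0 ≤ Real.pi * (6 * r) ^ 2 by positivity)
    rw [div_le_iff₀ (by positivity)]
    nlinarith
  have hM : 0 ≤ 36 * Real.pi * (|θ| + 1) := by positivity
  rw [real_tev hr]
  rcases le_or_gt 1 σ with h7 | h7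
  · refine le_trans ?_ (h6.trans (le_mul_of_one_le_right hM (one_le_pow₀ h7)))
    gcongr
    exact inter_subset_right.trans (ball_subset_ball (by linarith))
  · rcases (ball (x₀ + r • p) (r * σ) ∩ ball x₀ (4 * r)).eq_empty_or_nonempty with h8 | ⟨y, h8, h9⟩
    · rw [h8, measure_empty, ENNReal.toReal_zero, zero_div]
      positivity
    · have h10 : r * σ ≤ r := mul_le_of_le_one_right hr.le h7.le
      have h11 : dist (x₀ + r • p) x₀ < 5 * r := by
        rw [mem_ball] at h8 h9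
        have := dist_triangle_left (x₀ + r • p) x₀ y
        linarith
      have h12 : closedBall (x₀ + r • p) r ⊆ ball x₀ (6 * r) :=
        closedBall_subset_ball' (by linarith)
      have h13 := h12.trans (ball_subset_closedBall.trans h4)
      have h14 := mass_mono hV hU (mul_pos hr hσ) h10 h13
      have h15 : (V.fst (ball (x₀ + r • p) r)).toReal / r ^ 2 ≤
          (V.fst (ball x₀ (6 * r))).toReal / r ^ 2 := by
        gcongr
        exact ball_subset_closedBall.trans h12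
      have h16 := (hV.ball_lt_top ((closedBall_subset_closedBall h10).trans h13)).ne
      calc _ ≤ (V.fst (ball (x₀ + r • p) (r * σ))).toReal / r ^ 2 := by
            gcongr
            exact inter_subset_left
        _ = (V.fst (ball (x₀ + r • p) (r * σ))).toReal / (r * σ) ^ 2 * σ ^ 2 := by field_simp
        _ ≤ _ := mul_le_mul_of_nonneg_right (h14.trans (h15.trans h6)) (by positivity)

theorem ev_mass (hd : HasDensity 2 V.fst x₀ θ) {ε : ℝ} (hε : 0 < ε) :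
    ∀ᶠ r in 𝓝[>] (0 : ℝ), ∀ σ : ℝ, 0 < σ → σ ≤ 3 →
      |(blow V x₀ r).fst.real (ball 0 σ) - θ * Real.pi * σ ^ 2| ≤ ε * σ ^ 2 := by
  obtain ⟨δ, hδ, h1⟩ := dens_tev hd hε
  refine small_tev.2 ⟨δ / 4, by positivity, fun r hr hr' σ hσ hσ3 => ?_⟩
  have h2 : r * σ ≤ r * 3 := mul_le_mul_of_nonneg_left hσ3 hr.le
  have h3 := h1 (r * σ) (mul_pos hr hσ) (by linarith)
  rw [real_tev hr, smul_zero, add_zero, inter_eq_left.2 (ball_subset_ball (by linarith))]
  have h4 : (V.fst (ball x₀ (r * σ))).toReal / r ^ 2 - θ * Real.pi * σ ^ 2 =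
      ((V.fst (ball x₀ (r * σ))).toReal - θ * Real.pi * (r * σ) ^ 2) / r ^ 2 := by field_simp
  rw [h4, abs_div, abs_of_pos (a := r ^ 2) (by positivity), div_le_iff₀ (by positivity)]
  exact h3.trans_eq (by ring)

theorem ev_flat (hV : IsStationaryVarifold 2 U V) (hU : IsOpen U) (hi : IsIntC V) (hx : x₀ ∈ U)
    {ι : EuclideanSpace ℝ (Fin 2) →ₗᵢ[ℝ] H} (ht : HasFlatTangent 2 V.fst x₀ θ ι) {ε : ℝ}
    (hε : 0 < ε) :
    ∀ᶠ r in 𝓝[>] (0 : ℝ), ∀ᵐ z ∂blow V x₀ r, ∃ v : ℂ, ‖z.1 - iota2 ι v‖ ≤ ε := by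
  obtain ⟨δ, hδ, h1⟩ := small_tev.1 (hV.height hU (ae_density_ge hV hU hi) hx ht
    (ε := min (ε / 2) 1) (by positivity) (min_le_right _ _))
  refine small_tev.2 ⟨δ / 2, by positivity, fun r hr hr' => ae_blow hr ?_⟩
  have h2 : ∀ᵐ w ∂V, w.1 ∈ V.fst.support :=
    ae_of_ae_map (p := fun x => x ∈ V.fst.support) measurable_fst.aemeasurable
      (Measure.support_mem_ae (μ := V.fst))
  filter_upwards [h2] with w hw hw'
  have h3 := h1 (2 * r) (by positivity) (by linarith) w.1 hw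
    (by rw [show 2 * (2 * r) = 4 * r by ring]; exact ball_subset_closedBall hw')
  refine ⟨kap.symm (pr ι (r⁻¹ • (w.1 - x₀))), ?_⟩
  have h4 : iota2 ι (kap.symm (pr ι (r⁻¹ • (w.1 - x₀)))) = ι (pr ι (r⁻¹ • (w.1 - x₀))) :=
    congrArg ι (kap.apply_symm_apply _)
  rw [h4, ← nr_apply, map_smul, norm_smul, norm_inv, Real.norm_of_nonneg hr.le,
    inv_mul_le_iff₀ hr]
  have h5 := mul_le_mul_of_nonneg_right (min_le_left (ε / 2) 1) (show 0 ≤ 2 * r by positivity)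
  linarith

/-- the bad set of the blow-up is controlled by the set of the density condition -/
theorem ev_bad_le (hV : IsStationaryVarifold 2 U V) {r σ : ℝ} (hr : 0 < r) (hσ : 0 < σ)
    (hσ3 : σ ≤ 3) (hU : closedBall x₀ (4 * r) ⊆ U) :
    (blow V x₀ r).real {z | ‖z.1‖ < σ ∧ ¬∃ᶠ s in 𝓝[>] (0 : ℝ),
        (θ - 1 / 100) * Real.pi * s ^ 2 ≤ (blow V x₀ r).fst.real (ball z.1 s)} ≤
      (V.fst ({x | ¬HasDensity 2 V.fst x θ} ∩ ball x₀ (r * σ))).toReal / (r * σ) ^ 2 * σ ^ 2 := by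
  have h2 : r * σ ≤ r * 3 := mul_le_mul_of_nonneg_left hσ3 hr.le
  have h3 : V.fst ({x | ¬HasDensity 2 V.fst x θ} ∩ ball x₀ (r * σ)) ≠ ⊤ :=
    ((measure_mono (inter_subset_right.trans (ball_subset_ball (by linarith)))).trans_lt
      (hV.ball_lt_top hU)).ne
  have h4 : (V.fst ({x | ¬HasDensity 2 V.fst x θ} ∩ ball x₀ (r * σ))).toReal / (r * σ) ^ 2 * σ ^ 2
      = (ENNReal.ofReal (r⁻¹ ^ 2) *
        V.fst ({x | ¬HasDensity 2 V.fst x θ} ∩ ball x₀ (r * σ))).toReal := by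
    rw [ENNReal.toReal_mul, ENNReal.toReal_ofReal (by positivity)]
    field_simp
  rw [h4]
  refine ENNReal.toReal_mono (ENNReal.mul_ne_top ENNReal.ofReal_ne_top h3)
    ((blow_apply_le hr _).trans (mul_le_mul_right (le_trans (measure_mono fun w hw => ?_)
      (Measure.le_map_apply measurable_fst.aemeasurable _)) _))
  obtain ⟨h5, h6⟩ := hw
  have h7 : dist w.1 x₀ < r * σ := by
    rwa [norm_smul, norm_inv, Real.norm_of_nonneg hr.le, inv_mul_lt_iff₀ hr, ← dist_eq_norm] at h5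
  refine ⟨fun h8 => h6 (Eventually.frequently ?_), h7⟩
  obtain ⟨δ, hδ, h9⟩ := dens_tev h8 (ε := Real.pi / 100) (by positivity)
  refine small_tev.2 ⟨min 1 (δ / r), by positivity, fun s hs hs' => ?_⟩
  have h10 : r * s ≤ r := mul_le_of_le_one_right hr.le (hs'.le.trans (min_le_left _ _))
  have h11 : r * s < δ := by
    have := hs'.trans_le (min_le_right _ _)
    rwa [lt_div_iff₀' hr] at this
  have h12 := (abs_le.1 (h9 (r * s) (mul_pos hr hs) h11)).1
  have h13 : x₀ + r • r⁻¹ • (w.1 - x₀) = w.1 := by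
    rw [smul_inv_smul₀ hr.ne', add_sub_cancel]
  rw [real_tev hr, h13, inter_eq_left.2 (ball_subset_ball' (by linarith)),
    le_div_iff₀ (by positivity)]
  linarith

theorem exists_EV (hV : IsStationaryVarifold 2 U V) (hU : IsOpen U) (hi : IsIntegral 2 V)
    (hx : x₀ ∈ U) (hs : x₀ ∈ V.fst.support) (hd : HasDensity 2 V.fst x₀ θ)
    {ι : EuclideanSpace ℝ (Fin 2) →ₗᵢ[ℝ] H} (ht : HasFlatTangent 2 V.fst x₀ θ ι)
    (hbad : DensityCondition 2 V.fst x₀ θ) :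
    ∃ M, ∀ ε > 0, ∃ r > 0, EV (blow V x₀ r) (iota2 ι) M θ ε := by
  have hc := isIntC_of_isIntegral hi
  have hb : ∀ η > 0, ∃ δ > 0, ∀ s, 0 < s → s < δ →
      (V.fst ({x | ¬HasDensity 2 V.fst x θ} ∩ ball x₀ s)).toReal / s ^ 2 < η := fun η hη =>
    small_tev.1 (hbad.eventually (gt_mem_nhds hη))
  obtain ⟨R, hR, hRU⟩ := Metric.isOpen_iff.1 hU x₀ hx
  refine ⟨36 * Real.pi * (|θ| + 1), fun ε hε => ?_⟩
  obtain ⟨δ, hδ, h1⟩ := hb ε hε
  have h2 : ∀ᶠ r in 𝓝[>] (0 : ℝ), 0 < r ∧ r < min R δ / 4 :=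
    small_tev.2 ⟨min R δ / 4, by positivity, fun r h1 h2 => ⟨h1, h2⟩⟩
  obtain ⟨r, ⟨hr, hr'⟩, h3, h4, h5⟩ := (h2.and ((ev_ub hV hU hx hd).and
    ((ev_mass hd hε).and (ev_flat hV hU hc hx ht hε)))).exists
  have h6 := min_le_left R δ
  have h7 := min_le_right R δ
  have h8 : closedBall x₀ (4 * r) ⊆ U := (closedBall_subset_ball (by linarith)).trans hRU
  have hfin := blow_fin hV hr h8
  refine ⟨r, hr, hfin, blow_car hV hr, blow_stat hV hr h8, (hc.blow x₀ hr).area, ?_, h3, h5, h4,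
    fun σ hσ hσ3 => ?_, fun η hη => ?_, ?_⟩
  · filter_upwards [(hc.blow x₀ hr).ae_LD1] with z hz
    refine Eventually.frequently ?_
    filter_upwards [hz (1 / 2) (by norm_num)] with s hs
    have h9 := (ENNReal.ofReal_le_iff_le_toReal (measure_ne_top _ _)).1 hs
    have h10 := mul_le_mul_of_nonneg_right Real.pi_gt_three.le (sq_nonneg s)
    rw [Measure.real]
    linarith
  · have h9 : r * σ ≤ r * 3 := mul_le_mul_of_nonneg_left hσ3 hr.le
    exact (ev_bad_le hV hr hσ hσ3 h8).trans (mul_le_mul_of_nonneg_right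
      (h1 _ (mul_pos hr hσ) (by linarith)).le (sq_nonneg σ))
  · obtain ⟨δ', hδ', h9⟩ := hb η hη
    refine ⟨min 3 (δ' / 2 / r), by positivity, fun σ hσ hσ' => ?_⟩
    have h10 := hσ'.trans (min_le_right _ _)
    rw [le_div_iff₀' hr] at h10
    exact (ev_bad_le hV hr hσ (hσ'.trans (min_le_left _ _)) h8).trans (mul_le_mul_of_nonneg_right
      (h9 _ (mul_pos hr hσ) (by linarith)).le (sq_nonneg σ))
  · linarith [one_le_density hV hU hc hx hs hd]

/-- the question for surfaces follows from the regularity theorem for the package EV -/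
theorem regular_of_ev
    (hev : ∀ M θ : ℝ, ∃ ε > 0, ∀ (W : Measure (H × (H →L[ℝ] H))) (κ : ℂ →ₗᵢ[ℝ] H),
      EV W κ M θ ε → GraphAt0 W.fst.support κ)
    (hV : IsStationaryVarifold 2 U V) (hU : IsOpen U) (hi : IsIntegral 2 V)
    (hx : x₀ ∈ U) (hs : x₀ ∈ V.fst.support) (hd : HasDensity 2 V.fst x₀ θ)
    {ι : EuclideanSpace ℝ (Fin 2) →ₗᵢ[ℝ] H} (ht : HasFlatTangent 2 V.fst x₀ θ ι)
    (hbad : DensityCondition 2 V.fst x₀ θ) : SmoothGraphNear V.fst.support x₀ ι := by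
  obtain ⟨M, hM⟩ := exists_EV hV hU hi hx hs hd ht hbad
  obtain ⟨ε, hε, h⟩ := hev M θ
  obtain ⟨r, hr, hE⟩ := hM ε hε
  exact smoothGraphNear_of_blow hr (h _ _ hE)

end Pool.Agent.Lib.MP_8daebb_an.SV
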