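import Pool.Agent.Lib.MP_8daebb_an.SV.ChMain
import Pool.Agent.Lib.MP_8daebb_an.SV.SysZ
import Pool.Agent.Lib.MP_8daebb_an.SV.TEV

/-! Assembly: a blown-up varifold that is close to a plane is a smooth graph near the origin. -/

open MeasureTheory Metric Filter Topology Set
open scoped RealInnerProductSpace ENNReal ContDiff

namespace Pool.Agent.Lib.MP_8daebb_an.SV

variable {H : Type*} [NormedAddCommGroup H] [InnerProductSpace ℝ H] [FiniteDimensional ℝ H]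
  [MeasurableSpace H] [BorelSpace H]

theorem ev_regular (M θ : ℝ) : ∃ ε > 0, ∀ (W : Measure (H × (H →L[ℝ] H))) (κ : ℂ →ₗᵢ[ℝ] H),
    EV W κ M θ ε → GraphAt0 W.fst.support κ := by
  obtain ⟨M₁, hA⟩ := Ch.sysA (H := H) M θ
  obtain ⟨CI, Q, δ, hδ, hZ⟩ :=
    sys_zero (α := H × (H →L[ℝ] H)) (H := H) (C := Ch.Cen H) M₁ θ
  obtain ⟨CN, cN, -, hcN, hA⟩ := hA CI Q
  obtain ⟨e₀, he₀, hA⟩ := hA δ hδ
  have he₁ : 0 < min e₀ (1 / 10000 : ℝ) := by positivity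
  obtain ⟨εB, δ₂, hεB, hδ₂, hZ⟩ := hZ CN cN _ hcN he₁
  obtain ⟨η₀, hη₀, hA⟩ := hA _ he₁ (min_le_left _ _) εB hεB δ₂ hδ₂
  refine ⟨min η₀ (1 / 10000), by positivity, fun W κ hW => ?_⟩
  exact Ch.sysB hW (min_le_right _ _) (min_le_right _ _)
    (hZ _ _ (hA _ (min_le_left _ _) W κ hW))

theorem regular_m2 {U : Set H} {V : Measure (H × (H →L[ℝ] H))} {x₀ : H} {θ : ℝ}
    (hV : IsStationaryVarifold 2 U V) (hU : IsOpen U) (hi : IsIntegral 2 V)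
    (hx : x₀ ∈ U) (hs : x₀ ∈ V.fst.support) (hd : HasDensity 2 V.fst x₀ θ)
    {ι : EuclideanSpace ℝ (Fin 2) →ₗᵢ[ℝ] H} (ht : HasFlatTangent 2 V.fst x₀ θ ι)
    (hbad : DensityCondition 2 V.fst x₀ θ) : SmoothGraphNear V.fst.support x₀ ι :=
  regular_of_ev ev_regular hV hU hi hx hs hd ht hbad

end Pool.Agent.Lib.MP_8daebb_an.SV
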