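import Pool.Agent.Lib.MP_8daebb_an.SV.Ball

/-! Growth of discs with a Lipschitz field. -/

open MeasureTheory Metric Filter Topology Set
open scoped RealInnerProductSpace ENNReal ContDiff

namespace Pool.Agent.Lib.MP_8daebb_an.SV

/-- The field that dilates one disc. -/
noncomputable def piece_grow (lam : ℝ) (b : ℂ × ℝ) (u : ℂ) : ℂ :=
  Real.log (lam * b.2 / max b.2 (min ‖u - b.1‖ (lam * b.2))) • (u - b.1)

theorem in_grow (lam : ℝ) {b : ℂ × ℝ} (hb : 0 < b.2) {u : ℂ}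
    (hu : ‖u - b.1‖ ≤ b.2) : piece_grow lam b u = Real.log lam • (u - b.1) := by
  rw [piece_grow, max_eq_left ((min_le_left _ _).trans hu), mul_div_assoc, div_self hb.ne',
    mul_one]

theorem out_grow {lam : ℝ} (hl : 1 ≤ lam) {b : ℂ × ℝ} (hb : 0 < b.2) {u : ℂ}
    (hu : lam * b.2 ≤ ‖u - b.1‖) : piece_grow lam b u = 0 := by
  have h1 : b.2 ≤ lam * b.2 := le_mul_of_one_le_left hb.le hl
  rw [piece_grow, min_eq_right hu, max_eq_right h1, div_self (by linarith), Real.log_one,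
    zero_smul]

theorem log_grow {r R s t : ℝ} (hr : 0 < r) (hR : r ≤ R) (hs : 0 ≤ s) (hst : s ≤ t) :
    |Real.log (R / max r (min s R)) - Real.log (R / max r (min t R))| * s ≤ t - s := by
  rcases le_total R s with h | h
  · rw [min_eq_right h, min_eq_right (h.trans hst), sub_self, abs_zero, zero_mul]
    linarith
  rw [min_eq_left h]
  have ha : 0 < max r s := lt_max_of_lt_left hr
  have hb : 0 < max r (min t R) := lt_max_of_lt_left hr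
  have hab : max r s ≤ max r (min t R) := max_le_max le_rfl (le_min hst h)
  have hd : max r (min t R) - max r s ≤ t - s := by
    rw [sub_le_iff_le_add]
    refine max_le ?_ ((min_le_left _ _).trans ?_)
    · linarith [le_max_left r s]
    · linarith [le_max_right r s]
  have hs' : s ≤ max r s := le_max_right _ _
  generalize max r s = a at *
  generalize max r (min t R) = c at *
  have hR0 : R ≠ 0 := by linarith
  have e : Real.log (R / a) - Real.log (R / c) = Real.log (c / a) := by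
    rw [Real.log_div hR0 ha.ne', Real.log_div hR0 hb.ne', Real.log_div hb.ne' ha.ne']
    ring
  have h0 : 0 ≤ Real.log (c / a) := Real.log_nonneg ((one_le_div ha).2 hab)
  have h1 := Real.log_le_sub_one_of_pos (div_pos hb ha)
  rw [e, abs_of_nonneg h0]
  calc _ ≤ (c / a - 1) * a := mul_le_mul h1 hs' hs (h0.trans h1)
    _ = c - a := by field_simp
    _ ≤ _ := hd

theorem lip_grow {lam : ℝ} (hl : 1 ≤ lam) {b : ℂ × ℝ} (hb : 0 < b.2) (u v : ℂ) :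
    ‖piece_grow lam b u - piece_grow lam b v‖ ≤ (Real.log lam + 1) * ‖u - v‖ := by
  wlog h : ‖u - b.1‖ ≤ ‖v - b.1‖ generalizing u v
  · rw [norm_sub_rev, norm_sub_rev u v]
    exact this v u (not_le.1 h).le
  have h1 : b.2 ≤ lam * b.2 := le_mul_of_one_le_left hb.le hl
  have h2 := log_grow hb h1 (norm_nonneg _) h
  have h3 : ‖v - b.1‖ - ‖u - b.1‖ ≤ ‖u - v‖ := by
    have := norm_sub_norm_le (v - b.1) (u - b.1)
    rwa [sub_sub_sub_cancel_right, norm_sub_rev v u] at this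
  have hc : 0 < max b.2 (min ‖v - b.1‖ (lam * b.2)) := lt_max_of_lt_left hb
  have h4 : 0 ≤ Real.log (lam * b.2 / max b.2 (min ‖v - b.1‖ (lam * b.2))) :=
    Real.log_nonneg ((one_le_div hc).2 (max_le h1 (min_le_right _ _)))
  have h5 : Real.log (lam * b.2 / max b.2 (min ‖v - b.1‖ (lam * b.2))) ≤ Real.log lam :=
    Real.log_le_log (div_pos (by linarith) hc) ((div_le_iff₀ hc).2
      (mul_le_mul_of_nonneg_left (le_max_left _ _) (by linarith)))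
  unfold piece_grow
  generalize Real.log (lam * b.2 / max b.2 (min ‖v - b.1‖ (lam * b.2))) = g at *
  generalize Real.log (lam * b.2 / max b.2 (min ‖u - b.1‖ (lam * b.2))) = f at *
  have e : f • (u - b.1) - g • (v - b.1) = g • (u - v) + (f - g) • (u - b.1) := by module
  rw [e]
  refine (norm_add_le _ _).trans ?_
  rw [norm_smul, norm_smul, Real.norm_eq_abs, Real.norm_eq_abs, abs_of_nonneg h4]
  linarith [mul_le_mul_of_nonneg_right h5 (norm_nonneg (u - v))]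

theorem cover_grow (B : Finset (ℂ × ℝ)) (ρ : ℂ × ℝ → ℝ) {f : ℂ → ℂ} {K : ℝ}
    (h1 : ∀ b ∈ B, ∀ u v, ‖u - b.1‖ ≤ ρ b → ‖v - b.1‖ ≤ ρ b → ‖f u - f v‖ ≤ K * ‖u - v‖)
    (h2 : ∀ u v, (∀ b ∈ B, ρ b ≤ ‖u - b.1‖) → (∀ b ∈ B, ρ b ≤ ‖v - b.1‖) →
      ‖f u - f v‖ ≤ K * ‖u - v‖) (u v : ℂ) : ‖f u - f v‖ ≤ K * ‖u - v‖ := by
  refine lip_of_cover (Finset.insertNone B) (fun o => o.elim
    (⋂ b ∈ B, {u : ℂ | ρ b ≤ ‖u - b.1‖}) fun b => {u : ℂ | ‖u - b.1‖ ≤ ρ b}) ?_ ?_ ?_ u v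
  · rintro (_ | b) _
    · exact isClosed_biInter fun b _ => isClosed_le continuous_const (by fun_prop)
    · exact isClosed_le (by fun_prop) continuous_const
  · intro w
    by_cases h : ∀ b ∈ B, ρ b ≤ ‖w - b.1‖
    · exact ⟨none, Finset.none_mem_insertNone, mem_iInter₂.2 h⟩
    · simp only [not_forall, not_le] at h
      obtain ⟨b, hb, h⟩ := h
      exact ⟨some b, Finset.some_mem_insertNone.2 hb, h.le⟩
  · rintro (_ | b) hb w hw w' hw'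
    · exact h2 w w' (mem_iInter₂.1 hw) (mem_iInter₂.1 hw')
    · exact h1 b (Finset.some_mem_insertNone.1 hb) w w' hw hw'

theorem one_grow (B : Finset (ℂ × ℝ)) (hpos : ∀ b ∈ B, 0 < b.2) {lam : ℝ} (hl : 1 ≤ lam)
    (hsep : ∀ b ∈ B, ∀ b' ∈ B, b ≠ b' → lam * b.2 + lam * b'.2 ≤ ‖b.1 - b'.1‖) :
    ∃ Y : ℂ → ℂ, (∀ u v, ‖Y u - Y v‖ ≤ (Real.log lam + 1) * ‖u - v‖) ∧
      (∀ b ∈ B, ∀ u v, ‖u - b.1‖ ≤ b.2 → ‖v - b.1‖ ≤ b.2 → Y u - Y v = Real.log lam • (u - v)) ∧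
      ∀ u, (∀ b ∈ B, lam * b.2 ≤ ‖u - b.1‖) → Y u = 0 := by
  have h0 : ∀ u, (∀ b ∈ B, lam * b.2 ≤ ‖u - b.1‖) → ∑ b ∈ B, piece_grow lam b u = 0 :=
    fun u hu => Finset.sum_eq_zero fun b hb => out_grow hl (hpos b hb) (hu b hb)
  have h1 : ∀ b ∈ B, ∀ u, ‖u - b.1‖ ≤ lam * b.2 →
      ∑ b ∈ B, piece_grow lam b u = piece_grow lam b u := by
    intro b hb u hu
    refine Finset.sum_eq_single_of_mem b hb fun b' hb' hne => out_grow hl (hpos b' hb') ?_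
    have a1 := hsep b hb b' hb' hne.symm
    have a2 := norm_sub_le_norm_sub_add_norm_sub b.1 u b'.1
    rw [norm_sub_rev b.1 u] at a2
    linarith
  refine ⟨fun u => ∑ b ∈ B, piece_grow lam b u, cover_grow B (fun b => lam * b.2)
    (fun b hb u v hu hv => ?_) fun u v hu hv => ?_, fun b hb u v hu hv => ?_, h0⟩
  · rw [h1 b hb u hu, h1 b hb v hv]
    exact lip_grow hl (hpos b hb) u v
  · rw [h0 u hu, h0 v hv, sub_zero, norm_zero]
    exact mul_nonneg (by linarith [Real.log_nonneg hl]) (norm_nonneg _)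
  · have a1 : b.2 ≤ lam * b.2 := le_mul_of_one_le_left (hpos b hb).le hl
    simp only
    rw [h1 b hb u (hu.trans a1), h1 b hb v (hv.trans a1), in_grow lam (hpos b hb) hu,
      in_grow lam (hpos b hb) hv, ← smul_sub, sub_sub_sub_cancel_right]

theorem sum_grow (B : Finset (ℂ × ℝ)) {lam : ℝ} (hl : 1 ≤ lam) :
    ∑ b ∈ B.image (fun b => (b.1, lam * b.2)), b.2 ≤ lam * ∑ b ∈ B, b.2 := by
  rw [Finset.mul_sum, Finset.sum_image]
  intro a _ b _ h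
  have h1 := Prod.ext_iff.1 h
  exact Prod.ext h1.1 (mul_left_cancel₀ (by linarith) h1.2)

theorem aux_grow (n : ℕ) : ∀ (B : Finset (ℂ × ℝ)), B.card < n → (∀ b ∈ B, 0 < b.2) →
    (∀ b ∈ B, ∀ b' ∈ B, b ≠ b' → b.2 + b'.2 < ‖b.1 - b'.1‖) → ∀ lam : ℝ, 1 ≤ lam →
    ∃ (B' : Finset (ℂ × ℝ)) (Y : ℂ → ℂ),
      (∀ b ∈ B', ∀ b' ∈ B', b ≠ b' → b.2 + b'.2 < ‖b.1 - b'.1‖) ∧
      (∀ b ∈ B, ∃ b' ∈ B', ‖b.1 - b'.1‖ + lam * b.2 ≤ b'.2) ∧
      (∀ b' ∈ B', ∃ b ∈ B, lam * b.2 ≤ b'.2) ∧ ∑ b ∈ B', b.2 ≤ lam * ∑ b ∈ B, b.2 ∧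
      (∀ u v, ‖Y u - Y v‖ ≤ (Real.log lam + 1) * ‖u - v‖) ∧
      (∀ b ∈ B, ∀ u v, ‖u - b.1‖ ≤ b.2 → ‖v - b.1‖ ≤ b.2 → Y u - Y v = Real.log lam • (u - v)) ∧
      ∀ u, (∀ b' ∈ B', b'.2 ≤ ‖u - b'.1‖) → Y u = 0 := by
  induction n with
  | zero => intro B h; omega
  | succ n ih =>
  intro B hn hpos hsep lam hl
  by_cases hs : ∀ b ∈ B, ∀ b' ∈ B, b ≠ b' → lam * b.2 + lam * b'.2 < ‖b.1 - b'.1‖
  · obtain ⟨Y, h1, h2, h3⟩ := one_grow B hpos hl fun b hb b' hb' h => (hs b hb b' hb' h).le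
    refine ⟨B.image fun b => (b.1, lam * b.2), Y, ?_, fun b hb => ?_, ?_, sum_grow B hl, h1,
      h2, fun u hu => h3 u fun b hb => hu _ (Finset.mem_image_of_mem _ hb)⟩
    · simp only [Finset.forall_mem_image]
      exact fun b hb b' hb' h => hs b hb b' hb' fun e => h (by rw [e])
    · exact ⟨_, Finset.mem_image_of_mem _ hb, by simp⟩
    · simp only [Finset.forall_mem_image]
      exact fun b hb => ⟨b, hb, le_rfl⟩
  simp only [not_forall, not_lt] at hs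
  obtain ⟨a, ha, a', ha', hne, hle⟩ := hs
  obtain ⟨⟨c, c'⟩, hc, hmin⟩ := Finset.exists_min_image B.offDiag
    (fun x => ‖x.1.1 - x.2.1‖ / (x.1.2 + x.2.2)) ⟨(a, a'), Finset.mem_offDiag.2 ⟨ha, ha', hne⟩⟩
  obtain ⟨hc1, hc2, hc3⟩ := Finset.mem_offDiag.1 hc
  simp only at hc1 hc2 hc3 hmin
  have hcc : 0 < c.2 + c'.2 := add_pos (hpos c hc1) (hpos c' hc2)
  obtain ⟨l1, hl1⟩ : ∃ l1, l1 = ‖c.1 - c'.1‖ / (c.2 + c'.2) := ⟨_, rfl⟩
  rw [← hl1] at hmin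
  have g1 : 1 ≤ l1 := hl1 ▸ (one_le_div hcc).2 (hsep c hc1 c' hc2 hc3).le
  have g0 : 0 < l1 := by linarith
  have g2 : l1 ≤ lam := (hmin (a, a') (Finset.mem_offDiag.2 ⟨ha, ha', hne⟩)).trans
    ((div_le_iff₀ (add_pos (hpos a ha) (hpos a' ha'))).2 (by rw [mul_add]; exact hle))
  obtain ⟨Y1, h1, h2, h3⟩ := one_grow B hpos g1 fun b hb b' hb' h => by
    have := (le_div_iff₀ (add_pos (hpos b hb) (hpos b' hb'))).1
      (hmin (b, b') (Finset.mem_offDiag.2 ⟨hb, hb', h⟩))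
    rwa [mul_add] at this
  obtain ⟨B2, m1, m2, m3, m4, -, m6⟩ := merge_balls (B.image fun b => (b.1, l1 * b.2)) (by
    simp only [Finset.forall_mem_image]
    exact fun b hb => mul_pos g0 (hpos b hb))
  simp only [Finset.forall_mem_image] at m2
  have m3' : ∀ b' ∈ B2, ∃ b ∈ B, l1 * b.2 ≤ b'.2 := fun b' hb' => by
    obtain ⟨_, h, h'⟩ := m3 b' hb'
    obtain ⟨b, hb, rfl⟩ := Finset.mem_image.1 h
    exact ⟨b, hb, h'⟩
  have hcard : B2.card < n := by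
    have a1 := m6 ⟨_, Finset.mem_image_of_mem _ hc1, _, Finset.mem_image_of_mem _ hc2, fun e => by
      have h1 := Prod.ext_iff.1 e
      exact hc3 (Prod.ext h1.1 (mul_left_cancel₀ g0.ne' h1.2)), by
      simp only
      rw [← mul_add, hl1, div_mul_cancel₀ _ hcc.ne']⟩
    have a2 := Finset.card_image_le (s := B) (f := fun b : ℂ × ℝ => (b.1, l1 * b.2))
    omega
  obtain ⟨l2, rfl⟩ : ∃ l2, lam = l2 * l1 := ⟨lam / l1, (div_mul_cancel₀ _ g0.ne').symm⟩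
  have g3 : 1 ≤ l2 := by
    by_contra h
    nlinarith
  obtain ⟨B', Y2, k1, k2, k3, k4, k5, k6, k7⟩ := ih B2 hcard (fun b' hb' => by
    obtain ⟨b, hb, h⟩ := m3' b' hb'
    exact (mul_pos g0 (hpos b hb)).trans_le h) m1 l2 g3
  have hlog : Real.log (l2 * l1) = Real.log l2 + Real.log l1 :=
    Real.log_mul (by linarith) g0.ne'
  have p1 := Real.log_nonneg g1
  have p2 := Real.log_nonneg g3
  have hin : ∀ b ∈ B, ∃ b' ∈ B', ‖b.1 - b'.1‖ + l2 * l1 * b.2 ≤ b'.2 := fun b hb => by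
    obtain ⟨d, hd, a1⟩ := m2 hb
    obtain ⟨b', hb', a2⟩ := k2 d hd
    have a3 := norm_sub_le_norm_sub_add_norm_sub b.1 d.1 b'.1
    have a4 := mul_le_mul_of_nonneg_left a1 (by linarith : 0 ≤ l2)
    have a5 := le_mul_of_one_le_left (norm_nonneg (b.1 - d.1)) g3
    exact ⟨b', hb', by linarith⟩
  have hout : ∀ u, (∀ d ∈ B2, d.2 ≤ ‖u - d.1‖) → Y1 u = 0 := fun u hu => h3 u fun b hb => by
    obtain ⟨d, hd, a1⟩ := m2 hb
    linarith [hu d hd, norm_sub_le_norm_sub_add_norm_sub u b.1 d.1]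
  have e : ∀ u v, Y1 u + Y2 u - (Y1 v + Y2 v) = Y1 u - Y1 v + (Y2 u - Y2 v) := fun u v => by ring
  refine ⟨B', fun u => Y1 u + Y2 u, k1, hin, fun b' hb' => ?_, ?_, cover_grow B2 (fun b => b.2)
    (fun d hd u v hu hv => ?_) fun u v hu hv => ?_, fun b hb u v hu hv => ?_, fun u hu => ?_⟩
  · obtain ⟨d, hd, a1⟩ := k3 b' hb'
    obtain ⟨b, hb, a2⟩ := m3' d hd
    exact ⟨b, hb, by linarith [mul_le_mul_of_nonneg_left a2 (by linarith : 0 ≤ l2)]⟩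
  · rw [mul_assoc]
    exact k4.trans (mul_le_mul_of_nonneg_left (m4.trans (sum_grow B g1)) (by linarith))
  · rw [e, k6 d hd u v hu hv, hlog]
    refine (norm_add_le _ _).trans ?_
    rw [norm_smul, Real.norm_eq_abs, abs_of_nonneg p2]
    linarith [h1 u v]
  · rw [e, hout u hu, hout v hv, sub_zero, zero_add, hlog]
    linarith [k5 u v, mul_nonneg p1 (norm_nonneg (u - v))]
  · obtain ⟨d, hd, a1⟩ := m2 hb
    have a2 := le_mul_of_one_le_left (hpos b hb).le g1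
    simp only
    rw [e, h2 b hb u v hu hv, k6 d hd u v
      (by linarith [norm_sub_le_norm_sub_add_norm_sub u b.1 d.1])
      (by linarith [norm_sub_le_norm_sub_add_norm_sub v b.1 d.1]), hlog, add_smul, add_comm]
  · simp only
    rw [k7 u hu, add_zero]
    refine h3 u fun b hb => ?_
    obtain ⟨b', hb', a1⟩ := hin b hb
    have a2 := le_mul_of_one_le_left (mul_pos g0 (hpos b hb)).le g3
    linarith [hu b' hb', norm_sub_le_norm_sub_add_norm_sub u b.1 b'.1]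

theorem grow (B : Finset (ℂ × ℝ)) (hpos : ∀ b ∈ B, 0 < b.2)
    (hsep : ∀ b ∈ B, ∀ b' ∈ B, b ≠ b' → b.2 + b'.2 < ‖b.1 - b'.1‖) {lam : ℝ} (hl : 1 ≤ lam) :
    ∃ (B' : Finset (ℂ × ℝ)) (Y : ℂ → ℂ),
      (∀ b ∈ B', ∀ b' ∈ B', b ≠ b' → b.2 + b'.2 < ‖b.1 - b'.1‖) ∧
      (∀ b ∈ B, ∃ b' ∈ B', ‖b.1 - b'.1‖ + lam * b.2 ≤ b'.2) ∧
      (∀ b' ∈ B', ∃ b ∈ B, lam * b.2 ≤ b'.2) ∧ ∑ b ∈ B', b.2 ≤ lam * ∑ b ∈ B, b.2 ∧
      (∀ u v, ‖Y u - Y v‖ ≤ (Real.log lam + 1) * ‖u - v‖) ∧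
      (∀ b ∈ B, ∀ u ∈ closedBall b.1 b.2, ∀ v ∈ closedBall b.1 b.2,
        Y u - Y v = Real.log lam • (u - v)) ∧
      ∀ u, (∀ b' ∈ B', u ∉ ball b'.1 b'.2) → Y u = 0 := by
  obtain ⟨B', Y, h1, h2, h3, h4, h5, h6, h7⟩ :=
    aux_grow (B.card + 1) B (Nat.lt_succ_self _) hpos hsep lam hl
  exact ⟨B', Y, h1, h2, h3, h4, h5, fun b hb u hu v hv =>
    h6 b hb u v (mem_closedBall_iff_norm.1 hu) (mem_closedBall_iff_norm.1 hv),
    fun u hu => h7 u fun b hb => not_lt.1 fun h => hu b hb (mem_ball_iff_norm.2 h)⟩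

end Pool.Agent.Lib.MP_8daebb_an.SV
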