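import Pool.Agent.Lib.MP_8daebb_an.SV.Integ
import Pool.Agent.Lib.MP_8daebb_an.SV.Neck
import Pool.Agent.Lib.MP_8daebb_an.SV.Clus
import Pool.Agent.Lib.MP_8daebb_an.SV.Av
import Pool.Agent.Lib.MP_8daebb_an.SV.Base1

/-! Groups of heights at good points. -/

open MeasureTheory Metric Filter Topology Set
open scoped RealInnerProductSpace ENNReal ContDiff

namespace Pool.Agent.Lib.MP_8daebb_an.SV

variable {α : Type*} [MeasurableSpace α] {H : Type*} [NormedAddCommGroup H]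
  [InnerProductSpace ℝ H] [FiniteDimensional ℝ H] [MeasurableSpace H] [BorelSpace H]

theorem le_En_grp {D : CD α H} {c : ℂ} {R δ M : ℝ} (h : CV D c R δ M) {f : α → ℝ}
    (hf : Integrable f D.m) {k : ℝ} (hk : 0 ≤ k) (hle : ∀ a, PW D δ a → f a ≤ k * D.en a)
    {Z : Set α} {u : ℂ} {σ : ℝ} (hZ : Z ⊆ D.cyl u σ) : ∫ a in Z, f a ∂D.m ≤ k * D.En u σ := by
  have he := h.integrable_t.2.2.2.1
  calc _ ≤ ∫ a in Z, k * D.en a ∂D.m :=
        integral_mono_ae hf.integrableOn (he.const_mul k).integrableOn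
          (ae_restrict_of_ae (h.pw_av.mono hle))
    _ ≤ _ := by
        rw [integral_const_mul]
        exact mul_le_mul_of_nonneg_left (setIntegral_mono_set he.integrableOn
          (ae_restrict_of_ae (h.pw_av.mono fun a ha => ha.facts_av.1)) hZ.eventuallyLE) hk

omit [FiniteDimensional ℝ H] [MeasurableSpace H] [BorelSpace H] in
theorem z_sub_grp (D : CD α H) {e : H} (he : ‖e‖ = 1) (a b : α) :
    |D.z e a - D.z e b| ≤ ‖D.y a - D.y b‖ := by
  have := abs_real_inner_le_norm (D.y a - D.y b) e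
  rwa [he, mul_one, inner_sub_left] at this

theorem neck_grp (M : ℝ) : ∃ c₀ : ℝ, 0 < c₀ ∧ ∃ δ₀ : ℝ, 0 < δ₀ ∧
    ∀ (D : CD α H) (R δ ρ η : ℝ) (u : ℂ), CV D 0 R δ M → δ ≤ δ₀ → 0 < η → η ≤ ρ →
    ‖u‖ + 32 * ρ ≤ R → D.En u (32 * ρ) * (1 + Real.log (ρ / η)) ^ 2 ≤ c₀ * η ^ 2 →
    ∀ a ∈ D.G, a ∈ D.cyl u (16 * ρ) → D.Den (4 / 3) a → ∀ r, η ≤ r → r ≤ 8 * ρ →
    3 / 4 * r ^ 2 ≤ D.m.real (D.box (D.x a) (D.y a) (5 / 4 * r) η) := by
  obtain ⟨c₁, hc₁, δ₁, hδ₁, hn⟩ := neck (α := α) (H := H) (κ := 1 / 4) (by norm_num) (by norm_num) M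
  refine ⟨c₁ / 64, by positivity, min δ₁ 1, by positivity,
    fun D R δ ρ η u h hδ hη hηρ hu hE a ha hx hd r h1 h2 => ?_⟩
  have hx' : ‖D.x a - u‖ < 16 * ρ := hx
  have hδ1 : δ ≤ 1 := hδ.trans (min_le_right _ _)
  have hi := h.integrable_t
  have h3 := hn D 0 R δ h (hδ.trans (min_le_left _ _)) a ha (4 / 3) r η (D.En u (32 * ρ))
    (by norm_num) hd hη h1 (by
      rw [sub_zero]
      linarith [norm_le_norm_add_norm_sub' (D.x a) u]) ?_ ?_
  · convert h3 using 2 <;> norm_num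
  · refine (le_En_grp h (hi.1.add (hi.2.2.1.const_mul δ)) zero_le_one (fun a _ => ?_)
      fun b hb => ?_).trans_eq (one_mul _)
    · simp only [CD.en, Pi.add_apply]
      nlinarith [sq_nonneg ‖D.y a‖]
    · have h4 : ‖D.x b - D.x a‖ < 2 * r := hb.1
      change ‖D.x b - u‖ < 32 * ρ
      linarith [norm_sub_le_norm_sub_add_norm_sub (D.x b) (D.x a) u]
  · have hE0 : 0 ≤ D.En u (32 * ρ) :=
      integral_nonneg_of_ae (ae_restrict_of_ae (h.pw_av.mono fun a ha => ha.facts_av.1))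
    have l0 : 0 ≤ Real.log (ρ / η) := Real.log_nonneg ((one_le_div hη).2 hηρ)
    have l1 : 0 ≤ Real.log (r / η) := Real.log_nonneg ((one_le_div hη).2 h1)
    have l2 : Real.log (r / η) ≤ 7 + Real.log (ρ / η) := by
      have l3 : Real.log (r / η) ≤ Real.log (8 * (ρ / η)) :=
        Real.log_le_log (div_pos (by linarith) hη)
          (by rw [← mul_div_assoc]; exact div_le_div_of_nonneg_right h2 hη.le)
      rw [Real.log_mul (by norm_num) (div_pos (by linarith) hη).ne'] at l3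
      linarith [Real.log_le_sub_one_of_pos (show (0 : ℝ) < 8 by norm_num)]
    have l4 : (1 + Real.log (r / η)) ^ 2 ≤ (8 * (1 + Real.log (ρ / η))) ^ 2 :=
      pow_le_pow_left₀ (by linarith) (by linarith) 2
    nlinarith [mul_le_mul_of_nonneg_left l4 hE0]

theorem one_grp (M : ℝ) : ∃ C : ℝ, 0 < C ∧ ∃ δ₀ : ℝ, 0 < δ₀ ∧ ∃ ρ₀ : ℝ, 0 < ρ₀ ∧
    ∀ (D : CD α H) (δ s ρ : ℝ) (u : ℂ), CV D u (16 * ρ) δ M → Sm D s ρ → δ ≤ δ₀ → ρ ≤ ρ₀ →
    ∃ n : ℕ, |D.av ρ (fun _ => (1 : ℝ)) u - n| ≤ C * s ^ 3 ∧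
      (n = 0 → D.m.real (D.cyl u (2 * ρ)) ≤ C * ρ * ρ ^ 2) := by
  obtain ⟨lam, hlam, δ₁, hδ₁, CI, hCI, hn⟩ := integ (α := α) (H := H) M (64 * M)
  have hCk := one_le_Ck
  refine ⟨Ck * (2 * CI + 3), by positivity, min δ₁ (1 / 2), by positivity, min lam (1 / 2),
    by positivity, fun D δ s ρ u h hs hδ hρ => ?_⟩
  have hρ0 := hs.ρ_pos
  have hs0 := hs.s_pos
  have hρ1 : ρ ≤ 1 / 2 := hρ.trans (min_le_right _ _)
  have hδ1 : δ ≤ 1 / 2 := hδ.trans (min_le_right _ _)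
  have hs3 : s ≤ ρ ^ 3 := hs.s_le.trans (pow_le_pow_of_le_one hρ0.le (by linarith) (by norm_num))
  have hs2 : s ≤ ρ ^ 2 := hs.s_le.trans (pow_le_pow_of_le_one hρ0.le (by linarith) (by norm_num))
  have hs1 : s ≤ 1 := hs2.trans (pow_le_one₀ hρ0.le (by linarith))
  have hs4 : s ^ 4 ≤ ρ * ρ ^ 2 :=
    (pow_le_of_le_one hs0.le hs1 (by norm_num)).trans (hs3.trans_eq (by ring))
  have hi := h.integrable_t
  have hEn := hs.En_le_av h u
  have hT : ∀ σ, D.T u σ ≤ s ^ 4 := fun σ => by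
    have := le_En_grp h hi.1 zero_le_one (fun a _ => by
      simp only [CD.en]
      nlinarith [sq_nonneg ‖D.y a‖]) (subset_refl (D.cyl u σ))
    exact this.trans ((one_mul _).trans_le (hEn σ))
  have hJ : D.J u (2 * ρ) ≤ s ^ 4 := by
    have := le_En_grp h hi.2.2.1 zero_le_one (fun a ha => by
      simp only [CD.en]
      linarith [ha.t_nonneg]) (subset_refl (D.cyl u (2 * ρ)))
    exact this.trans ((one_mul _).trans_le (hEn _))
  obtain ⟨N, hN⟩ := h.exists_mult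
  obtain ⟨n, h1⟩ := hn D u (16 * ρ) δ h (hδ.trans (min_le_left _ _)) N u (2 * ρ) hN (by linarith)
    (by simp; linarith) ((hT _).trans (hs4.trans (by
      nlinarith [mul_le_mul_of_nonneg_right (hρ.trans (min_le_left _ _)) (sq_nonneg ρ),
        mul_pos hlam (pow_pos hρ0 2)])))
    ((hs.cyl_le h hρ1 u (by linarith)).trans_eq (by ring))
  have h2 := le_En_grp h hi.2.1 zero_le_two (fun a ha => ha.facts_av.2.1)
    (subset_refl (D.cyl u (8 * (2 * ρ))))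
  have h3 : ∫ v in ball u (2 * ρ), |(N v : ℝ) - n| ≤ 2 * CI * s ^ 4 := by
    nlinarith [mul_le_mul_of_nonneg_left (h2.trans
      (mul_le_mul_of_nonneg_left (hEn _) zero_le_two)) hCI.le]
  refine ⟨n, (h.av_one hδ1 hN hρ0 u n).trans ?_, fun h0 => ?_⟩
  · have h4 : ∫ v in ball u ρ, |(N v : ℝ) - n| ≤ ∫ v in ball u (2 * ρ), |(N v : ℝ) - n| :=
      setIntegral_mono_set (((hN.integrable_base2 h).integrableOn.sub
        (integrableOn_const measure_ball_lt_top.ne)).abs)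
        (Eventually.of_forall fun _ => abs_nonneg _) (ball_subset_ball (by linarith)).eventuallyLE
    rw [div_mul_eq_mul_div, div_le_iff₀ (by positivity), mul_assoc, mul_assoc]
    refine mul_le_mul_of_nonneg_left ?_ (by linarith)
    have h5 : s ^ 4 ≤ s ^ 3 * ρ ^ 2 := by
      rw [pow_succ]
      exact mul_le_mul_of_nonneg_left hs2 (by positivity)
    nlinarith [hEn ρ, mul_le_mul_of_nonneg_left h5 hCI.le, pow_pos hs0 4]
  · have h4 := (abs_le.1 (hN.mass_near h u (2 * ρ))).2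
    simp only [h0, Nat.cast_zero, sub_zero, Nat.abs_cast] at h3
    have h5 : δ * D.J u (2 * ρ) ≤ s ^ 4 :=
      (mul_le_mul_of_nonneg_left hJ h.δ_nonneg).trans (by nlinarith [pow_pos hs0 4])
    have h6 : (2 * CI + 3) * s ^ 4 ≤ Ck * (2 * CI + 3) * (ρ * ρ ^ 2) :=
      mul_le_mul (le_mul_of_one_le_left (by positivity) hCk) hs4 (by positivity) (by positivity)
    nlinarith [hT (2 * ρ)]

theorem grp (M : ℝ) {CI : ℝ} (hCI : 0 ≤ CI) (Q : ℕ) : ∃ C : ℝ, 0 < C ∧ ∃ Λ : ℝ, 1 ≤ Λ ∧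
    ∃ c₀ : ℝ, 0 < c₀ ∧ ∃ δ₀ : ℝ, 0 < δ₀ ∧ ∃ ρ₀ : ℝ, 0 < ρ₀ ∧
    ∀ (D : CD α H) (R δ s ρ η : ℝ) (N : ℂ → ℕ) (e : H) (u : ℂ), MS D R δ M s ρ CI Q N → δ ≤ δ₀ →
    ρ ≤ ρ₀ → ‖e‖ = 1 → 0 < η → η ≤ ρ / 2 → ‖u‖ + 32 * ρ ≤ R →
    D.En u (32 * ρ) * (1 + Real.log (ρ / η)) ^ 2 ≤ c₀ * η ^ 2 →
    ∃ (Cs : Finset ℝ) (wd : ℝ) (Qc : ℝ → ℕ), Grp D e ρ η u Q (C * s ^ 3) Cs wd Qc ∧
      wd ≤ Λ * η := by
  classical
  obtain ⟨c₁, hc₁, δ₁, hδ₁, hneck⟩ := neck_grp (α := α) (H := H) M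
  obtain ⟨C, hC, δ₂, hδ₂, ρ₂, hρ₂, hone⟩ := one_grp (α := α) (H := H) M
  obtain ⟨K, hK⟩ := exists_nat_gt (15 * M)
  obtain ⟨Λ, hΛ, hclus⟩ := cluster K
  have hCk := one_le_Ck
  obtain ⟨B, hB⟩ : ∃ B, B = (K + 1) * C + Ck * (2 * CI + 2) := ⟨_, rfl⟩
  have hB0 : 0 < B := by rw [hB]; positivity
  refine ⟨C, hC, Λ, hΛ, c₁, hc₁, min (min δ₁ δ₂) (1 / 2), by positivity,
    min (min ρ₂ (8 * B)⁻¹) (1 / 2), by positivity,
    fun D R δ s ρ η N e u hMS hδ hρ he hη hηρ hu hE => ?_⟩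
  have h := hMS.cv
  have hs := hMS.sm
  have := h.fin
  have hρ0 := hs.ρ_pos
  have hs0 := hs.s_pos
  simp only [le_min_iff] at hδ hρ
  obtain ⟨⟨hδa, hδb⟩, hδ1⟩ := hδ
  obtain ⟨⟨hρa, hρb⟩, hρ1⟩ := hρ
  have hBρ : B * ρ ≤ 1 / 8 := by
    have := mul_le_mul_of_nonneg_left hρb hB0.le
    rwa [mul_inv, mul_left_comm, mul_inv_cancel₀ hB0.ne', mul_one, ← one_div] at this
  have hn := hneck D R δ ρ η u h hδa hη (by linarith) hu hE
  obtain ⟨S, hS1, hS2, hS3⟩ := maxsep_cyl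
    (fun a => a ∈ D.G ∧ a ∈ D.cyl u (16 * ρ) ∧ D.Den (4 / 3) a)
    (fun a b => 2 * η ≤ |D.z e a - D.z e b|) (fun a b hab => by rwa [abs_sub_comm]) K
    fun S h1 h2 h3 => by
      have h4 : (S : Set α).PairwiseDisjoint fun a => D.box (D.x a) (D.y a) (5 / 4 * (8 * ρ)) η :=
        fun a ha b hb hab => Set.disjoint_left.2 fun t h5 h6 => by
          linarith [h2 a ha b hb hab, z_sub_grp D he a b, h5.2, h6.2, norm_sub_rev (D.y a) (D.y t),
            norm_sub_le_norm_sub_add_norm_sub (D.y a) (D.y t) (D.y b)]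
      have h5 := measureReal_biUnion_finset (μ := D.m) h4 fun a _ => h.meas_box _ _ _ _
      have h6 : D.m.real (⋃ a ∈ S, D.box (D.x a) (D.y a) (5 / 4 * (8 * ρ)) η)
          ≤ D.m.real (D.cyl u (26 * ρ)) := measureReal_mono (iUnion₂_subset fun a ha t ht => by
        have h7 : ‖D.x a - u‖ < 16 * ρ := (h1 a ha).2.1
        change ‖D.x t - u‖ < 26 * ρ
        linarith [ht.1, norm_sub_le_norm_sub_add_norm_sub (D.x t) (D.x a) u])
      have h7 := Finset.card_nsmul_le_sum S _ _ fun a ha =>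
        hn a (h1 a ha).1 (h1 a ha).2.1 (h1 a ha).2.2 (8 * ρ) (by linarith) le_rfl
      have h8 := hs.cyl_le h hρ1 u (show ρ / 2 ≤ 26 * ρ by linarith)
      rw [h3, nsmul_eq_mul, ← h5] at h7
      nlinarith [mul_lt_mul_of_pos_right hK (pow_pos hρ0 2), mul_nonneg h.M_nonneg (sq_nonneg ρ)]
  obtain ⟨Cs, wd, hCs, hwd, hwdΛ, hcen, hgap⟩ :=
    hclus (S.image (D.z e)) η hη (Finset.card_image_le.trans hS2)
  have hcov : ∀ a ∈ D.G, a ∈ D.cyl u (16 * ρ) → D.Den (4 / 3) a →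
      ∃ c ∈ Cs, |D.z e a - c| ≤ wd := fun a h1 h2 h3 => by
    obtain ⟨b, hb, h4⟩ := hS3 a ⟨h1, h2, h3⟩
    obtain ⟨c, hc, h5⟩ := hcen _ (Finset.mem_image_of_mem _ hb)
    refine ⟨c, hc, ?_⟩
    rcases h4 with rfl | h4
    · linarith
    · linarith [abs_sub_le (D.z e a) (D.z e b) c]
  have h1 := h.resB hδ1 (c' := u) (σ := 16 * ρ) (by linarith) (by rw [sub_zero]; linarith)
  have hs1 : Sm (D.resB u (16 * ρ)) s ρ := hs.res h _
  have hae : ∀ᵐ a ∂(D.resB u (16 * ρ)).m, ∃ c ∈ Cs, |D.z e a - c| ≤ wd := by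
    refine (ae_restrict_iff' (h.meas_cyl u _)).2 ?_
    filter_upwards [h.ae_G, h.ld] with a h2 h3 h4 using hcov a h2 h4 h3
  have hz : Measurable (D.z e) := h.m_y.inner_const
  have key : ∀ c ∈ Cs, ∃ n : ℕ,
      |D.av ρ (fun a => if |D.z e a - c| ≤ wd then (1 : ℝ) else 0) u - n| ≤ C * s ^ 3 ∧
      ∀ a ∈ D.G, a ∈ D.cyl u ρ → D.Den (4 / 3) a → |D.z e a - c| ≤ wd → 1 ≤ n := by
    intro c hc
    have h2 : ∀ᵐ a ∂(D.resB u (16 * ρ)).m, |D.z e a - c| ≤ wd ∨ wd + 4 * η ≤ |D.z e a - c| := by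
      filter_upwards [hae] with a ⟨c', hc', h3⟩
      by_cases h4 : c = c'
      · exact Or.inl (h4 ▸ h3)
      · refine Or.inr ?_
        linarith [hgap c hc c' hc' h4, abs_sub_le c (D.z e a) c', abs_sub_comm c (D.z e a)]
    have hZ : MeasurableSet {a | c - wd - 2 * η < D.z e a ∧ D.z e a < c + wd + 2 * η} :=
      (measurableSet_lt measurable_const hz).inter (measurableSet_lt hz measurable_const)
    have h3 := h1.res_slab hδ1 he (h₁ := c - wd - 2 * η) (h₂ := c + wd + 2 * η) hη (by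
      filter_upwards [h2] with a ha
      change η ≤ |D.z e a - _| ∧ η ≤ |D.z e a - _|
      simp only [abs_le, le_abs] at ha ⊢
      rcases ha with ⟨a1, a2⟩ | a1 | a1
      · exact ⟨Or.inl (by linarith), Or.inr (by linarith)⟩
      · exact ⟨Or.inl (by linarith), Or.inl (by linarith)⟩
      · exact ⟨Or.inr (by linarith), Or.inr (by linarith)⟩)
    obtain ⟨n, h4, h5⟩ := hone _ δ s ρ u h3 (hs1.res h1 _) hδb hρa
    refine ⟨n, ?_, fun a a1 a2 a3 a4 => ?_⟩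
    · rw [← av_resB h.m_x hρ0 (c := u) (R₁ := 16 * ρ) (by simp; linarith)]
      refine le_of_eq_of_le ?_ h4
      congr 2
      refine (integral_congr_ae ?_).trans (integral_indicator hZ)
      filter_upwards [h2] with a ha
      rcases ha with ha | ha
      · rw [if_pos ha, indicator_of_mem]
        · rfl
        · exact show c - wd - 2 * η < D.z e a ∧ D.z e a < c + wd + 2 * η from
            ⟨by linarith [(abs_le.1 ha).1], by linarith [(abs_le.1 ha).2]⟩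
      · rw [if_neg (by linarith), smul_zero, indicator_of_notMem]
        rintro (⟨a1, a2⟩ : c - wd - 2 * η < D.z e a ∧ D.z e a < c + wd + 2 * η)
        rcases le_abs.1 ha with a3 | a3 <;> linarith
    · by_contra h6
      have a5 : ‖D.x a - u‖ < ρ := a2
      have h7 := hn a a1 (cyl_mono_base2 D u (by linarith) a2) a3 (ρ / 2) hηρ (by linarith)
      have h8 := h5 (by omega)
      change ((D.m.restrict _).restrict {a | c - wd - 2 * η < D.z e a ∧
        D.z e a < c + wd + 2 * η}).real (D.cyl u (2 * ρ)) ≤ _ at h8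
      rw [measureReal_restrict_apply (h.meas_cyl u _),
        measureReal_restrict_apply ((h.meas_cyl u _).inter hZ)] at h8
      have h9 := h7.trans ((measureReal_mono fun t ht => by
        have a6 := norm_sub_le_norm_sub_add_norm_sub (D.x t) (D.x a) u
        have a7 := abs_le.1 ((z_sub_grp D he t a).trans ht.2.le)
        have a8 := abs_le.1 a4
        have a9 := ht.1
        refine ⟨⟨show ‖D.x t - u‖ < 2 * ρ by linarith, ?_, ?_⟩,
          show ‖D.x t - u‖ < 16 * ρ by linarith⟩ <;> linarith).trans h8)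
      have h10 : C ≤ B := by
        rw [hB]
        nlinarith [mul_nonneg (Nat.cast_nonneg (α := ℝ) K) hC.le,
          mul_nonneg (zero_le_one.trans hCk) (show 0 ≤ 2 * CI + 2 by linarith)]
      nlinarith [mul_le_mul_of_nonneg_right
        ((mul_le_mul_of_nonneg_right h10 hρ0.le).trans hBρ) (sq_nonneg ρ), pow_pos hρ0 2]
  choose! n hn1 hn2 using key
  have hsum : ∑ c ∈ Cs, D.av ρ (fun a => if |D.z e a - c| ≤ wd then (1 : ℝ) else 0) u
      = D.av ρ (fun _ => (1 : ℝ)) u := by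
    have := h1.fin
    simp only [← av_resB h.m_x hρ0 (c := u) (u := u) (R₁ := 16 * ρ) (by simp; linarith)]
    refine (integral_finsetSum _ fun c _ => h1.int_av hρ0 (int_cyl
      (Measurable.ite (measurableSet_le (hz.sub_const c).abs measurable_const) measurable_const
        measurable_const) fun a => by split_ifs <;> norm_num) u).symm.trans (integral_congr_ae ?_)
    filter_upwards [hae] with a ⟨c, hc, h2⟩
    rw [Finset.sum_eq_single_of_mem c hc fun c' hc' h3 => by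
      rw [if_neg fun h4 => by
        linarith [hgap c' hc' c hc h3, abs_sub_le c' (D.z e a) c, abs_sub_comm c' (D.z e a)],
        smul_zero], if_pos h2]
  have hQ : ∑ c ∈ Cs, n c = Q := by
    have h2 := hMS.av_one hδ1 hρ1 hCI (u := u) (by linarith)
    have h3 := (Finset.abs_sum_le_sum_abs _ _).trans (Finset.sum_le_card_nsmul Cs _ _ hn1)
    rw [Finset.sum_sub_distrib, hsum, nsmul_eq_mul, ← Nat.cast_sum] at h3
    have h4 : s ≤ ρ := hs.s_le.trans (pow_le_of_le_one hρ0.le (by linarith) (by norm_num))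
    have h5 : s ^ 3 ≤ ρ := (pow_le_of_le_one hs0.le (by linarith) (by norm_num)).trans h4
    have h6 : (Cs.card : ℝ) * (C * s ^ 3) ≤ K * (C * s ^ 3) :=
      mul_le_mul_of_nonneg_right (by exact_mod_cast hCs) (by positivity)
    have h7 := (mul_le_mul_of_nonneg_left h5 hB0.le).trans hBρ
    have h8 : |((∑ c ∈ Cs, n c : ℕ) : ℝ) - Q| ≤ 1 / 8 := by
      rw [hB] at h7
      have h9 := abs_sub_le ((∑ c ∈ Cs, n c : ℕ) : ℝ) (D.av ρ (fun _ => (1 : ℝ)) u) Q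
      rw [abs_sub_comm _ (D.av ρ _ u)] at h9
      nlinarith [mul_pos hC (pow_pos hs0 3)]
    exact nat_eq_integ (by nlinarith [Real.pi_le_four, Real.pi_pos])
  refine ⟨Cs.filter fun c => 1 ≤ n c, wd, n, ⟨by linarith, ?_, fun c hc c' hc' => hgap c
    (Finset.mem_filter.1 hc).1 c' (Finset.mem_filter.1 hc').1, fun c hc => (Finset.mem_filter.1 hc).2,
    ?_, fun c hc => hn1 c (Finset.mem_filter.1 hc).1⟩, hwdΛ⟩
  · filter_upwards [h.ae_G, h.ld] with a h2 h3 h4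
    obtain ⟨c, hc, h5⟩ := hcov a h2 (cyl_mono_base2 D u (by linarith) h4) h3
    exact ⟨c, Finset.mem_filter.2 ⟨hc, hn2 c hc a h2 h4 h3 h5⟩, h5⟩
  · rw [← hQ]
    exact Finset.sum_filter_of_ne fun c _ h2 => Nat.one_le_iff_ne_zero.2 h2

end Pool.Agent.Lib.MP_8daebb_an.SV
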