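import Pool.Agent.Lib.MP_8daebb_an.SV.Trap

/-! The multiplicity is constant up to the square of the tilt. -/

open MeasureTheory Metric Filter Topology Set
open scoped RealInnerProductSpace ENNReal ContDiff

namespace Pool.Agent.Lib.MP_8daebb_an.SV

variable {α : Type*} [MeasurableSpace α] {H : Type*} [NormedAddCommGroup H]
  [InnerProductSpace ℝ H] [FiniteDimensional ℝ H] [MeasurableSpace H] [BorelSpace H]

theorem avg_integ (f : ℂ → ℝ) (x : ℂ) {r : ℝ} (hr : 0 < r) :
    Real.pi * ⨍ y in closedBall x r, f y = (∫ y in ball x r, f y) / r ^ 2 := by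
  have h1 : ball x r =ᵐ[volume] closedBall x r :=
    ae_eq_of_subset_of_measure_ge ball_subset_closedBall
      (by rw [Complex.volume_closedBall, Complex.volume_ball])
      measurableSet_ball.nullMeasurableSet measure_closedBall_lt_top.ne
  have h2 : volume.real (closedBall x r) = r ^ 2 * Real.pi := by
    rw [Measure.real, Complex.volume_closedBall]
    simp [ENNReal.toReal_ofReal hr.le]
  rw [setAverage_eq, h2, setIntegral_congr_set h1, smul_eq_mul]
  have := Real.pi_pos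
  field_simp

theorem leb_integ {f : ℂ → ℝ} (hf : Integrable f) {ρ : ℝ} (hρ : 0 < ρ) : ∀ᵐ x, ∀ b k : ℝ,
    (∀ i : ℕ, |(∫ y in ball x (ρ / 2 ^ i), f y) - b * Real.pi * (ρ / 2 ^ i) ^ 2| ≤
      k * (ρ / 2 ^ i) ^ 2) → |f x - b| * Real.pi ≤ k := by
  filter_upwards [IsUnifLocDoublingMeasure.ae_tendsto_average volume hf.locallyIntegrable 1]
    with x hx b k h
  have hp : ∀ i : ℕ, 0 < ρ / 2 ^ i := fun i => by positivity
  have h0 : Tendsto (fun i : ℕ => ρ / 2 ^ i) atTop (𝓝[>] 0) :=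
    tendsto_nhdsWithin_iff.2 ⟨tendsto_const_nhds.div_atTop
      (tendsto_pow_atTop_atTop_of_one_lt one_lt_two), Eventually.of_forall hp⟩
  have h1 := (((hx (fun _ : ℕ => x) _ h0 (Eventually.of_forall fun i =>
    mem_closedBall_self (by have := hp i; positivity))).const_mul Real.pi).sub_const
    (b * Real.pi)).abs
  have h2 := le_of_tendsto' h1 (b := k) fun i => by
    have h3 : 0 < (ρ / 2 ^ i) ^ 2 := pow_pos (hp i) 2
    rw [avg_integ f x (hp i), div_sub' h3.ne', abs_div, abs_of_pos h3, div_le_iff₀ h3,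
      mul_comm _ (b * _)]
    exact h i
  rwa [mul_comm Real.pi, ← sub_mul, abs_mul, abs_of_pos Real.pi_pos] at h2

theorem nat_eq_integ {n n' : ℕ} (h : |(n : ℝ) - n'| * Real.pi ≤ 2) : n = n' := by
  have h1 : |(n : ℝ) - n'| < 1 := by nlinarith [Real.pi_gt_three, abs_nonneg ((n : ℝ) - n')]
  have h2 : |(n : ℤ) - n'| < 1 := by exact_mod_cast h1
  rw [abs_lt] at h2
  omega

omit [FiniteDimensional ℝ H] [MeasurableSpace H] [BorelSpace H] in
theorem cyl_sub_integ (D : CD α H) {u v : ℂ} {r s : ℝ} (h : ‖v - u‖ + r ≤ s) :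
    D.cyl v r ⊆ D.cyl u s := fun a ha => by
  have h1 : ‖D.x a - v‖ < r := ha
  have h2 := norm_sub_le_norm_sub_add_norm_sub (D.x a) v u
  show ‖D.x a - u‖ < s
  linarith

theorem J_le_integ {D : CD α H} {c : ℂ} {R δ M : ℝ} (h : CV D c R δ M) (u : ℂ) (σ : ℝ) :
    D.J u σ ≤ δ ^ 2 * D.m.real (D.cyl u σ) := by
  have := h.fin
  have h1 : D.J u σ ≤ ∫ _ in D.cyl u σ, δ ^ 2 ∂D.m := by
    refine setIntegral_mono_ae h.integrable_t.2.2.1.integrableOn (integrable_const _) ?_
    filter_upwards [h.ae_G] with a ha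
    exact pow_le_pow_left₀ (norm_nonneg _) (h.pw a ha).y_le 2
  rwa [setIntegral_const, smul_eq_mul, mul_comm] at h1

theorem integ (M A : ℝ) : ∃ lam : ℝ, 0 < lam ∧ ∃ δ₀ : ℝ, 0 < δ₀ ∧ ∃ CI : ℝ, 0 < CI ∧
    ∀ (D : CD α H) (c : ℂ) (R δ : ℝ), CV D c R δ M → δ ≤ δ₀ → ∀ (N : ℂ → ℕ) (u : ℂ) (ρ : ℝ),
    IsMult D.m D.x D.j N → 0 < ρ → ‖u - c‖ + 8 * ρ ≤ R → D.T u (8 * ρ) ≤ lam * ρ ^ 2 →
    D.m.real (D.cyl u (8 * ρ)) ≤ A * ρ ^ 2 →
    ∃ n : ℕ, ∫ v in ball u ρ, |(N v : ℝ) - n| ≤ CI * ∫ a in D.cyl u (8 * ρ), D.t a ^ 2 ∂D.m := by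
  obtain ⟨lT, hlT, δT, hδT, hT⟩ := trap (α := α) (H := H) (κ := 1 / 10) (by norm_num) M
    (96 * A + 32)
  obtain ⟨l0, hl0, δB, hδB, C, hC, hB⟩ := bad_cover (α := α) (H := H) M A
  obtain ⟨lC, hlC, δC, hδC, hC'⟩ := cyl_mono (α := α) (H := H) (κ := 1 / 2) (by norm_num) le_rfl M A
  obtain ⟨l, hl, l1, l2, l3, l4⟩ : ∃ l : ℝ, 0 < l ∧ l ≤ l0 ∧ l ≤ lC ∧ l ≤ lT / 64 ∧ l ≤ 1 / 10 :=
    ⟨min (min l0 lC) (min (lT / 64) (1 / 10)), by positivity,
      (min_le_left _ _).trans (min_le_left _ _), (min_le_left _ _).trans (min_le_right _ _),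
      (min_le_right _ _).trans (min_le_left _ _), (min_le_right _ _).trans (min_le_right _ _)⟩
  refine ⟨l / 100, by positivity, min (min δT δB) (min δC (|A| + 1)⁻¹), by positivity,
    (|A| + 2) * (C / l ^ 2), by positivity, fun D c R δ h hδ N u ρ hN hρ hu h1 h2 => ?_⟩
  have := h.fin
  simp only [le_min_iff] at hδ
  obtain ⟨⟨d1, d2⟩, d3, d4⟩ := hδ
  have hρ2 : 0 < ρ ^ 2 := by positivity
  have hA : 0 ≤ A := by
    by_contra g
    have := measureReal_nonneg (μ := D.m) (s := D.cyl u (8 * ρ))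
    linarith only [this, h2, mul_neg_of_neg_of_pos (not_le.1 g) hρ2]
  rw [abs_of_nonneg hA] at d4 ⊢
  have hδ0 := h.δ_nonneg
  have d5 : δ * (A + 1) ≤ 1 := by rwa [← le_div_iff₀ (by positivity), one_div]
  have d6 : δ ≤ 1 := by linarith only [d5, mul_nonneg hδ0 hA]
  have mono : ∀ {v : ℂ} {r : ℝ}, ‖v - u‖ + r ≤ 8 * ρ → D.m.real (D.cyl v r) ≤ A * ρ ^ 2 :=
    fun g => (measureReal_mono (cyl_sub_integ D g)).trans h2
  obtain ⟨n, hn⟩ := hT D c R δ h d1 u ρ hρ hu
    (h1.trans (mul_le_mul_of_nonneg_right (by linarith only [l3, hlT]) hρ2.le))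
    (h2.trans (mul_le_mul_of_nonneg_right (by linarith only [hA]) hρ2.le))
  obtain ⟨B, hBm, b1, b2, b3⟩ := hB D c R δ h d2 N u ρ l hN hρ hl l1 hu
    (h1.trans (le_of_eq (by ring))) h2
  have hnA : n * Real.pi ≤ A + 1 / 10 := by
    have g1 := (abs_le.1 (hn u (by simpa using hρ.le) ρ (by linarith) le_rfl)).1
    have g2 := mono (v := u) (r := ρ) (by simp; linarith)
    refine le_of_mul_le_mul_right ?_ hρ2
    linarith
  have chain : ∀ v ∈ ball u ρ, v ∉ B → ∀ i : ℕ, |D.m.real (D.cyl v (ρ / 2 / 2 ^ i)) -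
      n * Real.pi * (ρ / 2 / 2 ^ i) ^ 2| ≤ 1 / 10 * (ρ / 2 / 2 ^ i) ^ 2 := by
    intro v hv hvB i
    have hvu : ‖v - u‖ < ρ := mem_ball_iff_norm.1 hv
    have hvc := norm_sub_le_norm_sub_add_norm_sub v u c
    induction i with
    | zero => simpa using hn v hvu.le (ρ / 2) le_rfl (by linarith)
    | succ i ih =>
      rw [pow_succ (2 : ℝ) i, ← div_div _ _ 2]
      have s1 : ρ / 2 / 2 ^ i ≤ ρ / 2 := div_le_self (by positivity) (one_le_pow₀ one_le_two)
      have s0 : 0 < ρ / 2 / 2 ^ i := by positivity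
      generalize ρ / 2 / 2 ^ i = s at ih s1 s0
      have s2 : 0 < s ^ 2 := by positivity
      have m1 : D.m.real (D.cyl v (8 * s)) ≤ (96 * A + 32) * s ^ 2 := by
        rcases le_total (8 * s) ρ with g | g
        · have g1 := hC' D c R δ h d3 v (8 * s) ρ (by positivity) g (by linarith)
            (fun r r1 r2 => (b1 v hv hvB r (by linarith) r2).trans
              (mul_le_mul_of_nonneg_right l2 (sq_nonneg r))) (mono (by linarith))
          have g2 : (1 + 1 / 2) * D.m.real (D.cyl v ((1 + 1 / 2) * ρ)) / ρ ^ 2 ≤ 3 / 2 * A := by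
            have := mono (v := v) (r := (1 + 1 / 2) * ρ) (by linarith)
            rw [div_le_iff₀ hρ2]
            linarith
          have g3 := (div_le_iff₀ (by positivity)).1 (g1.trans (add_le_add_left g2 _))
          linarith
        · have g1 := mono (v := v) (r := 8 * s) (by linarith)
          have g2 := mul_le_mul_of_nonneg_left (pow_le_pow_left₀ hρ.le g 2) hA
          linarith only [g1, g2, s2, mul_nonneg hA s2.le]
      obtain ⟨n', hn'⟩ := hT D c R δ h d1 v s s0 (by linarith)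
        ((b1 v hv hvB _ (by positivity) (by linarith)).trans
          (by linarith only [mul_le_mul_of_nonneg_right l3 s2.le])) m1
      have g1 := abs_le.1 (hn' v (by simpa using s0.le) s (by linarith) le_rfl)
      have g2 := abs_le.1 ih
      obtain rfl : n = n' := nat_eq_integ (by
        rw [← abs_of_pos Real.pi_pos, ← abs_mul, abs_le]
        constructor <;> refine le_of_mul_le_mul_right ?_ s2 <;>
          linarith only [g1.1, g1.2, g2.1, g2.2, s2])
      exact hn' v (by simpa using s0.le) (s / 2) le_rfl (by linarith)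
  have hNi : Integrable fun v => (N v : ℝ) := by
    simpa using (hN.integral h (f := fun _ => 1) measurable_const (B := 1) (by simp)).1
  have key : ∀ᵐ v, v ∈ ball u ρ → v ∉ B → N v = n := by
    filter_upwards [leb_integ hNi (half_pos hρ)] with v hv hvu hvB
    refine nat_eq_integ (hv n 2 fun i => ?_)
    have g1 := abs_le.1 (chain v hvu hvB i)
    have s1 : ρ / 2 / 2 ^ i ≤ ρ / 2 := div_le_self (by positivity) (one_le_pow₀ one_le_two)
    have s0 : 0 < ρ / 2 / 2 ^ i := by positivity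
    generalize ρ / 2 / 2 ^ i = s at g1 s1 s0
    have s2 : 0 < s ^ 2 := by positivity
    have g2 := abs_le.1 (hN.mass_near h v s)
    have g3 := b1 v hvu hvB s s0 (by linarith)
    have g4 : D.m.real (D.cyl v s) ≤ (A + 1) * s ^ 2 := by
      linarith only [g1.2, s2, mul_le_mul_of_nonneg_right hnA s2.le]
    have g5 : δ * D.J v s ≤ s ^ 2 := by
      have e1 : δ ^ 2 ≤ 1 := pow_le_one₀ hδ0 d6
      have e2 : D.J v s ≤ (A + 1) * s ^ 2 := (J_le_integ h v s).trans
        ((mul_le_of_le_one_left measureReal_nonneg e1).trans g4)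
      calc δ * D.J v s ≤ δ * ((A + 1) * s ^ 2) := mul_le_mul_of_nonneg_left e2 hδ0
        _ = δ * (A + 1) * s ^ 2 := by ring
        _ ≤ _ := mul_le_of_le_one_left s2.le d5
    have g6 : l * s ^ 2 ≤ 1 / 10 * s ^ 2 := mul_le_mul_of_nonneg_right l4 s2.le
    rw [abs_le]
    constructor <;> linarith only [g1.1, g1.2, g2.1, g2.2, g3, g5, g6, s2]
  have hn1 : (n : ℝ) + 1 ≤ A + 2 := by
    have : (0 : ℝ) ≤ n := Nat.cast_nonneg n
    linarith only [hnA, this, mul_le_mul_of_nonneg_left Real.pi_gt_three.le this]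
  have hi : Integrable (B.indicator fun v => (A + 2) * ((N v : ℝ) + 1)) :=
    (integrable_indicator_iff hBm).2 (b2.const_mul _)
  have hp : ∀ v, 0 ≤ B.indicator (fun v => (A + 2) * ((N v : ℝ) + 1)) v :=
    fun v => indicator_nonneg (fun _ _ => by positivity) v
  refine ⟨n, (integral_mono_of_nonneg (Eventually.of_forall fun _ => abs_nonneg _)
    hi.integrableOn ?_).trans ((setIntegral_le_integral hi (Eventually.of_forall hp)).trans ?_)⟩
  · refine (ae_restrict_iff' measurableSet_ball).2 ?_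
    filter_upwards [key] with v hv hvu
    by_cases g : v ∈ B
    · have g1 : (0 : ℝ) ≤ n := Nat.cast_nonneg n
      have g2 : (0 : ℝ) ≤ N v := Nat.cast_nonneg _
      rw [indicator_of_mem g, abs_le]
      constructor <;> linarith only [g1, g2, hA, hn1, mul_nonneg hA g2]
    · rw [hv hvu g, sub_self, abs_zero]
      exact hp v
  · rw [integral_indicator hBm, integral_const_mul, mul_assoc]
    exact mul_le_mul_of_nonneg_left b3 (by positivity)

end Pool.Agent.Lib.MP_8daebb_an.SV
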