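import Pool.Agent.Lib.MP_8daebb_an.SV.Df

/-! The mollifier. -/

open MeasureTheory Metric Filter Topology Set
open scoped RealInnerProductSpace ENNReal ContDiff

namespace Pool.Agent.Lib.MP_8daebb_an.SV

theorem phi_contDiff_ker : ContDiff ℝ ∞ (bump0.normed (volume : Measure ℂ)) :=
  bump0.contDiff_normed

theorem kr_contDiff (ρ : ℝ) : ContDiff ℝ ∞ (kr ρ) :=
  contDiff_const.mul (phi_contDiff_ker.comp (contDiff_const_smul (ρ⁻¹ : ℝ)))

theorem kr_nonneg (ρ : ℝ) (u : ℂ) : 0 ≤ kr ρ u :=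
  mul_nonneg (by positivity) (bump0.nonneg_normed _)

theorem kr_neg (ρ : ℝ) (u : ℂ) : kr ρ (-u) = kr ρ u := by
  simp only [kr, smul_neg, ContDiffBump.normed_neg]

theorem step_ker {F : Type*} [NormedAddCommGroup F] [NormedSpace ℝ F] {g : ℂ → F} {ρ : ℝ}
    (hρ : 0 < ρ) (hg : Continuous (fderiv ℝ g)) (h : ∀ u : ℂ, ρ ≤ ‖u‖ → g u = 0) (u : ℂ)
    (hu : ρ ≤ ‖u‖) : fderiv ℝ g u = 0 := by
  have h1 : (closedBall (0 : ℂ) ρ)ᶜ ⊆ {v | fderiv ℝ g v = 0} := by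
    intro v hv
    have h2 : g =ᶠ[𝓝 v] fun _ => 0 := by
      filter_upwards [isClosed_closedBall.isOpen_compl.mem_nhds hv] with w hw
      exact h w (le_of_lt (by simpa using hw))
    show fderiv ℝ g v = 0
    rw [h2.fderiv_eq]
    simp
  have h3 := closure_minimal h1 (isClosed_eq hg continuous_const)
  rw [closure_compl, interior_closedBall _ hρ.ne'] at h3
  exact h3 (by simpa using hu)

theorem zero_ker {ρ : ℝ} (hρ : 0 < ρ) (u : ℂ) (hu : ρ ≤ ‖u‖) : kr ρ u = 0 := by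
  have h1 : (ρ⁻¹ : ℝ) • u ∉ Function.support (bump0.normed (volume : Measure ℂ)) := by
    rw [bump0.support_normed_eq, mem_ball_zero_iff, norm_smul, Real.norm_of_nonneg (by positivity),
      not_lt, inv_mul_eq_div, le_div_iff₀ hρ]
    simpa [bump0] using hu
  rw [kr, Function.notMem_support.1 h1, mul_zero]

theorem fderiv_contDiff_ker {F : Type*} [NormedAddCommGroup F] [NormedSpace ℝ F] {g : ℂ → F}
    (hg : ContDiff ℝ ∞ g) : ContDiff ℝ ∞ (fderiv ℝ g) :=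
  (contDiff_infty_iff_fderiv.1 hg).2

theorem kr_zero {ρ : ℝ} (hρ : 0 < ρ) {u : ℂ} (hu : ρ ≤ ‖u‖) :
    kr ρ u = 0 ∧ fderiv ℝ (kr ρ) u = 0 ∧ fderiv ℝ (fderiv ℝ (kr ρ)) u = 0 := by
  have h1 := fderiv_contDiff_ker (kr_contDiff ρ)
  have h2 := step_ker hρ h1.continuous (zero_ker hρ)
  exact ⟨zero_ker hρ u hu, h2 u hu, step_ker hρ (fderiv_contDiff_ker h1).continuous h2 u hu⟩

theorem kr_compact {ρ : ℝ} (hρ : 0 < ρ) : HasCompactSupport (kr ρ) :=
  HasCompactSupport.intro (isCompact_closedBall 0 ρ) fun u hu =>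
    zero_ker hρ u (le_of_lt (by simpa using hu))

theorem kr_integral {ρ : ℝ} (hρ : 0 < ρ) : Integrable (kr ρ) ∧ ∫ u, kr ρ u = 1 := by
  refine ⟨(kr_contDiff ρ).continuous.integrable_of_hasCompactSupport (kr_compact hρ), ?_⟩
  simp only [kr]
  rw [integral_const_mul, Measure.integral_comp_inv_smul_of_nonneg volume
    (bump0.normed (volume : Measure ℂ)) hρ.le, bump0.integral_normed, Complex.finrank_real_complex,
    smul_eq_mul, mul_one, inv_mul_cancel₀ (by positivity)]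

theorem kr_low {ρ : ℝ} (hρ : 0 < ρ) {u : ℂ} (hu : ‖u‖ ≤ ρ / 2) : 1 / (4 * ρ ^ 2) ≤ kr ρ u := by
  have h1 : bump0 ((ρ⁻¹ : ℝ) • u) = 1 := by
    refine bump0.one_of_mem_closedBall ?_
    rw [mem_closedBall_zero_iff, norm_smul, Real.norm_of_nonneg (by positivity), inv_mul_eq_div,
      div_le_iff₀ hρ]
    simp only [bump0]
    linarith
  have h2 : ∫ x, bump0 x ≤ 4 := by
    refine (bump0.integral_le_measure_closedBall volume).trans ?_
    simp only [Measure.real, bump0, Complex.volume_closedBall]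
    simpa using Real.pi_le_four
  have h3 : 0 < ∫ x, bump0 x := bump0.integral_pos
  rw [kr, bump0.normed_def, h1, mul_comm 4, ← div_div, one_div, div_eq_mul_one_div]
  gcongr

theorem fderiv_scale_ker {F : Type*} [NormedAddCommGroup F] [NormedSpace ℝ F] (g : ℂ → F)
    (a c : ℝ) : fderiv ℝ (fun u => a • g (c • u)) = fun u => (a * c) • fderiv ℝ g (c • u) := by
  funext u
  have h1 := congrFun (fderiv_const_smul_field (𝕜 := ℝ) (f := fun u : ℂ => g (c • u)) a) u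
  rw [Pi.smul_apply, fderiv_comp_smul, smul_smul] at h1
  exact h1

theorem kr_bound : ∃ Ck : ℝ, 1 ≤ Ck ∧ ∀ ρ : ℝ, 0 < ρ → ∀ u : ℂ, kr ρ u ≤ Ck / ρ ^ 2 ∧
    ‖fderiv ℝ (kr ρ) u‖ ≤ Ck / ρ ^ 3 ∧ ‖fderiv ℝ (fderiv ℝ (kr ρ)) u‖ ≤ Ck / ρ ^ 4 := by
  have c0 := phi_contDiff_ker
  have c1 := fderiv_contDiff_ker c0
  have c2 := fderiv_contDiff_ker c1
  have s0 : HasCompactSupport (bump0.normed (volume : Measure ℂ)) := bump0.hasCompactSupport_normed
  obtain ⟨C0, h0⟩ := c0.continuous.bounded_above_of_compact_support s0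
  obtain ⟨C1, h1⟩ := c1.continuous.bounded_above_of_compact_support (s0.fderiv ℝ)
  obtain ⟨C2, h2⟩ := c2.continuous.bounded_above_of_compact_support ((s0.fderiv ℝ).fderiv ℝ)
  refine ⟨max 1 (max C0 (max C1 C2)), le_max_left _ _, fun ρ hρ u => ?_⟩
  have e0 : kr ρ = fun u => (ρ ^ 2)⁻¹ • bump0.normed volume ((ρ⁻¹ : ℝ) • u) := rfl
  have b0 : C0 ≤ max 1 (max C0 (max C1 C2)) := by simp
  have b1 : C1 ≤ max 1 (max C0 (max C1 C2)) := by simp
  have b2 : C2 ≤ max 1 (max C0 (max C1 C2)) := by simp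
  refine ⟨?_, ?_, ?_⟩
  · rw [kr, div_eq_inv_mul]
    exact mul_le_mul_of_nonneg_left ((le_abs_self _).trans ((h0 _).trans b0)) (by positivity)
  · rw [e0, fderiv_scale_ker, norm_smul, Real.norm_of_nonneg (by positivity), div_eq_inv_mul,
      pow_succ ρ 2, mul_inv]
    exact mul_le_mul_of_nonneg_left ((h1 _).trans b1) (by positivity)
  · have e1 := fderiv_scale_ker (fderiv ℝ (bump0.normed (volume : Measure ℂ)))
      ((ρ ^ 2)⁻¹ * ρ⁻¹) ρ⁻¹
    rw [e0, fderiv_scale_ker]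
    refine (congrArg norm (congrFun e1 u)).le.trans ?_
    rw [norm_smul, Real.norm_of_nonneg (by positivity),
      div_eq_inv_mul, pow_succ ρ 3, pow_succ ρ 2, mul_inv, mul_inv]
    exact mul_le_mul_of_nonneg_left ((h2 _).trans b2) (by positivity)

/-- The constant of the mollifier. -/
noncomputable def Ck : ℝ := kr_bound.choose

theorem one_le_Ck : 1 ≤ Ck := kr_bound.choose_spec.1

theorem kr_le {ρ : ℝ} (hρ : 0 < ρ) (u : ℂ) : kr ρ u ≤ Ck / ρ ^ 2 ∧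
    ‖fderiv ℝ (kr ρ) u‖ ≤ Ck / ρ ^ 3 ∧ ‖fderiv ℝ (fderiv ℝ (kr ρ)) u‖ ≤ Ck / ρ ^ 4 :=
  kr_bound.choose_spec.2 ρ hρ u

end Pool.Agent.Lib.MP_8daebb_an.SV
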