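import Pool.Agent.Lib.MP_8daebb_an.SV.Df

/-! The Legendre transform in the height variable. -/

open MeasureTheory Metric Filter Topology Set
open scoped RealInnerProductSpace ENNReal ContDiff

namespace Pool.Agent.Lib.MP_8daebb_an.SV

theorem implicit_leg {g : ℂ × ℝ → ℝ} (hg : ContDiff ℝ 1 g) (hp : ∀ w, 0 < fderiv ℝ g w (0, 1))
    (hs : ∀ u, ∃ s t, g (u, s) ≤ 0 ∧ 0 ≤ g (u, t)) :
    ∃ h : ℂ → ℝ, ContDiff ℝ 1 h ∧ ∀ u, g (u, h u) = 0 := by
  have hd := hg.differentiable one_ne_zero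
  have h1 : ∀ u, StrictMono fun t => g (u, t) := fun u => strictMono_of_deriv_pos fun t => by
    have h2 : HasDerivAt (fun t => g (u, t)) (fderiv ℝ g (u, t) (0, 1)) t :=
      (hd (u, t)).hasFDerivAt.comp_hasDerivAt t ((hasDerivAt_const t u).prodMk (hasDerivAt_id t))
    rw [h2.deriv]
    exact hp _
  have h2 : ∀ u, ∃ t, g (u, t) = 0 := fun u => by
    obtain ⟨s, t, h3, h4⟩ := hs u
    exact intermediate_value_univ s t (f := fun t => g (u, t))
      (hg.continuous.comp (by fun_prop)) ⟨h3, h4⟩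
  choose h hh using h2
  refine ⟨h, contDiff_iff_contDiffAt.2 fun u => ?_, hh⟩
  have hi : (fderiv ℝ g (u, h u) ∘L .inr ℝ ℂ ℝ).IsInvertible :=
    ⟨ContinuousLinearEquiv.unitsEquivAut ℝ (Units.mk0 _ (hp (u, h u)).ne'), by ext; simp⟩
  refine (hg.contDiffAt.contDiffAt_implicitFunction one_ne_zero hi).congr_of_eventuallyEq ?_
  filter_upwards [hg.contDiffAt.eventually_apply_implicitFunction one_ne_zero hi] with x hx
  exact (h1 x).injective ((hh x).trans (hx.trans (hh u)).symm)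

theorem legendre {Φ : ℂ × ℝ → ℝ} (hΦ : ContDiff ℝ 2 Φ) {B : ℝ}
    (hB : ∀ w, |fderiv ℝ Φ w (0, 1)| ≤ B)
    (hc : ∀ w, 0 ≤ fderiv ℝ (fderiv ℝ Φ) w (0, 1) (0, 1)) (j : ℝ) :
    ∃ h U : ℂ → ℝ, (∀ u, fderiv ℝ Φ (u, h u) (0, 1) + j + h u = 0) ∧
      (∀ u, U u = Φ (u, h u) + j * h u + h u ^ 2 / 2) ∧ ContDiff ℝ 2 U ∧
      (∀ u v, fderiv ℝ U u v = fderiv ℝ Φ (u, h u) (v, 0)) ∧
      ∀ u, lap U u = fderiv ℝ (fderiv ℝ Φ) (u, h u) (1, 0) (1, 0) +
        fderiv ℝ (fderiv ℝ Φ) (u, h u) (Complex.I, 0) (Complex.I, 0) -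
        (fderiv ℝ (fderiv ℝ Φ) (u, h u) (1, 0) (0, 1) ^ 2 +
          fderiv ℝ (fderiv ℝ Φ) (u, h u) (Complex.I, 0) (0, 1) ^ 2) /
          (fderiv ℝ (fderiv ℝ Φ) (u, h u) (0, 1) (0, 1) + 1) := by
  have hD : ContDiff ℝ 1 (fderiv ℝ Φ) := hΦ.fderiv_right (by norm_num)
  have hDd := hD.differentiable one_ne_zero
  have hΦd := hΦ.differentiable (by norm_num)
  let g : ℂ × ℝ → ℝ := fun w => fderiv ℝ Φ w (0, 1) + j + w.2
  have hg : ContDiff ℝ 1 g := ((hD.clm_apply contDiff_const).add contDiff_const).add contDiff_snd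
  have hg' : ∀ w ξ, fderiv ℝ g w ξ = fderiv ℝ (fderiv ℝ Φ) w ξ (0, 1) + ξ.2 := fun w ξ => by
    have h2 : HasFDerivAt g _ w := (((hDd w).hasFDerivAt.clm_apply
      (hasFDerivAt_const ((0, 1) : ℂ × ℝ) w)).add_const j).add hasFDerivAt_snd
    rw [h2.fderiv]
    simp
  obtain ⟨h, hh, h0⟩ := implicit_leg hg (fun w => by rw [hg']; linarith [hc w]) fun u =>
    ⟨-(B + j), B - j, by simp only [g]; linarith [(abs_le.1 (hB (u, -(B + j)))).2],
      by simp only [g]; linarith [(abs_le.1 (hB (u, B - j))).1]⟩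
  have hd := hh.differentiable one_ne_zero
  have hp : ∀ u, HasFDerivAt (fun x => (x, h x))
      ((ContinuousLinearMap.id ℝ ℂ).prod (fderiv ℝ h u)) u := fun u =>
    (hasFDerivAt_id u).prodMk (hd u).hasFDerivAt
  have sp : ∀ (v : ℂ) (t : ℝ), ((v, t) : ℂ × ℝ) = (v, 0) + t • (0, 1) := fun v t => by simp
  have h1 : ∀ u v, fderiv ℝ (fderiv ℝ Φ) (u, h u) (v, 0) (0, 1) +
      fderiv ℝ h u v * (fderiv ℝ (fderiv ℝ Φ) (u, h u) (0, 1) (0, 1) + 1) = 0 := fun u v => by
    have h2 := (hg.differentiable one_ne_zero (u, h u)).hasFDerivAt.comp u (hp u)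
    rw [show (g ∘ fun x => (x, h x)) = fun _ => 0 from funext h0] at h2
    have h3 := DFunLike.congr_fun (h2.unique (hasFDerivAt_const 0 u)) v
    rw [ContinuousLinearMap.comp_apply, hg', ContinuousLinearMap.prod_apply,
      ContinuousLinearMap.id_apply, sp v, map_add, map_smul] at h3
    simp only [add_apply, smul_apply, smul_eq_mul,
      zero_apply, Prod.snd_add, Prod.smul_snd] at h3
    linarith
  have hU : ∀ u, HasFDerivAt (fun u => Φ (u, h u) + j * h u + h u ^ 2 / 2)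
      ((fderiv ℝ Φ (u, h u)).comp (.inl ℝ ℂ ℝ)) u := fun u => by
    have h2 := ((((hΦd (u, h u)).hasFDerivAt.comp u (hp u)).add
      ((hd u).hasFDerivAt.const_mul j)).add (((hd u).hasFDerivAt.pow 2).mul_const (2⁻¹ : ℝ)))
    refine (h2.congr_fderiv (ContinuousLinearMap.ext fun v => ?_)).congr_of_eventuallyEq
      (.of_forall fun x => by simp [div_eq_mul_inv])
    have h3 : fderiv ℝ Φ (u, h u) (0, 1) + j + h u = 0 := h0 u
    simp only [ContinuousLinearMap.comp_apply, ContinuousLinearMap.inl_apply,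
      add_apply, ContinuousLinearMap.prod_apply, ContinuousLinearMap.id_apply,
      smul_apply, smul_eq_mul, nsmul_eq_mul]
    rw [sp v (fderiv ℝ h u v), map_add, map_smul, smul_eq_mul]
    push_cast
    linear_combination (fderiv ℝ h u v) * h3
  have hU' : fderiv ℝ (fun u => Φ (u, h u) + j * h u + h u ^ 2 / 2) =
      fun u => (fderiv ℝ Φ (u, h u)).comp (.inl ℝ ℂ ℝ) := funext fun u => (hU u).fderiv
  refine ⟨h, fun u => Φ (u, h u) + j * h u + h u ^ 2 / 2, h0, fun _ => rfl, ?_,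
    fun u v => by rw [hU']; simp, fun u => ?_⟩
  · rw [show (2 : ℕ∞ω) = 1 + 1 by norm_num, contDiff_succ_iff_fderiv, hU']
    exact ⟨fun u => (hU u).differentiableAt, by simp,
      (hD.comp (contDiff_id.prodMk hh)).clm_comp contDiff_const⟩
  · have h2 : ∀ v, fderiv ℝ (fun u => (fderiv ℝ Φ (u, h u)).comp (.inl ℝ ℂ ℝ)) u v v =
        fderiv ℝ (fderiv ℝ Φ) (u, h u) (v, 0) (v, 0) -
          fderiv ℝ (fderiv ℝ Φ) (u, h u) (v, 0) (0, 1) ^ 2 /
            (fderiv ℝ (fderiv ℝ Φ) (u, h u) (0, 1) (0, 1) + 1) := fun v => by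
      have h3 := (((hDd (u, h u)).hasFDerivAt.comp u (hp u)).clm_comp
        (hasFDerivAt_const (ContinuousLinearMap.inl ℝ ℂ ℝ) u)).fderiv
      have h4 := (hΦ.contDiffAt (x := (u, h u))).isSymmSndFDerivAt (by simp) (0, 1) (v, 0)
      have h5 := h1 u v
      have h6 := hc (u, h u)
      simp only [Function.comp_def] at h3
      rw [h3]
      simp only [add_apply, ContinuousLinearMap.comp_apply,
        zero_apply, map_zero, ContinuousLinearMap.flip_apply,
        ContinuousLinearMap.compL_apply, ContinuousLinearMap.prod_apply,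
        ContinuousLinearMap.id_apply, ContinuousLinearMap.inl_apply, zero_add]
      rw [sp v (fderiv ℝ h u v), map_add, map_smul, add_apply,
        smul_apply, h4, smul_eq_mul]
      field_simp
      linear_combination (fderiv ℝ (fderiv ℝ Φ) (u, h u) (v, 0) (0, 1)) * h5
    rw [lap, hU', h2, h2]
    ring

end Pool.Agent.Lib.MP_8daebb_an.SV
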