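import Pool.Agent.Lib.MP_8daebb_an.SV.Seq
import Pool.Agent.Lib.MP_8daebb_an.SV.Df

/-! The kernel estimate along a tower. -/

open MeasureTheory Metric Filter Topology Set
open scoped RealInnerProductSpace ENNReal ContDiff

namespace Pool.Agent.Lib.MP_8daebb_an.SV

/-- Pairs of points in one disc of level `b`; everything beyond the last level. -/
def setA (B : ℕ → Finset (ℂ × ℝ)) (n b : ℕ) : Set (ℂ × ℂ) :=
  {z | n < b ∨ ∃ d ∈ B b, z.1 ∈ ball d.1 d.2 ∧ z.2 ∈ ball d.1 d.2}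

/-- The quadratic form of level `b`. -/
noncomputable def quadA (B : ℕ → Finset (ℂ × ℝ)) (n b : ℕ) (f : ℂ → ℝ) : ℝ :=
  ∫ z in setA B n b, f z.1 * f z.2 ∂(volume.prod volume)

/-- The kernel of a vector field. -/
noncomputable def kerA (Z : ℂ → ℂ) (z : ℂ × ℂ) : ℝ := ⟪z.1 - z.2, Z z.1 - Z z.2⟫ / ‖z.1 - z.2‖ ^ 2

variable {B : ℕ → Finset (ℂ × ℝ)} {Y : ℕ → ℂ → ℂ} {ρ ϑ : ℝ} {n : ℕ}

theorem setA_low {b : ℕ} (hb : b ≤ n) :
    setA B n b = ⋃ d ∈ B b, ball d.1 d.2 ×ˢ ball d.1 d.2 := by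
  ext z
  simp only [setA, mem_ofPred_eq, not_lt.2 hb, false_or, mem_iUnion, mem_prod, exists_prop]

theorem setA_top {b : ℕ} (hb : n < b) : setA B n b = univ :=
  eq_univ_of_forall fun _ => Or.inl hb

theorem setA_meas (b : ℕ) : MeasurableSet (setA B n b) := by
  rcases le_or_gt b n with hb | hb
  · rw [setA_low hb]
    exact Finset.measurableSet_biUnion _ fun d _ => measurableSet_ball.prod measurableSet_ball
  · rw [setA_top hb]
    exact MeasurableSet.univ

theorem setA_succ (h : Tower B Y ρ ϑ n) (hρ : 0 ≤ ρ) (b : ℕ) : setA B n b ⊆ setA B n (b + 1) := by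
  rintro z (hz | ⟨d, hd, h1, h2⟩)
  · exact Or.inl (by omega)
  · obtain ⟨d', hd', h3⟩ := h.nest b d hd
    have : ball d.1 d.2 ⊆ ball d'.1 d'.2 := ball_subset_ball' (by rw [dist_eq_norm]; linarith)
    exact Or.inr ⟨d', hd', this h1, this h2⟩

theorem setA_mono (h : Tower B Y ρ ϑ n) (hρ : 0 ≤ ρ) : Monotone (setA B n) :=
  monotone_nat_of_le_succ (setA_succ h hρ)

theorem kerA_le {Z : ℂ → ℂ} {z : ℂ × ℂ} {L : ℝ} (hL : 0 ≤ L)
    (h : ‖Z z.1 - Z z.2‖ ≤ L * ‖z.1 - z.2‖) : |kerA Z z| ≤ L := by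
  rw [kerA, abs_div, abs_pow, abs_norm]
  refine div_le_of_le_mul₀ (by positivity) hL ((abs_real_inner_le_norm _ _).trans ?_)
  nlinarith [norm_nonneg (z.1 - z.2)]

theorem kerA_three (h : Tower B Y ρ ϑ n) (a : ℕ) (z : ℂ × ℂ) : |kerA (Y a) z| ≤ 3 :=
  kerA_le (by norm_num) (convex_univ.norm_image_sub_le_of_norm_fderiv_le
    (fun x _ => ((h.smooth a).differentiable one_ne_zero) x) (fun x _ => h.lip a x)
    (mem_univ z.2) (mem_univ z.1))

theorem kerA_one (h : Tower B Y ρ ϑ n) {a : ℕ} (ha : a ≤ n) {z : ℂ × ℂ} (hz : z ∈ setA B n a)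
    (hne : z.1 ≠ z.2) : kerA (Y a) z = 1 := by
  obtain hz | ⟨d, hd, h1, h2⟩ := hz
  · omega
  have h3 := (convex_ball d.1 d.2).norm_image_sub_le_of_norm_fderiv_le' (C := 0)
    (φ := ContinuousLinearMap.id ℝ ℂ) (fun x _ => ((h.smooth a).differentiable one_ne_zero) x)
    (fun x hx => by rw [h.ident a d hd x hx, sub_self, norm_zero]) h2 h1
  rw [zero_mul, norm_le_zero_iff, sub_eq_zero, ContinuousLinearMap.id_apply] at h3
  rw [kerA, h3, real_inner_self_eq_norm_sq, div_self (pow_ne_zero 2 (norm_ne_zero_iff.2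
    (sub_ne_zero.2 hne)))]

theorem kerA_meas (h : Tower B Y ρ ϑ n) (a : ℕ) : Measurable (kerA (Y a)) := by
  have hc := (h.smooth a).continuous
  refine Measurable.div (Continuous.measurable ?_) (Continuous.measurable ?_)
  · fun_prop
  · fun_prop

theorem point_lemA (h : Tower B Y ρ ϑ n) (hρ : 0 ≤ ρ) {a : ℕ} (ha : a ≤ n) {z : ℂ × ℂ}
    (hne : z.1 ≠ z.2) {F G : ℂ × ℂ → ℝ} (hFG : |F z| ≤ G z) :
    (setA B n a).indicator F z - 16 * ∑ b ∈ Finset.Ico a (n + 1), (1 / 2) ^ (b - a) *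
      ((setA B n (b + 1)).indicator G z - (setA B n b).indicator G z) ≤ F z * kerA (Y a) z := by
  classical
  have hG : 0 ≤ G z := (abs_nonneg _).trans hFG
  have hm := setA_mono h hρ
  by_cases hz : z ∈ setA B n a
  · rw [indicator_of_mem hz, kerA_one h ha hz hne, mul_one, Finset.sum_eq_zero, mul_zero, sub_zero]
    intro b hb
    have hb' := (Finset.mem_Ico.1 hb).1
    rw [indicator_of_mem (hm hb' hz), indicator_of_mem (hm (hb'.trans b.le_succ) hz), sub_self,
      mul_zero]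
  · have hex : ∃ b, z ∈ setA B n (b + 1) := ⟨n, Or.inl n.lt_succ_self⟩
    have h1 := Nat.find_spec hex
    have h2 : Nat.find hex ≤ n := Nat.find_min' hex (Or.inl n.lt_succ_self)
    have h3 : a ≤ Nat.find hex := by
      by_contra hc
      exact hz (hm (by omega) h1)
    have h4 : z ∉ setA B n (Nat.find hex) := by
      rcases h3.eq_or_lt with e | e
      · rwa [← e]
      · have := Nat.find_min hex (m := Nat.find hex - 1) (by omega)
        rwa [show Nat.find hex - 1 + 1 = Nat.find hex by omega] at this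
    generalize Nat.find hex = b₀ at h1 h2 h3 h4
    have h5 : |kerA (Y a) z| ≤ 16 * (1 / 2) ^ (b₀ - a) := by
      rcases h3.eq_or_lt with e | e
      · rw [e, Nat.sub_self, pow_zero, ← e]
        linarith [kerA_three h a z]
      · exact kerA_le (by positivity) (h.ker a b₀ e _ _ fun hc => h4 (Or.inr hc))
    have h6 : (1 / 2) ^ (b₀ - a) * G z ≤ ∑ b ∈ Finset.Ico a (n + 1), (1 / 2) ^ (b - a) *
        ((setA B n (b + 1)).indicator G z - (setA B n b).indicator G z) := by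
      refine le_of_eq_of_le ?_ (Finset.single_le_sum (f := fun b => (1 / 2 : ℝ) ^ (b - a) *
        ((setA B n (b + 1)).indicator G z - (setA B n b).indicator G z)) (fun b _ => ?_)
        (Finset.mem_Ico.2 ⟨h3, by omega⟩))
      · rw [indicator_of_mem h1, indicator_of_notMem h4, sub_zero]
      · refine mul_nonneg (by positivity) (sub_nonneg.2 ?_)
        by_cases hb : z ∈ setA B n b
        · rw [indicator_of_mem hb, indicator_of_mem (hm b.le_succ hb)]
        · rw [indicator_of_notMem hb]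
          exact indicator_apply_nonneg fun _ => hG
    have h7 : |F z * kerA (Y a) z| ≤ G z * (16 * (1 / 2) ^ (b₀ - a)) := by
      rw [abs_mul]
      exact mul_le_mul hFG h5 (abs_nonneg _) hG
    rw [indicator_of_notMem hz]
    linarith [(abs_le.1 h7).1]

theorem int_lemA (h : Tower B Y ρ ϑ n) (hρ : 0 ≤ ρ) {a : ℕ} (ha : a ≤ n) {f g : ℂ → ℝ}
    (hf : Integrable f) (hg : Integrable g) (hfg : ∀ u, |f u| ≤ g u) :
    quadA B n a f - 16 * ∑ b ∈ Finset.Ico a (n + 1), (1 / 2) ^ (b - a) *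
      (quadA B n (b + 1) g - quadA B n b g) ≤
      ∫ u, ∫ w, f u * f w * (⟪u - w, Y a u - Y a w⟫ / ‖u - w‖ ^ 2) := by
  have iF := hf.mul_prod hf
  have iG := hg.mul_prod hg
  have iK : Integrable (fun z : ℂ × ℂ => f z.1 * f z.2 * kerA (Y a) z) (volume.prod volume) :=
    iF.mul_bdd (kerA_meas h a).aestronglyMeasurable (ae_of_all _ fun z => kerA_three h a z)
  have i1 : ∀ b, Integrable (fun z => (1 / 2 : ℝ) ^ (b - a) *
      ((setA B n (b + 1)).indicator (fun z : ℂ × ℂ => g z.1 * g z.2) z -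
        (setA B n b).indicator (fun z : ℂ × ℂ => g z.1 * g z.2) z)) (volume.prod volume) :=
    fun b => ((iG.indicator (setA_meas _)).sub (iG.indicator (setA_meas _))).const_mul _
  have i2 := (integrable_finsetSum (Finset.Ico a (n + 1)) fun b _ => i1 b).const_mul 16
  have hae : ∀ᵐ z : ℂ × ℂ ∂(volume.prod volume), z.1 ≠ z.2 :=
    (Measure.ae_prod_iff_ae_ae (measurableSet_eq_fun measurable_fst measurable_snd).compl).2
      (ae_of_all _ fun u => (Measure.ae_ne volume u).mono fun w hw => hw.symm)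
  have key := integral_mono_ae ((iF.indicator (setA_meas (B := B) (n := n) a)).sub i2) iK
    (hae.mono fun z hz => point_lemA h hρ ha hz (F := fun z => f z.1 * f z.2)
      (G := fun z => g z.1 * g z.2) (by
        rw [abs_mul]
        exact mul_le_mul (hfg _) (hfg _) (abs_nonneg _) ((abs_nonneg _).trans (hfg _))))
  rw [integral_prod _ iK] at key
  refine le_of_eq_of_le ?_ key
  simp only [Pi.sub_apply]
  rw [integral_sub (iF.indicator (setA_meas a)) i2, integral_const_mul,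
    integral_finsetSum _ fun b _ => i1 b, integral_indicator (setA_meas a)]
  congr 2
  refine Finset.sum_congr rfl fun b _ => ?_
  rw [integral_const_mul, integral_sub (iG.indicator (setA_meas _)) (iG.indicator (setA_meas _)),
    integral_indicator (setA_meas _), integral_indicator (setA_meas _)]
  rfl

theorem quadA_low (h : Tower B Y ρ ϑ n) {b : ℕ} (hb : b ≤ n) {f : ℂ → ℝ} (hf : Integrable f) :
    quadA B n b f = ∑ d ∈ B b, (∫ u in ball d.1 d.2, f u) ^ 2 := by
  rw [quadA, setA_low hb, integral_biUnion_finset _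
    (fun d _ => measurableSet_ball.prod measurableSet_ball)
    (fun d hd d' hd' hne => Set.disjoint_prod.2 (Or.inl (h.disj b d hd d' hd' hne)))
    fun d _ => (hf.mul_prod hf).integrableOn]
  exact Finset.sum_congr rfl fun d _ => by rw [setIntegral_prod_mul, sq]

theorem quadA_top (f : ℂ → ℝ) : quadA B n (n + 1) f = (∫ u, f u) ^ 2 := by
  rw [quadA, setA_top n.lt_succ_self, Measure.restrict_univ, integral_prod_mul, sq]

theorem quadA_mono (h : Tower B Y ρ ϑ n) (hρ : 0 ≤ ρ) (b : ℕ) {f : ℂ → ℝ} (hf : Integrable f)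
    (h0 : ∀ u, 0 ≤ f u) : quadA B n b f ≤ quadA B n (b + 1) f :=
  setIntegral_mono_set (hf.mul_prod hf).integrableOn
    (ae_of_all _ fun _ => mul_nonneg (h0 _) (h0 _)) (setA_succ h hρ b).eventuallyLE

theorem cs_lemA {f : ℂ → ℝ} (hf : Integrable f) (hf2 : Integrable fun u => f u ^ 2) (c : ℂ)
    {r : ℝ} (hr : 0 < r) : (∫ u in ball c r, f u) ^ 2 ≤ Real.pi * r ^ 2 * ∫ u, f u ^ 2 := by
  have hV : (volume : Measure ℂ).real (ball c r) = Real.pi * r ^ 2 := by
    rw [measureReal_def, Complex.volume_ball]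
    simp [hr.le, mul_comm]
  have hp : 0 < Real.pi * r ^ 2 := by have := Real.pi_pos; positivity
  have : IsFiniteMeasure ((volume : Measure ℂ).restrict (ball c r)) :=
    isFiniteMeasure_restrict.2 measure_ball_lt_top.ne
  have h1 : ∫ u in ball c r, f u ^ 2 ≤ ∫ u, f u ^ 2 :=
    setIntegral_le_integral hf2 (ae_of_all _ fun u => sq_nonneg _)
  set m := (∫ u in ball c r, f u) / (Real.pi * r ^ 2) with hm
  have h2 : 0 ≤ ∫ u in ball c r, (f u ^ 2 - 2 * m * f u + m ^ 2) :=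
    integral_nonneg fun u => by
      simp only [Pi.zero_apply]
      nlinarith [sq_nonneg (f u - m)]
  have i1 : Integrable (fun u => 2 * m * f u) (volume.restrict (ball c r)) :=
    hf.integrableOn.const_mul _
  have i2 : Integrable (fun u => f u ^ 2 - 2 * m * f u) (volume.restrict (ball c r)) :=
    hf2.integrableOn.sub i1
  rw [integral_add i2 (integrable_const _),
    integral_sub hf2.integrableOn i1, integral_const_mul, setIntegral_const, hV, smul_eq_mul] at h2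
  have h3 : ∫ u in ball c r, f u = m * (Real.pi * r ^ 2) := by rw [hm]; field_simp
  rw [h3] at h2 ⊢
  nlinarith

theorem lem_kernel (ι : Type*) [Fintype ι] (Q : ℕ) : ∃ C : ℝ, 0 < C ∧ ∃ c : ℝ, 0 < c ∧ c < 1 ∧
    ∀ (B : ℕ → Finset (ℂ × ℝ)) (Y : ℕ → ℂ → ℂ) (ρ ϑ : ℝ) (n : ℕ) (ν : ι → ℕ → ℂ → ℝ) (W A : ℝ),
    Tower B Y ρ ϑ n → 0 ≤ ρ → 1 ≤ n →
    (∀ i j, Continuous (ν i j) ∧ HasCompactSupport (ν i j)) →
    (∀ i, ∀ j ≤ Q, (∀ u, 0 ≤ ν i j u) ∧ ∫ u, ν i j u ≤ W) → (∀ i, ∫ u, ν i 0 u ^ 2 ≤ A ^ 2) →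
    ∃ a < n, -(C * (W ^ 2 * (1 - c) ^ n + ϑ ^ 2 * A ^ 2)) ≤
      ∑ i, ∑ j ∈ Finset.range Q, ∫ u, ∫ w, (ν i (j + 1) u - ν i j u) * (ν i (j + 1) w - ν i j w) *
        (⟪u - w, Y a u - Y a w⟫ / ‖u - w‖ ^ 2) := by
  obtain ⟨c₁, hc₁, C₁, hC₁, hch⟩ := chain_pos Q
  obtain ⟨c, hc0, hc1, hsq⟩ := seq_growth hc₁
  have hpi := Real.pi_pos
  obtain ⟨N, hN⟩ : ∃ N : ℝ, N = (Fintype.card ι : ℝ) := ⟨_, rfl⟩
  have hN0 : 0 ≤ N := hN ▸ Nat.cast_nonneg _
  refine ⟨48 * (N * (Q * 4)) + N * (C₁ * Real.pi) + 1, by positivity, c, hc0, hc1, ?_⟩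
  intro B Y ρ ϑ n ν W A h hρ hn hν hW hA
  have iν : ∀ i j, Integrable (ν i j) := fun i j =>
    (hν i j).1.integrable_of_hasCompactSupport (hν i j).2
  have iτ : ∀ i j, Integrable fun u => ν i (j + 1) u + ν i j u := fun i j => (iν _ _).add (iν _ _)
  have iσ : ∀ i j, Integrable fun u => ν i (j + 1) u - ν i j u := fun i j => (iν _ _).sub (iν _ _)
  have iν2 : ∀ i, Integrable fun u => ν i 0 u ^ 2 := fun i => by
    simp only [sq]
    exact ((hν i 0).1.mul (hν i 0).1).integrable_of_hasCompactSupport (hν i 0).2.mul_left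
  have p0 : ∀ i, ∀ j ∈ Finset.range Q, ∀ u, 0 ≤ ν i j u ∧ 0 ≤ ν i (j + 1) u := fun i j hj u =>
    ⟨(hW i j (Finset.mem_range.1 hj).le).1 u, (hW i (j + 1) (Finset.mem_range.1 hj)).1 u⟩
  obtain ⟨a, ha, hJ⟩ := hsq
    (fun b => ∑ i, ∑ j ∈ Finset.range Q, quadA B n b fun u => ν i (j + 1) u + ν i j u) n
    (N * (Q * 4) * W ^ 2) hn
    (fun b _ => Finset.sum_le_sum fun i _ => Finset.sum_le_sum fun j hj =>
      quadA_mono h hρ b ((iν _ _).add (iν _ _)) fun u => add_nonneg (p0 i j hj u).2 (p0 i j hj u).1)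
    (Finset.sum_nonneg fun i _ => Finset.sum_nonneg fun j _ => by
      rw [quadA_low h n.zero_le (iτ i j)]
      positivity)
    (by
      have : ∀ i, ∑ j ∈ Finset.range Q, (quadA B n (n + 1) fun u => ν i (j + 1) u + ν i j u)
          ≤ Q * 4 * W ^ 2 := fun i => by
        refine (Finset.sum_le_card_nsmul _ _ (4 * W ^ 2) fun j hj => ?_).trans
          (by rw [Finset.card_range, nsmul_eq_mul, mul_assoc])
        rw [quadA_top, integral_add (iν _ _) (iν _ _)]
        have q1 := (hW i j (Finset.mem_range.1 hj).le).2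
        have q2 := (hW i (j + 1) (Finset.mem_range.1 hj)).2
        have q3 : 0 ≤ ∫ u, ν i j u := integral_nonneg fun u => (p0 i j hj u).1
        have q4 : 0 ≤ ∫ u, ν i (j + 1) u := integral_nonneg fun u => (p0 i j hj u).2
        nlinarith
      refine (Finset.sum_le_card_nsmul _ _ _ fun i _ => this i).trans ?_
      rw [Finset.card_univ, nsmul_eq_mul, hN, ← mul_assoc])
  refine ⟨a, ha, ?_⟩
  have k1 := Finset.sum_le_sum fun i (_ : i ∈ Finset.univ) =>
    Finset.sum_le_sum fun j (hj : j ∈ Finset.range Q) =>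
      int_lemA h hρ ha.le (f := fun u => ν i (j + 1) u - ν i j u)
        (g := fun u => ν i (j + 1) u + ν i j u) ((iν _ _).sub (iν _ _)) ((iν _ _).add (iν _ _))
        fun u => abs_le.2 ⟨by linarith [(p0 i j hj u).2], by linarith [(p0 i j hj u).1]⟩
  refine le_trans ?_ k1
  have hϑ : ∑ d ∈ B a, d.2 ^ 2 ≤ ϑ ^ 2 :=
    (Finset.sum_sq_le_sq_sum_of_nonneg fun d hd => (h.pos a d hd).le).trans
      (pow_le_pow_left₀ (Finset.sum_nonneg fun d hd => (h.pos a d hd).le) (h.rad a (by omega)) 2)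
  have k2 : ∀ i, c₁ * (∑ j ∈ Finset.range Q, quadA B n a fun u => ν i (j + 1) u + ν i j u)
      - C₁ * Real.pi * (ϑ ^ 2 * A ^ 2) ≤
      ∑ j ∈ Finset.range Q, quadA B n a fun u => ν i (j + 1) u - ν i j u := fun i => by
    have e1 : ∀ j, (quadA B n a fun u => ν i (j + 1) u + ν i j u) = ∑ d ∈ B a,
        ((∫ u in ball d.1 d.2, ν i (j + 1) u) + ∫ u in ball d.1 d.2, ν i j u) ^ 2 := fun j => by
      rw [quadA_low h ha.le (iτ i j)]
      exact Finset.sum_congr rfl fun d _ => by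
        rw [integral_add (iν _ _).integrableOn (iν _ _).integrableOn]
    have e2 : ∀ j, (quadA B n a fun u => ν i (j + 1) u - ν i j u) = ∑ d ∈ B a,
        ((∫ u in ball d.1 d.2, ν i (j + 1) u) - ∫ u in ball d.1 d.2, ν i j u) ^ 2 := fun j => by
      rw [quadA_low h ha.le (iσ i j)]
      exact Finset.sum_congr rfl fun d _ => by
        rw [integral_sub (iν _ _).integrableOn (iν _ _).integrableOn]
    have e3 := Finset.sum_le_sum fun d (_ : d ∈ B a) => hch fun j => ∫ u in ball d.1 d.2, ν i j u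
    have e4 : ∑ d ∈ B a, (∫ u in ball d.1 d.2, ν i 0 u) ^ 2 ≤ Real.pi * (ϑ ^ 2 * A ^ 2) := by
      refine (Finset.sum_le_sum fun d hd => (cs_lemA (iν i 0) (iν2 i) d.1 (h.pos a d hd)).trans
        (mul_le_mul_of_nonneg_left (hA i) (by positivity))).trans ?_
      rw [← Finset.sum_mul, ← Finset.mul_sum, mul_assoc]
      gcongr
    simp only [e1, e2]
    rw [Finset.sum_comm, Finset.sum_comm (s := Finset.range Q)]
    rw [Finset.sum_sub_distrib, ← Finset.mul_sum, ← Finset.mul_sum] at e3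
    nlinarith
  have k3 := Finset.sum_le_sum fun i (_ : i ∈ Finset.univ) => k2 i
  rw [Finset.sum_sub_distrib, ← Finset.mul_sum, Finset.sum_const, Finset.card_univ, nsmul_eq_mul,
    ← hN] at k3
  have k4 : ∑ i, ∑ j ∈ Finset.range Q, ∑ b ∈ Finset.Ico a (n + 1), (1 / 2 : ℝ) ^ (b - a) *
      ((quadA B n (b + 1) fun u => ν i (j + 1) u + ν i j u) -
        quadA B n b fun u => ν i (j + 1) u + ν i j u) =
      ∑ b ∈ Finset.Ico a (n + 1), (1 / 2 : ℝ) ^ (b - a) *
      ((∑ i, ∑ j ∈ Finset.range Q, quadA B n (b + 1) fun u => ν i (j + 1) u + ν i j u) -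
        ∑ i, ∑ j ∈ Finset.range Q, quadA B n b fun u => ν i (j + 1) u + ν i j u) := by
    simp only [← Finset.sum_sub_distrib, Finset.mul_sum]
    rw [Finset.sum_comm (s := Finset.Ico a (n + 1))]
    exact Finset.sum_congr rfl fun i _ => Finset.sum_comm
  simp only [Finset.sum_sub_distrib, ← Finset.mul_sum]
  rw [k4]
  have t1 : 0 ≤ W ^ 2 * (1 - c) ^ n := mul_nonneg (sq_nonneg _) (pow_nonneg (by linarith) _)
  have t2 : 0 ≤ ϑ ^ 2 * A ^ 2 := by positivity
  have t3 : 0 ≤ N * (Q * 4) := by positivity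
  have t4 : 0 ≤ N * (C₁ * Real.pi) := by positivity
  nlinarith [mul_nonneg t3 t2, mul_nonneg t4 t1]

end Pool.Agent.Lib.MP_8daebb_an.SV
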