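import Pool.Agent.Lib.MP_8daebb_an.SV.Pomp

/-! The pair formula. -/

open MeasureTheory Metric Filter Topology Set
open scoped RealInnerProductSpace ENNReal ContDiff

namespace Pool.Agent.Lib.MP_8daebb_an.SV

theorem cpt_pair {F : Type*} [Zero F] {f : ℂ → F} {R : ℝ} (h : ∀ u : ℂ, R ≤ ‖u‖ → f u = 0) :
    HasCompactSupport f :=
  HasCompactSupport.intro (isCompact_closedBall 0 R) fun x hx =>
    h x (by rw [mem_closedBall_zero_iff, not_le] at hx; exact hx.le)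

theorem int_pair {σ : ℂ → ℝ} {Z : ℂ → ℂ} {R S : ℝ} (hσ : Continuous σ)
    (h0 : ∀ u : ℂ, R ≤ ‖u‖ → σ u = 0) (hZ : Continuous Z) (hS : ∀ u, ‖Z u‖ ≤ S) :
    Integrable (fun p : ℂ × ℂ => σ p.1 * σ p.2 * (⟪p.1 - p.2, Z p.1⟫ / ‖p.1 - p.2‖ ^ 2))
      (volume.prod volume) := by
  obtain ⟨M, hM⟩ := hσ.bounded_above_of_compact_support (cpt_pair h0)
  have i1 : Integrable fun u => ‖σ u‖ := (hσ.integrable_of_hasCompactSupport (cpt_pair h0)).norm
  have i2 : Integrable ((closedBall (0 : ℂ) (2 * R)).indicator fun ξ : ℂ => ‖ξ⁻¹‖) :=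
    (integrable_indicator_iff measurableSet_closedBall).2
      (CTAux.locInt.integrableOn_isCompact (isCompact_closedBall _ _)).norm
  have i3 := (i1.convolution_integrand (ContinuousLinearMap.mul ℝ ℝ) i2).const_mul (M * S)
  have hS0 : 0 ≤ S := (norm_nonneg _).trans (hS 0)
  have hM0 : 0 ≤ M := (norm_nonneg _).trans (hM 0)
  refine i3.mono' (Measurable.aestronglyMeasurable ?_) (Eventually.of_forall fun p => ?_)
  · exact (Continuous.measurable (by fun_prop)).mul ((Continuous.measurable (by fun_prop)).div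
      (Continuous.measurable (by fun_prop)))
  have n0 : 0 ≤ (closedBall (0 : ℂ) (2 * R)).indicator (fun ξ : ℂ => ‖ξ⁻¹‖) (p.1 - p.2) :=
    indicator_nonneg (fun _ _ => norm_nonneg _) _
  rw [ContinuousLinearMap.mul_apply']
  rcases le_or_gt R ‖p.1‖ with a | a
  · rw [h0 _ a, zero_mul, zero_mul, norm_zero]
    positivity
  rcases le_or_gt R ‖p.2‖ with b | b
  · rw [h0 _ b]
    simp
  rw [indicator_of_mem (mem_closedBall_zero_iff.2 ((norm_sub_le _ _).trans (by linarith))),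
    norm_mul, norm_mul, norm_div, norm_pow, norm_norm, norm_inv]
  have e : ‖⟪p.1 - p.2, Z p.1⟫‖ / ‖p.1 - p.2‖ ^ 2 ≤ S * ‖p.1 - p.2‖⁻¹ := by
    rcases (norm_nonneg (p.1 - p.2)).eq_or_lt with c | c
    · rw [← c]
      simp
    rw [div_le_iff₀ (by positivity)]
    refine (norm_inner_le_norm _ _).trans ((mul_le_mul_of_nonneg_left (hS _) c.le).trans_eq ?_)
    field_simp
  calc _ ≤ M * ‖σ p.2‖ * (S * ‖p.1 - p.2‖⁻¹) := by
        have := hM p.1
        gcongr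
    _ = _ := by ring

theorem re_pair (s : ℝ) (a z : ℂ) : ((s : ℂ) / a * z).re = s * (⟪a, z⟫ / ‖a‖ ^ 2) := by
  rw [Complex.inner, Complex.sq_norm, div_eq_mul_inv, mul_assoc, Complex.re_ofReal_mul]
  simp only [Complex.mul_re, Complex.inv_re, Complex.inv_im, Complex.conj_re, Complex.conj_im]
  ring

theorem sym_pair {σ : ℂ → ℝ} {Z : ℂ → ℂ} (h : Integrable
    (fun p : ℂ × ℂ => σ p.1 * σ p.2 * (⟪p.1 - p.2, Z p.1⟫ / ‖p.1 - p.2‖ ^ 2)) (volume.prod volume)) :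
    ∫ u, ∫ w, σ u * σ w * (⟪u - w, Z u - Z w⟫ / ‖u - w‖ ^ 2) =
      2 * ∫ u, ∫ w, σ u * σ w * (⟪u - w, Z u⟫ / ‖u - w‖ ^ 2) := by
  have e : (fun p : ℂ × ℂ => σ p.1 * σ p.2 * (⟪p.1 - p.2, Z p.1 - Z p.2⟫ / ‖p.1 - p.2‖ ^ 2)) =
      fun p : ℂ × ℂ => σ p.1 * σ p.2 * (⟪p.1 - p.2, Z p.1⟫ / ‖p.1 - p.2‖ ^ 2) +
        σ p.2 * σ p.1 * (⟪p.2 - p.1, Z p.2⟫ / ‖p.2 - p.1‖ ^ 2) := by
    funext p
    rw [inner_sub_right, ← neg_sub p.1 p.2, inner_neg_left, norm_neg]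
    ring
  have h' : Integrable (fun p : ℂ × ℂ => σ p.2 * σ p.1 * (⟪p.2 - p.1, Z p.2⟫ / ‖p.2 - p.1‖ ^ 2))
      (volume.prod volume) := h.swap
  have h'' : Integrable (fun p : ℂ × ℂ =>
      σ p.1 * σ p.2 * (⟪p.1 - p.2, Z p.1 - Z p.2⟫ / ‖p.1 - p.2‖ ^ 2)) (volume.prod volume) := by
    rw [e]
    exact h.add h'
  rw [← integral_prod _ h'', ← integral_prod _ h, e, integral_add h h', two_mul]
  congr 1
  exact integral_prod_swap fun p : ℂ × ℂ => σ p.1 * σ p.2 * (⟪p.1 - p.2, Z p.1⟫ / ‖p.1 - p.2‖ ^ 2)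

theorem pair_kernel (C₀ : ℝ) : ∃ C : ℝ, 0 < C ∧ ∀ (v κ : ℂ → ℝ) (Z : ℂ → ℂ) (r l A S : ℝ),
    ContDiff ℝ 2 v → Cut κ r l C₀ → 0 ≤ r → 0 < l → ContDiff ℝ 1 Z →
    (∀ u : ℂ, r ≤ ‖u‖ → Z u = 0) → (∀ u, ‖Z u‖ ≤ S) → (∀ u : ℂ, ‖u‖ ≤ r + l → |v u| ≤ A) →
    |(∫ u, hp (fderiv ℝ Z u) (grad v u ^ 2)) + 1 / (4 * Real.pi) *
        ∫ u, ∫ w, κ u * lap v u * (κ w * lap v w) * (⟪u - w, Z u - Z w⟫ / ‖u - w‖ ^ 2)| ≤
      C * A * (r + l) ^ 2 / l ^ 3 * S * ∫ u, |κ u * lap v u| := by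
  obtain ⟨C, hC, hrep⟩ := grad_rep C₀
  refine ⟨C, hC, fun v κ Z r l A S hv hκ hr hl hZ hZ0 hS hA => ?_⟩
  obtain ⟨c1, c2, -, -⟩ := continuous_lap hv
  have c3 := c2.continuous
  have cZ := hZ.continuous
  obtain ⟨σ, hσ⟩ : ∃ σ : ℂ → ℝ, σ = fun u => κ u * lap v u := ⟨_, rfl⟩
  have hσ' : ∀ u, κ u * lap v u = σ u := fun u => by rw [hσ]
  have cσ : Continuous σ := hσ ▸ hκ.smooth.continuous.mul c1
  have σ0 : ∀ u : ℂ, r + l ≤ ‖u‖ → σ u = 0 := fun u hu => by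
    rw [← hσ', hκ.zero u (by linarith), zero_mul]
  have rep := hrep v κ r l A hv hκ hr hl hA
  simp only [hσ'] at rep ⊢
  have ip := int_pair cσ σ0 cZ hS
  have e1 : ∀ x, ∫ w, σ x * σ w * (⟪x - w, Z x⟫ / ‖x - w‖ ^ 2) =
      σ x * ((∫ w, (σ w : ℂ) / (x - w)) * Z x).re := fun x => by
    have i1 : Integrable fun w => (σ w : ℂ) / (x - w) := by
      refine (integrable_ct (ψ := fun w => (σ w : ℂ)) (by fun_prop)
        (cpt_pair (R := r + l) fun u hu => by simp [σ0 u hu]) x).neg.congr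
        (Eventually.of_forall fun w => ?_)
      simp only [Pi.neg_apply]
      rw [← neg_sub x w, div_neg, neg_neg]
    rw [← integral_mul_const, ← Complex.reCLM_apply,
      ← ContinuousLinearMap.integral_comp_comm _ (i1.mul_const _), ← integral_const_mul]
    simp only [Complex.reCLM_apply, re_pair, mul_assoc]
  have e2 : ∀ x, lap v x * ⟪grad v x, Z x⟫ = σ x * ((starRingEnd ℂ) (grad v x) * Z x).re :=
    fun x => by
      rcases le_or_gt r ‖x‖ with a | a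
      · simp [hZ0 x a]
      · rw [← hσ', hκ.one x (by linarith), one_mul, Complex.inner, mul_comm (Z x)]
  have i2 := ip.integral_prod_left
  have i3 : Integrable fun x => σ x * ((starRingEnd ℂ) (grad v x) * Z x).re :=
    Continuous.integrable_of_hasCompactSupport (cσ.mul (Complex.continuous_re.comp
      ((Complex.continuous_conj.comp c3).mul cZ)))
      (cpt_pair (R := r + l) fun u hu => by simp [σ0 u hu])
  simp only [e1] at i2
  rw [pair hv hZ (cpt_pair hZ0), sym_pair ip]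
  simp only [e1, e2]
  rw [← mul_assoc, ← integral_const_mul, neg_add_eq_sub, abs_sub_comm,
    ← integral_sub i3 (i2.const_mul _), ← integral_const_mul, ← Real.norm_eq_abs]
  refine norm_integral_le_of_norm_le
    (((cσ.integrable_of_hasCompactSupport (cpt_pair σ0)).abs).const_mul _)
    (Eventually.of_forall fun x => ?_)
  have hA0 : 0 ≤ A := (abs_nonneg _).trans (hA 0 (by simp; linarith))
  have hS0 : 0 ≤ S := (norm_nonneg _).trans (hS 0)
  have e3 : σ x * ((starRingEnd ℂ) (grad v x) * Z x).re -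
      1 / (4 * Real.pi) * 2 * (σ x * ((∫ w, (σ w : ℂ) / (x - w)) * Z x).re) =
      (((starRingEnd ℂ) (grad v x) - (1 / (2 * Real.pi) : ℂ) * ∫ w, (σ w : ℂ) / (x - w)) *
        Z x).re * σ x := by
    have e4 : (1 / (2 * Real.pi) : ℂ) = ((1 / (4 * Real.pi) * 2 : ℝ) : ℂ) := by
      push_cast
      ring
    rw [sub_mul, Complex.sub_re, mul_assoc _ _ (Z x), e4, Complex.re_ofReal_mul]
    ring
  rw [e3, norm_mul]
  refine mul_le_mul_of_nonneg_right ?_ (abs_nonneg _)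
  rcases le_or_gt r ‖x‖ with a | a
  · rw [hZ0 x a, mul_zero, Complex.zero_re, norm_zero]
    positivity
  · refine (Complex.abs_re_le_norm _).trans ?_
    rw [norm_mul]
    exact mul_le_mul (rep x a.le) (hS x) (norm_nonneg _) (by positivity)

end Pool.Agent.Lib.MP_8daebb_an.SV
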