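import Pool.Agent.Lib.MP_8daebb_an.SV.LemA
import Pool.Agent.Lib.MP_8daebb_an.SV.Pair

/-! The Hopf term of sums of subharmonic functions. -/

open MeasureTheory Metric Filter Topology Set
open scoped RealInnerProductSpace ENNReal ContDiff

namespace Pool.Agent.Lib.MP_8daebb_an.SV

theorem compact_lemP {κ : ℂ → ℝ} {r l C : ℝ} (hκ : Cut κ r l C) (hl : 0 < l) :
    HasCompactSupport κ :=
  HasCompactSupport.intro (isCompact_closedBall 0 (r + l)) fun u hu => hκ.zero u (by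
    rw [mem_closedBall_zero_iff, not_le] at hu
    linarith)

theorem lap_cut_lemP {κ : ℂ → ℝ} {r l C : ℝ} (hκ : Cut κ r l C) (hl : 0 < l) (u : ℂ) :
    |lap κ u| ≤ 2 * (C / l ^ 2) ∧ (r + l ≤ ‖u‖ → lap κ u = 0) := by
  constructor
  · have h1 := (fderiv ℝ (fderiv ℝ κ) u).le_opNorm₂ 1 1
    have h2 := (fderiv ℝ (fderiv ℝ κ) u).le_opNorm₂ Complex.I Complex.I
    simp only [norm_one, Complex.norm_I, mul_one, Real.norm_eq_abs] at h1 h2
    have h3 := hκ.d2 u
    exact (abs_add_le _ _).trans (by linarith)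
  · intro hu
    have h1 : κ =ᶠ[𝓝 u] fun _ => 0 := by
      filter_upwards [(isOpen_lt continuous_const continuous_norm).mem_nhds
        (show r + 3 * l / 4 < ‖u‖ by linarith)] with x hx using hκ.zero x hx.le
    rw [lap, h1.fderiv.fderiv_eq]
    simp

theorem area_lemP {s : ℝ} (h0 : 0 ≤ s) (h : s ≤ 2) : volume.real (ball (0 : ℂ) s) ≤ 16 := by
  have h2 : volume.real (ball (0 : ℂ) s) = s ^ 2 * Real.pi := by
    rw [Measure.real, Complex.volume_ball]
    simp [ENNReal.toReal_ofReal h0]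
  have h3 : s ^ 2 ≤ 2 ^ 2 := pow_le_pow_left₀ h0 h 2
  rw [h2]
  nlinarith [Real.pi_le_four, Real.pi_pos]

theorem int_le_lemP {f g : ℂ → ℝ} {s : ℝ} (hg : Continuous g) (h1 : ∀ u, ‖u‖ < s → |f u| ≤ g u)
    (h2 : ∀ u, s ≤ ‖u‖ → f u = 0) : ∫ u, f u ≤ ∫ u in ball 0 s, g u := by
  have hi : IntegrableOn g (ball 0 s) :=
    (hg.continuousOn.integrableOn_compact (isCompact_closedBall 0 s)).mono_set
      ball_subset_closedBall
  rw [← integral_indicator measurableSet_ball]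
  refine (le_abs_self _).trans (norm_integral_le_of_norm_le (f := f)
    ((integrable_indicator_iff measurableSet_ball).2 hi) (Eventually.of_forall fun u => ?_))
  by_cases hu : u ∈ ball (0 : ℂ) s
  · rw [indicator_of_mem hu]
    exact h1 u (mem_ball_zero_iff.1 hu)
  · rw [indicator_of_notMem hu, h2 u (not_lt.1 fun g => hu (mem_ball_zero_iff.2 g)), norm_zero]

theorem mass_lemP {κ U G : ℂ → ℝ} {r l C A : ℝ} (hκ : Cut κ r l C) (hl : 0 < l) (hlr : l ≤ r)
    (hr : r + l ≤ 2) (hC : 0 ≤ C) (hA : 0 ≤ A) (hU : ContDiff ℝ 2 U) (hG : Continuous G)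
    (hG0 : ∀ u, 0 ≤ G u) (hG2 : ∫ u in ball 0 (r + l), G u ^ 2 ≤ A ^ 2)
    (hb : ∀ u : ℂ, ‖u‖ ≤ r + l → |U u| ≤ A ∧ -G u ≤ lap U u) :
    (∀ u, 0 ≤ κ u * (lap U u + G u)) ∧
      ∫ u, κ u * (lap U u + G u) ≤ (32 * C + 9) * A / l ^ 2 := by
  have hc := compact_lemP hκ hl
  have hk := hκ.smooth.continuous
  have ha := area_lemP (show 0 ≤ r + l by linarith) hr
  have fin : IsFiniteMeasure (volume.restrict (ball (0 : ℂ) (r + l))) :=
    ⟨by rw [Measure.restrict_apply_univ]; exact measure_ball_lt_top⟩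
  refine ⟨fun u => ?_, ?_⟩
  · rcases le_total ‖u‖ (r + l) with g | g
    · exact mul_nonneg (hκ.mem u).1 (by linarith [(hb u g).2])
    · rw [hκ.zero u (by linarith), zero_mul]
  have h1 : ∫ u, κ u * lap U u ≤ 32 * C * A / l ^ 2 := by
    rw [green hκ.smooth hc hU]
    refine (int_le_lemP (g := fun _ => 2 * (C / l ^ 2) * A) (s := r + l) continuous_const
      (fun u hu => ?_) (fun u hu => by rw [(lap_cut_lemP hκ hl u).2 hu, zero_mul])).trans ?_
    · rw [abs_mul]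
      exact mul_le_mul (lap_cut_lemP hκ hl u).1 (hb u hu.le).1 (abs_nonneg _) (by positivity)
    · rw [setIntegral_const, smul_eq_mul]
      exact (mul_le_mul_of_nonneg_right ha (by positivity)).trans (le_of_eq (by ring))
  have h2 : ∫ u, κ u * G u ≤ 9 * A := by
    refine le_of_forall_pos_le_add fun ε hε => ?_
    have ht : 0 < A + ε / 8 := by positivity
    refine (int_le_lemP (g := fun u => (2 * (A + ε / 8))⁻¹ * G u ^ 2 + (A + ε / 8) / 2)
      (s := r + l) (by fun_prop) (fun u _ => ?_)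
      (fun u hu => by rw [hκ.zero u (by linarith), zero_mul])).trans ?_
    · rw [abs_of_nonneg (mul_nonneg (hκ.mem u).1 (hG0 u))]
      refine (mul_le_of_le_one_left (hG0 u) (hκ.mem u).2).trans ?_
      generalize A + ε / 8 = t at ht
      have : (2 * t)⁻¹ * G u ^ 2 + t / 2 - G u = (2 * t)⁻¹ * (G u - t) ^ 2 := by
        field_simp
        ring
      have h3 : 0 ≤ (2 * t)⁻¹ * (G u - t) ^ 2 := by positivity
      linarith
    · have hi : IntegrableOn (fun u => G u ^ 2) (ball 0 (r + l)) :=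
        ((hG.pow 2).continuousOn.integrableOn_compact (isCompact_closedBall 0 _)).mono_set
          ball_subset_closedBall
      rw [integral_add (hi.const_mul _) (integrable_const _), integral_const_mul,
        setIntegral_const, smul_eq_mul]
      have h3 : (2 * (A + ε / 8))⁻¹ * ∫ u in ball 0 (r + l), G u ^ 2 ≤ A / 2 := by
        rw [inv_mul_le_iff₀ (by positivity)]
        nlinarith
      have h4 := mul_le_mul_of_nonneg_right ha (half_pos ht).le
      linarith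
  have h3 : 9 * A ≤ 9 * A / l ^ 2 :=
    le_div_self (by positivity) (by positivity) (pow_le_one₀ hl.le (by linarith))
  simp only [mul_add]
  have i1 : Integrable fun u => κ u * lap U u :=
    (hk.mul (continuous_lap hU).1).integrable_of_hasCompactSupport hc.mul_right
  have i2 : Integrable fun u => κ u * G u :=
    (hk.mul hG).integrable_of_hasCompactSupport hc.mul_right
  rw [integral_add i1 i2, add_mul, add_div]
  linarith

theorem ker_lemP {σ : ℂ → ℝ} (hσ : Integrable σ) {K K' : ℂ × ℂ → ℝ} (hK : Measurable K)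
    (hK' : Measurable K') {b e : ℝ} (h1 : ∀ p, |K' p| ≤ b) (h2 : ∀ p, |K p - K' p| ≤ e) :
    (∫ u, ∫ w, σ u * σ w * K' (u, w)) - e * (∫ u, |σ u|) ^ 2 ≤
      ∫ u, ∫ w, σ u * σ w * K (u, w) := by
  have i0 := hσ.mul_prod hσ
  have i1 : Integrable (fun p : ℂ × ℂ => σ p.1 * σ p.2 * K' p) (volume.prod volume) :=
    i0.mul_bdd hK'.aestronglyMeasurable (Eventually.of_forall h1)
  have i2 : Integrable (fun p : ℂ × ℂ => σ p.1 * σ p.2 * K p) (volume.prod volume) :=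
    i0.mul_bdd (c := b + e) hK.aestronglyMeasurable (Eventually.of_forall fun p => by
      have g1 := abs_le.1 (h1 p)
      have g2 := abs_le.1 (h2 p)
      exact abs_le.2 ⟨by linarith, by linarith⟩)
  have i3 := hσ.abs.mul_prod hσ.abs
  rw [← integral_prod _ i1, ← integral_prod _ i2, sq, ← integral_prod_mul, ← integral_const_mul,
    ← integral_sub i1 (i3.const_mul e)]
  refine integral_mono (i1.sub (i3.const_mul e)) i2 fun p => ?_
  have g1 : |σ p.1 * σ p.2 * (K p - K' p)| ≤ e * (|σ p.1| * |σ p.2|) := by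
    rw [abs_mul, abs_mul, mul_comm]
    exact mul_le_mul_of_nonneg_right (h2 p) (by positivity)
  have g2 := (abs_le.1 g1).1
  simp only
  linarith

theorem quot_lemP {x y : ℂ} {b : ℝ} (hb : 0 ≤ b) (h : ‖y‖ ≤ b * ‖x‖) : |⟪x, y⟫ / ‖x‖ ^ 2| ≤ b := by
  rw [abs_div, abs_of_nonneg (sq_nonneg ‖x‖)]
  refine div_le_of_le_mul₀ (sq_nonneg _) hb ((abs_real_inner_le_norm x y).trans ?_)
  exact (mul_le_mul_of_nonneg_left h (norm_nonneg x)).trans (le_of_eq (by ring))

theorem chi_ker_lemP {σ : ℂ → ℝ} (hσ : Integrable σ) {Y : ℂ → ℂ} {r S : ℝ} (hr : 0 < r)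
    (hY : ContDiff ℝ 1 Y) (hL : ∀ u, ‖fderiv ℝ Y u‖ ≤ 3) (hS : ∀ u, ‖Y u‖ ≤ S) :
    (∫ u, ∫ w, √(chi r u) * σ u * (√(chi r w) * σ w) * (⟪u - w, Y u - Y w⟫ / ‖u - w‖ ^ 2)) -
      6 * S / r * (∫ u, |σ u|) ^ 2 ≤
      ∫ u, ∫ w, σ u * σ w * (⟪u - w, chi r u • Y u - chi r w • Y w⟫ / ‖u - w‖ ^ 2) := by
  obtain ⟨c1, -, c2, -, -, -, -, -, c3⟩ := chi_props hr
  have hc := c1.continuous
  have hy := hY.continuous
  have hS0 : 0 ≤ S := (norm_nonneg _).trans (hS 0)
  have p1 : ∀ u, √(chi r u) ≤ 1 := fun u => Real.sqrt_le_one.2 (c2 u).2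
  have m : Measurable fun p : ℂ × ℂ => ‖p.1 - p.2‖ ^ 2 := by fun_prop
  have := ker_lemP hσ
    (K := fun p => ⟪p.1 - p.2, chi r p.1 • Y p.1 - chi r p.2 • Y p.2⟫ / ‖p.1 - p.2‖ ^ 2)
    (K' := fun p => √(chi r p.1) * √(chi r p.2) * (⟪p.1 - p.2, Y p.1 - Y p.2⟫ / ‖p.1 - p.2‖ ^ 2))
    ((Continuous.measurable (by fun_prop)).div m)
    ((Continuous.measurable (by fun_prop)).mul ((Continuous.measurable (by fun_prop)).div m))
    (b := 3) (e := 6 * S / r) (fun p => ?_) (fun p => ?_)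
  · refine le_trans (le_of_eq ?_) this
    congr 1
    refine integral_congr_ae (Eventually.of_forall fun u => integral_congr_ae
      (Eventually.of_forall fun w => ?_))
    simp only
    ring
  · rw [abs_mul, abs_of_nonneg (by positivity : 0 ≤ √(chi r p.1) * √(chi r p.2))]
    refine (mul_le_of_le_one_left (abs_nonneg _)
      (mul_le_one₀ (p1 _) (Real.sqrt_nonneg _) (p1 _))).trans (quot_lemP (by norm_num) ?_)
    exact convex_univ.norm_image_sub_le_of_norm_fderiv_le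
      (fun x _ => hY.differentiable one_ne_zero x) (fun x _ => hL x) (mem_univ _) (mem_univ _)
  · obtain ⟨u, w⟩ := p
    have e1 : chi r u • Y u - chi r w • Y w = (√(chi r u) * √(chi r w)) • (Y u - Y w) +
        (√(chi r u) - √(chi r w)) • (√(chi r u) • Y u + √(chi r w) • Y w) := by
      conv_lhs => rw [← Real.mul_self_sqrt (c2 u).1, ← Real.mul_self_sqrt (c2 w).1]
      module
    have e2 : ∀ x, ‖√(chi r x) • Y x‖ ≤ S := fun x => by
      rw [norm_smul, Real.norm_of_nonneg (Real.sqrt_nonneg _)]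
      exact (mul_le_of_le_one_left (norm_nonneg _) (p1 x)).trans (hS x)
    simp only
    rw [e1, inner_add_right, real_inner_smul_right, add_div, mul_div_assoc, add_sub_cancel_left]
    refine quot_lemP (by positivity) ?_
    rw [norm_smul]
    exact (mul_le_mul (c3 u w).2.2 ((norm_add_le _ _).trans (add_le_add (e2 u) (e2 w)))
      (norm_nonneg _) (by positivity)).trans (le_of_eq (by ring))

theorem lemP (ι : Type*) [Fintype ι] (Q : ℕ) : ∃ C : ℝ, 0 < C ∧ ∃ c : ℝ, 0 < c ∧ c < 1 ∧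
    ∀ (B : ℕ → Finset (ℂ × ℝ)) (Y : ℕ → ℂ → ℂ) (ρ ϑ : ℝ) (n : ℕ) (U : ι → ℕ → ℂ → ℝ)
    (G : ℂ → ℝ) (r l A : ℝ), Tower B Y ρ ϑ n → 0 ≤ ρ → 1 ≤ n → 0 < l → l ≤ r → r + l ≤ 2 →
    0 ≤ A → ϑ ≤ 1 → (∀ i, U i 0 = 0) → (∀ i j, ContDiff ℝ 2 (U i j)) → Continuous G →
    (∀ u, 0 ≤ G u) → ∫ u in ball 0 (r + l), G u ^ 2 ≤ A ^ 2 →
    (∀ i, ∀ j ≤ Q, ∀ u : ℂ, ‖u‖ ≤ r + l → |U i j u| ≤ A ∧ -G u ≤ lap (U i j) u) →
    ∃ a < n, ∑ i, ∑ j ∈ Finset.range Q, ∫ u, hp (fderiv ℝ (fun x => chi r x • Y a x) u)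
        ((grad (U i (j + 1)) u - grad (U i j) u) ^ 2) ≤
      C * A ^ 2 * ((1 - c) ^ n / l ^ 4 + ϑ / l ^ 5) := by
  obtain ⟨C0, hC0, hcut⟩ := exists_cut
  obtain ⟨C1, hC1, c, hc0, hc1, hker⟩ := lem_kernel ι Q
  obtain ⟨C2, hC2, hpair⟩ := pair_kernel C0
  obtain ⟨W0, hW0⟩ : ∃ W0, W0 = 32 * C0 + 9 := ⟨_, rfl⟩
  have hW1 : 0 < W0 := by rw [hW0]; positivity
  obtain ⟨C3, hC3⟩ : ∃ C3 : ℝ, C3 = Fintype.card ι * (Q * (72 * W0 ^ 2 + 48 * C2 * W0)) := ⟨_, rfl⟩
  have hC4 : 0 ≤ C3 := by rw [hC3]; positivity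
  refine ⟨C1 * W0 ^ 2 + C1 + C3, by positivity, c, hc0, hc1,
    fun B Y ρ ϑ n U G r l A hT hρ hn hl hlr hr hA hϑ hU0 hU hG hG0 hG2 hb => ?_⟩
  have hr0 : 0 < r := hl.trans_le hlr
  have hl1 : l ≤ 1 := by linarith
  have hϑ0 : 0 ≤ ϑ := by linarith [(norm_nonneg _).trans (hT.size 0 (Nat.zero_le n) 0)]
  obtain ⟨κ, hκ⟩ := hcut r l hr0.le hl
  have hc := compact_lemP hκ hl
  have hk := hκ.smooth.continuous
  obtain ⟨c1, -, c2, -, -, c3, -⟩ := chi_props hr0
  have hψ : Continuous fun u => √(chi r u) := c1.continuous.sqrt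
  have p1 : ∀ u, √(chi r u) ≤ 1 := fun u => Real.sqrt_le_one.2 (c2 u).2
  have hm := fun i j (hj : j ≤ Q) => mass_lemP hκ hl hlr hr (by linarith) hA (hU i j) hG hG0 hG2
    (hb i j hj)
  rw [← hW0] at hm
  have hμ : ∀ i j, Continuous fun u => κ u * (lap (U i j) u + G u) :=
    fun i j => hk.mul ((continuous_lap (hU i j)).1.add hG)
  have hi : ∀ i j, Integrable fun u => κ u * (lap (U i j) u + G u) :=
    fun i j => (hμ i j).integrable_of_hasCompactSupport hc.mul_right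
  obtain ⟨a, ha, hk1⟩ := hker B Y ρ ϑ n (fun i j u => √(chi r u) * (κ u * (lap (U i j) u + G u)))
    (W0 * A / l ^ 2) A hT hρ hn (fun i j => ⟨hψ.mul (hμ i j), hc.mul_right.mul_left⟩)
    (fun i j hj => ⟨fun u => mul_nonneg (Real.sqrt_nonneg _) ((hm i j hj).1 u),
      (integral_mono_of_nonneg (Eventually.of_forall fun u =>
        mul_nonneg (Real.sqrt_nonneg _) ((hm i j hj).1 u)) (hi i j) (Eventually.of_forall fun u =>
          mul_le_of_le_one_left ((hm i j hj).1 u) (p1 u))).trans (hm i j hj).2⟩)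
    (fun i => (int_le_lemP (hG.pow 2) (fun u _ => by
      have e : lap (U i 0) u = 0 := by simp [hU0, lap]
      rw [abs_of_nonneg (sq_nonneg _), e, zero_add]
      refine pow_le_pow_left₀ (mul_nonneg (Real.sqrt_nonneg _) (mul_nonneg (hκ.mem u).1 (hG0 u)))
        ((mul_le_of_le_one_left (mul_nonneg (hκ.mem u).1 (hG0 u)) (p1 u)).trans
          (mul_le_of_le_one_left (hG0 u) (hκ.mem u).2)) 2)
      (fun u hu => by rw [hκ.zero u (by linarith)]; simp)).trans hG2)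
  refine ⟨a, ha, ?_⟩
  have hq : 0 < 1 / (4 * Real.pi) := by positivity
  have hq1 : 1 / (4 * Real.pi) ≤ 1 := by
    rw [div_le_one (by positivity)]
    linarith [Real.pi_gt_three]
  have key : ∀ i, ∀ j ∈ Finset.range Q, ∫ u, hp (fderiv ℝ (fun x => chi r x • Y a x) u)
      ((grad (U i (j + 1)) u - grad (U i j) u) ^ 2) ≤
      (72 * W0 ^ 2 + 48 * C2 * W0) * (A ^ 2 * (ϑ / l ^ 5)) - 1 / (4 * Real.pi) * ∫ u, ∫ w,
        (√(chi r u) * (κ u * (lap (U i (j + 1)) u + G u)) -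
          √(chi r u) * (κ u * (lap (U i j) u + G u))) *
        (√(chi r w) * (κ w * (lap (U i (j + 1)) w + G w)) -
          √(chi r w) * (κ w * (lap (U i j) w + G w))) *
        (⟪u - w, Y a u - Y a w⟫ / ‖u - w‖ ^ 2) := by
    intro i j hj
    have j1 : j + 1 ≤ Q := Finset.mem_range.1 hj
    have j0 : j ≤ Q := by omega
    have hv := (hU i (j + 1)).sub (hU i j)
    have hs := lap_sub (hU i (j + 1)) (hU i j)
    have e0 : ∀ u, κ u * lap (fun x => U i (j + 1) x - U i j x) u =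
        κ u * (lap (U i (j + 1)) u + G u) - κ u * (lap (U i j) u + G u) := fun u => by
      rw [(hs u).1]; ring
    have g1 := (abs_le.1 (hpair _ κ (fun x => chi r x • Y a x) r l (A + A) (3 * ϑ) hv hκ hr0.le hl
      (c1.smul (hT.smooth a)) (fun u hu => by rw [(c3 u hu).1, zero_smul]) (fun u => by
        rw [norm_smul, Real.norm_of_nonneg (c2 u).1]
        exact (mul_le_of_le_one_left (norm_nonneg _) (c2 u).2).trans (hT.size a ha.le u))
      (fun u hu => (abs_sub _ _).trans (add_le_add (hb i _ j1 u hu).1 (hb i _ j0 u hu).1)))).2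
    have g2 := chi_ker_lemP ((hi i (j + 1)).sub (hi i j)) hr0 (hT.smooth a) (hT.lip a)
      (hT.size a ha.le)
    have g3 : ∫ u, |κ u * (lap (U i (j + 1)) u + G u) - κ u * (lap (U i j) u + G u)| ≤
        2 * (W0 * A / l ^ 2) := by
      refine (integral_mono_of_nonneg (Eventually.of_forall fun u => abs_nonneg _)
        ((hi i (j + 1)).add (hi i j)) (Eventually.of_forall fun u => ?_)).trans ?_
      · have := (hm i _ j1).1 u
        have := (hm i _ j0).1 u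
        simp only [Pi.add_apply]
        exact abs_le.2 ⟨by linarith, by linarith⟩
      · rw [integral_add' (hi i (j + 1)) (hi i j)]
        linarith [(hm i _ j1).2, (hm i _ j0).2]
    have g0 : 0 ≤ ∫ u, |κ u * (lap (U i (j + 1)) u + G u) - κ u * (lap (U i j) u + G u)| :=
      integral_nonneg fun u => abs_nonneg _
    simp only [e0, (hs _).2] at g1
    simp only [Pi.sub_apply] at g2
    simp only [← mul_sub √(chi r _)]
    generalize ∫ u, |κ u * (lap (U i (j + 1)) u + G u) - κ u * (lap (U i j) u + G u)| = I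
      at g0 g1 g2 g3
    have g4 : 6 * (3 * ϑ) / r * I ^ 2 ≤ 72 * W0 ^ 2 * (A ^ 2 * (ϑ / l ^ 5)) := by
      calc _ ≤ 6 * (3 * ϑ) / l * (2 * (W0 * A / l ^ 2)) ^ 2 := by gcongr
        _ = _ := by field_simp; ring
    have g5 : C2 * (A + A) * (r + l) ^ 2 / l ^ 3 * (3 * ϑ) * I ≤
        48 * C2 * W0 * (A ^ 2 * (ϑ / l ^ 5)) := by
      calc _ ≤ C2 * (A + A) * 2 ^ 2 / l ^ 3 * (3 * ϑ) * (2 * (W0 * A / l ^ 2)) := by gcongr
        _ = _ := by field_simp; ring
    have g6 := mul_le_mul_of_nonneg_left g2 hq.le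
    have g7 := mul_le_of_le_one_left (show 0 ≤ 6 * (3 * ϑ) / r * I ^ 2 by positivity) hq1
    rw [mul_sub] at g6
    linarith only [g1, g4, g5, g6, g7]
  refine (Finset.sum_le_sum fun i _ => Finset.sum_le_sum (key i)).trans ?_
  simp only [Finset.sum_sub_distrib, ← Finset.mul_sum, Finset.sum_const, Finset.card_range,
    Finset.card_univ, nsmul_eq_mul]
  have f1 := mul_le_mul_of_nonneg_left hk1 hq.le
  have hp : 0 ≤ (1 - c) ^ n := pow_nonneg (by linarith) n
  have f2 := mul_le_of_le_one_left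
    (show 0 ≤ C1 * ((W0 * A / l ^ 2) ^ 2 * (1 - c) ^ n + ϑ ^ 2 * A ^ 2) by positivity) hq1
  have f3 : ϑ ^ 2 ≤ ϑ / l ^ 5 := (pow_le_of_le_one hϑ0 hϑ two_ne_zero).trans
    (le_div_self hϑ0 (by positivity) (pow_le_one₀ hl.le hl1))
  have f4 := mul_le_mul_of_nonneg_left f3 (show 0 ≤ C1 * A ^ 2 by positivity)
  have f5 : (W0 * A / l ^ 2) ^ 2 * (1 - c) ^ n = W0 ^ 2 * (A ^ 2 * ((1 - c) ^ n / l ^ 4)) := by
    field_simp
  have f6 : 0 ≤ A ^ 2 * ((1 - c) ^ n / l ^ 4) := by positivity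
  have f7 : 0 ≤ A ^ 2 * (ϑ / l ^ 5) := by positivity
  rw [f5] at f1 f2
  have f8 : (72 * W0 ^ 2 + 48 * C2 * W0) * (A ^ 2 * (Q * Fintype.card ι * (ϑ / l ^ 5))) =
      C3 * (A ^ 2 * (ϑ / l ^ 5)) := by rw [hC3]; ring
  linarith only [f8, f1, f2, f4, mul_nonneg hC1.le f6, mul_nonneg hC4 f6,
    mul_nonneg (mul_nonneg hC1.le (sq_nonneg W0)) f7]

end Pool.Agent.Lib.MP_8daebb_an.SV
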