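import Pool.Agent.Lib.MP_8daebb_an.SV.PhiB
import Pool.Agent.Lib.MP_8daebb_an.SV.Leg
import Pool.Agent.Lib.MP_8daebb_an.SV.Clus
import Pool.Agent.Lib.MP_8daebb_an.SV.IBP

/-! The family of coarse-grained sums of top sheets. -/

open MeasureTheory Metric Filter Topology Set
open scoped RealInnerProductSpace ENNReal ContDiff

namespace Pool.Agent.Lib.MP_8daebb_an.SV

variable {α : Type*} [MeasurableSpace α] {H : Type*} [NormedAddCommGroup H]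
  [InnerProductSpace ℝ H] [FiniteDimensional ℝ H] [MeasurableSpace H] [BorelSpace H]

theorem grad_near_ufam {U : ℂ → ℝ} (hU : ContDiff ℝ 2 U) {u A : ℂ} {c : ℝ} (hc : 0 ≤ c)
    (h : ∀ v, |fderiv ℝ U u v - ⟪A, v⟫| ≤ c * ‖v‖) : ‖grad U u - A‖ ≤ c := by
  have h1 := h (grad U u - A)
  rw [(continuous_lap hU).2.2.1, ← inner_sub_left, real_inner_self_eq_norm_sq,
    abs_of_nonneg (sq_nonneg _)] at h1
  nlinarith [norm_nonneg (grad U u - A)]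

omit [FiniteDimensional ℝ H] [MeasurableSpace H] [BorelSpace H] in
theorem av_nonneg_ufam (D : CD α H) (ρ : ℝ) {g : α → ℝ} (hg : ∀ a, 0 ≤ g a) (u : ℂ) :
    0 ≤ D.av ρ g u :=
  integral_nonneg fun a => mul_nonneg (kr_nonneg _ _) (hg a)

omit [FiniteDimensional ℝ H] [MeasurableSpace H] [BorelSpace H] in
theorem av_congr_ufam {F : Type*} [NormedAddCommGroup F] [NormedSpace ℝ F] (D : CD α H) (ρ : ℝ)
    {f g : α → F} (h : ∀ᵐ a ∂D.m, f a = g a) (u : ℂ) : D.av ρ f u = D.av ρ g u :=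
  integral_congr_ae (h.mono fun a ha => by simp only [ha])

omit [FiniteDimensional ℝ H] [MeasurableSpace H] [BorelSpace H] in
theorem av_zero_ufam {F : Type*} [NormedAddCommGroup F] [NormedSpace ℝ F] (D : CD α H) (ρ : ℝ)
    (u : ℂ) : D.av ρ (fun _ => (0 : F)) u = 0 := by simp [CD.av]

theorem one_ufam (M : ℝ) {CI : ℝ} (hCI : 0 ≤ CI) (Q : ℕ) : ∃ C : ℝ, 0 < C ∧ ∃ ρ₀ : ℝ, 0 < ρ₀ ∧
    ∀ (D : CD α H) (R δ s ρ η : ℝ) (N : ℂ → ℕ) (e : H) (Ψ : ℝ → ℝ), MS D R δ M s ρ CI Q N →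
    δ ≤ 1 / 2 → ρ ≤ ρ₀ → ‖e‖ = 1 → s ^ 2 * ρ ≤ η → η ≤ s ^ 2 → Stp Ψ η → ∀ j : ℕ,
    ∃ U lv : ℂ → ℝ, (j = 0 → U = 0) ∧ ContDiff ℝ 2 U ∧ (j ≤ Q → ∀ u : ℂ, ‖u‖ + 9 * ρ ≤ R →
      |U u| ≤ C * s ^ 2 ∧ -(C * (s ^ 2 + D.av ρ (fun a => √(D.en a)) u)) ≤ lap U u ∧
      ‖grad U u - D.av ρ (fun a => deriv Ψ (D.z e a - lv u) • D.p e a) u‖ ≤ C * s ^ 3 ∧
      |D.av ρ (fun a => deriv Ψ (D.z e a - lv u)) u - j| ≤ C * s ^ 2) := by
  obtain ⟨C1, c1, H1⟩ := phi_one (α := α) (H := H) M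
  obtain ⟨C2, c2, H2⟩ := phi_two (α := α) (H := H) M
  have hCk : 0 < Ck := zero_lt_one.trans_le one_le_Ck
  obtain ⟨K, hK⟩ : ∃ K, K = Ck * (2 * CI + 2) := ⟨_, rfl⟩
  have k0 : 0 < K := by rw [hK]; positivity
  have hQ : (0 : ℝ) ≤ Q := Nat.cast_nonneg Q
  refine ⟨C1 + C2 + K + 2 * Q + 2, by positivity, min (1 / 2) (1 / K),
    lt_min one_half_pos (by positivity), fun D R δ s ρ η N e Ψ hM hδ hρ he h1 h2 hΨ j => ?_⟩
  obtain ⟨hρ1, hρ2⟩ := le_min_iff.1 hρ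
  have := hM.cv.fin
  have r0 := hM.sm.ρ_pos
  have s0 := hM.sm.s_pos
  have s1 : s ≤ ρ := hM.sm.s_le.trans (pow_le_of_le_one r0.le (by linarith) (by norm_num))
  have s2 : 0 < s ^ 2 := by positivity
  have s3 : s ^ 3 ≤ s ^ 2 := pow_le_pow_of_le_one s0.le (by linarith) (by norm_num)
  have s4 : s ^ 2 ≤ s := pow_le_of_le_one s0.le (by linarith) (by norm_num)
  have s5 : K * s ^ 3 ≤ 1 := by
    rw [le_div_iff₀ k0] at hρ2
    nlinarith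
  obtain ⟨p1, p2, p3, p4, p5⟩ := H1 D R δ s ρ η e Ψ hM.cv hδ hM.sm hρ1 he hΨ
    ((mul_pos s2 r0).trans_le h1) h2
  have p6 := H2 D R δ s ρ η e Ψ hM.cv hδ hM.sm hρ1 he hΨ h1 h2
  clear H1 H2
  have hz : ∀ᵐ a ∂D.m, |D.z e a| ≤ s ^ 2 := by
    filter_upwards [hM.cv.pw_av, hM.sm.y_le] with a a1 a2
    exact (a1.scal hM.cv.δ_nonneg hδ he).1.trans a2
  have z0 : ∀ h, 2 * s ^ 2 ≤ h → ∀ᵐ a ∂D.m, deriv Ψ (D.z e a - h) = 0 := fun h hh =>
    hz.mono fun a ha => hΨ.zero _ (by linarith [(abs_le.1 ha).2])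
  have z1 : ∀ h, h ≤ -(2 * s ^ 2) → ∀ u : ℂ, ‖u‖ + 9 * ρ ≤ R →
      |D.av ρ (fun a => deriv Ψ (D.z e a - h)) u - Q| ≤ K * s ^ 3 := fun h hh u hu => by
    rw [av_congr_ufam D ρ (hz.mono fun a ha => hΨ.one _ (by linarith [(abs_le.1 ha).1])), hK]
    exact hM.av_one hδ hρ1 hCI (by linarith)
  have a0 : ∀ u, 0 ≤ D.av ρ (fun a => √(D.en a)) u :=
    av_nonneg_ufam D ρ fun _ => Real.sqrt_nonneg _
  have a1 : ∀ w : ℂ × ℝ, 0 ≤ fderiv ℝ (fderiv ℝ (D.Phi e ρ Ψ)) w (0, 1) (0, 1) := fun w => by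
    rw [p3]
    exact av_nonneg_ufam D ρ (fun _ => (hΨ.d2 _).1) _
  have m2 : ∀ u, -((C1 + C2 + K + 2 * Q + 2) * (s ^ 2 + D.av ρ (fun a => √(D.en a)) u)) ≤
      -(C2 * (s ^ 2 + D.av ρ (fun a => √(D.en a)) u)) := fun u =>
    neg_le_neg (mul_le_mul_of_nonneg_right (by linarith) (add_nonneg s2.le (a0 u)))
  have m3 : C1 * s ^ 3 ≤ (C1 + C2 + K + 2 * Q + 2) * s ^ 3 :=
    mul_le_mul_of_nonneg_right (by linarith) (by positivity)
  by_cases j0 : j = 0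
  · refine ⟨0, fun _ => 2 * s ^ 2, fun _ => rfl, contDiff_const, fun _ u _ => ⟨?_, ?_, ?_, ?_⟩⟩
    · rw [Pi.zero_apply, abs_zero]
      positivity
    · have : lap 0 u = 0 := by simp [lap]
      rw [this, neg_nonpos]
      exact mul_nonneg (by positivity) (add_nonneg s2.le (a0 u))
    · have : grad 0 u = 0 := by simp [grad]
      rw [this, av_congr_ufam D ρ (g := fun _ => 0)
        ((z0 _ le_rfl).mono fun a ha => by rw [ha, zero_smul]), av_zero_ufam, sub_zero, norm_zero]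
      positivity
    · rw [av_congr_ufam D ρ (z0 _ le_rfl), av_zero_ufam, j0, Nat.cast_zero, sub_zero, abs_zero]
      positivity
  by_cases jQ : Q ≤ j
  · have hU : ContDiff ℝ 2 fun x => D.Phi e ρ Ψ (x, -(2 * s ^ 2)) :=
      p1.comp (contDiff_id.prodMk contDiff_const)
    have hh : |-(2 * s ^ 2)| ≤ 2 * s ^ 2 := by rw [abs_neg, abs_of_pos (by positivity)]
    refine ⟨_, fun _ => -(2 * s ^ 2), fun h => absurd h j0, hU, fun hj u hu => ?_⟩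
    obtain rfl := le_antisymm jQ hj
    obtain ⟨q1, q2⟩ := p5 u _ (by linarith) hh
    refine ⟨q1.trans (mul_le_mul_of_nonneg_right (by linarith) s2.le), ?_,
      (grad_near_ufam hU (by positivity) fun v => ?_).trans m3, (z1 _ le_rfl u hu).trans ?_⟩
    · rw [p4]
      refine ((m2 u).trans (p6 u _ (by linarith) hh)).trans (sub_le_self _ (div_nonneg
        (by positivity) (add_nonneg (a1 _) zero_le_one)))
    · have := HasFDerivAt.comp u (f := fun x : ℂ => (x, -(2 * s ^ 2)))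
        ((p1.differentiable two_ne_zero) (u, -(2 * s ^ 2))).hasFDerivAt
        (hasFDerivAt_prodMk_left u (-(2 * s ^ 2)))
      rw [show fderiv ℝ (fun x => D.Phi e ρ Ψ (x, -(2 * s ^ 2))) u = _ from this.fderiv]
      exact q2 v
    · exact mul_le_mul (by linarith) s3 (by positivity) (by positivity)
  obtain ⟨h, U, l1, l2, l3, l4, l5⟩ := legendre p1 (B := Ck * M) (fun w => by
    rw [p2, abs_neg]
    exact (hM.cv.norm_av_le r0 (f := fun a => deriv Ψ (D.z e a - w.2)) (integrable_const (1 : ℝ)) _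
      (Eventually.of_forall fun a _ => by
        rw [Real.norm_of_nonneg (hΨ.d1 _).1]; exact (hΨ.d1 _).2)).1.trans
      (hM.sm.av_le hM.cv hρ1 _).1) a1 j
  refine ⟨U, h, fun h => absurd h j0, l3, fun _ u hu => ?_⟩
  have e1 := l1 u
  rw [p2] at e1
  dsimp only at e1
  have j1 : (1 : ℝ) ≤ j := by exact_mod_cast Nat.one_le_iff_ne_zero.2 j0
  have j2 : (j : ℝ) + 1 ≤ Q := by exact_mod_cast not_le.1 jQ
  have hh : |h u| ≤ 2 * s ^ 2 := by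
    rw [abs_le]
    constructor
    · by_contra! c
      linarith [(abs_le.1 (z1 _ c.le u hu)).1]
    · by_contra! c
      rw [av_congr_ufam D ρ (z0 _ c.le), av_zero_ufam] at e1
      linarith
  obtain ⟨q1, q2⟩ := p5 u _ (by linarith) hh
  refine ⟨?_, ?_, (grad_near_ufam l3 (by positivity) fun v => ?_).trans m3, ?_⟩
  · have b1 : |(j : ℝ) * h u| ≤ Q * (2 * s ^ 2) := by
      rw [abs_mul, Nat.abs_cast]
      exact mul_le_mul (by linarith) hh (abs_nonneg _) hQ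
    have b2 : |h u ^ 2 / 2| ≤ 2 * s ^ 2 := by
      rw [abs_of_nonneg (by positivity), ← sq_abs]
      nlinarith [abs_nonneg (h u)]
    rw [l2]
    refine (abs_add_three _ _ _).trans ?_
    nlinarith [mul_pos c2 s2, mul_pos k0 s2]
  · rw [l5]
    exact (m2 u).trans (p6 u _ (by linarith) hh)
  · rw [l4]
    exact q2 v
  · rw [show D.av ρ (fun a => deriv Ψ (D.z e a - h u)) u - j = h u by linarith]
    exact hh.trans (mul_le_mul_of_nonneg_right (by linarith) s2.le)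

theorem ufam (M : ℝ) {CI : ℝ} (hCI : 0 ≤ CI) (Q : ℕ) : ∃ C : ℝ, 0 < C ∧ ∃ ρ₀ : ℝ, 0 < ρ₀ ∧
    ∀ (D : CD α H) (R δ s ρ η : ℝ) (N : ℂ → ℕ) (e : H), MS D R δ M s ρ CI Q N → δ ≤ 1 / 2 →
    ρ ≤ ρ₀ → ‖e‖ = 1 → s ^ 2 * ρ ≤ η → η ≤ s ^ 2 →
    ∃ (U : ℕ → ℂ → ℝ) (f : ℝ → ℝ) (lv : ℕ → ℂ → ℝ), UF D e R s ρ η Q C U f lv := by
  obtain ⟨C, c0, ρ₀, r0, h⟩ := one_ufam (α := α) (H := H) M hCI Q
  refine ⟨C, c0, ρ₀, r0, fun D R δ s ρ η N e hM hδ hρ he h1 h2 => ?_⟩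
  obtain ⟨Ψ, hΨ⟩ := exists_stp ((mul_pos (pow_pos hM.sm.s_pos 2) hM.sm.ρ_pos).trans_le h1)
  choose U lv k1 k2 k3 using h D R δ s ρ η N e Ψ hM hδ hρ he h1 h2 hΨ
  exact ⟨U, deriv Ψ, lv, k1 0 rfl, k2, hΨ.smooth.continuous_deriv one_le_two, hΨ.d1, hΨ.zero,
    hΨ.one, fun j hj u hu => (k3 j hj u hu).1, fun j hj u hu => (k3 j hj u hu).2.1,
    fun j hj u hu => (k3 j hj u hu).2.2.1, fun j hj u hu => (k3 j hj u hu).2.2.2⟩

theorem uf_grad (M C₀ : ℝ) : ∃ C : ℝ, 0 < C ∧ ∀ (D : CD α H) (R δ s ρ η : ℝ) (Q : ℕ) (e : H)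
    (U : ℕ → ℂ → ℝ) (f : ℝ → ℝ) (lv : ℕ → ℂ → ℝ), CV D 0 R δ M → δ ≤ 1 / 2 → Sm D s ρ →
    ρ ≤ 1 / 2 → ‖e‖ = 1 → UF D e R s ρ η Q C₀ U f lv → ∀ j ≤ Q, ∀ u : ℂ, ‖u‖ + 9 * ρ ≤ R →
    ‖grad (U j) u‖ ^ 2 ≤ C * (D.av ρ D.en u + s ^ 6) := by
  have hCk : 0 < Ck := zero_lt_one.trans_le one_le_Ck
  refine ⟨18 * (Ck * |M|) + 2 * C₀ ^ 2 + 1, by positivity,
    fun D R δ s ρ η Q e U f lv h hδ hs hρ he hU j hj u hu => ?_⟩
  have h1 := hU.gr j hj u hu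
  have h2 := (h.norm_av_le hs.ρ_pos (f := fun a => f (D.z e a - lv j u) • D.p e a)
    (h.integrable_t.2.2.2.2.1.const_mul 3) u (h.pw_av.mono fun a ha _ => by
      obtain ⟨-, b1, -, -, b2, -⟩ := ha.scal h.δ_nonneg hδ he
      rw [norm_smul, Real.norm_of_nonneg (hU.f_mem _).1]
      refine (mul_le_of_le_one_left (norm_nonneg _) (hU.f_mem _).2).trans
        ((pow_le_pow_iff_left₀ (norm_nonneg _) (by positivity) two_ne_zero).1 ?_)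
      rw [mul_pow, Real.sq_sqrt b1]
      linarith)).1
  have h3 : D.av ρ (fun a => 3 * √(D.en a)) u = 3 * D.av ρ (fun a => √(D.en a)) u := by
    unfold CD.av
    rw [← integral_const_mul]
    simp only [smul_eq_mul, mul_left_comm]
  have h4 := (hs.av_le h hρ u).2.2.1
  have h5 : 0 ≤ D.av ρ D.en u := integral_nonneg_of_ae (h.pw_av.mono fun a ha =>
    mul_nonneg (kr_nonneg _ _) ha.facts_av.1)
  have h6 : Ck * M * D.av ρ D.en u ≤ Ck * |M| * D.av ρ D.en u := by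
    gcongr
    exact le_abs_self M
  have h7 := norm_le_norm_sub_add (grad (U j) u)
    (D.av ρ (fun a => f (D.z e a - lv j u) • D.p e a) u)
  rw [h3] at h2
  have h8 : ‖grad (U j) u‖ ^ 2 ≤ (C₀ * s ^ 3 + 3 * D.av ρ (fun a => √(D.en a)) u) ^ 2 :=
    pow_le_pow_left₀ (norm_nonneg _) (by linarith) 2
  have h9 : 0 ≤ s ^ 6 := by positivity
  have h10 : 0 ≤ Ck * |M| := by positivity
  nlinarith [sq_nonneg (C₀ * s ^ 3 - 3 * D.av ρ (fun a => √(D.en a)) u), mul_nonneg h10 h9,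
    mul_nonneg (sq_nonneg C₀) h5]

end Pool.Agent.Lib.MP_8daebb_an.SV
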