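import Pool.Agent.Lib.MP_8daebb_an.SV.Grp
import Pool.Agent.Lib.MP_8daebb_an.SV.Loc
import Pool.Agent.Lib.MP_8daebb_an.SV.UFam

/-! The local comparison at good points. -/

open MeasureTheory Metric Filter Topology Set
open scoped RealInnerProductSpace ENNReal ContDiff

namespace Pool.Agent.Lib.MP_8daebb_an.SV

variable {α : Type*} [MeasurableSpace α] {H : Type*} [NormedAddCommGroup H]
  [InnerProductSpace ℝ H] [FiniteDimensional ℝ H] [MeasurableSpace H] [BorelSpace H]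

theorem sum_locd {Q : ℕ} {G A : ℕ → ℂ} {K X E ϖ : ℝ} (h0 : 0 < ϖ) (h1 : ϖ ≤ 1)
    (hA : ∀ j ≤ Q, ‖A j‖ ≤ K) (hK : 4 * K ^ 2 ≤ X) (hG : ∀ j ≤ Q, ‖G j - A j‖ ≤ E) :
    ‖∑ j ∈ Finset.range Q, (G (j + 1) - G j) ^ 2 - ∑ j ∈ Finset.range Q, (A (j + 1) - A j) ^ 2‖ ≤
      Q * (ϖ * X + 2 / ϖ * (4 * E ^ 2)) := by
  rw [← Finset.sum_sub_distrib]
  refine (norm_sum_le _ _).trans ((Finset.sum_le_card_nsmul _ _ (ϖ * X + 2 / ϖ * (4 * E ^ 2))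
    fun j hj => ?_).trans ?_)
  · rw [Finset.mem_range] at hj
    have := sq2_loc (A (j + 1) - A j) ((G (j + 1) - A (j + 1)) - (G j - A j)) h0 h1
    have e : A (j + 1) - A j + ((G (j + 1) - A (j + 1)) - (G j - A j)) = G (j + 1) - G j := by ring
    rw [e] at this
    refine this.trans ?_
    have a1 : ‖A (j + 1) - A j‖ ≤ 2 * K :=
      (norm_sub_le _ _).trans (by linarith [hA (j + 1) hj, hA j hj.le])
    have a2 : ‖(G (j + 1) - A (j + 1)) - (G j - A j)‖ ≤ 2 * E :=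
      (norm_sub_le _ _).trans (by linarith [hG (j + 1) hj, hG j hj.le])
    have b1 := pow_le_pow_left₀ (norm_nonneg _) a1 2
    have b2 := pow_le_pow_left₀ (norm_nonneg _) a2 2
    have c1 : ‖A (j + 1) - A j‖ ^ 2 ≤ X := by nlinarith
    have c2 : ‖(G (j + 1) - A (j + 1)) - (G j - A j)‖ ^ 2 ≤ 4 * E ^ 2 := by nlinarith
    gcongr
  · rw [Finset.card_range, nsmul_eq_mul]

theorem loc_d (M : ℝ) {CI : ℝ} (hCI : 0 ≤ CI) (Q : ℕ) (C₀ : ℝ) : ∃ C : ℝ, 0 < C ∧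
    ∃ Λ : ℝ, 1 ≤ Λ ∧ ∃ c₀ : ℝ, 0 < c₀ ∧ ∃ δ₀ : ℝ, 0 < δ₀ ∧ ∃ ρ₀ : ℝ, 0 < ρ₀ ∧
    ∀ (D : CD α H) (R δ s ρ η ϖ : ℝ) (N : ℂ → ℕ) (e : H) (U : ℕ → ℂ → ℝ) (f : ℝ → ℝ)
    (lv : ℕ → ℂ → ℝ) (u : ℂ), MS D R δ M s ρ CI Q N → δ ≤ δ₀ → ρ ≤ ρ₀ → ‖e‖ = 1 → 0 < η →
    η ≤ ρ / 2 → UF D e R s ρ η Q C₀ U f lv → ‖u‖ + 32 * ρ ≤ R →
    D.En u (32 * ρ) * (1 + Real.log (ρ / η)) ^ 2 ≤ c₀ * η ^ 2 → s ≤ ϖ → ϖ ≤ 1 →
    ‖∑ j ∈ Finset.range Q, (grad (U (j + 1)) u - grad (U j) u) ^ 2 -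
        D.av ρ (fun a => D.p e a ^ 2) u‖ ≤
      C * (ϖ * D.av ρ D.en u + D.two e ρ (Λ * η) u / ϖ + s ^ 5) ∧
    D.av ρ (D.dd e) u ≤ 2 * D.two e ρ (Λ * η) u := by
  obtain ⟨Cg, hCg, Λ, hΛ, c₀, hc₀, δ₀, hδ₀, ρ₀, hρ₀, hg⟩ := grp (α := α) (H := H) M hCI Q
  obtain ⟨CL, hCL, hL⟩ := loc (α := α) Q
  have hCk := one_le_Ck
  set K : ℝ := Cg + |C₀| + 1 with hK
  have hK1 : 1 ≤ K := by linarith [abs_nonneg C₀]
  refine ⟨CL * (8 * (1 + K)) + Q * (36 * (Ck * |M|) + 8 * C₀ ^ 2) + 1, by positivity, 2 * Λ,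
    by linarith, c₀, hc₀, min δ₀ (1 / 2), by positivity, min ρ₀ (1 / (2 * K)), by positivity, ?_⟩
  intro D R δ s ρ η ϖ N e U f lv u hms hδ hρ he hη hηρ hU hu hEn hsϖ hϖ1
  have hcv := hms.cv
  have hsm := hms.sm
  have hρ0 := hsm.ρ_pos
  have hs0 := hsm.s_pos
  have hδ2 : δ ≤ 1 / 2 := hδ.trans (min_le_right _ _)
  have hρK : ρ ≤ 1 / (2 * K) := hρ.trans (min_le_right _ _)
  have hρ2 : ρ ≤ 1 / 2 := hρK.trans (one_div_le_one_div_of_le (by norm_num) (by linarith))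
  have hsρ : s ≤ ρ := hsm.s_le.trans (by
    calc ρ ^ 5 ≤ ρ ^ 1 := pow_le_pow_of_le_one hρ0.le (by linarith) (by norm_num)
      _ = ρ := pow_one ρ)
  have hs1 : s ≤ 1 := by linarith
  have hϖ0 : 0 < ϖ := hs0.trans_le hsϖ
  have hsK : K * s ≤ 1 / 2 := by
    have : K * s ≤ K * (1 / (2 * K)) := by gcongr; exact hsρ.trans hρK
    rwa [show K * (1 / (2 * K)) = 1 / 2 by field_simp] at this
  have hs2 : s ^ 2 ≤ s := by nlinarith
  have hs3 : s ^ 3 ≤ s := by nlinarith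
  obtain ⟨Cs, wd, Qc, hG, hwd⟩ := hg D R δ s ρ η N e u hms (hδ.trans (min_le_left _ _))
    (hρ.trans (min_le_left _ _)) he hη hηρ hu hEn
  have := hcv.fin
  obtain ⟨mz, mp, md, -, -, -⟩ := hcv.meas_e e
  obtain ⟨-, -, -, ien, isq, -⟩ := hcv.integrable_t
  have mk : Measurable fun a => kr ρ (u - D.x a) :=
    (kr_meas_av ρ).comp (measurable_const.sub hcv.m_x)
  have hsc := hcv.pw_av.mono fun a ha => ha.scal hcv.δ_nonneg hδ2 he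
  have hB : ∀ᵐ a ∂D.m, 0 ≤ kr ρ (u - D.x a) ∧ kr ρ (u - D.x a) ≤ Ck / ρ ^ 2 + 18 ∧
      ‖D.p e a‖ ≤ Ck / ρ ^ 2 + 18 ∧ 0 ≤ D.dd e a ∧ D.dd e a ≤ Ck / ρ ^ 2 + 18 := by
    filter_upwards [hsc] with a ⟨_, _, h3, _, h5, _, _, _, _, h10, h11, _⟩
    have p0 : 0 ≤ Ck / ρ ^ 2 := by positivity
    refine ⟨kr_nonneg _ _, by linarith [(kr_le hρ0 (u - D.x a)).1], ?_, h10, by linarith⟩
    have : ‖D.p e a‖ ≤ 18 := by
      by_contra hc
      push Not at hc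
      nlinarith
    linarith
  have hcov : ∀ᵐ a ∂D.m, kr ρ (u - D.x a) ≠ 0 → ∃ c ∈ Cs, |D.z e a - c| ≤ wd := by
    filter_upwards [hG.cover] with a ha hk
    refine ha ?_
    by_contra hc
    exact hk (kr_off_av hρ0 hc)
  have hΔ : 2 * wd ≤ 2 * Λ * η := by linarith
  have hu9 : ‖u‖ + 9 * ρ ≤ R := by linarith
  have hm : ∀ c ∈ Cs, |(∫ a, kr ρ (u - D.x a) • (if |D.z e a - c| ≤ wd then (1 : ℝ) else 0) ∂D.m) -
      Qc c| ≤ K * s := fun c hc => (hG.mass c hc).trans (by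
    have : Cg * s ^ 3 ≤ Cg * s := by gcongr
    have : 0 ≤ (|C₀| + 1) * s := by positivity
    rw [hK]
    linarith)
  have hdd : D.av ρ (D.dd e) u ≤ 2 * D.two e ρ (2 * Λ * η) u :=
    loc_dd mk mz md mp hB hG.wd_pos hΔ hcov
      (fun c hc c' hc' h => by linarith [hG.gap c hc c' hc' h]) fun c hc => by
        have : (1 : ℝ) ≤ Qc c := by exact_mod_cast hG.one_le c hc
        linarith [(abs_le.1 (hm c hc)).1]
  refine ⟨?_, hdd⟩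
  have hdd0 : 0 ≤ D.av ρ (D.dd e) u :=
    integral_nonneg_of_ae (hB.mono fun a ha => mul_nonneg ha.1 ha.2.2.2.1)
  have hT0 : 0 ≤ D.two e ρ (2 * Λ * η) u / ϖ := div_nonneg (by linarith) hϖ0.le
  have hE0 : 0 ≤ D.av ρ D.en u :=
    integral_nonneg_of_ae (hsc.mono fun a ha => mul_nonneg (kr_nonneg _ _) ha.2.1)
  have h1 := hL D.m (fun a => kr ρ (u - D.x a)) (D.z e) (D.dd e) (D.p e) (Ck / ρ ^ 2 + 18) η wd
    (2 * Λ * η) (K * s) ϖ Cs Qc f (fun j => lv j u) mk mz md mp hB hη hG.wd_pos hΔ (by positivity)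
    hsK hϖ0 hϖ1 hcov hG.gap hG.one_le hG.sum hm hU.f_cont hU.f_mem hU.f_zero hU.f_one
    fun j hj => (hU.lev j hj u hu9).trans (by
      have a1 : C₀ * s ^ 2 ≤ |C₀| * s ^ 2 := by gcongr; exact le_abs_self _
      have a2 : |C₀| * s ^ 2 ≤ |C₀| * s := by gcongr
      have : 0 ≤ (Cg + 1) * s := by positivity
      rw [hK]
      linarith)
  have hp2 : D.av ρ (fun a => ‖D.p e a‖ ^ 2) u ≤ 8 * D.av ρ D.en u := by
    have := (hcv.norm_av_le hρ0 (f := fun a => ‖D.p e a‖ ^ 2) (ien.const_mul 8) u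
      (hsc.mono fun a ha _ => by
        rw [Real.norm_of_nonneg (sq_nonneg _)]
        exact ha.2.2.2.2.1)).1
    refine (le_abs_self _).trans (this.trans (le_of_eq ?_))
    simp only [CD.av, smul_eq_mul]
    rw [← integral_const_mul]
    congr 1
    ext a
    ring
  have hA : ∀ j ≤ Q, ‖D.av ρ (fun a => f (D.z e a - lv j u) • D.p e a) u‖ ≤
      3 * D.av ρ (fun a => √(D.en a)) u := by
    intro j _
    have := (hcv.norm_av_le hρ0 (f := fun a => f (D.z e a - lv j u) • D.p e a) (isq.const_mul 3) u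
      (hsc.mono fun a ha _ => by
        rw [norm_smul, Real.norm_of_nonneg (hU.f_mem _).1]
        have b1 : ‖D.p e a‖ ≤ 3 * √(D.en a) := by
          refine abs_le_of_sq_le_sq' ?_ (by positivity) |>.2
          rw [mul_pow, Real.sq_sqrt ha.2.1]
          linarith [ha.2.2.2.2.1, ha.2.1]
        exact (mul_le_of_le_one_left (norm_nonneg _) (hU.f_mem _).2).trans b1)).1
    refine this.trans (le_of_eq ?_)
    simp only [CD.av, smul_eq_mul]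
    rw [← integral_const_mul]
    congr 1
    ext a
    ring
  have hX : 4 * (3 * D.av ρ (fun a => √(D.en a)) u) ^ 2 ≤ 36 * (Ck * |M|) * D.av ρ D.en u := by
    have a1 := (hsm.av_le hcv hρ2 u).2.2.1
    rw [abs_of_nonneg hcv.M_nonneg]
    linarith
  have h2 := sum_locd (G := fun j => grad (U j) u) hϖ0 hϖ1 hA hX fun j hj => hU.gr j hj u hu9
  have h3 : 2 / ϖ * (4 * (C₀ * s ^ 3) ^ 2) ≤ 8 * C₀ ^ 2 * s ^ 5 := by
    rw [div_mul_eq_mul_div, div_le_iff₀ hϖ0]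
    have : C₀ ^ 2 * s ^ 5 * s ≤ C₀ ^ 2 * s ^ 5 * ϖ := by gcongr
    nlinarith
  have t := (norm_add_le _ _).trans (add_le_add h2 h1)
  rw [CD.av]
  simp only [CD.av] at t
  rw [sub_add_sub_cancel] at t
  refine t.trans ?_
  change _ + CL * ((ϖ + K * s) * D.av ρ (fun a => ‖D.p e a‖ ^ 2) u +
    D.two e ρ (2 * Λ * η) u / ϖ) ≤ _
  change Q * (ϖ * (36 * (Ck * |M|) * D.av ρ D.en u) + _) + _ ≤ _
  have h4 : (ϖ + K * s) * D.av ρ (fun a => ‖D.p e a‖ ^ 2) u ≤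
      8 * (1 + K) * (ϖ * D.av ρ D.en u) := by
    have a1 : ϖ + K * s ≤ (1 + K) * ϖ := by
      have : K * s ≤ K * ϖ := by gcongr
      linarith
    calc _ ≤ (ϖ + K * s) * (8 * D.av ρ D.en u) := by gcongr
      _ ≤ ((1 + K) * ϖ) * (8 * D.av ρ D.en u) := by gcongr
      _ = _ := by ring
  have hY : 0 ≤ ϖ * D.av ρ D.en u := by positivity
  generalize D.two e ρ (2 * Λ * η) u / ϖ = T at hT0
  have e1 : ϖ * (36 * (Ck * |M|) * D.av ρ D.en u) = 36 * (Ck * |M|) * (ϖ * D.av ρ D.en u) := by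
    ring
  rw [e1]
  generalize ϖ * D.av ρ D.en u = Y at hY h4
  have hS : 0 ≤ s ^ 5 := by positivity
  generalize s ^ 5 = S at hS h3
  have hc1 : 0 ≤ 36 * (Ck * |M|) := by positivity
  generalize 36 * (Ck * |M|) = c1 at hc1
  have hc2 : 0 ≤ 8 * C₀ ^ 2 := by positivity
  generalize 8 * C₀ ^ 2 = c2 at hc2 h3
  have hQ : (0 : ℝ) ≤ Q := Nat.cast_nonneg Q
  have b1 : (Q : ℝ) * (c1 * Y + 2 / ϖ * (4 * (C₀ * s ^ 3) ^ 2)) ≤ Q * (c1 + c2) * (Y + T + S) := by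
    rw [mul_assoc]
    refine mul_le_mul_of_nonneg_left ?_ hQ
    nlinarith [mul_nonneg hc1 hT0, mul_nonneg hc1 hS, mul_nonneg hc2 hY, mul_nonneg hc2 hT0]
  have b2 : CL * ((ϖ + K * s) * D.av ρ (fun a => ‖D.p e a‖ ^ 2) u + T) ≤
      CL * (8 * (1 + K)) * (Y + T + S) := by
    rw [mul_assoc]
    refine mul_le_mul_of_nonneg_left ?_ hCL.le
    nlinarith [mul_nonneg (by linarith : 0 ≤ K) hT0, mul_nonneg (by linarith : 0 ≤ K) hS]
  nlinarith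

end Pool.Agent.Lib.MP_8daebb_an.SV
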