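import Pool.Agent.Lib.MP_8daebb_an.SV.Df

/-! Auxiliary facts for the local algebra of groups of sheets. -/

open MeasureTheory Metric Filter Topology Set
open scoped RealInnerProductSpace ENNReal ContDiff

namespace Pool.Agent.Lib.MP_8daebb_an.SV

theorem stair_loc {Cs U : Finset ℝ} {Qc : ℝ → ℕ} {x : ℝ → ℝ} {j ε : ℝ} (hε : 0 ≤ ε)
    (h0 : ∀ c ∈ Cs, 0 ≤ x c) (h1 : ∀ c ∈ Cs, x c ≤ Qc c + ε)
    (h2 : ∀ c₁ ∈ Cs, Qc c₁ - ε ≤ x c₁ ∨ ∀ c ∈ Cs, c < c₁ → x c = 0)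
    (h3 : |∑ c ∈ Cs, x c - j| ≤ ε) (hU : U ⊆ Cs) (hup : ∀ c ∈ Cs, c ∉ U → ∀ c₁ ∈ U, c < c₁) :
    |∑ c ∈ U, x c - min j (∑ c ∈ U, (Qc c : ℝ))| ≤ (Cs.card + 1) * ε := by
  have hc : (U.card : ℝ) * ε ≤ Cs.card * ε := by gcongr
  have hc0 : 0 ≤ (Cs.card : ℝ) * ε := by positivity
  have a1 : ∑ c ∈ U, x c ≤ ∑ c ∈ Cs, x c :=
    Finset.sum_le_sum_of_subset_of_nonneg hU fun c hc _ => h0 c hc
  have a2 : ∑ c ∈ U, x c ≤ ∑ c ∈ U, (Qc c : ℝ) + U.card * ε := by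
    have := Finset.sum_le_sum fun c (hc : c ∈ U) => h1 c (hU hc)
    rwa [Finset.sum_add_distrib, Finset.sum_const, nsmul_eq_mul] at this
  obtain ⟨b1, b2⟩ := abs_le.1 h3
  have m1 := min_le_left j (∑ c ∈ U, (Qc c : ℝ))
  have m2 := min_le_right j (∑ c ∈ U, (Qc c : ℝ))
  rw [abs_le]
  constructor
  · by_cases hf : ∀ c ∈ U, Qc c - ε ≤ x c
    · have := Finset.sum_le_sum hf
      rw [Finset.sum_sub_distrib, Finset.sum_const, nsmul_eq_mul] at this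
      linarith
    · push Not at hf
      obtain ⟨c₁, hc₁, hlt⟩ := hf
      have hz := (h2 c₁ (hU hc₁)).resolve_left (not_le.2 hlt)
      have : ∑ c ∈ U, x c = ∑ c ∈ Cs, x c :=
        Finset.sum_subset hU fun c hc hn => hz c hc (hup c hc hn c₁ hc₁)
      linarith
  · rcases min_cases j (∑ c ∈ U, (Qc c : ℝ)) with ⟨e, -⟩ | ⟨e, -⟩ <;> rw [e] <;> linarith

/-- Number of sheets above the group `c`. -/
noncomputable def abLoc (Cs : Finset ℝ) (Qc : ℝ → ℕ) (c : ℝ) : ℕ := ∑ c' ∈ Cs.filter (c < ·), Qc c'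

/-- The share of the group `c` in the top `j` sheets. -/
noncomputable def FLoc (Cs : Finset ℝ) (Qc : ℝ → ℕ) (j : ℕ) (c : ℝ) : ℝ :=
  min (j : ℝ) (Qc c + abLoc Cs Qc c) - min (j : ℝ) (abLoc Cs Qc c)

theorem ge_loc {M : Type*} [AddCommMonoid M] {Cs : Finset ℝ} {c : ℝ} (hc : c ∈ Cs) (x : ℝ → M) :
    ∑ c' ∈ Cs.filter (c ≤ ·), x c' = x c + ∑ c' ∈ Cs.filter (c < ·), x c' := by
  rw [← Finset.sum_insert (by simp)]
  congr 1
  ext t
  simp only [Finset.mem_filter, Finset.mem_insert]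
  constructor
  · rintro ⟨h1, h2⟩
    exact h2.eq_or_lt.imp Eq.symm fun h => ⟨h1, h⟩
  · rintro (rfl | ⟨h1, h2⟩)
    · exact ⟨hc, le_rfl⟩
    · exact ⟨h1, h2.le⟩

theorem stair2_loc {Cs : Finset ℝ} {Qc : ℝ → ℕ} {x : ℝ → ℝ} {j : ℕ} {ε : ℝ} (hε : 0 ≤ ε)
    (h0 : ∀ c ∈ Cs, 0 ≤ x c) (h1 : ∀ c ∈ Cs, x c ≤ Qc c + ε)
    (h2 : ∀ c₁ ∈ Cs, Qc c₁ - ε ≤ x c₁ ∨ ∀ c ∈ Cs, c < c₁ → x c = 0)
    (h3 : |∑ c ∈ Cs, x c - j| ≤ ε) {c : ℝ} (hc : c ∈ Cs) :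
    |x c - FLoc Cs Qc j c| ≤ 2 * ((Cs.card + 1) * ε) := by
  have a := stair_loc hε h0 h1 h2 h3 (Finset.filter_subset (c ≤ ·) Cs) fun t ht hn c₁ h₁ =>
    (not_le.1 fun h => hn (Finset.mem_filter.2 ⟨ht, h⟩)).trans_le (Finset.mem_filter.1 h₁).2
  have b := stair_loc hε h0 h1 h2 h3 (Finset.filter_subset (c < ·) Cs) fun t ht hn c₁ h₁ =>
    (not_lt.1 fun h => hn (Finset.mem_filter.2 ⟨ht, h⟩)).trans_lt (Finset.mem_filter.1 h₁).2
  rw [ge_loc hc, ge_loc hc] at a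
  unfold FLoc abLoc
  push_cast
  rw [abs_le] at a b ⊢
  constructor <;> linarith [a.1, a.2, b.1, b.2]

theorem FL_succ_loc (Cs : Finset ℝ) (Qc : ℝ → ℕ) (j : ℕ) (c : ℝ) : FLoc Cs Qc (j + 1) c - FLoc Cs Qc j c =
    if abLoc Cs Qc c ≤ j ∧ j < abLoc Cs Qc c + Qc c then 1 else 0 := by
  unfold FLoc
  generalize abLoc Cs Qc c = a
  generalize Qc c = q
  rw [← Nat.cast_add, ← Nat.cast_min, ← Nat.cast_min, ← Nat.cast_min, ← Nat.cast_min]
  have : min (j + 1) (q + a) + min j a = min j (q + a) + min (j + 1) a +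
      if a ≤ j ∧ j < a + q then 1 else 0 := by
    split_ifs <;> omega
  have := congrArg (Nat.cast : ℕ → ℝ) this
  simp only [Nat.cast_add, Nat.cast_ite, Nat.cast_one, Nat.cast_zero] at this
  simp only [Nat.cast_min] at this ⊢
  linarith

theorem tile_loc (Cs : Finset ℝ) (Qc : ℝ → ℕ) (P : ℝ → ℂ) :
    ∑ j ∈ Finset.range (∑ c ∈ Cs, Qc c),
      (∑ c ∈ Cs, (FLoc Cs Qc (j + 1) c - FLoc Cs Qc j c) • P c) ^ 2 =
      ∑ c ∈ Cs, (Qc c : ℝ) • P c ^ 2 := by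
  have dis : ∀ c ∈ Cs, ∀ c' ∈ Cs, c < c' → abLoc Cs Qc c' + Qc c' ≤ abLoc Cs Qc c := by
    intro c _ c' hc' h
    unfold abLoc
    rw [add_comm, ← ge_loc hc']
    exact Finset.sum_le_sum_of_subset fun t ht =>
      Finset.mem_filter.2 ⟨(Finset.mem_filter.1 ht).1, h.trans_le (Finset.mem_filter.1 ht).2⟩
  have e : ∀ j, (∑ c ∈ Cs, (FLoc Cs Qc (j + 1) c - FLoc Cs Qc j c) • P c) ^ 2 =
      ∑ c ∈ Cs, (FLoc Cs Qc (j + 1) c - FLoc Cs Qc j c) • P c ^ 2 := by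
    intro j
    simp only [FL_succ_loc]
    by_cases h : ∃ c₀ ∈ Cs, abLoc Cs Qc c₀ ≤ j ∧ j < abLoc Cs Qc c₀ + Qc c₀
    · obtain ⟨c₀, h₀, h₁⟩ := h
      have k : ∀ φ : ℝ → ℂ, ∑ c ∈ Cs,
          (if abLoc Cs Qc c ≤ j ∧ j < abLoc Cs Qc c + Qc c then (1 : ℝ) else 0) • φ c = φ c₀ := by
        intro φ
        rw [Finset.sum_eq_single_of_mem c₀ h₀, if_pos h₁, one_smul]
        intro c hc hne
        rw [if_neg, zero_smul]
        rcases lt_or_gt_of_ne hne with h | h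
        · have := dis c hc c₀ h₀ h
          omega
        · have := dis c₀ h₀ c hc h
          omega
      rw [k, k fun c => P c ^ 2]
    · have k : ∀ φ : ℝ → ℂ, ∑ c ∈ Cs,
          (if abLoc Cs Qc c ≤ j ∧ j < abLoc Cs Qc c + Qc c then (1 : ℝ) else 0) • φ c = 0 :=
        fun φ => Finset.sum_eq_zero fun c hc => by rw [if_neg fun h' => h ⟨c, hc, h'⟩, zero_smul]
      rw [k, k fun c => P c ^ 2]
      simp
  rw [Finset.sum_congr rfl fun j _ => e j, Finset.sum_comm]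
  refine Finset.sum_congr rfl fun c hc => ?_
  rw [← Finset.sum_smul]
  congr 1
  simp only [FL_succ_loc]
  have hle : abLoc Cs Qc c + Qc c ≤ ∑ c ∈ Cs, Qc c := by
    unfold abLoc
    rw [add_comm, ← ge_loc hc]
    exact Finset.sum_le_sum_of_subset (Finset.filter_subset _ _)
  rw [Finset.sum_boole]
  congr 1
  have : (Finset.range (∑ c ∈ Cs, Qc c)).filter
      (fun j => abLoc Cs Qc c ≤ j ∧ j < abLoc Cs Qc c + Qc c) =
      Finset.Ico (abLoc Cs Qc c) (abLoc Cs Qc c + Qc c) := by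
    ext j
    simp only [Finset.mem_filter, Finset.mem_range, Finset.mem_Ico]
    omega
  rw [this, Nat.card_Ico, Nat.add_sub_cancel_left]

theorem sq1_loc (x e : ℂ) : ‖(x + e) ^ 2 - x ^ 2‖ ≤ ‖e‖ * (2 * ‖x‖ + ‖e‖) := by
  rw [show (x + e) ^ 2 - x ^ 2 = e * (2 * x + e) by ring, norm_mul]
  gcongr
  refine (norm_add_le _ _).trans ?_
  rw [norm_mul, Complex.norm_two]

theorem sq2_loc (x e : ℂ) {ϖ : ℝ} (h0 : 0 < ϖ) (h1 : ϖ ≤ 1) :
    ‖(x + e) ^ 2 - x ^ 2‖ ≤ ϖ * ‖x‖ ^ 2 + 2 / ϖ * ‖e‖ ^ 2 := by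
  refine (sq1_loc x e).trans ?_
  have a : 0 ≤ (ϖ * ‖x‖ - ‖e‖) ^ 2 / ϖ := by positivity
  have b : ‖e‖ ^ 2 ≤ ‖e‖ ^ 2 / ϖ := le_div_self (sq_nonneg _) h0 h1
  have c : (ϖ * ‖x‖ - ‖e‖) ^ 2 / ϖ = ϖ * ‖x‖ ^ 2 - 2 * ‖x‖ * ‖e‖ + ‖e‖ ^ 2 / ϖ := by
    field_simp
    ring
  have d : 2 / ϖ * ‖e‖ ^ 2 = 2 * (‖e‖ ^ 2 / ϖ) := by ring
  nlinarith

variable {α : Type*} [MeasurableSpace α] {ν : Measure α}

theorem mul_loc {f g : α → ℝ} (hf : MemLp f ∞ ν) (hg : MemLp g ∞ ν) :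
    MemLp (fun a => f a * g a) ∞ ν := hg.mul' hf

theorem smul_loc {f : α → ℝ} {g : α → ℂ} (hf : MemLp f ∞ ν) (hg : MemLp g ∞ ν) :
    MemLp (fun a => f a • g a) ∞ ν := hg.smul hf

theorem nsq_loc {g : α → ℂ} (hg : MemLp g ∞ ν) : MemLp (fun a => ‖g a‖ ^ 2) ∞ ν := by
  simp only [pow_two]
  exact mul_loc hg.norm hg.norm

theorem csq_loc {g : α → ℂ} (hg : MemLp g ∞ ν) : MemLp (fun a => g a ^ 2) ∞ ν := by
  simp only [pow_two]
  exact hg.mul' hg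

theorem int_loc {E : Type*} [NormedAddCommGroup E] [IsFiniteMeasure ν] {g : α → E}
    (hg : MemLp g ∞ ν) : Integrable g ν := hg.integrable le_top

theorem unit_loc {g : α → ℝ} (hg : Measurable g) (h : ∀ a, 0 ≤ g a ∧ g a ≤ 1) : MemLp g ∞ ν :=
  memLp_top_of_bound hg.aestronglyMeasurable 1 (.of_forall fun a => by
    rw [Real.norm_of_nonneg (h a).1]
    exact (h a).2)

theorem cs_loc [IsFiniteMeasure ν] {g : α → ℝ} {h : α → ℂ} (hg : MemLp g ∞ ν) (hh : MemLp h ∞ ν)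
    (h0 : ∀ a, 0 ≤ g a) : ‖∫ a, g a • h a ∂ν‖ ^ 2 ≤ (∫ a, g a ∂ν) * ∫ a, g a * ‖h a‖ ^ 2 ∂ν := by
  have a1 : ‖∫ a, g a • h a ∂ν‖ ≤ ∫ a, g a * ‖h a‖ ∂ν := by
    refine (norm_integral_le_integral_norm _).trans (le_of_eq ?_)
    congr 1
    ext a
    rw [norm_smul, Real.norm_of_nonneg (h0 a)]
  have i1 := int_loc hg
  have i2 := int_loc (mul_loc hg hh.norm)
  have i3 := int_loc (mul_loc hg (nsq_loc hh))
  have a2 := discrim_le_zero (a := ∫ a, g a ∂ν) (b := 2 * ∫ a, g a * ‖h a‖ ∂ν)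
    (c := ∫ a, g a * ‖h a‖ ^ 2 ∂ν) fun t => by
      have i4 : Integrable (fun a => g a * (t * t) + 2 * (g a * ‖h a‖) * t) ν :=
        (i1.mul_const _).add ((i2.const_mul _).mul_const _)
      rw [← integral_mul_const, ← integral_const_mul, ← integral_mul_const,
        ← integral_add (i1.mul_const _) ((i2.const_mul _).mul_const _), ← integral_add i4 i3]
      refine integral_nonneg fun a => ?_
      have : 0 ≤ g a * (t + ‖h a‖) ^ 2 := mul_nonneg (h0 a) (sq_nonneg _)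
      simp only [Pi.zero_apply]
      linarith
  unfold discrim at a2
  have a3 := pow_le_pow_left₀ (norm_nonneg _) a1 2
  linarith

theorem exists_nu_loc {m : Measure α} [IsFiniteMeasure m] {k : α → ℝ} {B : ℝ} (hk : Measurable k)
    (hB : ∀ᵐ a ∂m, 0 ≤ k a ∧ k a ≤ B) : ∃ ν : Measure α, IsFiniteMeasure ν ∧
      (∀ g : α → ℝ, ∫ a, k a • g a ∂m = ∫ a, g a ∂ν) ∧
      (∀ g : α → ℂ, ∫ a, k a • g a ∂m = ∫ a, g a ∂ν) ∧
      (∀ g : α → α → ℝ, ∀ g' : α → α → ℝ, ∫ a, ∫ a', k a * k a' * g a a' * g' a a' ∂m ∂m =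
        ∫ a, ∫ a', g a a' * g' a a' ∂ν ∂ν) ∧
      ∀ q : α → Prop, (∀ᵐ a ∂m, k a ≠ 0 → q a) → ∀ᵐ a ∂ν, q a := by
  have hi : Integrable k m := Integrable.of_bound hk.aestronglyMeasurable B
    (hB.mono fun a h => by rw [Real.norm_of_nonneg h.1]; exact h.2)
  have e : ∀ {E : Type} [NormedAddCommGroup E] [NormedSpace ℝ E] (g : α → E),
      ∫ a, k a • g a ∂m = ∫ a, g a ∂(m.withDensity fun a => ENNReal.ofReal (k a)) := by
    intro E _ _ g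
    rw [integral_withDensity_eq_integral_toReal_smul hk.ennreal_ofReal
      (.of_forall fun _ => ENNReal.ofReal_lt_top)]
    exact integral_congr_ae (hB.mono fun a h => by simp only [ENNReal.toReal_ofReal h.1])
  refine ⟨m.withDensity fun a => ENNReal.ofReal (k a), isFiniteMeasure_withDensity_ofReal hi.2,
    e, e, fun g g' => ?_, fun q hq => ?_⟩
  · rw [← e]
    congr 1
    ext a
    rw [← e, smul_eq_mul, ← integral_const_mul]
    congr 1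
    ext a'
    rw [smul_eq_mul]
    ring
  · rw [ae_withDensity_iff hk.ennreal_ofReal]
    exact hq.mono fun a h hn => h fun h0 => hn (by rw [h0, ENNReal.ofReal_zero])

/-- Indicator of a group. -/
noncomputable def gLoc (z : α → ℝ) (wd c : ℝ) (a : α) : ℝ := if |z a - c| ≤ wd then 1 else 0

/-- The weight of a pair. -/
noncomputable def wLoc (z : α → ℝ) (Δ : ℝ) (a a' : α) : ℝ := (1 + ((z a - z a') / Δ) ^ 2)⁻¹

variable {z d : α → ℝ} {p : α → ℂ} {wd Δ c : ℝ}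

omit [MeasurableSpace α] in
theorem gL_unit_loc (z : α → ℝ) (wd c : ℝ) (a : α) : 0 ≤ gLoc z wd c a ∧ gLoc z wd c a ≤ 1 := by
  unfold gLoc
  split_ifs <;> norm_num

theorem gL_mem_loc (hz : Measurable z) (wd c : ℝ) : MemLp (gLoc z wd c) ∞ ν :=
  unit_loc (Measurable.ite (measurableSet_le (by fun_prop) measurable_const) measurable_const
    measurable_const) (gL_unit_loc z wd c)

omit [MeasurableSpace α] in
theorem wL_unit_loc (z : α → ℝ) (Δ : ℝ) (a a' : α) : 0 ≤ wLoc z Δ a a' ∧ wLoc z Δ a a' ≤ 1 :=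
  ⟨by unfold wLoc; positivity, inv_le_one_of_one_le₀ (le_add_of_nonneg_right (sq_nonneg _))⟩

omit [MeasurableSpace α] in
theorem wL_symm_loc (z : α → ℝ) (Δ : ℝ) (a a' : α) : wLoc z Δ a a' = wLoc z Δ a' a := by
  unfold wLoc
  congr 2
  ring

theorem wL_mem_loc (hz : Measurable z) (Δ : ℝ) (μ : Measure (α × α)) :
    MemLp (fun x : α × α => wLoc z Δ x.1 x.2) ∞ μ :=
  unit_loc (by unfold wLoc; fun_prop) fun x => wL_unit_loc z Δ x.1 x.2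

theorem low_loc [IsFiniteMeasure ν] (hz : Measurable z) (hwd : 0 < wd) (hΔ : 2 * wd ≤ Δ) {a : α}
    (ha : |z a - c| ≤ wd) {X : α → ℝ} (hX : MemLp X ∞ ν) (h0 : ∀ a, 0 ≤ X a) :
    ∫ a', gLoc z wd c a' * X a' ∂ν ≤ 2 * ∫ a', wLoc z Δ a a' * X a' ∂ν := by
  have hw : MemLp (wLoc z Δ a) ∞ ν := unit_loc (by unfold wLoc; fun_prop) (wL_unit_loc z Δ a)
  rw [← integral_const_mul]
  refine integral_mono (int_loc (mul_loc (gL_mem_loc hz wd c) hX))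
    ((int_loc (mul_loc hw hX)).const_mul _) fun a' => ?_
  simp only [← mul_assoc]
  refine mul_le_mul_of_nonneg_right ?_ (h0 a')
  unfold gLoc
  split_ifs with h
  · have h1 : |(z a - z a') / Δ| ≤ 1 := by
      rw [abs_div, abs_of_pos (by linarith : 0 < Δ), div_le_one (by linarith)]
      rw [abs_le] at h ha ⊢
      constructor <;> linarith [h.1, h.2, ha.1, ha.2]
    have h2 := (sq_le_one_iff_abs_le_one _).2 h1
    unfold wLoc
    rw [← div_eq_mul_inv, le_div_iff₀ (by positivity)]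
    linarith
  · have := (wL_unit_loc z Δ a a').1
    linarith

theorem int0_loc [IsFiniteMeasure ν] (hz : Measurable z) (hp : MemLp p ∞ ν) :
    Integrable (fun x : α × α => wLoc z Δ x.1 x.2 * ‖p x.1 - p x.2‖ ^ 2) (ν.prod ν) :=
  int_loc (mul_loc (wL_mem_loc hz Δ _) (nsq_loc ((hp.comp_fst ν).sub (hp.comp_snd ν))))

theorem int1_loc [IsFiniteMeasure ν] (hz : Measurable z) (hd : MemLp d ∞ ν) :
    Integrable (fun x : α × α => wLoc z Δ x.1 x.2 * d x.1) (ν.prod ν) :=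
  int_loc (mul_loc (wL_mem_loc hz Δ _) (hd.comp_fst ν))

theorem split_loc [IsFiniteMeasure ν] (hz : Measurable z) (hp : MemLp p ∞ ν) (hd : MemLp d ∞ ν) :
    ∫ a, ∫ a', wLoc z Δ a a' * (‖p a - p a'‖ ^ 2 + d a + d a') ∂ν ∂ν =
      ∫ a, ∫ a', wLoc z Δ a a' * ‖p a - p a'‖ ^ 2 ∂ν ∂ν + 2 * ∫ a, ∫ a', wLoc z Δ a a' * d a ∂ν ∂ν := by
  have i0 := int0_loc (Δ := Δ) hz hp
  have i1 := int1_loc (Δ := Δ) hz hd
  have i2 : Integrable (fun x : α × α => wLoc z Δ x.1 x.2 * d x.2) (ν.prod ν) :=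
    int_loc (mul_loc (wL_mem_loc hz Δ _) (hd.comp_snd ν))
  have i3 : Integrable (fun x : α × α => wLoc z Δ x.1 x.2 * ‖p x.1 - p x.2‖ ^ 2 +
      wLoc z Δ x.1 x.2 * d x.1) (ν.prod ν) := i0.add i1
  have i4 : Integrable (fun x : α × α => wLoc z Δ x.1 x.2 * ‖p x.1 - p x.2‖ ^ 2 +
      wLoc z Δ x.1 x.2 * d x.1 + wLoc z Δ x.1 x.2 * d x.2) (ν.prod ν) := i3.add i2
  have e : ∫ x : α × α, wLoc z Δ x.1 x.2 * d x.2 ∂(ν.prod ν) =
      ∫ x : α × α, wLoc z Δ x.1 x.2 * d x.1 ∂(ν.prod ν) := by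
    rw [← integral_prod_swap]
    simp only [Prod.fst_swap, Prod.snd_swap]
    exact integral_congr_ae (.of_forall fun x => by simp only [wL_symm_loc z Δ x.2 x.1])
  simp only [mul_add]
  rw [← integral_prod _ i4, ← integral_prod _ i0, ← integral_prod _ i1, integral_add i3 i2,
    integral_add i0 i1, e]
  ring

end Pool.Agent.Lib.MP_8daebb_an.SV
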