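import Pool.Agent.Lib.MP_8daebb_an.SV.Df2
import Pool.Agent.Lib.MP_8daebb_an.SV.Ker2
import Pool.Agent.Lib.MP_8daebb_an.SV.Conv

/-! The mollified test fields. -/

open MeasureTheory Metric Filter Topology Set
open scoped RealInnerProductSpace ENNReal ContDiff

namespace Pool.Agent.Lib.MP_8daebb_an.SV

theorem avg_moll {E : Type*} [NormedAddCommGroup E] [NormedSpace ℝ E] [CompleteSpace E] {ρ : ℝ}
    (hρ : 0 < ρ) {F : ℂ → E} (hF : Continuous F) (u : ℂ) (P : E) {ε : ℝ}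
    (h : ∀ v, ‖u - v‖ < ρ → ‖F v - P‖ ≤ ε) : ‖(∫ v, kr ρ (u - v) • F v) - P‖ ≤ ε := by
  have hk : Continuous fun v => kr ρ (u - v) := (kr_contDiff ρ).continuous.comp (by fun_prop)
  have hc : HasCompactSupport fun v => kr ρ (u - v) :=
    (kr_compact hρ).comp_homeomorph (Homeomorph.subLeft u)
  have h1 : ∫ v, kr ρ (u - v) = 1 := by rw [integral_sub_left_eq_self, (kr_integral hρ).2]
  have hi := hk.integrable_of_hasCompactSupport (μ := volume) hc
  have h2 : (∫ v, kr ρ (u - v) • F v) - P = ∫ v, kr ρ (u - v) • (F v - P) := by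
    simp only [smul_sub]
    have h3 : Integrable fun v => kr ρ (u - v) • F v :=
      (hk.smul hF).integrable_of_hasCompactSupport hc.smul_right
    rw [integral_sub h3 (hi.smul_const P), integral_smul_const, h1, one_smul]
  rw [h2]
  refine (norm_integral_le_of_norm_le (hi.mul_const ε) (.of_forall fun v => ?_)).trans
    (by rw [integral_mul_const, h1, one_mul])
  rw [norm_smul, Real.norm_of_nonneg (kr_nonneg _ _)]
  rcases lt_or_ge ‖u - v‖ ρ with hv | hv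
  · exact mul_le_mul_of_nonneg_left (h v hv) (kr_nonneg _ _)
  · simp [(kr_zero hρ hv).1]

theorem conv_moll {ρ : ℝ} {Z : ℂ → ℂ} (hZ : ContDiff ℝ 1 Z) (hc : HasCompactSupport Z) :
    ContDiff ℝ 1 (moll ρ Z) ∧ ∀ u, fderiv ℝ (moll ρ Z) u = ∫ v, kr ρ (u - v) • fderiv ℝ Z v := by
  have h1 : moll ρ Z = convolution (kr ρ) Z (ContinuousLinearMap.lsmul ℝ ℝ) volume :=
    funext fun u => convolution_lsmul_swap.symm
  have h2 : LocallyIntegrable (kr ρ) := (kr_contDiff ρ).continuous.locallyIntegrable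
  rw [h1]
  refine ⟨hc.contDiff_convolution_right _ h2 hZ, fun u => ?_⟩
  rw [(hc.hasFDerivAt_convolution_right _ h2 hZ u).fderiv, convolution_eq_swap]
  rfl

theorem moll_facts : ∃ C : ℝ, 0 < C ∧ ∀ (B : ℕ → Finset (ℂ × ℝ)) (Y : ℕ → ℂ → ℂ) (ρ ϑ r : ℝ)
    (n a : ℕ), Tower B Y ρ ϑ n → 0 < ρ → 0 < r → a ≤ n →
    ContDiff ℝ 1 (fun x => chi r x • Y a x) ∧
    (∀ u, ‖fderiv ℝ (fun x => chi r x • Y a x) u‖ ≤ 3 * chi r u + C * ϑ / r) ∧
    (∀ u : ℂ, r ≤ ‖u‖ → fderiv ℝ (fun x => chi r x • Y a x) u = 0) ∧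
    (∀ b ∈ B a, ∀ u ∈ ball b.1 b.2, ‖fderiv ℝ (fun x => chi r x • Y a x) u -
      chi r u • ContinuousLinearMap.id ℝ ℂ‖ ≤ C * ϑ / r) ∧
    ContDiff ℝ 1 (moll ρ fun x => chi r x • Y a x) ∧
    (∀ u, ‖moll ρ (fun x => chi r x • Y a x) u‖ ≤ 3 * ϑ) ∧
    (∀ u : ℂ, r + ρ ≤ ‖u‖ → moll ρ (fun x => chi r x • Y a x) u = 0 ∧
      fderiv ℝ (moll ρ fun x => chi r x • Y a x) u = 0) ∧
    (∀ u, fderiv ℝ (moll ρ fun x => chi r x • Y a x) u =
      ∫ v, kr ρ (u - v) • fderiv ℝ (fun x => chi r x • Y a x) v) ∧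
    (∀ u, ‖fderiv ℝ (moll ρ fun x => chi r x • Y a x) u‖ ≤ 3 * chi r u + C * (ρ + ϑ) / r) ∧
    (∀ b ∈ B a, ∀ u, ‖u - b.1‖ + ρ ≤ b.2 → ‖fderiv ℝ (moll ρ fun x => chi r x • Y a x) u -
      chi r u • ContinuousLinearMap.id ℝ ℂ‖ ≤ C * (ρ + ϑ) / r) ∧
    ∀ u, (∀ b ∈ B (a + 2), ¬‖u - b.1‖ + ρ ≤ b.2) →
      fderiv ℝ (moll ρ fun x => chi r x • Y a x) u = 0 := by
  refine ⟨18, by norm_num, fun B Y ρ ϑ r n a T hρ hr ha => ?_⟩
  obtain ⟨c1, -, c2, -, -, c3, -, c4, c5⟩ := chi_props hr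
  have hZ : ContDiff ℝ 1 fun x => chi r x • Y a x := c1.smul (T.smooth a)
  have hD : ∀ u, fderiv ℝ (fun x => chi r x • Y a x) u =
      chi r u • fderiv ℝ (Y a) u + (fderiv ℝ (chi r) u).smulRight (Y a u) := fun u =>
    fderiv_fun_smul (c1.differentiable one_ne_zero u) ((T.smooth a).differentiable one_ne_zero u)
  have hϑ : 0 ≤ ϑ := by linarith [norm_nonneg (Y a 0), T.size a ha 0]
  have hR : ∀ u, ‖(fderiv ℝ (chi r) u).smulRight (Y a u)‖ ≤ 18 * ϑ / r := fun u => by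
    rw [ContinuousLinearMap.norm_smulRight_apply]
    calc _ ≤ 6 / r * (3 * ϑ) := by gcongr; exacts [(c4 u).1, T.size a ha u]
      _ = _ := by ring
  have h1 : ∀ u, ‖fderiv ℝ (fun x => chi r x • Y a x) u‖ ≤ 3 * chi r u + 18 * ϑ / r := fun u => by
    rw [hD]
    refine (norm_add_le _ _).trans (add_le_add ?_ (hR u))
    rw [norm_smul, Real.norm_of_nonneg (c2 u).1, mul_comm]
    exact mul_le_mul_of_nonneg_right (T.lip a u) (c2 u).1
  have h2 : ∀ u : ℂ, r ≤ ‖u‖ → fderiv ℝ (fun x => chi r x • Y a x) u = 0 := fun u hu => by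
    rw [hD, (c3 u hu).1, (c3 u hu).2.2.1]
    simp
  have h3 : ∀ b ∈ B a, ∀ u ∈ ball b.1 b.2, ‖fderiv ℝ (fun x => chi r x • Y a x) u -
      chi r u • ContinuousLinearMap.id ℝ ℂ‖ ≤ 18 * ϑ / r := fun b hb u hu => by
    rw [hD, T.ident a b hb u hu, add_sub_cancel_left]
    exact hR u
  obtain ⟨m1, m2⟩ := conv_moll (ρ := ρ) hZ (HasCompactSupport.intro (isCompact_closedBall 0 r)
    fun x hx => by rw [(c3 x (not_le.1 (by simpa using hx)).le).1, zero_smul])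
  have hc := hZ.continuous_fderiv one_ne_zero
  have h4 : ∀ u v : ℂ, ‖u - v‖ < ρ → |chi r v - chi r u| ≤ 6 * ρ / r := fun u v h => by
    rw [abs_sub_comm]
    calc _ ≤ 6 / r * ‖u - v‖ := (c5 u v).1
      _ ≤ 6 / r * ρ := by gcongr
      _ = _ := by ring
  have h5 : 18 * (ρ + ϑ) / r = 3 * (6 * ρ / r) + 18 * ϑ / r := by ring
  have h6 : 0 ≤ 6 * ρ / r := by positivity
  have far : ∀ u v : ℂ, r + ρ ≤ ‖u‖ → ‖u - v‖ < ρ → r ≤ ‖v‖ := fun u v hu hv => by
    linarith [norm_sub_norm_le u v]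
  refine ⟨hZ, h1, h2, h3, m1, fun u => ?_, fun u hu => ⟨?_, ?_⟩, m2, fun u => ?_,
    fun b hb u hu => ?_, fun u hu => ?_⟩
  · simpa [moll] using avg_moll hρ hZ.continuous u 0 (ε := 3 * ϑ) fun v _ => by
      rw [sub_zero, norm_smul, Real.norm_of_nonneg (c2 v).1]
      exact (mul_le_of_le_one_left (norm_nonneg _) (c2 v).2).trans (T.size a ha v)
  · simpa [moll] using avg_moll hρ hZ.continuous u 0 (ε := 0) fun v hv => by
      simp [(c3 v (far u v hu hv)).1]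
  · rw [m2]
    simpa using avg_moll hρ hc u 0 (ε := 0) fun v hv => by
      rw [h2 v (far u v hu hv)]
      simp
  · rw [m2]
    simpa using avg_moll hρ hc u 0 (ε := 3 * chi r u + 18 * (ρ + ϑ) / r) fun v hv => by
      rw [sub_zero]
      linarith [h1 v, (abs_le.1 (h4 u v hv)).2]
  · rw [m2]
    refine avg_moll hρ hc u _ fun v hv => ?_
    have h7 := h3 b hb v (by
      rw [mem_ball_iff_norm]
      linarith [norm_sub_le_norm_sub_add_norm_sub v u b.1, norm_sub_rev u v])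
    have h8 : ‖chi r v • ContinuousLinearMap.id ℝ ℂ - chi r u • ContinuousLinearMap.id ℝ ℂ‖ ≤
        6 * ρ / r := by
      refine ContinuousLinearMap.opNorm_le_bound _ h6 fun z => ?_
      rw [show (chi r v • ContinuousLinearMap.id ℝ ℂ - chi r u • ContinuousLinearMap.id ℝ ℂ) z =
        (chi r v - chi r u) • z by simp [sub_mul], norm_smul]
      exact mul_le_mul_of_nonneg_right (h4 u v hv) (norm_nonneg _)
    linarith [norm_sub_le_norm_sub_add_norm_sub (fderiv ℝ (fun x => chi r x • Y a x) v)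
      (chi r v • ContinuousLinearMap.id ℝ ℂ) (chi r u • ContinuousLinearMap.id ℝ ℂ)]
  · rw [m2]
    simpa using avg_moll hρ hc u 0 (ε := 0) fun v hv => by
      obtain ⟨h7, h8⟩ := T.off a v fun b hb hv' => by
        obtain ⟨b', hb', h9⟩ := T.nest (a + 1) b hb
        rw [mem_ball_iff_norm] at hv'
        exact hu b' hb' (by linarith [norm_sub_le_norm_sub_add_norm_sub u v b'.1,
          norm_sub_le_norm_sub_add_norm_sub v b.1 b'.1])
      rw [hD, h7, h8]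
      simp

end Pool.Agent.Lib.MP_8daebb_an.SV
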