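import Pool.Agent.Lib.MP_8daebb_an.SV.Df2

/-! The frequency function. -/

open MeasureTheory Metric Filter Topology Set
open scoped RealInnerProductSpace ENNReal ContDiff

namespace Pool.Agent.Lib.MP_8daebb_an.SV

theorem alg_ode {C w r N a δ v η e : ℝ} (hC : 0 ≤ C) (hr : 0 < r) (hr2 : r ≤ 2) (hw : 0 ≤ w)
    (hw1 : w ≤ 1) (hN : 5 + 12 * C ≤ N) (h1 : η - a ≤ w) (h2 : |δ - a| ≤ w + C * r ^ 2)
    (h3 : N - δ + v - C * r * (δ + 1) - w ≤ e) (h4 : a ^ 2 ≤ 2 * (v + w))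
    (h5 : N - δ ≤ w + C * r ^ 2) (h6 : δ - N ≤ δ / 2 + (w + C * r ^ 2)) :
    0 ≤ 2 * e - N * η + (13 + 22 * C) * (w + r) * N := by
  have k0 : 0 ≤ C * r := by positivity
  have k1 : C * r ^ 2 ≤ 2 * (C * r) := by nlinarith
  have k2 : C * r ≤ 2 * C := by nlinarith
  have k3 : 0 ≤ C * r ^ 2 := by positivity
  obtain ⟨k4, k5⟩ := abs_le.1 h2
  have k6 : 0 ≤ (a - 2) * (a - N + 2 * (w + 2 * (C * r))) :=
    mul_nonneg (by linarith) (by linarith)
  have k7 : 0 ≤ (3 * N - a) * (w + 2 * (C * r)) := mul_nonneg (by linarith) (by linarith)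
  have k8 : 0 ≤ C * r * (3 * N - (δ + 1)) := mul_nonneg k0 (by linarith)
  have k9 : 0 ≤ N * (w - (η - a)) := mul_nonneg (by linarith) (by linarith)
  have k10 : 0 ≤ (N - 1) * w := mul_nonneg (by linarith) hw
  have k11 : 0 ≤ (N - 1) * (C * r) := mul_nonneg (by linarith) k0
  have k12 : 0 ≤ N * r := mul_nonneg (by linarith) hr.le
  have k13 : 0 ≤ C * w * N := mul_nonneg (mul_nonneg hC hw) (by linarith)
  nlinarith

theorem deriv_ode {h E d : ℝ → ℝ} {C w r : ℝ} (hC : 0 ≤ C) (hr : 0 < r) (hr2 : r ≤ 2) (hw : 0 ≤ w)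
    (hw1 : w ≤ 1) (H : FreqAt h E d w C r) : ∃ g' : ℝ,
      HasDerivAt (fun s => 2 * E s / h s * Real.exp ((13 + 22 * C) * (w * Real.log s + s))) g' r ∧
        (5 + 12 * C ≤ 2 * E r / h r → 0 ≤ g') := by
  obtain ⟨h0, -, h', E', U, V, d1, d2, a1, a2, a3, a4, a5, a6⟩ := H
  have d3 := ((d2.const_mul 2).div d1 h0.ne').mul
    (((((Real.hasDerivAt_log hr.ne').const_mul w).add (hasDerivAt_id r)).const_mul
      (13 + 22 * C)).exp)
  refine ⟨_, d3, fun hN => ?_⟩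
  have k := alg_ode (a := U / h r) (δ := d r / h r) (v := V / h r) (η := r * h' / h r)
    (e := r * E' / h r) hC hr hr2 hw hw1 hN
    (by rw [← sub_div, div_le_iff₀ h0]; exact (abs_le.1 a1).2)
    (by rw [← sub_div, abs_div, abs_of_pos h0, div_le_iff₀ h0]; exact a2)
    (by
      rw [le_div_iff₀ h0]
      refine le_trans (le_of_eq ?_) a3
      field_simp)
    (by
      rw [div_pow, div_le_iff₀ (by positivity)]
      refine a4.trans (le_of_eq ?_)
      field_simp)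
    (by rw [← sub_div, div_le_iff₀ h0]; exact a5)
    (by
      rw [← sub_div, div_le_iff₀ h0]
      refine a6.trans (le_of_eq ?_)
      field_simp)
  have k2 := mul_nonneg (div_nonneg k hr.le)
    (Real.exp_pos ((13 + 22 * C) * (w * Real.log r + r))).le
  refine k2.trans (le_of_eq ?_)
  simp only [Pi.div_apply, Pi.add_apply, id]
  field_simp

theorem ode {C₁ : ℝ} (hC : 0 ≤ C₁) : ∃ C₂ : ℝ, 0 < C₂ ∧ ∃ K₁ : ℝ, 1 ≤ K₁ ∧
    (∀ (h E d : ℝ → ℝ) (r' r ϖ B : ℝ), 0 < r' → r' ≤ r → r ≤ 2 → 0 ≤ ϖ → ϖ ≤ 1 → K₁ ≤ B →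
      (∀ ϱ, r' ≤ ϱ → ϱ ≤ r → FreqAt h E d ϖ C₁ ϱ) → 2 * E r ≤ B * h r →
      ∀ ϱ, r' ≤ ϱ → ϱ ≤ r →
        2 * E ϱ ≤ B * Real.exp (C₂ * (ϖ * Real.log (r / ϱ) + (r - ϱ))) * h ϱ) ∧
    ∀ (h E d : ℝ → ℝ) (r' r ϖ K : ℝ), 0 < r' → r' ≤ r → r ≤ 2 → 0 ≤ ϖ → ϖ ≤ 1 → K₁ ≤ K →
      (∀ ϱ, r' ≤ ϱ → ϱ ≤ r → FreqAt h E d ϖ C₁ ϱ ∧ 2 * E ϱ ≤ K * h ϱ) →
      h r ≤ Real.exp (6 * K * Real.log (r / r')) * h r' ∧ d r ≤ 6 * K * h r := by
  refine ⟨13 + 22 * C₁, by positivity, 5 + 12 * C₁, by linarith, ?_, ?_⟩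
  · intro h E d r' r w B h0 h1 h2 hw hw1 hB H hr ϱ k1 k2
    have hp : ∀ s, r' ≤ s → s ≤ r → 0 < h s := fun s a b => (H s a b).1
    have hc : ContinuousOn (fun s => 2 * E s / h s) (Icc ϱ r) := fun s hs => by
      obtain ⟨a0, -, h', E', U, V, d1, d2, -⟩ := H s (k1.trans hs.1) hs.2
      exact ((d2.const_mul 2).div d1 a0.ne').continuousAt.continuousWithinAt
    obtain ⟨t, ⟨t1, t2⟩, t3⟩ := (isCompact_Icc.of_isClosed_subset
      (hc.preimage_isClosed_of_isClosed isClosed_Icc (isClosed_Iic (a := B)))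
      inter_subset_left).exists_isLeast
      ⟨r, ⟨k2, le_rfl⟩, (div_le_iff₀ (hp r h1 le_rfl)).2 hr⟩
    choose! g' g1 g2 using fun (s : ℝ) (hs : s ∈ Icc ϱ t) =>
      deriv_ode hC (h0.trans_le (k1.trans hs.1)) (hs.2.trans (t1.2.trans h2)) hw hw1
        (H s (k1.trans hs.1) (hs.2.trans t1.2))
    have hm := monotoneOn_of_deriv_nonneg (convex_Icc ϱ t)
      (fun s hs => (g1 s hs).continuousAt.continuousWithinAt)
      (fun s hs => (g1 s (interior_subset hs)).differentiableAt.differentiableWithinAt)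
      (fun s hs => by
        rw [(g1 s (interior_subset hs)).deriv]
        refine g2 s (interior_subset hs) (hB.trans (not_lt.1 fun k => ?_))
        rw [interior_Icc] at hs
        exact absurd (t3 ⟨⟨hs.1.le, hs.2.le.trans t1.2⟩, k.le⟩) (not_le.2 hs.2))
      ⟨le_rfl, t1.1⟩ ⟨t1.1, le_rfl⟩ t1.1
    have p0 : 0 < ϱ := h0.trans_le k1
    have l1 := mul_le_mul_of_nonneg_left (Real.log_le_log (p0.trans_le t1.1) t1.2) hw
    have e1 : Real.exp ((13 + 22 * C₁) * (w * Real.log t + t)) ≤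
        Real.exp ((13 + 22 * C₁) * (w * Real.log (r / ϱ) + (r - ϱ))) *
          Real.exp ((13 + 22 * C₁) * (w * Real.log ϱ + ϱ)) := by
      rw [← Real.exp_add, ← mul_add, Real.log_div (h0.trans_le h1).ne' p0.ne']
      exact Real.exp_le_exp.2 (mul_le_mul_of_nonneg_left (by linarith [t1.2]) (by positivity))
    have e2 := hm.trans (mul_le_mul (mem_Iic.1 t2) e1 (Real.exp_pos _).le (by linarith))
    rw [← mul_assoc] at e2
    exact (div_le_iff₀ (hp ϱ k1 k2)).1 (le_of_mul_le_mul_right e2 (Real.exp_pos _))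
  · intro h E d r' r w K h0 h1 h2 hw hw1 hK H
    have key : ∀ s, r' ≤ s → s ≤ r → d s ≤ 3 * K * h s ∧
        ∃ h', HasDerivAt h h' s ∧ s * h' ≤ 6 * K * h s := fun s a b => by
      obtain ⟨⟨a0, -, h', E', U, V, d1, -, a1, a2, -, -, -, a6⟩, a7⟩ := H s a b
      have k1 : C₁ * s ^ 2 ≤ C₁ * 2 ^ 2 :=
        mul_le_mul_of_nonneg_left (pow_le_pow_left₀ (by linarith) (by linarith) 2) hC
      have k2 := mul_le_mul_of_nonneg_right (by linarith : w + C₁ * s ^ 2 ≤ K / 2) a0.le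
      have k3 := mul_le_mul_of_nonneg_right (by linarith : w ≤ K) a0.le
      have k4 : 0 ≤ K * h s := mul_nonneg (by linarith) a0.le
      exact ⟨by linarith, h', d1, by linarith [(abs_le.1 a1).2, (abs_le.1 a2).1]⟩
    have hp : ∀ s, r' ≤ s → s ≤ r → 0 < h s := fun s a b => (H s a b).1.1
    choose! h' g1 g2 using fun (s : ℝ) (hs : s ∈ Icc r' r) => (key s hs.1 hs.2).2
    have g3 : ∀ s ∈ Icc r' r, HasDerivAt (fun s => Real.log (h s) - 6 * K * Real.log s)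
        (h' s / h s - 6 * K * s⁻¹) s := fun s hs =>
      ((g1 s hs).log (hp s hs.1 hs.2).ne').sub
        ((Real.hasDerivAt_log (h0.trans_le hs.1).ne').const_mul _)
    have hm := antitoneOn_of_deriv_nonpos (convex_Icc r' r)
      (fun s hs => (g3 s hs).continuousAt.continuousWithinAt)
      (fun s hs => (g3 s (interior_subset hs)).differentiableAt.differentiableWithinAt)
      (fun s hs => by
        have hs' := interior_subset hs
        rw [(g3 s hs').deriv, sub_nonpos, ← div_eq_mul_inv,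
          div_le_div_iff₀ (hp s hs'.1 hs'.2) (h0.trans_le hs'.1), mul_comm]
        exact g2 s hs')
      ⟨le_rfl, h1⟩ ⟨h1, le_rfl⟩ h1
    have k4 : 0 ≤ K * h r := mul_nonneg (by linarith) (hp r h1 le_rfl).le
    refine ⟨?_, by linarith [(key r h1 le_rfl).1]⟩
    rw [← Real.exp_log (hp r h1 le_rfl), ← Real.exp_log (hp r' le_rfl h1), ← Real.exp_add,
      Real.log_div (h0.trans_le h1).ne' h0.ne']
    exact Real.exp_le_exp.2 (by simp only at hm; linarith)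

end Pool.Agent.Lib.MP_8daebb_an.SV
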