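import Pool.Agent.Lib.MP_8daebb_an.SV.Df2
import Pool.Agent.Lib.MP_8daebb_an.SV.Av
import Pool.Agent.Lib.MP_8daebb_an.SV.Id2

/-! First derivatives of the averaged positive part. -/

open MeasureTheory Metric Filter Topology Set
open scoped RealInnerProductSpace ENNReal ContDiff

namespace Pool.Agent.Lib.MP_8daebb_an.SV

variable {α : Type*} [MeasurableSpace α] {H : Type*} [NormedAddCommGroup H]
  [InnerProductSpace ℝ H] [FiniteDimensional ℝ H] [MeasurableSpace H] [BorelSpace H]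

/-- The kernel of the averaged positive part. -/
noncomputable def gkPhiA (ρ : ℝ) (Ψ : ℝ → ℝ) (w : ℂ × ℝ) : ℝ := kr ρ w.1 * Ψ (-w.2)

theorem gk_contDiff_phiA (ρ : ℝ) {Ψ : ℝ → ℝ} (n : ℕ) (hΨ : ContDiff ℝ n Ψ) :
    ContDiff ℝ n (gkPhiA ρ Ψ) :=
  ((contDiff_infty.1 (kr_contDiff ρ) n).comp contDiff_fst).mul (hΨ.comp contDiff_snd.neg)

theorem gk_fderiv_phiA (ρ : ℝ) {Ψ : ℝ → ℝ} (hΨ : Differentiable ℝ Ψ) (w p : ℂ × ℝ) :
    fderiv ℝ (gkPhiA ρ Ψ) w p =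
      fderiv ℝ (kr ρ) w.1 p.1 * Ψ (-w.2) - kr ρ w.1 * deriv Ψ (-w.2) * p.2 := by
  have h1 : HasFDerivAt (fun w : ℂ × ℝ => kr ρ w.1)
      ((fderiv ℝ (kr ρ) w.1).comp (ContinuousLinearMap.fst ℝ ℂ ℝ)) w :=
    (((kr_contDiff ρ).differentiable (by simp)) w.1).hasFDerivAt.comp w hasFDerivAt_fst
  have h2 : HasFDerivAt (fun w : ℂ × ℝ => Ψ (-w.2))
      (deriv Ψ (-w.2) • (-ContinuousLinearMap.snd ℝ ℂ ℝ)) w :=
    (hΨ (-w.2)).hasDerivAt.comp_hasFDerivAt w hasFDerivAt_snd.neg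
  have h3 : HasFDerivAt (gkPhiA ρ Ψ) _ w := h1.mul h2
  rw [h3.fderiv]
  simp only [add_apply, smul_apply, neg_apply, ContinuousLinearMap.coe_snd', ContinuousLinearMap.comp_apply,
    ContinuousLinearMap.coe_fst', smul_eq_mul]
  ring

omit [FiniteDimensional ℝ H] [MeasurableSpace H] [BorelSpace H] in
theorem phi_eq_phiA (D : CD α H) (e : H) (ρ : ℝ) (Ψ : ℝ → ℝ) :
    D.Phi e ρ Ψ = fun w => ∫ a, gkPhiA ρ Ψ (w - (D.x a, D.z e a)) • (1 : ℝ) ∂D.m := by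
  funext w
  simp only [CD.Phi, gkPhiA, smul_eq_mul, mul_one, Prod.fst_sub, Prod.snd_sub, neg_sub]

theorem Y_phiA {D : CD α H} {c : ℂ} {R δ M : ℝ} (h : CV D c R δ M) (hδ : δ ≤ 1 / 2) {e : H}
    (he : ‖e‖ = 1) : Measurable (fun a => (D.x a, D.z e a)) ∧
      ∀ᵐ a ∂D.m, ‖(D.x a, D.z e a)‖ ≤ 2 := by
  refine ⟨h.m_x.prodMk (h.meas_e e).1, h.pw_av.mono fun a ha => ?_⟩
  rw [Prod.norm_def, max_le_iff]
  refine ⟨ha.x_le, ?_⟩
  have h1 := (ha.scal h.δ_nonneg hδ he).1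
  have h2 := ha.y_le
  show ‖D.z e a‖ ≤ 2
  rw [Real.norm_eq_abs]
  linarith

theorem phi_fderiv_phiA {D : CD α H} {c : ℂ} {R δ M : ℝ} (h : CV D c R δ M) (hδ : δ ≤ 1 / 2)
    {e : H} (he : ‖e‖ = 1) (ρ : ℝ) {Ψ : ℝ → ℝ} (hΨ : ContDiff ℝ 1 Ψ) (w p : ℂ × ℝ) :
    Integrable (fun a => fderiv ℝ (gkPhiA ρ Ψ) (w - (D.x a, D.z e a)) p) D.m ∧
    fderiv ℝ (D.Phi e ρ Ψ) w p = ∫ a, fderiv ℝ (gkPhiA ρ Ψ) (w - (D.x a, D.z e a)) p ∂D.m := by
  have := h.fin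
  obtain ⟨hY, hB⟩ := Y_phiA h hδ he
  have h1 := conv_hasFDerivAt hY hB (integrable_const (1 : ℝ))
    (gk_contDiff_phiA ρ 1 (by exact_mod_cast hΨ)) w
  rw [phi_eq_phiA]
  have h2 := h1.2.1 p
  have h3 := h1.2.2.2 p
  simp only [smul_eq_mul, mul_one] at h2 h3 ⊢
  exact ⟨h2, h3⟩

theorem phi_h_phiA {D : CD α H} {c : ℂ} {R δ M : ℝ} (h : CV D c R δ M) (hδ : δ ≤ 1 / 2)
    {e : H} (he : ‖e‖ = 1) (ρ : ℝ) {Ψ : ℝ → ℝ} (hΨ : ContDiff ℝ 1 Ψ) (w : ℂ × ℝ) :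
    fderiv ℝ (D.Phi e ρ Ψ) w (0, 1) = -D.Phi e ρ (deriv Ψ) w := by
  rw [(phi_fderiv_phiA h hδ he ρ hΨ w (0, 1)).2, CD.Phi, ← integral_neg]
  refine integral_congr_ae (Eventually.of_forall fun a => ?_)
  simp only [gk_fderiv_phiA ρ (hΨ.differentiable one_ne_zero), map_zero, zero_mul, mul_one,
    zero_sub, Prod.fst_sub, Prod.snd_sub, neg_sub]

theorem slice_phiA {G : ℂ × ℝ → ℝ} (hG : Differentiable ℝ G) (h : ℝ) (u v : ℂ) :
    fderiv ℝ (fun x => G (x, h)) u v = fderiv ℝ G (u, h) (v, 0) := by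
  have h1 : HasFDerivAt (fun x => G (x, h))
      ((fderiv ℝ G (u, h)).comp (ContinuousLinearMap.inl ℝ ℂ ℝ)) u :=
    (hG (u, h)).hasFDerivAt.comp u (hasFDerivAt_prodMk_left u h)
  rw [h1.fderiv]
  rfl

theorem slice2_phiA {G : ℂ × ℝ → ℝ} (hG : ContDiff ℝ 2 G) (h : ℝ) (u v v' : ℂ) :
    fderiv ℝ (fderiv ℝ fun x => G (x, h)) u v v' =
      fderiv ℝ (fderiv ℝ G) (u, h) (v, 0) (v', 0) := by
  have h1 : ContDiff ℝ 2 fun x : ℂ => G (x, h) := hG.comp (contDiff_id.prodMk contDiff_const)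
  have h2 : ContDiff ℝ 1 (fderiv ℝ G) := hG.fderiv_right (by norm_num)
  have h3 : Differentiable ℝ fun w => fderiv ℝ G w (v', 0) :=
    (h2.differentiable one_ne_zero).clm_apply (differentiable_const _)
  rw [fderiv2_conv h1, fderiv2_conv hG, ← slice_phiA h3]
  congr 2
  funext x
  exact slice_phiA (hG.differentiable two_ne_zero) h x v'

theorem phi_one (M : ℝ) : ∃ C : ℝ, 0 < C ∧ ∀ (D : CD α H) (R δ s ρ η : ℝ) (e : H) (Ψ : ℝ → ℝ),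
    CV D 0 R δ M → δ ≤ 1 / 2 → Sm D s ρ → ρ ≤ 1 / 2 → ‖e‖ = 1 → Stp Ψ η → 0 < η → η ≤ s ^ 2 →
    ContDiff ℝ 2 (D.Phi e ρ Ψ) ∧
    (∀ w : ℂ × ℝ, fderiv ℝ (D.Phi e ρ Ψ) w (0, 1) =
      -D.av ρ (fun a => deriv Ψ (D.z e a - w.2)) w.1) ∧
    (∀ w : ℂ × ℝ, fderiv ℝ (fderiv ℝ (D.Phi e ρ Ψ)) w (0, 1) (0, 1) =
      D.av ρ (fun a => deriv (deriv Ψ) (D.z e a - w.2)) w.1) ∧
    (∀ (h : ℝ) (u : ℂ), lap (fun x => D.Phi e ρ Ψ (x, h)) u =
      fderiv ℝ (fderiv ℝ (D.Phi e ρ Ψ)) (u, h) (1, 0) (1, 0) +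
        fderiv ℝ (fderiv ℝ (D.Phi e ρ Ψ)) (u, h) (Complex.I, 0) (Complex.I, 0)) ∧
    ∀ (u : ℂ) (h : ℝ), ‖u‖ + 2 * ρ ≤ R → |h| ≤ 2 * s ^ 2 →
      |D.Phi e ρ Ψ (u, h)| ≤ C * s ^ 2 ∧ ∀ v : ℂ, |fderiv ℝ (D.Phi e ρ Ψ) (u, h) (v, 0) -
        ⟪D.av ρ (fun a => deriv Ψ (D.z e a - h) • D.p e a) u, v⟫| ≤ C * s ^ 3 * ‖v‖ := by
  have hCk : 0 < Ck := lt_of_lt_of_le one_pos one_le_Ck
  refine ⟨4 * Ck * |M| + 12 * Ck, by positivity, fun D R δ s ρ η e Ψ h hδ hs hρ he hΨ hη hηs => ?_⟩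
  have := h.fin
  have hρ0 := hs.ρ_pos
  have hs0 := hs.s_pos
  obtain ⟨hY, hB⟩ := Y_phiA h hδ he
  have hΨ1 : ContDiff ℝ 1 Ψ := hΨ.smooth.of_le one_le_two
  have hΨd : Differentiable ℝ Ψ := hΨ1.differentiable one_ne_zero
  have hΨ' : ContDiff ℝ 1 (deriv Ψ) := by
    have h2 : ContDiff ℝ (1 + 1) Ψ := by
      rw [one_add_one_eq_two]
      exact hΨ.smooth
    exact (contDiff_succ_iff_deriv.1 h2).2.2
  have hsm : ContDiff ℝ 2 (D.Phi e ρ Ψ) := by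
    rw [phi_eq_phiA]
    exact conv_contDiff hY hB (integrable_const (1 : ℝ)) 2 (gk_contDiff_phiA ρ 2 hΨ.smooth)
  refine ⟨hsm, fun w => phi_h_phiA h hδ he ρ hΨ1 w, fun w => ?_, fun k u => ?_,
    fun u k hu hk => ?_⟩
  · rw [fderiv2_conv hsm, funext (phi_h_phiA h hδ he ρ hΨ1), fderiv_fun_neg,
      neg_apply, phi_h_phiA h hδ he ρ hΨ' w, neg_neg]
    rfl
  · rw [lap, slice2_phiA hsm, slice2_phiA hsm]
  have hsz : ∀ᵐ a ∂D.m, |Ψ (D.z e a - k)| ≤ 4 * s ^ 2 := by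
    filter_upwards [h.pw_av, hs.y_le] with a ha hy
    have h1 := (ha.scal h.δ_nonneg hδ he).1
    have h2 := hΨ.size (D.z e a - k)
    have h3 := abs_sub (D.z e a) k
    linarith
  have hM : M ≤ |M| := le_abs_self M
  constructor
  · have b := (h.norm_av_le hρ0 (f := fun a => Ψ (D.z e a - k)) (integrable_const (4 * s ^ 2)) u
      (hsz.mono fun a ha _ => ha)).1
    have e1 : D.av ρ (fun _ => 4 * s ^ 2) u = D.av ρ (fun _ => (1 : ℝ)) u * (4 * s ^ 2) := by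
      unfold CD.av
      rw [← integral_mul_const]
      simp only [smul_eq_mul, mul_one]
    rw [e1] at b
    have b1 := (hs.av_le h hρ u).1
    have b2 : D.av ρ (fun _ => (1 : ℝ)) u * (4 * s ^ 2) ≤ Ck * |M| * (4 * s ^ 2) :=
      mul_le_mul_of_nonneg_right (b1.trans (mul_le_mul_of_nonneg_left hM hCk.le)) (by positivity)
    have b3 : |D.Phi e ρ Ψ (u, k)| ≤ Ck * |M| * (4 * s ^ 2) := b.trans b2
    have b4 : 0 ≤ Ck * s ^ 2 := by positivity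
    linarith
  intro v
  obtain ⟨mz, mp, -, -, -, -⟩ := h.meas_e e
  have hg1 : ContDiff ℝ 1 (gkPhiA ρ Ψ) := gk_contDiff_phiA ρ 1 (by exact_mod_cast hΨ1)
  have hT : Test 0 R fun w : ℂ × ℝ => gkPhiA ρ Ψ ((u, k) - w) := by
    refine ⟨(hg1.comp (contDiff_const.sub contDiff_id)).contDiffOn, ‖u‖ + ρ, by linarith,
      fun w hw => ?_⟩
    rw [sub_zero] at hw
    have h1 : ρ ≤ ‖u - w.1‖ := by
      have := norm_sub_norm_le w.1 u
      rw [norm_sub_rev] at this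
      linarith
    simp only [gkPhiA, Prod.fst_sub, (kr_zero hρ0 h1).1, zero_mul]
  have hid := h.hor_e e hT v
  have hd : ∀ w p : ℂ × ℝ, fderiv ℝ (fun w : ℂ × ℝ => gkPhiA ρ Ψ ((u, k) - w)) w p =
      -fderiv ℝ (gkPhiA ρ Ψ) ((u, k) - w) p := fun w p => by
    have h1 : HasFDerivAt (fun w : ℂ × ℝ => gkPhiA ρ Ψ ((u, k) - w))
        ((fderiv ℝ (gkPhiA ρ Ψ) ((u, k) - w)).comp (-ContinuousLinearMap.id ℝ (ℂ × ℝ))) w :=
      (hg1.differentiable one_ne_zero _).hasFDerivAt.comp w ((hasFDerivAt_id w).const_sub (u, k))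
    rw [h1.fderiv]
    simp
  obtain ⟨iA, eA⟩ := phi_fderiv_phiA h hδ he ρ hΨ1 (u, k) (v, 0)
  simp only [hd] at hid
  simp only [gk_fderiv_phiA ρ hΨd, gkPhiA, Prod.fst_sub, Prod.snd_sub, neg_sub, mul_zero,
    sub_zero] at hid iA eA
  have mΨ : Measurable fun a => Ψ (D.z e a - k) :=
    hΨd.continuous.measurable.comp (mz.sub_const k)
  have mΨ' : Measurable fun a => deriv Ψ (D.z e a - k) :=
    hΨ'.continuous.measurable.comp (mz.sub_const k)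
  have iP : Integrable (fun a => deriv Ψ (D.z e a - k) • D.p e a) D.m := by
    refine h.integrable (mΨ'.smul mp).aestronglyMeasurable 5 fun a ha _ => ?_
    obtain ⟨-, -, h3, -, h5, -⟩ := (h.pw a ha).scal h.δ_nonneg hδ he
    have h6 : ‖D.p e a‖ ≤ 5 := by nlinarith [norm_nonneg (D.p e a)]
    rw [norm_smul, Real.norm_of_nonneg (hΨ.d1 _).1]
    nlinarith [(hΨ.d1 (D.z e a - k)).1, (hΨ.d1 (D.z e a - k)).2, norm_nonneg (D.p e a)]
  have iP' := h.int_av hρ0 iP u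
  have eP : ⟪D.av ρ (fun a => deriv Ψ (D.z e a - k) • D.p e a) u, v⟫ =
      ∫ a, kr ρ (u - D.x a) * deriv Ψ (D.z e a - k) * ⟪D.p e a, v⟫ ∂D.m := by
    rw [real_inner_comm, CD.av, ← integral_inner iP']
    refine integral_congr_ae (Eventually.of_forall fun a => ?_)
    simp only [real_inner_smul_right, real_inner_comm v, mul_assoc]
  have iB : Integrable
      (fun a => kr ρ (u - D.x a) * deriv Ψ (D.z e a - k) * ⟪D.p e a, v⟫) D.m := by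
    refine (iP'.const_inner (𝕜 := ℝ) v).congr (Eventually.of_forall fun a => ?_)
    simp only [real_inner_smul_right, real_inner_comm v, mul_assoc]
  have hen := h.integrable_t.2.2.2.1
  have hbd : ∀ᵐ a ∂D.m, ‖fderiv ℝ (kr ρ) (u - D.x a) (D.τ a v) * Ψ (D.z e a - k) +
      kr ρ (u - D.x a) * Ψ (D.z e a - k) * ⟪D.eh a, v⟫‖ ≤
      12 * Ck / ρ ^ 3 * s ^ 2 * ‖v‖ * D.en a := by
    filter_upwards [h.pw_av, hsz] with a ha hz
    obtain ⟨-, h2, -, h4, -, -, -, -, -, -, -, -, h13, -⟩ := ha.scal h.δ_nonneg hδ he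
    obtain ⟨k1, k2, -⟩ := kr_le hρ0 (u - D.x a)
    have k3 : Ck / ρ ^ 2 ≤ Ck / ρ ^ 3 :=
      div_le_div_of_nonneg_left hCk.le (by positivity)
        (pow_le_pow_of_le_one hρ0.le (by linarith) (by norm_num))
    have t1 : ‖D.τ a v‖ ≤ 2 * D.en a * ‖v‖ :=
      ((D.τ a).le_opNorm v).trans
        (mul_le_mul_of_nonneg_right (ha.τ_le.trans (by linarith)) (norm_nonneg _))
    have t2 : ‖fderiv ℝ (kr ρ) (u - D.x a) (D.τ a v)‖ ≤ Ck / ρ ^ 3 * (2 * D.en a * ‖v‖) :=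
      ((fderiv ℝ (kr ρ) (u - D.x a)).le_opNorm _).trans
        (mul_le_mul k2 t1 (norm_nonneg _) (by positivity))
    have t3 : ‖fderiv ℝ (kr ρ) (u - D.x a) (D.τ a v) * Ψ (D.z e a - k)‖ ≤
        Ck / ρ ^ 3 * (2 * D.en a * ‖v‖) * (4 * s ^ 2) := by
      rw [norm_mul]
      exact mul_le_mul t2 hz (norm_nonneg _) (by positivity)
    have t4 : ‖⟪D.eh a, v⟫‖ ≤ D.en a * ‖v‖ :=
      (norm_inner_le_norm _ _).trans (mul_le_mul_of_nonneg_right h13 (norm_nonneg _))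
    have t5 : ‖kr ρ (u - D.x a) * Ψ (D.z e a - k) * ⟪D.eh a, v⟫‖ ≤
        Ck / ρ ^ 3 * (4 * s ^ 2) * (D.en a * ‖v‖) := by
      rw [norm_mul, norm_mul, Real.norm_of_nonneg (kr_nonneg _ _)]
      exact mul_le_mul (mul_le_mul (k1.trans k3) hz (norm_nonneg _) (by positivity)) t4
        (norm_nonneg _) (by positivity)
    refine (norm_add_le _ _).trans ((add_le_add t3 t5).trans (le_of_eq ?_))
    ring
  have mk : Measurable fun a => kr ρ (u - D.x a) :=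
    (kr_meas_av ρ).comp (measurable_const.sub h.m_x)
  have mdk : Measurable fun a => fderiv ℝ (kr ρ) (u - D.x a) (D.τ a v) := by
    have c1 : Continuous fun q : ℂ × ℂ => fderiv ℝ (kr ρ) (u - q.1) q.2 :=
      ((fderiv_contDiff_ker (kr_contDiff ρ)).continuous.comp
        (continuous_const.sub continuous_fst)).clm_apply continuous_snd
    have c2 : Measurable fun a => D.τ a v :=
      (ContinuousLinearMap.apply ℝ ℂ v).continuous.measurable.comp h.m_τ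
    exact c1.measurable.comp (h.m_x.prodMk c2)
  have meh : Measurable fun a => ⟪D.eh a, v⟫ :=
    (continuous_id.inner continuous_const).measurable.comp h.m_eh
  have iE : Integrable (fun a => fderiv ℝ (kr ρ) (u - D.x a) (D.τ a v) * Ψ (D.z e a - k) +
      kr ρ (u - D.x a) * Ψ (D.z e a - k) * ⟪D.eh a, v⟫) D.m :=
    (hen.const_mul _).mono' ((mdk.mul mΨ).add ((mk.mul mΨ).mul meh)).aestronglyMeasurable hbd
  have key : (∫ a, fderiv ℝ (kr ρ) (u - D.x a) v * Ψ (D.z e a - k) ∂D.m) -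
      ∫ a, kr ρ (u - D.x a) * deriv Ψ (D.z e a - k) * ⟪D.p e a, v⟫ ∂D.m =
      ∫ a, (fderiv ℝ (kr ρ) (u - D.x a) (D.τ a v) * Ψ (D.z e a - k) +
        kr ρ (u - D.x a) * Ψ (D.z e a - k) * ⟪D.eh a, v⟫) ∂D.m := by
    have iC : Integrable (fun a => fderiv ℝ (kr ρ) (u - D.x a) v * Ψ (D.z e a - k) -
        kr ρ (u - D.x a) * deriv Ψ (D.z e a - k) * ⟪D.p e a, v⟫) D.m := iA.sub iB
    rw [← integral_sub iA iB, eq_comm, ← sub_eq_zero, ← integral_sub iE iC, ← hid]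
    refine integral_congr_ae (Eventually.of_forall fun a => ?_)
    simp only [map_sub]
    ring
  rw [eA, eP, key, ← Real.norm_eq_abs]
  refine (norm_integral_le_of_norm_le (hen.const_mul _) hbd).trans ?_
  rw [integral_const_mul]
  have hsρ : s ≤ ρ := hs.s_le.trans (by
    calc ρ ^ 5 ≤ ρ ^ 1 := pow_le_pow_of_le_one hρ0.le (by linarith) (by norm_num)
      _ = ρ := pow_one ρ)
  have h3 : s ^ 3 / ρ ^ 3 ≤ 1 := (div_le_one (by positivity)).2 (pow_le_pow_left₀ hs0.le hsρ 3)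
  calc 12 * Ck / ρ ^ 3 * s ^ 2 * ‖v‖ * ∫ a, D.en a ∂D.m
      ≤ 12 * Ck / ρ ^ 3 * s ^ 2 * ‖v‖ * s ^ 4 :=
        mul_le_mul_of_nonneg_left hs.en_le (by positivity)
    _ = 12 * Ck * s ^ 3 * ‖v‖ * (s ^ 3 / ρ ^ 3) := by ring
    _ ≤ 12 * Ck * s ^ 3 * ‖v‖ * 1 := mul_le_mul_of_nonneg_left h3 (by positivity)
    _ ≤ (4 * Ck * |M| + 12 * Ck) * s ^ 3 * ‖v‖ := by
      have : 0 ≤ 4 * Ck * |M| * s ^ 3 * ‖v‖ := by positivity
      linarith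

end Pool.Agent.Lib.MP_8daebb_an.SV
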