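import Pool.Agent.Lib.MP_8daebb_an.SV.PhiA

/-! Second derivatives of the averaged positive part. -/

open MeasureTheory Metric Filter Topology Set
open scoped RealInnerProductSpace ENNReal ContDiff

namespace Pool.Agent.Lib.MP_8daebb_an.SV

variable {α : Type*} [MeasurableSpace α] {H : Type*} [NormedAddCommGroup H]
  [InnerProductSpace ℝ H] [FiniteDimensional ℝ H] [MeasurableSpace H] [BorelSpace H]

theorem bd_phib {m : Measure α} {F G : α → ℝ} (hF : Measurable F) (hG : Integrable G m) (K : ℝ)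
    (h : ∀ᵐ a ∂m, |F a| ≤ K * G a) : Integrable F m ∧ |∫ a, F a ∂m| ≤ K * ∫ a, G a ∂m := by
  refine ⟨(hG.const_mul K).mono' hF.aestronglyMeasurable h, ?_⟩
  rw [← integral_const_mul]
  exact norm_integral_le_of_norm_le (f := F) (hG.const_mul K) h

theorem sum4_phib {m : Measure α} {f1 f2 f3 f4 g : α → ℝ} (i1 : Integrable f1 m)
    (i2 : Integrable f2 m) (i3 : Integrable f3 m) (i4 : Integrable f4 m) (hg : ∫ a, g a ∂m = 0)
    (e : ∀ a, g a = f2 a + f3 a + f4 a - f1 a) :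
    ∫ a, f1 a ∂m = ∫ a, f2 a ∂m + ∫ a, f3 a ∂m + ∫ a, f4 a ∂m := by
  have j1 : Integrable (fun a => f2 a + f3 a) m := i2.add i3
  have j2 : Integrable (fun a => f2 a + f3 a + f4 a) m := j1.add i4
  simp only [e] at hg
  rw [integral_sub j2 i1, integral_add j1 i4, integral_add i2 i3] at hg
  linarith

theorem fd_phib {A : ℂ → ℝ} {B : ℝ → ℝ} (hA : Differentiable ℝ A) (hB : Differentiable ℝ B)
    (u : ℂ) (h : ℝ) (w : ℂ × ℝ) (v : ℂ) (ζ : ℝ) :
    fderiv ℝ (fun w : ℂ × ℝ => A (u - w.1) * B (w.2 - h)) w (v, ζ) =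
      -(fderiv ℝ A (u - w.1) v * B (w.2 - h)) + A (u - w.1) * deriv B (w.2 - h) * ζ := by
  have h1 : HasFDerivAt (fun w : ℂ × ℝ => A (u - w.1))
      ((fderiv ℝ A (u - w.1)).comp (-ContinuousLinearMap.fst ℝ ℂ ℝ)) w :=
    (hA _).hasFDerivAt.comp w ((hasFDerivAt_fst (p := w)).const_sub u)
  have h2 : HasFDerivAt (fun w : ℂ × ℝ => B (w.2 - h))
      (deriv B (w.2 - h) • ContinuousLinearMap.snd ℝ ℂ ℝ) w :=
    (hB _).hasDerivAt.comp_hasFDerivAt w ((hasFDerivAt_snd (p := w)).sub_const h)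
  rw [(h1.fun_mul h2).fderiv]
  simp
  ring

theorem fd2_phib {A : ℂ → ℝ} {B : ℝ → ℝ} (hA : Differentiable ℝ A) (hB : Differentiable ℝ B)
    (w : ℂ × ℝ) (v : ℂ) (ζ : ℝ) :
    fderiv ℝ (fun w : ℂ × ℝ => A w.1 * B (-w.2)) w (v, ζ) =
      fderiv ℝ A w.1 v * B (-w.2) - A w.1 * deriv B (-w.2) * ζ := by
  have h1 : HasFDerivAt (fun w : ℂ × ℝ => A w.1)
      ((fderiv ℝ A w.1).comp (ContinuousLinearMap.fst ℝ ℂ ℝ)) w :=
    (hA _).hasFDerivAt.comp w (hasFDerivAt_fst (p := w))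
  have h2 : HasFDerivAt (fun w : ℂ × ℝ => B (-w.2))
      (deriv B (-w.2) • -ContinuousLinearMap.snd ℝ ℂ ℝ) w :=
    (hB _).hasDerivAt.comp_hasFDerivAt w (hasFDerivAt_snd (p := w)).neg
  rw [(h1.fun_mul h2).fderiv]
  simp
  ring

theorem test_phib {A : ℂ → ℝ} {B : ℝ → ℝ} (hA : ContDiff ℝ 1 A) (hB : ContDiff ℝ 1 B) {ρ R : ℝ}
    (hρ : 0 < ρ) (hA0 : ∀ w : ℂ, ρ ≤ ‖w‖ → A w = 0) {u : ℂ} (hu : ‖u‖ + 2 * ρ ≤ R) (h : ℝ) :
    Test 0 R (fun w : ℂ × ℝ => A (u - w.1) * B (w.2 - h)) := by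
  refine ⟨((hA.comp (contDiff_const.sub contDiff_fst)).mul
    (hB.comp (contDiff_snd.sub contDiff_const))).contDiffOn, ‖u‖ + ρ, by linarith, fun w hw => ?_⟩
  rw [sub_zero] at hw
  have : ρ ≤ ‖u - w.1‖ := by
    rw [norm_sub_rev]
    linarith [norm_sub_norm_le w.1 u]
  simp only [hA0 _ this, zero_mul]

theorem meas_fd_phib {A : ℂ → ℝ} (hA : ContDiff ℝ 1 A) {X W : α → ℂ} (hX : Measurable X)
    (hW : Measurable W) : Measurable fun a => fderiv ℝ A (X a) (W a) := by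
  have hc : Continuous fun p : ℂ × ℂ => fderiv ℝ A p.1 p.2 :=
    ((hA.continuous_fderiv one_ne_zero).comp continuous_fst).clm_apply continuous_snd
  exact hc.measurable.comp (hX.prodMk hW)

theorem abs3_phib {a b c A B C : ℝ} (ha : |a| ≤ A) (hb : |b| ≤ B) (hc : |c| ≤ C) :
    |a * b * c| ≤ A * B * C := by
  rw [abs_mul, abs_mul]
  exact mul_le_mul (mul_le_mul ha hb (abs_nonneg _) ((abs_nonneg _).trans ha)) hc (abs_nonneg _)
    (mul_nonneg ((abs_nonneg _).trans ha) ((abs_nonneg _).trans hb))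

theorem absd_phib {T : ℂ →L[ℝ] ℝ} {v : ℂ} {b K V B : ℝ} (hT : ‖T‖ ≤ K) (hv : ‖v‖ ≤ V)
    (hb : |b| ≤ B) : |T v * b| ≤ K * B * V := by
  have h1 : |T v| ≤ K * V := (T.le_opNorm v).trans
    (mul_le_mul hT hv (norm_nonneg _) ((norm_nonneg _).trans hT))
  rw [abs_mul]
  refine (mul_le_mul h1 hb (abs_nonneg _) ((abs_nonneg _).trans h1)).trans (le_of_eq ?_)
  ring

/-- The horizontal identity with a product test function. -/
theorem hor_phib {D : CD α H} {R δ M s ρ : ℝ} (h : CV D 0 R δ M) (hδ : δ ≤ 1 / 2) (hs : Sm D s ρ)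
    {e : H} (he : ‖e‖ = 1) {A : ℂ → ℝ} {B : ℝ → ℝ} (hA : ContDiff ℝ 1 A) (hB : ContDiff ℝ 1 B)
    (hA0 : ∀ w : ℂ, ρ ≤ ‖w‖ → A w = 0) {K0 K1 KB KB' hh : ℝ} (h0 : ∀ w, |A w| ≤ K0)
    (h1 : ∀ w, ‖fderiv ℝ A w‖ ≤ K1) (hKB : 0 ≤ KB) (hb : ∀ᵐ a ∂D.m, |B (D.z e a - hh)| ≤ KB)
    (hb' : ∀ r, |deriv B r| ≤ KB') {u : ℂ} (hu : ‖u‖ + 2 * ρ ≤ R) {v : ℂ} (hv : ‖v‖ = 1) :
    Integrable (fun a => A (u - D.x a) * deriv B (D.z e a - hh) * ⟪D.p e a, v⟫) D.m ∧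
    |∫ a, fderiv ℝ A (u - D.x a) v * B (D.z e a - hh) ∂D.m -
      ∫ a, A (u - D.x a) * deriv B (D.z e a - hh) * ⟪D.p e a, v⟫ ∂D.m| ≤
        (2 * K1 + K0) * KB * s ^ 4 := by
  have := h.fin
  obtain ⟨mz, mp, -, -, -, -⟩ := h.meas_e e
  have mx : Measurable fun a => u - D.x a := measurable_const.sub h.m_x
  have mB : Measurable fun a => B (D.z e a - hh) := hB.continuous.measurable.comp (mz.sub_const _)
  have mB' : Measurable fun a => deriv B (D.z e a - hh) :=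
    (measurable_deriv B).comp (mz.sub_const _)
  have mA : Measurable fun a => A (u - D.x a) := hA.continuous.measurable.comp mx
  have mi : Measurable fun k : ℂ => ⟪k, v⟫ := (continuous_id.inner continuous_const).measurable
  have hen := h.integrable_t.2.2.2.1
  have hK0 : 0 ≤ K0 := (abs_nonneg _).trans (h0 0)
  have hK1 : 0 ≤ K1 := (norm_nonneg _).trans (h1 0)
  have ip : ∀ k : ℂ, |⟪k, v⟫| ≤ ‖k‖ := fun k => by
    have := abs_real_inner_le_norm k v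
    rwa [hv, mul_one] at this
  have i1 := (bd_phib (F := fun a => fderiv ℝ A (u - D.x a) v * B (D.z e a - hh))
    ((meas_fd_phib hA mx (measurable_const (a := v))).mul mB)
    (integrable_const (1 : ℝ)) (K1 * KB)
    (hb.mono fun a ha => absd_phib (h1 _) hv.le ha)).1
  have i2 := (bd_phib (F := fun a => A (u - D.x a) * deriv B (D.z e a - hh) * ⟪D.p e a, v⟫)
    ((mA.mul mB').mul (mi.comp mp)) (integrable_const (5 : ℝ)) (K0 * KB')
    (h.pw_av.mono fun a ha => abs3_phib (h0 _) (hb' _) ((ip _).trans (by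
      obtain ⟨-, -, a3, -, a5, -⟩ := ha.scal h.δ_nonneg hδ he
      exact abs_le_of_sq_le_sq' (by linarith) (by norm_num) |>.2)))).1
  have i3 := bd_phib (F := fun a => fderiv ℝ A (u - D.x a) (D.τ a v) * B (D.z e a - hh))
    ((meas_fd_phib hA mx (h.m_τ.apply_continuousLinearMap v)).mul mB) hen
    (2 * K1 * KB) (by
      filter_upwards [hb, h.pw_av] with a ha hp
      obtain ⟨-, -, -, a4, -⟩ := hp.scal h.δ_nonneg hδ he
      have b1 : ‖D.τ a v‖ ≤ 2 * D.en a := by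
        have := (D.τ a).le_opNorm v
        rw [hv, mul_one] at this
        linarith [hp.τ_le]
      exact (absd_phib (h1 _) b1 ha).trans (le_of_eq (by ring)))
  have i4 := bd_phib (F := fun a => A (u - D.x a) * B (D.z e a - hh) * ⟪D.eh a, v⟫)
    ((mA.mul mB).mul (mi.comp h.m_eh)) hen (K0 * KB) (by
      filter_upwards [hb, h.pw_av] with a ha hp
      exact abs3_phib (h0 _) ha ((ip _).trans
        (hp.scal h.δ_nonneg hδ he).2.2.2.2.2.2.2.2.2.2.2.2.1))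
  have id := h.hor_e e (test_phib hA hB hs.ρ_pos hA0 hu hh) v
  simp only [fd_phib (hA.differentiable one_ne_zero) (hB.differentiable one_ne_zero), map_sub]
    at id
  refine ⟨i2, ?_⟩
  rw [sum4_phib i1 i2 i3.1 i4.1 id fun a => by ring, add_assoc, add_sub_cancel_left]
  refine (abs_add_le _ _).trans ((add_le_add i3.2 i4.2).trans ?_)
  have := mul_le_mul_of_nonneg_left hs.en_le (show 0 ≤ (2 * K1 + K0) * KB by positivity)
  linarith

theorem d2_phib {D : CD α H} {c : ℂ} {R δ M : ℝ} (h : CV D c R δ M) (hδ : δ ≤ 1 / 2) {e : H}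
    (he : ‖e‖ = 1) (ρ : ℝ) {Ψ : ℝ → ℝ} (hΨ : ContDiff ℝ 2 Ψ) (u : ℂ) (hh : ℝ) (v : ℂ) :
    fderiv ℝ (fderiv ℝ (D.Phi e ρ Ψ)) (u, hh) (v, 0) (v, 0) =
      ∫ a, fderiv ℝ (fun x => fderiv ℝ (kr ρ) x v) (u - D.x a) v * Ψ (D.z e a - hh) ∂D.m ∧
    fderiv ℝ (fderiv ℝ (D.Phi e ρ Ψ)) (u, hh) (v, 0) (0, 1) =
      -∫ a, fderiv ℝ (kr ρ) (u - D.x a) v * deriv Ψ (D.z e a - hh) ∂D.m := by
  have := h.fin
  have k2 : ContDiff ℝ 2 (kr ρ) := contDiff_infty.1 (kr_contDiff ρ) 2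
  have k1 : Differentiable ℝ (kr ρ) := k2.differentiable two_ne_zero
  have k3 : Differentiable ℝ fun x => fderiv ℝ (kr ρ) x v :=
    ((k2.fderiv_right (m := 1) (by norm_num)).clm_apply contDiff_const).differentiable one_ne_zero
  have p1 : Differentiable ℝ Ψ := hΨ.differentiable two_ne_zero
  have p2 : Differentiable ℝ fun r => -deriv Ψ r := (hΨ.differentiable_deriv_two).neg
  have hg : ContDiff ℝ 2 fun w : ℂ × ℝ => kr ρ w.1 * Ψ (-w.2) :=
    (k2.comp contDiff_fst).mul (hΨ.comp contDiff_snd.neg)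
  have hY : Measurable fun a => (D.x a, D.z e a) := h.m_x.prodMk (h.meas_e e).1
  have hB : ∀ᵐ a ∂D.m, ‖(D.x a, D.z e a)‖ ≤ 2 := h.pw_av.mono fun a ha => by
    rw [Prod.norm_mk, max_le_iff]
    exact ⟨ha.x_le, (ha.scal h.δ_nonneg hδ he).1.trans (by linarith [ha.y_le])⟩
  have e0 : D.Phi e ρ Ψ = fun w : ℂ × ℝ => ∫ a, (fun w : ℂ × ℝ => kr ρ w.1 * Ψ (-w.2))
      (w - (D.x a, D.z e a)) • (1 : ℝ) ∂D.m := by
    funext w
    simp only [CD.Phi, Prod.fst_sub, Prod.snd_sub, neg_sub, smul_eq_mul, mul_one]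
  have e1 : (fun x : ℂ × ℝ => fderiv ℝ (fun w : ℂ × ℝ => kr ρ w.1 * Ψ (-w.2)) x (v, 0)) =
      fun x => (fun y => fderiv ℝ (kr ρ) y v) x.1 * Ψ (-x.2) := by
    funext x
    rw [fd2_phib k1 p1, mul_zero, sub_zero]
  have e2 : (fun x : ℂ × ℝ => fderiv ℝ (fun w : ℂ × ℝ => kr ρ w.1 * Ψ (-w.2)) x (0, 1)) =
      fun x => kr ρ x.1 * (fun r => -deriv Ψ r) (-x.2) := by
    funext x
    rw [fd2_phib k1 p1]
    simp
  rw [e0, conv_fderiv2 hY hB (integrable_const (1 : ℝ)) hg,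
    conv_fderiv2 hY hB (integrable_const (1 : ℝ)) hg, ← integral_neg]
  simp only [fderiv2_conv hg, e1, e2]
  constructor
  · refine integral_congr_ae (Eventually.of_forall fun a => ?_)
    simp only
    rw [fd2_phib k3 p1]
    simp
  · refine integral_congr_ae (Eventually.of_forall fun a => ?_)
    simp only
    rw [fd2_phib k1 p2]
    simp

theorem cs_phib {m : Measure α} {W P : α → ℝ} (h0 : ∀ a, 0 ≤ W a) (i0 : Integrable W m)
    (i1 : Integrable (fun a => W a * P a) m) (i2 : Integrable (fun a => W a * P a ^ 2) m)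
    {X ε : ℝ} (hX : |X - ∫ a, W a * P a ∂m| ≤ ε) :
    X ^ 2 ≤ (∫ a, W a ∂m + 1) * (∫ a, W a * P a ^ 2 ∂m + ε ^ 2) := by
  have ha : 0 ≤ ∫ a, W a ∂m := integral_nonneg h0
  have hq : ∀ l : ℝ, 0 ≤ (∫ a, W a ∂m) * (l * l) + -2 * (∫ a, W a * P a ∂m) * l +
      ∫ a, W a * P a ^ 2 ∂m := fun l => by
    have j1 : Integrable (fun a => W a * (l * l) + W a * P a * (-2 * l)) m :=
      (i0.mul_const _).add (i1.mul_const _)
    have e : (∫ a, W a ∂m) * (l * l) + -2 * (∫ a, W a * P a ∂m) * l + ∫ a, W a * P a ^ 2 ∂m =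
        ∫ a, (W a * (l * l) + W a * P a * (-2 * l) + W a * P a ^ 2) ∂m := by
      rw [integral_add j1 i2, integral_add (i0.mul_const _) (i1.mul_const _), integral_mul_const,
        integral_mul_const]
      ring
    rw [e]
    refine integral_nonneg fun a => ?_
    have := mul_nonneg (h0 a) (sq_nonneg (l - P a))
    simp only [Pi.zero_apply]
    linarith
  have hd := discrim_le_zero hq
  rw [discrim] at hd
  have h1 := hq (X - ∫ a, W a * P a ∂m)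
  have h2 : (X - ∫ a, W a * P a ∂m) ^ 2 ≤ ε ^ 2 := by
    rw [← sq_abs]
    exact pow_le_pow_left₀ (abs_nonneg _) hX 2
  have h3 := mul_le_mul_of_nonneg_left h2 (add_nonneg ha zero_le_one)
  nlinarith

theorem phi_two (M : ℝ) : ∃ C : ℝ, 0 < C ∧ ∀ (D : CD α H) (R δ s ρ η : ℝ) (e : H) (Ψ : ℝ → ℝ),
    CV D 0 R δ M → δ ≤ 1 / 2 → Sm D s ρ → ρ ≤ 1 / 2 → ‖e‖ = 1 → Stp Ψ η → s ^ 2 * ρ ≤ η →
    η ≤ s ^ 2 → ∀ (u : ℂ) (h : ℝ), ‖u‖ + 2 * ρ ≤ R → |h| ≤ 2 * s ^ 2 →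
    -(C * (s ^ 2 + D.av ρ (fun a => √(D.en a)) u)) ≤
      fderiv ℝ (fderiv ℝ (D.Phi e ρ Ψ)) (u, h) (1, 0) (1, 0) +
        fderiv ℝ (fderiv ℝ (D.Phi e ρ Ψ)) (u, h) (Complex.I, 0) (Complex.I, 0) -
        (fderiv ℝ (fderiv ℝ (D.Phi e ρ Ψ)) (u, h) (1, 0) (0, 1) ^ 2 +
          fderiv ℝ (fderiv ℝ (D.Phi e ρ Ψ)) (u, h) (Complex.I, 0) (0, 1) ^ 2) /
          (fderiv ℝ (fderiv ℝ (D.Phi e ρ Ψ)) (u, h) (0, 1) (0, 1) + 1) := by
  have hC : 0 < Ck := zero_lt_one.trans_le one_le_Ck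
  refine ⟨Ck * (29 + 9 * |M|) + 18 * Ck ^ 2 + 1, by positivity, ?_⟩
  intro D R δ s ρ η e Ψ h hδ hs hρ he hΨ hη hη' u hh hu hhh
  have := h.fin
  have r0 := hs.ρ_pos
  have s0 := hs.s_pos
  have η0 : 0 < η := lt_of_lt_of_le (by positivity) hη
  have r1 : ρ ≤ 1 := by linarith
  have s1 : s ≤ 1 := hs.s_le.trans (pow_le_one₀ r0.le r1)
  have s2 : s ^ 2 ≤ ρ ^ 4 := by
    calc s ^ 2 ≤ (ρ ^ 5) ^ 2 := pow_le_pow_left₀ s0.le hs.s_le 2
      _ = ρ ^ 10 := by ring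
      _ ≤ ρ ^ 4 := pow_le_pow_of_le_one r0.le r1 (by norm_num)
  obtain ⟨K, hK⟩ : ∃ K, K = Ck / ρ ^ 4 := ⟨_, rfl⟩
  have K0 : 0 < K := by rw [hK]; positivity
  have K1 : K * s ^ 2 ≤ Ck := by
    rw [hK, div_mul_eq_mul_div, div_le_iff₀ (by positivity)]
    exact mul_le_mul_of_nonneg_left s2 hC.le
  have K3 : Ck / ρ ^ 3 ≤ K := hK ▸ div_le_div_of_nonneg_left hC.le (by positivity)
    (pow_le_pow_of_le_one r0.le r1 (by norm_num))
  have K2 : Ck / ρ ^ 2 ≤ K := hK ▸ div_le_div_of_nonneg_left hC.le (by positivity)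
    (pow_le_pow_of_le_one r0.le r1 (by norm_num))
  have k2 : ContDiff ℝ 2 (kr ρ) := contDiff_infty.1 (kr_contDiff ρ) 2
  have k1 : ContDiff ℝ 1 (kr ρ) := k2.of_le one_le_two
  have kb0 : ∀ w, |kr ρ w| ≤ Ck / ρ ^ 2 := fun w => by
    rw [abs_of_nonneg (kr_nonneg _ _)]; exact (kr_le r0 w).1
  have kb1 : ∀ w, ‖fderiv ℝ (kr ρ) w‖ ≤ K := fun w => (kr_le r0 w).2.1.trans K3
  have p1 : ContDiff ℝ 1 Ψ := hΨ.smooth.of_le one_le_two
  have p2 : ContDiff ℝ 1 (deriv Ψ) := hΨ.smooth.deriv' (n := 1)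
  have f1 : ∀ r, |deriv Ψ r| ≤ 1 := fun r => by
    rw [abs_of_nonneg (hΨ.d1 r).1]; exact (hΨ.d1 r).2
  have f2 : ∀ r, |deriv (deriv Ψ) r| ≤ 1 / η := fun r => by
    rw [abs_of_nonneg (hΨ.d2 r).1]; exact (hΨ.d2 r).2
  have hpw := h.pw_av.mono fun a ha => ha.scal h.δ_nonneg hδ he
  have hb : ∀ᵐ a ∂D.m, |Ψ (D.z e a - hh)| ≤ 4 * s ^ 2 := by
    filter_upwards [hpw, hs.y_le] with a ha hy
    have := abs_sub (D.z e a) hh
    linarith [hΨ.size (D.z e a - hh), ha.1]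
  obtain ⟨mz, mp, -, mq, mg, men⟩ := h.meas_e e
  have mx : Measurable fun a => u - D.x a := measurable_const.sub h.m_x
  have mk : Measurable fun a => kr ρ (u - D.x a) := (kr_meas_av ρ).comp mx
  have mf : Measurable fun a => deriv Ψ (D.z e a - hh) := (measurable_deriv Ψ).comp (mz.sub_const _)
  have mf' : Measurable fun a => deriv (deriv Ψ) (D.z e a - hh) :=
    (measurable_deriv _).comp (mz.sub_const _)
  have mi : ∀ v : ℂ, Measurable fun k : ℂ => ⟪k, v⟫ := fun v =>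
    (continuous_id.inner continuous_const).measurable
  have hen := h.integrable_t.2.2.2.1
  have hsq := h.integrable_t.2.2.2.2.1
  have w0 : ∀ a, 0 ≤ kr ρ (u - D.x a) * deriv (deriv Ψ) (D.z e a - hh) := fun a =>
    mul_nonneg (kr_nonneg _ _) (hΨ.d2 _).1
  have iw : Integrable (fun a => kr ρ (u - D.x a) * deriv (deriv Ψ) (D.z e a - hh)) D.m := by
    refine (bd_phib (mk.mul mf') (integrable_const (1 : ℝ)) (Ck / ρ ^ 2 * (1 / η))
      (Eventually.of_forall fun a => ?_)).1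
    have := abs3_phib (kb0 (u - D.x a)) (f2 (D.z e a - hh)) (abs_one (α := ℝ)).le
    rwa [mul_one] at this
  -- first step
  have T1 : ∀ v : ℂ, ‖v‖ = 1 →
      Integrable (fun a => fderiv ℝ (kr ρ) (u - D.x a) v * deriv Ψ (D.z e a - hh) *
        ⟪D.p e a, v⟫) D.m ∧
      ∫ a, fderiv ℝ (kr ρ) (u - D.x a) v * deriv Ψ (D.z e a - hh) * ⟪D.p e a, v⟫ ∂D.m -
        12 * Ck * s ^ 2 ≤ fderiv ℝ (fderiv ℝ (D.Phi e ρ Ψ)) (u, hh) (v, 0) (v, 0) := fun v hv => by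
    obtain ⟨a1, a2⟩ := hor_phib h hδ hs he (A := fun x => fderiv ℝ (kr ρ) x v)
      ((k2.fderiv_right (m := 1) (by norm_num)).clm_apply contDiff_const) p1
      (fun w hw => by simp [(kr_zero r0 hw).2.1]) (K0 := K) (K1 := K)
      (fun w => by
        have := (fderiv ℝ (kr ρ) w).le_opNorm v
        rw [hv, mul_one] at this
        exact this.trans (kb1 w))
      (fun w => ContinuousLinearMap.opNorm_le_bound _ K0.le fun v' => by
        rw [← fderiv2_conv k2]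
        have := (fderiv ℝ (fderiv ℝ (kr ρ)) w).le_opNorm₂ v' v
        rw [hv, mul_one] at this
        exact this.trans (mul_le_mul_of_nonneg_right (hK ▸ (kr_le r0 w).2.2) (norm_nonneg _)))
      (by positivity) hb f1 hu hv
    refine ⟨a1, ?_⟩
    rw [(d2_phib h hδ he ρ hΨ.smooth u hh v).1]
    have b1 : (2 * K + K) * (4 * s ^ 2) * s ^ 4 ≤ 12 * Ck * s ^ 2 := by
      have c1 : s ^ 4 ≤ s ^ 2 := pow_le_pow_of_le_one s0.le s1 (by norm_num)
      have := mul_le_mul K1 c1 (by positivity) hC.le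
      linarith
    linarith [(abs_le.1 a2).1]
  -- mixed derivatives
  have T5 : ∀ v : ℂ, ‖v‖ = 1 →
      Integrable (fun a => kr ρ (u - D.x a) * deriv (deriv Ψ) (D.z e a - hh) *
        ⟪D.p e a, v⟫ ^ 2) D.m ∧
      fderiv ℝ (fderiv ℝ (D.Phi e ρ Ψ)) (u, hh) (v, 0) (0, 1) ^ 2 ≤
        (∫ a, kr ρ (u - D.x a) * deriv (deriv Ψ) (D.z e a - hh) ∂D.m + 1) *
          (∫ a, kr ρ (u - D.x a) * deriv (deriv Ψ) (D.z e a - hh) * ⟪D.p e a, v⟫ ^ 2 ∂D.m +
            9 * Ck ^ 2 * s ^ 2) := fun v hv => by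
    obtain ⟨a1, a2⟩ := hor_phib h hδ hs he k1 p2 (fun w hw => (kr_zero r0 hw).1) (K0 := K)
      (K1 := K) (hh := hh) (fun w => (kb0 w).trans K2) kb1 zero_le_one
      (Eventually.of_forall fun a => f1 _) f2 hu hv
    have a3 : Integrable (fun a => kr ρ (u - D.x a) * deriv (deriv Ψ) (D.z e a - hh) *
        ⟪D.p e a, v⟫ ^ 2) D.m :=
      (bd_phib ((mk.mul mf').mul (((mi v).comp mp).pow_const 2)) (hen.const_mul 8)
        (Ck / ρ ^ 2 * (1 / η)) (hpw.mono fun a ha => abs3_phib (kb0 _) (f2 _) (by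
          have c1 := abs_real_inner_le_norm (D.p e a) v
          rw [hv, mul_one] at c1
          rw [abs_pow]
          exact (pow_le_pow_left₀ (abs_nonneg _) c1 2).trans ha.2.2.2.2.1))).1
    refine ⟨a3, ?_⟩
    rw [(d2_phib h hδ he ρ hΨ.smooth u hh v).2, neg_sq]
    refine (cs_phib w0 iw a1 a3 a2).trans (mul_le_mul_of_nonneg_left ?_
      (add_nonneg (integral_nonneg w0) zero_le_one))
    have b1 : (2 * K + K) * 1 * s ^ 4 ≤ 3 * Ck * s := by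
      have c1 : s ^ 2 ≤ s := by nlinarith
      have := mul_le_mul K1 c1 (by positivity) hC.le
      linarith
    have := pow_le_pow_left₀ (by positivity) b1 2
    linarith
  -- the vertical identity
  have i1 := bd_phib (F := fun a => fderiv ℝ (kr ρ) (u - D.x a) (D.q a e - D.p e a) *
      deriv Ψ (D.z e a - hh)) ((meas_fd_phib k1 mx (mq.sub mp)).mul mf)
    (hen.add (integrable_const (s ^ 4))) (K * 1) (by
      filter_upwards [hpw, hs.y_le] with a ha hy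
      refine absd_phib (kb1 _) (ha.2.2.2.2.2.1.trans ?_) (f1 _)
      have c1 := Real.sq_sqrt ha.2.1
      have c2 := mul_le_mul_of_nonneg_right hy (Real.sqrt_nonneg (D.en a))
      simp only [Pi.add_apply]
      nlinarith [sq_nonneg (√(D.en a) - s ^ 2)])
  have i2 := bd_phib (F := fun a => kr ρ (u - D.x a) * deriv (deriv Ψ) (D.z e a - hh) *
      ⟪D.g a e, e⟫) ((mk.mul mf').mul mg) (hen.const_mul 4) (Ck / ρ ^ 2 * (1 / η))
    (hpw.mono fun a ha => abs3_phib (kb0 _) (f2 _) (by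
      rw [abs_of_nonneg ha.2.2.2.2.2.2.1]; exact ha.2.2.2.2.2.2.2.1))
  have i3 := bd_phib (F := fun a => kr ρ (u - D.x a) * deriv Ψ (D.z e a - hh) * ⟪D.L a, e⟫)
    ((mk.mul mf).mul ((continuous_id.inner continuous_const).measurable.comp h.m_L))
    (h.int_av r0 hsq u) 1 (hpw.mono fun a ha => by
      refine (abs3_phib (abs_of_nonneg (kr_nonneg ρ (u - D.x a))).le (f1 _)
        ha.2.2.2.2.2.2.2.2.2.2.2.1).trans (le_of_eq ?_)
      rw [smul_eq_mul]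
      ring)
  have id := h.ver_e e (test_phib k1 p2 r0 (fun w hw => (kr_zero r0 hw).1) hu hh)
  simp only [fd_phib (k1.differentiable one_ne_zero) (p2.differentiable one_ne_zero)] at id
  obtain ⟨j1, t1⟩ := T1 1 norm_one
  obtain ⟨j2, t2⟩ := T1 Complex.I Complex.norm_I
  obtain ⟨j5, t5⟩ := T5 1 norm_one
  obtain ⟨j6, t6⟩ := T5 Complex.I Complex.norm_I
  have q1 : ∀ v : ℂ, ⟪v, (1 : ℂ)⟫ = v.re := fun v => by simp [Complex.inner]
  have q2 : ∀ v : ℂ, ⟪v, Complex.I⟫ = v.im := fun v => by simp [Complex.inner]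
  have j12 : Integrable (fun a => fderiv ℝ (kr ρ) (u - D.x a) 1 * deriv Ψ (D.z e a - hh) *
      ⟪D.p e a, (1 : ℂ)⟫ + fderiv ℝ (kr ρ) (u - D.x a) Complex.I * deriv Ψ (D.z e a - hh) *
        ⟪D.p e a, Complex.I⟫) D.m := j1.add j2
  have e1 := sum4_phib j12 i2.1 i3.1 i1.1.neg id fun a => by
    have c1 : D.p e a = (D.p e a).re • (1 : ℂ) + (D.p e a).im • Complex.I := by
      apply Complex.ext <;> simp
    have c2 : fderiv ℝ (kr ρ) (u - D.x a) (D.p e a) =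
        (D.p e a).re * fderiv ℝ (kr ρ) (u - D.x a) 1 +
          (D.p e a).im * fderiv ℝ (kr ρ) (u - D.x a) Complex.I := by
      conv_lhs => rw [c1, map_add, map_smul, map_smul, smul_eq_mul, smul_eq_mul]
    simp only [Pi.neg_apply, map_sub, c2, q1, q2]
    ring
  simp only [Pi.neg_apply] at e1
  rw [integral_add j1 j2, integral_neg] at e1
  have t3 : ∫ a, fderiv ℝ (kr ρ) (u - D.x a) (D.q a e - D.p e a) * deriv Ψ (D.z e a - hh) ∂D.m ≤
      Ck * (1 + 9 * |M|) * s ^ 2 := by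
    refine (le_abs_self _).trans (i1.2.trans ?_)
    simp only [Pi.add_apply]
    rw [integral_add hen (integrable_const _), integral_const, smul_eq_mul]
    have c1 := mul_le_mul_of_nonneg_right ((h.mass_le (by linarith)).trans
      (mul_le_mul_of_nonneg_left (le_abs_self M) (by norm_num))) (show 0 ≤ s ^ 4 by positivity)
    have c2 := mul_le_mul_of_nonneg_left (add_le_add hs.en_le c1) K0.le
    have c3 := mul_le_mul_of_nonneg_right K1 (show 0 ≤ (1 + 9 * |M|) * s ^ 2 by positivity)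
    nlinarith
  have t4 := (abs_le.1 i3.2).1
  rw [one_mul] at t4
  have t7 : s ^ 2 * ∫ a, kr ρ (u - D.x a) * deriv (deriv Ψ) (D.z e a - hh) * ⟪D.g a e, e⟫ ∂D.m ≤
      4 * Ck * s ^ 2 := by
    have c0 := (le_abs_self _).trans i2.2
    rw [integral_const_mul] at c0
    have c1 : s ^ 2 * (Ck / ρ ^ 2 * (1 / η)) ≤ K := by
      refine le_trans ?_ K3
      calc s ^ 2 * (Ck / ρ ^ 2 * (1 / η)) = Ck / ρ ^ 3 * (s ^ 2 * ρ / η) := by field_simp
        _ ≤ Ck / ρ ^ 3 * 1 := mul_le_mul_of_nonneg_left ((div_le_one η0).2 hη) (by positivity)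
        _ = _ := mul_one _
    have c2 := mul_le_mul c1 hs.en_le (integral_nonneg_of_ae (hpw.mono fun a ha => ha.2.1)) K0.le
    have c3 := mul_le_mul_of_nonneg_left c0 (sq_nonneg s)
    have c4 := mul_le_mul_of_nonneg_right K1 (sq_nonneg s)
    nlinarith
  have t8 : ∫ a, kr ρ (u - D.x a) * deriv (deriv Ψ) (D.z e a - hh) * ⟪D.p e a, (1 : ℂ)⟫ ^ 2 ∂D.m +
      ∫ a, kr ρ (u - D.x a) * deriv (deriv Ψ) (D.z e a - hh) * ⟪D.p e a, Complex.I⟫ ^ 2 ∂D.m ≤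
      (1 + s ^ 2) *
        ∫ a, kr ρ (u - D.x a) * deriv (deriv Ψ) (D.z e a - hh) * ⟪D.g a e, e⟫ ∂D.m := by
    rw [← integral_add j5 j6, ← integral_const_mul]
    refine integral_mono_ae (j5.add j6) (i2.1.const_mul _) ?_
    filter_upwards [hpw, hs.y_le] with a ha hy
    have c1 : ⟪D.p e a, (1 : ℂ)⟫ ^ 2 + ⟪D.p e a, Complex.I⟫ ^ 2 ≤ (1 + s ^ 2) * ⟪D.g a e, e⟫ := by
      rw [q1, q2]
      have c2 := ha.2.2.2.2.2.2.2.2.1
      rw [Complex.sq_norm, Complex.normSq_apply] at c2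
      have c3 := mul_le_mul_of_nonneg_right hy ha.2.2.2.2.2.2.1
      nlinarith
    have := mul_le_mul_of_nonneg_left c1 (w0 a)
    linarith
  have e2 : fderiv ℝ (fderiv ℝ (D.Phi e ρ Ψ)) (u, hh) (0, 1) (0, 1) =
      ∫ a, kr ρ (u - D.x a) * deriv (deriv Ψ) (D.z e a - hh) ∂D.m :=
    (phi_one (α := α) (H := H) M).choose_spec.2 D R δ s ρ η e Ψ h hδ hs hρ he hΨ η0 hη' |>.2.2.1
      (u, hh)
  have a0 : 0 < ∫ a, kr ρ (u - D.x a) * deriv (deriv Ψ) (D.z e a - hh) ∂D.m + 1 :=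
    add_pos_of_nonneg_of_pos (integral_nonneg w0) one_pos
  have t9 := (div_le_iff₀' a0).2 ((add_le_add t5 t6).trans (mul_add _ _ _).ge)
  have v0 : 0 ≤ D.av ρ (fun a => √(D.en a)) u :=
    integral_nonneg fun a => mul_nonneg (kr_nonneg _ _) (Real.sqrt_nonneg _)
  have v1 := mul_nonneg (show 0 ≤ Ck * (29 + 9 * |M|) + 18 * Ck ^ 2 by positivity) v0
  have v2 : 0 ≤ Ck * s ^ 2 := by positivity
  rw [e2]
  unfold CD.av at v0 v1 ⊢
  nlinarith [sq_nonneg s]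

end Pool.Agent.Lib.MP_8daebb_an.SV
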