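import Pool.Agent.Lib.MP_8daebb_an.SV.Df2
import Pool.Agent.Lib.MP_8daebb_an.SV.Id
import Pool.Agent.Lib.MP_8daebb_an.SV.Base3
import Pool.Agent.Lib.MP_8daebb_an.SV.IBP
import Pool.Agent.Lib.MP_8daebb_an.SV.Id2
import Pool.Agent.Lib.MP_8daebb_an.SV.Base2

/-! The defect tested with a divergence. -/

open MeasureTheory Metric Filter Topology Set
open scoped RealInnerProductSpace ENNReal ContDiff

namespace Pool.Agent.Lib.MP_8daebb_an.SV

variable {α : Type*} [MeasurableSpace α] {H : Type*} [NormedAddCommGroup H]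
  [InnerProductSpace ℝ H] [FiniteDimensional ℝ H] [MeasurableSpace H] [BorelSpace H]

theorem continuous_tr2_sa : Continuous tr2 := by
  unfold tr2
  fun_prop

theorem CV.int_cont_sa {D : CD α H} {c : ℂ} {R δ M : ℝ} (h : CV D c R δ M)
    (F : ℂ × (ℂ →L[ℝ] ℂ) × ℂ → ℝ) (hF : Continuous F) :
    Integrable (fun a => F (D.x a, D.τ a, D.eh a)) D.m :=
  h.integrable_cont_id (fun p => F (p.1.1, p.2.1, p.2.2.2.2.2.2)) (by fun_prop)

theorem CV.int_t_sa {D : CD α H} {c : ℂ} {R δ M : ℝ} (h : CV D c R δ M) {ζ : ℂ → ℝ}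
    (hζ : Continuous ζ) : Integrable (fun a => ζ (D.x a) * D.t a) D.m := by
  have := h.int_cont_sa (fun p => ζ p.1 * tr2 p.2.1)
    ((hζ.comp continuous_fst).mul (continuous_tr2_sa.comp (continuous_fst.comp continuous_snd)))
  refine this.congr ?_
  filter_upwards [h.ae_G] with a ha
  simp only [(h.pw a ha).tr_τ]

theorem CV.int_w_sa {D : CD α H} {c : ℂ} {R δ M : ℝ} (h : CV D c R δ M) {g : α → ℝ}
    (hg : Integrable g D.m) : Integrable (fun a => D.w (D.x a) * g a) D.m := by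
  refine hg.bdd_mul (c := 1 + δ) (h.m_w.comp h.m_x).aestronglyMeasurable ?_
  filter_upwards [h.car] with a ha
  have := abs_le.1 (h.w_le _ ha).1
  rw [Real.norm_eq_abs, abs_le]
  constructor <;> linarith [h.δ_nonneg]

theorem CV.int_sd_sa {D : CD α H} {c : ℂ} {R δ M : ℝ} (h : CV D c R δ M) {ζ : ℂ → ℝ}
    (hζ : Continuous ζ) :
    Integrable (fun a => D.w (D.x a) * ζ (D.x a) * (1 - D.t a / 2)) D.m := by
  have i1 : Integrable (fun a => ζ (D.x a)) D.m :=
    h.int_cont_sa (fun p => ζ p.1) (hζ.comp continuous_fst)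
  have i2 := h.int_w_sa (i1.sub ((h.int_t_sa hζ).div_const 2))
  refine i2.congr (Eventually.of_forall fun a => ?_)
  simp only [Pi.sub_apply]
  ring

theorem CV.int_wu_sa {D : CD α H} {R δ M : ℝ} (h : CV D 0 R δ M) {ζ : ℂ → ℝ}
    (hζ : Continuous ζ) (h0 : ∀ u : ℂ, R ≤ ‖u‖ → ζ u = 0) :
    Integrable (fun u => D.w u * ζ u) := by
  have hc : HasCompactSupport ζ := by
    refine HasCompactSupport.intro (isCompact_closedBall (0 : ℂ) R) fun u hu => h0 u ?_
    rw [mem_closedBall, dist_zero_right, not_le] at hu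
    exact hu.le
  have i1 : Integrable ζ := hζ.integrable_of_hasCompactSupport hc
  refine (i1.norm.const_mul (1 + δ)).mono'
    (h.m_w.mul hζ.measurable).aestronglyMeasurable (Eventually.of_forall fun u => ?_)
  by_cases hu : ‖u‖ < R
  · have := abs_le.1 (h.w_le u (by simpa using hu)).1
    rw [norm_mul]
    refine mul_le_mul_of_nonneg_right ?_ (norm_nonneg _)
    rw [Real.norm_eq_abs, abs_le]
    constructor <;> linarith [h.δ_nonneg]
  · simp [h0 u (not_lt.1 hu)]

theorem tr2_comp_sa {κ : ℂ → ℝ} {W : ℂ → ℂ} {u : ℂ} (hκ : DifferentiableAt ℝ κ u)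
    (hW : DifferentiableAt ℝ W u) (τ : ℂ →L[ℝ] ℂ) : tr2 ((fderiv ℝ (κ • W) u).comp τ) =
      κ u * tr2 ((fderiv ℝ W u).comp τ) + fderiv ℝ κ u (τ (W u)) := by
  rw [fderiv_smul hκ hW, lin_apply τ (W u), map_add, map_smul, map_smul]
  simp [tr2]
  ring

theorem sd_div (M : ℝ) {CI : ℝ} (hCI : 0 ≤ CI) (Q : ℕ) : ∃ C : ℝ, 0 < C ∧
    ∀ (D : CD α H) (R δ s ρ R' S : ℝ) (N : ℂ → ℕ) (W : ℂ → ℂ), MS D R δ M s ρ CI Q N →
    δ ≤ 1 / 2 → ContDiff ℝ 1 W → (∀ u, ‖W u‖ ≤ S) → (∀ u : ℂ, R' ≤ ‖u‖ → W u = 0) →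
    R' + 9 * ρ ≤ R →
    |D.Sd Q (fun u => tr2 (fderiv ℝ W u)) - D.Hopf W| ≤ C * S * s ^ 4 := by
  refine ⟨128 * CI + 4, by positivity, ?_⟩
  intro D R δ s ρ R' S N W hMS hδ hW hS h0 hR
  have h := hMS.cv
  have hρ := hMS.sm.ρ_pos
  have hδ0 := h.δ_nonneg
  have hR' : R' < R := by linarith
  have hS0 : 0 ≤ S := (norm_nonneg _).trans (hS 0)
  haveI := h.fin
  have hWd : ∀ u, DifferentiableAt ℝ W u := hW.differentiable one_ne_zero
  have hwd : ∀ u ∈ ball (0 : ℂ) R, ContDiffAt ℝ 1 D.w u := fun u hu =>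
    h.w_diff.contDiffAt (isOpen_ball.mem_nhds hu)
  have hloc : ∀ u : ℂ, R' < ‖u‖ → W =ᶠ[𝓝 u] fun _ => 0 := fun u hu => by
    filter_upwards [(isOpen_lt continuous_const continuous_norm).mem_nhds hu] with v hv
    exact h0 v (le_of_lt hv)
  have hZloc : ∀ u : ℂ, R' < ‖u‖ → (D.w • W) =ᶠ[𝓝 u] fun _ => 0 := fun u hu => by
    filter_upwards [hloc u hu] with v hv
    simp [hv]
  have hZ : ContDiff ℝ 1 (D.w • W) := by
    rw [contDiff_iff_contDiffAt]
    intro u
    by_cases hu : ‖u‖ < R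
    · exact (hwd u (by simpa using hu)).smul hW.contDiffAt
    · exact contDiffAt_const.congr_of_eventuallyEq (hZloc u (by linarith [not_lt.1 hu]))
  have hZ0 : ∀ u : ℂ, R' ≤ ‖u - 0‖ → (D.w • W) u = 0 := fun u hu => by
    simp [h0 u (by simpa using hu)]
  have hZc : HasCompactSupport (D.w • W) := by
    refine HasCompactSupport.intro (isCompact_closedBall (0 : ℂ) R) fun u hu => hZ0 u ?_
    rw [mem_closedBall, dist_zero_right, not_le] at hu
    rw [sub_zero]
    linarith
  have cW : Continuous fun u => fderiv ℝ W u := hW.continuous_fderiv one_ne_zero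
  have cZ : Continuous fun u => fderiv ℝ (D.w • W) u := hZ.continuous_fderiv one_ne_zero
  have ctr : Continuous fun u => tr2 (fderiv ℝ W u) := continuous_tr2_sa.comp cW
  set f : ℂ → ℝ := fun u => fderiv ℝ D.w u (W u) with hf
  have hfe : ∀ u, f u = tr2 (fderiv ℝ (D.w • W) u) - D.w u * tr2 (fderiv ℝ W u) := fun u => by
    by_cases hu : ‖u‖ < R
    · rw [tr2_smul ((hwd u (by simpa using hu)).differentiableAt one_ne_zero) (hWd u)]
      ring
    · have hu' : R' < ‖u‖ := by linarith [not_lt.1 hu]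
      rw [(hZloc u hu').fderiv_eq, (hloc u hu').fderiv_eq]
      simp [hf, tr2, h0 u hu'.le]
  have hfm : Measurable f := by
    rw [show f = fun u => tr2 (fderiv ℝ (D.w • W) u) - D.w u * tr2 (fderiv ℝ W u) from funext hfe]
    exact (continuous_tr2_sa.comp cZ).measurable.sub (h.m_w.mul ctr.measurable)
  have hfb : ∀ u, |f u| ≤ S / 2 := fun u => by
    by_cases hu : ‖u‖ < R
    · have a1 := (h.w_le u (by simpa using hu)).2
      have a2 := (fderiv ℝ D.w u).le_opNorm (W u)
      rw [Real.norm_eq_abs] at a2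
      refine a2.trans ?_
      have := mul_le_mul (a1.trans hδ) (hS u) (norm_nonneg _) (by norm_num)
      linarith
    · have hu' : R' ≤ ‖u‖ := by linarith [not_lt.1 hu]
      simp only [hf, h0 u hu', map_zero, abs_zero]
      linarith
  have itr : Integrable fun u => D.w u * tr2 (fderiv ℝ W u) := by
    refine h.int_wu_sa ctr fun u hu => ?_
    rw [(hloc u (by linarith)).fderiv_eq]
    simp [tr2]
  obtain ⟨iZ, eZ⟩ := integral_tr2_zero hZ hZc
  have if1 : Integrable f := by
    rw [show f = fun u => tr2 (fderiv ℝ (D.w • W) u) - D.w u * tr2 (fderiv ℝ W u) from funext hfe]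
    exact iZ.sub itr
  have e1 : ∫ u, D.w u * tr2 (fderiv ℝ W u) = -∫ u, f u := by
    simp only [hfe]
    rw [integral_sub iZ itr, eZ]
    ring
  obtain ⟨iN, eN⟩ := hMS.mq.mult.integral h hfm hfb
  obtain ⟨iQ, bQ⟩ := hMS.mq.weight h hρ hCI (f := f) (F := fun _ => S) hfm measurable_const
    (B := S) (fun _ => hS0) (fun _ => le_rfl)
    (fun v hv => by
      have : ‖v‖ < R' := by
        by_contra hc
        exact hv (by simp [hf, h0 v (not_lt.1 hc)])
      rw [sub_zero]
      linarith)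
    (fun v _ _ => by linarith [hfb v])
  obtain ⟨it, it2, iy, ien, -, -⟩ := h.integrable_t
  have hen := hMS.sm.en_le
  have b1 : ∫ a, S * D.t a ^ 2 ∂D.m ≤ 2 * S * s ^ 4 := by
    have : ∫ a, S * D.t a ^ 2 ∂D.m ≤ ∫ a, 2 * S * D.en a ∂D.m := by
      refine integral_mono_ae (it2.const_mul _) (ien.const_mul _) ?_
      filter_upwards [h.ae_G] with a ha
      have p := h.pw a ha
      have : D.t a ^ 2 ≤ 2 * D.en a := by
        unfold CD.en
        nlinarith [p.t_nonneg, p.t_le, sq_nonneg ‖D.y a‖]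
      nlinarith
    rw [integral_const_mul (2 * S)] at this
    exact this.trans (mul_le_mul_of_nonneg_left hen (by positivity))
  have b2 : |∫ u, f u * ((N u : ℝ) - Q)| ≤ 128 * CI * S * s ^ 4 := by
    refine (abs_integral_le_integral_abs).trans ?_
    simp only [abs_mul]
    refine bQ.trans ?_
    have := mul_le_mul_of_nonneg_left b1 (show 0 ≤ 64 * CI by positivity)
    linarith
  have e2 : ∫ u, f u * ((N u : ℝ) - Q) = (∫ u, f u * (N u : ℝ)) - Q * ∫ u, f u := by
    simp only [mul_sub]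
    rw [integral_sub iN (if1.mul_const _), integral_mul_const]
    ring
  have i1 := h.int_sd_sa ctr
  have i2 : Integrable (fun a => D.w (D.x a) * (tr2 ((fderiv ℝ W (D.x a)).comp (D.τ a)) -
      D.t a / 2 * tr2 (fderiv ℝ W (D.x a)))) D.m := by
    have j1 := h.int_cont_sa (fun p => tr2 ((fderiv ℝ W p.1).comp p.2.1))
      (continuous_tr2_sa.comp ((cW.comp continuous_fst).clm_comp
        (continuous_fst.comp continuous_snd)))
    refine (h.int_w_sa (j1.sub ((h.int_t_sa ctr).div_const 2))).congr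
      (Eventually.of_forall fun a => ?_)
    simp only [Pi.sub_apply]
    ring
  have i3 : Integrable (fun a => tr2 (fderiv ℝ (D.w • W) (D.x a)) -
      tr2 ((fderiv ℝ (D.w • W) (D.x a)).comp (D.τ a)) + ⟪D.eh a, (D.w • W) (D.x a)⟫) D.m :=
    h.int_cont_sa (fun p => tr2 (fderiv ℝ (D.w • W) p.1) -
      tr2 ((fderiv ℝ (D.w • W) p.1).comp p.2.1) + ⟪p.2.2, (D.w • W) p.1⟫)
      (((continuous_tr2_sa.comp (cZ.comp continuous_fst)).sub
        (continuous_tr2_sa.comp ((cZ.comp continuous_fst).clm_comp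
          (continuous_fst.comp continuous_snd)))).add
        ((continuous_snd.comp continuous_snd).inner (hZ.continuous.comp continuous_fst)))
  have e3 := h.hor_field hZ.contDiffOn hR' hZ0
  have i4 : Integrable (fun a => f (D.x a) * D.j a) D.m :=
    h.integrable_j_base2.bdd_mul (c := S / 2) (hfm.comp h.m_x).aestronglyMeasurable
      (Eventually.of_forall fun a => hfb _)
  have i12 := i1.sub' i2
  have i123 := i12.sub' i3
  have iE := i123.fun_add i4
  have b3 : |∫ a, (D.w (D.x a) * tr2 (fderiv ℝ W (D.x a)) * (1 - D.t a / 2) -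
      D.w (D.x a) * (tr2 ((fderiv ℝ W (D.x a)).comp (D.τ a)) -
        D.t a / 2 * tr2 (fderiv ℝ W (D.x a))) -
      (tr2 (fderiv ℝ (D.w • W) (D.x a)) - tr2 ((fderiv ℝ (D.w • W) (D.x a)).comp (D.τ a)) +
        ⟪D.eh a, (D.w • W) (D.x a)⟫) + f (D.x a) * D.j a) ∂D.m| ≤ 4 * S * s ^ 4 := by
    refine (abs_integral_le_integral_abs).trans ?_
    refine le_trans (integral_mono_ae iE.abs (ien.const_mul (4 * S)) ?_) ?_
    · filter_upwards [h.ae_G, h.car] with a ha hx
      have p := h.pw a ha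
      have hd := (hwd _ hx).differentiableAt one_ne_zero
      obtain ⟨w1, w2⟩ := h.w_le _ hx
      have t0 := p.t_nonneg
      have y0 := sq_nonneg ‖D.y a‖
      have en0 : 0 ≤ D.en a := add_nonneg t0 y0
      have c1 : |1 - D.j a| ≤ 2 * D.en a := by
        have q := abs_le.1 p.j_t
        have q2 : D.t a ^ 2 ≤ 2 * D.t a := by nlinarith [p.t_le]
        have q3 : δ * ‖D.y a‖ ^ 2 ≤ ‖D.y a‖ ^ 2 := by nlinarith
        unfold CD.en
        rw [abs_le]
        constructor <;> linarith [q.1, q.2]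
      have c2 : |f (D.x a) * (1 - D.j a)| ≤ S * D.en a := by
        rw [abs_mul]
        have := mul_le_mul (hfb (D.x a)) c1 (abs_nonneg _) (by positivity)
        linarith
      have c3 : |fderiv ℝ D.w (D.x a) (D.τ a (W (D.x a)))| ≤ S * D.en a := by
        have a2 := (fderiv ℝ D.w (D.x a)).le_opNorm (D.τ a (W (D.x a)))
        have a3 := (D.τ a).le_opNorm (W (D.x a))
        have a4 := mul_le_mul p.τ_le (hS (D.x a)) (norm_nonneg _) (by positivity)
        have a5 := mul_le_mul (w2.trans hδ) (a3.trans a4) (norm_nonneg _) (by norm_num)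
        rw [Real.norm_eq_abs] at a2
        have : D.t a * S ≤ D.en a * S :=
          mul_le_mul_of_nonneg_right (by unfold CD.en; linarith) hS0
        linarith
      have c4 : |⟪D.eh a, (D.w • W) (D.x a)⟫| ≤ 2 * S * D.en a := by
        refine (abs_real_inner_le_norm _ _).trans ?_
        have a1 : ‖D.eh a‖ ≤ D.en a := by
          refine p.eh_le.trans ?_
          change δ * D.en a ≤ D.en a
          nlinarith
        have a2 : ‖(D.w • W) (D.x a)‖ ≤ 2 * S := by
          rw [Pi.smul_apply', norm_smul]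
          refine mul_le_mul ?_ (hS _) (norm_nonneg _) (by norm_num)
          have := abs_le.1 w1
          rw [Real.norm_eq_abs, abs_le]
          constructor <;> linarith
        have := mul_le_mul a1 a2 (norm_nonneg _) en0
        linarith
      rw [tr2_comp_sa hd (hWd _), tr2_smul hd (hWd _)]
      have c2' := abs_le.1 c2
      have c3' := abs_le.1 c3
      have c4' := abs_le.1 c4
      simp only [hf] at c2' ⊢
      rw [abs_le]
      constructor <;> nlinarith [c2'.1, c2'.2, c3'.1, c3'.2, c4'.1, c4'.2]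
    · rw [integral_const_mul]
      exact mul_le_mul_of_nonneg_left hen (by positivity)
  rw [integral_add i123 i4, integral_sub i12 i3, integral_sub i1 i2, e3, eN] at b3
  rw [e2] at b2
  unfold CD.Sd CD.Hopf
  rw [e1]
  have b2' := abs_le.1 b2
  have b3' := abs_le.1 b3
  rw [abs_le]
  constructor <;> linarith [b2'.1, b2'.2, b3'.1, b3'.2]

theorem sd_chi {D : CD α H} {R δ M r : ℝ} (h : CV D 0 R δ M) (hr : 0 < r) (hR : r ≤ R) (Q : ℕ)
    {ζ : ℂ → ℝ} (hζ : Continuous ζ) (h0 : ∀ u : ℂ, R ≤ ‖u‖ → ζ u = 0) :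
    2 * D.EE Q r - D.dr r = D.Sd Q ζ - D.Sd Q (fun u => ζ u - 2 * chi r u) := by
  have cχ : Continuous (chi r) := by
    unfold chi
    fun_prop
  have χ0 : ∀ u : ℂ, R ≤ ‖u‖ → chi r u = 0 := fun u hu => by
    simp [chi, max_zero_base2 hr (hR.trans hu)]
  have i1 := h.int_sd_sa hζ
  have i2 := h.int_w_sa (h.int_cont_sa (fun p => chi r p.1) (cχ.comp continuous_fst))
  have i3 := h.int_w_sa (h.int_t_sa cχ)
  have j1 := h.int_wu_sa hζ h0
  have j2 := h.int_wu_sa cχ χ0
  have e1 : ∫ a, D.w (D.x a) * (ζ (D.x a) - 2 * chi r (D.x a)) * (1 - D.t a / 2) ∂D.m =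
      ∫ a, D.w (D.x a) * ζ (D.x a) * (1 - D.t a / 2) ∂D.m -
        2 * ∫ a, chi r (D.x a) * D.w (D.x a) ∂D.m +
        ∫ a, chi r (D.x a) * D.w (D.x a) * D.t a ∂D.m := by
    have k1 : ∫ a, chi r (D.x a) * D.w (D.x a) ∂D.m = ∫ a, D.w (D.x a) * chi r (D.x a) ∂D.m :=
      integral_congr_ae (Eventually.of_forall fun a => mul_comm _ _)
    have k2 : ∫ a, chi r (D.x a) * D.w (D.x a) * D.t a ∂D.m =
        ∫ a, D.w (D.x a) * (chi r (D.x a) * D.t a) ∂D.m :=
      integral_congr_ae (Eventually.of_forall fun a => by ring)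
    rw [k1, k2, ← integral_const_mul, ← integral_sub i1 (i2.const_mul 2),
      ← integral_add (i1.sub' (i2.const_mul 2)) i3]
    exact integral_congr_ae (Eventually.of_forall fun a => by ring)
  have e2 : ∫ u, D.w u * (ζ u - 2 * chi r u) =
      (∫ u, D.w u * ζ u) - 2 * ∫ u, chi r u * D.w u := by
    have k1 : ∫ u, chi r u * D.w u = ∫ u, D.w u * chi r u :=
      integral_congr_ae (Eventually.of_forall fun a => mul_comm _ _)
    rw [k1, ← integral_const_mul, ← integral_sub j1 (j2.const_mul 2)]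
    exact integral_congr_ae (Eventually.of_forall fun a => by ring)
  unfold CD.Sd CD.EE CD.dr
  rw [e1, e2]
  ring

end Pool.Agent.Lib.MP_8daebb_an.SV
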