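import Pool.Agent.Lib.MP_8daebb_an.SV.Df2
import Pool.Agent.Lib.MP_8daebb_an.SV.Base3
import Pool.Agent.Lib.MP_8daebb_an.SV.Av
import Pool.Agent.Lib.MP_8daebb_an.SV.Ker2
import Pool.Agent.Lib.MP_8daebb_an.SV.Clus

/-! The defect away from the bad discs. -/

open MeasureTheory Metric Filter Topology Set
open scoped RealInnerProductSpace ENNReal ContDiff

namespace Pool.Agent.Lib.MP_8daebb_an.SV

variable {α : Type*} [MeasurableSpace α] {H : Type*} [NormedAddCommGroup H]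
  [InnerProductSpace ℝ H] [FiniteDimensional ℝ H] [MeasurableSpace H] [BorelSpace H]

theorem CV.En_mono_sb {D : CD α H} {c : ℂ} {R δ M : ℝ} (h : CV D c R δ M) {u v : ℂ} {σ σ' : ℝ}
    (huv : ‖u - v‖ + σ ≤ σ') : D.En u σ ≤ D.En v σ' := by
  unfold CD.En
  refine setIntegral_mono_set h.integrable_t.2.2.2.1.integrableOn ?_ ?_
  · exact ae_restrict_of_ae (h.pw_av.mono fun a ha => ha.facts_av.1)
  · refine LE.le.eventuallyLE fun a ha => ?_
    have h1 : ‖D.x a - u‖ < σ := ha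
    have h2 : ‖D.x a - v‖ ≤ ‖D.x a - u‖ + ‖u - v‖ := norm_sub_le_norm_sub_add_norm_sub _ _ _
    change ‖D.x a - v‖ < σ'
    linarith

theorem CV.meas_En_sb {D : CD α H} {c : ℂ} {R δ M : ℝ} (h : CV D c R δ M) (σ : ℝ) :
    Measurable fun u : ℂ => D.En u σ := by
  have := h.fin
  exact meas_local h.m_x h.integrable_t.2.2.2.1 σ

/-- The fourth power of the tilt angle over the good region. -/
theorem CV.near_sb {D : CD α H} {c : ℂ} {R δ M : ℝ} (h : CV D c R δ M) {ρ r l η₁ : ℝ}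
    (hρ : 0 < ρ) (hl : 100 * ρ ≤ l) :
    ∫ a, (ball (0 : ℂ) (r + 9 * ρ) ∩ {u | D.En u (33 * ρ) ≤ η₁}).indicator (fun _ => (1 : ℝ))
        (D.x a) * D.t a ^ 2 ∂D.m ≤
      ∫ u in ball (0 : ℂ) (r + l) ∩ {u | D.En u (32 * ρ) ≤ η₁},
        D.av ρ (fun a => D.t a ^ 2) u := by
  have := h.fin
  set S : Set ℂ := ball (0 : ℂ) (r + l) ∩ {u | D.En u (32 * ρ) ≤ η₁} with hS
  set T : Set ℂ := ball (0 : ℂ) (r + 9 * ρ) ∩ {u | D.En u (33 * ρ) ≤ η₁} with hT
  have hSm : MeasurableSet S :=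
    measurableSet_ball.inter (measurableSet_le (h.meas_En_sb _) measurable_const)
  have hTm : MeasurableSet T :=
    measurableSet_ball.inter (measurableSet_le (h.meas_En_sb _) measurable_const)
  have hκm : Measurable (S.indicator fun _ => (1 : ℝ)) := measurable_const.indicator hSm
  have hκ0 : ∀ u, 0 ≤ S.indicator (fun _ => (1 : ℝ)) u := fun u =>
    indicator_nonneg (fun _ _ => zero_le_one) u
  have hκ1 : ∀ u, S.indicator (fun _ => (1 : ℝ)) u ≤ 1 := fun u =>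
    indicator_le_self' (fun _ _ => zero_le_one) u
  have hκB : ∀ u, |S.indicator (fun _ => (1 : ℝ)) u| ≤ 1 := fun u => by
    rw [abs_of_nonneg (hκ0 u)]; exact hκ1 u
  have ht2 := h.integrable_t.2.1
  have e1 : ∫ u in S, D.av ρ (fun a => D.t a ^ 2) u =
      ∫ u, S.indicator (fun _ => (1 : ℝ)) u * D.av ρ (fun a => D.t a ^ 2) u := by
    rw [← integral_indicator hSm]
    refine integral_congr_ae (Eventually.of_forall fun u => ?_)
    by_cases hu : u ∈ S <;> simp [hu]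
  rw [e1, (h.integral_av hρ ht2 hκm hκB).2]
  have hin : ∀ x : ℂ, T.indicator (fun _ => (1 : ℝ)) x ≤
      ∫ u, S.indicator (fun _ => (1 : ℝ)) u * kr ρ (u - x) := by
    intro x
    by_cases hx : x ∈ T
    · rw [indicator_of_mem hx]
      refine le_of_eq ((kr_shift_av hρ x).2.symm.trans
        (integral_congr_ae (Eventually.of_forall fun u => ?_)))
      by_cases hu : ‖u - x‖ < ρ
      · have huS : u ∈ S := by
          refine ⟨?_, ?_⟩
          · have h1 : ‖x‖ < r + 9 * ρ := by simpa using hx.1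
            have h2 : ‖u‖ ≤ ‖u - x‖ + ‖x‖ := norm_le_norm_sub_add u x
            rw [mem_ball_zero_iff]
            linarith
          · have h1 : D.En x (33 * ρ) ≤ η₁ := hx.2
            have h2 : D.En u (32 * ρ) ≤ D.En x (33 * ρ) := h.En_mono_sb (by linarith)
            exact h2.trans h1
        simp [huS]
      · have : kr ρ (u - x) = 0 := zero_ker hρ _ (not_lt.1 hu)
        simp [this]
    · rw [indicator_of_notMem hx]
      exact integral_nonneg fun u => mul_nonneg (hκ0 u) (kr_nonneg _ _)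
  have hle : ∀ x : ℂ, ∫ u, S.indicator (fun _ => (1 : ℝ)) u * kr ρ (u - x) ≤ 1 := by
    intro x
    refine le_of_le_of_eq ?_ (kr_shift_av hρ x).2
    refine integral_mono_of_nonneg (Eventually.of_forall fun u => mul_nonneg (hκ0 u)
      (kr_nonneg _ _)) (kr_shift_av hρ x).1 (Eventually.of_forall fun u => ?_)
    exact mul_le_of_le_one_left (kr_nonneg _ _) (hκ1 u)
  have hm : StronglyMeasurable fun x : ℂ =>
      ∫ u, S.indicator (fun _ => (1 : ℝ)) u * kr ρ (u - x) := by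
    have h1 : Measurable fun p : ℂ × ℂ => S.indicator (fun _ => (1 : ℝ)) p.2 * kr ρ (p.2 - p.1) :=
      (hκm.comp measurable_snd).mul ((kr_meas_av ρ).comp (measurable_snd.sub measurable_fst))
    exact h1.stronglyMeasurable.integral_prod_right'
  refine integral_mono_of_nonneg (Eventually.of_forall fun a => mul_nonneg
    (indicator_nonneg (fun _ _ => zero_le_one) _) (sq_nonneg _)) ?_
    (Eventually.of_forall fun a => mul_le_mul_of_nonneg_right (hin _) (sq_nonneg _))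
  refine ht2.bdd_mul (c := 1) (hm.comp_measurable h.m_x).aestronglyMeasurable
    (Eventually.of_forall fun a => ?_)
  rw [Real.norm_eq_abs, abs_of_nonneg
    (integral_nonneg fun u => mul_nonneg (hκ0 u) (kr_nonneg _ _))]
  exact hle _

theorem sd_off (M : ℝ) {CI : ℝ} (hCI : 0 ≤ CI) (Q : ℕ) : ∃ C : ℝ, 0 < C ∧
    ∀ (D : CD α H) (R δ s ρ r l η₁ ε₁ X : ℝ) (N : ℂ → ℕ) (ζ : ℂ → ℝ), MS D R δ M s ρ CI Q N →
    δ ≤ 1 / 2 → l ≤ r → r + l ≤ R → 100 * ρ ≤ l → Continuous ζ → 0 ≤ ε₁ →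
    (∀ u, |ζ u| ≤ ε₁ + 8 * chi r u) → (∀ u, η₁ < D.En u (42 * ρ) → |ζ u| ≤ ε₁) →
    (∀ u : ℂ, r + ρ ≤ ‖u‖ → ζ u = 0) →
    ∫ u in ball (0 : ℂ) (r + l) ∩ {u | D.En u (32 * ρ) ≤ η₁},
      D.av ρ (fun a => D.t a ^ 2) u ≤ X →
    |D.Sd Q ζ| ≤ C * ((ε₁ + ρ / l) * s ^ 4 + X + r ^ 2 * D.hh r) := by
  refine ⟨768 * CI + 10, by positivity, ?_⟩
  intro D R δ s ρ r l η₁ ε₁ X N ζ hMS hδ hlr hrl hρl hζc hε hζ1 hζ2 hζ0 hX
  have h := hMS.cv
  have := h.fin
  have hρ := hMS.sm.ρ_pos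
  have hl : 0 < l := by linarith
  have hr : 0 < r := by linarith
  obtain ⟨hchi, hom, hchi01, hom03, hchiom, hoff, -⟩ := chi_props hr
  set T : Set ℂ := ball (0 : ℂ) (r + 9 * ρ) ∩ {u | D.En u (33 * ρ) ≤ η₁} with hT
  have hTm : MeasurableSet T :=
    measurableSet_ball.inter (measurableSet_le (h.meas_En_sb _) measurable_const)
  set κ : ℂ → ℝ := T.indicator fun _ => (1 : ℝ) with hκ
  have hκm : Measurable κ := measurable_const.indicator hTm
  have hκ0 : ∀ u, 0 ≤ κ u := fun u => indicator_nonneg (fun _ _ => zero_le_one) u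
  have hκ1 : ∀ u, κ u ≤ 1 := fun u => indicator_le_self' (fun _ _ => zero_le_one) u
  have hκX : ∫ a, κ (D.x a) * D.t a ^ 2 ∂D.m ≤ X := (h.near_sb hρ hρl).trans hX
  have hX0 : 0 ≤ X :=
    (integral_nonneg fun a => mul_nonneg (hκ0 _) (sq_nonneg _)).trans hκX
  -- pointwise bounds for the test function
  have hζκ : ∀ v v' : ℂ, ‖v - v'‖ < 9 * ρ → |ζ v| ≤ ε₁ + 8 * κ v' := by
    intro v v' hv
    by_cases h1 : η₁ < D.En v (42 * ρ)
    · have := hζ2 v h1
      have := hκ0 v'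
      linarith
    · by_cases h2 : r ≤ ‖v‖
      · have h3 := hζ1 v
        rw [(hoff v h2).1] at h3
        have := hκ0 v'
        linarith
      · have hv' : v' ∈ T := by
          refine ⟨?_, ?_⟩
          · have h3 : ‖v'‖ ≤ ‖v' - v‖ + ‖v‖ := norm_le_norm_sub_add v' v
            rw [norm_sub_rev] at h3
            rw [mem_ball_zero_iff]
            linarith [not_le.1 h2]
          · have h3 : D.En v' (33 * ρ) ≤ D.En v (42 * ρ) :=
              h.En_mono_sb (by rw [norm_sub_rev]; linarith)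
            exact h3.trans (not_lt.1 h1)
        have h4 : κ v' = 1 := indicator_of_mem hv' _
        have h5 := hζ1 v
        have h6 := (hchi01 v).2
        rw [h4]
        linarith
  set f : ℂ → ℝ := fun u => D.w u * ζ u with hf
  have hfm : Measurable f := h.m_w.mul hζc.measurable
  have hfζ : ∀ u, |f u| ≤ 3 / 2 * |ζ u| := by
    intro u
    by_cases hu : r + ρ ≤ ‖u‖
    · simp [hf, hζ0 u hu]
    · have h1 : u ∈ ball (0 : ℂ) R := by
        rw [mem_ball_zero_iff]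
        linarith [not_le.1 hu]
      have h2 := abs_le.1 (h.w_le u h1).1
      have h3 : |D.w u| ≤ 3 / 2 := abs_le.2 ⟨by linarith [h2.1], by linarith [h2.2]⟩
      simp only [hf]
      rw [abs_mul]
      exact mul_le_mul_of_nonneg_right h3 (abs_nonneg _)
  have hfB : ∀ u, |f u| ≤ 3 / 2 * (ε₁ + 8) := by
    intro u
    have h1 := hfζ u
    have h2 := hζ1 u
    have h3 := (hchi01 u).2
    linarith
  obtain ⟨hi1, he1⟩ := hMS.mq.mult.integral h hfm hfB
  obtain ⟨hi2, he2⟩ := hMS.mq.weight h hρ hCI (f := f) (F := fun u => 3 / 2 * (ε₁ + 8 * κ u))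
    hfm (by fun_prop) (B := 3 / 2 * (ε₁ + 8))
    (fun u => by have := hκ0 u; positivity) (fun u => by have := hκ1 u; linarith)
    (fun v hv => by
      have h1 : ‖v‖ < r + ρ := by
        by_contra h2
        exact hv (by simp [hf, hζ0 v (not_lt.1 h2)])
      rw [sub_zero]
      linarith)
    (fun v v' hv => by
      have h1 := hfζ v
      have h2 := hζκ v v' hv
      linarith)
  obtain ⟨ht, ht2, hy2, hen, -, -⟩ := h.integrable_t
  have hj := h.integrable_j_base2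
  have hfx : AEStronglyMeasurable (fun a => f (D.x a)) D.m :=
    (hfm.comp h.m_x).aestronglyMeasurable
  have hfxB : ∀ᵐ a ∂D.m, ‖f (D.x a)‖ ≤ 3 / 2 * (ε₁ + 8) := Eventually.of_forall fun a => hfB _
  have hκx : AEStronglyMeasurable (fun a => κ (D.x a)) D.m :=
    (hκm.comp h.m_x).aestronglyMeasurable
  have hκxB : ∀ᵐ a ∂D.m, ‖κ (D.x a)‖ ≤ 1 := Eventually.of_forall fun a => by
    rw [Real.norm_eq_abs, abs_of_nonneg (hκ0 _)]; exact hκ1 _
  have homx : AEStronglyMeasurable (fun a => om r (D.x a)) D.m :=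
    (hom.continuous.measurable.comp h.m_x).aestronglyMeasurable
  have homxB : ∀ᵐ a ∂D.m, ‖om r (D.x a)‖ ≤ 3 := Eventually.of_forall fun a => by
    rw [Real.norm_eq_abs, abs_of_nonneg (hom03 _).1]; exact (hom03 _).2
  have iA : Integrable (fun a => f (D.x a) * (1 - D.t a / 2)) D.m :=
    ((integrable_const (1 : ℝ)).sub (ht.div_const 2)).bdd_mul hfx hfxB
  have iB : Integrable (fun a => f (D.x a) * D.j a) D.m := hj.bdd_mul hfx hfxB
  have iκ : Integrable (fun a => κ (D.x a) * D.t a ^ 2) D.m := ht2.bdd_mul hκx hκxB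
  have iom : Integrable (fun a => om r (D.x a) * ‖D.y a‖ ^ 2) D.m := hy2.bdd_mul homx homxB
  -- the decomposition
  have hQ : (Q : ℝ) * ∫ u, D.w u * ζ u =
      (∫ u, f u * (N u : ℝ)) - ∫ u, f u * ((N u : ℝ) - Q) := by
    rw [← integral_sub hi1 hi2, ← integral_const_mul]
    refine integral_congr_ae (Eventually.of_forall fun u => ?_)
    simp only [hf]
    ring
  have hSd : D.Sd Q ζ = (∫ a, (f (D.x a) * (1 - D.t a / 2) - f (D.x a) * D.j a) ∂D.m) +
      ∫ u, f u * ((N u : ℝ) - Q) := by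
    rw [integral_sub iA iB, he1]
    unfold CD.Sd
    rw [hQ]
    ring
  have hs4 : ∫ a, D.en a ∂D.m ≤ s ^ 4 := hMS.sm.en_le
  have hhh : r ^ 2 * D.hh r = ∫ a, om r (D.x a) * ‖D.y a‖ ^ 2 ∂D.m := by
    unfold CD.hh
    rw [← mul_assoc, mul_inv_cancel₀ (pow_ne_zero 2 hr.ne'), one_mul]
  have hhh0 : 0 ≤ r ^ 2 * D.hh r := by
    rw [hhh]
    exact integral_nonneg fun a => mul_nonneg (hom03 _).1 (sq_nonneg _)
  -- first term
  have hA : |∫ a, (f (D.x a) * (1 - D.t a / 2) - f (D.x a) * D.j a) ∂D.m| ≤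
      2 * ε₁ * s ^ 4 + 6 * X + r ^ 2 * D.hh r := by
    have h1 : |∫ a, (f (D.x a) * (1 - D.t a / 2) - f (D.x a) * D.j a) ∂D.m| ≤
        ∫ a, (2 * ε₁ * D.en a + 6 * (κ (D.x a) * D.t a ^ 2) +
          om r (D.x a) * ‖D.y a‖ ^ 2) ∂D.m := by
      rw [← Real.norm_eq_abs]
      refine norm_integral_le_of_norm_le (((hen.const_mul _).add (iκ.const_mul _)).add iom) ?_
      filter_upwards [h.pw_av] with a ha
      have e1 : f (D.x a) * (1 - D.t a / 2) - f (D.x a) * D.j a =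
          f (D.x a) * ((2 - D.t a - 2 * D.j a) / 2) := by ring
      rw [e1, Real.norm_eq_abs, abs_mul, abs_div, abs_two]
      have h2 := ha.j_t
      have h3 := hfζ (D.x a)
      have h4 := hζκ (D.x a) (D.x a) (by simpa using hρ)
      have h5 := hζ1 (D.x a)
      have h6 := hchiom (D.x a)
      have h7 := ha.facts_av.2.1
      have hy0 : 0 ≤ ‖D.y a‖ ^ 2 := sq_nonneg _
      have ht0 : 0 ≤ D.t a ^ 2 := sq_nonneg _
      have hye : ‖D.y a‖ ^ 2 ≤ D.en a := by
        have := ha.t_nonneg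
        unfold CD.en
        linarith
      have h8 : |2 - D.t a - 2 * D.j a| / 2 ≤ D.t a ^ 2 / 2 + ‖D.y a‖ ^ 2 / 4 := by
        have : δ * ‖D.y a‖ ^ 2 ≤ 1 / 2 * ‖D.y a‖ ^ 2 := mul_le_mul_of_nonneg_right hδ hy0
        linarith
      have h9 : |f (D.x a)| * (|2 - D.t a - 2 * D.j a| / 2) ≤
          3 / 2 * |ζ (D.x a)| * (D.t a ^ 2 / 2 + ‖D.y a‖ ^ 2 / 4) :=
        mul_le_mul h3 h8 (by positivity) (by positivity)
      have h10 : |ζ (D.x a)| * D.t a ^ 2 ≤ (ε₁ + 8 * κ (D.x a)) * D.t a ^ 2 :=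
        mul_le_mul_of_nonneg_right h4 ht0
      have h11 : |ζ (D.x a)| * ‖D.y a‖ ^ 2 ≤ (ε₁ + 8 / 3 * om r (D.x a)) * ‖D.y a‖ ^ 2 :=
        mul_le_mul_of_nonneg_right (by linarith) hy0
      have h12 : ε₁ * D.t a ^ 2 ≤ ε₁ * (2 * D.en a) := mul_le_mul_of_nonneg_left h7 hε
      have h13 : ε₁ * ‖D.y a‖ ^ 2 ≤ ε₁ * D.en a := mul_le_mul_of_nonneg_left hye hε
      have h14 : 0 ≤ ε₁ * D.en a := mul_nonneg hε ha.facts_av.1
      nlinarith
    have i1 : Integrable (fun a => 2 * ε₁ * D.en a + 6 * (κ (D.x a) * D.t a ^ 2)) D.m :=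
      (hen.const_mul _).add (iκ.const_mul _)
    rw [integral_add i1 iom,
      integral_add (hen.const_mul _) (iκ.const_mul _), integral_const_mul, integral_const_mul,
      ← hhh] at h1
    have h2 : 2 * ε₁ * ∫ a, D.en a ∂D.m ≤ 2 * ε₁ * s ^ 4 :=
      mul_le_mul_of_nonneg_left hs4 (by positivity)
    linarith
  -- second term
  have hB : |∫ u, f u * ((N u : ℝ) - Q)| ≤ 64 * CI * (3 * ε₁ * s ^ 4 + 12 * X) := by
    have h1 : |∫ u, f u * ((N u : ℝ) - Q)| ≤ ∫ u, |f u| * |(N u : ℝ) - Q| := by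
      refine (abs_integral_le_integral_abs).trans (le_of_eq ?_)
      simp only [abs_mul]
    refine h1.trans (he2.trans (mul_le_mul_of_nonneg_left ?_ (by positivity)))
    have h2 : ∫ a, 3 / 2 * (ε₁ + 8 * κ (D.x a)) * D.t a ^ 2 ∂D.m ≤
        ∫ a, (3 * ε₁ * D.en a + 12 * (κ (D.x a) * D.t a ^ 2)) ∂D.m := by
      refine integral_mono_of_nonneg (Eventually.of_forall fun a => ?_)
        ((hen.const_mul _).add (iκ.const_mul _)) ?_
      · have := hκ0 (D.x a)
        positivity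
      · filter_upwards [h.pw_av] with a ha
        have h12 : ε₁ * D.t a ^ 2 ≤ ε₁ * (2 * D.en a) :=
          mul_le_mul_of_nonneg_left ha.facts_av.2.1 hε
        nlinarith
    rw [integral_add (hen.const_mul _) (iκ.const_mul _), integral_const_mul,
      integral_const_mul] at h2
    have h3 : 3 * ε₁ * ∫ a, D.en a ∂D.m ≤ 3 * ε₁ * s ^ 4 :=
      mul_le_mul_of_nonneg_left hs4 (by positivity)
    linarith
  rw [hSd]
  refine (abs_add_le _ _).trans ?_
  have p1 : 0 ≤ ε₁ * s ^ 4 := by positivity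
  have p2 : 0 ≤ ρ / l * s ^ 4 := by positivity
  have p3 : 0 ≤ CI * (ε₁ * s ^ 4) := mul_nonneg hCI p1
  have p4 : 0 ≤ CI * (ρ / l * s ^ 4) := mul_nonneg hCI p2
  have p5 : 0 ≤ CI * (r ^ 2 * D.hh r) := mul_nonneg hCI hhh0
  nlinarith

end Pool.Agent.Lib.MP_8daebb_an.SV
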