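import Pool.Agent.Lib.MP_8daebb_an.SV.Id

/-! Comparison of masses of nearby cylinders. -/

open MeasureTheory Metric Filter Topology Set
open scoped RealInnerProductSpace ENNReal ContDiff

namespace Pool.Agent.Lib.MP_8daebb_an.SV

variable {α : Type*} [MeasurableSpace α] {H : Type*} [NormedAddCommGroup H]
  [InnerProductSpace ℝ H] [FiniteDimensional ℝ H] [MeasurableSpace H] [BorelSpace H]

/-- The scaled cutoff. -/
noncomputable def phi_sc2 (b : ℂ → ℝ) (p : ℂ) (q : ℝ) (x : ℂ) : ℝ := q ^ 2 * b (q • (x - p))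

/-- Minus its derivative along a motion with velocity `v` of the centre and `σ` of the radius. -/
noncomputable def dphi_sc2 (b : ℂ → ℝ) (p : ℂ) (q : ℝ) (v : ℂ) (σ : ℝ) (x : ℂ) : ℝ :=
  q ^ 2 * fderiv ℝ b (q • (x - p)) (q • (v + (σ * q) • (x - p))) + phi_sc2 b p q x * (2 * (σ * q))

theorem deriv_sc2 {b : ℂ → ℝ} (hb : ContDiff ℝ 1 b) (p v x : ℂ) (ρ σ s : ℝ)
    (hs : ρ + s * σ ≠ 0) :
    HasDerivAt (fun s : ℝ => phi_sc2 b (p + s • v) (ρ + s * σ)⁻¹ x)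
      (-dphi_sc2 b (p + s • v) (ρ + s * σ)⁻¹ v σ x) s := by
  have h1 : HasDerivAt (fun s : ℝ => (ρ + s * σ)⁻¹) (-σ / (ρ + s * σ) ^ 2) s := by
    simpa using (((hasDerivAt_id s).mul_const σ).const_add ρ).fun_inv hs
  have h2 : HasDerivAt (fun s : ℝ => x - (p + s • v)) (-v) s := by
    simpa using (((hasDerivAt_id s).smul_const v).const_add p).const_sub x
  have h3 := ((hb.differentiable one_ne_zero _).hasFDerivAt).comp_hasDerivAt s (h1.fun_smul h2)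
  refine ((h1.fun_pow 2).fun_mul h3).congr_deriv ?_
  simp only [dphi_sc2, phi_sc2, map_add, map_smul, map_neg, smul_eq_mul, Function.comp,
    Nat.cast_ofNat, Nat.add_one_sub_one, pow_one]
  generalize ρ + s * σ = w at hs
  field_simp
  ring

/-- The error term. -/
noncomputable def err_sc2 (b : ℂ → ℝ) (p : ℂ) (q : ℝ) (v : ℂ) (σ : ℝ) (x : ℂ) (τ : ℂ →L[ℝ] ℂ)
    (t : ℝ) (e : ℂ) : ℝ :=
  q ^ 2 * fderiv ℝ b (q • (x - p)) (q • τ (v + (σ * q) • (x - p))) + phi_sc2 b p q x * (σ * q * t) -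
    phi_sc2 b p q x * ⟪e, v + (σ * q) • (x - p)⟫

theorem err_cont_sc2 {b : ℂ → ℝ} (hb : ContDiff ℝ 1 b) (p : ℂ) (q : ℝ) (v : ℂ) (σ : ℝ) :
    Continuous fun w : ℂ × (ℂ →L[ℝ] ℂ) × ℝ × ℂ => err_sc2 b p q v σ w.1 w.2.1 w.2.2.1 w.2.2.2 := by
  have := hb.continuous_fderiv one_ne_zero
  have := hb.continuous
  unfold err_sc2 phi_sc2
  fun_prop

theorem err_zero_sc2 {b : ℂ → ℝ} (hb0 : ∀ z, 3 / 2 ≤ ‖z‖ → b z = 0) {p : ℂ} {q : ℝ} (v : ℂ) (σ : ℝ)
    {x : ℂ} (τ : ℂ →L[ℝ] ℂ) (t : ℝ) (e : ℂ) (hx : 3 / 2 < ‖q • (x - p)‖) :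
    err_sc2 b p q v σ x τ t e = 0 := by
  have : b =ᶠ[𝓝 (q • (x - p))] fun _ => 0 :=
    ((isOpen_lt continuous_const continuous_norm).eventually_mem hx).mono
      fun z hz => hb0 z (le_of_lt hz)
  have h4 : fderiv ℝ b (q • (x - p)) = 0 := by
    rw [this.fderiv_eq, fderiv_fun_const, Pi.zero_apply]
  rw [err_sc2, phi_sc2, h4, hb0 _ hx.le]
  simp

theorem err_le_sc2 {b : ℂ → ℝ} (hb1 : ∀ z, |b z| ≤ 1) {K : ℝ} (hK : ∀ z, ‖fderiv ℝ b z‖ ≤ K)
    {L δ r q σ t : ℝ} {p v x e : ℂ} {τ : ℂ →L[ℝ] ℂ} (hδ0 : 0 ≤ δ) (hr : 0 < r) (hr1 : r ≤ 1)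
    (hq : 0 < q) (hqL : q * r ≤ L) (hv : ‖v‖ ≤ 2 * r) (hσ : |σ| ≤ r) (ht : 0 ≤ t)
    (hτ : ‖τ‖ ≤ 2 * t) (he : ‖e‖ ≤ t + δ) (hx : ‖q • (x - p)‖ ≤ 3 / 2) :
    |err_sc2 b p q v σ x τ t e| ≤ L ^ 2 * (8 * K * L + L + 4) / r ^ 2 * (t + δ) := by
  have hK0 : 0 ≤ K := (norm_nonneg _).trans (hK 0)
  have hL0 : 0 ≤ L := le_trans (by positivity) hqL
  have h6 : ‖v + (σ * q) • (x - p)‖ ≤ 4 * r := by
    refine (norm_add_le _ _).trans ?_
    rw [mul_smul, norm_smul, Real.norm_eq_abs]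
    nlinarith [abs_nonneg σ, norm_nonneg (q • (x - p))]
  have h7 : |phi_sc2 b p q x| ≤ q ^ 2 := by
    rw [phi_sc2, abs_mul, abs_of_nonneg (sq_nonneg q)]
    exact mul_le_of_le_one_right (sq_nonneg q) (hb1 _)
  have e1 : |fderiv ℝ b (q • (x - p)) (q • τ (v + (σ * q) • (x - p)))| ≤ 8 * K * L * t := by
    refine ((fderiv ℝ b _).le_opNorm _).trans ?_
    rw [norm_smul, Real.norm_of_nonneg hq.le]
    calc _ ≤ K * (q * (2 * t * (4 * r))) := by
          gcongr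
          · exact hK _
          · exact (τ.le_opNorm _).trans (by gcongr)
      _ = 8 * K * (q * r) * t := by ring
      _ ≤ _ := by gcongr
  have e2 : |σ * q * t| ≤ L * t := by
    rw [abs_mul, abs_mul, abs_of_pos hq, abs_of_nonneg ht]
    gcongr
    nlinarith
  have e3 : |⟪e, v + (σ * q) • (x - p)⟫| ≤ 4 * (t + δ) := by
    refine (abs_real_inner_le_norm _ _).trans ?_
    calc _ ≤ (t + δ) * (4 * r) := by gcongr
      _ ≤ _ := by nlinarith
  have e4 : q ^ 2 ≤ L ^ 2 / r ^ 2 := by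
    rw [le_div_iff₀ (by positivity), ← mul_pow]
    gcongr
  calc _ ≤ q ^ 2 * (8 * K * L * t) + q ^ 2 * (L * t) + q ^ 2 * (4 * (t + δ)) := by
        refine (abs_sub _ _).trans (add_le_add ((abs_add_le _ _).trans (add_le_add ?_ ?_)) ?_) <;>
          rw [abs_mul]
        · rw [abs_of_nonneg (sq_nonneg q)]
          gcongr
        · gcongr
        · gcongr
    _ ≤ q ^ 2 * ((8 * K * L + L + 4) * (t + δ)) := by
        have : 0 ≤ q ^ 2 * ((8 * K * L + L) * δ) := by positivity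
        nlinarith
    _ ≤ L ^ 2 / r ^ 2 * ((8 * K * L + L + 4) * (t + δ)) := by gcongr
    _ = _ := by ring

theorem id_sc2 {b : ℂ → ℝ} (hb : ContDiff ℝ 1 b) {D : CD α H} {c : ℂ} {R δ M : ℝ}
    (h : CV D c R δ M) {p : ℂ} {q R' : ℝ} (v : ℂ) (σ : ℝ) (hR : R' < R)
    (h0 : ∀ x, R' ≤ ‖x - c‖ → phi_sc2 b p q x = 0) :
    ∫ a, (dphi_sc2 b p q v σ (D.x a) - err_sc2 b p q v σ (D.x a) (D.τ a) (D.t a) (D.eh a)) ∂D.m
      = 0 := by
  have hψ : ∀ w : ℂ × H, HasFDerivAt (fun w : ℂ × H => phi_sc2 b p q w.1)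
      (q ^ 2 • (fderiv ℝ b (q • (w.1 - p))).comp (q • ContinuousLinearMap.fst ℝ ℂ H)) w := fun w =>
    (((hb.differentiable one_ne_zero _).hasFDerivAt).comp w
      ((hasFDerivAt_fst.sub_const p).const_smul q)).const_mul _
  have hW : ∀ x : ℂ, HasFDerivAt (fun x : ℂ => v + (σ * q) • (x - p))
      ((σ * q) • ContinuousLinearMap.id ℝ ℂ) x := fun x =>
    (((hasFDerivAt_id (𝕜 := ℝ) x).sub_const p).const_smul (σ * q)).const_add v
  rw [← h.hor_gen (ψ := fun w => phi_sc2 b p q w.1) (W := fun x => v + (σ * q) • (x - p))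
    ⟨(by unfold phi_sc2; fun_prop : ContDiff ℝ 1 fun w : ℂ × H => phi_sc2 b p q w.1).contDiffOn,
      R', hR, fun w hw => h0 _ hw⟩ (by fun_prop)]
  refine integral_congr_ae (h.ae_G.mono fun a ha => ?_)
  have h3 := (h.pw a ha).tr_τ
  simp only [(hψ _).fderiv, (hW _).fderiv, dphi_sc2, err_sc2, ← h3, tr2]
  simp only [smul_apply, ContinuousLinearMap.comp_apply,
    ContinuousLinearMap.coe_fst', ContinuousLinearMap.id_apply, map_sub, smul_sub, smul_eq_mul,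
    Complex.smul_re, Complex.smul_im, Complex.one_re, Complex.I_im]
  ring

theorem key_sc2 {b : ℂ → ℝ} (hb : ContDiff ℝ 1 b) (hb1 : ∀ z, |b z| ≤ 1)
    (hb0 : ∀ z, 3 / 2 ≤ ‖z‖ → b z = 0) {K : ℝ} (hK : ∀ z, ‖fderiv ℝ b z‖ ≤ K) {L : ℝ}
    {D : CD α H} {c : ℂ} {R δ M : ℝ} (h : CV D c R δ M) (hδ : δ ≤ 1) {u p v : ℂ} {r q σ A : ℝ}
    (hr : 0 < r) (hp : ‖p - u‖ ≤ r) (hq : 0 < q) (hq1 : 1 ≤ q * r) (hqL : q * r ≤ L)
    (hv : ‖v‖ ≤ 2 * r) (hσ : |σ| ≤ r) (hR : ‖u - c‖ + 3 * r ≤ R)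
    (hA : D.m.real (D.cyl u (3 * r)) ≤ A * r ^ 2)
    (hi : Integrable (fun a => dphi_sc2 b p q v σ (D.x a)) D.m) :
    |∫ a, dphi_sc2 b p q v σ (D.x a) ∂D.m| ≤
      L ^ 2 * (8 * K * L + L + 4) * (D.T u (3 * r) / r ^ 2 + δ * A) := by
  have := h.fin
  have hK0 : 0 ≤ K := (norm_nonneg _).trans (hK 0)
  have hL0 : 0 ≤ L := by linarith
  have hδ0 := h.δ_nonneg
  have hz : ∀ x : ℂ, ‖q • (x - p)‖ ≤ 3 / 2 → ‖x - u‖ ≤ 5 / 2 * r := fun x hx => by
    rw [norm_smul, Real.norm_of_nonneg hq.le] at hx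
    have h5 : ‖x - u‖ ≤ ‖x - p‖ + ‖p - u‖ := norm_sub_le_norm_sub_add_norm_sub _ _ _
    nlinarith [norm_nonneg (x - p)]
  have h2 := id_sc2 hb h (p := p) (q := q) (R' := ‖u - c‖ + 11 / 4 * r) v σ (by linarith)
    fun x hx => by
      rw [phi_sc2, hb0, mul_zero]
      by_contra hc
      linarith [hz _ (not_le.1 hc).le, norm_sub_le_norm_sub_add_norm_sub x u c]
  have h3 : ∀ᵐ a ∂D.m, ‖err_sc2 b p q v σ (D.x a) (D.τ a) (D.t a) (D.eh a)‖ ≤
      (D.cyl u (3 * r)).indicator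
      (fun a => L ^ 2 * (8 * K * L + L + 4) / r ^ 2 * (D.t a + δ)) a := h.ae_G.mono fun a ha => by
    have P := h.pw a ha
    have ht := P.t_nonneg
    by_cases hx : ‖q • (D.x a - p)‖ ≤ 3 / 2
    · rw [indicator_of_mem (s := D.cyl u (3 * r))
        (show ‖D.x a - u‖ < 3 * r by linarith [hz _ hx])]
      refine err_le_sc2 hb1 hK hδ0 hr (by linarith [h.R_le, norm_nonneg (u - c)]) hq hqL hv hσ ht
        P.τ_le ?_ hx
      have h9 : ‖D.y a‖ ^ 2 ≤ 1 := pow_le_one₀ (norm_nonneg _) (P.y_le.trans hδ)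
      nlinarith [P.eh_le]
    · rw [err_zero_sc2 hb0 _ _ _ _ _ (not_le.1 hx), norm_zero]
      exact indicator_apply_nonneg fun _ => by positivity
  have h4 : Integrable ((D.cyl u (3 * r)).indicator
      fun a => L ^ 2 * (8 * K * L + L + 4) / r ^ 2 * (D.t a + δ)) D.m :=
    ((h.integrable_t.1.add (integrable_const δ)).const_mul _).indicator (h.meas_cyl _ _)
  have h5 : Integrable (fun a => err_sc2 b p q v σ (D.x a) (D.τ a) (D.t a) (D.eh a)) D.m :=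
    h4.mono' ((err_cont_sc2 hb p q v σ).measurable.comp
      (h.m_x.prodMk (h.m_τ.prodMk (h.m_t.prodMk h.m_eh)))).aestronglyMeasurable h3
  rw [integral_sub hi h5, sub_eq_zero] at h2
  rw [h2]
  refine (norm_integral_le_of_norm_le h4 h3).trans ?_
  rw [integral_indicator (h.meas_cyl _ _), integral_const_mul,
    integral_add h.integrable_t.1.integrableOn (integrable_const δ), setIntegral_const, smul_eq_mul,
    div_mul_eq_mul_div, mul_div_assoc]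
  gcongr
  rw [add_div, CD.T]
  gcongr
  rw [div_le_iff₀ (by positivity)]
  nlinarith

/-- Moving centre, bounded range of radii. -/
theorem sc_move {κ L : ℝ} (hκ : 0 < κ) (hκ1 : κ ≤ 1) (hL : 1 ≤ L) : ∃ C : ℝ, 0 < C ∧
    ∀ (D : CD α H) (c : ℂ) (R δ M : ℝ), CV D c R δ M → δ ≤ 1 →
    ∀ (u u₁ u₂ : ℂ) (r r₁ r₂ A : ℝ), 0 < r → ‖u₁ - u‖ ≤ r → ‖u₂ - u‖ ≤ r → r ≤ L * r₁ → r₁ ≤ r →
    r ≤ L * r₂ → r₂ ≤ r → ‖u - c‖ + 3 * r ≤ R → D.m.real (D.cyl u (3 * r)) ≤ A * r ^ 2 →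
    D.m.real (D.cyl u₁ r₁) / r₁ ^ 2 ≤ D.m.real (D.cyl u₂ ((1 + κ) * r₂)) / r₂ ^ 2 +
      C * (D.T u (3 * r) / r ^ 2 + δ * A) := by
  let b : ContDiffBump (0 : ℂ) := ⟨1, 1 + κ / 2, one_pos, by linarith⟩
  have hb : ContDiff ℝ 1 b := b.contDiff
  obtain ⟨K, hK⟩ := (hb.continuous_fderiv one_ne_zero).bounded_above_of_compact_support
    (b.hasCompactSupport.fderiv ℝ)
  have hK0 : 0 ≤ K := (norm_nonneg _).trans (hK 0)
  have hb1 : ∀ z, |b z| ≤ 1 := fun z => (abs_of_nonneg b.nonneg).trans_le b.le_one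
  have hb0 : ∀ z, 1 + κ / 2 ≤ ‖z‖ → b z = 0 := fun z hz => b.zero_of_le_dist (by simpa using hz)
  refine ⟨L ^ 2 * (8 * K * L + L + 4), by positivity,
    fun D c R δ M h hδ u u₁ u₂ r r₁ r₂ A hr h1 h2 h3 h4 h5 h6 hR hA => ?_⟩
  have := h.fin
  have hr₁ : 0 < r₁ := by nlinarith
  have hr₂ : 0 < r₂ := by nlinarith
  have hc : ∀ p q, Continuous (phi_sc2 b p q) := fun p q => by
    have := hb.continuous
    unfold phi_sc2
    fun_prop
  have hI : ∀ p q, Integrable (fun a => phi_sc2 b p q (D.x a)) D.m := fun p q =>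
    h.integrable ((hc p q).measurable.comp h.m_x).aestronglyMeasurable (q ^ 2) fun a _ _ => by
      rw [phi_sc2, Real.norm_eq_abs, abs_mul, abs_of_nonneg (sq_nonneg q)]
      exact mul_le_of_le_one_right (sq_nonneg q) (hb1 _)
  have hd : ∀ s ∈ Icc (0 : ℝ) 1,
      Integrable (fun a => -dphi_sc2 b (u₁ + s • (u₂ - u₁)) (r₁ + s * (r₂ - r₁))⁻¹ (u₂ - u₁)
        (r₂ - r₁) (D.x a)) D.m ∧
      HasDerivAt
        (fun s : ℝ => ∫ a, phi_sc2 b (u₁ + s • (u₂ - u₁)) (r₁ + s * (r₂ - r₁))⁻¹ (D.x a) ∂D.m)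
        (∫ a, -dphi_sc2 b (u₁ + s • (u₂ - u₁)) (r₁ + s * (r₂ - r₁))⁻¹ (u₂ - u₁) (r₂ - r₁) (D.x a)
          ∂D.m) s := fun s hs => by
    have h7 : 0 < r₁ + s * (r₂ - r₁) := by nlinarith [hs.1, hs.2]
    obtain ⟨S, hS, hS1, hS2⟩ := local_compact_nhds
      ((isOpen_lt continuous_const (by fun_prop : Continuous fun s : ℝ =>
        r₁ + s * (r₂ - r₁))).mem_nhds h7)
    have h8 : ContinuousOn (fun w : ℝ × ℂ => -dphi_sc2 b (u₁ + w.1 • (u₂ - u₁))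
        (r₁ + w.1 * (r₂ - r₁))⁻¹ (u₂ - u₁) (r₂ - r₁) w.2) (S ×ˢ univ) := by
      have h9 : ContinuousOn (fun w : ℝ × ℂ => (r₁ + w.1 * (r₂ - r₁))⁻¹) (S ×ˢ univ) :=
        ContinuousOn.inv₀ (by fun_prop) fun w hw => (hS1 hw.1).ne'
      have h10 : Continuous fun w : ℂ × ℝ × ℂ =>
          -dphi_sc2 b w.1 w.2.1 (u₂ - u₁) (r₂ - r₁) w.2.2 := by
        have := hb.continuous_fderiv one_ne_zero
        have := hb.continuous
        unfold dphi_sc2 phi_sc2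
        fun_prop
      exact h10.comp_continuousOn (f := fun w : ℝ × ℂ =>
        (u₁ + w.1 • (u₂ - u₁), (r₁ + w.1 * (r₂ - r₁))⁻¹, w.2))
        (ContinuousOn.prodMk (by fun_prop) (h9.prodMk continuousOn_snd))
    obtain ⟨B, hB⟩ := (hS2.prod (isCompact_closedBall (0 : ℂ) 2)).exists_bound_of_continuousOn
      (h8.mono (prod_mono_right (subset_univ _)))
    refine hasDerivAt_integral_of_dominated_loc_of_deriv_le hS
      (.of_forall fun s => (hI _ _).aestronglyMeasurable) (hI _ _) ?_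
      (h.ae_G.mono fun a ha s hs => hB (s, D.x a) ⟨hs, by simpa using (h.pw a ha).x_le⟩)
      (integrable_const B) (.of_forall fun a s hs => deriv_sc2 hb _ _ _ _ _ _ (hS1 hs).ne')
    exact ((h8.comp_continuous (f := fun x : ℂ => (s, x)) (by fun_prop)
      fun x => ⟨mem_of_mem_nhds hS, trivial⟩).measurable.comp h.m_x).aestronglyMeasurable
  have hm := norm_image_sub_le_of_norm_deriv_le_segment_01'
    (C := L ^ 2 * (8 * K * L + L + 4) * (D.T u (3 * r) / r ^ 2 + δ * A))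
    (fun s hs => (hd s hs).2.hasDerivWithinAt) fun s hs => by
      have h7 : 0 < r₁ + s * (r₂ - r₁) := by nlinarith [hs.1, hs.2]
      rw [integral_neg, norm_neg]
      refine key_sc2 hb hb1 (fun z hz => hb0 z (by linarith)) hK h hδ hr ?_ (inv_pos.2 h7) ?_ ?_ ?_
        (abs_le.2 ⟨by linarith, by linarith⟩) hR hA (integrable_neg_iff.1 (hd s ⟨hs.1, hs.2.le⟩).1)
      · rw [show u₁ + s • (u₂ - u₁) - u = (1 - s) • (u₁ - u) + s • (u₂ - u) by module]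
        refine (norm_add_le _ _).trans ?_
        rw [norm_smul, norm_smul, Real.norm_of_nonneg hs.1, Real.norm_of_nonneg (by linarith [hs.2])]
        nlinarith [hs.1, hs.2]
      · rw [le_inv_mul_iff₀ h7]
        nlinarith [hs.1, hs.2]
      · rw [inv_mul_le_iff₀ h7]
        nlinarith [hs.1, hs.2]
      · rw [show u₂ - u₁ = (u₂ - u) - (u₁ - u) by ring]
        exact (norm_sub_le _ _).trans (by linarith)
  simp only [one_smul, one_mul, add_sub_cancel, zero_smul, zero_mul, add_zero] at hm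
  have e1 : D.m.real (D.cyl u₁ r₁) / r₁ ^ 2 ≤ ∫ a, phi_sc2 b u₁ r₁⁻¹ (D.x a) ∂D.m := by
    rw [div_eq_mul_inv, ← smul_eq_mul, ← setIntegral_const, ← integral_indicator (h.meas_cyl _ _)]
    refine integral_mono ((integrable_const _).indicator (h.meas_cyl _ _)) (hI _ _) fun a => ?_
    refine indicator_apply_le' (fun ha => ?_) fun _ => mul_nonneg (sq_nonneg _) b.nonneg
    rw [phi_sc2, b.one_of_mem_closedBall, mul_one, inv_pow]
    rw [mem_closedBall_zero_iff, norm_smul, Real.norm_of_nonneg (inv_pos.2 hr₁).le,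
      inv_mul_le_iff₀ hr₁]
    exact (le_of_lt ha).trans_eq (mul_one _).symm
  have e2 : ∫ a, phi_sc2 b u₂ r₂⁻¹ (D.x a) ∂D.m ≤ D.m.real (D.cyl u₂ ((1 + κ) * r₂)) / r₂ ^ 2 := by
    rw [div_eq_mul_inv, ← smul_eq_mul, ← setIntegral_const, ← integral_indicator (h.meas_cyl _ _)]
    refine integral_mono (hI _ _) ((integrable_const _).indicator (h.meas_cyl _ _)) fun a => ?_
    refine le_indicator_apply (fun _ => ?_) fun ha => ?_
    · rw [phi_sc2, inv_pow]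
      exact mul_le_of_le_one_right (by positivity) b.le_one
    · rw [phi_sc2, hb0, mul_zero]
      rw [norm_smul, Real.norm_of_nonneg (inv_pos.2 hr₂).le, le_inv_mul_iff₀ hr₂]
      have : (1 + κ) * r₂ ≤ ‖D.x a - u₂‖ := not_lt.1 ha
      nlinarith
  linarith [(abs_le.1 hm).1]

end Pool.Agent.Lib.MP_8daebb_an.SV
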