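import Pool.Agent.Lib.MP_8daebb_an.SV.SA
import Pool.Agent.Lib.MP_8daebb_an.SV.SB
import Pool.Agent.Lib.MP_8daebb_an.SV.Moll

/-! The defect equals the Hopf term of the tower fields. -/

open MeasureTheory Metric Filter Topology Set
open scoped RealInnerProductSpace ENNReal ContDiff

namespace Pool.Agent.Lib.MP_8daebb_an.SV

variable {α : Type*} [MeasurableSpace α] {H : Type*} [NormedAddCommGroup H]
  [InnerProductSpace ℝ H] [FiniteDimensional ℝ H] [MeasurableSpace H] [BorelSpace H]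

theorem abs_tr2_le_score (A : ℂ →L[ℝ] ℂ) : |tr2 A| ≤ 2 * ‖A‖ := by
  have h1 := A.le_opNorm 1
  have h2 := A.le_opNorm Complex.I
  rw [norm_one, mul_one] at h1
  rw [Complex.norm_I, mul_one] at h2
  refine (abs_add_le _ _).trans ?_
  linarith [Complex.abs_re_le_norm (A 1), Complex.abs_im_le_norm (A Complex.I)]

theorem s_core (M : ℝ) {CI : ℝ} (hCI : 0 ≤ CI) (Q : ℕ) : ∃ C : ℝ, 0 < C ∧
    ∀ (D : CD α H) (R δ s ρ r l η₁ ϑ X : ℝ) (N : ℂ → ℕ) (B : ℕ → Finset (ℂ × ℝ))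
    (Y : ℕ → ℂ → ℂ) (n : ℕ), MS D R δ M s ρ CI Q N → δ ≤ 1 / 2 → SE D R r l ρ η₁ ϑ B Y n →
    ∫ u in ball (0 : ℂ) (r + l) ∩ {u | D.En u (32 * ρ) ≤ η₁},
      D.av ρ (fun a => D.t a ^ 2) u ≤ X →
    ∀ a < n, |2 * D.EE Q r - D.dr r - D.Hopf (moll ρ fun x => chi r x • Y a x)| ≤
      C * ((ρ + ϑ) / l * s ^ 4 + X + r ^ 2 * D.hh r) := by
  obtain ⟨C₁, hC₁, H₁⟩ := sd_div (α := α) (H := H) M hCI Q
  obtain ⟨C₂, hC₂, H₂⟩ := sd_off (α := α) (H := H) M hCI Q
  obtain ⟨C₃, hC₃, H₃⟩ := moll_facts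
  refine ⟨6 * C₁ + C₂ * (2 * C₃ + 1), by positivity,
    fun D R δ s ρ r l η₁ ϑ X N B Y n hM hδ hS hX a ha => ?_⟩
  have hρ := hM.sm.ρ_pos
  have hl : 0 < l := by linarith [hS.ρ_le]
  have hr : 0 < r := hl.trans_le hS.l_le
  have h1 := hS.ρ_le
  have h2 := hS.r_add
  have h3 := hM.cv.R_le
  have T := hS.tower
  have hϑ : 0 ≤ ϑ := (Finset.sum_nonneg fun b hb => (T.pos 0 b hb).le).trans (T.rad 0 (by omega))
  obtain ⟨-, -, -, -, m1, m2, m3, -, m4, m5, -⟩ := H₃ B Y ρ ϑ r n a T hρ hr ha.le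
  obtain ⟨c1, -, c2, c4, -, c3, -⟩ := chi_props hr
  set W := moll ρ fun x => chi r x • Y a x with hW
  have hc : Continuous fun u => tr2 (fderiv ℝ W u) := by
    have := m1.continuous_fderiv one_ne_zero
    unfold tr2
    fun_prop
  have hε : 0 ≤ C₃ * (ρ + ϑ) / r := by positivity
  have k1 := H₁ D R δ s ρ (r + ρ) (3 * ϑ) N W hM hδ m1 m2 (fun u hu => (m3 u hu).1) (by linarith)
  have k2 := H₂ D R δ s ρ r l η₁ (2 * (C₃ * (ρ + ϑ) / r)) X N
    (fun u => tr2 (fderiv ℝ W u) - 2 * chi r u) hM hδ hS.l_le (by linarith) h1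
    (hc.sub (continuous_const.mul c1.continuous)) (by positivity)
    (fun u => by
      have := abs_tr2_le_score (fderiv ℝ W u)
      rw [abs_le] at this ⊢
      constructor <;> linarith [m4 u, (c2 u).1, this.1, this.2])
    (fun u hu => by
      have hb : ∀ j, ∃ b ∈ B j, ‖u - b.1‖ + 2 * ρ ≤ b.2 := by
        intro j
        induction j with
        | zero => exact hS.cov u hu
        | succ j ih =>
          obtain ⟨b, hb, h4⟩ := ih
          obtain ⟨b', hb', h5⟩ := T.nest j b hb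
          exact ⟨b', hb', by linarith [norm_sub_le_norm_sub_add_norm_sub u b.1 b'.1]⟩
      obtain ⟨b, hb, h4⟩ := hb a
      have h5 := abs_tr2_le_score (fderiv ℝ W u - chi r u • ContinuousLinearMap.id ℝ ℂ)
      have e : tr2 (fderiv ℝ W u - chi r u • ContinuousLinearMap.id ℝ ℂ) =
          tr2 (fderiv ℝ W u) - 2 * chi r u := by
        simp [tr2]
        ring
      rw [e] at h5
      linarith [m5 b hb u (by linarith)])
    (fun u hu => by
      rw [(m3 u hu).2, (c3 u (by linarith)).1]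
      simp [tr2]) hX
  have k3 := sd_chi hM.cv hr (by linarith) Q hc fun u hu => by
    rw [(m3 u (by linarith)).2]
    simp [tr2]
  have hX0 : 0 ≤ X := le_trans (integral_nonneg fun u => integral_nonneg fun a =>
    smul_nonneg (kr_nonneg _ _) (sq_nonneg _)) hX
  have hh0 : 0 ≤ r ^ 2 * D.hh r := mul_nonneg (sq_nonneg _) (mul_nonneg (by positivity)
    (integral_nonneg fun a => mul_nonneg (c4 _).1 (sq_nonneg _)))
  have hs : 0 ≤ s ^ 4 := by positivity
  set A := (ρ + ϑ) / l with hA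
  have hA0 : 0 ≤ A := by positivity
  have a1 : ϑ ≤ 2 * A := by
    rw [hA, ← mul_div_assoc, le_div_iff₀ hl]
    nlinarith
  have a2 : 2 * (C₃ * (ρ + ϑ) / r) + ρ / l ≤ (2 * C₃ + 1) * A := by
    have b1 : (ρ + ϑ) / r ≤ A := div_le_div_of_nonneg_left (by positivity) hl hS.l_le
    have b2 : ρ / l ≤ A := div_le_div_of_nonneg_right (by linarith) hl.le
    rw [mul_div_assoc]
    linarith [mul_le_mul_of_nonneg_left b1 hC₃.le]
  have a3 := mul_le_mul_of_nonneg_left (mul_le_mul_of_nonneg_right a1 hs) hC₁.le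
  have a4 := mul_le_mul_of_nonneg_left (mul_le_mul_of_nonneg_right a2 hs) hC₂.le
  have a5 := mul_nonneg hC₁.le (add_nonneg hX0 hh0)
  have a6 := mul_nonneg (mul_nonneg hC₂.le hC₃.le) (add_nonneg hX0 hh0)
  rw [k3]
  rw [abs_le] at k1 k2 ⊢
  constructor <;> linarith [k1.1, k1.2, k2.1, k2.2]

end Pool.Agent.Lib.MP_8daebb_an.SV
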