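import Pool.Agent.Lib.MP_8daebb_an.SV.Moll
import Pool.Agent.Lib.MP_8daebb_an.SV.UFam
import Pool.Agent.Lib.MP_8daebb_an.SV.Av
import Pool.Agent.Lib.MP_8daebb_an.SV.Ker2
import Pool.Agent.Lib.MP_8daebb_an.SV.Clus
import Pool.Agent.Lib.MP_8daebb_an.SV.IBP
import Pool.Agent.Lib.MP_8daebb_an.SV.Id2

/-! Transfer of the Hopf term to the smooth functions. -/

open MeasureTheory Metric Filter Topology Set
open scoped RealInnerProductSpace ENNReal ContDiff

namespace Pool.Agent.Lib.MP_8daebb_an.SV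

variable {α : Type*} [MeasurableSpace α] {H : Type*} [NormedAddCommGroup H]
  [InnerProductSpace ℝ H] [FiniteDimensional ℝ H] [MeasurableSpace H] [BorelSpace H]

/-- The Hopf integrand. -/
noncomputable def Lf_slow (D : CD α H) (a : α) (A : ℂ →L[ℝ] ℂ) : ℝ :=
  D.w (D.x a) * (tr2 (A.comp (D.τ a)) - D.t a / 2 * tr2 A)

theorem clm_slow (w t : ℝ) (τ : ℂ →L[ℝ] ℂ) : ∃ φ : (ℂ →L[ℝ] ℂ) →L[ℝ] ℝ,
    ∀ A, φ A = w * (tr2 (A.comp τ) - t / 2 * tr2 A) := by
  refine ⟨w • (Complex.reCLM.comp (ContinuousLinearMap.apply ℝ ℂ (τ 1)) +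
    Complex.imCLM.comp (ContinuousLinearMap.apply ℝ ℂ (τ Complex.I)) -
    (t / 2) • (Complex.reCLM.comp (ContinuousLinearMap.apply ℝ ℂ 1) +
      Complex.imCLM.comp (ContinuousLinearMap.apply ℝ ℂ Complex.I))), fun A => ?_⟩
  simp only [tr2, ContinuousLinearMap.comp_apply, sub_apply, add_apply, smul_apply,
    ContinuousLinearMap.apply_apply, Complex.reCLM_apply, Complex.imCLM_apply, smul_eq_mul]

theorem hp_clm_slow (A : ℂ →L[ℝ] ℂ) : ∃ ψ : ℂ →L[ℝ] ℝ, ∀ ζ, ψ ζ = hp A ζ := by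
  refine ⟨Complex.reCLM.comp (((ContinuousLinearMap.mul ℝ ℂ) (dzb A)).comp
    Complex.conjCLE.toContinuousLinearMap), fun ζ => ?_⟩
  simp [hp]

theorem hp_cont_slow {A : ℂ → ℂ →L[ℝ] ℂ} (hA : Continuous A) {ζ : ℂ → ℂ} (hζ : Continuous ζ) :
    Continuous fun u => hp (A u) (ζ u) := by
  unfold hp dzb
  fun_prop

omit [FiniteDimensional ℝ H] [MeasurableSpace H] [BorelSpace H] in
theorem Lf_le_slow {D : CD α H} {δ : ℝ} {a : α} (h : PW D δ a) (hw : |D.w (D.x a) - 1| ≤ 1 / 2)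
    (A : ℂ →L[ℝ] ℂ) : |Lf_slow D a A| ≤ 8 * D.t a * ‖A‖ := by
  have ht := h.t_nonneg
  have hA := norm_nonneg A
  have h1 : |tr2 (A.comp (D.τ a))| ≤ 4 * (D.t a * ‖A‖) := by
    refine (abs_tr2_le _ 0).1.trans ?_
    have h2 : ‖A.comp (D.τ a)‖ ≤ ‖A‖ * (2 * D.t a) :=
      (ContinuousLinearMap.opNorm_comp_le _ _).trans (by gcongr; exact h.τ_le)
    linarith
  have h2 : |D.t a / 2 * tr2 A| ≤ D.t a * ‖A‖ := by
    rw [abs_mul, abs_of_nonneg (by positivity : 0 ≤ D.t a / 2)]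
    have := (abs_tr2_le A 0).1
    nlinarith
  have h3 : |D.w (D.x a)| ≤ 3 / 2 := by
    rw [abs_le] at hw ⊢
    constructor <;> linarith [hw.1, hw.2]
  have h4 : |tr2 (A.comp (D.τ a)) - D.t a / 2 * tr2 A| ≤ 5 * (D.t a * ‖A‖) :=
    (abs_sub _ _).trans (by linarith)
  unfold Lf_slow
  rw [abs_mul]
  have h5 : 0 ≤ D.t a * ‖A‖ := by positivity
  calc _ ≤ 3 / 2 * (5 * (D.t a * ‖A‖)) := by gcongr
    _ ≤ _ := by linarith

omit [FiniteDimensional ℝ H] [MeasurableSpace H] [BorelSpace H] in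
theorem Lf_id_slow {D : CD α H} {δ : ℝ} {a : α} (h : PW D δ a) (A : ℂ →L[ℝ] ℂ) (c : ℝ) :
    Lf_slow D a (A - c • ContinuousLinearMap.id ℝ ℂ) = Lf_slow D a A := by
  have h1 := h.tr_τ
  unfold Lf_slow
  rw [← h1]
  simp only [tr2, ContinuousLinearMap.comp_apply, sub_apply,
    smul_apply, ContinuousLinearMap.id_apply, Complex.sub_re, Complex.sub_im,
    Complex.smul_re, Complex.smul_im, smul_eq_mul, Complex.one_re, Complex.I_im]
  ring

omit [FiniteDimensional ℝ H] [BorelSpace H] in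
theorem Lf_meas_slow {D : CD α H} {c : ℂ} {R δ M : ℝ} (h : CV D c R δ M) {A : ℂ → ℂ →L[ℝ] ℂ}
    (hA : Continuous A) : Measurable fun p : ℂ × α => Lf_slow D p.2 (A p.1) := by
  have hev : Measurable fun z : (ℂ →L[ℝ] ℂ) × ℂ => z.1 z.2 :=
    (isBoundedBilinearMap_apply (𝕜 := ℝ) (E := ℂ) (F := ℂ)).continuous.measurable
  have hA' : Measurable fun p : ℂ × α => A p.1 := hA.measurable.comp measurable_fst
  have hτ : Measurable fun p : ℂ × α => D.τ p.2 := h.m_τ.comp measurable_snd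
  have h1 : ∀ v : ℂ, Measurable fun p : ℂ × α => A p.1 (D.τ p.2 v) := fun v =>
    hev.comp (hA'.prodMk (hev.comp (hτ.prodMk measurable_const)))
  have h2 : ∀ v : ℂ, Measurable fun p : ℂ × α => A p.1 v := fun v =>
    hev.comp (hA'.prodMk measurable_const)
  unfold Lf_slow tr2
  exact ((h.m_w.comp h.m_x).comp measurable_snd).mul
    (((Complex.measurable_re.comp (h1 1)).add (Complex.measurable_im.comp (h1 Complex.I))).sub
      (((h.m_t.comp measurable_snd).div_const 2).mul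
        ((Complex.measurable_re.comp (h2 1)).add (Complex.measurable_im.comp (h2 Complex.I)))))

omit [FiniteDimensional ℝ H] [BorelSpace H] in
theorem ae_slow {D : CD α H} {c : ℂ} {R δ M : ℝ} (h : CV D c R δ M) (hδ : δ ≤ 1 / 2) :
    ∀ᵐ a ∂D.m, PW D δ a ∧ |D.w (D.x a) - 1| ≤ 1 / 2 := by
  filter_upwards [h.pw_av, h.car] with a h1 h2
  exact ⟨h1, (h.w_le _ h2).1.trans hδ⟩

theorem Lf_int_slow {D : CD α H} {c : ℂ} {R δ M : ℝ} (h : CV D c R δ M) (hδ : δ ≤ 1 / 2)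
    (A : ℂ →L[ℝ] ℂ) : Integrable (fun a => Lf_slow D a A) D.m := by
  have hm : Measurable fun a => Lf_slow D a A :=
    (Lf_meas_slow h (A := fun _ => A) continuous_const).comp
      (measurable_prodMk_left (x := (0 : ℂ)))
  refine h.integrable hm.aestronglyMeasurable (16 * ‖A‖) fun a ha hx => ?_
  have h1 := Lf_le_slow (h.pw a ha) ((h.w_le _ hx).1.trans hδ) A
  have h2 := (h.pw a ha).t_le
  have h3 := norm_nonneg A
  rw [Real.norm_eq_abs]
  nlinarith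

omit [FiniteDimensional ℝ H] [BorelSpace H] in
theorem fubini_slow {D : CD α H} {c : ℂ} {R δ M : ℝ} (h : CV D c R δ M) (hδ : δ ≤ 1 / 2) {ρ : ℝ}
    (hρ : 0 < ρ) {A : ℂ → ℂ →L[ℝ] ℂ} (hA : Continuous A) (hi : Integrable A) {W : ℂ → ℂ}
    (hW : ∀ u, fderiv ℝ W u = ∫ v, kr ρ (u - v) • A v) :
    Integrable (fun u => D.av ρ (fun a => Lf_slow D a (A u)) u) ∧
      D.Hopf W = ∫ u, D.av ρ (fun a => Lf_slow D a (A u)) u := by
  have := h.fin
  have hm : Measurable fun p : ℂ × α => kr ρ (p.1 - D.x p.2) • Lf_slow D p.2 (A p.1) :=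
    ((kr_meas_av ρ).comp (measurable_fst.sub (h.m_x.comp measurable_snd))).mul (Lf_meas_slow h hA)
  have h0 : Integrable (fun p : ℂ × α => kr ρ (p.1 - D.x p.2) • Lf_slow D p.2 (A p.1))
      ((volume : Measure ℂ).prod D.m) := by
    refine (hi.norm.mul_prod (integrable_const (Ck / ρ ^ 2 * 16))).mono'
      hm.aestronglyMeasurable ?_
    filter_upwards [(Measure.quasiMeasurePreserving_snd (μ := (volume : Measure ℂ))
      (ν := D.m)).ae (ae_slow h hδ)] with p hp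
    have h1 := Lf_le_slow hp.1 hp.2 (A p.1)
    have h2 := hp.1.t_le
    have h3 := norm_nonneg (A p.1)
    have h4 : |Lf_slow D p.2 (A p.1)| ≤ 16 * ‖A p.1‖ := by nlinarith
    have h5 := kr_nonneg ρ (p.1 - D.x p.2)
    have h6 := (kr_le hρ (p.1 - D.x p.2)).1
    rw [norm_smul, Real.norm_of_nonneg h5, Real.norm_eq_abs]
    calc _ ≤ Ck / ρ ^ 2 * (16 * ‖A p.1‖) := mul_le_mul h6 h4 (abs_nonneg _) (h5.trans h6)
      _ = _ := by ring
  refine ⟨h0.integral_prod_left, ?_⟩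
  unfold CD.av
  rw [integral_integral_swap (f := fun u a => kr ρ (u - D.x a) • Lf_slow D a (A u)) h0]
  refine integral_congr_ae (Eventually.of_forall fun a => ?_)
  obtain ⟨φ, hφ⟩ := clm_slow (D.w (D.x a)) (D.t a) (D.τ a)
  have hk : Integrable fun v => kr ρ (D.x a - v) • A v :=
    hi.bdd_smul (Ck / ρ ^ 2)
      ((kr_meas_av ρ).comp (measurable_const.sub measurable_id)).aestronglyMeasurable
      (Eventually.of_forall fun v =>
        (Real.norm_of_nonneg (kr_nonneg ρ (D.x a - v))).trans_le (kr_le hρ _).1)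
  beta_reduce
  rw [← hφ, hW, ← φ.integral_comp_comm hk]
  refine integral_congr_ae (Eventually.of_forall fun v => ?_)
  beta_reduce
  rw [map_smul, hφ, ← kr_neg ρ (D.x a - v), neg_sub]
  rfl

omit [FiniteDimensional ℝ H] [MeasurableSpace H] [BorelSpace H] in
theorem av_nonneg_slow {D : CD α H} (ρ : ℝ) {f : α → ℝ} (hf : ∀ᵐ a ∂D.m, 0 ≤ f a) (u : ℂ) :
    0 ≤ D.av ρ f u :=
  integral_nonneg_of_ae (hf.mono fun _ ha => mul_nonneg (kr_nonneg _ _) ha)

omit [FiniteDimensional ℝ H] [BorelSpace H] in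
theorem av_add_slow {D : CD α H} {c : ℂ} {R δ M : ℝ} (h : CV D c R δ M) {ρ : ℝ} (hρ : 0 < ρ)
    {f g : α → ℝ} (hf : Integrable f D.m) (hg : Integrable g D.m) (p q : ℝ) (u : ℂ) :
    D.av ρ (fun a => p * f a + q * g a) u = p * D.av ρ f u + q * D.av ρ g u := by
  unfold CD.av
  rw [← integral_const_mul, ← integral_const_mul,
    ← integral_add ((h.int_av hρ hf u).const_mul p) ((h.int_av hρ hg u).const_mul q)]
  refine integral_congr_ae (Eventually.of_forall fun a => ?_)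
  simp only [smul_eq_mul]
  ring

theorem p_int_slow {D : CD α H} {c : ℂ} {R δ M : ℝ} (h : CV D c R δ M) (hδ : δ ≤ 1 / 2) {e : H}
    (he : ‖e‖ = 1) : Integrable (fun a => D.p e a ^ 2) D.m := by
  refine h.integrable ((h.meas_e e).2.1.pow_const 2).aestronglyMeasurable 24 fun a ha _ => ?_
  have h1 := (h.pw a ha).scal h.δ_nonneg hδ he
  rw [norm_pow]
  linarith [h1.2.2.1, h1.2.2.2.2.1]

theorem good_slow {D : CD α H} {c : ℂ} {R δ M : ℝ} (h : CV D c R δ M) (hδ : δ ≤ 1 / 2) {ρ : ℝ}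
    (hρ : 0 < ρ) {ι : Type*} [Fintype ι] (e : OrthonormalBasis ι ℝ H) (A : ℂ →L[ℝ] ℂ) (u : ℂ)
    {g : α → ℝ} (hg : Integrable g D.m)
    (hb : ∀ᵐ a ∂D.m, a ∈ D.cyl u ρ → (18 * D.t a ^ 2 + 6 * ‖D.y a‖ ^ 2) * ‖A‖ ≤ g a) :
    |D.av ρ (fun a => Lf_slow D a A) u - hp A (∑ i, D.av ρ (fun a => D.p (e i) a ^ 2) u)| ≤
      D.av ρ g u := by
  obtain ⟨ψ, hψ⟩ := hp_clm_slow A
  have hp1 : ∀ i, Integrable (fun a => D.p (e i) a ^ 2) D.m := fun i =>
    p_int_slow h hδ (e.orthonormal.1 i)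
  have hp2 : Integrable (fun a => ∑ i, D.p (e i) a ^ 2) D.m :=
    integrable_finsetSum _ fun i _ => hp1 i
  have hp3 : Integrable (fun a => ψ (∑ i, D.p (e i) a ^ 2)) D.m := ψ.integrable_comp hp2
  have e1 : hp A (∑ i, D.av ρ (fun a => D.p (e i) a ^ 2) u) =
      D.av ρ (fun a => ψ (∑ i, D.p (e i) a ^ 2)) u := by
    unfold CD.av
    rw [← hψ, ← integral_finsetSum _ fun i _ => h.int_av hρ (hp1 i) u,
      ← ψ.integral_comp_comm (integrable_finsetSum _ fun i _ => h.int_av hρ (hp1 i) u)]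
    refine integral_congr_ae (Eventually.of_forall fun a => ?_)
    beta_reduce
    rw [← Finset.smul_sum, map_smul]
  have e2 := av_add_slow h hρ (Lf_int_slow h hδ A) hp3 1 (-1) u
  have e3 : D.av ρ (fun a => Lf_slow D a A) u - D.av ρ (fun a => ψ (∑ i, D.p (e i) a ^ 2)) u =
      D.av ρ (fun a => 1 * Lf_slow D a A + -1 * ψ (∑ i, D.p (e i) a ^ 2)) u := by
    rw [e2]; ring
  rw [e1, e3, ← Real.norm_eq_abs]
  refine (h.norm_av_le hρ hg u ?_).1
  filter_upwards [h.pw_av, hb] with a ha hba hc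
  refine le_trans ?_ (hba hc)
  have h1 := (ha.sum_basis h.δ_nonneg hδ e).2 A
  have e4 : 1 * Lf_slow D a A + -1 * ψ (∑ i, D.p (e i) a ^ 2) =
      D.w (D.x a) * (tr2 (A.comp (D.τ a)) - D.t a / 2 * tr2 A) - hp A (∑ i, D.p (e i) a ^ 2) := by
    rw [hψ, Lf_slow]; ring
  rw [e4, Real.norm_eq_abs]
  refine h1.trans (mul_le_mul_of_nonneg_right ?_ (norm_nonneg _))
  have h2 := ha.t_nonneg
  have h3 := norm_nonneg (D.y a)
  have h4 : δ * (‖D.y a‖ * D.t a + ‖D.y a‖ ^ 2) ≤ 1 / 2 * (‖D.y a‖ * D.t a + ‖D.y a‖ ^ 2) := by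
    gcongr
  nlinarith [sq_nonneg (‖D.y a‖ - D.t a)]

theorem disc_slow {D : CD α H} {c : ℂ} {R δ M : ℝ} (h : CV D c R δ M) (hδ : δ ≤ 1 / 2) {ρ : ℝ}
    (hρ : 0 < ρ) (A : ℂ →L[ℝ] ℂ) (k : ℝ) (u : ℂ) {b : ℝ}
    (hb : ‖A - k • ContinuousLinearMap.id ℝ ℂ‖ ≤ b) (ζ : ℂ) :
    |D.av ρ (fun a => Lf_slow D a A) u - hp A ζ| ≤ 8 * b * D.av ρ D.en u + b * ‖ζ‖ := by
  have hen := h.integrable_t.2.2.2.1
  have h1 : ‖D.av ρ (fun a => Lf_slow D a A) u‖ ≤
      D.av ρ (fun a => 8 * b * D.en a + 0 * D.en a) u := by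
    refine (h.norm_av_le hρ (g := fun a => 8 * b * D.en a + 0 * D.en a)
      ((hen.const_mul _).add (hen.const_mul _)) u ?_).1
    filter_upwards [ae_slow h hδ] with a ha _
    rw [← Lf_id_slow ha.1 A k, Real.norm_eq_abs]
    refine (Lf_le_slow ha.1 ha.2 _).trans ?_
    have h2 : D.t a ≤ D.en a := le_add_of_nonneg_right (sq_nonneg _)
    have h3 := ha.1.t_nonneg
    have h4 : 8 * D.t a * ‖A - k • ContinuousLinearMap.id ℝ ℂ‖ ≤ 8 * D.en a * b :=
      mul_le_mul (by linarith) hb (norm_nonneg _) (by linarith)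
    linarith
  rw [av_add_slow h hρ hen hen, Real.norm_eq_abs] at h1
  have h2 : |hp A ζ| ≤ b * ‖ζ‖ := by
    have e1 : hp (A - k • ContinuousLinearMap.id ℝ ℂ) ζ = hp A ζ := by
      rw [(abs_tr2_le A ζ).2.2.2.1, (abs_tr2_le A ζ).2.2.1, sub_zero]
    rw [← e1]
    exact (abs_tr2_le _ ζ).2.1.trans (by gcongr)
  exact (abs_sub _ _).trans (by linarith)

theorem nest_slow {B : ℕ → Finset (ℂ × ℝ)} {Y : ℕ → ℂ → ℂ} {ρ ϑ : ℝ} {n : ℕ}
    (hT : Tower B Y ρ ϑ n) (hρ : 0 < ρ) {u : ℂ} (h0 : ∃ b ∈ B 0, ‖u - b.1‖ + 2 * ρ ≤ b.2)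
    (a : ℕ) : ∃ b ∈ B a, ‖u - b.1‖ + 2 * ρ ≤ b.2 := by
  induction a with
  | zero => exact h0
  | succ a ih =>
    obtain ⟨b, hb, h1⟩ := ih
    obtain ⟨b', hb', h2⟩ := hT.nest a b hb
    refine ⟨b', hb', ?_⟩
    have h3 := norm_sub_le_norm_sub_add_norm_sub u b.1 b'.1
    linarith

theorem s_low {ι : Type*} [Fintype ι] (e : OrthonormalBasis ι ℝ H) (M : ℝ) (Q : ℕ) (C₀ : ℝ) :
    ∃ C : ℝ, 0 < C ∧ ∀ (D : CD α H) (R δ s ρ r l η η₁ ϑ X X' : ℝ) (B : ℕ → Finset (ℂ × ℝ))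
    (Y : ℕ → ℂ → ℂ) (n : ℕ) (U : ι → ℕ → ℂ → ℝ) (f : ι → ℝ → ℝ) (lv : ι → ℕ → ℂ → ℝ)
    (Err : ℂ → ℝ), CV D 0 R δ M → δ ≤ 1 / 2 → Sm D s ρ → SE D R r l ρ η₁ ϑ B Y n → ϑ ≤ l →
    (∀ i, UF D (e i) R s ρ η Q C₀ (U i) (f i) (lv i)) →
    ∫ u in ball (0 : ℂ) (r + l) ∩ {u | D.En u (32 * ρ) ≤ η₁},
      D.av ρ (fun a => D.t a ^ 2) u ≤ X →
    Continuous Err → (∀ u, 0 ≤ Err u) → ∫ u in ball (0 : ℂ) r, Err u ≤ X' →
    (∀ u : ℂ, ‖u‖ ≤ r → D.En u (32 * ρ) ≤ η₁ → ∀ i,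
      ‖∑ j ∈ Finset.range Q, (grad (U i (j + 1)) u - grad (U i j) u) ^ 2 -
        D.av ρ (fun a => D.p (e i) a ^ 2) u‖ ≤ Err u) →
    ∀ a < n, |D.Hopf (moll ρ fun x => chi r x • Y a x) -
        ∑ i, ∑ j ∈ Finset.range Q, ∫ u, hp (fderiv ℝ (fun x => chi r x • Y a x) u)
          ((grad (U i (j + 1)) u - grad (U i j) u) ^ 2)| ≤
      C * ((ρ + ϑ) / l * s ^ 4 + X + X' + r ^ 2 * D.hh r) := by
  obtain ⟨C₁, hC₁, hmoll⟩ := moll_facts
  obtain ⟨C₂, hC₂, hgr⟩ := uf_grad (α := α) (H := H) M C₀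
  obtain ⟨N, hN⟩ : ∃ N : ℝ, N = Fintype.card ι := ⟨_, rfl⟩
  have hN0 : 0 ≤ N := hN ▸ Nat.cast_nonneg _
  have hQ0 : (0 : ℝ) ≤ Q := Nat.cast_nonneg _
  obtain ⟨P, hP⟩ : ∃ P : ℝ, P = N * (Q * (4 * C₂)) := ⟨_, rfl⟩
  have hP0 : 0 ≤ P := by rw [hP]; positivity
  obtain ⟨K, hK⟩ : ∃ K : ℝ, K = 6 * (18 + C₁) + 18 * (3 + C₁) + (3 + C₁) * N + C₁ * (8 + P) :=
    ⟨_, rfl⟩
  have hx1 : 0 ≤ (3 + C₁) * N := by positivity
  have hx2 : 0 ≤ C₁ * (8 + P) := by positivity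
  have hK1 : 6 * (18 + C₁) ≤ K := by linarith
  have hK2 : 18 * (3 + C₁) ≤ K := by linarith
  have hK3 : (3 + C₁) * N ≤ K := by linarith
  have hK4 : C₁ * (8 + P) ≤ K := by linarith
  have hK0 : 6 ≤ K := by linarith
  refine ⟨17 * K, by linarith, ?_⟩
  intro D R δ s ρ r l η η₁ ϑ X X' B Y n U f lv Err h hδ hs hE hϑl hU hX hEc hE0 hX' hErr a ha
  have hfin := h.fin
  have hρ := hs.ρ_pos
  have hs0 := hs.s_pos
  have hl : 0 < l := by linarith [hE.ρ_le]
  have hlr := hE.l_le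
  have hr : 0 < r := by linarith
  have hR := h.R_le
  have hrR := hE.r_add
  have hρl := hE.ρ_le
  have hρ2 : ρ ≤ 1 / 2 := by linarith
  have hs1 : s ≤ 1 := hs.s_le.trans (pow_le_one₀ hρ.le (by linarith))
  have hs6 : s ^ 6 ≤ s ^ 4 := pow_le_pow_of_le_one hs0.le hs1 (by norm_num)
  have hs4 : 0 < s ^ 4 := by positivity
  have hϑ : 0 ≤ ϑ := le_trans (Finset.sum_nonneg fun b hb => (hE.tower.pos 0 b hb).le)
    (hE.tower.rad 0 (Nat.zero_le _))
  obtain ⟨κ, hκ⟩ : ∃ κ : ℝ, κ = (ρ + ϑ) / l := ⟨_, rfl⟩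
  rw [← hκ]
  have hκ0 : 0 ≤ κ := by rw [hκ]; positivity
  have hκ1 : ϑ / r ≤ κ := by rw [hκ]; gcongr; linarith
  have hκ2 : ρ / r ≤ κ := by rw [hκ]; gcongr; linarith
  have hb1 : C₁ * ϑ / r ≤ C₁ * κ := by rw [mul_div_assoc]; gcongr
  have hb2 : C₁ * ϑ / r ≤ C₁ := by
    rw [div_le_iff₀ hr]; gcongr; linarith
  obtain ⟨m1, m2, m3, m4, -, -, -, m8, -⟩ := hmoll B Y ρ ϑ r n a hE.tower hρ hr ha.le
  obtain ⟨-, c2, c3, c4, c5, -, -, -, c9⟩ := chi_props hr
  obtain ⟨A, hA⟩ : ∃ A : ℂ → ℂ →L[ℝ] ℂ, A = fderiv ℝ fun x => chi r x • Y a x := ⟨_, rfl⟩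
  have hAc : Continuous A := hA ▸ m1.continuous_fderiv one_ne_zero
  rw [← hA] at m2 m3 m4 m8 ⊢
  have hout : ∀ u : ℂ, u ∉ closedBall (0 : ℂ) r → A u = 0 := fun u hu =>
    m3 u (le_of_lt (by simpa using hu))
  have hAi : Integrable A :=
    hAc.integrable_of_hasCompactSupport (HasCompactSupport.intro (isCompact_closedBall 0 r) hout)
  obtain ⟨f1, f2⟩ := fubini_slow h hδ hρ hAc hAi m8
  obtain ⟨G, hG⟩ : ∃ G : ι → ℕ → ℂ → ℂ,
      ∀ i j u, G i j u = (grad (U i (j + 1)) u - grad (U i j) u) ^ 2 := ⟨_, fun _ _ _ => rfl⟩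
  simp only [← hG] at hErr ⊢
  have hGc : ∀ i j, Continuous (G i j) := fun i j => by
    rw [show G i j = fun u => (grad (U i (j + 1)) u - grad (U i j) u) ^ 2 from funext (hG i j)]
    exact ((continuous_lap ((hU i).smooth (j + 1))).2.1.continuous.sub
      (continuous_lap ((hU i).smooth j)).2.1.continuous).pow 2
  have hp0 : ∀ ζ, hp 0 ζ = 0 := fun ζ => by simp [hp, dzb]
  have g1 : ∀ i j, Integrable fun u => hp (A u) (G i j u) := fun i j =>
    (hp_cont_slow hAc (hGc i j)).integrable_of_hasCompactSupport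
      (HasCompactSupport.intro (isCompact_closedBall 0 r) fun u hu => by rw [hout u hu, hp0])
  have g2 : ∀ i, Integrable fun u => ∑ j ∈ Finset.range Q, hp (A u) (G i j u) := fun i =>
    integrable_finsetSum _ fun j _ => g1 i j
  have g3 : ∀ u, ∑ i, ∑ j ∈ Finset.range Q, hp (A u) (G i j u) =
      hp (A u) (∑ i, ∑ j ∈ Finset.range Q, G i j u) := fun u => by
    obtain ⟨ψ, hψ⟩ := hp_clm_slow (A u)
    simp only [← hψ, map_sum]
  have g4 : ∑ i, ∑ j ∈ Finset.range Q, ∫ u, hp (A u) (G i j u) =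
      ∫ u, ∑ i, ∑ j ∈ Finset.range Q, hp (A u) (G i j u) := by
    rw [integral_finsetSum _ fun i _ => g2 i]
    exact Finset.sum_congr rfl fun i _ => (integral_finsetSum _ fun j _ => g1 i j).symm
  rw [f2, g4, ← integral_sub f1 (integrable_finsetSum _ fun i _ => g2 i)]
  simp only [g3]
  -- the integrable majorant
  obtain ⟨-, it2, iy2, ien, -⟩ := h.integrable_t
  have iom : Integrable (fun b => om r (D.x b) * ‖D.y b‖ ^ 2) D.m :=
    iy2.bdd_mul (c := 3) (c2.continuous.measurable.comp h.m_x).aestronglyMeasurable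
      (Eventually.of_forall fun b => (Real.norm_of_nonneg (c4 _).1).trans_le (c4 _).2)
  have hen0 : ∀ᵐ b ∂D.m, 0 ≤ D.en b := h.pw_av.mono fun _ hb => hb.facts_av.1
  have n1 : ∀ u, 0 ≤ D.av ρ (fun b => om r (D.x b) * ‖D.y b‖ ^ 2) u :=
    av_nonneg_slow ρ (Eventually.of_forall fun b => mul_nonneg (c4 _).1 (sq_nonneg _))
  have n2 : ∀ u, 0 ≤ D.av ρ D.en u := av_nonneg_slow ρ hen0
  have n3 : ∀ u, 0 ≤ D.av ρ (fun b => D.t b ^ 2) u :=
    av_nonneg_slow ρ (Eventually.of_forall fun b => sq_nonneg _)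
  obtain ⟨S, hS⟩ : ∃ S : Set ℂ, S = ball (0 : ℂ) (r + l) ∩ {u | D.En u (32 * ρ) ≤ η₁} := ⟨_, rfl⟩
  have hSm : MeasurableSet S := by
    rw [hS]
    exact measurableSet_ball.inter
      (measurableSet_le (meas_local h.m_x ien (32 * ρ)) measurable_const)
  rw [← hS] at hX
  obtain ⟨i1, j1⟩ := h.integral_av_one hρ iom
  obtain ⟨i2, j2⟩ := h.integral_av_one hρ ien
  obtain ⟨i3, -⟩ := h.integral_av_one hρ it2
  have i3' := i3.indicator hSm
  have iE : IntegrableOn Err (ball (0 : ℂ) r) :=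
    (hEc.continuousOn.integrableOn_compact (isCompact_closedBall 0 r)).mono_set
      ball_subset_closedBall
  have iE' := (integrable_indicator_iff measurableSet_ball).2 iE
  have iC : IntegrableOn (fun _ : ℂ => (1 : ℝ)) (ball (0 : ℂ) r) :=
    integrableOn_const measure_ball_lt_top.ne
  have iC' := (integrable_indicator_iff measurableSet_ball).2 iC
  have key : ∀ u, ‖D.av ρ (fun b => Lf_slow D b (A u)) u -
      hp (A u) (∑ i, ∑ j ∈ Finset.range Q, G i j u)‖ ≤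
      6 * D.av ρ (fun b => om r (D.x b) * ‖D.y b‖ ^ 2) u + K * κ * D.av ρ D.en u +
        K * S.indicator (D.av ρ fun b => D.t b ^ 2) u + K * (ball (0 : ℂ) r).indicator Err u +
        K * κ * s ^ 4 * (ball (0 : ℂ) r).indicator (fun _ => (1 : ℝ)) u := by
    intro u
    have q1 := n1 u
    have q2 : 0 ≤ K * κ * D.av ρ D.en u := mul_nonneg (by positivity) (n2 u)
    have q3 : 0 ≤ K * S.indicator (D.av ρ fun b => D.t b ^ 2) u :=
      mul_nonneg (by positivity) (indicator_nonneg (fun v _ => n3 v) u)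
    have q4 : 0 ≤ K * (ball (0 : ℂ) r).indicator Err u :=
      mul_nonneg (by positivity) (indicator_nonneg (fun v _ => hE0 v) u)
    have q5 : 0 ≤ K * κ * s ^ 4 * (ball (0 : ℂ) r).indicator (fun _ => (1 : ℝ)) u :=
      mul_nonneg (by positivity) (indicator_nonneg (fun v _ => zero_le_one) u)
    rw [Real.norm_eq_abs]
    rcases le_or_gt r ‖u‖ with hu | hu
    · have e0 : D.av ρ (fun b => Lf_slow D b (A u)) u = 0 := by
        simp [m3 u hu, CD.av, Lf_slow, tr2]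
      rw [e0, m3 u hu, hp0, sub_zero, abs_zero]
      linarith
    have hub : u ∈ ball (0 : ℂ) r := mem_ball_zero_iff.2 hu
    by_cases hd : ∃ b ∈ B a, u ∈ ball b.1 b.2
    · obtain ⟨b, hb, hub'⟩ := hd
      have d1 := disc_slow h hδ hρ (A u) (chi r u) u ((m4 b hb u hub').trans hb1)
        (∑ i, ∑ j ∈ Finset.range Q, G i j u)
      have d2 : ∀ i, ∀ j ∈ Finset.range Q, ‖G i j u‖ ≤ 4 * C₂ * (D.av ρ D.en u + s ^ 6) := by
        intro i j hj
        have hj' := Finset.mem_range.1 hj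
        have e1 := hgr D R δ s ρ η Q (e i) (U i) (f i) (lv i) h hδ hs hρ2 (e.orthonormal.1 i)
          (hU i) (j + 1) hj' u (by linarith)
        have e2 := hgr D R δ s ρ η Q (e i) (U i) (f i) (lv i) h hδ hs hρ2 (e.orthonormal.1 i)
          (hU i) j hj'.le u (by linarith)
        have e3 := norm_sub_le (grad (U i (j + 1)) u) (grad (U i j) u)
        have e4 := pow_le_pow_left₀ (norm_nonneg _) e3 2
        rw [hG, norm_pow]
        nlinarith [sq_nonneg (‖grad (U i (j + 1)) u‖ - ‖grad (U i j) u‖)]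
      have d3 : ‖∑ i, ∑ j ∈ Finset.range Q, G i j u‖ ≤ P * (D.av ρ D.en u + s ^ 6) := by
        refine (norm_sum_le_of_le _ fun i _ => norm_sum_le_of_le _ (d2 i)).trans (le_of_eq ?_)
        simp only [Finset.sum_const, Finset.card_range, Finset.card_univ, nsmul_eq_mul]
        rw [hP, hN]
        ring
      have d4 : C₁ * κ * ‖∑ i, ∑ j ∈ Finset.range Q, G i j u‖ ≤
          C₁ * κ * (P * (D.av ρ D.en u + s ^ 4)) := by
        refine mul_le_mul_of_nonneg_left (d3.trans ?_) (by positivity)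
        gcongr
      have d5 : C₁ * (8 + P) * (κ * D.av ρ D.en u) ≤ K * (κ * D.av ρ D.en u) :=
        mul_le_mul_of_nonneg_right hK4 (mul_nonneg hκ0 (n2 u))
      have d6 : C₁ * P * (κ * s ^ 4) ≤ K * (κ * s ^ 4) :=
        mul_le_mul_of_nonneg_right (by linarith) (by positivity)
      rw [indicator_of_mem hub (fun _ => (1 : ℝ))]
      linarith
    · have e1 : D.En u (42 * ρ) ≤ η₁ := by
        by_contra hc
        obtain ⟨b, hb, h1⟩ := nest_slow hE.tower hρ (hE.cov u (not_le.1 hc)) a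
        exact hd ⟨b, hb, mem_ball_iff_norm.2 (by linarith)⟩
      have e2 : D.En u (32 * ρ) ≤ η₁ :=
        le_trans (setIntegral_mono_set ien.integrableOn (ae_restrict_of_ae hen0)
          (cyl_mono_base2 D u (by linarith)).eventuallyLE) e1
      have huS : u ∈ S := by
        rw [hS]
        exact ⟨mem_ball_zero_iff.2 (by linarith), e2⟩
      have hA3 : ‖A u‖ ≤ 3 + C₁ := by linarith [m2 u, (c3 u).2]
      have d1 := good_slow h hδ hρ e (A u) u
        (g := fun b => K * D.t b ^ 2 + 1 * (6 * (om r (D.x b) * ‖D.y b‖ ^ 2) + K * κ * D.en b))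
        ((it2.const_mul _).add (((iom.const_mul _).add (ien.const_mul _)).const_mul _)) (by
          filter_upwards [h.pw_av] with b hb hc
          have w1 : ‖u - D.x b‖ ≤ ρ := by rw [norm_sub_rev]; exact le_of_lt hc
          have w2 : 6 / r * ‖u - D.x b‖ ≤ 6 * κ := by
            calc _ ≤ 6 / r * ρ := by gcongr
              _ = 6 * (ρ / r) := by ring
              _ ≤ _ := by gcongr
          have w3 : ‖A u‖ ≤ om r (D.x b) + (18 + C₁) * κ := by
            linarith [m2 u, (abs_le.1 (c9 u (D.x b)).1).2, c5 (D.x b)]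
          have w4 : ‖D.y b‖ ^ 2 ≤ D.en b := le_add_of_nonneg_left hb.t_nonneg
          have w5 : D.t b ^ 2 * (18 * ‖A u‖) ≤ D.t b ^ 2 * K :=
            mul_le_mul_of_nonneg_left (by linarith) (sq_nonneg _)
          have w6 : ‖D.y b‖ ^ 2 * ‖A u‖ ≤ ‖D.y b‖ ^ 2 * (om r (D.x b) + (18 + C₁) * κ) :=
            mul_le_mul_of_nonneg_left w3 (sq_nonneg _)
          have w7 : 6 * (18 + C₁) * (κ * ‖D.y b‖ ^ 2) ≤ K * (κ * D.en b) :=
            mul_le_mul hK1 (by gcongr) (by positivity) (by linarith)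
          linarith)
      rw [av_add_slow h hρ (g := fun b => 6 * (om r (D.x b) * ‖D.y b‖ ^ 2) + K * κ * D.en b) it2
        ((iom.const_mul _).add (ien.const_mul _)), av_add_slow h hρ iom ien] at d1
      have d2 : ‖∑ i, ∑ j ∈ Finset.range Q, G i j u -
          ∑ i, D.av ρ (fun b => D.p (e i) b ^ 2) u‖ ≤ N * Err u := by
        rw [← Finset.sum_sub_distrib]
        refine (norm_sum_le_of_le _ fun i _ => hErr u hu.le e2 i).trans (le_of_eq ?_)
        simp only [Finset.sum_const, Finset.card_univ, nsmul_eq_mul]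
        rw [hN]
      have d3 : |hp (A u) (∑ i, ∑ j ∈ Finset.range Q, G i j u) -
          hp (A u) (∑ i, D.av ρ (fun b => D.p (e i) b ^ 2) u)| ≤ K * Err u := by
        obtain ⟨ψ, hψ⟩ := hp_clm_slow (A u)
        rw [← hψ, ← hψ, ← map_sub, hψ]
        refine (abs_tr2_le _ _).2.1.trans ?_
        calc _ ≤ (3 + C₁) * (N * Err u) := mul_le_mul hA3 d2 (norm_nonneg _) (by linarith)
          _ = (3 + C₁) * N * Err u := by ring
          _ ≤ _ := mul_le_mul_of_nonneg_right hK3 (hE0 u)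
      rw [indicator_of_mem hub Err, indicator_of_mem huS]
      rw [abs_le] at d1 d3 ⊢
      constructor <;> linarith [d1.1, d1.2, d3.1, d3.2]
  have b1 := (i1.const_mul 6).add (i2.const_mul (K * κ))
  have b2 := b1.add (i3'.const_mul K)
  have b3 := b2.add (iE'.const_mul K)
  have b4 := b3.add (iC'.const_mul (K * κ * s ^ 4))
  rw [← Real.norm_eq_abs]
  refine (norm_integral_le_of_norm_le b4 (Eventually.of_forall key)).trans ?_
  rw [integral_add' b3 (iC'.const_mul _), integral_add' b2 (iE'.const_mul _),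
    integral_add' b1 (i3'.const_mul _), integral_add' (i1.const_mul _) (i2.const_mul _)]
  simp only [integral_const_mul]
  rw [j1, j2, integral_indicator hSm, integral_indicator measurableSet_ball,
    integral_indicator measurableSet_ball]
  have v1 : ∫ _ in ball (0 : ℂ) r, (1 : ℝ) ≤ 16 := by
    rw [setIntegral_const, smul_eq_mul, mul_one, Measure.real, Complex.volume_ball]
    simp only [ENNReal.toReal_mul, ENNReal.toReal_pow, ENNReal.toReal_ofReal hr.le,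
      ENNReal.coe_toReal, NNReal.coe_real_pi]
    have z1 : r ^ 2 ≤ 2 ^ 2 := by gcongr; linarith
    calc r ^ 2 * Real.pi ≤ 2 ^ 2 * 4 := by gcongr; exact Real.pi_le_four
      _ = 16 := by norm_num
  have v2 : ∫ b, om r (D.x b) * ‖D.y b‖ ^ 2 ∂D.m = r ^ 2 * D.hh r := by
    unfold CD.hh
    field_simp
  have v3 : 0 ≤ r ^ 2 * D.hh r := by
    rw [← v2]
    exact integral_nonneg fun b => mul_nonneg (c4 _).1 (sq_nonneg _)
  have v4 : 0 ≤ X := le_trans (integral_nonneg n3) hX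
  have v5 : 0 ≤ X' := le_trans (integral_nonneg hE0) hX'
  have v6 : K * κ * ∫ b, D.en b ∂D.m ≤ K * κ * s ^ 4 :=
    mul_le_mul_of_nonneg_left hs.en_le (by positivity)
  have v7 := mul_le_mul_of_nonneg_left hX (by linarith : 0 ≤ K)
  have v8 := mul_le_mul_of_nonneg_left hX' (by linarith : 0 ≤ K)
  have v9 := mul_le_mul_of_nonneg_left v1 (by positivity : 0 ≤ K * κ * s ^ 4)
  have v10 := mul_le_mul_of_nonneg_right hK0 v3
  have v11 : 0 ≤ K * X := by positivity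
  have v12 : 0 ≤ K * X' := by positivity
  rw [v2]
  linarith

end Pool.Agent.Lib.MP_8daebb_an.SV
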