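import Pool.Agent.Lib.MP_8daebb_an.SV.Moll
import Pool.Agent.Lib.MP_8daebb_an.SV.Base
import Pool.Agent.Lib.MP_8daebb_an.SV.IBP

/-! Upper bound for the Hopf term at some level. -/

open MeasureTheory Metric Filter Topology Set
open scoped RealInnerProductSpace ENNReal ContDiff

namespace Pool.Agent.Lib.MP_8daebb_an.SV

variable {α : Type*} [MeasurableSpace α] {H : Type*} [NormedAddCommGroup H]
  [InnerProductSpace ℝ H] [FiniteDimensional ℝ H] [MeasurableSpace H] [BorelSpace H]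

theorem tr_le_sup (A τ : ℂ →L[ℝ] ℂ) {t : ℝ} (ht : 0 ≤ t) (hτ : ‖τ‖ ≤ 2 * t) :
    |tr2 (A.comp τ) - t / 2 * tr2 A| ≤ 5 * t * ‖A‖ := by
  have h1 := (abs_tr2_le (A.comp τ) 0).1
  have h2 := (abs_tr2_le A 0).1
  have h3 : ‖A.comp τ‖ ≤ ‖A‖ * (2 * t) :=
    (A.opNorm_comp_le τ).trans (mul_le_mul_of_nonneg_left hτ (norm_nonneg _))
  have h4 := abs_sub (tr2 (A.comp τ)) (t / 2 * tr2 A)
  rw [abs_mul, abs_of_nonneg (by positivity : 0 ≤ t / 2)] at h4
  have h5 : t / 2 * |tr2 A| ≤ t / 2 * (2 * ‖A‖) := mul_le_mul_of_nonneg_left h2 (by positivity)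
  nlinarith

theorem tr_id_sup (A τ : ℂ →L[ℝ] ℂ) {t : ℝ} (hτ : tr2 τ = t) (c : ℝ) :
    tr2 (A.comp τ) - t / 2 * tr2 A =
      tr2 ((A - c • ContinuousLinearMap.id ℝ ℂ).comp τ) -
        t / 2 * tr2 (A - c • ContinuousLinearMap.id ℝ ℂ) := by
  rw [← hτ]
  simp [tr2]
  ring

theorem tele_sup (K : ℕ → ℝ) (n : ℕ) :
    ∑ a ∈ Finset.range n, (K (a + 2) - K a) = K (n + 1) + K n - K 1 - K 0 := by
  induction n with
  | zero => simp
  | succ n ih => rw [Finset.sum_range_succ, ih]; ring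

/-- Pigeonhole on the levels of the tower. -/
theorem s_up : ∃ C : ℝ, 0 < C ∧
    ∀ (D : CD α H) (R δ M s ρ r l η₁ ϑ : ℝ) (B : ℕ → Finset (ℂ × ℝ)) (Y : ℕ → ℂ → ℂ) (n : ℕ),
    CV D 0 R δ M → δ ≤ 1 / 2 → Sm D s ρ → SE D R r l ρ η₁ ϑ B Y n →
    ∃ a < n, |D.Hopf (moll ρ fun x => chi r x • Y a x)| ≤
      C * (D.dr r / n + (ρ + ϑ) / l * s ^ 4) := by
  obtain ⟨C, hC, hm⟩ := moll_facts
  refine ⟨30 + 8 * C, by positivity, fun D R δ M s ρ r l η₁ ϑ B Y n hcv hδ hs hse => ?_⟩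
  have T := hse.tower
  have hρ := hs.ρ_pos
  have hl : 0 < l := by linarith [hse.ρ_le]
  have hr : 0 < r := by linarith [hse.l_le]
  have hϑ : 0 ≤ ϑ := by linarith [norm_nonneg (Y 0 0), T.size 0 (Nat.zero_le _) 0]
  have hn : (0 : ℝ) < n := by exact_mod_cast hse.n_pos
  obtain ⟨c1, -, c2, -⟩ := chi_props hr
  set S : ℕ → Set ℂ := fun a => {u | ∃ b ∈ B a, ‖u - b.1‖ + ρ ≤ b.2} with hS
  have hSm : ∀ a, MeasurableSet (D.x ⁻¹' S a) := fun a => by
    refine hcv.m_x ?_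
    have e : S a = ⋃ b ∈ B a, {u : ℂ | ‖u - b.1‖ + ρ ≤ b.2} := by
      ext u; simp [hS]
    rw [e]
    exact Finset.measurableSet_biUnion _ fun b _ =>
      (isClosed_le (by fun_prop) continuous_const).measurableSet
  have hS1 : ∀ a, S a ⊆ S (a + 1) := fun a u ⟨b, hb, h⟩ => by
    obtain ⟨b', hb', h'⟩ := T.nest a b hb
    refine ⟨b', hb', ?_⟩
    have := norm_sub_le_norm_sub_add_norm_sub u b.1 b'.1
    linarith
  have hw : ∀ u ∈ ball (0 : ℂ) R, 1 / 2 ≤ D.w u ∧ D.w u ≤ 3 / 2 := fun u hu => by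
    have := abs_le.1 (hcv.w_le u hu).1
    constructor <;> linarith [this.1, this.2]
  set f : α → ℝ := fun p => chi r (D.x p) * D.w (D.x p) * D.t p with hf
  have hfi : Integrable f D.m := by
    refine hcv.integrable (((c1.continuous.measurable.comp hcv.m_x).mul
      (hcv.m_w.comp hcv.m_x)).mul hcv.m_t).aestronglyMeasurable (1 * (3 / 2) * 2) fun p hp hx => ?_
    have h1 := c2 (D.x p)
    have h2 := hw _ hx
    have h3 := (hcv.pw p hp).t_nonneg
    have h4 := (hcv.pw p hp).t_le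
    have h5 : 0 ≤ D.w (D.x p) := by linarith [h2.1]
    rw [Real.norm_of_nonneg (mul_nonneg (mul_nonneg h1.1 h5) h3)]
    exact mul_le_mul (mul_le_mul h1.2 h2.2 h5 zero_le_one) h4 h3 (by norm_num)
  have hf0 : 0 ≤ᵐ[D.m] f := by
    filter_upwards [hcv.ae_G, hcv.car] with p hp hx
    exact mul_nonneg (mul_nonneg (c2 _).1 (by linarith [(hw _ hx).1])) (hcv.pw p hp).t_nonneg
  set K : ℕ → ℝ := fun a => ∫ p in D.x ⁻¹' S a, f p ∂D.m with hK
  have hK0 : ∀ a, 0 ≤ K a := fun a => integral_nonneg_of_ae (ae_restrict_of_ae hf0)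
  have hK1 : ∀ a, K a ≤ D.dr r := fun a => setIntegral_le_integral hfi hf0
  have hd0 : 0 ≤ D.dr r := (hK0 0).trans (hK1 0)
  obtain ⟨a, ha, hKa⟩ : ∃ a ∈ Finset.range n, K (a + 2) - K a ≤ 2 * D.dr r / n := by
    refine Finset.exists_le_of_sum_le ⟨0, Finset.mem_range.2 hse.n_pos⟩ ?_
    rw [tele_sup, Finset.sum_const, Finset.card_range, nsmul_eq_mul,
      mul_div_cancel₀ _ hn.ne']
    linarith [hK0 0, hK0 1, hK1 n, hK1 (n + 1)]
  have han : a < n := Finset.mem_range.1 ha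
  refine ⟨a, han, ?_⟩
  obtain ⟨-, -, -, -, -, -, -, -, m1, m2, m3⟩ := hm B Y ρ ϑ r n a T hρ hr han.le
  set ε := C * (ρ + ϑ) / r with hε
  have hε0 : 0 ≤ ε := by positivity
  obtain ⟨hti, -, -, hei, -⟩ := hcv.integrable_t
  have ht : ∫ p, D.t p ∂D.m ≤ s ^ 4 := by
    refine le_trans (integral_mono hti hei fun p => ?_) hs.en_le
    exact le_add_of_nonneg_right (sq_nonneg _)
  have i2 := hfi.indicator (hSm (a + 2))
  have i0 := hfi.indicator (hSm a)
  have i3 : Integrable (fun p => (D.x ⁻¹' S (a + 2)).indicator f p -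
      (D.x ⁻¹' S a).indicator f p) D.m := i2.sub i0
  have hb : |D.Hopf (moll ρ fun x => chi r x • Y a x)| ≤
      ∫ p, (15 * ((D.x ⁻¹' S (a + 2)).indicator f p - (D.x ⁻¹' S a).indicator f p) +
        8 * ε * D.t p) ∂D.m := by
    rw [← Real.norm_eq_abs]
    refine norm_integral_le_of_norm_le ((i3.const_mul 15).add (hti.const_mul _)) ?_
    filter_upwards [hcv.ae_G, hcv.car] with p hp hx
    have P := hcv.pw p hp
    have h2 := hw _ hx
    have h3 := P.t_nonneg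
    have h5 : 0 ≤ D.w (D.x p) := by linarith [h2.1]
    have h6 : 0 ≤ ε * D.t p := mul_nonneg hε0 h3
    rw [Real.norm_eq_abs, abs_mul, abs_of_nonneg h5]
    by_cases hA : D.x p ∈ S a
    · have hB : D.x p ∈ S (a + 2) := hS1 _ (hS1 _ hA)
      rw [indicator_of_mem (show p ∈ D.x ⁻¹' S (a + 2) from hB),
        indicator_of_mem (show p ∈ D.x ⁻¹' S a from hA), tr_id_sup _ _ P.tr_τ (chi r (D.x p))]
      obtain ⟨b, hb, h⟩ := hA
      have e1 := (tr_le_sup _ _ h3 P.τ_le).trans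
        (mul_le_mul_of_nonneg_left (m2 b hb _ h) (by positivity))
      have e2 := mul_le_mul h2.2 e1 (abs_nonneg _) (by norm_num)
      nlinarith
    · rw [indicator_of_notMem (show p ∉ D.x ⁻¹' S a from hA)]
      by_cases hB : D.x p ∈ S (a + 2)
      · rw [indicator_of_mem (show p ∈ D.x ⁻¹' S (a + 2) from hB)]
        have e1 := (tr_le_sup _ _ h3 P.τ_le).trans
          (mul_le_mul_of_nonneg_left (m1 (D.x p)) (by positivity))
        have e2 := mul_le_mul_of_nonneg_left e1 h5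
        have e3 := mul_le_mul_of_nonneg_right h2.2 h6
        simp only [hf]
        nlinarith
      · rw [indicator_of_notMem (show p ∉ D.x ⁻¹' S (a + 2) from hB),
          m3 (D.x p) fun b hb h => hB ⟨b, hb, h⟩]
        simp only [tr2, ContinuousLinearMap.zero_comp, zero_apply,
          Complex.zero_re, Complex.zero_im, add_zero, mul_zero, sub_zero, abs_zero]
        nlinarith
  rw [integral_add (i3.const_mul 15) (hti.const_mul _), integral_const_mul,
    integral_const_mul, integral_sub i2 i0, integral_indicator (hSm _),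
    integral_indicator (hSm _)] at hb
  have e1 : ε ≤ C * ((ρ + ϑ) / l) := by
    rw [hε, mul_div_assoc]
    gcongr
    exact hse.l_le
  have e2 : 8 * ε * ∫ p, D.t p ∂D.m ≤ 8 * (C * ((ρ + ϑ) / l)) * s ^ 4 := by
    refine (mul_le_mul_of_nonneg_left ht (by positivity)).trans ?_
    gcongr
  have e3 : 0 ≤ D.dr r / n := by positivity
  have e4 : 0 ≤ (ρ + ϑ) / l * s ^ 4 := by positivity
  have e5 : 2 * D.dr r / n = 2 * (D.dr r / n) := by ring
  have e6 : 0 ≤ C * (D.dr r / n) := by positivity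
  change _ ≤ 15 * (K (a + 2) - K a) + _ at hb
  nlinarith

end Pool.Agent.Lib.MP_8daebb_an.SV
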