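import Pool.Agent.Lib.MP_8daebb_an.SV.Grow
import Pool.Agent.Lib.MP_8daebb_an.SV.Ker

/-! Towers of discs. -/

open MeasureTheory Metric Filter Topology Set
open scoped RealInnerProductSpace ENNReal ContDiff

namespace Pool.Agent.Lib.MP_8daebb_an.SV

/-- Separated families of discs of radius at least `r`. -/
def Good_tow (r : ℝ) (F : Finset (ℂ × ℝ)) : Prop :=
  (∀ b ∈ F, r ≤ b.2) ∧ ∀ b ∈ F, ∀ b' ∈ F, b ≠ b' → b.2 + b'.2 < ‖b.1 - b'.1‖

/-- One doubling step. -/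
structure Step_tow (F F' : Finset (ℂ × ℝ)) (W : ℂ → ℂ) : Prop where
  nest : ∀ b ∈ F, ∃ b' ∈ F', ‖b.1 - b'.1‖ + 2 * b.2 ≤ b'.2
  sum : ∑ b ∈ F', b.2 ≤ 2 * ∑ b ∈ F, b.2
  lip : ∀ u v, ‖W u - W v‖ ≤ 3 * ‖u - v‖
  ident : ∀ b ∈ F, ∀ u ∈ closedBall b.1 b.2, ∀ v ∈ closedBall b.1 b.2, W u - W v = u - v
  off : ∀ u, (∀ b' ∈ F', u ∉ ball b'.1 b'.2) → W u = 0

theorem step_tow {r : ℝ} (hr : 0 < r) (F : {F // Good_tow r F}) :
    ∃ (F' : {F // Good_tow r F}) (W : ℂ → ℂ), Step_tow F.1 F'.1 W := by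
  obtain ⟨F, h1, h2⟩ := F
  obtain ⟨F', Z, g1, g2, g3, g4, g5, g6, g7⟩ :=
    grow F (fun b hb => hr.trans_le (h1 b hb)) h2 (lam := 2) (by norm_num)
  have hl : (1 / 2 : ℝ) < Real.log 2 := by linarith [Real.log_two_gt_d9]
  have hl0 : 0 < Real.log 2 := by linarith
  refine ⟨⟨F', fun b' hb' => ?_, g1⟩, fun u => (Real.log 2)⁻¹ • Z u, g2, g4, fun u v => ?_,
    fun b hb u hu v hv => ?_, fun u hu => ?_⟩
  · obtain ⟨b, hb, h⟩ := g3 b' hb'
    linarith [h1 b hb]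
  · rw [← smul_sub, norm_smul, Real.norm_eq_abs, abs_of_pos (inv_pos.2 hl0), inv_mul_le_iff₀ hl0]
    refine (g5 u v).trans ?_
    nlinarith [norm_nonneg (u - v)]
  · rw [← smul_sub, g6 b hb u hu v hv, smul_smul, inv_mul_cancel₀ hl0.ne', one_smul]
  · simp only [g7 u hu, smul_zero]

theorem seq_tow (P : Finset ℂ) {r : ℝ} (hr : 0 < r) :
    ∃ (F : ℕ → Finset (ℂ × ℝ)) (W : ℕ → ℂ → ℂ), (∀ k, Good_tow r (F k)) ∧
      (∀ k, Step_tow (F k) (F (k + 1)) (W k)) ∧ (∀ k, ∑ b ∈ F k, b.2 ≤ 2 ^ k * (P.card * r)) ∧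
      ∀ v ∈ P, ∃ b ∈ F 0, ‖v - b.1‖ + r ≤ b.2 := by
  classical
  obtain ⟨F₀, g1, g2, g3, g4, -⟩ := merge_balls (P.image fun v => (v, r)) (by
    intro b hb
    obtain ⟨v, -, rfl⟩ := Finset.mem_image.1 hb
    exact hr)
  have hG : Good_tow r F₀ := by
    refine ⟨fun b' hb' => ?_, g1⟩
    obtain ⟨b, hb, h⟩ := g3 b' hb'
    obtain ⟨v, -, rfl⟩ := Finset.mem_image.1 hb
    exact h
  choose nx W hW using step_tow hr
  have hs : ∀ k, Step_tow (nx^[k] ⟨F₀, hG⟩).1 (nx^[k + 1] ⟨F₀, hG⟩).1 (W (nx^[k] ⟨F₀, hG⟩)) := by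
    intro k
    rw [Function.iterate_succ_apply']
    exact hW _
  refine ⟨fun k => (nx^[k] ⟨F₀, hG⟩).1, fun k => W (nx^[k] ⟨F₀, hG⟩), fun k => Subtype.prop _, hs,
    fun k => ?_, fun v hv => g2 (v, r) (Finset.mem_image_of_mem _ hv)⟩
  induction k with
  | zero =>
    refine g4.trans (le_of_eq ?_)
    rw [Finset.sum_image fun a _ b _ h => (Prod.ext_iff.1 h).1]
    simp
  | succ k ih =>
    refine (hs k).sum.trans ?_
    rw [pow_succ]
    linarith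

theorem nest_tow {F : ℕ → Finset (ℂ × ℝ)} {W : ℕ → ℂ → ℂ}
    (hs : ∀ k, Step_tow (F k) (F (k + 1)) (W k)) (j i : ℕ) :
    ∀ b ∈ F j, ∃ b' ∈ F (j + i), ‖b.1 - b'.1‖ + 2 ^ i * b.2 ≤ b'.2 := by
  intro b hb
  induction i with
  | zero => exact ⟨b, hb, by simp⟩
  | succ i ih =>
    obtain ⟨b', hb', h⟩ := ih
    obtain ⟨b'', hb'', h'⟩ := (hs (j + i)).nest b' hb'
    refine ⟨b'', hb'', ?_⟩
    rw [pow_succ]
    linarith [norm_sub_le_norm_sub_add_norm_sub b.1 b'.1 b''.1, norm_nonneg (b.1 - b'.1)]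

theorem Step_tow.size {r : ℝ} (hr : 0 < r) {F F' : Finset (ℂ × ℝ)} {W : ℂ → ℂ}
    (h : Step_tow F F' W) (hG : Good_tow r F') {M : ℝ} (hM : 0 ≤ M) {u : ℂ}
    (hu : ∀ b ∈ F', ‖u - b.1‖ < b.2 → 6 * b.2 ≤ M) : ‖W u‖ ≤ M := by
  by_cases h0 : ∀ b' ∈ F', u ∉ ball b'.1 b'.2
  · rw [h.off u h0, norm_zero]
    exact hM
  push Not at h0
  obtain ⟨b, hb, hub⟩ := h0
  rw [mem_ball_iff_norm] at hub
  have hb0 : 0 < b.2 := hr.trans_le (hG.1 b hb)
  have e : ‖b.1 + (b.2 : ℂ) - b.1‖ = b.2 := by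
    rw [add_sub_cancel_left, Complex.norm_real, Real.norm_eq_abs, abs_of_pos hb0]
  have hz : W (b.1 + (b.2 : ℂ)) = 0 := by
    refine h.off _ fun b' hb' hm => ?_
    rw [mem_ball_iff_norm] at hm
    by_cases hbb : b = b'
    · subst hbb
      linarith
    · have h1 := hG.2 b hb b' hb' hbb
      have h2 := norm_sub_le_norm_sub_add_norm_sub b.1 (b.1 + (b.2 : ℂ)) b'.1
      rw [norm_sub_rev b.1 (b.1 + _), e] at h2
      linarith
  have h1 := h.lip u (b.1 + (b.2 : ℂ))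
  have h2 := norm_sub_le_norm_sub_add_norm_sub u b.1 (b.1 + (b.2 : ℂ))
  rw [norm_sub_rev b.1 (b.1 + _), e] at h2
  rw [hz, sub_zero] at h1
  linarith [hu b hb hub]

/-- Convolution with the mollifier. -/
noncomputable def cv_tow (ρ : ℝ) (W : ℂ → ℂ) (u : ℂ) : ℂ := ∫ t, kr ρ t • W (u - t)

theorem avg_le_tow {ρ : ℝ} (hρ : 0 < ρ) {g : ℂ → ℂ} {M : ℝ} (hg : ∀ t, ‖t‖ < ρ → ‖g t‖ ≤ M) :
    ‖∫ t, kr ρ t • g t‖ ≤ M := by
  have h := norm_integral_le_of_norm_le (f := fun t => kr ρ t • g t)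
    ((kr_integral hρ).1.mul_const M) (Eventually.of_forall fun t => by
      rw [norm_smul, Real.norm_eq_abs, abs_of_nonneg (kr_nonneg ρ t)]
      by_cases ht : ‖t‖ < ρ
      · exact mul_le_mul_of_nonneg_left (hg t ht) (kr_nonneg ρ t)
      · rw [(kr_zero hρ (not_lt.1 ht)).1, zero_mul, zero_mul])
  rwa [integral_mul_const, (kr_integral hρ).2, one_mul] at h

theorem cont_tow {W : ℂ → ℂ} (h : ∀ u v, ‖W u - W v‖ ≤ 3 * ‖u - v‖) : LipschitzWith 3 W :=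
  LipschitzWith.of_dist_le_mul fun u v => by
    rw [dist_eq_norm, dist_eq_norm]
    exact_mod_cast h u v

theorem cv_int_tow {ρ : ℝ} (hρ : 0 < ρ) {W : ℂ → ℂ} (h : Continuous W) (u : ℂ) :
    Integrable fun t => kr ρ t • W (u - t) :=
  ((kr_contDiff ρ).continuous.smul (h.comp (by fun_prop))).integrable_of_hasCompactSupport
    (kr_compact hρ).smul_right

theorem cv_sub_tow {ρ : ℝ} (hρ : 0 < ρ) {W : ℂ → ℂ} (h : Continuous W) (u v z : ℂ) {M : ℝ}
    (hM : ∀ t, ‖t‖ < ρ → ‖W (u - t) - W (v - t) - z‖ ≤ M) :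
    ‖cv_tow ρ W u - cv_tow ρ W v - z‖ ≤ M := by
  have h1 := avg_le_tow hρ hM
  simp only [smul_sub] at h1
  rwa [integral_sub (f := fun t => kr ρ t • W (u - t) - kr ρ t • W (v - t))
    ((cv_int_tow hρ h u).sub (cv_int_tow hρ h v))
    ((kr_integral hρ).1.smul_const z), integral_sub (cv_int_tow hρ h u) (cv_int_tow hρ h v),
    integral_smul_const, (kr_integral hρ).2, one_smul] at h1

theorem cv_smooth_tow {ρ : ℝ} (hρ : 0 < ρ) {W : ℂ → ℂ} (h : Continuous W) :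
    ContDiff ℝ 1 (cv_tow ρ W) :=
  HasCompactSupport.contDiff_convolution_left (ContinuousLinearMap.lsmul ℝ ℝ) (μ := volume)
    (n := 1) (kr_compact hρ) ((kr_contDiff ρ).of_le (by exact_mod_cast le_top))
    h.locallyIntegrable

theorem cv_lip_tow {ρ : ℝ} (hρ : 0 < ρ) {W : ℂ → ℂ} (h : ∀ u v, ‖W u - W v‖ ≤ 3 * ‖u - v‖)
    (u v : ℂ) : ‖cv_tow ρ W u - cv_tow ρ W v‖ ≤ 3 * ‖u - v‖ := by
  have := cv_sub_tow hρ (cont_tow h).continuous u v 0 (M := 3 * ‖u - v‖) fun t _ => by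
    simpa using h (u - t) (v - t)
  rwa [sub_zero] at this

theorem tower (P : Finset ℂ) {r₀ ρ : ℝ} (hρ : 0 < ρ) (h : 4 * ρ ≤ r₀) (n : ℕ) :
    ∃ B Y, Tower B Y ρ (4 ^ (n + 3) * P.card * r₀) n ∧
      ∀ v ∈ P, ∃ b ∈ B 0, ‖v - b.1‖ + r₀ ≤ b.2 := by
  classical
  have hr : 0 < r₀ + ρ := by linarith
  obtain ⟨F, W, hG, hs, hsum, h0⟩ := seq_tow P hr
  have hR : ∀ k, ∀ b ∈ F k, 5 * ρ ≤ b.2 := fun k b hb => by linarith [(hG k).1 b hb]
  set sh : ℂ × ℝ → ℂ × ℝ := fun b => (b.1, b.2 - ρ) with hsh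
  have hc : ∀ k, Continuous (W k) := fun k => (cont_tow (hs k).lip).continuous
  have hPr : 0 ≤ (P.card : ℝ) * r₀ := mul_nonneg (Nat.cast_nonneg _) (by linarith)
  have hsum' : ∀ k m, k ≤ 2 * m → ∑ b ∈ F k, b.2 ≤ 4 ^ (m + 1) * P.card * r₀ := by
    intro k m hk
    refine (hsum k).trans ?_
    calc (2 : ℝ) ^ k * (P.card * (r₀ + ρ)) ≤ 2 ^ (2 * m) * (P.card * (4 * r₀)) := by
          gcongr
          · norm_num
          · linarith
      _ = 4 ^ (m + 1) * P.card * r₀ := by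
          rw [pow_mul, pow_succ]
          norm_num
          ring
  have hker : ∀ a k (u v : ℂ), 2 ≤ k →
      (¬∃ b ∈ (F (2 * (a + k))).image sh, u ∈ ball b.1 b.2 ∧ v ∈ ball b.1 b.2) →
      ‖cv_tow ρ (W (2 * a)) u‖ ≤ 8 * (1 / 2) ^ k * ‖u - v‖ := by
    intro a k u v hk hn
    refine avg_le_tow hρ fun t ht => (hs (2 * a)).size hr (hG _) (by positivity) fun b hb hu => ?_
    obtain ⟨b', hb', h1⟩ := nest_tow hs (2 * a + 1) (2 * k - 1) b hb
    rw [show 2 * a + 1 + (2 * k - 1) = 2 * (a + k) by omega] at hb'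
    have hq : (4 : ℝ) ≤ 2 ^ k := by
      calc (4 : ℝ) = 2 ^ 2 := by norm_num
        _ ≤ 2 ^ k := pow_le_pow_right₀ (by norm_num) hk
    have e : (2 : ℝ) ^ (2 * k - 1) = 2 ^ k * 2 ^ k / 2 := by
      rw [eq_div_iff two_ne_zero, ← pow_succ, ← pow_add]
      congr 1
      omega
    have hb5 := hR _ b hb
    have hb0 : 0 < b.2 := by linarith
    have h2 : ‖u - b'.1‖ < ρ + b.2 + ‖b.1 - b'.1‖ := by
      have h3 := norm_sub_le_norm_sub_add_norm_sub u (u - t) b.1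
      rw [sub_sub_cancel] at h3
      linarith [norm_sub_le_norm_sub_add_norm_sub u b.1 b'.1]
    have h4 : 4 * (2 ^ k * b.2) ≤ 2 ^ k * 2 ^ k * b.2 := by
      rw [mul_assoc]
      exact mul_le_mul_of_nonneg_right hq (by positivity)
    have h5 : 4 * b.2 ≤ 2 ^ k * b.2 := mul_le_mul_of_nonneg_right hq hb0.le
    rw [e] at h1
    have h6 : b'.2 - ρ ≤ ‖v - b'.1‖ := by
      by_contra hlt
      refine hn ⟨sh b', Finset.mem_image_of_mem _ hb', ?_, ?_⟩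
      · rw [mem_ball_iff_norm]
        simp only [hsh]
        linarith
      · rw [mem_ball_iff_norm]
        exact not_le.1 hlt
    have h7 := norm_sub_le_norm_sub_add_norm_sub v u b'.1
    rw [norm_sub_rev v u] at h7
    rw [one_div, inv_pow, mul_assoc, ← div_eq_inv_mul, ← mul_div_assoc, le_div_iff₀ (by positivity)]
    linarith
  refine ⟨fun a => (F (2 * a)).image sh, fun a => cv_tow ρ (W (2 * a)),
    ⟨?_, ?_, ?_, ?_, fun a => cv_smooth_tow hρ (hc _), fun a u => ?_, ?_, ?_, ?_, ?_⟩, ?_⟩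
  · intro a b hb0
    obtain ⟨b, hb, rfl⟩ := Finset.mem_image.1 hb0
    simp only [hsh]
    linarith [hR _ b hb]
  · intro a b hb0 b' hb1 hne
    obtain ⟨b, hb, rfl⟩ := Finset.mem_image.1 hb0
    obtain ⟨b', hb', rfl⟩ := Finset.mem_image.1 hb1
    refine ball_disjoint_ball ?_
    have := (hG _).2 b hb b' hb' fun e => hne (by rw [e])
    simp only [hsh, dist_eq_norm]
    linarith
  · intro a b hb0
    obtain ⟨b, hb, rfl⟩ := Finset.mem_image.1 hb0
    obtain ⟨b', hb', h1⟩ := nest_tow hs (2 * a) 2 b hb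
    refine ⟨sh b', Finset.mem_image_of_mem _ hb', ?_⟩
    simp only [hsh]
    linarith [hR _ b hb]
  · intro a ha
    refine le_trans ?_ (hsum' (2 * a) (n + 2) (by omega))
    rw [Finset.sum_image fun x _ y _ e => by
      simp only [hsh, Prod.mk.injEq, sub_left_inj] at e
      exact Prod.ext e.1 e.2]
    exact Finset.sum_le_sum fun b _ => by simp only [hsh]; linarith
  · exact_mod_cast norm_fderiv_le_of_lipschitz ℝ (cont_tow (cv_lip_tow hρ (hs (2 * a)).lip))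
  · intro a b hb0 u hu
    obtain ⟨b, hb, rfl⟩ := Finset.mem_image.1 hb0
    have hm : ∀ v ∈ ball (sh b).1 (sh b).2, ∀ t : ℂ, ‖t‖ < ρ → v - t ∈ closedBall b.1 b.2 := by
      intro v hv t ht
      rw [mem_ball_iff_norm] at hv
      rw [mem_closedBall_iff_norm, sub_right_comm]
      simp only [hsh] at hv
      linarith [norm_sub_le (v - b.1) t]
    have e : cv_tow ρ (W (2 * a)) =ᶠ[𝓝 u] fun v => v + (cv_tow ρ (W (2 * a)) u - u) := by
      filter_upwards [isOpen_ball.mem_nhds hu] with v hv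
      have := cv_sub_tow hρ (hc (2 * a)) v u (v - u) (M := 0) fun t ht => by
        rw [(hs _).ident b hb _ (hm v hv t ht) _ (hm u hu t ht)]
        simp
      linear_combination norm_le_zero_iff.1 this
    rw [e.fderiv_eq, fderiv_add_const, fderiv_fun_id]
  · intro a u hu
    have e : cv_tow ρ (W (2 * a)) =ᶠ[𝓝 u] fun _ => 0 := by
      filter_upwards [ball_mem_nhds u hρ] with v hv
      refine norm_le_zero_iff.1 (avg_le_tow hρ fun t ht =>
        (hs (2 * a)).size hr (hG _) le_rfl fun b hb hv' => ?_)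
      exfalso
      obtain ⟨b', hb', h1⟩ := (hs (2 * a + 1)).nest b hb
      refine hu (sh b') (Finset.mem_image_of_mem _ hb') ?_
      rw [mem_ball_iff_norm'] at hv
      rw [mem_ball_iff_norm]
      have h3 := norm_sub_le_norm_sub_add_norm_sub v (v - t) b.1
      rw [sub_sub_cancel] at h3
      simp only [hsh]
      linarith [norm_sub_le_norm_sub_add_norm_sub u v b.1,
        norm_sub_le_norm_sub_add_norm_sub u b.1 b'.1, hR _ b hb]
    exact ⟨e.eq_of_nhds, by rw [e.fderiv_eq, fderiv_fun_const]; rfl⟩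
  · intro a ha u
    refine avg_le_tow hρ fun t _ => (hs (2 * a)).size hr (hG _) (by
      rw [mul_assoc]; positivity) fun b hb _ => ?_
    have h1 := Finset.single_le_sum (f := fun b : ℂ × ℝ => b.2)
      (fun b hb => by linarith [hR _ b hb]) hb
    have h2 := hsum' (2 * a + 1) (n + 1) (by omega)
    have h3 : 0 ≤ 4 ^ (n + 1 + 1) * (P.card : ℝ) * r₀ := by rw [mul_assoc]; positivity
    rw [show n + 3 = n + 1 + 1 + 1 by ring, pow_succ]
    linarith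
  · intro a a' ha u v hn
    obtain ⟨k, rfl⟩ := Nat.exists_eq_add_of_le ha.le
    rw [Nat.add_sub_cancel_left]
    by_cases hk : 2 ≤ k
    · have h1 := hker a k u v hk hn
      have h2 := hker a k v u hk fun ⟨b, hb, h1, h2⟩ => hn ⟨b, hb, h2, h1⟩
      rw [norm_sub_rev v u] at h2
      linarith [norm_sub_le (cv_tow ρ (W (2 * a)) u) (cv_tow ρ (W (2 * a)) v)]
    · obtain rfl : k = 1 := by omega
      linarith [cv_lip_tow hρ (hs (2 * a)).lip u v, norm_nonneg (u - v)]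
  · intro v hv
    obtain ⟨b, hb, h1⟩ := h0 v hv
    refine ⟨sh b, Finset.mem_image_of_mem _ hb, ?_⟩
    simp only [hsh]
    linarith

end Pool.Agent.Lib.MP_8daebb_an.SV
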