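import Pool.Agent.Lib.MP_8daebb_an.SV.TwoA
import Pool.Agent.Lib.MP_8daebb_an.SV.IBP
import Pool.Agent.Lib.MP_8daebb_an.SV.Ker2

/-! The integral of the two-point functional. -/

open MeasureTheory Metric Filter Topology Set
open scoped RealInnerProductSpace ENNReal ContDiff

namespace Pool.Agent.Lib.MP_8daebb_an.SV

variable {α : Type*} [MeasurableSpace α] {H : Type*} [NormedAddCommGroup H]
  [InnerProductSpace ℝ H] [FiniteDimensional ℝ H] [MeasurableSpace H] [BorelSpace H]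

/-- The part of the integrand of the two-point functional that does not depend on the centre. -/
noncomputable def F_twoB (D : CD α H) (e : H) (Δ : ℝ) (w : α × α) : ℝ :=
  (1 + ((D.z e w.1 - D.z e w.2) / Δ) ^ 2)⁻¹ *
    (‖D.p e w.1 - D.p e w.2‖ ^ 2 + D.dd e w.1 + D.dd e w.2)

theorem F_bound_twoB {D : CD α H} {δ Δ : ℝ} {e : H} (h0 : 0 ≤ δ) (hδ : δ ≤ 1 / 2) (he : ‖e‖ = 1)
    {a a' : α} (h : PW D δ a) (h' : PW D δ a') :
    0 ≤ F_twoB D e Δ (a, a') ∧ F_twoB D e Δ (a, a') ≤ 132 := by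
  obtain ⟨-, -, a3, -, a5, -, -, -, -, a10, a11, -⟩ := h.scal h0 hδ he
  obtain ⟨-, -, b3, -, b5, -, -, -, -, b10, b11, -⟩ := h'.scal h0 hδ he
  have k1 : 0 ≤ (1 + ((D.z e a - D.z e a') / Δ) ^ 2)⁻¹ := by positivity
  have k2 : (1 + ((D.z e a - D.z e a') / Δ) ^ 2)⁻¹ ≤ 1 :=
    inv_le_one_of_one_le₀ (le_add_of_nonneg_right (sq_nonneg _))
  have k3 : ‖D.p e a - D.p e a'‖ ^ 2 ≤ 96 := by
    have k4 : ‖D.p e a - D.p e a'‖ ^ 2 ≤ (‖D.p e a‖ + ‖D.p e a'‖) ^ 2 :=
      pow_le_pow_left₀ (norm_nonneg _) (norm_sub_le _ _) 2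
    nlinarith [sq_nonneg (‖D.p e a‖ - ‖D.p e a'‖)]
  have k5 : 0 ≤ ‖D.p e a - D.p e a'‖ ^ 2 + D.dd e a + D.dd e a' := by positivity
  refine ⟨mul_nonneg k1 k5, ?_⟩
  refine (mul_le_of_le_one_left k5 k2).trans ?_
  linarith

theorem F_int_twoB {D : CD α H} {R δ M Δ : ℝ} {e : H} (h : CV D 0 R δ M) (hδ : δ ≤ 1 / 2)
    (he : ‖e‖ = 1) : Integrable (F_twoB D e Δ) (D.m.prod D.m) := by
  have := h.fin
  obtain ⟨m1, m2, m3, -⟩ := h.meas_e e
  have hm : Measurable (F_twoB D e Δ) := by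
    unfold F_twoB
    refine Measurable.mul (Measurable.inv (measurable_const.add (Measurable.pow_const
      (((m1.comp measurable_fst).sub (m1.comp measurable_snd)).div_const Δ) 2))) ?_
    exact ((((m2.comp measurable_fst).sub (m2.comp measurable_snd)).norm.pow_const 2).add
      (m3.comp measurable_fst)).add (m3.comp measurable_snd)
  refine Integrable.of_bound hm.aestronglyMeasurable 132 ?_
  filter_upwards [Measure.quasiMeasurePreserving_fst.ae h.pw_av,
    Measure.quasiMeasurePreserving_snd.ae h.pw_av] with w h1 h2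
  obtain ⟨k1, k2⟩ := F_bound_twoB (Δ := Δ) h.δ_nonneg hδ he h1 h2
  rw [Real.norm_of_nonneg k1]
  exact k2

theorem two_cont {D : CD α H} {R δ M ρ Δ : ℝ} {e : H} (h : CV D 0 R δ M) (hδ : δ ≤ 1 / 2)
    (hρ : 0 < ρ) (he : ‖e‖ = 1) : Continuous (D.two e ρ Δ) ∧ ∀ u, 0 ≤ D.two e ρ Δ u := by
  have := h.fin
  have _h := hρ
  constructor
  · have hY : Measurable fun w : α × α => (D.x w.1, D.x w.2) :=
      (h.m_x.comp measurable_fst).prodMk (h.m_x.comp measurable_snd)
    have hB : ∀ᵐ w ∂(D.m.prod D.m), ‖(D.x w.1, D.x w.2)‖ ≤ 2 := by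
      filter_upwards [Measure.quasiMeasurePreserving_fst.ae h.x_le_av,
        Measure.quasiMeasurePreserving_snd.ae h.x_le_av] with w h1 h2
      rw [Prod.norm_def]
      exact max_le h1 h2
    have hg : Continuous fun w : ℂ × ℂ => kr ρ w.1 * kr ρ w.2 :=
      ((kr_contDiff ρ).continuous.comp continuous_fst).mul
        ((kr_contDiff ρ).continuous.comp continuous_snd)
    have hF := F_int_twoB (Δ := Δ) h hδ he
    have hc := (continuous_conv hY hB hF hg).comp (continuous_id.prodMk continuous_id)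
    refine hc.congr fun u => ?_
    have hi := integrable_conv hY hB hF hg (u, u)
    simp only [Function.comp, id]
    rw [integral_prod _ hi]
    unfold CD.two F_twoB
    simp only [Prod.fst_sub, Prod.snd_sub, smul_eq_mul, mul_assoc]
  · intro u
    refine integral_nonneg_of_ae (h.pw_av.mono fun a ha => ?_)
    refine integral_nonneg_of_ae (h.pw_av.mono fun a' ha' => ?_)
    have k := (F_bound_twoB (Δ := Δ) h.δ_nonneg hδ he ha ha').1
    have k2 := mul_nonneg (mul_nonneg (kr_nonneg ρ (u - D.x a)) (kr_nonneg ρ (u - D.x a'))) k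
    simp only [F_twoB, ← mul_assoc] at k2
    exact k2

theorem sqrt_int_twoB {D : CD α H} {R δ M s ρ : ℝ} (h : CV D 0 R δ M) (hδ : δ ≤ 1 / 2)
    (hs : Sm D s ρ) : ∫ a, √(D.en a) ∂D.m ≤ (9 * |M| + 1) / 2 * s ^ 2 := by
  have := h.fin
  have h0 := hs.s_pos
  have hen := h.integrable_t.2.2.2.1
  have hsq := h.integrable_t.2.2.2.2.1
  have hm := (h.mass_le (by linarith)).trans
    (mul_le_mul_of_nonneg_left (le_abs_self M) (by norm_num))
  have hi : Integrable (fun a => s ^ 2 / 2 + (2 * s ^ 2)⁻¹ * D.en a) D.m :=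
    (integrable_const _).add (hen.const_mul _)
  have k : ∫ a, √(D.en a) ∂D.m ≤ ∫ a, (s ^ 2 / 2 + (2 * s ^ 2)⁻¹ * D.en a) ∂D.m := by
    refine integral_mono_ae hsq hi (h.pw_av.mono fun a ha => ?_)
    have e2 := Real.sq_sqrt ha.facts_av.1
    have e3 : s ^ 2 / 2 + (2 * s ^ 2)⁻¹ * D.en a - √(D.en a) =
        (2 * s ^ 2)⁻¹ * (s ^ 2 - √(D.en a)) ^ 2 := by
      rw [sub_sq, e2]
      field_simp
      ring
    have e4 : 0 ≤ (2 * s ^ 2)⁻¹ * (s ^ 2 - √(D.en a)) ^ 2 := by positivity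
    show √(D.en a) ≤ s ^ 2 / 2 + (2 * s ^ 2)⁻¹ * D.en a
    linarith
  rw [integral_add (integrable_const _) (hen.const_mul _), integral_const, integral_const_mul,
    smul_eq_mul] at k
  have k2 : (2 * s ^ 2)⁻¹ * ∫ a, D.en a ∂D.m ≤ (2 * s ^ 2)⁻¹ * s ^ 4 :=
    mul_le_mul_of_nonneg_left hs.en_le (by positivity)
  have k3 : (2 * s ^ 2)⁻¹ * s ^ 4 = s ^ 2 / 2 := by field_simp
  have k4 : D.m.real univ * (s ^ 2 / 2) ≤ 9 * |M| * (s ^ 2 / 2) :=
    mul_le_mul_of_nonneg_right hm (by positivity)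
  linarith

theorem cut_twoB {κ : ℂ → ℝ} {r l C : ℝ} (hκ : Cut κ r l C) (hl : 0 < l) (h2 : r + l ≤ 2) :
    HasCompactSupport κ ∧ Integrable κ ∧ ∫ u, κ u ≤ 16 := by
  have hc : HasCompactSupport κ := by
    refine HasCompactSupport.intro (isCompact_closedBall (0 : ℂ) 2) fun u hu => hκ.zero u ?_
    rw [mem_closedBall_zero_iff, not_le] at hu
    linarith
  have hi : Integrable κ := hκ.smooth.continuous.integrable_of_hasCompactSupport hc
  refine ⟨hc, hi, ?_⟩
  have k : ∫ u, κ u ≤ ∫ u, (ball (0 : ℂ) 2).indicator (fun _ => (1 : ℝ)) u := by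
    refine integral_mono hi ((integrable_indicator_iff measurableSet_ball).2
      (integrableOn_const measure_ball_lt_top.ne)) fun u => ?_
    by_cases hu : u ∈ ball (0 : ℂ) 2
    · rw [indicator_of_mem hu]
      exact (hκ.mem u).2
    · rw [indicator_of_notMem hu]
      rw [mem_ball_zero_iff, not_lt] at hu
      exact (hκ.zero u (by linarith)).le
  rw [integral_indicator measurableSet_ball, setIntegral_const, smul_eq_mul, mul_one,
    measureReal_def, Complex.volume_ball] at k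
  refine k.trans ?_
  rw [ENNReal.toReal_mul, ENNReal.toReal_pow, ENNReal.toReal_ofReal (by norm_num),
    ENNReal.coe_toReal, NNReal.coe_real_pi]
  linarith [Real.pi_le_four]

theorem two_int (M : ℝ) : ∃ C : ℝ, 0 < C ∧ ∀ (D : CD α H) (R δ s ρ Δ r l : ℝ) (e : H),
    CV D 0 R δ M → δ ≤ 1 / 2 → Sm D s ρ → ρ ≤ 1 / 2 → ‖e‖ = 1 → 0 < Δ → 0 ≤ r → 0 < l →
    r + l + 2 * ρ ≤ R → ∫ u in ball (0 : ℂ) r, D.two e ρ Δ u ≤ C * (Δ * s ^ 2 / l + s ^ 6) := by
  obtain ⟨C, hC, HC⟩ := two_point (α := α) (H := H) M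
  obtain ⟨K, hK, HK⟩ := exists_cut
  set A : ℝ := (9 * |M| + 1) / 2 with hA
  have hA0 : 0 < A := by positivity
  refine ⟨C * (2 * K * A + 32 + 2 * A + 1), by positivity,
    fun D R δ s ρ Δ r l e h hδ hs hρ he hΔ hr hl hR => ?_⟩
  obtain ⟨Bf, b1, b2, b3⟩ := HC D R δ s ρ Δ e h hδ hs hρ he hΔ
  obtain ⟨κ, hκ⟩ := HK r l hr hl
  have h0 := hs.ρ_pos
  have hs0 := hs.s_pos
  have hR2 := h.R_le
  obtain ⟨c1, c2, c3⟩ := cut_twoB hκ hl (by linarith)
  obtain ⟨t1, t2⟩ := two_cont (ρ := ρ) (Δ := Δ) h hδ h0 he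
  have hen := h.integrable_t.2.2.2.1
  have hsq := h.integrable_t.2.2.2.2.1
  obtain ⟨i1, e1⟩ := h.integral_av_one h0 hen
  obtain ⟨i2, e2⟩ := h.integral_av_one h0 hsq
  have n1 : ∀ u, 0 ≤ D.av ρ D.en u := fun u =>
    integral_nonneg_of_ae (h.pw_av.mono fun a ha => smul_nonneg (kr_nonneg _ _) ha.facts_av.1)
  have n2 : ∀ u, 0 ≤ D.av ρ (fun a => √(D.en a)) u := fun u =>
    integral_nonneg fun a => smul_nonneg (kr_nonneg _ _) (Real.sqrt_nonneg _)
  have hq := sqrt_int_twoB h hδ hs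
  rw [← hA] at hq
  have hκ1 : ContDiff ℝ 1 κ := hκ.smooth.of_le one_le_two
  have j1 : Integrable fun u => κ u * D.two e ρ Δ u :=
    (hκ1.continuous.mul t1).integrable_of_hasCompactSupport c1.mul_right
  have ctr : Continuous fun u => tr2 (fderiv ℝ Bf u) := by
    have := b1.continuous_fderiv one_ne_zero
    unfold tr2
    fun_prop
  have j2 : Integrable fun u => κ u * tr2 (fderiv ℝ Bf u) :=
    (hκ1.continuous.mul ctr).integrable_of_hasCompactSupport c1.mul_right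
  have s1 : ∫ u in ball (0 : ℂ) r, D.two e ρ Δ u ≤ ∫ u, κ u * D.two e ρ Δ u := by
    have k : ∫ u in ball (0 : ℂ) r, D.two e ρ Δ u = ∫ u in ball (0 : ℂ) r, κ u * D.two e ρ Δ u := by
      refine setIntegral_congr_fun measurableSet_ball fun u hu => ?_
      rw [mem_ball_zero_iff] at hu
      simp only [hκ.one u (by linarith), one_mul]
    rw [k]
    exact setIntegral_le_integral j1
      (Eventually.of_forall fun u => mul_nonneg (hκ.mem u).1 (t2 u))
  have j3 : Integrable fun u => C * (Δ * s ^ 2) * κ u := c2.const_mul _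
  have j4 : Integrable fun u => C * Δ * D.av ρ (fun a => √(D.en a)) u := i2.const_mul _
  have j5 : Integrable fun u => C * s ^ 2 * D.av ρ D.en u := i1.const_mul _
  have j6 : Integrable fun u => 2 * (κ u * tr2 (fderiv ℝ Bf u)) := j2.const_mul _
  have j7 : Integrable fun u => 2 * (κ u * tr2 (fderiv ℝ Bf u)) + C * (Δ * s ^ 2) * κ u :=
    j6.add j3
  have j8 : Integrable fun u => 2 * (κ u * tr2 (fderiv ℝ Bf u)) + C * (Δ * s ^ 2) * κ u +
      C * Δ * D.av ρ (fun a => √(D.en a)) u := j7.add j4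
  have s2 : ∫ u, κ u * D.two e ρ Δ u ≤ ∫ u, (2 * (κ u * tr2 (fderiv ℝ Bf u)) +
      C * (Δ * s ^ 2) * κ u + C * Δ * D.av ρ (fun a => √(D.en a)) u +
      C * s ^ 2 * D.av ρ D.en u) := by
    refine integral_mono j1 (j8.add j5) fun u => ?_
    obtain ⟨k0, k1⟩ := hκ.mem u
    have p1 : 0 ≤ C * Δ * D.av ρ (fun a => √(D.en a)) u := mul_nonneg (by positivity) (n2 u)
    have p2 : 0 ≤ C * s ^ 2 * D.av ρ D.en u := mul_nonneg (by positivity) (n1 u)
    show κ u * D.two e ρ Δ u ≤ _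
    by_cases hu : r + 3 * l / 4 ≤ ‖u‖
    · rw [hκ.zero u hu]
      linarith
    · have k2 := mul_le_mul_of_nonneg_left (b3 u (by linarith [not_le.1 hu])) k0
      have k3 := mul_le_of_le_one_left p1 k1
      have k4 := mul_le_of_le_one_left p2 k1
      linarith
  rw [integral_add j8 j5, integral_add j7 j4, integral_add j6 j3, integral_const_mul,
    integral_const_mul, integral_const_mul, integral_const_mul, e1, e2,
    integral_div hκ1 c1 b1] at s2
  have s3 : -∫ u, fderiv ℝ κ u (Bf u) ≤ K / l * (C * Δ) * (A * s ^ 2) := by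
    have k : ‖∫ u, fderiv ℝ κ u (Bf u)‖ ≤
        ∫ u, K / l * (C * Δ) * D.av ρ (fun a => √(D.en a)) u := by
      refine norm_integral_le_of_norm_le (i2.const_mul _) (Eventually.of_forall fun u => ?_)
      refine ((fderiv ℝ κ u).le_opNorm _).trans ?_
      rw [mul_assoc]
      exact mul_le_mul (hκ.d1 u) (b2 u) (norm_nonneg _) (by positivity)
    rw [integral_const_mul, e2, Real.norm_eq_abs] at k
    exact (neg_le_abs _).trans (k.trans (mul_le_mul_of_nonneg_left hq (by positivity)))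
  have s4 : C * (Δ * s ^ 2) * ∫ u, κ u ≤ C * (Δ * s ^ 2) * 16 :=
    mul_le_mul_of_nonneg_left c3 (by positivity)
  have s5 : C * Δ * ∫ a, √(D.en a) ∂D.m ≤ C * Δ * (A * s ^ 2) :=
    mul_le_mul_of_nonneg_left hq (by positivity)
  have s6 : C * s ^ 2 * ∫ a, D.en a ∂D.m ≤ C * s ^ 2 * s ^ 4 :=
    mul_le_mul_of_nonneg_left hs.en_le (by positivity)
  set X : ℝ := Δ * s ^ 2 / l with hX
  have hX0 : 0 ≤ X := by positivity
  have s7 : Δ * s ^ 2 ≤ 2 * X := by
    have : Δ * s ^ 2 = l * X := by rw [hX]; field_simp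
    rw [this]
    exact mul_le_mul_of_nonneg_right (by linarith) hX0
  have s8 : K / l * (C * Δ) * (A * s ^ 2) = C * (K * A) * X := by rw [hX]; field_simp
  have s9 : C * (16 + A) * (Δ * s ^ 2) ≤ C * (16 + A) * (2 * X) :=
    mul_le_mul_of_nonneg_left s7 (by positivity)
  have s10 : 0 ≤ C * X := by positivity
  have s11 : 0 ≤ C * (2 * K * A + 32 + 2 * A) * s ^ 6 := by positivity
  linarith

end Pool.Agent.Lib.MP_8daebb_an.SV
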