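import Pool.Agent.Lib.MP_8daebb_an.SV.SCore
import Pool.Agent.Lib.MP_8daebb_an.SV.SUp
import Pool.Agent.Lib.MP_8daebb_an.SV.SLow
import Pool.Agent.Lib.MP_8daebb_an.SV.LemP
import Pool.Agent.Lib.MP_8daebb_an.SV.LocD
import Pool.Agent.Lib.MP_8daebb_an.SV.TwoB
import Pool.Agent.Lib.MP_8daebb_an.SV.Tow

/-! The defect estimate. -/

open MeasureTheory Metric Filter Topology Set
open scoped RealInnerProductSpace ENNReal ContDiff

namespace Pool.Agent.Lib.MP_8daebb_an.SV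

variable {α : Type*} [MeasurableSpace α] {H : Type*} [NormedAddCommGroup H]
  [InnerProductSpace ℝ H] [FiniteDimensional ℝ H] [MeasurableSpace H] [BorelSpace H]

omit [FiniteDimensional ℝ H] [MeasurableSpace H] [BorelSpace H] in
theorem av_nonneg_slem {D : CD α H} {ρ : ℝ} {f : α → ℝ} (hf : ∀ᵐ a ∂D.m, 0 ≤ f a) (u : ℂ) :
    0 ≤ D.av ρ f u :=
  integral_nonneg_of_ae (hf.mono fun a ha => by
    simpa using mul_nonneg (kr_nonneg ρ (u - D.x a)) ha)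

omit [FiniteDimensional ℝ H] [BorelSpace H] in
theorem en_nonneg_slem {D : CD α H} {R δ M : ℝ} (h : CV D 0 R δ M) : ∀ᵐ a ∂D.m, 0 ≤ D.en a :=
  h.pw_av.mono fun _ ha => ha.facts_av.1

theorem int_dd_slem {D : CD α H} {R δ M : ℝ} (h : CV D 0 R δ M) (hδ : δ ≤ 1 / 2) {e : H}
    (he : ‖e‖ = 1) : Integrable (D.dd e) D.m := by
  refine h.integrable (h.meas_e e).2.2.1.aestronglyMeasurable 18 fun a ha _ => ?_
  obtain ⟨-, -, h3, -, -, -, -, -, -, h10, h11, -⟩ := (h.pw a ha).scal h.δ_nonneg hδ he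
  rw [Real.norm_eq_abs, abs_of_nonneg h10]
  linarith

theorem av_t2_slem {D : CD α H} {R δ M ρ : ℝ} (h : CV D 0 R δ M) (hδ : δ ≤ 1 / 2) (hρ : 0 < ρ)
    {ι : Type*} [Fintype ι] (e : OrthonormalBasis ι ℝ H) (u : ℂ) :
    D.av ρ (fun a => D.t a ^ 2) u ≤ 4 * ∑ i, D.av ρ (D.dd (e i)) u := by
  have h1 : ∀ i, Integrable (fun a => kr ρ (u - D.x a) • D.dd (e i) a) D.m := fun i =>
    h.int_av hρ (int_dd_slem h hδ (e.orthonormal.1 i)) u
  unfold CD.av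
  rw [← integral_finsetSum _ fun i _ => h1 i, ← integral_const_mul]
  refine integral_mono_ae (h.int_av hρ h.integrable_t.2.1 u)
    ((integrable_finsetSum _ fun i _ => h1 i).const_mul 4) ?_
  filter_upwards [h.pw_av] with a ha
  have h2 := (ha.sum_basis h.δ_nonneg hδ e).1
  simp only [smul_eq_mul]
  rw [← Finset.mul_sum, mul_left_comm]
  exact mul_le_mul_of_nonneg_left h2 (kr_nonneg _ _)

theorem on_ball_slem {f : ℂ → ℝ} (hf : Continuous f) (r : ℝ) : IntegrableOn f (ball (0 : ℂ) r) :=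
  (hf.continuousOn.integrableOn_compact (isCompact_closedBall (0 : ℂ) r)).mono_set
    ball_subset_closedBall

theorem ball_en_slem {D : CD α H} {R δ M s ρ : ℝ} (h : CV D 0 R δ M) (hs : Sm D s ρ) (r : ℝ) :
    ∫ u in ball (0 : ℂ) r, D.av ρ D.en u ≤ s ^ 4 := by
  obtain ⟨h1, h2⟩ := h.integral_av_one hs.ρ_pos h.integrable_t.2.2.2.1
  refine le_trans (setIntegral_le_integral h1 (Eventually.of_forall fun u => ?_)) ?_
  · exact av_nonneg_slem (en_nonneg_slem h) u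
  · rw [h2]
    exact hs.en_le

omit [FiniteDimensional ℝ H] [BorelSpace H] in
theorem nonneg_slem {D : CD α H} {R δ M : ℝ} (h : CV D 0 R δ M) (hδ : δ ≤ 1 / 2) (r : ℝ) :
    0 ≤ D.hh r ∧ 0 ≤ D.dr r := by
  constructor
  · refine mul_nonneg (inv_nonneg.mpr (sq_nonneg r)) (integral_nonneg fun a => ?_)
    have : 0 ≤ om r (D.x a) := by unfold om; positivity
    positivity
  · refine integral_nonneg_of_ae ?_
    filter_upwards [h.pw_av, h.car] with a ha hx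
    have h1 : 0 ≤ chi r (D.x a) := pow_nonneg (le_max_right _ _) 3
    have h2 := (abs_le.mp (h.w_le _ hx).1).1
    exact mul_nonneg (mul_nonneg h1 (by linarith)) ha.t_nonneg

/-- The integral of the squared tilt over the good set. -/
theorem good_slem {D : CD α H} {R δ M ρ r η₁ Δ T : ℝ} (h : CV D 0 R δ M) (hδ : δ ≤ 1 / 2)
    (hρ : 0 < ρ) {ι : Type*} [Fintype ι] (e : OrthonormalBasis ι ℝ H)
    (h1 : ∀ u : ℂ, ‖u‖ < r → D.En u (32 * ρ) ≤ η₁ → ∀ i,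
      D.av ρ (D.dd (e i)) u ≤ 2 * D.two (e i) ρ Δ u)
    (h2 : ∀ i, ∫ u in ball (0 : ℂ) r, D.two (e i) ρ Δ u ≤ T) :
    ∫ u in ball (0 : ℂ) r ∩ {u | D.En u (32 * ρ) ≤ η₁}, D.av ρ (fun a => D.t a ^ 2) u ≤
      8 * Fintype.card ι * T := by
  have := h.fin
  have hc : ∀ i, Continuous (D.two (e i) ρ Δ) ∧ ∀ u, 0 ≤ D.two (e i) ρ Δ u := fun i =>
    two_cont h hδ hρ (e.orthonormal.1 i)
  have hF : Continuous fun u => 8 * ∑ i, D.two (e i) ρ Δ u :=
    continuous_const.mul (continuous_finsetSum _ fun i _ => (hc i).1)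
  have hm : MeasurableSet (ball (0 : ℂ) r ∩ {u | D.En u (32 * ρ) ≤ η₁}) :=
    measurableSet_ball.inter (measurableSet_le
      (meas_local h.m_x h.integrable_t.2.2.2.1 (32 * ρ)) measurable_const)
  have ht : Continuous (D.av ρ fun a => D.t a ^ 2) :=
    (h.av_smooth hρ h.integrable_t.2.1).1.continuous
  calc _ ≤ ∫ u in ball (0 : ℂ) r ∩ {u | D.En u (32 * ρ) ≤ η₁}, 8 * ∑ i, D.two (e i) ρ Δ u := by
        refine setIntegral_mono_on ((on_ball_slem ht r).mono_set inter_subset_left)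
          ((on_ball_slem hF r).mono_set inter_subset_left) hm fun u hu => ?_
        have h3 := av_t2_slem h hδ hρ e u
        have h4 : ∑ i, D.av ρ (D.dd (e i)) u ≤ ∑ i, 2 * D.two (e i) ρ Δ u :=
          Finset.sum_le_sum fun i _ => h1 u (by simpa using hu.1) hu.2 i
        rw [← Finset.mul_sum] at h4
        linarith
    _ ≤ ∫ u in ball (0 : ℂ) r, 8 * ∑ i, D.two (e i) ρ Δ u := by
        refine setIntegral_mono_set (on_ball_slem hF r) (Eventually.of_forall fun u => ?_)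
          inter_subset_left.eventuallyLE
        exact mul_nonneg (by norm_num) (Finset.sum_nonneg fun i _ => (hc i).2 u)
    _ ≤ _ := by
        rw [integral_const_mul, integral_finsetSum _ fun i _ => on_ball_slem (hc i).1 r,
          mul_assoc]
        refine mul_le_mul_of_nonneg_left ?_ (by norm_num)
        refine (Finset.sum_le_sum fun i _ => h2 i).trans ?_
        simp

/-- The error function of the local comparison. -/
theorem err_slem {D : CD α H} {R δ M s ρ r Δ T ξ C : ℝ} (h : CV D 0 R δ M) (hδ : δ ≤ 1 / 2)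
    (hs : Sm D s ρ) {ι : Type*} [Fintype ι] (e : OrthonormalBasis ι ℝ H) (hξ : 0 < ξ)
    (hC : 0 ≤ C) (hr0 : 0 ≤ r) (hr : r ≤ 2) (hsξ : s ≤ ξ)
    (h2 : ∀ i, ∫ u in ball (0 : ℂ) r, D.two (e i) ρ Δ u ≤ T * (ξ ^ 2 * s ^ 4)) :
    Continuous (fun u => C * (ξ * D.av ρ D.en u + (∑ i, D.two (e i) ρ Δ u) / ξ + s ^ 5)) ∧
    (∀ u, 0 ≤ C * (ξ * D.av ρ D.en u + (∑ i, D.two (e i) ρ Δ u) / ξ + s ^ 5)) ∧
    ∫ u in ball (0 : ℂ) r, C * (ξ * D.av ρ D.en u + (∑ i, D.two (e i) ρ Δ u) / ξ + s ^ 5) ≤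
      C * (17 + Fintype.card ι * T) * (ξ * s ^ 4) := by
  have hs0 := hs.s_pos
  have hc : ∀ i, Continuous (D.two (e i) ρ Δ) ∧ ∀ u, 0 ≤ D.two (e i) ρ Δ u := fun i =>
    two_cont h hδ hs.ρ_pos (e.orthonormal.1 i)
  have hF : Continuous fun u => ∑ i, D.two (e i) ρ Δ u :=
    continuous_finsetSum _ fun i _ => (hc i).1
  have hE : Continuous (D.av ρ D.en) := (h.av_smooth hs.ρ_pos h.integrable_t.2.2.2.1).1.continuous
  have c1 : Continuous fun u => ξ * D.av ρ D.en u := continuous_const.mul hE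
  have c2 : Continuous fun u => (∑ i, D.two (e i) ρ Δ u) / ξ := hF.div_const ξ
  have c3 : Continuous fun u => ξ * D.av ρ D.en u + (∑ i, D.two (e i) ρ Δ u) / ξ := c1.add c2
  refine ⟨continuous_const.mul (c3.add continuous_const), fun u => ?_, ?_⟩
  · have h3 := av_nonneg_slem (ρ := ρ) (en_nonneg_slem h) u
    have h4 : 0 ≤ ∑ i, D.two (e i) ρ Δ u := Finset.sum_nonneg fun i _ => (hc i).2 u
    positivity
  · rw [integral_const_mul, mul_assoc]
    refine mul_le_mul_of_nonneg_left ?_ hC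
    rw [integral_add (on_ball_slem c3 r) (on_ball_slem continuous_const r),
      integral_add (on_ball_slem c1 r) (on_ball_slem c2 r), integral_const_mul,
      MeasureTheory.integral_div,
      integral_finsetSum _ fun i _ => on_ball_slem (hc i).1 r, setIntegral_const, smul_eq_mul]
    have h3 := mul_le_mul_of_nonneg_left (ball_en_slem h hs r) hξ.le
    have h4 : (∑ i, ∫ u in ball (0 : ℂ) r, D.two (e i) ρ Δ u) / ξ ≤
        Fintype.card ι * T * (ξ * s ^ 4) := by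
      rw [div_le_iff₀ hξ]
      refine (Finset.sum_le_sum fun i _ => h2 i).trans (le_of_eq ?_)
      simp only [Finset.sum_const, Finset.card_univ, nsmul_eq_mul]
      ring
    have h5 : volume.real (ball (0 : ℂ) r) * s ^ 5 ≤ 16 * (ξ * s ^ 4) := by
      refine mul_le_mul (area_lemP hr0 hr) ?_ (by positivity) (by norm_num)
      rw [pow_succ, mul_comm]
      exact mul_le_mul_of_nonneg_right hsξ (by positivity)
    linarith

/-- The lower bound for the Laplacians is small in square mean. -/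
theorem lapG_slem {D : CD α H} {R δ M s ρ r C : ℝ} (h : CV D 0 R δ M) (hs : Sm D s ρ)
    (hρ : ρ ≤ 1 / 2) (hC : 0 ≤ C) (hr0 : 0 ≤ r) (hr : r ≤ 2) :
    Continuous (fun u => C * (s ^ 2 + D.av ρ (fun a => √(D.en a)) u)) ∧
    (∀ u, 0 ≤ C * (s ^ 2 + D.av ρ (fun a => √(D.en a)) u)) ∧
    ∫ u in ball (0 : ℂ) r, (C * (s ^ 2 + D.av ρ (fun a => √(D.en a)) u)) ^ 2 ≤
      (C * (32 + 2 * Ck * |M|) * s ^ 2) ^ 2 := by
  have hS : Continuous (D.av ρ fun a => √(D.en a)) :=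
    (h.av_smooth hs.ρ_pos h.integrable_t.2.2.2.2.1).1.continuous
  have hE : Continuous (D.av ρ D.en) := (h.av_smooth hs.ρ_pos h.integrable_t.2.2.2.1).1.continuous
  have c1 : Continuous (fun u => C * (s ^ 2 + D.av ρ (fun a => √(D.en a)) u)) :=
    continuous_const.mul (continuous_const.add hS)
  have hM := h.M_nonneg
  have hk := one_le_Ck
  refine ⟨c1, fun u => ?_, ?_⟩
  · have := av_nonneg_slem (D := D) (ρ := ρ) (f := fun a => √(D.en a))
      (Eventually.of_forall fun a => Real.sqrt_nonneg _) u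
    positivity
  · have c2 : Continuous fun u => Ck * M * D.av ρ D.en u := continuous_const.mul hE
    have c3 : Continuous fun u => 2 * C ^ 2 * (s ^ 4 + Ck * M * D.av ρ D.en u) :=
      continuous_const.mul (continuous_const.add c2)
    have h1 : ∫ u in ball (0 : ℂ) r, (C * (s ^ 2 + D.av ρ (fun a => √(D.en a)) u)) ^ 2 ≤
        ∫ u in ball (0 : ℂ) r, 2 * C ^ 2 * (s ^ 4 + Ck * M * D.av ρ D.en u) := by
      refine setIntegral_mono_on (on_ball_slem (c1.pow 2) r) (on_ball_slem c3 r)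
        measurableSet_ball fun u _ => ?_
      have h2 := (hs.av_le h hρ u).2.2.1
      rw [mul_pow, mul_comm 2, mul_assoc]
      refine mul_le_mul_of_nonneg_left ?_ (sq_nonneg C)
      nlinarith [sq_nonneg (s ^ 2 - D.av ρ (fun a => √(D.en a)) u)]
    refine h1.trans ?_
    rw [integral_const_mul, integral_add (on_ball_slem continuous_const r) (on_ball_slem c2 r),
      integral_const_mul, setIntegral_const, smul_eq_mul, abs_of_nonneg hM]
    have h3 := mul_le_mul_of_nonneg_left (ball_en_slem h hs r) (by positivity : 0 ≤ Ck * M)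
    have h4 := mul_le_mul_of_nonneg_right (area_lemP hr0 hr) (by positivity : 0 ≤ s ^ 4)
    have h5 : 0 ≤ Ck * M := by positivity
    have h6 : 2 * (volume.real (ball (0 : ℂ) r) * s ^ 4 +
        Ck * M * ∫ u in ball (0 : ℂ) r, D.av ρ D.en u) ≤ (32 + 2 * Ck * M) ^ 2 * s ^ 4 := by
      have h7 : 32 + 2 * Ck * M ≤ (32 + 2 * Ck * M) ^ 2 := by nlinarith
      have h8 := mul_le_mul_of_nonneg_right h7 (by positivity : 0 ≤ s ^ 4)
      linarith
    have h9 := mul_le_mul_of_nonneg_left h6 (sq_nonneg C)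
    calc _ = C ^ 2 * (2 * (volume.real (ball (0 : ℂ) r) * s ^ 4 +
          Ck * M * ∫ u in ball (0 : ℂ) r, D.av ρ D.en u)) := by ring
      _ ≤ _ := h9
      _ = _ := by ring

/-- The tower over the bad discs. -/
theorem se_slem {D : CD α H} {R δ M s ρ r l γ ξ c₀ : ℝ} {n : ℕ} (h : CV D 0 R δ M)
    (hs : Sm D s ρ) (hc : 0 < c₀) (hγ : 0 < γ) (h4 : 4 ^ n * ρ ≤ ξ * γ ^ 4 * l ^ 5) (hn : 1 ≤ n)
    (hl : l ≤ r) (hr : r + 8 * l ≤ R) (hρ : 100 * ρ ≤ l) :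
    ∃ ϑ B Y, SE D R r l ρ (c₀ * (s ^ 2 * γ) ^ 2 * γ ^ 2) ϑ B Y n ∧
      ϑ ≤ 5760 / c₀ * (ξ * l ^ 5) := by
  have hs0 := hs.s_pos
  have hρ0 := hs.ρ_pos
  obtain ⟨P, hP1, hP2⟩ := cover_bad h.m_x h.integrable_t.2.2.2.1 (en_nonneg_slem h)
    (r₀ := 42 * ρ) (η₁ := c₀ * (s ^ 2 * γ) ^ 2 * γ ^ 2) (by positivity) (by positivity)
  obtain ⟨B, Y, hT, hB⟩ := tower P (r₀ := 90 * ρ) hρ0 (by linarith) n
  refine ⟨_, B, Y, ⟨hT, fun u hu => ?_, hn, hl, hr, hρ⟩, ?_⟩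
  · obtain ⟨v, hv, huv⟩ := hP2 u hu
    obtain ⟨b, hb, hvb⟩ := hB v hv
    refine ⟨b, hb, ?_⟩
    have := norm_sub_le_norm_sub_add_norm_sub u v b.1
    linarith
  · have h1 : (P.card : ℝ) * (c₀ * γ ^ 4) ≤ 1 := by
      have h2 := hP1.trans hs.en_le
      have h3 : (P.card : ℝ) * (c₀ * γ ^ 4) * s ^ 4 ≤ 1 * s ^ 4 := by
        calc _ = (P.card : ℝ) * (c₀ * (s ^ 2 * γ) ^ 2 * γ ^ 2) := by ring
          _ ≤ s ^ 4 := h2
          _ = _ := (one_mul _).symm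
      exact le_of_mul_le_mul_right h3 (by positivity)
    have h5 : 0 ≤ ξ * l ^ 5 := by
      have h6 : 0 < ξ * γ ^ 4 * l ^ 5 := lt_of_lt_of_le (by positivity) h4
      have h7 : 0 < ξ * l ^ 5 * γ ^ 4 := by linarith [mul_right_comm ξ (γ ^ 4) (l ^ 5)]
      exact ((mul_pos_iff_of_pos_right (by positivity)).mp h7).le
    rw [div_mul_eq_mul_div, le_div_iff₀ hc]
    calc (4 : ℝ) ^ (n + 3) * P.card * (90 * ρ) * c₀ = 5760 * (P.card * c₀) * (4 ^ n * ρ) := by ring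
      _ ≤ 5760 * (P.card * c₀) * (ξ * γ ^ 4 * l ^ 5) :=
        mul_le_mul_of_nonneg_left h4 (by positivity)
      _ = 5760 * (ξ * l ^ 5) * (P.card * (c₀ * γ ^ 4)) := by ring
      _ ≤ 5760 * (ξ * l ^ 5) * 1 := mul_le_mul_of_nonneg_left h1 (by positivity)
      _ = _ := mul_one _

theorem fin_slem {Cc Cl Cu k1 k2 k3 k4 P h d x y y' S z : ℝ} (hc : 0 < Cc) (hl : 0 < Cl)
    (hu : 0 < Cu) (h1 : 0 ≤ k1) (h2 : 0 ≤ k2) (h3 : 0 ≤ k3) (h4 : 0 ≤ k4) (hP : 0 ≤ P)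
    (hh : 0 ≤ h) (hd : 0 ≤ d) (hz : z ≤ k1 * P)
    (a1 : |x - y| ≤ Cc * (z + k2 * P + h)) (a2 : |y - S| ≤ Cl * (z + k2 * P + k3 * P + h))
    (a3 : S ≤ k4 * P) (b1 : |x - y'| ≤ Cc * (z + k2 * P + h)) (b2 : |y'| ≤ Cu * (d + z)) :
    x ≤ (Cc * (k1 + k2 + 1) + Cl * (k1 + k2 + k3 + 1) + k4 + Cu * (1 + k1)) * (P + h) ∧
    -x ≤ (Cc * (k1 + k2 + 1) + Cl * (k1 + k2 + k3 + 1) + k4 + Cu * (1 + k1)) * (d + P + h) := by
  have e1 : Cc * (z + k2 * P + h) ≤ Cc * ((k1 + k2 + 1) * (P + h)) :=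
    mul_le_mul_of_nonneg_left (by nlinarith [mul_nonneg h1 hh, mul_nonneg h2 hh]) hc.le
  have e2 : Cl * (z + k2 * P + k3 * P + h) ≤ Cl * ((k1 + k2 + k3 + 1) * (P + h)) :=
    mul_le_mul_of_nonneg_left
      (by nlinarith [mul_nonneg h1 hh, mul_nonneg h2 hh, mul_nonneg h3 hh]) hl.le
  have e3 : k4 * P ≤ k4 * (P + h) := mul_le_mul_of_nonneg_left (by linarith) h4
  have e4 : Cu * (d + z) ≤ Cu * ((1 + k1) * (d + P + h)) :=
    mul_le_mul_of_nonneg_left (by nlinarith [mul_nonneg h1 hh, mul_nonneg h1 hd]) hu.le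
  have p1 : 0 ≤ Cu * (1 + k1) * (P + h) := by positivity
  have p2 : 0 ≤ Cc * (k1 + k2 + 1) * d := by positivity
  have p3 : 0 ≤ (Cl * (k1 + k2 + k3 + 1) + k4) * (d + P + h) := by positivity
  have f1 := (abs_le.mp a1).2
  have f2 := (abs_le.mp a2).2
  have f3 := (abs_le.mp b1).1
  have f4 := (abs_le.mp b2).1
  constructor
  · nlinarith
  · nlinarith

theorem s_lemma (M : ℝ) {CI : ℝ} (hCI : 0 ≤ CI) (Q : ℕ) : ∃ C : ℝ, 0 < C ∧
    ∃ c : ℝ, 0 < c ∧ c < 1 ∧ ∃ δ₀ : ℝ, 0 < δ₀ ∧ ∃ ξ₀ : ℝ, 0 < ξ₀ ∧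
    ∀ (D : CD α H) (R δ s ρ γ ξ l r : ℝ) (n : ℕ) (N : ℂ → ℕ), MS D R δ M s ρ CI Q N → δ ≤ δ₀ →
    ρ ≤ γ → 1 + Real.log (ρ / (s ^ 2 * γ)) ≤ 1 / γ → γ ≤ ξ ^ 2 * l →
    4 ^ n * ρ ≤ ξ * γ ^ 4 * l ^ 5 → (1 - c) ^ n ≤ ξ * l ^ 4 → 0 < ξ → ξ ≤ ξ₀ → l ≤ r →
    r + 8 * l ≤ R → 1 ≤ n →
    2 * D.EE Q r - D.dr r ≤ C * (ξ * s ^ 4 + r ^ 2 * D.hh r) ∧
      D.dr r - 2 * D.EE Q r ≤ C * (D.dr r / n + ξ * s ^ 4 + r ^ 2 * D.hh r) := by
  set e := stdOrthonormalBasis ℝ H with he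
  obtain ⟨C₀, hC₀, ρu, hρu, hU⟩ := ufam (α := α) (H := H) M hCI Q
  obtain ⟨Cd, hCd, Λ, hΛ, c₀, hc₀, δd, hδd, ρd, hρd, hD⟩ := loc_d (α := α) (H := H) M hCI Q C₀
  obtain ⟨Ct, hCt, hT⟩ := two_int (α := α) (H := H) M
  obtain ⟨Cc, hCc, hcore⟩ := s_core (α := α) (H := H) M hCI Q
  obtain ⟨Cu, hCu, hup⟩ := s_up (α := α) (H := H)
  obtain ⟨Cl, hCl, hlow⟩ := s_low (α := α) e M Q C₀
  obtain ⟨Cp, hCp, c, hc0, hc1, hP⟩ := lemP (Fin (Module.finrank ℝ H)) Q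
  have hk := one_le_Ck
  set K : ℝ := (Fintype.card (Fin (Module.finrank ℝ H)) : ℝ) with hK
  have hK0 : 0 ≤ K := Nat.cast_nonneg _
  set k1 : ℝ := 1 + 5760 / c₀ with hk1
  set T : ℝ := Ct * (Λ + 1) with hT2
  set CA : ℝ := C₀ * (32 + 2 * Ck * |M|) with hCA
  have k1p : 0 < k1 := by positivity
  have Tp : 0 < T := by positivity
  have CAp : 0 < CA := by positivity
  refine ⟨Cc * (k1 + 8 * K * T + 1) + Cl * (k1 + 8 * K * T + Cd * (17 + K * T) + 1) +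
    Cp * CA ^ 2 * k1 + Cu * (1 + k1), by positivity, c, hc0, hc1, min δd (1 / 2), by positivity,
    min (min ρu ρd) (min (1 / 10) (c₀ / 5760)), by positivity, ?_⟩
  intro D R δ s ρ γ ξ l r n N hms hδ hργ hlog hγ h4 hcn hξ hξ0 hlr hR hn
  have h := hms.cv
  have hs := hms.sm
  have hδ1 : δ ≤ δd := hδ.trans (min_le_left _ _)
  have hδ2 : δ ≤ 1 / 2 := hδ.trans (min_le_right _ _)
  have x1 : ξ ≤ ρu := hξ0.trans ((min_le_left _ _).trans (min_le_left _ _))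
  have x2 : ξ ≤ ρd := hξ0.trans ((min_le_left _ _).trans (min_le_right _ _))
  have x3 : ξ ≤ 1 / 10 := hξ0.trans ((min_le_right _ _).trans (min_le_left _ _))
  have x4 : ξ ≤ c₀ / 5760 := hξ0.trans ((min_le_right _ _).trans (min_le_right _ _))
  have hs0 := hs.s_pos
  have hρ0 := hs.ρ_pos
  have hγ0 : 0 < γ := lt_of_lt_of_le hρ0 hργ
  have hl0 : 0 < l := (mul_pos_iff_of_pos_left (by positivity)).mp (lt_of_lt_of_le hγ0 hγ)
  have hR2 := h.R_le
  have hl1 : l ≤ 1 := by linarith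
  have y1 : ξ ^ 2 * l ≤ ξ * l / 10 := by
    have := mul_le_mul_of_nonneg_right x3 (by positivity : 0 ≤ ξ * l)
    calc ξ ^ 2 * l = ξ * (ξ * l) := by ring
      _ ≤ _ := by linarith
  have y2 : ξ * l ≤ ξ := mul_le_of_le_one_right hξ.le hl1
  have y3 : ξ * l ≤ l / 10 := by
    have := mul_le_mul_of_nonneg_right x3 hl0.le
    linarith
  have hρl : 100 * ρ ≤ l := by linarith
  have hρξ : ρ ≤ ξ := by linarith [mul_pos hξ hl0]
  have hρ2 : ρ ≤ 1 / 2 := by linarith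
  have hγ1 : γ ≤ 1 := by linarith
  have hsρ : s ≤ ρ / 2 := by
    have h1 : ρ ^ 4 ≤ (1 / 2) ^ 4 := pow_le_pow_left₀ hρ0.le hρ2 4
    have h2 := mul_le_mul_of_nonneg_right h1 hρ0.le
    have h3 := hs.s_le
    rw [pow_succ] at h3
    linarith
  have hsξ : s ≤ ξ := by linarith
  have hη0 : 0 < s ^ 2 * γ := by positivity
  have hη1 : s ^ 2 * γ ≤ s ^ 2 := mul_le_of_le_one_right (by positivity) hγ1
  have hη2 : s ^ 2 * γ ≤ ρ / 2 := by
    have : s ^ 2 ≤ s := by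
      rw [sq]
      exact mul_le_of_le_one_left hs0.le (by linarith)
    linarith
  have hne : ∀ i, ‖e i‖ = 1 := e.orthonormal.1
  choose U f lv hUF using fun i => hU D R δ s ρ (s ^ 2 * γ) N (e i) hms hδ2 (hρξ.trans x1)
    (hne i) (mul_le_mul_of_nonneg_left hργ (by positivity)) hη1
  obtain ⟨ϑ, B, Y, hSE, hϑ⟩ := se_slem h hs hc₀ hγ0 h4 hn hlr hR hρl
  have l5 : l ^ 5 ≤ l := by
    have := pow_le_one₀ hl0.le hl1 (n := 4)
    rw [pow_succ]
    exact mul_le_of_le_one_left hl0.le this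
  have hϑl : ϑ ≤ l := by
    have h1 : 5760 / c₀ * ξ ≤ 1 := by
      rw [div_mul_eq_mul_div, div_le_one hc₀]
      linarith
    have h2 := mul_le_mul_of_nonneg_right h1 (by positivity : 0 ≤ l ^ 5)
    rw [mul_assoc] at h2
    linarith
  have hz : (ρ + ϑ) / l * s ^ 4 ≤ k1 * (ξ * s ^ 4) := by
    rw [← mul_assoc]
    refine mul_le_mul_of_nonneg_right ?_ (by positivity)
    rw [div_le_iff₀ hl0]
    have h1 : 5760 / c₀ * (ξ * l ^ 5) ≤ 5760 / c₀ * (ξ * l) :=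
      mul_le_mul_of_nonneg_left (mul_le_mul_of_nonneg_left l5 hξ.le) (by positivity)
    have h2 : k1 * ξ * l = ξ * l + 5760 / c₀ * (ξ * l) := by rw [hk1]; ring
    linarith [mul_pos hξ hl0]
  have hloc := fun (u : ℂ) (hu : ‖u‖ ≤ r + l)
      (hE : D.En u (32 * ρ) ≤ c₀ * (s ^ 2 * γ) ^ 2 * γ ^ 2) (i : Fin (Module.finrank ℝ H)) =>
    hD D R δ s ρ (s ^ 2 * γ) ξ N (e i) (U i) (f i) (lv i) u hms hδ1 (hρξ.trans x2) (hne i) hη0
      hη2 (hUF i) (by linarith) (by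
        have h1 : 0 ≤ Real.log (ρ / (s ^ 2 * γ)) :=
          Real.log_nonneg (by rw [one_le_div hη0]; linarith)
        have h2 : (1 + Real.log (ρ / (s ^ 2 * γ))) ^ 2 ≤ (1 / γ) ^ 2 :=
          pow_le_pow_left₀ (by linarith) hlog 2
        calc _ ≤ c₀ * (s ^ 2 * γ) ^ 2 * γ ^ 2 * (1 / γ) ^ 2 :=
              mul_le_mul hE h2 (by positivity) (by positivity)
          _ = _ := by field_simp) hsξ (by linarith)
  have htwo : ∀ r' : ℝ, 0 ≤ r' → r' ≤ r + l → ∀ i,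
      ∫ u in ball (0 : ℂ) r', D.two (e i) ρ (Λ * (s ^ 2 * γ)) u ≤ T * (ξ ^ 2 * s ^ 4) := by
    intro r' h0 h1 i
    refine (hT D R δ s ρ (Λ * (s ^ 2 * γ)) r' l (e i) h hδ2 hs hρ2 (hne i) (by positivity) h0 hl0
      (by linarith)).trans ?_
    rw [hT2, mul_assoc Ct]
    refine mul_le_mul_of_nonneg_left ?_ hCt.le
    have h2 : Λ * (s ^ 2 * γ) * s ^ 2 / l ≤ Λ * (ξ ^ 2 * s ^ 4) := by
      rw [div_le_iff₀ hl0]
      calc Λ * (s ^ 2 * γ) * s ^ 2 = Λ * s ^ 4 * γ := by ring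
        _ ≤ Λ * s ^ 4 * (ξ ^ 2 * l) := mul_le_mul_of_nonneg_left hγ (by positivity)
        _ = _ := by ring
    have h3 : s ^ 6 ≤ ξ ^ 2 * s ^ 4 := by
      calc s ^ 6 = s ^ 2 * s ^ 4 := by ring
        _ ≤ _ := mul_le_mul_of_nonneg_right (pow_le_pow_left₀ hs0.le hsξ 2) (by positivity)
    linarith
  have hX : ∫ u in ball (0 : ℂ) (r + l) ∩ {u | D.En u (32 * ρ) ≤ c₀ * (s ^ 2 * γ) ^ 2 * γ ^ 2},
      D.av ρ (fun a => D.t a ^ 2) u ≤ 8 * K * T * (ξ * s ^ 4) := by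
    refine (good_slem h hδ2 hρ0 e (fun u hu hE i => (hloc u hu.le hE i).2)
      (htwo (r + l) (by linarith) le_rfl)).trans ?_
    rw [mul_assoc (8 * K)]
    refine mul_le_mul_of_nonneg_left (mul_le_mul_of_nonneg_left
      (mul_le_mul_of_nonneg_right ?_ (by positivity)) Tp.le) (by positivity)
    rw [sq]
    exact mul_le_of_le_one_left hξ.le (by linarith)
  obtain ⟨E1, E2, E3⟩ := err_slem (C := Cd) h hδ2 hs e hξ hCd.le (by linarith : 0 ≤ r)
    (by linarith) hsξ (htwo r (by linarith) (by linarith))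
  obtain ⟨G1, G2, G3⟩ := lapG_slem (C := C₀) (r := r + l) h hs hρ2 hC₀.le (by linarith)
    (by linarith)
  obtain ⟨a, ha, hS⟩ := hP B Y ρ ϑ n U _ r l (CA * s ^ 2) hSE.tower hρ0.le hn hl0 hlr
    (by linarith) (by positivity) (by linarith) (fun i => (hUF i).zero)
    (fun i j => (hUF i).smooth j) G1 G2 G3 (fun i j hj u hu => ⟨by
      refine ((hUF i).size j hj u (by linarith)).trans
        (mul_le_mul_of_nonneg_right ?_ (by positivity))
      have : 0 ≤ Ck * |M| := by positivity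
      exact le_mul_of_one_le_right hC₀.le (by linarith), (hUF i).sub j hj u (by linarith)⟩)
  have hS' := hS.trans (show _ ≤ Cp * CA ^ 2 * k1 * (ξ * s ^ 4) by
    have h1 : (1 - c) ^ n / l ^ 4 ≤ ξ := by rwa [div_le_iff₀ (by positivity)]
    have h2 : ϑ / l ^ 5 ≤ 5760 / c₀ * ξ := by rwa [div_le_iff₀ (by positivity), mul_assoc]
    have h3 : (1 - c) ^ n / l ^ 4 + ϑ / l ^ 5 ≤ k1 * ξ := by rw [hk1]; linarith
    calc _ ≤ Cp * (CA * s ^ 2) ^ 2 * (k1 * ξ) := mul_le_mul_of_nonneg_left h3 (by positivity)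
      _ = _ := by ring)
  have a1 := hcore D R δ s ρ r l _ ϑ _ N B Y n hms hδ2 hSE hX
  have a2 := hlow D R δ s ρ r l _ _ ϑ _ _ B Y n U f lv _ h hδ2 hs hSE hϑl hUF hX E1 E2 E3
    (fun u hu hE i => by
      refine (hloc u (by linarith) hE i).1.trans (mul_le_mul_of_nonneg_left ?_ hCd.le)
      have h1 : D.two (e i) ρ (Λ * (s ^ 2 * γ)) u ≤ ∑ i, D.two (e i) ρ (Λ * (s ^ 2 * γ)) u :=
        Finset.single_le_sum (f := fun i => D.two (e i) ρ (Λ * (s ^ 2 * γ)) u)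
          (fun i _ => (two_cont h hδ2 hρ0 (hne i)).2 u) (Finset.mem_univ i)
      have h2 := div_le_div_of_nonneg_right h1 hξ.le
      linarith) a ha
  obtain ⟨a', ha', b2⟩ := hup D R δ M s ρ r l _ ϑ B Y n h hδ2 hs hSE
  obtain ⟨n1, n2⟩ := nonneg_slem h hδ2 r
  have := fin_slem hCc hCl hCu k1p.le (by positivity) (by positivity) (by positivity)
    (by positivity) (mul_nonneg (sq_nonneg r) n1) (div_nonneg n2 (Nat.cast_nonneg n)) hz
    (a1 a ha) a2 hS' (a1 a' ha') b2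
  rw [neg_sub] at this
  exact this

end Pool.Agent.Lib.MP_8daebb_an.SV
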