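import Pool.Agent.Lib.MP_8daebb_an.SV.FreqU
import Pool.Agent.Lib.MP_8daebb_an.SV.DecB
import Pool.Agent.Lib.MP_8daebb_an.SV.Ode

/-! One stage in a fixed chart. -/

open MeasureTheory Metric Filter Topology Set
open scoped RealInnerProductSpace ENNReal ContDiff

namespace Pool.Agent.Lib.MP_8daebb_an.SV

variable {α : Type*} [MeasurableSpace α] {H : Type*} [NormedAddCommGroup H]
  [InnerProductSpace ℝ H] [FiniteDimensional ℝ H] [MeasurableSpace H] [BorelSpace H]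

theorem ux_pos_stageA (L k : ℝ) : 0 < ux L k := Real.exp_pos _

theorem ux_add_stageA (L a b : ℝ) : ux L (a + b) = ux L a * ux L b := by
  rw [ux, ux, ux, ← Real.exp_add]
  congr 1
  ring

theorem ux_anti_stageA {L a b : ℝ} (hL : 0 ≤ L) (h : a ≤ b) : ux L b ≤ ux L a :=
  Real.exp_le_exp.2 (neg_le_neg (mul_le_mul_of_nonneg_right h hL))

theorem ux_pow_stageA (L a : ℝ) (n : ℕ) : ux L a ^ n = ux L (n * a) := by
  rw [ux, ux, ← Real.exp_nat_mul]
  congr 1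
  ring

theorem ux_one_stageA {L : ℝ} (hL : 0 < L) : ux L 1 * L < 1 ∧ ux L 1 * L ^ 2 ≤ 2 := by
  have h1 := Real.add_one_le_exp L
  have h2 := Real.quadratic_le_exp_of_nonneg hL.le
  have h3 := Real.exp_pos L
  rw [ux, one_mul, Real.exp_neg, inv_mul_lt_iff₀ h3, inv_mul_le_iff₀ h3]
  constructor <;> linarith

/-- The last radius at which a continuous function is below a level. -/
theorem last_stageA {f : ℝ → ℝ} {a b v : ℝ} (hab : a ≤ b) (hf : ContinuousOn f (Icc a b))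
    (ha : f a ≤ v) (hb : v ≤ f b) :
    ∃ c, a ≤ c ∧ c ≤ b ∧ f c = v ∧ ∀ x, c ≤ x → x ≤ b → v ≤ f x := by
  obtain ⟨c, ⟨c1, c2⟩, c3⟩ := (isCompact_Icc.of_isClosed_subset
    (hf.preimage_isClosed_of_isClosed isClosed_Icc (isClosed_Iic (a := v)))
    inter_subset_left).exists_isGreatest ⟨a, ⟨le_rfl, hab⟩, ha⟩
  obtain ⟨x, x1, x2⟩ := intermediate_value_Icc c1.2 (hf.mono (Icc_subset_Icc_left c1.1)) ⟨c2, hb⟩
  have e : x = c := le_antisymm (c3 ⟨⟨c1.1.trans x1.1, x1.2⟩, x2.le⟩) x1.1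
  rw [e] at x2
  refine ⟨c, c1.1, c1.2, x2, fun y y1 y2 => ?_⟩
  by_contra hy
  have : y = c := le_antisymm (c3 ⟨⟨c1.1.trans y1, y2⟩, (not_le.1 hy).le⟩) y1
  exact hy (by rw [this, x2])

theorem dle_stageA {d E h B C C₂ L u r' t : ℝ} (hC : 0 < C) (hC₂ : 0 < C₂) (hL : 0 < L)
    (hCL : 2 * C ≤ L) (hB : 1 ≤ B) (ht : 0 ≤ t) (hu : u * L ≤ 1) (hu0 : 0 ≤ u) (hh : 0 ≤ h)
    (hd : 0 ≤ d) (h1 : d - 2 * E ≤ C * d / L + (u + C * r' ^ 2) * h)
    (h2 : 2 * E ≤ B * Real.exp (C₂ * t + C₂ / L) * h) :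
    d ≤ (B * Real.exp ((C₂ + 2 * C + 1) * t + (C₂ + 2 * C + 1) / L) +
      (C₂ + 2 * C + 1) * r' ^ 2) * h := by
  obtain ⟨x, hx⟩ : ∃ x, x = C / L := ⟨_, rfl⟩
  have x0 : 0 ≤ x := by rw [hx]; positivity
  have x1 : x ≤ 1 / 2 := by rw [hx, div_le_iff₀ hL]; linarith
  obtain ⟨G, hG⟩ : ∃ G, G = B * Real.exp (C₂ * t + C₂ / L) := ⟨_, rfl⟩
  have G1 : 1 ≤ G := by
    rw [hG]
    exact one_le_mul_of_one_le_of_one_le hB (Real.one_le_exp (by positivity))
  rw [← hG] at h2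
  have e1 : d * (1 - x) ≤ (G + u + C * r' ^ 2) * h := by
    have : C * d / L = x * d := by rw [hx]; ring
    linarith
  have e2 : d ≤ (1 + 2 * x) * ((G + u + C * r' ^ 2) * h) :=
    le_trans (by nlinarith [mul_nonneg hd (mul_nonneg x0 (sub_nonneg.2 x1))])
      (mul_le_mul_of_nonneg_left e1 (by linarith))
  have e3 : G + u ≤ G * Real.exp (1 / L) := by
    have a1 := Real.add_one_le_exp (1 / L)
    have a2 : u ≤ 1 / L := by rwa [le_div_iff₀ hL]
    nlinarith [mul_le_mul_of_nonneg_left a1 (zero_le_one.trans G1), mul_nonneg (sub_nonneg.2 G1)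
      (one_div_pos.2 hL).le]
  have e4 : (1 + 2 * x) * (G + u) ≤
      B * Real.exp ((C₂ + 2 * C + 1) * t + (C₂ + 2 * C + 1) / L) := by
    calc _ ≤ Real.exp (2 * x) * (G * Real.exp (1 / L)) :=
          mul_le_mul (by linarith [Real.add_one_le_exp (2 * x)]) e3 (by linarith)
            (Real.exp_pos _).le
      _ = B * Real.exp (C₂ * t + (C₂ + 2 * C + 1) / L) := by
          rw [hG, hx, mul_left_comm, mul_assoc, ← Real.exp_add, ← Real.exp_add]
          congr 2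
          ring
      _ ≤ _ := mul_le_mul_of_nonneg_left (Real.exp_le_exp.2 (by nlinarith)) (by linarith)
  have e5 : (1 + 2 * x) * (C * r' ^ 2) ≤ (C₂ + 2 * C + 1) * r' ^ 2 := by
    rw [← mul_assoc]
    exact mul_le_mul_of_nonneg_right (by nlinarith) (sq_nonneg _)
  calc d ≤ ((1 + 2 * x) * (G + u) + (1 + 2 * x) * (C * r' ^ 2)) * h := e2.trans_eq (by ring)
    _ ≤ _ := mul_le_mul_of_nonneg_right (add_le_add e4 e5) hh

theorem en_stageA {D : CD α H} {R δ M K r' : ℝ} (h : CV D 0 R δ M) (hδ : δ ≤ 1 / 2) (hK : 1 ≤ K)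
    (hr : 0 < r') (h1 : r' * (1 + 2 / K) ≤ 1)
    (hd : D.dr (r' * (1 + 2 / K)) ≤ 6 * K * D.hh (r' * (1 + 2 / K))) :
    D.En 0 (r' * (1 + 3 / (2 * K))) ≤ 2628 * K ^ 4 * D.hh (r' * (1 + 2 / K)) := by
  have hK0 : 0 < K := by linarith
  have p1 : 0 < r' * (1 + 2 / K) := by positivity
  have p2 : 0 < r' * (1 + 3 / (2 * K)) := by positivity
  have e1 : 1 - r' * (1 + 3 / (2 * K)) / (r' * (1 + 2 / K)) = (2 * K + 4)⁻¹ := by
    field_simp
    ring
  have e2 : r' * (1 + 3 / (2 * K)) ≤ r' * (1 + 2 / K) := by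
    refine mul_le_mul_of_nonneg_left (add_le_add le_rfl ?_) hr.le
    rw [div_le_div_iff₀ (by positivity) hK0]
    linarith
  obtain ⟨b0, -, -, -, -, b1⟩ := hh_basic h hδ p1
  obtain ⟨b2, b3⟩ := b1 _ p2 e2
  obtain ⟨it, -, iy, -⟩ := h.integrable_t
  have e3 : D.En 0 (r' * (1 + 3 / (2 * K))) =
      D.T 0 (r' * (1 + 3 / (2 * K))) + D.J 0 (r' * (1 + 3 / (2 * K))) :=
    integral_add it.integrableOn iy.integrableOn
  rw [e1, inv_pow, inv_mul_le_iff₀ (by positivity)] at b2 b3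
  have q2 : (2 * K + 4) ^ 2 ≤ (6 * K) ^ 2 := pow_le_pow_left₀ (by linarith) (by linarith) 2
  have q3 : (2 * K + 4) ^ 3 ≤ (6 * K) ^ 3 := pow_le_pow_left₀ (by linarith) (by linarith) 3
  have q4 : (r' * (1 + 2 / K)) ^ 2 * D.hh (r' * (1 + 2 / K)) ≤ D.hh (r' * (1 + 2 / K)) :=
    mul_le_of_le_one_left b0 (pow_le_one₀ p1.le h1)
  have q5 : K ^ 2 ≤ K ^ 4 := pow_le_pow_right₀ hK (by norm_num)
  have c2 := b2.trans (mul_le_mul q2 q4 (by positivity) (by positivity))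
  have c3 := b3.trans ((mul_le_mul_of_nonneg_left (mul_le_mul_of_nonneg_left hd zero_le_two)
    (by positivity)).trans (mul_le_mul_of_nonneg_right q3 (by positivity)))
  rw [e3]
  nlinarith [mul_le_mul_of_nonneg_right q5 b0]

theorem stage_a (M : ℝ) {CI : ℝ} (hCI : 0 ≤ CI) (Q : ℕ) : ∃ b₀ δ₀ C₁ K₁ : ℝ, 0 < δ₀ ∧ 0 < C₁ ∧
    1 ≤ K₁ ∧ ∀ b, b₀ ≤ b → ∃ εB L₀ : ℝ, 0 < εB ∧
    ∀ (D : CD α H) (R δ L r K B : ℝ) (N : ℂ → ℕ), δ ≤ δ₀ → L₀ ≤ L →
    Stg D R δ M CI Q N b L r K B → K₁ ≤ B → B * Real.exp (C₁ * r + C₁ / L) ≤ K →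
    (∀ σ, ux L 2 ≤ σ → σ ≤ r → D.bad Q σ ≤ εB * σ ^ 2) →
    ∃ r', Out D b L r K (B * Real.exp (C₁ * (r - r') + C₁ / L) + C₁ * r' ^ 2) r' := by
  obtain ⟨b₁, C, δ₁, hC, hδ₁, hF⟩ := freq_u (α := α) (H := H) M hCI Q
  obtain ⟨δ₂, hδ₂, hD⟩ := dec_iter (α := α) (H := H) M hCI Q
  obtain ⟨C₂, hC₂, K₁, hK₁, o1, o2⟩ := ode hC.le
  obtain ⟨Ck, -, hk⟩ := key_one (α := α) (H := H) M
  refine ⟨max b₁ 75, min (min δ₁ δ₂) (1 / 2), C₂ + 2 * C + 1, K₁, by positivity, by positivity,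
    hK₁, fun b hb => ?_⟩
  have hb75 : 75 ≤ b := (le_max_right _ _).trans hb
  obtain ⟨L₁, hF⟩ := hF b ((le_max_left _ _).trans hb)
  obtain ⟨εB, hεB, c, hc, Cd, hCd, hD⟩ := hD (6 * (40 * b + 12)) (by linarith)
  refine ⟨εB, |L₁| + (19 * b + 36) + c⁻¹ + 3 * Cd + 2 * C, hεB,
    fun D R δ L r K B N hδ hL S hB hK hbad => ?_⟩
  have hc' : 0 < c⁻¹ := inv_pos.2 hc
  have l0 := abs_nonneg L₁
  have l1 : L₁ ≤ L := by linarith [le_abs_self L₁]
  have l2 : 19 * b + 36 ≤ L := by linarith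
  have l3 : c⁻¹ ≤ L := by linarith
  have l4 : 3 * Cd ≤ L := by linarith
  have l5 : 2 * C ≤ L := by linarith
  have l6 : 12 ≤ L := by linarith
  have hL0 : 0 < L := by linarith
  have d1 : δ ≤ δ₁ := hδ.trans ((min_le_left _ _).trans (min_le_left _ _))
  have d2 : δ ≤ δ₂ := hδ.trans ((min_le_left _ _).trans (min_le_right _ _))
  have d3 : δ ≤ 1 / 2 := hδ.trans (min_le_right _ _)
  obtain ⟨u1, u2⟩ := ux_one_stageA hL0
  have u0 := ux_pos_stageA L 1
  have u3 : ux L 1 ≤ 1 / 2 := by nlinarith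
  have hB1 : 1 ≤ B := hK₁.trans hB
  have hK0 : 0 < K := lt_of_lt_of_le (by positivity) hK
  have hr0 : 0 < r := lt_of_lt_of_le (by positivity) S.r_ge
  have hBK : B ≤ K :=
    (le_mul_of_one_le_right (by linarith) (Real.one_le_exp (by positivity))).trans hK
  have hK1 : 1 ≤ K := hB1.trans hBK
  have hrR : r < R := by linarith [S.r_add, ux_pos_stageA L 2]
  have hA : (1 : ℝ) ≤ 40 * b + 12 := by linarith
  obtain ⟨ρ₀, hρ₀⟩ : ∃ ρ₀, ρ₀ = r * ux L (1 / (40 * b + 12)) := ⟨_, rfl⟩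
  have p0 : 0 < ρ₀ := by rw [hρ₀]; exact mul_pos hr0 (ux_pos_stageA _ _)
  have p1 : ρ₀ ≤ r := by
    rw [hρ₀]
    exact mul_le_of_le_one_right hr0.le (Real.exp_le_one_iff.2 (neg_nonpos.2 (by positivity)))
  have p2 : ux L 2 ≤ ρ₀ := by
    rw [hρ₀, show (2 : ℝ) = 1 + 1 by norm_num, ux_add_stageA]
    refine mul_le_mul (le_trans ?_ S.r_ge) (ux_anti_stageA hL0.le ?_) u0.le hr0.le
    · nlinarith
    · exact div_le_one_of_le₀ hA (by linarith)
  have p3 : Real.log (r / ρ₀) = L / (40 * b + 12) := by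
    rw [hρ₀, div_mul_cancel_left₀ hr0.ne', Real.log_inv, ux, Real.log_exp]
    ring
  have p4 : D.hh ρ₀ ≤ ux L (40 * b + 14) := by
    have g := hD D R δ _ _ (ux L 36) ρ₀ r (ux L (20 * b + 30)) N S.ms d2
      (ux_anti_stageA hL0.le (by linarith))
      (Real.exp_le_one_iff.2 (neg_nonpos.2 (by positivity))) ?_ ?_ p1 hrR.le
      (fun σ h1 h2 => hbad σ (p2.trans h1) h2) S.avg
    · have e1 : Real.exp (-(6 * (40 * b + 12) * Real.log (r / ρ₀))) = ux L 6 := by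
        rw [p3, ux]
        congr 2
        field_simp
      rw [e1, ux_pow_stageA, ux_pow_stageA, ux_pow_stageA, ← ux_add_stageA] at g
      have e2 : ux L 6 * D.hh r ≤ ux L (1 + (40 * b + 14)) := by
        refine (mul_le_mul_of_nonneg_left S.h_le (ux_pos_stageA _ _).le).trans ?_
        rw [← ux_add_stageA]
        exact ux_anti_stageA hL0.le (by linarith)
      have e3 : ux L ((4 : ℕ) * (10 * b) + (2 : ℕ) * 36) ≤ ux L (1 + (40 * b + 14)) :=
        ux_anti_stageA hL0.le (by push_cast; linarith)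
      have e4 : ux L ((2 : ℕ) * (20 * b + 30)) ≤ ux L (1 + (40 * b + 14)) :=
        ux_anti_stageA hL0.le (by push_cast; linarith)
      rw [ux_add_stageA L 1] at e2 e3 e4
      have e5 : 3 * Cd * ux L 1 ≤ 1 := by nlinarith
      have e6 := mul_le_mul_of_nonneg_right e5 (ux_pos_stageA L (40 * b + 14)).le
      have e7 := mul_le_mul_of_nonneg_left (add_le_add e2 (add_le_add e3 e4)) hCd.le
      linarith
    · rw [ux_pow_stageA, ← ux_add_stageA, ux, ux, ux, ← Real.exp_sub, Real.log_exp, one_div,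
        ← Real.exp_neg, neg_neg]
      have := Real.quadratic_le_exp_of_nonneg (show 0 ≤ 36 * L by positivity)
      push_cast
      nlinarith [mul_le_mul_of_nonneg_right l2 hL0.le]
    · have e1 : ux L 1 ≤ c := by
        have := mul_le_mul_of_nonneg_left l3 u0.le
        rw [← div_eq_mul_inv] at this
        exact (div_le_one hc).1 (this.trans u1.le)
      calc ux L b ≤ ux L (1 + (2 : ℕ) * 36 + 2) := ux_anti_stageA hL0.le (by push_cast; linarith)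
        _ = ux L 1 * ux L 36 ^ 2 * ux L 2 := by rw [ux_add_stageA, ux_add_stageA, ux_pow_stageA]
        _ ≤ _ := mul_le_mul (mul_le_mul_of_nonneg_right e1 (sq_nonneg _)) p2
          (ux_pos_stageA _ _).le (by positivity)
  have hcont : ContinuousOn D.hh (Icc ρ₀ r) := fun x hx => by
    obtain ⟨h', g, -⟩ := hk D R δ _ _ x S.ms.cv d3 S.ms.sm
      ((ux_anti_stageA hL0.le (by linarith)).trans u3)
      ((ux_anti_stageA hL0.le (by linarith)).trans (p2.trans hx.1)) (hx.2.trans_lt hrR)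
    exact g.continuousAt.continuousWithinAt
  obtain ⟨r', q1, q2, q3, q4⟩ := last_stageA p1 hcont p4
    ((ux_anti_stageA hL0.le (by linarith)).trans S.h_ge)
  have q0 : 0 < r' := p0.trans_le q1
  have hr2 : r ≤ 2 := S.r_le.trans one_le_two
  have hf := fun ϱ (h1 : r' ≤ ϱ) (h2 : ϱ ≤ r) => hF D R δ L ϱ N d1 l1 S.ms
    (p2.trans (q1.trans h1)) (by linarith [S.r_add]) (q4 ϱ h1 h2)
  have hE : ∀ ϱ, r' ≤ ϱ → ϱ ≤ r →
      2 * D.EE Q ϱ ≤ B * Real.exp (C₂ * (r - ϱ) + C₂ / L) * D.hh ϱ := fun ϱ h1 h2 => by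
    refine (o1 _ _ _ r' r _ B q0 q2 hr2 u0.le (by linarith) hB (fun x a1 a2 => (hf x a1 a2).1)
      S.freq ϱ h1 h2).trans (mul_le_mul_of_nonneg_right (mul_le_mul_of_nonneg_left
        (Real.exp_le_exp.2 ?_) (by linarith)) (hf ϱ h1 h2).1.1.le)
    have a1 : Real.log (r / ϱ) ≤ L / (40 * b + 12) := by
      rw [← p3]
      exact Real.log_le_log (div_pos hr0 (q0.trans_le h1))
        (div_le_div_of_nonneg_left hr0.le p0 (q1.trans h1))
    have a2 : ux L 1 * (L / (40 * b + 12)) ≤ 1 / L := by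
      rw [← mul_div_assoc, div_le_div_iff₀ (by linarith) hL0]
      linarith
    have a3 := mul_le_mul_of_nonneg_left
      ((mul_le_mul_of_nonneg_left a1 u0.le).trans a2) hC₂.le
    rw [mul_one_div] at a3
    linarith
  have hEK : ∀ ϱ, r' ≤ ϱ → ϱ ≤ r → FreqAt D.hh (D.EE Q) D.dr (ux L 1) C ϱ ∧
      2 * D.EE Q ϱ ≤ K * D.hh ϱ := fun ϱ h1 h2 => by
    refine ⟨(hf ϱ h1 h2).1, (hE ϱ h1 h2).trans (mul_le_mul_of_nonneg_right
      (le_trans (mul_le_mul_of_nonneg_left (Real.exp_le_exp.2 (add_le_add ?_ ?_)) (by linarith)) hK)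
      (hf ϱ h1 h2).1.1.le)⟩
    · exact mul_le_mul (by linarith) (by linarith) (by linarith) (by linarith)
    · exact div_le_div_of_nonneg_right (by linarith) hL0.le
  have hhi : r' ≤ r * Real.exp (-(L / (6 * K))) := by
    have a1 := S.h_ge.trans
      (o2 _ _ _ r' r _ K q0 q2 hr2 u0.le (by linarith) (hB.trans hBK) hEK).1
    rw [q3, ux, ux, ← Real.exp_add, Real.exp_le_exp] at a1
    have a2 : L / (6 * K) ≤ Real.log (r / r') := by
      rw [div_le_iff₀ (by positivity)]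
      linarith
    rw [Real.le_log_iff_exp_le (div_pos hr0 q0), le_div_iff₀ q0] at a2
    rw [Real.exp_neg, ← div_eq_mul_inv, le_div_iff₀ (Real.exp_pos _)]
    linarith
  have hhi' : r' * (1 + 2 / K) ≤ r := by
    have a1 : 1 + 2 / K ≤ Real.exp (L / (6 * K)) := by
      have : 2 / K ≤ L / (6 * K) := by
        rw [div_le_div_iff₀ hK0 (by positivity)]
        nlinarith
      linarith [Real.add_one_le_exp (L / (6 * K))]
    rw [Real.exp_neg, ← div_eq_mul_inv, le_div_iff₀ (Real.exp_pos _)] at hhi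
    exact (mul_le_mul_of_nonneg_left a1 q0.le).trans hhi
  refine ⟨r', hρ₀ ▸ q1, hhi, hhi', q3, q4, dle_stageA hC hC₂ hL0 l5 hB1 (sub_nonneg.2 q2) u1.le
    u0.le (hf r' le_rfl q2).1.1.le (hf r' le_rfl q2).1.2.1 (hf r' le_rfl q2).2 (hE r' le_rfl q2), ?_⟩
  have s1 : r' ≤ r' * (1 + 2 / K) := le_mul_of_one_le_right q0.le (le_add_of_nonneg_right
    (by positivity))
  obtain ⟨t1, t2⟩ := o2 _ _ _ r' (r' * (1 + 2 / K)) _ K q0 s1 (hhi'.trans hr2) u0.le (by linarith)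
    (hB.trans hBK) fun ϱ h1 h2 => hEK ϱ h1 (h2.trans hhi')
  refine (en_stageA S.ms.cv d3 hK1 q0 (hhi'.trans S.r_le) t2).trans ?_
  have t3 : Real.exp (6 * K * Real.log (r' * (1 + 2 / K) / r')) * ux L 1 ≤ 1 := by
    rw [mul_div_cancel_left₀ _ q0.ne', ux, ← Real.exp_add, Real.exp_le_one_iff]
    have a1 := Real.log_le_sub_one_of_pos (show 0 < 1 + 2 / K by positivity)
    have a2 := mul_le_mul_of_nonneg_left a1 (show 0 ≤ 6 * K by positivity)
    have a3 : 6 * K * (1 + 2 / K - 1) = 12 := by field_simp; ring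
    linarith
  have t4 : (K * ux L 1) ^ 4 ≤ (1 / 16) ^ 4 :=
    pow_le_pow_left₀ (by positivity) (by linarith [S.r_ge, S.r_le]) 4
  have t5 : ux L (40 * b + 14) = ux L 1 * (ux L 1 ^ 4 * ux L (40 * b + 9)) := by
    rw [ux_pow_stageA, ← ux_add_stageA, ← ux_add_stageA]
    congr 1
    push_cast
    ring
  have t6 := ux_pos_stageA L (40 * b + 9)
  rw [q3, t5, ← mul_assoc] at t1
  have t7 := t1.trans (mul_le_of_le_one_left (by positivity) t3)
  calc _ ≤ 2628 * K ^ 4 * (ux L 1 ^ 4 * ux L (40 * b + 9)) :=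
        mul_le_mul_of_nonneg_left t7 (by positivity)
    _ = 2628 * (K * ux L 1) ^ 4 * ux L (40 * b + 9) := by ring
    _ ≤ _ := mul_le_of_le_one_left t6.le (by linarith)

end Pool.Agent.Lib.MP_8daebb_an.SV
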