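import Pool.Agent.Lib.MP_8daebb_an.SV.TDefs

/-! Linear algebra of area elements. -/

set_option linter.unusedSectionVars false

open MeasureTheory Metric Filter Topology Set Complex
open scoped RealInnerProductSpace ENNReal

namespace Pool.Agent.Lib.MP_8daebb_an.SV

variable {H : Type*} [NormedAddCommGroup H] [InnerProductSpace ℝ H] [FiniteDimensional ℝ H]
  [MeasurableSpace H] [BorelSpace H]

lemma det_two_talg (A : ℂ →ₗ[ℝ] ℂ) :
    LinearMap.det A = (A 1).re * (A I).im - (A I).re * (A 1).im := by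
  rw [← LinearMap.det_toMatrix Complex.basisOneI, Matrix.det_fin_two]
  simp [LinearMap.toMatrix_apply]

lemma det_adjoint_talg (A : ℂ →ₗ[ℝ] ℂ) :
    LinearMap.det (LinearMap.adjoint A) = LinearMap.det A := by
  have h1 : ∀ z : ℂ, (LinearMap.adjoint A z).re = ⟪z, A 1⟫ := fun z => by
    rw [← LinearMap.adjoint_inner_left, Complex.inner]
    simp
  have h2 : ∀ z : ℂ, (LinearMap.adjoint A z).im = ⟪z, A I⟫ := fun z => by
    rw [← LinearMap.adjoint_inner_left, Complex.inner]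
    simp
  rw [det_two_talg, det_two_talg, h1, h1, h2, h2]
  simp only [Complex.inner]
  simp
  ring

lemma jacC_eq_talg {M : ℂ →L[ℝ] H} (ι : ℂ →ₗᵢ[ℝ] H) (B : ℂ →ₗ[ℝ] ℂ) (h : ∀ x, M x = ι (B x)) :
    jacC M = |LinearMap.det B| := by
  rw [jacC, h, h, ι.norm_map, ι.norm_map, ι.inner_map_map, ← Real.sqrt_sq_eq_abs, det_two_talg,
    Complex.sq_norm, Complex.sq_norm, Complex.inner]
  congr 1
  simp only [Complex.normSq_apply, Complex.mul_re, Complex.conj_re, Complex.conj_im]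
  ring

theorem injective_of_plane {M : ℂ →L[ℝ] H} {P : H →L[ℝ] H} (hP : IsPlane 2 P)
    (hr : range P = range M) : Function.Injective M := by
  have h1 : LinearMap.range (P : H →ₗ[ℝ] H) = LinearMap.range (M : ℂ →ₗ[ℝ] H) :=
    SetLike.ext' hr
  have h2 := LinearMap.finrank_range_add_finrank_ker (M : ℂ →ₗ[ℝ] H)
  rw [← h1, hP.2.2, Complex.finrank_real_complex] at h2
  have h3 : LinearMap.ker (M : ℂ →ₗ[ℝ] H) = ⊥ := Submodule.finrank_eq_zero.1 (by omega)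
  exact LinearMap.ker_eq_bot.1 h3

/-- an injective map is an isometry composed with an automorphism of determinant `jacC` -/
theorem exists_factor {M : ℂ →L[ℝ] H} (hM : Function.Injective M) :
    ∃ (ι : ℂ →ₗᵢ[ℝ] H) (B : ℂ ≃L[ℝ] ℂ), (∀ x, M x = ι (B x)) ∧
      |(B : ℂ →L[ℝ] ℂ).det| = jacC M := by
  let K := LinearMap.range (M : ℂ →ₗ[ℝ] H)
  let φ : ℂ ≃ₗ[ℝ] K := LinearEquiv.ofInjective (M : ℂ →ₗ[ℝ] H) hM
  have hK : Module.finrank ℝ K = 2 := by
    rw [← φ.finrank_eq, Complex.finrank_real_complex]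
  let e : ℂ ≃ₗᵢ[ℝ] K := Complex.orthonormalBasisOneI.equiv (stdOrthonormalBasis ℝ K)
    (finCongr hK.symm)
  let B : ℂ ≃ₗ[ℝ] ℂ := φ.trans e.symm.toLinearEquiv
  have h : ∀ x, M x = (K.subtypeₗᵢ.comp e.toLinearIsometry) (B x) := by
    intro x
    show M x = (e (e.symm (φ x)) : H)
    rw [e.apply_symm_apply]
    rfl
  exact ⟨_, B.toContinuousLinearEquiv, h, (jacC_eq_talg _ (B : ℂ →ₗ[ℝ] ℂ) h).symm⟩

theorem plane_eq {ι : ℂ →ₗᵢ[ℝ] H} {P : H →L[ℝ] H} (hP : IsPlane 2 P) (hr : range P = range ι) :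
    P = ι.toContinuousLinearMap.comp (pr ι) := by
  ext x
  obtain ⟨p, hp⟩ : P x ∈ range ι := hr ▸ mem_range_self x
  have h : pr ι x = p := ext_inner_right ℝ fun q => by
    obtain ⟨z, hz⟩ : ι q ∈ range P := hr ▸ mem_range_self q
    rw [inner_pr, ← ι.inner_map_map, hp, ← hz, hP.1, hP.2.1]
  show P x = ι (pr ι x)
  rw [h, hp]

theorem jacC_pos {M : ℂ →L[ℝ] H} (hM : Function.Injective M) : 0 < jacC M := by
  obtain ⟨ι, B, -, h⟩ := exists_factor hM
  rw [← h, abs_pos]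
  exact (LinearEquiv.isUnit_det' B.toLinearEquiv).ne_zero

theorem continuous_jacC : Continuous fun L : ℂ →L[ℝ] H => jacC L := by
  unfold jacC
  fun_prop

theorem jacC_smul (c : ℝ) (M : ℂ →L[ℝ] H) : jacC (c • M) = c ^ 2 * jacC M := by
  have h : ‖(c • M) 1‖ ^ 2 * ‖(c • M) I‖ ^ 2 - ⟪(c • M) 1, (c • M) I⟫ ^ 2 =
      (c ^ 2) ^ 2 * (‖M 1‖ ^ 2 * ‖M I‖ ^ 2 - ⟪M 1, M I⟫ ^ 2) := by
    simp only [smul_apply, norm_smul, real_inner_smul_left,
      real_inner_smul_right, mul_pow, Real.norm_eq_abs, sq_abs]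
    ring
  rw [jacC, h, Real.sqrt_mul (sq_nonneg _), Real.sqrt_sq (sq_nonneg _), jacC]

theorem areaElt_eq_jacC (B : EuclideanSpace ℝ (Fin 2) →L[ℝ] H) :
    areaElt B = jacC (B.comp (kap.toContinuousLinearEquiv : ℂ →L[ℝ] EuclideanSpace ℝ (Fin 2))) := by
  have h1 : kap 1 = EuclideanSpace.single 0 1 := by
    have := Complex.orthonormalBasisOneI.repr_self 0
    simpa [kap] using this
  have h2 : kap I = EuclideanSpace.single 1 1 := by
    have := Complex.orthonormalBasisOneI.repr_self 1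
    simpa [kap] using this
  rw [areaElt, jacC, Matrix.det_fin_two]
  congr 1
  show _ = ‖B (kap 1)‖ ^ 2 * ‖B (kap I)‖ ^ 2 - ⟪B (kap 1), B (kap I)⟫ ^ 2
  rw [h1, h2]
  simp only [Matrix.of_apply, real_inner_self_eq_norm_sq]
  rw [real_inner_comm (B (EuclideanSpace.single 0 1))]
  ring

theorem continuous_jac : Continuous fun x : (H →L[ℝ] ℂ) × (H →L[ℝ] H) => jac x.1 x.2 := by
  have := FiniteDimensional.complete ℝ H
  have h : ∀ (A : H →L[ℝ] ℂ) (z : ℂ), LinearMap.adjoint (A : H →ₗ[ℝ] ℂ) z =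
      ContinuousLinearMap.adjoint A z := fun A z => by
    rw [ContinuousLinearMap.adjoint_toLinearMap]
    rfl
  have hc : Continuous fun A : H →L[ℝ] ℂ => ContinuousLinearMap.adjoint A :=
    (ContinuousLinearMap.adjoint : (H →L[ℝ] ℂ) ≃ₗᵢ⋆[ℝ] (ℂ →L[ℝ] H)).continuous
  have h2 : ∀ z : ℂ, Continuous fun x : (H →L[ℝ] ℂ) × (H →L[ℝ] H) =>
      x.1 (x.2 (ContinuousLinearMap.adjoint x.1 z)) := fun z =>
    continuous_fst.clm_apply (continuous_snd.clm_apply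
      ((hc.comp continuous_fst).clm_apply continuous_const))
  simp only [jac, det_two_talg, LinearMap.comp_apply, h, ContinuousLinearMap.coe_coe]
  exact (((continuous_re.comp (h2 1)).mul (continuous_im.comp (h2 I))).sub
    ((continuous_re.comp (h2 I)).mul (continuous_im.comp (h2 1)))).sqrt

/-- the chain rule for area elements -/
theorem abs_det_comp {M : ℂ →L[ℝ] H} {P : H →L[ℝ] H} (hP : IsPlane 2 P) (hr : range P = range M)
    (L : H →L[ℝ] ℂ) : |(L.comp M).det| = jac L P * jacC M := by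
  obtain ⟨ι, B, h1, h2⟩ := exists_factor (injective_of_plane hP hr)
  have h3 : range P = range ι := by
    rw [hr, show (M : ℂ → H) = ι ∘ B from funext h1, B.surjective.range_comp]
  have h4 : (L : H →ₗ[ℝ] ℂ) ∘ₗ (P : H →ₗ[ℝ] H) ∘ₗ LinearMap.adjoint (L : H →ₗ[ℝ] ℂ) =
      ((L : H →ₗ[ℝ] ℂ) ∘ₗ ι.toLinearMap) ∘ₗ
        LinearMap.adjoint ((L : H →ₗ[ℝ] ℂ) ∘ₗ ι.toLinearMap) := by
    rw [LinearMap.adjoint_comp, plane_eq hP h3]
    rfl
  have h5 : ((L.comp M : ℂ →L[ℝ] ℂ) : ℂ →ₗ[ℝ] ℂ) =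
      ((L : H →ₗ[ℝ] ℂ) ∘ₗ ι.toLinearMap) ∘ₗ ((B : ℂ →L[ℝ] ℂ) : ℂ →ₗ[ℝ] ℂ) :=
    LinearMap.ext fun x => congrArg L (h1 x)
  rw [jac, h4, LinearMap.det_comp, det_adjoint_talg, Real.sqrt_mul_self_eq_abs, ← h2,
    ContinuousLinearMap.det, h5, LinearMap.det_comp, abs_mul]

end Pool.Agent.Lib.MP_8daebb_an.SV
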