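import Pool.Agent.Lib.MP_8daebb_an.SV.EV
import Pool.Agent.Lib.MP_8daebb_an.Fiber

/-! Definitions for the passage from the hypotheses of the question to the package EV. -/

set_option linter.unusedSectionVars false

open MeasureTheory Metric Filter Topology Set Complex
open scoped RealInnerProductSpace ENNReal

namespace Pool.Agent.Lib.MP_8daebb_an.SV

variable {H : Type*} [NormedAddCommGroup H] [InnerProductSpace ℝ H] [FiniteDimensional ℝ H]
  [MeasurableSpace H] [BorelSpace H]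

/-- the plane as the complex numbers -/
noncomputable def kap : ℂ ≃ₗᵢ[ℝ] EuclideanSpace ℝ (Fin 2) := Complex.orthonormalBasisOneI.repr

/-- the tangent plane parametrised by the complex numbers -/
noncomputable def iota2 (ι : EuclideanSpace ℝ (Fin 2) →ₗᵢ[ℝ] H) : ℂ →ₗᵢ[ℝ] H :=
  ι.comp kap.toLinearIsometry

/-- area element of a map from the complex plane -/
noncomputable def jacC (L : ℂ →L[ℝ] H) : ℝ := √(‖L 1‖ ^ 2 * ‖L I‖ ^ 2 - ⟪L 1, L I⟫ ^ 2)

/-- integral 2-varifold, parametrised from the complex plane -/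
def IsIntC (V : Measure (H × (H →L[ℝ] H))) : Prop :=
  ∃ (f : ℕ → ℂ → H) (A : ℕ → Set ℂ) (P : ℕ → ℂ → H →L[ℝ] H),
    (∀ k, ContDiff ℝ 1 (f k)) ∧ (∀ k, MeasurableSet (A k)) ∧ (∀ k, Measurable (P k)) ∧
    (∀ k, ∀ a ∈ A k, IsPlane 2 (P k a) ∧ range (P k a) = range (fderiv ℝ (f k) a)) ∧
    ∀ φ : H × (H →L[ℝ] H) → ℝ≥0∞, Measurable φ →
      ∫⁻ w, φ w ∂V = ∑' k, ∫⁻ a in A k, φ (f k a, P k a) *
        ENNReal.ofReal (jacC (fderiv ℝ (f k) a))

/-- the lower density at `p` is at least one -/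
def LD1 (V : Measure (H × (H →L[ℝ] H))) (p : H) : Prop :=
  ∀ δ > 0, ∀ᶠ s in 𝓝[>] (0 : ℝ), ENNReal.ofReal ((1 - δ) * Real.pi * s ^ 2) ≤ V.fst (ball p s)

/-- the blow-up at `x₀` with scale `r` of the part of `V` in the ball of radius `4 r` -/
noncomputable def blow (V : Measure (H × (H →L[ℝ] H))) (x₀ : H) (r : ℝ) :
    Measure (H × (H →L[ℝ] H)) :=
  ENNReal.ofReal (r⁻¹ ^ 2) •
    (V.restrict (Prod.fst ⁻¹' ball x₀ (4 * r))).map fun w => (r⁻¹ • (w.1 - x₀), w.2)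

end Pool.Agent.Lib.MP_8daebb_an.SV
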