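import Pool.Agent.Lib.MP_8daebb_an.SV.TAlg

/-! Lower density of integral varifolds. -/

set_option linter.unusedSectionVars false

open MeasureTheory Metric Filter Topology Set Complex
open scoped RealInnerProductSpace ENNReal

namespace Pool.Agent.Lib.MP_8daebb_an.SV

variable {H : Type*} [NormedAddCommGroup H] [InnerProductSpace ℝ H] [FiniteDimensional ℝ H]
  [MeasurableSpace H] [BorelSpace H]

variable {V : Measure (H × (H →L[ℝ] H))}

theorem ae_density_point {A : Set ℂ} (hA : MeasurableSet A) :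
    ∀ᵐ a ∂(volume.restrict A), Tendsto
      (fun s : ℝ => volume (closedBall a s \ A) / volume (closedBall a s)) (𝓝[>] 0) (𝓝 0) := by
  rw [ae_restrict_iff' hA]
  filter_upwards [Besicovitch.ae_tendsto_measure_inter_div_of_measurableSet
    (volume : Measure ℂ) hA.compl] with a ha haA
  rw [indicator_of_notMem (by simpa using haA)] at ha
  refine ha.congr fun s => ?_
  rw [inter_comm]; rfl

theorem vol_ball_tld (a : ℂ) {r : ℝ} (hr : 0 ≤ r) :
    volume (ball a r) = ENNReal.ofReal (Real.pi * r ^ 2) := by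
  rw [Complex.volume_ball, mul_comm Real.pi, ENNReal.ofReal_mul (by positivity),
    ENNReal.ofReal_pow hr]
  congr 1
  rw [← NNReal.coe_real_pi, ENNReal.ofReal_coe_nnreal]

theorem vol_cball_tld (a : ℂ) {r : ℝ} (hr : 0 ≤ r) :
    volume (closedBall a r) = ENNReal.ofReal (Real.pi * r ^ 2) := by
  rw [Measure.addHaar_closedBall_eq_addHaar_ball, vol_ball_tld a hr]

theorem vol_ell_tld (B : ℂ ≃L[ℝ] ℂ) (c : ℂ) {r J : ℝ} (hr : 0 ≤ r)
    (hJ : |(B : ℂ →L[ℝ] ℂ).det| = J) (h0 : 0 < J) :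
    volume (B ⁻¹' ball c r) = ENNReal.ofReal (Real.pi * r ^ 2 / J) := by
  have hne : LinearMap.det ((B : ℂ →L[ℝ] ℂ) : ℂ →ₗ[ℝ] ℂ) ≠ 0 := by
    intro e
    have : (B : ℂ →L[ℝ] ℂ).det = 0 := e
    rw [this, abs_zero] at hJ
    exact h0.ne hJ
  have := Measure.addHaar_preimage_continuousLinearMap (volume : Measure ℂ) hne (ball c r)
  have e2 : |(LinearMap.det ((B : ℂ →L[ℝ] ℂ) : ℂ →ₗ[ℝ] ℂ))⁻¹| = J⁻¹ := by
    rw [abs_inv, ← hJ]
  rw [e2, vol_ball_tld c hr, ← ENNReal.ofReal_mul (by positivity)] at this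
  rw [div_eq_inv_mul]
  exact this

/-- at a density point of `A` the piece `f(A)` has lower density one -/
theorem lower_density_piece {f : ℂ → H} (hf : ContDiff ℝ 1 f) {A : Set ℂ} (hA : MeasurableSet A)
    {a : ℂ} (hi : Function.Injective (fderiv ℝ f a))
    (hd : Tendsto (fun s : ℝ => volume (closedBall a s \ A) / volume (closedBall a s)) (𝓝[>] 0)
      (𝓝 0)) {δ : ℝ} (hδ : 0 < δ) :
    ∀ᶠ s in 𝓝[>] (0 : ℝ), ENNReal.ofReal ((1 - δ) * Real.pi * s ^ 2) ≤
      ∫⁻ x in A ∩ f ⁻¹' ball (f a) s, ENNReal.ofReal (jacC (fderiv ℝ f x)) := by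
  rcases le_or_gt 1 δ with h1 | h1
  · refine Eventually.of_forall fun s => ?_
    rw [ENNReal.ofReal_of_nonpos]
    · exact zero_le
    · have : 0 ≤ Real.pi * s ^ 2 := by positivity
      nlinarith
  obtain ⟨ι, B, hB, hJ⟩ := exists_factor hi
  have hJ0 := jacC_pos hi
  set J := jacC (fderiv ℝ f a) with hJd
  set η := δ / 4 with hη
  have hη0 : 0 < η := by positivity
  have hη1 : η < 1 / 4 := by linarith
  set C := ‖(B.symm : ℂ →L[ℝ] ℂ)‖ + 1 with hC
  have hC0 : 0 < C := by positivity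
  have hCle : ∀ x : ℂ, ‖x‖ ≤ C * ‖B x‖ := fun x => by
    have := (B.symm : ℂ →L[ℝ] ℂ).le_opNorm (B x)
    simp only [ContinuousLinearEquiv.coe_coe, ContinuousLinearEquiv.symm_apply_apply] at this
    nlinarith [norm_nonneg (B x)]
  have e1 : ∀ᶠ x in 𝓝 a, ‖f x - f a - fderiv ℝ f a (x - a)‖ ≤ η / C * ‖x - a‖ :=
    ((hf.differentiable one_ne_zero a).hasFDerivAt.isLittleO).def (by positivity)
  have e2 : ∀ᶠ x in 𝓝 a, (1 - η) * J < jacC (fderiv ℝ f x) := by
    have hc : Continuous fun x => jacC (fderiv ℝ f x) :=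
      continuous_jacC.comp (hf.continuous_fderiv one_ne_zero)
    exact hc.continuousAt.eventually (lt_mem_nhds (by nlinarith))
  obtain ⟨ρ, hρ, hball⟩ := Metric.eventually_nhds_iff_ball.1 (e1.and e2)
  have hCs : Tendsto (fun s : ℝ => C * s) (𝓝[>] 0) (𝓝[>] 0) := by
    refine tendsto_nhdsWithin_iff.2 ⟨?_, ?_⟩
    · have : Tendsto (fun s : ℝ => C * s) (𝓝 0) (𝓝 (C * 0)) :=
        (continuous_const.mul continuous_id).tendsto 0
      rw [mul_zero] at this
      exact this.mono_left nhdsWithin_le_nhds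
    · filter_upwards [self_mem_nhdsWithin] with s hs
      exact mul_pos hC0 hs
  have e3 := (hd.comp hCs).eventually (gt_mem_nhds
    (show (0 : ℝ≥0∞) < ENNReal.ofReal (η / (J * C ^ 2)) from ENNReal.ofReal_pos.2 (by positivity)))
  have e4 : ∀ᶠ s in 𝓝[>] (0 : ℝ), C * s < ρ :=
    (hCs.mono_right nhdsWithin_le_nhds).eventually (gt_mem_nhds hρ)
  filter_upwards [e3, e4, self_mem_nhdsWithin] with s h3 h4 hs
  have hs : 0 < s := hs
  set El : Set ℂ := B ⁻¹' ball (B a) ((1 - η) * s) with hEl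
  have hElm : MeasurableSet El := measurableSet_ball.preimage B.continuous.measurable
  have hn : ∀ x ∈ El, ‖B (x - a)‖ < (1 - η) * s := fun x hx => by
    rw [map_sub, ← dist_eq_norm]; exact hx
  have hcb : ∀ x ∈ El, ‖x - a‖ ≤ C * s := fun x hx => by
    have h5 := hn x hx
    have h6 := hCle (x - a)
    have h7 : ‖B (x - a)‖ ≤ s := by nlinarith
    exact h6.trans (mul_le_mul_of_nonneg_left h7 hC0.le)
  have hρ' : ∀ x ∈ El, x ∈ ball a ρ := fun x hx => by
    rw [mem_ball, dist_eq_norm]; exact (hcb x hx).trans_lt h4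
  have hsub : A ∩ El ⊆ A ∩ f ⁻¹' ball (f a) s := by
    rintro x ⟨hxA, hx⟩
    refine ⟨hxA, ?_⟩
    rw [mem_preimage, mem_ball, dist_eq_norm]
    have h5 := (hball x (hρ' x hx)).1
    have h6 : η / C * ‖x - a‖ ≤ η * s := by
      calc η / C * ‖x - a‖ ≤ η / C * (C * s) :=
            mul_le_mul_of_nonneg_left (hcb x hx) (by positivity)
        _ = η * s := by field_simp
    have h7 : ‖fderiv ℝ f a (x - a)‖ < (1 - η) * s := by
      rw [hB, ι.norm_map]; exact hn x hx
    calc ‖f x - f a‖ = ‖(f x - f a - fderiv ℝ f a (x - a)) + fderiv ℝ f a (x - a)‖ := by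
          rw [sub_add_cancel]
      _ ≤ _ := norm_add_le _ _
      _ < s := by linarith
  have hv1 : volume (closedBall a (C * s) \ A) ≤ ENNReal.ofReal (η * Real.pi * s ^ 2 / J) := by
    have h5 : volume (closedBall a (C * s) \ A) / volume (closedBall a (C * s))
        < ENNReal.ofReal (η / (J * C ^ 2)) := h3
    have h6 := ENNReal.div_le_iff_le_mul (a := volume (closedBall a (C * s) \ A))
      (b := volume (closedBall a (C * s))) (c := ENNReal.ofReal (η / (J * C ^ 2)))
      (Or.inr ENNReal.ofReal_ne_top) (Or.inl measure_closedBall_lt_top.ne)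
    refine (h6.1 h5.le).trans_eq ?_
    rw [vol_cball_tld a (by positivity), ← ENNReal.ofReal_mul (by positivity)]
    congr 1
    field_simp
  have hv2 : volume El = ENNReal.ofReal (Real.pi * ((1 - η) * s) ^ 2 / J) :=
    vol_ell_tld B _ (by nlinarith) hJ hJ0
  have hv3 : ENNReal.ofReal (Real.pi * ((1 - η) * s) ^ 2 / J - η * Real.pi * s ^ 2 / J)
      ≤ volume (A ∩ El) := by
    rw [ENNReal.ofReal_sub _ (by positivity), tsub_le_iff_right, ← hv2]
    calc volume El ≤ volume (A ∩ El ∪ (closedBall a (C * s) \ A)) := by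
          refine measure_mono fun x hx => ?_
          by_cases hxA : x ∈ A
          · exact Or.inl ⟨hxA, hx⟩
          · exact Or.inr ⟨by rw [mem_closedBall, dist_eq_norm]; exact hcb x hx, hxA⟩
      _ ≤ _ := measure_union_le _ _
      _ ≤ _ := by gcongr
  have hJη : 0 ≤ (1 - η) * J := by nlinarith
  calc ENNReal.ofReal ((1 - δ) * Real.pi * s ^ 2)
      ≤ ENNReal.ofReal ((1 - η) * J *
          (Real.pi * ((1 - η) * s) ^ 2 / J - η * Real.pi * s ^ 2 / J)) := by
        apply ENNReal.ofReal_le_ofReal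
        have e : (1 - η) * J * (Real.pi * ((1 - η) * s) ^ 2 / J - η * Real.pi * s ^ 2 / J)
            = (1 - η) * ((1 - η) ^ 2 - η) * (Real.pi * s ^ 2) := by
          field_simp
        rw [e, mul_assoc]
        refine mul_le_mul_of_nonneg_right ?_ (by positivity)
        have : δ = 4 * η := by rw [hη]; ring
        rw [this]
        nlinarith [mul_pos hη0 hη0]
    _ ≤ ENNReal.ofReal ((1 - η) * J) * volume (A ∩ El) := by
        rw [ENNReal.ofReal_mul hJη]; gcongr
    _ = ∫⁻ _ in A ∩ El, ENNReal.ofReal ((1 - η) * J) := (setLIntegral_const _ _).symm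
    _ ≤ ∫⁻ x in A ∩ El, ENNReal.ofReal (jacC (fderiv ℝ f x)) :=
        setLIntegral_mono' (hA.inter hElm) fun x hx =>
          ENNReal.ofReal_le_ofReal (hball x (hρ' x hx.2)).2.le
    _ ≤ _ := lintegral_mono_set hsub

theorem lsc_ball_tld (μ : Measure H) (s : ℝ) : LowerSemicontinuous fun p : H => μ (ball p s) := by
  intro p c hc
  have hU : ball p s = ⋃ n : ℕ, ball p (s - 1 / ((n : ℝ) + 1)) := by
    ext x
    simp only [mem_ball, mem_iUnion]
    constructor
    · intro h
      obtain ⟨n, hn⟩ := exists_nat_one_div_lt (sub_pos.2 h)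
      exact ⟨n, by linarith⟩
    · rintro ⟨n, hn⟩
      have : (0 : ℝ) < 1 / ((n : ℝ) + 1) := by positivity
      linarith
  have hm : Monotone fun n : ℕ => ball p (s - 1 / ((n : ℝ) + 1)) := fun m n hmn =>
    ball_subset_ball (by
      have := Nat.one_div_le_one_div (α := ℝ) hmn
      linarith)
  have hc' : c < μ (ball p s) := hc
  rw [hU, hm.measure_iUnion, lt_iSup_iff] at hc'
  obtain ⟨n, hn⟩ := hc'
  filter_upwards [ball_mem_nhds p (show (0 : ℝ) < 1 / ((n : ℝ) + 1) by positivity)] with y hy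
  refine hn.trans_le (measure_mono fun x hx => ?_)
  rw [mem_ball] at hx hy ⊢
  have := dist_triangle x p y
  rw [dist_comm p y] at this
  linarith

/-- rational form of the lower density condition -/
def GoodTld (μ : Measure H) : Set H :=
  {p | ∀ n : ℕ, ∃ m : ℕ, ∀ q : ℚ, 0 < (q : ℝ) → (q : ℝ) < 1 / ((m : ℝ) + 1) →
    ENNReal.ofReal ((1 - 1 / ((n : ℝ) + 1)) * Real.pi * (q : ℝ) ^ 2) ≤ μ (ball p q)}

theorem measurableSet_goodTld (μ : Measure H) : MeasurableSet (GoodTld μ) := by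
  have e : GoodTld μ = ⋂ n : ℕ, ⋃ m : ℕ, ⋂ q : ℚ, ⋂ _ : 0 < (q : ℝ),
      ⋂ _ : (q : ℝ) < 1 / ((m : ℝ) + 1), {p | ENNReal.ofReal
        ((1 - 1 / ((n : ℝ) + 1)) * Real.pi * (q : ℝ) ^ 2) ≤ μ (ball p q)} := by
    ext p
    simp only [GoodTld, mem_ofPred_eq, mem_iInter, mem_iUnion]
  rw [e]
  refine MeasurableSet.iInter fun n => MeasurableSet.iUnion fun m => MeasurableSet.iInter fun q =>
    MeasurableSet.iInter fun _ => MeasurableSet.iInter fun _ => ?_
  exact measurableSet_le measurable_const (lsc_ball_tld μ q).measurable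

theorem LD1.good_tld {p : H} (h : LD1 V p) : p ∈ GoodTld V.fst := by
  intro n
  have := h (1 / ((n : ℝ) + 1)) (by positivity)
  obtain ⟨u, hu, hsub⟩ := mem_nhdsGT_iff_exists_Ioo_subset.1 this
  obtain ⟨m, hm⟩ := exists_nat_one_div_lt (K := ℝ) (show (0 : ℝ) < u from hu)
  exact ⟨m, fun q h0 h1 => hsub ⟨h0, h1.trans hm⟩⟩

theorem ld1_of_good_tld {p : H} (h : p ∈ GoodTld V.fst) : LD1 V p := by
  intro δ hδ
  obtain ⟨n, hn⟩ := exists_nat_one_div_lt (K := ℝ) hδ
  obtain ⟨m, hm⟩ := h n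
  filter_upwards [Ioo_mem_nhdsGT (show (0 : ℝ) < 1 / ((m : ℝ) + 1) by positivity)] with s hs
  have hc : ContinuousAt (fun t : ℝ => ENNReal.ofReal ((1 - δ) * Real.pi * t ^ 2)) s :=
    (ENNReal.continuous_ofReal.comp (by fun_prop)).continuousAt
  refine le_of_forall_lt fun c hc' => ?_
  have h1 : ∀ᶠ t in 𝓝 s, c < ENNReal.ofReal ((1 - δ) * Real.pi * t ^ 2) :=
    hc.eventually (lt_mem_nhds hc')
  obtain ⟨ε, hε, hb⟩ := Metric.eventually_nhds_iff_ball.1 (h1.and (lt_mem_nhds hs.1))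
  obtain ⟨q, hq1, hq2⟩ := exists_rat_btwn (show s - ε < s by linarith)
  obtain ⟨h2, h3⟩ := hb q (by rw [mem_ball, Real.dist_eq, abs_lt]; constructor <;> linarith)
  refine h2.trans_le ((ENNReal.ofReal_le_ofReal ?_).trans ((hm q h3 (hq2.trans hs.2)).trans
    (measure_mono (ball_subset_ball hq2.le))))
  have : 0 ≤ Real.pi * (q : ℝ) ^ 2 := by positivity
  nlinarith

theorem IsIntC.ae_LD1 (h : IsIntC V) : ∀ᵐ w ∂V, LD1 V w.1 := by
  obtain ⟨f, A, P, hf, hA, hP, hpl, hV⟩ := h
  have hlow : ∀ k (p : H) (s : ℝ), ∫⁻ x in A k ∩ f k ⁻¹' ball p s,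
      ENNReal.ofReal (jacC (fderiv ℝ (f k) x)) ≤ V.fst (ball p s) := by
    intro k p s
    have hS : MeasurableSet (Prod.fst ⁻¹' ball p s : Set (H × (H →L[ℝ] H))) :=
      measurableSet_ball.preimage measurable_fst
    rw [Measure.fst_apply measurableSet_ball, ← lintegral_indicator_one hS,
      hV _ (measurable_one.indicator hS)]
    refine le_trans (le_of_eq ?_) (ENNReal.le_tsum k)
    have hT : MeasurableSet (f k ⁻¹' ball p s) :=
      measurableSet_ball.preimage (hf k).continuous.measurable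
    rw [inter_comm, ← Measure.restrict_restrict hT, ← lintegral_indicator hT]
    refine lintegral_congr fun x => ?_
    by_cases hx : f k x ∈ ball p s
    · rw [indicator_of_mem (show x ∈ f k ⁻¹' ball p s from hx),
        indicator_of_mem (show (f k x, P k x) ∈ Prod.fst ⁻¹' ball p s from hx), Pi.one_apply,
        one_mul]
    · rw [indicator_of_notMem (show x ∉ f k ⁻¹' ball p s from hx),
        indicator_of_notMem (show (f k x, P k x) ∉ Prod.fst ⁻¹' ball p s from hx), zero_mul]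
  have hS : MeasurableSet (Prod.fst ⁻¹' (GoodTld V.fst)ᶜ : Set (H × (H →L[ℝ] H))) :=
    (measurableSet_goodTld V.fst).compl.preimage measurable_fst
  have h0 : V (Prod.fst ⁻¹' (GoodTld V.fst)ᶜ) = 0 := by
    rw [← lintegral_indicator_one hS, hV _ (measurable_one.indicator hS), ENNReal.tsum_eq_zero]
    intro k
    refine lintegral_eq_zero_of_ae_eq_zero ?_
    filter_upwards [ae_density_point (hA k), ae_restrict_mem (hA k)] with a ha haA
    have hi := injective_of_plane (hpl k a haA).1 (hpl k a haA).2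
    have hl : LD1 V (f k a) := fun δ hδ =>
      (lower_density_piece (hf k) (hA k) hi ha hδ).mono fun s hs => hs.trans (hlow k _ s)
    rw [indicator_of_notMem (show (f k a, P k a) ∉ Prod.fst ⁻¹' (GoodTld V.fst)ᶜ from
      fun hh => hh hl.good_tld), zero_mul]
    rfl
  have : ∀ᵐ w ∂V, w.1 ∈ GoodTld V.fst := by
    rw [ae_iff]; exact h0
  exact this.mono fun w hw => ld1_of_good_tld hw

end Pool.Agent.Lib.MP_8daebb_an.SV
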