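import Pool.Agent.Lib.MP_8daebb_an.SV.BC
import Pool.Agent.Lib.MP_8daebb_an.SV.SC2

/-! The mass ratio is close to an integer. -/

open MeasureTheory Metric Filter Topology Set
open scoped RealInnerProductSpace ENNReal ContDiff

namespace Pool.Agent.Lib.MP_8daebb_an.SV

variable {α : Type*} [MeasurableSpace α] {H : Type*} [NormedAddCommGroup H]
  [InnerProductSpace ℝ H] [FiniteDimensional ℝ H] [MeasurableSpace H] [BorelSpace H]

theorem vol_ball_trap (a : ℂ) {r : ℝ} (hr : 0 ≤ r) :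
    volume.real (ball a r) = Real.pi * r ^ 2 := by
  rw [Measure.real, Complex.volume_ball, ENNReal.toReal_mul, ENNReal.toReal_pow,
    ENNReal.toReal_ofReal hr, ENNReal.coe_toReal, NNReal.coe_real_pi, mul_comm]

theorem leb_trap {f : ℂ → ℝ} (hf : Integrable f) : ∀ᵐ x,
    Tendsto (fun r : ℝ => (∫ y in ball x r, f y) / r ^ 2) (𝓝[>] 0) (𝓝 (Real.pi * f x)) := by
  filter_upwards [IsUnifLocDoublingMeasure.ae_tendsto_average volume hf.locallyIntegrable 1]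
    with x hx
  have hm : ∀ᶠ r in 𝓝[>] (0 : ℝ), x ∈ closedBall x (1 * r) := by
    filter_upwards [self_mem_nhdsWithin] with r hr
    exact mem_closedBall_self (by rw [one_mul]; exact le_of_lt hr)
  have h1 := (hx (fun _ : ℝ => x) (fun r => r) tendsto_id hm).const_mul Real.pi
  refine h1.congr' ?_
  filter_upwards [self_mem_nhdsWithin] with r hr
  have hr0 : 0 < r := hr
  have hae : closedBall x r =ᵐ[volume] ball x r := by
    refine (ae_eq_of_subset_of_measure_ge ball_subset_closedBall ?_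
      measurableSet_ball.nullMeasurableSet measure_closedBall_lt_top.ne).symm
    rw [Measure.addHaar_closedBall_eq_addHaar_ball]
  rw [setAverage_eq, setIntegral_congr_set hae, measureReal_congr hae, vol_ball_trap x hr0.le,
    smul_eq_mul]
  have := Real.pi_pos
  field_simp

theorem cyl_sub_trap (D : CD α H) {u v : ℂ} {r s : ℝ} (h : ‖v - u‖ + r ≤ s) :
    D.cyl v r ⊆ D.cyl u s := by
  intro a ha
  have h1 : ‖D.x a - v‖ < r := ha
  have h2 : ‖D.x a - u‖ ≤ ‖D.x a - v‖ + ‖v - u‖ := norm_sub_le_norm_sub_add_norm_sub _ _ _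
  show ‖D.x a - u‖ < s
  linarith

theorem mass_mono_trap {D : CD α H} {c : ℂ} {R δ M : ℝ} (h : CV D c R δ M) {u v : ℂ} {r s : ℝ}
    (hs : ‖v - u‖ + r ≤ s) : D.m.real (D.cyl v r) ≤ D.m.real (D.cyl u s) := by
  have := h.fin
  exact measureReal_mono (cyl_sub_trap D hs)

theorem T_mono_trap {D : CD α H} {c : ℂ} {R δ M : ℝ} (h : CV D c R δ M) {u v : ℂ} {r s : ℝ}
    (hs : ‖v - u‖ + r ≤ s) : D.T v r ≤ D.T u s := by
  refine setIntegral_mono_set h.integrable_t.1.integrableOn ?_ (cyl_sub_trap D hs).eventuallyLE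
  refine ae_restrict_of_ae ?_
  filter_upwards [h.ae_G] with a ha using (h.pw a ha).t_nonneg

theorem T_nonneg_trap {D : CD α H} {c : ℂ} {R δ M : ℝ} (h : CV D c R δ M) (u : ℂ) (s : ℝ) :
    0 ≤ D.T u s := by
  refine integral_nonneg_of_ae (ae_restrict_of_ae ?_)
  filter_upwards [h.ae_G] with a ha using (h.pw a ha).t_nonneg

theorem J_le_trap {D : CD α H} {c : ℂ} {R δ M : ℝ} (h : CV D c R δ M) (hδ : δ ≤ 1) (u : ℂ)
    (s : ℝ) : D.J u s ≤ D.m.real (D.cyl u s) := by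
  have := h.fin
  have h1 : D.J u s ≤ ∫ _ in D.cyl u s, (1 : ℝ) ∂D.m := by
    refine integral_mono_ae h.integrable_t.2.2.1.integrableOn (integrable_const _)
      (ae_restrict_of_ae ?_)
    filter_upwards [h.ae_G] with a ha
    have h2 := (h.pw a ha).y_le
    have h3 := norm_nonneg (D.y a)
    show ‖D.y a‖ ^ 2 ≤ 1
    nlinarith
  simpa using h1

theorem t2_le_trap {D : CD α H} {c : ℂ} {R δ M : ℝ} (h : CV D c R δ M) (u : ℂ) (s : ℝ) :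
    ∫ a in D.cyl u s, D.t a ^ 2 ∂D.m ≤ 2 * D.T u s := by
  rw [CD.T, ← integral_const_mul]
  refine integral_mono_ae h.integrable_t.2.1.integrableOn
    (h.integrable_t.1.const_mul 2).integrableOn (ae_restrict_of_ae ?_)
  filter_upwards [h.ae_G] with a ha
  have h2 := (h.pw a ha).t_le
  have h3 := (h.pw a ha).t_nonneg
  show D.t a ^ 2 ≤ 2 * D.t a
  nlinarith

/-- The integral of a multiplicity bounded by `n` off a set `B`. -/
theorem int_le_trap {N : ℂ → ℕ} (hN : Integrable fun v => (N v : ℝ)) {B : Set ℂ}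
    (hB : MeasurableSet B) (hI : IntegrableOn (fun v => (N v : ℝ) + 1) B) (u : ℂ) {σ : ℝ}
    (hσ : 0 ≤ σ) (n : ℕ) (h : ∀ᵐ v, v ∈ ball u σ → v ∉ B → (N v : ℝ) ≤ n) :
    ∫ v in ball u σ, (N v : ℝ) ≤ n * (Real.pi * σ ^ 2) + ∫ v in B, ((N v : ℝ) + 1) := by
  have : IsFiniteMeasure (volume.restrict (ball u σ)) :=
    isFiniteMeasure_restrict.2 measure_ball_lt_top.ne
  have hi : Integrable (B.indicator fun v => (N v : ℝ) + 1) := (integrable_indicator_iff hB).2 hI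
  have h0 : ∀ v, 0 ≤ B.indicator (fun v => (N v : ℝ) + 1) v := fun v =>
    indicator_nonneg (fun v _ => by positivity) v
  calc ∫ v in ball u σ, (N v : ℝ)
      ≤ ∫ v in ball u σ, ((n : ℝ) + B.indicator (fun v => (N v : ℝ) + 1) v) := by
        refine integral_mono_ae hN.integrableOn ((integrable_const _).add hi.integrableOn) ?_
        rw [EventuallyLE, ae_restrict_iff' measurableSet_ball]
        filter_upwards [h] with v hv hvb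
        by_cases hb : v ∈ B
        · rw [indicator_of_mem hb]
          have : (0 : ℝ) ≤ n := Nat.cast_nonneg n
          linarith
        · rw [indicator_of_notMem hb, add_zero]
          exact hv hvb hb
    _ = n * (Real.pi * σ ^ 2) + ∫ v in ball u σ, B.indicator (fun v => (N v : ℝ) + 1) v := by
        rw [integral_add (integrable_const _) hi.integrableOn, setIntegral_const,
          vol_ball_trap u hσ, smul_eq_mul, mul_comm]
    _ ≤ n * (Real.pi * σ ^ 2) + ∫ v in B, ((N v : ℝ) + 1) := by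
        rw [← integral_indicator hB]
        exact add_le_add le_rfl (setIntegral_le_integral hi (Eventually.of_forall h0))

/-- Comparison of the ratios of two cylinders near `u` at the scale `σ`. -/
theorem move_trap {κ : ℝ} (hκ : 0 < κ) (hκ1 : κ ≤ 1 / 2) : ∃ C : ℝ, 0 < C ∧
    ∀ (D : CD α H) (c : ℂ) (R δ M : ℝ), CV D c R δ M → δ ≤ 1 →
    ∀ (u u₁ u₂ : ℂ) (σ r₁ r₂ A lam : ℝ), 0 < σ → ‖u₁ - u‖ ≤ σ → ‖u₂ - u‖ ≤ σ → σ / 2 ≤ r₁ →
    r₁ ≤ 2 * σ → σ / 2 ≤ r₂ → r₂ ≤ 2 * σ → ‖u - c‖ + 8 * σ ≤ R → D.T u (8 * σ) ≤ lam * σ ^ 2 →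
    0 ≤ A → D.m.real (D.cyl u (8 * σ)) ≤ A * σ ^ 2 →
    D.m.real (D.cyl u₁ r₁) / r₁ ^ 2 ≤ (1 + κ) ^ 2 * (D.m.real (D.cyl u₂ r₂) / r₂ ^ 2) +
      C * (lam + δ * A) := by
  obtain ⟨C, hC, hmv⟩ := sc_move (α := α) (H := H) (κ := κ) (L := 8) hκ (by linarith) (by norm_num)
  refine ⟨C, hC, fun D c R δ M h hδ u u₁ u₂ σ r₁ r₂ A lam hσ h1 h2 h3 h4 h5 h6 hR hT hA hm => ?_⟩
  have hk : 0 < 1 + κ := by linarith
  have hr2 : 0 < r₂ := by linarith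
  have h7 : 2 * σ ≤ 8 * (r₂ / (1 + κ)) := by
    rw [← mul_div_assoc, le_div_iff₀ hk]; nlinarith
  have h8 : r₂ / (1 + κ) ≤ 2 * σ := by
    rw [div_le_iff₀ hk]; nlinarith
  have h9 : D.m.real (D.cyl u (3 * (2 * σ))) ≤ A * (2 * σ) ^ 2 := by
    have := mass_mono_trap h (u := u) (v := u) (r := 3 * (2 * σ)) (s := 8 * σ)
      (by rw [sub_self, norm_zero]; linarith)
    have h10 : 0 ≤ A * σ ^ 2 := by positivity
    nlinarith
  have hh := hmv D c R δ M h hδ u u₁ u₂ (2 * σ) r₁ (r₂ / (1 + κ)) A (by linarith) (by linarith)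
    (by linarith) (by linarith) h4 h7 h8 (by linarith) h9
  have e1 : (1 + κ) * (r₂ / (1 + κ)) = r₂ := by field_simp
  have e2 : D.m.real (D.cyl u₂ r₂) / (r₂ / (1 + κ)) ^ 2 =
      (1 + κ) ^ 2 * (D.m.real (D.cyl u₂ r₂) / r₂ ^ 2) := by field_simp
  rw [e1, e2] at hh
  have hT1 : D.T u (3 * (2 * σ)) ≤ D.T u (8 * σ) :=
    T_mono_trap h (by rw [sub_self, norm_zero]; linarith)
  have hT0 := T_nonneg_trap h u (3 * (2 * σ))
  have hσ2 : 0 < σ ^ 2 := by positivity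
  have hlam : 0 ≤ lam := by
    by_contra hn
    push Not at hn
    have := mul_neg_of_neg_of_pos hn hσ2
    linarith
  have hT2 : D.T u (3 * (2 * σ)) / (2 * σ) ^ 2 ≤ lam := by
    rw [div_le_iff₀ (by positivity)]
    have : 0 ≤ lam * σ ^ 2 := by positivity
    nlinarith
  have h11 : C * (D.T u (3 * (2 * σ)) / (2 * σ) ^ 2 + δ * A) ≤ C * (lam + δ * A) :=
    mul_le_mul_of_nonneg_left (by linarith) hC.le
  linarith

theorem ar1_trap {κ k A θ e X Y : ℝ} (hκ : 0 < κ) (hκ1 : κ ≤ 1 / 2) (hA : 1 ≤ A)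
    (hk : 32 * κ * A ≤ k) (hθ0 : 0 ≤ θ) (hθ : θ ≤ A) (he0 : 0 ≤ e) (he : 8 * e ≤ k)
    (h1 : X ≤ (1 + κ) * ((1 + κ) ^ 2 * Y) + κ) (h2 : Y ≤ (1 + κ) ^ 2 * θ + e) :
    X ≤ θ + 2 * k := by
  have hp : 0 < (1 + κ) ^ 3 := by positivity
  have h3 : (1 + κ) ^ 3 * Y ≤ (1 + κ) ^ 3 * ((1 + κ) ^ 2 * θ + e) :=
    mul_le_mul_of_nonneg_left h2 hp.le
  have h4 : (1 + κ) ^ 2 ≤ 1 + 3 * κ := by nlinarith
  have h5 : (1 + κ) ^ 3 ≤ 1 + 7 * κ := by nlinarith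
  have h6 : (1 + κ) ^ 3 * (1 + κ) ^ 2 ≤ 1 + 31 * κ := by
    have : (1 + κ) ^ 3 * (1 + κ) ^ 2 ≤ (1 + 7 * κ) * (1 + 3 * κ) :=
      mul_le_mul h5 h4 (by positivity) (by positivity)
    nlinarith
  have h7 : (1 + κ) ^ 3 * (1 + κ) ^ 2 * θ ≤ (1 + 31 * κ) * θ := mul_le_mul_of_nonneg_right h6 hθ0
  have h8 : (1 + κ) ^ 3 * e ≤ 8 * e := mul_le_mul_of_nonneg_right (by linarith) he0
  have h9 : κ * θ ≤ κ * A := mul_le_mul_of_nonneg_left hθ hκ.le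
  have h10 : κ ≤ κ * A := by nlinarith
  nlinarith

theorem ar2_trap {κ k A θ : ℝ} (hκ : 0 < κ) (hκ1 : κ ≤ 1 / 2) (hA : 0 ≤ A)
    (hk : 32 * κ * A ≤ k) (hθ0 : 0 ≤ θ) (hθ : θ ≤ 4 * A) : (1 + κ) ^ 2 * θ ≤ θ + k := by
  have h4 : (1 + κ) ^ 2 ≤ 1 + 3 * κ := by nlinarith
  have h6 : (1 + κ) ^ 2 * θ ≤ (1 + 3 * κ) * θ := mul_le_mul_of_nonneg_right h4 hθ0
  have h7 : κ * θ ≤ κ * (4 * A) := mul_le_mul_of_nonneg_left hθ hκ.le
  have h8 : 0 ≤ κ * A := by positivity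
  linarith

theorem ar3_trap {I μ T J θ k l δ A s : ℝ} (hs : 0 ≤ s) (hδ : 0 ≤ δ) (hk : k ≤ 1 / 10)
    (hA : 1 ≤ A) (hθ : θ ≤ A) (hδA : 2 * (δ * A) ≤ k) (hl : 2 * l ≤ k)
    (h3 : μ ≤ (θ + 2 * k) * s) (h4 : -(2 * T + δ * J) ≤ μ - I) (h5 : T ≤ l * s) (h6 : J ≤ μ) :
    I ≤ (θ + 4 * k) * s := by
  have h6 : δ * J ≤ δ * ((θ + 2 * k) * s) := mul_le_mul_of_nonneg_left (h6.trans h3) hδ
  have h7 : δ * (θ + 2 * k) ≤ k := by
    have : δ * (θ + 2 * k) ≤ δ * (2 * A) := mul_le_mul_of_nonneg_left (by linarith) hδ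
    linarith
  have h8 : δ * (θ + 2 * k) * s ≤ k * s := mul_le_mul_of_nonneg_right h7 hs
  have h9 : 2 * l * s ≤ k * s := mul_le_mul_of_nonneg_right hl hs
  linarith

theorem ar4_trap {I μ T T8 J n k lam δ A s W Z Cq : ℝ} (hs : 0 ≤ s) (hδ : 0 ≤ δ) (hC : 0 ≤ Cq)
    (hδA : δ * A ≤ k) (hl : 2 * lam ≤ k) (hC2 : Cq * (2 * lam) ≤ k)
    (h1 : I ≤ n * (Real.pi * s) + W) (h2 : μ - I ≤ 2 * T + δ * J) (h3 : T ≤ T8)
    (h4 : T8 ≤ lam * s) (h5 : J ≤ A * s) (h6 : W ≤ Cq * Z) (h7 : Z ≤ 2 * T8) :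
    μ ≤ (n * Real.pi + 3 * k) * s := by
  have a4 : δ * J ≤ δ * (A * s) := mul_le_mul_of_nonneg_left h5 hδ
  have a5 : Cq * Z ≤ Cq * (2 * lam * s) := mul_le_mul_of_nonneg_left (by linarith) hC
  have a6 : Cq * (2 * lam) * s ≤ k * s := mul_le_mul_of_nonneg_right hC2 hs
  have a7 : δ * A * s ≤ k * s := mul_le_mul_of_nonneg_right hδA hs
  have a8 : 2 * lam * s ≤ k * s := mul_le_mul_of_nonneg_right hl hs
  linarith

theorem ar5_trap {κ σ : ℝ} (hκ : 0 < κ) (hκ1 : κ ≤ 1 / 2) (hσ : 0 < σ) :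
    σ / 2 ≤ (1 + κ) * σ ∧ (1 + κ) * σ ≤ 2 * σ := by
  constructor <;> nlinarith

theorem ar6_trap {A σ r μ : ℝ} (hA : 0 ≤ A) (hσ : 0 < σ) (hr : σ / 2 ≤ r) (h : μ ≤ A * σ ^ 2) :
    μ ≤ 4 * A * r ^ 2 := by
  have h4 : σ ^ 2 ≤ 4 * r ^ 2 := by nlinarith
  have h5 := mul_le_mul_of_nonneg_left h4 hA
  linarith

theorem trap {κ : ℝ} (hκ : 0 < κ) (M A : ℝ) : ∃ lam : ℝ, 0 < lam ∧ ∃ δ₀ : ℝ, 0 < δ₀ ∧
    ∀ (D : CD α H) (c : ℂ) (R δ : ℝ), CV D c R δ M → δ ≤ δ₀ → ∀ (u : ℂ) (σ : ℝ),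
    0 < σ → ‖u - c‖ + 8 * σ ≤ R → D.T u (8 * σ) ≤ lam * σ ^ 2 →
    D.m.real (D.cyl u (8 * σ)) ≤ A * σ ^ 2 →
    ∃ n : ℕ, ∀ u' : ℂ, ‖u' - u‖ ≤ σ → ∀ r, σ / 2 ≤ r → r ≤ σ →
      |D.m.real (D.cyl u' r) - n * Real.pi * r ^ 2| ≤ κ * r ^ 2 := by
  obtain ⟨A₁, hA1, hAA⟩ : ∃ A₁ : ℝ, 1 ≤ A₁ ∧ A ≤ A₁ := ⟨max 1 A, le_max_left _ _, le_max_right _ _⟩
  obtain ⟨k, hk0, hk1, hkκ⟩ : ∃ k : ℝ, 0 < k ∧ k ≤ 1 / 10 ∧ 10 * k ≤ κ := by
    refine ⟨min κ 1 / 10, by positivity, ?_, ?_⟩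
    · have := min_le_right κ 1; linarith
    · have := min_le_left κ 1; linarith
  have hA0 : 0 < A₁ := by linarith
  obtain ⟨κ', hκ0, hκ1, hκA⟩ : ∃ κ' : ℝ, 0 < κ' ∧ κ' ≤ 1 / 2 ∧ 32 * κ' * A₁ ≤ k := by
    refine ⟨k / (32 * A₁), by positivity, ?_, le_of_eq (by field_simp)⟩
    rw [div_le_iff₀ (by positivity)]; linarith
  obtain ⟨C₂, hC₂, hmv⟩ := move_trap (α := α) (H := H) hκ0 hκ1
  obtain ⟨lamC, hlamC, δC, hδC, hcm⟩ := cyl_mono (α := α) (H := H) hκ0 hκ1 M A₁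
  obtain ⟨lam₀, hlam₀, δB, hδB, C₁, hC₁, hbc⟩ := bad_cover (α := α) (H := H) M A₁
  obtain ⟨l₁, hl0, hl1, hl2, hl3⟩ : ∃ l₁ : ℝ, 0 < l₁ ∧ l₁ ≤ lam₀ ∧ l₁ ≤ lamC ∧ 2 * l₁ ≤ k := by
    refine ⟨min (min lam₀ lamC) (k / 2), by positivity, (min_le_left _ _).trans (min_le_left _ _),
      (min_le_left _ _).trans (min_le_right _ _), ?_⟩
    have := min_le_right (min lam₀ lamC) (k / 2); linarith
  obtain ⟨lam, hlam, hm1, hm2, hm3⟩ : ∃ lam : ℝ, 0 < lam ∧ lam ≤ l₁ / 100 ∧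
      16 * (C₂ * lam) ≤ k ∧ C₁ / l₁ ^ 2 * (2 * lam) ≤ k := by
    refine ⟨min (l₁ / 100) (min (k / (16 * C₂)) (k * l₁ ^ 2 / (2 * C₁))), by positivity,
      min_le_left _ _, ?_, ?_⟩
    · have h1 := (min_le_right (l₁ / 100) _).trans
        (min_le_left (k / (16 * C₂)) (k * l₁ ^ 2 / (2 * C₁)))
      rw [le_div_iff₀ (by positivity)] at h1
      linarith
    · have h1 := (min_le_right (l₁ / 100) _).trans
        (min_le_right (k / (16 * C₂)) (k * l₁ ^ 2 / (2 * C₁)))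
      rw [le_div_iff₀ (by positivity)] at h1
      rw [div_mul_eq_mul_div, div_le_iff₀ (by positivity)]
      linarith
  obtain ⟨δ₀, hδ₀, hd1, hd2, hd3, hd4⟩ : ∃ δ₀ : ℝ, 0 < δ₀ ∧ δ₀ ≤ δC ∧ δ₀ ≤ δB ∧
      16 * (C₂ * (δ₀ * A₁)) ≤ k ∧ 2 * (δ₀ * A₁) ≤ k := by
    refine ⟨min (min δC δB) (min (k / (16 * C₂ * A₁)) (k / (2 * A₁))), by positivity,
      (min_le_left _ _).trans (min_le_left _ _), (min_le_left _ _).trans (min_le_right _ _), ?_, ?_⟩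
    · have h1 := (min_le_right (min δC δB) _).trans
        (min_le_left (k / (16 * C₂ * A₁)) (k / (2 * A₁)))
      rw [le_div_iff₀ (by positivity)] at h1
      linarith
    · have h1 := (min_le_right (min δC δB) _).trans
        (min_le_right (k / (16 * C₂ * A₁)) (k / (2 * A₁)))
      rw [le_div_iff₀ (by positivity)] at h1
      linarith
  refine ⟨lam, hlam, δ₀, hδ₀, fun D c R δ h hδ u σ hσ hR hT hm => ?_⟩
  have hδ0 := h.δ_nonneg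
  have hδA : δ * A₁ ≤ δ₀ * A₁ := mul_le_mul_of_nonneg_right hδ hA0.le
  have hδk : 2 * (δ * A₁) ≤ k := by linarith only [hδA, hd4]
  have hδ1 : δ ≤ 1 := by
    have : δ * 1 ≤ δ * A₁ := mul_le_mul_of_nonneg_left hA1 hδ0
    linarith only [this, hδk, hk1]
  have hσ2 : 0 < σ ^ 2 := by positivity
  have hm' : D.m.real (D.cyl u (8 * σ)) ≤ A₁ * σ ^ 2 :=
    hm.trans (mul_le_mul_of_nonneg_right hAA hσ2.le)
  have huu : ‖u - u‖ ≤ σ := by rw [sub_self, norm_zero]; exact hσ.le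
  obtain ⟨e, he⟩ : ∃ e, e = C₂ * (lam + δ * A₁) := ⟨_, rfl⟩
  have he0 : 0 ≤ e := by rw [he]; positivity
  have he8 : 8 * e ≤ k := by
    have h1 : C₂ * (δ * A₁) ≤ C₂ * (δ₀ * A₁) := mul_le_mul_of_nonneg_left hδA hC₂.le
    rw [he, mul_add]; linarith only [h1, hd3, hm2]
  have hmv' : ∀ (u₁ u₂ : ℂ) (r₁ r₂ : ℝ), ‖u₁ - u‖ ≤ σ → ‖u₂ - u‖ ≤ σ → σ / 2 ≤ r₁ → r₁ ≤ 2 * σ →
      σ / 2 ≤ r₂ → r₂ ≤ 2 * σ →
      D.m.real (D.cyl u₁ r₁) / r₁ ^ 2 ≤ (1 + κ') ^ 2 * (D.m.real (D.cyl u₂ r₂) / r₂ ^ 2) + e := by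
    intro u₁ u₂ r₁ r₂ h1 h2 h3 h4 h5 h6
    rw [he]
    exact hmv D c R δ M h hδ1 u u₁ u₂ σ r₁ r₂ A₁ lam hσ h1 h2 h3 h4 h5 h6 hR hT hA0.le hm'
  obtain ⟨θ, hθ⟩ : ∃ θ, θ = D.m.real (D.cyl u σ) / σ ^ 2 := ⟨_, rfl⟩
  have hθ0 : 0 ≤ θ := by rw [hθ]; positivity
  have hmσ : D.m.real (D.cyl u σ) ≤ A₁ * σ ^ 2 :=
    (mass_mono_trap h (by rw [sub_self, norm_zero]; linarith only [hσ])).trans hm'
  have hθA : θ ≤ A₁ := by rw [hθ, div_le_iff₀ hσ2]; exact hmσ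
  obtain ⟨N, hN⟩ := h.exists_mult
  have hNi : Integrable fun v => (N v : ℝ) := by
    have := (hN.integral h (f := fun _ => 1) measurable_const (B := 1) (by simp)).1
    simpa using this
  obtain ⟨B, hBm, hBT, hBi, hBI⟩ := hbc D c R δ h (hδ.trans hd2) N u σ l₁ hN hσ hl0 hl1 hR
    (by have := mul_le_mul_of_nonneg_right hm1 hσ2.le; linarith only [this, hT]) hm'
  -- the ratio at good points
  have hgood : ∀ v ∈ ball u σ, v ∉ B → ∀ s, 0 < s → s ≤ σ →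
      (∫ w in ball v s, (N w : ℝ)) / s ^ 2 ≤ θ + 4 * k := by
    intro v hv hvB s hs hsσ
    have hvu : ‖v - u‖ ≤ σ := by rw [← dist_eq_norm]; exact le_of_lt hv
    have hvc : ‖v - c‖ ≤ ‖v - u‖ + ‖u - c‖ := norm_sub_le_norm_sub_add_norm_sub _ _ _
    have hs2 : 0 < s ^ 2 := by positivity
    have h1 := hcm D c R δ h (hδ.trans hd1) v s σ hs hsσ (by linarith only [hvc, hvu, hR, hσ])
      (fun r hr hr4 => (hBT v hv hvB r (by linarith only [hr, hs]) hr4).trans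
        (mul_le_mul_of_nonneg_right hl2 (sq_nonneg r)))
      ((mass_mono_trap h (by linarith only [hvu, hσ])).trans hm')
    have h2 := hmv' v u ((1 + κ') * σ) σ hvu huu (ar5_trap hκ0 hκ1 hσ).1 (ar5_trap hκ0 hκ1 hσ).2
      (by linarith only [hσ]) (by linarith only [hσ])
    rw [← hθ] at h2
    have e1 : (1 + κ') * D.m.real (D.cyl v ((1 + κ') * σ)) / σ ^ 2 = (1 + κ') *
        ((1 + κ') ^ 2 * (D.m.real (D.cyl v ((1 + κ') * σ)) / ((1 + κ') * σ) ^ 2)) := by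
      field_simp
    rw [e1] at h1
    have h3 := ar1_trap hκ0 hκ1 hA1 hκA hθ0 hθA he0 he8 h1 h2
    rw [div_le_iff₀ hs2] at h3 ⊢
    exact ar3_trap hs2.le hδ0 hk1 hA1 hθA hδk hl3 h3 (abs_le.1 (hN.mass_near h v s)).1
      (hBT v hv hvB s hs (by linarith only [hsσ, hσ])) (J_le_trap h hδ1 v s)
  have hπ := Real.pi_pos
  obtain ⟨n, hn⟩ : ∃ n : ℕ, n = ⌊(θ + 4 * k) / Real.pi⌋₊ := ⟨_, rfl⟩
  have hn1 : n * Real.pi ≤ θ + 4 * k := by
    have : (n : ℝ) ≤ (θ + 4 * k) / Real.pi := by rw [hn]; exact Nat.floor_le (by positivity)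
    rwa [le_div_iff₀ hπ] at this
  have hae : ∀ᵐ v, v ∈ ball u σ → v ∉ B → (N v : ℝ) ≤ n := by
    filter_upwards [leb_trap hNi] with v hv hvb hvB
    have h1 : Real.pi * N v ≤ θ + 4 * k := by
      refine le_of_tendsto hv ?_
      filter_upwards [Ioo_mem_nhdsGT hσ] with s hs
      exact hgood v hvb hvB s hs.1 hs.2.le
    have h2 : N v ≤ n := by
      rw [hn]
      refine Nat.le_floor ?_
      rw [le_div_iff₀ hπ]; linarith only [h1]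
    exact_mod_cast h2
  have hn2 : θ ≤ n * Real.pi + 3 * k := by
    rw [hθ, div_le_iff₀ hσ2]
    exact ar4_trap hσ2.le hδ0 (by positivity) (by linarith only [hδk, hk0])
      (by linarith only [hm1, hl3, hk0]) hm3 (int_le_trap hNi hBm hBi u hσ.le n hae)
      (abs_le.1 (hN.mass_near h u σ)).2
      (T_mono_trap h (by rw [sub_self, norm_zero]; linarith only [hσ])) hT
      ((J_le_trap h hδ1 u σ).trans hmσ) hBI (t2_le_trap h u _)
  refine ⟨n, fun u' hu' r hr1 hr2 => ?_⟩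
  have hr0 : 0 < r := by linarith only [hr1, hσ]
  have hr : 0 < r ^ 2 := by positivity
  have h1 := hmv' u' u r σ hu' huu hr1 (by linarith only [hr2, hσ]) (by linarith only [hσ])
    (by linarith only [hσ])
  have h2 := hmv' u u' σ r huu hu' (by linarith only [hσ]) (by linarith only [hσ]) hr1
    (by linarith only [hr2, hσ])
  rw [← hθ] at h1 h2
  obtain ⟨μ, hμ⟩ : ∃ μ, μ = D.m.real (D.cyl u' r) / r ^ 2 := ⟨_, rfl⟩
  rw [← hμ] at h1 h2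
  have hμ0 : 0 ≤ μ := by rw [hμ]; positivity
  have hμA : μ ≤ 4 * A₁ := by
    rw [hμ, div_le_iff₀ hr]
    exact ar6_trap hA0.le hσ hr1 ((mass_mono_trap h (u := u) (v := u') (r := r) (s := 8 * σ)
      (by linarith only [hu', hr2, hσ])).trans hm')
  have h5 := ar2_trap hκ0 hκ1 hA0.le hκA hθ0 (by linarith only [hθA, hA0])
  have h6 := ar2_trap hκ0 hκ1 hA0.le hκA hμ0 hμA
  have h7 : |μ - n * Real.pi| ≤ κ := 
    abs_le.2 ⟨by linarith only [h2, h6, hn1, he8, hkκ, hk0, he0],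
      by linarith only [h1, h5, hn2, he8, hkκ, hk0, he0]⟩
  have e1 : D.m.real (D.cyl u' r) - n * Real.pi * r ^ 2 = (μ - n * Real.pi) * r ^ 2 := by
    rw [hμ]; field_simp
  rw [e1, abs_mul, abs_of_pos hr]
  exact mul_le_mul_of_nonneg_right h7 hr.le

end Pool.Agent.Lib.MP_8daebb_an.SV
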