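import Pool.Agent.Lib.MP_8daebb_an.SV.Df2
import Pool.Agent.Lib.MP_8daebb_an.SV.Av
import Pool.Agent.Lib.MP_8daebb_an.SV.Id2

/-! The two-point functional is almost a divergence. -/

open MeasureTheory Metric Filter Topology Set
open scoped RealInnerProductSpace ENNReal ContDiff

namespace Pool.Agent.Lib.MP_8daebb_an.SV

/-- Bounded measurable functions. -/
def BMtwoa {β F : Type*} [MeasurableSpace β] [NormedAddCommGroup F] (μ : Measure β) (f : β → F) :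
    Prop := AEStronglyMeasurable f μ ∧ ∃ B, ∀ᵐ b ∂μ, ‖f b‖ ≤ B

namespace BMtwoa

variable {β E F G : Type*} [MeasurableSpace β] [NormedAddCommGroup E] [NormedAddCommGroup F]
  [NormedAddCommGroup G] {μ : Measure β} {f f' : β → E} {g : β → F}

theorem int [IsFiniteMeasure μ] (h : BMtwoa μ f) : Integrable f μ :=
  h.2.elim fun B hB => Integrable.of_bound h.1 B hB

theorem const (c : E) : BMtwoa μ fun _ => c :=
  ⟨aestronglyMeasurable_const, ‖c‖, Eventually.of_forall fun _ => le_rfl⟩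

theorem cont [ProperSpace E] (h : BMtwoa μ f) {φ : E → F} (hφ : Continuous φ) :
    BMtwoa μ fun b => φ (f b) := by
  obtain ⟨h1, B, hB⟩ := h
  obtain ⟨C, hC⟩ := (isCompact_closedBall (0 : E) B).exists_bound_of_continuousOn hφ.continuousOn
  exact ⟨hφ.comp_aestronglyMeasurable h1, C,
    hB.mono fun b hb => hC _ (mem_closedBall_zero_iff.2 hb)⟩

theorem add (h : BMtwoa μ f) (h' : BMtwoa μ f') : BMtwoa μ fun b => f b + f' b := by
  obtain ⟨h1, B, hB⟩ := h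
  obtain ⟨h2, B', hB'⟩ := h'
  refine ⟨h1.add h2, B + B', ?_⟩
  filter_upwards [hB, hB'] with b b1 b2 using norm_add_le_of_le b1 b2

theorem neg (h : BMtwoa μ f) : BMtwoa μ fun b => -f b :=
  ⟨h.1.neg, by simpa only [norm_neg] using h.2⟩

theorem sub (h : BMtwoa μ f) (h' : BMtwoa μ f') : BMtwoa μ fun b => f b - f' b := by
  simpa only [sub_eq_add_neg] using h.add h'.neg

theorem bil (h : BMtwoa μ f) (h' : BMtwoa μ g) {φ : E → F → G}
    (hφ : Continuous fun w : E × F => φ w.1 w.2) (hb : ∀ v w, ‖φ v w‖ ≤ ‖v‖ * ‖w‖) :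
    BMtwoa μ fun b => φ (f b) (g b) := by
  obtain ⟨h1, B, hB⟩ := h
  obtain ⟨h2, B', hB'⟩ := h'
  refine ⟨hφ.comp_aestronglyMeasurable (h1.prodMk h2), B * B', ?_⟩
  filter_upwards [hB, hB'] with b b1 b2 using
    (hb _ _).trans (mul_le_mul b1 b2 (norm_nonneg _) ((norm_nonneg _).trans b1))

theorem mul {f g : β → ℝ} (h : BMtwoa μ f) (h' : BMtwoa μ g) : BMtwoa μ fun b => f b * g b :=
  h.bil h' (φ := fun v w => v * w) continuous_mul norm_mul_le

theorem inn {f g : β → ℂ} (h : BMtwoa μ f) (h' : BMtwoa μ g) : BMtwoa μ fun b => ⟪f b, g b⟫ :=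
  h.bil h' (φ := fun v w => ⟪v, w⟫) continuous_inner norm_inner_le_norm

theorem app [NormedSpace ℝ F] {f : β → ℂ →L[ℝ] F} {g : β → ℂ} (h : BMtwoa μ f)
    (h' : BMtwoa μ g) : BMtwoa μ fun b => f b (g b) :=
  h.bil h' (φ := fun v w => v w) (by fun_prop) ContinuousLinearMap.le_opNorm

theorem fst [SFinite μ] (h : BMtwoa μ f) : BMtwoa (μ.prod μ) fun b => f b.1 :=
  ⟨h.1.comp_fst, h.2.imp fun _ hB => Measure.quasiMeasurePreserving_fst.ae hB⟩

theorem snd [SFinite μ] (h : BMtwoa μ f) : BMtwoa (μ.prod μ) fun b => f b.2 :=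
  ⟨h.1.comp_snd, h.2.imp fun _ hB => Measure.quasiMeasurePreserving_snd.ae hB⟩

end BMtwoa

/-- The derivative of the bounded primitive. -/
noncomputable def thTwoa (Δ r : ℝ) : ℝ := (1 + (r / Δ) ^ 2)⁻¹

/-- The bounded primitive. -/
noncomputable def prTwoa (Δ r : ℝ) : ℝ := Δ * Real.arctan (r / Δ)

theorem th_twoa {Δ : ℝ} (hΔ : 0 < Δ) : Continuous (thTwoa Δ) ∧ ContDiff ℝ 1 (prTwoa Δ) ∧
    ∀ r, HasDerivAt (prTwoa Δ) (thTwoa Δ r) r ∧ |prTwoa Δ r| ≤ 2 * Δ ∧ 0 ≤ thTwoa Δ r ∧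
      thTwoa Δ r ≤ 1 := by
  refine ⟨Continuous.inv₀ (by fun_prop) fun r => by positivity,
    contDiff_const.mul (Real.contDiff_arctan.comp (contDiff_id.div_const Δ)), fun r =>
    ⟨?_, ?_, by unfold thTwoa; positivity,
      inv_le_one_of_one_le₀ (le_add_of_nonneg_right (sq_nonneg _))⟩⟩
  · refine (((hasDerivAt_id r).div_const Δ).arctan.const_mul Δ).congr_deriv ?_
    rw [thTwoa, id]
    field_simp
  · rw [prTwoa, abs_mul, abs_of_pos hΔ, mul_comm]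
    refine mul_le_mul_of_nonneg_right (abs_le.2 ⟨?_, ?_⟩) hΔ.le
    · linarith [Real.neg_pi_div_two_lt_arctan (r / Δ), Real.pi_le_four]
    · linarith [Real.arctan_lt_pi_div_two (r / Δ), Real.pi_le_four]

theorem test_twoa {ρ R : ℝ} (hρ : 0 < ρ) {u : ℂ} (hu : ‖u‖ + 2 * ρ ≤ R) {ψ ψ' : ℝ → ℝ}
    (hψ : ContDiff ℝ 1 ψ) (hd : ∀ r, HasDerivAt ψ (ψ' r) r) :
    Test 0 R (fun w : ℂ × ℝ => kr ρ (u - w.1) * ψ w.2) ∧ ∀ (x v : ℂ) (z t : ℝ),
      fderiv ℝ (fun w : ℂ × ℝ => kr ρ (u - w.1) * ψ w.2) (x, z) (v, t) =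
        -(fderiv ℝ (kr ρ) (u - x) v) * ψ z + kr ρ (u - x) * (ψ' z * t) := by
  have h1 : ContDiff ℝ 1 (kr ρ) := contDiff_infty.1 (kr_contDiff ρ) 1
  refine ⟨⟨((h1.comp (contDiff_const.sub contDiff_fst)).mul (hψ.comp contDiff_snd)).contDiffOn,
    ‖u‖ + ρ, by linarith, fun w hw => ?_⟩, fun x v z t => ?_⟩
  · rw [sub_zero] at hw
    have : ρ ≤ ‖u - w.1‖ := by linarith [norm_sub_norm_le w.1 u, norm_sub_rev u w.1]
    simp only [(kr_zero hρ this).1, zero_mul]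
  · have h2 := (h1.differentiable one_ne_zero (u - x)).hasFDerivAt.comp ((x, z) : ℂ × ℝ)
      ((hasFDerivAt_fst (𝕜 := ℝ) (p := (x, z))).const_sub u)
    have h3 := (hd z).hasFDerivAt.comp ((x, z) : ℂ × ℝ) (hasFDerivAt_snd (𝕜 := ℝ) (p := (x, z)))
    refine (DFunLike.congr_fun (h2.mul h3).fderiv (v, t)).trans ?_
    simp
    ring

theorem ineq_twoa {k k' th Θ Δ η g X L T Y s n n' r c : ℝ} (hk : 0 ≤ k) (hk' : 0 ≤ k')
    (h0 : 0 ≤ th) (h1 : th ≤ 1) (hΘ : |Θ| ≤ 2 * Δ) (hη : |η * g| ≤ 4 * s ^ 2 * n)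
    (hX : |X| ≤ 3 * s ^ 2 * (n + n')) (hL : |L| ≤ r) (hT : |T| ≤ 8 * r * (c * n'))
    (hY : |Y| ≤ 12 * r) :
    k * k' * (th * (η * g) + th * X - Θ * L - Θ * Y) - k * (Θ * T) ≤
      s ^ 2 * (7 * (k * n * k') + 3 * (k * (k' * n'))) +
        Δ * (26 * (k * r * k') + 16 * (k * r * (c * n'))) := by
  have a1 : ∀ {x B : ℝ}, |x| ≤ B → th * x ≤ B := fun hx =>
    (mul_le_mul_of_nonneg_left (le_abs_self _) h0).trans
      ((mul_le_of_le_one_left (abs_nonneg _) h1).trans hx)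
  have a2 : ∀ {x B : ℝ}, |x| ≤ B → -(Θ * x) ≤ 2 * Δ * B := fun hx =>
    (neg_le_abs _).trans (by
      rw [abs_mul]
      exact mul_le_mul hΘ hx (abs_nonneg _) ((abs_nonneg _).trans hΘ))
  have b1 : th * (η * g) + th * X - Θ * L - Θ * Y ≤
      4 * s ^ 2 * n + 3 * s ^ 2 * (n + n') + 2 * Δ * r + 2 * Δ * (12 * r) := by
    linarith [a1 hη, a1 hX, a2 hL, a2 hY]
  linarith [mul_le_mul_of_nonneg_left b1 (mul_nonneg hk hk'), mul_le_mul_of_nonneg_left (a2 hT) hk]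

variable {α : Type*} [MeasurableSpace α] {H : Type*} [NormedAddCommGroup H]
  [InnerProductSpace ℝ H] [FiniteDimensional ℝ H] [MeasurableSpace H] [BorelSpace H]

theorem PW.twoa {D : CD α H} {δ : ℝ} {a : α} (h : PW D δ a) (h0 : 0 ≤ δ) (hδ : δ ≤ 1 / 2) {e : H}
    (he : ‖e‖ = 1) : ‖D.p e a‖ ≤ 3 * √(D.en a) ∧ ‖D.q a e‖ ≤ 4 * √(D.en a) ∧ √(D.en a) ≤ 2 ∧
      ‖D.τ a‖ ≤ 2 * D.en a := by
  obtain ⟨-, h2, h3, h4, h5, h6, -⟩ := h.scal h0 hδ he
  have h7 := Real.sqrt_nonneg (D.en a)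
  have h8 : ‖D.p e a‖ ≤ 3 * √(D.en a) := by
    refine le_of_sq_le_sq (h5.trans ?_) (by positivity)
    rw [mul_pow, Real.sq_sqrt h2]
    linarith
  refine ⟨h8, ?_, Real.sqrt_le_iff.2 ⟨by norm_num, by linarith⟩, h.τ_le.trans (by linarith)⟩
  have h9 := norm_le_norm_sub_add (D.q a e) (D.p e a)
  nlinarith [mul_le_mul_of_nonneg_right (h.y_le.trans hδ) h7]

theorem CV.bm_twoa {D : CD α H} {R δ M : ℝ} (h : CV D 0 R δ M) (hδ : δ ≤ 1 / 2) {e : H}
    (he : ‖e‖ = 1) : BMtwoa D.m D.x ∧ BMtwoa D.m (D.z e) ∧ BMtwoa D.m (fun a => ‖D.y a‖) ∧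
      BMtwoa D.m (fun a => ⟪D.g a e, e⟫) ∧ BMtwoa D.m (fun a => ⟪D.L a, e⟫) ∧
      BMtwoa D.m (fun a => D.q a e) ∧ BMtwoa D.m (D.p e) ∧ BMtwoa D.m D.eh ∧ BMtwoa D.m D.τ ∧
      BMtwoa D.m D.en := by
  obtain ⟨m1, m2, -, m4, m5, m6⟩ := h.meas_e e
  have h1 := h.pw_av.mono fun a ha =>
    And.intro ha (And.intro (ha.scal h.δ_nonneg hδ he) (ha.twoa h.δ_nonneg hδ he))
  refine ⟨⟨h.m_x.aestronglyMeasurable, 2, h.x_le_av⟩, ⟨m1.aestronglyMeasurable, δ, ?_⟩,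
    ⟨h.m_y.norm.aestronglyMeasurable, δ, ?_⟩, ⟨m5.aestronglyMeasurable, 12, ?_⟩,
    ⟨(h.m_L.inner_const (𝕜 := ℝ)).aestronglyMeasurable, 2, ?_⟩, ⟨m4.aestronglyMeasurable, 8, ?_⟩,
    ⟨m2.aestronglyMeasurable, 6, ?_⟩, ⟨h.m_eh.aestronglyMeasurable, 3, ?_⟩,
    ⟨h.m_τ.aestronglyMeasurable, 6, ?_⟩, ⟨m6.aestronglyMeasurable, 3, ?_⟩⟩ <;>
  filter_upwards [h1] with a ⟨ha, ⟨a1, a2, a3, _, _, _, a7, a8, _, _, _, a12, a13, _⟩, b1, b2, b3,
    b4⟩
  · exact a1.trans ha.y_le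
  · exact (norm_norm _).le.trans ha.y_le
  · rw [Real.norm_of_nonneg a7]; linarith
  · exact a12.trans b3
  · linarith
  · linarith
  · linarith
  · linarith
  · rw [Real.norm_of_nonneg a2]; linarith

theorem av_one_twoa {D : CD α H} {R δ M s ρ : ℝ} (h : CV D 0 R δ M) (hs : Sm D s ρ)
    (hρ : ρ ≤ 1 / 2) (u : ℂ) : ∫ a, kr ρ (u - D.x a) ∂D.m ≤ Ck * M := by
  have := h.fin
  have h0 := hs.ρ_pos
  have h1 := (h.norm_av_le h0 (f := fun _ => (1 : ℝ)) (integrable_const (1 : ℝ)) u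
    (Eventually.of_forall fun a _ => by simp)).2
  simp only [CD.av, smul_eq_mul, mul_one, integral_const, MeasurableSet.univ,
    measureReal_restrict_apply, univ_inter] at h1
  refine h1.trans ((mul_le_mul_of_nonneg_left (hs.cyl_le h hρ u (σ := ρ) (by linarith))
    (div_nonneg (zero_le_one.trans one_le_Ck) (sq_nonneg _))).trans (le_of_eq ?_))
  field_simp

omit [FiniteDimensional ℝ H] [BorelSpace H] in
theorem field_twoa {D : CD α H} {R δ M ρ : ℝ} (h : CV D 0 R δ M) {Θ : α × α → ℝ} {q : α → ℂ}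
    (hΘ : BMtwoa (D.m.prod D.m) Θ) (hq : BMtwoa D.m q) :
    ContDiff ℝ 1 (fun u => ∫ b, (kr ρ (u - D.x b.1) * kr ρ (u - D.x b.2)) • Θ b • q b.1
      ∂D.m.prod D.m) ∧ ∀ u, tr2 (fderiv ℝ (fun u => ∫ b,
        (kr ρ (u - D.x b.1) * kr ρ (u - D.x b.2)) • Θ b • q b.1 ∂D.m.prod D.m) u) =
      ∫ b, (fderiv ℝ (kr ρ) (u - D.x b.1) (q b.1) * kr ρ (u - D.x b.2) +
        kr ρ (u - D.x b.1) * fderiv ℝ (kr ρ) (u - D.x b.2) (q b.1)) * Θ b ∂D.m.prod D.m := by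
  have := h.fin
  have h1 : ContDiff ℝ 1 (kr ρ) := contDiff_infty.1 (kr_contDiff ρ) 1
  have hY : Measurable fun b : α × α => (D.x b.1, D.x b.2) :=
    (h.m_x.comp measurable_fst).prodMk (h.m_x.comp measurable_snd)
  have hB : ∀ᵐ b ∂D.m.prod D.m, ‖(D.x b.1, D.x b.2)‖ ≤ 2 := by
    filter_upwards [Measure.quasiMeasurePreserving_fst.ae h.x_le_av,
      Measure.quasiMeasurePreserving_snd.ae h.x_le_av] with b b1 b2 using max_le b1 b2
  have hf := (hΘ.bil hq.fst (φ := fun v w => v • w) continuous_smul norm_smul_le).int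
  have hg : ContDiff ℝ 1 fun w : ℂ × ℂ => kr ρ w.1 * kr ρ w.2 :=
    (h1.comp contDiff_fst).mul (h1.comp contDiff_snd)
  have hd : ∀ w : ℂ × ℂ, ∀ v : ℂ, fderiv ℝ (fun w : ℂ × ℂ => kr ρ w.1 * kr ρ w.2) w (v, v) =
      fderiv ℝ (kr ρ) w.1 v * kr ρ w.2 + kr ρ w.1 * fderiv ℝ (kr ρ) w.2 v := fun w v => by
    have h2 := (h1.differentiable one_ne_zero w.1).hasFDerivAt.comp w hasFDerivAt_fst
    have h3 := (h1.differentiable one_ne_zero w.2).hasFDerivAt.comp w hasFDerivAt_snd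
    refine (DFunLike.congr_fun (h2.mul h3).fderiv (v, v)).trans ?_
    simp
    ring
  obtain ⟨G, hG⟩ : ∃ G : ℂ × ℂ → ℂ, G = fun w => ∫ b, (fun w : ℂ × ℂ => kr ρ w.1 * kr ρ w.2)
    (w - (D.x b.1, D.x b.2)) • Θ b • q b.1 ∂D.m.prod D.m := ⟨_, rfl⟩
  have e1 : (fun u => ∫ b, (kr ρ (u - D.x b.1) * kr ρ (u - D.x b.2)) • Θ b • q b.1
      ∂D.m.prod D.m) = G ∘ fun u => (u, u) := by
    rw [hG]; rfl
  have c1 := conv_contDiff hY hB hf 1 hg
  rw [← hG] at c1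
  rw [e1]
  refine ⟨c1.comp (contDiff_id.prodMk contDiff_id), fun u => ?_⟩
  obtain ⟨-, i1, d1, d2⟩ := conv_hasFDerivAt hY hB hf hg (u, u)
  rw [← hG] at d1 d2
  have h2 : ∀ v, fderiv ℝ (G ∘ fun u => (u, u)) u v = fderiv ℝ G (u, u) (v, v) := fun v =>
    DFunLike.congr_fun (d1.hasFDerivAt.comp u (f := fun u => (u, u))
      ((hasFDerivAt_id u).prodMk (hasFDerivAt_id u))).fderiv v
  rw [tr2, h2, h2, d2, d2, ← Complex.reCLM_apply, ← Complex.imCLM_apply,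
    ← Complex.reCLM.integral_comp_comm (i1 _), ← Complex.imCLM.integral_comp_comm (i1 _),
    ← integral_add (Complex.reCLM.integrable_comp (i1 _)) (Complex.imCLM.integrable_comp (i1 _))]
  refine integral_congr_ae (Eventually.of_forall fun b => ?_)
  have h3 : ∀ A : ℂ →L[ℝ] ℝ, A (q b.1) = (q b.1).re * A 1 + (q b.1).im * A Complex.I := fun A => by
    have hv : q b.1 = (q b.1).re • (1 : ℂ) + (q b.1).im • Complex.I := by
      apply Complex.ext <;> simp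
    conv_lhs => rw [hv, map_add, map_smul, map_smul, smul_eq_mul, smul_eq_mul]
  simp only [hd, h3 (fderiv ℝ (kr ρ) _), map_smul, smul_eq_mul, Complex.reCLM_apply,
    Complex.imCLM_apply, Prod.mk_sub_mk]
  ring

theorem two_point (M : ℝ) : ∃ C : ℝ, 0 < C ∧ ∀ (D : CD α H) (R δ s ρ Δ : ℝ) (e : H),
    CV D 0 R δ M → δ ≤ 1 / 2 → Sm D s ρ → ρ ≤ 1 / 2 → ‖e‖ = 1 → 0 < Δ →
    ∃ Bf : ℂ → ℂ, ContDiff ℝ 1 Bf ∧ (∀ u, ‖Bf u‖ ≤ C * Δ * D.av ρ (fun a => √(D.en a)) u) ∧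
      ∀ u : ℂ, ‖u‖ + 2 * ρ ≤ R → D.two e ρ Δ u ≤ 2 * tr2 (fderiv ℝ Bf u) +
        C * (Δ * (s ^ 2 + D.av ρ (fun a => √(D.en a)) u) + s ^ 2 * D.av ρ D.en u) := by
  have hCk : 0 < Ck := one_pos.trans_le one_le_Ck
  refine ⟨60 * Ck * (|M| + 1), by positivity, fun D R δ s ρ Δ e h hδ hs hρ he hΔ => ?_⟩
  have := h.fin
  have hρ0 := hs.ρ_pos
  rw [abs_of_nonneg h.M_nonneg]
  have hCM := mul_nonneg hCk.le h.M_nonneg
  obtain ⟨bx, bz, bη, bg, bL, bq, bp, bh, bτ, bn⟩ := h.bm_twoa hδ he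
  obtain ⟨t1, t2, t3⟩ := th_twoa hΔ
  have bΘ := (bz.fst.sub bz.snd).cont t2.continuous
  have bt := (bz.fst.sub bz.snd).cont t1
  have br := bn.cont Real.continuous_sqrt
  have c0 := (kr_contDiff ρ).continuous
  have bk := fun u : ℂ => ((BMtwoa.const u).sub bx).cont c0
  have bD := fun u : ℂ => ((BMtwoa.const u).sub bx).cont
    (fderiv_contDiff_ker (kr_contDiff ρ)).continuous
  have hpw := h.pw_av.and hs.y_le
  have hae := (Measure.quasiMeasurePreserving_fst (μ := D.m) (ν := D.m)).ae hpw |>.and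
    ((Measure.quasiMeasurePreserving_snd (μ := D.m) (ν := D.m)).ae hpw)
  have hr0 : ∀ u, 0 ≤ ∫ a, kr ρ (u - D.x a) * √(D.en a) ∂D.m := fun u =>
    integral_nonneg fun a => mul_nonneg (kr_nonneg _ _) (Real.sqrt_nonneg _)
  obtain ⟨f1, f2⟩ := field_twoa (ρ := ρ) h bΘ bq
  refine ⟨_, f1, fun u => ?_, fun u hu => ?_⟩
  · refine (norm_integral_le_of_norm_le
      ((((bk u).mul br).fst.mul (bk u).snd).int.const_mul (8 * Δ)) ?_).trans ?_
    · filter_upwards [hae] with b ⟨⟨b1, _⟩, _⟩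
      have k0 := mul_nonneg (kr_nonneg ρ (u - D.x b.1)) (kr_nonneg ρ (u - D.x b.2))
      rw [norm_smul, norm_smul, Real.norm_of_nonneg k0, Real.norm_eq_abs]
      refine (mul_le_mul_of_nonneg_left (mul_le_mul (t3 _).2.1 (b1.twoa h.δ_nonneg hδ he).2.1
        (norm_nonneg _) (by linarith)) k0).trans (le_of_eq (by ring))
    · rw [integral_const_mul, integral_prod_mul (fun a => kr ρ (u - D.x a) * √(D.en a))
        fun a => kr ρ (u - D.x a)]
      have h1 := mul_le_mul_of_nonneg_left (av_one_twoa h hs hρ u) (mul_nonneg hΔ.le (hr0 u))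
      have h2 := mul_nonneg hCk.le (mul_nonneg hΔ.le (hr0 u))
      have h3 := mul_nonneg hCM (mul_nonneg hΔ.le (hr0 u))
      simp only [CD.av, smul_eq_mul]
      linarith
  have k1 := (bk u).fst
  have k2 := (bk u).snd
  have iS := (((k1.mul k2).mul bt).mul
    ((((BMtwoa.const 1).add bη.fst).mul bg.fst).sub (bp.snd.inn bp.fst))).int
  have iN := (((((bD u).fst.app bq.fst).mul k2).add (k1.mul ((bD u).snd.app bq.fst))).mul bΘ).int
  have iV := (k2.mul (((((bD u).fst.app bq.fst).neg.mul bΘ).add (k1.mul (bt.mul bg.fst))).add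
    ((k1.mul bΘ).mul bL.fst))).int
  have iW := (k1.mul (((((bD u).snd.app (bq.fst.sub (bτ.snd.app bq.fst))).neg.mul bΘ).add
    (k2.mul (bt.neg.mul (bp.snd.inn bq.fst)))).add ((k2.mul bΘ).mul (bh.snd.inn bq.fst)))).int
  have eV := (integral_prod_symm _ iV).trans (integral_eq_zero_of_ae
    (Eventually.of_forall fun a' => by
      obtain ⟨h1, h2⟩ := test_twoa hρ0 hu (t2.comp (contDiff_id.sub contDiff_const))
        fun r => (t3 (r - D.z e a')).1.comp_sub_const r (D.z e a')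
      have h3 := h.ver_e e h1
      simp only [h2] at h3
      exact (integral_const_mul (kr ρ (u - D.x a')) _).trans (mul_eq_zero_of_right _ h3)))
  have eW := (integral_prod _ iW).trans (integral_eq_zero_of_ae
    (Eventually.of_forall fun a => by
      obtain ⟨h1, h2⟩ := test_twoa hρ0 hu (t2.comp (contDiff_const.sub contDiff_id))
        fun r => (t3 (D.z e a - r)).1.comp_const_sub (D.z e a) r
      have h3 := h.hor_e e h1 (D.q a e)
      simp only [h2] at h3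
      exact (integral_const_mul (kr ρ (u - D.x a)) _).trans (mul_eq_zero_of_right _ h3)))
  have j1 := (((bk u).mul bn).fst.mul k2).int
  have j2 := (k1.mul ((bk u).mul bn).snd).int
  have j3 := (((bk u).mul br).fst.mul k2).int
  have j4 := (((bk u).mul br).fst.mul ((BMtwoa.const (Ck / ρ ^ 3)).mul bn).snd).int
  have j5 := ((j1.const_mul 7).add (j2.const_mul 3)).const_mul (s ^ 2)
  have j6 := ((j3.const_mul 26).add (j4.const_mul 16)).const_mul Δ
  have iB := j5.add j6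
  have key := integral_mono_ae iS (((iN.add iV).add iW).add iB) (by
    filter_upwards [hae] with b ⟨⟨b1, y1⟩, b2, _⟩
    obtain ⟨-, n1, -, -, -, a6, a7, a8, -, -, -, a12, -⟩ := b1.scal h.δ_nonneg hδ he
    obtain ⟨-, n2, a3, -, -, -, -, -, -, -, -, -, a13, -⟩ := b2.scal h.δ_nonneg hδ he
    obtain ⟨-, q1, -⟩ := b1.twoa h.δ_nonneg hδ he
    obtain ⟨p2, -, -, τ2⟩ := b2.twoa h.δ_nonneg hδ he
    have s1 := Real.sqrt_nonneg (D.en b.1)
    have s2 := Real.sqrt_nonneg (D.en b.2)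
    have h1 := ineq_twoa (s := s) (n := D.en b.1) (n' := D.en b.2) (c := Ck / ρ ^ 3)
      (η := ‖D.y b.1‖) (g := ⟪D.g b.1 e, e⟫) (X := ⟪D.p e b.2, D.q b.1 e - D.p e b.1⟫)
      (T := fderiv ℝ (kr ρ) (u - D.x b.2) (D.τ b.2 (D.q b.1 e))) (Y := ⟪D.eh b.2, D.q b.1 e⟫)
      (kr_nonneg ρ (u - D.x b.1)) (kr_nonneg ρ (u - D.x b.2)) (t3 (D.z e b.1 - D.z e b.2)).2.2.1
      (t3 _).2.2.2 (t3 (D.z e b.1 - D.z e b.2)).2.1 (by
        rw [abs_of_nonneg (mul_nonneg (norm_nonneg _) a7)]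
        exact (mul_le_mul y1 a8 a7 (sq_nonneg _)).trans (le_of_eq (by ring))) (by
        refine (abs_real_inner_le_norm _ _).trans ((mul_le_mul p2 (a6.trans
          (mul_le_mul_of_nonneg_right (mul_le_mul_of_nonneg_left y1 zero_le_two) s1))
            (norm_nonneg _) (by positivity)).trans ?_)
        have h2 : 2 * (√(D.en b.1) * √(D.en b.2)) ≤ D.en b.1 + D.en b.2 := by
          nlinarith [sq_nonneg (√(D.en b.1) - √(D.en b.2)), Real.sq_sqrt n1, Real.sq_sqrt n2]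
        linarith [mul_le_mul_of_nonneg_left h2 (sq_nonneg s)]) a12 (by
        refine (ContinuousLinearMap.le_opNorm _ _).trans ((mul_le_mul (kr_le hρ0 _).2.1
          ((ContinuousLinearMap.le_opNorm _ _).trans (mul_le_mul τ2 q1 (norm_nonneg _)
            (by linarith))) (norm_nonneg _) (by positivity)).trans (le_of_eq (by ring)))) (by
        refine (abs_real_inner_le_norm _ _).trans ((mul_le_mul (a13.trans a3) q1 (norm_nonneg _)
          (by norm_num)).trans (le_of_eq (by ring))))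
    simp only [Pi.add_apply, map_sub, inner_sub_right] at h1 ⊢
    linarith)
  rw [integral_add' ((iN.add iV).add iW) iB, integral_add' (iN.add iV) iW, integral_add' iN iV, eV,
    eW, ← f2 u, integral_add' j5 j6,
    integral_const_mul, integral_const_mul, integral_add' (j1.const_mul 7) (j2.const_mul 3),
    integral_add' (j3.const_mul 26) (j4.const_mul 16), integral_const_mul, integral_const_mul,
    integral_const_mul, integral_const_mul,
    integral_prod_mul (fun a => kr ρ (u - D.x a) * D.en a) fun a => kr ρ (u - D.x a),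
    integral_prod_mul (fun a => kr ρ (u - D.x a)) fun a => kr ρ (u - D.x a) * D.en a,
    integral_prod_mul (fun a => kr ρ (u - D.x a) * √(D.en a)) fun a => kr ρ (u - D.x a),
    integral_prod_mul (fun a => kr ρ (u - D.x a) * √(D.en a)) fun a => Ck / ρ ^ 3 * D.en a,
    integral_const_mul] at key
  have e2 := (integral_prod _ (iS.add iS.swap)).symm.trans (integral_add' iS iS.swap)
  rw [Function.comp_def, integral_prod_swap (fun b : α × α => kr ρ (u - D.x b.1) *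
    kr ρ (u - D.x b.2) * thTwoa Δ (D.z e b.1 - D.z e b.2) *
      ((1 + ‖D.y b.1‖) * ⟪D.g b.1 e, e⟫ - ⟪D.p e b.2, D.p e b.1⟫))] at e2
  have e3 : D.two e ρ Δ u = _ := Eq.trans (integral_congr_ae (Eventually.of_forall fun a =>
    integral_congr_ae (Eventually.of_forall fun a' => by
      have h1 : ((D.z e a' - D.z e a) / Δ) ^ 2 = ((D.z e a - D.z e a') / Δ) ^ 2 := by ring
      simp only [Pi.add_apply, Prod.fst_swap, Prod.snd_swap, thTwoa, CD.dd, norm_sub_sq_real, h1,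
        real_inner_comm (D.p e a') (D.p e a)]
      ring))) e2
  have hn0 : 0 ≤ ∫ a, kr ρ (u - D.x a) * D.en a ∂D.m :=
    integral_nonneg_of_ae (h.pw_av.mono fun a ha => mul_nonneg (kr_nonneg _ _) ha.facts_av.1)
  have h4 : Ck / ρ ^ 3 * ∫ a, D.en a ∂D.m ≤ Ck := by
    rw [div_mul_eq_mul_div, div_le_iff₀ (by positivity)]
    refine mul_le_mul_of_nonneg_left (hs.en_le.trans
      ((pow_le_pow_left₀ hs.s_pos.le hs.s_le 4).trans ?_)) hCk.le
    rw [← pow_mul]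
    exact pow_le_pow_of_le_one hρ0.le (by linarith) (by norm_num)
  have g1 := mul_nonneg hΔ.le (hr0 u)
  have g2 := mul_nonneg (sq_nonneg s) hn0
  have g3 := mul_nonneg hΔ.le (sq_nonneg s)
  rw [e3]
  simp only [CD.av, smul_eq_mul]
  linarith [mul_le_mul_of_nonneg_left (av_one_twoa h hs hρ u) g1,
    mul_le_mul_of_nonneg_left (av_one_twoa h hs hρ u) g2, mul_le_mul_of_nonneg_left h4 g1,
    mul_nonneg hCk.le g1, mul_nonneg hCk.le g2, mul_nonneg hCk.le g3, mul_nonneg hCM g1,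
    mul_nonneg hCM g2, mul_nonneg hCM g3]

end Pool.Agent.Lib.MP_8daebb_an.SV
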